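import Mathlib

set_option autoImplicit false
open Filter Topology

namespace Pool.Agent.H94.BasicSeq

variable {𝕂 : Type*} [RCLike 𝕂] {X : Type*} [NormedAddCommGroup X] [NormedSpace 𝕂 X]

theorem coef_bound (f : ℕ → X) (C : ℝ)
    (h : ∀ (a : ℕ → 𝕂) (m n : ℕ), m ≤ n →
      ‖∑ i ∈ Finset.range m, a i • f i‖ ≤ C * ‖∑ i ∈ Finset.range n, a i • f i‖)
    (a : ℕ → 𝕂) (j n : ℕ) (hj : j < n) :
    ‖a j‖ * ‖f j‖ ≤ 2 * C * ‖∑ i ∈ Finset.range n, a i • f i‖ := by
  have h1 := h a (j + 1) n hj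
  have h2 := h a j n hj.le
  have h3 : a j • f j = ∑ i ∈ Finset.range (j + 1), a i • f i - ∑ i ∈ Finset.range j, a i • f i := by
    rw [Finset.sum_range_succ]; abel
  rw [← norm_smul, h3]
  have := norm_sub_le (∑ i ∈ Finset.range (j + 1), a i • f i) (∑ i ∈ Finset.range j, a i • f i)
  linarith

theorem finsupp_range (f : ℕ → X) (c : ℕ →₀ 𝕂) :
    ∃ N, ∀ n, N ≤ n → ∑ i ∈ Finset.range n, c i • f i = c.sum (fun i a => a • f i) := by
  refine ⟨c.support.sup id + 1, fun n hn => ?_⟩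
  symm
  apply Finsupp.sum_of_support_subset
  · intro i hi
    have : i ≤ c.support.sup id := Finset.le_sup (f := id) hi
    simp only [Finset.mem_range]; omega
  · intro i _; simp

theorem grunblum (f : ℕ → X) (hf : ∀ n, f n ≠ 0) (C : ℝ)
    (h : ∀ (a : ℕ → 𝕂) (m n : ℕ), m ≤ n →
      ‖∑ i ∈ Finset.range m, a i • f i‖ ≤ C * ‖∑ i ∈ Finset.range n, a i • f i‖) :
    ∀ y ∈ (Submodule.span 𝕂 (Set.range f)).topologicalClosure,
      ∃! a : ℕ → 𝕂, Tendsto (fun N => ∑ i ∈ Finset.range N, a i • f i) atTop (𝓝 y) := by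
  classical
  have hli : LinearIndependent 𝕂 f := by
    rw [linearIndependent_iff]
    intro l hl
    obtain ⟨N, hN⟩ := finsupp_range f l
    ext j
    have h1 := coef_bound f C h l j (max N (j + 1)) (by omega)
    rw [hN _ (le_max_left _ _)] at h1
    have h2 : l.sum (fun i a => a • f i) = 0 := by
      rw [← hl, Finsupp.linearCombination_apply]
    rw [h2, norm_zero, mul_zero] at h1
    have h3 : 0 < ‖f j‖ := norm_pos_iff.mpr (hf j)
    have h4 : ‖l j‖ ≤ 0 := by
      by_contra hc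
      push Not at hc
      have := mul_pos hc h3
      linarith
    simpa using norm_le_zero_iff.mp h4
  have hrepr : ∀ x : Submodule.span 𝕂 (Set.range f), ∃ N, ∀ n, N ≤ n →
      ∑ i ∈ Finset.range n, hli.repr x i • f i = x := by
    intro x
    obtain ⟨N, hN⟩ := finsupp_range f (hli.repr x)
    refine ⟨N, fun n hn => ?_⟩
    rw [hN n hn, ← Finsupp.linearCombination_apply, hli.linearCombination_repr]
  have hc : ∀ j, ∃ c : X →L[𝕂] 𝕂, ∀ x : Submodule.span 𝕂 (Set.range f), c x = hli.repr x j := by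
    intro j
    have h3 : 0 < ‖f j‖ := norm_pos_iff.mpr (hf j)
    let c0 : Submodule.span 𝕂 (Set.range f) →ₗ[𝕂] 𝕂 := (Finsupp.lapply j).comp hli.repr
    have hb : ∀ x, ‖c0 x‖ ≤ (2 * C / ‖f j‖) * ‖x‖ := by
      intro x
      obtain ⟨N, hN⟩ := hrepr x
      have h1 := coef_bound f C h (hli.repr x) j (max N (j + 1)) (by omega)
      rw [hN _ (le_max_left _ _)] at h1
      rw [div_mul_eq_mul_div, le_div_iff₀ h3]
      exact h1
    obtain ⟨g, hg, -⟩ := exists_extension_norm_eq (Submodule.span 𝕂 (Set.range f))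
      (c0.mkContinuous _ hb)
    exact ⟨g, fun x => hg x⟩
  choose c hc using hc
  have hcf : ∀ j i, c j (f i) = if i = j then 1 else 0 := by
    intro j i
    have := hc j ⟨f i, Submodule.subset_span ⟨i, rfl⟩⟩
    rw [hli.repr_eq_single i _ rfl] at this
    simpa [Finsupp.single_apply] using this
  have hcsum : ∀ (a : ℕ → 𝕂) (j n : ℕ), j < n → c j (∑ i ∈ Finset.range n, a i • f i) = a j := by
    intro a j n hj
    simp [map_sum, hcf, hj]
  let S : ℕ → X → X := fun m y => ∑ i ∈ Finset.range m, c i y • f i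
  have hScont : ∀ m, Continuous (S m) := by
    intro m
    exact continuous_finset_sum _ (fun i _ => (c i).continuous.smul continuous_const)
  have hSsub : ∀ m y z, S m (y - z) = S m y - S m z := by
    intro m y z
    simp only [S, map_sub, sub_smul, Finset.sum_sub_distrib]
  have hSb : ∀ m, ∀ y ∈ (Submodule.span 𝕂 (Set.range f)).topologicalClosure,
      ‖S m y‖ ≤ C * ‖y‖ := by
    intro m y hy
    have hcl : IsClosed {y : X | ‖S m y‖ ≤ C * ‖y‖} :=
      isClosed_le (hScont m).norm (continuous_const.mul continuous_norm)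
    refine closure_minimal (s := (Submodule.span 𝕂 (Set.range f) : Set X)) ?_ hcl hy
    intro x hx
    obtain ⟨N, hN⟩ := hrepr ⟨x, hx⟩
    have h1 := h (hli.repr ⟨x, hx⟩) m (max N m) (le_max_right _ _)
    rw [hN _ (le_max_left _ _)] at h1
    have h2 : S m x = ∑ i ∈ Finset.range m, hli.repr ⟨x, hx⟩ i • f i := by
      simp only [S]
      exact Finset.sum_congr rfl (fun i _ => by rw [← hc i ⟨x, hx⟩])
    simpa [h2] using h1
  intro y hy
  refine ⟨fun i => c i y, ?_, ?_⟩
  · beta_reduce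
    rw [Metric.tendsto_atTop]
    intro ε hε
    have hpos : 0 < ε / (|C| + 1) := by positivity
    obtain ⟨x, hx, hxy⟩ := Metric.mem_closure_iff.mp hy _ hpos
    obtain ⟨N, hN⟩ := hrepr ⟨x, hx⟩
    refine ⟨N, fun n hn => ?_⟩
    have h2 : S n x = x := by
      have := hN n hn
      simp only at this
      rw [← this]
      conv_lhs => rw [this]
      simp only [S]
      exact Finset.sum_congr rfl (fun i _ => by rw [← hc i ⟨x, hx⟩])
    have h3 : y - x ∈ (Submodule.span 𝕂 (Set.range f)).topologicalClosure :=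
      Submodule.sub_mem _ hy (Submodule.le_topologicalClosure _ hx)
    have h4 := hSb n _ h3
    rw [hSsub, h2] at h4
    rw [dist_eq_norm] at hxy ⊢
    have h5 : S n y - y = (S n y - x) - (y - x) := by abel
    change ‖S n y - y‖ < ε
    rw [h5]
    have h6 := norm_sub_le (S n y - x) (y - x)
    have h7 : C * ‖y - x‖ ≤ |C| * ‖y - x‖ :=
      mul_le_mul_of_nonneg_right (le_abs_self C) (norm_nonneg _)
    rw [lt_div_iff₀ (by positivity)] at hxy
    nlinarith
  · intro a ha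
    funext j
    have h1 : Tendsto (fun N => c j (∑ i ∈ Finset.range N, a i • f i)) atTop (𝓝 (c j y)) :=
      ((c j).continuous.tendsto y).comp ha
    have h2 : Tendsto (fun N => c j (∑ i ∈ Finset.range N, a i • f i)) atTop (𝓝 (a j)) := by
      apply tendsto_const_nhds.congr'
      filter_upwards [eventually_gt_atTop j] with n hn
      rw [hcsum a j n hn]
    exact tendsto_nhds_unique h2 h1

/-- Mazur's lemma. -/
theorem mazur (F K : Submodule 𝕂 X) [FiniteDimensional 𝕂 F] (hK : ¬ FiniteDimensional 𝕂 K)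
    (δ : ℝ) (hδ : 0 < δ) :
    ∃ z ∈ K, z ≠ 0 ∧ ∀ v ∈ F, ∀ t : 𝕂, (1 - δ) * ‖v‖ ≤ ‖v + t • z‖ := by
  classical
  haveI : ProperSpace F := FiniteDimensional.proper_rclike 𝕂 F
  have hcomp : IsCompact (Metric.sphere (0 : F) 1) := isCompact_sphere 0 1
  obtain ⟨T, hT, hTfin, hcov⟩ := finite_cover_balls_of_compact hcomp (half_pos hδ)
  choose g hg1 hg2 using fun x : X => exists_dual_vector'' 𝕂 x
  haveI : Fintype T := hTfin.fintype
  let L : K →ₗ[𝕂] (T → 𝕂) := LinearMap.pi (fun w : T => ((g ((w : F) : X) : X →ₗ[𝕂] 𝕂)).comp K.subtype)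
  have hL : ¬ Function.Injective L := fun hinj => hK (FiniteDimensional.of_injective L hinj)
  rw [← LinearMap.ker_eq_bot, Submodule.eq_bot_iff] at hL
  push Not at hL
  obtain ⟨z, hz, hz0⟩ := hL
  refine ⟨z, z.2, fun h => hz0 (Subtype.ext h), ?_⟩
  have hzg : ∀ w ∈ T, g ((w : F) : X) z = 0 := by
    intro w hw
    have := congrFun (LinearMap.mem_ker.mp hz) ⟨w, hw⟩
    simpa [L] using this
  have unit : ∀ v ∈ F, ‖v‖ = 1 → ∀ t : 𝕂, (1 - δ) ≤ ‖v + t • (z : X)‖ := by
    intro v hv hv1 t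
    have hmem : (⟨v, hv⟩ : F) ∈ Metric.sphere (0 : F) 1 := by simpa using hv1
    have := hcov hmem
    simp only [Set.mem_iUnion] at this
    obtain ⟨w, hw, hvw⟩ := this
    have hw1 : ‖((w : F) : X)‖ = 1 := by simpa using hT hw
    have hd : ‖v - w‖ < δ / 2 := by
      have := Metric.mem_ball.mp hvw
      rw [dist_eq_norm] at this
      exact this
    have e1 : g (w : X) (v + t • (z : X)) = 1 + g (w : X) (v - w) := by
      rw [map_add, map_smul, hzg w hw, map_sub, hg2, hw1]; simp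
    have e2 : ‖g (w : X) (v + t • (z : X))‖ ≤ ‖v + t • (z : X)‖ := by
      refine ((g (w : X)).le_opNorm _).trans ?_
      exact mul_le_of_le_one_left (norm_nonneg _) (hg1 _)
    have e3 : ‖g (w : X) (v - w)‖ ≤ ‖v - w‖ := by
      refine ((g (w : X)).le_opNorm _).trans ?_
      exact mul_le_of_le_one_left (norm_nonneg _) (hg1 _)
    have e4 : ‖(1 : 𝕂)‖ ≤ ‖1 + g (w : X) (v - w)‖ + ‖g (w : X) (v - w)‖ := by
      have := norm_sub_le (1 + g (w : X) (v - w)) (g (w : X) (v - w))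
      simpa using this
    rw [norm_one] at e4
    rw [e1] at e2
    linarith
  intro v hv t
  by_cases hv0 : v = 0
  · subst hv0; simp
  have hn : 0 < ‖v‖ := norm_pos_iff.mpr hv0
  have hn' : ((‖v‖ : ℝ) : 𝕂) ≠ 0 := by exact_mod_cast hn.ne'
  have h1 := unit (((‖v‖ : ℝ) : 𝕂)⁻¹ • v) (F.smul_mem _ hv) (by
    rw [norm_smul, norm_inv, RCLike.norm_ofReal, abs_of_pos hn, inv_mul_cancel₀ hn.ne'])
    (((‖v‖ : ℝ) : 𝕂)⁻¹ * t)
  rw [mul_smul, ← smul_add, norm_smul, norm_inv, RCLike.norm_ofReal, abs_of_pos hn,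
    ← div_eq_inv_mul, le_div_iff₀ hn] at h1
  exact h1

/-- One step. -/
theorem step (F K : Submodule 𝕂 X) [FiniteDimensional 𝕂 F] (hK : ¬ FiniteDimensional 𝕂 K)
    (g : X) (θ : ℝ) (hθ : θ < 1) :
    ∃ z ∈ K, ∀ v ∈ F, ∀ t : 𝕂, θ * ‖v‖ ≤ ‖v + t • (g + z)‖ := by
  by_cases hθ0 : θ ≤ 0
  · exact ⟨0, K.zero_mem, fun v _ t =>
      (mul_nonpos_of_nonpos_of_nonneg hθ0 (norm_nonneg _)).trans (norm_nonneg _)⟩
  push Not at hθ0
  set δ := (1 - θ) / 2 with hδ
  have hδ0 : 0 < δ := by rw [hδ]; linarith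
  have hδ1 : δ < 1 / 2 := by rw [hδ]; linarith
  obtain ⟨z, hzK, hz0, hz⟩ := mazur (F ⊔ Submodule.span 𝕂 {g}) K hK δ hδ0
  have hzn : 0 < ‖z‖ := norm_pos_iff.mpr hz0
  set M : ℝ := (3 * ‖g‖ / δ + 1) / ‖z‖ with hM
  have hM0 : 0 < M := by positivity
  have hMz : M * ‖z‖ = 3 * ‖g‖ / δ + 1 := by rw [hM]; field_simp
  refine ⟨(M : 𝕂) • z, K.smul_mem _ hzK, fun v hv t => ?_⟩
  have hw : v + t • g ∈ F ⊔ Submodule.span 𝕂 {g} :=
    Submodule.add_mem_sup hv (Submodule.smul_mem _ _ (Submodule.mem_span_singleton_self g))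
  have h1 := hz _ hw (t * M)
  have e : v + t • g + (t * (M : 𝕂)) • z = v + t • (g + (M : 𝕂) • z) := by
    rw [smul_add, mul_smul]; abel
  rw [e] at h1
  set A := ‖v + t • (g + (M : 𝕂) • z)‖ with hA
  set B := ‖v + t • g‖ with hB
  have hA0 : 0 ≤ A := norm_nonneg _
  have hB0 : 0 ≤ B := norm_nonneg _
  have h2 : ‖t‖ * (M * ‖z‖) ≤ A + B := by
    have : (t * (M : 𝕂)) • z = (v + t • (g + (M : 𝕂) • z)) - (v + t • g) := by
      rw [← e]; abel
    have h3 := norm_sub_le (v + t • (g + (M : 𝕂) • z)) (v + t • g)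
    rw [← this, norm_smul, norm_mul, RCLike.norm_ofReal, abs_of_pos hM0] at h3
    linarith
  have h3 : ‖v‖ ≤ B + ‖t‖ * ‖g‖ := by
    have := norm_sub_le (v + t • g) (t • g)
    rw [norm_smul] at this
    simpa using this
  have hB2 : B ≤ 2 * A := by nlinarith
  have h4 : ‖t‖ * ‖g‖ ≤ δ * A := by
    rw [hMz] at h2
    have h5 : ‖t‖ * (3 * ‖g‖ / δ) ≤ 3 * A := by nlinarith [norm_nonneg t]
    have h6 : ‖t‖ * (3 * ‖g‖ / δ) = 3 * (‖t‖ * ‖g‖) / δ := by ring
    rw [h6, div_le_iff₀ hδ0] at h5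
    linarith
  have hθe : θ = 1 - 2 * δ := by rw [hδ]; ring
  have h7 : θ * ‖v‖ ≤ θ * (B + δ * A) := mul_le_mul_of_nonneg_left (by linarith) hθ0.le
  have h8 : θ * B ≤ (1 - δ) * A := by
    have : θ ≤ (1 - δ) * (1 - δ) := by rw [hθe]; nlinarith
    nlinarith
  have h9 : θ * (δ * A) ≤ δ * A := mul_le_of_le_one_left (by positivity) hθ.le
  have h10 : θ * (B + δ * A) = θ * B + θ * (δ * A) := by ring
  linarith

theorem lift_inf (K : Submodule 𝕂 X) (hK : ¬ FiniteDimensional 𝕂 K) (g : ℕ → X) :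
    ∃ f : ℕ → X, (∀ n, f n - g n ∈ K) ∧ ∀ (a : ℕ → 𝕂) (m n : ℕ), m ≤ n →
      ‖∑ i ∈ Finset.range m, a i • f i‖ ≤ 2 * ‖∑ i ∈ Finset.range n, a i • f i‖ := by
  classical
  let c : ℕ → ℝ := fun n => 2 - 1 / ((n : ℝ) + 1)
  have hc1 : ∀ n, 1 ≤ c n := by
    intro n
    have : 1 / ((n : ℝ) + 1) ≤ 1 := by
      rw [div_le_one (by positivity)]; have : (0 : ℝ) ≤ n := Nat.cast_nonneg n; linarith
    simp only [c]; linarith
  have hc2 : ∀ n, c n ≤ 2 := by
    intro n
    have : 0 < 1 / ((n : ℝ) + 1) := by positivity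
    simp only [c]; linarith
  have hc3 : ∀ n, c n / c (n + 1) < 1 := by
    intro n
    rw [div_lt_one (by linarith [hc1 (n + 1)])]
    have : 1 / (((n + 1 : ℕ) : ℝ) + 1) < 1 / ((n : ℝ) + 1) := by
      apply one_div_lt_one_div_of_lt (by positivity)
      push_cast; linarith
    simp only [c]; linarith
  have key : ∀ (n : ℕ) (s : Finset X), ∃ u : X, u - g n ∈ K ∧
      ∀ v ∈ Submodule.span 𝕂 (s : Set X), ∀ t : 𝕂, c n / c (n + 1) * ‖v‖ ≤ ‖v + t • u‖ := by
    intro n s
    obtain ⟨z, hz, h⟩ := step (Submodule.span 𝕂 (s : Set X)) K hK (g n) _ (hc3 n)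
    exact ⟨g n + z, by simpa using hz, h⟩
  choose u hu1 hu2 using key
  obtain ⟨s, hs⟩ : ∃ s : ℕ → Finset X, ∀ n, s (n + 1) = insert (u n (s n)) (s n) :=
    ⟨fun n => Nat.rec ∅ (fun k sk => insert (u k sk) sk) n, fun n => rfl⟩
  let f : ℕ → X := fun n => u n (s n)
  have hmem : ∀ n i, i < n → f i ∈ s n := by
    intro n
    induction n with
    | zero => intro i hi; omega
    | succ n ih =>
      intro i hi
      rw [hs, Finset.mem_insert]
      rcases Nat.lt_succ_iff_lt_or_eq.mp hi with h | h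
      · exact Or.inr (ih i h)
      · left; rw [h]
  refine ⟨f, fun n => hu1 n (s n), fun a m n hmn => ?_⟩
  have mono : ∀ k, c k * ‖∑ i ∈ Finset.range k, a i • f i‖ ≤
      c (k + 1) * ‖∑ i ∈ Finset.range (k + 1), a i • f i‖ := by
    intro k
    have hv : ∑ i ∈ Finset.range k, a i • f i ∈ Submodule.span 𝕂 (SetLike.coe (s k)) := by
      refine Submodule.sum_mem _ (fun i hi => Submodule.smul_mem _ _ ?_)
      apply Submodule.subset_span
      exact Finset.mem_coe.mpr (hmem k i (Finset.mem_range.mp hi))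
    have h := hu2 k (s k) _ hv (a k)
    rw [Finset.sum_range_succ]
    have hp : 0 < c (k + 1) := by linarith [hc1 (k + 1)]
    rw [div_mul_eq_mul_div, div_le_iff₀ hp] at h
    simp only [f] at h ⊢
    linarith
  have hm := monotone_nat_of_le_succ (f := fun k => c k * ‖∑ i ∈ Finset.range k, a i • f i‖)
    mono hmn
  simp only at hm
  have e1 := mul_le_mul_of_nonneg_right (hc1 m) (norm_nonneg (∑ i ∈ Finset.range m, a i • f i))
  have e2 := mul_le_mul_of_nonneg_right (hc2 n) (norm_nonneg (∑ i ∈ Finset.range n, a i • f i))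
  linarith

theorem lift {Y : Type*} [NormedAddCommGroup Y] [NormedSpace 𝕂 Y] [CompleteSpace X]
    [CompleteSpace Y] (Q : X →L[𝕂] Y) (hQ : Function.Surjective Q) (φ : ℕ → Y)
    (h0 : ∀ n, φ n ≠ 0)
    (hφ : ∀ y ∈ (Submodule.span 𝕂 (Set.range φ)).topologicalClosure,
      ∃! a : ℕ → 𝕂, Tendsto (fun N => ∑ i ∈ Finset.range N, a i • φ i) atTop (𝓝 y)) :
    ∃ f : ℕ → X, (∀ n, Q (f n) = φ n) ∧ (∀ n, f n ≠ 0) ∧
      ∀ y ∈ (Submodule.span 𝕂 (Set.range f)).topologicalClosure,
        ∃! a : ℕ → 𝕂, Tendsto (fun N => ∑ i ∈ Finset.range N, a i • f i) atTop (𝓝 y) := by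
  have hne : ∀ f : ℕ → X, (∀ n, Q (f n) = φ n) → ∀ n, f n ≠ 0 := by
    intro f hf n hn
    apply h0 n
    rw [← hf n, hn, map_zero]
  by_cases hK : FiniteDimensional 𝕂 Q.ker
  · obtain ⟨p, hp⟩ := Submodule.ClosedComplemented.of_finiteDimensional Q.ker
    have hpr : p.range = ⊤ := by
      rw [LinearMap.range_eq_top]
      intro x
      exact ⟨x, hp x⟩
    have hQr : Q.range = ⊤ := LinearMap.range_eq_top.mpr hQ
    have hco : IsCompl Q.ker p.ker := LinearMap.isCompl_of_proj hp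
    let e := ContinuousLinearMap.equivProdOfSurjectiveOfIsCompl Q p hQr hpr hco
    let T : Y →L[𝕂] X := (e.symm : Y × Q.ker →L[𝕂] X).comp (ContinuousLinearMap.inl 𝕂 Y Q.ker)
    have hT : ∀ y, Q (T y) = y := by
      intro y
      have : e (e.symm (y, 0)) = (y, 0) := e.apply_symm_apply _
      rw [ContinuousLinearMap.equivProdOfSurjectiveOfIsCompl_apply] at this
      exact congrArg Prod.fst this
    refine ⟨fun n => T (φ n), fun n => hT _, hne _ (fun n => hT _), fun y hy => ?_⟩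
    have h1 : Q y ∈ (Submodule.span 𝕂 (Set.range φ)).topologicalClosure ∧ T (Q y) = y := by
      have hcl : IsClosed {y : X | Q y ∈ (Submodule.span 𝕂 (Set.range φ)).topologicalClosure ∧
          T (Q y) = y} :=
        ((Submodule.isClosed_topologicalClosure _).preimage Q.continuous).inter
          (isClosed_eq (T.continuous.comp Q.continuous) continuous_id)
      refine closure_minimal
        (s := (Submodule.span 𝕂 (Set.range fun n => T (φ n)) : Set X)) ?_ hcl hy
      intro x hx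
      induction hx using Submodule.span_induction with
      | mem x hx =>
        obtain ⟨n, rfl⟩ := hx
        simp only [Set.mem_setOf_eq, hT, and_true]
        exact Submodule.le_topologicalClosure _ (Submodule.subset_span ⟨n, rfl⟩)
      | zero => simp
      | add x y _ _ hx hy =>
        refine ⟨?_, ?_⟩
        · rw [map_add]; exact Submodule.add_mem _ hx.1 hy.1
        · rw [map_add, map_add, hx.2, hy.2]
      | smul a x _ hx =>
        refine ⟨?_, ?_⟩
        · rw [map_smul]; exact Submodule.smul_mem _ _ hx.1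
        · rw [map_smul, map_smul, hx.2]
    obtain ⟨a, ha, hu⟩ := hφ _ h1.1
    refine ⟨a, ?_, fun b hb => hu b ?_⟩
    · have := (T.continuous.tendsto _).comp ha
      rw [h1.2] at this
      refine this.congr (fun N => ?_)
      simp [map_sum]
    · have := (Q.continuous.tendsto _).comp hb
      refine this.congr (fun N => ?_)
      simp [map_sum, hT]
  · choose g hg using fun n => hQ (φ n)
    obtain ⟨f, hf1, hf2⟩ := lift_inf Q.ker hK g
    have hf : ∀ n, Q (f n) = φ n := by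
      intro n
      have : Q (f n - g n) = 0 := hf1 n
      rw [map_sub, sub_eq_zero] at this
      rw [this, hg]
    exact ⟨f, hf, hne f hf, grunblum f (hne f hf) 2 hf2⟩

end Pool.Agent.H94.BasicSeq
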