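import Mathlib

set_option autoImplicit false

namespace Pool.Agent.H94.AFOp

open Filter Set
open scoped Topology ENNReal

lemma exists_ad (C : Type) (f : C → ℕ → Bool) (hf : Function.Injective f) :
    ∃ Ad : C → Set ℕ, (∀ c, (Ad c).Infinite) ∧ ∀ c d, c ≠ d → (Ad c ∩ Ad d).Finite := by
  let e : C → ℕ → ℕ := fun c k => Encodable.encode (List.ofFn fun j : Fin k => f c j)
  have he : ∀ c d k l, e c k = e d l → k = l ∧ ∀ j < k, f c j = f d j := by
    intro c d k l h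
    have h1 := Encodable.encode_injective h
    have h2 : k = l := by simpa using congrArg List.length h1
    subst h2
    refine ⟨rfl, fun j hj => ?_⟩
    exact congrFun (List.ofFn_injective h1) ⟨j, hj⟩
  refine ⟨fun c => range (e c), fun c => infinite_range_of_injective fun k l h => (he c c k l h).1,
    fun c d hcd => ?_⟩
  obtain ⟨j, hj⟩ := Function.ne_iff.1 (hf.ne hcd)
  refine ((finite_Iic j).image (e c)).subset ?_
  rintro _ ⟨⟨k, rfl⟩, l, hl⟩
  refine ⟨k, ?_, rfl⟩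
  by_contra h
  exact hj ((he c d k l hl.symm).2 j (not_le.1 h))

lemma one_le_norm {R : Type} [NonUnitalNormedRing R] {x : R} (h : x * x = x) (h0 : x ≠ 0) :
    1 ≤ ‖x‖ := by
  have h1 := norm_mul_le x x
  rw [h] at h1
  have h2 : 0 < ‖x‖ := norm_pos_iff.2 h0
  nlinarith

section
variable {B : ℕ → Type} [∀ n, CStarAlgebra (B n)] {C : Type} (Ad : C → Set ℕ)
  (r : C → ∀ n, B n) (hr : ∀ c n, IsStarProjection (r c n))

open Classical in
noncomputable def Pc (c : C) : lp B ∞ :=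
  ⟨fun n => if n ∈ Ad c then r c n else 0, memℓp_infty ⟨1, by
    rintro _ ⟨n, rfl⟩
    dsimp only
    split_ifs
    · exact (hr c n).norm_le
    · simp⟩⟩

lemma Pc_of_mem {c : C} {n : ℕ} (h : n ∈ Ad c) : Pc Ad r hr c n = r c n := if_pos h

lemma Pc_of_notMem {c : C} {n : ℕ} (h : n ∉ Ad c) : Pc Ad r hr c n = 0 := if_neg h

lemma Pc_star (c : C) (n : ℕ) : star (Pc Ad r hr c n) = Pc Ad r hr c n := by
  by_cases h : n ∈ Ad c
  · rw [Pc_of_mem Ad r hr h]
    exact (hr c n).isSelfAdjoint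
  · rw [Pc_of_notMem Ad r hr h, star_zero]

lemma Pc_mul (c : C) (n : ℕ) : Pc Ad r hr c n * Pc Ad r hr c n = Pc Ad r hr c n := by
  by_cases h : n ∈ Ad c
  · rw [Pc_of_mem Ad r hr h]
    exact (hr c n).isIdempotentElem
  · rw [Pc_of_notMem Ad r hr h, mul_zero]

def Valid : Type :=
  {x : Finset ℕ × Finset C // ∀ c ∈ x.2, ∀ d ∈ x.2, c ≠ d → ∀ n ∉ x.1, n ∈ Ad c → n ∉ Ad d}

instance : Nonempty (Valid Ad) := ⟨⟨(∅, ∅), by simp⟩⟩

noncomputable def S (x : Valid Ad) : NonUnitalStarSubalgebra ℂ (lp B ∞) where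
  carrier := {a | ∃ α : C → ℂ, ∀ n ∉ x.1.1, a n = ∑ c ∈ x.1.2, α c • Pc Ad r hr c n}
  add_mem' := by
    rintro a b ⟨α, ha⟩ ⟨β, hb⟩
    refine ⟨α + β, fun n hn => ?_⟩
    rw [lp.coeFn_add, Pi.add_apply, ha n hn, hb n hn, ← Finset.sum_add_distrib]
    simp [add_smul]
  zero_mem' := ⟨0, fun n _ => by simp⟩
  mul_mem' := by
    rintro a b ⟨α, ha⟩ ⟨β, hb⟩
    refine ⟨α * β, fun n hn => ?_⟩
    rw [lp.infty_coeFn_mul, Pi.mul_apply, ha n hn, hb n hn, Finset.sum_mul]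
    refine Finset.sum_congr rfl fun c hc => ?_
    rw [Finset.mul_sum, Finset.sum_eq_single c]
    · rw [smul_mul_smul_comm, Pc_mul]
      rfl
    · intro d hd hdc
      rw [smul_mul_smul_comm]
      by_cases h : n ∈ Ad c
      · rw [Pc_of_notMem Ad r hr (x.2 c hc d hd (Ne.symm hdc) n hn h), mul_zero, smul_zero]
      · rw [Pc_of_notMem Ad r hr h, zero_mul, smul_zero]
    · intro h
      exact absurd hc h
  smul_mem' := by
    rintro z a ⟨α, ha⟩
    refine ⟨z • α, fun n hn => ?_⟩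
    rw [lp.coeFn_smul, Pi.smul_apply, ha n hn, Finset.smul_sum]
    simp [smul_smul]
  star_mem' := by
    rintro a ⟨α, ha⟩
    refine ⟨star α, fun n hn => ?_⟩
    rw [lp.coeFn_star, Pi.star_apply, ha n hn, star_sum]
    simp [Pc_star]

lemma mem_S {x : Valid Ad} {a : lp B ∞} : a ∈ S Ad r hr x ↔
    ∃ α : C → ℂ, ∀ n ∉ x.1.1, a n = ∑ c ∈ x.1.2, α c • Pc Ad r hr c n := Iff.rfl

lemma S_mono {x y : Valid Ad} (h1 : x.1.1 ⊆ y.1.1) (h2 : x.1.2 ⊆ y.1.2) :
    S Ad r hr x ≤ S Ad r hr y := by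
  classical
  rintro a ⟨α, ha⟩
  refine ⟨fun c => if c ∈ x.1.2 then α c else 0, fun n hn => ?_⟩
  rw [ha n fun h => hn (h1 h), ← Finset.sum_subset h2 (fun c _ hc => by simp [hc])]
  exact Finset.sum_congr rfl fun c hc => by simp [hc]

lemma S_dir (had : ∀ c d, c ≠ d → (Ad c ∩ Ad d).Finite) : Directed (· ≤ ·) (S Ad r hr) := by
  classical
  intro x y
  let T := x.1.2 ∪ y.1.2
  have hfin : (⋃ c ∈ T, ⋃ d ∈ T, ⋃ (_ : c ≠ d), Ad c ∩ Ad d).Finite := by
    refine T.finite_toSet.biUnion fun c _ => T.finite_toSet.biUnion fun d _ => ?_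
    exact finite_iUnion fun h => had c d h
  refine ⟨⟨(x.1.1 ∪ y.1.1 ∪ hfin.toFinset, T), ?_⟩, S_mono Ad r hr ?_ ?_, S_mono Ad r hr ?_ ?_⟩
  · intro c hc d hd hcd n hn h1 h2
    apply hn
    refine Finset.mem_union_right _ ?_
    simp only [Finite.mem_toFinset, mem_iUnion]
    exact ⟨c, hc, d, hd, hcd, h1, h2⟩
  · exact Finset.subset_union_left.trans Finset.subset_union_left
  · exact Finset.subset_union_left
  · exact Finset.subset_union_right.trans Finset.subset_union_left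
  · exact Finset.subset_union_right

lemma S_fd [∀ n, FiniteDimensional ℂ (B n)] (x : Valid Ad) :
    FiniteDimensional ℂ (S Ad r hr x).toNonUnitalSubalgebra.toSubmodule := by
  classical
  let W : Submodule ℂ (lp B ∞) :=
    (x.1.1.sup fun n => LinearMap.range (lp.lsingle (𝕜 := ℂ) (E := B) ∞ n)) ⊔
      Submodule.span ℂ (Pc Ad r hr '' x.1.2)
  have : FiniteDimensional ℂ (Submodule.span ℂ (Pc Ad r hr '' x.1.2)) :=
    FiniteDimensional.span_of_finite ℂ (x.1.2.finite_toSet.image _)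
  have hW : FiniteDimensional ℂ W := inferInstance
  refine Submodule.finiteDimensional_of_le (S₂ := W) ?_
  rintro a ⟨α, ha⟩
  set u : lp B ∞ := ∑ c ∈ x.1.2, α c • Pc Ad r hr c with hu
  have hun : ∀ n, u n = ∑ c ∈ x.1.2, α c • Pc Ad r hr c n := by
    intro n
    rw [hu, lp.coeFn_sum, Finset.sum_apply]
    rfl
  have e : a = ∑ n ∈ x.1.1, lp.single ∞ n (a n - u n) + u := by
    ext m
    rw [lp.coeFn_add, Pi.add_apply, lp.coeFn_sum, Finset.sum_apply]
    by_cases hm : m ∈ x.1.1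
    · rw [Finset.sum_eq_single m]
      · rw [lp.single_apply_self, sub_add_cancel]
      · intro n _ hn
        exact lp.single_apply_ne _ _ _ (Ne.symm hn)
      · intro h
        exact absurd hm h
    · rw [Finset.sum_eq_zero, zero_add, hun, ha m hm]
      intro n hn
      exact lp.single_apply_ne _ _ _ (fun h => hm (h ▸ hn))
  rw [e]
  refine Submodule.add_mem_sup (Submodule.sum_mem _ fun n hn => ?_)
    (Submodule.sum_mem _ fun c hc => Submodule.smul_mem _ _ (Submodule.subset_span ⟨c, hc, rfl⟩))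
  exact (Finset.le_sup (f := fun n => LinearMap.range (lp.lsingle (𝕜 := ℂ) (E := B) ∞ n)) hn :)
    ⟨_, rfl⟩

noncomputable def A : NonUnitalStarSubalgebra ℂ (lp B ∞) := (⨆ x, S Ad r hr x).topologicalClosure

instance : IsClosed (A Ad r hr : Set (lp B ∞)) :=
  NonUnitalStarSubalgebra.isClosed_topologicalClosure _

lemma S_le_A (x : Valid Ad) : S Ad r hr x ≤ A Ad r hr :=
  (le_iSup (S Ad r hr) x).trans (NonUnitalStarSubalgebra.le_topologicalClosure _)

lemma single_mem (n : ℕ) (b : B n) : lp.single ∞ n b ∈ A Ad r hr := by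
  refine S_le_A Ad r hr ⟨({n}, ∅), by simp⟩ ⟨0, fun m hm => ?_⟩
  rw [lp.single_apply_ne _ _ _ (by simpa using hm)]
  simp

lemma Pc_mem (c : C) : Pc Ad r hr c ∈ A Ad r hr :=
  S_le_A Ad r hr ⟨(∅, {c}), by simp⟩ ⟨1, fun m _ => by simp⟩

def J (l : Filter ℕ) : Submodule ℂ (lp B ∞) where
  carrier := {a | Tendsto (fun n => ‖a n‖) l (𝓝 0)}
  add_mem' := by
    intro a b ha hb
    have h := Tendsto.add ha hb
    rw [add_zero] at h
    exact squeeze_zero (fun _ => norm_nonneg _) (fun n => norm_add_le (a n) (b n)) h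
  zero_mem' := by simpa using tendsto_const_nhds
  smul_mem' := by
    intro z a ha
    have h := Tendsto.const_mul ‖z‖ ha
    rw [mul_zero] at h
    simpa [norm_smul] using h

lemma J_closed (l : Filter ℕ) : IsClosed (J (B := B) l : Set (lp B ∞)) := by
  refine isClosed_of_closure_subset fun a ha => ?_
  change Tendsto (fun n => ‖a n‖) l (𝓝 0)
  rw [Metric.tendsto_nhds]
  intro ε hε
  obtain ⟨b, hb, hab⟩ := Metric.mem_closure_iff.1 ha (ε / 2) (by linarith)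
  have hb' : Tendsto (fun n => ‖b n‖) l (𝓝 0) := hb
  filter_upwards [Metric.tendsto_nhds.1 hb' (ε / 2) (by linarith)] with n hn
  rw [dist_zero_right, norm_norm] at hn ⊢
  have h1 := lp.norm_apply_le_norm (E := B) (p := ∞) ENNReal.top_ne_zero (a - b) n
  rw [lp.coeFn_sub, Pi.sub_apply] at h1
  rw [dist_eq_norm] at hab
  have h2 := norm_le_norm_add_norm_sub' (a n) (b n)
  linarith

lemma A_asymp (had : ∀ c d, c ≠ d → (Ad c ∩ Ad d).Finite) (c : C) {a : lp B ∞}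
    (ha : a ∈ A Ad r hr) :
    ∃ α : ℂ, Tendsto (fun n => ‖a n - α • r c n‖) (cofinite ⊓ 𝓟 (Ad c)) (𝓝 0) := by
  classical
  have hcl := Submodule.isClosed_sup_finiteDimensional (J (B := B) (cofinite ⊓ 𝓟 (Ad c)))
    (Submodule.span ℂ {Pc Ad r hr c}) (J_closed _)
  have hsub : ((⨆ x, S Ad r hr x : NonUnitalStarSubalgebra ℂ (lp B ∞)) : Set (lp B ∞)) ⊆
      (J (B := B) (cofinite ⊓ 𝓟 (Ad c)) ⊔ Submodule.span ℂ {Pc Ad r hr c} : Submodule ℂ _) := by
    rw [NonUnitalStarSubalgebra.coe_iSup_of_directed (S_dir Ad r hr had)]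
    rintro b ⟨_, ⟨x, rfl⟩, α, hb⟩
    set β : ℂ := if c ∈ x.1.2 then α c else 0 with hβ
    have e : b = (b - β • Pc Ad r hr c) + β • Pc Ad r hr c := (sub_add_cancel _ _).symm
    rw [e]
    refine Submodule.add_mem_sup ?_ (Submodule.smul_mem _ _ (Submodule.subset_span rfl))
    change Tendsto (fun n => ‖(b - β • Pc Ad r hr c) n‖) _ (𝓝 0)
    refine tendsto_const_nhds.congr' ?_
    have h1 : ∀ᶠ n in cofinite, n ∉ x.1.1 := x.1.1.eventually_cofinite_notMem
    have h2 : ∀ᶠ n in cofinite, ∀ d ∈ x.1.2, d ≠ c → n ∉ Ad d ∩ Ad c := by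
      rw [eventually_all_finset]
      intro d _
      by_cases hd : d = c
      · simp [hd]
      · filter_upwards [(had d c hd).eventually_cofinite_notMem] with n hn _ using hn
    rw [EventuallyEq, eventually_inf_principal]
    filter_upwards [h1, h2] with n hn1 hn2 hn
    symm
    rw [norm_eq_zero, lp.coeFn_sub, Pi.sub_apply, lp.coeFn_smul, Pi.smul_apply, hb n hn1,
      sub_eq_zero]
    have h3 : ∀ d ∈ x.1.2, d ≠ c → α d • Pc Ad r hr d n = 0 := by
      intro d hd hdc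
      rw [Pc_of_notMem Ad r hr (fun h => hn2 d hd hdc ⟨h, hn⟩), smul_zero]
    by_cases hc : c ∈ x.1.2
    · rw [hβ, if_pos hc, Finset.sum_eq_single_of_mem c hc h3]
    · rw [hβ, if_neg hc, zero_smul]
      exact Finset.sum_eq_zero fun d hd => h3 d hd fun h => hc (h ▸ hd)
  have h := closure_minimal hsub hcl ha
  obtain ⟨j, hj, s, hs, rfl⟩ := Submodule.mem_sup.1 h
  obtain ⟨α, rfl⟩ := Submodule.mem_span_singleton.1 hs
  refine ⟨α, Tendsto.congr' ?_ hj⟩
  rw [EventuallyEq, eventually_inf_principal]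
  refine Eventually.of_forall fun n hn => ?_
  rw [lp.coeFn_add, Pi.add_apply, lp.coeFn_smul, Pi.smul_apply, Pc_of_mem Ad r hr hn,
    add_sub_cancel_right]

noncomputable def sg (n : ℕ) : B n →ₗ[ℂ] A Ad r hr :=
  (lp.lsingle (𝕜 := ℂ) (E := B) ∞ n).codRestrict (A Ad r hr).toNonUnitalSubalgebra.toSubmodule
    (single_mem Ad r hr n)

lemma sg_self (n : ℕ) (b : B n) : (sg Ad r hr n b).1 n = b := lp.single_apply_self _ _ _

lemma sg_ne {n m : ℕ} (b : B n) (h : m ≠ n) : (sg Ad r hr n b).1 m = 0 :=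
  lp.single_apply_ne _ _ _ h

lemma A_ext {a b : A Ad r hr} (h : ∀ n, a.1 n = b.1 n) : a = b :=
  Subtype.ext (lp.ext (funext h))

lemma A_mul (a b : A Ad r hr) (n : ℕ) : (a * b).1 n = a.1 n * b.1 n := rfl

lemma sg_mul (n : ℕ) (b : B n) (a : A Ad r hr) :
    sg Ad r hr n b * a = sg Ad r hr n (b * a.1 n) := by
  refine A_ext Ad r hr fun m => ?_
  by_cases h : m = n
  · subst h
    rw [A_mul, sg_self, sg_self]
  · rw [A_mul, sg_ne _ _ _ _ h, sg_ne _ _ _ _ h, zero_mul]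

lemma mul_sg (n : ℕ) (b : B n) (a : A Ad r hr) :
    a * sg Ad r hr n b = sg Ad r hr n (a.1 n * b) := by
  refine A_ext Ad r hr fun m => ?_
  by_cases h : m = n
  · subst h
    rw [A_mul, sg_self, sg_self]
  · rw [A_mul, sg_ne _ _ _ _ h, sg_ne _ _ _ _ h, mul_zero]

lemma central_idem (hcen : ∀ n (z : B n), (∀ b, z * b = b * z) → z * z = z → z = 0 ∨ z = 1)
    (z : A Ad r hr) (hc : ∀ a, z * a = a * z) (hz : z * z = z) (n : ℕ) :
    z.1 n = 0 ∨ z.1 n = 1 := by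
  refine hcen n _ (fun b => ?_) ?_
  · have := congrArg (fun a : A Ad r hr => a.1 n) (hc (sg Ad r hr n b))
    simpa only [A_mul, sg_self] using this
  · rw [← A_mul, hz]

lemma image_central (ψ : A Ad r hr ≃ₗ[ℂ] A Ad r hr) (hψ : ∀ a b, ψ (a * b) = ψ b * ψ a) (n : ℕ) :
    (∀ a, ψ (sg Ad r hr n 1) * a = a * ψ (sg Ad r hr n 1)) ∧
      ψ (sg Ad r hr n 1) * ψ (sg Ad r hr n 1) = ψ (sg Ad r hr n 1) := by
  constructor
  · intro a
    obtain ⟨a, rfl⟩ := ψ.surjective a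
    rw [← hψ, ← hψ, sg_mul, mul_sg, one_mul, mul_one]
  · rw [← hψ, sg_mul, sg_self, one_mul]

lemma symm_anti (ψ : A Ad r hr ≃ₗ[ℂ] A Ad r hr) (hψ : ∀ a b, ψ (a * b) = ψ b * ψ a) :
    ∀ a b, ψ.symm (a * b) = ψ.symm b * ψ.symm a := by
  intro a b
  apply ψ.injective
  rw [hψ]
  simp

lemma block (ψ : A Ad r hr ≃ₗ[ℂ] A Ad r hr) (hψ : ∀ a b, ψ (a * b) = ψ b * ψ a) {n m : ℕ}
    (h : ψ (sg Ad r hr n 1) = sg Ad r hr m 1) (b : B n) :
    ψ (sg Ad r hr n b) = sg Ad r hr m ((ψ (sg Ad r hr n b)).1 m) := by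
  have e : sg Ad r hr n b = sg Ad r hr n b * sg Ad r hr n 1 := by
    rw [sg_mul, sg_self, mul_one]
  conv_lhs => rw [e, hψ, h, sg_mul, one_mul]

noncomputable def ev (m : ℕ) : A Ad r hr →ₗ[ℂ] B m where
  toFun a := a.1 m
  map_add' _ _ := rfl
  map_smul' _ _ := rfl

noncomputable def phi (ψ : A Ad r hr ≃ₗ[ℂ] A Ad r hr) (n m : ℕ) : B n →ₗ[ℂ] B m :=
  (ev Ad r hr m) ∘ₗ ψ.toLinearMap ∘ₗ sg Ad r hr n

lemma phi_apply (ψ : A Ad r hr ≃ₗ[ℂ] A Ad r hr) (n m : ℕ) (b : B n) :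
    phi Ad r hr ψ n m b = (ψ (sg Ad r hr n b)).1 m := rfl

lemma phi_inj (ψ : A Ad r hr ≃ₗ[ℂ] A Ad r hr) (hψ : ∀ a b, ψ (a * b) = ψ b * ψ a) {n m : ℕ}
    (h : ψ (sg Ad r hr n 1) = sg Ad r hr m 1) : Function.Injective (phi Ad r hr ψ n m) := by
  intro b b' hb
  rw [phi_apply, phi_apply] at hb
  have h1 : ψ (sg Ad r hr n b) = ψ (sg Ad r hr n b') := by
    rw [block Ad r hr ψ hψ h b, block Ad r hr ψ hψ h b', hb]
  have h2 := congrArg (fun a : A Ad r hr => a.1 n) (ψ.injective h1)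
  simpa only [sg_self] using h2

lemma fixed [∀ n, FiniteDimensional ℂ (B n)]
    (hdim : ∀ m n, Module.finrank ℂ (B m) = Module.finrank ℂ (B n) → m = n)
    (hcen : ∀ n (z : B n), (∀ b, z * b = b * z) → z * z = z → z = 0 ∨ z = 1)
    (hnt : ∀ n, (1 : B n) ≠ 0)
    (ψ : A Ad r hr ≃ₗ[ℂ] A Ad r hr) (hψ : ∀ a b, ψ (a * b) = ψ b * ψ a) (n : ℕ) :
    ψ (sg Ad r hr n 1) = sg Ad r hr n 1 := by
  have hne : ∀ k, sg Ad r hr k 1 ≠ 0 := by
    intro k h
    have := congrArg (fun a : A Ad r hr => a.1 k) h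
    simp only [sg_self] at this
    exact hnt k this
  obtain ⟨h1, h2⟩ := image_central Ad r hr ψ hψ n
  have h3 : ∃ m, (ψ (sg Ad r hr n 1)).1 m ≠ 0 := by
    by_contra h
    push Not at h
    exact hne n (ψ.map_eq_zero_iff.1 (A_ext Ad r hr h))
  obtain ⟨m, hm⟩ := h3
  have h4 := (central_idem Ad r hr hcen _ h1 h2 m).resolve_left hm
  have hψ' := symm_anti Ad r hr ψ hψ
  obtain ⟨h5, h6⟩ := image_central Ad r hr ψ.symm hψ' m
  have h7 : sg Ad r hr n 1 * ψ.symm (sg Ad r hr m 1) = ψ.symm (sg Ad r hr m 1) := by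
    apply ψ.injective
    rw [hψ, ψ.apply_symm_apply, sg_mul, h4, one_mul]
  rw [sg_mul, one_mul] at h7
  have h8 : ψ.symm (sg Ad r hr m 1) = sg Ad r hr n 1 := by
    rcases central_idem Ad r hr hcen _ h5 h6 n with h | h
    · rw [h, map_zero] at h7
      exact absurd (ψ.symm.map_eq_zero_iff.1 h7.symm) (hne m)
    · rw [← h7, h]
  have h9 : ψ (sg Ad r hr n 1) = sg Ad r hr m 1 := by
    rw [← h8, ψ.apply_symm_apply]
  have h10 := LinearMap.finrank_le_finrank_of_injective (phi_inj Ad r hr ψ hψ h9)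
  have h11 := LinearMap.finrank_le_finrank_of_injective (phi_inj Ad r hr ψ.symm hψ' h8)
  obtain rfl := hdim n m (le_antisymm h10 h11)
  exact h9

lemma phi_eval (ψ : A Ad r hr ≃ₗ[ℂ] A Ad r hr) (hψ : ∀ a b, ψ (a * b) = ψ b * ψ a) {n : ℕ}
    (h : ψ (sg Ad r hr n 1) = sg Ad r hr n 1) (a : A Ad r hr) :
    phi Ad r hr ψ n n (a.1 n) = (ψ a).1 n := by
  have e : sg Ad r hr n (a.1 n) = a * sg Ad r hr n 1 := by rw [mul_sg, mul_one]
  rw [phi_apply, e, hψ, h, A_mul, sg_self, one_mul]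

lemma phi_mul (ψ : A Ad r hr ≃ₗ[ℂ] A Ad r hr) (hψ : ∀ a b, ψ (a * b) = ψ b * ψ a) (n : ℕ)
    (b b' : B n) :
    phi Ad r hr ψ n n (b * b') = phi Ad r hr ψ n n b' * phi Ad r hr ψ n n b := by
  have e : sg Ad r hr n (b * b') = sg Ad r hr n b * sg Ad r hr n b' := by rw [sg_mul, sg_self]
  rw [phi_apply, e, hψ, A_mul]
  rfl

lemma not_sep [Uncountable C] (hinf : ∀ c, (Ad c).Infinite)
    (had : ∀ c d, c ≠ d → (Ad c ∩ Ad d).Finite) (hr0 : ∀ c n, r c n ≠ 0) :
    ¬ TopologicalSpace.SeparableSpace (A Ad r hr) := by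
  intro hs
  let p : C → A Ad r hr := fun c => ⟨Pc Ad r hr c, Pc_mem Ad r hr c⟩
  have h : Pairwise (Function.onFun Disjoint fun c => Metric.ball (p c) (1 / 2)) := by
    intro c d hcd
    refine Metric.ball_disjoint_ball ?_
    obtain ⟨n, hn1, hn2⟩ := ((hinf c).sdiff (had c d hcd)).nonempty
    have hn3 : n ∉ Ad d := fun h => hn2 ⟨hn1, h⟩
    have h1 := lp.norm_apply_le_norm (E := B) (p := ∞) ENNReal.top_ne_zero
      (Pc Ad r hr c - Pc Ad r hr d) n
    rw [lp.coeFn_sub, Pi.sub_apply, Pc_of_mem Ad r hr hn1, Pc_of_notMem Ad r hr hn3,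
      sub_zero] at h1
    have h2 := one_le_norm (hr c n).isIdempotentElem (hr0 c n)
    rw [Subtype.dist_eq, dist_eq_norm]
    linarith
  have := h.countable_of_isOpen_disjoint (fun _ => Metric.isOpen_ball)
    (fun c => Metric.nonempty_ball.2 (by norm_num))
  exact not_countable this

lemma AF [∀ n, FiniteDimensional ℂ (B n)] (had : ∀ c d, c ≠ d → (Ad c ∩ Ad d).Finite) :
    ∃ T : Set (NonUnitalStarSubalgebra ℂ (A Ad r hr)), DirectedOn (· ≤ ·) T ∧
        (∀ s ∈ T, FiniteDimensional ℂ (Submodule.span ℂ (s : Set (A Ad r hr)))) ∧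
        Dense (⋃ s ∈ T, (s : Set (A Ad r hr))) := by
  let U : Valid Ad → NonUnitalStarSubalgebra ℂ (A Ad r hr) := fun x =>
    (S Ad r hr x).comap (NonUnitalStarSubalgebraClass.subtype (R := ℂ) (A Ad r hr))
  refine ⟨range U, ?_, ?_, ?_⟩
  · rintro _ ⟨x, rfl⟩ _ ⟨y, rfl⟩
    obtain ⟨z, h1, h2⟩ := S_dir Ad r hr had x y
    exact ⟨U z, ⟨z, rfl⟩, fun a ha => h1 ha, fun a ha => h2 ha⟩
  · rintro _ ⟨x, rfl⟩
    have h1 : Submodule.span ℂ (U x : Set (A Ad r hr)) = (U x).toNonUnitalSubalgebra.toSubmodule :=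
      Submodule.span_eq (U x).toNonUnitalSubalgebra.toSubmodule
    rw [h1]
    have := S_fd Ad r hr x
    let f : (U x).toNonUnitalSubalgebra.toSubmodule →ₗ[ℂ]
        (S Ad r hr x).toNonUnitalSubalgebra.toSubmodule :=
      { toFun := fun a => ⟨a.1.1, a.2⟩
        map_add' := fun _ _ => rfl
        map_smul' := fun _ _ => rfl }
    refine FiniteDimensional.of_injective f fun a b h => ?_
    have h' : (f a).1 = (f b).1 := congrArg Subtype.val h
    exact Subtype.ext (Subtype.ext h')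
  · rw [Subtype.dense_iff]
    refine closure_mono ?_
    change ((⨆ x, S Ad r hr x : NonUnitalStarSubalgebra ℂ (lp B ∞)) : Set (lp B ∞)) ⊆ _
    rw [NonUnitalStarSubalgebra.coe_iSup_of_directed (S_dir Ad r hr had)]
    rintro b ⟨_, ⟨x, rfl⟩, hb⟩
    refine ⟨⟨b, S_le_A Ad r hr x hb⟩, ?_, rfl⟩
    simp only [mem_iUnion]
    exact ⟨U x, ⟨x, rfl⟩, hb⟩

end

section approx
variable {B : ℕ → Type} [∀ n, CStarAlgebra (B n)] {l : Filter ℕ}

lemma ap_mul {u u' v v' : ∀ n, B n} {K : ℝ} (hu : Tendsto (fun n => ‖u n - u' n‖) l (𝓝 0))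
    (hv : Tendsto (fun n => ‖v n - v' n‖) l (𝓝 0)) (h1 : ∀ n, ‖u' n‖ ≤ K) (h2 : ∀ n, ‖v' n‖ ≤ K) :
    Tendsto (fun n => ‖u n * v n - u' n * v' n‖) l (𝓝 0) := by
  have h := ((hu.mul hv).add (hu.mul_const K)).add (hv.const_mul K)
  simp only [mul_zero, zero_mul, add_zero] at h
  refine squeeze_zero (fun _ => norm_nonneg _) (fun n => ?_) h
  have e : u n * v n - u' n * v' n = (u n - u' n) * (v n - v' n) + (u n - u' n) * v' n
      + u' n * (v n - v' n) := by noncomm_ring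
  rw [e]
  refine (norm_add₃_le).trans (add_le_add (add_le_add (norm_mul_le _ _) ?_) ?_)
  · exact (norm_mul_le _ _).trans (mul_le_mul_of_nonneg_left (h2 n) (norm_nonneg _))
  · exact (norm_mul_le _ _).trans (mul_le_mul_of_nonneg_right (h1 n) (norm_nonneg _))

lemma ap_unique [l.NeBot] {u q : ∀ n, B n} {α β : ℂ}
    (h1 : Tendsto (fun n => ‖u n - α • q n‖) l (𝓝 0))
    (h2 : Tendsto (fun n => ‖u n - β • q n‖) l (𝓝 0)) (hq : ∀ n, 1 ≤ ‖q n‖) : α = β := by
  have h := h1.add h2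
  rw [add_zero] at h
  have h3 : ‖β - α‖ ≤ 0 := by
    refine ge_of_tendsto' h fun n => ?_
    have e : (β - α) • q n = (u n - α • q n) - (u n - β • q n) := by
      rw [sub_smul]
      abel
    have h4 := norm_sub_le (u n - α • q n) (u n - β • q n)
    rw [← e, norm_smul] at h4
    nlinarith [hq n, norm_nonneg (β - α)]
  exact (sub_eq_zero.1 (norm_le_zero_iff.1 h3)).symm

lemma ap_one [l.NeBot] {u q : ∀ n, B n} {α : ℂ}
    (h1 : Tendsto (fun n => ‖u n - α • q n‖) l (𝓝 0)) (hq : ∀ n, IsStarProjection (q n))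
    (hq0 : ∀ n, q n ≠ 0) (hu : ∀ n, u n * u n = u n) (hu0 : ∀ n, u n ≠ 0) :
    Tendsto (fun n => ‖u n - q n‖) l (𝓝 0) := by
  have hb : ∀ n, ‖α • q n‖ ≤ ‖α‖ := by
    intro n
    rw [norm_smul]
    exact mul_le_of_le_one_right (norm_nonneg _) (hq n).norm_le
  have h2 := ap_mul h1 h1 hb hb
  have e : ∀ n, α • q n * α • q n = (α * α) • q n := by
    intro n
    rw [smul_mul_smul_comm, (hq n).isIdempotentElem]
  simp only [hu, e] at h2
  have h3 := ap_unique h1 h2 fun n => one_le_norm (hq n).isIdempotentElem (hq0 n)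
  have h4 : α ≠ 0 := by
    rintro rfl
    simp only [zero_smul, sub_zero] at h1
    have := ge_of_tendsto' h1 fun n => one_le_norm (hu n) (hu0 n)
    linarith
  have h5 : α = 1 := by
    apply mul_left_cancel₀ h4
    rw [mul_one, ← h3]
  simpa [h5] using h1

end approx

theorem main {B : ℕ → Type} [∀ n, CStarAlgebra (B n)] [∀ n, FiniteDimensional ℂ (B n)]
    (hdim : ∀ m n, Module.finrank ℂ (B m) = Module.finrank ℂ (B n) → m = n)
    (hcen : ∀ n (z : B n), (∀ b, z * b = b * z) → z * z = z → z = 0 ∨ z = 1)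
    (q : ∀ n, Fin 3 → B n) (hq : ∀ n i, IsStarProjection (q n i)) (hq0 : ∀ n i, q n i ≠ 0)
    (lam mu : ℂ) (hlm : lam ≠ mu)
    (h1 : ∀ n, q n 0 * q n 1 * q n 2 * q n 0 = lam • q n 0)
    (h2 : ∀ n, q n 0 * (q n 2 * (q n 1 * q n 0)) = mu • q n 0)
    (f : (∀ n, Fin 3 → B n) → ℕ → Bool) (hf : Function.Injective f) :
    ∃ (A : Type) (_ : NonUnitalCStarAlgebra A),
      ¬ TopologicalSpace.SeparableSpace A ∧
      (∃ S : Set (NonUnitalStarSubalgebra ℂ A), DirectedOn (· ≤ ·) S ∧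
        (∀ s ∈ S, FiniteDimensional ℂ (Submodule.span ℂ (s : Set A))) ∧
        Dense (⋃ s ∈ S, (s : Set A))) ∧
      IsEmpty (A ≃⋆ₐ[ℂ] Aᵐᵒᵖ) := by
  classical
  obtain ⟨Ad, hinf, had⟩ := exists_ad _ f hf
  let bad : (∀ n, Fin 3 → B n) → Fin 3 → Prop := fun c i =>
    ∃ α : ℂ, Tendsto (fun n => ‖c n i - α • q n i‖) (cofinite ⊓ 𝓟 (Ad c)) (𝓝 0)
  let idx : (∀ n, Fin 3 → B n) → Fin 3 := fun c => if h : ∃ i, ¬ bad c i then h.choose else 0
  let r : (∀ n, Fin 3 → B n) → ∀ n, B n := fun c n => q n (idx c)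
  have hr : ∀ c n, IsStarProjection (r c n) := fun c n => hq n _
  have hnt : ∀ n, (1 : B n) ≠ 0 := by
    intro n h
    apply hq0 n 0
    rw [← one_mul (q n 0), h, zero_mul]
  have hunc : Uncountable (∀ n, Fin 3 → B n) := by
    refine Function.Injective.uncountable (f := fun (z : ℝ) n _ => (z : ℂ) • (1 : B n)) ?_
    intro z w h
    have h3 := congrFun (congrFun h 0) 0
    exact_mod_cast smul_left_injective ℂ (hnt 0) h3
  refine ⟨A Ad r hr, inferInstance, not_sep Ad r hr hinf had fun c n => hq0 n _,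
    AF Ad r hr had, ⟨fun Φ => ?_⟩⟩
  let ψ : A Ad r hr ≃ₗ[ℂ] A Ad r hr :=
    { toFun := fun a => (Φ a).unop
      invFun := fun a => Φ.symm (MulOpposite.op a)
      map_add' := fun a b => by rw [map_add, MulOpposite.unop_add]
      map_smul' := fun z a => by rw [map_smul, MulOpposite.unop_smul]; rfl
      left_inv := fun a => by simp
      right_inv := fun a => by simp }
  have hψ : ∀ a b, ψ (a * b) = ψ b * ψ a := by
    intro a b
    change (Φ (a * b)).unop = (Φ b).unop * (Φ a).unop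
    rw [map_mul, MulOpposite.unop_mul]
  have hfix := fixed Ad r hr hdim hcen hnt ψ hψ
  let c : ∀ n, Fin 3 → B n := fun n i => phi Ad r hr ψ n n (q n i)
  have hne : (cofinite ⊓ 𝓟 (Ad c)).NeBot := by
    rw [← frequently_mem_iff_neBot, frequently_cofinite_iff_infinite]
    exact hinf c
  have hex : ∃ i, ¬ bad c i := by
    by_contra hall
    push Not at hall
    have h3 : ∀ i, Tendsto (fun n => ‖c n i - q n i‖) (cofinite ⊓ 𝓟 (Ad c)) (𝓝 0) := by
      intro i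
      obtain ⟨α, hα⟩ := hall i
      refine ap_one hα (fun n => hq n i) (fun n => hq0 n i) (fun n => ?_) (fun n h => ?_)
      · simp only [c]
        rw [← phi_mul Ad r hr ψ hψ, (hq n i).isIdempotentElem]
      · exact hq0 n i (phi_inj Ad r hr ψ hψ (hfix n) (h.trans (map_zero _).symm))
    have hb : ∀ i n, ‖q n i‖ ≤ 1 := fun i n => (hq n i).norm_le
    have hb2 : ∀ n, ‖q n 1 * q n 0‖ ≤ 1 := fun n =>
      (norm_mul_le _ _).trans (mul_le_one₀ (hb 1 n) (norm_nonneg _) (hb 0 n))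
    have hb3 : ∀ n, ‖q n 2 * (q n 1 * q n 0)‖ ≤ 1 := fun n =>
      (norm_mul_le _ _).trans (mul_le_one₀ (hb 2 n) (norm_nonneg _) (hb2 n))
    have h4 := ap_mul (h3 0) (ap_mul (h3 2) (ap_mul (h3 1) (h3 0) (hb 1) (hb 0)) (hb 2) hb2)
      (hb 0) hb3
    have h5 : ∀ n, c n 0 * (c n 2 * (c n 1 * c n 0)) = lam • c n 0 := by
      intro n
      simp only [c]
      rw [← phi_mul Ad r hr ψ hψ, ← phi_mul Ad r hr ψ hψ, ← phi_mul Ad r hr ψ hψ, h1, map_smul]
    simp only [h5, h2] at h4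
    have h6 : Tendsto (fun n => ‖lam • c n 0 - lam • q n 0‖) (cofinite ⊓ 𝓟 (Ad c)) (𝓝 0) := by
      have := (h3 0).const_mul ‖lam‖
      rw [mul_zero] at this
      simpa only [← smul_sub, norm_smul] using this
    exact hlm (ap_unique h6 h4 fun n => one_le_norm (hq n 0).isIdempotentElem (hq0 n 0))
  have hnb : ¬ bad c (idx c) := by
    simp only [idx, dif_pos hex]
    exact hex.choose_spec
  obtain ⟨α, hα⟩ := A_asymp Ad r hr had c (ψ ⟨Pc Ad r hr c, Pc_mem Ad r hr c⟩).2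
  refine hnb ⟨α, hα.congr' ?_⟩
  rw [EventuallyEq, eventually_inf_principal]
  refine Eventually.of_forall fun n hn => ?_
  rw [← phi_eval Ad r hr ψ hψ (hfix n)]
  simp only [Pc_of_mem Ad r hr hn]
  rfl

end Pool.Agent.H94.AFOp
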