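import Mathlib

set_option autoImplicit false

namespace Pool.Agent.H94.AS

open Set Cardinal

lemma small_union {K Ω : Type} (s : Set K) (hs : #s < 𝔠) (u : K → Set Ω)
    (hu : ∀ k, (u k).Countable) : #(⋃ k ∈ s, u k) < 𝔠 :=
  (mk_biUnion_le u s).trans_lt (mul_lt_of_lt aleph0_le_continuum hs
    ((ciSup_le' fun k : s => (le_aleph0_iff_set_countable.2 (hu k.1))).trans_lt aleph0_lt_continuum))

lemma trec {K Ω : Type} (hK : #K ≤ 𝔠) (R : K → Set Ω → Set Ω → Prop)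
    (h : ∀ k (a n : Set Ω), #a < 𝔠 → #n < 𝔠 → ∃ p : Set Ω × Set Ω, p.1.Countable ∧
      p.2.Countable ∧ Disjoint p.1 p.2 ∧ Disjoint p.1 n ∧ Disjoint a p.2 ∧ R k p.1 p.2) :
    ∃ F : K → Set Ω × Set Ω, (∀ k l, Disjoint (F k).1 (F l).2) ∧ ∀ k, R k (F k).1 (F k).2 := by
  classical
  obtain ⟨_, _, hord⟩ := exists_ord_eq_type_lt K
  have h' : ∀ k (a n : Set Ω), ∃ p : Set Ω × Set Ω, p.1.Countable ∧ p.2.Countable ∧
      (#a < 𝔠 → #n < 𝔠 → Disjoint p.1 p.2 ∧ Disjoint p.1 n ∧ Disjoint a p.2 ∧ R k p.1 p.2) := by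
    intro k a n
    by_cases hc : #a < 𝔠 ∧ #n < 𝔠
    · obtain ⟨p, h1, h2, h3⟩ := h k a n hc.1 hc.2
      exact ⟨p, h1, h2, fun _ _ => h3⟩
    · exact ⟨(∅, ∅), countable_empty, countable_empty, fun h1 h2 => absurd ⟨h1, h2⟩ hc⟩
  choose st hs1 hs2 hs3 using h'
  let F : K → Set Ω × Set Ω := (wellFounded_lt (α := K)).fix fun k G =>
    st k (⋃ l, ⋃ hl : l < k, (G l hl).1) (⋃ l, ⋃ hl : l < k, (G l hl).2)
  have hF : ∀ k, F k = st k (⋃ l ∈ Iio k, (F l).1) (⋃ l ∈ Iio k, (F l).2) := fun k =>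
    (wellFounded_lt (α := K)).fix_eq _ k
  have c1 : ∀ k, (F k).1.Countable := fun k => by rw [hF]; exact hs1 _ _ _
  have c2 : ∀ k, (F k).2.Countable := fun k => by rw [hF]; exact hs2 _ _ _
  have key := fun k => hs3 k _ _ (small_union _ ((mk_Iio_lt k hord).trans_le hK) _ c1)
    (small_union _ ((mk_Iio_lt k hord).trans_le hK) _ c2)
  simp only [← hF] at key
  refine ⟨F, fun k l => ?_, fun k => (key k).2.2.2⟩
  rcases lt_trichotomy k l with hkl | rfl | hkl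
  · exact (key l).2.2.1.mono_left (subset_biUnion_of_mem (u := fun l => (F l).1) hkl)
  · exact (key k).1
  · exact (key k).2.1.mono_right (subset_biUnion_of_mem (u := fun l => (F l).2) hkl)

lemma bern {Ω T I J : Type} (hI : #I ≤ 𝔠) (hJ : #J ≤ 𝔠) (hT : 𝔠 ≤ #T) (P : I → Set Ω)
    (hP : ∀ i, 𝔠 ≤ #(P i)) (g : J → T → Set Ω) (h1 : ∀ j t, (g j t).Countable)
    (h2 : ∀ j b, {t | b ∈ g j t}.Countable) :
    ∃ A : Set Ω, (∀ i, (A ∩ P i).Nonempty) ∧ ∀ j, ∃ t, Disjoint A (g j t) := by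
  obtain ⟨F, hd, hR⟩ := trec (K := I ⊕ J) (Ω := Ω)
    (by rw [mk_sum, lift_id, lift_id]; exact (add_le_add hI hJ).trans continuum_add_self.le)
    (fun k a n => Sum.elim (fun i => (a ∩ P i).Nonempty) (fun j => ∃ t, n = g j t) k) (by
      rintro (i | j) a n ha hn
      · obtain ⟨b, hb, hbn⟩ : ∃ b ∈ P i, b ∉ n := by
          by_contra hc
          push Not at hc
          exact absurd ((hP i).trans (mk_le_mk_of_subset hc)) (not_le.2 hn)
        exact ⟨({b}, ∅), countable_singleton _, countable_empty, by simp, by simpa using hbn,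
          by simp, ⟨b, rfl, hb⟩⟩
      · have hs := small_union a ha (fun b => {t | b ∈ g j t}) (h2 j)
        obtain ⟨t, ht⟩ : ∃ t, t ∉ ⋃ b ∈ a, {t | b ∈ g j t} := by
          by_contra hc
          push Not at hc
          rw [eq_univ_of_forall hc, mk_univ] at hs
          exact absurd hT (not_le.2 hs)
        refine ⟨(∅, g j t), countable_empty, h1 _ _, by simp, by simp, ?_, t, rfl⟩
        exact disjoint_left.2 fun b hb hb' => ht (mem_biUnion hb hb'))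
  refine ⟨⋃ k, (F k).1, fun i => ?_, fun j => ?_⟩
  · exact (show ((F (.inl i)).1 ∩ P i).Nonempty from hR (.inl i)).mono
      (inter_subset_inter_left _ (subset_iUnion (fun k => (F k).1) _))
  · obtain ⟨t, ht⟩ : ∃ t, (F (.inr j)).2 = g j t := hR (.inr j)
    exact ⟨t, by rw [← ht]; exact disjoint_iUnion_left.2 fun k => hd k _⟩

abbrev Om := ℕ → Bool

def pre (b : Om) : ℕ → List Bool
  | 0 => []
  | m + 1 => b m :: pre b m

lemma len_pre (b : Om) (m : ℕ) : (pre b m).length = m := by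
  induction m with
  | zero => rfl
  | succ m ih => simp [pre, ih]

lemma pre_eq {b c : Om} {m : ℕ} : pre b m = pre c m ↔ ∀ i < m, b i = c i := by
  induction m with
  | zero => simp [pre]
  | succ m ih =>
    simp only [pre, List.cons.injEq, ih]
    exact ⟨fun h i hi => (Nat.lt_succ_iff_lt_or_eq.1 hi).elim (h.2 i) fun e => e ▸ h.1,
      fun h => ⟨h m (Nat.lt_succ_self m), fun i hi => h i (Nat.lt_succ_of_lt hi)⟩⟩

def cyl (s : List Bool) : Set Om := {t | pre t s.length = s}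

def C (b : Om) (m : ℕ) : Set Om := {t | ∀ i < m, t i = b i}

lemma cyl_pre (b : Om) (m : ℕ) : cyl (pre b m) = C b m := by
  ext t; simp only [cyl, C, len_pre, mem_setOf_eq, pre_eq]

def G (S : List Bool → ℕ → Set (List Bool)) (t : Om) (j : ℕ) : Set Om :=
  {b | ∀ n m, pre b m ∈ S (pre t n) j}

lemma mk_om : #Om = 𝔠 := by simp [Om]

lemma mk_fun_le {a b : Type} [Countable a] (hb : #b ≤ 𝔠) : #(a → b) ≤ 𝔠 := by
  rw [← power_def]
  calc #b ^ #a ≤ 𝔠 ^ #a := power_le_power_right hb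
    _ ≤ 𝔠 ^ ℵ₀ := power_le_power_left continuum_ne_zero mk_le_aleph0
    _ = 𝔠 := continuum_power_aleph0

theorem exists_A : ∃ A : Set Om,
    (∀ i : List Bool → List Bool,
      (∃ a : Om → Om, Function.Injective a ∧ ∀ t n, a t ∈ cyl (i (pre t n))) →
      ∃ b ∈ A, ∃ t, ∀ n, b ∈ cyl (i (pre t n))) ∧
    ∀ S : List Bool → ℕ → Set (List Bool), (∀ t j, (G S t j).Countable) →
      ∃ t, ∀ j, ∀ b ∈ G S t j, b ∈ A → ∃ t' ≠ t, pre t' j = pre t j ∧ b ∈ G S t' j := by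
  obtain ⟨A, h1, h2⟩ := bern (Ω := Om) (T := Om)
    (I := {i : List Bool → List Bool //
      ∃ a : Om → Om, Function.Injective a ∧ ∀ t n, a t ∈ cyl (i (pre t n))})
    (J := {S : List Bool → ℕ → Set (List Bool) // ∀ t j, (G S t j).Countable})
    ((mk_subtype_le _).trans (mk_fun_le (mk_le_aleph0.trans aleph0_le_continuum)))
    ((mk_subtype_le _).trans (mk_fun_le (mk_fun_le (mk_fun_le (b := Prop)
      (mk_le_aleph0.trans aleph0_le_continuum)))))
    mk_om.ge (fun i => {b | ∃ t, ∀ n, b ∈ cyl (i.1 (pre t n))})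
    (fun ⟨i, a, ha, ha'⟩ => by
      rw [← mk_om]
      exact mk_le_of_injective (f := fun t => ⟨a t, t, ha' t⟩) fun t t' h =>
        ha (congrArg Subtype.val h))
    (fun S t => {b | ∃ j, b ∈ G S.1 t j ∧ ∀ t' ≠ t, pre t' j = pre t j → b ∉ G S.1 t' j})
    (fun S t => (countable_iUnion fun j => S.2 t j).mono fun b ⟨j, hj, _⟩ => mem_iUnion.2 ⟨j, hj⟩)
    (fun S b => by
      refine (countable_iUnion fun q : ℕ × List Bool => Set.Subsingleton.countable
        (s := {t | pre t q.1 = q.2 ∧ b ∈ G S.1 t q.1 ∧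
          ∀ t' ≠ t, pre t' q.1 = pre t q.1 → b ∉ G S.1 t' q.1}) ?_).mono
        fun t ⟨j, hj⟩ => mem_iUnion.2 ⟨(j, pre t j), And.intro rfl hj⟩
      intro t ht t' ht'
      by_contra hne
      exact ht'.2.2 t hne (ht.1.trans ht'.1.symm) ht.2.1)
  refine ⟨A, fun i hi => h1 ⟨i, hi⟩, fun S hS => ?_⟩
  obtain ⟨t, ht⟩ := h2 ⟨S, hS⟩
  refine ⟨t, fun j b hb hA => ?_⟩
  by_contra hc
  push Not at hc
  exact disjoint_left.1 ht hA ⟨j, hb, hc⟩

end Pool.Agent.H94.AS
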