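import Pool.Agent.H94.AS1

set_option autoImplicit false

namespace Pool.Agent.H94.AS

open Set Filter Topology
open scoped NNReal

variable {Y : Type} [NormedAddCommGroup Y] [NormedSpace ℝ Y] {g : Y → ℝ} {L : ℝ≥0}

def Dl (g : Y → ℝ) (y h : Y) : ℝ := g (y + h) + g (y - h) - 2 * g y

def K (g : Y → ℝ) (y : Y) (c : ℝ) (h : Y) : Prop := ∃ δ : ℝ, 0 < δ ∧ Dl g y (δ • h) < c * δ

def Lo (g : Y → ℝ) (y h : Y) (c : ℝ) : Prop :=
  ∃ δ : ℝ, 0 < δ ∧ ∀ η, 0 < η → η ≤ δ → c * η ≤ g y - g (y - η • h)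

lemma slope (hc : ConvexOn ℝ univ g) (y h : Y) {δ η : ℝ} (h0 : 0 < η) (h1 : η ≤ δ) :
    δ * (g (y + η • h) - g y) ≤ η * (g (y + δ • h) - g y) := by
  have hδ : 0 < δ := h0.trans_le h1
  have := hc.2 (mem_univ y) (mem_univ (y + δ • h))
    (show 0 ≤ 1 - η / δ by rw [sub_nonneg, div_le_one hδ]; exact h1)
    (show 0 ≤ η / δ by positivity) (by ring)
  have e : (1 - η / δ) • y + (η / δ) • (y + δ • h) = y + η • h := by
    rw [smul_add, smul_smul, div_mul_cancel₀ _ hδ.ne', ← add_assoc, ← add_smul]; simp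
  rw [e, smul_eq_mul, smul_eq_mul] at this
  have h2 := mul_le_mul_of_nonneg_left this hδ.le
  have e2 : δ * ((1 - η / δ) * g y + η / δ * g (y + δ • h)) =
    δ * g y + η * (g (y + δ • h) - g y) := by field_simp; ring
  linarith

lemma mid (hc : ConvexOn ℝ univ g) (y h h' : Y) (η : ℝ) :
    2 * g (y + η • (h + h')) ≤ g (y + (2 * η) • h) + g (y + (2 * η) • h') := by
  have := hc.2 (mem_univ (y + (2 * η) • h)) (mem_univ (y + (2 * η) • h'))
    (show (0 : ℝ) ≤ 1 / 2 by norm_num) (show (0 : ℝ) ≤ 1 / 2 by norm_num) (by norm_num)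
  have e : (1 / 2 : ℝ) • (y + (2 * η) • h) + (1 / 2 : ℝ) • (y + (2 * η) • h') = y + η • (h + h') := by
    module
  rw [e, smul_eq_mul, smul_eq_mul] at this
  linarith

lemma K.ev (hc : ConvexOn ℝ univ g) {y h : Y} {c : ℝ} (hK : K g y c h) :
    ∃ δ : ℝ, 0 < δ ∧ ∀ η, 0 < η → η ≤ δ → Dl g y (η • h) < c * η := by
  obtain ⟨δ, hδ, h1⟩ := hK
  refine ⟨δ, hδ, fun η h2 h3 => ?_⟩
  have a := slope hc y h h2 h3
  have b := slope hc y (-h) h2 h3
  simp only [smul_neg, ← sub_eq_add_neg] at b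
  simp only [Dl] at h1 ⊢
  refine lt_of_mul_lt_mul_left (a := δ) ?_ hδ.le
  nlinarith

lemma K.mono {y h : Y} {c c' : ℝ} (hK : K g y c h) (hcc : c ≤ c') : K g y c' h := by
  obtain ⟨δ, hδ, h1⟩ := hK
  exact ⟨δ, hδ, h1.trans_le (mul_le_mul_of_nonneg_right hcc hδ.le)⟩

lemma K.add (hc : ConvexOn ℝ univ g) {y h h' : Y} {c c' : ℝ} (h1 : K g y c h) (h2 : K g y c' h') :
    K g y (c + c') (h + h') := by
  obtain ⟨δ, hδ, h1⟩ := h1.ev hc
  obtain ⟨δ', hδ', h2⟩ := h2.ev hc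
  have hm : 0 < min δ δ' := lt_min hδ hδ'
  refine ⟨min δ δ' / 2, by positivity, ?_⟩
  have a := mid hc y h h' (min δ δ' / 2)
  have b := mid hc y (-h) (-h') (min δ δ' / 2)
  have c1 := h1 _ hm (min_le_left _ _)
  have c2 := h2 _ hm (min_le_right _ _)
  rw [← neg_add] at b
  simp only [smul_neg, ← sub_eq_add_neg] at b
  rw [mul_div_cancel₀ _ two_ne_zero] at a b
  simp only [Dl] at c1 c2 ⊢
  linarith

lemma Dl_lip (hL : LipschitzWith L g) (y h h' : Y) : Dl g y h ≤ Dl g y h' + 2 * L * ‖h - h'‖ := by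
  have a := hL.dist_le_mul (y + h) (y + h')
  have b := hL.dist_le_mul (y - h) (y - h')
  rw [dist_add_left, dist_eq_norm h, Real.dist_eq] at a
  rw [dist_sub_left, dist_eq_norm h, Real.dist_eq] at b
  simp only [Dl]
  linarith [le_abs_self (g (y + h) - g (y + h')), le_abs_self (g (y - h) - g (y - h'))]

def M (hc : ConvexOn ℝ univ g) (y : Y) : Submodule ℝ Y where
  carrier := {h | ∀ c, 0 < c → K g y c h}
  zero_mem' := fun c h0 => ⟨1, one_pos, by simp [Dl, two_mul, h0]⟩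
  add_mem' := fun {a b} ha hb c h0 => by
    simpa using (ha (c / 2) (by positivity)).add hc (hb (c / 2) (by positivity))
  smul_mem' := fun r h hh c h0 => by
    rcases eq_or_ne r 0 with rfl | hr
    · exact ⟨1, one_pos, by simp [Dl, two_mul, h0]⟩
    have hr' : 0 < |r| := abs_pos.2 hr
    obtain ⟨δ, hδ, h1⟩ := hh (c / |r|) (by positivity)
    refine ⟨δ / |r|, by positivity, ?_⟩
    have e : Dl g y ((δ / |r|) • r • h) = Dl g y (δ • h) := by
      rw [smul_smul]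
      rcases lt_or_gt_of_ne hr with h2 | h2
      · rw [abs_of_neg h2, show δ / -r * r = -δ by field_simp, neg_smul]
        simp only [Dl, sub_neg_eq_add, ← sub_eq_add_neg]; ring
      · rw [abs_of_pos h2, div_mul_cancel₀ _ hr]
    rw [e]
    exact h1.trans_le (le_of_eq (by ring))

lemma M_closed (hc : ConvexOn ℝ univ g) (hL : LipschitzWith L g) (y : Y) :
    IsClosed (M hc y : Set Y) := by
  refine isClosed_of_closure_subset fun h hh c h0 => ?_
  obtain ⟨h', h1, h2⟩ := Metric.mem_closure_iff.1 hh (c / 2 / (2 * L + 1)) (by positivity)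
  obtain ⟨δ, hδ, h3⟩ := h1 (c / 2) (by positivity)
  refine ⟨δ, hδ, (Dl_lip hL y _ (δ • h')).trans_lt ?_⟩
  rw [← smul_sub, norm_smul, Real.norm_of_nonneg hδ.le, ← dist_eq_norm]
  rw [lt_div_iff₀ (by positivity)] at h2
  have : 2 * L * dist h h' ≤ c / 2 := by nlinarith [dist_nonneg (x := h) (y := h')]
  nlinarith

lemma Lo.add (hc : ConvexOn ℝ univ g) {y h h' : Y} {c c' : ℝ} (h1 : Lo g y h c)
    (h2 : Lo g y h' c') : Lo g y (h + h') (c + c') := by
  obtain ⟨δ, hδ, h1⟩ := h1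
  obtain ⟨δ', hδ', h2⟩ := h2
  refine ⟨min δ δ' / 2, by positivity, fun η h3 h4 => ?_⟩
  have b := mid hc y (-h) (-h') η
  rw [← neg_add] at b
  simp only [smul_neg, ← sub_eq_add_neg] at b
  have c1 := h1 (2 * η) (by positivity) (by linarith [min_le_left δ δ'])
  have c2 := h2 (2 * η) (by positivity) (by linarith [min_le_right δ δ'])
  linarith

lemma Lo.bound (hL : LipschitzWith L g) {y h : Y} {c : ℝ} (h1 : Lo g y h c) (hh : ‖h‖ ≤ 1) :
    c ≤ L := by
  obtain ⟨δ, hδ, h1⟩ := h1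
  have a := hL.dist_le_mul y (y - δ • h)
  rw [dist_eq_norm y, sub_sub_cancel, norm_smul, Real.norm_of_nonneg hδ.le, Real.dist_eq] at a
  have b := (h1 δ hδ le_rfl).trans (le_abs_self _)
  have : (L : ℝ) * (δ * ‖h‖) ≤ L * δ := by
    gcongr; nlinarith
  nlinarith

abbrev O (Y : Type) [TopologicalSpace Y] := {V : Set Y // IsOpen V ∧ V.Nonempty}

lemma conj {α ι : Type} [Preorder α] {s : Set ι} (hs : s.Finite) (Q : ι → α → Prop)
    (h1 : ∀ i a, ∃ b ≤ a, Q i b) (h2 : ∀ i a b, b ≤ a → Q i a → Q i b) (a : α) :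
    ∃ b ≤ a, ∀ i ∈ s, Q i b := by
  induction s, hs using Set.Finite.induction_on with
  | empty => exact ⟨a, le_rfl, by simp⟩
  | insert _ _ ih =>
    obtain ⟨b, hb, hq⟩ := ih
    obtain ⟨c, hc, hq'⟩ := h1 _ b
    exact ⟨c, hc.trans hb, forall_mem_insert.2 ⟨hq', fun i hi => h2 i b c hc (hq i hi)⟩⟩

lemma K_dense (hc : ConvexOn ℝ univ g) (hL : LipschitzWith L g) (h : Y) {c : ℝ} (h0 : 0 < c)
    (V : O Y) : ∃ W ≤ V, ∀ y ∈ W.1, K g y c h := by
  have hg := hL.continuous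
  have ho : IsOpen {y | K g y c h} := by
    simp only [K, ← exists_prop, setOf_exists]
    exact isOpen_iUnion fun δ => isOpen_iUnion fun _ =>
      isOpen_lt (by simp only [Dl]; fun_prop) continuous_const
  refine ⟨⟨V.1 ∩ {y | K g y c h}, V.2.1.inter ho, ?_⟩, inter_subset_left, fun y hy => hy.2⟩
  obtain ⟨y, hy⟩ := V.2.2
  obtain ⟨r, hr, hb⟩ := Metric.isOpen_iff.1 V.2.1 y hy
  by_contra hn
  have hn' : ∀ z ∈ V.1, ∀ δ : ℝ, 0 < δ → c * δ ≤ Dl g z (δ • h) := fun z hz δ hδ => by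
    by_contra h1
    exact hn ⟨z, hz, δ, hδ, not_le.1 h1⟩
  obtain ⟨N, hN⟩ := exists_nat_gt (2 * L * ‖h‖ / c)
  set δ := r / ((N + 1) * (‖h‖ + 1)) with hδ
  have hδ0 : 0 < δ := by positivity
  have key : ∀ i : ℕ, i ≤ N → g (y + δ • h) - g y + i * (c * δ) ≤
      g (y + ((i + 1) * δ) • h) - g (y + (i * δ) • h) := by
    intro i
    induction i with
    | zero => simp
    | succ i ih =>
      intro hi
      have h1 := ih (by omega)
      have h2 := hn' (y + ((i + 1) * δ) • h) (hb (by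
        rw [mem_ball_iff_norm, add_sub_cancel_left, norm_smul, Real.norm_of_nonneg (by positivity)]
        have h3 : (i + 1 : ℝ) ≤ N := by exact_mod_cast hi
        have h4 : δ * ((N + 1) * (‖h‖ + 1)) = r := by rw [hδ]; field_simp
        have h5 : (i + 1 : ℝ) * ‖h‖ < (N + 1) * (‖h‖ + 1) := by nlinarith [norm_nonneg h]
        nlinarith)) δ hδ0
      have e1 : y + (((i : ℝ) + 1) * δ) • h + δ • h = y + (((i : ℝ) + 1 + 1) * δ) • h := by module
      have e2 : y + (((i : ℝ) + 1) * δ) • h - δ • h = y + ((i : ℝ) * δ) • h := by module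
      simp only [Dl, e1, e2] at h2
      push_cast
      linarith
  have h1 := key N le_rfl
  have a := hL.dist_le_mul (y + δ • h) y
  have b := hL.dist_le_mul (y + ((N + 1) * δ) • h) (y + (N * δ) • h)
  rw [dist_eq_norm (y + _), add_sub_cancel_left, norm_smul, Real.norm_of_nonneg hδ0.le,
    Real.dist_eq] at a
  rw [dist_eq_norm (y + _), show y + (((N : ℝ) + 1) * δ) • h - (y + ((N : ℝ) * δ) • h) = δ • h by
    module, norm_smul, Real.norm_of_nonneg hδ0.le, Real.dist_eq] at b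
  rw [div_lt_iff₀ h0] at hN
  have a' := neg_abs_le (g (y + δ • h) - g y)
  have b' := le_abs_self (g (y + (((N : ℝ) + 1) * δ) • h) - g (y + ((N : ℝ) * δ) • h))
  nlinarith

lemma force (hc : ConvexOn ℝ univ g) (hL : LipschitzWith L g) {y h : Y} {ε : ℝ} (hε : 0 < ε)
    (hK : ¬ K g y (3 * ε) h) (V : O Y) (hy : y ∈ V.1) :
    ∃ W ≤ V, ∃ h', (h' = h ∨ h' = -h) ∧ ∀ z ∈ W.1, Lo g z h' ε := by
  have hg := hL.continuous
  have h1 : ∀ h' : Y, ∀ᶠ δ : ℝ in 𝓝 0, y + δ • h' ∈ V.1 := fun h' =>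
    (show Continuous fun δ : ℝ => y + δ • h' by fun_prop).continuousAt.eventually
      (V.2.1.mem_nhds (by simpa using hy))
  obtain ⟨δ, ⟨h2, h3⟩, hδ⟩ := ((((h1 h).and (h1 (-h))).filter_mono
    (nhdsWithin_le_nhds (s := Ioi 0))).and self_mem_nhdsWithin).exists
  have hδ0 : 0 < δ := hδ
  have h4 : 3 * ε * δ ≤ Dl g y (δ • h) := not_lt.1 fun h5 => hK ⟨δ, hδ0, h5⟩
  obtain ⟨h', h5, h6, h7⟩ : ∃ h', (h' = h ∨ h' = -h) ∧ y + δ • h' ∈ V.1 ∧
      ε * δ < g (y + δ • h') - g y := by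
    by_cases h8 : ε * δ < g (y + δ • h) - g y
    · exact ⟨h, Or.inl rfl, h2, h8⟩
    · refine ⟨-h, Or.inr rfl, h3, ?_⟩
      simp only [Dl] at h4
      rw [smul_neg, ← sub_eq_add_neg]
      nlinarith [mul_pos hε hδ0]
  refine ⟨⟨V.1 ∩ {z | ε * δ < g z - g (z - δ • h')},
    V.2.1.inter (isOpen_lt continuous_const (by fun_prop)), y + δ • h', h6, by simpa using h7⟩,
    inter_subset_left, h', h5, fun z hz => ⟨δ, hδ0, fun η h8 h9 => ?_⟩⟩
  have b := slope hc z (-h') h8 h9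
  simp only [smul_neg, ← sub_eq_add_neg] at b
  have h10 : ε * δ < g z - g (z - δ • h') := hz.2
  refine le_of_mul_le_mul_left (a := δ) ?_ hδ0
  nlinarith

lemma subgrad (hc : ConvexOn ℝ univ g) (hg : Continuous g) (y : Y) :
    ∃ φ : Y →L[ℝ] ℝ, ∀ h, φ h ≤ g (y + h) - g y := by
  obtain ⟨F, hF⟩ := geometric_hahn_banach_open_point (s := {p : Y × ℝ | g p.1 < p.2})
    (x := (y, g y)) (by simpa using hc.convex_strict_epigraph)
    (isOpen_lt (by fun_prop) continuous_snd) (by simp)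
  have e : ∀ (z : Y) (r : ℝ), F (z, r) = F (z, 0) + r * F (0, 1) := fun z r => by
    rw [← smul_eq_mul, ← map_smul, ← map_add]; simp
  have h1 : F (0, 1) < 0 := by
    have := hF (y, g y + 1) (by simp)
    rw [e y (g y + 1), e y (g y)] at this
    linarith
  refine ⟨(-F (0, 1))⁻¹ • F.comp (ContinuousLinearMap.inl ℝ Y ℝ), fun h => ?_⟩
  refine le_of_forall_pos_le_add fun η hη => ?_
  have h2 := hF (y + h, g (y + h) + η) (by simpa using hη)
  have e2 : F (y + h, 0) = F (y, 0) + F (h, 0) := by rw [← map_add]; simp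
  rw [e (y + h), e y (g y), e2] at h2
  show (-F (0, 1))⁻¹ * F (h, 0) ≤ _
  rw [inv_mul_le_iff₀ (by linarith)]
  linarith

lemma unif (hc : ConvexOn ℝ univ g) (hL : LipschitzWith L g) {y : Y} (hM : M hc y = ⊤) :
    ∃ φ : Y →L[ℝ] ℝ, ∀ B : Set Y, TotallyBounded B → ∀ c : ℝ, 0 < c → ∃ δ : ℝ, 0 < δ ∧
      ∀ t : ℝ, t ≠ 0 → |t| ≤ δ → ∀ h ∈ B, |(g (y + t • h) - g y) / t - φ h| ≤ c := by
  obtain ⟨φ, hφ⟩ := subgrad hc hL.continuous y
  refine ⟨φ, fun B hB c h0 => ?_⟩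
  obtain ⟨N, hN, hBN⟩ := Metric.totallyBounded_iff.1 hB (c / 2 / (2 * L + 1)) (by positivity)
  have h1 : ∀ h' ∈ N, ∀ᶠ η : ℝ in 𝓝[>] 0, Dl g y (η • h') < c / 2 * η := fun h' _ => by
    obtain ⟨δ, hδ, h2⟩ := ((hM.ge (Submodule.mem_top (x := h'))) (c / 2) (by positivity)).ev hc
    filter_upwards [Ioc_mem_nhdsGT hδ] with η hη using h2 η hη.1 hη.2
  obtain ⟨δ, hδ, h2⟩ := mem_nhdsGT_iff_exists_Ioc_subset.1 ((eventually_all_finite hN).2 h1)
  refine ⟨δ, hδ, fun t ht htδ h hh => ?_⟩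
  obtain ⟨h', hh', h3⟩ := mem_iUnion₂.1 (hBN hh)
  have ht0 : 0 < |t| := abs_pos.2 ht
  have h4 := h2 ⟨ht0, htδ⟩ h' hh'
  have h5 := Dl_lip hL y (|t| • h) (|t| • h')
  rw [← smul_sub, norm_smul, Real.norm_of_nonneg ht0.le, ← dist_eq_norm] at h5
  rw [Metric.mem_ball, lt_div_iff₀ (by positivity)] at h3
  have h6 : 2 * L * dist h h' ≤ c / 2 := by nlinarith [dist_nonneg (x := h) (y := h')]
  have h7 : Dl g y (t • h) ≤ c * |t| := by
    have e : Dl g y (t • h) = Dl g y (|t| • h) := by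
      rcases abs_cases t with ⟨e, -⟩ | ⟨e, -⟩
      · rw [e]
      · rw [e, neg_smul]; simp only [Dl, sub_neg_eq_add, ← sub_eq_add_neg]; ring
    rw [e]; nlinarith
  have a := hφ (t • h)
  have b := hφ (-(t • h))
  rw [map_neg, ← sub_eq_add_neg] at b
  rw [map_smul, smul_eq_mul] at a b
  simp only [Dl] at h7
  rw [show (g (y + t • h) - g y) / t - φ h = (g (y + t • h) - g y - t * φ h) / t by field_simp,
    abs_div, div_le_iff₀ ht0, abs_of_nonneg (by linarith)]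
  linarith

lemma extend {g : Y → ℝ} {y : Y} {r : ℝ} (hr : 0 < r) (hc : ConvexOn ℝ (Metric.ball y r) g)
    (hL : LipschitzOnWith L g (Metric.ball y r)) :
    ∃ g' : Y → ℝ, ConvexOn ℝ univ g' ∧ LipschitzWith L g' ∧ ∀ z ∈ Metric.ball y r, g' z = g z := by
  haveI : Nonempty (Metric.ball y r) := ⟨⟨y, Metric.mem_ball_self hr⟩⟩
  have h0 : ∀ z ∈ Metric.ball y r, ∀ w ∈ Metric.ball y r, g z ≤ g w + L * ‖z - w‖ :=
    fun z hz w hw => by
      have := hL.dist_le_mul z hz w hw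
      rw [Real.dist_eq, dist_eq_norm] at this
      linarith [le_abs_self (g z - g w)]
  have hb : ∀ z, BddBelow (range fun w : Metric.ball y r => g w + L * ‖z - w.1‖) := fun z => by
    refine ⟨g y - L * ‖y - z‖, ?_⟩
    rintro _ ⟨w, rfl⟩
    have h1 := h0 y (Metric.mem_ball_self hr) w w.2
    have h2 : (L : ℝ) * ‖y - w‖ ≤ L * (‖y - z‖ + ‖z - w‖) := by
      gcongr; exact norm_sub_le_norm_sub_add_norm_sub _ _ _
    simp only
    linarith
  refine ⟨fun z => ⨅ w : Metric.ball y r, (g w + L * ‖z - w.1‖), ⟨convex_univ, ?_⟩, ?_, ?_⟩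
  · intro z _ z' _ a b ha hb' hab
    refine le_of_forall_pos_le_add fun η hη => ?_
    obtain ⟨w, hw⟩ := exists_lt_of_ciInf_lt (lt_add_of_pos_right
      (⨅ w : Metric.ball y r, (g w + L * ‖z - w.1‖)) hη)
    obtain ⟨w', hw'⟩ := exists_lt_of_ciInf_lt (lt_add_of_pos_right
      (⨅ w : Metric.ball y r, (g w + L * ‖z' - w.1‖)) hη)
    refine (ciInf_le (hb _) ⟨_, hc.1 w.2 w'.2 ha hb' hab⟩).trans ?_
    have h1 := hc.2 w.2 w'.2 ha hb' hab
    have h2 : ‖a • z + b • z' - (a • (w : Y) + b • (w' : Y))‖ ≤ a * ‖z - w‖ + b * ‖z' - w'‖ := by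
      rw [show a • z + b • z' - (a • (w : Y) + b • (w' : Y)) = a • (z - w) + b • (z' - w') by module]
      refine (norm_add_le _ _).trans (le_of_eq ?_)
      rw [norm_smul, norm_smul, Real.norm_of_nonneg ha, Real.norm_of_nonneg hb']
    have h3 := mul_le_mul_of_nonneg_left h2 L.2
    have h4 := mul_le_mul_of_nonneg_left hw.le ha
    have h5 := mul_le_mul_of_nonneg_left hw'.le hb'
    simp only [smul_eq_mul] at h1 ⊢
    have h6 : a * η + b * η = η := by rw [← add_mul, hab, one_mul]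
    change (L : ℝ) * _ ≤ (L : ℝ) * _ at h3
    nlinarith
  · refine LipschitzWith.of_le_add_mul L fun z z' => ?_
    rw [← sub_le_iff_le_add]
    refine le_ciInf fun w => ?_
    have h1 := ciInf_le (hb z) w
    have h2 : (L : ℝ) * ‖z - w‖ ≤ L * (‖z - z'‖ + ‖z' - w‖) := by
      gcongr; exact norm_sub_le_norm_sub_add_norm_sub _ _ _
    rw [dist_eq_norm]
    linarith
  · intro z hz
    refine le_antisymm ((ciInf_le (hb z) ⟨z, hz⟩).trans (by simp)) (le_ciInf fun w => h0 z hz w w.2)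

end Pool.Agent.H94.AS
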