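import Pool.Agent.H94.AS2

set_option autoImplicit false

namespace Pool.Agent.H94.AS

open Set Filter Topology
open scoped NNReal

variable {Y : Type} [NormedAddCommGroup Y] [NormedSpace ℝ Y] {g : Y → ℝ} {L : ℝ≥0}

structure Sup (Y : Type) [NormedAddCommGroup Y] where
  S : Set Om → Set Y
  s0 : ∀ s, 0 ∈ S s
  s1 : ∀ s, ∀ h ∈ S s, ‖h‖ ≤ 1
  s2 : ∀ s t, Disjoint s t → ∀ h ∈ S s, ∀ h' ∈ S t, h + h' ∈ S (s ∪ t)
  s3 : ∀ s t, s ⊆ t → S s ⊆ S t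
  s4 : ∀ s, ∀ h ∈ S s, -h ∈ S s

def T (σ : Sup Y) (g : Y → ℝ) (ε : ℝ) (V : O Y) : Set (List Bool) :=
  {l | ∃ W ≤ V, ∃ h ∈ σ.S (cyl l), ∀ y ∈ W.1, Lo g y h ε}

def B (σ : Sup Y) (g : Y → ℝ) (ε : ℝ) (V : O Y) : Set Om := {b | ∀ m, pre b m ∈ T σ g ε V}

lemma B_mono (σ : Sup Y) (ε : ℝ) {V W : O Y} (h : W ≤ V) : B σ g ε W ⊆ B σ g ε V :=
  fun _ hb m => let ⟨U, h1, h2⟩ := hb m; ⟨U, h1.trans h, h2⟩

lemma Lo_zero (y : Y) : Lo g y 0 0 := ⟨1, one_pos, by simp⟩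

lemma grow (σ : Sup Y) (hc : ConvexOn ℝ univ g) {ε c : ℝ} {W : O Y} {s s' : Set Om} {b : Om} {m : ℕ}
    (h1 : ∃ h ∈ σ.S s, ∀ y ∈ W.1, Lo g y h c) (hb : b ∈ B σ g ε W) (hd : Disjoint s (C b m))
    (hs : s ∪ C b m ⊆ s') : ∃ W' ≤ W, ∃ h ∈ σ.S s', ∀ y ∈ W'.1, Lo g y h (c + ε) := by
  obtain ⟨h, h2, h3⟩ := h1
  obtain ⟨W', h4, h', h5, h6⟩ := hb m
  rw [cyl_pre] at h5
  exact ⟨W', h4, h + h', σ.s3 _ _ hs (σ.s2 _ _ hd h h2 h' h5),
    fun y hy => (h3 y (h4 hy)).add hc (h6 y hy)⟩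

lemma iso (σ : Sup Y) (hc : ConvexOn ℝ univ g) (hL : LipschitzWith L g) {ε : ℝ} (hε : 0 < ε)
    (b : Om) (V : O Y) : ∃ W ≤ V, ∃ m, B σ g ε W ∩ C b m ⊆ {b} := by
  by_contra hn
  have key : ∀ n : ℕ, ∃ W ≤ V, ∃ m, ∃ h ∈ σ.S (C b m)ᶜ, ∀ y ∈ W.1, Lo g y h (n * ε) := by
    intro n
    induction n with
    | zero => exact ⟨V, le_rfl, 0, 0, σ.s0 _, fun y _ => by simpa using Lo_zero y⟩
    | succ n ih =>
      obtain ⟨W, h1, m, h2⟩ := ih
      obtain ⟨b', h3, h4⟩ := not_subset.1 fun h => hn ⟨W, h1, m, h⟩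
      obtain ⟨i, hi⟩ := Function.ne_iff.1 h4
      have him : m ≤ i := not_lt.1 fun h => hi (h3.2 i h)
      obtain ⟨W', h5, h6⟩ := grow σ hc (m := i + 1) (s' := (C b (i + 1))ᶜ) h2 h3.1
        (disjoint_left.2 fun t ht ht' => ht fun j hj => (ht' j (by omega)).trans (h3.2 j hj))
        (union_subset (fun t ht ht' => ht fun j hj => ht' j (by omega))
          fun t ht ht' => hi ((ht i (by omega)).symm.trans (ht' i (by omega))))
      exact ⟨W', h5.trans h1, i + 1, by push_cast; rwa [add_mul, one_mul]⟩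
  obtain ⟨n, hn⟩ := exists_nat_gt (L / ε)
  obtain ⟨W, -, m, h, h1, h2⟩ := key n
  obtain ⟨y, hy⟩ := W.2.2
  rw [div_lt_iff₀ hε] at hn
  exact absurd ((h2 y hy).bound hL (σ.s1 _ _ h1)) (not_le.2 hn)

lemma cover (σ : Sup Y) (hc : ConvexOn ℝ univ g) (hL : LipschitzWith L g) {ε : ℝ} {k : ℕ}
    (hk : L < k * ε) (m : ℕ) (V : O Y) :
    ∃ W ≤ V, ∃ c : ℕ → Om, B σ g ε W ⊆ ⋃ i < k, C (c i) m := by
  by_contra hn
  have key : ∀ n ≤ k, ∃ W ≤ V, ∃ c : ℕ → Om, ∃ h ∈ σ.S (⋃ i < n, C (c i) m),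
      ∀ y ∈ W.1, Lo g y h (n * ε) := by
    intro n
    induction n with
    | zero => exact fun _ => ⟨V, le_rfl, fun _ _ => true, 0, σ.s0 _,
        fun y _ => by simpa using Lo_zero y⟩
    | succ n ih =>
      intro hnk
      obtain ⟨W, h1, c, h2⟩ := ih (by omega)
      obtain ⟨b, h3, h4⟩ := not_subset.1 fun h => hn ⟨W, h1, c, h⟩
      obtain ⟨W', h5, h6⟩ := grow σ hc (m := m)
        (s' := ⋃ i < n + 1, C (Function.update c n b i) m) h2 h3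
        (disjoint_left.2 fun t ht ht' => by
          obtain ⟨i, hi, h7⟩ := mem_iUnion₂.1 ht
          exact h4 (mem_iUnion₂.2 ⟨i, by omega, fun j hj => (ht' j hj).symm.trans (h7 j hj)⟩))
        (union_subset (fun t ht => by
          obtain ⟨i, hi, h7⟩ := mem_iUnion₂.1 ht
          exact mem_iUnion₂.2 ⟨i, by omega, by rwa [Function.update_of_ne (by omega)]⟩)
          fun t ht => mem_iUnion₂.2 ⟨n, by omega, by rwa [Function.update_self]⟩)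
      exact ⟨W', h5.trans h1, _, by push_cast; rwa [add_mul, one_mul]⟩
  obtain ⟨W, -, c, h, h1, h2⟩ := key k le_rfl
  obtain ⟨y, hy⟩ := W.2.2
  exact absurd ((h2 y hy).bound hL (σ.s1 _ _ h1)) (not_le.2 hk)

lemma cluster (k : ℕ) (c : ℕ → ℕ → Om) :
    ∃ p : ℕ → Om, ∀ m, ∃ n, ∀ i < k, C (c n i) n ⊆ C (p i) m := by
  obtain ⟨p, φ, hφ, ht⟩ := CompactSpace.tendsto_subseq c
  refine ⟨p, fun m => ?_⟩
  have h1 : ∀ᶠ n in atTop, ∀ i ∈ Iio k, ∀ j ∈ Iio m, c (φ n) i j = p i j :=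
    (eventually_all_finite (finite_Iio k)).2 fun i _ => (eventually_all_finite (finite_Iio m)).2
      fun j _ => tendsto_pure.1 (by
        have := tendsto_pi_nhds.1 (tendsto_pi_nhds.1 ht i) j
        rwa [nhds_discrete] at this)
  obtain ⟨n, h2, h3⟩ := (h1.and (eventually_ge_atTop m)).exists
  exact ⟨φ n, fun i hi t ht j hj =>
    (ht j (lt_of_lt_of_le hj (h3.trans (hφ.id_le n)))).trans (h2 i hi j hj)⟩

lemma fin_lim {k : ℕ} {Z : Set Om} (h : ∀ n, ∃ c : ℕ → Om, Z ⊆ ⋃ i < k, C (c i) n) : Z.Finite := by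
  choose c hc using h
  obtain ⟨p, hp⟩ := cluster k c
  refine ((finite_Iio k).image p).subset fun z hz => ?_
  by_contra hn
  have h1 : ∀ i ∈ Iio k, ∀ᶠ m in atTop, z ∉ C (p i) m := fun i hi => by
    obtain ⟨j, hj⟩ := Function.ne_iff.1 fun e : z = p i => hn ⟨i, hi, e.symm⟩
    filter_upwards [eventually_gt_atTop j] with m hm h2 using hj (h2 j hm)
  obtain ⟨m, hm⟩ := ((eventually_all_finite (finite_Iio k)).2 h1).exists
  obtain ⟨n, h2⟩ := hp m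
  obtain ⟨i, hi, h3⟩ := mem_iUnion₂.1 (hc n hz)
  exact hm i hi (h2 i hi h3)

lemma sep (σ : Sup Y) (hc : ConvexOn ℝ univ g) (hL : LipschitzWith L g) {ε : ℝ} (hε : 0 < ε)
    (V : O Y × O Y) : ∃ W ≤ V, (B σ g ε W.1 ∩ B σ g ε W.2).Finite := by
  obtain ⟨k, hk⟩ := exists_nat_gt (L / ε)
  rw [div_lt_iff₀ hε] at hk
  choose U hU c hUc using fun m => cover σ hc hL hk m V.2
  obtain ⟨p, hp⟩ := cluster k c
  obtain ⟨W, hW, h1⟩ := conj (finite_Iio k)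
    (fun i (W : O Y) => ∃ m, B σ g ε W ∩ C (p i) m ⊆ {p i})
    (fun i a => iso σ hc hL hε (p i) a)
    (fun i a b hab ⟨m, hm⟩ => ⟨m, (inter_subset_inter_left _ (B_mono σ ε hab)).trans hm⟩) V.1
  have h2 : ∀ i ∈ Iio k, ∀ᶠ m in atTop, B σ g ε W ∩ C (p i) m ⊆ {p i} := fun i hi => by
    obtain ⟨m, hm⟩ := h1 i hi
    filter_upwards [eventually_ge_atTop m] with m' hm'
    exact fun t ht => hm ⟨ht.1, fun j hj => ht.2 j (by omega)⟩
  obtain ⟨m, hm⟩ := ((eventually_all_finite (finite_Iio k)).2 h2).exists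
  obtain ⟨n, h3⟩ := hp m
  refine ⟨(W, U n), ⟨hW, hU n⟩, ((finite_Iio k).image p).subset fun z hz => ?_⟩
  obtain ⟨i, hi, h4⟩ := mem_iUnion₂.1 (hUc n hz.2)
  exact ⟨i, hi, (hm i hi ⟨hz.1, h3 i hi h4⟩).symm⟩

lemma small (V : O Y) {r : ℝ} (hr : 0 < r) :
    ∃ W ≤ V, closure W.1 ⊆ V.1 ∧ ∀ y ∈ W.1, ∀ z ∈ W.1, dist y z ≤ r := by
  obtain ⟨y, hy⟩ := V.2.2
  obtain ⟨s, hs, hb⟩ := Metric.nhds_basis_closedBall.mem_iff.1 (V.2.1.mem_nhds hy)
  have hm : 0 < min s (r / 2) := by positivity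
  have h1 : closure (Metric.ball y (min s (r / 2))) ⊆ V.1 := Metric.closure_ball_subset_closedBall.trans
    ((Metric.closedBall_subset_closedBall (min_le_left _ _)).trans hb)
  refine ⟨⟨_, Metric.isOpen_ball, y, Metric.mem_ball_self hm⟩, subset_closure.trans h1, h1,
    fun a ha b hb => ?_⟩
  have h2 : dist a y < min s (r / 2) := ha
  have h3 : dist b y < min s (r / 2) := hb
  linarith [dist_triangle_right a b y, min_le_right s (r / 2)]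

lemma step (σ : Sup Y) (hc : ConvexOn ℝ univ g) (hL : LipschitzWith L g) (d : ℕ → Y) (e : Om → Y)
    (k : ℕ → ℕ) (hk : ∀ j, L < k j * (1 / (j + 1 : ℝ))) (n : ℕ) (s : O Y × {P : Set Om // P.Finite}) :
    ∃ W : Bool → O Y × {P : Set Om // P.Finite}, ∀ x, closure (W x).1.1 ⊆ s.1.1 ∧
      s.2.1 ⊆ (W x).2.1 ∧ (∀ y ∈ (W x).1.1, ∀ z ∈ (W x).1.1, dist y z ≤ 1 / (n + 1 : ℝ)) ∧
      (∀ j ≤ n, B σ g (1 / (j + 1 : ℝ)) (W x).1 ∩ B σ g (1 / (j + 1 : ℝ)) (W (!x)).1 ⊆ (W x).2.1) ∧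
      (∀ j ≤ n, ∃ c : ℕ → Om, B σ g (1 / (j + 1 : ℝ)) (W x).1 ⊆ ⋃ i < k j, C (c i) n) ∧
      ∀ h ∈ d '' Iic n ∪ e '' s.2.1, ∀ y ∈ (W x).1.1, K g y (1 / (n + 1 : ℝ)) h := by
  obtain ⟨V1, h1, h2, h3⟩ := small s.1 (r := 1 / (n + 1 : ℝ)) (by positivity)
  obtain ⟨V2, h4, h5⟩ := conj (((finite_Iic n).image d).union (s.2.2.image e))
    (fun h (W : O Y) => ∀ y ∈ W.1, K g y (1 / (n + 1 : ℝ)) h)
    (fun h a => K_dense hc hL h (by positivity) a) (fun h a b hab h6 y hy => h6 y (hab hy)) V1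
  obtain ⟨V3, h6, h7⟩ := conj (finite_Iic n)
    (fun j (W : O Y) => ∃ c : ℕ → Om, B σ g (1 / (j + 1 : ℝ)) W ⊆ ⋃ i < k j, C (c i) n)
    (fun j a => cover σ hc hL (hk j) n a)
    (fun j a b hab ⟨c, h8⟩ => ⟨c, (B_mono σ _ hab).trans h8⟩) V2
  obtain ⟨U, h8, h9⟩ := conj (finite_Iic n)
    (fun j (W : O Y × O Y) => (B σ g (1 / (j + 1 : ℝ)) W.1 ∩ B σ g (1 / (j + 1 : ℝ)) W.2).Finite)
    (fun j a => sep σ hc hL (by positivity) a)
    (fun j a b hab h => h.subset (inter_subset_inter (B_mono σ _ hab.1) (B_mono σ _ hab.2)))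
    (V3, V3)
  have hU : ∀ x : Bool, cond x U.1 U.2 ≤ V3 := fun x => by cases x; exacts [h8.2, h8.1]
  refine ⟨fun x => (cond x U.1 U.2, ⟨_, s.2.2.union ((finite_Iic n).biUnion h9)⟩), fun x =>
    ⟨(closure_mono ((hU x).trans (h6.trans h4))).trans h2, subset_union_left,
      fun y hy z hz => h3 y (h4 (h6 (hU x hy))) z (h4 (h6 (hU x hz))), fun j hj b hb => ?_,
      fun j hj => ?_, fun h hh y hy => h5 h hh y (h6 (hU x hy))⟩⟩
  · refine Or.inr (mem_biUnion (mem_Iic.2 hj) ?_)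
    cases x
    exacts [⟨hb.2, hb.1⟩, hb]
  · obtain ⟨c, h10⟩ := h7 j hj
    exact ⟨c, (B_mono σ _ (hU x)).trans h10⟩

lemma nested [CompleteSpace Y] (V : ℕ → O Y) (h1 : ∀ n, closure (V (n + 1)).1 ⊆ (V n).1)
    (h2 : ∀ n, ∀ y ∈ (V (n + 1)).1, ∀ z ∈ (V (n + 1)).1, dist y z ≤ 1 / (n + 1 : ℝ)) :
    ∃ y, ∀ n, y ∈ (V n).1 := by
  choose u hu using fun n => (V n).2.2
  have ha : Antitone fun n => (V n).1 :=
    antitone_nat_of_succ_le fun n => subset_closure.trans (h1 n)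
  have hc : CauchySeq fun n => u (n + 1) := cauchySeq_of_le_tendsto_0 (fun n : ℕ => 1 / (n + 1 : ℝ))
    (fun n m N hn hm => h2 N _ (ha (by omega) (hu (n + 1))) _ (ha (by omega) (hu (m + 1))))
    tendsto_one_div_add_atTop_nhds_zero_nat
  obtain ⟨y, hy⟩ := cauchySeq_tendsto_of_complete hc
  refine ⟨y, fun n => h1 n (mem_closure_of_tendsto hy ?_)⟩
  filter_upwards [eventually_ge_atTop n] with m hm using ha (by omega) (hu (m + 1))

theorem gds [CompleteSpace Y] (σ : Sup Y) (hc : ConvexOn ℝ univ g) (hL : LipschitzWith L g)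
    {A : Set Om} (hA : ∀ S : List Bool → ℕ → Set (List Bool), (∀ t j, (G S t j).Countable) →
      ∃ t, ∀ j, ∀ b ∈ G S t j, b ∈ A → ∃ t' ≠ t, pre t' j = pre t j ∧ b ∈ G S t' j)
    (d : ℕ → Y) (e : Om → ℕ → Y) (he : ∀ a m, e a m ∈ σ.S (C a m))
    (hed : ∀ a m, e a 0 - e a m ∈ Submodule.span ℝ (range d))
    (hd : (Submodule.span ℝ (range d ∪ (fun a => e a 0) '' A)).topologicalClosure = ⊤) (V : O Y) :
    ∃ y ∈ V.1, M hc y = ⊤ := by
  have hk : ∀ j : ℕ, ∃ k : ℕ, L < k * (1 / (j + 1 : ℝ)) := fun j => by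
    obtain ⟨k, hk⟩ := exists_nat_gt (L / (1 / (j + 1 : ℝ)))
    exact ⟨k, (div_lt_iff₀ (by positivity)).1 hk⟩
  choose k hk using hk
  choose W hW using step σ hc hL d (fun a => e a 0) k hk
  let st : List Bool → O Y × {P : Set Om // P.Finite} := fun l =>
    l.rec (V, ⟨∅, finite_empty⟩) fun x l s => W l.length s x
  have hst : ∀ t n, st (pre t (n + 1)) = W n (st (pre t n)) (t n) := fun t n => by
    show W (pre t n).length _ _ = _
    rw [len_pre]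
  have hG : ∀ t j b, b ∈ G (fun l j => T σ g (1 / (j + 1 : ℝ)) (st l).1) t j ↔
      ∀ n, b ∈ B σ g (1 / (j + 1 : ℝ)) (st (pre t n)).1 := fun t j b => Iff.rfl
  obtain ⟨t, ht⟩ := hA (fun l j => T σ g (1 / (j + 1 : ℝ)) (st l).1) fun t j => by
    refine (fin_lim (k := k j) fun n => ?_).countable
    obtain ⟨c, h1⟩ := (hW (n + j) (st (pre t (n + j))) (t (n + j))).2.2.2.2.1 j (by omega)
    refine ⟨c, fun b hb => ?_⟩
    have h2 := (hG _ _ _).1 hb (n + j + 1)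
    rw [hst] at h2
    obtain ⟨i, hi, h3⟩ := mem_iUnion₂.1 (h1 h2)
    exact mem_iUnion₂.2 ⟨i, hi, fun l hl => h3 l (by omega)⟩
  obtain ⟨y, hy⟩ := nested (fun n => (st (pre t n)).1)
    (fun n => by simp only [hst]; exact (hW n _ _).1)
    (fun n => by simp only [hst]; exact (hW n _ _).2.2.1)
  refine ⟨y, hy 0, ?_⟩
  have hK : ∀ n, ∀ h ∈ d '' Iic n ∪ (fun a => e a 0) '' (st (pre t n)).2.1,
      K g y (1 / (n + 1 : ℝ)) h := fun n h hh => by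
    have := hy (n + 1)
    simp only [hst] at this
    exact (hW n _ (t n)).2.2.2.2.2 h hh y this
  have hM : ∀ h, (∀ᶠ n in atTop, h ∈ d '' Iic n ∪ (fun a => e a 0) '' (st (pre t n)).2.1) →
      h ∈ M hc y := fun h hh c h0 => by
    obtain ⟨n, h1, h2⟩ := (hh.and
      (tendsto_one_div_add_atTop_nhds_zero_nat.eventually (Iic_mem_nhds h0))).exists
    exact (hK n h h1).mono h2
  have hdM : ∀ i, d i ∈ M hc y := fun i => hM _ (by
    filter_upwards [eventually_ge_atTop i] with n hn using Or.inl ⟨i, hn, rfl⟩)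
  have hP : Monotone fun n => (st (pre t n)).2.1 := monotone_nat_of_le_succ fun n => by
    simp only [hst]; exact (hW n _ _).2.1
  rw [eq_top_iff, ← hd]
  refine Submodule.topologicalClosure_minimal _ (Submodule.span_le.2 ?_) (M_closed hc hL y)
  rintro _ (⟨i, rfl⟩ | ⟨a, ha, rfl⟩)
  · exact hdM i
  by_contra hn
  obtain ⟨c, h0, h1⟩ : ∃ c, 0 < c ∧ ¬ K g y c (e a 0) := by
    by_contra h2
    push Not at h2
    exact hn h2
  obtain ⟨j, hj⟩ := exists_nat_one_div_lt (show 0 < c / 4 by positivity)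
  have hε : (0 : ℝ) < 1 / (j + 1 : ℝ) := by positivity
  have haB : ∀ n, a ∈ B σ g (1 / (j + 1 : ℝ)) (st (pre t n)).1 := fun n m => by
    have h5 : ¬ K g y (3 * (1 / (j + 1 : ℝ))) (e a m) := fun h6 => by
      have h7 := (h6.add hc ((Submodule.span_le.2 (range_subset_iff.2 hdM) (hed a m)) _ hε))
      rw [add_sub_cancel] at h7
      exact h1 (h7.mono (by linarith))
    obtain ⟨U, h6, h', h7, h8⟩ := force hc hL hε h5 _ (hy n)
    refine ⟨U, h6, h', ?_, h8⟩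
    rw [cyl_pre]
    rcases h7 with rfl | rfl
    exacts [he a m, σ.s4 _ _ (he a m)]
  obtain ⟨t', h2, h3, h4⟩ := ht j a ((hG _ _ _).2 haB) ha
  classical
  have h5 := Function.ne_iff.1 h2
  set n := Nat.find h5
  have h6 : t' n ≠ t n := Nat.find_spec h5
  have h7 : pre t' n = pre t n := pre_eq.2 fun i hi => not_not.1 (Nat.find_min h5 hi)
  have h8 : j ≤ n := not_lt.1 fun h => h6 (pre_eq.1 h3 n h)
  have h9 := (hG _ _ _).1 h4 (n + 1)
  have h10 := haB (n + 1)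
  rw [hst, h7, Bool.eq_not_iff.2 h6] at h9
  rw [hst] at h10
  have h11 := (hW n _ (t n)).2.2.2.1 j h8 ⟨h10, h9⟩
  rw [← hst] at h11
  refine hn (hM _ ?_)
  filter_upwards [eventually_ge_atTop (n + 1)] with m hm using Or.inr ⟨a, hP hm h11, rfl⟩

end Pool.Agent.H94.AS
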