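import Pool.Agent.H94.AS3

set_option autoImplicit false

namespace Pool.Agent.H94.AS

open Set Filter Topology
open scoped NNReal ENNReal Classical

abbrev Li := lp (fun _ : Om => ℝ) ∞

noncomputable def ind (s : Set Om) : Li :=
  ⟨fun t => if t ∈ s then 1 else 0, memℓp_infty ⟨1, by
    rintro _ ⟨t, rfl⟩
    by_cases h : t ∈ s <;> simp [h]⟩⟩

lemma ind_apply (s : Set Om) (t : Om) : ind s t = if t ∈ s then 1 else 0 := rfl

lemma le_nrm (x : Li) (t : Om) : |x t| ≤ ‖x‖ := lp.norm_apply_le_norm ENNReal.top_ne_zero x t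

lemma nrm_le {x : Li} {c : ℝ} (h0 : 0 ≤ c) (h : ∀ t, |x t| ≤ c) : ‖x‖ ≤ c :=
  lp.norm_le_of_forall_le h0 h

lemma ind_norm (s : Set Om) : ‖ind s‖ ≤ 1 := nrm_le zero_le_one fun t => by
  rw [ind_apply]; split_ifs <;> simp

def side (a : Om) (k : ℕ) : Set Om := {t | t ∈ C a k ∧ t k ≠ a k}

lemma side_eq (a : Om) (k : ℕ) : side a k = C (Function.update a k (!a k)) (k + 1) := by
  ext t
  constructor
  · rintro ⟨h1, h2⟩ i hi
    rcases (Nat.lt_succ_iff_lt_or_eq.1 hi) with h | rfl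
    · rw [Function.update_of_ne h.ne]; exact h1 i h
    · rw [Function.update_self]; exact Bool.eq_not_iff.2 h2
  · refine fun h => ⟨fun i hi => ?_, ?_⟩
    · rw [h i (by omega), Function.update_of_ne hi.ne]
    · rw [h k (by omega), Function.update_self]; simp

lemma side_uniq {a t : Om} {k l : ℕ} (h1 : t ∈ side a k) (h2 : t ∈ side a l) : k = l := by
  rcases lt_trichotomy k l with h | h | h
  exacts [absurd (h2.1 k h) h1.2, h, absurd (h1.1 l h) h2.2]

def od (a : Om) (m : ℕ) : Set Om := {t | ∃ k, m ≤ k ∧ Odd k ∧ t ∈ side a k}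

noncomputable def X (A : Set Om) : Submodule ℝ Li :=
  (Submodule.span ℝ (range (fun l => ind (cyl l)) ∪ (fun a => ind (od a 0)) '' A)).topologicalClosure

instance (A : Set Om) : CompleteSpace (X A) :=
  (Submodule.isClosed_topologicalClosure _).completeSpace_coe

lemma X_ind {A : Set Om} (N : Submodule ℝ Li) (hN : IsClosed (N : Set Li))
    (h1 : ∀ l, ind (cyl l) ∈ N) (h2 : ∀ a ∈ A, ind (od a 0) ∈ N) : X A ≤ N :=
  Submodule.topologicalClosure_minimal _ (Submodule.span_le.2 (by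
    rintro _ (⟨l, rfl⟩ | ⟨a, ha, rfl⟩)
    exacts [h1 l, h2 a ha])) hN

lemma cyl_mem (A : Set Om) (l : List Bool) : ind (cyl l) ∈ X A :=
  Submodule.le_topologicalClosure _ (Submodule.subset_span (Or.inl ⟨l, rfl⟩))

lemma od_sub (a : Om) (m : ℕ) :
    ind (od a 0) - ind (od a m) ∈ Submodule.span ℝ (range fun l => ind (cyl l)) := by
  induction m with
  | zero => simp
  | succ m ih =>
    have e : ind (od a m) - ind (od a (m + 1)) = (if Odd m then (1 : ℝ) else 0) • ind (side a m) := by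
      ext t
      rw [lp.coeFn_sub, lp.coeFn_smul, Pi.sub_apply, Pi.smul_apply, ind_apply, ind_apply, ind_apply]
      by_cases h : t ∈ side a m
      · have h1 : t ∉ od a (m + 1) := fun ⟨k, h1, _, h2⟩ => by have := side_uniq h h2; omega
        have h2 : t ∈ od a m ↔ Odd m :=
          ⟨fun ⟨k, _, h2, h3⟩ => side_uniq h h3 ▸ h2, fun h2 => ⟨m, le_rfl, h2, h⟩⟩
        simp [h, h1, h2]
      · have h2 : t ∈ od a m ↔ t ∈ od a (m + 1) :=
          ⟨fun ⟨k, h1, h2, h3⟩ => ⟨k, lt_of_le_of_ne h1 fun e => h (e ▸ h3), h2, h3⟩,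
            fun ⟨k, h1, h2⟩ => ⟨k, by omega, h2⟩⟩
        simp [h, h2]
    rw [← sub_add_sub_cancel _ (ind (od a m)), e]
    refine add_mem ih (Submodule.smul_mem _ _ (Submodule.subset_span ?_))
    exact ⟨_, by rw [side_eq, ← cyl_pre]⟩

lemma od_mem {A : Set Om} {a : Om} (ha : a ∈ A) (m : ℕ) : ind (od a m) ∈ X A := by
  have h1 : ind (od a 0) ∈ X A :=
    Submodule.le_topologicalClosure _ (Submodule.subset_span (Or.inr ⟨a, ha, rfl⟩))
  have h2 : ind (od a 0) - ind (od a m) ∈ X A :=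
    Submodule.span_le.2 (range_subset_iff.2 (cyl_mem A)) (od_sub a m)
  simpa using sub_mem h1 h2

def Qs : Submodule ℝ Li where
  carrier := {x | ∀ t η, 0 < η → ∀ᶠ k in atTop, Even k → ∀ u ∈ side t k, |x u - x t| ≤ η}
  zero_mem' := fun t η h => Eventually.of_forall fun k _ u _ => by simpa using h.le
  add_mem' := fun {x y} hx hy t η h => by
    filter_upwards [hx t (η / 2) (by positivity), hy t (η / 2) (by positivity)] with k h1 h2 hk u hu
    rw [lp.coeFn_add, Pi.add_apply, Pi.add_apply, add_sub_add_comm]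
    linarith [abs_add_le (x u - x t) (y u - y t), h1 hk u hu, h2 hk u hu]
  smul_mem' := fun c x hx t η h => by
    filter_upwards [hx t (η / (|c| + 1)) (by positivity)] with k h1 hk u hu
    rw [lp.coeFn_smul, Pi.smul_apply, Pi.smul_apply, smul_eq_mul, smul_eq_mul, ← mul_sub, abs_mul]
    have h2 := h1 hk u hu
    rw [le_div_iff₀ (by positivity)] at h2
    nlinarith [abs_nonneg (x u - x t)]

lemma Q_of_mem {A : Set Om} : X A ≤ Qs := by
  have hloc : ∀ s : Set Om, (∀ t, ∀ᶠ k in atTop, Even k → ∀ u ∈ side t k, (u ∈ s ↔ t ∈ s)) →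
      ind s ∈ Qs := fun s hs t η h => by
    filter_upwards [hs t] with k h1 hk u hu
    simpa [ind_apply, h1 hk u hu] using h.le
  refine X_ind _ (isClosed_of_closure_subset fun x hx t η h => ?_) (fun l => hloc _ fun t => ?_)
    fun a _ => hloc _ fun t => ?_
  · obtain ⟨y, h1, h2⟩ := Metric.mem_closure_iff.1 hx (η / 3) (by positivity)
    filter_upwards [h1 t (η / 3) (by positivity)] with k h3 hk u hu
    have h4 := le_nrm (x - y) u
    have h5 := le_nrm (x - y) t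
    have h6 := h3 hk u hu
    rw [lp.coeFn_sub, Pi.sub_apply, ← dist_eq_norm] at h4 h5
    rw [abs_le] at h4 h5 h6 ⊢
    constructor <;> linarith [h4.1, h4.2, h5.1, h5.2, h6.1, h6.2]
  · filter_upwards [eventually_ge_atTop l.length] with k hk _ u hu
    have : pre u l.length = pre t l.length := pre_eq.2 fun i hi => hu.1 i (by omega)
    simp only [cyl, mem_ofPred_eq, this]
  · by_cases hta : t = a
    · subst hta
      refine Eventually.of_forall fun k hk u hu => iff_of_false ?_ ?_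
      · rintro ⟨l, -, h1, h2⟩
        exact Nat.not_odd_iff_even.2 hk (side_uniq hu h2 ▸ h1)
      · exact fun ⟨l, _, _, h2⟩ => h2.2 rfl
    · have h5 := Function.ne_iff.1 hta
      have h6 : t ∈ side a (Nat.find h5) :=
        ⟨fun i hi => not_not.1 (Nat.find_min h5 hi), Nat.find_spec h5⟩
      filter_upwards [eventually_gt_atTop (Nat.find h5)] with k hk _ u hu
      have h7 : u ∈ side a (Nat.find h5) :=
        ⟨fun i hi => (hu.1 i (by omega)).trans (h6.1 i hi), by rw [hu.1 _ hk]; exact h6.2⟩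
      exact ⟨fun ⟨l, h1, h2, h3⟩ => ⟨l, h1, h2, side_uniq h7 h3 ▸ h6⟩,
        fun ⟨l, h1, h2, h3⟩ => ⟨l, h1, h2, side_uniq h6 h3 ▸ h7⟩⟩

lemma bump {x x' : Li} (hx' : x' ∈ Qs) {b : Om} {m : ℕ} {r η : ℝ} (hr : 0 < r) (hη : 0 < η)
    (h1 : ∀ t ∈ C b m, ‖x‖ - r / 8 ≤ x t) (h2 : ‖x' - (x + (r / 2) • ind (C b m))‖ ≤ r / 8) :
    ∃ b' m', C b' m' ⊆ C b m ∧ ∀ t ∈ C b' m', ‖x'‖ - η ≤ x' t := by
  have h3 : ∀ t, |x' t - (x t + r / 2 * if t ∈ C b m then 1 else 0)| ≤ r / 8 := fun t => by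
    have := (le_nrm _ t).trans h2
    rwa [lp.coeFn_sub, lp.coeFn_add, lp.coeFn_smul] at this
  have h4 : ∀ t ∈ C b m, ‖x‖ + r / 4 ≤ x' t := fun t ht => by
    have := h3 t
    rw [if_pos ht, abs_le] at this
    linarith [h1 t ht, this.1]
  have h5 : ‖x‖ + r / 4 ≤ ‖x'‖ := (h4 b fun _ _ => rfl).trans ((le_abs_self _).trans (le_nrm _ _))
  obtain ⟨t, ht⟩ : ∃ t, ‖x'‖ - min (η / 2) (r / 8) < |x' t| := by
    by_contra hc
    push Not at hc
    have := nrm_le (by linarith [min_le_right (η / 2) (r / 8), norm_nonneg x]) hc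
    linarith [show 0 < min (η / 2) (r / 8) by positivity]
  have htb : t ∈ C b m := by
    by_contra hc
    have h6 := h3 t
    rw [if_neg hc, mul_zero, add_zero] at h6
    linarith [min_le_right (η / 2) (r / 8), le_nrm x t, abs_sub_abs_le_abs_sub (x' t) (x t)]
  rw [abs_of_nonneg (by linarith [h4 t htb, norm_nonneg x])] at ht
  obtain ⟨N, hN⟩ := eventually_atTop.1 (hx' t (η / 2) (by positivity))
  refine ⟨Function.update t (2 * (N + m)) (!t (2 * (N + m))), 2 * (N + m) + 1, ?_⟩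
  rw [← side_eq]
  refine ⟨fun u hu i hi => (hu.1 i (by omega)).trans (htb i hi), fun u hu => ?_⟩
  have := abs_le.1 (hN (2 * (N + m)) (by omega) (even_two_mul _) u hu)
  linarith [this.1, min_le_left (η / 2) (r / 8)]

lemma kink {y : Li} {a : Om} (h : ∀ η, 0 < η → ∃ m, ∀ t ∈ C a m, ‖y‖ - η ≤ y t) {δ : ℝ} :
    ‖y‖ + δ ≤ ‖y + δ • ind (od a 0)‖ ∧ ‖y‖ ≤ ‖y + δ • ind (od a 0)‖ := by
  have key : ∀ η, 0 < η → ∀ᶠ k in atTop,
      ‖y‖ + δ * (if Odd k then 1 else 0) ≤ ‖y + δ • ind (od a 0)‖ + η := fun η hη => by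
    obtain ⟨m, hm⟩ := h η hη
    filter_upwards [eventually_ge_atTop m] with k hk
    have h1 : Function.update a k (!a k) ∈ side a k := by rw [side_eq]; exact fun _ _ => rfl
    have h2 := (le_abs_self _).trans (le_nrm (y + δ • ind (od a 0)) (Function.update a k (!a k)))
    have h3 : Function.update a k (!a k) ∈ od a 0 ↔ Odd k :=
      ⟨fun ⟨l, _, h2, h3⟩ => side_uniq h1 h3 ▸ h2, fun h2 => ⟨k, Nat.zero_le _, h2, h1⟩⟩
    rw [lp.coeFn_add, lp.coeFn_smul, Pi.add_apply, Pi.smul_apply, ind_apply, smul_eq_mul] at h2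
    simp only [h3] at h2
    have h4 := hm _ fun i hi => h1.1 i (by omega)
    convert (show ‖y‖ + δ * (if Odd k then 1 else 0) ≤ ‖y + δ • ind (od a 0)‖ + η by linarith)
  constructor <;> refine le_of_forall_pos_le_add fun η hη => ?_ <;>
    obtain ⟨N, hN⟩ := eventually_atTop.1 (key η hη)
  · simpa using hN (2 * N + 1) (by omega)
  · simpa [Nat.not_odd_iff_even.2 (even_two_mul N)] using hN (2 * N) (by omega)

noncomputable def sup (A : Set Om) (ι : Type) [Fintype ι] : Sup (X A × (ι → ℝ)) where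
  S s := {y | y.2 = 0 ∧ ‖(y.1 : Li)‖ ≤ 1 ∧ ∀ t ∉ s, (y.1 : Li) t = 0}
  s0 s := by simp
  s1 s h hh := by rw [Prod.norm_def, hh.1]; simpa using hh.2.1
  s2 s t hd h hh h' hh' := by
    refine ⟨by simp [hh.1, hh'.1], nrm_le zero_le_one fun u => ?_, fun u hu => ?_⟩
    · rw [Prod.fst_add, Submodule.coe_add, lp.coeFn_add, Pi.add_apply]
      by_cases hu : u ∈ s
      · rw [hh'.2.2 u (disjoint_left.1 hd hu), add_zero]; exact (le_nrm _ _).trans hh.2.1
      · rw [hh.2.2 u hu, zero_add]; exact (le_nrm _ _).trans hh'.2.1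
    · rw [Prod.fst_add, Submodule.coe_add, lp.coeFn_add, Pi.add_apply,
        hh.2.2 u fun h => hu (Or.inl h), hh'.2.2 u fun h => hu (Or.inr h), add_zero]
  s3 s t hst h hh := ⟨hh.1, hh.2.1, fun u hu => hh.2.2 u fun h => hu (hst h)⟩
  s4 s h hh := ⟨by simp [hh.1], by simpa using hh.2.1, fun u hu => by simp [hh.2.2 u hu]⟩

theorem gdsX {A : Set Om}
    (hA : ∀ S : List Bool → ℕ → Set (List Bool), (∀ t j, (G S t j).Countable) →
      ∃ t, ∀ j, ∀ b ∈ G S t j, b ∈ A → ∃ t' ≠ t, pre t' j = pre t j ∧ b ∈ G S t' j)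
    (ι : Type) [Fintype ι] {g : X A × (ι → ℝ) → ℝ} {L : ℝ≥0} (hc : ConvexOn ℝ univ g)
    (hL : LipschitzWith L g) (V : O (X A × (ι → ℝ))) : ∃ y ∈ V.1, M hc y = ⊤ := by
  obtain ⟨q, hq⟩ := exists_surjective_nat (List Bool ⊕ ι)
  set d : ℕ → X A × (ι → ℝ) := fun n =>
    Sum.elim (fun l => (⟨_, cyl_mem A l⟩, 0)) (fun i => (0, Pi.single i 1)) (q n) with hd
  have d1 : ∀ l, ((⟨_, cyl_mem A l⟩, 0) : X A × (ι → ℝ)) ∈ range d := fun l => by
    obtain ⟨n, hn⟩ := hq (.inl l); exact ⟨n, by simp [hd, hn]⟩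
  have d2 : ∀ i, ((0, Pi.single i 1) : X A × (ι → ℝ)) ∈ range d := fun i => by
    obtain ⟨n, hn⟩ := hq (.inr i); exact ⟨n, by simp [hd, hn]⟩
  have tr : ∀ (N : Submodule ℝ (X A × (ι → ℝ))) (x : X A),
      x.1 ∈ (N.comap (LinearMap.inl ℝ _ _)).map (X A).subtype → (x, 0) ∈ N := by
    rintro N x ⟨x', h1, h2⟩
    rwa [← show x' = x from Subtype.ext h2]
  refine gds (sup A ι) hc hL hA d (fun a m => if h : a ∈ A then (⟨_, od_mem h m⟩, 0) else 0)
    (fun a m => ?_) (fun a m => ?_) ?_ V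
  · split_ifs with h
    · refine ⟨rfl, ind_norm _, fun t ht => if_neg fun ⟨k, h1, _, h2⟩ => ht fun i hi => ?_⟩
      exact h2.1 i (by omega)
    · exact (sup A ι).s0 _
  · split_ifs with h
    · rw [Prod.mk_sub_mk, sub_zero]
      refine tr _ _ (Submodule.span_le.2 (range_subset_iff.2 fun l => ?_) (od_sub a m))
      exact ⟨⟨_, cyl_mem A l⟩, Submodule.subset_span (d1 l), rfl⟩
    · simp
  · set N := (Submodule.span ℝ (range d ∪ (fun a => if h : a ∈ A then
      ((⟨_, od_mem h 0⟩, 0) : X A × (ι → ℝ)) else 0) '' A)).topologicalClosure with hN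
    have hs : ∀ y ∈ range d ∪ (fun a => if h : a ∈ A then
      ((⟨_, od_mem h 0⟩, 0) : X A × (ι → ℝ)) else 0) '' A, y ∈ N := fun y hy =>
      Submodule.le_topologicalClosure _ (Submodule.subset_span hy)
    rw [eq_top_iff]
    rintro ⟨x, r⟩ -
    have h1 : (x, 0) ∈ N := by
      refine tr _ _ (X_ind ((N.comap (LinearMap.inl ℝ _ _)).map (X A).subtype) ?_ (fun l => ⟨⟨_, cyl_mem A l⟩, hs _ (Or.inl (d1 l)), rfl⟩)
        (fun a ha => ⟨⟨_, od_mem ha 0⟩, hs _ (Or.inr ⟨a, ha, by simp [ha]⟩), rfl⟩) x.2)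
      exact (Submodule.isClosed_topologicalClosure _).isClosedMap_subtype_val _
        ((Submodule.isClosed_topologicalClosure _).preimage (f := fun x : X A => (x, (0 : ι → ℝ)))
          (by fun_prop))
    have h2 : ((0, r) : X A × (ι → ℝ)) ∈ N := by
      have e : ((0, r) : X A × (ι → ℝ)) = ∑ i, r i • ((0, Pi.single i 1) : X A × (ι → ℝ)) := by
        ext1
        · simp [Prod.fst_sum]
        · simp [Prod.snd_sum, ← Pi.single_smul, Finset.univ_sum_single]
      rw [e]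
      exact Submodule.sum_mem _ fun i _ => Submodule.smul_mem _ _ (hs _ (Or.inl (d2 i)))
    simpa using add_mem h1 h2

end Pool.Agent.H94.AS
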