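import Mathlib

set_option autoImplicit false

namespace Pool.Agent.H94.AS

open Set Filter Topology

variable {E : Type} [AddCommGroup E] [Module ℝ E] [TopologicalSpace E]

/-- Gateaux differentiability at `x₀` with a continuous linear derivative. -/
def GDiffAt (f : E → ℝ) (x₀ : E) : Prop :=
  ∃ φ : E →L[ℝ] ℝ, ∀ x : E,
    Tendsto (fun t : ℝ => (f (x₀ + t • x) - f x₀) / t) (𝓝[≠] 0) (𝓝 (φ x))

/-- Frechet differentiability at `x₀`: the limit is uniform on every bounded set. -/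
def FDiffAt (f : E → ℝ) (x₀ : E) : Prop :=
  ∃ φ : E →L[ℝ] ℝ, ∀ B : Set E, Bornology.IsVonNBounded ℝ B →
    TendstoUniformlyOn (fun (t : ℝ) (x : E) => (f (x₀ + t • x) - f x₀) / t) φ (𝓝[≠] 0) B

variable (E)

/-- Every continuous convex function on a nonempty open convex set `D` is Frechet differentiable
at each point of some dense G-delta subset of `D`. -/
def IsAsplund : Prop :=
  ∀ D : Set E, IsOpen D → D.Nonempty → Convex ℝ D → ∀ f : E → ℝ, ConvexOn ℝ D f →
    ContinuousOn f D → ∃ H ⊆ D, IsGδ H ∧ D ⊆ closure H ∧ ∀ x ∈ H, FDiffAt f x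

/-- The same with Gateaux differentiability. -/
def IsWeakAsplund : Prop :=
  ∀ D : Set E, IsOpen D → D.Nonempty → Convex ℝ D → ∀ f : E → ℝ, ConvexOn ℝ D f →
    ContinuousOn f D → ∃ H ⊆ D, IsGδ H ∧ D ⊆ closure H ∧ ∀ x ∈ H, GDiffAt f x

end Pool.Agent.H94.AS
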