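import Pool.Agent.H94.AS4
import Pool.Agent.H94.ASDefs

set_option autoImplicit false

namespace Pool.Agent.H94.AS

open Set Filter Topology
open scoped NNReal Classical

lemma maxpw {α : Type} (R : α → α → Prop) (hR : ∀ a b, R a b → R b a) (A : Set α) :
    ∃ N ⊆ A, N.Pairwise R ∧ ∀ a ∈ A, a ∈ N ∨ ∃ b ∈ N, ¬ R a b := by
  obtain ⟨N, hN⟩ := zorn_subset {N : Set α | N ⊆ A ∧ N.Pairwise R} fun c hc hch =>
    ⟨⋃₀ c, ⟨sUnion_subset fun s hs => (hc hs).1, fun a ⟨s, hs, ha⟩ b ⟨t, ht, hb⟩ hab =>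
      (hch.total hs ht).elim (fun h => (hc ht).2 (h ha) hb hab) fun h => (hc hs).2 ha (h hb) hab⟩,
      fun s hs => subset_sUnion_of_mem hs⟩
  refine ⟨N, hN.prop.1, hN.prop.2, fun a ha => ?_⟩
  by_contra hc
  push Not at hc
  refine hc.1 (hN.le_of_ge (y := insert a N) ⟨insert_subset ha hN.prop.1, ?_⟩ (subset_insert _ _)
    (mem_insert _ _))
  exact hN.prop.2.insert fun b hb _ => ⟨hc.2 b hb, hR _ _ (hc.2 b hb)⟩

lemma patch {G : Type} [TopologicalSpace G] {D : Set G} (hD : IsOpen D) (P : G → Prop)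
    (h : ∀ W, IsOpen W → W.Nonempty → W ⊆ D → ∃ W', IsOpen W' ∧ W'.Nonempty ∧ W' ⊆ W ∧
      ∃ H ⊆ W', IsGδ H ∧ W' ⊆ closure H ∧ ∀ x ∈ H, P x) :
    ∃ H ⊆ D, IsGδ H ∧ D ⊆ closure H ∧ ∀ x ∈ H, P x := by
  obtain ⟨N, h1, h2, h3⟩ := maxpw (α := Set G) Disjoint (fun _ _ h => h.symm)
    {W | IsOpen W ∧ W.Nonempty ∧ W ⊆ D ∧ ∃ H ⊆ W, IsGδ H ∧ W ⊆ closure H ∧ ∀ x ∈ H, P x}
  choose H a1 a2 a3 a4 using fun W : N => (h1 W.2).2.2.2
  choose U b1 b2 using fun W : N => (a2 W).eq_iInter_nat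
  refine ⟨⋃ W, H W, iUnion_subset fun W => (a1 W).trans (h1 W.2).2.2.1, ?_, fun x hx => ?_,
    fun x hx => let ⟨W, hW⟩ := mem_iUnion.1 hx; a4 W x hW⟩
  · refine isGδ_iff_eq_iInter_nat.2 ⟨fun n => ⋃ W : N, W.1 ∩ U W n,
      fun n => isOpen_iUnion fun W => (h1 W.2).1.inter (b1 W n), Subset.antisymm ?_ fun x hx => ?_⟩
    · exact iUnion_subset fun W => subset_iInter fun n x hx => mem_iUnion.2
        ⟨W, a1 W hx, mem_iInter.1 ((b2 W).le hx) n⟩
    · obtain ⟨W, hW, -⟩ := mem_iUnion.1 (mem_iInter.1 hx 0)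
      refine mem_iUnion.2 ⟨W, (b2 W).ge (mem_iInter.2 fun n => ?_)⟩
      obtain ⟨W', h4, h5⟩ := mem_iUnion.1 (mem_iInter.1 hx n)
      have : W = W' := Subtype.ext (by
        by_contra hne
        exact disjoint_left.1 (h2 W.2 W'.2 hne) hW h4)
      rwa [this]
  · refine mem_closure_iff.2 fun O hO hxO => ?_
    obtain ⟨W', c1, c2, c3, c4⟩ := h (O ∩ D) (hO.inter hD) ⟨x, hxO, hx⟩ inter_subset_right
    obtain ⟨W, hW, y, h4, h5⟩ : ∃ W ∈ N, (W' ∩ W).Nonempty := by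
      rcases h3 W' ⟨c1, c2, c3.trans inter_subset_right, c4⟩ with h4 | ⟨W, h4, h5⟩
      exacts [⟨W', h4, by simpa using c2⟩, ⟨W, h4, not_disjoint_iff_nonempty_inter.1 h5⟩]
    obtain ⟨z, h6, h7⟩ := mem_closure_iff.1 (a3 ⟨W, hW⟩ h5) W' c1 h4
    exact ⟨z, (c3 h6).1, mem_iUnion.2 ⟨_, h7⟩⟩

lemma line_le {G : Type} [AddCommGroup G] [Module ℝ G] {D : Set G} {f : G → ℝ}
    (hf : ConvexOn ℝ D f) {p n : G} {c : ℝ} (h : ∀ t : ℝ, p + t • n ∈ D ∧ f (p + t • n) ≤ c) :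
    f (p + n) ≤ f p := by
  have h0 := h 0
  rw [zero_smul, add_zero] at h0
  refine le_of_forall_pos_le_add fun η hη => ?_
  set t := 1 + (c - f p) / η with ht
  have h1 : 0 ≤ (c - f p) / η := div_nonneg (by linarith [h0.2]) hη.le
  have ht0 : 0 < t := by linarith
  have h2 := hf.2 h0.1 (h t).1 (show 0 ≤ 1 - 1 / t by rw [sub_nonneg, div_le_one ht0]; linarith)
    (show 0 ≤ 1 / t by positivity) (by ring)
  rw [show (1 - 1 / t) • p + (1 / t) • (p + t • n) = p + n by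
    rw [smul_add, smul_smul, one_div_mul_cancel ht0.ne', ← add_assoc, ← add_smul]; simp,
    smul_eq_mul, smul_eq_mul] at h2
  have h3 : 1 / t * (c - f p) ≤ η := by
    rw [one_div_mul_eq_div, div_le_iff₀ ht0, ht, mul_add, mul_div_cancel₀ _ hη.ne']; linarith
  have h4 := mul_le_mul_of_nonneg_left (h t).2 (show 0 ≤ 1 / t by positivity)
  nlinarith

variable {G J : Type} [AddCommGroup G] [Module ℝ G] [TopologicalSpace G]

lemma nbhd {Z : Type} [NormedAddCommGroup Z] {p : G → Z} {ψ : J → G → ℝ}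
    (h : IsInducing fun w => (p w, fun j => ψ j w)) {v : G} {U : Set G} (hU : U ∈ 𝓝 v) :
    ∃ r, 0 < r ∧ ∃ S : Finset J, ∀ w, ‖p w - p v‖ ≤ r → (∀ j ∈ S, |ψ j w - ψ j v| ≤ r) → w ∈ U := by
  rw [h.nhds_eq_comap] at hU
  obtain ⟨U', h1, h2⟩ := hU
  obtain ⟨s, hs, t, ht, h3⟩ := mem_nhds_prod_iff.1 h1
  rw [nhds_pi] at ht
  obtain ⟨I, hI, u, hu, h4⟩ := mem_pi.1 ht
  have h5 : ∀ᶠ r in 𝓝[>] (0 : ℝ), Metric.closedBall (p v) r ⊆ s :=
    (eventually_closedBall_subset hs).filter_mono nhdsWithin_le_nhds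
  have h6 : ∀ᶠ r in 𝓝[>] (0 : ℝ), ∀ j ∈ I, Metric.closedBall (ψ j v) r ⊆ u j :=
    (eventually_all_finite hI).2 fun j _ =>
      (eventually_closedBall_subset (hu j)).filter_mono nhdsWithin_le_nhds
  obtain ⟨r, ⟨h7, h8⟩, h9⟩ := ((h5.and h6).and self_mem_nhdsWithin).exists
  exact ⟨r, h9, hI.toFinset, fun w a b => h2 (h3 ⟨h7 (mem_closedBall_iff_norm.2 a),
    h4 fun j hj => h8 j hj (mem_closedBall_iff_norm.2 (b j (hI.mem_toFinset.2 hj)))⟩)⟩

theorem asp {A : Set Om}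
    (hA : ∀ S : List Bool → ℕ → Set (List Bool), (∀ t j, (AS.G S t j).Countable) →
      ∃ t, ∀ j, ∀ b ∈ AS.G S t j, b ∈ A → ∃ t' ≠ t, pre t' j = pre t j ∧ b ∈ AS.G S t' j)
    (p : G →L[ℝ] X A) (ψ : J → G →L[ℝ] ℝ) (h : IsInducing fun w => (p w, fun j => ψ j w))
    (l : G → ℕ) (hl : ∀ k, IsGδ {w | l w ≠ k})
    (hs : ∀ S : Finset J, ∃ N, ∀ k ≥ N, ∀ (x : X A) (ρ : J → ℝ),
      ∃ w, p w = x ∧ (∀ j ∈ S, ψ j w = ρ j) ∧ l w = k)
    (hb : ∀ B, Bornology.IsVonNBounded ℝ B → ∃ K, IsCompact K ∧ p '' B ⊆ K) : IsAsplund G := by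
  intro D hD _ _ f hf hfc
  refine patch hD _ fun W hW ⟨v, hv⟩ hWD => ?_
  have hU : W ∩ {w | |f w - f v| < 1} ∈ 𝓝 v := inter_mem (hW.mem_nhds hv)
    ((hfc.continuousAt (hD.mem_nhds (hWD hv))).eventually (Metric.ball_mem_nhds _ one_pos))
  obtain ⟨r, hr, S, hS⟩ := nbhd h hU
  let T : G →L[ℝ] X A × (S → ℝ) := p.prod (ContinuousLinearMap.pi fun j : S => ψ j)
  have hT : ∀ S' : Finset J, ∃ N, ∀ k ≥ N, ∀ (z : X A × (S → ℝ)) (ρ : J → ℝ),
      ∃ w, T w = z ∧ (∀ j ∈ S', j ∉ S → ψ j w = ρ j) ∧ l w = k := fun S' => by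
    obtain ⟨N, hN⟩ := hs (S ∪ S')
    refine ⟨N, fun k hk z ρ => ?_⟩
    obtain ⟨w, h1, h2, h3⟩ := hN k hk z.1 fun j => if hj : j ∈ S then z.2 ⟨j, hj⟩ else ρ j
    refine ⟨w, Prod.ext h1 (funext fun j => ?_), fun j hj hj' => ?_, h3⟩
    · simpa [T] using h2 j (Finset.mem_union_left _ j.2)
    · simpa [hj'] using h2 j (Finset.mem_union_right _ hj)
  have hTU : ∀ w, T w ∈ Metric.ball (T v) r → w ∈ W ∧ |f w - f v| < 1 := fun w hw => by
    rw [mem_ball_iff_norm] at hw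
    exact hS w ((norm_fst_le (T w - T v)).trans hw.le) fun j hj =>
      ((norm_le_pi_norm (T w - T v).2 ⟨j, hj⟩).trans (norm_snd_le _)).trans hw.le
  obtain ⟨s, hsT⟩ := (T : G →ₗ[ℝ] X A × (S → ℝ)).exists_rightInverse_of_surjective
    (LinearMap.range_eq_top.2 fun z => by
      obtain ⟨N, hN⟩ := hT ∅
      obtain ⟨w, h1, -⟩ := hN N le_rfl z 0
      exact ⟨w, h1⟩)
  have hsT' : ∀ z, T (s z) = z := fun z => LinearMap.congr_fun hsT z
  have hg : ConvexOn ℝ (Metric.ball (T v) r) (f ∘ s) := (hf.comp_linearMap s).subset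
    (fun z hz => hWD (hTU (s z) (by rwa [hsT'])).1) (convex_ball _ _)
  have hgL := hg.lipschitzOnWith_of_abs_le (M := |f v| + 1) (half_pos hr) fun z hz => by
    have := (hTU (s z) (by rwa [hsT'])).2
    show |f (s z)| ≤ _
    linarith [abs_sub_abs_le_abs_sub (f (s z)) (f v)]
  rw [sub_half] at hgL
  have hsub : Metric.ball (T v) (r / 2) ⊆ Metric.ball (T v) r := Metric.ball_subset_ball (by linarith)
  obtain ⟨g, hc, hL, hgf⟩ := extend (half_pos hr) (hg.subset hsub (convex_ball _ _)) hgL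
  have hfg : ∀ w, T w ∈ Metric.ball (T v) (r / 2) → f w = g (T w) := fun w hw => by
    have key : ∀ a b, T a = T w → T b = T w → f a ≤ f b := fun a b ha hb' => by
      have := line_le hf (p := b) (n := a - b) (c := f v + 1) fun t => by
        have h1 := hTU (b + t • (a - b)) (by
          rw [map_add, map_smul, map_sub, ha, hb', sub_self, smul_zero, add_zero]; exact hsub hw)
        exact ⟨hWD h1.1, by linarith [(abs_lt.1 h1.2).2]⟩
      rwa [add_sub_cancel] at this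
    rw [hgf _ hw]
    exact le_antisymm (key _ _ rfl (hsT' _)) (key _ _ (hsT' _) rfl)
  choose N n1 n2 n3 using fun k : ℕ => maxpw (fun a b : X A × (S → ℝ) => 1 / (k + 1 : ℝ) ≤ dist a b)
    (fun a b h => by rwa [dist_comm]) {y | M hc y = ⊤}
  have hW' : IsOpen (T ⁻¹' Metric.ball (T v) (r / 2)) := Metric.isOpen_ball.preimage T.continuous
  refine ⟨_, hW', ⟨v, Metric.mem_ball_self (half_pos hr)⟩, fun w hw => (hTU w (hsub hw)).1,
    T ⁻¹' Metric.ball (T v) (r / 2) ∩ ⋂ k, ({w | l w ≠ k} ∪ T ⁻¹' N k), inter_subset_left,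
    hW'.isGδ.inter (IsGδ.iInter fun k => (hl k).union (IsGδ.preimage T.continuous
      (Metric.isClosed_of_pairwise_le_dist (by positivity) (n2 k)).isGδ)), fun w hw => ?_,
    fun w hw => ?_⟩
  · refine mem_closure_iff_nhds.2 fun U hU => ?_
    obtain ⟨r', hr', S', hS'⟩ := nbhd h (inter_mem hU (hW'.mem_nhds hw))
    obtain ⟨k0, hk0⟩ := hT S'
    obtain ⟨k, h1, h2⟩ := ((eventually_ge_atTop k0).and
      (tendsto_one_div_add_atTop_nhds_zero_nat.eventually (Iic_mem_nhds (half_pos hr')))).exists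
    obtain ⟨y, h3, h4⟩ := gdsX hA S hc hL ⟨Metric.ball (T w) (r' / 2), Metric.isOpen_ball,
      T w, Metric.mem_ball_self (half_pos hr')⟩
    obtain ⟨z, h5, h6⟩ : ∃ z ∈ N k, ‖z - T w‖ ≤ r' := by
      have h7 : dist y (T w) < r' / 2 := h3
      rcases n3 k y h4 with h5 | ⟨z, h5, h6⟩
      · exact ⟨y, h5, by rw [← dist_eq_norm]; linarith⟩
      · refine ⟨z, h5, ?_⟩
        rw [← dist_eq_norm]
        linarith [dist_triangle_left z (T w) y, not_le.1 h6, show 1 / (k + 1 : ℝ) ≤ r' / 2 from h2]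
    obtain ⟨u, h7, h8, h9⟩ := hk0 k h1 z fun j => ψ j w
    rw [← h7] at h6
    have h10 := hS' u ((norm_fst_le (T u - T w)).trans h6) fun j hj => by
      by_cases hj' : j ∈ S
      · exact ((norm_le_pi_norm (T u - T w).2 ⟨j, hj'⟩).trans (norm_snd_le _)).trans h6
      · simpa [h8 j hj hj'] using hr'.le
    refine ⟨u, h10.1, h10.2, mem_iInter.2 fun k' => ?_⟩
    by_cases e : l u = k'
    · exact Or.inr (by rw [mem_preimage, h7, ← e, h9]; exact h5)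
    · exact Or.inl e
  · have h1 : T w ∈ N (l w) := (mem_iInter.1 hw.2 (l w)).resolve_left fun e => e rfl
    obtain ⟨φ, hφ⟩ := unif hc hL (n1 _ h1)
    refine ⟨φ.comp T, fun B hB => Metric.tendstoUniformlyOn_iff.2 fun ε hε => ?_⟩
    obtain ⟨K, hK, hBK⟩ := hb B hB
    obtain ⟨R, hR0, hR⟩ := ((NormedSpace.isVonNBounded_iff ℝ).1 (hB.image T)).exists_pos_norm_le
    have htb : TotallyBounded (T '' B) :=
      (hK.prod (isCompact_closedBall (0 : S → ℝ) R)).totallyBounded.subset (by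
        rintro _ ⟨b, hb', rfl⟩
        exact ⟨hBK ⟨b, hb', rfl⟩, mem_closedBall_zero_iff.2
          ((norm_snd_le _).trans (hR _ ⟨b, hb', rfl⟩))⟩)
    obtain ⟨δ, hδ, h2⟩ := hφ _ htb (ε / 2) (half_pos hε)
    obtain ⟨η, hη, h3⟩ := Metric.isOpen_iff.1 Metric.isOpen_ball _ (show T w ∈ _ from hw.1)
    have h4 : ∀ᶠ t : ℝ in 𝓝 0, |t| < min δ (η / R) := by
      filter_upwards [Metric.ball_mem_nhds (0 : ℝ) (show 0 < min δ (η / R) by positivity)] with t ht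
      simpa using ht
    filter_upwards [h4.filter_mono nhdsWithin_le_nhds, self_mem_nhdsWithin] with t ht ht0 b hb'
    have h5 := h2 t ht0 (ht.le.trans (min_le_left _ _)) _ ⟨b, hb', rfl⟩
    have h6 : T (w + t • b) ∈ Metric.ball (T v) (r / 2) := h3 (by
      rw [map_add, map_smul, mem_ball_iff_norm, add_sub_cancel_left, norm_smul, Real.norm_eq_abs]
      have h7 := (lt_div_iff₀ hR0).1 (ht.trans_le (min_le_right _ _))
      nlinarith [hR _ ⟨b, hb', rfl⟩, abs_nonneg t])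
    rw [hfg _ h6, hfg _ hw.1, map_add, map_smul, dist_comm, Real.dist_eq]
    exact h5.trans_lt (half_lt_self hε)

end Pool.Agent.H94.AS
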