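import Pool.Agent.H94.AS5

set_option autoImplicit false

namespace Pool.Agent.H94.AS

open Set Filter Topology
open scoped NNReal Classical

lemma lim {Z : Type} [MetricSpace Z] [CompleteSpace Z] (u : ℕ → Z) {r : ℕ → ℝ}
    (hr : Tendsto r atTop (𝓝 0)) (P : ℕ → Prop) (hP : ∀ n k, P n → n ≤ k → P k)
    (h : ∀ n k, P n → n ≤ k → dist (u k) (u n) ≤ r n) : ∃ z, ∀ n, P n → dist z (u n) ≤ r n := by
  by_cases h0 : ∃ n, P n
  · obtain ⟨n0, h0⟩ := h0
    obtain ⟨z, hz⟩ := cauchySeq_tendsto_of_complete (u := u) (Metric.cauchySeq_iff'.2 fun ε hε => by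
      obtain ⟨N, h1, h2⟩ := ((eventually_ge_atTop n0).and (hr.eventually (Iio_mem_nhds hε))).exists
      exact ⟨N, fun n hn => (h N n (hP _ _ h0 h1) hn).trans_lt h2⟩)
    refine ⟨z, fun n hn => le_of_tendsto (hz.dist tendsto_const_nhds) ?_⟩
    filter_upwards [eventually_ge_atTop n] with k hk using h n k hn hk
  · exact ⟨u 0, fun n hn => absurd ⟨n, hn⟩ h0⟩

variable {G J : Type} [AddCommGroup G] [Module ℝ G] [TopologicalSpace G]

structure St {A : Set Om} (p : G →L[ℝ] X A) (J : Type) where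
  v : G
  r : ℝ
  S : Finset J
  b : Om
  m : ℕ
  h0 : 0 < r
  h1 : ∀ t ∈ C b m, ‖(p v : Li)‖ - r / 8 ≤ (p v : Li) t

def St.W {A : Set Om} {p : G →L[ℝ] X A} (s : St p J) (ψ : J → G →L[ℝ] ℝ) : Set G :=
  {w | ‖p w - p s.v‖ ≤ s.r ∧ ∀ j ∈ s.S, |ψ j w - ψ j s.v| ≤ s.r}

lemma stp {A : Set Om} {p : G →L[ℝ] X A} {ψ : J → G →L[ℝ] ℝ}
    (h : IsInducing fun w => (p w, fun j => ψ j w))
    (hs : ∀ S : Set J, S.Countable → ∀ (x : X A) (ρ : J → ℝ), ∃ w, p w = x ∧ ∀ j ∈ S, ψ j w = ρ j)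
    {U : Set G} (hU : IsOpen U) (hd : Dense U) (s : St p J) (x : Bool) :
    ∃ s' : St p J, s'.W ψ ⊆ s.W ψ ∩ U ∧ s.S ⊆ s'.S ∧ s'.r ≤ s.r / 8 ∧
      C s'.b s'.m ⊆ C (Function.update s.b s.m x) (s.m + 1) := by
  have hr := s.h0
  set b := Function.update s.b s.m x
  have hm : ind (C b (s.m + 1)) ∈ X A := cyl_pre b (s.m + 1) ▸ cyl_mem A _
  obtain ⟨v1, h1, h2⟩ := hs s.S s.S.countable_toSet (p s.v + (s.r / 2) • ⟨_, hm⟩) fun j => ψ j s.v
  have ho : IsOpen {w | ‖p w - p v1‖ < s.r / 8 ∧ ∀ j ∈ s.S, |ψ j w - ψ j v1| < s.r / 8} := by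
    simp only [ofPred_and, ofPred_forall]
    exact (isOpen_lt (by fun_prop) continuous_const).inter
      (isOpen_biInter_finset fun j _ => isOpen_lt (by fun_prop) continuous_const)
  obtain ⟨v', ⟨h3, h4⟩, h5⟩ := hd.inter_open_nonempty _ ho ⟨v1, by simpa using hr, by simp [hr]⟩
  obtain ⟨r', hr', S', h6⟩ := nbhd h (hU.mem_nhds h5)
  have hr'' : 0 < min r' (s.r / 8) := by positivity
  obtain ⟨b', m', h7, h8⟩ := bump (x := p s.v) (x' := p v') (Q_of_mem (p v').2) (b := b)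
    (m := s.m + 1) hr (show 0 < min r' (s.r / 8) / 8 by positivity)
    (fun t ht => s.h1 t fun i hi => (ht i (by omega)).trans (Function.update_of_ne hi.ne _ _))
    (by rw [h1] at h3; exact h3.le)
  have h9 : ‖p v1 - p s.v‖ ≤ s.r / 2 := by
    rw [h1, add_sub_cancel_left, norm_smul, Real.norm_of_nonneg (by positivity)]
    exact mul_le_of_le_one_right (by positivity) (ind_norm _)
  refine ⟨⟨v', _, s.S ∪ S', b', m', hr'', h8⟩, fun w ⟨a1, a2⟩ => ⟨⟨?_, fun j hj => ?_⟩,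
    h6 w (a1.trans (min_le_left _ _)) fun j hj =>
      (a2 j (Finset.mem_union_right _ hj)).trans (min_le_left _ _)⟩,
    Finset.subset_union_left, min_le_right _ _, h7⟩
  · linarith [a1.trans (min_le_right _ _), norm_sub_le_norm_sub_add_norm_sub (p w) (p v') (p v1),
      norm_sub_le_norm_sub_add_norm_sub (p w) (p v1) (p s.v)]
  · have a3 := (a2 j (Finset.mem_union_left _ hj)).trans (min_le_right _ _)
    have a4 := h4 j hj
    rw [h2 j hj] at a4
    linarith [abs_sub_le (ψ j w) (ψ j v') (ψ j s.v)]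

theorem notWA {A : Set Om}
    (hA : ∀ i : List Bool → List Bool,
      (∃ a : Om → Om, Function.Injective a ∧ ∀ t n, a t ∈ cyl (i (pre t n))) →
      ∃ b ∈ A, ∃ t, ∀ n, b ∈ cyl (i (pre t n)))
    (p : G →L[ℝ] X A) (ψ : J → G →L[ℝ] ℝ) (h : IsInducing fun w => (p w, fun j => ψ j w))
    (hs : ∀ S : Set J, S.Countable → ∀ (x : X A) (ρ : J → ℝ),
      ∃ w, p w = x ∧ ∀ j ∈ S, ψ j w = ρ j) : ¬ IsWeakAsplund G := by
  intro hW
  obtain ⟨H, -, h1, h2, h3⟩ := hW univ isOpen_univ univ_nonempty convex_univ (fun w => ‖p w‖)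
    ((convexOn_univ_norm (E := X A)).comp_linearMap (p : G →ₗ[ℝ] X A))
    (by fun_prop)
  obtain ⟨U, hU, rfl⟩ := h1.eq_iInter_nat
  have hd : ∀ n, Dense (U n) := fun n => Dense.mono (iInter_subset U n) fun x => h2 (mem_univ x)
  choose F f1 f2 f3 f4 using fun n => stp h hs (hU n) (hd n)
  let st : List Bool → St p J := fun l =>
    l.rec ⟨0, 1, ∅, fun _ => true, 0, one_pos, fun t _ => by simp⟩ fun x l s => F l.length s x
  have hst : ∀ t n, st (pre t (n + 1)) = F n (st (pre t n)) (t n) := fun t n => by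
    show F (pre t n).length _ _ = _
    rw [len_pre]
  have hC : ∀ t n, C (st (pre t (n + 1))).b (st (pre t (n + 1))).m ⊆
      C (st (pre t n)).b (st (pre t n)).m := fun t n u hu i hi => by
    rw [hst] at hu
    exact (f4 n _ _ hu i (by omega)).trans (Function.update_of_ne hi.ne _ _)
  have hcl : ∀ b m, IsClosed (C b m) := fun b m => by
    simp only [C, setOf_forall]
    exact isClosed_iInter fun i => isClosed_iInter fun _ =>
      isClosed_eq (continuous_apply i) continuous_const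
  choose a ha using fun t => IsCompact.nonempty_iInter_of_sequence_nonempty_isCompact_isClosed
    (fun n => C (st (pre t n)).b (st (pre t n)).m) (hC t) (fun n => ⟨_, fun _ _ => rfl⟩)
    (hcl _ _).isCompact fun n => hcl _ _
  obtain ⟨b, hb, t, ht⟩ := hA (fun l => pre (st l).b (st l).m) ⟨a, fun t t' e => by
    by_contra h4
    have h5 := Function.ne_iff.1 h4
    have h7 : pre t (Nat.find h5) = pre t' (Nat.find h5) :=
      pre_eq.2 fun i hi => not_not.1 (Nat.find_min h5 hi)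
    have h8 := mem_iInter.1 (ha t) (Nat.find h5 + 1)
    have h9 := mem_iInter.1 (ha t') (Nat.find h5 + 1)
    rw [hst] at h8 h9
    rw [← h7, ← e] at h9
    have h10 := (f4 _ _ _ h8 _ (Nat.lt_succ_self _)).symm.trans (f4 _ _ _ h9 _ (Nat.lt_succ_self _))
    rw [Function.update_self, Function.update_self] at h10
    exact Nat.find_spec h5 h10, fun t n => by rw [cyl_pre]; exact mem_iInter.1 (ha t) n⟩
  simp only [cyl_pre] at ht
  set s : ℕ → St p J := fun n => st (pre t n) with hsdef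
  have hs' : ∀ n, s (n + 1) = F n (s n) (t n) := hst t
  have hW : Antitone fun n => (s n).W ψ := antitone_nat_of_succ_le fun n => by
    rw [hs']; exact (f1 n _ _).trans inter_subset_left
  have hS : Monotone fun n => (s n).S := monotone_nat_of_le_succ fun n => by
    rw [hs']; exact f2 n _ _
  have hr : Tendsto (fun n => (s n).r) atTop (𝓝 0) := by
    refine squeeze_zero (fun n => (s n).h0.le) (g := fun n => (1 / 8 : ℝ) ^ n) (fun n => ?_)
      (tendsto_pow_atTop_nhds_zero_of_lt_one (by norm_num) (by norm_num))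
    induction n with
    | zero => exact le_of_eq (pow_zero _).symm
    | succ n ih => rw [hs', pow_succ]; linarith [f3 n (s n) (t n)]
  have hv : ∀ n k, n ≤ k → (s k).v ∈ (s n).W ψ := fun n k hk =>
    hW hk ⟨by simpa using (s k).h0.le, fun j _ => by simpa using (s k).h0.le⟩
  obtain ⟨x, hx⟩ := lim (fun n => p (s n).v) hr (fun _ => True) (fun _ _ _ _ => trivial)
    fun n k _ hk => by rw [dist_eq_norm]; exact (hv n k hk).1
  choose ρ hρ using fun j => lim (fun n => ψ j (s n).v) hr (fun n => j ∈ (s n).S)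
    (fun n k hn hk => hS hk hn) fun n k hn hk => (hv n k hk).2 j hn
  obtain ⟨w, h4, h5⟩ := hs (⋃ n, (s n).S) (countable_iUnion fun n => (s n).S.countable_toSet) x ρ
  have hw : ∀ n, w ∈ (s n).W ψ := fun n => ⟨by rw [h4, ← dist_eq_norm]; exact hx n trivial,
    fun j hj => by rw [h5 j (mem_iUnion.2 ⟨n, hj⟩)]; exact hρ j n hj⟩
  obtain ⟨φ, hφ⟩ := h3 w (mem_iInter.2 fun n => (f1 n _ _ (hs' n ▸ hw (n + 1))).2)
  obtain ⟨e, he, -⟩ := hs ∅ countable_empty ⟨_, od_mem hb 0⟩ 0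
  have hk : ∀ δ : ℝ, ‖p w‖ + δ ≤ ‖p (w + δ • e)‖ ∧ ‖p w‖ ≤ ‖p (w + δ • e)‖ := fun δ => by
    rw [map_add, map_smul, he]
    refine kink (y := p w) (a := b) fun η hη => ?_
    obtain ⟨n, hn⟩ := (hr.eventually (Iio_mem_nhds (show 0 < η / 3 by positivity))).exists
    refine ⟨(s n).m, fun u hu => ?_⟩
    have h6 := (s n).h1 u fun i hi => (hu i hi).trans (ht n i hi)
    have h7 : ‖(p w : Li) - p (s n).v‖ ≤ (s n).r := (hw n).1
    have h8 := (le_nrm _ u).trans h7
    rw [lp.coeFn_sub, Pi.sub_apply, abs_le] at h8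
    linarith [norm_sub_norm_le (p w : Li) (p (s n).v), h8.1, show (s n).r < η / 3 from hn]
  have a1 : 1 ≤ φ e := ge_of_tendsto ((hφ e).mono_left (nhdsGT_le_nhdsNE 0)) (by
    filter_upwards [self_mem_nhdsWithin] with δ hδ
    rw [le_div_iff₀ hδ]; linarith [(hk δ).1])
  have a2 : φ e ≤ 0 := le_of_tendsto ((hφ e).mono_left (nhdsLT_le_nhdsNE 0)) (by
    filter_upwards [self_mem_nhdsWithin] with δ hδ
    exact div_nonpos_of_nonneg_of_nonpos (by linarith [(hk δ).2]) (le_of_lt hδ))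
  linarith

end Pool.Agent.H94.AS
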