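import Pool.Agent.H94.AS6

set_option autoImplicit false

namespace Pool.Agent.H94.AS

open Set Filter Topology
open scoped NNReal Classical

inductive Ix (Z : Type) : Type
  | leaf : Ix Z
  | mk (c : ℕ → Ix Z) (x : Z) (r : ℕ → ℝ) : Ix Z

variable {Z : Type}

def ch : Ix Z → Set (Ix Z)
  | .leaf => ∅
  | .mk c _ _ => range c

noncomputable def val : Ix Z → Ix Z → ℝ
  | .leaf, _ => 0
  | .mk c _ r, b => if h : ∃ n, c n = b then r h.choose else 0

lemma no2 : ∀ b a : Ix Z, a ∈ ch b → b ∉ ch a := by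
  intro b
  induction b with
  | leaf => exact fun a h => h.elim
  | mk c x r ih =>
    rintro _ ⟨n, rfl⟩ h
    exact ih n _ h ⟨n, rfl⟩

lemma val_mk {c : ℕ → Ix Z} (x : Z) (ρ : Ix Z → ℝ) {b : Ix Z} (hb : b ∈ range c) :
    val (.mk c x fun n => ρ (c n)) b = ρ b := by
  have h : ∃ n, c n = b := hb
  simp only [val, dif_pos h, h.choose_spec]

lemma enum {S : Set (Ix Z)} (hS : S.Countable) : ∃ c : ℕ → Ix Z, S ⊆ range c := by
  obtain ⟨c, hc⟩ := (hS.insert .leaf).exists_eq_range (insert_nonempty _ _)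
  exact ⟨c, hc ▸ subset_insert _ _⟩

variable [NormedAddCommGroup Z] [NormedSpace ℝ Z]

def xo : Ix Z → Z
  | .leaf => 0
  | .mk _ x _ => x

noncomputable def io (Z : Type) [NormedAddCommGroup Z] [NormedSpace ℝ Z] :
    (Ix Z →₀ ℝ) →ₗ[ℝ] Z × (Ix Z → ℝ) :=
  Finsupp.linearCombination ℝ fun a => (xo a, fun b => if b ∈ ch a then val a b else val b a)

noncomputable abbrev EE (Z : Type) [NormedAddCommGroup Z] [NormedSpace ℝ Z] :
    Submodule ℝ (Z × (Ix Z → ℝ)) := LinearMap.range (io Z)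

lemma sur {S : Set (Ix Z)} (hS : S.Countable) (x : Z) (ρ : Ix Z → ℝ) :
    ∃ w : EE Z, w.1.1 = x ∧ ∀ j ∈ S, w.1.2 j = ρ j := by
  obtain ⟨c, hc⟩ := enum hS
  refine ⟨⟨_, Finsupp.single (.mk c x fun n => ρ (c n)) 1, rfl⟩, by simp [io, xo], fun j hj => ?_⟩
  have h : j ∈ ch (.mk c x fun n => ρ (c n)) := hc hj
  simp [io, h, val_mk x ρ (hc hj)]

lemma rep (Ψ : (Ix Z →₀ ℝ) →ₗ[ℝ] ℝ) (v : ℕ → (Ix Z →₀ ℝ)) :
    ∃ b, ∀ k, (io Z (v k)).2 b = Ψ (v k) := by
  obtain ⟨c, hc⟩ := enum (countable_iUnion fun k => (v k).support.countable_toSet)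
  refine ⟨.mk c 0 fun n => Ψ (Finsupp.single (c n) 1), fun k => ?_⟩
  conv_rhs => rw [← Finsupp.sum_single (v k), Finsupp.sum, map_sum]
  rw [io, Finsupp.linearCombination_apply, Finsupp.sum, Prod.snd_sum, Finset.sum_apply]
  refine Finset.sum_congr rfl fun a ha => ?_
  have h1 : a ∈ range c := hc (mem_iUnion.2 ⟨k, ha⟩)
  have h2 := no2 (.mk c 0 fun n => Ψ (Finsupp.single (c n) 1)) a h1
  rw [Prod.smul_snd, Pi.smul_apply]
  simp only []
  rw [if_neg h2,
    val_mk 0 (fun a => Ψ (Finsupp.single a 1)) h1, ← map_smul, Finsupp.smul_single_one]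

lemma findim {K : Set Z} (h : ∀ χ : Z →ₗ[ℝ] ℝ, BddAbove (χ '' K)) :
    FiniteDimensional ℝ (Submodule.span ℝ K) := by
  obtain ⟨b, h1, h2, h3⟩ := exists_linearIndependent ℝ K
  rw [← h2]
  refine FiniteDimensional.span_of_finite ℝ ?_
  by_contra hb
  let e := Set.Infinite.natEmbedding b hb
  have h4 : LinearIndepOn ℝ id b := h3
  obtain ⟨c, hc⟩ := h ((Module.Basis.extend h4).constr ℝ
    fun x => ((Function.invFun (fun n : ℕ => (e n : Z)) x : ℕ) : ℝ))
  obtain ⟨n, hn⟩ := exists_nat_gt c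
  refine absurd (hc ⟨e n, h1 (e n).2, ?_⟩) (not_le.2 hn)
  have h5 := (Module.Basis.extend h4).constr_basis ℝ
    (fun x => ((Function.invFun (fun n : ℕ => (e n : Z)) x : ℕ) : ℝ)) ⟨e n, h4.subset_extend _ (e n).2⟩
  rw [Module.Basis.extend_apply_self] at h5
  exact h5.trans (congrArg Nat.cast
    (Function.leftInverse_invFun (Subtype.val_injective.comp e.injective) n))

def FF : Submodule ℝ (ℕ → ℝ) where
  carrier := {y | ∃ N, ∀ i ≥ N, y i = 0}
  zero_mem' := ⟨0, fun _ _ => rfl⟩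
  add_mem' := fun ⟨N, h⟩ ⟨N', h'⟩ => ⟨N + N', fun i hi => by
    rw [Pi.add_apply, h i (by omega), h' i (by omega), add_zero]⟩
  smul_mem' := fun c y ⟨N, h⟩ => ⟨N, fun i hi => by rw [Pi.smul_apply, h i hi, smul_zero]⟩

noncomputable def ell (y : FF) : ℕ := Nat.find (show ∃ N, ∀ i ≥ N, y.1 i = 0 from y.2)

lemma ell_gd (k : ℕ) : IsGδ {y : FF | ell y ≠ k} := by
  have h : ∀ j, IsClosed {y : FF | ell y ≤ j} := fun j => by
    have e : {y : FF | ell y ≤ j} = ⋂ i ≥ j, {y : FF | y.1 i = 0} := by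
      ext y
      simp only [ell, Nat.find_le_iff, mem_ofPred_eq, mem_iInter]
      exact ⟨fun ⟨m, h1, h2⟩ i hi => h2 i (h1.trans hi), fun h1 => ⟨j, le_rfl, h1⟩⟩
    rw [e]
    exact isClosed_iInter fun i => isClosed_iInter fun _ =>
      isClosed_eq ((continuous_apply i).comp continuous_subtype_val) continuous_const
  have e : {y : FF | ell y ≠ k} = (⋃ j ∈ Iio k, {y | ell y ≤ j}) ∪ {y | ell y ≤ k}ᶜ := by
    ext y
    simp only [mem_union, mem_iUnion, mem_compl_iff, mem_ofPred_eq, mem_Iio, exists_prop]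
    exact ⟨fun h1 => (lt_or_gt_of_ne h1).imp (fun h2 => ⟨_, h2, le_rfl⟩) not_le.2,
      fun h1 => h1.elim (fun ⟨j, h2, h3⟩ => by omega) fun h2 => by omega⟩
  rw [e]
  haveI : PerfectlyNormalSpace FF :=
    inferInstanceAs (PerfectlyNormalSpace (FF : Set (ℕ → ℝ)))
  exact ((finite_Iio k).isClosed_biUnion fun j _ => h j).isGδ.union (h k).isOpen_compl.isGδ

theorem core : ∃ A : Set Om, IsAsplund (EE (X A) × FF) ∧ ¬ IsWeakAsplund (EE (X A)) := by
  obtain ⟨A, h1, h2⟩ := exists_A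
  let p : EE (X A) →L[ℝ] X A := (ContinuousLinearMap.fst ℝ _ _).comp (EE (X A)).subtypeL
  let ψ : Ix (X A) → EE (X A) →L[ℝ] ℝ := fun j => (ContinuousLinearMap.proj j).comp
    ((ContinuousLinearMap.snd ℝ _ _).comp (EE (X A)).subtypeL)
  refine ⟨A, ?_, notWA h1 p ψ IsInducing.subtypeVal fun S hS => sur hS⟩
  refine asp h2 (p.comp (ContinuousLinearMap.fst ℝ _ _))
    (Sum.elim (fun j => (ψ j).comp (ContinuousLinearMap.fst ℝ _ _)) fun i =>
      (ContinuousLinearMap.proj i).comp (FF.subtypeL.comp (ContinuousLinearMap.snd ℝ _ _)))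
    ?_ (fun w => ell w.2) (fun k => (ell_gd k).preimage continuous_snd) (fun S => ?_) fun B hB => ?_
  · exact IsInducing.of_comp (g := fun q : X A × (Ix (X A) ⊕ ℕ → ℝ) =>
      ((q.1, fun j => q.2 (.inl j)), fun i => q.2 (.inr i))) (by fun_prop) (by fun_prop)
      (IsInducing.subtypeVal.prodMap IsInducing.subtypeVal)
  · refine ⟨S.sup (Sum.elim 0 id) + 2, fun k hk x ρ => ?_⟩
    have hS : ∀ i, Sum.inr i ∈ S → i + 2 ≤ k := fun i hi => by
      have : i ≤ S.sup (Sum.elim 0 id) := Finset.le_sup (f := Sum.elim 0 id) hi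
      omega
    obtain ⟨w, h3, h4⟩ := sur (S := Sum.inl ⁻¹' (S : Set (Ix (X A) ⊕ ℕ)))
      (S.countable_toSet.preimage Sum.inl_injective) x fun j => ρ (.inl j)
    have h5 : ∀ i ≥ k, (if Sum.inr i ∈ S then ρ (.inr i) else if i + 1 = k then 1 else 0) = 0 :=
      fun i hi => by rw [if_neg fun h => by have := hS i h; omega, if_neg (by omega)]
    refine ⟨(w, ⟨fun i => if Sum.inr i ∈ S then ρ (.inr i) else if i + 1 = k then 1 else 0,
      k, h5⟩), h3, ?_, (Nat.find_eq_iff _).2 ⟨h5, fun n hn h => ?_⟩⟩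
    · rintro (j | i) hj
      · exact h4 j hj
      · exact if_pos hj
    · have h6 := h (k - 1) (by omega)
      simp only at h6
      rw [if_neg fun h => by have := hS _ h; omega, if_pos (by omega)] at h6
      exact one_ne_zero h6
  · set K := (p.comp (ContinuousLinearMap.fst ℝ _ FF)) '' B
    haveI : FiniteDimensional ℝ (Submodule.span ℝ K) := findim fun χ => by
      by_contra hn
      choose y hy hy' using fun k : ℕ => not_bddAbove_iff.1 hn (k : ℝ)
      choose z hz hz' using hy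
      choose u hu hu' using hz
      choose v hv using fun k => (u k).1.2
      obtain ⟨b, hb⟩ := rep (χ ∘ₗ LinearMap.fst ℝ _ _ ∘ₗ io (X A)) v
      obtain ⟨R, hR⟩ := ((NormedSpace.isVonNBounded_iff ℝ).1
        (hB.image ((ψ b).comp (ContinuousLinearMap.fst ℝ _ FF)))).exists_norm_le
      obtain ⟨k, hk⟩ := exists_nat_gt R
      have h3 := (le_abs_self _).trans (hR _ ⟨u k, hu k, rfl⟩)
      have h4 : (u k).1.1.2 b = y k := by
        rw [← hv, hb, ← hz', ← hu']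
        exact congrArg (fun q => χ q.1) (hv k)
      exact absurd (h4 ▸ h3 : y k ≤ R) (not_le.2 (hk.trans (hy' k)))
    obtain ⟨R, hR⟩ := ((NormedSpace.isVonNBounded_iff ℝ).1
      (hB.image (p.comp (ContinuousLinearMap.fst ℝ _ FF)))).exists_norm_le
    exact ⟨_, (isCompact_closedBall (0 : Submodule.span ℝ K) R).image continuous_subtype_val,
      fun x hx => ⟨⟨x, Submodule.subset_span hx⟩, mem_closedBall_zero_iff.2 (hR x hx), rfl⟩⟩

theorem weak_of {E : Type} [AddCommGroup E] [Module ℝ E] [TopologicalSpace E] [ContinuousSMul ℝ E]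
    (h : IsAsplund E) : IsWeakAsplund E := fun D h1 h2 h3 f h4 h5 => by
  obtain ⟨H, a1, a2, a3, a4⟩ := h D h1 h2 h3 f h4 h5
  refine ⟨H, a1, a2, a3, fun x hx => ?_⟩
  obtain ⟨φ, hφ⟩ := a4 x hx
  exact ⟨φ, fun y => (hφ {y} (Bornology.isVonNBounded_singleton y)).tendsto_at rfl⟩

end Pool.Agent.H94.AS
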