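import Mathlib

set_option autoImplicit false

namespace Pool.Agent.H94.AWDefs

variable {A B : Type} [CStarAlgebra A] [CStarAlgebra B]

/-- `e` is the annihilating projection of `S` inside the multiplicative set `M`: `e` is a
projection in `M` and the right annihilator of `S` in `M` equals `e M`. -/
def IsRann (M S : Set A) (e : A) : Prop :=
  e ∈ M ∧ IsStarProjection e ∧ {y | y ∈ M ∧ ∀ x ∈ S, x * y = 0} = (fun m => e * m) '' M

/-- An AW*-algebra: a unital C*-algebra in which every right annihilator is `e A` for a
projection `e`. -/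
def IsAW (A : Type) [CStarAlgebra A] : Prop := ∀ S : Set A, ∃ e, IsRann Set.univ S e

/-- The multiplicative monoid generated by the projections of `A`. -/
def P (A : Type) [CStarAlgebra A] : Set A := Submonoid.closure {p : A | IsStarProjection p}

/-- `φ` restricts to a morphism of Baer *-semigroups `P A → P B`. -/
def IsBaerMorphism (φ : A → B) : Prop :=
  Set.MapsTo φ (P A) (P B) ∧ (∀ x ∈ P A, ∀ y ∈ P A, φ (x * y) = φ x * φ y) ∧
    (∀ x ∈ P A, φ (star x) = star (φ x)) ∧
    ∀ S ⊆ P A, ∀ e, IsRann (P A) S e → IsRann (P B) (φ '' S) (φ e)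

end Pool.Agent.H94.AWDefs
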