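import Pool.Agent.H94.AWDefs

set_option autoImplicit false

namespace Pool.Agent.H94.AWProof

open Pool.Agent.H94.AWDefs Complex
open scoped Matrix.Norms.L2Operator

abbrev M : Type := Matrix (Fin 2) (Fin 2) ℂ

lemma isAW : IsAW M := by
  intro S
  let T := Matrix.toEuclideanCLM (n := Fin 2) (𝕜 := ℂ)
  let K : Submodule ℂ (EuclideanSpace ℂ (Fin 2)) := ⨅ x ∈ S, LinearMap.ker (T x).toLinearMap
  refine ⟨T.symm K.starProjection, Set.mem_univ _,
    (isStarProjection_starProjection (U := K)).map T.symm, ?_⟩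
  ext y
  simp only [Set.mem_univ, true_and, Set.mem_ofPred_eq, Set.image_univ, Set.mem_range]
  constructor
  · intro h
    refine ⟨y, EquivLike.injective T ?_⟩
    rw [map_mul, T.apply_symm_apply]
    ext1 v
    refine Submodule.starProjection_eq_self_iff.2 ?_
    simp only [K, Submodule.mem_iInf, LinearMap.mem_ker]
    intro x hx
    have := congrArg (fun z => T z v) (h x hx)
    simpa using this
  · rintro ⟨m, rfl⟩ x hx
    apply EquivLike.injective T
    rw [map_mul, map_mul, T.apply_symm_apply, map_zero]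
    ext1 v
    have h := K.starProjection_apply_mem (T m v)
    simp only [K, Submodule.mem_iInf, LinearMap.mem_ker] at h
    exact h x hx

def cj (x : M) : M := x.map (starRingEnd ℂ)

lemma cj_mul (x y : M) : cj (x * y) = cj x * cj y := Matrix.map_mul

lemma cj_cj (x : M) : cj (cj x) = x := by
  ext i j
  simp [cj]

lemma cj_star (x : M) : cj (star x) = star (cj x) := by
  ext i j
  simp [cj]

lemma cj_zero : cj 0 = 0 := by
  ext i j
  simp [cj]

lemma cj_one : cj 1 = 1 := Matrix.map_one _ (map_zero _) (map_one _)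

lemma cj_proj {p : M} (h : IsStarProjection p) : IsStarProjection (cj p) :=
  ⟨by rw [IsIdempotentElem, ← cj_mul, h.isIdempotentElem.eq],
    by rw [IsSelfAdjoint, ← cj_star, h.isSelfAdjoint.star_eq]⟩

lemma cj_P {x : M} (hx : x ∈ P M) : cj x ∈ P M := by
  induction hx using Submonoid.closure_induction with
  | mem x hx => exact Submonoid.subset_closure (cj_proj hx)
  | one =>
    rw [cj_one]
    exact one_mem (Submonoid.closure _)
  | mul x y _ _ hx hy =>
    rw [cj_mul]
    exact mul_mem (s := Submonoid.closure _) hx hy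

lemma cj_morphism : IsBaerMorphism cj := by
  refine ⟨fun x hx => cj_P hx, fun x _ y _ => cj_mul x y, fun x _ => cj_star x, ?_⟩
  rintro S _ e ⟨h1, h2, h3⟩
  refine ⟨cj_P h1, cj_proj h2, ?_⟩
  ext y
  constructor
  · rintro ⟨hy, h⟩
    have : cj y ∈ {y | y ∈ P M ∧ ∀ x ∈ S, x * y = 0} := by
      refine ⟨cj_P hy, fun x hx => ?_⟩
      have := congrArg cj (h _ ⟨x, hx, rfl⟩)
      rwa [cj_mul, cj_cj, cj_zero] at this
    rw [h3] at this
    obtain ⟨m, hm, hm2⟩ := this
    refine ⟨cj m, cj_P hm, ?_⟩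
    simp only at hm2 ⊢
    rw [← cj_mul, hm2, cj_cj]
  · rintro ⟨m, hm, rfl⟩
    have : e * cj m ∈ {y | y ∈ P M ∧ ∀ x ∈ S, x * y = 0} := by
      rw [h3]
      exact ⟨cj m, cj_P hm, rfl⟩
    have e1 : cj e * m = cj (e * cj m) := by rw [cj_mul, cj_cj]
    simp only [e1]
    refine ⟨cj_P this.1, ?_⟩
    rintro _ ⟨x, hx, rfl⟩
    rw [← cj_mul, this.2 x hx, cj_zero]

noncomputable def p : Fin 3 → M :=
  ![!![1, 0; 0, 0], !![1 / 2, 1 / 2; 1 / 2, 1 / 2], !![1 / 2, -I / 2; I / 2, 1 / 2]]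

lemma p_proj (i : Fin 3) : IsStarProjection (p i) := by
  constructor
  · fin_cases i <;> ext a b <;> fin_cases a <;> fin_cases b <;>
      simp [p, Matrix.mul_apply, Fin.sum_univ_two, Complex.ext_iff] <;> norm_num
  · fin_cases i <;> ext a b <;> fin_cases a <;> fin_cases b <;> simp [p]

lemma p_rel : p 0 * p 1 * p 2 * p 0 = ((1 + I) / 4) • p 0 := by
  ext a b
  fin_cases a <;> fin_cases b <;>
    simp [p, Matrix.mul_apply, Fin.sum_univ_two, Complex.ext_iff]
  norm_num

lemma not_ext : ¬ ∃ f : M →⋆ₙₐ[ℂ] M, ∀ x ∈ P M, f x = cj x := by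
  rintro ⟨f, hf⟩
  have h0 : ∀ i, p i ∈ Submonoid.closure {p : M | IsStarProjection p} :=
    fun i => Submonoid.subset_closure (p_proj i)
  have h1 := hf _ (mul_mem (mul_mem (mul_mem (h0 0) (h0 1)) (h0 2)) (h0 0))
  rw [p_rel, map_smul, hf _ (h0 0)] at h1
  have := congrArg Complex.im (congrFun (congrFun h1 0) 0)
  simp [cj, p, -map_div₀] at this
  norm_num at this

theorem main : ∃ (A : Type) (_ : CStarAlgebra A), IsAW A ∧
    ∃ φ : A → A, IsBaerMorphism φ ∧ ¬ ∃ f : A →⋆ₙₐ[ℂ] A, ∀ x ∈ P A, f x = φ x :=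
  ⟨M, inferInstance, isAW, cj, cj_morphism, not_ext⟩

end Pool.Agent.H94.AWProof
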