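import Pool.Agent.H88.H2

set_option autoImplicit false
open MeasureTheory Filter Topology Metric Set Complex

namespace Pool.Agent.H94.BC
open Pool.Agent.H88.H2 Pool.Agent.H88.PS Pool.Agent.H88.Rad

/-- linear growth -/
def Pol (A : ℕ → ℂ) : Prop := ∃ C : ℝ, ∀ n, ‖A n‖ ≤ C * (n + 1)

theorem lin_summ {r : ℝ} (h0 : 0 ≤ r) (h1 : r < 1) : Summable fun n : ℕ => ((n : ℝ) + 1) * r ^ n := by
  simpa using (hasSum_choose_mul_geometric_of_norm_lt_one 1 (r := r)
    (by rwa [Real.norm_of_nonneg h0])).summable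

theorem lin_le {u : ℕ → ℝ} {C r : ℝ} (h : ∀ n, u n ≤ C * (n + 1)) (h0 : 0 ≤ r) (n : ℕ) :
    u n * r ^ n ≤ C * (((n : ℝ) + 1) * r ^ n) := by
  rw [← mul_assoc]
  exact mul_le_mul_of_nonneg_right (h n) (by positivity)

theorem hs_congr {E : Type*} [AddCommMonoid E] [TopologicalSpace E] {u v : ℕ → E} {s : E}
    (h : HasSum u s) (e : ∀ n, v n = u n) : HasSum v s := (funext e : v = u) ▸ h

variable {A g x : ℕ → ℂ}

theorem Pol.rep (h : Pol A) : Rep A (ps A) := fun _ hz => by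
  obtain ⟨C, hC⟩ := h
  exact hasSum_ps (fun r h0 h1 => Summable.of_nonneg_of_le (fun k => by positivity)
    (lin_le hC h0) ((lin_summ h0 h1).mul_left C)) hz

theorem Pol.shift (h : Pol A) (l : ℕ) : Pol fun n => A (n + l) := by
  obtain ⟨C, hC⟩ := h
  have h0 : 0 ≤ C := by simpa using (norm_nonneg _).trans (hC 0)
  refine ⟨C * (l + 1), fun n => (hC _).trans ?_⟩
  rw [mul_assoc]
  refine mul_le_mul_of_nonneg_left ?_ h0
  push_cast
  nlinarith [mul_nonneg (Nat.cast_nonneg (α := ℝ) n) (Nat.cast_nonneg (α := ℝ) l)]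

theorem Pol.step (h : Pol A) (l : ℕ) {z : ℂ} (hz : ‖z‖ < 1) :
    ps (fun n => A (n + l)) z = A l + z * ps (fun n => A (n + (l + 1))) z := by
  have h1 := (hasSum_nat_add_iff' 1).2 ((h.shift l).rep z hz)
  have h2 := ((h.shift (l + 1)).rep z hz).mul_left z
  have h3 := h1.unique (hs_congr h2 fun n => by rw [show n + 1 + l = n + (l + 1) by ring]; ring)
  simp at h3
  linear_combination h3

theorem pol_of {B : ℝ} (hg : HasSum (fun n : ℕ => ‖g n‖ ^ 2 / ((n : ℝ) + 1)) B) : Pol g := by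
  refine ⟨B + 1, fun n => ?_⟩
  have h := le_hasSum hg n fun _ _ => by positivity
  rw [div_le_iff₀ (by positivity)] at h
  nlinarith [sq_nonneg (‖g n‖ - 1), Nat.cast_nonneg (α := ℝ) n, sq_nonneg ‖g n‖]

theorem pol_of' {B : ℝ} (hg : HasSum (fun n : ℕ => ((n : ℝ) + 1) * ‖g n‖ ^ 2) B) : Pol g := by
  refine ⟨B + 1, fun n => ?_⟩
  have h := le_hasSum hg n fun _ _ => by positivity
  have h0 := hg.nonneg fun _ => by positivity
  nlinarith [sq_nonneg (‖g n‖ - 1), Nat.cast_nonneg (α := ℝ) n, sq_nonneg ‖g n‖,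
    mul_nonneg (Nat.cast_nonneg (α := ℝ) n) (sq_nonneg ‖g n‖),
    mul_nonneg (Nat.cast_nonneg (α := ℝ) n) h0]

theorem amgm (a b : ℝ) {l : ℝ} (hl : 0 < l) (h : 0 ≤ a * b) : a * b ≤ a ^ 2 / l + l * b ^ 2 := by
  have : a ^ 2 / l + l * b ^ 2 - 2 * (a * b) = (a - l * b) ^ 2 / l := by field_simp; ring
  have : 0 ≤ (a - l * b) ^ 2 / l := by positivity
  linarith

theorem tail {u : ℕ → ℝ} {S : ℝ} (h : HasSum u S) (h0 : ∀ n, 0 ≤ u n) (p : ℕ) :
    ∃ T ≤ S, HasSum (fun n => u (n + p)) T :=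
  ⟨_, sub_le_self _ (Finset.sum_nonneg fun n _ => h0 n), (hasSum_nat_add_iff' p).2 h⟩

theorem cs {S B τ : ℝ} (hx : HasSum (fun n : ℕ => ((n : ℝ) + 1) * ‖x n‖ ^ 2) S)
    (hg : HasSum (fun n : ℕ => ‖g n‖ ^ 2 / ((n : ℝ) + 1)) B) (hτ : 0 < τ) (hS : S ≤ τ ^ 2)
    (p q : ℕ) : (Summable fun n => ‖x (n + p) * g (n + q)‖) ∧
      ∑' n, ‖x (n + p) * g (n + q)‖ ≤ τ * (1 + B) * (q + 1) := by
  obtain ⟨T, hT, h1⟩ := tail hx (fun _ => by positivity) p
  obtain ⟨U, hU, h2⟩ := tail hg (fun _ => by positivity) q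
  have h3 := (h2.mul_left τ).add (h1.mul_left ((q + 1) / τ))
  have h4 : ∀ n, ‖x (n + p) * g (n + q)‖ ≤ τ * (‖g (n + q)‖ ^ 2 / (((n + q : ℕ) : ℝ) + 1)) +
      (q + 1) / τ * ((((n + p : ℕ) : ℝ) + 1) * ‖x (n + p)‖ ^ 2) := fun n => by
    rw [norm_mul, mul_comm]
    refine (amgm _ _ (l := (((n + q : ℕ) : ℝ) + 1) / τ) (by positivity) (by positivity)).trans
      (add_le_add (le_of_eq (by field_simp)) ?_)
    rw [← mul_assoc, div_mul_eq_mul_div ((q : ℝ) + 1)]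
    gcongr
    push_cast
    nlinarith [mul_nonneg (Nat.cast_nonneg (α := ℝ) n) (Nat.cast_nonneg (α := ℝ) q),
      mul_nonneg (Nat.cast_nonneg (α := ℝ) p) (Nat.cast_nonneg (α := ℝ) q),
      Nat.cast_nonneg (α := ℝ) p]
  have h5 := Summable.of_nonneg_of_le (fun _ => norm_nonneg _) h4 h3.summable
  refine ⟨h5, (hasSum_le h4 h5.hasSum h3).trans ?_⟩
  have h6 : (q + 1) / τ * T ≤ (q + 1) / τ * τ ^ 2 := by gcongr; linarith
  have h7 : ((q : ℝ) + 1) / τ * τ ^ 2 = (q + 1) * τ := by field_simp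
  have h8 := hg.nonneg fun _ => by positivity
  nlinarith [mul_nonneg (mul_nonneg hτ.le h8) (Nat.cast_nonneg (α := ℝ) q),
    mul_le_mul_of_nonneg_left hU hτ.le]

/-- the error term -/
noncomputable def er (u : ℕ → ℕ → ℂ) (r : ℝ) (L : ℕ) : ℝ :=
  ∑' k, ‖∑ l ∈ Finset.range L, u l k‖ * r ^ k

theorem er_spec {u : ℕ → ℕ → ℂ} {C r : ℝ} (h0 : 0 ≤ r) (h1 : r < 1)
    (hb : ∀ k, (Summable fun l => ‖u l k‖) ∧ ∑' l, ‖u l k‖ ≤ C * (k + 1))
    (hz : ∀ k, ∑' l, u l k = 0) : Tendsto (er u r) atTop (𝓝 0) ∧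
      ∀ (z : ℂ) (s : ℕ → ℂ), ‖z‖ = r → (∀ l, HasSum (fun k => u l k * z ^ k) (s l)) →
        ∀ L, ‖∑ l ∈ Finset.range L, s l‖ ≤ er u r L := by
  have h2 : ∀ L k, ‖∑ l ∈ Finset.range L, u l k‖ ≤ C * (k + 1) := fun L k =>
    (norm_sum_le _ _).trans (((hb k).1.sum_le_tsum _ fun _ _ => norm_nonneg _).trans (hb k).2)
  have h3 := (lin_summ h0 h1).mul_left C
  constructor
  · have := tendsto_tsum_of_dominated_convergence (𝓕 := atTop) (g := fun _ => 0)
      (f := fun L k => ‖∑ l ∈ Finset.range L, u l k‖ * r ^ k) h3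
      (fun k => by
        simpa [hz k] using (hb k).1.of_norm.hasSum.tendsto_sum_nat.norm.mul_const (r ^ k))
      (Eventually.of_forall fun L k => by
        rw [Real.norm_of_nonneg (by positivity)]; exact lin_le (h2 L) h0 k)
    rw [tsum_zero] at this
    exact this
  · intro z s hr hs L
    refine (hasSum_sum fun l _ => hs l).norm_le_of_bounded
      (Summable.of_nonneg_of_le (fun k => by positivity) (lin_le (h2 L) h0) h3).hasSum fun k => ?_
    rw [← Finset.sum_mul, norm_mul, norm_pow, hr]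

theorem wts {y v γ P : ℕ → ℝ} {ρ : ℝ} (hP : ∀ l, HasSum (fun m => y (m + l) * ρ ^ m) (P l))
    (hy : ∀ n, 0 ≤ y n) (hρ : 0 ≤ ρ) (hv : ∀ l, 0 ≤ v l) (h0 : 0 ≤ γ 0)
    (hγ : ∀ l, v l + ρ * γ l ≤ γ (l + 1)) (hs : Summable fun n => y n * γ n) (L : ℕ) :
    ∑ l ∈ Finset.range L, v l * P (l + 1) ≤ ∑' n, y n * γ n := by
  have p0 : ∀ l, 0 ≤ P l := fun l => (hP l).nonneg fun m => mul_nonneg (hy _) (by positivity)
  have p1 : ∀ l, P l - y l = ρ * P (l + 1) := fun l => by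
    have := ((hasSum_nat_add_iff' 1).2 (hP l)).unique (hs_congr ((hP (l + 1)).mul_left ρ)
      fun n => by rw [show n + 1 + l = n + (l + 1) by ring]; ring)
    simpa using this
  have p2 : ∀ L, ∑ l ∈ Finset.range L, v l * P (l + 1) ≤
      ∑ l ∈ Finset.range L, y l * γ l + γ L * P L := fun L => by
    induction L with
    | zero => simpa using mul_nonneg h0 (p0 0)
    | succ L ih =>
      rw [Finset.sum_range_succ, Finset.sum_range_succ]
      have := mul_le_mul_of_nonneg_right (hγ L) (p0 (L + 1))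
      have e : γ L * (P L - y L) = γ L * (ρ * P (L + 1)) := by rw [p1]
      nlinarith
  have p3 : ∀ m, γ L * ρ ^ m ≤ γ (m + L) := fun m => by
    induction m with
    | zero => simp
    | succ m ih =>
      rw [show m + 1 + L = m + L + 1 by ring, pow_succ]
      nlinarith [hγ (m + L), hv (m + L), mul_le_mul_of_nonneg_left ih hρ]
  rw [← hs.sum_add_tsum_nat_add L]
  refine (p2 L).trans (add_le_add le_rfl (hasSum_le (fun m => ?_) ((hP L).mul_left (γ L))
    ((summable_nat_add_iff L).2 hs).hasSum))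
  nlinarith [mul_le_mul_of_nonneg_left (p3 m) (hy (m + L))]

theorem av_sum {u : ℕ → ℝ → ℝ} (hu : ∀ l, Continuous (u l)) (L : ℕ) :
    av (fun θ => ∑ l ∈ Finset.range L, u l θ) = ∑ l ∈ Finset.range L, av (u l) := by
  induction L with
  | zero => simpa using av_const 0
  | succ L ih =>
    simp only [Finset.sum_range_succ]
    rw [av_add (continuous_finset_sum _ fun l _ => hu l) (hu L), ih]

end Pool.Agent.H94.BC
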