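import Pool.Agent.H94.BC1

set_option autoImplicit false
open MeasureTheory Filter Topology Metric Set Complex ComplexConjugate

namespace Pool.Agent.H94.BC
open Pool.Agent.H88.H2 Pool.Agent.H88.PS Pool.Agent.H88.Rad

variable {g φ : ℕ → ℂ} {S B : ℝ}

theorem mean_le (hx : HasSum (fun n : ℕ => ((n : ℝ) + 1) * ‖φ n‖ ^ 2) S)
    (hg : HasSum (fun n : ℕ => ‖g n‖ ^ 2 / ((n : ℝ) + 1)) B)
    (o1 : ∀ k, ∑' n, φ n * g (n + k) = 0) (o2 : ∀ k, ∑' n, φ (n + k) * g n = 0)
    {r t : ℝ} (h0 : 0 ≤ r) (h1 : r < 1) (ht : 0 < t) :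
    av (fun θ => ‖ps g (r * exp (θ * I)) * ps (fun n => conj (φ n)) (r * exp (θ * I))‖) ≤
      t⁻¹ * (∑' n : ℕ, ‖g n‖ ^ 2 * (2 / (n + 2 / (1 - r ^ 2)))) + t * (3 * S) := by
  have S0 := hx.nonneg fun _ => by positivity
  have pg := pol_of hg
  have pf : Pol fun n => conj (φ n) := by simpa [Pol] using pol_of' hx
  let z : ℝ → ℂ := fun θ => r * exp (θ * I)
  have hz : ∀ θ, ‖z θ‖ = r := norm_re h0
  have hz1 : ∀ θ, ‖z θ‖ < 1 := fun θ => by rwa [hz]
  let G : ℕ → ℝ → ℂ := fun l θ => ps (fun n => g (n + l)) (z θ)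
  let F : ℕ → ℝ → ℂ := fun l θ => ps (fun n => conj (φ (n + l))) (z θ)
  have cG : ∀ l, Continuous (G l) := fun l => (pg.shift l).rep.cont h0 h1
  have cF : ∀ l, Continuous (F l) := fun l => (pf.shift l).rep.cont h0 h1
  let W : ℕ → ℝ → ℝ := fun l θ => ‖G l θ‖ * ‖F l θ‖
  have cW : ∀ l, Continuous (W l) := fun l => (cG l).norm.mul (cF l).norm
  obtain ⟨δ, hδ⟩ : ∃ δ, δ = 1 - r ^ 2 := ⟨_, rfl⟩
  have d0 : 0 < δ := by nlinarith
  have d1 : δ ≤ 1 := by nlinarith
  have hρ : r ^ 2 = 1 - δ := by linarith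
  rw [← hδ]
  have hτ : S ≤ (S + 1) ^ 2 := by nlinarith
  have e1 := er_spec (u := fun l k => φ (l + 0) * g (l + k)) h0 h1
    (fun k => cs hx hg (by linarith) hτ 0 k) o1
  have e2 := er_spec (u := fun l k => φ (l + k) * g (l + 0)) (C := (S + 1) * (1 + B)) h0 h1
    (fun k => ⟨(cs hx hg (by linarith) hτ k 0).1, (cs hx hg (by linarith) hτ k 0).2.trans (by
      have := hg.nonneg fun _ => by positivity
      gcongr; simp)⟩) o2
  have e3 : Tendsto (fun L => ‖∑ l ∈ Finset.range L, φ l * g l‖) atTop (𝓝 0) := by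
    have := (cs hx hg (by linarith) hτ 0 0).1.of_norm.hasSum.tendsto_sum_nat.norm
    have h := o1 0
    simp only [add_zero] at this h
    simpa [h] using this
  have id1 : ∀ θ L, G 0 θ * conj (F 0 θ) =
      -δ * ∑ l ∈ Finset.range L, G (l + 1) θ * conj (F (l + 1) θ) + G L θ * conj (F L θ) +
      (∑ l ∈ Finset.range L, φ l * G l θ + ∑ l ∈ Finset.range L, g l * conj (F l θ) -
        ∑ l ∈ Finset.range L, φ l * g l) := fun θ L => by
    induction L with
    | zero => simp
    | succ L ih =>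
      have a1 : G L θ = g L + z θ * G (L + 1) θ := pg.step L (hz1 θ)
      have a2 : conj (F L θ) = φ L + conj (z θ) * conj (F (L + 1) θ) := by
        have : F L θ = conj (φ L) + z θ * F (L + 1) θ := pf.step L (hz1 θ)
        rw [this]; simp
      have a3 : z θ * conj (z θ) = 1 - δ := by
        rw [mul_conj', hz]; exact_mod_cast hρ
      simp only [Finset.sum_range_succ]
      rw [ih, a1, a2]
      linear_combination (G (L + 1) θ * conj (F (L + 1) θ)) * a3
  have id2 : ∀ L, av (W 0) ≤ δ * ∑ l ∈ Finset.range L, av (W (l + 1)) + av (W L) +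
      (er (fun l k => φ (l + 0) * g (l + k)) r L + er (fun l k => φ (l + k) * g (l + 0)) r L +
        ‖∑ l ∈ Finset.range L, φ l * g l‖) := fun L => by
    have c1 : Continuous fun θ => ∑ l ∈ Finset.range L, W (l + 1) θ :=
      continuous_finset_sum _ fun l _ => cW _
    rw [← av_sum fun l => cW (l + 1), ← av_mul, ← av_add (by fun_prop) (cW L),
      ← av_const (_ + _ + ‖_‖), ← av_add (by fun_prop) continuous_const]
    refine av_mono (cW 0) (by fun_prop) fun θ => ?_
    have n1 : ∀ l, ‖G l θ * conj (F l θ)‖ = W l θ := fun l => by rw [norm_mul, norm_conj]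
    rw [← n1, id1 θ L]
    refine (norm_add_le _ _).trans (add_le_add ((norm_add_le _ _).trans (add_le_add ?_ (n1 L).le))
      ((norm_sub_le _ _).trans (add_le_add ((norm_add_le _ _).trans (add_le_add ?_ ?_)) le_rfl)))
    · rw [norm_mul, norm_neg, norm_real, Real.norm_of_nonneg d0.le]
      exact mul_le_mul_of_nonneg_left ((norm_sum_le _ _).trans (by simp only [n1, le_refl])) d0.le
    · exact e1.2 (z θ) _ (hz θ) (fun l => hs_congr (((pg.shift l).rep _ (hz1 θ)).mul_left (φ l))
        fun k => by rw [add_comm l k, add_zero, mul_assoc]) L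
    · refine e2.2 (conj (z θ)) _ (by rw [norm_conj, hz]) (fun l => hs_congr
        ((((pf.shift l).rep _ (hz1 θ)).star).mul_left (g l)) fun k => ?_) L
      simp [add_comm l k]
      ring
  have N2 : 2 ≤ 2 / δ := by rw [le_div_iff₀ d0]; linarith
  have s1 : Summable fun n : ℕ => ‖g n‖ ^ 2 * (2 / (n + 2 / δ)) :=
    Summable.of_nonneg_of_le (fun _ => by positivity) (fun n => by
      rw [mul_comm, div_mul_comm, mul_comm]; gcongr; linarith) (hg.summable.mul_left 2)
  have s2 : ∀ n : ℕ, ‖conj (φ n)‖ ^ 2 * (3 * n) ≤ 3 * ((n + 1) * ‖φ n‖ ^ 2) := fun n => by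
    rw [norm_conj]; nlinarith [sq_nonneg ‖φ n‖]
  have s3 := Summable.of_nonneg_of_le (fun _ => by positivity) s2 (hx.summable.mul_left 3)
  have w1 := wts (v := fun l => δ / (l + 1 + 2 / δ)) (γ := fun n => 2 / (n + 2 / δ))
    (fun l => (pg.shift l).rep.parseval h0 h1) (fun _ => by positivity) (sq_nonneg r)
    (fun _ => by positivity) (by positivity) (fun l => by
      rw [hρ, mul_div_assoc', div_add_div _ _ (by positivity) (by positivity),
        div_le_div_iff₀ (by positivity) (by positivity)]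
      have e : δ * (2 / δ) = 2 := by field_simp
      have : 0 ≤ δ * l * (l + 1 + 2 / δ) := by positivity
      push_cast
      generalize 2 / δ = N at *
      have e' : δ * N * (l + 1 + N) = 2 * (l + 1 + N) := by rw [e]
      nlinarith) s1
  have w2 := wts (v := fun l => δ * (l + 1 + 2 / δ)) (γ := fun n => 3 * n)
    (fun l => (pf.shift l).rep.parseval h0 h1) (fun _ => by positivity) (sq_nonneg r)
    (fun _ => by positivity) (by simp) (fun l => by
      have e : δ * (2 / δ) = 2 := by field_simp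
      have : 0 ≤ δ * l := by positivity
      push_cast
      rw [hρ]
      nlinarith) s3
  have w3 := hasSum_le s2 s3.hasSum (hx.mul_left 3)
  obtain ⟨K, hK⟩ : ∃ K, K = t⁻¹ * (∑' n : ℕ, ‖g n‖ ^ 2 * (2 / (n + 2 / δ))) + t * (3 * S) := ⟨_, rfl⟩
  have key : ∀ L, ∑ l ∈ Finset.range L, δ * av (W (l + 1)) ≤ K := fun L => by
    refine le_trans ?_ (hK ▸ add_le_add (mul_le_mul_of_nonneg_left (w1 L) (by positivity))
      (mul_le_mul_of_nonneg_left ((w2 L).trans w3) ht.le))
    rw [Finset.mul_sum, Finset.mul_sum, ← Finset.sum_add_distrib]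
    refine Finset.sum_le_sum fun l _ => ?_
    have c1 := cG (l + 1)
    have c2 := cF (l + 1)
    show _ ≤ _ * (_ * av fun θ => ‖G (l + 1) θ‖ ^ 2) + _ * (_ * av fun θ => ‖F (l + 1) θ‖ ^ 2)
    rw [← av_mul, ← av_mul, ← av_mul, ← av_mul, ← av_mul, ← av_add (by fun_prop) (by fun_prop)]
    refine av_mono (by fun_prop) (by fun_prop) fun θ => ?_
    have := mul_le_mul_of_nonneg_left (amgm ‖G (l + 1) θ‖ ‖F (l + 1) θ‖
      (l := t * (l + 1 + 2 / δ)) (by positivity) (by positivity)) d0.le
    refine this.trans (le_of_eq ?_)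
    field_simp
  have W0 : ∀ l, 0 ≤ av (W l) := fun l => by
    rw [← av_const 0]; exact av_mono continuous_const (cW l) fun θ => by positivity
  have lim : Tendsto (fun L => av (W L)) atTop (𝓝 0) := by
    have := (summable_of_sum_range_le (fun l => mul_nonneg d0.le (W0 _)) key).tendsto_atTop_zero
    rw [← tendsto_add_atTop_iff_nat 1]
    simpa [d0.ne'] using this.const_mul δ⁻¹
  have fin := ge_of_tendsto' ((tendsto_const_nhds (x := K).add lim).add ((e1.1.add e2.1).add e3))
    fun L => (id2 L).trans (by rw [Finset.mul_sum]; gcongr; exact key L)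
  rw [← hK]
  simpa [W, G, F, z] using fin

theorem core (hx : HasSum (fun n : ℕ => ((n : ℝ) + 1) * ‖φ n‖ ^ 2) S)
    (hg : HasSum (fun n : ℕ => ‖g n‖ ^ 2 / ((n : ℝ) + 1)) B)
    (o1 : ∀ k, ∑' n, φ n * g (n + k) = 0) (o2 : ∀ k, ∑' n, φ (n + k) * g n = 0) :
    g = 0 ∨ φ = 0 := by
  have pg := (pol_of hg).rep
  have pf : Rep _ (ps fun n => conj (φ n)) := Pol.rep (by simpa [Pol] using pol_of' hx)
  have lim : Tendsto (fun r : ℝ => ∑' n : ℕ, ‖g n‖ ^ 2 * (2 / (n + 2 / (1 - r ^ 2)))) (𝓝[<] 1)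
      (𝓝 (∑' _ : ℕ, 0)) := by
    have ev := Ioo_mem_nhdsLT (show (0 : ℝ) < 1 by norm_num)
    refine tendsto_tsum_of_dominated_convergence (hg.summable.mul_left 2) (fun n => ?_) ?_
    · have c : ContinuousAt (fun r : ℝ => ‖g n‖ ^ 2 * (1 - r ^ 2)) 1 := by fun_prop
      refine squeeze_zero' ?_ ?_ (by simpa using c.tendsto.mono_left nhdsWithin_le_nhds)
      · filter_upwards [ev] with r hr
        have : 0 < 1 - r ^ 2 := by nlinarith [hr.1, hr.2]
        positivity
      · filter_upwards [ev] with r hr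
        have : 0 < 1 - r ^ 2 := by nlinarith [hr.1, hr.2]
        gcongr
        rw [div_le_iff₀ (by positivity), mul_add, mul_div_cancel₀ _ this.ne']
        simp only [le_add_iff_nonneg_left]
        positivity
    · filter_upwards [ev] with r hr n
      have : 0 < 1 - r ^ 2 := by nlinarith [hr.1, hr.2]
      have N2 : 2 ≤ 2 / (1 - r ^ 2) := by rw [le_div_iff₀ this]; nlinarith
      rw [Real.norm_of_nonneg (by positivity), mul_comm, div_mul_comm, mul_comm]
      gcongr
      linarith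
  have cz : ∀ k, cv g (fun n => conj (φ n)) k = 0 := fun k => by
    have S0 := hx.nonneg fun _ => by positivity
    refine norm_le_zero_iff.1 (le_of_forall_pos_le_add fun ε hε => ?_)
    have c : ContinuousAt (fun r : ℝ => ‖cv g (fun n => conj (φ n)) k‖ * r ^ k) 1 := by fun_prop
    have := le_of_tendsto_of_tendsto (c.tendsto.mono_left nhdsWithin_le_nhds)
      ((lim.const_mul (ε / (3 * S + 1))⁻¹).add_const (ε / (3 * S + 1) * (3 * S))) (by
        filter_upwards [Ioo_mem_nhdsLT (show (0 : ℝ) < 1 by norm_num)] with r hr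
        refine le_trans ?_ (mean_le hx hg o1 o2 hr.1.le hr.2 (by positivity))
        have := cc_le (fun θ : ℝ => (fun z => ps g z * ps (fun n => conj (φ n)) z)
          (r * exp (θ * I))) k
        rw [(pg.mul pf).cc_eq hr.1.le hr.2, one_div] at this
        simpa [av, abs_of_pos hr.1] using this)
    simp only [one_pow, mul_one, tsum_zero, mul_zero, zero_add] at this ⊢
    refine this.trans ?_
    rw [div_mul_eq_mul_div, div_le_iff₀ (by positivity)]
    nlinarith
  have r0 : Rep 0 0 := fun z _ => by simp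
  rcases (pg.diff.analyticOnNhd isOpen_ball).eq_zero_or_eq_zero_of_mul_eq_zero
    (pf.diff.analyticOnNhd isOpen_ball) (fun z hz => by
      have := pg.mul pf z (mem_ball_zero_iff.1 hz)
      simp only [cz, zero_mul] at this
      exact this.unique hasSum_zero) (convex_ball _ _).isPreconnected with h | h
  · exact Or.inl (pg.unique r0 fun z hz => h z (mem_ball_zero_iff.2 hz))
  · refine Or.inr (funext fun n => ?_)
    simpa using congrFun (pf.unique r0 fun z hz => h z (mem_ball_zero_iff.2 hz)) n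

end Pool.Agent.H94.BC
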