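import Pool.Agent.H94.BC2
import Pool.Agent.H88.Berg1

set_option autoImplicit false
open MeasureTheory Filter Topology Metric Set Complex ComplexConjugate

namespace Pool.Agent.H94.BC
open Pool.Agent.H88.H2 Pool.Agent.H88.PS Pool.Agent.H88.Berg

variable {A : ℕ → ℂ} {F G : ℂ → ℂ}

theorem pars {s : ℝ} (hs : 0 < s) (A : ℕ → ℂ) (N : ℕ) :
    ∫ z in ball (0 : ℂ) s, ‖∑ n ∈ Finset.range N, A n * z ^ n‖ ^ 2 =
      Real.pi * ∑ n ∈ Finset.range N, ‖A n‖ ^ 2 / ((n : ℝ) + 1) * s ^ (2 * n + 2) := by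
  have := parseval (φ := fun _ => 1) (fun _ _ _ => rfl) (intg_one s) A N
  simp only [mul_one, mom hs] at this
  rw [this, Finset.mul_sum]
  exact Finset.sum_congr rfl fun n _ => by ring

theorem bess (h : Rep A F) (hi : IntegrableOn (fun w => ‖F w‖ ^ 2) (ball (0 : ℂ) 1)) :
    ∃ S, HasSum (fun n : ℕ => ‖A n‖ ^ 2 / ((n : ℝ) + 1)) S ∧
      S ≤ (∫ w in ball (0 : ℂ) 1, ‖F w‖ ^ 2) / Real.pi := by
  have h1 : ∀ N, ∑ n ∈ Finset.range N, ‖A n‖ ^ 2 / ((n : ℝ) + 1) ≤
      (∫ w in ball (0 : ℂ) 1, ‖F w‖ ^ 2) / Real.pi := fun N => by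
    have c : ContinuousAt (fun s : ℝ => Real.pi *
      ∑ n ∈ Finset.range N, ‖A n‖ ^ 2 / ((n : ℝ) + 1) * s ^ (2 * n + 2)) 1 := by fun_prop
    have h3 := c.tendsto.mono_left (nhdsWithin_le_nhds (s := Iio 1))
    simp only [one_pow, mul_one] at h3
    rw [le_div_iff₀' Real.pi_pos]
    refine le_of_tendsto h3 ?_
    filter_upwards [Ioo_mem_nhdsLT (show (0 : ℝ) < 1 by norm_num)] with s hs
    have h0 := hs.1
    refine le_trans ?_ (setIntegral_mono_set hi (Eventually.of_forall fun _ => by positivity)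
      (ball_subset_ball hs.2.le).eventuallyLE)
    refine ge_of_tendsto (tendsto_integral_of_dominated_convergence
      (F := fun M w => ‖∑ n ∈ Finset.range M, A n * w ^ n‖ ^ 2)
      (fun _ => (∑' n, ‖A n‖ * s ^ n) ^ 2) (fun M => Continuous.aestronglyMeasurable (by fun_prop))
      (integrableOn_const measure_ball_lt_top.ne) (fun M => ?_) ?_) ?_
    · filter_upwards [ae_restrict_mem measurableSet_ball] with w hw
      rw [norm_pow, norm_norm]
      refine pow_le_pow_left₀ (norm_nonneg _) ((norm_sum_le _ _).trans (le_trans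
        (Finset.sum_le_sum fun n _ => ?_)
        ((h.summ h0.le hs.2).sum_le_tsum _ fun _ _ => by positivity))) 2
      rw [norm_mul, norm_pow]
      gcongr
      exact (mem_ball_zero_iff.1 hw).le
    · filter_upwards [ae_restrict_mem measurableSet_ball] with w hw
      exact (h w ((mem_ball_zero_iff.1 hw).trans hs.2)).tendsto_sum_nat.norm.pow 2
    · filter_upwards [eventually_ge_atTop N] with M hM
      rw [pars h0]
      gcongr
  have h2 := summable_of_sum_range_le (fun _ => by positivity) h1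
  exact ⟨_, h2.hasSum, h2.tsum_le_of_sum_range_le h1⟩

theorem upp (h : Rep A F) (hi : IntegrableOn (fun w => ‖F w‖ ^ 2) (ball (0 : ℂ) 1)) {S : ℝ}
    (hS : HasSum (fun n : ℕ => ‖A n‖ ^ 2 / ((n : ℝ) + 1)) S) :
    ∫ w in ball (0 : ℂ) 1, ‖F w‖ ^ 2 ≤ Real.pi * S := by
  have S0 := hS.nonneg fun _ => by positivity
  rw [← ENNReal.ofReal_le_ofReal_iff (by positivity), ofReal_integral_eq_lintegral_ofReal hi
    (Eventually.of_forall fun _ => by positivity)]
  have h1 : ∫⁻ z in ball (0 : ℂ) 1, ENNReal.ofReal (‖F z‖ ^ 2) = ∫⁻ z in ball (0 : ℂ) 1,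
      liminf (fun N => ENNReal.ofReal (‖∑ n ∈ Finset.range N, A n * z ^ n‖ ^ 2)) atTop :=
    setLIntegral_congr_fun measurableSet_ball fun z hz => (Tendsto.liminf_eq
      (ENNReal.tendsto_ofReal ((h z (mem_ball_zero_iff.1 hz)).tendsto_sum_nat.norm.pow 2))).symm
  rw [h1]
  refine (lintegral_liminf_le fun N => ?_).trans ?_
  · exact ENNReal.measurable_ofReal.comp (Continuous.measurable (by fun_prop))
  · refine liminf_le_of_frequently_le' (Frequently.of_forall fun N => ?_)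
    rw [← ofReal_integral_eq_lintegral_ofReal (intg_cont 1 (by fun_prop))
      (Eventually.of_forall fun _ => by positivity), pars one_pos]
    simp only [one_pow, mul_one]
    gcongr
    exact sum_le_hasSum _ (fun _ _ => by positivity) hS

theorem int_sub (hF : DifferentiableOn ℂ F (ball 0 1)) (hG : DifferentiableOn ℂ G (ball 0 1))
    (h1 : IntegrableOn (fun w => ‖F w‖ ^ 2) (ball (0 : ℂ) 1))
    (h2 : IntegrableOn (fun w => ‖G w‖ ^ 2) (ball (0 : ℂ) 1)) :
    IntegrableOn (fun w => ‖F w - G w‖ ^ 2) (ball (0 : ℂ) 1) := by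
  have a1 := hF.continuousOn.aestronglyMeasurable (μ := volume) measurableSet_ball
  have a2 := hG.continuousOn.aestronglyMeasurable (μ := volume) measurableSet_ball
  exact (memLp_two_iff_integrable_sq_norm (a1.sub a2)).1
    (((memLp_two_iff_integrable_sq_norm a1).2 h1).sub ((memLp_two_iff_integrable_sq_norm a2).2 h2))

variable {z : ℕ → ℂ}

theorem rep_ker (hz : ∀ n, ‖z n‖ < 1) (s : Finset ℕ) (a : ℕ → ℂ) :
    Rep (fun m => (m + 1) * ∑ n ∈ s, a n * z n ^ m)
      fun w => ∑ n ∈ s, a n * ((1 - z n * w) ^ 2)⁻¹ := fun w hw => by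
  refine hs_congr (hasSum_sum fun n _ => HasSum.mul_left (a n) (by
    simpa using hasSum_choose_mul_geometric_of_norm_lt_one 1 (r := z n * w) (by
      rw [norm_mul]; exact mul_lt_one_of_nonneg_of_lt_one_left (norm_nonneg _) (hz n) hw.le)))
    fun m => ?_
  simp only [Finset.mul_sum, Finset.sum_mul]
  exact Finset.sum_congr rfl fun n _ => by ring

theorem int_ker (hz : ∀ n, ‖z n‖ < 1) (s : Finset ℕ) (a : ℕ → ℂ) :
    IntegrableOn (fun w => ‖∑ n ∈ s, a n * ((1 - z n * w) ^ 2)⁻¹‖ ^ 2) (ball (0 : ℂ) 1) := by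
  refine (ContinuousOn.integrableOn_compact (isCompact_closedBall 0 1) (ContinuousOn.pow
    (ContinuousOn.norm (continuousOn_finsetSum _ fun n _ => continuousOn_const.mul
      (ContinuousOn.inv₀ (by fun_prop) fun w hw => pow_ne_zero _ fun e => ?_))) 2)).mono_set
    ball_subset_closedBall
  have := mul_lt_one_of_nonneg_of_lt_one_left (norm_nonneg _) (hz n) (mem_closedBall_zero_iff.1 hw)
  rw [← norm_mul, ← sub_eq_zero.1 e] at this
  simp at this

theorem geo {ζ : ℂ} (h : ‖ζ‖ < 1) : Summable fun m : ℕ => ((m : ℝ) + 1) * ‖ζ ^ m‖ ^ 2 := by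
  have := lin_summ (sq_nonneg ‖ζ‖) (pow_lt_one₀ (norm_nonneg _) h two_ne_zero)
  simpa only [norm_pow, ← pow_mul, mul_comm] using this

theorem exists_g (hz : ∀ n, ‖z n‖ < 1) (hF : DifferentiableOn ℂ F (ball 0 1))
    (hi : IntegrableOn (fun w => ‖F w‖ ^ 2) (ball (0 : ℂ) 1)) {ε : ℝ} (hε : 0 < ε)
    (h : ∀ (s : Finset ℕ) (a : ℕ → ℂ), ε ≤ ∫ w in ball (0 : ℂ) 1,
      ‖F w - ∑ n ∈ s, a n * ((1 - z n * w) ^ 2)⁻¹‖ ^ 2) :
    ∃ (g : ℕ → ℂ) (B : ℝ), g ≠ 0 ∧ HasSum (fun n : ℕ => ‖g n‖ ^ 2 / ((n : ℝ) + 1)) B ∧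
      ∀ n, ps g (z n) = 0 := by
  by_contra hc
  push Not at hc
  let q : ℕ → ℂ := fun m => (√((m : ℝ) + 1) : ℝ)
  have q1 : ∀ m, ‖q m‖ ^ 2 = m + 1 := fun m => by
    rw [norm_real, Real.norm_of_nonneg (Real.sqrt_nonneg _), Real.sq_sqrt (by positivity)]
  have q2 : ∀ m, q m * q m = m + 1 := fun m => by
    rw [← ofReal_mul, Real.mul_self_sqrt (by positivity)]; simp
  have q3 : ∀ m, q m ≠ 0 := fun m e => Nat.cast_add_one_ne_zero (R := ℂ) m (by rw [← q2, e, mul_zero])
  let k : ℕ → L2 := fun n => ⟨fun m => q m * z n ^ m, mem_l2 (by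
    simpa only [norm_mul, mul_pow, q1] using geo (hz n))⟩
  obtain ⟨S, hS, -⟩ := bess (rep_coef hF) hi
  let u : L2 := ⟨fun m => coef F m / q m, mem_l2 (by
    simpa only [norm_div, div_pow, q1] using hS.summable)⟩
  have hK : (Submodule.span ℂ (range k)).topologicalClosure = ⊤ := by
    rw [Submodule.topologicalClosure_eq_top_iff, eq_bot_iff]
    intro v hv
    by_contra h0
    obtain ⟨n, hn⟩ := hc (fun m => q m * conj (v m)) (‖v‖ ^ 2) (fun e => h0 (by
      rw [Submodule.mem_bot]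
      ext m
      simpa [q3] using congrFun e m)) (hs_congr (l2_hasSum v) fun m => by
        rw [norm_mul, mul_pow, q1, norm_conj, mul_div_cancel_left₀ _ (by positivity)])
    refine hn (Eq.trans (tsum_congr fun m => ?_) ((inner_eq v (k n)).symm.trans
      (Submodule.inner_left_of_mem_orthogonal (Submodule.subset_span (mem_range_self n)) hv)))
    exact mul_right_comm _ _ _
  have hu : u ∈ closure (Submodule.span ℂ (range k) : Set L2) := by
    rw [← Submodule.topologicalClosure_coe, hK]; trivial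
  obtain ⟨x, hx, hd⟩ := Metric.mem_closure_iff.1 hu √(ε / Real.pi)
    (Real.sqrt_pos.2 (div_pos hε Real.pi_pos))
  obtain ⟨c, rfl⟩ := Finsupp.mem_span_range_iff_exists_finsupp.1 hx
  rw [dist_eq_norm, Real.lt_sqrt (norm_nonneg _), lt_div_iff₀' Real.pi_pos] at hd
  have r := rep_ker hz c.support c
  refine absurd ((h c.support c).trans (upp (A := fun m => coef F m - (m + 1) *
    ∑ n ∈ c.support, c n * z n ^ m) (fun w hw => hs_congr ((rep_coef hF w hw).sub (r w hw))
      fun m => sub_mul _ _ _) (int_sub hF r.diff hi (int_ker hz _ _))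
    (hs_congr (l2_hasSum _) fun m => ?_))) (not_le.2 hd)
  rw [← q1, ← div_pow, ← norm_div, ← q2, sub_div, mul_assoc, mul_div_cancel_left₀ _ (q3 m)]
  congr 2
  simp only [Finsupp.sum, lp.coeFn_sub, lp.coeFn_sum, lp.coeFn_smul, Pi.sub_apply, Finset.sum_apply,
    Pi.smul_apply, smul_eq_mul, u, k, Finset.mul_sum, mul_left_comm]

end Pool.Agent.H94.BC
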