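import Pool.Agent.H94.BC3

set_option autoImplicit false
open MeasureTheory Filter Topology Metric Set Complex ComplexConjugate

namespace Pool.Agent.H94.BC
open Pool.Agent.H88.H2 Pool.Agent.H88.PS

variable {g x : ℕ → ℂ} {S B : ℝ}

theorem cs' {τ : ℝ} (hx : HasSum (fun n : ℕ => ((n : ℝ) + 1) * ‖x n‖ ^ 2) S)
    (hg : HasSum (fun n : ℕ => ‖g n‖ ^ 2 / ((n : ℝ) + 1)) B) (hτ : 0 < τ) (hS : S ≤ τ ^ 2)
    (p q : ℕ) : ‖∑' n, x (n + p) * g (n + q)‖ ≤ τ * (1 + B) * (q + 1) :=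
  (norm_tsum_le_tsum_norm (cs hx hg hτ hS p q).1).trans (cs hx hg hτ hS p q).2

theorem pol_pair (hx : HasSum (fun n : ℕ => ((n : ℝ) + 1) * ‖x n‖ ^ 2) S)
    (hg : HasSum (fun n : ℕ => ‖g n‖ ^ 2 / ((n : ℝ) + 1)) B) :
    Pol fun k => ∑' n, x n * g (n + k) := by
  have S0 := hx.nonneg fun _ => by positivity
  exact ⟨_, cs' hx hg (τ := S + 1) (by linarith) (by nlinarith) 0⟩

theorem summ_pair (hx : HasSum (fun n : ℕ => ((n : ℝ) + 1) * ‖x n‖ ^ 2) S)
    (hg : HasSum (fun n : ℕ => ‖g n‖ ^ 2 / ((n : ℝ) + 1)) B) (p q : ℕ) :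
    Summable fun n => x (n + p) * g (n + q) := by
  have S0 := hx.nonneg fun _ => by positivity
  exact (cs hx hg (τ := S + 1) (by linarith) (by nlinarith) p q).1.of_norm

/-- difference quotient -/
noncomputable def EE (g : ℕ → ℂ) (ζ : ℂ) : ℂ → ℂ := ps fun k => ps (fun n => g (n + (k + 1))) ζ

theorem E_spec (hg : HasSum (fun n : ℕ => ‖g n‖ ^ 2 / ((n : ℝ) + 1)) B) {ζ : ℂ} (hζ : ‖ζ‖ < 1)
    (h0 : ps g ζ = 0) : Rep (fun k => ps (fun n => g (n + (k + 1))) ζ) (EE g ζ) ∧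
      ∀ a, ‖a‖ < 1 → a ≠ ζ → EE g ζ a = -ps g a / (ζ - a) ∧
        HasDerivAt (EE g ζ) (-deriv (ps g) a / (ζ - a) - ps g a / (ζ - a) ^ 2) a := by
  have pg := pol_of hg
  have pu : Pol fun k => ps (fun n => g (n + k)) ζ := by
    simpa only [ps, mul_comm] using pol_pair (geo hζ).hasSum hg
  have e : ∀ a, ‖a‖ < 1 → a ≠ ζ → EE g ζ a = -ps g a / (ζ - a) := fun a ha hn => by
    have h1 := pu.step 0 ha
    have h2 := (pu.rep a ha).unique (hs_congr ((pg.rep a ha).add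
      (((pu.shift 1).rep a ha).mul_left ζ)) fun k => by
        show ps (fun n => g (n + k)) ζ * _ = _
        rw [pg.step k hζ]; ring)
    simp only [add_zero, zero_add, h0] at h1
    rw [eq_div_iff (sub_ne_zero.2 hn.symm)]
    unfold EE
    linear_combination h1 - h2
  refine ⟨(pu.shift 1).rep, fun a ha hn => ⟨e a ha hn, ?_⟩⟩
  have n := isOpen_ball.mem_nhds (mem_ball_zero_iff.2 ha)
  have h1 := (pg.rep.diff.differentiableAt n).hasDerivAt.fun_neg.fun_div
    ((hasDerivAt_id' a).const_sub ζ) (sub_ne_zero.2 hn.symm)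
  refine (h1.congr_deriv ?_).congr_of_eventuallyEq ?_
  · have := sub_ne_zero.2 hn.symm
    field_simp
  · filter_upwards [n, isOpen_ne.mem_nhds hn] with b hb hb' using e b (mem_ball_zero_iff.1 hb) hb'

theorem quot {T G : ℂ → ℂ} (hT : DifferentiableOn ℂ T (ball 0 1))
    (hG : DifferentiableOn ℂ G (ball 0 1)) {a : ℂ} (ha : a ∈ ball (0 : ℂ) 1) (h0 : G a ≠ 0)
    (h : EqOn (fun w => deriv T w * G w - T w * deriv G w) 0 (ball 0 1)) :
    ∃ ρ, EqOn (fun w => T w - ρ * G w) 0 (ball 0 1) := by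
  have n := isOpen_ball.mem_nhds ha
  obtain ⟨r, hr, hb⟩ := Metric.mem_nhds_iff.1 (inter_mem n
    ((hG.continuousOn.continuousAt n).eventually_ne h0))
  obtain ⟨ρ, hρ⟩ := isOpen_ball.exists_is_const_of_deriv_eq_zero (convex_ball a r).isPreconnected
    ((hT.mono fun w hw => (hb hw).1).fun_div (hG.mono fun w hw => (hb hw).1) fun w hw => (hb hw).2)
    fun w hw => by
      have n := isOpen_ball.mem_nhds (hb hw).1
      rw [deriv_fun_div (hT.differentiableAt n) (hG.differentiableAt n) (hb hw).2]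
      exact div_eq_zero_iff.2 (Or.inl (h (hb hw).1))
  refine ⟨ρ, ((hT.fun_sub (hG.const_mul ρ)).analyticOnNhd
    isOpen_ball).eqOn_zero_of_preconnected_of_eventuallyEq_zero
      (convex_ball _ _).isPreconnected ha ?_⟩
  filter_upwards [ball_mem_nhds a hr] with w hw
  rw [← hρ w hw, div_mul_cancel₀ _ (hb hw).2]
  simp

theorem locu {t : ℕ → ℂ} {u : ℕ → ℕ → ℂ} {T : ℂ → ℂ} {U : ℕ → ℂ → ℂ} {τ : ℕ → ℝ}
    (ht : Rep t T) (hu : ∀ j, Rep (u j) (U j)) (hτ : Tendsto τ atTop (𝓝 0))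
    (h : ∀ j k, ‖u j k - t k‖ ≤ τ j * (k + 1)) :
    TendstoLocallyUniformlyOn U T atTop (ball 0 1) := by
  refine Metric.tendstoLocallyUniformlyOn_iff.2 fun ε hε a ha => ?_
  obtain ⟨s, h1, h2⟩ := exists_between (mem_ball_zero_iff.1 ha)
  have h0 := (norm_nonneg a).trans h1.le
  refine ⟨ball 0 s, mem_nhdsWithin_of_mem_nhds (isOpen_ball.mem_nhds (mem_ball_zero_iff.2 h1)), ?_⟩
  have := hτ.mul_const (∑' k : ℕ, ((k : ℝ) + 1) * s ^ k)
  rw [zero_mul] at this
  filter_upwards [this.eventually (gt_mem_nhds hε)] with j hj w hw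
  have hw := mem_ball_zero_iff.1 hw
  rw [dist_comm, dist_eq_norm]
  refine (((hu j w (hw.trans h2)).sub (ht w (hw.trans h2))).norm_le_of_bounded
    ((lin_summ h0 h2).hasSum.mul_left (τ j)) fun k => ?_).trans_lt hj
  rw [← sub_mul, norm_mul, norm_pow]
  exact (mul_le_mul_of_nonneg_left (pow_le_pow_left₀ (norm_nonneg _) hw.le k)
    (norm_nonneg _)).trans (lin_le (h j) h0 k)

theorem main {z : ℕ → ℂ} (hz : ∀ n, ‖z n‖ < 1) (g0 : g ≠ 0)
    (hg : HasSum (fun n : ℕ => ‖g n‖ ^ 2 / ((n : ℝ) + 1)) B) (gz : ∀ n, ps g (z n) = 0)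
    (s : ℕ → Finset ℕ) (c : ℕ → ℕ → ℂ) (hx : HasSum (fun n : ℕ => ((n : ℝ) + 1) * ‖x n‖ ^ 2) S)
    {σ : ℕ → ℝ} (hσ : Tendsto σ atTop (𝓝 0)) (hs : ∀ j, HasSum (fun m : ℕ => ((m : ℝ) + 1) *
      ‖∑ n ∈ s j, c j n * z n ^ m - x m‖ ^ 2) (σ j)) {c0 : ℂ} {r : ℝ} (hr : 0 < r)
    (hb : ball c0 r ⊆ {w : ℂ | 1 < ‖w‖}) (hl : ∀ w ∈ ball c0 r,
      Tendsto (fun j => ∑ n ∈ s j, c j n * ((1 - z n * w) ^ 2)⁻¹) atTop (𝓝 0)) : x = 0 := by
  have pg := pol_of hg
  let τ : ℕ → ℝ := fun j => √(σ j) + 1 / ((j : ℝ) + 1)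
  have t0 : Tendsto τ atTop (𝓝 0) := by
    simpa [τ] using hσ.sqrt.add (tendsto_one_div_add_atTop_nhds_zero_nat (𝕜 := ℝ))
  have t1 : ∀ j, 0 < τ j := fun j => by positivity
  have t2 : ∀ j, σ j ≤ τ j ^ 2 := fun j => (Real.sqrt_le_left (t1 j).le).1 (by
    simp only [τ, le_add_iff_nonneg_right]; positivity)
  have pr : ∀ j p q, ‖∑ n ∈ s j, c j n * z n ^ p * ps (fun m => g (m + q)) (z n) -
      ∑' m, x (m + p) * g (m + q)‖ ≤ τ j * (1 + B) * (q + 1) := fun j p q => by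
    refine le_trans (le_of_eq (congrArg _ (HasSum.tsum_eq (hs_congr ((hasSum_sum fun n _ =>
      ((pg.shift q).rep _ (hz n)).mul_left (c j n * z n ^ p)).sub
        (summ_pair hx hg p q).hasSum) fun m => ?_)).symm)) (cs' (hs j) hg (t1 j) (t2 j) p q)
    rw [sub_mul, Finset.sum_mul]
    congr 1
    exact Finset.sum_congr rfl fun n _ => by ring
  have o2 : ∀ p, ∑' m, x (m + p) * g m = 0 := fun p => norm_le_zero_iff.1
    (ge_of_tendsto' (by simpa using t0.mul_const (1 + B)) fun j => by simpa [gz] using pr j p 0)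
  have E := fun n => E_spec hg (hz n) (gz n)
  have rt := ((pol_pair hx hg).shift 1).rep
  set T := ps fun k => ∑' n, x n * g (n + (k + 1))
  let U : ℕ → ℂ → ℂ := fun j a => ∑ n ∈ s j, c j n * EE g (z n) a
  have ru : ∀ j, Rep (fun k => ∑ n ∈ s j, c j n * ps (fun m => g (m + (k + 1))) (z n)) (U j) :=
    fun j a ha => hs_congr (hasSum_sum fun n _ => ((E n).1 a ha).mul_left (c j n)) fun k => by
      simp only [Finset.sum_mul, mul_assoc]
  have B0 := hg.nonneg fun _ => by positivity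
  have lu := locu rt ru (τ := fun j => τ j * (1 + B) * 2)
    (by simpa using (t0.mul_const (1 + B)).mul_const 2) fun j k => by
      have := pr j 0 (k + 1)
      simp only [pow_zero, mul_one, add_zero] at this
      refine this.trans ?_
      push_cast
      nlinarith [mul_nonneg (mul_nonneg (t1 j).le (by linarith : 0 ≤ 1 + B))
        (Nat.cast_nonneg (α := ℝ) k)]
  have ld := lu.deriv (Eventually.of_forall fun j => (ru j).diff) isOpen_ball
  have inv : ∀ a : ℂ, a⁻¹ ∈ ball c0 r → a ≠ 0 ∧ ‖a‖ < 1 := fun a ha => by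
    have h : 1 < ‖a⁻¹‖ := hb ha
    rw [norm_inv, one_lt_inv_iff₀, norm_pos_iff] at h
    exact h
  have W : ∀ a : ℂ, a⁻¹ ∈ ball c0 r → a ∉ range z →
      deriv T a * ps g a - T a * deriv (ps g) a = 0 := fun a h1 h2 => by
    obtain ⟨h3, h4⟩ := inv a h1
    have hn : ∀ n, a ≠ z n := fun n e => h2 ⟨n, e.symm⟩
    have m := mem_ball_zero_iff.2 h4
    refine tendsto_nhds_unique (((ld.tendsto_at m).mul_const (ps g a)).sub
      ((lu.tendsto_at m).mul_const (deriv (ps g) a))) ?_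
    have := (hl _ h1).const_mul (-(ps g a / a) ^ 2)
    rw [mul_zero] at this
    refine this.congr fun j => ?_
    rw [Function.comp, (HasDerivAt.fun_sum fun n _ =>
      ((E n).2 a h4 (hn n)).2.const_mul (c j n)).deriv]
    simp only [U, Finset.mul_sum, Finset.sum_mul, ← Finset.sum_sub_distrib]
    refine Finset.sum_congr rfl fun n _ => ?_
    have := sub_ne_zero.2 (hn n).symm
    rw [((E n).2 a h4 (hn n)).1, show 1 - z n * a⁻¹ = -(z n - a) / a by field_simp; ring]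
    field_simp
    ring
  have aT := rt.diff.analyticOnNhd isOpen_ball
  have aG := pg.rep.diff.analyticOnNhd isOpen_ball
  have m0 : c0⁻¹⁻¹ ∈ ball c0 r := by simpa using hr
  have W0 := ((aT.deriv.mul aG).sub (aT.mul aG.deriv)).eqOn_zero_of_preconnected_of_mem_closure
    (convex_ball _ _).isPreconnected (mem_ball_zero_iff.2 (inv _ m0).2) (by
      rw [mem_closure_iff_nhds]
      intro N hN
      obtain ⟨a, h2, h1⟩ := (((countable_range z).insert c0⁻¹).dense_compl ℂ).inter_nhds_nonempty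
        (inter_mem hN ((continuousAt_inv₀ (inv _ m0).1).eventually (isOpen_ball.mem_nhds m0)))
      simp only [mem_compl_iff, mem_insert_iff, not_or] at h2
      exact ⟨a, h1.1, W a h1.2 h2.2, h2.1⟩)
  have r0 : Rep 0 0 := fun z _ => by simp
  obtain ⟨a, h1, h2⟩ : ∃ a, ‖a‖ < 1 ∧ ps g a ≠ 0 := by
    by_contra h
    push Not at h
    exact g0 (pg.rep.unique r0 h)
  obtain ⟨ρ, hρ⟩ := quot rt.diff pg.rep.diff (mem_ball_zero_iff.2 h1) h2 W0
  have o1 := rt.unique (B := fun k => ρ * g k) (G := fun w => ρ * ps g w)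
    (fun w hw => hs_congr ((pg.rep w hw).mul_left ρ) fun k => mul_assoc _ _ _)
    fun w hw => sub_eq_zero.1 (hρ (mem_ball_zero_iff.2 hw))
  let φ : ℕ → ℂ := fun n => Nat.casesOn n (-ρ) x
  have hφ : Summable fun n : ℕ => ((n : ℝ) + 1) * ‖φ n‖ ^ 2 := by
    rw [← summable_nat_add_iff 1]
    refine Summable.of_nonneg_of_le (fun _ => by positivity) (fun n => ?_) (hx.summable.mul_left 2)
    show _ * ‖x n‖ ^ 2 ≤ _
    push_cast
    nlinarith [mul_nonneg (Nat.cast_nonneg (α := ℝ) n) (sq_nonneg ‖x n‖)]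
  have o3 : ∀ k, ∑' n, φ n * g (n + k) = 0 := fun k => by
    have := summ_pair hφ.hasSum hg 0 k
    simp only [add_zero] at this
    rw [this.tsum_eq_zero_add]
    have e := congrFun o1 k
    simp only [zero_add, show ∀ n, n + 1 + k = n + (k + 1) from fun n => by ring]
    show -ρ * g k + ∑' n, x n * g (n + (k + 1)) = 0
    rw [e]
    ring
  have := (core hφ.hasSum hg o3 fun k => by
    cases k with
    | zero => exact o3 0
    | succ k => exact o2 k).resolve_left g0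
  exact funext fun n => congrFun this (n + 1)

end Pool.Agent.H94.BC
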