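import Mathlib

set_option autoImplicit false

namespace Pool.Agent.H94.BeamDefs

open Complex

/-- The periodic beam solution with coefficients `cp k = c_k^+`, `cm k = c_k^-`. -/
noncomputable def beam (cp cm : ℤ → ℂ) (t x : ℝ) : ℂ :=
  cp 0 + cm 0 * t + ∑' k : ℤ, if k = 0 then 0 else
    (cp k * exp (I * k ^ 2 * t) + cm k * exp (-I * k ^ 2 * t)) * exp (I * k * x)

end Pool.Agent.H94.BeamDefs
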