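import Pool.Agent.H94.BeamDefs

set_option autoImplicit false

namespace Pool.Agent.H94.BeamProof

open Complex Finset Pool.Agent.H94.BeamDefs

noncomputable def c (N : ℕ) (k : ℤ) : ℂ :=
  (if k ∈ Icc (N : ℤ) (2 * N) then 1 else 0) - if k ∈ Icc (-(2 * N) : ℤ) (-N) then 1 else 0

lemma c_zero {N : ℕ} {k : ℤ} (h : k ∉ Icc (N : ℤ) (2 * N) ∪ Icc (-(2 * N) : ℤ) (-N)) :
    c N k = 0 := by
  rw [mem_union, not_or] at h
  simp only [c, if_neg h.1, if_neg h.2, sub_zero]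

lemma diff_le (g : ℤ → ℂ) (hg : ∀ k, ‖g k‖ ≤ 1) (s t w : Finset ℤ) (h1 : s \ t ⊆ w)
    (h2 : t \ s ⊆ w) : ‖∑ k ∈ s, g k - ∑ k ∈ t, g k‖ ≤ 2 * w.card := by
  rw [← sum_sdiff_sub_sum_sdiff]
  have h : ∀ u ⊆ w, ‖∑ k ∈ u, g k‖ ≤ w.card := by
    intro u hu
    refine (norm_sum_le _ _).trans ((sum_le_card_nsmul _ _ 1 fun k _ => hg k).trans ?_)
    simpa using card_le_card hu
  linarith [norm_sub_le (∑ k ∈ s \ t, g k) (∑ k ∈ t \ s, g k), h _ h1, h _ h2]

lemma beam_le (N : ℕ) (hN : 0 < N) (a : ℤ) (t : ℝ) :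
    ‖beam (c N) 0 (0 + t) (0 - a * t)‖ ≤ 4 * (2 * |a| + 1) := by
  let g : ℤ → ℂ := fun k => exp (I * ((k ^ 2 - a * k) * t : ℝ))
  have hg : ∀ k, ‖g k‖ ≤ 1 := fun k => (norm_exp_I_mul_ofReal _).le
  have h0 : c N 0 = 0 := c_zero (by simp; omega)
  have e1 : ∀ k : ℤ, (if k = 0 then 0 else (c N k * exp (I * k ^ 2 * (0 + t : ℝ))
      + (0 : ℤ → ℂ) k * exp (-I * k ^ 2 * (0 + t : ℝ))) * exp (I * k * (0 - a * t : ℝ)))
      = (if k ∈ Icc (N : ℤ) (2 * N) then g k else 0)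
        - if k ∈ Icc (-(2 * N) : ℤ) (-N) then g k else 0 := by
    intro k
    have e2 : (if k ∈ Icc (N : ℤ) (2 * N) then g k else 0)
        - (if k ∈ Icc (-(2 * N) : ℤ) (-N) then g k else 0) = c N k * g k := by
      simp only [c, sub_mul, ite_mul, one_mul, zero_mul]
    rw [e2]
    split_ifs with hk
    · rw [hk, h0, zero_mul]
    · simp only [Pi.zero_apply, zero_mul, add_zero, g]
      rw [mul_assoc, ← exp_add]
      congr 2
      push_cast
      ring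
  have hs : ∀ s : Finset ℤ, HasSum (fun k => if k ∈ s then g k else 0) (∑ k ∈ s, g k) := by
    intro s
    have := hasSum_sum_of_ne_finset_zero (f := fun k => if k ∈ s then g k else 0) (s := s)
      (L := SummationFilter.unconditional ℤ) fun k hk => if_neg hk
    rwa [sum_congr rfl fun k hk => if_pos hk] at this
  rw [beam, h0]
  simp only [e1]
  rw [((hs _).sub (hs _)).tsum_eq]
  have e3 : ∑ k ∈ Icc (-(2 * N) : ℤ) (-N), g k = ∑ k ∈ Icc (N + a : ℤ) (2 * N + a), g k := by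
    refine sum_bij' (fun k _ => a - k) (fun k _ => a - k) ?_ ?_ ?_ ?_ ?_
    · intro k hk
      simp only [mem_Icc] at hk ⊢
      omega
    · intro k hk
      simp only [mem_Icc] at hk ⊢
      omega
    · intro k _
      simp
    · intro k _
      simp
    · intro k _
      simp only [g]
      congr 3
      push_cast
      ring
  rw [e3]
  have h1 := diff_le g hg (Icc (N : ℤ) (2 * N)) (Icc (N + a : ℤ) (2 * N + a))
    (Icc (N - |a|) (N + |a|) ∪ Icc (2 * N - |a|) (2 * N + |a|)) (by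
      intro k hk
      simp only [mem_sdiff, mem_Icc, mem_union] at hk ⊢
      have := le_abs_self a
      have := neg_abs_le a
      omega) (by
      intro k hk
      simp only [mem_sdiff, mem_Icc, mem_union] at hk ⊢
      have := le_abs_self a
      have := neg_abs_le a
      omega)
  have h2 : ((Icc (N - |a|) (N + |a|) ∪ Icc (2 * N - |a|) (2 * N + |a|) : Finset ℤ).card : ℤ)
      ≤ 2 * (2 * |a| + 1) := by
    have h3 := card_union_le (Icc (N - |a|) (N + |a|)) (Icc (2 * N - |a|) (2 * N + |a|))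
    have h4 := abs_nonneg a
    rw [Int.card_Icc, Int.card_Icc] at h3
    omega
  have h5 : ((Icc (N - |a|) (N + |a|) ∪ Icc (2 * N - |a|) (2 * N + |a|) : Finset ℤ).card : ℝ)
      ≤ 2 * (2 * |a| + 1) := by exact_mod_cast h2
  simp only [Pi.zero_apply, zero_mul, add_zero, zero_add]
  push_cast at h5 ⊢
  linarith

theorem main (m : ℕ) (a : Fin m → ℤ) (T : ℝ) (hT : 0 < T) (α : ℝ) :
    ∃ cp cm : ℤ → ℂ, (Function.support cp).Finite ∧ (Function.support cm).Finite ∧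
      α * ∑ i, ∫ t in (0 : ℝ)..T, ‖beam cp cm (0 + t) (0 - a i * t)‖ ^ 2
        < ∑' k, (‖cp k‖ ^ 2 + ‖cm k‖ ^ 2) := by
  obtain ⟨N, hN⟩ := exists_nat_gt (|α| * ∑ i, (4 * (2 * |(a i : ℝ)| + 1)) ^ 2 * T)
  have hN0 : 0 < N := by
    have : (0 : ℝ) ≤ |α| * ∑ i, (4 * (2 * |(a i : ℝ)| + 1)) ^ 2 * T := by positivity
    exact_mod_cast this.trans_lt hN
  have hfin : (Function.support (c N)).Finite := by
    refine (Icc (N : ℤ) (2 * N) ∪ Icc (-(2 * N) : ℤ) (-N)).finite_toSet.subset fun k hk => ?_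
    by_contra h
    exact hk (c_zero h)
  refine ⟨c N, 0, hfin, by simp, ?_⟩
  have h1 : ∀ i, |∫ t in (0 : ℝ)..T, ‖beam (c N) 0 (0 + t) (0 - a i * t)‖ ^ 2|
      ≤ (4 * (2 * |(a i : ℝ)| + 1)) ^ 2 * T := by
    intro i
    have := intervalIntegral.norm_integral_le_of_norm_le_const (a := 0) (b := T)
      (C := (4 * (2 * |(a i : ℝ)| + 1)) ^ 2)
      (f := fun t => ‖beam (c N) 0 (0 + t) (0 - a i * t)‖ ^ 2) (fun t _ => by
        have h := beam_le N hN0 (a i) t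
        rw [Real.norm_of_nonneg (by positivity)]
        push_cast at h
        gcongr)
    rwa [sub_zero, abs_of_pos hT] at this
  have h2 : α * ∑ i, ∫ t in (0 : ℝ)..T, ‖beam (c N) 0 (0 + t) (0 - a i * t)‖ ^ 2
      ≤ |α| * ∑ i, (4 * (2 * |(a i : ℝ)| + 1)) ^ 2 * T := by
    refine (le_abs_self _).trans ?_
    rw [abs_mul]
    gcongr
    exact (abs_sum_le_sum_abs _ _).trans (sum_le_sum fun i _ => h1 i)
  have h3 : (N : ℝ) ≤ ∑' k, (‖c N k‖ ^ 2 + ‖(0 : ℤ → ℂ) k‖ ^ 2) := by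
    have hs : Summable fun k => ‖c N k‖ ^ 2 + ‖(0 : ℤ → ℂ) k‖ ^ 2 :=
      summable_of_ne_finset_zero (s := Icc (N : ℤ) (2 * N) ∪ Icc (-(2 * N) : ℤ) (-N))
        fun k hk => by simp [c_zero hk]
    refine le_trans ?_ (hs.sum_le_tsum (Icc (N : ℤ) (2 * N)) fun k _ => by positivity)
    have e : ∀ k ∈ Icc (N : ℤ) (2 * N), ‖c N k‖ ^ 2 + ‖(0 : ℤ → ℂ) k‖ ^ 2 = 1 := by
      intro k hk
      have hk2 : k ∉ Icc (-(2 * N) : ℤ) (-N) := by
        simp only [mem_Icc] at hk ⊢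
        omega
      simp only [c, if_pos hk, if_neg hk2]
      simp
    rw [sum_congr rfl e, sum_const, Int.card_Icc, nsmul_eq_mul, mul_one]
    have : N ≤ (2 * (N : ℤ) + 1 - N).toNat := by omega
    exact_mod_cast this
  linarith

end Pool.Agent.H94.BeamProof
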