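import Mathlib

set_option autoImplicit false
open Filter Topology

namespace Pool.Agent.H94.ConvCyc

variable {𝕂 : Type*} [RCLike 𝕂] {X : Type*} [NormedAddCommGroup X] [NormedSpace 𝕂 X]

def Inv (n : ℕ) (x : ℕ → X) (f : ℕ → X →L[𝕂] 𝕂) : Prop :=
  (∀ i < n, ∀ j < n, i ≠ j → f i (x j) = 0) ∧ ∀ i < n, (x i = 0 ∧ f i = 0) ∨ f i (x i) = 1

lemma step (d : X) (n : ℕ) (x : ℕ → X) (f : ℕ → X →L[𝕂] 𝕂) :
    ∃ g : X →L[𝕂] 𝕂, Inv n x f →
      Inv (n + 1) (Function.update x n (d - ∑ i ∈ Finset.range n, f i d • x i))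
        (Function.update f n g) := by
  classical
  set v := d - ∑ i ∈ Finset.range n, f i d • x i with hv
  have key : ∀ g : X →L[𝕂] 𝕂, Inv n x f → (∀ j < n, g (x j) = 0) → ((v = 0 ∧ g = 0) ∨ g v = 1) →
      Inv (n + 1) (Function.update x n v) (Function.update f n g) := by
    intro g h h1 h2
    have h3 : ∀ i < n, f i v = 0 := by
      intro i hi
      rw [hv, map_sub, map_sum, Finset.sum_eq_single i]
      · rcases h.2 i hi with h4 | h4
        · simp [h4.2]
        · simp [h4]
      · intro j hj hji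
        rw [map_smul, h.1 i hi j (Finset.mem_range.mp hj) hji.symm, smul_zero]
      · intro h; exact absurd (Finset.mem_range.mpr hi) h
    constructor
    · intro i hi j hj hij
      by_cases hin : i = n
      · subst hin
        rw [Function.update_self, Function.update_of_ne hij.symm]
        exact h1 j (by omega)
      · rw [Function.update_of_ne hin]
        by_cases hjn : j = n
        · subst hjn
          rw [Function.update_self]
          exact h3 i (by omega)
        · rw [Function.update_of_ne hjn]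
          exact h.1 i (by omega) j (by omega) hij
    · intro i hi
      by_cases hin : i = n
      · subst hin
        simpa using h2
      · rw [Function.update_of_ne hin, Function.update_of_ne hin]
        exact h.2 i (by omega)
  by_cases hv0 : v = 0
  · exact ⟨0, fun h => key 0 h (by simp) (Or.inl ⟨hv0, rfl⟩)⟩
  · obtain ⟨g0, -, hg0⟩ := exists_dual_vector 𝕂 v (norm_ne_zero_iff.mpr hv0)
    have hn : ((‖v‖ : ℝ) : 𝕂) ≠ 0 := by exact_mod_cast norm_ne_zero_iff.mpr hv0
    let g1 : X →L[𝕂] 𝕂 := ((‖v‖ : ℝ) : 𝕂)⁻¹ • g0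
    have hg1 : g1 v = 1 := by simp [g1, hg0, hn]
    refine ⟨g1 - ∑ i ∈ Finset.range n, g1 (x i) • f i, fun h => key _ h ?_ (Or.inr ?_)⟩
    · intro j hj
      rw [ContinuousLinearMap.sub_apply, ContinuousLinearMap.sum_apply, Finset.sum_eq_single j]
      · rcases h.2 j hj with h4 | h4
        · simp [h4.1]
        · simp [h4]
      · intro i hi hij
        rw [ContinuousLinearMap.smul_apply, h.1 i (Finset.mem_range.mp hi) j hj hij, smul_zero]
      · intro h; exact absurd (Finset.mem_range.mpr hj) h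
    · have h3 := (key 0 h (by simp))
      rw [ContinuousLinearMap.sub_apply, ContinuousLinearMap.sum_apply, hg1,
        Finset.sum_eq_zero, sub_zero]
      intro i hi
      have hi' := Finset.mem_range.mp hi
      have : f i v = 0 := by
        rw [hv, map_sub, map_sum, Finset.sum_eq_single i]
        · rcases h.2 i hi' with h4 | h4
          · simp [h4.2]
          · simp [h4]
        · intro j hj hji
          rw [map_smul, h.1 i hi' j (Finset.mem_range.mp hj) hji.symm, smul_zero]
        · intro h; exact absurd hi h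
      rw [ContinuousLinearMap.smul_apply, this, smul_zero]

lemma biorth (d : ℕ → X) : ∃ (x : ℕ → X) (f : ℕ → X →L[𝕂] 𝕂),
    (∀ i j, i ≠ j → f i (x j) = 0) ∧ (∀ i, x i = 0 ∨ f i (x i) = 1) ∧
    ∀ g : X →L[𝕂] 𝕂, (∀ i, g (x i) = 0) → ∀ i, g (d i) = 0 := by
  classical
  choose g hg using fun n (s : (ℕ → X) × (ℕ → X →L[𝕂] 𝕂)) => step (d n) n s.1 s.2
  obtain ⟨s, hs⟩ : ∃ s : ℕ → (ℕ → X) × (ℕ → X →L[𝕂] 𝕂), ∀ n, s (n + 1) =
      (Function.update (s n).1 n (d n - ∑ i ∈ Finset.range n, (s n).2 i (d n) • (s n).1 i),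
        Function.update (s n).2 n (g n (s n))) :=
    ⟨fun n => Nat.rec (0, 0) (fun n sn =>
      (Function.update sn.1 n (d n - ∑ i ∈ Finset.range n, sn.2 i (d n) • sn.1 i),
        Function.update sn.2 n (g n sn))) n, fun _ => rfl⟩
  have hinv : ∀ n, Inv n (s n).1 (s n).2 := by
    intro n
    induction n with
    | zero => exact ⟨by simp, by simp⟩
    | succ n ih => rw [hs]; exact hg n (s n) ih
  have hst : ∀ n i, i < n → (s n).1 i = (s (i + 1)).1 i ∧ (s n).2 i = (s (i + 1)).2 i := by
    intro n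
    induction n with
    | zero => intro i hi; omega
    | succ n ih =>
      intro i hi
      rcases Nat.lt_succ_iff_lt_or_eq.mp hi with h | h
      · rw [hs n]
        simp only [Function.update_of_ne h.ne]
        exact ih i h
      · rw [h]; exact ⟨rfl, rfl⟩
  refine ⟨fun i => (s (i + 1)).1 i, fun i => (s (i + 1)).2 i, fun i j hij => ?_, fun i => ?_,
    fun g hg n => ?_⟩
  · have := (hinv (i + j + 1)).1 i (by omega) j (by omega) hij
    rwa [(hst _ i (by omega)).2, (hst _ j (by omega)).1] at this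
  · rcases (hinv (i + 1)).2 i (by omega) with h | h
    · exact Or.inl h.1
    · exact Or.inr h
  · have h1 := hg n
    simp only [hs n, Function.update_self] at h1
    rw [map_sub, map_sum, Finset.sum_eq_zero, sub_zero] at h1
    · exact h1
    · intro i hi
      rw [map_smul, (hst n i (Finset.mem_range.mp hi)).1, hg i, smul_zero]

lemma omega : ∃ ω : 𝕂, ω ^ 4 = 1 ∧ ‖ω‖ = 1 ∧ (∀ a : 𝕂, a ≠ 0 → ∃ j : ℕ, 0 < RCLike.re (ω ^ j * a)) ∧
    ∀ a : 𝕂, ∃ c : 𝕂, c ≠ 0 ∧ ∀ k : ℕ, 0 ≤ RCLike.re (c * (ω ^ (2 * k) * a)) := by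
  rcases RCLike.I_mul_I (K := 𝕂) with h | h
  · refine ⟨-1, by norm_num, by simp, fun a ha => ?_, fun a => ?_⟩
    · have h1 : RCLike.re a ≠ 0 := by
        intro h1
        apply ha
        rw [← RCLike.re_add_im a, h1, h]; simp
      rcases lt_or_gt_of_ne h1 with h2 | h2
      · exact ⟨1, by simpa using h2⟩
      · exact ⟨0, by simpa using h2⟩
    · rcases le_total 0 (RCLike.re a) with h2 | h2
      · exact ⟨1, one_ne_zero, fun k => by simpa [pow_mul] using h2⟩
      · exact ⟨-1, by simp, fun k => by simpa [pow_mul] using h2⟩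
  · have h2 : (RCLike.I : 𝕂) ^ 2 = -1 := by rw [sq, h]
    have h0 : (RCLike.I : 𝕂) ≠ 0 := by
      intro h0; rw [h0] at h; simp at h
    have him : RCLike.im (RCLike.I : 𝕂) = 1 := RCLike.I_eq_zero_or_im_I_eq_one.resolve_left h0
    refine ⟨RCLike.I, by rw [show 4 = 2 * 2 by rfl, pow_mul, h2]; norm_num,
      RCLike.norm_I_of_ne_zero h0, fun a ha => ?_, fun a => ?_⟩
    · by_contra hc
      push Not at hc
      have q0 := hc 0
      have q1 := hc 1
      have q2 := hc 2
      have q3 := hc 3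
      rw [show 3 = 2 + 1 by rfl, pow_succ, h2] at q3
      rw [h2] at q2
      simp [him] at q0 q1 q2 q3
      apply ha
      apply RCLike.ext <;> simp <;> linarith
    · by_cases ha : a = 0
      · exact ⟨1, one_ne_zero, fun k => by simp [ha]⟩
      · refine ⟨RCLike.I * a⁻¹, mul_ne_zero h0 (inv_ne_zero ha), fun k => ?_⟩
        have : RCLike.I * a⁻¹ * (RCLike.I ^ (2 * k) * a) = (((-1 : ℝ) ^ k : ℝ) : 𝕂) * RCLike.I := by
          rw [pow_mul, h2]
          push_cast
          field_simp
        rw [this, RCLike.re_ofReal_mul]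
        simp

theorem main [NormedSpace ℝ X] [IsScalarTower ℝ 𝕂 X] [CompleteSpace X]
    [TopologicalSpace.SeparableSpace X] [Nontrivial X] :
    ∃ S : X →L[𝕂] X, (∃ y, Dense (convexHull ℝ (Set.range fun n : ℕ => (S ^ n) y))) ∧
      ¬ ∃ y, Dense (convexHull ℝ (Set.range fun n : ℕ => ((S ^ 2) ^ n) y)) := by
  classical
  obtain ⟨x, f, h1, h2, h3⟩ := biorth (𝕂 := 𝕂) (TopologicalSpace.denseSeq X)
  have h4 : ∀ g : X →L[𝕂] 𝕂, (∀ i, g (x i) = 0) → g = 0 := by
    intro g hg
    ext z
    have := (TopologicalSpace.denseRange_denseSeq X).equalizer g.continuous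
      (continuous_const (y := (0 : 𝕂))) (funext (h3 g hg))
    exact congrFun this z
  obtain ⟨ω, w1, w2, w3, w4⟩ := omega (𝕂 := 𝕂)
  have hgeo : Summable fun n : ℕ => (1 / 2 : ℝ) ^ n := summable_geometric_two
  let A : ℕ → ℝ := fun n => 1 + ∑ m ∈ Finset.range (n + 1), ‖f m‖ * ‖x m‖
  have hA1 : ∀ n, 1 ≤ A n := fun n => by
    have : 0 ≤ ∑ m ∈ Finset.range (n + 1), ‖f m‖ * ‖x m‖ :=
      Finset.sum_nonneg fun _ _ => by positivity
    simp only [A]; linarith
  have hA2 : ∀ n, ‖f n‖ * ‖x n‖ ≤ A n := fun n => by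
    have := Finset.single_le_sum (f := fun m => ‖f m‖ * ‖x m‖) (fun _ _ => by positivity)
      (Finset.self_mem_range_succ n)
    simp only [A]; linarith
  have hA3 : ∀ n, A n ≤ A (n + 1) := fun n => by
    simp only [A]
    rw [Finset.sum_range_succ _ (n + 1)]
    have : 0 ≤ ‖f (n + 1)‖ * ‖x (n + 1)‖ := by positivity
    linarith
  let δ : ℕ → ℝ := fun n => (1 / 2 : ℝ) ^ n / A n
  have hδ0 : ∀ n, 0 < δ n := fun n => div_pos (by positivity) (by linarith [hA1 n])
  have hδ1 : StrictAnti δ := strictAnti_nat_of_succ_lt fun n => by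
    have q1 := hA1 n
    have q2 := hA3 n
    have q3 : (0 : ℝ) < (1 / 2) ^ n := by positivity
    simp only [δ]
    rw [div_lt_div_iff₀ (by linarith) (by linarith), pow_succ]
    nlinarith
  have hK : Summable fun n => ((δ n : ℝ) : 𝕂) • (f n).smulRight (x n) := by
    refine Summable.of_norm_bounded hgeo fun n => ?_
    rw [norm_smul, RCLike.norm_ofReal, abs_of_pos (hδ0 n), ContinuousLinearMap.norm_smulRight_apply]
    simp only [δ]
    rw [div_mul_eq_mul_div, div_le_iff₀ (by linarith [hA1 n])]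
    exact mul_le_mul_of_nonneg_left (hA2 n) (by positivity)
  set K := ∑' n, ((δ n : ℝ) : 𝕂) • (f n).smulRight (x n) with hKd
  have hKz : ∀ z, HasSum (fun n => ((δ n : ℝ) : 𝕂) • (f n z) • x n) (K z) := fun z =>
    (ContinuousLinearMap.apply 𝕂 X z).hasSum hK.hasSum
  let S : X →L[𝕂] X := ω • ((2 : 𝕂) • ContinuousLinearMap.id 𝕂 X + K)
  let r : ℕ → ℝ := fun n => 2 + δ n
  have hr : ∀ n, 1 < r n := fun n => by simp only [r]; linarith [hδ0 n]
  have hSx : ∀ m, S (x m) = (ω * (r m : 𝕂)) • x m := by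
    intro m
    have q1 : K (x m) = ((δ m : ℝ) : 𝕂) • x m := by
      refine (hKz _).unique ?_
      have := hasSum_single (f := fun n => ((δ n : ℝ) : 𝕂) • (f n (x m)) • x n) m (by
        intro n hn; rw [h1 n m hn]; simp)
      rcases h2 m with h | h
      · simpa [h] using this
      · simpa [h] using this
    simp only [S, r, ContinuousLinearMap.smul_apply, ContinuousLinearMap.add_apply,
      ContinuousLinearMap.id_apply, q1, ← add_smul, smul_smul]
    push_cast; rfl
  have hSxk : ∀ k m, (S ^ k) (x m) = (ω * (r m : 𝕂)) ^ k • x m := by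
    intro k m
    induction k with
    | zero => simp
    | succ k ih =>
      rw [pow_succ', ContinuousLinearMap.mul_apply, ih, map_smul, hSx, smul_smul, pow_succ]
  refine ⟨S, ?_, ?_⟩
  · let c : ℕ → ℝ := fun n => (1 / 2 : ℝ) ^ n / (‖x n‖ + 1)
    have hc0 : ∀ n, 0 < c n := fun n => by positivity
    have hc1 : ∀ n, c n * ‖x n‖ ≤ (1 / 2 : ℝ) ^ n := fun n => by
      simp only [c]
      rw [div_mul_eq_mul_div, div_le_iff₀ (by positivity)]
      exact mul_le_mul_of_nonneg_left (by linarith) (by positivity)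
    have hy : Summable fun n => ((c n : ℝ) : 𝕂) • x n := by
      refine Summable.of_norm_bounded hgeo fun n => ?_
      rw [norm_smul, RCLike.norm_ofReal, abs_of_pos (hc0 n)]
      exact hc1 n
    set y := ∑' n, ((c n : ℝ) : 𝕂) • x n with hyd
    refine ⟨y, ?_⟩
    by_contra hc
    obtain ⟨z, hz⟩ := not_forall.mp hc
    obtain ⟨g, u, hg1, hg2⟩ := RCLike.geometric_hahn_banach_closed_point (𝕜 := 𝕂)
      (convex_convexHull ℝ _).closure isClosed_closure hz
    have hg3 : ∀ k : ℕ, RCLike.re (g ((S ^ k) y)) < u := fun k =>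
      hg1 _ (subset_closure (subset_convexHull ℝ _ ⟨k, rfl⟩))
    have hg0 : ∃ i, g (x i) ≠ 0 := by
      by_contra h
      push Not at h
      have q := h4 g h
      have q1 := hg3 0
      rw [q] at q1 hg2
      simp at q1 hg2
      linarith
    let n0 := Nat.find hg0
    have hn0 : g (x n0) ≠ 0 := Nat.find_spec hg0
    have hn1 : ∀ i < n0, g (x i) = 0 := fun i hi => by simpa using Nat.find_min hg0 hi
    obtain ⟨j, hj⟩ := w3 _ hn0
    have hb : ∀ k : ℕ, ‖g ((S ^ k) y) - (c n0 : 𝕂) * ((ω * (r n0 : 𝕂)) ^ k * g (x n0))‖ ≤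
        r (n0 + 1) ^ k * ‖g‖ * 2 := by
      intro k
      have q1 : HasSum (fun n => (c n : 𝕂) * ((ω * (r n : 𝕂)) ^ k * g (x n))) (g ((S ^ k) y)) := by
        have := (g.comp (S ^ k)).hasSum hy.hasSum
        simp only [ContinuousLinearMap.comp_apply, map_smul, hSxk, smul_eq_mul] at this
        exact this
      refine (hasSum_ite_sub_hasSum q1 n0).norm_le_of_bounded
        (hasSum_geometric_two.mul_left (r (n0 + 1) ^ k * ‖g‖)) fun n => ?_
      have q0 : 0 < r (n0 + 1) := by linarith [hr (n0 + 1)]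
      split_ifs with h
      · rw [norm_zero]; positivity
      · rcases lt_or_gt_of_ne h with h | h
        · rw [hn1 n h]; simp; positivity
        · have q2 : r n ≤ r (n0 + 1) := by
            simp only [r]; linarith [hδ1.antitone (show n0 + 1 ≤ n from h)]
          have q3 : 0 < r n := by linarith [hr n]
          rw [norm_mul, norm_mul, norm_pow, norm_mul, w2, one_mul, RCLike.norm_ofReal,
            RCLike.norm_ofReal, abs_of_pos (hc0 n), abs_of_pos q3]
          have q4 : r n ^ k ≤ r (n0 + 1) ^ k := pow_le_pow_left₀ q3.le q2 k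
          have q5 := g.le_opNorm (x n)
          calc c n * (r n ^ k * ‖g (x n)‖) ≤ c n * (r (n0 + 1) ^ k * (‖g‖ * ‖x n‖)) := by
                have := (hc0 n).le
                gcongr
            _ = r (n0 + 1) ^ k * ‖g‖ * (c n * ‖x n‖) := by ring
            _ ≤ _ := mul_le_mul_of_nonneg_left (hc1 n) (by positivity)
    have q0 : 0 < r n0 := by linarith [hr n0]
    have q1 : 0 < r (n0 + 1) := by linarith [hr (n0 + 1)]
    have q2 : r (n0 + 1) / r n0 < 1 := by
      rw [div_lt_one q0]; simp only [r]; linarith [hδ1 (show n0 < n0 + 1 by omega)]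
    set p := RCLike.re (ω ^ j * g (x n0)) with hp
    have t1 : Tendsto (fun k : ℕ => r n0 ^ k *
        (c n0 * p - (r (n0 + 1) / r n0) ^ k * (‖g‖ * 2))) atTop atTop := by
      refine (tendsto_pow_atTop_atTop_of_one_lt (hr n0)).atTop_mul_pos (C := c n0 * p)
        (mul_pos (hc0 n0) hj) ?_
      have := ((tendsto_pow_atTop_nhds_zero_of_lt_one (by positivity) q2).mul_const
        (‖g‖ * 2)).const_sub (c n0 * p)
      simpa using this
    obtain ⟨k0, hk0⟩ := eventually_atTop.mp (t1.eventually_ge_atTop u)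
    have t2 := hk0 (4 * k0 + j) (by omega)
    have t3 := hb (4 * k0 + j)
    have t4 := hg3 (4 * k0 + j)
    set k := 4 * k0 + j with hk
    have t5 : RCLike.re ((c n0 : 𝕂) * ((ω * (r n0 : 𝕂)) ^ k * g (x n0))) = c n0 * (r n0 ^ k * p) := by
      have : (ω * (r n0 : 𝕂)) ^ k * g (x n0) = ((r n0 ^ k : ℝ) : 𝕂) * (ω ^ j * g (x n0)) := by
        rw [mul_pow, hk, pow_add ω, pow_mul, w1]
        push_cast
        ring
      rw [this, RCLike.re_ofReal_mul, RCLike.re_ofReal_mul]
    have t6 := (abs_le.mp ((RCLike.abs_re_le_norm _).trans t3)).1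
    rw [map_sub, t5] at t6
    have t7 : r n0 ^ k * (c n0 * p - (r (n0 + 1) / r n0) ^ k * (‖g‖ * 2)) =
        c n0 * (r n0 ^ k * p) - r (n0 + 1) ^ k * ‖g‖ * 2 := by
      rw [div_pow]; field_simp
    linarith
  · rintro ⟨y, hy⟩
    obtain ⟨m, hm⟩ : ∃ m, f m (x m) = 1 := by
      by_contra h
      push Not at h
      obtain ⟨v, hv⟩ := exists_ne (0 : X)
      obtain ⟨g, -, hg⟩ := exists_dual_vector 𝕂 v (norm_ne_zero_iff.mpr hv)
      rw [h4 g (fun i => by rw [(h2 i).resolve_right (h i), map_zero])] at hg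
      simp at hg
      exact hv (by exact_mod_cast norm_eq_zero.mp (by exact_mod_cast hg.symm))
    have q1 : ∀ z, f m (S z) = (ω * (r m : 𝕂)) * f m z := by
      intro z
      have q1 : f m (K z) = ((δ m : ℝ) : 𝕂) * f m z := by
        refine ((f m).hasSum (hKz z)).unique ?_
        have := hasSum_single (f := fun n => f m (((δ n : ℝ) : 𝕂) • (f n z) • x n)) m (by
          intro n hn; simp [h1 m n (Ne.symm hn)])
        convert this using 1
        rw [map_smul, map_smul, hm, smul_eq_mul, smul_eq_mul, mul_one]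
      simp only [S, r, ContinuousLinearMap.smul_apply, ContinuousLinearMap.add_apply,
        ContinuousLinearMap.id_apply, map_smul, map_add, q1, smul_eq_mul]
      push_cast; ring
    have q2 : ∀ (k : ℕ) z, f m ((S ^ k) z) = (ω * (r m : 𝕂)) ^ k * f m z := by
      intro k z
      induction k with
      | zero => simp
      | succ k ih => rw [pow_succ', ContinuousLinearMap.mul_apply, q1, ih]; ring
    obtain ⟨c, hc0, hc⟩ := w4 (f m y)
    have hH : Convex ℝ {w : X | 0 ≤ RCLike.re (c * f m w)} := by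
      intro a ha b hb s t hs ht _
      simp only [Set.mem_ofPred_eq] at ha hb ⊢
      rw [map_add, (f m).map_smul_of_tower, (f m).map_smul_of_tower, mul_add, mul_smul_comm,
        mul_smul_comm, map_add, RCLike.smul_re, RCLike.smul_re]
      positivity
    have hcl : IsClosed {w : X | 0 ≤ RCLike.re (c * f m w)} :=
      isClosed_le continuous_const (RCLike.continuous_re.comp (continuous_const.mul (f m).continuous))
    have hsub : convexHull ℝ (Set.range fun n : ℕ => ((S ^ 2) ^ n) y) ⊆
        {w : X | 0 ≤ RCLike.re (c * f m w)} := by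
      refine convexHull_min ?_ hH
      rintro _ ⟨k, rfl⟩
      simp only [Set.mem_ofPred_eq]
      rw [← pow_mul, q2]
      have : c * ((ω * (r m : 𝕂)) ^ (2 * k) * f m y) =
          ((r m ^ (2 * k) : ℝ) : 𝕂) * (c * (ω ^ (2 * k) * f m y)) := by
        rw [mul_pow]; push_cast; ring
      rw [this, RCLike.re_ofReal_mul]
      exact mul_nonneg (pow_nonneg (by linarith [hr m]) _) (hc k)
    have := closure_minimal hsub hcl (hy ((-c⁻¹) • x m))
    simp only [Set.mem_ofPred_eq, map_smul, hm, smul_eq_mul, mul_one, mul_neg,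
      mul_inv_cancel₀ hc0, map_neg, RCLike.one_re] at this
    linarith

end Pool.Agent.H94.ConvCyc
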