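import Mathlib

set_option autoImplicit false
open Filter Topology

namespace Pool.Agent.H94.Dust

noncomputable def cc (ε : ℕ → Bool) : ℝ :=
  ∑' m : ℕ, (if ε m then (3/4 : ℝ) * (1/4 : ℝ) ^ m else 0)

lemma geo : HasSum (fun m : ℕ => (3/4 : ℝ) * (1/4 : ℝ) ^ m) 1 := by
  have := (hasSum_geometric_of_lt_one (r := (1/4 : ℝ)) (by norm_num) (by norm_num)).mul_left (3/4)
  have e : (3/4 : ℝ) * (1 - 1/4)⁻¹ = 1 := by norm_num
  rwa [e] at this

lemma term_nonneg (ε : ℕ → Bool) (m : ℕ) :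
    0 ≤ (if ε m then (3/4 : ℝ) * (1/4 : ℝ) ^ m else 0) := by
  split_ifs <;> positivity

lemma term_le (ε : ℕ → Bool) (m : ℕ) :
    (if ε m then (3/4 : ℝ) * (1/4 : ℝ) ^ m else 0) ≤ (3/4 : ℝ) * (1/4 : ℝ) ^ m := by
  split_ifs
  · exact le_rfl
  · positivity

lemma cc_summable (ε : ℕ → Bool) :
    Summable fun m : ℕ => (if ε m then (3/4 : ℝ) * (1/4 : ℝ) ^ m else 0) :=
  Summable.of_nonneg_of_le (term_nonneg ε) (term_le ε) geo.summable

lemma cc_nonneg (ε : ℕ → Bool) : 0 ≤ cc ε := tsum_nonneg (term_nonneg ε)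

lemma cc_le (ε : ℕ → Bool) : cc ε ≤ 1 := by
  rw [← geo.tsum_eq]
  exact (cc_summable ε).tsum_le_tsum (term_le ε) geo.summable

lemma cc_succ (ε : ℕ → Bool) :
    cc ε = (if ε 0 then 3/4 else 0) + 1/4 * cc (fun m => ε (m + 1)) := by
  unfold cc
  rw [(cc_summable ε).tsum_eq_zero_add, ← tsum_mul_left]
  congr 1
  · simp
  · refine tsum_congr fun m => ?_
    split_ifs
    · ring
    · simp

def K (α s : ℝ) : Set ℝ := {lam | ∃ ε : ℕ → Bool, lam = α + s * cc ε}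

lemma K_ge {α s lam : ℝ} (hs : 0 ≤ s) (h : lam ∈ K α s) : α ≤ lam := by
  obtain ⟨ε, rfl⟩ := h
  have := mul_nonneg hs (cc_nonneg ε)
  linarith

lemma K_le {α s lam : ℝ} (hs : 0 ≤ s) (h : lam ∈ K α s) : lam ≤ α + s := by
  obtain ⟨ε, rfl⟩ := h
  have := mul_le_mul_of_nonneg_left (cc_le ε) hs
  linarith

lemma K_split {α s lam : ℝ} (h : lam ∈ K α s) :
    lam ∈ K α (s / 4) ∨ lam ∈ K (α + 3 / 4 * s) (s / 4) := by
  obtain ⟨ε, rfl⟩ := h
  rw [cc_succ]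
  split_ifs
  · right; exact ⟨_, by ring⟩
  · left; exact ⟨_, by ring⟩

structure Par where
  a : ℝ
  N : ℕ
  N1 : ℕ
  M : ℝ
  η : ℝ
  τ : ℝ
  u : ℕ → ℂ
  v : ℕ → ℂ
  ha : 0 < a
  hM : 0 ≤ M
  hτ : 0 < τ
  hη : 0 ≤ η
  hτη : (Real.exp τ - 1) * M ≤ η
  hN1 : M * Real.exp (-(N1 * a)) ≤ η
  hu : ∀ i, ‖u i‖ ≤ M
  hv : ∀ i, ‖v i‖ ≤ M
  hu0 : ∀ i, N ≤ i → u i = 0
  hv0 : ∀ i, N ≤ i → v i = 0

def Supp (x : ℕ → ℂ) (m e : ℕ) : Prop := ∀ n, n < m ∨ e ≤ n → x n = 0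

variable (P : Par)

def Size (x : ℕ → ℂ) (α : ℝ) : Prop := ∀ n : ℕ, ‖x n‖ ≤ P.M * Real.exp (-(((n : ℝ) - P.N) * α))

def App (x u : ℕ → ℂ) (lam : ℝ) (k : ℕ) : Prop :=
  ∀ i, ‖((Real.exp ((k : ℝ) * lam) : ℝ) : ℂ) * x (i + k) - u i‖ ≤ P.η

noncomputable def g (s : ℝ) (e : ℕ) : ℕ := e + P.N + P.N1 + ⌈(e : ℝ) * s / P.a⌉₊

def G (S : Set (ℝ × ℝ)) (α β : ℝ) (m e : ℕ) : Prop :=
  ∃ x y : ℕ → ℂ, Supp x m e ∧ Supp y m e ∧ Size P x α ∧ Size P y β ∧
    ∀ w ∈ S, ∃ k, m ≤ k ∧ k ≤ e ∧ App P x P.u w.1 k ∧ App P y P.v w.2 k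

variable {P}

lemma supp_add {x y : ℕ → ℂ} {m1 e1 m2 e2 : ℕ} (hx : Supp x m1 e1) (hy : Supp y m2 e2)
    (h1 : m1 ≤ m2) (h2 : e1 ≤ e2) : Supp (x + y) m1 e2 := by
  intro n hn
  rw [Pi.add_apply, hx n (by omega), hy n (by omega), add_zero]

lemma size_add {x y : ℕ → ℂ} {m1 e1 m2 e2 : ℕ} {α : ℝ} (hx : Supp x m1 e1) (hy : Supp y m2 e2)
    (h : e1 ≤ m2) (sx : Size P x α) (sy : Size P y α) : Size P (x + y) α := by
  intro n
  rw [Pi.add_apply]
  by_cases hn : n < m2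
  · rw [hy n (Or.inl hn), add_zero]; exact sx n
  · rw [hx n (Or.inr (by omega)), zero_add]; exact sy n

lemma size_mono {x : ℕ → ℂ} {m e : ℕ} {α α' : ℝ} (hx : Supp x m e) (hm : P.N ≤ m) (h : α ≤ α')
    (sx : Size P x α') : Size P x α := by
  intro n
  by_cases hn : n < m
  · rw [hx n (Or.inl hn), norm_zero]
    exact mul_nonneg P.hM (Real.exp_pos _).le
  · refine (sx n).trans (mul_le_mul_of_nonneg_left (Real.exp_le_exp.mpr ?_) P.hM)
    have : (P.N : ℝ) ≤ n := by exact_mod_cast (by omega : P.N ≤ n)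
    nlinarith

lemma app_right {x y u : ℕ → ℂ} {m1 e1 k : ℕ} {lam : ℝ} (hx : Supp x m1 e1) (hk : e1 ≤ k)
    (h : App P y u lam k) : App P (x + y) u lam k := by
  intro i
  rw [Pi.add_apply, hx _ (Or.inr (by omega)), zero_add]
  exact h i

lemma app_left {x y u : ℕ → ℂ} {m1 e1 m2 e2 k : ℕ} {lam α s : ℝ} (hx : Supp x m1 e1)
    (hy : Supp y m2 e2) (sy : Size P y α) (hu : ∀ i, P.N ≤ i → u i = 0) (hk : k ≤ e1)
    (hα : P.a ≤ α) (hs : 0 ≤ s) (hlam : lam ≤ α + s) (hg : g P s e1 ≤ m2)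
    (h : App P x u lam k) : App P (x + y) u lam k := by
  intro i
  rw [Pi.add_apply]
  unfold g at hg
  by_cases hn : i + k < m2
  · rw [hy _ (Or.inl hn), add_zero]; exact h i
  · rw [hx _ (Or.inr (by omega)), zero_add, hu i (by omega), sub_zero, norm_mul, Complex.norm_real,
      Real.norm_eq_abs, abs_of_pos (Real.exp_pos _)]
    refine le_trans ?_ P.hN1
    refine (mul_le_mul_of_nonneg_left (sy _) (Real.exp_pos _).le).trans ?_
    rw [mul_left_comm, ← Real.exp_add]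
    refine mul_le_mul_of_nonneg_left (Real.exp_le_exp.mpr ?_) P.hM
    have ha := P.ha
    have h1 : (e1 : ℝ) + P.N + P.N1 + ⌈(e1 : ℝ) * s / P.a⌉₊ ≤ ((i + k : ℕ) : ℝ) := by
      exact_mod_cast (by omega : e1 + P.N + P.N1 + ⌈(e1 : ℝ) * s / P.a⌉₊ ≤ i + k)
    have h2 := Nat.le_ceil ((e1 : ℝ) * s / P.a)
    have h3 : (k : ℝ) ≤ e1 := by exact_mod_cast hk
    have h4 : (0 : ℝ) ≤ k := Nat.cast_nonneg k
    have h5 : (k : ℝ) * lam ≤ e1 * (α + s) :=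
      (mul_le_mul_of_nonneg_left hlam h4).trans (mul_le_mul_of_nonneg_right h3 (by linarith))
    have h6 : ((e1 : ℝ) + P.N1 + ⌈(e1 : ℝ) * s / P.a⌉₊) * α ≤ (((i + k : ℕ) : ℝ) - P.N) * α :=
      mul_le_mul_of_nonneg_right (by linarith) (by linarith)
    have h7 : (e1 : ℝ) * s ≤ ⌈(e1 : ℝ) * s / P.a⌉₊ * α := by
      rw [div_le_iff₀ ha] at h2
      exact h2.trans (mul_le_mul_of_nonneg_left hα (Nat.cast_nonneg _))
    have h8 : (P.N1 : ℝ) * P.a ≤ P.N1 * α := mul_le_mul_of_nonneg_left hα (Nat.cast_nonneg _)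
    nlinarith

lemma G_concat {S1 S2 : Set (ℝ × ℝ)} {α β s : ℝ} {m1 e1 m2 e2 : ℕ} (hα : P.a ≤ α) (hβ : P.a ≤ β)
    (hs : 0 ≤ s) (hS : ∀ w ∈ S1, w.1 ≤ α + s ∧ w.2 ≤ β + s) (h1 : m1 ≤ e1) (h2 : m2 ≤ e2)
    (hg : g P s e1 ≤ m2) (G1 : G P S1 α β m1 e1) (G2 : G P S2 α β m2 e2) :
    G P (S1 ∪ S2) α β m1 e2 := by
  obtain ⟨x1, y1, a1, b1, c1, d1, f1⟩ := G1
  obtain ⟨x2, y2, a2, b2, c2, d2, f2⟩ := G2
  have h3 : e1 ≤ m2 := by unfold g at hg; omega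
  refine ⟨x1 + x2, y1 + y2, supp_add a1 a2 (by omega) (by omega),
    supp_add b1 b2 (by omega) (by omega), size_add a1 a2 h3 c1 c2, size_add b1 b2 h3 d1 d2, ?_⟩
  rintro w (hw | hw)
  · obtain ⟨k, k1, k2, k3, k4⟩ := f1 w hw
    exact ⟨k, k1, by omega, app_left a1 a2 c2 P.hu0 k2 hα hs (hS w hw).1 hg k3,
      app_left b1 b2 d2 P.hv0 k2 hβ hs (hS w hw).2 hg k4⟩
  · obtain ⟨k, k1, k2, k3, k4⟩ := f2 w hw
    exact ⟨k, by omega, k2, app_right a1 (by omega) k3, app_right b1 (by omega) k4⟩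

lemma G_mono {S S' : Set (ℝ × ℝ)} {α β α' β' : ℝ} {m e : ℕ} (hS : S ⊆ S') (hα : α ≤ α')
    (hβ : β ≤ β') (hm : P.N ≤ m) (h : G P S' α' β' m e) : G P S α β m e := by
  obtain ⟨x, y, a, b, c, d, f⟩ := h
  exact ⟨x, y, a, b, size_mono a hm hα c, size_mono b hm hβ d, fun w hw => f w (hS hw)⟩

lemma base1 (u : ℕ → ℂ) (hu : ∀ i, ‖u i‖ ≤ P.M) (hu0 : ∀ i, P.N ≤ i → u i = 0) (α s : ℝ)
    (hα : 0 ≤ α) (hs : 0 ≤ s) (m : ℕ) (hm : m * s ≤ P.τ) :
    ∃ x : ℕ → ℂ, Supp x m (m + P.N) ∧ Size P x α ∧ ∀ lam ∈ K α s, App P x u lam m := by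
  refine ⟨fun n => if n < m then 0 else ((Real.exp (-(m * α)) : ℝ) : ℂ) * u (n - m), ?_, ?_, ?_⟩
  · intro n hn
    simp only
    split_ifs with h
    · rfl
    · rw [hu0 _ (by omega), mul_zero]
  · intro n
    simp only
    split_ifs with h
    · rw [norm_zero]; exact mul_nonneg P.hM (Real.exp_pos _).le
    · by_cases h2 : m + P.N ≤ n
      · rw [hu0 _ (by omega), mul_zero, norm_zero]; exact mul_nonneg P.hM (Real.exp_pos _).le
      · rw [norm_mul, Complex.norm_real, Real.norm_eq_abs, abs_of_pos (Real.exp_pos _), mul_comm]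
        refine mul_le_mul (hu _) (Real.exp_le_exp.mpr ?_) (Real.exp_pos _).le P.hM
        have : (n : ℝ) ≤ m + P.N := by exact_mod_cast (by omega : n ≤ m + P.N)
        nlinarith
  · intro lam hlam i
    have h1 := K_ge hs hlam
    have h2 := K_le hs hlam
    simp only [show ¬ (i + m < m) by omega, if_false, Nat.add_sub_cancel]
    have e : ((Real.exp ((m : ℝ) * lam) : ℝ) : ℂ) * (((Real.exp (-(m * α)) : ℝ) : ℂ) * u i) - u i =
        ((Real.exp (m * (lam - α)) - 1 : ℝ) : ℂ) * u i := by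
      rw [← mul_assoc, ← Complex.ofReal_mul, ← Real.exp_add]
      have : (m : ℝ) * lam + -(m * α) = m * (lam - α) := by ring
      rw [this]
      push_cast
      ring
    have h4 : (0 : ℝ) ≤ m := Nat.cast_nonneg m
    have h3 : 0 ≤ Real.exp (m * (lam - α)) - 1 := by
      have := Real.one_le_exp (mul_nonneg h4 (sub_nonneg.mpr h1))
      linarith
    rw [e, norm_mul, Complex.norm_real, Real.norm_eq_abs, abs_of_nonneg h3]
    refine le_trans (mul_le_mul ?_ (hu i) (norm_nonneg _) ?_) P.hτη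
    · have : (m : ℝ) * (lam - α) ≤ P.τ := by nlinarith
      have := Real.exp_le_exp.mpr this
      linarith
    · have := Real.one_le_exp P.hτ.le
      linarith

lemma base (α β s : ℝ) (hα : P.a ≤ α) (hβ : P.a ≤ β) (hs : 0 ≤ s) (m : ℕ) (hm : m * s ≤ P.τ) :
    G P (K α s ×ˢ K β s) α β m (m + P.N) := by
  have ha := P.ha
  obtain ⟨x, a, b, c⟩ := base1 P.u P.hu P.hu0 α s (by linarith) hs m hm
  obtain ⟨y, a', b', c'⟩ := base1 P.v P.hv P.hv0 β s (by linarith) hs m hm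
  exact ⟨x, y, a, a', b, b', fun w hw => ⟨m, le_rfl, by omega, c _ hw.1, c' _ hw.2⟩⟩

lemma four (s : ℝ) (hs : 0 ≤ s) (Pre Post : ℕ → ℕ → Prop)
    (hchild : ∀ i < 4, ∀ (α β : ℝ) (m : ℕ), P.a ≤ α → P.a ≤ β → P.N ≤ m → Pre i m →
      ∃ e, m ≤ e ∧ Post i e ∧ G P (K α (s / 4) ×ˢ K β (s / 4)) α β m e)
    (hstep : ∀ i < 3, ∀ e, Post i e → Pre (i + 1) (g P s e))
    (α β : ℝ) (m : ℕ) (hα : P.a ≤ α) (hβ : P.a ≤ β) (hm : P.N ≤ m) (h0 : Pre 0 m) :
    ∃ e, m ≤ e ∧ Post 3 e ∧ G P (K α s ×ˢ K β s) α β m e := by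
  have hg : ∀ e, e ≤ g P s e ∧ P.N ≤ g P s e := fun e => by unfold g; omega
  have hα' : α ≤ α + 3 / 4 * s := by linarith
  have hβ' : β ≤ β + 3 / 4 * s := by linarith
  have hs4 : 0 ≤ s / 4 := by linarith
  obtain ⟨e0, l0, p0, G0⟩ := hchild 0 (by norm_num) α β m hα hβ hm h0
  obtain ⟨e1, l1, p1, G1⟩ := hchild 1 (by norm_num) α _ _ hα (hβ.trans hβ') (hg e0).2
    (hstep 0 (by norm_num) _ p0)
  obtain ⟨e2, l2, p2, G2⟩ := hchild 2 (by norm_num) _ β _ (hα.trans hα') hβ (hg e1).2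
    (hstep 1 (by norm_num) _ p1)
  obtain ⟨e3, l3, p3, G3⟩ := hchild 3 (by norm_num) _ _ _ (hα.trans hα') (hβ.trans hβ') (hg e2).2
    (hstep 2 (by norm_num) _ p2)
  have q0 := (hg e0).1
  have q1 := (hg e1).1
  have q2 := (hg e2).1
  replace G1 := G_mono subset_rfl le_rfl hβ' (hg e0).2 G1
  replace G2 := G_mono subset_rfl hα' le_rfl (hg e1).2 G2
  replace G3 := G_mono subset_rfl hα' hβ' (hg e2).2 G3
  have H23 := G_concat hα hβ hs (fun w hw => ⟨by linarith [K_le hs4 hw.1], by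
    linarith [K_le hs4 hw.2]⟩) l2 l3 le_rfl G2 G3
  have H123 := G_concat hα hβ hs (fun w hw => ⟨by linarith [K_le hs4 hw.1], by
    linarith [K_le hs4 hw.2]⟩) l1 (by omega) le_rfl G1 H23
  have H := G_concat hα hβ hs (fun w hw => ⟨by linarith [K_le hs4 hw.1], by
    linarith [K_le hs4 hw.2]⟩) l0 (by omega) le_rfl G0 H123
  refine ⟨e3, by omega, p3, G_mono ?_ le_rfl le_rfl hm H⟩
  rintro ⟨lam, mu⟩ ⟨h1, h2⟩
  rcases K_split h1 with h1 | h1 <;> rcases K_split h2 with h2 | h2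
  · exact Or.inl ⟨h1, h2⟩
  · exact Or.inr (Or.inl ⟨h1, h2⟩)
  · exact Or.inr (Or.inr (Or.inl ⟨h1, h2⟩))
  · exact Or.inr (Or.inr (Or.inr ⟨h1, h2⟩))

variable (P) in
def D : ℝ := P.N + P.N1 + 1

lemma D_pos : 1 ≤ D P := by
  unfold D
  have : (0 : ℝ) ≤ P.N := Nat.cast_nonneg _
  have : (0 : ℝ) ≤ P.N1 := Nat.cast_nonneg _
  linarith

lemma g_le (s : ℝ) (hs : 0 ≤ s) (e : ℕ) : (g P s e : ℝ) ≤ e * (1 + s / P.a) + D P := by
  have ha := P.ha
  have := Nat.ceil_lt_add_one (show 0 ≤ (e : ℝ) * s / P.a by positivity)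
  unfold g D
  push_cast
  have e1 : (e : ℝ) * (1 + s / P.a) = e + e * s / P.a := by ring
  linarith

lemma uniform (p : ℕ) : ∀ (s : ℝ), 0 ≤ s → ∀ (α β : ℝ) (m : ℕ) (R : ℝ), P.a ≤ α → P.a ≤ β →
    P.N ≤ m → (m : ℝ) ≤ R →
    (R + D P * (2 * 4 ^ p - 1)) * Real.exp (3 * p * s / P.a) * s ≤ P.τ * 4 ^ p →
    ∃ e, m ≤ e ∧ (e : ℝ) ≤ (R + D P * (2 * 4 ^ p - 1)) * Real.exp (3 * p * s / P.a) ∧
      G P (K α s ×ˢ K β s) α β m e := by
  have hD := D_pos (P := P)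
  have ha := P.ha
  induction p with
  | zero =>
    intro s hs α β m R hα hβ hm hR h
    simp only [pow_zero, Nat.cast_zero, mul_zero, zero_mul, zero_div, Real.exp_zero,
      mul_one] at h ⊢
    refine ⟨m + P.N, by omega, ?_, base α β s hα hβ hs m (by nlinarith)⟩
    unfold D
    have : (0 : ℝ) ≤ P.N1 := Nat.cast_nonneg _
    push_cast
    linarith
  | succ p ih =>
    intro s hs α β m R hα hβ hm hR h
    have hR0 : 0 ≤ R := le_trans (Nat.cast_nonneg m) hR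
    set A : ℝ := 2 * 4 ^ p - 1 with hA
    have hA0 : 0 ≤ A := by
      have : (1 : ℝ) ≤ 4 ^ p := one_le_pow₀ (by norm_num)
      linarith
    set e1 := Real.exp (3 * p * (s / 4) / P.a) with he1
    set e2 := Real.exp (s / P.a) with he2
    have h1 : 1 ≤ e1 := Real.one_le_exp (by positivity)
    have h2 : 1 ≤ e2 := Real.one_le_exp (by positivity)
    have h3 : 1 + s / P.a ≤ e2 := by rw [add_comm]; exact Real.add_one_le_exp _
    have h4 : Real.exp (3 * ((p + 1 : ℕ) : ℝ) * s / P.a) = e1 ^ 4 * e2 ^ 3 := by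
      rw [he1, he2, ← Real.exp_nat_mul, ← Real.exp_nat_mul, ← Real.exp_add]
      congr 1
      push_cast
      ring
    have h5 : (2 * 4 ^ (p + 1) - 1 : ℝ) = 3 * (A + 1) + A := by rw [hA]; ring
    rw [h4, h5] at h ⊢
    have hb : ∀ i : ℕ, ((R + D P * (i * (A + 1))) * (e1 * e2) ^ i + D P * A) * e1 ≤
        (R + D P * (i * (A + 1) + A)) * (e1 ^ (i + 1) * e2 ^ i) := by
      intro i
      have q1 : 1 ≤ (e1 * e2) ^ i := one_le_pow₀ (by nlinarith)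
      have q2 : D P * A ≤ D P * A * (e1 * e2) ^ i := le_mul_of_one_le_right (by positivity) q1
      have q3 : (R + D P * (i * (A + 1) + A)) * (e1 ^ (i + 1) * e2 ^ i) =
          ((R + D P * (i * (A + 1))) * (e1 * e2) ^ i + D P * A * (e1 * e2) ^ i) * e1 := by
        rw [mul_pow]; ring
      rw [q3]
      exact mul_le_mul_of_nonneg_right (by linarith) (by linarith)
    have hc : ∀ i : ℕ, i < 4 → (R + D P * (i * (A + 1) + A)) * (e1 ^ (i + 1) * e2 ^ i) ≤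
        (R + D P * (3 * (A + 1) + A)) * (e1 ^ 4 * e2 ^ 3) := by
      intro i hi
      have q1 : (i : ℝ) ≤ 3 := by exact_mod_cast (by omega : i ≤ 3)
      have q2 : e1 ^ (i + 1) ≤ e1 ^ 4 := pow_le_pow_right₀ h1 (by omega)
      have q3 : e2 ^ i ≤ e2 ^ 3 := pow_le_pow_right₀ h2 (by omega)
      gcongr
    have := four (P := P) s hs
      (fun i n => (n : ℝ) ≤ (R + D P * (i * (A + 1))) * (e1 * e2) ^ i)
      (fun i n => (n : ℝ) ≤ (R + D P * (i * (A + 1) + A)) * (e1 ^ (i + 1) * e2 ^ i))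
      (fun i hi α' β' n hα' hβ' hn hpre => by
        obtain ⟨e, q1, q2, q3⟩ := ih (s / 4) (by linarith) α' β' n _ hα' hβ' hn hpre (by
          have q4 := mul_le_mul_of_nonneg_right ((hb i).trans (hc i hi)) hs
          have q5 : P.τ * 4 ^ (p + 1) = 4 * (P.τ * 4 ^ p) := by ring
          linarith)
        exact ⟨e, q1, q2.trans (hb i), q3⟩)
      (fun i _ e he => by
        refine (g_le s hs e).trans ?_
        have q1 : (e : ℝ) * (1 + s / P.a) ≤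
            (R + D P * (i * (A + 1) + A)) * (e1 ^ (i + 1) * e2 ^ i) * e2 :=
          mul_le_mul he h3 (by positivity) (by positivity)
        have q2 : 1 ≤ (e1 * e2) ^ (i + 1) := one_le_pow₀ (by nlinarith)
        have q3 : D P ≤ D P * (e1 * e2) ^ (i + 1) := le_mul_of_one_le_right (by positivity) q2
        have q4 : (R + D P * (((i + 1 : ℕ) : ℝ) * (A + 1))) * (e1 * e2) ^ (i + 1) =
            (R + D P * (i * (A + 1) + A)) * (e1 ^ (i + 1) * e2 ^ i) * e2 +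
              D P * (e1 * e2) ^ (i + 1) := by
          push_cast
          rw [mul_pow]; ring
        rw [q4]
        linarith) α β m hα hβ hm (by simpa using hR)
    simpa using this

lemma second (s0 : ℝ) (hs0 : 0 ≤ s0) (J : ℕ) (hJ : 3 * Real.exp (3 * J * s0 / P.a) ≤ 64)
    (hτ : 64 * D P * s0 ≤ P.τ) (q : ℕ) : 4 ^ q * s0 ≤ P.a → ∀ (α β : ℝ) (m j : ℕ),
    P.a ≤ α → P.a ≤ β → P.N ≤ m → (m : ℝ) ≤ 4 ^ j * D P → j + 4 * 4 ^ q ≤ J + 1 →
    ∃ e, m ≤ e ∧ (e : ℝ) ≤ 4 ^ (j + (4 * 4 ^ q - 1)) * D P ∧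
      G P (K α (4 ^ q * s0) ×ˢ K β (4 ^ q * s0)) α β m e := by
  have hD := D_pos (P := P)
  have ha := P.ha
  induction q with
  | zero =>
    intro _ α β m j hα hβ hm hR hj
    have h1 : Real.exp (3 * j * s0 / P.a) ≤ Real.exp (3 * J * s0 / P.a) := by
      have : (j : ℝ) ≤ J := by exact_mod_cast (by omega : j ≤ J)
      gcongr
    have h2 : (4 ^ j * D P + D P * (2 * 4 ^ j - 1)) * Real.exp (3 * j * s0 / P.a) ≤
        64 * (4 ^ j * D P) := by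
      have q1 : 4 ^ j * D P + D P * (2 * 4 ^ j - 1) ≤ 3 * (4 ^ j * D P) := by nlinarith
      have q2 : (0 : ℝ) ≤ 4 ^ j * D P := by positivity
      calc _ ≤ 3 * (4 ^ j * D P) * Real.exp (3 * J * s0 / P.a) :=
            mul_le_mul q1 h1 (Real.exp_pos _).le (by positivity)
        _ = (3 * Real.exp (3 * J * s0 / P.a)) * (4 ^ j * D P) := by ring
        _ ≤ _ := mul_le_mul_of_nonneg_right hJ q2
    obtain ⟨e, q1, q2, q3⟩ := uniform j s0 hs0 α β m _ hα hβ hm hR (by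
      have q4 := mul_le_mul_of_nonneg_right h2 hs0
      have q5 := mul_le_mul_of_nonneg_right hτ (show (0 : ℝ) ≤ 4 ^ j by positivity)
      nlinarith)
    refine ⟨e, q1, q2.trans (h2.trans (le_of_eq ?_)), by simpa using q3⟩
    simp only [pow_zero, mul_one, pow_add]
    ring
  | succ q ih =>
    intro hq α β m j hα hβ hm hR hj
    have e0 : (4 : ℝ) ^ (q + 1) * s0 / 4 = 4 ^ q * s0 := by ring
    have hq' : 4 ^ q * s0 ≤ P.a := by
      have : (0 : ℝ) ≤ 4 ^ q * s0 := by positivity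
      rw [pow_succ] at hq
      linarith
    have hp : 0 < 4 ^ q := by positivity
    have := four (P := P) (4 ^ (q + 1) * s0) (by positivity)
      (fun i n => (n : ℝ) ≤ 4 ^ (j + i * (4 * 4 ^ q)) * D P)
      (fun i n => (n : ℝ) ≤ 4 ^ (j + i * (4 * 4 ^ q) + (4 * 4 ^ q - 1)) * D P)
      (fun i hi α' β' n hα' hβ' hn hpre => by
        rw [e0]
        refine ih hq' α' β' n _ hα' hβ' hn hpre ?_
        have : i * (4 * 4 ^ q) ≤ 3 * (4 * 4 ^ q) := Nat.mul_le_mul_right _ (by omega)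
        rw [pow_succ] at hj
        omega)
      (fun i _ e he => by
        refine (g_le _ (by positivity) e).trans ?_
        have q1 : 4 ^ (q + 1) * s0 / P.a ≤ 1 := by rwa [div_le_one ha]
        have q2 : j + (i + 1) * (4 * 4 ^ q) = j + i * (4 * 4 ^ q) + (4 * 4 ^ q - 1) + 1 := by
          rw [add_mul]; omega
        have q3 : (1 : ℝ) ≤ 4 ^ (j + i * (4 * 4 ^ q) + (4 * 4 ^ q - 1)) := one_le_pow₀ (by norm_num)
        have q4 : (0 : ℝ) ≤ e := Nat.cast_nonneg e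
        have q5 : (e : ℝ) * (1 + 4 ^ (q + 1) * s0 / P.a) ≤ e * 2 :=
          mul_le_mul_of_nonneg_left (by linarith) q4
        have q6 := le_mul_of_one_le_left (show 0 ≤ D P by linarith) q3
        rw [q2, pow_succ (4 : ℝ) (j + i * (4 * 4 ^ q) + (4 * 4 ^ q - 1))]
        linarith) α β m hα hβ hm (by simpa using hR)
    have q2 : j + 3 * (4 * 4 ^ q) + (4 * 4 ^ q - 1) = j + (4 * 4 ^ (q + 1) - 1) := by
      rw [pow_succ]; omega
    rw [q2] at this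
    exact this

lemma small (s : ℝ) (hs : 0 ≤ s) (hsa : s ≤ P.a / 6) (α β : ℝ) (m : ℕ) (hα : P.a ≤ α)
    (hβ : P.a ≤ β) (hm : P.N ≤ m) : ∃ e, m ≤ e ∧ True ∧ G P (K α s ×ˢ K β s) α β m e := by
  have hD := D_pos (P := P)
  have ha := P.ha
  have hτ := P.hτ
  obtain ⟨r0, hr0⟩ := exists_nat_ge (64 * D P * s / P.τ)
  set r := r0 + m with hr
  have h1 : r < 4 ^ r := Nat.lt_pow_self (by norm_num)
  have h2 : (r : ℝ) ≤ 4 ^ r := by exact_mod_cast h1.le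
  have h3 : (0 : ℝ) < 4 ^ r := by positivity
  have e0 : (4 : ℝ) ^ r * (s / 4 ^ r) = s := by field_simp
  obtain ⟨e, q1, -, q3⟩ := second (P := P) (s / 4 ^ r) (by positivity) (5 * 4 ^ r) (by
      have q1 : 3 * ((5 * 4 ^ r : ℕ) : ℝ) * (s / 4 ^ r) / P.a ≤ 3 := by
        push_cast
        rw [div_le_iff₀ ha]
        have : 3 * (5 * 4 ^ r) * (s / 4 ^ r) = 15 * s := by field_simp; ring
        linarith
      have q2 := Real.exp_le_exp.mpr q1
      have q3 : Real.exp 3 = Real.exp 1 ^ 3 := by rw [← Real.exp_nat_mul]; norm_num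
      have q4 := Real.exp_one_lt_d9
      have q5 : Real.exp 1 ^ 3 ≤ 2.7182818286 ^ 3 :=
        pow_le_pow_left₀ (Real.exp_pos 1).le q4.le 3
      have q6 : (2.7182818286 : ℝ) ^ 3 ≤ 21 := by norm_num
      linarith) (by
      rw [div_le_iff₀ hτ] at hr0
      rw [← mul_div_assoc, div_le_iff₀ h3]
      have : (r0 : ℝ) ≤ r := by exact_mod_cast (by omega : r0 ≤ r)
      nlinarith) r (by rw [e0]; linarith) α β m m hα hβ hm (by
      have q1 : (m : ℝ) ≤ 4 ^ m := by exact_mod_cast (Nat.lt_pow_self (by norm_num)).le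
      have q2 : (0 : ℝ) ≤ 4 ^ m := by positivity
      nlinarith) (by omega)
  rw [e0] at q3
  exact ⟨e, q1, trivial, q3⟩

lemma all (t : ℕ) : ∀ (s : ℝ), 0 ≤ s → s ≤ 4 ^ t * (P.a / 6) → ∀ (α β : ℝ) (m : ℕ), P.a ≤ α →
    P.a ≤ β → P.N ≤ m → ∃ e, m ≤ e ∧ True ∧ G P (K α s ×ˢ K β s) α β m e := by
  induction t with
  | zero => intro s hs h; exact small s hs (by simpa using h)
  | succ t ih =>
    intro s hs h α β m hα hβ hm
    exact four (P := P) s hs (fun _ _ => True) (fun _ _ => True)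
      (fun i _ α' β' n hα' hβ' hn _ => ih (s / 4) (by linarith) (by
        rw [pow_succ] at h; linarith) α' β' n hα' hβ' hn)
      (fun _ _ _ _ => trivial) α β m hα hβ hm trivial

theorem cover (s : ℝ) (hs : 0 ≤ s) (α β : ℝ) (m : ℕ) (hα : P.a ≤ α) (hβ : P.a ≤ β)
    (hm : P.N ≤ m) : ∃ e, G P (K α s ×ˢ K β s) α β m e := by
  have ha := P.ha
  obtain ⟨t, ht⟩ := exists_nat_ge (s / (P.a / 6))
  have h1 : (t : ℝ) ≤ 4 ^ t := by exact_mod_cast (Nat.lt_pow_self (by norm_num)).le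
  rw [div_le_iff₀ (by positivity)] at ht
  obtain ⟨e, -, -, h⟩ := all t s hs (ht.trans (by gcongr)) α β m hα hβ hm
  exact ⟨e, h⟩

end Pool.Agent.H94.Dust
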