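import Pool.Agent.H94.QV1

set_option autoImplicit false
namespace Pool.Agent.H94.ES
open Set Filter Topology Real Finset

noncomputable def S (N : ℕ) (a y : ℝ) : ℝ := ∑ j ∈ range N, arctan ((j + a) / y)
noncomputable def L (N : ℕ) (a y : ℝ) : ℝ := ∑ j ∈ range N, log (y ^ 2 + (j + a) ^ 2) / 2

theorem atl {t : ℝ} (ht : 0 ≤ t) : t - t ^ 3 / 3 + t ^ 5 / 5 - t ^ 7 / 7 ≤ arctan t := by
  have d : ∀ x : ℝ, HasDerivAt (fun t : ℝ => t - t ^ 3 / 3 + t ^ 5 / 5 - t ^ 7 / 7)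
      (1 - x ^ 2 + x ^ 4 - x ^ 6) x := fun x => ((((hasDerivAt_id' x).fun_sub
        ((hasDerivAt_pow 3 x).div_const 3)).fun_add ((hasDerivAt_pow 5 x).div_const 5)).fun_sub
          ((hasDerivAt_pow 7 x).div_const 7)).congr_deriv (by norm_num)
  simpa using QV.cmp continuous_arctan.continuousOn (Continuous.continuousOn (by fun_prop))
    (fun x _ => hasDerivAt_arctan x) (fun x _ => d x) (fun x _ => by
      rw [le_div_iff₀ (by positivity)]; nlinarith [sq_nonneg (x ^ 4)]) ht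

theorem dlog (y x : ℝ) (hy : 0 < y) :
    HasDerivAt (fun t : ℝ => log (y ^ 2 + t ^ 2) / 2) (x / (y ^ 2 + x ^ 2)) x :=
  ((((hasDerivAt_pow 2 x).const_add _).log (by positivity)).div_const 2).congr_deriv (by
    norm_num; field_simp)

theorem lgl {t : ℝ} (ht : 0 ≤ t) :
    t ^ 2 / 2 - t ^ 4 / 4 + t ^ 6 / 6 - t ^ 8 / 8 ≤ log (1 ^ 2 + t ^ 2) / 2 := by
  have d : ∀ x : ℝ, HasDerivAt (fun t : ℝ => t ^ 2 / 2 - t ^ 4 / 4 + t ^ 6 / 6 - t ^ 8 / 8)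
      (x - x ^ 3 + x ^ 5 - x ^ 7) x := fun x => (((((hasDerivAt_pow 2 x).div_const 2).fun_sub
        ((hasDerivAt_pow 4 x).div_const 4)).fun_add ((hasDerivAt_pow 6 x).div_const 6)).fun_sub
          ((hasDerivAt_pow 8 x).div_const 8)).congr_deriv (by norm_num)
  simpa using QV.cmp (fun x _ => (dlog 1 x one_pos).continuousAt.continuousWithinAt)
    (Continuous.continuousOn (by fun_prop)) (fun x _ => dlog 1 x one_pos) (fun x _ => d x)
    (fun x hx => by rw [le_div_iff₀ (by positivity)]; nlinarith [pow_pos hx 9]) ht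

theorem s1 (N : ℕ) (h : ℝ) : ∑ j ∈ range N, (((j + 1 / 2) * h) ^ 2 / 2 - ((j + 1 / 2) * h) ^ 4 / 4 +
    ((j + 1 / 2) * h) ^ 6 / 6 - ((j + 1 / 2) * h) ^ 8 / 8) = N * (((N * h) ^ 2 / 3 - h ^ 2 / 12) / 2 -
      ((N * h) ^ 4 / 5 - (N * h) ^ 2 * h ^ 2 / 6 + 7 * h ^ 4 / 240) / 4 + ((N * h) ^ 6 / 7 -
        (N * h) ^ 4 * h ^ 2 / 4 + 7 * (N * h) ^ 2 * h ^ 4 / 48 - 31 * h ^ 6 / 1344) / 6 -
          ((N * h) ^ 8 / 9 - (N * h) ^ 6 * h ^ 2 / 3 + 49 * (N * h) ^ 4 * h ^ 4 / 120 -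
            31 * (N * h) ^ 2 * h ^ 6 / 144 + 127 * h ^ 8 / 3840) / 8) := by
  induction N with
  | zero => simp
  | succ N ih => rw [sum_range_succ, ih]; push_cast; ring

theorem s2 (N : ℕ) (h : ℝ) : ∑ j ∈ range N, ((j + 1 / 2) * h - ((j + 1 / 2) * h) ^ 3 / 3 +
    ((j + 1 / 2) * h) ^ 5 / 5 - ((j + 1 / 2) * h) ^ 7 / 7) = N * (N * h / 2) * (1 -
      ((N * h) ^ 2 / 2 - h ^ 2 / 4) / 3 + ((N * h) ^ 4 / 3 - 5 * (N * h) ^ 2 * h ^ 2 / 12 +
        7 * h ^ 4 / 48) / 5 - ((N * h) ^ 6 / 4 - 7 * (N * h) ^ 4 * h ^ 2 / 12 +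
          49 * (N * h) ^ 2 * h ^ 4 / 96 - 31 * h ^ 6 / 192) / 7) := by
  induction N with
  | zero => simp
  | succ N ih => rw [sum_range_succ, ih]; push_cast; ring

theorem pol {x e P Q : ℝ} (e0 : 0 < e) (ex : 196 * e ≤ x) (x1 : x ≤ 1 / 4)
    (hP : (x / 3 - e / 12) / 2 - (x ^ 2 / 5 - x * e / 6 + 7 * e ^ 2 / 240) / 4 + (x ^ 3 / 7 -
      x ^ 2 * e / 4 + 7 * x * e ^ 2 / 48 - 31 * e ^ 3 / 1344) / 6 - (x ^ 4 / 9 - x ^ 3 * e / 3 +
        49 * x ^ 2 * e ^ 2 / 120 - 31 * x * e ^ 3 / 144 + 127 * e ^ 4 / 3840) / 8 ≤ P)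
    (hQ : 1 - (x / 2 - e / 4) / 3 + (x ^ 2 / 3 - 5 * x * e / 12 + 7 * e ^ 2 / 48) / 5 - (x ^ 3 / 4 -
      7 * x ^ 2 * e / 12 + 49 * x * e ^ 2 / 96 - 31 * e ^ 3 / 192) / 7 ≤ Q) :
    1 < exp P * Q ∧ 23 / 24 ≤ Q := by
  have x0 : 0 < x := by linarith
  have e1 : e ≤ 1 / 784 := by linarith
  have xe := mul_pos x0 e0
  have p2 : x ^ 2 ≤ x / 4 := by nlinarith
  have p3 : x ^ 3 ≤ x / 16 := by nlinarith
  have p4 : x ^ 4 ≤ x / 64 := by nlinarith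
  have q2 := pow_pos x0 2
  have q3 := pow_pos x0 3
  have q4 := pow_pos x0 4
  have b1 : e ^ 2 ≤ x * e / 196 := by nlinarith
  have b2 : x ^ 2 * e ≤ x * e / 4 := by nlinarith
  have b3 : e ^ 3 ≤ x * e / 196 := by nlinarith
  have b4 : e ^ 4 ≤ x * e / 196 := by nlinarith [pow_pos e0 3]
  have b5 : x ^ 2 * e ^ 2 ≤ x * e / 196 := by nlinarith
  have b6 : x * e ^ 2 ≤ x ^ 2 * e / 196 := by nlinarith
  have b7 : x * e ≤ e / 4 := by nlinarith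
  obtain ⟨A, hA⟩ : ∃ A, A = x / 6 - x ^ 2 / 20 + x ^ 3 / 42 - x ^ 4 / 72 := ⟨_, rfl⟩
  obtain ⟨B, hB⟩ : ∃ B, B = 1 - x / 6 + x ^ 2 / 15 - x ^ 3 / 28 := ⟨_, rfl⟩
  have c1 : A - e / 24 ≤ P := by
    nlinarith [mul_pos x0 (pow_pos e0 2), mul_pos q3 e0, mul_pos x0 (pow_pos e0 3)]
  have c2 : B + e / 16 ≤ Q := by nlinarith [pow_pos e0 2, pow_pos e0 3, mul_pos q2 e0]
  have A0 : e / 24 ≤ A := by linarith
  have A1 : A ≤ 1 / 20 := by linarith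
  have B0 : 23 / 24 ≤ B := by nlinarith
  have B1 : B ≤ 1 := by linarith
  have m : 1 ≤ (1 + A + A ^ 2 / 2) * B := by
    have k : ∀ n : ℕ, 0 ≤ x ^ 2 * x ^ n ∧ x ^ 2 * x ^ n ≤ x ^ 2 * (1 / 4) ^ n := fun n =>
      ⟨by positivity, mul_le_mul_of_nonneg_left (pow_le_pow_left₀ x0.le x1 n) q2.le⟩
    rw [hA, hB]
    nlinarith [k 1, k 2, k 3, k 4, k 5, k 6, k 7, k 8, k 9]
  have c3 : 1 + A + A ^ 2 / 2 - e / 20 ≤ exp P := by
    refine le_trans ?_ ((quadratic_le_exp_of_nonneg (sub_nonneg.2 A0)).trans (exp_le_exp.2 c1))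
    nlinarith [sq_nonneg e]
  refine ⟨lt_of_lt_of_le ?_ (mul_le_mul c3 c2 (by linarith) (exp_pos _).le), by linarith⟩
  nlinarith [sq_nonneg A]

theorem ivt {N : ℕ} {a y : ℝ} (a0 : 0 ≤ a) (y0 : 0 < y) (h : π ≤ S N a y) :
    ∃ z, y ≤ z ∧ S N a z = π := by
  have t : Tendsto (S N a) atTop (𝓝 0) := by
    have := tendsto_finset_sum (range N) fun j _ => (continuous_arctan.tendsto 0).comp
      (tendsto_const_nhds.div_atTop tendsto_id : Tendsto (fun y : ℝ => ((j : ℝ) + a) / y) atTop (𝓝 0))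
    simp only [arctan_zero, sum_const_zero] at this
    exact this
  obtain ⟨b, h1, h2⟩ := ((t.eventually (ge_mem_nhds pi_pos)).and (eventually_ge_atTop y)).exists
  obtain ⟨z, hz, e⟩ := intermediate_value_Icc' h2 (f := S N a) (continuousOn_finset_sum _ fun j _ =>
    continuous_arctan.comp_continuousOn (continuousOn_const.div continuousOn_id fun x hx =>
      (y0.trans_le hx.1).ne')) ⟨h1, h⟩
  exact ⟨z, hz.1, e⟩

theorem large {N : ℕ} (hN : 14 ≤ N) : ∃ y, 0 < y ∧ π ≤ S N (1 / 2) y ∧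
    N * log (N * N / 2 / π) < L N (1 / 2) y := by
  have N1 : (14 : ℝ) ≤ N := by exact_mod_cast hN
  have key : ∀ y : ℝ, 2 * N ≤ y → ∃ P Q : ℝ, 1 < exp P * Q ∧ 23 / 24 ≤ Q ∧
      N * (N * y⁻¹ / 2) * Q ≤ S N (1 / 2) y ∧ N * (log y + P) ≤ L N (1 / 2) y := fun y hy => by
    have y0 : 0 < y := by linarith
    have h0 := inv_pos.2 y0
    have h1 : N * y⁻¹ ≤ 1 / 2 := by rw [← div_eq_mul_inv, div_le_iff₀ y0]; linarith
    have := pol (x := (N * y⁻¹) ^ 2) (e := y⁻¹ ^ 2) (by positivity) (by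
      rw [mul_pow]; exact mul_le_mul_of_nonneg_right (by nlinarith) (by positivity))
      (by nlinarith [mul_pos (show (0 : ℝ) < N by linarith) h0]) le_rfl le_rfl
    refine ⟨_, _, this.1, this.2, ?_, ?_⟩
    · refine le_trans (le_of_eq ?_) ((s2 N y⁻¹).symm.trans_le (sum_le_sum fun j _ =>
        (atl (by positivity)).trans_eq (by rw [div_eq_mul_inv _ y])))
      ring
    · have := (s1 N y⁻¹).symm.trans_le (sum_le_sum fun j _ => lgl (by positivity))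
      rw [L, sum_congr rfl (g := fun j : ℕ => log y + log (1 ^ 2 + ((j + 1 / 2) * y⁻¹) ^ 2) / 2)
        fun j _ => by
          rw [show y ^ 2 + (j + 1 / 2 : ℝ) ^ 2 = y ^ 2 * (1 ^ 2 + ((j + 1 / 2) * y⁻¹) ^ 2) by
            field_simp, log_mul (by positivity) (by positivity), log_pow]
          push_cast; ring, sum_add_distrib, sum_const, card_range, nsmul_eq_mul, mul_add]
      refine add_le_add le_rfl (le_trans (le_of_eq ?_) this)
      ring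
  obtain ⟨y, h1, h2⟩ := ivt (N := N) (a := 1 / 2) (y := 2 * N) (by norm_num) (by linarith) (by
    obtain ⟨P, Q, -, h2, h3, -⟩ := key _ le_rfl
    rw [show (N : ℝ) * (2 * (N : ℝ))⁻¹ = 1 / 2 by field_simp] at h3
    nlinarith [pi_lt_d2])
  obtain ⟨P, Q, k1, k2, k3, k4⟩ := key y h1
  have y0 : 0 < y := by linarith
  refine ⟨y, y0, h2.ge, lt_of_lt_of_le (mul_lt_mul_of_pos_left ?_ (by linarith)) k4⟩
  rw [← log_exp P, ← log_mul y0.ne' (exp_pos _).ne']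
  refine log_lt_log (by positivity) ?_
  rw [div_lt_iff₀ pi_pos, ← h2]
  refine lt_of_lt_of_le ?_ (mul_le_mul_of_nonneg_left k3 (by positivity))
  rw [show y * exp P * (N * (N * y⁻¹ / 2) * Q) = N * N / 2 * (exp P * Q) by field_simp]
  exact lt_mul_of_one_lt_right (by positivity) k1

end Pool.Agent.H94.ES
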