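import Pool.Agent.H94.ES1

set_option autoImplicit false
namespace Pool.Agent.H94.ES
open Set Filter Topology Real Finset Polynomial

noncomputable def Z (N : ℕ) (a y : ℝ) : ℂ := ∏ j ∈ range N, ((y : ℂ) + ((j + a : ℝ) : ℂ) * Complex.I)

theorem polar (N : ℕ) (a : ℝ) {y : ℝ} (y0 : 0 < y) :
    Z N a y = Complex.exp ((L N a y : ℂ) + (S N a y : ℂ) * Complex.I) := by
  rw [L, S, Complex.ofReal_sum, Complex.ofReal_sum, sum_mul, ← sum_add_distrib, Complex.exp_sum]
  refine prod_congr rfl fun j _ => ?_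
  generalize (j : ℝ) + a = b
  have w : 0 < √(1 + (b / y) ^ 2) := by positivity
  have e : exp (log (y ^ 2 + b ^ 2) / 2) = y * √(1 + (b / y) ^ 2) := by
    rw [show y ^ 2 + b ^ 2 = (y * √(1 + (b / y) ^ 2)) ^ 2 by
      rw [mul_pow, sq_sqrt (by positivity)]; field_simp, log_pow, Nat.cast_ofNat,
      mul_div_cancel_left₀ _ two_ne_zero, exp_log (by positivity)]
  apply Complex.ext
  · simp only [Complex.exp_re, Complex.add_re, Complex.add_im, Complex.mul_re, Complex.mul_im,
      Complex.ofReal_re, Complex.ofReal_im, Complex.I_re, Complex.I_im, mul_zero, mul_one, sub_zero,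
      add_zero, zero_add, e, cos_arctan]
    field_simp
  · simp only [Complex.exp_im, Complex.add_re, Complex.add_im, Complex.mul_re, Complex.mul_im,
      Complex.ofReal_re, Complex.ofReal_im, Complex.I_re, Complex.I_im, mul_zero, mul_one, sub_zero,
      add_zero, zero_add, e, sin_arctan]
    field_simp

theorem spi {N : ℕ} (N0 : 0 < N) {y : ℝ} (y0 : 0 < y) (h : (Z N (1 / 2) y).im ≤ 0) :
    π ≤ S N (1 / 2) y := not_lt.1 fun hlt => by
  have p : 0 < S N (1 / 2) y := sum_pos (fun j _ => arctan_pos.2 (by positivity)) ⟨0, mem_range.2 N0⟩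
  rw [polar _ _ y0, Complex.exp_im] at h
  simp only [Complex.add_im, Complex.mul_im, Complex.ofReal_re, Complex.ofReal_im, Complex.I_re,
    Complex.I_im, mul_zero, mul_one, add_zero, zero_add] at h
  exact h.not_gt (mul_pos (exp_pos _) (sin_pos_of_pos_of_lt_pi p hlt))

def zr (y : ℚ) : ℕ → ℚ × ℚ
  | 0 => (1, 0)
  | k + 1 => (y * (zr y k).1 - (k + 1 / 2) * (zr y k).2, y * (zr y k).2 + (k + 1 / 2) * (zr y k).1)

theorem zr_eq (y : ℚ) (N : ℕ) : (Z N (1 / 2) y).re = (zr y N).1 ∧ (Z N (1 / 2) y).im = (zr y N).2 := by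
  induction N with
  | zero => simp [Z, zr]
  | succ N ih =>
    rw [Z, prod_range_succ, ← Z, Complex.mul_re, Complex.mul_im, ih.1, ih.2, zr]
    constructor <;> simp <;> ring

theorem sm (N : ℕ) (N0 : 0 < N) (y : ℚ) (y0 : 0 < y) (h1 : (zr y N).2 ≤ 0)
    (h2 : (N * N / 2 / (3141592 / 1000000) : ℚ) ^ N < -(zr y N).1) : ∃ y, 0 < y ∧ π ≤ S N (1 / 2) y ∧
      N * log (N * N / 2 / π) < L N (1 / 2) y := by
  have y1 : (0 : ℝ) < y := by exact_mod_cast y0
  refine ⟨y, y1, spi N0 y1 (by rw [(zr_eq y N).2]; exact_mod_cast h1), ?_⟩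
  have a := Complex.abs_re_le_norm (Z N (1 / 2) y)
  rw [(zr_eq y N).1, polar _ _ y1, Complex.norm_exp] at a
  simp only [Complex.add_re, Complex.mul_re, Complex.ofReal_re, Complex.ofReal_im, Complex.I_re,
    Complex.I_im, mul_zero, sub_zero, add_zero, zero_mul] at a
  rw [← log_pow, log_lt_iff_lt_exp (by positivity)]
  have h3 : (N * N / 2 / (3141592 / 1000000) : ℝ) ^ N < -((zr y N).1 : ℝ) := by
    have := (Rat.cast_lt (K := ℝ)).2 h2
    push_cast at this
    exact this
  refine lt_of_le_of_lt ?_ (h3.trans_le ((neg_le_abs _).trans a))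
  gcongr
  linarith [pi_gt_d6]

theorem ex {n : ℕ} (hn : 2 ≤ n) : ∃ y, 0 < y ∧ π ≤ S (2 * n) (1 / 2) y ∧
    (2 * n : ℕ) * log ((2 * n : ℕ) * (2 * n : ℕ) / 2 / π) < L (2 * n) (1 / 2) y := by
  rcases le_or_gt 7 n with h | h
  · exact large (by omega)
  interval_cases n
  · exact sm 4 (by norm_num) (33 / 20) (by norm_num) (by norm_num [zr]) (by norm_num [zr])
  · exact sm 6 (by norm_num) (19 / 4) (by norm_num) (by norm_num [zr]) (by norm_num [zr])
  · exact sm 8 (by norm_num) (459 / 50) (by norm_num) (by norm_num [zr]) (by norm_num [zr])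
  · exact sm 10 (by norm_num) (2979 / 200) (by norm_num) (by norm_num [zr]) (by norm_num [zr])
  · exact sm 12 (by norm_num) (2189 / 100) (by norm_num) (by norm_num [zr]) (by norm_num [zr])

theorem low {N : ℕ} {B y : ℝ} (y0 : 0 < y) (h1 : π ≤ S N (1 / 2) y) (h2 : B < L N (1 / 2) y) :
    ∃ a z c : ℝ, 0 < a ∧ a < 1 / 2 ∧ exp B < c ∧ Z N a z = -c := by
  have ct : ContinuousAt (fun a : ℝ => L N a (2 * a * y)) (1 / 2) :=
    tendsto_finset_sum _ fun j _ => ContinuousAt.div_const (ContinuousAt.log (by fun_prop)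
      (by positivity)) 2
  obtain ⟨a, k1, a0, a1⟩ := (((ct.eventually (lt_mem_nhds (show B < _ by simpa using h2))).filter_mono
    nhdsWithin_le_nhds).and (Ioo_mem_nhdsLT (show (0 : ℝ) < 1 / 2 by norm_num))).exists
  have y1 : 0 < 2 * a * y := by positivity
  obtain ⟨z, z1, z2⟩ := ivt a0.le y1 (h1.trans (sum_le_sum fun j _ => arctan_mono (by
    rw [div_le_div_iff₀ y0 y1]
    nlinarith [mul_nonneg (mul_nonneg j.cast_nonneg y0.le) (show 0 ≤ 1 / 2 - a by linarith)])))
  refine ⟨a, z, exp (L N a z), a0, a1, exp_lt_exp.2 (k1.trans_le (sum_le_sum fun j _ => ?_)), ?_⟩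
  · gcongr
  · rw [polar _ _ (y1.trans_le z1), z2, Complex.exp_add, Complex.exp_pi_mul_I]
    simp

theorem dec {f f' : ℝ → ℝ} {a b : ℝ} (hab : a < b) (d : ∀ x ∈ Set.Icc a b, HasDerivAt f (f' x) x)
    (h : ∀ x ∈ Set.Ioo a b, f' x < 0) : f b < f a := by
  obtain ⟨c, h1, h2⟩ := exists_hasDerivAt_eq_slope f f' hab
    (fun x hx => (d x hx).continuousAt.continuousWithinAt) fun x hx => d x (Ioo_subset_Icc_self hx)
  have := h c h1
  rw [h2, div_lt_iff₀ (sub_pos.2 hab)] at this
  linarith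

theorem tang {p q : ℝ} (p0 : 0 < p) (p1 : p < π / 2) (q0 : 0 < q) (q1 : q < π / 2) :
    log (sin p) - cos q / sin q * p ≤ log (sin q) - cos q / sin q * q := by
  have s : ∀ x, 0 < x → x < π / 2 → 0 < sin x := fun x h1 h2 =>
    sin_pos_of_pos_of_lt_pi h1 (by linarith)
  have d : ∀ x, 0 < x → x < π / 2 → HasDerivAt (fun x => log (sin x) - cos q / sin q * x)
      (sin (q - x) / (sin x * sin q)) x := fun x h1 h2 =>
    (((hasDerivAt_sin x).log (s x h1 h2).ne').fun_sub ((hasDerivAt_id' x).const_mul _)).congr_deriv (by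
      have := s x h1 h2
      have := s q q0 q1
      rw [sin_sub]; field_simp)
  rcases lt_trichotomy p q with h | rfl | h
  · have := dec h (fun x hx => (d x (p0.trans_le hx.1) (hx.2.trans_lt q1)).fun_neg) fun x hx =>
      neg_lt_zero.2 (div_pos (s _ (sub_pos.2 hx.2) (by linarith [hx.1]))
        (mul_pos (s x (p0.trans hx.1) (hx.2.trans q1)) (s q q0 q1)))
    linarith
  · exact le_rfl
  · exact (dec h (fun x hx => d x (q0.trans_le hx.1) (hx.2.trans_lt p1)) fun x hx =>
      div_neg_of_neg_of_pos (by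
        rw [← neg_sub, sin_neg]
        exact neg_lt_zero.2 (s _ (sub_pos.2 hx.1) (by linarith [hx.2])))
        (mul_pos (s x (q0.trans hx.1) (hx.2.trans p1)) (s q q0 q1))).le

theorem up {n : ℕ} (n0 : 0 < n) {y : ℝ} (y0 : 0 < y) (h : π ≤ S (2 * n) (1 / 2) y) :
    L (2 * n) (1 / 2) y < 2 * n * log (n / sin (π / (2 * n))) := by
  have n1 : (0 : ℝ) < n := by exact_mod_cast n0
  let F : ℝ → ℝ := fun b => log (y ^ 2 + b ^ 2) / 2 + y / n * arctan (b / y)
  have d : ∀ b, HasDerivAt F ((b + y / n * y) / (y ^ 2 + b ^ 2)) b := fun b =>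
    ((dlog y b y0).fun_add (((hasDerivAt_id' b).div_const y).arctan.const_mul _)).congr_deriv (by
      field_simp)
  have pr : ∀ t : ℝ, 0 < t → t ≤ n → F (n + t) + F (n - t) < F n + F n := fun t t0 t1 => by
    simpa using dec t0 (f := fun t => F (n + t) + F (n - t)) (fun x _ =>
      ((d _).comp_const_add (n : ℝ) x).fun_add ((d _).comp_const_sub (n : ℝ) x)) fun x hx => by
        rw [← sub_eq_add_neg, sub_neg, div_lt_div_iff₀ (by positivity) (by positivity), ← sub_pos]
        have : x ^ 2 < n ^ 2 := pow_lt_pow_left₀ (hx.2.trans_le t1) hx.1.le two_ne_zero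
        have e : (n - x + y / n * y) * (y ^ 2 + (n + x) ^ 2) - (n + x + y / n * y) *
          (y ^ 2 + (n - x) ^ 2) = 2 * x * (n ^ 2 - x ^ 2 + y ^ 2) := by field_simp; ring
        rw [e]
        exact mul_pos (by linarith [hx.1]) (by nlinarith [sq_nonneg y])
  have sm : ∑ j ∈ range (2 * n), (F (j + 1 / 2) + F ((2 * n - 1 - j : ℕ) + 1 / 2)) <
      ∑ _j ∈ range (2 * n), (F n + F n) := sum_lt_sum_of_nonempty ⟨0, mem_range.2 (by omega)⟩
    fun j hj => by
      have hj := mem_range.1 hj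
      have e : ((2 * n - 1 - j : ℕ) : ℝ) = 2 * n - 1 - j := by
        rw [Nat.cast_sub (by omega), Nat.cast_sub (by omega)]; push_cast; ring
      have j1 : (j : ℝ) + 1 ≤ 2 * n := by exact_mod_cast hj
      have j0 := j.cast_nonneg (α := ℝ)
      rw [e]
      rcases lt_or_ge j n with k | k
      · have : (j : ℝ) + 1 ≤ n := by exact_mod_cast k
        have := pr (n - j - 1 / 2) (by linarith) (by linarith)
        rwa [add_comm, show (n : ℝ) - (n - j - 1 / 2) = j + 1 / 2 by ring,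
          show (n : ℝ) + (n - j - 1 / 2) = 2 * n - 1 - j + 1 / 2 by ring] at this
      · have : (n : ℝ) ≤ j := by exact_mod_cast k
        have := pr (j + 1 / 2 - n) (by linarith) (by linarith)
        rwa [show (n : ℝ) + (j + 1 / 2 - n) = j + 1 / 2 by ring,
          show (n : ℝ) - (j + 1 / 2 - n) = 2 * n - 1 - j + 1 / 2 by ring] at this
  rw [sum_add_distrib, sum_range_reflect (fun j : ℕ => F (j + 1 / 2)), sum_const, card_range,
    nsmul_eq_mul, sum_add_distrib, ← mul_sum, ← L, ← S] at sm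
  have S1 : S (2 * n) (1 / 2) y < 2 * n * (π / 2) := by
    simpa [S] using sum_lt_sum_of_nonempty (g := fun _ => π / 2) (⟨0, mem_range.2 (by omega)⟩ :
      (range (2 * n)).Nonempty) fun j _ => arctan_lt_pi_div_two (((j : ℝ) + 1 / 2) / y)
  have p0 : π / (2 * n) ≤ S (2 * n) (1 / 2) y / (2 * n) := by gcongr
  have p1 : S (2 * n) (1 / 2) y / (2 * n) < π / 2 := by rwa [div_lt_iff₀' (by positivity)]
  have p2 : 0 < π / (2 * n) := by positivity
  have t := tang (p2.trans_le p0) p1 (arctan_pos.2 (div_pos n1 y0)) (arctan_lt_pi_div_two _)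
  have s0 := sin_pos_of_pos_of_lt_pi p2 (by linarith)
  have u := log_le_log s0 (sin_le_sin_of_le_of_le_pi_div_two (by linarith) p1.le p0)
  have w : 0 < √(1 + (n / y) ^ 2) := by positivity
  rw [cos_arctan, sin_arctan, show 1 / √(1 + (n / y) ^ 2) / (n / y / √(1 + (n / y) ^ 2)) = y / n by
    field_simp, log_div (by positivity) w.ne', log_div n1.ne' y0.ne', log_sqrt (by positivity)] at t
  simp only [F] at sm
  rw [show y ^ 2 + (n : ℝ) ^ 2 = y ^ 2 * (1 + (n / y) ^ 2) by field_simp,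
    log_mul (by positivity) (by positivity), log_pow] at sm
  rw [log_div n1.ne' s0.ne']
  have := mul_le_mul_of_nonneg_left (add_le_add t u) (show (0 : ℝ) ≤ 2 * n by positivity)
  have e : 2 * n * (y / n * (S (2 * n) (1 / 2) y / (2 * n))) = y / n * S (2 * n) (1 / 2) y := by
    field_simp
  push_cast at sm
  nlinarith

end Pool.Agent.H94.ES
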