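import Pool.Agent.H94.ES2

set_option autoImplicit false
namespace Pool.Agent.H94.ES
open Set Filter Topology Real Finset Polynomial

/-- The indicial polynomial `D_{2n}(z; c)`. -/
noncomputable def D (n : ℕ) (c : ℝ) : Polynomial ℂ :=
  ∏ j ∈ Finset.range (2 * n), (Polynomial.X - Polynomial.C (j : ℂ)) +
    Polynomial.C ((-1) ^ n * (c : ℂ))

/-- Number of roots of `D_{2n}(·; c)` with real part `> -1/2`, with multiplicity. -/
noncomputable def cnt (n : ℕ) (c : ℝ) : ℕ :=
  ((D n c).roots.filter fun z => -1 / 2 < z.re).card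

theorem mon {n : ℕ} (n0 : 0 < n) (c : ℝ) : (D n c).Monic ∧ (D n c).natDegree = 2 * n := by
  have m := monic_prod_of_monic (range (2 * n)) _ fun j _ => monic_X_sub_C (j : ℂ)
  have d : (∏ j ∈ range (2 * n), (X - C (j : ℂ))).natDegree = 2 * n := by
    rw [natDegree_prod_of_monic _ _ fun j _ => monic_X_sub_C _]
    simp only [natDegree_X_sub_C, sum_const, card_range, smul_eq_mul, mul_one]
  refine ⟨m.add_of_left (degree_C_le.trans_lt ?_), by rw [D, natDegree_add_C, d]⟩
  rw [degree_eq_natDegree m.ne_zero, d]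
  exact_mod_cast (by omega : 0 < 2 * n)

theorem ev (n : ℕ) (c : ℝ) (z : ℂ) :
    (D n c).eval z = ∏ j ∈ range (2 * n), (z - j) + (-1) ^ n * c := by
  simp [D, eval_prod]

theorem sym (n : ℕ) (c : ℝ) (z : ℂ) : (D n c).eval (-1 * z + (2 * n - 1)) = (D n c).eval z := by
  rw [ev, ev, ← prod_range_reflect, prod_congr rfl (g := fun j : ℕ => -1 * (z - j)) fun j hj => by
    have hj := mem_range.1 hj
    rw [Nat.cast_sub (by omega), Nat.cast_sub (by omega)]; push_cast; ring, prod_mul_distrib]
  simp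

theorem strip {n : ℕ} (n0 : 0 < n) (c : ℝ) : cnt n c = n ↔
    ∀ z, (D n c).eval z = 0 → z.re ≤ -1 / 2 ∨ 2 * n - 1 / 2 ≤ z.re := by
  have n1 : (0 : ℝ) < n := by exact_mod_cast n0
  have a := map_roots_comp_C_mul_X_add_C (D n c) (-1) (2 * n - 1) isUnit_neg_one
  rw [show (D n c).comp (C (-1) * X + C (2 * n - 1 : ℂ)) = D n c from Polynomial.funext fun z => by
    rw [eval_comp, ← sym n c z]; simp] at a
  have b := IsAlgClosed.card_roots_eq_natDegree (p := D n c)
  rw [(mon n0 c).2] at b
  simp only [← IsRoot.def, ← mem_roots (mon n0 c).1.ne_zero, cnt]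
  generalize (D n c).roots = R at *
  have e1 := congrArg Multiset.card (R.filter_add_not fun z => -1 / 2 < z.re)
  have e2 := congrArg Multiset.card ((R.filter fun z => -1 / 2 < z.re).filter_add_not
    fun z : ℂ => 2 * (n : ℝ) - 1 / 2 ≤ z.re)
  have e3 : (R.filter fun z => ¬ -1 / 2 < z.re).card =
      ((R.filter fun z => -1 / 2 < z.re).filter fun z : ℂ => 2 * (n : ℝ) - 1 / 2 ≤ z.re).card := by
    conv_lhs => rw [← a, Multiset.filter_map, Multiset.card_map]
    rw [Multiset.filter_filter]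
    congr 1
    refine Multiset.filter_congr fun z _ => ?_
    simp only [Function.comp, not_lt, Complex.add_re, Complex.sub_re, Complex.one_re, neg_mul, one_mul,
      Complex.neg_re, show (2 * n : ℂ) = ((2 * n : ℝ) : ℂ) by simp, Complex.ofReal_re]
    exact ⟨fun h => ⟨by linarith, by linarith⟩, fun h => by linarith [h.1]⟩
  rw [Multiset.card_add] at e1 e2
  rw [show (R.filter fun z => -1 / 2 < z.re).card = n ↔ ((R.filter fun z => -1 / 2 < z.re).filter
    fun z : ℂ => ¬ 2 * (n : ℝ) - 1 / 2 ≤ z.re).card = 0 by omega, Multiset.card_eq_zero, Multiset.filter_eq_nil]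
  simp only [Multiset.mem_filter, and_imp, or_iff_not_imp_left, not_le, not_lt]

theorem evz (n : ℕ) (c a y : ℝ) :
    (D n c).eval (-a + y * Complex.I) = (-1) ^ n * (Z (2 * n) a y + c) := by
  rw [ev, Z, mul_add, ← Complex.I_sq, ← pow_mul, prod_congr rfl (g := fun j : ℕ => Complex.I *
    ((y : ℂ) + ((j + a : ℝ) : ℂ) * Complex.I)) fun j _ => by
      push_cast; linear_combination (-j - a) * Complex.I_sq, prod_mul_distrib]
  simp

theorem zneg (n : ℕ) (a y : ℝ) : Z (2 * n) a (-y) = starRingEnd ℂ (Z (2 * n) a y) := by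
  rw [Z, Z, map_prod, prod_congr rfl (g := fun j : ℕ => -1 * starRingEnd ℂ
    ((y : ℂ) + ((j + a : ℝ) : ℂ) * Complex.I)) fun j _ => by
      simp only [map_add, map_mul, Complex.conj_ofReal, Complex.conj_I]; push_cast; ring,
    prod_mul_distrib]
  simp

theorem lower {n : ℕ} (n0 : 0 < n) {c : ℝ} (h : ∀ x, cnt n x = n ↔ c ≤ x) :
    (2 * n ^ 2 / π) ^ (2 * n) < c := by
  have n1 : (1 : ℝ) ≤ n := by exact_mod_cast n0
  have k : ∀ a z x : ℝ, 0 < a → a < 1 / 2 → Z (2 * n) a z = -x → x < c := fun a z x a0 a1 e =>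
    not_le.1 fun hx => by
      have := (strip n0 x).1 ((h x).2 hx) (-a + z * Complex.I) (by rw [evz, e]; simp)
      simp at this
      rcases this with h | h <;> linarith
  rcases Nat.eq_or_lt_of_le n0 with rfl | n2
  · refine lt_trans ?_ (k (2 / 5) 0 (14 / 25) (by norm_num) (by norm_num) ?_)
    · rw [div_pow, div_lt_iff₀ (by positivity)]
      nlinarith [pi_gt_three]
    · simp only [Z, prod_range_succ, prod_range_zero]
      push_cast
      linear_combination (14 / 25) * Complex.I_sq
  obtain ⟨y, y0, h1, h2⟩ := ex n2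
  obtain ⟨a, z, x, a0, a1, h3, h4⟩ := low y0 h1 h2
  refine lt_trans ?_ (k a z x a0 a1 h4)
  rw [← log_pow, exp_log (by positivity)] at h3
  rwa [show 2 * (n : ℝ) ^ 2 = (2 * n : ℕ) * (2 * n : ℕ) / 2 by push_cast; ring]

theorem upper {n : ℕ} (n0 : 0 < n) {c : ℝ} (h : ∀ x, cnt n x = n ↔ c ≤ x) :
    c < (n / sin (π / (2 * n))) ^ (2 * n) := by
  have n1 : (1 : ℝ) ≤ n := by exact_mod_cast n0
  have c0 : 0 < c := lt_trans (by positivity) (lower n0 h)
  have s0 : 0 < sin (π / (2 * n)) := sin_pos_of_pos_of_lt_pi (by positivity)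
    (div_lt_self pi_pos (by linarith))
  have cl : IsClosed {x : ℝ | -((-1) ^ n * (x : ℂ)) ∈ (D n 0).eval ''
      {z | -1 / 2 ≤ z.re ∧ z.re ≤ 2 * n - 1 / 2}} := ((D n 0).isClosedMap_eval _ ((isClosed_le
        continuous_const Complex.continuous_re).inter (isClosed_le Complex.continuous_re
          continuous_const))).preimage (by fun_prop)
  obtain ⟨z, ⟨z1, z2⟩, z3⟩ := cl.closure_subset_iff.2 (fun x (hx : x < c) => by
    have := mt ((strip n0 x).2) (mt (h x).1 hx.not_ge)
    push Not at this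
    obtain ⟨z, h1, h2, h3⟩ := this
    refine ⟨z, ⟨h2.le, h3.le⟩, ?_⟩
    simp only [ev] at h1 ⊢
    push_cast
    linear_combination h1) (show c ∈ closure (Iio c) by rw [closure_Iio]; exact self_mem_Iic)
  have r : (D n c).eval z = 0 := by
    simp only [ev] at z3 ⊢
    push_cast at z3
    linear_combination z3
  obtain ⟨w, w1, w2⟩ : ∃ w : ℂ, (D n c).eval w = 0 ∧ w.re = -(1 / 2) := by
    rcases (strip n0 c).1 ((h c).2 le_rfl) z r with k | k
    · exact ⟨z, r, by linarith⟩
    · refine ⟨_, (sym n c z).trans r, ?_⟩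
      simp only [Complex.add_re, Complex.sub_re, Complex.one_re, neg_mul, one_mul,
        Complex.neg_re, show (2 * n : ℂ) = ((2 * n : ℝ) : ℂ) by simp, Complex.ofReal_re]
      linarith
  rw [← w.re_add_im, w2, Complex.ofReal_neg, evz, mul_eq_zero, add_eq_zero_iff_eq_neg] at w1
  have w3 := w1.resolve_left (by simp)
  have pos : ∀ y, 0 < y → Z (2 * n) (1 / 2) y = -c → c < (n / sin (π / (2 * n))) ^ (2 * n) :=
    fun y y0 e => by
      have := up n0 y0 (spi (by omega) y0 (by rw [e]; simp))
      have a := congrArg norm e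
      rw [polar _ _ y0, Complex.norm_exp, norm_neg, Complex.norm_of_nonneg c0.le] at a
      simp only [Complex.add_re, Complex.mul_re, Complex.ofReal_re, Complex.ofReal_im, Complex.I_re,
        Complex.I_im, mul_zero, sub_zero, add_zero, zero_mul] at a
      rw [← a, ← lt_log_iff_exp_lt (by positivity), log_pow]
      exact_mod_cast this
  rcases lt_trichotomy w.im 0 with k | k | k
  · exact pos _ (neg_pos.2 k) (by rw [zneg, w3]; simp)
  · have a := congrArg norm w3
    rw [k, Z, norm_prod, norm_neg, Complex.norm_of_nonneg c0.le, prod_congr rfl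
      (g := fun j : ℕ => (j : ℝ) + 1 / 2) fun j _ => by
        rw [Complex.ofReal_zero, zero_add, norm_mul, Complex.norm_I, mul_one,
          Complex.norm_of_nonneg (by positivity)]] at a
    refine lt_of_lt_of_le (abs_lt_of_sq_lt_sq' ?_ (by positivity)).2
      (pow_le_pow_left₀ (by positivity) (le_div_self (by positivity) s0 (sin_le_one _)) _)
    rw [← a, sq, ← pow_mul, mul_comm (2 * n), pow_mul, ← card_range (2 * n), ← prod_const, card_range]
    nth_rewrite 2 [← prod_range_reflect]
    rw [← prod_mul_distrib]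
    refine prod_lt_prod_of_nonempty (fun j _ => by positivity) (fun j hj => ?_)
      ⟨0, mem_range.2 (by omega)⟩
    have hj := mem_range.1 hj
    rw [Nat.cast_sub (by omega), Nat.cast_sub (by omega)]
    push_cast
    rcases lt_or_ge j n with k | k
    · have : (j : ℝ) + 1 ≤ n := by exact_mod_cast k
      nlinarith
    · have : (n : ℝ) ≤ j := by exact_mod_cast k
      nlinarith
  · exact pos _ k w3

end Pool.Agent.H94.ES
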