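import Mathlib

set_option autoImplicit false

namespace Pool.Agent.H94.FF

open MeasureTheory Set Filter Topology Complex Metric

lemma holo (f : ℂ → ℝ → ℂ) (x0 : ℂ) (r : ℝ) (hr : 0 < r) (bound : ℝ → ℝ)
    (hb : Integrable bound) (hc : ∀ x ∈ ball x0 (2 * r), Continuous (f x))
    (hd : ∀ s, DifferentiableOn ℂ (f · s) (ball x0 (2 * r)))
    (hle : ∀ x ∈ ball x0 (2 * r), ∀ s, ‖f x s‖ ≤ bound s) :
    HasDerivAt (fun x => ∫ s, f x s) (∫ s, deriv (f · s) x0) x0 := by
  have h0 : x0 ∈ ball x0 (2 * r) := mem_ball_self (by linarith)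
  have hda : ∀ s, ∀ x ∈ ball x0 (2 * r), DifferentiableAt ℂ (f · s) x := fun s x hx =>
    (hd s).differentiableAt (isOpen_ball.mem_nhds hx)
  refine (hasDerivAt_integral_of_dominated_loc_of_deriv_le (s := ball x0 (r / 2))
    (F' := fun x s => deriv (f · s) x) (bound := fun s => bound s / r)
    (ball_mem_nhds _ (by linarith)) ?_ ?_ ?_ ?_ (hb.div_const r) ?_).2
  · filter_upwards [isOpen_ball.mem_nhds h0] with x hx using (hc x hx).aestronglyMeasurable
  · exact hb.mono' (hc x0 h0).aestronglyMeasurable (.of_forall (hle x0 h0))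
  · have ht : Tendsto (fun n : ℕ => ((r / (n + 1) : ℝ) : ℂ)) atTop (𝓝[≠] 0) := by
      refine tendsto_nhdsWithin_iff.2 ⟨?_, .of_forall fun n => ?_⟩
      · have := (tendsto_const_div_atTop_nhds_zero_nat r).comp (tendsto_add_atTop_nat 1)
        have h2 := (continuous_ofReal.tendsto 0).comp this
        simpa [Function.comp_def] using h2
      · simp only [mem_compl_iff, mem_singleton_iff, ofReal_eq_zero]; positivity
    refine aestronglyMeasurable_of_tendsto_ae atTop
      (f := fun (n : ℕ) s => ((r / (n + 1) : ℝ) : ℂ)⁻¹ • (f (x0 + ((r / (n + 1) : ℝ) : ℂ)) s - f x0 s))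
      (fun n => ?_) (.of_forall fun s => ?_)
    · refine (((hc _ ?_).sub (hc x0 h0)).const_smul
        (((r / (n + 1) : ℝ) : ℂ)⁻¹)).aestronglyMeasurable
      have : (0 : ℝ) < n + 1 := by positivity
      rw [mem_ball, dist_eq_norm, add_sub_cancel_left, norm_real, Real.norm_of_nonneg (by positivity),
        div_lt_iff₀ this]
      nlinarith [(Nat.cast_nonneg n : (0 : ℝ) ≤ n)]
    · exact (hasDerivAt_iff_tendsto_slope_zero.1 (hda s x0 h0).hasDerivAt).comp ht
  · refine .of_forall fun s x hx => ?_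
    have hsub : closedBall x r ⊆ ball x0 (2 * r) := fun y hy => by
      rw [mem_closedBall] at hy; rw [mem_ball] at hx ⊢
      linarith [dist_triangle y x x0]
    refine norm_deriv_le_of_forall_mem_sphere_norm_le hr ?_ fun z hz =>
      hle z (hsub (sphere_subset_closedBall hz)) s
    refine DifferentiableOn.diffContOnCl ?_
    rw [closure_ball x hr.ne']
    exact (hd s).mono hsub
  · refine .of_forall fun s x hx => (hda s x (ball_subset_ball (by linarith) hx)).hasDerivAt

noncomputable def g (b : ℂ) (s : ℝ) : ℂ := exp (-(1 / 2) * (s : ℂ) ^ 2 + I * b * s + 0)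

noncomputable def F (μ b c : ℂ) (s : ℝ) : ℂ := (c + I * s) ^ μ * g b s

noncomputable def Φ (μ b c : ℂ) : ℂ := ∫ s : ℝ, F μ b c s

noncomputable def bd (K : ℝ) (s : ℝ) : ℝ := Real.exp (K * (K + 6) + 4 * K ^ 2) * Real.exp (-(1 / 4) * s ^ 2)

lemma bd_int (K : ℝ) : Integrable (bd K) :=
  (integrable_exp_neg_mul_sq (by norm_num : (0 : ℝ) < 1 / 4)).const_mul _

lemma bnd {K : ℝ} {μ b t : ℂ} {s : ℝ} (hμ : ‖μ‖ ≤ K) (hb : ‖b‖ ≤ K) (ht : 1 / 2 ≤ t.re)
    (ht2 : ‖t‖ ≤ K + |s|) : ‖t ^ μ * g b s‖ ≤ bd K s := by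
  have hK : 0 ≤ K := (norm_nonneg _).trans hμ
  have hn : 1 / 2 ≤ ‖t‖ := ht.trans (re_le_norm t)
  have ht0 : t ≠ 0 := by rintro rfl; norm_num at hn
  have hl : ‖log t‖ ≤ K + |s| + 6 := by
    refine (norm_le_abs_re_add_abs_im _).trans ?_
    rw [log_re, log_im]
    have h1 := abs_arg_le_pi t
    have h2 := Real.pi_le_four
    have h3 := Real.log_le_self (norm_nonneg t)
    have h4 := Real.neg_inv_le_log (norm_nonneg t)
    have h5 : ‖t‖⁻¹ ≤ 2 := by rw [inv_le_comm₀ (by linarith) (by norm_num)]; linarith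
    have : |Real.log ‖t‖| ≤ K + |s| + 2 := abs_le.2 ⟨by linarith [abs_nonneg s], by linarith⟩
    linarith
  rw [cpow_def_of_ne_zero ht0, g, ← exp_add, norm_exp, bd, ← Real.exp_add]
  refine Real.exp_le_exp.2 ?_
  have e1 : (log t * μ).re ≤ (K + |s| + 6) * K := by
    refine (re_le_norm _).trans ?_
    rw [norm_mul]; gcongr
  have e2 : (I * b * s).re ≤ K * |s| := by
    refine (re_le_norm _).trans ?_
    rw [norm_mul, norm_mul, norm_I, one_mul, norm_real, Real.norm_eq_abs]; gcongr
  have e3 : (-(1 / 2) * (s : ℂ) ^ 2).re = -(1 / 2) * s ^ 2 := by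
    rw [← ofReal_pow]; simp [-ofReal_pow]
  rw [add_re, add_re, add_re, e3, zero_re]
  nlinarith [sq_nonneg (|s| / 2 - 2 * K), sq_abs s]

lemma slit {c : ℂ} (hc : 0 < c.re) (s : ℝ) : c + I * s ∈ slitPlane := Or.inl (by simpa using hc)

lemma g_cont (b : ℂ) : Continuous (g b) := by unfold g; fun_prop

lemma F_cont (μ b : ℂ) {c : ℂ} (hc : 0 < c.re) : Continuous (F μ b c) :=
  (Continuous.cpow (by fun_prop) continuous_const (slit hc)).mul (g_cont b)

lemma F_le {K : ℝ} {μ b c : ℂ} (hμ : ‖μ‖ ≤ K) (hb : ‖b‖ ≤ K) (hc : 1 / 2 ≤ c.re)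
    (hc2 : ‖c‖ ≤ K) (s : ℝ) : ‖F μ b c s‖ ≤ bd K s := by
  refine bnd hμ hb (by simpa using hc) ((norm_add_le _ _).trans ?_)
  simpa using hc2

lemma F_int (μ b : ℂ) {c : ℂ} (hc : 1 / 2 ≤ c.re) : Integrable (F μ b c) :=
  (bd_int (‖μ‖ + ‖b‖ + ‖c‖)).mono' (F_cont μ b (by linarith)).aestronglyMeasurable
    (.of_forall (F_le (by linarith [norm_nonneg b, norm_nonneg c])
      (by linarith [norm_nonneg μ, norm_nonneg c]) hc (by linarith [norm_nonneg b, norm_nonneg μ])))

lemma Φ_deriv (μ b : ℂ) {c : ℂ} (hc : 1 ≤ c.re) :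
    HasDerivAt (Φ μ b) (μ * Φ (μ - 1) b c) c := by
  have hre : ∀ x ∈ ball c (2 * (1 / 4)), 1 / 2 ≤ x.re := fun x hx => by
    rw [mem_ball, dist_eq_norm] at hx
    have := abs_re_le_norm (x - c)
    rw [sub_re] at this
    linarith [(abs_le.1 this).1]
  have hD : ∀ (s : ℝ) (x : ℂ), 0 < x.re → HasDerivAt (fun x => F μ b x s) (μ * F (μ - 1) b x s) x :=
    fun s x hx => by
      have := (((hasDerivAt_id x).add_const (I * s)).cpow_const (c := μ) (slit hx s)).mul_const (g b s)
      simpa [F, mul_assoc] using this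
  have := holo (fun x s => F μ b x s) c (1 / 4) (by norm_num) (bd (‖μ‖ + ‖b‖ + ‖c‖ + 1)) (bd_int _)
    (fun x hx => F_cont μ b (by linarith [hre x hx]))
    (fun s x hx => (hD s x (by linarith [hre x hx])).differentiableAt.differentiableWithinAt)
    (fun x hx s => F_le (by linarith [norm_nonneg b, norm_nonneg c])
      (by linarith [norm_nonneg μ, norm_nonneg c]) (hre x hx) (by
        rw [mem_ball, dist_eq_norm] at hx
        linarith [norm_nonneg b, norm_nonneg μ, norm_sub_norm_le x c]) s)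
  have e : μ * Φ (μ - 1) b c = ∫ s, deriv (fun x => F μ b x s) c := by
    rw [Φ, ← integral_const_mul]
    exact integral_congr_ae (.of_forall fun s => ((hD s c (by linarith)).deriv).symm)
  rw [e]; exact this

lemma Φ_diff (μ b : ℂ → ℂ) (hμ : Differentiable ℂ μ) (hb : Differentiable ℂ b) :
    Differentiable ℂ fun E => Φ (μ E) (b E) 1 := fun E => by
  obtain ⟨K1, h1⟩ := (isCompact_closedBall E (2 * 1)).exists_bound_of_continuousOn
    hμ.continuous.continuousOn
  obtain ⟨K2, h2⟩ := (isCompact_closedBall E (2 * 1)).exists_bound_of_continuousOn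
    hb.continuous.continuousOn
  refine (holo (fun x s => F (μ x) (b x) 1 s) E 1 one_pos (bd (|K1| + |K2| + 1)) (bd_int _)
    (fun x _ => F_cont _ _ (by simp)) (fun s x _ => ?_) (fun x hx s => ?_)).differentiableAt
  · refine DifferentiableAt.differentiableWithinAt ?_
    unfold F g
    refine ((hμ x).const_cpow (Or.inl ?_)).mul (by have := hb x; fun_prop)
    exact slitPlane_ne_zero (slit (by simp) s)
  · have := h1 x (ball_subset_closedBall hx)
    have := h2 x (ball_subset_closedBall hx)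
    have := le_abs_self K1
    have := le_abs_self K2
    have := abs_nonneg K1
    have := abs_nonneg K2
    exact F_le (by linarith) (by linarith) (by norm_num) (by rw [norm_one]; linarith) s

lemma Φ_rec (μ b : ℂ) {c : ℂ} (hc : 1 ≤ c.re) :
    Φ (μ + 1) b c = (c - b) * Φ μ b c - μ * Φ (μ - 1) b c := by
  have hc' : 1 / 2 ≤ c.re := by linarith
  have hD : ∀ s : ℝ, HasDerivAt (F μ b c)
      (I * (F (μ + 1) b c s - ((c - b) * F μ b c s - μ * F (μ - 1) b c s))) s := fun s => by
    have h1 : HasDerivAt (fun x : ℂ => (c + I * x) ^ μ * exp (-(1 / 2) * x ^ 2 + I * b * x + 0))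
        (μ * (c + I * s) ^ (μ - 1) * (I * 1) * g b s + (c + I * s) ^ μ *
          (g b s * (-(1 / 2) * (((2 : ℕ) : ℂ) * (s : ℂ) ^ (2 - 1) * 1) + I * b * 1))) s :=
      ((((hasDerivAt_id (s : ℂ)).const_mul I).const_add c).cpow_const (slit (by linarith) s)).mul
        ((((((hasDerivAt_id (s : ℂ)).pow 2).const_mul _).add
          ((hasDerivAt_id (s : ℂ)).const_mul (I * b))).add_const 0).cexp)
    refine h1.comp_ofReal.congr_deriv ?_
    simp only [F]
    rw [cpow_add _ _ (slitPlane_ne_zero (slit (by linarith) s)), cpow_one]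
    push_cast
    linear_combination (-s * (c + I * s) ^ μ * g b s) * I_mul_I
  have hj : Integrable fun s => (c - b) * F μ b c s - μ * F (μ - 1) b c s :=
    ((F_int _ b hc').const_mul _).sub ((F_int _ b hc').const_mul _)
  have hi : Integrable fun s => F (μ + 1) b c s - ((c - b) * F μ b c s - μ * F (μ - 1) b c s) :=
    (F_int _ b hc').sub hj
  have := integral_eq_zero_of_hasDerivAt_of_integrable hD (hi.const_mul I) (F_int μ b hc')
  rw [integral_const_mul, mul_eq_zero, integral_sub (F_int _ b hc') hj,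
    integral_sub ((F_int _ b hc').const_mul _) ((F_int _ b hc').const_mul _),
    integral_const_mul, integral_const_mul] at this
  exact sub_eq_zero.1 (this.resolve_left I_ne_zero)

noncomputable def γ (b : ℂ) : ℂ := ∫ s, g b s

lemma γ_ne (b : ℂ) : γ b ≠ 0 := by
  unfold γ g
  rw [integral_cexp_quadratic (by norm_num)]
  simp [Real.pi_ne_zero]

lemma Φ_asym (μ b e : ℂ) (he : 1 ≤ e.re) :
    Tendsto (fun r : ℝ => Φ μ b (r * e + 1) / (r : ℂ) ^ μ) atTop (𝓝 (e ^ μ * γ b)) := by
  have hre : ∀ r : ℝ, 1 ≤ r → ∀ s : ℝ, 1 ≤ (e + (1 + I * s) / r).re := fun r hr s => by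
    have : ((1 + I * s) / r).re = 1 / r := by rw [div_ofReal_re]; simp
    rw [add_re, this]
    have : 0 ≤ 1 / r := by positivity
    linarith
  have key : ∀ r : ℝ, 1 ≤ r → Φ μ b (r * e + 1) / (r : ℂ) ^ μ =
      ∫ s : ℝ, (e + (1 + I * s) / r) ^ μ * g b s := fun r hr => by
    rw [Φ, ← integral_div]
    refine integral_congr_ae (.of_forall fun s => ?_)
    have hr0 : (r : ℂ) ≠ 0 := by rw [Ne, ofReal_eq_zero]; linarith
    have h0 : e + (1 + I * s) / r ≠ 0 := fun h => by
      have := hre r hr s; rw [h] at this; norm_num at this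
    have : r * e + 1 + I * s = r * (e + (1 + I * s) / r) := by field_simp; ring
    simp only [F]
    rw [this, cpow_def_of_ne_zero (mul_ne_zero hr0 h0), log_ofReal_mul (by linarith) h0,
      cpow_def_of_ne_zero hr0, cpow_def_of_ne_zero h0, ← ofReal_log (by linarith), add_mul, exp_add]
    field_simp
  rw [γ, ← integral_const_mul]
  refine Tendsto.congr' ((eventually_ge_atTop 1).mono fun r hr => (key r hr).symm) ?_
  refine tendsto_integral_filter_of_dominated_convergence (bd (‖μ‖ + ‖b‖ + ‖e‖ + 1)) ?_ ?_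
    (bd_int _) (.of_forall fun s => ?_)
  · filter_upwards [eventually_ge_atTop 1] with r hr
    exact ((Continuous.cpow (by fun_prop) continuous_const fun s =>
      Or.inl (by linarith [hre r hr s])).mul (g_cont b)).aestronglyMeasurable
  · filter_upwards [eventually_ge_atTop 1] with r hr
    refine .of_forall fun s => bnd (by linarith [norm_nonneg b, norm_nonneg e])
      (by linarith [norm_nonneg μ, norm_nonneg e]) (by linarith [hre r hr s]) ?_
    have h1 : ‖(1 + I * s) / r‖ ≤ 1 + |s| := by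
      rw [norm_div, norm_real, Real.norm_of_nonneg (by linarith)]
      refine (div_le_self (norm_nonneg _) hr).trans ((norm_add_le _ _).trans ?_)
      simp
    linarith [norm_add_le e ((1 + I * s) / r), norm_nonneg μ, norm_nonneg b]
  · refine Tendsto.mul_const _ (Tendsto.cpow ?_ tendsto_const_nhds (Or.inl (by linarith)))
    have h1 : Tendsto (fun r : ℝ => ((r⁻¹ : ℝ) : ℂ)) atTop (𝓝 0) :=
      (continuous_ofReal.tendsto 0).comp tendsto_inv_atTop_zero
    simpa [div_eq_mul_inv] using (h1.const_mul (1 + I * s)).const_add e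

end Pool.Agent.H94.FF
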