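import Mathlib
import Pool.Agent.H94.FF1

set_option autoImplicit false

namespace Pool.Agent.H94.FF

open MeasureTheory Set Filter Topology Complex Metric ComplexConjugate

lemma mono {a b : ℝ} (hab : a ≤ b) (h h' : ℝ → ℝ) (hd : ∀ y ∈ Icc a b, HasDerivAt h (h' y) y)
    (hp : ∀ y ∈ Icc a b, 0 ≤ h' y) : h a ≤ h b := by
  refine monotoneOn_of_deriv_nonneg (convex_Icc a b)
    (fun y hy => (hd y hy).continuousAt.continuousWithinAt)
    (fun y hy => (hd y (interior_subset hy)).differentiableAt.differentiableWithinAt)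
    (fun y hy => ?_) ⟨le_rfl, hab⟩ ⟨hab, le_rfl⟩ hab
  rw [(hd y (interior_subset hy)).deriv]; exact hp y (interior_subset hy)

structure Sol (E : ℂ) (u v : ℝ → ℂ) : Prop where
  d1 : ∀ y, 0 ≤ y → HasDerivAt u (v y) y
  d2 : ∀ y : ℝ, 0 ≤ y → HasDerivAt v (((y : ℂ) ^ 2 / 4 - E * y) * u y) y
  t1 : Tendsto u atTop (𝓝 0)
  t2 : Tendsto v atTop (𝓝 0)

lemma Sol.dM {E : ℂ} {u v : ℝ → ℂ} (h : Sol E u v) (l : ℂ) {y : ℝ} (hy : 0 ≤ y) :
    HasDerivAt (fun y => (l * (conj (u y) * v y)).re)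
      (l.re * normSq (v y) + (l * ((y : ℂ) ^ 2 / 4 - E * y)).re * normSq (u y)) y := by
  have h1 : HasDerivAt (fun y => conj (u y)) (conj (v y)) y := (h.d1 y hy).star
  have h2 := reCLM.hasFDerivAt.comp_hasDerivAt y ((h1.mul (h.d2 y hy)).const_mul l)
  refine h2.congr_deriv ?_
  rw [reCLM_apply, show l * (conj (v y) * v y + conj (u y) * (((y : ℂ) ^ 2 / 4 - E * y) * u y)) =
    l * (normSq (v y) : ℝ) + l * ((y : ℂ) ^ 2 / 4 - E * y) * (normSq (u y) : ℝ) by
      rw [normSq_eq_conj_mul_self, normSq_eq_conj_mul_self]; ring, add_re, re_mul_ofReal,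
      re_mul_ofReal]

lemma Sol.le0 {E : ℂ} {u v : ℝ → ℂ} (h : Sol E u v) (l : ℂ) (hl : 0 ≤ l.re)
    (hq : ∀ y : ℝ, 0 ≤ y → 0 ≤ (l * ((y : ℂ) ^ 2 / 4 - E * y)).re) :
    (∀ a b, 0 ≤ a → a ≤ b → (l * (conj (u a) * v a)).re ≤ (l * (conj (u b) * v b)).re) ∧
      ∀ a, 0 ≤ a → (l * (conj (u a) * v a)).re ≤ 0 := by
  have h1 : ∀ a b, 0 ≤ a → a ≤ b → (l * (conj (u a) * v a)).re ≤ (l * (conj (u b) * v b)).re :=
    fun a b ha hab => mono hab _ _ (fun y hy => h.dM l (ha.trans hy.1)) fun y hy =>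
      add_nonneg (mul_nonneg hl (normSq_nonneg _))
        (mul_nonneg (hq y (ha.trans hy.1)) (normSq_nonneg _))
  refine ⟨h1, fun a ha => ge_of_tendsto (x := atTop) (f := fun b => (l * (conj (u b) * v b)).re) ?_
    ((eventually_ge_atTop a).mono fun b hb => h1 a b ha hb)⟩
  have := (continuous_re.tendsto _).comp
    ((((continuous_conj.tendsto _).comp h.t1).mul h.t2).const_mul l)
  rw [mul_zero, mul_zero, zero_re] at this
  exact this

lemma Sol.zero {E : ℂ} {u v : ℝ → ℂ} (h : Sol E u v) (l : ℂ) (hl : 0 ≤ l.re)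
    (hq : ∀ y : ℝ, 0 < y → 0 < (l * ((y : ℂ) ^ 2 / 4 - E * y)).re) (h0 : v 0 = 0) : u 0 = 0 := by
  obtain ⟨h1, h2⟩ := h.le0 l hl fun y hy => by
    rcases hy.eq_or_lt with rfl | hy
    · simp
    · exact (hq y hy).le
  have h3 : ∀ y : ℝ, 0 < y → u y = 0 := fun y hy => by
    have e : (fun y => (l * (conj (u y) * v y)).re) =ᶠ[𝓝 y] fun _ => 0 := by
      filter_upwards [Ioi_mem_nhds hy] with a ha
      refine le_antisymm (h2 a (le_of_lt ha)) ?_
      simpa [h0] using h1 0 a le_rfl (le_of_lt ha)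
    have := (h.dM l hy.le).unique ((hasDerivAt_const y (0 : ℝ)).congr_of_eventuallyEq e)
    have h4 := mul_nonneg hl (normSq_nonneg (v y))
    have h5 := hq y hy
    have h6 := normSq_nonneg (u y)
    exact normSq_eq_zero.1 (by nlinarith)
  have h4 : Tendsto u (𝓝[>] 0) (𝓝 (u 0)) := (h.d1 0 le_rfl).continuousAt.continuousWithinAt
  exact tendsto_nhds_unique h4 (tendsto_const_nhds.congr'
    (eventually_nhdsWithin_of_forall fun y hy => (h3 y hy).symm))

lemma qre (l E : ℂ) (y : ℝ) : (l * ((y : ℂ) ^ 2 / 4 - E * y)).re =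
    l.re * (y ^ 2 / 4 - E.re * y) + l.im * E.im * y := by
  simp [← ofReal_pow]; ring

lemma Sol.pick {E : ℂ} {u v : ℝ → ℂ} (h : Sol E u v) :
    0 ≤ E.im * (u 0 * conj (-v 0)).im := by
  have := (h.le0 (I * E.im) (by simp) fun y hy => by
    rw [qre]; simp; exact mul_nonneg (mul_self_nonneg _) hy).2 0 le_rfl
  simp at this ⊢
  linarith

lemma Sol.pos {E : ℂ} {u v : ℝ → ℂ} (h : Sol E u v) (h0 : v 0 = 0) (h1 : u 0 ≠ 0) :
    E.im = 0 ∧ 0 < E.re := by
  have h2 : E.im = 0 := by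
    by_contra h2
    refine h1 (h.zero (I * E.im) (by simp) (fun y hy => ?_) h0)
    rw [qre]; simp only [mul_re, I_re, ofReal_re, zero_mul, I_im, ofReal_im, mul_zero, sub_zero,
      mul_im, one_mul, zero_add]
    exact mul_pos (mul_self_pos.2 h2) hy
  refine ⟨h2, not_le.1 fun h3 => h1 (h.zero 1 (by simp) (fun y hy => ?_) h0)⟩
  rw [qre]; simp only [one_re, one_im, zero_mul, add_zero, one_mul]
  nlinarith [mul_pos hy hy]

lemma Sol.small {x : ℝ} (hx : 0 < x) {u v : ℝ → ℂ} (h : Sol (-x) u v) :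
    x * ‖u 0 / -v 0‖ ^ 3 ≤ 64 := by
  by_cases hv : v 0 = 0
  · simp [hv]
  by_cases hu : u 0 = 0
  · simp [hu]
  have hA := norm_pos_iff.2 hu
  have hB := norm_pos_iff.2 hv
  have hq : ∀ y : ℝ, (1 * ((y : ℂ) ^ 2 / 4 - (-x) * y)).re = y ^ 2 / 4 + x * y := fun y => by
    rw [qre]; simp
  obtain ⟨h1, h2⟩ := h.le0 1 (by simp) fun y hy => by rw [hq]; positivity
  set M : ℝ → ℝ := fun y => (1 * (conj (u y) * v y)).re with hM
  set A := ‖u 0‖
  set B := ‖v 0‖
  have hM0 : -(A * B) ≤ M 0 := by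
    have := abs_re_le_norm (1 * (conj (u 0) * v 0))
    rw [one_mul, norm_mul, norm_conj] at this
    simpa [hM] using (abs_le.1 this).1
  have hn : ∀ y, 0 ≤ y → HasDerivAt (fun y => normSq (u y)) (2 * M y) y := fun y hy => by
    have h1 : HasDerivAt (fun y => conj (u y)) (conj (v y)) y := (h.d1 y hy).star
    have h2 := reCLM.hasFDerivAt.comp_hasDerivAt y (h1.mul (h.d1 y hy))
    have e : (fun y => normSq (u y)) = reCLM ∘ ((fun y => conj (u y)) * u) := by
      ext y; simp [normSq_apply]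
    rw [e]
    refine h2.congr_deriv ?_
    simp [hM]; ring
  set δ := A / (4 * B) with hδ
  have hδ0 : 0 < δ := by positivity
  have h3 : ∀ y ∈ Icc 0 δ, A ^ 2 / 2 ≤ normSq (u y) := fun y hy => by
    have := mono hy.1 (fun y => normSq (u y) - 2 * M 0 * y) (fun y => 2 * M y - 2 * M 0 * 1)
      (fun z hz => (hn z hz.1).sub ((hasDerivAt_id z).const_mul _)) fun z hz => by
        linarith [h1 0 z le_rfl hz.1]
    simp only [mul_zero, sub_zero, normSq_eq_norm_sq (u 0)] at this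
    have h4 : A * B * y ≤ A ^ 2 / 4 := by
      calc A * B * y ≤ A * B * δ := by gcongr; exact hy.2
        _ = _ := by rw [hδ]; field_simp
    nlinarith [hy.1]
  have h4 := mono hδ0.le (fun y => M y - x * A ^ 2 / 4 * y ^ 2) _
    (fun z hz => (h.dM 1 hz.1).sub ((hasDerivAt_pow 2 z).const_mul _)) fun z hz => by
      rw [hq]
      have := h3 z hz
      have h5 := normSq_nonneg (v z)
      have h6 := mul_nonneg hx.le hz.1
      simp only [one_re, one_mul, Nat.cast_ofNat, Nat.add_one_sub_one, pow_one]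
      nlinarith [mul_nonneg (sq_nonneg z) (normSq_nonneg (u z))]
  have h5 : x * A ^ 2 / 4 * δ ^ 2 ≤ A * B := by
    have := h2 δ hδ0.le
    simp only [ne_eq, OfNat.ofNat_ne_zero, not_false_eq_true, zero_pow, mul_zero, sub_zero] at h4
    linarith
  rw [norm_div, norm_neg]
  have e : x * (A / B) ^ 3 = 64 * (x * A ^ 2 / 4 * δ ^ 2) / (A * B) := by rw [hδ]; field_simp; ring
  rw [e, div_le_iff₀ (by positivity)]
  linarith

noncomputable def ν (E : ℂ) : ℂ := E ^ 2 - 1 / 2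

noncomputable def U (μ E : ℂ) (y : ℝ) : ℂ :=
  exp (-(y : ℂ) ^ 2 / 4 + E * y) * Φ μ (1 + 2 * E) (y + 1)

lemma U_dec (μ E : ℂ) : Tendsto (U μ E) atTop (𝓝 0) := by
  have h1 := Φ_asym μ (1 + 2 * E) 1 (by simp)
  have h2 : Tendsto (fun y : ℝ => exp (-(y : ℂ) ^ 2 / 4 + E * y) * (y : ℂ) ^ μ) atTop (𝓝 0) := by
    refine squeeze_zero_norm' ?_ (tendsto_rpow_mul_exp_neg_mul_atTop_nhds_zero μ.re 1 one_pos)
    filter_upwards [eventually_ge_atTop (4 * (E.re + 1)), eventually_gt_atTop 0] with y h1 h2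
    rw [norm_mul, norm_cpow_eq_rpow_re_of_pos h2, norm_exp, mul_comm]
    gcongr
    simp [← ofReal_pow]
    nlinarith
  have h3 := h2.mul h1
  rw [zero_mul] at h3
  refine h3.congr' ((eventually_gt_atTop 0).mono fun y hy => ?_)
  have : (y : ℂ) ^ μ ≠ 0 := by simp [hy.ne']
  simp only [U, mul_one]; field_simp

lemma U_der (μ E : ℂ) {y : ℝ} (hy : 0 ≤ y) :
    HasDerivAt (U μ E) ((E - y / 2) * U μ E y + μ * U (μ - 1) E y) y := by
  have h1 : HasDerivAt (fun x : ℂ => exp (-x ^ 2 / 4 + E * x) * Φ μ (1 + 2 * E) (x + 1)) _ (y : ℂ) :=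
    (((((hasDerivAt_id (y : ℂ)).pow 2).neg.div_const 4).add
      ((hasDerivAt_id (y : ℂ)).const_mul E)).cexp).mul
      ((Φ_deriv μ (1 + 2 * E) (c := y + 1) (by simpa using hy)).comp_add_const (y : ℂ) 1)
  refine h1.comp_ofReal.congr_deriv ?_
  simp [U]; ring

lemma U_rec (μ E : ℂ) {y : ℝ} (hy : 0 ≤ y) :
    U (μ + 1) E y = (y - 2 * E) * U μ E y - μ * U (μ - 1) E y := by
  simp only [U]
  rw [Φ_rec μ _ (by simpa using hy)]; ring

noncomputable def V (E : ℂ) (y : ℝ) : ℂ := (E - y / 2) * U (ν E) E y + ν E * U (ν E - 1) E y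

lemma sol (E : ℂ) : Sol E (U (ν E) E) (V E) where
  d1 y hy := U_der _ _ hy
  d2 y hy := by
    have h0 : HasDerivAt (fun y : ℝ => E - (y : ℂ) / 2) (-(1 / 2)) y := by
      simpa using (((hasDerivAt_id (y : ℂ)).div_const 2).const_sub E).comp_ofReal
    refine ((h0.mul (U_der (ν E) E hy)).add ((U_der (ν E - 1) E hy).const_mul (ν E))).congr_deriv ?_
    have h1 := U_rec (ν E - 1) E hy
    rw [sub_add_cancel] at h1
    have h2 : ν E = E ^ 2 - 1 / 2 := rfl
    linear_combination (ν E) * h1 - (U (ν E) E y) * h2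
  t1 := U_dec _ _
  t2 := by
    have := (((U_dec (ν E - 1) E).const_mul (ν E)).sub (U_dec (ν E + 1) E)).div_const 2
    simp only [mul_zero, sub_zero, zero_div] at this
    refine this.congr' ((eventually_ge_atTop 0).mono fun y hy => ?_)
    simp only [V]; rw [U_rec _ _ hy]; ring

noncomputable def N (E : ℂ) : ℂ := U (ν E) E 0

noncomputable def D (E : ℂ) : ℂ := -V E 0

lemma N_eq (E : ℂ) : N E = Φ (ν E) (1 + 2 * E) 1 := by simp [N, U]

lemma D_eq (E : ℂ) : D E = -(E * Φ (ν E) (1 + 2 * E) 1 + ν E * Φ (ν E - 1) (1 + 2 * E) 1) := by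
  simp [D, V, U]

lemma ν_diff : Differentiable ℂ ν := by unfold ν; fun_prop

lemma N_diff : Differentiable ℂ N := by
  rw [funext N_eq]; exact Φ_diff _ _ ν_diff (by fun_prop)

lemma D_diff : Differentiable ℂ D := by
  rw [funext D_eq]
  exact ((differentiable_id.mul (Φ_diff _ _ ν_diff (by fun_prop))).add
    (ν_diff.mul (Φ_diff _ _ (ν_diff.sub_const 1) (by fun_prop)))).neg

noncomputable def W (μ E y : ℂ) : ℂ :=
  I * (Φ μ (1 + 2 * E) (y + 1) * Φ (-μ) (1 + 2 * (-I * E)) (-I * y + 1)) -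
    μ * (Φ (μ - 1) (1 + 2 * E) (y + 1) * Φ (-μ - 1) (1 + 2 * (-I * E)) (-I * y + 1))

lemma W_der (μ E y : ℂ) (h1 : 0 ≤ y.re) (h2 : 0 ≤ y.im) : HasDerivAt (W μ E) 0 y := by
  have c1 : 1 ≤ (y + 1).re := by simpa using h1
  have c2 : 1 ≤ (-I * y + 1).re := by simpa using h2
  have a : ∀ μ b, HasDerivAt (fun y => Φ μ b (y + 1)) (μ * Φ (μ - 1) b (y + 1)) y := fun μ b =>
    (Φ_deriv μ b c1).comp_add_const y 1
  have b : ∀ μ b, HasDerivAt (fun y => Φ μ b (-I * y + 1))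
      (μ * Φ (μ - 1) b (-I * y + 1) * (-I * 1)) y := fun μ b =>
    HasDerivAt.comp (h := fun y => -I * y + 1) y (Φ_deriv μ b c2)
      (((hasDerivAt_id y).const_mul (-I)).add_const 1)
  refine ((((a μ _).mul (b (-μ) _)).const_mul I).sub
    (((a (μ - 1) _).mul (b (-μ - 1) _)).const_mul μ)).congr_deriv ?_
  have r1 := Φ_rec (μ - 1) (1 + 2 * E) c1
  have r2 := Φ_rec (-μ - 1) (1 + 2 * (-I * E)) c2
  rw [sub_add_cancel] at r1 r2
  rw [r1, r2]
  ring_nf
  simp only [I_sq]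
  ring

lemma W_ne (μ E : ℂ) : W μ E 0 ≠ 0 := by
  have hc : ∀ r : ℝ, 0 ≤ r → W μ E (r * (1 + I)) = W μ E 0 := fun r hr => by
    have hd : ∀ t : ℝ, 0 ≤ t → HasDerivAt (fun t : ℝ => W μ E (t * (1 + I))) 0 t := fun t ht => by
      have := ((W_der μ E (t * (1 + I)) (by simpa using ht) (by simpa using ht)).comp (t : ℂ)
        ((hasDerivAt_id (t : ℂ)).mul_const (1 + I))).comp_ofReal
      simpa using this
    simpa using constant_of_has_deriv_right_zero
      (fun t ht => (hd t ht.1).continuousAt.continuousWithinAt)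
      (fun t ht => (hd t ht.1).hasDerivWithinAt) r ⟨hr, le_rfl⟩
  have h1 : Tendsto (fun r : ℝ => ((r⁻¹ : ℝ) : ℂ)) atTop (𝓝 0) :=
    (continuous_ofReal.tendsto 0).comp tendsto_inv_atTop_zero
  have hl := (((Φ_asym μ (1 + 2 * E) (1 + I) (by simp)).mul
    (Φ_asym (-μ) (1 + 2 * (-I * E)) (1 - I) (by simp))).const_mul I).sub
    ((((Φ_asym (μ - 1) (1 + 2 * E) (1 + I) (by simp)).mul
    (Φ_asym (-μ - 1) (1 + 2 * (-I * E)) (1 - I) (by simp))).mul (h1.pow 2)).const_mul μ)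
  have hl2 := tendsto_nhds_unique (hl.congr' (f₂ := fun _ => W μ E 0) ?_) tendsto_const_nhds
  · rw [← hl2]
    have e1 : (1 + I) ≠ 0 := fun h => by simpa using congrArg re h
    have e2 : (1 - I) ≠ 0 := fun h => by simpa using congrArg re h
    simp [γ_ne, e1, e2]
  · filter_upwards [eventually_gt_atTop 0] with r hr
    have hr0 : (r : ℂ) ≠ 0 := by simp [hr.ne']
    have h2 : (r : ℂ) ^ μ ≠ 0 := by simp [hr.ne']
    rw [← hc r hr.le, W, show -I * (r * (1 + I)) = r * (1 - I) by linear_combination (-r) * I_mul_I,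
      cpow_sub _ _ hr0, cpow_sub _ _ hr0, cpow_neg, cpow_one]
    push_cast
    field_simp

lemma wr (E : ℂ) : -(N E * D (-I * E)) + I * (N (-I * E) * D E) ≠ 0 := by
  have h1 : ν (-I * E) = -ν E - 1 := by simp only [ν]; linear_combination (E ^ 2) * I_mul_I
  have r2 := Φ_rec (-ν E - 1) (1 + 2 * (-I * E)) (c := 1) (by simp)
  rw [sub_add_cancel] at r2
  have := mul_ne_zero I_ne_zero (W_ne (ν E) E)
  convert this using 1
  simp only [N_eq, D_eq, W, h1, zero_add, mul_zero, r2]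
  ring_nf
  simp only [I_sq, I_pow_three]
  ring

end Pool.Agent.H94.FF
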