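import Mathlib

set_option autoImplicit false

namespace Pool.Agent.H94.FF

open Set Filter Topology Complex Metric ComplexConjugate

structure PK (N D : ℂ → ℂ) : Prop where
  hN : Differentiable ℂ N
  hD : Differentiable ℂ D
  hP : ∀ z, 0 ≤ z.im * (N z * conj (D z)).im
  h0 : ∀ p, D p = 0 → N p ≠ 0 ∧ p.im = 0 ∧ 0 < p.re

variable {N D : ℂ → ℂ}

lemma PK.ne (h : PK N D) {z : ℂ} (hz : z.re ≤ 0) : D z ≠ 0 := fun h1 => by
  linarith [(h.h0 z h1).2.2]

lemma PK.fin (h : PK N D) (r : ℝ) : {p | D p = 0 ∧ ‖p‖ ≤ r}.Finite := by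
  have h1 := (h.hD.differentiableOn.analyticOnNhd isOpen_univ).preimage_zero_mem_codiscreteWithin
    (h.ne (z := 0) le_rfl) trivial isConnected_univ
  refine ((isCompact_closedBall (0 : ℂ) r).finite_sdiff_of_mem_codiscreteWithin
    (codiscreteWithin_mono (subset_univ _) h1)).subset fun p hp => ?_
  simpa [and_comm] using hp

lemma PK.evne (h : PK N D) (p : ℂ) : ∀ᶠ z in 𝓝[≠] p, D z ≠ 0 := by
  refine (h.hD.analyticAt p).eventually_eq_zero_or_eventually_ne_zero.resolve_left fun h1 => ?_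
  exact h.ne (z := 0) le_rfl ((h.hD.differentiableOn.analyticOnNhd
    isOpen_univ).eqOn_zero_of_preconnected_of_eventuallyEq_zero isPreconnected_univ (mem_univ p) h1
    (mem_univ 0))

lemma PK.res (h : PK N D) {p : ℂ} (hp : D p = 0) : ∃ a : ℝ, 0 < a ∧ ∃ k : ℂ → ℂ,
    AnalyticAt ℂ k p ∧ ∀ᶠ z in 𝓝[≠] p, N z / D z - a / (p - z) = k z := by
  obtain ⟨n, g, hg, hg0, he⟩ :=
    (h.hD.analyticAt p).exists_eventuallyEq_pow_smul_nonzero_iff.2 fun h1 => by
      obtain ⟨z, h2, h3⟩ := ((h.evne p).and (nhdsWithin_le_nhds h1)).exists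
      exact h2 h3
  obtain ⟨hN0, hpi, -⟩ := h.h0 p hp
  set c := N p * conj (g p) with hc
  have hc0 : c ≠ 0 := mul_ne_zero hN0 (by simpa using hg0)
  have key : ∀ w : ℂ, 0 < w.im → 0 ≤ (c * conj w ^ n).im := fun w hw => by
    have t0 : Tendsto (fun t : ℝ => p + t * w) (𝓝[>] 0) (𝓝 p) := by
      have : Continuous fun t : ℝ => p + t * w := by fun_prop
      simpa using (this.tendsto 0).mono_left nhdsWithin_le_nhds
    have t1 : ContinuousAt (fun z => (N z * conj (g z) * conj w ^ n).im) p :=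
      continuous_im.continuousAt.comp (((h.hN p).continuousAt.mul
        (continuous_conj.continuousAt.comp hg.continuousAt)).mul continuousAt_const)
    refine ge_of_tendsto (t1.tendsto.comp t0) ?_
    filter_upwards [t0.eventually he, self_mem_nhdsWithin] with t ht ht0
    have ht0' : 0 < t := ht0
    have h1 := h.hP (p + t * w)
    rw [ht, add_sub_cancel_left, smul_eq_mul, show N (p + t * w) * conj ((t * w) ^ n * g (p + t * w)) =
      ((t ^ n : ℝ) : ℂ) * (N (p + t * w) * conj (g (p + t * w)) * conj w ^ n) by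
        simp only [map_mul, map_pow, conj_ofReal]; push_cast; ring, im_ofReal_mul] at h1
    have h2 : 0 < (p + t * w).im := by simpa [hpi] using mul_pos ht0' hw
    exact (mul_nonneg_iff_of_pos_left (pow_pos ht0' n)).1 ((mul_nonneg_iff_of_pos_left h2).1 h1)
  have hn : n = 1 := by
    by_contra hn
    rcases Nat.eq_zero_or_pos n with rfl | h1
    · have := he.self_of_nhds
      simp only [pow_zero, one_smul] at this
      exact hg0 (this ▸ hp)
    have h2 : (2 : ℝ) ≤ n := by exact_mod_cast (by omega : 2 ≤ n)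
    have k2 : ∀ φ : ℝ, 0 < φ → φ < 2 * Real.pi → 0 ≤ c.im * Real.cos φ - c.re * Real.sin φ :=
      fun φ h3 h4 => by
        have := key (exp ((φ / n : ℝ) * I)) (by
          rw [exp_ofReal_mul_I_im]
          exact Real.sin_pos_of_pos_of_lt_pi (by positivity) (by
            rw [div_lt_iff₀ (by linarith)]; nlinarith [Real.pi_pos]))
        rw [← map_pow, ← exp_nat_mul, show (n : ℂ) * ((φ / n : ℝ) * I) = φ * I by
          have : (n : ℂ) ≠ 0 := by exact_mod_cast h1.ne'
          push_cast; field_simp] at this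
        simp only [mul_im, conj_im, conj_re, exp_ofReal_mul_I_im, exp_ofReal_mul_I_re] at this
        linarith
    have hpi := Real.pi_pos
    have a1 := k2 (Real.pi / 2) (by linarith) (by linarith)
    have a2 := k2 (Real.pi / 2 + Real.pi) (by linarith) (by linarith)
    have a3 := k2 Real.pi (by linarith) (by linarith)
    have a4 := k2 (Real.pi / 3) (by linarith) (by linarith)
    simp only [Real.cos_pi_div_two, Real.sin_pi_div_two, Real.cos_add_pi, Real.sin_add_pi,
      Real.cos_pi, Real.sin_pi, Real.cos_pi_div_three] at a1 a2 a3 a4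
    have b1 : c.re = 0 := by linarith
    rw [b1] at a4
    exact hc0 (Complex.ext b1 (by simp only [zero_im]; linarith))
  subst hn
  have k1 : ∀ s : ℝ, 0 ≤ c.im * s - c.re := fun s => by
    have := key (s + I) (by simp)
    simp at this; linarith
  have b1 : c.im = 0 := by
    by_contra b1
    have := k1 ((c.re - 1) / c.im)
    rw [mul_div_cancel₀ _ b1] at this; linarith
  have b2 : c.re < 0 := lt_of_le_of_ne (by simpa using k1 0) fun b2 => hc0 (Complex.ext b2 b1)
  have hq := normSq_pos.2 hg0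
  have ha : ((-c.re / normSq (g p) : ℝ) : ℂ) = -(N p / g p) := by
    have : (c.re : ℂ) = c := Complex.ext (by simp) (by simp [b1])
    have h2 : conj (g p) ≠ 0 := by simpa using hg0
    push_cast
    rw [this, normSq_eq_conj_mul_self, hc]; field_simp
  obtain ⟨q, hq'⟩ := (h.hN.analyticAt p).div hg hg0
  refine ⟨-c.re / normSq (g p), div_pos (by linarith) hq, dslope (N / g) p,
    hq'.has_fpower_series_dslope_fslope.analyticAt, ?_⟩
  filter_upwards [nhdsWithin_le_nhds he, self_mem_nhdsWithin,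
    nhdsWithin_le_nhds (hg.continuousAt.eventually_ne hg0)] with z h1 h2 h3
  have h4 : z - p ≠ 0 := sub_ne_zero.2 h2
  have h5 : p - z ≠ 0 := sub_ne_zero.2 (Ne.symm h2)
  rw [dslope_of_ne _ h2, slope_def_field, ha, h1]
  simp only [Pi.div_apply, pow_one, smul_eq_mul]
  field_simp; ring

structure RS (N D : ℂ → ℂ) (a : ℂ → ℝ) : Prop where
  off : ∀ p, D p ≠ 0 → a p = 0
  pos : ∀ p, D p = 0 → 0 < a p
  loc : ∀ p, D p = 0 → ∃ k : ℂ → ℂ,
    AnalyticAt ℂ k p ∧ ∀ᶠ z in 𝓝[≠] p, N z / D z - a p / (p - z) = k z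

lemma PK.rs (h : PK N D) : ∃ a, RS N D a := by
  classical
  choose a ha using fun p (hp : D p = 0) => h.res hp
  exact ⟨fun p => if hp : D p = 0 then a p hp else 0, fun p hp => dif_neg hp,
    fun p hp => by simpa [hp] using (ha p hp).1, fun p hp => by simpa [hp] using (ha p hp).2⟩

variable {a : ℂ → ℝ}

lemma RS.nonneg (ha : RS N D a) (p : ℂ) : 0 ≤ a p := by
  by_cases hp : D p = 0
  · exact (ha.pos p hp).le
  · exact (ha.off p hp).ge

lemma PK.ext (h : PK N D) (ha : RS N D a) (T : Finset ℂ) (hT : ∀ p ∈ T, D p = 0) :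
    ∃ H : ℂ → ℂ, (∀ z, D z ≠ 0 ∨ z ∈ T → DifferentiableAt ℂ H z) ∧
      ∀ z, D z ≠ 0 → H z = N z / D z - ∑ p ∈ T, a p / (p - z) := by
  classical
  set K := fun z => N z / D z - ∑ p ∈ T, a p / (p - z) with hK
  have e1 : ∀ z, D z ≠ 0 → (if z ∈ T then limUnder (𝓝[≠] z) K else K z) = K z := fun z hz =>
    if_neg fun h1 => hz (hT z h1)
  refine ⟨fun z => if z ∈ T then limUnder (𝓝[≠] z) K else K z, fun z hz => ?_, e1⟩
  rcases hz with hz | hz
  · refine DifferentiableAt.congr_of_eventuallyEq (f := K) ?_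
      (((h.hD z).continuousAt.eventually_ne hz).mono e1)
    refine ((h.hN z).div (h.hD z) hz).sub (DifferentiableAt.fun_sum fun p hp => ?_)
    have : p - z ≠ 0 := sub_ne_zero.2 (by rintro rfl; exact hz (hT _ hp))
    fun_prop (disch := exact this)
  · obtain ⟨k, hk, he⟩ := ha.loc z (hT z hz)
    have hd : DifferentiableAt ℂ (fun w => k w - ∑ p ∈ T.erase z, a p / (p - w)) z := by
      refine hk.differentiableAt.sub (DifferentiableAt.fun_sum fun p hp => ?_)
      have : p - z ≠ 0 := sub_ne_zero.2 (Finset.ne_of_mem_erase hp)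
      fun_prop (disch := exact this)
    have e2 : K =ᶠ[𝓝[≠] z] fun w => k w - ∑ p ∈ T.erase z, a p / (p - w) := he.mono fun w hw => by
      simp only [hK]; rw [← Finset.add_sum_erase _ _ hz, ← hw]; ring
    refine hd.congr_of_eventuallyEq ?_
    rw [← nhdsNE_sup_pure, EventuallyEq, eventually_sup, eventually_pure]
    refine ⟨?_, ?_⟩
    · filter_upwards [e2, h.evne z] with w h1 h2
      rw [e1 w h2, h1]
    · rw [if_pos hz]
      exact ((hd.continuousAt.tendsto.mono_left nhdsWithin_le_nhds).congr' e2.symm).limUnder_eq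

lemma PK.im0 (h : PK N D) : (N 0 / D 0).im = 0 := by
  have hc : Continuous fun t : ℝ => (N (t * I) * conj (D (t * I))).im := by
    have := h.hN.continuous; have := h.hD.continuous; fun_prop
  have h1 : 0 ≤ (N 0 * conj (D 0)).im := by
    have := ge_of_tendsto ((hc.tendsto 0).mono_left (nhdsWithin_le_nhds (s := Ioi 0)))
      (eventually_nhdsWithin_of_forall fun t (ht : 0 < t) =>
        (mul_nonneg_iff_of_pos_left (by simpa using ht)).1 (h.hP (t * I)))
    simpa only [ofReal_zero, zero_mul] using this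
  have h2 : (N 0 * conj (D 0)).im ≤ 0 := by
    have := le_of_tendsto ((hc.tendsto 0).mono_left (nhdsWithin_le_nhds (s := Iio 0)))
      (eventually_nhdsWithin_of_forall fun t (ht : t < 0) =>
        nonpos_of_mul_nonneg_right (h.hP (t * I)) (by simpa using ht))
    simpa only [ofReal_zero, zero_mul] using this
  rw [div_eq_mul_inv, inv_def, ← mul_assoc, im_mul_ofReal, le_antisymm h2 h1, zero_mul]

lemma PK.est (h : PK N D) (ha : RS N D a) {r : ℝ} (hr : 0 < r) (hr2 : ∀ p, D p = 0 → ‖p‖ ≠ r)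
    (T : Finset ℂ) (hT : ∀ p, p ∈ T ↔ D p = 0 ∧ ‖p‖ < r) :
    ∑ p ∈ T, a p * (1 / ‖p‖ ^ 2 - 1 / r ^ 2) ≤ (deriv (N / D) 0).re ∧
    ∀ z, z ≠ 0 → D z ≠ 0 → ‖z‖ < r →
      ‖(deriv (N / D) 0 - ∑ p ∈ T, a p / (p * (p - 0)) + ∑ p ∈ T, a p / (r ^ 2 - p * 0)) -
        (1 - z ^ 2 / r ^ 2) * ((N z / D z - N 0 / D 0) / z - ∑ p ∈ T, a p / (p * (p - z)) +
          ∑ p ∈ T, a p / (r ^ 2 - p * z))‖ ≤ 2 * ((deriv (N / D) 0).re + 1) * ‖z‖ / (r - ‖z‖) := by
  obtain ⟨H, hH, hHe⟩ := h.ext ha T fun p hp => ((hT p).1 hp).1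
  have hD0 : D 0 ≠ 0 := h.ne le_rfl
  have hrc : (r : ℂ) ≠ 0 := by simp [hr.ne']
  have hre : ∀ p ∈ T, ∃ x : ℝ, 0 < x ∧ p = x := fun p hp => by
    obtain ⟨-, h1, h2⟩ := h.h0 p ((hT p).1 hp).1
    exact ⟨p.re, h2, Complex.ext (by simp) (by simp [h1])⟩
  have hne : ∀ p ∈ T, ∀ z : ℂ, ‖z‖ ≤ r → (r : ℂ) ^ 2 - p * z ≠ 0 := fun p hp z hz h1 => by
    have h2 := congrArg norm (sub_eq_zero.1 h1)
    rw [norm_pow, norm_real, Real.norm_of_nonneg hr.le, norm_mul] at h2
    nlinarith [((hT p).1 hp).2, norm_nonneg p, norm_nonneg z]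
  set P := fun z => (1 - z ^ 2 / r ^ 2) * (dslope H 0 z + ∑ p ∈ T, a p / (r ^ 2 - p * z)) with hP
  have hPd : DifferentiableOn ℂ P (closedBall 0 r) := by
    refine DifferentiableOn.mul (by fun_prop) (DifferentiableOn.add
      ((differentiableOn_dslope (closedBall_mem_nhds 0 hr)).2 fun z hz =>
        (hH z ?_).differentiableWithinAt) (DifferentiableOn.fun_sum fun p hp z hz => ?_))
    · by_cases h1 : D z = 0
      · exact Or.inr ((hT z).2 ⟨h1, lt_of_le_of_ne (by simpa using hz) (hr2 z h1)⟩)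
      · exact Or.inl h1
    · have := hne p hp z (by simpa using hz)
      refine DifferentiableAt.differentiableWithinAt ?_
      fun_prop (disch := exact this)
  have hs : ∀ z, z ≠ 0 → D z ≠ 0 → dslope H 0 z =
      (N z / D z - N 0 / D 0) / z - ∑ p ∈ T, a p / (p * (p - z)) := fun z hz h1 => by
    rw [dslope_of_ne _ hz, slope_def_field, hHe z h1, hHe 0 hD0, sub_zero,
      show ∀ A B C E : ℂ, A - B - (C - E) = A - C - (B - E) by intros; ring, sub_div,
      ← Finset.sum_sub_distrib, Finset.sum_div]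
    congr 1
    refine Finset.sum_congr rfl fun p hp => ?_
    have h2 : p - z ≠ 0 := sub_ne_zero.2 (by rintro rfl; exact h1 ((hT _).1 hp).1)
    have h3 : p ≠ 0 := by rintro rfl; exact hD0 ((hT _).1 hp).1
    field_simp; ring
  have hs0 : dslope H 0 0 = deriv (N / D) 0 - ∑ p ∈ T, a p / (p * (p - 0)) := by
    rw [dslope_same]
    refine HasDerivAt.deriv (HasDerivAt.congr_of_eventuallyEq
      (f := fun z => (N / D) z - ∑ p ∈ T, a p / (p - z)) ?_
      (((h.hD 0).continuousAt.eventually_ne hD0).mono hHe))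
    refine ((h.hN 0).div (h.hD 0) hD0).hasDerivAt.sub (HasDerivAt.fun_sum fun p hp => ?_)
    have h3 : p ≠ 0 := by rintro rfl; exact hD0 ((hT _).1 hp).1
    refine ((hasDerivAt_const (0 : ℂ) (a p : ℂ)).div ((hasDerivAt_id (0 : ℂ)).const_sub p)
      (by simpa using h3)).congr_deriv ?_
    simp [sq]
  have hpos : ∀ z ∈ closedBall (0 : ℂ) r, 0 ≤ (P z).re := fun z hz => by
    have := norm_le_of_forall_mem_frontier_norm_le (f := fun z => exp (-P z)) (C := 1)
      (isBounded_ball (x := 0) (r := r))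
      (DifferentiableOn.diffContOnCl (by rw [closure_ball _ hr.ne']; exact hPd.neg.cexp))
      (fun w hw => ?_) (z := z) (by rwa [closure_ball _ hr.ne'])
    · rw [norm_exp, Real.exp_le_one_iff, neg_re] at this; linarith
    rw [frontier_ball _ hr.ne', mem_sphere_zero_iff_norm] at hw
    have hw0 : w ≠ 0 := by rintro rfl; simp at hw; linarith
    have hDw : D w ≠ 0 := fun h1 => hr2 w h1 hw
    have hcw : (r : ℂ) ^ 2 = w * conj w := by rw [mul_conj, normSq_eq_norm_sq, hw]; simp
    have hcw0 : conj w ≠ 0 := by simpa using hw0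
    have e : P w = (-2 * w.im / r ^ 2 : ℝ) * I * (N w / D w - N 0 / D 0 -
        ∑ p ∈ T, (a p * (1 / (p - w) + conj (1 / (p - w))) - a p / p)) := by
      have e1 : (1 - w ^ 2 / r ^ 2) = (-2 * w.im / r ^ 2 : ℝ) * I * w := by
        have : (-2 * w.im : ℂ) * I = conj w - w := by apply Complex.ext <;> simp; ring
        push_cast
        rw [div_mul_eq_mul_div, this, hcw]; field_simp
      simp only [hP]
      rw [hs w hw0 hDw, e1, mul_assoc, mul_add, mul_sub, mul_div_cancel₀ _ hw0, Finset.mul_sum,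
        Finset.mul_sum, sub_add, ← Finset.sum_sub_distrib]
      congr 2
      refine Finset.sum_congr rfl fun p hp => ?_
      obtain ⟨x, hx, rfl⟩ := hre p hp
      have h2 : (x : ℂ) - w ≠ 0 := sub_ne_zero.2 (by rintro rfl; exact hDw ((hT _).1 hp).1)
      have h3 : (x : ℂ) ≠ 0 := by simp [hx.ne']
      have h4 : (x : ℂ) - conj w ≠ 0 := by simpa using (map_ne_zero (starRingEnd ℂ)).2 h2
      have h5 : conj w - (x : ℂ) ≠ 0 := fun h5 => h4 (by linear_combination -h5)
      rw [hcw, show w * conj w - x * w = w * (conj w - x) by ring]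
      simp only [map_div₀, map_one, map_sub, conj_ofReal]
      field_simp; ring
    have e2 : (∑ p ∈ T, (a p * (1 / (p - w) + conj (1 / (p - w))) - a p / p) : ℂ).im = 0 := by
      rw [im_sum]
      refine Finset.sum_eq_zero fun p hp => ?_
      obtain ⟨x, hx, rfl⟩ := hre p hp
      rw [add_conj, ← ofReal_mul, ← ofReal_div, ← ofReal_sub, ofReal_im]
    rw [norm_exp, Real.exp_le_one_iff, neg_re, e, mul_assoc, re_ofReal_mul, I_mul_re, sub_im, sub_im,
      e2, h.im0, div_eq_mul_inv (N w), inv_def, ← mul_assoc, im_mul_ofReal]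
    have h1 := h.hP w
    have h2 : 0 ≤ (normSq (D w))⁻¹ := inv_nonneg.2 (normSq_nonneg _)
    have h3 : 0 ≤ (r ^ 2)⁻¹ := by positivity
    rw [div_eq_mul_inv]
    nlinarith [mul_nonneg (mul_nonneg h1 h2) h3]
  have hP0 : P 0 = deriv (N / D) 0 - ∑ p ∈ T, a p / (p * (p - 0)) +
      ∑ p ∈ T, a p / (r ^ 2 - p * 0) := by simp only [hP]; rw [hs0]; simp
  have hP0r : (P 0).re = (deriv (N / D) 0).re - ∑ p ∈ T, a p * (1 / ‖p‖ ^ 2 - 1 / r ^ 2) := by
    rw [hP0, sub_add, ← Finset.sum_sub_distrib, sub_re, re_sum]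
    congr 1
    refine Finset.sum_congr rfl fun p hp => ?_
    obtain ⟨x, hx, rfl⟩ := hre p hp
    rw [← ofReal_re (a x * _)]
    congr 1
    rw [norm_real, Real.norm_of_nonneg hx.le]
    push_cast; ring
  have hsn : 0 ≤ ∑ p ∈ T, a p * (1 / ‖p‖ ^ 2 - 1 / r ^ 2) := Finset.sum_nonneg fun p hp => by
    refine mul_nonneg (ha.nonneg p) (sub_nonneg.2 ?_)
    have h3 : p ≠ 0 := by rintro rfl; exact hD0 ((hT _).1 hp).1
    have := ((hT p).1 hp).2
    gcongr
  have h00 := hpos 0 (mem_closedBall_self hr.le)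
  refine ⟨by linarith, fun z hz hDz hzr => ?_⟩
  have := borelCaratheodory_zero (f := fun z => P 0 - P z) (M := (deriv (N / D) 0).re + 1)
    (by linarith) ((hPd.mono ball_subset_closedBall).const_sub _) (fun w hw => by
      have := hpos w (ball_subset_closedBall hw)
      simp only [mem_setOf_eq, sub_re]; linarith) hr (mem_ball_zero_iff.2 hzr) (sub_self _)
  rw [hP0] at this
  simp only [hP] at this
  rwa [hs z hz hDz] at this

end Pool.Agent.H94.FF
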