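import Mathlib
import Pool.Agent.H94.FF3

set_option autoImplicit false

namespace Pool.Agent.H94.FF

open Set Filter Topology Complex Metric ComplexConjugate

variable {N D : ℂ → ℂ} {a : ℂ → ℝ}

lemma PK.seq (h : PK N D) : ∃ (r : ℕ → ℝ) (T : ℕ → Finset ℂ), Tendsto r atTop atTop ∧
    (∀ n, 0 < r n) ∧ (∀ n p, D p = 0 → ‖p‖ ≠ r n) ∧ ∀ n p, p ∈ T n ↔ D p = 0 ∧ ‖p‖ < r n := by
  have h1 : ∀ n : ℕ, ∃ r : ℝ, r ∈ Ioo (n : ℝ) (n + 1) ∧
      r ∉ norm '' {p | D p = 0 ∧ ‖p‖ ≤ n + 1} := fun n =>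
    (Ioo_infinite (by linarith)).exists_notMem_finite ((h.fin _).image _)
  choose r hr hr2 using h1
  have h2 : ∀ n, {p | D p = 0 ∧ ‖p‖ < r n}.Finite := fun n =>
    (h.fin (r n)).subset fun p hp => ⟨hp.1, hp.2.le⟩
  refine ⟨r, fun n => (h2 n).toFinset, tendsto_atTop_mono (fun n => (hr n).1.le)
    tendsto_natCast_atTop_atTop, fun n => (Nat.cast_nonneg n).trans_lt (hr n).1,
    fun n p hp e => hr2 n ⟨p, ⟨hp, by rw [e]; exact (hr n).2.le⟩, e⟩, fun n p => by simp⟩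

lemma PK.cmp (h : PK N D) {z : ℂ} (hz : D z ≠ 0) : ∃ C, ∀ p, D p = 0 → ‖p‖ ≤ C * ‖p - z‖ := by
  obtain ⟨ε, hε, h1⟩ := Metric.eventually_nhds_iff.1 ((h.hD z).continuousAt.eventually_ne hz)
  refine ⟨1 + ‖z‖ / ε, fun p hp => ?_⟩
  have h2 : ε ≤ ‖p - z‖ := by rw [← dist_eq_norm]; exact not_lt.1 fun h2 => h1 h2 hp
  have h3 : ‖z‖ ≤ ‖z‖ / ε * ‖p - z‖ := by
    rw [div_mul_eq_mul_div, le_div_iff₀ hε]; gcongr
  linarith [norm_sub_norm_le p z]

lemma PK.ne0 (h : PK N D) {p : ℂ} (hp : D p = 0) : p ≠ 0 := by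
  rintro rfl; exact h.ne le_rfl hp

lemma PK.bd1 (h : PK N D) (ha : RS N D a) {z : ℂ} (hz : D z ≠ 0) :
    ∃ C, ∀ p, ‖a p / (p * (p - z))‖ ≤ C * (a p / ‖p‖ ^ 2) := by
  obtain ⟨C, hC⟩ := h.cmp hz
  refine ⟨C, fun p => ?_⟩
  by_cases hp : D p = 0
  · have h1 := norm_pos_iff.2 (h.ne0 hp)
    have h2 : 0 < ‖p - z‖ := norm_pos_iff.2 (sub_ne_zero.2 (by rintro rfl; exact hz hp))
    rw [norm_div, norm_mul, norm_real, Real.norm_of_nonneg (ha.nonneg p), ← mul_div_assoc,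
      div_le_div_iff₀ (by positivity) (by positivity)]
    nlinarith [mul_le_mul_of_nonneg_left (hC p hp) (mul_nonneg (ha.nonneg p) h1.le)]
  · simp [ha.off p hp]

lemma PK.form (h : PK N D) (ha : RS N D a) : Summable (fun p => a p / ‖p‖ ^ 2) ∧
    ∃ b : ℂ, 0 ≤ b.re ∧ ∀ z, z ≠ 0 → D z ≠ 0 →
      (N z / D z - N 0 / D 0) / z - ∑' p, a p / (p * (p - z)) = b := by
  classical
  obtain ⟨r, T, hr, hr0, hr2, hT⟩ := h.seq
  have he := fun n => h.est ha (hr0 n) (hr2 n) (T n) (hT n)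
  have hD0 : D 0 ≠ 0 := h.ne le_rfl
  have hi : Tendsto (fun n => 1 / r n ^ 2) atTop (𝓝 0) :=
    tendsto_const_nhds.div_atTop ((tendsto_pow_atTop two_ne_zero).comp hr)
  have hb : ∀ u : Finset ℂ, ∑ p ∈ u, a p / ‖p‖ ^ 2 ≤ (deriv (N / D) 0).re := fun u => by
    have h1 : Tendsto (fun n => ∑ p ∈ u, a p * (1 / ‖p‖ ^ 2 - 1 / r n ^ 2)) atTop
        (𝓝 (∑ p ∈ u, a p / ‖p‖ ^ 2)) := tendsto_finset_sum _ fun p _ => by
      have := (hi.const_sub (1 / ‖p‖ ^ 2)).const_mul (a p)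
      rwa [sub_zero, mul_one_div] at this
    refine le_of_tendsto h1 ?_
    filter_upwards [(eventually_all_finset u).2 fun p _ => hr.eventually_gt_atTop ‖p‖] with n hn
    refine le_trans ?_ (he n).1
    rw [← Finset.sum_subset (Finset.inter_subset_left (s₂ := T n)) fun p h1 h2 => by
      rw [ha.off p fun h3 => h2 (Finset.mem_inter.2 ⟨h1, (hT n p).2 ⟨h3, hn p h1⟩⟩), zero_mul]]
    refine Finset.sum_le_sum_of_subset_of_nonneg Finset.inter_subset_right fun p hp _ => ?_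
    refine mul_nonneg (ha.nonneg p) (sub_nonneg.2 ?_)
    have h3 := norm_pos_iff.2 (h.ne0 ((hT n p).1 hp).1)
    have := ((hT n p).1 hp).2
    gcongr
  have hs : Summable fun p => a p / ‖p‖ ^ 2 :=
    summable_of_sum_le (fun p => div_nonneg (ha.nonneg p) (sq_nonneg _)) hb
  have lim : ∀ (φ : ℕ → ℂ → ℂ) (ψ : ℂ → ℂ) (C : ℝ), 0 ≤ C →
      (∀ᶠ n in atTop, ∀ p ∈ T n, ‖φ n p‖ ≤ C * (a p / ‖p‖ ^ 2)) →
      (∀ p, D p = 0 → Tendsto (φ · p) atTop (𝓝 (ψ p))) → (∀ p, D p ≠ 0 → ψ p = 0) →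
      Tendsto (fun n => ∑ p ∈ T n, φ n p) atTop (𝓝 (∑' p, ψ p)) := fun φ ψ C hC h1 h2 h3 => by
    have := tendsto_tsum_of_dominated_convergence (𝓕 := atTop)
      (f := fun n p => if p ∈ T n then φ n p else 0) (g := ψ) (hs.mul_left C) (fun p => ?_) ?_
    · refine this.congr fun n => ?_
      rw [tsum_eq_sum (s := T n) fun p hp => if_neg hp]
      exact Finset.sum_congr rfl fun p hp => if_pos hp
    · by_cases hp : D p = 0
      · refine (h2 p hp).congr' ((hr.eventually_gt_atTop ‖p‖).mono fun n hn => ?_)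
        simp only [(hT n p).2 ⟨hp, hn⟩, if_true]
      · rw [h3 p hp]
        exact tendsto_const_nhds.congr fun n => (if_neg fun h4 => hp ((hT n p).1 h4).1).symm
    · filter_upwards [h1] with n hn p
      split_ifs with hp
      · exact hn p hp
      · rw [norm_zero]; exact mul_nonneg hC (div_nonneg (ha.nonneg p) (sq_nonneg _))
  have T1 : ∀ z, D z ≠ 0 → Tendsto (fun n => ∑ p ∈ T n, a p / (p * (p - z))) atTop
      (𝓝 (∑' p, a p / (p * (p - z)))) := fun z hz => by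
    obtain ⟨C, hC⟩ := h.bd1 ha hz
    refine lim _ _ |C| (abs_nonneg _) (.of_forall fun n p _ => (hC p).trans ?_)
      (fun p _ => tendsto_const_nhds) fun p hp => by simp [ha.off p hp]
    exact mul_le_mul_of_nonneg_right (le_abs_self _) (div_nonneg (ha.nonneg p) (sq_nonneg _))
  have T2 : ∀ z : ℂ, Tendsto (fun n => ∑ p ∈ T n, a p / (r n ^ 2 - p * z)) atTop (𝓝 0) := fun z => by
    have hl : ∀ n p, ‖p‖ < r n → 2 * ‖z‖ ≤ r n → r n ^ 2 / 2 ≤ ‖(r n : ℂ) ^ 2 - p * z‖ :=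
      fun n p h1 h2 => by
        have := norm_sub_norm_le ((r n : ℂ) ^ 2) (p * z)
        rw [norm_pow, norm_real, Real.norm_of_nonneg (hr0 n).le, norm_mul] at this
        nlinarith [norm_nonneg p, norm_nonneg z]
    have := lim (fun n p => a p / (r n ^ 2 - p * z)) (fun _ => 0) 2 two_pos.le ?_ (fun p hp => ?_)
      fun _ _ => rfl
    · simpa using this
    · filter_upwards [hr.eventually_ge_atTop (2 * ‖z‖)] with n hn p hp
      have h1 := hl n p ((hT n p).1 hp).2 hn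
      have h2 := norm_pos_iff.2 (h.ne0 ((hT n p).1 hp).1)
      have h3 := ((hT n p).1 hp).2
      have h4 : ‖p‖ ^ 2 / 2 ≤ r n ^ 2 / 2 := by gcongr
      rw [norm_div, norm_real, Real.norm_of_nonneg (ha.nonneg p)]
      calc _ ≤ a p / (‖p‖ ^ 2 / 2) := by
            have := ha.nonneg p
            gcongr; linarith
        _ = _ := by field_simp
    · refine squeeze_zero_norm' ?_ (by simpa using hi.const_mul (2 * a p))
      filter_upwards [hr.eventually_ge_atTop (2 * ‖z‖), hr.eventually_gt_atTop ‖p‖] with n hn h3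
      have h1 := hl n p h3 hn
      have := ha.nonneg p
      have := hr0 n
      rw [norm_div, norm_real, Real.norm_of_nonneg (ha.nonneg p)]
      calc _ ≤ a p / (r n ^ 2 / 2) := by gcongr
        _ = _ := by field_simp
  refine ⟨hs, deriv (N / D) 0 - ∑' p, a p / (p * (p - 0)), ?_, fun z hz hDz => ?_⟩
  · have : ∀ p : ℂ, a p / (p * (p - 0)) = ((a p / ‖p‖ ^ 2 : ℝ) : ℂ) := fun p => by
      by_cases hp : D p = 0
      · obtain ⟨-, h1, h2⟩ := h.h0 p hp
        obtain ⟨x, rfl⟩ : ∃ x : ℝ, p = x := ⟨p.re, Complex.ext (by simp) (by simp [h1])⟩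
        rw [norm_real, Real.norm_eq_abs, sq_abs]; push_cast; ring
      · simp [ha.off p hp]
    rw [tsum_congr this, ← ofReal_tsum, sub_re, ofReal_re, sub_nonneg]
    exact hs.tsum_le_of_sum_le hb
  · have h1 : Tendsto (fun n => 1 - z ^ 2 / (r n : ℂ) ^ 2) atTop (𝓝 1) := by
      have := (((continuous_ofReal.tendsto 0).comp hi).const_mul (z ^ 2)).const_sub 1
      simpa [div_eq_mul_inv] using this
    have h2 := ((((T1 0 hD0).const_sub (deriv (N / D) 0)).add (T2 0)).sub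
      (h1.mul (((T1 z hDz).const_sub ((N z / D z - N 0 / D 0) / z)).add (T2 z)))).norm
    have h3 : Tendsto (fun n => 2 * ((deriv (N / D) 0).re + 1) * ‖z‖ / (r n - ‖z‖)) atTop (𝓝 0) :=
      tendsto_const_nhds.div_atTop (tendsto_atTop_add_const_right _ (-‖z‖) hr)
    have h4 := le_of_tendsto_of_tendsto h2 h3
      ((hr.eventually_gt_atTop ‖z‖).mono fun n hn => (he n).2 z hz hDz hn)
    rw [norm_le_zero_iff, add_zero, add_zero, one_mul, sub_eq_zero] at h4
    exact h4.symm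

theorem PK.pf (h : PK N D) (ha : RS N D a)
    (hd : Tendsto (fun x : ℝ => N (-x) / D (-x)) atTop (𝓝 0)) :
    Summable (fun p => a p / ‖p‖) ∧ ∀ z, D z ≠ 0 → N z / D z = ∑' p, a p / (p - z) := by
  obtain ⟨hs, b, hb, he⟩ := h.form ha
  have hre : ∀ p, D p = 0 → ∃ x : ℝ, 0 < x ∧ p = x := fun p hp => by
    obtain ⟨-, h1, h2⟩ := h.h0 p hp
    exact ⟨p.re, h2, Complex.ext (by simp) (by simp [h1])⟩
  set s : ℝ → ℂ → ℝ := fun x p => a p / ‖p‖ * (x / (‖p‖ + x)) with hs'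
  have hs0 : ∀ x, 0 < x → ∀ p, 0 ≤ s x p := fun x hx p => by
    have := ha.nonneg p
    positivity
  have e1 : ∀ x : ℝ, 0 < x → ∀ p : ℂ, x * (a p / (p * (p - -x))) = (s x p : ℂ) := fun x hx p => by
    by_cases hp : D p = 0
    · obtain ⟨y, hy, rfl⟩ := hre p hp
      simp only [hs']
      rw [norm_real, Real.norm_of_nonneg hy.le]; push_cast
      rw [sub_neg_eq_add, mul_div_assoc', div_mul_div_comm, mul_comm (x : ℂ)]
    · simp [hs', ha.off p hp]
  have hDx : ∀ x : ℝ, 0 < x → D (-x) ≠ 0 := fun x hx => h.ne (by simpa using hx.le)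
  have hsum : ∀ z, D z ≠ 0 → Summable fun p : ℂ => a p / (p * (p - z)) := fun z hz => by
    obtain ⟨C, hC⟩ := h.bd1 ha hz
    exact .of_norm_bounded (hs.mul_left C) hC
  have hss : ∀ x : ℝ, 0 < x → Summable (s x) := fun x hx =>
    summable_ofReal.1 (((hsum _ (hDx x hx)).mul_left (x : ℂ)).congr (e1 x hx))
  have e2 : ∀ x : ℝ, 0 < x → N 0 / D 0 - N (-x) / D (-x) = x * b + (∑' p, s x p : ℝ) := fun x hx => by
    have hx0 : (x : ℂ) ≠ 0 := by simp [hx.ne']
    rw [← he (-x) (by simpa using hx0) (hDx x hx), ofReal_tsum, ← tsum_congr (e1 x hx),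
      tsum_mul_left]
    field_simp; ring
  have hl : ∀ p, Tendsto (s · p) atTop (𝓝 (a p / ‖p‖)) := fun p => by
    have h1 : Tendsto (fun x : ℝ => 1 - ‖p‖ / (‖p‖ + x)) atTop (𝓝 (1 - 0)) :=
      (tendsto_const_nhds.div_atTop (tendsto_atTop_add_const_left _ _ tendsto_id)).const_sub 1
    have h2 := h1.const_mul (a p / ‖p‖)
    rw [sub_zero, mul_one] at h2
    refine h2.congr' ((eventually_gt_atTop 0).mono fun x hx => ?_)
    have : ‖p‖ + x ≠ 0 := by positivity
    simp only [hs']; congr 1; field_simp; ring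
  have hG := hd.const_sub (N 0 / D 0)
  rw [sub_zero] at hG
  have hs1 : Summable fun p => a p / ‖p‖ := by
    refine summable_of_sum_le (c := (N 0 / D 0).re)
      (fun p => div_nonneg (ha.nonneg p) (norm_nonneg _)) fun u => ?_
    refine le_of_tendsto_of_tendsto (tendsto_finset_sum u fun p _ => hl p)
      ((continuous_re.tendsto _).comp hG) ((eventually_gt_atTop 0).mono fun x hx => ?_)
    simp only [Function.comp_apply]
    rw [e2 x hx, add_re, ofReal_re, re_ofReal_mul]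
    linarith [(hss x hx).sum_le_tsum u fun p _ => hs0 x hx p, mul_nonneg hx.le hb]
  have h1 : Tendsto (fun x => ∑' p, s x p) atTop (𝓝 (∑' p, a p / ‖p‖)) := by
    refine tendsto_tsum_of_dominated_convergence hs1 hl ((eventually_gt_atTop 0).mono fun x hx p => ?_)
    rw [Real.norm_of_nonneg (hs0 x hx p)]
    refine mul_le_of_le_one_right (div_nonneg (ha.nonneg p) (norm_nonneg _)) ?_
    rw [div_le_one (by positivity)]; linarith [norm_nonneg p]
  have h2 := hG.sub ((continuous_ofReal.tendsto _).comp h1)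
  have h3 : Tendsto (fun x : ℝ => x * b) atTop (𝓝 (N 0 / D 0 - (∑' p, a p / ‖p‖ : ℝ))) :=
    h2.congr' ((eventually_gt_atTop 0).mono fun x hx => by
      simp only [Function.comp_apply]; rw [e2 x hx]; ring)
  have h4 : b = 0 := by
    have := ((continuous_ofReal.tendsto 0).comp tendsto_inv_atTop_zero).mul h3
    rw [ofReal_zero, zero_mul] at this
    refine tendsto_nhds_unique (tendsto_const_nhds.congr'
      ((eventually_gt_atTop 0).mono fun x hx => ?_)) this
    have hx0 : (x : ℂ) ≠ 0 := by simp [hx.ne']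
    simp only [Function.comp_apply]; push_cast; field_simp
  subst h4
  simp only [mul_zero] at h3
  have h5 := sub_eq_zero.1 (tendsto_nhds_unique h3 tendsto_const_nhds)
  have e3 : ∀ p : ℂ, ((a p / ‖p‖ : ℝ) : ℂ) = a p / p := fun p => by
    by_cases hp : D p = 0
    · obtain ⟨y, hy, rfl⟩ := hre p hp
      rw [norm_real, Real.norm_of_nonneg hy.le]; push_cast; rfl
    · simp [ha.off p hp]
  rw [ofReal_tsum, tsum_congr e3] at h5
  refine ⟨hs1, fun z hz => ?_⟩
  by_cases hz0 : z = 0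
  · subst hz0; simpa using h5
  have h6 := he z hz0 hz
  rw [sub_eq_zero, div_eq_iff hz0, sub_eq_iff_eq_add, h5, ← tsum_mul_right,
    ← ((hsum z hz).mul_right z).tsum_add ((summable_ofReal.2 hs1).congr e3)] at h6
  rw [h6]
  refine tsum_congr fun p => ?_
  by_cases hp : D p = 0
  · have := h.ne0 hp
    have : p - z ≠ 0 := sub_ne_zero.2 (by rintro rfl; exact hz hp)
    field_simp; ring
  · simp [ha.off p hp]

end Pool.Agent.H94.FF
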