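import Mathlib
import Pool.Agent.H94.FF2
import Pool.Agent.H94.FF4

set_option autoImplicit false

namespace Pool.Agent.H94.FF

open Set Filter Topology Complex Metric ComplexConjugate

lemma pk : PK N D :=
  have h1 : ∀ p, D p = 0 → N p ≠ 0 := fun p hp h => by
    have := wr p
    rw [hp, h] at this; simp at this
  ⟨N_diff, D_diff, fun z => (sol z).pick,
    fun p hp => ⟨h1 p hp, (sol p).pos (neg_eq_zero.1 hp) (h1 p hp)⟩⟩

lemma decay : Tendsto (fun x : ℝ => N (-x) / D (-x)) atTop (𝓝 0) := by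
  rw [tendsto_zero_iff_norm_tendsto_zero]
  have h1 : Tendsto (fun x : ℝ => ‖N (-x) / D (-x)‖ ^ 3) atTop (𝓝 0) := by
    refine squeeze_zero' (.of_forall fun x => by positivity) ?_
      (tendsto_const_nhds.div_atTop (a := (64 : ℝ)) tendsto_id)
    filter_upwards [eventually_gt_atTop 0] with x hx
    rw [id, le_div_iff₀ hx, mul_comm]
    exact (sol (-x)).small hx
  have h2 := h1.rpow_const (p := ((3 : ℕ) : ℝ)⁻¹) (Or.inr (by positivity))
  rw [Real.zero_rpow (by positivity)] at h2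
  exact h2.congr fun x => Real.pow_rpow_inv_natCast (norm_nonneg _) (by norm_num)

open Polynomial in
lemma fin_root (T : Finset ℂ) (A : ℂ → ℝ) (hA : ∀ x ∈ T, 0 < A x) (h2 : 1 < T.card) :
    ∃ z ∉ T, ∑ x ∈ T, A x / (x - z) = 0 := by
  classical
  set Q : ℂ[X] := ∑ j ∈ T, C (A j : ℂ) * ∏ k ∈ T.erase j, (X - C k) with hQ
  have hc : Q.coeff (T.card - 1) = ((∑ j ∈ T, A j : ℝ) : ℂ) := by
    rw [hQ, finset_sum_coeff, ofReal_sum]
    refine Finset.sum_congr rfl fun j hj => ?_
    have h1 := (monic_prod_of_monic (T.erase j) (fun k => X - C k) fun k _ => monic_X_sub_C k)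
    have h3 : (∏ k ∈ T.erase j, (X - C k : ℂ[X])).natDegree = T.card - 1 := by
      rw [natDegree_finset_prod_X_sub_C_eq_card, Finset.card_erase_of_mem hj]
    rw [coeff_C_mul, ← h3, h1.coeff_natDegree, mul_one]
  have hne : Q.coeff (T.card - 1) ≠ 0 := by
    rw [hc, ofReal_ne_zero]
    exact (Finset.sum_pos hA (Finset.card_pos.1 (by omega))).ne'
  obtain ⟨z, hz⟩ := Complex.exists_root (f := Q) (lt_of_lt_of_le
    (by exact_mod_cast (by omega : 0 < T.card - 1)) (le_degree_of_ne_zero hne))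
  simp only [hQ, IsRoot.def, eval_finset_sum, eval_mul, eval_C, eval_prod, eval_sub, eval_X] at hz
  have hzT : z ∉ T := fun hzT => by
    rw [Finset.sum_eq_single z (fun j _ hj => by
      rw [Finset.prod_eq_zero (Finset.mem_erase.2 ⟨hj.symm, hzT⟩) (sub_self z), mul_zero])
      (fun h => absurd hzT h), mul_eq_zero, Finset.prod_eq_zero_iff] at hz
    rcases hz with hz | ⟨k, hk, hz⟩
    · exact (hA z hzT).ne' (ofReal_eq_zero.1 hz)
    · exact (Finset.mem_erase.1 hk).1 (sub_eq_zero.1 hz).symm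
  refine ⟨z, hzT, ?_⟩
  have hP : ∏ k ∈ T, (z - k) ≠ 0 :=
    Finset.prod_ne_zero_iff.2 fun k hk => sub_ne_zero.2 (by rintro rfl; exact hzT hk)
  refine (mul_eq_zero.1 ?_).resolve_left hP
  rw [← neg_eq_zero, ← hz, Finset.mul_sum, ← Finset.sum_neg_distrib]
  refine Finset.sum_congr rfl fun j hj => ?_
  have : j - z ≠ 0 := sub_ne_zero.2 (by rintro rfl; exact hzT hj)
  rw [← Finset.mul_prod_erase _ _ hj]
  field_simp; ring

theorem cplx : ∃ A : ℂ → ℝ, (∀ x, 0 ≤ A x) ∧ A 0 = 0 ∧ (∀ r, {x | A x ≠ 0 ∧ ‖x‖ ≤ r}.Finite) ∧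
    (Summable fun x => A x / ‖x‖) ∧ {x | A x ≠ 0}.Infinite ∧
    ∀ z, A z = 0 → ∃ F, F ≠ 0 ∧ HasSum (fun x => A x / (x - z)) F := by
  obtain ⟨a, ha⟩ := pk.rs
  obtain ⟨hs, hf⟩ := pk.pf ha decay
  have hI : -I ≠ 0 := by simp
  have hD : ∀ z, a z = 0 → D z ≠ 0 := fun z h1 h2 => (ha.pos z h2).ne' h1
  have hS : ∀ z, D z ≠ 0 → HasSum (fun p => a p / (p - z)) (N z / D z) := fun z hz => by
    obtain ⟨C, hC⟩ := pk.cmp hz
    rw [hf z hz]
    refine (Summable.of_norm_bounded (hs.mul_left C) fun p => ?_).hasSum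
    by_cases hp : D p = 0
    · have h1 := norm_pos_iff.2 (pk.ne0 hp)
      have h2 : 0 < ‖p - z‖ := norm_pos_iff.2 (sub_ne_zero.2 (by rintro rfl; exact hz hp))
      rw [norm_div, norm_real, Real.norm_of_nonneg (ha.nonneg p), ← mul_div_assoc,
        div_le_div_iff₀ h2 h1]
      nlinarith [mul_le_mul_of_nonneg_left (hC p hp) (ha.nonneg p)]
    · simp [ha.off p hp]
  have h0 : a 0 + a (-I * 0) = 0 := by simp [ha.off 0 (pk.ne le_rfl)]
  have hF : ∀ z, a z + a (-I * z) = 0 → ∃ F, F ≠ 0 ∧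
      HasSum (fun x => ((a x + a (-I * x) : ℝ) : ℂ) / (x - z)) F := fun z hz => by
    have h1 := hD z (by linarith [ha.nonneg z, ha.nonneg (-I * z)])
    have h2 := hD (-I * z) (by linarith [ha.nonneg z, ha.nonneg (-I * z)])
    have h3 := ((Equiv.mulLeft₀ _ hI).hasSum_iff.2 (hS _ h2)).mul_left (-I)
    refine ⟨_, fun h => wr z ?_, ((hS z h1).add h3).congr_fun fun x => ?_⟩
    · generalize N (-I * z) = n, D (-I * z) = d at h h2 ⊢
      field_simp at h
      linear_combination -h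
    · simp only [Function.comp_apply, Equiv.mulLeft₀_apply]
      rw [← mul_sub, mul_div_assoc', mul_div_mul_left _ _ hI]; push_cast; ring
  refine ⟨fun x => a x + a (-I * x), fun x => add_nonneg (ha.nonneg _) (ha.nonneg _), h0,
    fun r => ?_, ?_, fun hfin => ?_, hF⟩
  · refine ((pk.fin r).union ((pk.fin r).preimage (mul_right_injective₀ hI).injOn)).subset
      fun x hx => ?_
    by_contra hc
    simp only [mem_union, mem_preimage, mem_setOf_eq, not_or, not_and] at hc
    refine hx.1 ?_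
    show a x + a (-I * x) = 0
    rw [ha.off x fun h => hc.1 h hx.2, ha.off _ fun h => hc.2 h (by simpa using hx.2), add_zero]
  · refine (hs.add ((Equiv.mulLeft₀ _ hI).summable_iff.2 hs)).congr fun x => ?_
    simp [add_div]
  · have hz : ∀ z, a z + a (-I * z) = 0 →
        ∑ x ∈ hfin.toFinset, ((a x + a (-I * x) : ℝ) : ℂ) / (x - z) ≠ 0 := fun z hz => by
      obtain ⟨F, h1, h2⟩ := hF z hz
      rwa [← h2.unique (hasSum_sum_of_ne_finset_zero fun x hx => by
        rw [show a x + a (-I * x) = 0 by simpa using hx]; simp)]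
    obtain ⟨p, hp⟩ : ∃ p, a p ≠ 0 := by
      by_contra! h
      exact hz 0 h0 (by simp [h])
    have hp1 : D p = 0 := by_contra fun h => hp (ha.off p h)
    have hp2 := ha.pos p hp1
    refine (fin_root hfin.toFinset (fun x => a x + a (-I * x))
      (fun x hx => lt_of_le_of_ne (add_nonneg (ha.nonneg _) (ha.nonneg _))
        (Ne.symm (by simpa using hx))) (Finset.one_lt_card.2 ⟨p, ?_, I * p, ?_, fun h => ?_⟩)).elim
      fun z ⟨h1, h2⟩ => hz z (by simpa using h1) h2
    · rw [hfin.mem_toFinset]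
      exact ne_of_gt (by linarith [ha.nonneg (-I * p)])
    · rw [hfin.mem_toFinset]
      show a (I * p) + a (-I * (I * p)) ≠ 0
      rw [show -I * (I * p) = p by linear_combination (-p) * I_mul_I]
      exact ne_of_gt (by linarith [ha.nonneg (I * p)])
    · obtain ⟨-, h3, h4⟩ := pk.h0 p hp1
      have := congrArg re h
      simp [h3] at this; linarith

end Pool.Agent.H94.FF
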