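import Pool.Agent.H94.GLDefs
import Pool.Agent.H96.Harm

set_option autoImplicit false
open Set Filter Topology InnerProductSpace Metric Laplacian

namespace Pool.Agent.H94.GL
open Pool.Agent.H96.Harm

variable {n : ℕ}

theorem core (K : Set (E n)) (hK : IsCompact K) (A : E n → ℝ) (hA : LowerSemicontinuousOn A K)
    (ht : ∀ z ∈ K, A z < 0 → ∀ d : ℝ, 0 < d →
      ¬ ∀ x ∈ K, A z + d * (‖x‖ ^ 2 - ‖z‖ ^ 2) ≤ A x) : ∀ x ∈ K, 0 ≤ A x := by
  intro x hx
  by_contra hneg
  push Not at hneg
  obtain ⟨R, hR⟩ := hK.isBounded.exists_norm_le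
  set d := -A x / (R ^ 2 + 1) with hd
  have hd0 : 0 < d := div_pos (by linarith) (by positivity)
  have hc : Continuous fun y : E n => -d * ‖y‖ ^ 2 := by fun_prop
  obtain ⟨z, hz, hmin⟩ := LowerSemicontinuousOn.exists_isMinOn (f := fun y => A y + -d * ‖y‖ ^ 2)
    ⟨x, hx⟩ hK (hA.add (hc.lowerSemicontinuous.lowerSemicontinuousOn K))
  have h1 : ∀ y ∈ K, A z + -d * ‖z‖ ^ 2 ≤ A y + -d * ‖y‖ ^ 2 := fun y hy => hmin hy
  have h2 : d * (R ^ 2 + 1) = -A x := by rw [hd]; field_simp
  have h3 := pow_le_pow_left₀ (norm_nonneg z) (hR z hz) 2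
  refine ht z hz ?_ d hd0 fun y hy => by linarith [h1 y hy]
  have := h1 x hx
  nlinarith [mul_nonneg hd0.le (sq_nonneg ‖x‖)]

theorem lap_sq (hn : 0 < n) (x : E n) : Δ (fun y : E n => ‖y‖ ^ 2) x = 2 * n := by
  have := lap_quad (⟨0, hn⟩ : Fin n) 0 x
  simpa using this

theorem touch (hn : 0 < n) {W : E n → ℝ} {z : E n} (hW : HarmonicAt W z) {d : ℝ} (hd : 0 < d)
    (h : ∀ᶠ x in 𝓝 z, W z + d * (‖x‖ ^ 2 - ‖z‖ ^ 2) ≤ W x) : False := by
  have hs : ContDiff ℝ 2 ((-d) • fun y : E n => ‖y‖ ^ 2) :=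
    ContDiff.const_smul (f := fun y : E n => ‖y‖ ^ 2) (-d) (contDiff_norm_sq ℝ)
  have d6 : 0 ≤ Δ (W + (-d) • fun y : E n => ‖y‖ ^ 2) z := by
    refine second_nonneg _ z (hW.1.add hs.contDiffAt) ?_
    filter_upwards [h] with x hx
    simp only [Pi.add_apply, Pi.smul_apply, smul_eq_mul]
    linarith
  rw [ContDiffAt.laplacian_add hW.1 hs.contDiffAt, hW.2.eq_of_nhds,
    laplacian_smul _ (contDiff_norm_sq ℝ).contDiffAt, lap_sq hn] at d6
  simp only [Pi.zero_apply, smul_eq_mul] at d6
  have : (0 : ℝ) < n := by exact_mod_cast hn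
  nlinarith

theorem harm_affine (a : E n) (c : ℝ) (x : E n) :
    HarmonicAt (fun y : E n => c + inner ℝ a y) x := by
  have hs : ContDiff ℝ 2 (fun y : E n => c + inner ℝ a y) :=
    contDiff_const.add (innerSL ℝ a).contDiff
  refine ⟨hs.contDiffAt, Eventually.of_forall fun y => ?_⟩
  rw [laplacian_eq_iteratedFDeriv_stdOrthonormalBasis]
  simp only [second_line _ _ _ hs.contDiffAt, Pi.zero_apply]
  refine Finset.sum_eq_zero fun i _ => ?_
  set v := stdOrthonormalBasis ℝ (E n) i
  have h1 : (deriv fun t : ℝ => c + inner ℝ a (y + t • v)) = fun _ => inner ℝ a v := by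
    funext t
    simp only [inner_add_right, inner_smul_right]
    have := (((hasDerivAt_id t).mul_const (inner ℝ a v)).const_add (inner ℝ a y)).const_add c
    simpa using this.deriv
  rw [h1]
  simp

/-- data of an explicit candidate for the Green function -/
structure Cand (D : Set (E n)) (x₀ : E n) (u : E n → ℝ) : Prop where
  hn : 3 ≤ n
  op : IsOpen D
  bd : Bornology.IsBounded D
  mem : x₀ ∈ D
  harm : ∀ x ∈ D, x ≠ x₀ → HarmonicAt u x
  pos : ∀ x ∈ D, x ≠ x₀ → 0 < u x
  lim : ∀ p, p ∉ D → ∀ e : ℝ, 0 < e → ∀ᶠ x in 𝓝 p, x ∈ D → u x < e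
  pole : ∃ h : E n → ℝ, HarmonicAt h x₀ ∧
    ∀ᶠ x in 𝓝[≠] x₀, u x = ‖x - x₀‖ ^ (2 - (n : ℤ)) + h x

theorem big (hn : 3 ≤ n) {x₀ : E n} {h : E n → ℝ} (hh : ContinuousAt h x₀) (M : ℝ) :
    ∀ᶠ x in 𝓝[≠] x₀, M ≤ ‖x - x₀‖ ^ (2 - (n : ℤ)) + h x := by
  have h1 : Tendsto (fun x : E n => ‖x - x₀‖) (𝓝[≠] x₀) (𝓝[>] 0) := tendsto_norm_sub_self_nhdsNE x₀
  have h2 : Tendsto (fun r : ℝ => r ^ (2 - (n : ℤ))) (𝓝[>] 0) atTop := by
    obtain ⟨m, rfl⟩ := Nat.exists_eq_add_of_le hn
    have := (tendsto_pow_atTop (α := ℝ) (n := m + 1) (by omega)).comp tendsto_inv_nhdsGT_zero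
    refine this.congr fun r => ?_
    have e : 2 - ((3 + m : ℕ) : ℤ) = -((m + 1 : ℕ) : ℤ) := by push_cast; ring
    rw [e, zpow_neg, zpow_natCast]
    simp
  have h3 := (h2.comp h1).atTop_add (hh.tendsto.mono_left nhdsWithin_le_nhds)
  exact h3.eventually_ge_atTop M

open Classical in
/-- the candidate with value `+∞` at the pole -/
noncomputable def gr (x₀ : E n) (u : E n → ℝ) (x : E n) : EReal := if x = x₀ then ⊤ else u x

theorem gr_ne {x₀ x : E n} (u : E n → ℝ) (h : x ≠ x₀) : gr x₀ u x = u x := if_neg h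

theorem gr_eq (x₀ : E n) (u : E n → ℝ) : gr x₀ u x₀ = ⊤ := if_pos rfl

namespace Cand
variable {D : Set (E n)} {x₀ : E n} {u : E n → ℝ}

theorem ubig (C : Cand D x₀ u) (M : ℝ) : ∀ᶠ x in 𝓝[≠] x₀, M ≤ u x := by
  obtain ⟨h, hh, he⟩ := C.pole
  filter_upwards [he, big C.hn hh.1.continuousAt M] with x h1 h2
  rw [h1]; exact h2

theorem npos (C : Cand D x₀ u) : 0 < n := by have := C.hn; omega

theorem neb (C : Cand D x₀ u) : (𝓝[≠] x₀).NeBot := by
  have : Nonempty (Fin n) := ⟨⟨0, C.npos⟩⟩
  infer_instance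

theorem compare (C : Cand D x₀ u) (z : E n) (r : ℝ) (hB : closedBall z r ⊆ D) (hr : 0 < r)
    (h : E n → ℝ) (hh : HarmonicContOnCl h (ball z r))
    (hs : ∀ x ∈ sphere z r, (h x : EReal) ≤ gr x₀ u x) :
    ∀ x ∈ ball z r, (h x : EReal) ≤ gr x₀ u x := by
  classical
  have hc : ContinuousOn h (closedBall z r) := by
    have := hh.continuousOn
    rwa [closure_ball z hr.ne'] at this
  let A : E n → ℝ := fun x => if x = x₀ then 0 else min (u x - h x) 0
  have hA : ∀ x, x ≠ x₀ → A x = min (u x - h x) 0 := fun x hx => if_neg hx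
  have key := core (closedBall z r) (isCompact_closedBall z r) A ?_ ?_
  · intro x hx
    by_cases h0 : x = x₀
    · rw [h0, gr_eq]; exact le_top
    · rw [gr_ne u h0, EReal.coe_le_coe_iff]
      have := key x (ball_subset_closedBall hx)
      rw [hA x h0] at this
      linarith [min_le_left (u x - h x) 0]
  · intro x hx
    by_cases h0 : x = x₀
    · subst h0
      intro y hy
      have hy0 : y < 0 := by simpa [A] using hy
      have h1 : ∀ᶠ p in 𝓝[closedBall z r] x, h p < h x + 1 :=
        (hc x hx).eventually (gt_mem_nhds (by linarith))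
      have h2 := (eventually_nhdsWithin_iff.1 (C.ubig (h x + 1))).filter_mono
        (nhdsWithin_le_nhds (s := closedBall z r))
      filter_upwards [h1, h2] with p a b
      by_cases hp : p = x
      · rw [hp]; exact hy
      · rw [hA p hp]
        have := b hp
        exact lt_min (by linarith) hy0
    · have h1 : ContinuousWithinAt (fun p => min (u p - h p) 0) (closedBall z r) x :=
        ((C.harm x (hB hx) h0).1.continuousAt.continuousWithinAt.sub (hc x hx)).min
          continuousWithinAt_const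
      refine (h1.congr_of_eventuallyEq ?_ (hA x h0)).lowerSemicontinuousWithinAt
      filter_upwards [nhdsWithin_le_nhds (isOpen_ne.mem_nhds h0)] with p hp using hA p hp
  · intro p hp hneg d hd hall
    have h0 : p ≠ x₀ := by rintro rfl; simp [A] at hneg
    rw [hA p h0] at hneg
    have h1 : u p - h p < 0 := by
      rcases min_lt_iff.1 hneg with a | a
      · exact a
      · exact absurd a (lt_irrefl _)
    have h2 : p ∈ ball z r := by
      rcases (mem_closedBall.1 hp).lt_or_eq with a | a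
      · exact a
      · have := hs p a
        rw [gr_ne u h0, EReal.coe_le_coe_iff] at this
        linarith
    refine touch C.npos ((C.harm p (hB hp) h0).sub (hh.harmonicOnNhd p h2)) hd ?_
    filter_upwards [isOpen_ball.mem_nhds h2, isOpen_ne.mem_nhds h0] with q a b
    have := hall q (ball_subset_closedBall a)
    rw [hA p h0, hA q b, min_eq_left h1.le] at this
    simp only [Pi.sub_apply]
    linarith [min_le_left (u q - h q) 0]

theorem adm (C : Cand D x₀ u) : Admissible D x₀ (gr x₀ u) := by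
  have := C.neb
  refine ⟨⟨fun x _ => ?_, ?_, fun x hx => ?_, fun z r hr hB h hh hs => C.compare z r hB hr h hh hs⟩,
    fun x hx => ?_, ?_⟩
  · by_cases h0 : x = x₀
    · rw [h0, gr_eq]; simp
    · rw [gr_ne u h0]; simp
  · have e : ∀ᶠ x in 𝓝[≠] x₀, x ∈ D := nhdsWithin_le_nhds (C.op.mem_nhds C.mem)
    obtain ⟨x, h1, h2⟩ := (e.and self_mem_nhdsWithin).exists
    exact ⟨x, h1, by rw [gr_ne u h2]; simp⟩
  · refine LowerSemicontinuousAt.lowerSemicontinuousWithinAt _ ?_
    by_cases h0 : x = x₀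
    · subst h0
      intro y hy
      obtain ⟨M, hM, -⟩ := EReal.lt_iff_exists_real_btwn.1 hy
      filter_upwards [eventually_nhdsWithin_iff.1 (C.ubig M)] with p hp
      by_cases h : p = x
      · rw [h]; exact hy
      · rw [gr_ne u h]
        exact hM.trans_le (EReal.coe_le_coe_iff.2 (hp h))
    · have h1 : ContinuousAt (fun p => (u p : EReal)) x :=
        continuous_coe_real_ereal.continuousAt.comp (C.harm x hx h0).1.continuousAt
      refine (h1.congr ?_).lowerSemicontinuousAt
      filter_upwards [isOpen_ne.mem_nhds h0] with p hp using (gr_ne u hp).symm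
  · by_cases h0 : x = x₀
    · rw [h0, gr_eq]; simp
    · rw [gr_ne u h0]; exact_mod_cast C.pos x hx h0
  · obtain ⟨h, hh, he⟩ := C.pole
    refine ⟨h, hh, ?_⟩
    filter_upwards [he, self_mem_nhdsWithin] with x h1 h2
    rw [gr_ne u h2, h1]

theorem conn (C : Cand D x₀ u) : IsConnected D := by
  classical
  refine ⟨⟨x₀, C.mem⟩, ?_⟩
  have key : ∀ U V : Set (E n), IsOpen U → IsOpen V → D ⊆ U ∪ V → x₀ ∈ U → (D ∩ V).Nonempty →
      (D ∩ (U ∩ V)).Nonempty := by
    intro U V hU hV hUV h0 ⟨x, hx⟩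
    by_contra hne
    have hd : ∀ p ∈ D, p ∈ U → p ∉ V := fun p a b c => hne ⟨p, a, b, c⟩
    obtain ⟨R, hR⟩ := C.bd.subset_closedBall 0
    let A : E n → ℝ := fun p => if p ∈ D ∩ V then -u p else 0
    have hA : ∀ p ∈ D ∩ V, A p = -u p := fun p hp => if_pos hp
    have hA' : ∀ p, p ∉ D ∩ V → A p = 0 := fun p hp => if_neg hp
    have hn0 : ∀ p ∈ D ∩ V, p ≠ x₀ := by rintro p hp rfl; exact hd p hp.1 h0 hp.2
    have k := core (closedBall 0 R) (isCompact_closedBall 0 R) A ?_ ?_ x (hR hx.1)
    · rw [hA x hx] at k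
      linarith [C.pos x hx.1 (hn0 x hx)]
    · intro p _
      refine LowerSemicontinuousAt.lowerSemicontinuousWithinAt _ ?_
      by_cases hp : p ∈ D ∩ V
      · refine ((C.harm p hp.1 (hn0 p hp)).1.continuousAt.neg.congr ?_).lowerSemicontinuousAt
        filter_upwards [(C.op.inter hV).mem_nhds hp] with q hq using (hA q hq).symm
      · intro y hy
        rw [hA' p hp] at hy
        by_cases hD : p ∈ D
        · have hpU : p ∈ U := (hUV hD).resolve_right fun a => hp ⟨hD, a⟩
          filter_upwards [(C.op.inter hU).mem_nhds ⟨hD, hpU⟩] with q hq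
          rw [hA' q fun a => hd q hq.1 hq.2 a.2]; exact hy
        · filter_upwards [C.lim p hD (-y) (by linarith)] with q hq
          by_cases a : q ∈ D ∩ V
          · rw [hA q a]; linarith [hq a.1]
          · rw [hA' q a]; exact hy
    · intro p _ hneg d hd hall
      have hp : p ∈ D ∩ V := by
        by_contra a
        rw [hA' p a] at hneg
        exact lt_irrefl _ hneg
      refine touch C.npos (C.harm p hp.1 (hn0 p hp)).neg hd ?_
      filter_upwards [(C.op.inter hV).mem_nhds hp] with q hq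
      have := hall q (hR hq.1)
      rw [hA p hp, hA q hq] at this
      exact this
  intro U V hU hV hUV hu hv
  rcases hUV C.mem with h | h
  · exact key U V hU hV hUV h hv
  · rw [inter_comm U V]
    exact key V U hV hU (by rwa [union_comm]) h hu

theorem least (C : Cand D x₀ u) {v : E n → EReal} (hv : Admissible D x₀ v) :
    ∀ x ∈ D, gr x₀ u x ≤ v x := by
  classical
  obtain ⟨⟨hb, -, hl, hcmp⟩, hp, h, hh, he⟩ := hv
  obtain ⟨k, hk, hke⟩ := C.pole
  obtain ⟨R, hR⟩ := C.bd.subset_closedBall 0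
  let A : E n → ℝ := fun p =>
    if p = x₀ then min (h p - k p) 0 else if p ∈ D ∧ v p < u p then (v p).toReal - u p else 0
  have hA0 : A x₀ = min (h x₀ - k x₀) 0 := if_pos rfl
  have hA1 : ∀ p, p ≠ x₀ → p ∈ D → v p < u p → A p = (v p).toReal - u p := fun p a b c => by
    simp only [A, if_neg a, if_pos (And.intro b c)]
  have hA2 : ∀ p, p ≠ x₀ → ¬(p ∈ D ∧ v p < u p) → A p = 0 := fun p a b => by
    simp only [A, if_neg a, if_neg b]
  have hre : ∀ p ∈ D, v p < u p → ((v p).toReal : EReal) = v p := fun p a b =>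
    EReal.coe_toReal (ne_top_of_lt b) (hb p a)
  have hlt : ∀ p, p ≠ x₀ → p ∈ D → ∀ y : ℝ, y < A p ↔ y < 0 ∧ ((y + u p : ℝ) : EReal) < v p := by
    intro p a b y
    by_cases c : v p < u p
    · rw [hA1 p a b c]
      have c' := c
      rw [← hre p b c, EReal.coe_lt_coe_iff] at c'
      conv_rhs => rw [← hre p b c, EReal.coe_lt_coe_iff]
      constructor
      · intro e; constructor <;> linarith
      · intro e; linarith [e.2]
    · rw [hA2 p a fun e => c e.2]
      refine ⟨fun e => ⟨e, lt_of_lt_of_le ?_ (not_lt.1 c)⟩, fun e => e.1⟩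
      exact EReal.coe_lt_coe_iff.2 (by linarith)
  have hnear : ∀ᶠ p in 𝓝 x₀, A p = min (h p - k p) 0 := by
    filter_upwards [eventually_nhdsWithin_iff.1 (he.and hke), C.op.mem_nhds C.mem] with p a b
    by_cases c : p = x₀
    · rw [c]; exact hA0
    · obtain ⟨a1, a2⟩ := a c
      refine eq_of_forall_lt_iff fun y => ?_
      rw [hlt p c b y, a1, EReal.coe_lt_coe_iff, a2, lt_min_iff]
      constructor
      · intro e; exact ⟨by linarith [e.2], e.1⟩
      · intro e; exact ⟨e.2, by linarith [e.1]⟩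
  have key := core (closedBall 0 R) (isCompact_closedBall 0 R) A ?_ ?_
  · intro x hx
    by_cases h0 : x = x₀
    · subst h0
      rw [gr_eq, top_le_iff, EReal.eq_top_iff_forall_lt]
      intro M
      have e1 := eventually_nhdsWithin_iff.1 (he.and (big C.hn hh.1.continuousAt (M + 1)))
      obtain ⟨r, hr, hB⟩ := nhds_basis_closedBall.mem_iff.1 (e1.and (C.op.mem_nhds hx))
      have := hcmp x r hr (fun p a => (hB a).2) (fun _ => M + 1) harmonicContOnCl_const
        (fun p a => ?_) x (mem_ball_self hr)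
      · exact lt_of_lt_of_le (EReal.coe_lt_coe_iff.2 (by linarith)) this
      · have hne : p ≠ x := ne_of_mem_sphere a hr.ne'
        obtain ⟨b1, b2⟩ := (hB (sphere_subset_closedBall a)).1 hne
        rw [b1]
        exact EReal.coe_le_coe_iff.2 b2
    · rw [gr_ne u h0]
      by_contra c
      have c := not_le.1 c
      have := key x (hR hx)
      rw [hA1 x h0 hx c] at this
      rw [← hre x hx c, EReal.coe_lt_coe_iff] at c
      linarith
  · intro p _
    refine LowerSemicontinuousAt.lowerSemicontinuousWithinAt _ ?_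
    by_cases h0 : p = x₀
    · subst h0
      have : ContinuousAt (fun q => min (h q - k q) 0) p :=
        (hh.1.continuousAt.sub hk.1.continuousAt).min continuousAt_const
      exact (this.congr (EventuallyEq.symm hnear)).lowerSemicontinuousAt
    · intro y hy
      by_cases hD : p ∈ D
      · obtain ⟨y0, y1⟩ := (hlt p h0 hD y).1 hy
        obtain ⟨M, m1, m2⟩ := EReal.lt_iff_exists_real_btwn.1 y1
        rw [EReal.coe_lt_coe_iff] at m1
        have e1 := hl p hD M m2
        rw [C.op.nhdsWithin_eq hD] at e1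
        have e2 : ∀ᶠ q in 𝓝 p, u q < M - y :=
          (C.harm p hD h0).1.continuousAt.eventually (gt_mem_nhds (by linarith))
        filter_upwards [e1, e2, C.op.mem_nhds hD, isOpen_ne.mem_nhds h0] with q a b c e
        exact (hlt q e c y).2 ⟨y0, lt_trans (EReal.coe_lt_coe_iff.2 (by linarith)) a⟩
      · rw [hA2 p h0 fun e => hD e.1] at hy
        filter_upwards [C.lim p hD (-y) (by linarith), isOpen_ne.mem_nhds h0] with q a e
        by_cases c : q ∈ D
        · refine (hlt q e c y).2 ⟨hy, lt_trans ?_ (hp q c)⟩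
          have : y + u q < 0 := by linarith [a c]
          exact_mod_cast this
        · rw [hA2 q e fun e => c e.1]; exact hy
  · intro p _ hneg d hd hall
    by_cases h0 : p = x₀
    · subst h0
      rw [hA0] at hneg
      have h1 : h p - k p < 0 := by
        rcases min_lt_iff.1 hneg with a | a
        · exact a
        · exact absurd a (lt_irrefl _)
      refine touch C.npos (hh.sub hk) hd ?_
      filter_upwards [hnear, C.op.mem_nhds C.mem] with q a b
      have := hall q (hR b)
      rw [hA0, a, min_eq_left h1.le] at this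
      simp only [Pi.sub_apply]
      linarith [min_le_left (h q - k q) 0]
    · have hpD : p ∈ D ∧ v p < u p := by
        by_contra a
        rw [hA2 p h0 a] at hneg
        exact lt_irrefl _ hneg
      obtain ⟨r, hr, hB⟩ := nhds_basis_closedBall.mem_iff.1
        (inter_mem (C.op.mem_nhds hpD.1) (isOpen_ne.mem_nhds h0))
      have hH : HarmonicOnNhd
          ((fun y : E n => (A p + d * r ^ 2 - 2 * d * ‖p‖ ^ 2) + inner ℝ ((2 * d) • p) y) + u)
          (closedBall p r) := fun q a => (harm_affine _ _ q).add (C.harm q (hB a).1 (hB a).2)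
      have := hcmp p r hr (fun q a => (hB a).1) _
        (HarmonicOnNhd.harmonicContOnCl (by rwa [closure_ball p hr.ne'])) (fun q a => ?_) p
        (mem_ball_self hr)
      · rw [← hre p hpD.1 hpD.2, EReal.coe_le_coe_iff, hA1 p h0 hpD.1 hpD.2] at this
        simp only [Pi.add_apply, inner_smul_left, real_inner_self_eq_norm_sq, conj_trivial] at this
        nlinarith [mul_pos hd (pow_pos hr 2)]
      · have hq := hB (sphere_subset_closedBall a)
        have e1 := hall q (hR hq.1)
        have e2 : ‖q‖ ^ 2 - 2 * inner ℝ p q + ‖p‖ ^ 2 = r ^ 2 := by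
          rw [← mem_sphere_iff_norm.1 a, norm_sub_sq_real, real_inner_comm]
        refine le_of_forall_lt fun c hc => ?_
        obtain ⟨M, m1, m2⟩ := EReal.lt_iff_exists_real_btwn.1 hc
        rw [EReal.coe_lt_coe_iff] at m2
        simp only [Pi.add_apply, inner_smul_left, conj_trivial] at m2
        have := ((hlt q hq.2 hq.1 (M - u q)).1 (by nlinarith)).2
        rw [sub_add_cancel] at this
        exact m1.trans this

theorem green (C : Cand D x₀ u) : IsGreen D x₀ (gr x₀ u) := ⟨C.adm, fun _ hv => C.least hv⟩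

end Cand

end Pool.Agent.H94.GL
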