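import Pool.Agent.H94.GL1

set_option autoImplicit false
open Set Filter Topology InnerProductSpace Metric Laplacian

namespace Pool.Agent.H94.GL
open Pool.Agent.H96.Harm

/-- value, first and second derivative at `0` -/
def Jet (F : ℝ → ℝ) (a b c : ℝ) : Prop :=
  F 0 = a ∧ ∃ G : ℝ → ℝ, (∀ᶠ t in 𝓝 (0 : ℝ), HasDerivAt F (G t) t) ∧ G 0 = b ∧ HasDerivAt G c 0

namespace Jet
variable {F F₁ : ℝ → ℝ} {a b c a₁ b₁ c₁ : ℝ}

theorem dd (h : Jet F a b c) : deriv (deriv F) 0 = c := by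
  obtain ⟨-, G, h1, -, h3⟩ := h
  have : deriv F =ᶠ[𝓝 0] G := h1.mono fun t ht => ht.deriv
  rw [this.deriv_eq, h3.deriv]

theorem cast (h : Jet F a b c) (e₁ : a = a₁) (e₂ : b = b₁) (e₃ : c = c₁) : Jet F a₁ b₁ c₁ := by
  rw [← e₁, ← e₂, ← e₃]; exact h

theorem quad (a b c : ℝ) : Jet (fun t => a + b * t + c * t ^ 2) a b (2 * c) := by
  refine ⟨by simp, fun t => b + c * (2 * t), Eventually.of_forall fun t => ?_, by simp, ?_⟩
  · simpa using (((hasDerivAt_id t).const_mul b).const_add a).fun_add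
      ((hasDerivAt_pow 2 t).const_mul c)
  · have := ((((hasDerivAt_id (0 : ℝ)).const_mul 2).const_mul c).const_add b)
    simpa [mul_comm] using this

theorem comp (h : Jet F a b c) {φ φ' : ℝ → ℝ} {e : ℝ}
    (h1 : ∀ᶠ y in 𝓝 a, HasDerivAt φ (φ' y) y) (h2 : HasDerivAt φ' e a) :
    Jet (fun t => φ (F t)) (φ a) (φ' a * b) (e * b ^ 2 + φ' a * c) := by
  obtain ⟨rfl, G, g1, rfl, g3⟩ := h
  have g0 := g1.self_of_nhds
  refine ⟨rfl, fun t => φ' (F t) * G t, ?_, rfl, ?_⟩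
  · filter_upwards [g1, g0.continuousAt.tendsto.eventually h1] with t p q using q.comp t p
  · have := (h2.comp (0 : ℝ) g0).fun_mul g3
    refine this.congr_deriv ?_
    simp only [Function.comp]
    ring

theorem add (h : Jet F a b c) (k : Jet F₁ a₁ b₁ c₁) :
    Jet (fun t => F t + F₁ t) (a + a₁) (b + b₁) (c + c₁) := by
  obtain ⟨rfl, G, g1, rfl, g3⟩ := h
  obtain ⟨rfl, H, k1, rfl, k3⟩ := k
  refine ⟨rfl, fun t => G t + H t, ?_, rfl, g3.fun_add k3⟩
  filter_upwards [g1, k1] with t p q using p.fun_add q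

theorem sub (h : Jet F a b c) (k : Jet F₁ a₁ b₁ c₁) :
    Jet (fun t => F t - F₁ t) (a - a₁) (b - b₁) (c - c₁) := by
  obtain ⟨rfl, G, g1, rfl, g3⟩ := h
  obtain ⟨rfl, H, k1, rfl, k3⟩ := k
  refine ⟨rfl, fun t => G t - H t, ?_, rfl, g3.fun_sub k3⟩
  filter_upwards [g1, k1] with t p q using p.fun_sub q

theorem mul (h : Jet F a b c) (k : Jet F₁ a₁ b₁ c₁) :
    Jet (fun t => F t * F₁ t) (a * a₁) (b * a₁ + a * b₁) (c * a₁ + 2 * b * b₁ + a * c₁) := by
  obtain ⟨rfl, G, g1, rfl, g3⟩ := h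
  obtain ⟨rfl, H, k1, rfl, k3⟩ := k
  refine ⟨rfl, fun t => G t * F₁ t + F t * H t, ?_, rfl, ?_⟩
  · filter_upwards [g1, k1] with t p q using p.fun_mul q
  · refine ((g3.fun_mul k1.self_of_nhds).fun_add (g1.self_of_nhds.fun_mul k3)).congr_deriv ?_
    ring

theorem inv (h : Jet F a b c) (ha : a ≠ 0) :
    Jet (fun t => (F t)⁻¹) a⁻¹ (-b / a ^ 2) (2 * b ^ 2 / a ^ 3 - c / a ^ 2) := by
  have h2 : HasDerivAt (fun y : ℝ => -(y ^ 2)⁻¹) (2 / a ^ 3) a := by
    refine ((hasDerivAt_pow 2 a).fun_inv (pow_ne_zero 2 ha)).fun_neg.congr_deriv ?_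
    simp; field_simp
  refine (h.comp (φ := fun y => y⁻¹) ?_ h2).cast rfl (by ring) (by ring)
  filter_upwards [isOpen_ne.mem_nhds ha] with y hy using hasDerivAt_inv hy

theorem sqrt (h : Jet F a b c) (ha : 0 < a) :
    Jet (fun t => √(F t)) (√a) (b / (2 * √a)) (c / (2 * √a) - b ^ 2 / (4 * √a ^ 3)) := by
  have hs := Real.sqrt_pos.2 ha
  have h2 : HasDerivAt (fun y : ℝ => 1 / (2 * √y)) (-1 / (4 * √a ^ 3)) a := by
    simp only [one_div]
    refine (((Real.hasDerivAt_sqrt ha.ne').const_mul 2).fun_inv (by positivity)).congr_deriv ?_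
    field_simp
    ring
  refine (h.comp (φ := fun y => √y) ?_ h2).cast rfl (by ring) (by ring)
  filter_upwards [isOpen_ne.mem_nhds ha.ne'] with y hy using Real.hasDerivAt_sqrt hy

theorem log (h : Jet F a b c) (ha : a ≠ 0) :
    Jet (fun t => Real.log (F t)) (Real.log a) (b / a) (c / a - b ^ 2 / a ^ 2) := by
  refine (h.comp (φ := Real.log) ?_ (hasDerivAt_inv ha)).cast rfl (by ring) (by ring)
  filter_upwards [isOpen_ne.mem_nhds ha] with y hy using Real.hasDerivAt_log hy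

end Jet

variable {n : ℕ}

/-- the coordinate vectors -/
noncomputable def ee (i : Fin n) : E n := EuclideanSpace.single i 1

theorem jet_sq (x : E n) (i : Fin n) :
    Jet (fun t => ‖x + t • ee i‖ ^ 2) (‖x‖ ^ 2) (2 * x i) 2 := by
  have := (Jet.quad (‖x‖ ^ 2) (2 * x i) 1).cast rfl rfl (mul_one 2)
  convert this using 2 with t
  rw [norm_add_sq_real, norm_smul, inner_smul_right]
  simp [ee, EuclideanSpace.inner_single_right]
  ring

theorem jet_norm {x : E n} (hx : x ≠ 0) (i : Fin n) :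
    Jet (fun t => ‖x + t • ee i‖) ‖x‖ (x i / ‖x‖) (1 / ‖x‖ - x i ^ 2 / ‖x‖ ^ 3) := by
  have h0 := norm_pos_iff.2 hx
  have := (jet_sq x i).sqrt (by positivity)
  simp only [Real.sqrt_sq (norm_nonneg _)] at this
  exact this.cast rfl (by field_simp) (by field_simp; ring)

theorem jet_co (x : E n) (i j : Fin n) :
    Jet (fun t => (x + t • ee i) j) (x j) (if j = i then 1 else 0) 0 := by
  have := (Jet.quad (x j) (if j = i then 1 else 0) 0).cast rfl rfl (mul_zero 2)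
  convert this using 2 with t
  simp [ee, Pi.single_apply]

theorem jet_const (a : ℝ) : Jet (fun _ => a) a 0 0 := by
  simpa using Jet.quad a 0 0

theorem harm_of_jet {f : E n → ℝ} {U : Set (E n)} (hU : IsOpen U)
    (h : ∀ y ∈ U, ContDiffAt ℝ 2 f y ∧ ∃ a b c : Fin n → ℝ,
      (∀ i, Jet (fun t => f (y + t • ee i)) (a i) (b i) (c i)) ∧ ∑ i, c i = 0) :
    ∀ x ∈ U, HarmonicAt f x := by
  intro x hx
  refine ⟨(h x hx).1, ?_⟩
  filter_upwards [hU.mem_nhds hx] with y hy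
  obtain ⟨h1, a, b, c, h2, h3⟩ := h y hy
  rw [laplacian_eq_iteratedFDeriv_orthonormalBasis _ (EuclideanSpace.basisFun (Fin n) ℝ)]
  simp only [second_line _ _ _ h1, EuclideanSpace.basisFun_apply, Pi.zero_apply]
  exact (Finset.sum_congr rfl fun i _ => (h2 i).dd).trans h3

theorem sq4 (x : E 4) : ‖x‖ ^ 2 = x 0 ^ 2 + x 1 ^ 2 + x 2 ^ 2 + x 3 ^ 2 := by
  rw [EuclideanSpace.norm_eq, Real.sq_sqrt (by positivity), Fin.sum_univ_four]; simp

theorem harm_newton4 (p x : E 4) (hx : x ≠ p) :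
    HarmonicAt (fun y : E 4 => (‖y - p‖ ^ 2)⁻¹) x := by
  refine harm_of_jet (U := {y | y ≠ p}) isOpen_ne (fun y hy => ?_) x hx
  have h0 : ‖y - p‖ ≠ 0 := norm_ne_zero_iff.2 (sub_ne_zero.2 hy)
  have k := fun i => (jet_sq (y - p) i).inv (pow_ne_zero 2 h0)
  simp only [← add_sub_right_comm] at k
  refine ⟨((contDiff_norm_sq ℝ).comp (contDiff_id.sub contDiff_const)).contDiffAt.inv
    (pow_ne_zero 2 h0), _, _, _, k, ?_⟩
  have := sq4 (y - p)
  rw [Fin.sum_univ_four]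
  field_simp
  linear_combination (-8) * this

/-- the parabolic coordinate -/
noncomputable def ww (x : E 4) : ℝ := ‖x‖ - x 0

theorem ww_cont : Continuous ww := by unfold ww; fun_prop

theorem ww_ne {x : E 4} (hx : 0 < ww x) : x ≠ 0 := by
  rintro rfl; simp [ww] at hx

theorem harm_ww (x : E 4) (hx : 0 < ww x) : HarmonicAt (fun y : E 4 => (√(ww y))⁻¹) x := by
  refine harm_of_jet (U := {y | 0 < ww y}) (isOpen_lt continuous_const ww_cont)
    (fun y hy => ?_) x hx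
  have hy : 0 < ww y := hy
  have h0 := norm_pos_iff.2 (ww_ne hy)
  have hs := Real.sqrt_pos.2 hy
  have c1 : ContDiffAt ℝ 2 ww y :=
    (contDiffAt_norm ℝ (ww_ne hy)).sub (EuclideanSpace.proj (𝕜 := ℝ) (0 : Fin 4)).contDiff.contDiffAt
  have h2 : √(‖y‖ - y 0) ^ 2 = ‖y‖ - y 0 := Real.sq_sqrt hy.le
  have h3 : 0 < √(‖y‖ - y 0) := hs
  have k := fun i => ((((jet_norm (ww_ne hy) i).sub (jet_co y i 0)).sqrt hy).inv hs.ne').cast rfl rfl
    (c₁ := 3 / (4 * √(‖y‖ - y 0) ^ 5) * (y i / ‖y‖ - if 0 = i then 1 else 0) ^ 2 -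
      1 / (2 * √(‖y‖ - y 0) ^ 3) * (1 / ‖y‖ - y i ^ 2 / ‖y‖ ^ 3)) (by field_simp; ring)
  refine ⟨(c1.sqrt hy.ne').inv hs.ne', _, _, _, k, ?_⟩
  have h1 := sq4 y
  have e1 : ∑ i : Fin 4, (y i / ‖y‖ - if 0 = i then 1 else 0) ^ 2 = 2 * √(‖y‖ - y 0) ^ 2 / ‖y‖ := by
    rw [Fin.sum_univ_four, h2]
    simp
    field_simp
    linear_combination (-1) * h1
  have e2 : ∑ i : Fin 4, (1 / ‖y‖ - y i ^ 2 / ‖y‖ ^ 3) = 3 / ‖y‖ := by
    rw [Fin.sum_univ_four]
    field_simp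
    linear_combination h1
  rw [Finset.sum_sub_distrib, ← Finset.mul_sum, ← Finset.mul_sum, e1, e2]
  field_simp
  ring

end Pool.Agent.H94.GL
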