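import Pool.Agent.H94.GL2

set_option autoImplicit false
open Set Filter Topology InnerProductSpace Metric

namespace Pool.Agent.H94.GL

/-- the pole -/
noncomputable def pp : E 4 := !₂[1, 1, 0, 0]
/-- the small constant -/
noncomputable def ep : ℝ := 1 / 10 ^ 10
/-- squared distance to the pole -/
noncomputable def PP (x : E 4) : ℝ := ‖x - pp‖ ^ 2
/-- the domain -/
def DD : Set (E 4) := {x | ep ^ 2 * PP x ^ 2 < ww x}
/-- the Green function away from the pole -/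
noncomputable def uu (x : E 4) : ℝ := (PP x)⁻¹ - ep * (√(ww x))⁻¹

theorem ep_pos : 0 < ep := by unfold ep; positivity

theorem PP_eq (x : E 4) : PP x = (x 0 - 1) ^ 2 + (x 1 - 1) ^ 2 + x 2 ^ 2 + x 3 ^ 2 := by
  unfold PP; rw [sq4]; simp [pp]

theorem PP_cont : Continuous PP := by unfold PP; fun_prop

theorem PP_pos {x : E 4} (h : x ≠ pp) : 0 < PP x := pow_pos (norm_pos_iff.2 (sub_ne_zero.2 h)) 2

theorem PP_nonneg (x : E 4) : 0 ≤ PP x := sq_nonneg _

theorem abs_le_norm (x : E 4) : |x 0| ≤ ‖x‖ :=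
  abs_le_of_sq_le_sq' (by rw [sq4]; nlinarith [sq_nonneg (x 1), sq_nonneg (x 2), sq_nonneg (x 3)])
    (norm_nonneg x) |> abs_le.2

theorem ww_nonneg (x : E 4) : 0 ≤ ww x := by
  have := abs_le.1 (abs_le_norm x); unfold ww; linarith

theorem ww_ge (x : E 4) : -2 * x 0 ≤ ww x := by
  have := abs_le.1 (abs_le_norm x); unfold ww; linarith

theorem ww_mul (x : E 4) : ww x * (‖x‖ + x 0) = x 1 ^ 2 + x 2 ^ 2 + x 3 ^ 2 := by
  have := sq4 x; unfold ww; linarith

theorem perp_le (x : E 4) : x 1 ^ 2 + x 2 ^ 2 + x 3 ^ 2 ≤ 2 * ‖x‖ * ww x := by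
  have := abs_le.1 (abs_le_norm x)
  nlinarith [ww_mul x, ww_nonneg x]

theorem DD_ww {x : E 4} (h : x ∈ DD) : 0 < ww x := lt_of_le_of_lt (by positivity) h

theorem not_DD {x : E 4} (h : ww x ≤ ep ^ 2 * PP x ^ 2) : x ∉ DD := fun a => not_lt.2 h a

theorem pp_mem : pp ∈ DD := by
  have h1 : ‖pp‖ ^ 2 = 2 := by rw [sq4]; simp [pp]; norm_num
  have h2 : pp 0 = 1 := by simp [pp]
  have h3 : PP pp = 0 := by simp [PP]
  show ep ^ 2 * PP pp ^ 2 < ‖pp‖ - pp 0
  rw [h3, h2]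
  nlinarith [norm_nonneg pp]

theorem uu_sign {x : E 4} (h : x ≠ pp) (hw : 0 < ww x) : 0 < uu x ↔ x ∈ DD := by
  have h1 := PP_pos h
  have h2 := Real.sqrt_pos.2 hw
  have h3 := ep_pos
  unfold uu
  rw [sub_pos, ← div_eq_mul_inv, inv_eq_one_div, div_lt_div_iff₀ h2 h1, one_mul,
    Real.lt_sqrt (by positivity), mul_pow]
  rfl

theorem harm_uu {x : E 4} (h : x ≠ pp) (hw : 0 < ww x) : HarmonicAt uu x :=
  (harm_newton4 pp x h).sub ((harm_ww x hw).const_smul (c := ep))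

theorem cand : Cand DD pp uu where
  hn := by norm_num
  op := isOpen_lt (by have := PP_cont; fun_prop) ww_cont
  bd := by
    refine (isBounded_closedBall (x := pp) (r := 10 ^ 21)).subset fun x hx => ?_
    rw [mem_closedBall, dist_eq_norm]
    have h1 : ep ^ 2 * (‖x - pp‖ ^ 2) ^ 2 < ‖x‖ - x 0 := hx
    have h2 := abs_le.1 (abs_le_norm x)
    have h3 : ‖pp‖ ≤ 2 := by
      have h1 : ‖pp‖ ^ 2 = 2 := by rw [sq4]; simp [pp]; norm_num
      nlinarith [norm_nonneg pp]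
    have h4 : ‖x‖ ≤ ‖x - pp‖ + ‖pp‖ := by simpa using norm_add_le (x - pp) pp
    by_contra h5
    push Not at h5
    generalize ‖x - pp‖ = r at *
    have h6 : (10 : ℝ) ^ 21 * r ≤ r ^ 2 := by nlinarith
    have h7 : r ^ 2 ≤ (r ^ 2) ^ 2 := by nlinarith
    unfold ep at h1
    nlinarith
  mem := pp_mem
  harm := fun x hx h => harm_uu h (DD_ww hx)
  pos := fun x hx h => (uu_sign h (DD_ww hx)).2 hx
  lim := fun q hq e he => by
    have h0 : q ≠ pp := by rintro rfl; exact hq pp_mem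
    rcases (ww_nonneg q).lt_or_eq with hw | hw
    · have h1 : uu q < e := lt_of_le_of_lt (not_lt.1 fun a => hq ((uu_sign h0 hw).1 a)) he
      filter_upwards [(harm_uu h0 hw).1.continuousAt.eventually (gt_mem_nhds h1)] with x hx _
      exact hx
    · have h1 : ww q < ep ^ 2 * PP q ^ 2 := by
        rw [← hw]; have := ep_pos; have := PP_pos h0; positivity
      have h2 := (isOpen_lt ww_cont (g := fun x => ep ^ 2 * PP x ^ 2)
        (by have := PP_cont; fun_prop)).mem_nhds h1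
      filter_upwards [h2] with x hx hD
      exact absurd hD (not_lt.2 (le_of_lt hx))
  pole := by
    refine ⟨-(ep • fun y => (√(ww y))⁻¹), (harm_ww pp (DD_ww pp_mem)).const_smul.neg,
      Eventually.of_forall fun x => ?_⟩
    have e : (2 : ℤ) - ((4 : ℕ) : ℤ) = -((2 : ℕ) : ℤ) := by norm_num
    rw [e, zpow_neg, zpow_natCast]
    simp [uu, PP, sub_eq_add_neg]

theorem mono_aux {s r2 Q : ℝ} (hr : 0 < r2) (hr' : r2 ≤ 1 / 10000) (hQ : 98 / 100 ≤ Q)
    (hs : -1 / 100 ≤ s) {τ : ℝ} (hτ : 0 ≤ τ) :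
    (√((s + τ) ^ 2 + r2) - (s + τ)) / ((s + τ - 1) ^ 2 + Q) ^ 2 ≤
      (√(s ^ 2 + r2) - s) / ((s - 1) ^ 2 + Q) ^ 2 := by
  have hd : ∀ a : ℝ, HasDerivAt (fun a : ℝ => (√(a ^ 2 + r2) - a) / ((a - 1) ^ 2 + Q) ^ 2)
      (-((√(a ^ 2 + r2) - a) * (((a - 1) ^ 2 + Q) + 4 * (a - 1) * √(a ^ 2 + r2)) /
        (√(a ^ 2 + r2) * ((a - 1) ^ 2 + Q) ^ 3))) a := by
    intro a
    have h1 : 0 < a ^ 2 + r2 := by positivity
    have h2 : 0 < (a - 1) ^ 2 + Q := by positivity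
    have h3 := Real.sqrt_pos.2 h1
    have k1 := (((hasDerivAt_pow 2 a).add_const r2).sqrt h1.ne').fun_sub (hasDerivAt_id' a)
    have k2 := ((((hasDerivAt_id' a).sub_const 1).fun_pow 2).add_const Q).fun_pow 2
    refine (k1.fun_div k2 (by positivity)).congr_deriv ?_
    simp
    field_simp
    ring
  have key : AntitoneOn (fun a : ℝ => (√(a ^ 2 + r2) - a) / ((a - 1) ^ 2 + Q) ^ 2)
      (Ici (-1 / 100)) := by
    refine antitoneOn_of_deriv_nonpos (convex_Ici _)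
      (fun a _ => (hd a).continuousAt.continuousWithinAt)
      (fun a _ => (hd a).differentiableAt.differentiableWithinAt) fun a ha => ?_
    have ha : -1 / 100 ≤ a := interior_subset ha
    have h1 : 0 < a ^ 2 + r2 := by positivity
    have h2 : 0 < (a - 1) ^ 2 + Q := by positivity
    have h3 := Real.sqrt_pos.2 h1
    have h4 := Real.sq_sqrt h1.le
    rw [(hd a).deriv, neg_nonpos]
    generalize √(a ^ 2 + r2) = R at *
    refine div_nonneg (mul_nonneg (by nlinarith) ?_) (by positivity)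
    rcases le_total 1 a with h | h
    · have : 0 ≤ a - 1 := by linarith
      positivity
    rcases le_total 0 a with h' | h'
    · have : R ≤ a + 1 / 100 := by nlinarith
      nlinarith [sq_nonneg (a - 3 / 5)]
    · have : R ≤ 2 / 100 := by nlinarith
      nlinarith
  exact key hs (by show -1 / 100 ≤ s + τ; linarith) (by linarith)

theorem norm_eq_sqrt (x : E 4) : ‖x‖ = √(x 0 ^ 2 + (x 1 ^ 2 + x 2 ^ 2 + x 3 ^ 2)) := by
  rw [← add_assoc, ← add_assoc, ← sq4, Real.sqrt_sq (norm_nonneg x)]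

theorem linAcc : LinAcc DD := by
  refine ⟨cand.op, fun y hy => ?_⟩
  have hy : ww y ≤ ep ^ 2 * PP y ^ 2 := not_lt.1 hy
  have hP := PP_eq y
  have hN := sq4 y
  rcases le_total 2 (‖y‖ ^ 2) with h | h
  · have h0 : 0 < ‖y‖ := by
      rcases (norm_nonneg y).lt_or_eq with a | a
      · exact a
      · rw [← a] at h; norm_num at h
    refine ⟨‖y‖⁻¹ • y, by rw [norm_smul]; simp [h0.ne'], fun s hs => not_DD ?_⟩
    obtain ⟨a, ha, e⟩ : ∃ a : ℝ, 0 ≤ a ∧ y + s • ‖y‖⁻¹ • y = (1 + a) • y :=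
      ⟨s * ‖y‖⁻¹, by positivity, by rw [add_smul, one_smul, mul_smul]⟩
    rw [e]
    have h1 : ww ((1 + a) • y) = (1 + a) * ww y := by
      unfold ww
      rw [norm_smul, Real.norm_of_nonneg (by linarith)]
      simp only [PiLp.smul_apply, smul_eq_mul]
      ring
    have h2 : PP y * (1 + a / 2) ≤ PP ((1 + a) • y) := by
      rw [PP_eq ((1 + a) • y), hP]
      simp only [PiLp.smul_apply, smul_eq_mul]
      have : 0 ≤ 3 * ‖y‖ ^ 2 - 2 * (y 0 + y 1) - 2 := by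
        nlinarith [sq_nonneg (y 0 - 1), sq_nonneg (y 1 - 1), sq_nonneg (y 2), sq_nonneg (y 3)]
      have := mul_nonneg ha this
      rw [hN] at this
      nlinarith [sq_nonneg (a * y 0), sq_nonneg (a * y 1), sq_nonneg (a * y 2), sq_nonneg (a * y 3)]
    have h3 := pow_le_pow_left₀ (mul_nonneg (PP_nonneg y) (by linarith)) h2 2
    have h4 : (1 + a) * PP y ^ 2 ≤ PP ((1 + a) • y) ^ 2 := by nlinarith [sq_nonneg (a * PP y)]
    rw [h1]
    calc (1 + a) * ww y ≤ (1 + a) * (ep ^ 2 * PP y ^ 2) := by gcongr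
      _ = ep ^ 2 * ((1 + a) * PP y ^ 2) := by ring
      _ ≤ _ := by gcongr
  · have h1 : PP y ≤ 8 := by
      nlinarith [sq_nonneg (y 0 + 1), sq_nonneg (y 1 + 1), sq_nonneg (y 2), sq_nonneg (y 3)]
    have h2 : ww y ≤ 1 / 10 ^ 6 := by
      have := pow_le_pow_left₀ (PP_nonneg y) h1 2
      unfold ep at hy
      nlinarith
    have h3 : ‖y‖ ≤ 2 := by nlinarith [norm_nonneg y]
    have h4 : y 1 ^ 2 + y 2 ^ 2 + y 3 ^ 2 ≤ 1 / 10000 := by
      nlinarith [perp_le y, ww_nonneg y, norm_nonneg y]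
    have h5 := ww_ge y
    refine ⟨ee 0, by simp [ee], fun s hs => not_DD ?_⟩
    have c0 : (y + s • ee 0 : E 4) 0 = y 0 + s := by simp [ee]
    have c1 : (y + s • ee 0 : E 4) 1 = y 1 := by simp [ee]
    have c2 : (y + s • ee 0 : E 4) 2 = y 2 := by simp [ee]
    have c3 : (y + s • ee 0 : E 4) 3 = y 3 := by simp [ee]
    unfold ww at hy ⊢
    rw [PP_eq, norm_eq_sqrt, c0, c1, c2, c3]
    rw [hP, norm_eq_sqrt] at hy
    have hQ : 98 / 100 ≤ (y 1 - 1) ^ 2 + y 2 ^ 2 + y 3 ^ 2 := by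
      nlinarith [sq_nonneg (y 1 - 1 / 100), sq_nonneg (y 2), sq_nonneg (y 3), sq_nonneg (y 1)]
    have hr : 0 ≤ y 1 ^ 2 + y 2 ^ 2 + y 3 ^ 2 := by positivity
    rcases hr.lt_or_eq with hr | hr
    · have k := mono_aux hr h4 hQ (s := y 0) (by linarith) hs
      simp only [← add_assoc] at k hy ⊢
      rw [← div_le_iff₀ (by nlinarith [sq_nonneg (y 0 + s - 1)])]
      refine k.trans ?_
      rwa [div_le_iff₀ (by nlinarith [sq_nonneg (y 0 - 1)])]
    · have z1 : y 1 = 0 := by nlinarith [sq_nonneg (y 2), sq_nonneg (y 3), sq_nonneg (y 1)]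
      have z2 : y 2 = 0 := by nlinarith [sq_nonneg (y 2), sq_nonneg (y 3), sq_nonneg (y 1)]
      have z3 : y 3 = 0 := by nlinarith [sq_nonneg (y 2), sq_nonneg (y 3), sq_nonneg (y 1)]
      rw [z1, z2, z3] at hy ⊢
      simp only [ne_eq, OfNat.ofNat_ne_zero, not_false_eq_true, zero_pow, add_zero,
        Real.sqrt_sq_eq_abs, zero_sub, even_two, Even.neg_pow, one_pow] at hy ⊢
      rcases le_or_gt 0 (y 0 + s) with a | a
      · rw [abs_of_nonneg a, sub_self]; positivity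
      · have b : y 0 < 0 := by linarith
        rw [abs_of_neg a]
        rw [abs_of_neg b] at hy
        have b' : -1 / 100 ≤ y 0 := by linarith
        generalize y 0 = σ at *
        obtain ⟨ρ, hρ⟩ : ∃ ρ, ρ = σ + s := ⟨_, rfl⟩
        rw [← hρ] at a ⊢
        have hσρ : σ ≤ ρ := by linarith
        have k : -ρ * ((σ - 1) ^ 2 + 1) ^ 2 ≤ -σ * ((ρ - 1) ^ 2 + 1) ^ 2 := by
          have k1 : σ * ρ ≤ 1 / 100 := by nlinarith
          have k2 : 0 ≤ σ * ρ := by nlinarith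
          have k3 : 8 - 4 * (σ + ρ) + (σ ^ 2 + σ * ρ + ρ ^ 2) ≤ 10 := by nlinarith
          have k4 : 0 ≤ 4 - σ * ρ * (8 - 4 * (σ + ρ) + (σ ^ 2 + σ * ρ + ρ ^ 2)) := by nlinarith
          nlinarith [mul_nonneg (sub_nonneg.2 hσρ) k4]
        have k5 := mul_le_mul_of_nonneg_left k (sq_nonneg ep)
        refine le_of_mul_le_mul_left ?_ (neg_pos.2 b)
        nlinarith

end Pool.Agent.H94.GL
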