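import Pool.Agent.H94.GL3

set_option autoImplicit false
open Set Filter Topology InnerProductSpace Metric

namespace Pool.Agent.H94.GL

/-- the level -/
noncomputable def tt : ℝ := 4999 / 10000
/-- the superlevel set -/
def Om : Set (E 4) := {x ∈ DD | (tt : EReal) < gr pp uu x}
/-- the trapped point -/
noncomputable def yy : E 4 := !₂[1 / 10000, 0, 30 * ep, 0]

theorem thin {x : E 4} (hx : x ∉ Om) {μ : ℝ} (hμ : 0 < μ) (h : PP x * (tt + μ) ≤ 1) :
    μ ^ 2 * ww x ≤ ep ^ 2 := by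
  have h0 : x ≠ pp := by
    rintro rfl
    exact hx ⟨pp_mem, by rw [gr_eq]; exact EReal.coe_lt_top _⟩
  have hP := PP_pos h0
  have ht : 0 < tt := by unfold tt; norm_num
  have he := ep_pos
  by_cases hD : x ∈ DD
  · have h1 : uu x ≤ tt := by
      by_contra a
      exact hx ⟨hD, by rw [gr_ne _ h0]; exact EReal.coe_lt_coe_iff.2 (not_le.1 a)⟩
    have hw := DD_ww hD
    have h2 := Real.sqrt_pos.2 hw
    have h3 : tt + μ ≤ (PP x)⁻¹ := by rw [inv_eq_one_div, le_div_iff₀ hP]; linarith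
    have h4 : μ ≤ ep / √(ww x) := by unfold uu at h1; rw [div_eq_mul_inv]; linarith
    rw [le_div_iff₀ h2] at h4
    have := pow_le_pow_left₀ (by positivity) h4 2
    rwa [mul_pow, Real.sq_sqrt hw.le] at this
  · have h1 : ww x ≤ ep ^ 2 * PP x ^ 2 := not_lt.1 hD
    have h2 : μ * PP x ≤ 1 := by nlinarith
    have h3 := pow_le_pow_left₀ (by positivity) h2 2
    calc μ ^ 2 * ww x ≤ μ ^ 2 * (ep ^ 2 * PP x ^ 2) := by gcongr
      _ = ep ^ 2 * (μ * PP x) ^ 2 := by ring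
      _ ≤ ep ^ 2 * 1 ^ 2 := by gcongr
      _ = _ := by ring

theorem yy_not : yy ∉ Om := by
  rintro ⟨hD, h⟩
  have c0 : yy 0 = 1 / 10000 := by simp [yy]
  have c1 : yy 1 = 0 := by simp [yy]
  have c2 : yy 2 = 30 * ep := by simp [yy]
  have c3 : yy 3 = 0 := by simp [yy]
  have h0 : yy ≠ pp := fun e => by
    have : pp 1 = 1 := by simp [pp]
    rw [← e, c1] at this
    norm_num at this
  rw [gr_ne _ h0, EReal.coe_lt_coe_iff] at h
  have hw := DD_ww hD
  have h1 := ww_mul yy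
  have h2 := abs_le.1 (abs_le_norm yy)
  have h3 := PP_eq yy
  rw [c0, c1, c2, c3] at *
  have he := ep_pos
  have h4 : ww yy ≤ (2200 * ep) ^ 2 := by nlinarith [sq_nonneg ep]
  have h5 : √(ww yy) ≤ 2200 * ep := Real.sqrt_le_iff.2 ⟨by positivity, h4⟩
  have h6 : (2200 * ep)⁻¹ ≤ (√(ww yy))⁻¹ := inv_anti₀ (Real.sqrt_pos.2 hw) h5
  have h7 : (PP yy)⁻¹ ≤ (19998 / 10000)⁻¹ := inv_anti₀ (by norm_num) (by nlinarith [sq_nonneg ep])
  have h8 : ep * (2200 * ep)⁻¹ = 1 / 2200 := by field_simp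
  have h9 := mul_le_mul_of_nonneg_left h6 he.le
  unfold uu tt at h
  norm_num at h7
  linarith

theorem trapped (v : E 4) (hv : ‖v‖ = 1) : ∃ s : ℝ, 0 ≤ s ∧ yy + s • v ∈ Om := by
  by_contra hne
  push Not at hne
  have c0 : ∀ s : ℝ, (yy + s • v : E 4) 0 = 1 / 10000 + s * v 0 := fun s => by simp [yy]
  have c1 : ∀ s : ℝ, (yy + s • v : E 4) 1 = s * v 1 := fun s => by simp [yy]
  have c2 : ∀ s : ℝ, (yy + s • v : E 4) 2 = 30 * ep + s * v 2 := fun s => by simp [yy]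
  have c3 : ∀ s : ℝ, (yy + s • v : E 4) 3 = s * v 3 := fun s => by simp [yy]
  have hN := sq4 v
  rw [hv] at hN
  have hy : ‖yy‖ ≤ 1 / 2 := by
    have := sq4 yy
    simp [yy, ep] at this
    have e : ‖yy‖ ^ 2 ≤ (1 / 2) ^ 2 := by
      rw [sq4]; simp [yy, ep]; norm_num
    exact (abs_le_of_sq_le_sq' e (by norm_num)).2
  have hn : ∀ s : ℝ, 0 ≤ s → ‖yy + s • v‖ ≤ 1 / 2 + s := fun s hs => by
    refine (norm_add_le _ _).trans ?_
    rw [norm_smul, hv, Real.norm_of_nonneg hs]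
    linarith
  have hep : ep = 1 / 10 ^ 10 := rfl
  have s1 := thin (hne (15 / 100000) (by norm_num)) (μ := 4 / 100000) (by norm_num) (by
    rw [PP_eq, c0, c1, c2, c3, hep]
    unfold tt
    nlinarith [sq_nonneg (v 0 + 7071 / 10000), sq_nonneg (v 1 + 7071 / 10000), sq_nonneg (v 2 - 1),
      sq_nonneg (v 3), sq_nonneg (v 2)])
  have s2 := ww_ge (yy + (15 / 100000 : ℝ) • v)
  have s3 := perp_le (yy + (15 / 100000 : ℝ) • v)
  have s4 := hn (15 / 100000) (by norm_num)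
  have s5 := ww_nonneg (yy + (15 / 100000 : ℝ) • v)
  rw [c0] at s2
  rw [c1, c2, c3] at s3
  rw [hep] at s1 s3
  have s6 : ww (yy + (15 / 100000 : ℝ) • v) ≤ 7 / 10 ^ 12 := by linarith
  have s7 : v 1 ^ 2 + v 2 ^ 2 + v 3 ^ 2 ≤ 12 / 10000 := by
    nlinarith [sq_nonneg (15 / 100000 * v 2 + 60 / 10 ^ 10), sq_nonneg (v 1), sq_nonneg (v 3)]
  have s8 : 99 / 100 ≤ v 0 := by nlinarith
  have s9 : v 0 ≤ 1 := by nlinarith [sq_nonneg (v 1), sq_nonneg (v 2), sq_nonneg (v 3)]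
  have s10 : -v 1 ≤ 35 / 1000 := by nlinarith [sq_nonneg (v 2), sq_nonneg (v 3)]
  have key : ∀ s : ℝ, 6 / 10 ≤ s → s ≤ 12 / 10 → |30 * ep + s * v 2| ≤ 8 * ep := by
    intro s a b
    have k1 := thin (hne s (by linarith)) (μ := 1 / 4) (by norm_num) (by
      rw [PP_eq, c0, c1, c2, c3, hep]
      unfold tt
      have m1 : 59 / 100 ≤ s * v 0 := by nlinarith
      have m2 : s * v 0 ≤ 12 / 10 := by nlinarith
      have m3 : (1 / 10000 + s * v 0 - 1) ^ 2 ≤ 17 / 100 := by nlinarith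
      have m4 : s ^ 2 ≤ 144 / 100 := by nlinarith
      have m5 : s ^ 2 * (v 1 ^ 2 + v 2 ^ 2 + v 3 ^ 2) ≤ 144 / 100 * (12 / 10000) :=
        mul_le_mul m4 s7 (by positivity) (by norm_num)
      have m6 : s * -v 1 ≤ 42 / 1000 := by nlinarith
      nlinarith [sq_nonneg (s * v 2 - 30 / 10 ^ 10), sq_nonneg (s * v 1), sq_nonneg (s * v 3)])
    have k2 := perp_le (yy + s • v)
    have k3 := hn s (by linarith)
    have k4 := ww_nonneg (yy + s • v)
    rw [c1, c2, c3] at k2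
    refine abs_le.2 (abs_le_of_sq_le_sq' ?_ (by have := ep_pos; positivity))
    nlinarith [sq_nonneg (s * v 1), sq_nonneg (s * v 3)]
  have a := abs_le.1 (key (6 / 10) le_rfl (by norm_num))
  have b := abs_le.1 (key (12 / 10) (by norm_num) le_rfl)
  linarith [ep_pos]

end Pool.Agent.H94.GL
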