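import Mathlib

set_option autoImplicit false
open Set Filter Topology InnerProductSpace Metric

namespace Pool.Agent.H94.GL

/-- Euclidean space of dimension `n`. -/
abbrev E (n : ℕ) := EuclideanSpace ℝ (Fin n)

/-- An open set is linearly accessible if from each point outside it some closed half-line
avoids it. -/
def LinAcc {n : ℕ} (U : Set (E n)) : Prop :=
  IsOpen U ∧ ∀ y, y ∉ U → ∃ v : E n, ‖v‖ = 1 ∧ ∀ s : ℝ, 0 ≤ s → y + s • v ∉ U

/-- Superharmonic on the domain `D`: values in `(-∞, +∞]`, not identically `+∞`, lower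
semicontinuous, and above every harmonic function on a ball that it dominates on the sphere. -/
def Superharmonic {n : ℕ} (D : Set (E n)) (v : E n → EReal) : Prop :=
  (∀ x ∈ D, v x ≠ ⊥) ∧ (∃ x ∈ D, v x ≠ ⊤) ∧ LowerSemicontinuousOn v D ∧
    ∀ (z : E n) (r : ℝ), 0 < r → closedBall z r ⊆ D → ∀ h : E n → ℝ,
      HarmonicContOnCl h (ball z r) → (∀ x ∈ sphere z r, (h x : EReal) ≤ v x) →
        ∀ x ∈ ball z r, (h x : EReal) ≤ v x

/-- Positive superharmonic functions on `D` that differ from `|x - x₀| ^ (2 - n)` by a function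
harmonic near `x₀`. -/
def Admissible {n : ℕ} (D : Set (E n)) (x₀ : E n) (v : E n → EReal) : Prop :=
  Superharmonic D v ∧ (∀ x ∈ D, 0 < v x) ∧
    ∃ h : E n → ℝ, HarmonicAt h x₀ ∧
      ∀ᶠ x in 𝓝[≠] x₀, v x = ((‖x - x₀‖ ^ (2 - (n : ℤ)) + h x : ℝ) : EReal)

/-- `g` is the Green function of `D` with pole `x₀`: the smallest admissible function. -/
def IsGreen {n : ℕ} (D : Set (E n)) (x₀ : E n) (g : E n → EReal) : Prop :=
  Admissible D x₀ g ∧ ∀ v, Admissible D x₀ v → ∀ x ∈ D, g x ≤ v x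

end Pool.Agent.H94.GL
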