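import Mathlib

set_option autoImplicit false

namespace Pool.Agent.H94.GapDefs

open MeasureTheory
open scoped ENNReal

/-- The truncated gap integral `G_p^t(f, Ω)` in dimension `m = 1`, with values in `[0, ∞]`. -/
noncomputable def G {N : Type} [MetricSpace N] (p t : ℝ) (f : ℝ → N) (Ω : Set ℝ) : ℝ≥0∞ :=
  ∫⁻ z in {z : ℝ × ℝ | z.1 ∈ Ω ∧ z.2 ∈ Ω ∧ t ≤ dist (f z.2) (f z.1)},
    ENNReal.ofReal ((dist (f z.2) (f z.1) - t) ^ p / |z.2 - z.1| ^ 2)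

end Pool.Agent.H94.GapDefs
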