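import Pool.Agent.H94.GapDefs

set_option autoImplicit false

namespace Pool.Agent.H94.GapProof

open MeasureTheory Set Pool.Agent.H94.GapDefs
open scoped ENNReal

noncomputable def k (z : ℝ × ℝ) : ℝ≥0∞ := ENNReal.ofReal (1 / |z.2 - z.1| ^ 2)

lemma k_meas : Measurable k := by
  unfold k
  fun_prop

def S (R : ℝ) : Set (ℝ × ℝ) := Icc (-R) 0 ×ˢ Icc 1 (R + 1)
def T (R : ℝ) : Set (ℝ × ℝ) := S R ∪ Icc 1 (R + 1) ×ˢ Icc (-R) 0

lemma T_meas (R : ℝ) : MeasurableSet (T R) :=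
  (measurableSet_Icc.prod measurableSet_Icc).union (measurableSet_Icc.prod measurableSet_Icc)

lemma S_lower (n : ℕ) : ENNReal.ofReal (n / 16) ≤ ∫⁻ z in S (2 ^ n), k z := by
  induction n with
  | zero => simp
  | succ n ih =>
    have hp : (1 : ℝ) ≤ 2 ^ n := one_le_pow₀ (by norm_num)
    let B : Set (ℝ × ℝ) := Ico (-(2 : ℝ) ^ (n + 1)) (-2 ^ n) ×ˢ Icc 1 (2 ^ n + 1)
    have hB : MeasurableSet B := measurableSet_Ico.prod measurableSet_Icc
    have hsub : S (2 ^ n) ∪ B ⊆ S (2 ^ (n + 1)) := by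
      rintro ⟨x, y⟩ (⟨h1, h2⟩ | ⟨h1, h2⟩)
      · refine ⟨⟨?_, h1.2⟩, h2.1, ?_⟩
        · have := h1.1
          rw [pow_succ]
          linarith
        · have := h2.2
          rw [pow_succ]
          linarith
      · refine ⟨⟨h1.1, ?_⟩, h2.1, ?_⟩
        · have := h1.2
          linarith
        · have := h2.2
          rw [pow_succ]
          linarith
    have hd : Disjoint (S (2 ^ n)) B := by
      rw [disjoint_left]
      rintro ⟨x, y⟩ ⟨h1, _⟩ ⟨h2, _⟩
      exact absurd h1.1 (not_le.2 h2.2)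
    refine le_trans ?_ (lintegral_mono_set hsub)
    rw [lintegral_union hB hd]
    have h1 : ENNReal.ofReal (1 / 16) ≤ ∫⁻ z in B, k z := by
      have h2 : ∫⁻ _ in B, ENNReal.ofReal (1 / (4 * 2 ^ n) ^ 2) ≤ ∫⁻ z in B, k z := by
        refine setLIntegral_mono' hB ?_
        rintro ⟨x, y⟩ ⟨h1, h2⟩
        apply ENNReal.ofReal_le_ofReal
        have a1 := h1.1
        have a2 := h1.2
        have a3 := h2.1
        have a4 := h2.2
        rw [pow_succ] at a1
        simp only at a1 a2 a3 a4 ⊢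
        rw [abs_of_pos (by linarith)]
        have : 0 < y - x := by linarith
        gcongr
        linarith
      refine le_trans (le_of_eq ?_) h2
      rw [setLIntegral_const, Measure.volume_eq_prod, Measure.prod_prod, Real.volume_Ico,
        Real.volume_Icc, ← ENNReal.ofReal_mul (by rw [pow_succ]; linarith),
        ← ENNReal.ofReal_mul (by positivity)]
      congr 1
      rw [pow_succ 2 n]
      field_simp
      ring
    refine le_trans (le_of_eq ?_) (add_le_add ih h1)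
    rw [← ENNReal.ofReal_add (by positivity) (by positivity)]
    congr 1
    push_cast
    ring

lemma T_finite (R : ℝ) : ∫⁻ z in T R, k z ≠ ∞ := by
  have h1 : ∫⁻ z in T R, k z ≤ ∫⁻ _ in T R, 1 := by
    refine setLIntegral_mono' (T_meas R) ?_
    rintro ⟨x, y⟩ h
    have h2 : 1 ≤ |y - x| := by
      rcases h with ⟨h1, h2⟩ | ⟨h1, h2⟩
      · exact le_abs.2 (Or.inl (by linarith [h1.2, h2.1]))
      · exact le_abs.2 (Or.inr (by linarith [h1.1, h2.2]))
    rw [k, ENNReal.ofReal_le_one]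
    exact div_le_one_of_le₀ (one_le_pow₀ h2) (by positivity)
  refine ne_top_of_le_ne_top ?_ h1
  rw [setLIntegral_one]
  exact ((isCompact_Icc.prod isCompact_Icc).union
    (isCompact_Icc.prod isCompact_Icc)).measure_lt_top.ne

noncomputable def h (z : ℝ × ℝ) : ℝ :=
  (Icc (0 : ℝ) 1).indicator (fun _ => (1 : ℝ)) z.1 * (1 + z.2 ^ 2)⁻¹
    + (1 + z.1 ^ 2)⁻¹ * (Icc (0 : ℝ) 1).indicator (fun _ => (1 : ℝ)) z.2

lemma h_int : Integrable h := by
  have h1 : Integrable ((Icc (0 : ℝ) 1).indicator (fun _ => (1 : ℝ))) :=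
    (integrable_indicator_iff measurableSet_Icc).2 (integrableOn_const (by simp))
  exact (h1.mul_prod integrable_inv_one_add_sq).add (integrable_inv_one_add_sq.mul_prod h1)

lemma aux (η x y : ℝ) (hη : 0 < η) (hx : x ∈ Icc (0 : ℝ) 1) (hxy : η ≤ |y - x|) :
    1 / |y - x| ^ 2 ≤ 3 * (1 + 1 / η ^ 2) * (1 + y ^ 2)⁻¹ := by
  have h1 : η ^ 2 ≤ (y - x) ^ 2 := by
    rw [← sq_abs (y - x)]
    gcongr
  have h0 : 0 < η ^ 2 := by positivity
  rw [sq_abs, ← div_eq_mul_inv, div_le_div_iff₀ (by linarith) (by positivity)]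
  have h2 : 1 + y ^ 2 ≤ 3 * (1 + (y - x) ^ 2) := by
    nlinarith [sq_nonneg (y - 2 * x), hx.1, hx.2, sq_nonneg (y - x)]
  have h3 : 1 ≤ 1 / η ^ 2 * (y - x) ^ 2 := by
    rw [one_div_mul_eq_div, one_le_div h0]
    exact h1
  nlinarith

noncomputable def cl (x : ℝ) : ℝ := max 0 (min 1 x)

lemma cl_mem (x : ℝ) : cl x ∈ Icc (0 : ℝ) 1 :=
  ⟨le_max_left _ _, max_le zero_le_one (min_le_left _ _)⟩

lemma cl_lip (x y : ℝ) : |cl y - cl x| ≤ |y - x| := by
  refine (abs_max_sub_max_le_max _ _ _ _).trans (max_le (by simp) ?_)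
  exact (abs_min_sub_min_le_max _ _ _ _).trans (max_le (by simp) le_rfl)

lemma cl_neg {x : ℝ} (h : x ≤ 0) : cl x = 0 := max_eq_left ((min_le_right _ _).trans h)

lemma cl_big {x : ℝ} (h : 1 ≤ x) : cl x = 1 := by
  rw [cl, min_eq_left h, max_eq_right zero_le_one]

theorem main {N : Type} [MetricSpace N] (L : ℝ) (hL : 0 < L) (γ : ℝ → N)
    (hγ : ∀ s ∈ Icc 0 L, ∀ t ∈ Icc 0 L, dist (γ s) (γ t) = |s - t|)
    (p : ℝ) (hp0 : 0 ≤ p) (hp1 : p < 1) (C : ℝ) (hC : 0 < C) :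
    ∃ (Ω : Set ℝ) (f : ℝ → N) (δ ε : ℝ), Convex ℝ Ω ∧ Continuous f ∧ 0 < δ ∧ δ < ε ∧
      ENNReal.ofReal (C * (δ / ε) ^ (1 - p)) * G p δ f Ω < G p ε f Ω := by
  let f : ℝ → N := fun x => γ (L * cl x)
  have hm : ∀ x, L * cl x ∈ Icc 0 L := fun x =>
    ⟨mul_nonneg hL.le (cl_mem x).1, mul_le_of_le_one_right hL.le (cl_mem x).2⟩
  have hd : ∀ x y, dist (f y) (f x) = L * |cl y - cl x| := by
    intro x y
    rw [hγ _ (hm y) _ (hm x), ← mul_sub, abs_mul, abs_of_pos hL]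
  have hd1 : ∀ x y, dist (f y) (f x) ≤ L * |y - x| := fun x y => by
    rw [hd]
    exact mul_le_mul_of_nonneg_left (cl_lip x y) hL.le
  have hd2 : ∀ x y, dist (f y) (f x) ≤ L := fun x y => by
    rw [hγ _ (hm y) _ (hm x), abs_le]
    constructor <;> linarith [(hm x).1, (hm x).2, (hm y).1, (hm y).2]
  have hf : Continuous f := by
    have : LipschitzWith ⟨L, hL.le⟩ f := LipschitzWith.of_dist_le_mul fun a b => by
      rw [Real.dist_eq]
      exact hd1 b a
    exact this.continuous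
  set a : ℝ := (L / 2) ^ p with ha
  set b : ℝ := L ^ p with hb
  have ha0 : 0 < a := by positivity
  have hb0 : 0 < b := by positivity
  obtain ⟨θ, hθ0, hθ1, hθ⟩ : ∃ θ : ℝ, 0 < θ ∧ θ < 1 ∧ C * θ ^ (1 - p) * b ≤ a / 2 := by
    have h1 : ContinuousAt (fun θ : ℝ => C * θ ^ (1 - p) * b) 0 :=
      ((Real.continuousAt_rpow_const 0 (1 - p) (Or.inr (by linarith))).const_mul C).mul_const b
    have h2 : ∀ᶠ θ in nhds (0 : ℝ), C * θ ^ (1 - p) * b < a / 2 := by
      refine h1.eventually (gt_mem_nhds ?_)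
      simp only
      rw [Real.zero_rpow (by linarith)]
      linarith
    have h3 : ∀ᶠ θ in nhdsWithin (0 : ℝ) (Ioi 0), θ ∈ Ioo (0 : ℝ) 1 := Ioo_mem_nhdsGT one_pos
    obtain ⟨θ, h4, h5⟩ := ((h2.filter_mono nhdsWithin_le_nhds).and h3).exists
    exact ⟨θ, h5.1, h5.2, le_of_lt h4⟩
  set K : ℝ := b * (3 * (1 + 1 / (θ / 2) ^ 2)) with hK
  have hK0 : 0 < K := by positivity
  set J : ℝ≥0∞ := ∫⁻ z, ENNReal.ofReal (K * h z) with hJ
  have hJt : J ≠ ∞ := (h_int.const_mul K).lintegral_lt_top.ne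
  set c : ℝ := C * θ ^ (1 - p) with hc
  have hc0 : 0 < c := by positivity
  obtain ⟨n, hn⟩ := exists_nat_gt (32 * (c * J.toReal) / a)
  set R : ℝ := 2 ^ n with hR
  have hR0 : 0 < R := by positivity
  have hmeas : ∀ t, MeasurableSet {z : ℝ × ℝ | z.1 ∈ Icc (-R) (R + 1) ∧ z.2 ∈ Icc (-R) (R + 1) ∧
      t ≤ dist (f z.2) (f z.1)} := fun t =>
    (measurable_fst measurableSet_Icc).inter ((measurable_snd measurableSet_Icc).inter
      (isClosed_le continuous_const
        ((hf.comp continuous_snd).dist (hf.comp continuous_fst))).measurableSet)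
  have hT : ∀ z ∈ T R, dist (f z.2) (f z.1) = L := by
    rintro ⟨x, y⟩ (⟨h1, h2⟩ | ⟨h1, h2⟩)
    · rw [hd, cl_neg h1.2, cl_big h2.1]
      simp
    · rw [hd, cl_neg h2.2, cl_big h1.1]
      simp
  set I : ℝ≥0∞ := ∫⁻ z in T R, k z with hI
  have low : ENNReal.ofReal a * I ≤ G p (L / 2) f (Icc (-R) (R + 1)) := by
    rw [hI, ← lintegral_const_mul _ k_meas]
    refine le_trans (setLIntegral_mono' (T_meas R) fun z hz => le_of_eq ?_)
      (lintegral_mono_set ?_)
    · rw [hT z hz, k, ← ENNReal.ofReal_mul ha0.le, mul_one_div, ha]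
      congr 3
      ring
    · intro z hz
      have h3 := hT z hz
      rcases hz with ⟨h1, h2⟩ | ⟨h1, h2⟩
      · exact ⟨⟨h1.1, by linarith [h1.2]⟩, ⟨by linarith [h2.1], h2.2⟩, by linarith⟩
      · exact ⟨⟨by linarith [h1.1], h1.2⟩, ⟨h2.1, by linarith [h2.2]⟩, by linarith⟩
  have up : G p (θ * (L / 2)) f (Icc (-R) (R + 1)) ≤ ENNReal.ofReal b * I + J := by
    rw [hI, ← lintegral_const_mul _ k_meas, ← lintegral_indicator (T_meas R), hJ,
      ← lintegral_add_left ((k_meas.const_mul _).indicator (T_meas R)), G,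
      ← lintegral_indicator (hmeas _)]
    refine lintegral_mono fun z => ?_
    by_cases hz : z ∈ {z : ℝ × ℝ | z.1 ∈ Icc (-R) (R + 1) ∧ z.2 ∈ Icc (-R) (R + 1) ∧
      θ * (L / 2) ≤ dist (f z.2) (f z.1)}
    swap
    · rw [indicator_of_notMem hz]
      exact zero_le
    rw [indicator_of_mem hz]
    obtain ⟨x, y⟩ := z
    obtain ⟨hx, hy, hxy⟩ := hz
    simp only at hx hy hxy ⊢
    have hpos : 0 < θ * (L / 2) := by positivity
    have h1 : (dist (f y) (f x) - θ * (L / 2)) ^ p / |y - x| ^ 2 ≤ b * (1 / |y - x| ^ 2) := by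
      rw [mul_one_div]
      have := hd2 x y
      exact div_le_div_of_nonneg_right (Real.rpow_le_rpow (by linarith) (by linarith) hp0)
        (by positivity)
    refine (ENNReal.ofReal_le_ofReal h1).trans ?_
    have h2 : θ / 2 ≤ |y - x| := by
      have := hd1 x y
      nlinarith
    have i0 : ∀ s, 0 ≤ (Icc (0 : ℝ) 1).indicator (fun _ => (1 : ℝ)) s :=
      fun s => indicator_nonneg (fun _ _ => zero_le_one) s
    by_cases c1 : x ∈ Icc (0 : ℝ) 1
    · refine le_add_left (ENNReal.ofReal_le_ofReal ?_)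
      have h3 := aux (θ / 2) x y (by positivity) c1 h2
      have h4 := mul_nonneg (by positivity : 0 ≤ (1 + x ^ 2)⁻¹) (i0 y)
      simp only [h, indicator_of_mem c1, one_mul]
      calc b * (1 / |y - x| ^ 2) ≤ b * (3 * (1 + 1 / (θ / 2) ^ 2) * (1 + y ^ 2)⁻¹) := by gcongr
        _ = K * (1 + y ^ 2)⁻¹ := by rw [hK]; ring
        _ ≤ _ := by gcongr; linarith
    by_cases c2 : y ∈ Icc (0 : ℝ) 1
    · refine le_add_left (ENNReal.ofReal_le_ofReal ?_)
      have h3 := aux (θ / 2) y x (by positivity) c2 (by rwa [abs_sub_comm])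
      rw [abs_sub_comm] at h3
      simp only [h, indicator_of_mem c2, indicator_of_notMem c1, mul_one, zero_mul, zero_add]
      calc b * (1 / |y - x| ^ 2) ≤ b * (3 * (1 + 1 / (θ / 2) ^ 2) * (1 + x ^ 2)⁻¹) := by gcongr
        _ = K * (1 + x ^ 2)⁻¹ := by rw [hK]; ring
    have hT' : (x, y) ∈ T R := by
      simp only [mem_Icc, not_and_or, not_le] at c1 c2
      rw [hd] at hxy
      rcases c1 with c1 | c1 <;> rcases c2 with c2 | c2
      · rw [cl_neg c1.le, cl_neg c2.le] at hxy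
        simp at hxy
        linarith
      · exact Or.inl ⟨⟨hx.1, c1.le⟩, c2.le, hy.2⟩
      · exact Or.inr ⟨⟨c1.le, hx.2⟩, hy.1, c2.le⟩
      · rw [cl_big c1.le, cl_big c2.le] at hxy
        simp at hxy
        linarith
    refine le_add_right (le_of_eq ?_)
    rw [indicator_of_mem hT', k, ← ENNReal.ofReal_mul hb0.le]
  refine ⟨Icc (-R) (R + 1), f, θ * (L / 2), L / 2, convex_Icc _ _, hf, by positivity,
    by nlinarith, ?_⟩
  have e : θ * (L / 2) / (L / 2) = θ := by field_simp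
  rw [e, ← hc]
  refine lt_of_le_of_lt (mul_le_mul_right up _) (lt_of_lt_of_le ?_ low)
  have hIt : I ≠ ∞ := T_finite R
  have hI1 : (n : ℝ) / 16 ≤ I.toReal := by
    rw [← ENNReal.ofReal_le_iff_le_toReal hIt]
    exact (S_lower n).trans (lintegral_mono_set subset_union_left)
  rw [← ENNReal.ofReal_toReal hIt, ← ENNReal.ofReal_toReal hJt, ← ENNReal.ofReal_mul hb0.le,
    ← ENNReal.ofReal_add (by positivity) (by positivity), ← ENNReal.ofReal_mul hc0.le,
    ← ENNReal.ofReal_mul ha0.le, ENNReal.ofReal_lt_ofReal_iff_of_nonneg (by positivity)]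
  rw [div_lt_iff₀ ha0] at hn
  have h5 : c * b * I.toReal ≤ a / 2 * I.toReal :=
    mul_le_mul_of_nonneg_right hθ ENNReal.toReal_nonneg
  have h6 : a * (n / 16) ≤ a * I.toReal := mul_le_mul_of_nonneg_left hI1 ha0.le
  nlinarith

end Pool.Agent.H94.GapProof
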