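import Mathlib

/-! Upper Mertens bounds (copied from the H59 files). -/

set_option autoImplicit false

namespace Pool.Agent.H94.HD

open Finset Filter

lemma sum_log_le (Q : Finset ℕ) (hQ : ∀ q ∈ Q, q.Prime) (n : ℕ) (hn : n ≠ 0) :
    ∑ q ∈ Q, (if q ∣ n then Real.log q else 0) ≤ Real.log n := by
  rw [← Finset.sum_filter, ← Real.log_prod (fun q hq => by
    exact_mod_cast (hQ q (Finset.mem_filter.1 hq).1).ne_zero), ← Nat.cast_prod]
  have h := Finset.prod_primes_dvd (s := Q.filter (fun q => q ∣ n)) n
    (fun q hq => (hQ q (Finset.mem_filter.1 hq).1).prime) (fun q hq => (Finset.mem_filter.1 hq).2)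
  have h0 : 0 < ∏ q ∈ Q.filter (fun q => q ∣ n), q :=
    Finset.prod_pos (fun q hq => (hQ q (Finset.mem_filter.1 hq).1).pos)
  exact Real.log_le_log (by exact_mod_cast h0)
    (by exact_mod_cast Nat.le_of_dvd (Nat.pos_of_ne_zero hn) h)

lemma theta_le (N : ℕ) : ∑ p ∈ N.primesLE, Real.log p ≤ 2 * N := by
  rw [← Chebyshev.theta_eq_sum_primesLE_log]
  have h1 := Chebyshev.theta_le_log4_mul_x (Nat.cast_nonneg N : (0 : ℝ) ≤ N)
  have h2 : Real.log 4 ≤ 2 := by
    have : Real.log 4 = 2 * Real.log 2 := by
      rw [show (4 : ℝ) = 2 ^ 2 by norm_num, Real.log_pow]; norm_num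
    have := Real.log_two_lt_d9
    linarith
  have h3 : (0 : ℝ) ≤ N := Nat.cast_nonneg N
  nlinarith

lemma mertens (N : ℕ) (hN : 1 ≤ N) : ∑ p ∈ N.primesLE, Real.log p / p ≤ Real.log N + 2 := by
  have hN0 : (0 : ℝ) < N := by exact_mod_cast hN
  have hQ : ∀ q ∈ N.primesLE, q.Prime := fun q hq => (Nat.mem_primesLE.1 hq).2
  have h1 : ∑ n ∈ Ioc 0 N, ∑ q ∈ N.primesLE, (if q ∣ n then Real.log q else 0) ≤
      N * Real.log N := by
    have := Finset.sum_le_card_nsmul (Ioc 0 N)
      (fun n => ∑ q ∈ N.primesLE, (if q ∣ n then Real.log q else 0)) (Real.log N) (fun n hn => by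
        obtain ⟨h1, h2⟩ := mem_Ioc.1 hn
        exact (sum_log_le _ hQ n (by omega)).trans
          (Real.log_le_log (by exact_mod_cast h1) (by exact_mod_cast h2)))
    simpa using this
  rw [Finset.sum_comm] at h1
  have h2 : ∑ q ∈ N.primesLE, (N * (Real.log q / q) - Real.log q) ≤
      ∑ q ∈ N.primesLE, ∑ n ∈ Ioc 0 N, (if q ∣ n then Real.log q else 0) := by
    refine Finset.sum_le_sum (fun q hq => ?_)
    rw [← Finset.sum_filter, Finset.sum_const, Nat.Ioc_filter_dvd_card_eq_div, nsmul_eq_mul]
    have hq0 : (0 : ℝ) < q := by exact_mod_cast (hQ q hq).pos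
    have a1 : (N : ℝ) / q - 1 ≤ ((N / q : ℕ) : ℝ) := by
      have := Nat.lt_mul_div_succ N (hQ q hq).pos
      have a2 : (N : ℝ) < q * (((N / q : ℕ) : ℝ) + 1) := by exact_mod_cast this
      rw [sub_le_iff_le_add, div_le_iff₀ hq0]; linarith
    have a3 := mul_le_mul_of_nonneg_right a1 (Real.log_natCast_nonneg q)
    refine le_trans (le_of_eq ?_) a3
    ring
  rw [Finset.sum_sub_distrib, ← Finset.mul_sum] at h2
  have h3 := theta_le N
  have : N * ∑ p ∈ N.primesLE, Real.log p / p ≤ N * (Real.log N + 2) := by linarith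
  exact le_of_mul_le_mul_left this hN0

lemma mert (N : ℕ) (hN : 2 ≤ N) :
    ∑ p ∈ N.primesLE, 1 / (p : ℝ) ≤ Real.log (Real.log N) + 5 := by
  have key : ∀ n : ℕ, 2 ≤ n → ∑ p ∈ n.primesLE, 1 / (p : ℝ) -
      (∑ p ∈ n.primesLE, Real.log p / p) / Real.log n ≤
      Real.log (Real.log n) - 2 / Real.log n + 4 := by
    intro n hn
    induction n, hn using Nat.le_induction with
    | base =>
      have l := Real.log_two_gt_d9
      have a1 := Real.one_sub_inv_le_log_of_pos (by linarith : 0 < Real.log 2)
      have a2 : (Real.log 2)⁻¹ ≤ 3 / 2 := by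
        rw [inv_le_comm₀ (by linarith) (by norm_num)]; linarith
      rw [show Nat.primesLE 2 = {2} by decide]
      simp only [sum_singleton, Nat.cast_ofNat]
      rw [show Real.log 2 / 2 / Real.log 2 = 1 / 2 by field_simp, div_eq_mul_inv 2]
      linarith
    | succ n hn ih =>
      have n1 : (1 : ℝ) < n := by exact_mod_cast hn
      have u0 := Real.log_pos n1
      have u1 : Real.log n ≤ Real.log (n + 1 : ℕ) :=
        Real.log_le_log (by linarith) (by push_cast; linarith)
      have m := mertens n (by omega)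
      have a1 := Real.one_sub_inv_le_log_of_pos
        (div_pos (u0.trans_le u1) u0)
      rw [Real.log_div (u0.trans_le u1).ne' u0.ne', inv_div] at a1
      have a2 : 0 ≤ 1 / Real.log n - 1 / Real.log (n + 1 : ℕ) :=
        sub_nonneg.2 (one_div_le_one_div_of_le u0 u1)
      have a3 := mul_le_mul_of_nonneg_right m a2
      have e : ∑ p ∈ (n + 1).primesLE, 1 / (p : ℝ) -
          (∑ p ∈ (n + 1).primesLE, Real.log p / p) / Real.log (n + 1 : ℕ) =
          ∑ p ∈ n.primesLE, 1 / (p : ℝ) -
          (∑ p ∈ n.primesLE, Real.log p / p) / Real.log (n + 1 : ℕ) := by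
        by_cases hp : (n + 1).Prime
        · have : (n + 1).primesLE = insert (n + 1) n.primesLE := by
            ext p; simp only [Nat.mem_primesLE, mem_insert]
            constructor
            · rintro ⟨h1, h2⟩
              rcases Nat.lt_or_ge n p with h | h
              · left; omega
              · exact Or.inr ⟨h, h2⟩
            · rintro (rfl | h)
              · exact ⟨le_rfl, hp⟩
              · exact ⟨by omega, h.2⟩
          have nm : n + 1 ∉ n.primesLE := by simp [Nat.mem_primesLE]
          have := (u0.trans_le u1).ne'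
          rw [‹(n + 1).primesLE = _›, sum_insert nm, sum_insert nm]
          field_simp; ring
        · have : (n + 1).primesLE = n.primesLE := by
            ext p; simp only [Nat.mem_primesLE]
            constructor
            · rintro ⟨h1, h2⟩
              exact ⟨by by_contra h; exact hp ((by omega : p = n + 1) ▸ h2), h2⟩
            · exact fun h => ⟨by omega, h.2⟩
          rw [this]
      rw [e]
      have e2 : (Real.log n + 2) * (1 / Real.log n - 1 / Real.log (n + 1 : ℕ)) =
          1 - Real.log n / Real.log (n + 1 : ℕ) + 2 / Real.log n - 2 / Real.log (n + 1 : ℕ) := by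
        field_simp; ring
      rw [e2, mul_sub, mul_one_div, mul_one_div] at a3
      linarith
  have u0 : 0 < Real.log N := Real.log_pos (by exact_mod_cast hN)
  have a := div_le_div_of_nonneg_right (mertens N (by omega)) u0.le
  rw [add_div, div_self u0.ne'] at a
  linarith [key N hN]

end Pool.Agent.H94.HD
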