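import Mathlib

/-! Algebraic inequalities for the adaptive kernel. -/

set_option autoImplicit false

namespace Pool.Agent.H94.HD

lemma errb {r x T a b δ p q I : ℝ} (hr0 : 0 ≤ r) (hr : r ≤ 1 / 1000) (hx : 0 ≤ x) (hT : 0 ≤ T)
    (ha : |a| ≤ r * x) (hb : |b| ≤ 9 * r * x) (hδ : |δ| ≤ 20 * r ^ 2 * x) (hpq : p ^ 2 + q ^ 2 = 1)
    (hI : |I| ≤ 2 * T) :
    2 * a * δ * p * (p ^ 2 - q ^ 2) + δ ^ 2 * (p ^ 2 - q ^ 2) ^ 2 + 2 * b * q * (2 * δ * p * q + I)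
      + (2 * δ * p * q + I) ^ 2 ≤ 500 * r ^ 3 * x ^ 2 + 36 * r * x * T + 8 * T ^ 2 := by
  have hp : |p| ≤ 1 := abs_le_one_iff_mul_self_le_one.2 (by nlinarith)
  have hq : |q| ≤ 1 := abs_le_one_iff_mul_self_le_one.2 (by nlinarith)
  have hs : |p ^ 2 - q ^ 2| ≤ 1 := abs_le.2 ⟨by nlinarith, by nlinarith⟩
  have h2 : |2 * p * q| ≤ 1 := abs_le.2 ⟨by nlinarith [sq_nonneg (p + q)], by nlinarith [sq_nonneg (p - q)]⟩
  set Δ := 20 * r ^ 2 * x with hΔ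
  have hΔ0 : 0 ≤ Δ := by positivity
  have hh : |2 * δ * p * q + I| ≤ Δ + 2 * T := by
    refine (abs_add_le _ _).trans (add_le_add ?_ hI)
    rw [show 2 * δ * p * q = δ * (2 * p * q) by ring, abs_mul]
    exact (mul_le_of_le_one_right (abs_nonneg _) h2).trans hδ
  have t1 : 2 * a * δ * p * (p ^ 2 - q ^ 2) ≤ 2 * (r * x) * Δ := by
    refine (le_abs_self _).trans ?_
    rw [abs_mul, abs_mul, abs_mul, abs_mul, abs_two]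
    calc 2 * |a| * |δ| * |p| * |p ^ 2 - q ^ 2| ≤ 2 * (r * x) * Δ * 1 * 1 := by gcongr
      _ = _ := by ring
  have t2 : δ ^ 2 * (p ^ 2 - q ^ 2) ^ 2 ≤ Δ ^ 2 := by
    rw [← sq_abs δ, ← sq_abs (p ^ 2 - q ^ 2)]
    calc |δ| ^ 2 * |p ^ 2 - q ^ 2| ^ 2 ≤ Δ ^ 2 * 1 ^ 2 := by gcongr
      _ = _ := by ring
  have t3 : 2 * b * q * (2 * δ * p * q + I) ≤ 2 * (9 * r * x) * (Δ + 2 * T) := by
    refine (le_abs_self _).trans ?_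
    rw [abs_mul, abs_mul, abs_mul, abs_two]
    calc 2 * |b| * |q| * |2 * δ * p * q + I| ≤ 2 * (9 * r * x) * 1 * (Δ + 2 * T) := by gcongr
      _ = _ := by ring
  have t4 : (2 * δ * p * q + I) ^ 2 ≤ 2 * Δ ^ 2 + 8 * T ^ 2 := by
    rw [← sq_abs]
    calc |2 * δ * p * q + I| ^ 2 ≤ (Δ + 2 * T) ^ 2 := by gcongr
      _ ≤ _ := by nlinarith [sq_nonneg (Δ - 2 * T)]
  have t5 : 3 * Δ ^ 2 ≤ 100 * r ^ 3 * x ^ 2 := by
    have : 0 ≤ r ^ 3 * x ^ 2 := by positivity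
    rw [hΔ]; nlinarith
  have t6 : 20 * (r * x) * Δ = 400 * r ^ 3 * x ^ 2 := by rw [hΔ]; ring
  nlinarith

lemma mainA {r l x u T Z : ℝ} (hr0 : 0 < r) (hr : r ≤ 1 / 1000) (hl0 : 0 ≤ l) (hl : l ≤ r / 50)
    (hx : 0 ≤ x) (hu : 0 ≤ u) (hux : u ≤ 4 * x) (hT : 0 ≤ T) (hZ : 0 ≤ Z)
    (hTZ : T ^ 4 ≤ 64 * r ^ 5 * Z) :
    (x ^ 2 + 2 * (r * u) ^ 2 - 2 * l * x * (r * u) + l ^ 2 * x ^ 2 +
      (500 * r ^ 3 * x ^ 2 + 36 * r * x * T + 8 * T ^ 2)) ^ 2 + 4 * l ^ 2 * x ^ 4 ≤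
      (1 + 2 * r ^ 2 + 12000 * r ^ 3) * (1 - l * r / 8) * (x ^ 4 + 2 * r ^ 2 * u ^ 4 + Z) := by
  set ε := 500 * r ^ 3 * x ^ 2 + 36 * r * x * T + 8 * T ^ 2 with hε
  have hε0 : 0 ≤ ε := by positivity
  set P0 := x ^ 2 + 2 * (r * u) ^ 2 with hP0
  have hr2 : r ^ 2 ≤ 1 / 1000000 := by nlinarith
  have hr3 : r ^ 3 ≤ 1 / 1000000000 := by nlinarith
  have hu2 : u ^ 2 ≤ 16 * x ^ 2 := by nlinarith
  have hx2 : 0 ≤ x ^ 2 := by positivity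
  have hx4 : 0 ≤ x ^ 4 := by positivity
  have hP1 : x ^ 2 ≤ P0 := by rw [hP0]; nlinarith [sq_nonneg (r * u)]
  have hP2 : P0 ≤ 2 * x ^ 2 := by
    have : (r * u) ^ 2 ≤ 1 / 1000000 * (16 * x ^ 2) := by rw [mul_pow]; gcongr
    rw [hP0]; nlinarith
  set η := l ^ 2 * x ^ 2 + ε with hη
  have hη0 : 0 ≤ η := by positivity
  set y := r * u with hy
  have hy0 : 0 ≤ y := by positivity
  have hlxy : 0 ≤ l * x * y := by positivity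
  have e1 : (P0 - 2 * l * x * y + l ^ 2 * x ^ 2 + ε) ^ 2 =
      P0 ^ 2 - 4 * (l * x * y) * P0 + 4 * (l * x * y) ^ 2 + 2 * η * P0 - 4 * η * (l * x * y) + η ^ 2 := by
    rw [hη]; ring
  have e2 : P0 ^ 2 = (1 + 2 * r ^ 2) * (x ^ 4 + 2 * r ^ 2 * u ^ 4) - 2 * r ^ 2 * (x ^ 2 - u ^ 2) ^ 2 := by
    rw [hP0, hy]; ring
  have g1 : l * r * x ^ 4 ≤ 4 * (l * x * y) * P0 + 2 * r ^ 2 * (x ^ 2 - u ^ 2) ^ 2 := by
    have a1 : 4 * (l * x * y) * x ^ 2 ≤ 4 * (l * x * y) * P0 := by gcongr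
    rcases le_total x (2 * u) with h | h
    · have a2 : l * r * x ^ 3 * x ≤ l * r * x ^ 3 * (2 * u) := by gcongr
      have a3 : 0 ≤ l * r * x ^ 3 * u := by positivity
      have a4 : 0 ≤ r ^ 2 * (x ^ 2 - u ^ 2) ^ 2 := by positivity
      rw [hy] at a1 ⊢; nlinarith
    · have a2 : 3 / 4 * x ^ 2 ≤ x ^ 2 - u ^ 2 := by nlinarith
      have a3 : (3 / 4 * x ^ 2) ^ 2 ≤ (x ^ 2 - u ^ 2) ^ 2 := by gcongr
      have a4 : r ^ 2 * (3 / 4 * x ^ 2) ^ 2 ≤ r ^ 2 * (x ^ 2 - u ^ 2) ^ 2 := by gcongr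
      have a5 : l * (r * x ^ 4) ≤ r * (r * x ^ 4) := by gcongr; linarith
      have a6 : 0 ≤ 4 * (l * x * y) * x ^ 2 := by positivity
      have a7 : 0 ≤ r ^ 2 * x ^ 4 := by positivity
      nlinarith
  have hl2 : l ^ 2 ≤ 1 := by nlinarith
  have l1 : 4 * (l * x * y) ^ 2 ≤ l ^ 2 * x ^ 4 := by
    have : y ^ 2 ≤ 1 / 1000000 * (16 * x ^ 2) := by rw [hy, mul_pow]; gcongr
    have a : (l * x) ^ 2 * y ^ 2 ≤ (l * x) ^ 2 * (1 / 1000000 * (16 * x ^ 2)) := by gcongr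
    have : 0 ≤ l ^ 2 * x ^ 4 := by positivity
    nlinarith
  have l2 : 2 * η * P0 ≤ 4 * l ^ 2 * x ^ 4 + 4 * x ^ 2 * ε := by
    have : η * P0 ≤ η * (2 * x ^ 2) := by gcongr
    rw [hη] at this ⊢; nlinarith
  have l3 : η ^ 2 ≤ 2 * l ^ 2 * x ^ 4 + 2 * ε ^ 2 := by
    have a : l ^ 2 * (l ^ 2 * x ^ 4) ≤ 1 * (l ^ 2 * x ^ 4) := by gcongr
    rw [hη]; nlinarith [sq_nonneg (l ^ 2 * x ^ 2 - ε)]
  have l4 : 11 * l ^ 2 * x ^ 4 ≤ l * r * x ^ 4 / 4 := by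
    have a : l * (l * x ^ 4) ≤ r / 50 * (l * x ^ 4) := by gcongr
    have : 0 ≤ l * r * x ^ 4 := by positivity
    nlinarith
  have hr5 : 0 < r ^ 5 := by positivity
  -- T terms
  have T1 : 144 * r * x ^ 3 * T ≤ 3240 * r ^ 3 * x ^ 4 + Z / 8 := by
    have a : ∀ s : ℝ, 4 * x ^ 3 * s ≤ 3 * x ^ 4 + s ^ 4 := fun s => by
      nlinarith [mul_nonneg (sq_nonneg (x - s)) (add_nonneg (sq_nonneg (x + s)) (by positivity : 0 ≤ 2 * x ^ 2))]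
    have b := a (T / (30 * r ^ 2))
    have c : (T / (30 * r ^ 2)) ^ 4 * (1080 * r ^ 3) ≤ Z / 8 := by
      rw [div_pow, div_mul_eq_mul_div, div_le_iff₀ (by positivity)]
      have : 0 ≤ r ^ 8 * Z := by positivity
      have d : T ^ 4 * r ^ 3 ≤ 64 * r ^ 5 * Z * r ^ 3 := by gcongr
      nlinarith
    have d := mul_le_mul_of_nonneg_right b (by positivity : 0 ≤ 1080 * r ^ 3)
    have e : 4 * x ^ 3 * (T / (30 * r ^ 2)) * (1080 * r ^ 3) = 144 * r * x ^ 3 * T := by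
      field_simp; ring
    nlinarith
  have T2 : 33 * x ^ 2 * T ^ 2 ≤ 17 * r ^ 3 * x ^ 4 + Z / 8 := by
    have hr3' : 0 < r ^ 3 := by positivity
    have a : 33 * x ^ 2 * T ^ 2 * r ^ 3 ≤ 17 * (r ^ 3 * x ^ 2) ^ 2 + 17 * T ^ 4 := by
      have : 0 ≤ x ^ 2 * T ^ 2 * r ^ 3 := by positivity
      nlinarith [sq_nonneg (r ^ 3 * x ^ 2 - T ^ 2)]
    have b : r ^ 2 * (r ^ 3 * Z) ≤ 1 / 1000000 * (r ^ 3 * Z) := by gcongr
    have c : 0 ≤ r ^ 3 * Z := by positivity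
    refine le_of_mul_le_mul_right ?_ hr3'
    nlinarith
  have T3 : 384 * T ^ 4 ≤ Z / 8 := by
    have b : r ^ 2 * r ^ 3 * Z ≤ 1 / 1000000 * (1 / 1000000000) * Z := by gcongr
    nlinarith
  have T4 : 2 * ε ^ 2 ≤ r ^ 3 * x ^ 4 + x ^ 2 * T ^ 2 + 384 * T ^ 4 := by
    have a : ε ^ 2 ≤ 3 * ((500 * r ^ 3 * x ^ 2) ^ 2 + (36 * r * x * T) ^ 2 + (8 * T ^ 2) ^ 2) := by
      rw [hε]
      nlinarith [sq_nonneg (500 * r ^ 3 * x ^ 2 - 36 * r * x * T), sq_nonneg (500 * r ^ 3 * x ^ 2 - 8 * T ^ 2),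
        sq_nonneg (36 * r * x * T - 8 * T ^ 2)]
    have b : r ^ 3 * (r ^ 3 * x ^ 4) ≤ 1 / 1000000000 * (r ^ 3 * x ^ 4) := by gcongr
    have c : r ^ 2 * (x ^ 2 * T ^ 2) ≤ 1 / 1000000 * (x ^ 2 * T ^ 2) := by gcongr
    have : 0 ≤ r ^ 3 * x ^ 4 := by positivity
    have : 0 ≤ x ^ 2 * T ^ 2 := by positivity
    nlinarith
  have T5 : 4 * x ^ 2 * ε = 2000 * r ^ 3 * x ^ 4 + 144 * r * x ^ 3 * T + 32 * x ^ 2 * T ^ 2 := by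
    rw [hε]; ring
  have hηl : 0 ≤ η * (l * x * y) := by positivity
  set Y := x ^ 4 + 2 * r ^ 2 * u ^ 4 with hY
  have hrx : 0 ≤ r ^ 3 * x ^ 4 := by positivity
  have up : (P0 - 2 * l * x * y + l ^ 2 * x ^ 2 + ε) ^ 2 + 4 * l ^ 2 * x ^ 4 ≤
      (1 + 2 * r ^ 2) * Y - 3 / 4 * (l * r * x ^ 4) + 6000 * (r ^ 3 * x ^ 4) + Z / 2 := by
    rw [e1, e2]; linarith
  have Y1 : x ^ 4 ≤ Y := by rw [hY]; have : 0 ≤ r ^ 2 * u ^ 4 := by positivity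
                            linarith
  have Y2 : Y ≤ 2 * x ^ 4 := by
    have a : r ^ 2 * (u ^ 2) ^ 2 ≤ 1 / 1000000 * (16 * x ^ 2) ^ 2 := by gcongr
    rw [hY]; nlinarith
  set B := 1 + 2 * r ^ 2 + 12000 * r ^ 3 with hB
  have B1 : 1 ≤ B := by rw [hB]; have : 0 ≤ r ^ 3 := by positivity
                        nlinarith
  have B2 : B ≤ 2 := by rw [hB]; linarith
  have hlr : 0 ≤ l * r := by positivity
  have hlr2 : l * r ≤ 1 := by nlinarith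
  have d1 : B * (l * r) * Y ≤ 2 * (l * r) * (2 * x ^ 4) := by gcongr
  have d2 : r ^ 3 * x ^ 4 ≤ r ^ 3 * Y := by gcongr
  have d3 : 1 * (1 / 2) * Z ≤ B * (1 - l * r / 8) * Z := by gcongr; linarith
  have d4 : B * (1 - l * r / 8) * (Y + Z) = (1 + 2 * r ^ 2) * Y + 12000 * (r ^ 3 * Y)
      - B * (l * r) * Y / 8 + B * (1 - l * r / 8) * Z := by rw [hB]; ring
  rw [d4]
  have : 0 ≤ l * r * x ^ 4 := by positivity
  nlinarith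

end Pool.Agent.H94.HD
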