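import Mathlib
import Pool.Agent.H94.HD1

/-! The pointwise kernel bound and the potential function. -/

set_option autoImplicit false

namespace Pool.Agent.H94.HD

noncomputable def Bf (r : ℝ) : ℝ := 1 + 2 * r ^ 2 + 100000000000000 * r ^ 3

lemma crude {r x u T p q I : ℝ} (hr0 : 0 < r) (hu : 0 ≤ u) (hpq : p ^ 2 + q ^ 2 = 1)
    (hI : |I| ≤ 2 * T) :
    ((x + 0 * x * p + 0 * (p ^ 2 - q ^ 2)) ^ 2 + (-2 * (r * u) * q + 0 * x * q + 2 * 0 * p * q + I) ^ 2) ^ 2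
      ≤ (x ^ 2 + 8 * (r * u) ^ 2 + 8 * T ^ 2) ^ 2 := by
  have hq : |q| ≤ 1 := abs_le_one_iff_mul_self_le_one.2 (by nlinarith)
  have h1 : |-2 * (r * u) * q + I| ≤ 2 * (r * u) + 2 * T := by
    refine (abs_add_le _ _).trans (add_le_add ?_ hI)
    rw [abs_mul, abs_mul, abs_neg, abs_two, abs_of_nonneg (by positivity : 0 ≤ r * u)]
    exact mul_le_of_le_one_right (by positivity) hq
  have h2 : (-2 * (r * u) * q + I) ^ 2 ≤ 8 * (r * u) ^ 2 + 8 * T ^ 2 := by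
    rw [← sq_abs]
    calc |-2 * (r * u) * q + I| ^ 2 ≤ (2 * (r * u) + 2 * T) ^ 2 := by gcongr
      _ ≤ _ := by nlinarith [sq_nonneg (r * u - T)]
  simp only [zero_mul, add_zero, mul_zero]
  gcongr ?_ ^ 2
  linarith

lemma caseB1 {r l x u T Z : ℝ} (hr0 : 1 / 1000 ≤ r) (hr : r ≤ 3 / 4) (hl : l ≤ r / 50)
    (hZ : 0 ≤ Z) (hTZ : T ^ 4 ≤ 64 * r ^ 5 * Z) :
    (x ^ 2 + 8 * (r * u) ^ 2 + 8 * T ^ 2) ^ 2 ≤
      Bf r * ((1 - l * r / 8) * (x ^ 4 + 2 * r ^ 2 * u ^ 4 + Z)) := by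
  have r0 : 0 < r := by linarith
  have a : (x ^ 2 + 8 * (r * u) ^ 2 + 8 * T ^ 2) ^ 2 ≤
      3 * ((x ^ 2) ^ 2 + (8 * (r * u) ^ 2) ^ 2 + (8 * T ^ 2) ^ 2) := by
    nlinarith [sq_nonneg (x ^ 2 - 8 * (r * u) ^ 2), sq_nonneg (x ^ 2 - 8 * T ^ 2),
      sq_nonneg (8 * (r * u) ^ 2 - 8 * T ^ 2)]
  have r1 : r ≤ 1 := by linarith
  have b : r ^ 2 * (r ^ 2 * u ^ 4) ≤ 1 ^ 2 * (r ^ 2 * u ^ 4) := by gcongr
  have c : r ^ 5 * Z ≤ 1 ^ 5 * Z := by gcongr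
  have d : (1 / 1000 : ℝ) ^ 3 ≤ r ^ 3 := by gcongr
  have e : 100000 ≤ Bf r := by
    have : 0 ≤ r ^ 2 := by positivity
    unfold Bf; linarith
  have f : 1 / 2 ≤ 1 - l * r / 8 := by nlinarith
  have x4 : 0 ≤ x ^ 4 := by positivity
  have u4 : 0 ≤ r ^ 2 * u ^ 4 := by positivity
  have g : 100000 * (1 / 2 * (x ^ 4 + 2 * r ^ 2 * u ^ 4 + Z)) ≤
      Bf r * ((1 - l * r / 8) * (x ^ 4 + 2 * r ^ 2 * u ^ 4 + Z)) := by gcongr
  refine le_trans ?_ g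
  refine a.trans ?_
  have h : 3 * ((x ^ 2) ^ 2 + (8 * (r * u) ^ 2) ^ 2 + (8 * T ^ 2) ^ 2) =
    3 * x ^ 4 + 192 * (r ^ 2 * (r ^ 2 * u ^ 4)) + 192 * T ^ 4 := by ring
  rw [h]; linarith

lemma caseB2 {r l x u T Z : ℝ} (hr0 : 0 < r) (hr : r ≤ 1 / 1000) (hl : l ≤ r / 50)
    (hx : 0 ≤ x) (hux : 4 * x ≤ u) (hZ : 0 ≤ Z) (hTZ : T ^ 4 ≤ 64 * r ^ 5 * Z) :
    (x ^ 2 + 8 * (r * u) ^ 2 + 8 * T ^ 2) ^ 2 ≤
      Bf r * ((1 - l * r / 8) * (x ^ 4 + 2 * r ^ 2 * u ^ 4 + Z)) := by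
  have hr2 : r ^ 2 ≤ 1 / 1000000 := by nlinarith
  have hr3 : r ^ 3 ≤ 1 / 1000000000 := by nlinarith
  have e : (x ^ 2 + 8 * (r * u) ^ 2 + 8 * T ^ 2) ^ 2 ≤ x ^ 4 + 16 * x ^ 2 * (r ^ 2 * u ^ 2) +
      16 * (x ^ 2 * T ^ 2) + 128 * (r ^ 2 * (r ^ 2 * u ^ 4)) + 128 * T ^ 4 := by
    nlinarith [sq_nonneg ((r * u) ^ 2 - T ^ 2)]
  have a1 : 16 * x ^ 2 ≤ u ^ 2 := by nlinarith
  have a2 : 16 * x ^ 2 * (r ^ 2 * u ^ 2) ≤ u ^ 2 * (r ^ 2 * u ^ 2) := by gcongr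
  have a3 : r ^ 2 * (r ^ 2 * u ^ 4) ≤ 1 / 1000000 * (r ^ 2 * u ^ 4) := by gcongr
  have a4 : 16 * (x ^ 2 * T ^ 2) ≤ r ^ 2 * x ^ 4 + Z / 4 := by
    have r2 : 0 < r ^ 2 := by positivity
    have b : r ^ 3 * (r ^ 2 * Z) ≤ 1 / 1000000000 * (r ^ 2 * Z) := by gcongr
    have c : 0 ≤ r ^ 2 * Z := by positivity
    refine le_of_mul_le_mul_right ?_ r2
    nlinarith [sq_nonneg (r ^ 2 * x ^ 2 - 8 * T ^ 2)]
  have a5 : r ^ 2 * r ^ 3 * Z ≤ 1 / 1000000 * (1 / 1000000000) * Z := by gcongr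
  have x4 : 0 ≤ x ^ 4 := by positivity
  have u4 : 0 ≤ r ^ 2 * u ^ 4 := by positivity
  have f : 1 + r ^ 2 ≤ Bf r * (1 - l * r / 8) := by
    have b1 : 1 + 2 * r ^ 2 ≤ Bf r := by
      have : 0 ≤ r ^ 3 := by positivity
      unfold Bf; linarith
    have b2 : 1 - r ^ 2 / 4 ≤ 1 - l * r / 8 := by nlinarith
    have b3 : (1 + 2 * r ^ 2) * (1 - r ^ 2 / 4) ≤ Bf r * (1 - l * r / 8) := by
      gcongr
      · linarith
      · linarith [sq_nonneg r]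
    nlinarith [sq_nonneg r]
  have g : (1 + r ^ 2) * (x ^ 4 + 2 * r ^ 2 * u ^ 4 + Z) ≤
      Bf r * (1 - l * r / 8) * (x ^ 4 + 2 * r ^ 2 * u ^ 4 + Z) := by gcongr
  rw [← mul_assoc]
  refine le_trans ?_ g
  have h1 : 0 ≤ r ^ 2 * (r ^ 2 * u ^ 4) := by positivity
  have h2 : 0 ≤ r ^ 2 * Z := by positivity
  have h3 : (1 + r ^ 2) * (x ^ 4 + 2 * r ^ 2 * u ^ 4 + Z) = x ^ 4 + 2 * (r ^ 2 * u ^ 4) + Z +
    r ^ 2 * x ^ 4 + 2 * (r ^ 2 * (r ^ 2 * u ^ 4)) + r ^ 2 * Z := by ring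
  have h4 : u ^ 2 * (r ^ 2 * u ^ 2) = r ^ 2 * u ^ 4 := by ring
  have h5 : r ^ 2 * r ^ 3 * Z = r ^ 5 * Z := by ring
  rw [h3]; linarith

lemma alg {r l x u T Z : ℝ} (hr0 : 0 < r) (hr : r ≤ 3 / 4) (hl0 : 0 ≤ l) (hl : l ≤ r / 50)
    (hx : 0 ≤ x) (hu : 0 ≤ u) (hT : 0 ≤ T) (hZ : 0 ≤ Z) (hTZ : T ^ 4 ≤ 64 * r ^ 5 * Z) :
    ∃ l' δ γ : ℝ, |γ| ≤ 4 * l * (x ^ 4 + 2 * r ^ 2 * u ^ 4 + Z) ∧
      ∀ p q I : ℝ, p ^ 2 + q ^ 2 = 1 → |I| ≤ 2 * T →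
      ((x + l' * x * p + δ * (p ^ 2 - q ^ 2)) ^ 2 +
        (-2 * (r * u) * q + l' * x * q + 2 * δ * p * q + I) ^ 2) ^ 2 ≤
      Bf r * ((1 - l * r / 8) * (x ^ 4 + 2 * r ^ 2 * u ^ 4 + Z) + γ * p) := by
  have S0 : 0 ≤ x ^ 4 + 2 * r ^ 2 * u ^ 4 + Z := by positivity
  rcases le_total (1 / 1000) r with h1 | h1
  · refine ⟨0, 0, 0, by rw [abs_zero]; positivity, fun p q I h2 h3 => ?_⟩
    rw [zero_mul p, add_zero]
    exact (crude hr0 hu h2 h3).trans (caseB1 h1 hr hl hZ hTZ)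
  rcases le_total (4 * x) u with h4 | h4
  · refine ⟨0, 0, 0, by rw [abs_zero]; positivity, fun p q I h2 h3 => ?_⟩
    rw [zero_mul p, add_zero]
    exact (crude hr0 hu h2 h3).trans (caseB2 hr0 h1 hl hx h4 hZ hTZ)
  obtain ⟨v, v0, v1, hv⟩ : ∃ v : ℝ, 0 ≤ v ∧ v ≤ 4 * r ∧ r * u = v * x := by
    rcases hx.eq_or_lt with h | h
    · exact ⟨0, le_rfl, by positivity, by rw [show u = 0 by linarith]; ring⟩
    · refine ⟨r * u / x, by positivity, ?_, by field_simp⟩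
      rw [div_le_iff₀ h]; nlinarith
  have main := mainA hr0 h1 hl0 hl hx hu h4 hT hZ hTZ
  set P := x ^ 2 + 2 * (r * u) ^ 2 - 2 * l * x * (r * u) + l ^ 2 * x ^ 2 +
      (500 * r ^ 3 * x ^ 2 + 36 * r * x * T + 8 * T ^ 2) with hP
  set S := x ^ 4 + 2 * r ^ 2 * u ^ 4 + Z with hS
  have r3 : 0 ≤ r ^ 3 := by positivity
  have B0 : 1 + 2 * r ^ 2 + 12000 * r ^ 3 ≤ Bf r := by unfold Bf; linarith
  have B1 : 1 ≤ Bf r := by unfold Bf; nlinarith [sq_nonneg r]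
  have lr0 : 0 ≤ l * r := by positivity
  have lr1 : 0 ≤ 1 - l * r / 8 := by nlinarith
  have m2 : P ^ 2 + 4 * l ^ 2 * x ^ 4 ≤ Bf r * (1 - l * r / 8) * S := main.trans (by gcongr)
  refine ⟨l, v * (v - l) * x, 4 * l * x ^ 2 * P / Bf r, ?_, fun p q I h2 h3 => ?_⟩
  · rw [abs_div, abs_of_pos (by linarith : 0 < Bf r), div_le_iff₀ (by linarith), abs_mul,
      abs_of_nonneg (by positivity : 0 ≤ 4 * l * x ^ 2)]
    have a1 : Bf r * (1 - l * r / 8) * S ≤ Bf r * 1 * S := by gcongr; linarith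
    have a2 : x ^ 4 ≤ S := by
      have : 0 ≤ r ^ 2 * u ^ 4 := by positivity
      rw [hS]; linarith
    have a3 : 1 * S ≤ Bf r * S := by gcongr
    have a4 : 0 ≤ l ^ 2 * x ^ 4 := by positivity
    have a5 : 2 * x ^ 2 * |P| ≤ x ^ 4 + P ^ 2 := by
      rw [← sq_abs P]; nlinarith [sq_nonneg (x ^ 2 - |P|)]
    have a6 : x ^ 2 * |P| ≤ S * Bf r := by linarith
    have := mul_le_mul_of_nonneg_left a6 (by positivity : 0 ≤ 4 * l)
    linarith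
  · have hδ : |v * (v - l) * x| ≤ 20 * r ^ 2 * x := by
      rw [abs_mul, abs_mul, abs_of_nonneg v0, abs_of_nonneg hx]
      have : |v - l| ≤ 5 * r := abs_le.2 ⟨by linarith, by linarith⟩
      calc v * |v - l| * x ≤ 4 * r * (5 * r) * x := by gcongr
        _ = _ := by ring
    have ha : |l * x| ≤ r * x := by
      rw [abs_of_nonneg (by positivity)]; gcongr; linarith
    have hb : |l * x - 2 * (r * u)| ≤ 9 * r * x := by
      have b1 : l * x ≤ r * x := (le_abs_self _).trans ha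
      have b2 : r * u ≤ r * (4 * x) := by gcongr
      have b3 : 0 ≤ l * x := by positivity
      have b4 : 0 ≤ r * u := by positivity
      have b5 : 0 ≤ r * x := by positivity
      exact abs_le.2 ⟨by linarith, by linarith⟩
    have er := errb hr0.le h1 hx hT ha hb hδ h2 h3
    set δ := v * (v - l) * x with hd
    have k1 : (x + l * x * p + δ * (p ^ 2 - q ^ 2)) ^ 2 +
        (-2 * (r * u) * q + l * x * q + 2 * δ * p * q + I) ^ 2 ≤ P + 2 * l * x ^ 2 * p := by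
      have e : (x + l * x * p + δ * (p ^ 2 - q ^ 2)) ^ 2 +
          (-2 * (r * u) * q + l * x * q + 2 * δ * p * q + I) ^ 2 =
          x ^ 2 + 2 * l * x ^ 2 * p + (2 * (r * u) ^ 2 - 2 * l * x * (r * u) + l ^ 2 * x ^ 2) * (p ^ 2 + q ^ 2) +
          (2 * (l * x) * δ * p * (p ^ 2 - q ^ 2) + δ ^ 2 * (p ^ 2 - q ^ 2) ^ 2 +
            2 * (l * x - 2 * (r * u)) * q * (2 * δ * p * q + I) + (2 * δ * p * q + I) ^ 2) := by
        rw [hv, hd]; ring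
      rw [e, h2, hP]; linarith
    have k2 : p ^ 2 ≤ 1 := by nlinarith
    have k3 : l ^ 2 * x ^ 4 * p ^ 2 ≤ l ^ 2 * x ^ 4 * 1 := by gcongr
    have k4 : Bf r * ((1 - l * r / 8) * S + 4 * l * x ^ 2 * P / Bf r * p) =
        Bf r * (1 - l * r / 8) * S + 4 * l * x ^ 2 * P * p := by
      have : Bf r ≠ 0 := by linarith
      field_simp
    rw [k4]
    calc _ ≤ (P + 2 * l * x ^ 2 * p) ^ 2 := by gcongr
      _ = P ^ 2 + 4 * l * x ^ 2 * P * p + 4 * (l ^ 2 * x ^ 4 * p ^ 2) := by ring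
      _ ≤ _ := by linarith

/-- Barrier for the weight. -/
noncomputable def bar (m : ℝ) : ℝ := 1 + 7 / (m + 524288)

/-- Potential function. -/
noncomputable def phi (m W : ℝ) : ℝ :=
  2 * 524288 ^ 3 / (m + 524288) ^ 3 * (W / (1 + 8 / (m + 524288) - W))

lemma phi_zero {W : ℝ} (h0 : 0 ≤ W) (h : W ≤ bar 0) : W ≤ phi 0 W := by
  unfold phi; unfold bar at h
  rw [show 2 * (524288 : ℝ) ^ 3 / (0 + 524288) ^ 3 = 2 by norm_num, ← mul_div_assoc,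
    le_div_iff₀ (by norm_num at h ⊢; linarith)]
  nlinarith

lemma phi_le {m W : ℝ} (hm : 0 ≤ m) (h0 : 0 ≤ W) (h : W ≤ bar m) :
    0 ≤ phi m W ∧ phi m W ≤ 4 * 524288 ^ 3 / (m + 524288) ^ 2 := by
  unfold phi; unfold bar at h
  set μ := m + 524288 with hμ
  have μ0 : 524288 ≤ μ := by linarith
  have a1 : 1 / μ ≤ 1 + 8 / μ - W := by
    have : 8 / μ = 7 / μ + 1 / μ := by ring
    linarith
  have a2 : 0 < 1 / μ := by positivity
  have a3 : 7 / μ ≤ 1 := by rw [div_le_one (by linarith)]; linarith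
  have a4 : W / (1 + 8 / μ - W) ≤ 2 / (1 / μ) := by gcongr; linarith
  refine ⟨mul_nonneg (by positivity) (div_nonneg h0 (by linarith)), ?_⟩
  calc _ ≤ 2 * 524288 ^ 3 / μ ^ 3 * (2 / (1 / μ)) := by gcongr
    _ = _ := by field_simp; ring

lemma pot {m r W : ℝ} (hm : 0 ≤ m) (hr0 : 0 < r) (hr : r ≤ 1) (h0 : 0 ≤ W)
    (h : W ≤ bar (m + r ^ 2)) : ∃ l β : ℝ, 0 ≤ l ∧ l ≤ r / 50 ∧ ∀ x, |x| ≤ l * W →
      0 ≤ W * (1 - l * r / 32) + x ∧ W * (1 - l * r / 32) + x ≤ bar m ∧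
      phi m (W * (1 - l * r / 32) + x) ≤ phi (m + r ^ 2) W + β * x := by
  unfold bar phi at *
  set ν := m + 524288 with hν
  set μ := m + r ^ 2 + 524288 with hμ
  have r2 : 0 < r ^ 2 := by positivity
  have r21 : r ^ 2 ≤ 1 := by nlinarith
  have ν0 : 524288 ≤ ν := by linarith
  have μν : μ = ν + r ^ 2 := by rw [hν, hμ]; ring
  have μ0 : ν ≤ μ := by linarith
  have νp : 0 < ν := by linarith
  have μp : 0 < μ := by linarith
  set D := 1 + 7 / μ - W with hD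
  have D0 : 0 ≤ D := by linarith
  have i1 : 0 < 1 / μ := by positivity
  have i7 : 8 / ν ≤ 1 := by rw [div_le_one νp]; linarith
  have i8 : 7 / μ ≤ 7 / ν := by gcongr
  have i9 : 7 / ν ≤ 8 / ν := by gcongr; norm_num
  have W2 : W ≤ 2 := by linarith
  have D2 : D ≤ 2 := by linarith
  set l := r * D / 1024 with hl
  have l0 : 0 ≤ l := by positivity
  have l1 : l ≤ r / 50 := by rw [hl]; nlinarith
  have l2 : l ≤ D / 1024 := by rw [hl]; nlinarith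
  set g := l * r / 32 with hg
  have g0 : 0 ≤ g := by positivity
  have g1 : g ≤ 1 / 2 := by rw [hg]; nlinarith
  set Dt := 1 + 8 / μ - W with hDt
  have DDt : Dt = D + 1 / μ := by rw [hDt, hD]; ring
  have Dtp : 0 < Dt := by linarith
  set Db := 1 + 8 / ν - W * (1 - g) with hDb
  have ga : 8 * r ^ 2 / μ ^ 2 ≤ 8 / ν - 8 / μ := by
    rw [div_sub_div _ _ νp.ne' μp.ne', div_le_div_iff₀ (by positivity) (by positivity)]
    have : r ^ 2 * μ * ν ≤ r ^ 2 * μ * μ := by gcongr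
    rw [show 8 * μ - ν * 8 = 8 * r ^ 2 by rw [μν]; ring]
    nlinarith
  have gW : 0 ≤ g * W := by positivity
  have Db1 : Dt + 8 * r ^ 2 / μ ^ 2 + g * W ≤ Db := by rw [hDb, hDt]; linarith
  have i3 : 0 ≤ 8 * r ^ 2 / μ ^ 2 := by positivity
  have Db2 : Dt ≤ Db := by linarith
  have Dbp : 0 < Db := by linarith
  refine ⟨l, 2 * 524288 ^ 3 / ν ^ 3 * ((1 + 8 / ν) / Db ^ 2), l0, l1, fun x hx => ?_⟩
  have lW : l * W ≤ D / 1024 * 2 := by gcongr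
  obtain ⟨x1, x2⟩ := abs_le.1 hx
  have lW2 : l * W ≤ 1 / 2 * W := by gcongr; linarith
  refine ⟨by nlinarith, by nlinarith, ?_⟩
  have Dx : Db / 2 ≤ Db - x := by linarith
  have e1 : (W * (1 - g) + x) / (1 + 8 / ν - (W * (1 - g) + x)) =
      W * (1 - g) / Db + (1 + 8 / ν) / Db ^ 2 * x + (1 + 8 / ν) * x ^ 2 / (Db ^ 2 * (Db - x)) := by
    have a : 1 + 8 / ν - (W * (1 - g) + x) = Db - x := by rw [hDb]; ring
    have b : 1 + 8 / ν = Db + W * (1 - g) := by rw [hDb]; ring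
    have c : Db - x ≠ 0 := by linarith
    rw [a, b]; field_simp; ring
  set hh := 8 * (r / 1024) ^ 2 * (D / Dt) with hhh
  have hh0 : 0 ≤ hh := by positivity
  have e2 : (1 + 8 / ν) * x ^ 2 / (Db ^ 2 * (Db - x)) ≤ W / Db * hh := by
    have a : x ^ 2 ≤ (l * W) ^ 2 := by rw [← sq_abs]; gcongr
    have b : D / Db ≤ D / Dt := by gcongr
    have c : D / Db ≤ 1 := by rw [div_le_one Dbp]; linarith
    have d : D / Db * (D / Db) ≤ 1 * (D / Dt) := by gcongr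
    calc _ ≤ 2 * (l * W) ^ 2 / (Db ^ 2 * (Db / 2)) := by gcongr; linarith
      _ = W / Db * (4 * W * (r / 1024) ^ 2 * (D / Db * (D / Db))) := by rw [hl]; field_simp; ring
      _ ≤ W / Db * (4 * 2 * (r / 1024) ^ 2 * (1 * (D / Dt))) := by gcongr
      _ = _ := by rw [hhh]; ring
  set ζ := 8 * r ^ 2 / μ with hζ
  have ζ0 : 0 ≤ ζ := by positivity
  have ζ1 : ζ ≤ 1 := by rw [hζ, div_le_one μp]; linarith
  have e3 : 1 / ν ^ 3 ≤ 1 / μ ^ 3 * (1 + ζ) := by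
    have a : 1 / μ ^ 3 * (1 + ζ) = (μ + 8 * r ^ 2) / μ ^ 4 := by rw [hζ]; field_simp
    rw [a, div_le_div_iff₀ (by positivity) (by positivity), μν]
    set s := r ^ 2
    have b1 : s ^ 2 * ν ^ 2 ≤ s * ν ^ 3 / 8 := by
      have : s * ν ^ 2 * (8 * s) ≤ s * ν ^ 2 * ν := by gcongr; linarith
      nlinarith
    have b2 : s ^ 3 * ν ≤ s ^ 2 * ν ^ 2 := by
      have : s ^ 2 * ν * s ≤ s ^ 2 * ν * ν := by gcongr; linarith
      nlinarith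
    have b3 : s ^ 4 ≤ s ^ 3 * ν := by
      have : s ^ 3 * s ≤ s ^ 3 * ν := by gcongr; linarith
      nlinarith
    have b4 : 0 ≤ s * ν ^ 3 := by positivity
    nlinarith
  have e4 : (1 + ζ) * (1 - g + hh) * Dt ≤ Db := by
    have a1 : (1 + ζ) * (1 - g + hh) ≤ 1 - g + 2 * hh + ζ := by
      have : ζ * hh ≤ 1 * hh := by gcongr
      have : 0 ≤ ζ * g := by positivity
      nlinarith
    have a2 : hh * Dt = 8 * (r / 1024) ^ 2 * D := by rw [hhh]; field_simp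
    have a3 : ζ * Dt = 8 / μ * (r ^ 2 * D) + 8 * r ^ 2 / μ ^ 2 := by rw [hζ, DDt]; field_simp
    have a4 : 8 / μ ≤ 1 / 65536 := by rw [div_le_div_iff₀ μp (by norm_num)]; linarith
    have a5 : 8 / μ * (r ^ 2 * D) ≤ 1 / 65536 * (r ^ 2 * D) := by gcongr
    have a6 : g = r ^ 2 * D / 32768 := by rw [hg, hl]; ring
    have a7 : g * 1 ≤ g * (Dt + W) := by
      gcongr
      have : 0 ≤ 8 / μ := by positivity
      rw [hDt]; linarith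
    have a8 := mul_le_mul_of_nonneg_right a1 Dtp.le
    have a9 : (1 - g + 2 * hh + ζ) * Dt = Dt - g * Dt + 2 * (hh * Dt) + ζ * Dt := by ring
    have a10 : 8 * (r / 1024) ^ 2 * D = r ^ 2 * D / 131072 := by ring
    linarith
  have e5 : (1 + ζ) * (W * (1 - g) / Db + W / Db * hh) ≤ W / Dt := by
    rw [show (1 + ζ) * (W * (1 - g) / Db + W / Db * hh) = W * ((1 + ζ) * (1 - g + hh)) / Db by ring,
      div_le_div_iff₀ Dbp Dtp, mul_assoc]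
    gcongr
  have e6 : 0 ≤ W * (1 - g) / Db + W / Db * hh := by
    have : 0 ≤ 1 - g := by linarith
    positivity
  rw [e1]
  calc _ ≤ 2 * 524288 ^ 3 * (1 / ν ^ 3) * (W * (1 - g) / Db + W / Db * hh) +
        2 * 524288 ^ 3 / ν ^ 3 * ((1 + 8 / ν) / Db ^ 2) * x := by
        have := mul_le_mul_of_nonneg_left e2 (by positivity : 0 ≤ 2 * 524288 ^ 3 / ν ^ 3)
        rw [mul_one_div]; linarith
    _ ≤ 2 * 524288 ^ 3 * (1 / μ ^ 3 * (1 + ζ)) * (W * (1 - g) / Db + W / Db * hh) +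
        2 * 524288 ^ 3 / ν ^ 3 * ((1 + 8 / ν) / Db ^ 2) * x := by gcongr
    _ = 2 * 524288 ^ 3 / μ ^ 3 * ((1 + ζ) * (W * (1 - g) / Db + W / Db * hh)) +
        2 * 524288 ^ 3 / ν ^ 3 * ((1 + 8 / ν) / Db ^ 2) * x := by ring
    _ ≤ _ := by gcongr

end Pool.Agent.H94.HD
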