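import Mathlib
import Pool.Agent.H94.HD2

/-! One variable lemmas on the circle. -/

set_option autoImplicit false

namespace Pool.Agent.H94.HD

open MeasureTheory Complex Finset
open scoped ComplexConjugate

noncomputable abbrev mT : Measure UnitAddCircle := AddCircle.haarAddCircle

noncomputable def ez (x : UnitAddCircle) : ℂ := fourier 1 x

lemma ez_cont : Continuous ez := (fourier 1).continuous

lemma ez_norm (x : UnitAddCircle) : ‖ez x‖ = 1 := by simp [ez]

lemma ez_pow (x : UnitAddCircle) (n : ℕ) : ez x ^ n = fourier (n : ℤ) x := by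
  induction n with
  | zero => simp
  | succ n ih => rw [pow_succ, ih, Nat.cast_succ, fourier_add]; rfl

lemma cint {E : Type*} [NormedAddCommGroup E] {f : UnitAddCircle → E} (h : Continuous f) :
    Integrable f mT := h.integrable_of_hasCompactSupport (HasCompactSupport.of_compactSpace f)

lemma int_pow (a b : ℕ) : ∫ x, ez x ^ a * conj (ez x) ^ b ∂mT = if a = b then 1 else 0 := by
  have := congrFun (fourierCoeff_fourier (T := 1) (a : ℤ)) (b : ℤ)
  rw [fourierCoeff, Pi.single_apply] at this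
  simp only [Nat.cast_inj, eq_comm (a := b)] at this
  rw [← this]
  refine integral_congr_ae (.of_forall fun x => ?_)
  simp only [← map_pow, ez_pow, fourier_neg, smul_eq_mul, mul_comm]

lemma int_re (γ : ℂ) : ∫ x, (γ * ez x).re ∂mT = 0 := by
  have h := int_pow 1 0
  simp only [pow_one, pow_zero, mul_one, one_ne_zero, if_false] at h
  have := integral_re (cint (ez_cont.const_mul γ))
  simp only [RCLike.re_to_complex] at this
  rw [this, integral_const_mul, h]; simp

lemma int_circ (h : ℂ → ℝ) : ∫ x, h (ez x) ∂mT = Real.circleAverage h 0 1 := by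
  rw [AddCircle.integral_haarAddCircle, ← UnitAddCircle.intervalIntegral_preimage 0,
    Real.circleAverage_def]
  have := intervalIntegral.smul_integral_comp_mul_left (a := 0) (b := 1)
    (fun θ => h (circleMap 0 1 θ)) (2 * Real.pi)
  rw [mul_zero, mul_one] at this
  rw [← this, inv_smul_smul₀ (by positivity), inv_one, one_smul, zero_add]
  refine intervalIntegral.integral_congr fun t _ => ?_
  simp only [ez, fourier_coe_apply, circleMap]
  congr 1
  simp only [ofReal_one, one_mul, zero_add]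
  congr 1
  push_cast; ring

lemma sub_sqrt {F : ℂ → ℂ} (hF : Differentiable ℂ F) : √‖F 0‖ ≤ ∫ x, √‖F (ez x)‖ ∂mT := by
  rcases eq_or_ne (F 0) 0 with h | h
  · rw [h, norm_zero, Real.sqrt_zero]; exact integral_nonneg fun x => Real.sqrt_nonneg _
  have s0 : 0 < ‖F 0‖ := norm_pos_iff.2 h
  set c : ℝ := Real.exp 2 / ‖F 0‖ with hc
  have c0 : 0 < c := by positivity
  have hG : Differentiable ℂ fun z => (c : ℂ) * F z := hF.const_mul _
  have hA : AnalyticOnNhd ℂ (fun z => (c : ℂ) * F z) (Metric.closedBall 0 |1|) :=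
    fun z _ => hG.analyticAt z
  have n1 : ∀ z, ‖(c : ℂ) * F z‖ = c * ‖F z‖ := fun z => by
    rw [norm_mul, norm_real, Real.norm_of_nonneg c0.le]
  have J := hA.circleAverage_log_norm one_ne_zero (mul_ne_zero (by exact_mod_cast c0.ne') h)
  have J2 : 2 ≤ Real.circleAverage (fun z => Real.log ‖(c : ℂ) * F z‖) 0 1 := by
    rw [J, n1, hc, div_mul_cancel₀ _ s0.ne', Real.log_exp, le_add_iff_nonneg_left]
    refine finsum_nonneg fun u => ?_
    by_cases hu : u ∈ Metric.closedBall (0 : ℂ) |1|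
    · refine mul_nonneg (by exact_mod_cast MeromorphicOn.AnalyticOnNhd.divisor_nonneg hA u) ?_
      rcases eq_or_ne u 0 with rfl | u0
      · simp
      · refine Real.log_nonneg ?_
        rw [one_mul, zero_sub, norm_neg, one_le_inv₀ (norm_pos_iff.2 u0)]
        simpa using hu
    · rw [Function.locallyFinsuppWithin.apply_eq_zero_of_notMem _ hu]; simp
  have I1 : CircleIntegrable (fun z => Real.log ‖(c : ℂ) * F z‖) 0 1 :=
    MeromorphicOn.circleIntegrable_log_norm fun z _ => (hG.analyticAt z).meromorphicAt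
  have I2 : CircleIntegrable (fun z => (2 / Real.exp 1 * √c) * √‖F z‖) 0 1 :=
    ContinuousOn.circleIntegrable zero_le_one
      ((continuous_const.mul hF.continuous.norm.sqrt).continuousOn)
  have e1 := Real.exp_pos 1
  have J3 := Real.circleAverage_mono I1 I2 fun z _ => by
    rw [n1, mul_assoc, ← Real.sqrt_mul c0.le]
    set t := c * ‖F z‖
    rcases (show 0 ≤ t by positivity).eq_or_lt with ht | ht
    · rw [← ht]; simp
    · have a := Real.log_le_sub_one_of_pos (div_pos (Real.sqrt_pos.2 ht) e1)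
      rw [Real.log_div (Real.sqrt_pos.2 ht).ne' e1.ne', Real.log_exp, Real.log_sqrt ht.le] at a
      rw [div_mul_eq_mul_div, mul_div_assoc]; linarith
  rw [← int_circ (fun z => (2 / Real.exp 1 * √c) * √‖F z‖), integral_const_mul] at J3
  have e2 : √c = Real.exp 1 / √‖F 0‖ := by
    rw [hc, Real.sqrt_div (Real.exp_pos 2).le, show (2 : ℝ) = 1 + 1 by norm_num, Real.exp_add,
      Real.sqrt_mul_self e1.le]
  have s1 := Real.sqrt_pos.2 s0
  have J4 := J2.trans J3
  rw [e2, show 2 / Real.exp 1 * (Real.exp 1 / √‖F 0‖) = 2 / √‖F 0‖ by field_simp,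
    div_mul_eq_mul_div, le_div_iff₀ s1] at J4
  linarith

/-- Reference weights. -/
noncomputable def wt (r : ℝ) (d : ℕ) : ℝ := if d = 0 then 1 else if d = 1 then 2 * r ^ 2 else r ^ (d + 1)

lemma wt_nonneg {r : ℝ} (hr : 0 ≤ r) (d : ℕ) : 0 ≤ wt r d := by
  unfold wt; split_ifs <;> positivity

lemma geo {r : ℝ} (hr0 : 0 ≤ r) (hr : r ≤ 3 / 4) (D : ℕ) : ∑ d : Fin D, r ^ (d : ℕ) ≤ 4 := by
  rw [Fin.sum_univ_eq_sum_range (fun d => r ^ d)]
  have := mul_neg_geom_sum r D
  have a : 0 ≤ r ^ D := by positivity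
  have b : 0 ≤ ∑ d ∈ range D, r ^ d := by positivity
  nlinarith

lemma phase (g : ℂ) : ∃ s : ℂ, ‖s‖ = 1 ∧ s * g = ‖g‖ := by
  rcases eq_or_ne g 0 with rfl | h
  · exact ⟨1, by simp, by simp⟩
  · have : (‖g‖ : ℂ) ≠ 0 := by exact_mod_cast norm_ne_zero_iff.2 h
    refine ⟨conj g / ‖g‖, by simp [h], ?_⟩
    rw [div_mul_eq_mul_div, conj_mul', div_eq_iff this]; ring

lemma scal {D : ℕ} {r l : ℝ} (hr0 : 0 < r) (hr : r ≤ 3 / 4) (hl0 : 0 ≤ l) (hl : l ≤ r / 50)
    (u : Fin (D + 2) → ℝ) (hu : ∀ d, 0 ≤ u d) (g : Fin (D + 2) → ℂ) :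
    ∃ K : UnitAddCircle → ℝ, Continuous K ∧ (∀ x, 0 ≤ K x) ∧ ∃ γ : ℂ,
      ‖γ‖ ≤ 4 * l * ∑ d : Fin (D + 2), wt r d * u d ^ 4 ∧
      (∀ x, K x ^ 4 ≤ Bf r * ((1 - l * r / 8) * ∑ d : Fin (D + 2), wt r d * u d ^ 4 + (γ * ez x).re)) ∧
      ∑ d : Fin (D + 2), u d * r ^ (d : ℕ) * ‖g d‖ ≤
        ∫ x, K x * ‖∑ d : Fin (D + 2), g d * ez x ^ (d : ℕ)‖ ∂mT := by
  choose σ σ1 σ2 using fun d => phase (g d)
  set T := ∑ d : Fin D, u d.succ.succ * r ^ ((d : ℕ) + 2) with hT
  set Z := ∑ d : Fin D, r ^ ((d : ℕ) + 3) * u d.succ.succ ^ 4 with hZ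
  have hS : ∑ d : Fin (D + 2), wt r d * u d ^ 4 = u 0 ^ 4 + 2 * r ^ 2 * u 1 ^ 4 + Z := by
    rw [Fin.sum_univ_succ, Fin.sum_univ_succ]
    simp [wt, hZ, add_assoc]
  have T0 : 0 ≤ T := sum_nonneg fun d _ => by have := hu d.succ.succ; positivity
  have Z0 : 0 ≤ Z := sum_nonneg fun d _ => by positivity
  have hTZ : T ^ 4 ≤ 64 * r ^ 5 * Z := by
    set A := ∑ d : Fin D, r ^ ((d : ℕ) + 2) with hA
    have A1 : A ≤ 4 * r ^ 2 := by
      simp only [hA, pow_add, ← sum_mul]; gcongr; exact geo hr0.le hr D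
    have A0 : 0 ≤ A := by positivity
    have c1 : T ^ 2 ≤ A * ∑ d : Fin D, r ^ ((d : ℕ) + 2) * u d.succ.succ ^ 2 :=
      sum_sq_le_sum_mul_sum_of_sq_eq_mul _ (fun d _ => by positivity) (fun d _ => by positivity)
        fun d _ => by ring
    have c2 : (∑ d : Fin D, r ^ ((d : ℕ) + 2) * u d.succ.succ ^ 2) ^ 2 ≤
        A * ∑ d : Fin D, r ^ ((d : ℕ) + 2) * u d.succ.succ ^ 4 :=
      sum_sq_le_sum_mul_sum_of_sq_eq_mul _ (fun d _ => by positivity) (fun d _ => by positivity)
        fun d _ => by ring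
    have c3 : Z = r * ∑ d : Fin D, r ^ ((d : ℕ) + 2) * u d.succ.succ ^ 4 := by
      rw [hZ, mul_sum]; exact sum_congr rfl fun d _ => by ring
    set Y := ∑ d : Fin D, r ^ ((d : ℕ) + 2) * u d.succ.succ ^ 4
    have Y0 : 0 ≤ Y := by positivity
    calc T ^ 4 = (T ^ 2) ^ 2 := by ring
      _ ≤ (A * ∑ d : Fin D, r ^ ((d : ℕ) + 2) * u d.succ.succ ^ 2) ^ 2 := by gcongr
      _ ≤ A ^ 2 * (A * Y) := by rw [mul_pow]; gcongr
      _ ≤ (4 * r ^ 2) ^ 2 * (4 * r ^ 2 * Y) := by gcongr
      _ = _ := by rw [c3]; ring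
  obtain ⟨l', δ, γ, hγ, hK⟩ := alg hr0 hr hl0 hl (hu 0) (hu 1) T0 Z0 hTZ
  set ω : Fin (D + 2) → ℂ := fun d => σ d * conj (σ 0) with hω
  have ω1 : ∀ d, ‖ω d‖ = 1 := fun d => by simp [hω, σ1]
  set c : Fin (D + 2) → ℂ := fun d => (u d * r ^ (d : ℕ) : ℝ) * ω d with hc
  set Kc : UnitAddCircle → ℂ := fun x => u 0 + (l' * u 0 : ℝ) * (conj (ω 1) * ez x) +
    δ * (conj (ω 1) * ez x) ^ 2 + ∑ d : Fin (D + 1),
      (c d.succ * conj (ez x) ^ ((d : ℕ) + 1) - conj (c d.succ) * ez x ^ ((d : ℕ) + 1)) with hKc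
  have ezc := ez_cont
  have Kcc : Continuous Kc := by rw [hKc]; fun_prop
  refine ⟨fun x => ‖Kc x‖, Kcc.norm, fun x => norm_nonneg _, γ * conj (ω 1), ?_, fun x => ?_, ?_⟩
  · rw [hS, norm_mul, RCLike.norm_conj, ω1, mul_one, norm_real]; exact hγ
  · set ζ := conj (ω 1) * ez x with hζ
    have ζ1 : ζ.re ^ 2 + ζ.im ^ 2 = 1 := by
      have : ‖ζ‖ = 1 := by rw [hζ, norm_mul, RCLike.norm_conj, ω1, ez_norm, mul_one]
      have h := Complex.sq_norm ζ
      rw [this, normSq_apply] at h; linarith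
    set w : Fin D → ℂ := fun d => c d.succ.succ * conj (ez x) ^ ((d : ℕ) + 2) with hw
    have hI : |∑ d, 2 * (w d).im| ≤ 2 * T := by
      rw [hT, mul_sum]
      refine (abs_sum_le_sum_abs _ _).trans (sum_le_sum fun d _ => ?_)
      rw [abs_mul, abs_two]
      gcongr
      refine (abs_im_le_norm _).trans (le_of_eq ?_)
      have := hu d.succ.succ
      simp only [hw, hc, norm_mul, norm_pow, RCLike.norm_conj, ez_norm, ω1, norm_real, one_pow, mul_one,
        Fin.val_succ]
      rw [Real.norm_of_nonneg this, Real.norm_of_nonneg hr0.le]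
    have e1 : Kc x = u 0 + (l' * u 0 : ℝ) * ζ + δ * ζ ^ 2 + ((r * u 1 : ℝ) * (conj ζ - ζ) +
        ∑ d, (w d - conj (w d))) := by
      simp only [hKc, hζ, hw, hc, Fin.sum_univ_succ]
      congr 2
      · simp; ring
      · refine sum_congr rfl fun d _ => ?_
        simp [add_assoc]
    have := hK ζ.re ζ.im _ ζ1 hI
    rw [hS, show γ * conj (ω 1) * ez x = γ * ζ by rw [hζ]; ring, re_ofReal_mul]
    refine le_trans (le_of_eq ?_) this
    rw [show ‖Kc x‖ ^ 4 = (‖Kc x‖ ^ 2) ^ 2 by ring, Complex.sq_norm, normSq_apply, e1]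
    simp only [sub_conj, add_re, add_im, re_sum, im_sum, mul_re, mul_im, ofReal_re, ofReal_im, sub_re,
      sub_im, conj_re, conj_im, I_re, I_im, sq]
    simp only [mul_zero, mul_one, sub_zero, add_zero, sum_const_zero, zero_mul, sub_self, zero_add]
    ring
  · set G : UnitAddCircle → ℂ := fun x => ∑ d : Fin (D + 2), g d * ez x ^ (d : ℕ) with hG
    have Gc : Continuous G := by rw [hG]; fun_prop
    have i1 : ∀ e : Fin (D + 2), ∫ x, G x * conj (ez x) ^ (e : ℕ) ∂mT = g e := fun e => by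
      simp only [hG, sum_mul, mul_assoc]
      rw [integral_finsetSum _ fun d _ => cint (by fun_prop)]
      simp only [integral_const_mul, int_pow, Fin.val_inj]
      simp
    have i2 : ∀ e : ℕ, ∫ x, G x * ez x ^ (e + 1) ∂mT = 0 := fun e => by
      simp only [hG, sum_mul, mul_assoc, ← pow_add]
      rw [integral_finsetSum _ fun d _ => cint (by fun_prop)]
      refine sum_eq_zero fun d _ => ?_
      have := int_pow (d + (e + 1)) 0
      simp only [pow_zero, mul_one] at this
      rw [integral_const_mul, this, if_neg (by omega), mul_zero]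
    have i3 : ∫ x, G x * Kc x ∂mT = u 0 * g 0 + ∑ d : Fin (D + 1), c d.succ * g d.succ := by
      have e : ∀ x, G x * Kc x = u 0 * (G x * conj (ez x) ^ ((0 : Fin (D + 2)) : ℕ)) +
          (l' * u 0 : ℝ) * conj (ω 1) * (G x * ez x ^ (0 + 1)) +
          δ * conj (ω 1) ^ 2 * (G x * ez x ^ (1 + 1)) + ∑ d : Fin (D + 1),
            (c d.succ * (G x * conj (ez x) ^ (d.succ : ℕ)) -
              conj (c d.succ) * (G x * ez x ^ ((d : ℕ) + 1))) := fun x => by
        simp only [hKc, mul_add, mul_sum, Fin.val_succ, Fin.val_zero]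
        congr 1
        · ring
        · exact sum_congr rfl fun d _ => by ring
      simp only [e]
      rw [integral_add (cint (by fun_prop)) (cint (by fun_prop)),
        integral_add (cint (by fun_prop)) (cint (by fun_prop)),
        integral_add (cint (by fun_prop)) (cint (by fun_prop)),
        integral_finsetSum _ fun d _ => cint (by fun_prop)]
      simp only [integral_const_mul, i1, i2, mul_zero, add_zero]
      congr 1
      refine sum_congr rfl fun d _ => ?_
      rw [integral_sub (cint (by fun_prop)) (cint (by fun_prop))]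
      simp only [integral_const_mul, i1, i2, mul_zero, sub_zero]
    have i4 : σ 0 * ∫ x, G x * Kc x ∂mT = (∑ d : Fin (D + 2), u d * r ^ (d : ℕ) * ‖g d‖ : ℝ) := by
      have s0 : σ 0 * conj (σ 0) = 1 := by rw [mul_conj', σ1]; simp
      rw [i3, Fin.sum_univ_succ (n := D + 1), mul_add, mul_sum]
      push_cast
      congr 1
      · rw [← σ2]; simp; ring
      · refine sum_congr rfl fun d _ => ?_
        rw [← σ2]; simp only [hc, hω]; push_cast
        linear_combination (u d.succ * r ^ (d.succ : ℕ) * σ d.succ * g d.succ) * s0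
    have i5 := congrArg norm i4
    rw [norm_mul, σ1, one_mul, norm_real] at i5
    refine (le_abs_self _).trans (i5.symm.le.trans ((norm_integral_le_integral_norm _).trans (le_of_eq ?_)))
    simp only [norm_mul, mul_comm, hG]

end Pool.Agent.H94.HD
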