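import Mathlib
import Pool.Agent.H94.HD3

/-! The step for one target on the finite torus. -/

set_option autoImplicit false

namespace Pool.Agent.H94.HD

open MeasureTheory Complex Finset
open scoped ComplexConjugate

variable {D : ℕ}

abbrev Ix (D n : ℕ) := Fin n → Fin (D + 2)

def pad (n : ℕ) {e : ℕ} (k : Ix D e) : Ix D n := fun i => if h : (i : ℕ) < e then k ⟨i, h⟩ else 0

lemma pad_cons (n : ℕ) {e : ℕ} (d : Fin (D + 2)) (k : Ix D e) :
    pad (n + 1) (Fin.cons d k : Ix D (e + 1)) = Fin.cons d (pad n k) := by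
  funext i
  refine Fin.cases ?_ (fun j => ?_) i
  · simp [pad]
  · simp only [pad, Fin.val_succ, Nat.add_lt_add_iff_right, Fin.cons_succ]
    split_ifs with h
    · rfl
    · rfl

lemma sum_cons {M : Type*} [AddCommMonoid M] {n : ℕ} (F : Ix D (n + 1) → M) :
    ∑ k, F k = ∑ k : Ix D n, ∑ d, F (Fin.cons d k) := by
  rw [sum_comm, ← Fintype.sum_prod_type', ← (Fin.consEquiv fun _ => Fin (D + 2)).sum_comp]
  rfl

noncomputable def sl {n : ℕ} (a : Ix D (n + 1) → ℂ) (z : ℂ) : Ix D n → ℂ :=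
  fun k => ∑ d, a (Fin.cons d k) * z ^ (d : ℕ)

noncomputable def Pol {n : ℕ} (a : Ix D n → ℂ) (x : Fin n → UnitAddCircle) : ℂ :=
  ∑ k, a k * ∏ i, ez (x i) ^ (k i : ℕ)

noncomputable def Nrm {n : ℕ} (a : Ix D n → ℂ) : ℝ := ∫ x, ‖Pol a x‖ ∂(Measure.pi fun _ => mT)

lemma Pol_cont {n : ℕ} (a : Ix D n → ℂ) : Continuous (Pol a) := by
  have := ez_cont
  unfold Pol; fun_prop

lemma Pol_cons {n : ℕ} (a : Ix D (n + 1) → ℂ) (x : UnitAddCircle) (y : Fin n → UnitAddCircle) :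
    Pol a (Fin.cons x y) = Pol (sl a (ez x)) y := by
  simp only [Pol, sl, sum_cons, Fin.prod_univ_succ, Fin.cons_zero, Fin.cons_succ, sum_mul, mul_assoc]

lemma Nrm_succ {n : ℕ} (a : Ix D (n + 1) → ℂ) :
    Integrable (fun x => Nrm (sl a (ez x))) mT ∧ Nrm a = ∫ x, Nrm (sl a (ez x)) ∂mT := by
  have mp := (measurePreserving_piFinSuccAbove (fun _ : Fin (n + 1) => mT) 0).symm
  have h1 : Integrable (fun x => ‖Pol a x‖) (Measure.pi fun _ => mT) :=
    (Pol_cont a).norm.integrable_of_hasCompactSupport (HasCompactSupport.of_compactSpace _)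
  have h2 := (mp.integrable_comp_emb (MeasurableEquiv.measurableEmbedding _)).2 h1
  have e : ∀ p : UnitAddCircle × (Fin n → UnitAddCircle),
      ‖Pol a ((MeasurableEquiv.piFinSuccAbove (fun _ : Fin (n + 1) => UnitAddCircle) 0).symm p)‖ =
      ‖Pol (sl a (ez p.1)) p.2‖ := fun p => by
    rw [← Pol_cons]; simp [MeasurableEquiv.piFinSuccAbove_symm_apply, Fin.insertNthEquiv]
  have h3 : Integrable (fun p : UnitAddCircle × (Fin n → UnitAddCircle) => ‖Pol (sl a (ez p.1)) p.2‖)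
      (mT.prod (Measure.pi fun _ => mT)) := by
    simpa only [Function.comp_def, e] using h2
  refine ⟨h3.integral_prod_left, ?_⟩
  rw [Nrm, ← mp.integral_comp' (fun x => ‖Pol a x‖)]
  simp only [e]
  exact integral_prod _ h3

lemma Nrm_zero (a : Ix D 0 → ℂ) : Nrm a = ‖a 0‖ := by
  obtain ⟨c, rfl⟩ : ∃ c, a = fun _ => c := ⟨a 0, funext fun k => by rw [Subsingleton.elim k 0]⟩
  simp [Nrm, Pol]

noncomputable def bb (r : ℝ) : ℝ := Real.exp (r ^ 2 / 2 + 100000000000000 * r ^ 3)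

lemma bb_pos (r : ℝ) : 0 < bb r := Real.exp_pos _

lemma Bf_le {r : ℝ} (hr : 0 ≤ r) : Bf r ≤ bb r ^ 4 := by
  rw [bb, ← Real.exp_nat_mul]
  have := Real.add_one_le_exp ((4 : ℕ) * (r ^ 2 / 2 + 100000000000000 * r ^ 3))
  have a : 0 ≤ r ^ 3 := by positivity
  unfold Bf; push_cast at this ⊢; linarith

noncomputable def Lf (n : ℕ) (r : ℕ → ℝ) {e : ℕ} (u : Ix D e → ℝ) (a : Ix D n → ℂ) : ℝ :=
  ∑ k, u k * (∏ i : Fin e, r i ^ (k i : ℕ) / bb (r i)) * ‖a (pad n k)‖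

noncomputable def Sf (r : ℕ → ℝ) {e : ℕ} (u : Ix D e → ℝ) : ℝ :=
  ∑ k, (∏ i : Fin e, wt (r i) (k i)) * u k ^ 4

noncomputable def tm (r : ℕ → ℝ) (e : ℕ) : ℝ := ∑ i ∈ range e, r i ^ 2

lemma tm_nonneg (r : ℕ → ℝ) (e : ℕ) : 0 ≤ tm r e := sum_nonneg fun _ _ => sq_nonneg _

lemma step {n e : ℕ} {r : ℕ → ℝ} (hr : ∀ i, 0 < r i ∧ r i ≤ 3 / 4) (a : Ix D (n + 1) → ℂ)
    (u : Ix D (e + 1) → ℝ) (hu : ∀ k, 0 ≤ u k) {W : ℝ} (h0 : 0 ≤ W) (h1 : W ≤ bar (tm r (e + 1)))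
    (h2 : Sf r u ≤ W ^ 4) :
    ∃ (u' : UnitAddCircle → Ix D e → ℝ) (W' : UnitAddCircle → ℝ) (Γ : ℂ),
      (∀ x k, 0 ≤ u' x k) ∧ (∀ x, 0 ≤ W' x ∧ W' x ≤ bar (tm (fun i => r (i + 1)) e) ∧
        Sf (fun i => r (i + 1)) (u' x) ≤ W' x ^ 4) ∧
      (∀ x, phi (tm (fun i => r (i + 1)) e) (W' x) ≤ phi (tm r (e + 1)) W + (Γ * ez x).re) ∧
      Continuous (fun x => Lf n (fun i => r (i + 1)) (u' x) (sl a (ez x))) ∧
      Lf (n + 1) r u a ≤ ∫ x, Lf n (fun i => r (i + 1)) (u' x) (sl a (ez x)) ∂mT := by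
  have ht : tm r (e + 1) = tm (fun i => r (i + 1)) e + r 0 ^ 2 := sum_range_succ' _ _
  rw [ht] at h1 ⊢
  obtain ⟨r0, r1⟩ := hr 0
  obtain ⟨l, β, l0, l1, hp⟩ := pot (tm_nonneg _ e) r0 (by linarith) h0 h1
  choose K Kc K0 γ hγ hK hI using fun k : Ix D e =>
    scal r0 r1 l0 l1 (fun d => u (Fin.cons d k)) (fun d => hu _) fun d => a (Fin.cons d (pad n k))
  set w : Ix D e → ℝ := fun k => ∏ i : Fin e, wt (r (i + 1)) (k i) with hw
  have w0 : ∀ k, 0 ≤ w k := fun k => prod_nonneg fun i _ => wt_nonneg (hr _).1.le _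
  have hS : Sf r u = ∑ k, w k * ∑ d : Fin (D + 2), wt (r 0) d * u (Fin.cons d k) ^ 4 := by
    simp only [Sf, sum_cons, Fin.prod_univ_succ, Fin.cons_zero, Fin.cons_succ, mul_sum, hw]
    exact sum_congr rfl fun k _ => sum_congr rfl fun d _ => by simp; ring
  set G : ℂ := ∑ k, w k * γ k with hG
  have G1 : ‖G‖ ≤ 4 * l * W ^ 4 := by
    refine (norm_sum_le _ _).trans (le_trans ?_ (mul_le_mul_of_nonneg_left h2 (by positivity)))
    rw [hS, mul_sum]
    refine sum_le_sum fun k _ => ?_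
    rw [norm_mul, norm_real, Real.norm_of_nonneg (w0 k), mul_left_comm]
    exact mul_le_mul_of_nonneg_left (hγ k) (w0 k)
  have G2 : ∀ x, |(G * ez x).re| ≤ 4 * l * W ^ 4 := fun x =>
    (abs_re_le_norm _).trans (by rw [norm_mul, ez_norm, mul_one]; exact G1)
  have G3 : ∀ x, |(G * ez x).re / (4 * W ^ 3)| ≤ l * W := fun x => by
    rcases h0.eq_or_lt with h | h
    · simp [← h]
    · rw [abs_div, abs_of_pos (by positivity : 0 < 4 * W ^ 3), div_le_iff₀ (by positivity)]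
      exact (G2 x).trans (le_of_eq (by ring))
  have b0 := bb_pos (r 0)
  have ezc := ez_cont
  refine ⟨fun x k => K k x / bb (r 0), fun x => W * (1 - l * r 0 / 32) + (G * ez x).re / (4 * W ^ 3),
    (β / (4 * W ^ 3) : ℝ) * G, fun x k => div_nonneg (K0 k x) b0.le,
    fun x => ⟨(hp _ (G3 x)).1, (hp _ (G3 x)).2.1, ?_⟩, fun x => ?_, ?_, ?_⟩
  · beta_reduce
    have a1 : Sf (fun i => r (i + 1)) (fun k => K k x / bb (r 0)) ≤
        (1 - l * r 0 / 8) * Sf r u + (G * ez x).re := by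
      rw [hS, hG, sum_mul, re_sum, mul_sum, ← sum_add_distrib]
      refine sum_le_sum fun k _ => ?_
      rw [mul_assoc (w k : ℂ), re_ofReal_mul, mul_left_comm, ← mul_add]
      refine mul_le_mul_of_nonneg_left ?_ (w0 k)
      have c1 := hK k x
      have c2 : 0 < Bf (r 0) := by unfold Bf; positivity
      have c3 := le_of_mul_le_mul_left ((mul_zero _).le.trans ((pow_nonneg (K0 k x) 4).trans c1)) c2
      rw [div_pow, div_le_iff₀ (by positivity), mul_comm]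
      exact c1.trans (mul_le_mul_of_nonneg_right (Bf_le r0.le) c3)
    have a2 : (1 - l * r 0 / 8) * Sf r u ≤ (1 - l * r 0 / 8) * W ^ 4 :=
      mul_le_mul_of_nonneg_left h2 (by nlinarith)
    have a3 : 4 * W ^ 3 * ((G * ez x).re / (4 * W ^ 3)) = (G * ez x).re := by
      rcases h0.eq_or_lt with h | h
      · have := G2 x
        rw [← h] at this ⊢
        simp only [ne_eq, OfNat.ofNat_ne_zero, not_false_eq_true, zero_pow, mul_zero,
          abs_nonpos_iff] at this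
        simp [this]
      · field_simp
    set y := (G * ez x).re / (4 * W ^ 3)
    set t := W * (1 - l * r 0 / 32) + y with htt
    have a4 : W ^ 4 + 4 * W ^ 3 * (t - W) ≤ t ^ 4 := by
      nlinarith [mul_nonneg (sq_nonneg (t - W)) (add_nonneg (sq_nonneg (t + W)) (by positivity : 0 ≤ 2 * W ^ 2))]
    have a5 : 4 * W ^ 3 * (t - W) = 4 * W ^ 3 * y - l * r 0 / 8 * W ^ 4 := by rw [htt]; ring
    linarith
  · refine (hp _ (G3 x)).2.2.trans (le_of_eq ?_)
    rw [mul_assoc, re_ofReal_mul]; ring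
  · unfold Lf sl; fun_prop
  · unfold Lf
    rw [integral_finsetSum _ fun k _ => cint (by unfold sl; fun_prop), sum_cons]
    refine sum_le_sum fun k _ => ?_
    set ρ := ∏ i : Fin e, r (i + 1) ^ (k i : ℕ) / bb (r (i + 1)) with hρ
    have ρ0 : 0 ≤ ρ := prod_nonneg fun i _ => div_nonneg (pow_nonneg (hr _).1.le _) (bb_pos _).le
    have := mul_le_mul_of_nonneg_left (hI k) (div_nonneg ρ0 b0.le)
    rw [← integral_const_mul, mul_sum] at this
    refine le_trans (le_of_eq (sum_congr rfl fun d _ => ?_)) (this.trans (le_of_eq ?_))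
    · simp only [pad_cons, Fin.prod_univ_succ, Fin.cons_zero, Fin.cons_succ, hρ]
      simp; ring
    · exact integral_congr_ae (.of_forall fun x => by simp only [sl]; ring)

end Pool.Agent.H94.HD
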