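import Mathlib
import Pool.Agent.H94.HD4

/-! The main induction: a Hardy type inequality on the finite torus. -/

set_option autoImplicit false

namespace Pool.Agent.H94.HD

open MeasureTheory Complex Finset
open scoped ComplexConjugate

variable {D : ℕ}

noncomputable def pw (n : ℕ) (r : ℕ → ℝ) (e : ℕ) : ℝ := if e < n then r e ^ 2 else 1

lemma pw_nonneg (n : ℕ) (r : ℕ → ℝ) (e : ℕ) : 0 ≤ pw n r e := by
  unfold pw; split_ifs <;> positivity

lemma pw_succ (n : ℕ) (r : ℕ → ℝ) (e : ℕ) : pw (n + 1) r (e + 1) = pw n (fun i => r (i + 1)) e := by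
  simp [pw]

lemma tel {r : ℕ → ℝ} (hr : ∀ i, 0 < r i ∧ r i ≤ 3 / 4) (n : ℕ) :
    ∑ e ∈ range n, r e ^ 2 / (tm r e + 524288) ^ 2 ≤ 2 / 524288 - 2 / (tm r n + 524288) := by
  induction n with
  | zero => simp [tm]
  | succ n ih =>
    have ht : tm r (n + 1) = tm r n + r n ^ 2 := sum_range_succ _ _
    have t0 := tm_nonneg r n
    obtain ⟨r0, r1⟩ := hr n
    have r2 : r n ^ 2 ≤ 1 := by nlinarith
    rw [sum_range_succ, ht]
    set μ := tm r n + 524288 with hμ
    have μ1 : 1 ≤ μ := by linarith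
    have : r n ^ 2 / μ ^ 2 ≤ 2 / μ - 2 / (μ + r n ^ 2) := by
      rw [div_sub_div _ _ (by positivity) (by positivity), div_le_div_iff₀ (by positivity) (by positivity)]
      have a : r n ^ 2 * μ * r n ^ 2 ≤ r n ^ 2 * μ * μ := by gcongr; linarith
      nlinarith
    rw [show tm r n + r n ^ 2 + 524288 = μ + r n ^ 2 by rw [hμ]; ring]
    linarith

lemma sum_phi {r : ℕ → ℝ} (hr : ∀ i, 0 < r i ∧ r i ≤ 3 / 4) (n : ℕ) {W : ℕ → ℝ}
    (h : ∀ e, 0 ≤ W e ∧ W e ≤ bar (tm r e)) :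
    ∑ e ∈ range (n + 1), pw n r e * phi (tm r e) (W e) ≤ 12 * 524288 ^ 2 := by
  have h1 : ∀ e, pw n r e * phi (tm r e) (W e) ≤ 4 * 524288 ^ 3 * (pw n r e / (tm r e + 524288) ^ 2) :=
    fun e => (mul_le_mul_of_nonneg_left (phi_le (tm_nonneg r e) (h e).1 (h e).2).2
      (pw_nonneg n r e)).trans (le_of_eq (by ring))
  refine (sum_le_sum fun e _ => h1 e).trans ?_
  rw [← mul_sum, sum_range_succ, sum_congr rfl fun e he => by rw [pw, if_pos (mem_range.1 he)],
    pw, if_neg (lt_irrefl n)]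
  have a := tel hr n
  have t0 := tm_nonneg r n
  have b : 0 ≤ 2 / (tm r n + 524288) := by positivity
  have c : 1 / (tm r n + 524288) ^ 2 ≤ 1 / 524288 := by
    gcongr; nlinarith
  linarith

lemma Lf_zero {n : ℕ} {r : ℕ → ℝ} (a : Ix D n → ℂ) (u : Ix D 0 → ℝ) {W σ : ℝ}
    (h0 : 0 ≤ W) (h1 : W ≤ bar (tm r 0)) (h2 : Sf r u ≤ W ^ 4) (hσ : √‖a 0‖ ≤ σ) :
    Lf n r u a ≤ σ ^ 2 * phi (tm r 0) W := by
  obtain ⟨c, rfl⟩ : ∃ c, u = fun _ => c := ⟨u 0, funext fun k => by rw [Subsingleton.elim k 0]⟩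
  have e : ∀ k : Ix D 0, pad n k = 0 := fun k => funext fun i => by simp [pad]
  have t : tm r 0 = 0 := by simp [tm]
  rw [t] at h1 ⊢
  simp only [Sf, univ_unique, univ_eq_empty, prod_empty, one_mul, sum_singleton] at h2
  simp only [Lf, univ_unique, univ_eq_empty, prod_empty, mul_one, sum_singleton, e]
  have a1 : c ≤ W := le_of_pow_le_pow_left₀ (by norm_num) h0 h2
  have a2 : ‖a 0‖ ≤ σ ^ 2 := by
    rw [← Real.sq_sqrt (norm_nonneg (a 0))]; gcongr
  rw [mul_comm]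
  exact (mul_le_mul_of_nonneg_left (a1.trans (phi_zero h0 h1)) (norm_nonneg _)).trans
    (mul_le_mul_of_nonneg_right a2 (h0.trans (phi_zero h0 h1)))

theorem core (n : ℕ) : ∀ (r : ℕ → ℝ), (∀ i, 0 < r i ∧ r i ≤ 3 / 4) → ∀ (a : Ix D n → ℂ)
    (u : (e : ℕ) → Ix D e → ℝ) (W : ℕ → ℝ) (σ : ℝ), (∀ e k, 0 ≤ u e k) →
    (∀ e, 0 ≤ W e ∧ W e ≤ bar (tm r e) ∧ Sf r (u e) ≤ W e ^ 4) → √‖a 0‖ ≤ σ →
    ∑ e ∈ range (n + 1), pw n r e * Lf n r (u e) a ≤
      σ ^ 2 * ∑ e ∈ range (n + 1), pw n r e * phi (tm r e) (W e) +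
      12 * 524288 ^ 2 * (4 * Nrm a + σ ^ 2 - 4 * σ * √‖a 0‖) := by
  induction n with
  | zero =>
    intro r hr a u W σ hu hW hσ
    have h := Lf_zero a (u 0) (hW 0).1 (hW 0).2.1 (hW 0).2.2 hσ
    have h2 : 0 ≤ 4 * Nrm a + σ ^ 2 - 4 * σ * √‖a 0‖ := by
      rw [Nrm_zero]
      nth_rw 1 [← Real.sq_sqrt (norm_nonneg (a 0))]
      nlinarith [sq_nonneg (σ - 2 * √‖a 0‖)]
    simp only [zero_add, range_one, sum_singleton, pw, lt_irrefl, if_false, one_mul]
    linarith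
  | succ n ih =>
    intro r hr a u W σ hu hW hσ
    have h := Lf_zero a (u 0) (hW 0).1 (hW 0).2.1 (hW 0).2.2 hσ
    choose u' W' Γ u0 hW' hφ hc hL using fun e =>
      step hr a (u (e + 1)) (hu _) (hW (e + 1)).1 (hW (e + 1)).2.1 (hW (e + 1)).2.2
    set r' : ℕ → ℝ := fun i => r (i + 1) with hr'
    have hr2 : ∀ i, 0 < r' i ∧ r' i ≤ 3 / 4 := fun i => hr _
    have σ0 : 0 ≤ σ := (Real.sqrt_nonneg _).trans hσ
    set X : UnitAddCircle → ℝ := fun x => √‖sl a (ez x) 0‖ with hX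
    have ezc := ez_cont
    have Xc : Continuous X := by rw [hX]; unfold sl; fun_prop
    have X1 : √‖a 0‖ ≤ ∫ x, X x ∂mT := by
      have := sub_sqrt (F := fun z => sl a z 0) (by unfold sl; fun_prop)
      refine le_trans (le_of_eq ?_) this
      have e : (Fin.cons 0 0 : Ix D (n + 1)) = 0 := funext fun i => Fin.cases rfl (fun _ => rfl) i
      simp only [sl, Fin.sum_univ_succ (n := D + 1)]
      simp [e]
    set Θ : ℝ := 12 * 524288 ^ 2 with hΘ
    have Θ0 : 0 ≤ Θ := by positivity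
    set Φ := ∑ e ∈ range (n + 1), pw n r' e * phi (tm r (e + 1)) (W (e + 1)) with hΦ
    set G : ℂ := ∑ e ∈ range (n + 1), (σ ^ 2 * pw n r' e : ℝ) * Γ e with hG
    have pt : ∀ x, ∑ e ∈ range (n + 1), pw n r' e * Lf n r' (u' e x) (sl a (ez x)) ≤
        σ ^ 2 * Φ + Θ * σ ^ 2 + (G * ez x).re + 4 * Θ * Nrm (sl a (ez x)) - 4 * Θ * σ * X x := by
      intro x
      have a1 := ih r' hr2 (sl a (ez x)) (fun e => u' e x) (fun e => W' e x) (max σ (X x))
        (fun e k => u0 e x k) (fun e => hW' e x) (le_max_right _ _)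
      have a2 := sum_phi hr2 n (W := fun e => W' e x) fun e => ⟨(hW' e x).1, (hW' e x).2.1⟩
      have a3 : σ ^ 2 * ∑ e ∈ range (n + 1), pw n r' e * phi (tm r' e) (W' e x) ≤
          σ ^ 2 * Φ + (G * ez x).re := by
        rw [hΦ, hG, sum_mul, re_sum, mul_sum, mul_sum, ← sum_add_distrib]
        refine sum_le_sum fun e _ => ?_
        rw [mul_assoc _ (Γ e), re_ofReal_mul]
        have := mul_le_mul_of_nonneg_left (hφ e x) (mul_nonneg (sq_nonneg σ) (pw_nonneg n r' e))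
        linarith
      set s := max σ (X x) with hs
      have a4 : σ ^ 2 ≤ s ^ 2 := by gcongr; exact le_max_left _ _
      have a5 := mul_le_mul_of_nonneg_left a2 (sub_nonneg.2 a4)
      have a6 : 2 * s ^ 2 - 4 * s * X x ≤ 2 * σ ^ 2 - 4 * σ * X x := by
        rcases le_total σ (X x) with h | h
        · rw [hs, max_eq_right h]; nlinarith [sq_nonneg (σ - X x)]
        · rw [hs, max_eq_left h]
      have a7 := mul_le_mul_of_nonneg_left a6 Θ0
      change _ ≤ _ + Θ * (_ + _ - 4 * s * X x) at a1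
      linarith
    obtain ⟨N1, N2⟩ := Nrm_succ a
    have i1 : Integrable (fun x => σ ^ 2 * Φ + Θ * σ ^ 2 + (G * ez x).re) mT := cint (by fun_prop)
    have i0 : Integrable (fun x => σ ^ 2 * Φ + Θ * σ ^ 2 + (G * ez x).re + 4 * Θ * Nrm (sl a (ez x))) mT :=
      i1.add (N1.const_mul (4 * Θ))
    have i2 := integral_mono (cint (by fun_prop)) (i0.sub
      (cint (Xc.const_mul (4 * Θ * σ)))) pt
    simp only [Pi.sub_apply] at i2
    rw [integral_sub i0 (cint (Xc.const_mul (4 * Θ * σ))),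
      integral_add i1 (N1.const_mul (4 * Θ)), integral_add (integrable_const _) (cint (by fun_prop)),
      int_re, integral_const_mul, integral_const_mul, ← N2, integral_const,
      integral_finsetSum _ fun e _ => cint ((hc e).const_mul _)] at i2
    simp only [integral_const_mul, probReal_univ, smul_eq_mul, one_mul, add_zero] at i2
    have i3 := sum_le_sum (s := range (n + 1)) fun e _ =>
      mul_le_mul_of_nonneg_left (hL e) (pw_nonneg n r' e)
    rw [sum_range_succ' _ (n + 1), sum_range_succ' _ (n + 1)]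
    simp only [pw_succ]
    have i4 := mul_le_mul_of_nonneg_left h (pw_nonneg (n + 1) r 0)
    have i5 := mul_le_mul_of_nonneg_left X1 (by positivity : 0 ≤ 4 * Θ * σ)
    rw [← hr', ← hΦ]
    linarith

end Pool.Agent.H94.HD
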