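import Mathlib
import Pool.Agent.H94.HD0
import Pool.Agent.H94.HD5

/-! The Hardy inequality for Dirichlet polynomials, Bohr lifted form. -/

set_option autoImplicit false

namespace Pool.Agent.H94.HD

open MeasureTheory Complex Finset
open scoped ComplexConjugate

variable {D : ℕ}

lemma prod_pad {M : Type*} [CommMonoid M] (e : ℕ) : ∀ (n : ℕ) (f : ℕ → M) (k : Ix D e), e ≤ n →
    ∏ i : Fin n, f i ^ (pad n k i : ℕ) = ∏ i : Fin e, f i ^ (k i : ℕ) := by
  induction e with
  | zero => intro n f k _; simp [pad]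
  | succ e ih =>
    intro n f k h
    obtain ⟨n, rfl⟩ : ∃ m, n = m + 1 := ⟨n - 1, by omega⟩
    rw [← Fin.cons_self_tail k, pad_cons, Fin.prod_univ_succ, Fin.prod_univ_succ]
    simp only [Fin.cons_zero, Fin.cons_succ, Fin.val_succ]
    rw [ih n (fun i => f (i + 1)) _ (by omega)]
    rfl

lemma exp_tel (n : ℕ) (r : ℕ → ℝ) (j : ℕ) (hj : j ≤ n) : Real.exp (-tm r j) ≤
    ∑ e ∈ range (n + 1), if j ≤ e then pw n r e * Real.exp (-tm r e) else 0 := by
  have key : ∀ m, j ≤ m → Real.exp (-tm r j) - Real.exp (-tm r m) ≤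
      ∑ e ∈ range m, if j ≤ e then r e ^ 2 * Real.exp (-tm r e) else 0 := by
    intro m hm
    induction m, hm using Nat.le_induction with
    | base => rw [sub_self]; exact sum_nonneg fun e _ => by split_ifs <;> positivity
    | succ m hm ih =>
      have ht : tm r (m + 1) = tm r m + r m ^ 2 := sum_range_succ _ _
      rw [sum_range_succ, if_pos hm, ht, neg_add, Real.exp_add]
      have := mul_le_mul_of_nonneg_left (Real.add_one_le_exp (-r m ^ 2)) (Real.exp_pos (-tm r m)).le
      linarith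
  rw [sum_range_succ, if_pos hj, sum_congr rfl fun e he => by rw [pw, if_pos (mem_range.1 he)],
    pw, if_neg (lt_irrefl n)]
  linarith [key n hj]

theorem hardy {n : ℕ} {r : ℕ → ℝ} (hr : ∀ i, 0 < r i ∧ r i ≤ 3 / 4) {R : ℝ}
    (hR : ∀ e, ∑ i ∈ range e, r i ^ 3 ≤ R) (a : Ix D n → ℂ) (top : Ix D n → ℕ)
    (ht : ∀ k, a k ≠ 0 → top k ≤ n ∧ ∀ i : Fin n, top k ≤ i → k i = 0) :
    ∑ k, (∏ i : Fin n, r i ^ (k i : ℕ)) * ‖a k‖ * Real.exp (-tm r (top k)) ≤
      Real.exp (100000000000001 * R) * (48 * 524288 ^ 2) * Nrm a := by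
  set A : ℕ → ℝ := fun e => ∏ i : Fin e, Real.exp (r i ^ 2 / 2 + r i ^ 3) with hA
  have A0 : ∀ e, 0 < A e := fun e => prod_pos fun _ _ => Real.exp_pos _
  have hb : ∀ e, (0 : ℝ) ≤ 1 ∧ 1 ≤ bar (tm r e) := fun e => ⟨zero_le_one, by
    have := tm_nonneg r e
    unfold bar; rw [le_add_iff_nonneg_right]; positivity⟩
  have c := core n r hr a (fun e _ => (A e)⁻¹) (fun _ => 1) _ (fun e _ => (inv_pos.2 (A0 e)).le)
    (fun e => ⟨(hb e).1, (hb e).2, by
      rw [Sf, ← sum_mul, ← Fintype.piFinset_univ, ← prod_univ_sum (fun _ => univ)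
        (fun (i : Fin e) (d : Fin (D + 2)) => wt (r i) d), inv_pow, ← div_eq_mul_inv, one_pow,
        div_le_one (pow_pos (A0 e) 4), hA, ← prod_pow]
      refine prod_le_prod (fun i _ => sum_nonneg fun d _ => wt_nonneg (hr i).1.le _) fun i _ => ?_
      rw [← Real.exp_nat_mul, Fin.sum_univ_succ, Fin.sum_univ_succ]
      refine le_trans ?_ (Real.add_one_le_exp _)
      have g := mul_le_mul_of_nonneg_right (geo (hr i).1.le (hr i).2 D) (pow_pos (hr i).1 3).le
      rw [sum_mul] at g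
      simp only [← pow_add] at g
      simp [wt, add_assoc]
      linarith⟩) le_rfl
  have s := sum_phi hr n (W := fun _ => 1) hb
  have a0 := norm_nonneg (a 0)
  rw [mul_assoc 4, ← sq, Real.sq_sqrt a0] at c
  have s2 := mul_le_mul_of_nonneg_left s a0
  have c2 : ∑ e ∈ range (n + 1), pw n r e * Lf n r (fun _ : Ix D e => (A e)⁻¹) a ≤
      48 * 524288 ^ 2 * Nrm a := by linarith
  rw [mul_assoc]
  refine le_trans ?_ (mul_le_mul_of_nonneg_left c2 (Real.exp_pos _).le)
  set F : Ix D n → ℝ := fun k => (∏ i : Fin n, r i ^ (k i : ℕ)) * ‖a k‖ with hF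
  have F0 : ∀ k, 0 ≤ F k := fun k =>
    mul_nonneg (prod_nonneg fun i _ => pow_nonneg (hr i).1.le _) (norm_nonneg _)
  calc ∑ k, F k * Real.exp (-tm r (top k)) ≤ ∑ k, ∑ e ∈ range (n + 1),
        pw n r e * Real.exp (-tm r e) * (if a k ≠ 0 ∧ top k ≤ e then F k else 0) := by
        refine sum_le_sum fun k _ => ?_
        by_cases h : a k = 0
        · simp [hF, h]
        · refine (mul_le_mul_of_nonneg_left (exp_tel n r _ (ht k h).1) (F0 k)).trans (le_of_eq ?_)
          rw [mul_sum]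
          exact sum_congr rfl fun e _ => by simp only [ne_eq, h, not_false_eq_true, true_and]; split_ifs <;> ring
    _ ≤ _ := by
      rw [sum_comm, mul_sum]
      refine sum_le_sum fun e he => ?_
      have he' : e ≤ n := by simpa [Nat.lt_succ_iff] using he
      rw [← mul_sum, mul_assoc, mul_left_comm (Real.exp _)]
      refine mul_le_mul_of_nonneg_left ?_ (pw_nonneg n r e)
      have b1 : ∑ k, (if a k ≠ 0 ∧ top k ≤ e then F k else 0) ≤ ∑ k : Ix D e, F (pad n k) := by
        rw [← sum_filter]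
        have inj : Function.Injective (pad n : Ix D e → Ix D n) := fun k k' h => funext fun i => by
          have := congrFun h ⟨i, by omega⟩
          simpa [pad] using this
        rw [← sum_image (f := F) (inj.injOn (s := ((univ : Finset (Ix D e)) : Set _)))]
        refine sum_le_sum_of_subset_of_nonneg (fun k hk => ?_) fun k _ _ => F0 k
        obtain ⟨h1, h2⟩ := (mem_filter.1 hk).2
        refine mem_image.2 ⟨fun i => k ⟨i, by omega⟩, mem_univ _, funext fun i => ?_⟩
        simp only [pad]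
        split_ifs with h
        · rfl
        · exact ((ht k h1).2 i (by omega)).symm
      have b2 : Real.exp (-tm r e) ≤ Real.exp (100000000000001 * R) *
          ((A e)⁻¹ * (∏ i : Fin e, bb (r i))⁻¹) := by
        simp only [hA, bb, ← Real.exp_sum, ← Real.exp_neg, ← Real.exp_add, Real.exp_le_exp]
        rw [Fin.sum_univ_eq_sum_range (fun i => r i ^ 2 / 2 + r i ^ 3),
          Fin.sum_univ_eq_sum_range (fun i => r i ^ 2 / 2 + 100000000000000 * r i ^ 3),
          sum_add_distrib, sum_add_distrib, ← sum_div, ← mul_sum, tm]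
        linarith [hR e]
      refine (mul_le_mul b2 b1 (sum_nonneg fun k _ => by split_ifs; exacts [F0 k, le_rfl])
        ((Real.exp_pos _).le.trans b2)).trans (le_of_eq ?_)
      rw [mul_assoc, Lf, mul_sum]
      congr 1
      refine sum_congr rfl fun k _ => ?_
      rw [hF, prod_div_distrib]
      simp only [prod_pad e n r k he']
      ring

/-- The primes. -/
noncomputable abbrev pr (i : ℕ) : ℕ := Nat.nth Nat.Prime i

lemma pr_prime (i : ℕ) : (pr i).Prime := Nat.prime_nth_prime i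

noncomputable def num {n : ℕ} (k : Ix D n) : ℕ := ∏ i : Fin n, pr i ^ (k i : ℕ)

lemma fac_prod {n : ℕ} (k : Fin n → ℕ) (q : ℕ) : (∏ i : Fin n, pr i ^ k i).factorization q =
    ∑ i : Fin n, if pr i = q then k i else 0 := by
  rw [Nat.factorization_prod fun (i : Fin n) _ => pow_ne_zero _ (pr_prime i).ne_zero, Finsupp.finsetSum_apply]
  exact sum_congr rfl fun i _ => by rw [(pr_prime i).factorization_pow, Finsupp.single_apply]

lemma fac_prod' {n : ℕ} (k : Fin n → ℕ) (j : Fin n) :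
    (∏ i : Fin n, pr i ^ k i).factorization (pr j) = k j := by
  rw [fac_prod, sum_eq_single j (fun i _ h => if_neg fun e =>
    h (Fin.ext (Nat.nth_injective Nat.infinite_setOfPred_prime e))) (by simp), if_pos rfl]

lemma prod_fac {n m : ℕ} (h0 : m ≠ 0) (h : m ≤ n) :
    ∏ i : Fin n, pr i ^ m.factorization (pr i) = m := by
  refine Nat.eq_of_factorization_eq (prod_ne_zero_iff.2 fun i _ => pow_ne_zero _ (pr_prime i).ne_zero)
    h0 fun q => ?_
  by_cases hq : ∃ j : Fin n, pr j = q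
  · obtain ⟨j, rfl⟩ := hq
    exact fac_prod' (fun i => m.factorization (pr i)) j
  · rw [fac_prod, sum_eq_zero fun i _ => if_neg fun e => hq ⟨i, e⟩]
    by_cases hp : q.Prime
    · have e := Nat.nth_count hp
      have := Nat.add_two_le_nth_prime (Nat.count Nat.Prime q)
      rw [Nat.factorization_eq_zero_of_lt]
      by_contra hh
      exact hq ⟨⟨Nat.count Nat.Prime q, by omega⟩, e⟩
    · rw [Nat.factorization_eq_zero_of_not_prime _ hp]

lemma sum_num {M : Type*} [AddCommMonoid M] (N : ℕ) (F : ℕ → M) :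
    ∑ k : Ix N (N + 1), (if num k ∈ Icc 1 N then F (num k) else 0) = ∑ m ∈ Icc 1 N, F m := by
  rw [← sum_filter]
  refine sum_bij (fun k _ => num k) (fun k hk => (mem_filter.1 hk).2) (fun k _ k' _ h => ?_)
    (fun m hm => ?_) fun _ _ => rfl
  · refine funext fun j => Fin.ext ?_
    rw [← fac_prod' (fun i => (k i : ℕ)) j, ← fac_prod' (fun i => (k' i : ℕ)) j]
    exact congrArg (fun m : ℕ => m.factorization (pr j)) h
  · obtain ⟨h1, h2⟩ := mem_Icc.1 hm
    have e := prod_fac (n := N + 1) (m := m) (by omega) (by omega)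
    refine ⟨fun i => ⟨m.factorization (pr i), ?_⟩, mem_filter.2 ⟨mem_univ _, ?_⟩, e⟩
    · have := Nat.factorization_lt (pr i) (show m ≠ 0 by omega); omega
    · rw [num]; simp only [e]; exact hm

lemma tm_le (m : ℕ) : tm (fun i => (√(pr i))⁻¹) (Nat.count Nat.Prime (m + 1)) ≤
    ∑ p ∈ m.primesLE, 1 / (p : ℝ) := by
  have e : ∀ i, (√(pr i))⁻¹ ^ 2 = 1 / (pr i : ℝ) := fun i => by
    rw [inv_pow, Real.sq_sqrt (Nat.cast_nonneg _), one_div]
  simp only [tm, e]
  rw [← sum_image (f := fun p : ℕ => 1 / (p : ℝ)) (Nat.nth_injective Nat.infinite_setOfPred_prime).injOn]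
  refine sum_le_sum_of_subset_of_nonneg (fun q hq => ?_) fun _ _ _ => by positivity
  obtain ⟨i, hi, rfl⟩ := mem_image.1 hq
  exact Nat.mem_primesLE.2 ⟨Nat.lt_succ_iff.1 (Nat.nth_lt_of_lt_count (mem_range.1 hi)), pr_prime i⟩

lemma cube_le (e : ℕ) : ∑ i ∈ range e, (√(pr i))⁻¹ ^ 3 ≤ 2 := by
  have key : ∑ i ∈ range e, (√(pr i))⁻¹ ^ 3 ≤ 2 - 2 / √(e + 1) := by
    induction e with
    | zero => simp
    | succ e ih =>
      rw [sum_range_succ]
      have h1 : (e + 2 : ℝ) ≤ pr e := by exact_mod_cast Nat.add_two_le_nth_prime e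
      have e0 : (0 : ℝ) ≤ e := Nat.cast_nonneg e
      set a := √(e + 1 : ℝ) with ha
      set b := √(e + 2 : ℝ) with hb
      have a0 : 0 < a := Real.sqrt_pos.2 (by linarith)
      have ab : a ≤ b := Real.sqrt_le_sqrt (by linarith)
      have b0 : 0 < b := by linarith
      have a2 : a ^ 2 = e + 1 := Real.sq_sqrt (by linarith)
      have b2 : b ^ 2 = e + 2 := Real.sq_sqrt (by linarith)
      have h2 : (√(pr e))⁻¹ ^ 3 ≤ b⁻¹ ^ 3 := by gcongr; exact Real.sqrt_le_sqrt h1
      have h3 : b⁻¹ ^ 3 ≤ 2 / a - 2 / b := by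
        rw [inv_pow, ← one_div, div_sub_div _ _ a0.ne' b0.ne', div_le_div_iff₀ (by positivity) (by positivity)]
        have c1 : (b - a) * (a + b) = 1 := by nlinarith
        have c2 : (b - a) * (a + b) ≤ (b - a) * (2 * b) := by gcongr; linarith
        have c3 : a * b * 1 ≤ b * b * ((b - a) * (2 * b)) := by gcongr; linarith
        nlinarith
      rw [show ((e + 1 : ℕ) : ℝ) + 1 = e + 2 by push_cast; ring, ← hb]
      linarith
  have : 0 ≤ 2 / √(e + 1 : ℝ) := by positivity
  linarith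

theorem bohr : ∃ C : ℝ, 0 < C ∧ ∀ N : ℕ, 1 ≤ N → ∀ c : ℕ → ℂ,
    ‖c 1‖ + ∑ m ∈ Icc 2 N, ‖c m‖ / (√m * Real.log m) ≤
      C * ∫ x : Fin (N + 1) → UnitAddCircle, ‖∑ m ∈ Icc 1 N, c m *
        ∏ i, ez (x i) ^ m.factorization (pr i)‖ ∂(Measure.pi fun _ => mT) := by
  refine ⟨Real.exp 5 * (Real.exp (100000000000001 * 2) * (48 * 524288 ^ 2)), by positivity,
    fun N hN c => ?_⟩
  set r : ℕ → ℝ := fun i => (√(pr i))⁻¹ with hr
  have r1 : ∀ i, 0 < r i ∧ r i ≤ 3 / 4 := fun i => by
    have h : (2 : ℝ) ≤ pr i := by exact_mod_cast (pr_prime i).two_le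
    have h2 : 4 / 3 ≤ √(pr i : ℝ) := Real.le_sqrt_of_sq_le (by linarith)
    exact ⟨inv_pos.2 (by linarith), by rw [hr, inv_le_comm₀ (by linarith) (by norm_num)]; linarith⟩
  set a : Ix N (N + 1) → ℂ := fun k => if num k ∈ Icc 1 N then c (num k) else 0 with ha
  have H := hardy r1 cube_le a (fun k => Nat.count Nat.Prime (num k + 1)) fun k hk => by
    have h : num k ∈ Icc 1 N := by by_contra h; exact hk (if_neg h)
    have := Nat.count_le (p := Nat.Prime) (n := num k + 1)
    refine ⟨by have := (mem_Icc.1 h).2; omega, fun i hi => Fin.ext ?_⟩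
    rw [← fac_prod' (fun i => (k i : ℕ)) i]
    exact Nat.factorization_eq_zero_of_lt ((Nat.count_le_iff_le_nth Nat.infinite_setOfPred_prime).1 hi)
  have e1 : ∀ x, Pol a x = ∑ m ∈ Icc 1 N, c m * ∏ i, ez (x i) ^ m.factorization (pr i) := fun x => by
    rw [← sum_num, Pol]
    refine sum_congr rfl fun k _ => ?_
    simp only [ha]
    split_ifs
    · simp only [num, fac_prod']
    · rw [zero_mul]
  have e2 : ∑ k, (∏ i : Fin (N + 1), r i ^ (k i : ℕ)) * ‖a k‖ *
      Real.exp (-tm r (Nat.count Nat.Prime (num k + 1))) =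
      ∑ m ∈ Icc 1 N, (√m)⁻¹ * ‖c m‖ * Real.exp (-tm r (Nat.count Nat.Prime (m + 1))) := by
    rw [← sum_num]
    refine sum_congr rfl fun k _ => ?_
    simp only [ha]
    split_ifs
    · congr 2
      rw [num, Nat.cast_prod, Real.sqrt_prod _ fun _ _ => Nat.cast_nonneg _, ← prod_inv_distrib]
      refine prod_congr rfl fun i _ => ?_
      rw [hr, Nat.cast_pow, inv_pow, Real.sqrt_eq_rpow, Real.sqrt_eq_rpow,
        Real.rpow_pow_comm (Nat.cast_nonneg _)]
    · simp
  simp only [Nrm, e1, e2] at H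
  rw [mul_assoc]
  refine le_trans ?_ (mul_le_mul_of_nonneg_left H (Real.exp_pos 5).le)
  rw [← insert_Icc_add_one_left_eq_Icc hN, sum_insert (by simp), mul_add, mul_sum]
  refine add_le_add ?_ (sum_le_sum fun m hm => ?_)
  · have : Nat.count Nat.Prime (1 + 1) = 0 := by decide
    simp only [this, tm, range_zero, sum_empty, neg_zero, Real.exp_zero, Nat.cast_one, Real.sqrt_one,
      inv_one, one_mul, mul_one]
    exact le_mul_of_one_le_left (norm_nonneg _) (Real.one_le_exp (by norm_num))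
  · have h2 : 2 ≤ m := (mem_Icc.1 hm).1
    have l0 : 0 < Real.log m := Real.log_pos (by exact_mod_cast h2)
    have t := (tm_le m).trans (mert m h2)
    have t2 : (Real.log m)⁻¹ ≤ Real.exp 5 * Real.exp (-tm r (Nat.count Nat.Prime (m + 1))) := by
      rw [← Real.exp_add, ← Real.exp_log (inv_pos.2 l0), Real.exp_le_exp, Real.log_inv]
      linarith
    have := mul_le_mul_of_nonneg_left t2 (by positivity : 0 ≤ (√m)⁻¹ * ‖c m‖)
    rw [div_eq_mul_inv, mul_inv]
    linarith

end Pool.Agent.H94.HD
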