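import Mathlib
import Pool.Agent.H94.HD6

/-! Kronecker-Weyl equidistribution for linear flows on finite tori. -/

set_option autoImplicit false

namespace Pool.Agent.H94.HD

open MeasureTheory Complex Finset Filter Topology UnitAddTorus
open scoped ComplexConjugate

lemma int_fourier (n : ℤ) : ∫ x, fourier n x ∂mT = if n = 0 then 1 else 0 := by
  have := congrFun (fourierCoeff_fourier (T := 1) n) 0
  rw [fourierCoeff, Pi.single_apply] at this
  simpa [eq_comm] using this

theorem weyl {n : ℕ} (α : Fin n → ℝ) (hα : ∀ m : Fin n → ℤ, m ≠ 0 → ∑ i, m i * α i ≠ 0)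
    (F : C(Fin n → UnitAddCircle, ℂ)) :
    Tendsto (fun T : ℝ => ((1 / T : ℝ) : ℂ) * ∫ t in (-T / 2)..(T / 2), F fun i => (t * α i : ℝ)) atTop
      (𝓝 (∫ x, F x ∂(Measure.pi fun _ => mT))) := by
  set μ : Measure (Fin n → UnitAddCircle) := Measure.pi fun _ => mT with hμ
  have fc : Continuous fun (t : ℝ) (i : Fin n) => ((t * α i : ℝ) : UnitAddCircle) := by fun_prop
  have ii : ∀ (G : C(Fin n → UnitAddCircle, ℂ)) (a b : ℝ),
      IntervalIntegrable (fun t : ℝ => G fun i => (t * α i : ℝ)) volume a b :=
    fun G a b => (G.continuous.comp fc).intervalIntegrable a b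
  have gi : ∀ G : C(Fin n → UnitAddCircle, ℂ), Integrable G μ := fun G =>
    G.continuous.integrable_of_hasCompactSupport (HasCompactSupport.of_compactSpace _)
  set Av : C(Fin n → UnitAddCircle, ℂ) → ℝ → ℂ := fun G T =>
    ((1 / T : ℝ) : ℂ) * ∫ t in (-T / 2)..(T / 2), G fun i => (t * α i : ℝ) with hAv
  have hs : ∀ G ∈ Submodule.span ℂ (Set.range (mFourier (d := Fin n))),
      Tendsto (Av G) atTop (𝓝 (∫ x, G x ∂μ)) := by
    intro G hG
    induction hG using Submodule.span_induction with
    | mem G h =>
      obtain ⟨m, rfl⟩ := h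
      have e1 : ∫ x, mFourier m x ∂μ = ∏ i, if m i = 0 then 1 else 0 := by
        simp only [mFourier, ContinuousMap.coe_mk, hμ]
        rw [integral_fintype_prod_eq_prod (fun i x => fourier (m i) x)]
        simp only [int_fourier]
      have e2 : ∀ t : ℝ, mFourier m (fun i => ((t * α i : ℝ) : UnitAddCircle)) =
          cexp ((2 * Real.pi * (∑ i, m i * α i : ℝ) * I) * t) := fun t => by
        simp only [mFourier, ContinuousMap.coe_mk, fourier_coe_apply, ← Complex.exp_sum]
        congr 1
        push_cast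
        simp only [mul_sum, sum_mul]
        exact sum_congr rfl fun i _ => by ring
      rcases eq_or_ne m 0 with rfl | h
      · rw [e1]
        refine tendsto_const_nhds.congr' ?_
        filter_upwards [eventually_gt_atTop 0] with T hT
        have : (T : ℂ) ≠ 0 := by exact_mod_cast hT.ne'
        simp [hAv, mFourier_zero]
        field_simp; ring
      · obtain ⟨j, hj⟩ := Function.ne_iff.1 h
        rw [e1, prod_eq_zero (mem_univ j) (if_neg hj)]
        set s : ℝ := ∑ i, m i * α i
        have hc : (2 * Real.pi * s * I : ℂ) ≠ 0 := by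
          have : s ≠ 0 := hα m h
          simp [Real.pi_ne_zero, this]
        refine squeeze_zero_norm' (a := fun T : ℝ => T⁻¹ * (2 / ‖(2 * Real.pi * s * I : ℂ)‖)) ?_ ?_
        · filter_upwards [eventually_gt_atTop 0] with T hT
          simp only [hAv, e2]
          rw [integral_exp_mul_complex hc, norm_mul, norm_div, norm_real, one_div,
            Real.norm_of_nonneg (inv_pos.2 hT).le]
          gcongr
          have n1 : ∀ y : ℝ, ‖cexp (2 * Real.pi * s * I * y)‖ = 1 := fun y => by
            rw [show (2 * Real.pi * s * I * y : ℂ) = (2 * Real.pi * s * y : ℝ) * I by push_cast; ring]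
            exact norm_exp_ofReal_mul_I _
          refine (norm_sub_le _ _).trans ?_
          rw [n1, n1]; norm_num
        · simpa using tendsto_inv_atTop_zero.mul_const (2 / ‖(2 * Real.pi * s * I : ℂ)‖)
    | zero => simp [hAv]
    | add G H _ _ h1 h2 =>
      simp only [ContinuousMap.add_apply]
      rw [integral_add (gi G) (gi H)]
      refine (h1.add h2).congr fun T => ?_
      simp only [hAv, ContinuousMap.add_apply]
      rw [intervalIntegral.integral_add (ii G _ _) (ii H _ _), mul_add]
    | smul c G _ h1 =>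
      simp only [ContinuousMap.smul_apply, smul_eq_mul]
      rw [integral_const_mul]
      refine (h1.const_mul c).congr fun T => ?_
      simp only [hAv, ContinuousMap.smul_apply, smul_eq_mul]
      rw [intervalIntegral.integral_const_mul, mul_left_comm]
  change Tendsto (Av F) _ _
  rw [Metric.tendsto_nhds]
  intro ε hε
  have hF : F ∈ closure (Submodule.span ℂ (Set.range (mFourier (d := Fin n))) :
      Set C(UnitAddTorus (Fin n), ℂ)) := by
    rw [← Submodule.topologicalClosure_coe, span_mFourier_closure_eq_top]; trivial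
  obtain ⟨G, hG, hd⟩ := Metric.mem_closure_iff.1 hF (ε / 3) (by positivity)
  have hd2 : ∀ x, ‖F x - G x‖ ≤ dist F G := fun x => by
    rw [← dist_eq_norm]; exact ContinuousMap.dist_apply_le_dist x
  filter_upwards [Metric.tendsto_nhds.1 (hs G hG) (ε / 3) (by positivity), eventually_gt_atTop 0]
    with T h1 hT
  have h2 : dist (Av F T) (Av G T) ≤ dist F G := by
    simp only [hAv]
    rw [dist_eq_norm, ← mul_sub, ← intervalIntegral.integral_sub (ii F _ _) (ii G _ _), norm_mul,
      norm_real, one_div, Real.norm_of_nonneg (inv_pos.2 hT).le, inv_mul_le_iff₀ hT]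
    refine (intervalIntegral.norm_integral_le_of_norm_le_const fun t _ => hd2 _).trans (le_of_eq ?_)
    rw [show T / 2 - -T / 2 = T by ring, abs_of_pos hT, mul_comm]
  have h3 : dist (∫ x, G x ∂μ) (∫ x, F x ∂μ) ≤ dist F G := by
    rw [dist_comm, dist_eq_norm, ← integral_sub (gi F) (gi G)]
    simpa using norm_integral_le_of_norm_le_const (μ := μ) (.of_forall hd2)
  linarith [dist_triangle4 (Av F T) (Av G T) (∫ x, G x ∂μ) (∫ x, F x ∂μ)]

lemma log_indep {n : ℕ} (m : Fin n → ℤ) (h : m ≠ 0) : ∑ i, m i * -Real.log (pr i) ≠ 0 := by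
  intro e
  apply h
  have p0 : ∀ i : Fin n, (0 : ℝ) < pr i := fun i => by exact_mod_cast (pr_prime i).pos
  have e2 : (∏ i : Fin n, pr i ^ (m i).toNat) = ∏ i : Fin n, pr i ^ (-m i).toNat := by
    have : Real.log (∏ i : Fin n, pr i ^ (m i).toNat : ℕ) =
        Real.log (∏ i : Fin n, pr i ^ (-m i).toNat : ℕ) := by
      push_cast
      rw [Real.log_prod fun i _ => (pow_pos (p0 i) _).ne', Real.log_prod fun i _ => (pow_pos (p0 i) _).ne',
        ← sub_eq_zero, ← sum_sub_distrib, ← neg_eq_zero, ← sum_neg_distrib, ← e]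
      refine sum_congr rfl fun i _ => ?_
      have : ((m i).toNat : ℝ) - ((-m i).toNat : ℝ) = m i := by
        exact_mod_cast Int.toNat_sub_toNat_neg (m i)
      rw [Real.log_pow, Real.log_pow, ← this]; ring
    exact_mod_cast Real.log_injOn_pos (by simpa using prod_pos fun i _ => pow_pos (p0 i) _)
      (by simpa using prod_pos fun i _ => pow_pos (p0 i) _) this
  funext j
  have a := fac_prod' (fun i => (m i).toNat) j
  rw [e2, fac_prod' (fun i => (-m i).toNat) j] at a
  simp only [Pi.zero_apply]
  omega

lemma flow {n k : ℕ} (h0 : k ≠ 0) (h : k ≤ n) (t : ℝ) :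
    ∏ i : Fin n, ez (t * -Real.log (pr i) : ℝ) ^ k.factorization (pr i) =
      ((k : ℂ) ^ (2 * (Real.pi : ℂ) * I * (t : ℂ)))⁻¹ := by
  have p0 : ∀ i : Fin n, (0 : ℝ) < pr i := fun i => by exact_mod_cast (pr_prime i).pos
  have e : Real.log k = ∑ i : Fin n, k.factorization (pr i) * Real.log (pr i) := by
    conv_lhs => rw [← prod_fac h0 h]
    push_cast
    rw [Real.log_prod fun i _ => (pow_pos (p0 i) _).ne']
    simp only [Real.log_pow]
  rw [cpow_def_of_ne_zero (by exact_mod_cast h0), ← natCast_log, e, ← Complex.exp_neg]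
  simp only [ez, fourier_coe_apply, ← Complex.exp_nat_mul, ← Complex.exp_sum]
  congr 1
  push_cast
  rw [sum_mul, ← sum_neg_distrib]
  exact sum_congr rfl fun i _ => by ring

end Pool.Agent.H94.HD
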