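import Mathlib
import Pool.Agent.H94.HD6

/-! Bounded symbols from L1 bounds by Hahn-Banach. -/

set_option autoImplicit false

namespace Pool.Agent.H94.HD

open MeasureTheory Complex Finset
open scoped ComplexConjugate InnerProductSpace

theorem symb {Ω : Type*} [MeasurableSpace Ω] (μ : Measure Ω) [IsProbabilityMeasure μ]
    (χ : ℕ → Ω → ℂ) (hχ : ∀ n, MemLp (χ n) 2 μ) (c : ℕ → ℂ) {C : ℝ} (hC : 0 ≤ C)
    (h : ∀ a : ℕ →₀ ℂ, ‖∑ n ∈ a.support, a n * c n‖ ≤ C * ∫ x, ‖∑ n ∈ a.support, a n * χ n x‖ ∂μ) :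
    ∃ f : Ω → ℂ, MemLp f ⊤ μ ∧ ∀ n, ∫ x, χ n x * f x ∂μ = c n := by
  have gi : ∀ v : Lp ℂ 2 μ, Integrable v μ := fun v => (Lp.memLp v).integrable one_le_two
  let p : Seminorm ℂ (Lp ℂ 2 μ) := Seminorm.of (fun v => C * ∫ x, ‖v x‖ ∂μ)
    (fun v w => by
      rw [← mul_add, ← integral_add (gi v).norm (gi w).norm]
      refine mul_le_mul_of_nonneg_left (integral_mono_ae (gi _).norm ((gi v).norm.add (gi w).norm) ?_) hC
      filter_upwards [Lp.coeFn_add v w] with x hx
      rw [hx]; exact norm_add_le _ _)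
    (fun a v => by
      rw [mul_left_comm, ← integral_const_mul ‖a‖]
      refine congrArg (C * ·) (integral_congr_ae ?_)
      filter_upwards [Lp.coeFn_smul a v] with x hx
      rw [hx, Pi.smul_apply, norm_smul])
  let T := Finsupp.linearCombination ℂ fun n => (hχ n).toLp
  let ℓ := Finsupp.linearCombination ℂ c
  have hT : ∀ a, ‖ℓ a‖ ≤ p (T a) := fun a => by
    refine (h a).trans (le_of_eq ?_)
    change _ = C * ∫ x, ‖(∑ n ∈ a.support, a n • (hχ n).toLp) x‖ ∂μ
    congr 1
    refine integral_congr_ae ?_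
    filter_upwards [Lp.coeFn_finsetSum a.support fun n => a n • (hχ n).toLp,
      ae_all_iff.2 fun n => Lp.coeFn_smul (a n) (hχ n).toLp,
      ae_all_iff.2 fun n => (hχ n).coeFn_toLp] with x h1 h2 h3
    rw [h1, Finset.sum_apply]
    simp only [h2, h3, Pi.smul_apply, smul_eq_mul]
  have hk : LinearMap.ker T ≤ LinearMap.ker ℓ := fun a ha => by
    have := hT a
    rw [LinearMap.mem_ker.1 ha, map_zero] at this
    exact norm_le_zero_iff.1 this
  let f0 : Module.Dual ℂ (LinearMap.range T) :=
    ((LinearMap.ker T).liftQ ℓ hk).comp T.quotKerEquivRange.symm.toLinearMap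
  have hf0 : ∀ a, f0 ⟨T a, LinearMap.mem_range_self T a⟩ = ℓ a := fun a => by
    simp [f0, LinearMap.quotKerEquivRange_symm_apply_image]
  obtain ⟨g, g1, g2⟩ := Module.Dual.exists_extension_of_le_seminorm (LinearMap.range T) f0 (p := p)
    (by rintro ⟨_, a, rfl⟩; rw [hf0]; exact hT a)
  have pb : ∀ v, p v ≤ C * ‖v‖ := fun v => by
    refine mul_le_mul_of_nonneg_left ?_ hC
    rw [integral_norm_eq_lintegral_enorm (Lp.aestronglyMeasurable v), ← eLpNorm_one_eq_lintegral_enorm,
      Lp.norm_def]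
    exact ENNReal.toReal_mono (Lp.eLpNorm_ne_top v)
      (eLpNorm_le_eLpNorm_of_exponent_le one_le_two (Lp.aestronglyMeasurable v))
  set v := (InnerProductSpace.toDual ℂ (Lp ℂ 2 μ)).symm (g.mkContinuous C fun w => (g2 w).trans (pb w))
  have hv : ∀ w : Lp ℂ 2 μ, ∫ x, w x * conj (v x) ∂μ = g w := fun w => by
    have : ⟪v, w⟫_ℂ = g w := InnerProductSpace.toDual_symm_apply
    rw [← this, L2.inner_def]; rfl
  have vm : Measurable v := (Lp.stronglyMeasurable v).measurable
  have vb : ∀ᵐ x ∂μ, ‖v x‖ ≤ C := by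
    set s : Ω → ℂ := fun x => if C < ‖v x‖ then v x / ‖v x‖ else 0 with hs
    have sm : Measurable s := Measurable.ite (measurableSet_lt measurable_const vm.norm)
      (vm.div (measurable_ofReal.comp vm.norm)) measurable_const
    have e : ∀ x, ‖s x‖ ≤ 1 ∧ s x * conj (v x) = (max (‖v x‖ - C) 0 + C * ‖s x‖ : ℝ) := fun x => by
      simp only [hs]
      split_ifs with hx
      · have n0 : ‖v x‖ ≠ 0 := (hC.trans_lt hx).ne'
        have n1 : (‖v x‖ : ℂ) ≠ 0 := by exact_mod_cast n0
        rw [norm_div, norm_real, norm_norm, div_self n0, max_eq_left (by linarith), div_mul_eq_mul_div,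
          mul_conj', div_eq_iff n1]
        exact ⟨le_rfl, by push_cast; ring⟩
      · rw [max_eq_right (by linarith)]; simp
    have sL : MemLp s 2 μ := MemLp.of_bound sm.aestronglyMeasurable 1 (.of_forall fun x => (e x).1)
    have i1 : Integrable (fun x => max (‖v x‖ - C) 0) μ := ((gi v).norm.sub (integrable_const C)).pos_part
    have i2 := (sL.integrable one_le_two).norm
    have a1 := g2 sL.toLp
    rw [← hv, integral_congr_ae (g := fun x => ((max (‖v x‖ - C) 0 + C * ‖s x‖ : ℝ) : ℂ))
      (by filter_upwards [sL.coeFn_toLp] with x hx; rw [hx, (e x).2]), integral_complex_ofReal,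
      integral_add i1 (i2.const_mul C), integral_const_mul, norm_real] at a1
    have a2 : p sL.toLp = C * ∫ x, ‖s x‖ ∂μ := by
      change C * _ = _
      rw [integral_congr_ae (g := fun x => ‖s x‖) (by filter_upwards [sL.coeFn_toLp] with x hx; rw [hx])]
    have a3 := (le_abs_self _).trans (a1.trans a2.le)
    have a4 := (integral_eq_zero_iff_of_nonneg (f := fun x => max (‖v x‖ - C) 0)
      (fun x => le_max_right _ _) i1).1
      (le_antisymm (by linarith) (integral_nonneg fun x => le_max_right _ _))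
    filter_upwards [a4] with x hx
    have := le_max_left (‖v x‖ - C) 0
    simp only [Pi.zero_apply] at hx
    linarith
  refine ⟨fun x => conj (v x), memLp_top_of_bound (continuous_conj.measurable.comp vm).aestronglyMeasurable
    C (by simpa using vb), fun n => ?_⟩
  have a := g1 ⟨T (Finsupp.single n 1), LinearMap.mem_range_self T _⟩
  rw [hf0] at a
  simp only [T, ℓ, Finsupp.linearCombination_single, one_smul] at a
  rw [← a, ← hv]
  refine integral_congr_ae ?_
  filter_upwards [(hχ n).coeFn_toLp] with x hx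
  rw [hx]

lemma mp_fin (n : ℕ) : MeasurePreserving (fun (x : ℕ → UnitAddCircle) (i : Fin n) => x i)
    (Measure.infinitePi fun _ => mT) (Measure.pi fun _ => mT) := by
  refine ⟨by fun_prop, (Measure.pi_eq fun s hs => ?_).symm⟩
  rw [Measure.map_apply (by fun_prop) (MeasurableSet.univ_pi hs)]
  have e : (fun (x : ℕ → UnitAddCircle) (i : Fin n) => x i) ⁻¹' Set.univ.pi s =
      Set.pi (range n : Finset ℕ) fun i => if h : i < n then s ⟨i, h⟩ else Set.univ := by
    ext x
    simp only [Set.mem_preimage, Set.mem_pi, Set.mem_univ, forall_const, coe_range, Set.mem_Iio]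
    exact ⟨fun h i hi => by rw [dif_pos hi]; exact h ⟨i, hi⟩, fun h i => by simpa using h i i.2⟩
  rw [e, Measure.infinitePi_pi _ fun i hi => by rw [dif_pos (mem_range.1 hi)]; exact hs _,
    ← Fin.prod_univ_eq_prod_range (fun i => mT (if h : i < n then s ⟨i, h⟩ else Set.univ))]
  simp

end Pool.Agent.H94.HD
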