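import Mathlib

set_option autoImplicit false
namespace Pool.Agent.H94.HP
open Set Filter Topology MeasureTheory Metric ENNReal

theorem iter (f : ℝ → ℝ) {C M s e r0 : ℝ} (hC : 0 ≤ C) (hM : 0 ≤ M) (hs : 0 ≤ s) (he0 : 0 ≤ e)
    (he : e * 2 ^ s ≤ 1 / 2) (hr0 : 0 < r0) (hfM : ∀ r, f r ≤ M)
    (hf : ∀ r, 0 < r → r ≤ r0 → f (r / 2) ≤ C * r ^ s + e * f r) :
    ∀ᶠ r in 𝓝[>] (0 : ℝ), f r ≤ (2 * C * 2 ^ s + 1) * r ^ s := by
  set A := 2 * C * 2 ^ s with hA
  set B := M * (2 / r0) ^ s with hB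
  have hB0 : 0 ≤ B := by positivity
  have hA0 : 0 ≤ A := by positivity
  have key : ∀ k : ℕ, ∀ r, r0 / 2 ^ (k + 1) ≤ r → r ≤ r0 / 2 ^ k → f r ≤ (A + B / 2 ^ k) * r ^ s := by
    intro k
    induction k with
    | zero =>
      intro r h1 _
      have hr : 0 < r := lt_of_lt_of_le (by positivity) h1
      have h2 : 1 ≤ (2 / r0) ^ s * r ^ s := by
        rw [← Real.mul_rpow (by positivity) hr.le]
        refine Real.one_le_rpow ?_ hs
        rw [div_mul_eq_mul_div, le_div_iff₀ hr0]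
        rw [div_le_iff₀ (by positivity), zero_add, pow_one] at h1; linarith
      have h3 : 0 ≤ A * r ^ s := by positivity
      have h4 := mul_le_mul_of_nonneg_left h2 hM
      have := hfM r
      simp only [pow_zero, div_one, hB]; nlinarith
    | succ k ih =>
      intro r h1 h2
      have hr : 0 < r := lt_of_lt_of_le (by positivity) h1
      have p1 : r0 / 2 ^ (k + 1 + 1) = r0 / 2 ^ (k + 1) / 2 := by rw [pow_succ]; field_simp
      have p2 : r0 / 2 ^ (k + 1) = r0 / 2 ^ k / 2 := by rw [pow_succ]; field_simp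
      have p3 : r0 / 2 ^ k ≤ r0 := div_le_self hr0.le (one_le_pow₀ (by norm_num))
      have h3 := ih (2 * r) (by linarith) (by linarith)
      have h4 := hf (2 * r) (by linarith) (by linarith)
      rw [show 2 * r / 2 = r by ring] at h4
      rw [Real.mul_rpow (by norm_num) hr.le] at h3 h4
      have h5 := mul_le_mul_of_nonneg_left h3 he0
      have h6 : 0 ≤ (A + B / 2 ^ k) * r ^ s := by positivity
      have h7 := mul_le_mul_of_nonneg_right he h6
      have p4 : B / 2 ^ (k + 1) = B / 2 ^ k / 2 := by rw [pow_succ]; field_simp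
      rw [p4]
      have h8 : C * (2 ^ s * r ^ s) = A / 2 * r ^ s := by rw [hA]; ring
      nlinarith
  filter_upwards [Ioo_mem_nhdsGT (show 0 < r0 / (2 * B + 1) by positivity)] with r hr
  have h0 := hr.1
  have h1 := hr.2
  rw [lt_div_iff₀ (by positivity)] at h1
  have h2 : 1 ≤ r0 / r := by rw [le_div_iff₀ h0]; nlinarith
  obtain ⟨k, k1, k2⟩ := exists_nat_pow_near h2 (by norm_num : (1 : ℝ) < 2)
  rw [le_div_iff₀ h0] at k1
  rw [div_lt_iff₀ h0] at k2
  refine (key k r (by rw [div_le_iff₀ (by positivity)]; linarith)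
    (by rw [le_div_iff₀ (by positivity)]; linarith)).trans
    (mul_le_mul_of_nonneg_right ?_ (by positivity))
  have h3 : B / 2 ^ k ≤ 1 := by
    rw [div_le_one (by positivity)]
    rw [pow_succ] at k2
    by_contra h
    push Not at h
    nlinarith
  linarith

variable {E : Type*} [NormedAddCommGroup E] [NormedSpace ℝ E] [FiniteDimensional ℝ E]
  [MeasurableSpace E] [BorelSpace E]

theorem haus (P : Measure E) [IsFiniteMeasure P] {s D : ℝ} (hs : 0 < s) (hD : 0 < D)
    (h : ∀ᵐ x ∂P, ∀ᶠ r in 𝓝[>] (0 : ℝ), P.real (closedBall x r) ≤ D * r ^ s) (A : Set E)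
    (hA : MeasurableSet A) : P A ≤ ENNReal.ofReal D * μH[s] A := by
  set S : ℕ → Set E := fun k =>
    {x | ∀ r, 0 < r → r ≤ 1 / ((k : ℝ) + 1) → P.real (closedBall x r) ≤ D * r ^ s} with hS
  have hS0 : ∀ k, ∀ x ∈ S k, ∀ r, 0 ≤ r → r ≤ 1 / ((k : ℝ) + 1) →
      P.real (closedBall x r) ≤ D * r ^ s := fun k x hx r h0 h1 => by
    rcases h0.eq_or_lt with rfl | h0
    · have t : Tendsto (fun r : ℝ => D * r ^ s) (𝓝[>] 0) (𝓝 (D * (0 : ℝ) ^ s)) :=
        ((Real.continuousAt_rpow_const 0 s (Or.inr hs.le)).tendsto.const_mul D).mono_left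
          nhdsWithin_le_nhds
      refine ge_of_tendsto t ?_
      filter_upwards [Ioo_mem_nhdsGT (show 0 < 1 / ((k : ℝ) + 1) by positivity)] with r hr
      exact (measureReal_mono (closedBall_subset_closedBall hr.1.le)).trans (hx r hr.1 hr.2.le)
    · exact hx r h0 h1
  have hmono : Monotone fun k => A ∩ S k := fun k l hkl x hx => ⟨hx.1, fun r h0 h1 =>
    hx.2 r h0 (h1.trans (Nat.one_div_le_one_div hkl))⟩
  have hD' : ENNReal.ofReal D ≠ 0 := by simpa using hD
  have hk : ∀ k, P (A ∩ S k) ≤ ENNReal.ofReal D * μH[s] A := fun k => by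
    have h1 : (ENNReal.ofReal D)⁻¹ • P.restrict (S k) ≤ μH[s] := by
      refine Measure.le_hausdorffMeasure s _ (ENNReal.ofReal (1 / ((k : ℝ) + 1)))
        (by simp; positivity) fun t ht => ?_
      have hne : ediam t ≠ ⊤ := ne_top_of_le_ne_top ofReal_ne_top ht
      rw [Measure.smul_apply, smul_eq_mul, ENNReal.inv_mul_le_iff hD' ofReal_ne_top]
      refine (measure_mono subset_closure).trans ?_
      rw [Measure.restrict_apply isClosed_closure.measurableSet]
      rcases (closure t ∩ S k).eq_empty_or_nonempty with h0 | ⟨x, hx1, hx2⟩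
      · rw [h0]; simp
      have hb : Bornology.IsBounded t := isBounded_iff_ediam_ne_top.2 hne
      have h2 : closure t ∩ S k ⊆ closedBall x (diam t) := fun y hy => by
        rw [mem_closedBall, ← diam_closure]
        exact dist_le_diam_of_mem hb.closure hy.1 hx1
      have h3 := hS0 k x hx2 (diam t) diam_nonneg (toReal_le_of_le_ofReal (by positivity) ht)
      refine (measure_mono h2).trans ?_
      rw [← ofReal_measureReal (measure_ne_top _ _), ← ofReal_toReal hne,
        ENNReal.ofReal_rpow_of_nonneg toReal_nonneg hs.le, ← ENNReal.ofReal_mul hD.le]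
      exact ofReal_le_ofReal h3
    have h2 := h1 A
    rwa [Measure.smul_apply, smul_eq_mul, ENNReal.inv_mul_le_iff hD' ofReal_ne_top,
      Measure.restrict_apply hA] at h2
  have h1 : P A ≤ P (⋃ k, A ∩ S k) := by
    refine measure_mono_ae ?_
    filter_upwards [h] with x hx hxA
    obtain ⟨u, hu, hu2⟩ := mem_nhdsGT_iff_exists_Ioc_subset.1 hx
    obtain ⟨k, hk⟩ := exists_nat_one_div_lt (show (0 : ℝ) < u from hu)
    exact mem_iUnion.2 ⟨k, hxA, fun r h0 h1 => hu2 ⟨h0, h1.trans hk.le⟩⟩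
  rw [hmono.measure_iUnion] at h1
  exact h1.trans (iSup_le hk)

theorem dens (P Q : Measure E) [IsFiniteMeasure P] [IsFiniteMeasure Q] (hPQ : Q ⟂ₘ P) {s C : ℝ}
    (hs : 0 < s) (hC : 0 ≤ C) (h : ∀ᵐ x ∂P, ∀ᶠ r in 𝓝[>] (0 : ℝ),
      P.real (closedBall x (r / 2)) ≤ C * r ^ s + Q.real (closedBall x r)) (A : Set E)
    (hA : MeasurableSet A) : P A ≤ ENNReal.ofReal (2 * C * 2 ^ s + 1) * μH[s] A := by
  refine haus P hs (by positivity) ?_ A hA
  filter_upwards [h, Besicovitch.ae_tendsto_rnDeriv Q P, hPQ.rnDeriv_ae_eq_zero] with x h1 h2 h3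
  rw [h3] at h2
  set e : ℝ := 1 / 2 / 2 ^ s with he
  have he0 : 0 < e := by positivity
  have h4 := h2.eventually (gt_mem_nhds (show (0 : E → ℝ≥0∞) x < ENNReal.ofReal e by simpa using he0))
  obtain ⟨u, hu, hu2⟩ := mem_nhdsGT_iff_exists_Ioc_subset.1 (h1.and h4)
  refine iter (fun r => P.real (closedBall x r)) (M := P.real univ) hC measureReal_nonneg hs.le
    he0.le (by rw [he]; field_simp; rfl) hu (fun r => measureReal_mono (subset_univ _))
    fun r h0 h5 => ?_
  obtain ⟨h6, h7⟩ := hu2 ⟨h0, h5⟩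
  have h8 := toReal_mono (mul_ne_top ofReal_ne_top (measure_ne_top _ _))
    ((ENNReal.div_le_iff_le_mul (Or.inr ofReal_ne_top) (Or.inl (measure_ne_top _ _))).1 h7.le)
  rw [toReal_mul, toReal_ofReal he0.le] at h8
  exact h6.trans (add_le_add_right h8 _)

end Pool.Agent.H94.HP
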