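import Pool.Agent.H94.HP1

set_option autoImplicit false
namespace Pool.Agent.H94.HP
open Set Filter Topology MeasureTheory Metric

abbrev V (N : ℕ) := EuclideanSpace ℝ (Fin N)

variable {N : ℕ}

theorem lcomp {f : V N → ℝ} {G : ℝ → ℝ} {f' G' : ℝ} {x v : V N} (hG : HasDerivAt G G' (f x))
    (hf : HasLineDerivAt ℝ f f' x v) : HasLineDerivAt ℝ (fun y => G (f y)) (G' * f') x v := by
  unfold HasLineDerivAt at *
  exact HasDerivAt.comp (h := fun t : ℝ => f (x + t • v)) 0 (by simpa using hG) hf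

theorem lmul {f h : V N → ℝ} {f' h' : ℝ} {x v : V N} (hf : HasLineDerivAt ℝ f f' x v)
    (hh : HasLineDerivAt ℝ h h' x v) :
    HasLineDerivAt ℝ (fun y => f y * h y) (f' * h x + f x * h') x v := by
  unfold HasLineDerivAt at *
  simpa using hf.fun_mul hh

theorem ibp {f f' ψ : V N → ℝ} {v : V N} (hf : Continuous f) (hf' : Continuous f')
    (hd : ∀ x, HasLineDerivAt ℝ f (f' x) x v) (hψ : ContDiff ℝ 1 ψ) (hc : HasCompactSupport ψ) :
    ∫ x, f x * fderiv ℝ ψ x v = -∫ x, f' x * ψ x := by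
  have c1 : Continuous fun x => fderiv ℝ ψ x v :=
    (hψ.continuous_fderiv one_ne_zero).clm_apply continuous_const
  exact integral_bilinear_hasLineDerivAt_right_eq_neg_left_of_integrable
    (B := ContinuousLinearMap.mul ℝ ℝ) (g' := fun x => fderiv ℝ ψ x v)
    ((hf'.mul hψ.continuous).integrable_of_hasCompactSupport hc.mul_left)
    ((hf.mul c1).integrable_of_hasCompactSupport (hc.fderiv_apply ℝ v).mul_left)
    ((hf.mul hψ.continuous).integrable_of_hasCompactSupport hc.mul_left) (fun x _ => hd x)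
    (fun x _ => (hψ.differentiable one_ne_zero x).hasFDerivAt.hasLineDerivAt v)

noncomputable def ee (i : Fin N) : V N := EuclideanSpace.single i 1

noncomputable def D1 (φ : V N → ℝ) (i : Fin N) (x : V N) : ℝ := fderiv ℝ φ x (ee i)

noncomputable def lap (φ : V N → ℝ) (x : V N) : ℝ := ∑ i, D1 (D1 φ i) i x

theorem D1_smooth {φ : V N → ℝ} (h : ContDiff ℝ 2 φ) (i : Fin N) : ContDiff ℝ 1 (D1 φ i) :=
  (h.fderiv_right (m := 1) (by norm_num)).clm_apply contDiff_const

theorem D1_supp {φ : V N → ℝ} (h : HasCompactSupport φ) (i : Fin N) :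
    HasCompactSupport (D1 φ i) := h.fderiv_apply ℝ _

theorem D1_cont {φ : V N → ℝ} (h : ContDiff ℝ 1 φ) (i : Fin N) : Continuous (D1 φ i) :=
  (h.continuous_fderiv one_ne_zero).clm_apply continuous_const

theorem lap_cont {φ : V N → ℝ} (h : ContDiff ℝ 2 φ) : Continuous (lap φ) :=
  continuous_finsetSum _ fun i _ => D1_cont (D1_smooth h i) i

theorem lap_zero {φ : V N → ℝ} {x : V N} (hx : x ∉ tsupport φ) : lap φ x = 0 := by
  refine Finset.sum_eq_zero fun i _ => ?_
  have : x ∉ tsupport (D1 φ i) := fun h => hx (tsupport_fderiv_apply_subset ℝ _ h)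
  by_contra h0
  exact this (tsupport_fderiv_apply_subset ℝ (ee i) (subset_tsupport _ h0))

theorem lap_supp {φ : V N → ℝ} (h : HasCompactSupport φ) : HasCompactSupport (lap φ) :=
  HasCompactSupport.intro h fun _ hx => lap_zero hx

theorem green2 {f φ : V N → ℝ} {f1 f2 : Fin N → V N → ℝ} (hf : Continuous f)
    (h1 : ∀ i, Continuous (f1 i)) (h2 : ∀ i, Continuous (f2 i))
    (d1 : ∀ i x, HasLineDerivAt ℝ f (f1 i x) x (ee i))
    (d2 : ∀ i x, HasLineDerivAt ℝ (f1 i) (f2 i x) x (ee i)) (hφ : ContDiff ℝ 2 φ)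
    (hc : HasCompactSupport φ) : ∫ x, f x * lap φ x = ∫ x, (∑ i, f2 i x) * φ x := by
  simp only [lap, Finset.mul_sum, Finset.sum_mul]
  rw [integral_finsetSum (f := fun i x => f x * D1 (D1 φ i) i x) _ fun i _ =>
      (hf.mul (D1_cont (D1_smooth hφ i) i)).integrable_of_hasCompactSupport
      (D1_supp (D1_supp hc i) i).mul_left,
    integral_finsetSum (f := fun i x => f2 i x * φ x) _ fun i _ =>
      ((h2 i).mul hφ.continuous).integrable_of_hasCompactSupport hc.mul_left]
  refine Finset.sum_congr rfl fun i _ => ?_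
  have a := ibp hf (h1 i) (d1 i) (D1_smooth hφ i) (D1_supp hc i)
  have b := ibp (h1 i) (h2 i) (d2 i) (hφ.of_le (by norm_num)) hc
  simp only [D1] at a b ⊢
  rw [a, b, neg_neg]

theorem lap_int {φ : V N → ℝ} (hφ : ContDiff ℝ 2 φ) (hc : HasCompactSupport φ) :
    ∫ x, lap φ x = 0 := by
  have := green2 (f := fun _ => 1) (f1 := fun _ _ => 0) (f2 := fun _ _ => 0) continuous_const
    (fun _ => continuous_const) (fun _ => continuous_const)
    (fun i x => (hasFDerivAt_const (1 : ℝ) x).hasLineDerivAt _)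
    (fun i x => (hasFDerivAt_const (0 : ℝ) x).hasLineDerivAt _) hφ hc
  simpa using this

theorem cv (f : V N → ℝ) (z : V N) {r : ℝ} (hr : 0 < r) :
    ∫ x, f (r⁻¹ • (x - z)) = r ^ N * ∫ x, f x := by
  rw [integral_sub_right_eq_self (fun x => f (r⁻¹ • x)) z,
    Measure.integral_comp_inv_smul_of_nonneg volume f hr.le]
  simp

theorem greenEps {g : ℝ → ℝ} {a : ℝ}
    (hg : ∀ t, 0 < t → HasDerivAt g (-a * t ^ (-((N : ℝ) + 2) / 2 + 1)) t) {φ : V N → ℝ}
    (hφ : ContDiff ℝ 2 φ) (hc : HasCompactSupport φ) (z : V N) {ε : ℝ} (hε : 0 < ε) :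
    ∫ x, g (‖x - z‖ ^ 2 + ε ^ 2) * lap φ x =
      -(2 * a * N) * ∫ x : V N, (1 + ‖x‖ ^ 2) ^ (-((N : ℝ) + 2) / 2) * φ (z + ε • x) := by
  set m : ℝ := -((N : ℝ) + 2) / 2 with hm
  set q : V N → ℝ := fun x => ‖x - z‖ ^ 2 + ε ^ 2 with hq
  have q0 : ∀ x, 0 < q x := fun x => by positivity
  have qc : Continuous q := by fun_prop
  have yc : ∀ i, Continuous fun x : V N => (x - z) i := fun i => by fun_prop
  have pc : ∀ p : ℝ, Continuous fun x => q x ^ p := fun p =>
    qc.rpow_const fun x => Or.inl (q0 x).ne'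
  have dq : ∀ i x, HasLineDerivAt ℝ q (2 * (x - z) i) x (ee i) := fun i x => by
    have := ((((hasFDerivAt_id x).sub_const z).norm_sq).add_const (ε ^ 2)).hasLineDerivAt (ee i)
    simpa [ee, EuclideanSpace.inner_single_right] using this
  have dy : ∀ i x, HasLineDerivAt ℝ (fun x : V N => 2 * (x - z) i) 2 x (ee i) := fun i x => by
    unfold HasLineDerivAt
    have : (fun t : ℝ => 2 * (x + t • ee i - z) i) = fun t => 2 * t + 2 * (x - z) i := by
      funext t; simp [ee]; ring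
    rw [this]
    simpa using ((hasDerivAt_id (0 : ℝ)).const_mul 2).add_const (2 * (x - z) i)
  have dp : ∀ t, 0 < t → HasDerivAt (fun t : ℝ => -a * t ^ (m + 1)) (-a * ((m + 1) * t ^ m)) t :=
    fun t ht => by
      have := (Real.hasDerivAt_rpow_const (x := t) (p := m + 1) (Or.inl ht.ne')).const_mul (-a)
      rwa [add_sub_cancel_right] at this
  have h := green2 (f := fun x => g (q x))
    (f1 := fun i x => -a * q x ^ (m + 1) * (2 * (x - z) i))
    (f2 := fun i x => -a * ((m + 1) * q x ^ m) * (2 * (x - z) i) * (2 * (x - z) i) +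
      -a * q x ^ (m + 1) * 2)
    (continuous_iff_continuousAt.2 fun x =>
      ContinuousAt.comp (g := g) (hg _ (q0 x)).continuousAt qc.continuousAt)
    (fun i => by have := pc (m + 1); have := yc i; fun_prop)
    (fun i => by have := pc (m + 1); have := pc m; have := yc i; fun_prop)
    (fun i x => lcomp (hg _ (q0 x)) (dq i x))
    (fun i x => lmul (lcomp (G := fun t => -a * t ^ (m + 1)) (dp _ (q0 x)) (dq i x)) (dy i x)) hφ hc
  have e := cv (fun x : V N => (1 + ‖x‖ ^ 2) ^ m * φ (z + ε • x)) z hε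
  have hεN : 0 < ε ^ N := by positivity
  rw [h, ← mul_left_cancel_iff_of_pos hεN, mul_left_comm, ← e, ← integral_const_mul,
    ← integral_const_mul]
  refine integral_congr_ae (Eventually.of_forall fun x => ?_)
  have s1 : ∑ i, (x - z) i * (x - z) i = ‖x - z‖ ^ 2 := by
    rw [EuclideanSpace.real_norm_sq_eq]; simp [sq]
  have s2 : ∑ i : Fin N, (-a * ((m + 1) * q x ^ m) * (2 * (x - z) i) * (2 * (x - z) i) +
      -a * q x ^ (m + 1) * 2) = -(2 * a * N) * (ε ^ 2 * q x ^ m) := by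
    rw [Finset.sum_add_distrib, Finset.sum_const, Finset.card_univ, Fintype.card_fin,
      Real.rpow_add_one (q0 x).ne', nsmul_eq_mul]
    have : ∑ i : Fin N, -a * ((m + 1) * q x ^ m) * (2 * (x - z) i) * (2 * (x - z) i) =
        -a * ((m + 1) * q x ^ m) * 4 * ‖x - z‖ ^ 2 := by
      rw [← s1, Finset.mul_sum]; exact Finset.sum_congr rfl fun i _ => by ring
    rw [this]
    generalize q x ^ m = w
    simp only [hq, hm]; ring
  have s3 : (1 + ‖ε⁻¹ • (x - z)‖ ^ 2) ^ m = ε ^ N * (ε ^ 2 * q x ^ m) := by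
    have t1 : 1 + ‖ε⁻¹ • (x - z)‖ ^ 2 = (ε ^ 2)⁻¹ * q x := by
      rw [norm_smul, Real.norm_of_nonneg (by positivity)]; simp only [hq]; field_simp; ring
    have t2 : ((ε ^ 2)⁻¹) ^ m = ε ^ N * ε ^ 2 := by
      rw [← pow_add, ← Real.rpow_natCast, ← Real.rpow_natCast, ← Real.rpow_neg hε.le,
        ← Real.rpow_mul hε.le]
      congr 1; rw [hm]; push_cast; ring
    rw [t1, Real.mul_rpow (by positivity) (q0 x).le, t2]; ring
  simp only
  rw [s2, s3, smul_smul, mul_inv_cancel₀ hε.ne', one_smul, add_sub_cancel]; ring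

noncomputable def kap (N : ℕ) : ℝ := ∫ x : V N, (1 + ‖x‖ ^ 2) ^ (-((N : ℝ) + 2) / 2)

theorem eta_int : Integrable fun x : V N => (1 + ‖x‖ ^ 2) ^ (-((N : ℝ) + 2) / 2) :=
  integrable_rpow_neg_one_add_norm_sq (by simp)

theorem kap_pos : 0 < kap N := by
  rw [kap, integral_pos_iff_support_of_nonneg (fun x => by positivity) eta_int]
  have : Function.support (fun x : V N => (1 + ‖x‖ ^ 2) ^ (-((N : ℝ) + 2) / 2)) = univ :=
    eq_univ_of_forall fun x => (by positivity : 0 < (1 + ‖x‖ ^ 2) ^ (-((N : ℝ) + 2) / 2)).ne'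
  rw [this]; exact isOpen_univ.measure_pos _ univ_nonempty

theorem green (hN : 0 < N) {g : ℝ → ℝ} {a : ℝ} (ha : 0 < a)
    (hg : ∀ t, 0 < t → HasDerivAt g (-a * t ^ (-((N : ℝ) + 2) / 2 + 1)) t)
    (hl : LocallyIntegrable (fun x : V N => g (‖x‖ ^ 2)) volume) {φ : V N → ℝ}
    (hφ : ContDiff ℝ 2 φ) (hc : HasCompactSupport φ) (z : V N) :
    Integrable (fun x => g (‖x - z‖ ^ 2) * lap φ x) ∧
      ∫ x, g (‖x - z‖ ^ 2) * lap φ x = -(2 * a * N * kap N) * φ z := by
  haveI : Nonempty (Fin N) := ⟨⟨0, hN⟩⟩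
  have gc : ∀ {c : ℝ}, 0 < c → Continuous fun x : V N => g (‖x - z‖ ^ 2 + c) := fun {c} h =>
    continuous_iff_continuousAt.2 fun x => ContinuousAt.comp (g := g)
      (hg _ (by positivity)).continuousAt (by fun_prop)
  have anti : AntitoneOn g (Ioi 0) := antitoneOn_of_deriv_nonpos (convex_Ioi 0)
    (fun t ht => (hg t ht).continuousAt.continuousWithinAt)
    (fun t ht => (hg t (by simpa using ht)).differentiableAt.differentiableWithinAt)
    (fun t ht => by
      have ht' : 0 < t := by simpa using ht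
      rw [(hg t ht').deriv]
      exact mul_nonpos_of_nonpos_of_nonneg (by linarith) (by positivity))
  have i0 : Integrable (fun x => g (‖x - z‖ ^ 2) * lap φ x) := by
    have w1 : Continuous fun x => lap φ (x + z) := (lap_cont hφ).comp (by fun_prop)
    have w2 : HasCompactSupport fun x => lap φ (x + z) :=
      (lap_supp hc).comp_homeomorph (Homeomorph.addRight z)
    have := (hl.integrable_smul_right_of_hasCompactSupport w1 w2).comp_sub_right z
    simpa using this
  refine ⟨i0, ?_⟩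
  set ε : ℕ → ℝ := fun n => 1 / ((n : ℝ) + 1) with hε
  have e0 : ∀ n, 0 < ε n := fun n => by positivity
  have e1 : ∀ n, ε n ^ 2 ≤ 1 := fun n => pow_le_one₀ (e0 n).le (by
    simp only [hε]; rw [div_le_one (by positivity)]; linarith [Nat.cast_nonneg (α := ℝ) n])
  have et : Tendsto ε atTop (𝓝 0) := tendsto_one_div_add_atTop_nhds_zero_nat
  have hz : ∀ᵐ x : V N, x ≠ z := by simp [ae_iff, measure_singleton]
  have t1 : Tendsto (fun n => ∫ x, g (‖x - z‖ ^ 2 + ε n ^ 2) * lap φ x) atTop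
      (𝓝 (∫ x, g (‖x - z‖ ^ 2) * lap φ x)) := by
    refine tendsto_integral_of_dominated_convergence
      (fun x => ‖g (‖x - z‖ ^ 2) * lap φ x‖ + ‖g (‖x - z‖ ^ 2 + 1) * lap φ x‖)
      (fun n => ((gc (pow_pos (e0 n) 2)).mul (lap_cont hφ)).aestronglyMeasurable)
      (i0.norm.add (((gc one_pos).mul (lap_cont hφ)).integrable_of_hasCompactSupport
        (lap_supp hc).mul_left).norm) (fun n => ?_) ?_
    · filter_upwards [hz] with x hx
      have p : 0 < ‖x - z‖ ^ 2 := pow_pos (norm_pos_iff.2 (sub_ne_zero.2 hx)) 2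
      have p2 := pow_pos (e0 n) 2
      have a1 := anti (a := ‖x - z‖ ^ 2) (b := ‖x - z‖ ^ 2 + ε n ^ 2) p
        (by simp only [mem_Ioi]; linarith) (by linarith)
      have a2 := anti (a := ‖x - z‖ ^ 2 + ε n ^ 2) (b := ‖x - z‖ ^ 2 + 1)
        (by simp only [mem_Ioi]; linarith) (by simp only [mem_Ioi]; linarith) (by linarith [e1 n])
      simp only [norm_mul, Real.norm_eq_abs, ← add_mul]
      refine mul_le_mul_of_nonneg_right (abs_le.2 ⟨?_, ?_⟩) (abs_nonneg _)
      · linarith [neg_abs_le (g (‖x - z‖ ^ 2 + 1)), abs_nonneg (g (‖x - z‖ ^ 2))]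
      · linarith [le_abs_self (g (‖x - z‖ ^ 2)), abs_nonneg (g (‖x - z‖ ^ 2 + 1))]
    · filter_upwards [hz] with x hx
      have p : 0 < ‖x - z‖ ^ 2 := pow_pos (norm_pos_iff.2 (sub_ne_zero.2 hx)) 2
      refine ((hg _ p).continuousAt.tendsto.comp ?_).mul_const _
      simpa using (et.pow 2).const_add (‖x - z‖ ^ 2)
  obtain ⟨M, hM⟩ := hφ.continuous.bounded_above_of_compact_support hc
  have t2 : Tendsto (fun n => ∫ x : V N, (1 + ‖x‖ ^ 2) ^ (-((N : ℝ) + 2) / 2) * φ (z + ε n • x))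
      atTop (𝓝 (∫ x : V N, (1 + ‖x‖ ^ 2) ^ (-((N : ℝ) + 2) / 2) * φ z)) := by
    refine tendsto_integral_of_dominated_convergence
      (fun x => (1 + ‖x‖ ^ 2) ^ (-((N : ℝ) + 2) / 2) * M)
      (fun n => eta_int.1.mul (hφ.continuous.comp (by fun_prop)).aestronglyMeasurable)
      (eta_int.mul_const M) (fun n => Eventually.of_forall fun x => ?_)
      (Eventually.of_forall fun x => ?_)
    · rw [norm_mul, Real.norm_of_nonneg (by positivity)]
      exact mul_le_mul_of_nonneg_left (hM _) (by positivity)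
    · refine (hφ.continuous.continuousAt.tendsto.comp ?_).const_mul _
      simpa using (et.smul_const x).const_add z
  have t3 := t2.const_mul (-(2 * a * N))
  simp only [← greenEps hg hφ hc z (e0 _)] at t3
  rw [tendsto_nhds_unique t1 t3, integral_mul_const, kap]; ring

end Pool.Agent.H94.HP
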