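import Pool.Agent.H94.HP2

set_option autoImplicit false
namespace Pool.Agent.H94.HP
open Set Filter Topology MeasureTheory Metric
open scoped NNReal

variable {N : ℕ}

/-- The fundamental solution of `-Δ` in `ℝ^N`. -/
noncomputable def Gam (N : ℕ) (x : V N) : ℝ :=
  if N = 2 then -(1 / (2 * Real.pi)) * Real.log ‖x‖
  else 1 / (N * (N - 2) * (volume (ball (0 : V N) 1)).toReal) * ‖x‖ ^ (2 - (N : ℝ))

/-- The Newtonian potential of a finite signed measure. -/
noncomputable def pot (μ : SignedMeasure (V N)) (x : V N) : ℝ :=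
  ∫ y, Gam N (x - y) ∂μ.toJordanDecomposition.posPart -
    ∫ y, Gam N (x - y) ∂μ.toJordanDecomposition.negPart

theorem fub (P : Measure (V N)) [IsFiniteMeasure P] {R : ℝ} (hP : ∀ᵐ y ∂P, ‖y‖ ≤ R)
    {G ψ : V N → ℝ} (hm : Measurable G) (hl : LocallyIntegrable G volume) (hψ : Continuous ψ)
    (hc : HasCompactSupport ψ) : Integrable (fun x => (∫ y, G (x - y) ∂P) * ψ x) ∧
      ∫ x, (∫ y, G (x - y) ∂P) * ψ x = ∫ y, (∫ x, G (x - y) * ψ x) ∂P := by
  obtain ⟨W, hW⟩ := hψ.bounded_above_of_compact_support hc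
  obtain ⟨R', hR'⟩ := hc.isCompact.isBounded.exists_norm_le
  have i1 : Integrable ((closedBall (0 : V N) (R' + R)).indicator fun x => ‖G x‖) :=
    IntegrableOn.integrable_indicator (hl.integrableOn_isCompact (isCompact_closedBall _ _)).norm
      measurableSet_closedBall
  have i2 := (integrable_const (μ := P) W).convolution_integrand (ContinuousLinearMap.mul ℝ ℝ) i1
  have i3 : Integrable (fun p : V N × V N => G (p.1 - p.2) * ψ p.1) (volume.prod P) := by
    refine i2.mono' ((hm.comp (measurable_fst.sub measurable_snd)).mul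
      (hψ.measurable.comp measurable_fst)).aestronglyMeasurable ?_
    filter_upwards [Measure.quasiMeasurePreserving_snd.ae hP] with p hp
    have W0 : 0 ≤ W := (norm_nonneg _).trans (hW 0)
    simp only [ContinuousLinearMap.mul_apply']
    by_cases h : ψ p.1 = 0
    · rw [h, mul_zero, norm_zero]
      exact mul_nonneg W0 (indicator_nonneg (fun _ _ => norm_nonneg _) _)
    · have h1 := hR' _ (subset_tsupport _ h)
      rw [indicator_of_mem (mem_closedBall_zero_iff.2 ((norm_sub_le _ _).trans (by linarith))),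
        norm_mul, mul_comm]
      exact mul_le_mul_of_nonneg_right (hW _) (norm_nonneg _)
  simp only [← integral_mul_const]
  exact ⟨i3.integral_prod_left, integral_integral_swap (f := fun x y => G (x - y) * ψ x) i3⟩

theorem gam (hN : 2 ≤ N) : ∃ (g : ℝ → ℝ) (a : ℝ), 0 < a ∧
    (∀ t, 0 < t → HasDerivAt g (-a * t ^ (-((N : ℝ) + 2) / 2 + 1)) t) ∧
    (∀ x : V N, Gam N x = g (‖x‖ ^ 2)) ∧
    (∀ r, 0 < r → ∃ c, ∀ t, 0 < t → r ^ N * g (r ^ 2 * t) = r ^ 2 * g t + c) ∧
    Measurable (Gam N) ∧ LocallyIntegrable (Gam N) volume := by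
  have hm : Measurable (Gam N) := by
    unfold Gam; split_ifs
    · exact measurable_norm.log.const_mul _
    · exact (measurable_norm.pow_const _).const_mul _
  have fr : Module.finrank ℝ (V N) = N := by simp
  rcases hN.eq_or_lt with rfl | h3
  · refine ⟨fun t => -(1 / (4 * Real.pi)) * Real.log t, 1 / (4 * Real.pi), by positivity,
      fun t ht => ?_, fun x => ?_, fun r hr => ⟨r ^ 2 * (-(1 / (4 * Real.pi)) * Real.log (r ^ 2)),
      fun t ht => ?_⟩, hm, ?_⟩
    · have := (Real.hasDerivAt_log ht.ne').const_mul (-(1 / (4 * Real.pi)))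
      rwa [show -(((2 : ℕ) : ℝ) + 2) / 2 + 1 = -1 by norm_num, Real.rpow_neg_one]
    · simp only [Gam, if_true, Real.log_pow]; push_cast; ring
    · simp only; rw [Real.log_mul (by positivity) ht.ne']; ring
    · have l1 : LocallyIntegrable (fun x : V 2 => ‖x‖ ^ (-(1 : ℝ))) volume :=
        locallyIntegrable_of_norm_le_rpow (C := 1) (α := 1) (by rw [fr]; norm_num)
          (by rw [fr]; norm_num) (Eventually.of_forall fun x => by
            rw [Real.norm_of_nonneg (by positivity), one_mul])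
          (measurable_norm.pow_const _).aestronglyMeasurable
      refine (l1.add continuous_norm.locallyIntegrable).mono hm.aestronglyMeasurable
        (Eventually.of_forall fun x => ?_)
      simp only [Gam, if_true, Pi.add_apply, Real.rpow_neg_one]
      have n0 := norm_nonneg x
      have p1 : |Real.log ‖x‖| ≤ ‖x‖⁻¹ + ‖x‖ := by
        have := Real.log_le_self n0
        have := Real.log_le_self (inv_nonneg.2 n0)
        rw [Real.log_inv] at this
        have := inv_nonneg.2 n0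
        exact abs_le.2 ⟨by linarith, by linarith⟩
      have p2 : 1 / (2 * Real.pi) ≤ 1 := by
        rw [div_le_one (by positivity)]; linarith [Real.pi_gt_three]
      rw [norm_mul, norm_neg, Real.norm_of_nonneg (by positivity), Real.norm_eq_abs,
        Real.norm_of_nonneg (by positivity)]
      have := abs_nonneg (Real.log ‖x‖)
      nlinarith
  · have h3' : (2 : ℝ) < N := by exact_mod_cast h3
    have hv : 0 < (volume (ball (0 : V N) 1)).toReal :=
      ENNReal.toReal_pos (measure_ball_pos _ _ one_pos).ne' measure_ball_lt_top.ne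
    set b : ℝ := 1 / (N * (N - 2) * (volume (ball (0 : V N) 1)).toReal) with hb
    have h4 : (0 : ℝ) < N - 2 := by linarith
    have hb0 : 0 < b := by positivity
    have hG : ∀ x : V N, Gam N x = b * ‖x‖ ^ (2 - (N : ℝ)) := fun x => by
      simp only [Gam, if_neg h3.ne', hb]
    refine ⟨fun t => b * t ^ ((2 - (N : ℝ)) / 2), b * ((N - 2) / 2), by positivity,
      fun t ht => ?_, fun x => ?_, fun r hr => ⟨0, fun t ht => ?_⟩, hm, ?_⟩
    · have := (Real.hasDerivAt_rpow_const (x := t) (p := (2 - (N : ℝ)) / 2)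
        (Or.inl ht.ne')).const_mul b
      rw [show (2 - (N : ℝ)) / 2 - 1 = -((N : ℝ) + 2) / 2 + 1 by ring] at this
      exact this.congr_deriv (by ring)
    · simp only [hG]
      rw [← Real.rpow_two, ← Real.rpow_mul (norm_nonneg _)]; congr 2; ring
    · simp only
      have : r ^ N * (r ^ 2) ^ ((2 - (N : ℝ)) / 2) = r ^ 2 := by
        rw [← Real.rpow_two, ← Real.rpow_mul hr.le, ← Real.rpow_natCast, ← Real.rpow_add hr]
        congr 1; ring
      rw [Real.mul_rpow (by positivity) ht.le, add_zero]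
      linear_combination b * t ^ ((2 - (N : ℝ)) / 2) * this
    · refine locallyIntegrable_of_norm_le_rpow (C := b) (α := N - 2) (by rw [fr]; omega)
        (by rw [fr]; linarith) (Eventually.of_forall fun x => ?_) hm.aestronglyMeasurable
      rw [hG, Real.norm_of_nonneg (by positivity), neg_sub]

theorem inner (hN : 2 ≤ N) : ∃ κ : ℝ, 0 < κ ∧ ∀ {φ : V N → ℝ}, ContDiff ℝ 2 φ →
    HasCompactSupport φ → ∀ (x0 y : V N) (r : ℝ), 0 < r →
      ∫ x, Gam N (x - y) * lap φ (r⁻¹ • (x - x0)) = -κ * r ^ 2 * φ (r⁻¹ • (y - x0)) := by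
  obtain ⟨g, a, ha, hg, hG, hs, -, hl⟩ := gam hN
  haveI : Nonempty (Fin N) := ⟨⟨0, by omega⟩⟩
  have hN' : (0 : ℝ) < N := by exact_mod_cast (by omega : 0 < N)
  refine ⟨2 * a * N * kap N, by have := kap_pos (N := N); positivity,
    fun {φ} hφ hc x0 y r hr => ?_⟩
  obtain ⟨c, hc'⟩ := hs r hr
  obtain ⟨i1, i2⟩ := green (by omega) ha hg (by simpa only [← hG] using hl) hφ hc (r⁻¹ • (y - x0))
  have e := cv (fun x => Gam N (x0 + r • x - y) * lap φ x) x0 hr
  simp only [smul_smul, mul_inv_cancel₀ hr.ne', one_smul, add_sub_cancel] at e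
  have hz : ∀ᵐ x : V N, x ≠ r⁻¹ • (y - x0) := by simp [ae_iff, measure_singleton]
  have i3 : Integrable (lap φ) := (lap_cont hφ).integrable_of_hasCompactSupport (lap_supp hc)
  rw [e, ← integral_const_mul, integral_congr_ae
    (g := fun x => r ^ 2 * (g (‖x - r⁻¹ • (y - x0)‖ ^ 2) * lap φ x) + c * lap φ x),
    integral_add (i1.const_mul _) (i3.const_mul _), integral_const_mul, integral_const_mul, i2,
    lap_int hφ hc]
  · ring
  filter_upwards [hz] with x hx
  have p : 0 < ‖x - r⁻¹ • (y - x0)‖ ^ 2 := pow_pos (norm_pos_iff.2 (sub_ne_zero.2 hx)) 2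
  have e2 : x0 + r • x - y = r • (x - r⁻¹ • (y - x0)) := by
    rw [smul_sub, smul_smul, mul_inv_cancel₀ hr.ne', one_smul]; abel
  rw [hG, e2, norm_smul, Real.norm_of_nonneg hr.le, mul_pow, ← mul_assoc, hc' _ p]; ring

theorem local_bound (hN : 2 ≤ N) (P Q : Measure (V N)) [IsFiniteMeasure P] [IsFiniteMeasure Q]
    {Ω : Set (V N)} (hΩ : IsOpen Ω) (hb : Bornology.IsBounded Ω) (hP : P Ωᶜ = 0) (hQ : Q Ωᶜ = 0)
    {v : V N → ℝ} {K β : ℝ} (hβ : 0 < β) (hK : 0 ≤ K)
    (hv : ∀ x ∈ Ω, ∀ y ∈ Ω, |v x - v y| ≤ K * ‖x - y‖ ^ β)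
    (hu : ∀ᵐ x, x ∈ Ω → ∫ y, Gam N (x - y) ∂P - ∫ y, Gam N (x - y) ∂Q = v x) :
    ∃ C : ℝ, 0 ≤ C ∧ ∀ x ∈ Ω, ∀ᶠ r in 𝓝[>] (0 : ℝ),
      P.real (closedBall x (r / 2)) ≤ C * r ^ ((N : ℝ) - 2 + β) + Q.real (closedBall x r) := by
  obtain ⟨κ, hκ, hin⟩ := inner hN
  obtain ⟨-, -, -, -, -, -, hm, hl⟩ := gam hN
  set φ : ContDiffBump (0 : V N) := ⟨1 / 2, 1, by norm_num, by norm_num⟩ with hφ
  have s1 : ContDiff ℝ 2 φ := φ.contDiff
  have s2 := φ.hasCompactSupport
  have i3 : Integrable (lap φ) := (lap_cont s1).integrable_of_hasCompactSupport (lap_supp s2)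
  set W := ∫ x, |lap φ x|
  have W0 : 0 ≤ W := integral_nonneg fun _ => abs_nonneg _
  obtain ⟨R, hR⟩ := hb.exists_norm_le
  have aP : ∀ (P : Measure (V N)), P Ωᶜ = 0 → ∀ᵐ y ∂P, ‖y‖ ≤ R := fun P h =>
    measure_mono_null (fun y hy hy' => hy (hR y hy')) h
  refine ⟨K * W / κ, by positivity, fun x0 hx0 => ?_⟩
  obtain ⟨ρ, hρ, hρ'⟩ := Metric.isOpen_iff.1 hΩ x0 hx0
  filter_upwards [Ioo_mem_nhdsGT hρ] with r ⟨hr, hrρ⟩
  set T : V N → V N := fun x => r⁻¹ • (x - x0) with hT
  have Tc : Continuous T := by fun_prop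
  have Tn : ∀ x, ‖T x‖ = r⁻¹ * dist x x0 := fun x => by
    rw [hT, dist_eq_norm]; simp only; rw [norm_smul, Real.norm_of_nonneg (by positivity)]
  have Tb : ∀ x c, ‖T x‖ ≤ c ↔ dist x x0 ≤ r * c := fun x c => by rw [Tn, inv_mul_le_iff₀ hr]
  have hts : ∀ x, x ∉ closedBall x0 r → T x ∉ tsupport φ := fun x hx h => by
    rw [φ.tsupport_eq, mem_closedBall_zero_iff, Tb] at h
    exact hx (by simpa [hφ] using h)
  have c1 : Continuous fun x => lap φ (T x) := (lap_cont s1).comp Tc
  have c2 : HasCompactSupport fun x => lap φ (T x) :=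
    HasCompactSupport.intro (isCompact_closedBall x0 r) fun x hx => lap_zero (hts x hx)
  have c3 := c1.integrable_of_hasCompactSupport (μ := volume) c2
  obtain ⟨p1, p2⟩ := fub P (aP P hP) hm hl c1 c2
  obtain ⟨q1, q2⟩ := fub Q (aP Q hQ) hm hl c1 c2
  simp only [hT, hin s1 s2 x0 _ r hr, integral_const_mul] at p2 q2
  have z0 : ∫ x, v x0 * lap φ (T x) = 0 := by
    rw [integral_const_mul, hT, cv (lap φ) x0 hr, lap_int s1 s2]; simp
  have key : ‖∫ x, ((∫ y, Gam N (x - y) ∂P) * lap φ (T x) - (∫ y, Gam N (x - y) ∂Q) * lap φ (T x)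
      - v x0 * lap φ (T x))‖ ≤ ∫ x, K * r ^ β * |lap φ (T x)| := by
    refine norm_integral_le_of_norm_le (c3.abs.const_mul _) ?_
    filter_upwards [hu] with x hx
    by_cases h : x ∈ closedBall x0 r
    · have hxΩ := hρ' (closedBall_subset_ball hrρ h)
      rw [← sub_mul, ← sub_mul, hx hxΩ, norm_mul, Real.norm_eq_abs, Real.norm_eq_abs]
      refine mul_le_mul_of_nonneg_right ((hv x hxΩ x0 hx0).trans (mul_le_mul_of_nonneg_left
        (Real.rpow_le_rpow (norm_nonneg _) (by rwa [← dist_eq_norm]) hβ.le) hK)) (abs_nonneg _)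
    · simp [lap_zero (hts x h)]
  rw [integral_sub (p1.sub' q1) (c3.const_mul _), integral_sub p1 q1, z0, integral_const_mul] at key
  simp only [hT] at key
  rw [p2, q2, cv (fun x => |lap φ x|) x0 hr, Real.norm_eq_abs] at key
  have φc : Continuous fun y => φ (T y) := φ.continuous.comp Tc
  have φi : ∀ (P : Measure (V N)) [IsFiniteMeasure P], Integrable (fun y => φ (T y)) P :=
    fun P _ => (integrable_const (1 : ℝ)).mono' φc.aestronglyMeasurable
      (Eventually.of_forall fun y => by rw [Real.norm_of_nonneg φ.nonneg]; exact φ.le_one)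
  have b1 : P.real (closedBall x0 (r / 2)) ≤ ∫ y, φ (T y) ∂P := by
    rw [← integral_indicator_one measurableSet_closedBall]
    refine integral_mono ((integrable_const (1 : ℝ)).indicator measurableSet_closedBall) (φi P)
      fun y => ?_
    by_cases h : y ∈ closedBall x0 (r / 2)
    · rw [indicator_of_mem h]
      refine (φ.one_of_mem_closedBall ?_).ge
      rw [mem_closedBall_zero_iff, Tb]
      exact (mem_closedBall.1 h).trans (by simp [hφ]; linarith)
    · rw [indicator_of_notMem h]; exact φ.nonneg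
  have b2 : ∫ y, φ (T y) ∂Q ≤ Q.real (closedBall x0 r) := by
    rw [← integral_indicator_one measurableSet_closedBall]
    refine integral_mono (φi Q) ((integrable_const (1 : ℝ)).indicator measurableSet_closedBall)
      fun y => ?_
    by_cases h : y ∈ closedBall x0 r
    · rw [indicator_of_mem h]; exact φ.le_one
    · rw [indicator_of_notMem h]
      exact (image_eq_zero_of_notMem_tsupport (hts y h)).le
  have e1 : r ^ β * r ^ N = r ^ ((N : ℝ) - 2 + β) * r ^ 2 := by
    rw [← Real.rpow_natCast, ← Real.rpow_natCast, ← Real.rpow_add hr, ← Real.rpow_add hr]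
    congr 1; push_cast; ring
  have k2 := (abs_le.1 key).1
  have k3 : (∫ y, φ (T y) ∂P - ∫ y, φ (T y) ∂Q) * (κ * r ^ 2) ≤
      K * W / κ * r ^ ((N : ℝ) - 2 + β) * (κ * r ^ 2) := by
    have : K * W / κ * r ^ ((N : ℝ) - 2 + β) * (κ * r ^ 2) = K * r ^ β * (r ^ N * W) := by
      field_simp; linear_combination -K * W * e1
    rw [this]; simp only [hT]; linarith
  have := le_of_mul_le_mul_right k3 (by positivity)
  linarith

theorem main (hN : 2 ≤ N) {Ω : Set (V N)} (hΩ : IsOpen Ω) (hb : Bornology.IsBounded Ω)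
    {β K : ℝ≥0} (hβ : 0 < β) (μ : SignedMeasure (V N)) (hμ : μ.totalVariation Ωᶜ = 0)
    {v : V N → ℝ} (hv : HolderOnWith K β v Ω) (hu : pot μ =ᵐ[volume.restrict Ω] v) :
    ∃ D : ℝ≥0, ∀ A, MeasurableSet A → μ.totalVariation A ≤ D * μH[(N : ℝ) - 2 + β] A := by
  set P := μ.toJordanDecomposition.posPart
  set Q := μ.toJordanDecomposition.negPart
  have hPQ := μ.toJordanDecomposition.mutuallySingular
  have h0 : P Ωᶜ = 0 ∧ Q Ωᶜ = 0 := by simpa [SignedMeasure.totalVariation] using hμ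
  have hβ' : (0 : ℝ) < β := hβ
  have hs : (0 : ℝ) < N - 2 + β := by
    have : (2 : ℝ) ≤ N := by exact_mod_cast hN
    linarith
  have hv' : ∀ x ∈ Ω, ∀ y ∈ Ω, |v x - v y| ≤ K * ‖x - y‖ ^ (β : ℝ) := fun x hx y hy => by
    have := hv.dist_le hx hy
    rwa [Real.dist_eq, dist_eq_norm] at this
  have hu' := (ae_restrict_iff' hΩ.measurableSet).1 hu
  obtain ⟨C, hC, h1⟩ := local_bound hN P Q hΩ hb h0.1 h0.2 hβ' K.2 hv' hu'
  obtain ⟨C', hC', h2⟩ := local_bound hN Q P hΩ hb h0.2 h0.1 (v := fun x => -v x) hβ' K.2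
    (fun x hx y hy => by
      rw [show -v x - -v y = -(v x - v y) by ring, abs_neg]; exact hv' x hx y hy)
    (by filter_upwards [hu'] with x hx hxΩ; rw [← hx hxΩ, pot]; ring)
  refine ⟨(2 * C * 2 ^ ((N : ℝ) - 2 + β) + 1).toNNReal + (2 * C' * 2 ^ ((N : ℝ) - 2 + β) + 1).toNNReal,
    fun A hA => ?_⟩
  rw [ENNReal.coe_add, add_mul]
  exact add_le_add (dens P Q hPQ.symm hs hC (measure_mono_null (fun x hx hx' => hx (h1 x hx')) h0.1) A hA)
    (dens Q P hPQ hs hC' (measure_mono_null (fun x hx hx' => hx (h2 x hx')) h0.2) A hA)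

end Pool.Agent.H94.HP
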