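import Mathlib

set_option autoImplicit false
namespace Pool.Agent.H94.HT
open Set Filter Topology
open scoped ENNReal

/-- `y` is a bounded classical solution of the heat equation on `(0,T) × (0,L)`, continuous on the
closed rectangle except possibly at the corner `(0,L)`, with the boundary and initial data. -/
structure IsSol (L T : ℝ) (v : ℝ → ℝ) (y : ℝ → ℝ → ℝ) : Prop where
  cont : ContinuousOn (fun p : ℝ × ℝ => y p.1 p.2) ((Icc 0 T ×ˢ Icc 0 L) \ {(0, L)})
  bdd : ∃ M, ∀ t ∈ Icc 0 T, ∀ x ∈ Icc 0 L, |y t x| ≤ M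
  pde : ∃ yx z : ℝ → ℝ → ℝ, ∀ t ∈ Ioo 0 T, ∀ x ∈ Ioo 0 L, HasDerivAt (y t) (yx t x) x ∧
    HasDerivAt (yx t) (z t x) x ∧ HasDerivAt (fun s => y s x) (z t x) t
  left : ∀ t ∈ Icc 0 T, y t 0 = 0
  right : ∀ t ∈ Ioc 0 T, y t L = v t
  init : ∀ x ∈ Ico 0 L, y 0 x = 0

/-- The control `v` achieves `ε`-approximate tracking of `w`. -/
def Tracks (L T : ℝ) (w : ℝ → ℝ) (ε : ℝ) (v : ℝ → ℝ) : Prop :=
  ∃ y, IsSol L T v y ∧ ∃ f : ℝ → ℝ, ContinuousOn f (Icc 0 T) ∧
    (∀ t ∈ Icc 0 T, HasDerivWithinAt (y t) (f t) (Ici 0) 0) ∧ ∀ t ∈ Icc 0 T, |f t - w t| ≤ ε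

/-- The cost `K_w(ε)`. -/
noncomputable def cost (L T : ℝ) (w : ℝ → ℝ) (ε : ℝ) : ℝ≥0∞ :=
  ⨅ (v : ℝ → ℝ) (_ : ContinuousOn v (Icc 0 T)) (_ : Tracks L T w ε v), ⨆ t ∈ Icc 0 T, ‖v t‖ₑ

theorem second {f f' : ℝ → ℝ} {x z : ℝ} (h1 : ∀ᶠ u in 𝓝 x, HasDerivAt f (f' u) u)
    (h2 : HasDerivAt f' z x) (hm : IsLocalMax f x) : z ≤ 0 := by
  by_contra hz
  push Not at hz
  have e : deriv f =ᶠ[𝓝 x] f' := h1.mono fun u hu => hu.deriv
  have e2 : deriv (deriv f) x = z := by rw [e.deriv_eq, h2.deriv]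
  have hmin := isLocalMin_of_deriv_deriv_pos (f := f) (x₀ := x) (by rw [e2]; exact hz)
    hm.deriv_eq_zero h1.self_of_nhds.continuousAt
  have e3 : f =ᶠ[𝓝 x] fun _ => f x := (hm.and hmin).mono fun u hu => le_antisymm hu.1 hu.2
  have e4 := e3.deriv.deriv_eq
  rw [e2] at e4
  simp at e4
  linarith

theorem mp {s t0 L : ℝ} {W Wx a a' : ℝ → ℝ → ℝ}
    (hc : ContinuousOn (fun p : ℝ × ℝ => W p.1 p.2) (Icc s t0 ×ˢ Icc 0 L))
    (hd : ∀ t ∈ Ioc s t0, ∀ x ∈ Ioo 0 L, HasDerivAt (W t) (Wx t x) x ∧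
      HasDerivAt (Wx t) (a t x) x ∧ HasDerivAt (fun u => W u x) (a' t x) t ∧ a' t x ≤ a t x)
    (b0 : ∀ x ∈ Icc 0 L, W s x ≤ 0) (b1 : ∀ t ∈ Icc s t0, W t 0 ≤ 0)
    (b2 : ∀ t ∈ Icc s t0, W t L ≤ 0) : ∀ t ∈ Icc s t0, ∀ x ∈ Icc 0 L, W t x ≤ 0 := by
  intro t ht x hx
  refine le_of_forall_pos_le_add fun e he => ?_
  set κ := e / (t0 - s + 1) with hκ
  have hts : 0 ≤ t0 - s := by linarith [ht.1, ht.2]
  have hκ0 : 0 < κ := by positivity
  obtain ⟨⟨t1, x1⟩, ⟨h1, h2⟩, hm⟩ := (isCompact_Icc.prod isCompact_Icc).exists_isMaxOn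
    ⟨(t, x), ht, hx⟩ (hc.sub (g := fun p => κ * (p.1 - s)) (by fun_prop))
  have hm' : ∀ u ∈ Icc s t0, ∀ w ∈ Icc 0 L, W u w - κ * (u - s) ≤ W t1 x1 - κ * (t1 - s) :=
    fun u hu w hw => hm (a := (u, w)) ⟨hu, hw⟩
  have hle : W t1 x1 ≤ 0 := by
    by_contra hn
    have i1 : s < t1 := lt_of_le_of_ne h1.1 fun h => hn (h ▸ b0 x1 h2)
    have i2 : 0 < x1 := lt_of_le_of_ne h2.1 fun h => hn (h ▸ b1 t1 h1)
    have i3 : x1 < L := lt_of_le_of_ne h2.2 fun h => hn (h ▸ b2 t1 h1)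
    obtain ⟨-, d2, d3, d4⟩ := hd t1 ⟨i1, h1.2⟩ x1 ⟨i2, i3⟩
    have s1 : a t1 x1 ≤ 0 := second
      (eventually_of_mem (Ioo_mem_nhds i2 i3) fun u hu => (hd t1 ⟨i1, h1.2⟩ u hu).1) d2
      (eventually_of_mem (Ioo_mem_nhds i2 i3) fun u hu => by
        have := hm' t1 h1 u (Ioo_subset_Icc_self hu); linarith)
    have s2 : κ ≤ a' t1 x1 := by
      refine ge_of_tendsto ((hasDerivAt_iff_tendsto_slope.1 d3).mono_left (nhdsLT_le_nhdsNE t1)) ?_
      filter_upwards [Ioo_mem_nhdsLT i1] with u hu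
      have := hm' u ⟨hu.1.le, hu.2.le.trans h1.2⟩ x1 h2
      rw [slope_def_field, le_div_iff_of_neg (by linarith [hu.2])]
      linarith
    linarith
  have h3 := hm' t ht x hx
  have h4 : 0 ≤ κ * (t1 - s) := mul_nonneg hκ0.le (by linarith [h1.1])
  have h5 : κ * (t - s) ≤ κ * (t0 - s + 1) := mul_le_mul_of_nonneg_left (by linarith [ht.2]) hκ0.le
  have h6 : κ * (t0 - s + 1) = e := by rw [hκ]; field_simp
  linarith

theorem comp {L T M lam : ℝ} (hL : 0 < L) (hM : 0 ≤ M) (hl : 0 < lam) {v : ℝ → ℝ} {y : ℝ → ℝ → ℝ}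
    (h : IsSol L T v y) (hv : ∀ t ∈ Icc 0 T, v t ≤ M) {t0 : ℝ} (ht : t0 ∈ Ioo 0 T) {x : ℝ}
    (hx : x ∈ Icc 0 L) :
    y t0 x ≤ M / Real.sinh (lam * L) * (Real.exp (lam ^ 2 * t0) * Real.sinh (lam * x)) := by
  obtain ⟨M', hM'⟩ := h.bdd
  obtain ⟨yx, z, hp⟩ := h.pde
  have hM0 : 0 ≤ M' := (abs_nonneg _).trans (hM' 0 ⟨le_rfl, (ht.1.trans ht.2).le⟩ x hx)
  have hs : 0 < Real.sinh (lam * L) := Real.sinh_pos_iff.2 (by positivity)
  set c := M / Real.sinh (lam * L) with hc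
  have hc0 : 0 ≤ c := by positivity
  set K := 1 + M' * Real.exp (1 - Real.log (t0 / 2) / 2) with hK
  have hK0 : 0 < K := by positivity
  refine le_of_forall_pos_le_add fun e he => ?_
  set r := min (e / K) (L / 2) with hr
  have r0 : 0 < r := lt_min (by positivity) (by positivity)
  have r1 : r ≤ L / 2 := min_le_right _ _
  have r2 : r * K ≤ e := (le_div_iff₀ hK0).1 (min_le_left _ _)
  obtain ⟨s, s0, s1, hsx⟩ : ∃ s, 0 < s ∧ s < t0 / 2 ∧ ∀ u ∈ Icc 0 (L - r), y s u ≤ r := by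
    obtain ⟨δ, hδ, hu⟩ := Metric.uniformContinuousOn_iff.1
      ((isCompact_Icc.prod isCompact_Icc).uniformContinuousOn_of_continuous
        (h.cont.mono (show Icc 0 T ×ˢ Icc 0 (L - r) ⊆ _ from fun p hp => ⟨⟨hp.1, hp.2.1, by
          linarith [hp.2.2]⟩, fun h0 => by
            have := hp.2.2; rw [mem_singleton_iff.1 h0] at this; simp only at this; linarith⟩)))
      r r0
    have m1 := min_le_left (δ / 2) (t0 / 4)
    have m2 := min_le_right (δ / 2) (t0 / 4)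
    have m0 : 0 < min (δ / 2) (t0 / 4) := lt_min (by positivity) (by linarith [ht.1])
    refine ⟨_, m0, by linarith [ht.1], fun u hu' => ?_⟩
    have := hu (min (δ / 2) (t0 / 4), u) ⟨⟨m0.le, by linarith [ht.1, ht.2]⟩, hu'⟩ (0, u)
      ⟨⟨le_rfl, by linarith [ht.1, ht.2]⟩, hu'⟩ (by
        rw [Prod.dist_eq, dist_self, Real.dist_eq, sub_zero, abs_of_pos m0, max_lt_iff]
        exact ⟨by linarith, hδ⟩)
    simp only at this
    rw [h.init u ⟨hu'.1, by linarith [hu'.2]⟩, Real.dist_eq, sub_zero] at this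
    exact (le_abs_self _).trans this.le
  set E : ℝ → ℝ → ℝ := fun t u => Real.exp (Real.log r + 1 - Real.log (t - s + r ^ 2) / 2 -
    (u - L) ^ 2 / (4 * (t - s + r ^ 2))) with hE
  have E0 : ∀ t u, 0 ≤ M' * E t u := fun t u => mul_nonneg hM0 (Real.exp_pos _).le
  have key := mp (s := s) (t0 := t0) (L := L)
    (W := fun t u => y t u - c * (Real.exp (lam ^ 2 * t) * Real.sinh (lam * u)) - r - M' * E t u)
    (Wx := fun t u => yx t u - c * (Real.exp (lam ^ 2 * t) * (Real.cosh (lam * u) * lam)) -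
      M' * (E t u * (-(u - L) / (2 * (t - s + r ^ 2)))))
    (a := fun t u => z t u - c * (Real.exp (lam ^ 2 * t) * (Real.sinh (lam * u) * lam * lam)) -
      M' * (E t u * ((u - L) ^ 2 / (4 * (t - s + r ^ 2) ^ 2) - 1 / (2 * (t - s + r ^ 2)))))
    (a' := fun t u => z t u - c * (Real.exp (lam ^ 2 * t) * (Real.sinh (lam * u) * lam * lam)) -
      M' * (E t u * ((u - L) ^ 2 / (4 * (t - s + r ^ 2) ^ 2) - 1 / (2 * (t - s + r ^ 2)))))
    ?_ ?_ ?_ ?_ ?_ t0 ⟨by linarith, le_rfl⟩ x hx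
  · have e1 : E t0 x ≤ r * Real.exp (1 - Real.log (t0 / 2) / 2) := by
      have p : 0 < t0 - s + r ^ 2 := by nlinarith [sq_nonneg r]
      have l1 : Real.log (t0 / 2) ≤ Real.log (t0 - s + r ^ 2) :=
        Real.log_le_log (by linarith) (by nlinarith [sq_nonneg r])
      have l2 : 0 ≤ (x - L) ^ 2 / (4 * (t0 - s + r ^ 2)) := by positivity
      have l3 : r * Real.exp (1 - Real.log (t0 / 2) / 2) =
          Real.exp (Real.log r + (1 - Real.log (t0 / 2) / 2)) := by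
        rw [Real.exp_add, Real.exp_log r0]
      rw [l3]
      exact Real.exp_le_exp.2 (by linarith)
    have e2 := mul_le_mul_of_nonneg_left e1 hM0
    rw [hK] at r2
    nlinarith
  · refine (((h.cont.mono fun p hp => ⟨⟨⟨by linarith [hp.1.1], by linarith [hp.1.2, ht.2]⟩, hp.2⟩,
      fun h0 => by have := hp.1.1; rw [mem_singleton_iff.1 h0] at this; simp only at this; linarith⟩).sub
      (by fun_prop)).sub continuousOn_const).sub (continuousOn_const.mul ?_)
    have p : ∀ q ∈ Icc s t0 ×ˢ Icc 0 L, q.1 - s + r ^ 2 ≠ 0 := fun q hq => by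
      have := hq.1.1; have := pow_pos r0 2; linarith
    refine ContinuousOn.rexp ((continuousOn_const.sub ((ContinuousOn.log (by fun_prop) p).div_const
      2)).sub (ContinuousOn.div (by fun_prop) (by fun_prop) fun q hq => mul_ne_zero (by norm_num) (p q hq)))
  · intro t ht' u hu
    obtain ⟨d1, d2, d3⟩ := hp t ⟨by linarith [ht'.1], by linarith [ht'.2, ht.2]⟩ u hu
    have p : 0 < t - s + r ^ 2 := by have := ht'.1; have := pow_pos r0 2; linarith
    have hl' : ∀ w : ℝ, HasDerivAt (fun w => lam * w) lam w := fun w => by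
      simpa using (hasDerivAt_id w).const_mul lam
    have ex : ∀ w, HasDerivAt (E t) (E t w * (-(w - L) / (2 * (t - s + r ^ 2)))) w := fun w => by
      refine (((((hasDerivAt_id w).sub_const L).fun_pow 2).div_const (4 * (t - s + r ^ 2))).const_sub
        (Real.log r + 1 - Real.log (t - s + r ^ 2) / 2)).exp.congr_deriv ?_
      simp only [hE, id]; field_simp; ring
    have τ : HasDerivAt (fun w => w - s + r ^ 2) 1 t := ((hasDerivAt_id t).sub_const s).add_const _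
    refine ⟨((d1.fun_sub (((hl' u).sinh.const_mul _).const_mul c)).sub_const r).fun_sub
      ((ex u).const_mul M'), (d2.fun_sub ((((hl' u).cosh.mul_const lam).const_mul _).const_mul c)).fun_sub
      ((((ex u).fun_mul ((((hasDerivAt_id u).sub_const L).fun_neg).div_const _)).congr_deriv ?_).const_mul M'),
      ((d3.fun_sub (((((hasDerivAt_id t).const_mul (lam ^ 2)).exp.mul_const _).congr_deriv ?_).const_mul c)).sub_const
        r).fun_sub ((((((τ.log p.ne').div_const 2).const_sub (Real.log r + 1)).fun_sub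
        ((hasDerivAt_const t ((u - L) ^ 2)).fun_div (τ.const_mul 4) (by positivity))).exp.congr_deriv
          ?_).const_mul M'), le_rfl⟩
    · simp only [id]; field_simp; ring
    · simp only [id]; ring
    · simp only [hE]; field_simp; ring
  · intro u hu
    have p : 0 ≤ c * (Real.exp (lam ^ 2 * s) * Real.sinh (lam * u)) :=
      mul_nonneg hc0 (mul_nonneg (Real.exp_pos _).le (Real.sinh_nonneg_iff.2 (by nlinarith [hu.1])))
    by_cases h1 : u ≤ L - r
    · have := hsx u ⟨hu.1, h1⟩; have := E0 s u; linarith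
    · have e1 : 1 ≤ E s u := by
        refine Real.one_le_exp ?_
        rw [sub_self, zero_add, Real.log_pow]
        have : (u - L) ^ 2 / (4 * r ^ 2) ≤ 1 := by
          rw [div_le_one (by positivity)]; push Not at h1; nlinarith [hu.2]
        push_cast; linarith
      have := (le_abs_self _).trans (hM' s ⟨s0.le, by linarith [ht.1, ht.2]⟩ u hu)
      have := mul_le_mul_of_nonneg_left e1 hM0
      linarith
  · intro t ht'
    have := E0 t 0
    rw [h.left t ⟨by linarith [ht'.1], by linarith [ht'.2, ht.2]⟩]; simp; linarith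
  · intro t ht'
    have := E0 t L
    have t1 : 0 < t := by linarith [ht'.1]
    have := hv t ⟨t1.le, by linarith [ht'.2, ht.2]⟩
    have e1 : c * (Real.exp (lam ^ 2 * t) * Real.sinh (lam * L)) = M * Real.exp (lam ^ 2 * t) := by
      rw [hc]; field_simp
    have e2 := mul_le_mul_of_nonneg_left (Real.one_le_exp (x := lam ^ 2 * t) (by positivity)) hM
    rw [h.right t ⟨t1, by linarith [ht'.2, ht.2]⟩, e1]; linarith

theorem lower {L T ε : ℝ} (hL : 0 < L) (hε : 0 < ε) (h1 : 2 * ε < T) (h2 : 1 ≤ L ^ 2 / (4 * ε)) :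
    ENNReal.ofReal (ε ^ 2 / L * Real.exp (L ^ 2 / (8 * ε))) ≤ cost L T id ε := by
  refine le_iInf fun v => le_iInf fun _ => le_iInf fun ⟨y, hy, f, _, hf, hw⟩ => ?_
  set S := ⨆ t ∈ Icc 0 T, ‖v t‖ₑ
  rcases eq_or_ne S ⊤ with hS | hS
  · rw [hS]; exact le_top
  refine ENNReal.ofReal_le_of_le_toReal ?_
  set M := S.toReal
  have hM : 0 ≤ M := ENNReal.toReal_nonneg
  have hv : ∀ t ∈ Icc 0 T, v t ≤ M := fun t ht => by
    have := ENNReal.toReal_mono hS (le_iSup₂ (f := fun t (_ : t ∈ Icc 0 T) => ‖v t‖ₑ) t ht)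
    exact (le_abs_self _).trans (by simpa using this)
  set lam := L / (4 * ε) with hlam
  have hl : 0 < lam := by positivity
  have ht : 2 * ε ∈ Ioo 0 T := ⟨by linarith, h1⟩
  set c := M / Real.sinh (lam * L) * Real.exp (lam ^ 2 * (2 * ε)) with hc
  have d1 : HasDerivAt (fun x => c * Real.sinh (lam * x)) (c * lam) 0 := by
    simpa using ((hasDerivAt_id (0 : ℝ)).const_mul lam).sinh.const_mul c
  have d2 := (d1.hasDerivWithinAt.fun_sub (hf _ (Ioo_subset_Icc_self ht))).Ioi_of_Ici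
  have a1 : 0 ≤ c * lam - f (2 * ε) := by
    refine ge_of_tendsto ((hasDerivWithinAt_iff_tendsto_slope' (by simp)).1 d2) ?_
    filter_upwards [Ioo_mem_nhdsGT hL] with x hx
    have := comp hL hM hl hy hv ht (Ioo_subset_Icc_self hx)
    rw [slope_def_field, hy.left _ (Ioo_subset_Icc_self ht)]
    refine div_nonneg ?_ (by linarith [hx.1])
    simp only [mul_zero, Real.sinh_zero, sub_zero, hc]; linarith
  have a2 := (abs_le.1 (hw _ (Ioo_subset_Icc_self ht))).1
  simp only [id] at a2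
  have e1 : lam * L = 2 * (L ^ 2 / (8 * ε)) := by rw [hlam]; field_simp; norm_num
  have e2 : lam ^ 2 * (2 * ε) = L ^ 2 / (8 * ε) := by rw [hlam]; field_simp; norm_num
  have e3 : L ^ 2 / (4 * ε) = 2 * (L ^ 2 / (8 * ε)) := by field_simp; norm_num
  rw [e1, e2] at hc
  rw [e3] at h2
  set A := L ^ 2 / (8 * ε)
  have hs : Real.exp A * Real.exp A / 4 ≤ Real.sinh (2 * A) := by
    rw [Real.sinh_eq, ← Real.exp_add, ← two_mul]
    have := Real.add_one_le_exp (2 * A)
    have : Real.exp (-(2 * A)) ≤ 1 := Real.exp_le_one_iff.2 (by linarith)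
    linarith
  have hA := Real.exp_pos A
  have a3 : c ≤ M * 4 / Real.exp A := by
    rw [hc, div_mul_eq_mul_div, div_le_div_iff₀ (lt_of_lt_of_le (by positivity) hs) hA]
    nlinarith
  have a4 : ε ≤ M * 4 / Real.exp A * lam := by nlinarith
  rw [hlam, div_mul_div_comm, le_div_iff₀ (by positivity)] at a4
  rw [div_mul_eq_mul_div, div_le_iff₀ hL]
  nlinarith

theorem q2 {L T : ℝ} (hL : 0 < L) (hT : 0 < T) (C : ℝ) (hC : 0 < C) :
    ∃ ε, 0 < ε ∧ ENNReal.ofReal (C * Real.exp (C * ε ^ (-(1 / 2 : ℝ)))) < cost L T id ε := by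
  obtain ⟨u, h1, h2, h3, h4⟩ := ((eventually_ge_atTop (8 * (C + 1) / L ^ 2)).and
    ((eventually_gt_atTop (120 * (C * L))).and ((eventually_gt_atTop (2 / T + 1)).and
    (eventually_ge_atTop (4 / L ^ 2 + 1))))).exists
  have p1 : 0 < 2 / T := by positivity
  have p2 : 0 < 4 / L ^ 2 := by positivity
  have hu : 0 < u := by linarith
  refine ⟨(u ^ 2)⁻¹, by positivity, lt_of_lt_of_le ?_ (lower hL (by positivity) ?_ ?_)⟩
  · rw [ENNReal.ofReal_lt_ofReal_iff (by positivity)]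
    have e1 : ((u ^ 2)⁻¹) ^ (-(1 / 2 : ℝ)) = u := by
      rw [Real.rpow_neg (by positivity), Real.inv_rpow (by positivity), inv_inv,
        ← Real.sqrt_eq_rpow, Real.sqrt_sq hu.le]
    have e2 : C * u + u ≤ L ^ 2 / (8 * (u ^ 2)⁻¹) := by
      rw [div_le_iff₀ (by positivity)] at h1
      rw [le_div_iff₀ (by positivity)]; field_simp; nlinarith
    have e3 := Real.pow_div_factorial_le_exp u hu.le 5
    have e4 := Real.exp_le_exp.2 e2
    rw [Real.exp_add] at e4
    have e5 := Real.exp_pos (C * u)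
    rw [e1]
    refine lt_of_lt_of_le ?_ (mul_le_mul_of_nonneg_left
      ((mul_le_mul_of_nonneg_left e3 e5.le).trans e4) (by positivity))
    have e6 : ((u ^ 2)⁻¹) ^ 2 / L * (Real.exp (C * u) * (u ^ 5 / (Nat.factorial 5 : ℕ))) =
        u / (120 * L) * Real.exp (C * u) := by
      simp only [Nat.factorial]; push_cast; field_simp
    rw [e6]
    exact mul_lt_mul_of_pos_right (by rw [lt_div_iff₀ (by positivity)]; linarith) e5
  · rw [← div_eq_mul_inv, div_lt_iff₀ (by positivity)]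
    have : 2 / T * T = 2 := by field_simp
    nlinarith [mul_pos hu hT]
  · rw [le_div_iff₀ (by positivity)]
    have : 4 / L ^ 2 * L ^ 2 = 4 := by field_simp
    field_simp
    nlinarith [mul_pos hu (pow_pos hL 2)]

end Pool.Agent.H94.HT
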