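import Pool.Agent.H94.HT1

set_option autoImplicit false
namespace Pool.Agent.H94.HT
open Set Filter Topology MeasureTheory
open scoped ENNReal NNReal Nat

noncomputable def rho : ℕ → ℕ → ℝ → ℝ
  | 0, m => fun x => x⁻¹ ^ m * expNegInvGlue x
  | i + 1, m => fun x => rho i (m + 2) x - m * rho i (m + 1) x

theorem rho_deriv (i : ℕ) : ∀ (m : ℕ) (x : ℝ), HasDerivAt (rho i m) (rho (i + 1) m x) x := by
  induction i with
  | zero =>
    intro m x
    have := expNegInvGlue.hasDerivAt_polynomial_eval_inv_mul (Polynomial.X ^ m) x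
    simp only [Polynomial.eval_pow, Polynomial.eval_X] at this
    refine this.congr_deriv ?_
    rcases m with _ | m
    · simp [rho]
    · simp [rho, Polynomial.derivative_X_pow]; ring
  | succ i ih => exact fun m x => (ih (m + 2) x).fun_sub ((ih (m + 1) x).const_mul _)

theorem rho_cont (i m : ℕ) : Continuous (rho i m) :=
  continuous_iff_continuousAt.2 fun x => (rho_deriv i m x).continuousAt

theorem rho_neg (i : ℕ) : ∀ (m : ℕ) {x : ℝ}, x ≤ 0 → rho i m x = 0 := by
  induction i with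
  | zero => intro m x hx; simp [rho, expNegInvGlue.zero_of_nonpos hx]
  | succ i ih => intro m x hx; simp [rho, ih _ hx]

theorem rho_nonneg (m : ℕ) (x : ℝ) : 0 ≤ rho 0 m x := by
  rcases le_or_gt x 0 with h | h
  · rw [rho_neg 0 m h]
  · exact mul_nonneg (by positivity) (expNegInvGlue.nonneg x)

theorem rho_le (i : ℕ) : ∀ (m : ℕ) (x : ℝ), |rho i m x| ≤ 2 ^ i * (m + 2 * i)! := by
  induction i with
  | zero =>
    intro m x
    rw [abs_of_nonneg (rho_nonneg m x)]
    rcases le_or_gt x 0 with h | h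
    · rw [rho_neg 0 m h]; positivity
    · have := Real.pow_div_factorial_le_exp x⁻¹ (by positivity) m
      rw [div_le_iff₀ (by positivity)] at this
      simp only [rho, expNegInvGlue, if_neg h.not_ge, Real.exp_neg, pow_zero, mul_zero, add_zero,
        one_mul]
      rw [← div_eq_mul_inv, div_le_iff₀ (Real.exp_pos _)]; linarith
  | succ i ih =>
    intro m x
    have h1 := ih (m + 2) x
    have h2 := ih (m + 1) x
    have e1 : m + 2 + 2 * i = m + 2 * (i + 1) := by ring
    have e2 : ((m + 2 * (i + 1))! : ℝ) = (m + 2 * i + 2) * (m + 1 + 2 * i)! := by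
      rw [show m + 2 * (i + 1) = m + 1 + 2 * i + 1 by ring, Nat.factorial_succ]; push_cast; ring
    rw [e1] at h1
    have h3 : (m : ℝ) * |rho i (m + 1) x| ≤ 2 ^ i * (m + 2 * (i + 1))! := by
      rw [e2]
      have : (0 : ℝ) ≤ 2 ^ i * (m + 1 + 2 * i)! := by positivity
      have : (0 : ℝ) ≤ i := by positivity
      have := mul_le_mul_of_nonneg_left h2 (Nat.cast_nonneg (α := ℝ) m)
      nlinarith
    refine (abs_sub _ _).trans ?_
    rw [abs_mul, Nat.abs_cast, pow_succ]; linarith

theorem rho_le' (i m : ℕ) (x : ℝ) : |rho i m x| ≤ 2 ^ m * m ! * (8 ^ i * (2 * i)!) := by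
  refine (rho_le i m x).trans ?_
  have h1 := Nat.add_choose_mul_factorial_mul_factorial m (2 * i)
  have h2 := Nat.choose_le_two_pow (m + 2 * i) (2 * i)
  have h3 : (m + 2 * i)! ≤ 2 ^ (m + 2 * i) * m ! * (2 * i)! := by
    rw [← h1]; gcongr
  have h4 : ((m + 2 * i)! : ℝ) ≤ 2 ^ (m + 2 * i) * m ! * (2 * i)! := by exact_mod_cast h3
  refine (mul_le_mul_of_nonneg_left h4 (by positivity)).trans (le_of_eq ?_)
  rw [show (8 : ℝ) = 2 * 2 ^ 2 by norm_num, mul_pow, ← pow_mul, pow_add]; ring

theorem I_rec (m : ℕ) (S : ℝ) : (m : ℝ) * ∫ x in (0 : ℝ)..S, rho 0 (m + 1) x =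
    (∫ x in (0 : ℝ)..S, rho 0 (m + 2) x) - rho 0 m S := by
  have := intervalIntegral.integral_eq_sub_of_hasDerivAt (a := 0) (b := S)
    (fun x _ => rho_deriv 0 m x) ((rho_cont 1 m).intervalIntegrable _ _)
  rw [rho_neg 0 m le_rfl] at this
  have e : ∀ x, rho (0 + 1) m x = rho 0 (m + 2) x - m * rho 0 (m + 1) x := fun _ => rfl
  simp only [e] at this
  rw [intervalIntegral.integral_sub ((rho_cont _ _).intervalIntegrable _ _)
    (((rho_cont _ _).intervalIntegrable _ _).const_mul _), intervalIntegral.integral_const_mul] at this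
  linarith

theorem I_low (m : ℕ) (S : ℝ) : m ! * rho 0 0 S ≤ ∫ x in (0 : ℝ)..S, rho 0 (m + 2) x := by
  induction m with
  | zero => have := I_rec 0 S; simp only [Nat.cast_zero, zero_mul] at this; simp; linarith
  | succ m ih =>
    have h1 := I_rec (m + 1) S
    have h2 := rho_nonneg (m + 1) S
    have h3 := mul_le_mul_of_nonneg_left ih (Nat.cast_nonneg (α := ℝ) (m + 1))
    rw [Nat.factorial_succ, Nat.cast_mul]
    linarith

/-- The kernel: derivatives, support, mass, first moment and Gevrey bound. -/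
theorem kernel {T b : ℝ} (hT : 0 < T) (hb : 0 < b) (m : ℕ) : ∃ r : ℕ → ℝ → ℝ,
    (∀ i x, HasDerivAt (r i) (r (i + 1) x) x) ∧ (∀ i x, x ≤ 0 → r i x = 0) ∧ (∀ x, 0 ≤ r 0 x) ∧
    ∫ x in (0 : ℝ)..T, r 0 x = 1 ∧ ((m : ℝ) + 1) * ∫ x in (0 : ℝ)..T, r 0 x * x ≤ b ∧
    ∀ i x, |r i x| ≤ 8 ^ (m + 3) / (b * rho 0 0 (T / b)) * ((8 / b) ^ i * (2 * i)!) := by
  have p0 : 0 < rho 0 0 (T / b) := by
    simpa [rho] using expNegInvGlue.pos_of_pos (div_pos hT hb)
  have l1 := I_low (m + 1) (T / b)
  set I := ∫ x in (0 : ℝ)..T / b, rho 0 (m + 1 + 2) x with hI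
  have I0 : 0 < I := lt_of_lt_of_le (by positivity) l1
  refine ⟨fun i x => (b * I)⁻¹ * (b⁻¹ ^ i * rho i (m + 1 + 2) (x / b)), fun i x => ?_,
    fun i x hx => ?_, fun x => ?_, ?_, ?_, fun i x => ?_⟩
  · refine ((((rho_deriv i _ (x / b)).comp x ((hasDerivAt_id x).div_const b)).const_mul
      (b⁻¹ ^ i)).const_mul (b * I)⁻¹).congr_deriv ?_
    simp only [pow_succ]; ring
  · simp only; rw [rho_neg i _ (div_nonpos_of_nonpos_of_nonneg hx hb.le)]; simp
  · have := rho_nonneg (m + 1 + 2) (x / b); positivity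
  · simp only [pow_zero, one_mul]
    rw [intervalIntegral.integral_const_mul, intervalIntegral.integral_comp_div _ hb.ne', zero_div,
      ← hI, smul_eq_mul, inv_mul_cancel₀ (by positivity)]
  · have e : ∀ x, (b * I)⁻¹ * (b⁻¹ ^ 0 * rho 0 (m + 1 + 2) (x / b)) * x =
        I⁻¹ * rho 0 (m + 1 + 1) (x / b) := fun x => by
      rcases eq_or_ne x 0 with rfl | h
      · simp [rho]
      · simp only [rho, pow_succ _ (m + 1 + 1)]; field_simp
    simp only [e]
    rw [intervalIntegral.integral_const_mul, intervalIntegral.integral_comp_div _ hb.ne', zero_div,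
      smul_eq_mul]
    have h1 := I_rec (m + 1) (T / b)
    have h2 := rho_nonneg (m + 1) (T / b)
    push_cast at h1
    rw [← hI] at h1
    have h3 : ((m : ℝ) + 1) * (I⁻¹ * (b * ∫ x in (0 : ℝ)..T / b, rho 0 (m + 1 + 1) x)) =
        b * ((I - rho 0 (m + 1) (T / b)) / I) := by rw [← h1]; ring
    rw [h3]
    exact mul_le_of_le_one_right hb.le ((div_le_one I0).2 (by linarith))
  · simp only
    rw [abs_mul, abs_mul, abs_of_pos (by positivity), abs_of_pos (by positivity)]
    have h1 := rho_le' i (m + 1 + 2) (x / b)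
    have h2 : ((m + 1 + 2)! : ℝ) ≤ 4 ^ (m + 3) * (m + 1)! := by
      have a1 : m + 3 ≤ 2 ^ (m + 3) := Nat.lt_two_pow_self.le
      have a2 : (m + 1 + 2)! ≤ 4 ^ (m + 3) * (m + 1)! := by
        rw [Nat.factorial_succ (m + 2), Nat.factorial_succ (m + 1), ← mul_assoc,
          show 4 = 2 * 2 by norm_num, mul_pow]
        exact Nat.mul_le_mul_right _ (Nat.mul_le_mul a1 (by omega))
      exact_mod_cast a2
    have h3 : ((m + 1 + 2)! : ℝ) / I ≤ 4 ^ (m + 3) / rho 0 0 (T / b) := by
      rw [div_le_div_iff₀ I0 p0]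
      calc _ ≤ 4 ^ (m + 3) * (m + 1)! * rho 0 0 (T / b) := by gcongr
        _ ≤ _ := by rw [mul_assoc]; gcongr
    calc _ ≤ (b * I)⁻¹ * (b⁻¹ ^ i * (2 ^ (m + 1 + 2) * (m + 1 + 2)! * (8 ^ i * (2 * i)!))) := by
          gcongr
      _ = 2 ^ (m + 3) / b * ((8 / b) ^ i * (2 * i)!) * ((m + 1 + 2)! / I) := by
          rw [div_pow, inv_pow]; field_simp
      _ ≤ 2 ^ (m + 3) / b * ((8 / b) ^ i * (2 * i)!) * (4 ^ (m + 3) / rho 0 0 (T / b)) := by gcongr
      _ = _ := by rw [show (8 : ℝ) ^ (m + 3) = 2 ^ (m + 3) * 4 ^ (m + 3) by rw [← mul_pow]; norm_num]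
                  field_simp

theorem smooth {T b : ℝ} (hT : 0 < T) (hb : 0 < b) (m : ℕ) {K : ℝ≥0} {w : ℝ → ℝ}
    (hw : LipschitzWith K w) (h0 : w 0 = 0) : ∃ g : ℕ → ℝ → ℝ,
    (∀ i t, HasDerivAt (g i) (g (i + 1) t) t) ∧ (∀ i, g i 0 = 0) ∧
    (∀ t ∈ Icc 0 T, |g 0 t - w t| ≤ K * (b / (m + 1))) ∧
    ∀ i t, |g i t| ≤ K * T * T * (8 ^ (m + 3) / (b * rho 0 0 (T / b))) * ((8 / b) ^ i * (2 * i)!) := by
  obtain ⟨r, r1, r2, r3, r4, r5, r6⟩ := kernel hT hb m
  have rc : ∀ i, Continuous (r i) := fun i =>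
    continuous_iff_continuousAt.2 fun x => (r1 i x).continuousAt
  have wc := hw.continuous
  have wl : ∀ s t, |w s - w t| ≤ K * |s - t| := fun s t => hw.dist_le_mul s t
  set A := 8 ^ (m + 3) / (b * rho 0 0 (T / b))
  have bd : ∀ i t, ∀ τ ∈ uIoc 0 T, ‖r i (t - τ) * w τ‖ ≤ A * ((8 / b) ^ i * (2 * i)!) * (K * T) :=
    fun i t τ hτ => by
      rw [uIoc_of_le hT.le] at hτ
      have := wl τ 0
      rw [h0, sub_zero, sub_zero, abs_of_pos hτ.1] at this
      rw [norm_mul]
      exact mul_le_mul (r6 i _) (this.trans (mul_le_mul_of_nonneg_left hτ.2 K.2)) (norm_nonneg _)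
        ((abs_nonneg _).trans (r6 i 0))
  have cc : ∀ i t, Continuous fun τ => r i (t - τ) * w τ := fun i t => by have := rc i; fun_prop
  refine ⟨fun i t => ∫ τ in (0 : ℝ)..T, r i (t - τ) * w τ, fun i t => ?_, fun i => ?_,
    fun t ht => ?_, fun i t => ?_⟩
  · exact (intervalIntegral.hasDerivAt_integral_of_dominated_loc_of_deriv_le (μ := volume)
      (F := fun t τ => r i (t - τ) * w τ) (F' := fun t τ => r (i + 1) (t - τ) * w τ) univ_mem
      (Eventually.of_forall fun t => (cc i t).aestronglyMeasurable) ((cc i t).intervalIntegrable _ _)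
      (cc _ t).aestronglyMeasurable (Eventually.of_forall fun τ hτ x _ => bd _ x τ hτ)
      intervalIntegrable_const (Eventually.of_forall fun τ _ x _ =>
        ((r1 i (x - τ)).comp_sub_const x τ).mul_const _)).2
  · simp only
    rw [intervalIntegral.integral_congr (g := fun _ => 0) fun τ hτ => by
      rw [uIcc_of_le hT.le] at hτ; simp only; rw [r2 i _ (by linarith [hτ.1]), zero_mul]]
    simp
  · have c0 := rc 0
    have e1 : ∫ τ in (0 : ℝ)..T, r 0 (t - τ) * w τ = ∫ σ in (0 : ℝ)..t, r 0 σ * w (t - σ) := by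
      rw [← intervalIntegral.integral_add_adjacent_intervals (b := t)
        ((cc 0 t).intervalIntegrable _ _) ((cc 0 t).intervalIntegrable _ _),
        intervalIntegral.integral_congr (a := t) (g := fun _ => 0) fun τ hτ => by
          rw [uIcc_of_le ht.2] at hτ; simp only; rw [r2 0 _ (by linarith [hτ.1]), zero_mul]]
      have := intervalIntegral.integral_comp_sub_left (a := 0) (b := t)
        (fun σ => r 0 σ * w (t - σ)) t
      simp only [sub_sub_cancel, sub_self, sub_zero] at this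
      rw [this]; simp
    have e2 : w t = (∫ σ in (0 : ℝ)..t, r 0 σ * w t) + ∫ σ in t..T, r 0 σ * w t := by
      rw [intervalIntegral.integral_add_adjacent_intervals (by apply Continuous.intervalIntegrable; fun_prop)
        (by apply Continuous.intervalIntegrable; fun_prop), intervalIntegral.integral_mul_const, r4,
        one_mul]
    have n1 : ‖∫ σ in (0 : ℝ)..t, (r 0 σ * w (t - σ) - r 0 σ * w t)‖ ≤
        ∫ σ in (0 : ℝ)..t, K * (r 0 σ * σ) :=
      intervalIntegral.norm_integral_le_of_norm_le ht.1 (Eventually.of_forall fun σ hσ => by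
        have := wl (t - σ) t
        rw [sub_sub_cancel_left, abs_neg, abs_of_pos hσ.1] at this
        rw [← mul_sub, norm_mul, Real.norm_of_nonneg (r3 σ), mul_left_comm]
        exact mul_le_mul_of_nonneg_left this (r3 σ)) (by apply Continuous.intervalIntegrable; fun_prop)
    have n2 : ‖∫ σ in t..T, r 0 σ * w t‖ ≤ ∫ σ in t..T, K * (r 0 σ * σ) :=
      intervalIntegral.norm_integral_le_of_norm_le ht.2 (Eventually.of_forall fun σ hσ => by
        have := wl t 0
        rw [h0, sub_zero, sub_zero, abs_of_nonneg ht.1] at this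
        rw [norm_mul, Real.norm_of_nonneg (r3 σ), mul_left_comm]
        exact mul_le_mul_of_nonneg_left (this.trans (mul_le_mul_of_nonneg_left hσ.1.le K.2)) (r3 σ))
        (by apply Continuous.intervalIntegrable; fun_prop)
    rw [intervalIntegral.integral_sub (by apply Continuous.intervalIntegrable; fun_prop)
      (by apply Continuous.intervalIntegrable; fun_prop)] at n1
    have e3 : (∫ σ in (0 : ℝ)..t, K * (r 0 σ * σ)) + ∫ σ in t..T, K * (r 0 σ * σ) ≤
        K * (b / (m + 1)) := by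
      rw [intervalIntegral.integral_add_adjacent_intervals (by apply Continuous.intervalIntegrable; fun_prop)
        (by apply Continuous.intervalIntegrable; fun_prop), intervalIntegral.integral_const_mul]
      exact mul_le_mul_of_nonneg_left ((le_div_iff₀' (by positivity)).2 r5) K.2
    simp only
    rw [e1]
    rw [Real.norm_eq_abs, abs_le] at n1 n2
    exact abs_le.2 ⟨by linarith [n1.1, n2.2], by linarith [n1.2, n2.1]⟩
  · have := intervalIntegral.norm_integral_le_of_norm_le_const (bd i t)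
    rw [sub_zero, abs_of_pos hT] at this
    exact this.trans (le_of_eq (by ring))

end Pool.Agent.H94.HT
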