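import Pool.Agent.H94.HT2

set_option autoImplicit false
namespace Pool.Agent.H94.HT
open Set Filter Topology MeasureTheory
open scoped ENNReal NNReal Nat

theorem tych {L T A q : ℝ} (hL : 0 < L) (hq : 0 < q) (hqL : q * (2 * L) ^ 2 ≤ 1 / 4)
    {g : ℕ → ℝ → ℝ} (g1 : ∀ i t, HasDerivAt (g i) (g (i + 1) t) t) (g2 : ∀ i, g i 0 = 0)
    (g3 : ∀ i t, |g i t| ≤ A * (q ^ i * (2 * i)!)) : ∃ y : ℝ → ℝ → ℝ,
      IsSol L T (fun t => y t L) y ∧ ContinuousOn (fun t => y t L) (Icc 0 T) ∧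
      (∀ t, HasDerivAt (y t) (g 0 t) 0) ∧ ∀ t, |y t L| ≤ A * (2 * L) * 2 := by
  have hA : 0 ≤ A := by simpa using (abs_nonneg _).trans (g3 0 0)
  set R := 2 * L with hR
  have hR0 : 0 < R := by positivity
  have gc : ∀ i, Continuous (g i) := fun i =>
    continuous_iff_continuousAt.2 fun x => (g1 i x).continuousAt
  have pw : ∀ (i : ℕ) x, x ∈ Ioo (-R) R → q ^ i * |x| ^ (2 * i) ≤ (1 / 4) ^ i := fun i x hx => by
    rw [pow_mul, ← mul_pow]
    refine pow_le_pow_left₀ (by positivity) (le_trans (mul_le_mul_of_nonneg_left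
      (pow_le_pow_left₀ (abs_nonneg _) (abs_lt.2 hx).le 2) hq.le) hqL) i
  have h42 : ∀ i : ℕ, ((i : ℝ) + 1) * (1 / 4) ^ i ≤ (1 / 2) ^ i := fun i => by
    have : (i : ℝ) + 1 ≤ 2 ^ i := by exact_mod_cast Nat.lt_two_pow_self
    calc _ ≤ (2 : ℝ) ^ i * (1 / 4) ^ i := by gcongr
      _ = _ := by rw [← mul_pow]; norm_num
  have h42' : ∀ i : ℕ, (1 / 4 : ℝ) ^ i ≤ (1 / 2) ^ i := fun i =>
    pow_le_pow_left₀ (by norm_num) (by norm_num) i
  have B0 : ∀ i t x, x ∈ Ioo (-R) R → ‖g i t * (x ^ (2 * i) / (2 * i)!)‖ ≤ A * (1 / 2) ^ i :=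
    fun i t x hx => by
      rw [norm_mul, norm_div, norm_pow, Real.norm_natCast, Real.norm_eq_abs, Real.norm_eq_abs]
      calc _ ≤ A * (q ^ i * (2 * i)!) * (|x| ^ (2 * i) / (2 * i)!) := by gcongr; exact g3 i t
        _ = A * (q ^ i * |x| ^ (2 * i)) := by field_simp
        _ ≤ _ := mul_le_mul_of_nonneg_left ((pw i x hx).trans (h42' i)) hA
  have B1 : ∀ i t x, x ∈ Ioo (-R) R →
      ‖g i t * (x ^ (2 * i + 1) / (2 * i + 1)!)‖ ≤ A * R * (1 / 2) ^ i := fun i t x hx => by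
    have e : g i t * (x ^ (2 * i + 1) / (2 * i + 1)!) =
        g i t * (x ^ (2 * i) / (2 * i)!) * (x / (2 * i + 1)) := by
      rw [Nat.factorial_succ]; push_cast; field_simp; ring
    have h1 : ‖x / (2 * i + 1)‖ ≤ R := by
      rw [norm_div, Real.norm_of_nonneg (r := 2 * (i : ℝ) + 1) (by positivity)]
      exact (div_le_self (norm_nonneg _) (by linarith [Nat.cast_nonneg (α := ℝ) i])).trans
        (abs_lt.2 hx).le
    rw [e, norm_mul, mul_right_comm]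
    exact mul_le_mul (B0 i t x hx) h1 (norm_nonneg _) (by positivity)
  have B2 : ∀ i t x, x ∈ Ioo (-R) R →
      ‖g (i + 1) t * (x ^ (2 * i + 1) / (2 * i + 1)!)‖ ≤ 2 * A * q * R * (1 / 2) ^ i :=
    fun i t x hx => by
      rw [norm_mul, norm_div, norm_pow, Real.norm_natCast, Real.norm_eq_abs, Real.norm_eq_abs]
      have e : ((2 * (i + 1))! : ℝ) = (2 * i + 2) * (2 * i + 1)! := by
        rw [show 2 * (i + 1) = 2 * i + 1 + 1 by ring, Nat.factorial_succ (2 * i + 1)]; push_cast; ring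
      calc _ ≤ A * (q ^ (i + 1) * (2 * (i + 1))!) * (|x| ^ (2 * i + 1) / (2 * i + 1)!) := by
            gcongr; exact g3 _ t
        _ = 2 * A * q * |x| * ((i + 1) * (q ^ i * |x| ^ (2 * i))) := by rw [e]; field_simp; ring
        _ ≤ 2 * A * q * R * ((i + 1) * (1 / 4) ^ i) := by
            gcongr; exacts [(abs_lt.2 hx).le, pw i x hx]
        _ ≤ _ := mul_le_mul_of_nonneg_left (h42 i) (by positivity)
  have sg : ∀ c : ℝ, Summable fun i : ℕ => c * (1 / 2 : ℝ) ^ i := fun c =>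
    summable_geometric_two.mul_left c
  have z0 : (0 : ℝ) ∈ Ioo (-R) R := ⟨by linarith, hR0⟩
  have sub : ∀ x ∈ Icc 0 L, x ∈ Ioo (-R) R := fun x hx => ⟨by linarith [hx.1], by linarith [hx.2]⟩
  have dp : ∀ (n : ℕ) (x : ℝ), HasDerivAt (fun x : ℝ => x ^ (n + 1) / (n + 1)!) (x ^ n / n !) x :=
    fun n x => ((hasDerivAt_pow (n + 1) x).div_const _).congr_deriv (by
      rw [Nat.factorial_succ]; push_cast; field_simp)
  set y : ℝ → ℝ → ℝ := fun t x => ∑' i, g i t * (x ^ (2 * i + 1) / (2 * i + 1)!) with hy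
  have dx : ∀ t, ∀ x ∈ Ioo (-R) R,
      HasDerivAt (y t) (∑' i, g i t * (x ^ (2 * i) / (2 * i)!)) x := fun t x hx =>
    hasDerivAt_tsum_of_isPreconnected (sg A) isOpen_Ioo isPreconnected_Ioo
      (fun i x _ => (dp (2 * i) x).const_mul _) (fun i x hx => B0 i t x hx) z0
      (.of_norm_bounded (sg _) fun i => B1 i t 0 z0) hx
  have dxx : ∀ t, ∀ x ∈ Ioo (-R) R, HasDerivAt (fun x => ∑' i, g i t * (x ^ (2 * i) / (2 * i)!))
      (∑' i, g (i + 1) t * (x ^ (2 * i + 1) / (2 * i + 1)!)) x := fun t x hx => by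
    have h1 := (hasDerivAt_tsum_of_isPreconnected (sg _) isOpen_Ioo isPreconnected_Ioo
      (fun i x _ => (dp (2 * i + 1) x).const_mul (g (i + 1) t)) (fun i x hx => B2 i t x hx) z0
      (by simp [summable_zero]) hx).const_add (g 0 t)
    refine h1.congr_of_eventuallyEq ?_
    filter_upwards [isOpen_Ioo.mem_nhds hx] with u hu
    rw [(Summable.of_norm_bounded (sg _) fun i => B0 i t u hu).tsum_eq_zero_add]
    simp [mul_add]
  have dt : ∀ t, ∀ x ∈ Ioo (-R) R, HasDerivAt (fun s => y s x)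
      (∑' i, g (i + 1) t * (x ^ (2 * i + 1) / (2 * i + 1)!)) t := fun t x hx =>
    hasDerivAt_tsum (sg _) (fun i s => (g1 i s).mul_const _) (fun i s => B2 i s x hx)
      (.of_norm_bounded (sg _) fun i => B1 i 0 x hx) t
  have yc : ContinuousOn (fun p : ℝ × ℝ => y p.1 p.2) (Icc 0 T ×ˢ Icc 0 L) :=
    continuousOn_tsum (fun i => by have := gc i; fun_prop) (sg _)
      fun i p hp => B1 i p.1 p.2 (sub _ hp.2)
  have yb : ∀ t, ∀ x ∈ Icc 0 L, |y t x| ≤ A * R * 2 := fun t x hx =>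
    tsum_of_norm_bounded (hasSum_geometric_two.mul_left _) fun i => B1 i t x (sub _ hx)
  have hLm : L ∈ Icc 0 L := ⟨hL.le, le_rfl⟩
  refine ⟨y, ⟨yc.mono sdiff_subset, ⟨_, fun t _ => yb t⟩, ⟨_, _, fun t _ x hx =>
    ⟨dx t x (sub x (Ioo_subset_Icc_self hx)), dxx t x (sub x (Ioo_subset_Icc_self hx)),
      dt t x (sub x (Ioo_subset_Icc_self hx))⟩⟩, fun t _ => by simp [hy], fun _ _ => rfl,
      fun x _ => by simp [hy, g2]⟩, fun t _ => (dt t L (sub L hLm)).continuousAt.continuousWithinAt,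
      fun t => (dx t 0 z0).congr_deriv ?_, fun t => yb t L hLm⟩
  rw [tsum_eq_single 0 fun i hi => by simp [hi]]; simp

theorem q1 {L T : ℝ} (hL : 0 < L) (hT : 0 < T) {K : ℝ≥0} {w : ℝ → ℝ}
    (hw : LipschitzOnWith K w (Icc 0 T)) (h0 : w 0 = 0) : ∃ C : ℝ, 0 < C ∧ ∀ ε : ℝ, 0 < ε →
      cost L T w ε ≤ ENNReal.ofReal (C * Real.exp (C * ε⁻¹)) := by
  obtain ⟨w', hw', he⟩ := hw.extend_real
  set b := 128 * L ^ 2 with hb
  have hb0 : 0 < b := by positivity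
  have p0 : 0 < rho 0 0 (T / b) := by
    simpa [rho] using expNegInvGlue.pos_of_pos (div_pos hT hb0)
  set C1 := K * T * T * (8 ^ 4 / (b * rho 0 0 (T / b))) * (2 * L) * 2 with hC1
  have c1 : 0 ≤ C1 := by positivity
  have c2 : 0 ≤ 7 * (K * b) := by positivity
  refine ⟨C1 + 7 * (K * b) + 1, by positivity, fun ε hε => ?_⟩
  set m := ⌈K * b / ε⌉₊ with hm
  obtain ⟨g, g1, g2, g3, g4⟩ := smooth hT hb0 m hw' (by rw [← he ⟨le_rfl, hT.le⟩, h0])
  obtain ⟨y, y1, y2, y3, y4⟩ := tych (T := T) hL (q := 8 / b) (by positivity)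
    (by rw [hb]; field_simp; norm_num) g1 g2 g4
  have m1 : K * (b / (m + 1)) ≤ ε := by
    have := Nat.le_ceil (K * b / ε)
    rw [← hm, div_le_iff₀ hε] at this
    rw [← mul_div_assoc, div_le_iff₀ (by positivity)]; linarith
  have m2 : (8 : ℝ) ^ (m + 3) ≤ 8 ^ 4 * Real.exp ((C1 + 7 * (K * b) + 1) * ε⁻¹) := by
    have a1 := Nat.ceil_lt_add_one (a := K * b / ε) (by positivity)
    rw [← hm] at a1
    have a2 : (8 : ℝ) ≤ Real.exp 7 := by linarith [Real.add_one_le_exp 7]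
    rcases Nat.eq_zero_or_pos m with h | h
    · rw [h]
      have := Real.one_le_exp (x := (C1 + 7 * (K * b) + 1) * ε⁻¹) (by positivity)
      linarith
    obtain ⟨n, hn⟩ := Nat.exists_eq_add_of_lt h
    rw [hn, show 0 + n + 1 + 3 = 4 + n by ring, pow_add]
    refine mul_le_mul_of_nonneg_left ((pow_le_pow_left₀ (by norm_num) a2 n).trans ?_) (by norm_num)
    rw [← Real.exp_nat_mul, Real.exp_le_exp]
    rw [hn, div_eq_mul_inv] at a1
    push_cast at a1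
    have := inv_pos.2 hε
    nlinarith
  refine iInf_le_of_le (fun t => y t L) (iInf_le_of_le y2 (iInf_le_of_le ⟨y, y1, g 0,
    fun t _ => (g1 0 t).continuousAt.continuousWithinAt, fun t _ => (y3 t).hasDerivWithinAt,
    fun t ht => by rw [he ht]; exact (g3 t ht).trans m1⟩ (iSup₂_le fun t _ => ?_)))
  rw [← ofReal_norm]
  refine ENNReal.ofReal_le_ofReal ((y4 t).trans ?_)
  have := Real.exp_pos ((C1 + 7 * (K * b) + 1) * ε⁻¹)
  calc _ ≤ K * T * T * (8 ^ 4 * Real.exp ((C1 + 7 * (K * b) + 1) * ε⁻¹) / (b * rho 0 0 (T / b))) *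
        (2 * L) * 2 := by gcongr
    _ = C1 * Real.exp ((C1 + 7 * (K * b) + 1) * ε⁻¹) := by rw [hC1]; ring
    _ ≤ _ := by gcongr; linarith

theorem uniq {L T : ℝ} (hL : 0 < L) (hT : 0 < T) {v : ℝ → ℝ} {y y' : ℝ → ℝ → ℝ}
    (h : IsSol L T v y) (h' : IsSol L T v y') {t x : ℝ} (ht : t ∈ Ioc 0 T) (hx : x ∈ Icc 0 L) :
    y t x ≤ y' t x := by
  have hd : IsSol L T (fun _ => 0) fun t x => y t x - y' t x := by
    obtain ⟨M, hM⟩ := h.bdd
    obtain ⟨M', hM'⟩ := h'.bdd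
    obtain ⟨a, z, hp⟩ := h.pde
    obtain ⟨a', z', hp'⟩ := h'.pde
    exact ⟨h.cont.sub h'.cont, ⟨M + M', fun t ht x hx =>
      (abs_sub _ _).trans (add_le_add (hM t ht x hx) (hM' t ht x hx))⟩,
      ⟨fun t x => a t x - a' t x, fun t x => z t x - z' t x, fun t ht x hx =>
        ⟨(hp t ht x hx).1.fun_sub (hp' t ht x hx).1, (hp t ht x hx).2.1.fun_sub (hp' t ht x hx).2.1,
          (hp t ht x hx).2.2.fun_sub (hp' t ht x hx).2.2⟩⟩,
      fun t ht => by rw [h.left t ht, h'.left t ht, sub_self],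
      fun t ht => by rw [h.right t ht, h'.right t ht, sub_self],
      fun x hx => by rw [h.init x hx, h'.init x hx, sub_self]⟩
  have hm : ∀ s ∈ Ioc 0 T, (s, x) ∈ (Icc 0 T ×ˢ Icc 0 L) \ {((0 : ℝ), L)} := fun s hs =>
    ⟨⟨Ioc_subset_Icc_self hs, hx⟩, fun h0 => hs.1.ne' (congrArg Prod.fst h0)⟩
  have c : ContinuousOn (fun s => y s x - y' s x) (Ioc 0 T) :=
    hd.cont.comp (f := fun s => (s, x)) (by fun_prop) hm
  rw [← sub_nonpos]
  refine ContinuousWithinAt.closure_le (s := Ioo 0 T) (f := fun s => y s x - y' s x)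
    (g := fun _ => (0 : ℝ)) (by rw [closure_Ioo hT.ne]; exact Ioc_subset_Icc_self ht)
    ((c t ht).mono Ioo_subset_Ioc_self) continuousWithinAt_const fun s hs => ?_
  simpa using comp hL le_rfl one_pos hd (fun _ _ => le_rfl) hs hx

end Pool.Agent.H94.HT
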