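import Mathlib

set_option autoImplicit false

namespace Pool.Agent.H94.HilbGen

open MeasureTheory Set Filter
open scoped Topology ENNReal

lemma taylor2 (n : ℕ) : ∃ K : ℝ, 0 ≤ K ∧ ∀ x d : ℝ,
    |(x + d) ^ (n + 2) - x ^ (n + 2) - (n + 2) * x ^ (n + 1) * d| ≤ K * d ^ 2 * (|x| + |d|) ^ n := by
  induction n with
  | zero =>
    refine ⟨1, zero_le_one, fun x d => ?_⟩
    have : (x + d) ^ (0 + 2) - x ^ (0 + 2) - (((0 : ℕ) : ℝ) + 2) * x ^ (0 + 1) * d = d ^ 2 := by
      push_cast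
      ring
    rw [this, abs_of_nonneg (sq_nonneg d)]
    simp
  | succ n ih =>
    obtain ⟨K, hK, h⟩ := ih
    refine ⟨K + (n + 2), by positivity, fun x d => ?_⟩
    have e : (x + d) ^ (n + 1 + 2) - x ^ (n + 1 + 2) - (((n + 1 : ℕ) : ℝ) + 2) * x ^ (n + 1 + 1) * d
        = (x + d) * ((x + d) ^ (n + 2) - x ^ (n + 2) - (n + 2) * x ^ (n + 1) * d)
          + (n + 2) * d ^ 2 * x ^ (n + 1) := by
      push_cast
      ring
    rw [e]
    refine (abs_add_le _ _).trans ?_
    have h1 : |(x + d) * ((x + d) ^ (n + 2) - x ^ (n + 2) - (n + 2) * x ^ (n + 1) * d)|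
        ≤ (|x| + |d|) * (K * d ^ 2 * (|x| + |d|) ^ n) := by
      rw [abs_mul]
      exact mul_le_mul (abs_add_le _ _) (h x d) (abs_nonneg _) (by positivity)
    have h2 : |((n : ℝ) + 2) * d ^ 2 * x ^ (n + 1)| ≤ (n + 2) * d ^ 2 * (|x| + |d|) ^ (n + 1) := by
      rw [abs_mul, abs_of_nonneg (by positivity : (0 : ℝ) ≤ (n + 2) * d ^ 2), abs_pow]
      have : |x| ≤ |x| + |d| := by linarith [abs_nonneg d]
      gcongr
    calc _ ≤ (|x| + |d|) * (K * d ^ 2 * (|x| + |d|) ^ n)
          + (n + 2) * d ^ 2 * (|x| + |d|) ^ (n + 1) := add_le_add h1 h2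
      _ = _ := by ring

lemma young (k : ℕ) (u v : ℝ) (hu : 0 ≤ u) (hv : 0 ≤ v) :
    u ^ (k + 1) * v ≤ u ^ (k + 2) + v ^ (k + 2) := by
  rcases le_total u v with h | h
  · have h1 : u ^ (k + 1) * v ≤ v ^ (k + 1) * v := by gcongr
    have h2 : 0 ≤ u ^ (k + 2) := by positivity
    calc u ^ (k + 1) * v ≤ v ^ (k + 1) * v := h1
      _ = v ^ (k + 2) := by ring
      _ ≤ _ := by linarith
  · have h1 : u ^ (k + 1) * v ≤ u ^ (k + 1) * u := by gcongr
    have h2 : 0 ≤ v ^ (k + 2) := by positivity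
    calc u ^ (k + 1) * v ≤ u ^ (k + 1) * u := h1
      _ = u ^ (k + 2) := by ring
      _ ≤ _ := by linarith

lemma pointwise (k : ℕ) : ∃ ρ : ℝ, 0 < ρ ∧ ∀ a b x y g : ℝ, 0 < a → 0 < b → |g| ≤ 1 →
    (x + ρ * g * y) ^ (2 * (k + 2)) ≤ (1 + b / (2 * a)) * x ^ (2 * (k + 2))
      + (2 * (k + 2) * ρ) * ((x ^ (2 * k + 3) * y) * g)
      + (a ^ (k + 1) / (2 * b ^ (k + 1)) + 1) * y ^ (2 * (k + 2)) := by
  obtain ⟨K, hK, h⟩ := taylor2 (2 * (k + 1))
  set K' := K * 2 ^ (2 * (k + 1) - 1) with hK'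
  have hK'0 : 0 ≤ K' := by positivity
  set ρ := 1 / (2 * K' + 1) with hρ
  have hρ0 : 0 < ρ := by positivity
  have hρ1 : ρ ≤ 1 := by
    rw [hρ, div_le_one (by positivity)]
    linarith
  have hρ2 : K' * ρ ≤ 1 / 2 := by
    rw [hρ, mul_one_div, div_le_iff₀ (by positivity)]
    linarith
  refine ⟨ρ, hρ0, fun a b x y g ha hb hg => ?_⟩
  set d := ρ * g * y with hd
  have h1 := (le_abs_self _).trans (h x d)
  have hd1 : |d| ≤ ρ * |y| := by
    rw [hd, abs_mul, abs_mul, abs_of_pos hρ0]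
    have := abs_nonneg y
    have h3 : ρ * |g| ≤ ρ := by nlinarith
    nlinarith
  have hd2 : |d| ≤ |y| := hd1.trans (by nlinarith [abs_nonneg y])
  have hd3 : d ^ 2 ≤ ρ * y ^ 2 := by
    have h3 : |d| ^ 2 ≤ (ρ * |y|) * |y| := by
      rw [sq]
      exact mul_le_mul hd1 hd2 (abs_nonneg _) (by positivity)
    rw [sq_abs, mul_assoc, abs_mul_abs_self] at h3
    rw [sq y]
    exact h3
  have h2 : (|x| + |d|) ^ (2 * (k + 1))
      ≤ 2 ^ (2 * (k + 1) - 1) * ((x ^ 2) ^ (k + 1) + (y ^ 2) ^ (k + 1)) := by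
    refine (add_pow_le (abs_nonneg x) (abs_nonneg d) _).trans ?_
    have e1 : |x| ^ (2 * (k + 1)) = (x ^ 2) ^ (k + 1) := by rw [pow_mul, sq_abs]
    have e2 : |d| ^ (2 * (k + 1)) ≤ (y ^ 2) ^ (k + 1) := by
      rw [← sq_abs y, ← pow_mul]
      gcongr
    rw [e1]
    gcongr
  have h3 : K * d ^ 2 * (|x| + |d|) ^ (2 * (k + 1))
      ≤ 1 / 2 * ((x ^ 2) ^ (k + 1) * y ^ 2 + (y ^ 2) ^ (k + 2)) := by
    calc K * d ^ 2 * (|x| + |d|) ^ (2 * (k + 1))
        ≤ K * (ρ * y ^ 2) * (2 ^ (2 * (k + 1) - 1) * ((x ^ 2) ^ (k + 1) + (y ^ 2) ^ (k + 1))) := by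
          gcongr
      _ = (K' * ρ) * ((x ^ 2) ^ (k + 1) * y ^ 2 + (y ^ 2) ^ (k + 2)) := by
          rw [hK']
          ring
      _ ≤ _ := by gcongr
  have h4 : (x ^ 2) ^ (k + 1) * y ^ 2
      ≤ b / a * (x ^ 2) ^ (k + 2) + a ^ (k + 1) / b ^ (k + 1) * (y ^ 2) ^ (k + 2) := by
    have h5 := young k (x ^ 2 / a) (y ^ 2 / b) (by positivity) (by positivity)
    have h6 := mul_le_mul_of_nonneg_left h5 (by positivity : 0 ≤ a ^ (k + 1) * b)
    calc (x ^ 2) ^ (k + 1) * y ^ 2 = a ^ (k + 1) * b * ((x ^ 2 / a) ^ (k + 1) * (y ^ 2 / b)) := by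
          rw [div_pow]
          field_simp
      _ ≤ _ := h6
      _ = _ := by
          rw [div_pow, div_pow]
          field_simp
          ring
  have e1 : 2 * (k + 1) + 2 = 2 * (k + 2) := by ring
  have e2 : 2 * (k + 1) + 1 = 2 * k + 3 := by ring
  rw [e1, e2] at h1
  have e3 : (((2 * (k + 1) : ℕ) : ℝ) + 2) * x ^ (2 * k + 3) * d
      = (2 * (k + 2) * ρ) * ((x ^ (2 * k + 3) * y) * g) := by
    rw [hd]
    push_cast
    ring
  rw [e3] at h1
  rw [pow_mul x 2 (k + 2)] at h1 ⊢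
  rw [pow_mul y 2 (k + 2)]
  have h7 : 0 ≤ (y ^ 2) ^ (k + 2) := by positivity
  have e4 : (1 + b / (2 * a)) * (x ^ 2) ^ (k + 2)
      = (x ^ 2) ^ (k + 2) + 1 / 2 * (b / a * (x ^ 2) ^ (k + 2)) := by
    field_simp
  have e5 : (a ^ (k + 1) / (2 * b ^ (k + 1)) + 1) * (y ^ 2) ^ (k + 2)
      = 1 / 2 * (a ^ (k + 1) / b ^ (k + 1) * (y ^ 2) ^ (k + 2)) + (y ^ 2) ^ (k + 2) := by
    field_simp
  rw [e4, e5]
  linarith

/-- bounded and measurable -/
def BM {α : Type} (m : MeasurableSpace α) (f : α → ℝ) : Prop :=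
  Measurable[m] f ∧ ∃ C, ∀ x, |f x| ≤ C

section BM
variable {α : Type} {m : MeasurableSpace α}

lemma BM.const (c : ℝ) : BM m (fun _ => c) := ⟨measurable_const, |c|, fun _ => le_rfl⟩

lemma BM.add {f g : α → ℝ} (hf : BM m f) (hg : BM m g) : BM m (fun x => f x + g x) := by
  obtain ⟨h1, C, hC⟩ := hf
  obtain ⟨h2, D, hD⟩ := hg
  exact ⟨h1.add h2, C + D, fun x => (abs_add_le _ _).trans (add_le_add (hC x) (hD x))⟩

lemma BM.mul {f g : α → ℝ} (hf : BM m f) (hg : BM m g) : BM m (fun x => f x * g x) := by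
  obtain ⟨h1, C, hC⟩ := hf
  obtain ⟨h2, D, hD⟩ := hg
  refine ⟨h1.mul h2, C * D, fun x => ?_⟩
  rw [abs_mul]
  exact mul_le_mul (hC x) (hD x) (abs_nonneg _) ((abs_nonneg _).trans (hC x))

lemma BM.pow {f : α → ℝ} (hf : BM m f) (n : ℕ) : BM m (fun x => f x ^ n) := by
  induction n with
  | zero => simpa using BM.const 1
  | succ n ih => simpa [pow_succ] using ih.mul hf

lemma BM.sum {κ : Type} (s : Finset κ) (f : κ → α → ℝ) (hf : ∀ i ∈ s, BM m (f i)) :
    BM m (fun x => ∑ i ∈ s, f i x) := by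
  classical
  induction s using Finset.induction_on with
  | empty => simpa using BM.const 0
  | insert i s hi ih =>
    simp only [Finset.sum_insert hi]
    exact (hf i (Finset.mem_insert_self _ _)).add
      (ih fun j hj => hf j (Finset.mem_insert_of_mem hj))

lemma BM.prod {κ : Type} (s : Finset κ) (f : κ → α → ℝ) (hf : ∀ i ∈ s, BM m (f i)) :
    BM m (fun x => ∏ i ∈ s, f i x) := by
  classical
  induction s using Finset.induction_on with
  | empty => simpa using BM.const 1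
  | insert i s hi ih =>
    simp only [Finset.prod_insert hi]
    exact (hf i (Finset.mem_insert_self _ _)).mul
      (ih fun j hj => hf j (Finset.mem_insert_of_mem hj))

lemma BM.mono {m' : MeasurableSpace α} {f : α → ℝ} (hf : BM m f) (h : m ≤ m') : BM m' f :=
  ⟨hf.1.mono h le_rfl, hf.2⟩

lemma BM.indicator {s : Set α} (hs : MeasurableSet[m] s) :
    BM m (s.indicator fun _ => (1 : ℝ)) := by
  refine ⟨measurable_const.indicator hs, 1, fun x => ?_⟩
  by_cases hx : x ∈ s <;> simp [hx]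

lemma BM.memLp {f : α → ℝ} (hf : BM m f) (μ : Measure α) [IsFiniteMeasure μ] (p : ℝ≥0∞) :
    MemLp f p μ := by
  obtain ⟨h1, C, hC⟩ := hf
  exact MemLp.of_bound h1.aestronglyMeasurable C (Eventually.of_forall hC)

lemma BM.integrable {f : α → ℝ} (hf : BM m f) (μ : Measure α) [IsFiniteMeasure μ] :
    Integrable f μ := memLp_one_iff_integrable.1 (hf.memLp μ 1)

end BM

section main
variable {α : Type} {m0 : MeasurableSpace α} (μ : Measure α) {ι : Type} [LinearOrder ι]
  (B : ι → Set α)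

abbrev F (Λ : Set ι) : MeasurableSpace α := MeasurableSpace.generateFrom (B '' Λ)

noncomputable def c (i : ι) : α → ℝ := fun x =>
  max 0 (min 1 (μ[(B i).indicator fun _ => (1 : ℝ) | F B (Iio i)] x))

noncomputable def g (i : ι) : α → ℝ := fun x => (B i).indicator (fun _ => (1 : ℝ)) x + -1 * c μ B i x

noncomputable def W (s : Finset ι) : α → ℝ := fun x => ∏ i ∈ s, g μ B i x

omit [LinearOrder ι] in
lemma F_mono {Λ Λ' : Set ι} (h : Λ ⊆ Λ') : F B Λ ≤ F B Λ' :=
  MeasurableSpace.generateFrom_mono (image_mono h)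

omit [LinearOrder ι] in
lemma F_le (hB : ∀ i, MeasurableSet (B i)) (Λ : Set ι) : F B Λ ≤ m0 := by
  refine MeasurableSpace.generateFrom_le ?_
  rintro _ ⟨i, _, rfl⟩
  exact hB i

omit [LinearOrder ι] in
lemma B_meas {Λ : Set ι} {i : ι} (hi : i ∈ Λ) : MeasurableSet[F B Λ] (B i) :=
  MeasurableSpace.measurableSet_generateFrom ⟨i, hi, rfl⟩

lemma c_BM (i : ι) : BM (F B (Iio i)) (c μ B i) := by
  refine ⟨?_, 1, fun x => ?_⟩
  · exact measurable_const.max (measurable_const.min stronglyMeasurable_condExp.measurable)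
  · rw [abs_of_nonneg (le_max_left _ _)]
    exact max_le zero_le_one (min_le_left _ _)

lemma g_abs (i : ι) (x : α) : |g μ B i x| ≤ 1 := by
  have h1 : 0 ≤ c μ B i x := le_max_left _ _
  have h2 : c μ B i x ≤ 1 := max_le zero_le_one (min_le_left _ _)
  rw [abs_le, g]
  by_cases hx : x ∈ B i
  · simp only [indicator_of_mem hx]
    constructor <;> linarith
  · simp only [indicator_of_notMem hx]
    constructor <;> linarith

lemma g_BM {Λ : Set ι} (hΛ : IsLowerSet Λ) {i : ι} (hi : i ∈ Λ) : BM (F B Λ) (g μ B i) :=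
  (BM.indicator (B_meas B hi)).add ((BM.const _).mul
    ((c_BM μ B i).mono (F_mono B fun _ hj => hΛ (le_of_lt hj) hi)))

lemma W_BM {Λ : Set ι} (hΛ : IsLowerSet Λ) {s : Finset ι} (hs : ∀ i ∈ s, i ∈ Λ) :
    BM (F B Λ) (W μ B s) :=
  BM.prod s _ fun i hi => g_BM μ B hΛ (hs i hi)

variable [IsFiniteMeasure μ]

lemma c_ae (hB : ∀ i, MeasurableSet (B i)) (i : ι) :
    c μ B i =ᵐ[μ] μ[(B i).indicator fun _ => (1 : ℝ) | F B (Iio i)] := by
  have hi : Integrable ((B i).indicator fun _ => (1 : ℝ)) μ := (BM.indicator (hB i)).integrable μ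
  have h1 : 0 ≤ᵐ[μ] μ[(B i).indicator fun _ => (1 : ℝ) | F B (Iio i)] :=
    condExp_nonneg (Eventually.of_forall fun x => indicator_nonneg (fun _ _ => zero_le_one) x)
  have h2 := condExp_mono (m := F B (Iio i)) hi (integrable_const (1 : ℝ))
    (Eventually.of_forall fun x => by by_cases hx : x ∈ B i <;> simp [hx])
  rw [condExp_const (F_le B hB _)] at h2
  filter_upwards [h1, h2] with x hx1 hx2
  rw [c, min_eq_right hx2]
  exact max_eq_right hx1

lemma orth (hB : ∀ i, MeasurableSet (B i)) (i : ι) {f : α → ℝ} (hf : BM (F B (Iio i)) f) :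
    ∫ x, f x * g μ B i x ∂μ = 0 := by
  have hle := F_le B hB (Iio i)
  have hf0 : BM m0 f := hf.mono hle
  have hi : BM m0 ((B i).indicator fun _ => (1 : ℝ)) := BM.indicator (hB i)
  have hc : BM m0 (c μ B i) := (c_BM μ B i).mono hle
  have h1 := condExp_mul_of_stronglyMeasurable_left (m := F B (Iio i)) (μ := μ)
    hf.1.stronglyMeasurable ((hf0.mul hi).integrable μ) (hi.integrable μ)
  have h2 : ∫ x, f x * (B i).indicator (fun _ => (1 : ℝ)) x ∂μ = ∫ x, f x * c μ B i x ∂μ := by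
    have h3 := integral_condExp (μ := μ) (f := f * (B i).indicator (fun _ => (1 : ℝ))) hle
    refine h3.symm.trans (integral_congr_ae ?_)
    filter_upwards [h1, c_ae μ B hB i] with x hx1 hx2
    rw [hx1, hx2]
    rfl
  have h4 : (fun x => f x * g μ B i x)
      = fun x => f x * (B i).indicator (fun _ => (1 : ℝ)) x - f x * c μ B i x := by
    funext x
    rw [g]
    ring
  rw [h4, integral_sub ((hf0.mul hi).integrable μ) ((hf0.mul hc).integrable μ), h2, sub_self]

lemma moment (hB : ∀ i, MeasurableSet (B i)) (k : ℕ) : ∃ ρ : ℝ, 0 < ρ ∧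
    ∀ (Λ : Finset ι) (a : Finset ι → ℝ) (A : ℝ), ∑ s ∈ Λ.powerset, a s ^ 2 < A →
      ∫ x, (∑ s ∈ Λ.powerset, a s * (ρ ^ s.card * W μ B s x)) ^ (2 * (k + 2)) ∂μ
        ≤ μ.real univ * A ^ (k + 2) := by
  obtain ⟨ρ, hρ, hpt⟩ := pointwise k
  refine ⟨ρ, hρ, fun Λ => ?_⟩
  induction Λ using Finset.induction_on_max with
  | empty =>
    intro a A hA
    simp only [Finset.powerset_empty, Finset.sum_singleton, Finset.card_empty, pow_zero, W,
      Finset.prod_empty, mul_one, integral_const, smul_eq_mul] at hA ⊢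
    rw [pow_mul]
    gcongr
  | insert i Λ hi ih =>
    intro a A hA
    have hiΛ : i ∉ Λ := fun h => lt_irrefl _ (hi i h)
    rw [Finset.sum_powerset_insert hiΛ] at hA
    set S1 := ∑ s ∈ Λ.powerset, a s ^ 2 with hS1
    set S2 := ∑ s ∈ Λ.powerset, a (insert i s) ^ 2 with hS2
    have hS1' : 0 ≤ S1 := Finset.sum_nonneg fun _ _ => sq_nonneg _
    have hS2' : 0 ≤ S2 := Finset.sum_nonneg fun _ _ => sq_nonneg _
    set a' := S1 + (A - S1 - S2) / 2 with ha'
    set b' := S2 + (A - S1 - S2) / 2 with hb'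
    have ha0 : 0 < a' := by linarith
    have hb0 : 0 < b' := by linarith
    have hx := ih a a' (by linarith)
    have hy := ih (fun s => a (insert i s)) b' (by linarith)
    set X : α → ℝ := fun x => ∑ s ∈ Λ.powerset, a s * (ρ ^ s.card * W μ B s x) with hX
    set Y : α → ℝ := fun x => ∑ s ∈ Λ.powerset, a (insert i s) * (ρ ^ s.card * W μ B s x) with hY
    have hBM : ∀ b : Finset ι → ℝ, BM (F B (Iio i))
        (fun x => ∑ s ∈ Λ.powerset, b s * (ρ ^ s.card * W μ B s x)) := by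
      intro b
      refine BM.sum _ _ fun s hs => (BM.const _).mul ((BM.const _).mul ?_)
      exact W_BM μ B (isLowerSet_Iio i) fun j hj => hi j (Finset.mem_powerset.1 hs hj)
    have hXm : BM (F B (Iio i)) X := hBM _
    have hYm : BM (F B (Iio i)) Y := hBM _
    have hle := F_le B hB (Iio i)
    have hX0 : BM m0 X := hXm.mono hle
    have hY0 : BM m0 Y := hYm.mono hle
    have hg0 : BM m0 (g μ B i) := (g_BM μ B isLowerSet_univ (mem_univ i)).mono (F_le B hB _)
    have e : ∀ x, ∑ s ∈ (insert i Λ).powerset, a s * (ρ ^ s.card * W μ B s x)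
        = X x + ρ * g μ B i x * Y x := by
      intro x
      rw [Finset.sum_powerset_insert hiΛ, hY]
      simp only [Finset.mul_sum]
      congr 1
      refine Finset.sum_congr rfl fun s hs => ?_
      have his : i ∉ s := fun h => hiΛ (Finset.mem_powerset.1 hs h)
      rw [Finset.card_insert_of_notMem his, W, Finset.prod_insert his, W]
      ring
    simp only [e]
    have i1 := ((BM.const (1 + b' / (2 * a'))).mul (hX0.pow (2 * (k + 2)))).integrable μ
    have i2 := ((BM.const (2 * (k + 2) * ρ)).mul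
      (((hX0.pow (2 * k + 3)).mul hY0).mul hg0)).integrable μ
    have i3 := ((BM.const (a' ^ (k + 1) / (2 * b' ^ (k + 1)) + 1)).mul
      (hY0.pow (2 * (k + 2)))).integrable μ
    have i0 := ((hX0.add (((BM.const ρ).mul hg0).mul hY0)).pow (2 * (k + 2))).integrable μ
    have h1 := integral_mono i0 ((i1.add i2).add i3)
      (fun x => hpt a' b' (X x) (Y x) (g μ B i x) ha0 hb0 (g_abs μ B i x))
    refine h1.trans ?_
    rw [integral_add' (i1.add i2) i3, integral_add' i1 i2, integral_const_mul, integral_const_mul,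
      integral_const_mul, orth μ B hB i ((hXm.pow (2 * k + 3)).mul hYm), mul_zero, add_zero]
    have hM : 0 ≤ μ.real univ := measureReal_nonneg
    have hA' : A = a' + b' := by
      rw [ha', hb']
      ring
    have h2 : a' ^ (k + 2) + a' ^ (k + 1) * b' + b' ^ (k + 2) ≤ A ^ (k + 2) := by
      have h3 := pow_add_pow_le ha0.le hb0.le (n := k + 1) (by omega)
      have h4 : 0 ≤ b' ^ (k + 1) * a' := by positivity
      calc a' ^ (k + 2) + a' ^ (k + 1) * b' + b' ^ (k + 2)
          ≤ (a' ^ (k + 1) + b' ^ (k + 1)) * (a' + b') := by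
            have : (a' ^ (k + 1) + b' ^ (k + 1)) * (a' + b') =
              a' ^ (k + 2) + a' ^ (k + 1) * b' + b' ^ (k + 2) + b' ^ (k + 1) * a' := by ring
            linarith
        _ ≤ (a' + b') ^ (k + 1) * (a' + b') := by gcongr
        _ = _ := by rw [hA']; ring
    calc _ ≤ (1 + b' / (2 * a')) * (μ.real univ * a' ^ (k + 2))
          + (a' ^ (k + 1) / (2 * b' ^ (k + 1)) + 1) * (μ.real univ * b' ^ (k + 2)) := by gcongr
      _ = μ.real univ * (a' ^ (k + 2) + a' ^ (k + 1) * b' + b' ^ (k + 2)) := by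
          field_simp
          ring
      _ ≤ _ := by gcongr

variable (p : ℝ≥0∞) [Fact (1 ≤ p)]

noncomputable def wL (hB : ∀ i, MeasurableSet (B i)) (s : Finset ι) : Lp ℝ p μ :=
  (((W_BM μ B isLowerSet_univ (s := s) fun i _ => mem_univ i).mono (F_le B hB _)).memLp μ p).toLp _

omit [Fact (1 ≤ p)] in
lemma wL_ae (hB : ∀ i, MeasurableSet (B i)) (s : Finset ι) : wL μ B p hB s =ᵐ[μ] W μ B s :=
  MemLp.coeFn_toLp _

noncomputable def V (hB : ∀ i, MeasurableSet (B i)) (Λ : Set ι) : Submodule ℝ (Lp ℝ p μ) :=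
  (Submodule.span ℝ (wL μ B p hB '' {s | ∀ i ∈ s, i ∈ Λ})).topologicalClosure

lemma V_closed (hB : ∀ i, MeasurableSet (B i)) (Λ : Set ι) :
    IsClosed (V μ B p hB Λ : Set (Lp ℝ p μ)) := Submodule.isClosed_topologicalClosure _

lemma V_mono (hB : ∀ i, MeasurableSet (B i)) {Λ Λ' : Set ι} (h : Λ ⊆ Λ') :
    V μ B p hB Λ ≤ V μ B p hB Λ' :=
  Submodule.topologicalClosure_mono (Submodule.span_mono
    (image_mono fun _ hs i hi => h (hs i hi)))

lemma wL_mem (hB : ∀ i, MeasurableSet (B i)) {Λ : Set ι} {s : Finset ι} (hs : ∀ i ∈ s, i ∈ Λ) :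
    wL μ B p hB s ∈ V μ B p hB Λ :=
  Submodule.le_topologicalClosure _ (Submodule.subset_span ⟨s, hs, rfl⟩)

noncomputable def mulG (hB : ∀ i, MeasurableSet (B i)) (i : ι) : Lp ℝ p μ →L[ℝ] Lp ℝ p μ :=
  (ContinuousLinearMap.mul ℝ ℝ).holderL μ ∞ p p
    ((((g_BM μ B isLowerSet_univ (mem_univ i)).mono (F_le B hB _)).memLp μ ∞).toLp _)

lemma mulG_ae (hB : ∀ i, MeasurableSet (B i)) (i : ι) (f : Lp ℝ p μ) :
    mulG μ B p hB i f =ᵐ[μ] fun x => g μ B i x * f x := by
  have h1 := (ContinuousLinearMap.mul ℝ ℝ).coeFn_holder (r := p)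
    ((((g_BM μ B isLowerSet_univ (mem_univ i)).mono (F_le B hB _)).memLp μ ∞).toLp _) f
  have h2 := MemLp.coeFn_toLp
    (((g_BM μ B isLowerSet_univ (mem_univ i)).mono (F_le B hB _)).memLp μ ∞)
  filter_upwards [h1, h2] with x hx1 hx2
  rw [hx2] at hx1
  exact hx1

lemma mulG_mem (hB : ∀ i, MeasurableSet (B i)) {Λ : Set ι} (hΛ : IsLowerSet Λ) {i : ι}
    (hi : i ∈ Λ) {f : Lp ℝ p μ} (hf : f ∈ V μ B p hB (Iio i)) :
    mulG μ B p hB i f ∈ V μ B p hB Λ := by
  have h : V μ B p hB (Iio i) ≤ (V μ B p hB Λ).comap (mulG μ B p hB i).toLinearMap := by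
    refine Submodule.topologicalClosure_minimal _ ?_ ?_
    · rw [Submodule.span_le]
      rintro _ ⟨s, hs, rfl⟩
      have his : i ∉ s := fun h => lt_irrefl _ (show i < i from hs i h)
      have e : mulG μ B p hB i (wL μ B p hB s) = wL μ B p hB (insert i s) := by
        apply Lp.ext
        filter_upwards [mulG_ae μ B p hB i (wL μ B p hB s), wL_ae μ B p hB s,
          wL_ae μ B p hB (insert i s)] with x h1 h2 h3
        rw [h1, h2, h3, W, W, Finset.prod_insert his]
      change mulG μ B p hB i (wL μ B p hB s) ∈ V μ B p hB Λ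
      rw [e]
      refine wL_mem μ B p hB fun j hj => ?_
      rcases Finset.mem_insert.1 hj with rfl | hj
      · exact hi
      · exact hΛ (le_of_lt (hs j hj)) hi
    · exact (V_closed μ B p hB Λ).preimage (mulG μ B p hB i).continuous
  exact h hf

def Q (hB : ∀ i, MeasurableSet (B i)) (Λ : Set ι) : Prop :=
  ∀ f : Lp ℝ p μ, AEStronglyMeasurable[F B Λ] f μ → f ∈ V μ B p hB Λ

lemma Q_step (hp : p ≠ ∞) (hB : ∀ i, MeasurableSet (B i)) {Λ : Set ι} (hΛ : IsLowerSet Λ)
    (ih : ∀ i ∈ Λ, Q μ B p hB (Iio i)) : Q μ B p hB Λ := by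
  have hle := F_le B hB Λ
  have hsub : ∀ i ∈ Λ, Iio i ⊆ Λ := fun i hi _ hj => hΛ (le_of_lt hj) hi
  let P : Set (Set α) := {u | ∃ i ∈ Λ, ∃ t, MeasurableSet[F B (Iio i)] t ∧ u = t ∩ B i}
  have hgen : F B Λ = MeasurableSpace.generateFrom P := by
    apply le_antisymm
    · refine MeasurableSpace.generateFrom_mono ?_
      rintro _ ⟨i, hi, rfl⟩
      exact ⟨i, hi, univ, MeasurableSet.univ, (univ_inter _).symm⟩
    · refine MeasurableSpace.generateFrom_le ?_
      rintro _ ⟨i, hi, t, ht, rfl⟩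
      exact (F_mono B (hsub i hi) _ ht).inter (B_meas B hi)
  have hpi : IsPiSystem P := by
    rintro _ ⟨i, hi, t, ht, rfl⟩ _ ⟨j, hj, t', ht', rfl⟩ _
    rcases lt_trichotomy i j with h | h | h
    · refine ⟨j, hj, (t ∩ B i) ∩ t', ?_, by rw [inter_assoc (t ∩ B i)]⟩
      exact ((F_mono B (Iio_subset_Iio h.le) _ ht).inter (B_meas B h)).inter ht'
    · subst h
      refine ⟨i, hi, t ∩ t', ht.inter ht', ?_⟩
      ext x
      simp only [mem_inter_iff]
      tauto
    · refine ⟨i, hi, (t' ∩ B j) ∩ t, ?_, ?_⟩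
      · exact ((F_mono B (Iio_subset_Iio h.le) _ ht').inter (B_meas B h)).inter ht
      · ext x
        simp only [mem_inter_iff]
        tauto
  have hone : indicatorConstLp p MeasurableSet.univ (measure_ne_top μ univ) (1 : ℝ)
      ∈ V μ B p hB Λ := by
    have e : indicatorConstLp p MeasurableSet.univ (measure_ne_top μ univ) (1 : ℝ)
        = wL μ B p hB ∅ := by
      apply Lp.ext
      filter_upwards [indicatorConstLp_coeFn (p := p) (hs := MeasurableSet.univ)
        (hμs := measure_ne_top μ univ) (c := (1 : ℝ)), wL_ae μ B p hB ∅] with x h1 h2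
      rw [h1, h2]
      simp [W]
    rw [e]
    exact wL_mem μ B p hB (by simp)
  have hind : ∀ t (ht : MeasurableSet[F B Λ] t),
      indicatorConstLp p (hle t ht) (measure_ne_top μ t) (1 : ℝ) ∈ V μ B p hB Λ := by
    refine MeasurableSpace.induction_on_inter (m := F B Λ) hgen hpi ?_ ?_ ?_ ?_
    · rw [indicatorConstLp_empty]
      exact zero_mem _
    · rintro _ ⟨i, hi, t, ht, rfl⟩
      have hlei := F_le B hB (Iio i)
      have h1 : BM (F B (Iio i)) (t.indicator fun _ => (1 : ℝ)) := BM.indicator ht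
      have h2 := h1.mul (c_BM μ B i)
      have m1 := (h1.mono hlei).memLp μ p
      have m2 := (h2.mono hlei).memLp μ p
      have k1 := ih i hi (m1.toLp _) (h1.1.aestronglyMeasurable.congr m1.coeFn_toLp.symm)
      have k2 := ih i hi (m2.toLp _) (h2.1.aestronglyMeasurable.congr m2.coeFn_toLp.symm)
      have k3 := add_mem (mulG_mem μ B p hB hΛ hi k1) (V_mono μ B p hB (hsub i hi) k2)
      convert k3 using 1
      apply Lp.ext
      filter_upwards [indicatorConstLp_coeFn (p := p) (hs := (hlei t ht).inter (hB i))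
        (hμs := measure_ne_top μ _) (c := (1 : ℝ)), Lp.coeFn_add (mulG μ B p hB i (m1.toLp _))
        (m2.toLp _), mulG_ae μ B p hB i (m1.toLp _), m1.coeFn_toLp, m2.coeFn_toLp]
        with x e1 e2 e3 e4 e5
      rw [e1, e2, Pi.add_apply, e3, e4, e5, g]
      by_cases hx1 : x ∈ t <;> by_cases hx2 : x ∈ B i <;> simp [hx1, hx2]
    · intro t ht h
      have k3 := sub_mem hone h
      convert k3 using 1
      apply Lp.ext
      filter_upwards [indicatorConstLp_coeFn (p := p) (hs := (hle t ht).compl)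
        (hμs := measure_ne_top μ _) (c := (1 : ℝ)),
        indicatorConstLp_coeFn (p := p) (hs := (hle t ht))
        (hμs := measure_ne_top μ _) (c := (1 : ℝ)),
        indicatorConstLp_coeFn (p := p) (hs := MeasurableSet.univ)
        (hμs := measure_ne_top μ univ) (c := (1 : ℝ)),
        Lp.coeFn_sub (indicatorConstLp p MeasurableSet.univ (measure_ne_top μ univ) (1 : ℝ))
          (indicatorConstLp p (hle t ht) (measure_ne_top μ t) (1 : ℝ))]
        with x e1 e2 e3 e4
      rw [e1, e4, Pi.sub_apply, e2, e3]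
      by_cases hx1 : x ∈ t <;> simp [hx1]
    · intro f hd hf h
      have hf0 : ∀ n, MeasurableSet (f n) := fun n => hle _ (hf n)
      have hacc : ∀ n, MeasurableSet (⋃ j ∈ Finset.range n, f j) :=
        fun n => Finset.measurableSet_biUnion _ fun j _ => hf0 j
      have h1 : ∀ n, indicatorConstLp p (hacc n) (measure_ne_top μ _) (1 : ℝ) ∈ V μ B p hB Λ := by
        intro n
        induction n with
        | zero =>
          have : indicatorConstLp p (hacc 0) (measure_ne_top μ _) (1 : ℝ) = 0 := by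
            simp
          rw [this]
          exact zero_mem _
        | succ n ihn =>
          have hdis : Disjoint (f n) (⋃ j ∈ Finset.range n, f j) := by
            simp only [disjoint_iUnion_right]
            intro j hj
            exact hd (Finset.mem_range.1 hj).ne'
          have e := indicatorConstLp_disjoint_union (p := p) (hf0 n) (hacc n)
            (measure_ne_top μ _) (measure_ne_top μ _) hdis (1 : ℝ)
          have k3 := add_mem (h n) ihn
          rw [← e] at k3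
          convert k3 using 1
          congr 1
          rw [Finset.range_add_one, Finset.set_biUnion_insert]
      refine (V_closed μ B p hB Λ).mem_of_tendsto
        (tendsto_indicatorConstLp_set (l := atTop) (ht := hacc)
          (hμt := fun n => measure_ne_top μ _) hp ?_) (Eventually.of_forall h1)
      have h2 := tendsto_measure_biUnion_Ici_zero_of_pairwise_disjoint (μ := μ)
        (fun n => (hf0 n).nullMeasurableSet) hd
      refine tendsto_of_tendsto_of_tendsto_of_le_of_le tendsto_const_nhds h2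
        (fun _ => zero_le) (fun n => measure_mono ?_)
      intro x hx
      simp only [mem_symmDiff, mem_iUnion, Finset.mem_range] at hx ⊢
      rcases hx with ⟨⟨j, _, hj⟩, hx⟩ | ⟨⟨j, hj⟩, hx⟩
      · exact absurd ⟨j, hj⟩ hx
      · refine ⟨j, ?_, hj⟩
        by_contra hlt
        exact hx ⟨j, not_le.1 hlt, hj⟩
  refine Lp.induction_stronglyMeasurable hle hp (fun f => f ∈ V μ B p hB Λ) ?_ ?_ ?_
  · intro c s hs hμs
    have k3 := (V μ B p hB Λ).smul_mem c (hind s hs)
    convert k3 using 1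
    apply Lp.ext
    filter_upwards [indicatorConstLp_coeFn (p := p) (hs := (hle s hs))
        (hμs := measure_ne_top μ _) (c := (1 : ℝ)),
      indicatorConstLp_coeFn (p := p) (hs := (hle s hs)) (hμs := hμs.ne) (c := c),
      Lp.coeFn_smul c (indicatorConstLp p (hle s hs) (measure_ne_top μ s) (1 : ℝ))]
      with x e1 e2 e3
    rw [e3, Pi.smul_apply, e1, Lp.simpleFunc.coe_indicatorConst, e2]
    by_cases hx1 : x ∈ s <;> simp [hx1]
  · intro f g hf hg _ _ _ h1 h2
    exact add_mem h1 h2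
  · exact (V_closed μ B p hB Λ).preimage continuous_subtype_val

lemma V_top [WellFoundedLT ι] (hp : p ≠ ∞) (hB : ∀ i, MeasurableSet (B i))
    (hsurj : ∀ s, MeasurableSet s → ∃ i, B i = s) (f : Lp ℝ p μ) : f ∈ V μ B p hB univ := by
  have h1 : ∀ i, Q μ B p hB (Iio i) := by
    intro i
    induction i using WellFoundedLT.induction with
    | ind i ih => exact Q_step μ B p hp hB (isLowerSet_Iio i) fun j hj => ih j hj
  have h2 := Q_step μ B p hp hB isLowerSet_univ fun i _ => h1 i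
  have h3 : m0 ≤ F B univ := by
    intro s hs
    obtain ⟨i, rfl⟩ := hsurj s hs
    exact B_meas B (mem_univ i)
  exact h2 f ((Lp.stronglyMeasurable f).mono h3).aestronglyMeasurable

lemma norm_bound (hp : p ≠ ∞) (hB : ∀ i, MeasurableSet (B i)) : ∃ ρ : ℝ, 0 < ρ ∧ ∃ C : ℝ, 0 ≤ C ∧
    ∀ (t : Finset (Finset ι)) (a : Finset ι → ℝ) (r : ℝ), 0 < r → ∑ s ∈ t, a s ^ 2 < r ^ 2 →
      ‖∑ s ∈ t, a s • (ρ ^ s.card • wL μ B p hB s)‖ ≤ C * r := by
  classical
  obtain ⟨k, hk⟩ := ENNReal.exists_nat_gt hp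
  obtain ⟨ρ, hρ, hm⟩ := moment μ B hB k
  set q : ℝ≥0∞ := ((2 * (k + 2) : ℕ) : ℝ≥0∞) with hq
  have hpq : p ≤ q := hk.le.trans (by rw [hq]; exact_mod_cast (by omega))
  have hq0 : q ≠ 0 := by
    rw [hq]
    exact Nat.cast_ne_zero.2 (by omega)
  have hqt : q ≠ ∞ := ENNReal.natCast_ne_top _
  have hqr : q.toReal = ((2 * (k + 2) : ℕ) : ℝ) := by rw [hq, ENNReal.toReal_natCast]
  set D : ℝ≥0∞ := μ univ ^ (1 / p.toReal - 1 / q.toReal) with hD
  have hp0 : 0 < p.toReal := ENNReal.toReal_pos (one_pos.trans_le Fact.out).ne' hp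
  have hDt : D ≠ ∞ := by
    refine ENNReal.rpow_ne_top_of_nonneg ?_ (measure_ne_top μ _)
    have := one_div_le_one_div_of_le hp0 (ENNReal.toReal_mono hqt hpq)
    linarith
  refine ⟨ρ, hρ, (μ.real univ) ^ (q.toReal)⁻¹ * D.toReal, by positivity, fun t a r hr ha => ?_⟩
  set Λ : Finset ι := t.biUnion id with hΛ
  have hsub : t ⊆ Λ.powerset := fun s hs =>
    Finset.mem_powerset.2 (Finset.subset_biUnion_of_mem id hs)
  set a' : Finset ι → ℝ := fun s => if s ∈ t then a s else 0 with ha'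
  have e0 : ∑ s ∈ Λ.powerset, a' s ^ 2 = ∑ s ∈ t, a s ^ 2 := by
    rw [← Finset.sum_subset hsub (fun s _ hs => by simp [ha', hs])]
    exact Finset.sum_congr rfl fun s hs => by simp [ha', hs]
  have e1 : ∀ x, ∑ s ∈ Λ.powerset, a' s * (ρ ^ s.card * W μ B s x)
      = ∑ s ∈ t, a s * (ρ ^ s.card * W μ B s x) := by
    intro x
    rw [← Finset.sum_subset hsub (fun s _ hs => by simp [ha', hs])]
    exact Finset.sum_congr rfl fun s hs => by simp [ha', hs]
  have h1 := hm Λ a' (r ^ 2) (by rwa [e0])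
  simp only [e1] at h1
  set f : α → ℝ := fun x => ∑ s ∈ t, a s * (ρ ^ s.card * W μ B s x) with hf
  have hfB : BM m0 f := BM.sum _ _ fun s _ => (BM.const _).mul ((BM.const _).mul
    ((W_BM μ B isLowerSet_univ (s := s) fun i _ => mem_univ i).mono (F_le B hB _)))
  have hae : (∑ s ∈ t, a s • (ρ ^ s.card • wL μ B p hB s) : Lp ℝ p μ) =ᵐ[μ] f := by
    have h2 : ∀ u : Finset (Finset ι),
        (∑ s ∈ u, a s • (ρ ^ s.card • wL μ B p hB s) : Lp ℝ p μ)
          =ᵐ[μ] fun x => ∑ s ∈ u, a s * (ρ ^ s.card * W μ B s x) := by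
      intro u
      induction u using Finset.induction_on with
      | empty =>
        simp only [Finset.sum_empty]
        exact Lp.coeFn_zero ℝ p μ
      | insert s u hs ih =>
        simp only [Finset.sum_insert hs]
        filter_upwards [ih, Lp.coeFn_add (a s • (ρ ^ s.card • wL μ B p hB s))
          (∑ s ∈ u, a s • (ρ ^ s.card • wL μ B p hB s)),
          Lp.coeFn_smul (a s) (ρ ^ s.card • wL μ B p hB s),
          Lp.coeFn_smul (ρ ^ s.card) (wL μ B p hB s), wL_ae μ B p hB s] with x b1 b2 b3 b4 b5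
        rw [b2, Pi.add_apply, b1, b3, Pi.smul_apply, b4, Pi.smul_apply, b5]
        rfl
    exact h2 t
  rw [Lp.norm_def, eLpNorm_congr_ae hae]
  have h3 := eLpNorm_le_eLpNorm_mul_rpow_measure_univ hpq (hfB.memLp μ q).1
  rw [(hfB.memLp μ q).eLpNorm_eq_integral_rpow_norm hq0 hqt, ← hD] at h3
  have h4 : ∫ x, ‖f x‖ ^ q.toReal ∂μ = ∫ x, f x ^ (2 * (k + 2)) ∂μ := by
    refine integral_congr_ae (Eventually.of_forall fun x => ?_)
    simp only
    rw [hqr, Real.rpow_natCast, Real.norm_eq_abs, pow_mul, sq_abs, ← pow_mul]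
  have h5 : (∫ x, ‖f x‖ ^ q.toReal ∂μ) ^ (q.toReal)⁻¹ ≤ (μ.real univ) ^ (q.toReal)⁻¹ * r := by
    have h6 : 0 ≤ ∫ x, ‖f x‖ ^ q.toReal ∂μ := integral_nonneg fun x => by positivity
    have h7 : ∫ x, ‖f x‖ ^ q.toReal ∂μ ≤ μ.real univ * r ^ (2 * (k + 2)) := by
      rw [h4, pow_mul r]
      exact h1
    refine (Real.rpow_le_rpow h6 h7 (by positivity)).trans (le_of_eq ?_)
    rw [Real.mul_rpow measureReal_nonneg (by positivity), hqr,
      Real.pow_rpow_inv_natCast hr.le (by omega)]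
  have h8 := ENNReal.toReal_mono (ENNReal.mul_ne_top ENNReal.ofReal_ne_top hDt) h3
  rw [ENNReal.toReal_mul, ENNReal.toReal_ofReal
    (Real.rpow_nonneg (integral_nonneg fun x => by positivity) _)] at h8
  refine h8.trans ?_
  calc _ ≤ (μ.real univ) ^ (q.toReal)⁻¹ * r * D.toReal := by gcongr
    _ = _ := by ring

end main

lemma exists_op {E κ : Type} [NormedAddCommGroup E] [NormedSpace ℝ E] [CompleteSpace E]
    [DecidableEq κ] (w : κ → E) (C : ℝ) (hC : 0 ≤ C)
    (h : ∀ (t : Finset κ) (a : κ → ℝ) (r : ℝ), 0 < r → ∑ s ∈ t, a s ^ 2 < r ^ 2 →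
      ‖∑ s ∈ t, a s • w s‖ ≤ C * r) :
    ∃ T : lp (fun _ : κ => ℝ) 2 →L[ℝ] E, ∀ i, T (lp.single 2 i 1) = w i := by
  let e : (κ →₀ ℝ) →ₗ[ℝ] lp (fun _ : κ => ℝ) 2 :=
    Finsupp.linearCombination ℝ fun i => lp.single 2 i (1 : ℝ)
  let f : (κ →₀ ℝ) →ₗ[ℝ] E := Finsupp.linearCombination ℝ w
  have he : ∀ x : κ →₀ ℝ, e x = ∑ i ∈ x.support, lp.single 2 i (x i) := by
    intro x
    simp only [e, Finsupp.linearCombination_apply, Finsupp.sum]
    refine Finset.sum_congr rfl fun i _ => ?_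
    rw [← lp.single_smul]
    simp
  have hd : DenseRange e := by
    intro y
    have h1 := lp.hasSum_single (p := 2) (by norm_num) y
    refine mem_closure_of_tendsto h1 (Eventually.of_forall fun t => ?_)
    refine ⟨∑ i ∈ t, Finsupp.single i (y i), ?_⟩
    rw [map_sum]
    refine Finset.sum_congr rfl fun i _ => ?_
    simp only [e, Finsupp.linearCombination_single]
    rw [← lp.single_smul]
    simp
  have hn : ∀ x, ‖f x‖ ≤ C * ‖e x‖ := by
    intro x
    have h1 : ‖e x‖ ^ 2 = ∑ i ∈ x.support, x i ^ 2 := by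
      have h2 := lp.norm_sum_single (p := 2) (E := fun _ : κ => ℝ) (by norm_num) x x.support
      rw [he]
      simpa using h2
    refine le_of_forall_pos_le_add fun ε hε => ?_
    have h3 : 0 < ε / (C + 1) := by positivity
    have h4 := h x.support x (‖e x‖ + ε / (C + 1)) (by positivity) (by
      rw [← h1]
      nlinarith [norm_nonneg (e x)])
    have h5 : C * (ε / (C + 1)) ≤ ε := by
      rw [← mul_div_assoc, div_le_iff₀ (by positivity)]
      nlinarith
    have h6 : f x = ∑ s ∈ x.support, x s • w s := by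
      simp only [f, Finsupp.linearCombination_apply, Finsupp.sum]
    rw [h6]
    linarith
  refine ⟨f.extendOfNorm e, fun i => ?_⟩
  have h1 := LinearMap.extendOfNorm_eq hd ⟨C, hn⟩ (Finsupp.single i 1)
  simpa [e, f] using h1

theorem main (p : ℝ≥0∞) [Fact (1 ≤ p)] (hp : p ≠ ∞) (α : Type) [m0 : MeasurableSpace α]
    (μ : Measure α) [IsFiniteMeasure μ] (ι : Type) [LinearOrder ι] [WellFoundedLT ι]
    (B : ι → Set α) (hB : ∀ i, MeasurableSet (B i))
    (hsurj : ∀ s, MeasurableSet s → ∃ i, B i = s) :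
    ∃ T : lp (fun _ : Finset ι => ℝ) 2 →L[ℝ] Lp ℝ p μ, DenseRange T := by
  obtain ⟨ρ, hρ, C, hC, h⟩ := norm_bound μ B p hp hB
  obtain ⟨T, hT⟩ := exists_op (fun s => ρ ^ s.card • wL μ B p hB s) C hC h
  refine ⟨T, fun f => ?_⟩
  have h1 := V_top μ B p hp hB hsurj f
  have h2 : V μ B p hB univ ≤ (LinearMap.range T.toLinearMap).topologicalClosure := by
    refine Submodule.topologicalClosure_mono ?_
    rw [Submodule.span_le]
    rintro _ ⟨s, _, rfl⟩
    refine ⟨(ρ ^ s.card)⁻¹ • lp.single 2 s 1, ?_⟩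
    have h3 : (ρ ^ s.card) ≠ 0 := by positivity
    simp only [ContinuousLinearMap.coe_coe, map_smul, hT, smul_smul, inv_mul_cancel₀ h3, one_smul]
  exact h2 h1

end Pool.Agent.H94.HilbGen
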