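import Mathlib

set_option autoImplicit false

open MeasureTheory Set

namespace Pool.Agent.H94.KC

/-- labelled ternary trees -/
def Om : ℕ → Type
  | 0 => Unit
  | n + 1 => Fin 3 → Bool × Om n

noncomputable instance instF : ∀ n, Fintype (Om n)
  | 0 => inferInstanceAs (Fintype Unit)
  | n + 1 => letI := instF n; inferInstanceAs (Fintype (Fin 3 → Bool × Om n))

instance instN : ∀ n, Nonempty (Om n)
  | 0 => inferInstanceAs (Nonempty Unit)
  | n + 1 => letI := instN n; inferInstanceAs (Nonempty (Fin 3 → Bool × Om n))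

/-- digit -/
def bv (b : Bool) : ℝ := if b then 2 else 0

theorem bv_nonneg (b : Bool) : 0 ≤ bv b := by cases b <;> simp [bv]
theorem bv_le (b : Bool) : bv b ≤ 2 := by cases b <;> simp [bv]

/-- number of tubes through a point -/
noncomputable def h : (n : ℕ) → Om n → ℝ → ℝ → ℝ → ℝ
  | 0, _, _, β, y => if 0 ≤ y ∧ y < β then 1 else 0
  | n + 1, ω, ξ, β, y => ∑ c : Fin 3, h n (ω c).2 ξ β (3 * y - (c : ℕ) - bv (ω c).1 * ξ)

/-- indicator -/
noncomputable def g (n : ℕ) (ω : Om n) (ξ β y : ℝ) : ℝ := if h n ω ξ β y = 0 then 0 else 1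

theorem h_nonneg : ∀ (n : ℕ) (ω : Om n) (ξ β y : ℝ), 0 ≤ h n ω ξ β y
  | 0, _, _, _, _ => by unfold h; split_ifs <;> norm_num
  | n + 1, ω, ξ, β, y => Finset.sum_nonneg fun c _ => h_nonneg n _ _ _ _

theorem h_le : ∀ (n : ℕ) (ω : Om n) (ξ β y : ℝ), h n ω ξ β y ≤ 3 ^ n
  | 0, _, _, _, _ => by unfold h; split_ifs <;> norm_num
  | n + 1, ω, ξ, β, y => by
      unfold h
      refine (Finset.sum_le_sum fun c _ => h_le n _ _ _ _).trans ?_
      simp [pow_succ, mul_comm]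

theorem h_supp {ξ β L : ℝ} (hξ : 0 ≤ ξ) (h1 : β ≤ L) (h2 : 1 + ξ ≤ L) :
    ∀ (n : ℕ) (ω : Om n) (y : ℝ), h n ω ξ β y ≠ 0 → 0 ≤ y ∧ y < L
  | 0, _, y => by
      unfold h; split_ifs with hy
      · intro _; exact ⟨hy.1, hy.2.trans_le h1⟩
      · simp
  | n + 1, ω, y => by
      intro hy
      unfold h at hy
      obtain ⟨c, -, hc⟩ := Finset.exists_ne_zero_of_sum_ne_zero hy
      obtain ⟨a, b⟩ := h_supp hξ h1 h2 n _ _ hc
      have c0 : (0:ℝ) ≤ (c : ℕ) := Nat.cast_nonneg _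
      have c2 : ((c : ℕ) : ℝ) ≤ 2 := by exact_mod_cast Nat.le_of_lt_succ c.2
      have := mul_nonneg (bv_nonneg (ω c).1) hξ
      have := mul_le_mul_of_nonneg_right (bv_le (ω c).1) hξ
      constructor <;> linarith

theorem h_meas : ∀ (n : ℕ) (ω : Om n), Measurable fun z : ℝ × ℝ × ℝ => h n ω z.1 z.2.1 z.2.2
  | 0, _ => by
      unfold h
      refine Measurable.ite ?_ measurable_const measurable_const
      exact (measurableSet_le measurable_const measurable_snd.snd).inter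
        (measurableSet_lt measurable_snd.snd measurable_snd.fst)
  | n + 1, ω => by
      unfold h
      refine Finset.measurable_sum _ fun c _ => ?_
      exact (h_meas n (ω c).2).comp (f := fun z : ℝ × ℝ × ℝ =>
        (z.1, z.2.1, 3 * z.2.2 - (c : ℕ) - bv (ω c).1 * z.1)) (by fun_prop)

theorem h_meas1 (n : ℕ) (ω : Om n) (ξ β : ℝ) : Measurable (h n ω ξ β) :=
  (h_meas n ω).comp (f := fun y : ℝ => (ξ, β, y)) (by fun_prop)

theorem g_meas1 (n : ℕ) (ω : Om n) (ξ β : ℝ) : Measurable (g n ω ξ β) :=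
  Measurable.ite (h_meas1 n ω ξ β (measurableSet_singleton 0)) measurable_const measurable_const

theorem g_succ (n : ℕ) (ω : Om (n + 1)) (ξ β y : ℝ) : 1 - g (n + 1) ω ξ β y =
    (1 - g n (ω 0).2 ξ β (3 * y - (0:ℕ) - bv (ω 0).1 * ξ)) *
    (1 - g n (ω 1).2 ξ β (3 * y - (1:ℕ) - bv (ω 1).1 * ξ)) *
    (1 - g n (ω 2).2 ξ β (3 * y - (2:ℕ) - bv (ω 2).1 * ξ)) := by
  have e : h (n + 1) ω ξ β y = h n (ω 0).2 ξ β (3 * y - (0:ℕ) - bv (ω 0).1 * ξ)
      + h n (ω 1).2 ξ β (3 * y - (1:ℕ) - bv (ω 1).1 * ξ)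
      + h n (ω 2).2 ξ β (3 * y - (2:ℕ) - bv (ω 2).1 * ξ) := by
    rw [h, Fin.sum_univ_three]; rfl
  have a0 := h_nonneg n (ω 0).2 ξ β (3 * y - (0:ℕ) - bv (ω 0).1 * ξ)
  have a1 := h_nonneg n (ω 1).2 ξ β (3 * y - (1:ℕ) - bv (ω 1).1 * ξ)
  have a2 := h_nonneg n (ω 2).2 ξ β (3 * y - (2:ℕ) - bv (ω 2).1 * ξ)
  unfold g
  rw [e]
  split_ifs with b b0 b1 b2 <;> first | (simp; done) | (exfalso; apply ‹¬ _›; linarith)

/-- expectation -/
noncomputable def E (n : ℕ) (F : Om n → ℝ) : ℝ := (∑ ω, F ω) / Fintype.card (Om n)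

theorem card_pos (n : ℕ) : (0:ℝ) < Fintype.card (Om n) := by exact_mod_cast Fintype.card_pos

theorem E_add (n : ℕ) (F G : Om n → ℝ) : E n (fun ω => F ω + G ω) = E n F + E n G := by
  simp [E, Finset.sum_add_distrib, add_div]

theorem E_mul (n : ℕ) (c : ℝ) (F : Om n → ℝ) : E n (fun ω => c * F ω) = c * E n F := by
  simp [E, ← Finset.mul_sum, mul_div_assoc]

theorem E_const (n : ℕ) (c : ℝ) : E n (fun _ => c) = c := by
  have := card_pos n
  simp only [E, Finset.sum_const, Finset.card_univ, nsmul_eq_mul]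
  field_simp

theorem E_sub (n : ℕ) (F G : Om n → ℝ) : E n (fun ω => F ω - G ω) = E n F - E n G := by
  simp [E, Finset.sum_sub_distrib, sub_div]

theorem E_mono (n : ℕ) {F G : Om n → ℝ} (hh : ∀ ω, F ω ≤ G ω) : E n F ≤ E n G :=
  div_le_div_of_nonneg_right (Finset.sum_le_sum fun ω _ => hh ω) (card_pos n).le

theorem E_ne (n : ℕ) {F : Om n → ℝ} (hh : E n F ≠ 0) : ∃ ω, F ω ≠ 0 := by
  by_contra hc
  push Not at hc
  simp [E, hc] at hh

/-- expectation over a child -/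
noncomputable def E' (n : ℕ) (F : Bool × Om n → ℝ) : ℝ :=
  (E n (fun ω => F (true, ω)) + E n (fun ω => F (false, ω))) / 2

theorem E'_one (n : ℕ) : E' n (fun _ => 1) = 1 := by simp [E', E_const]

theorem E_prod (n : ℕ) (F0 F1 F2 : Bool × Om n → ℝ) :
    E (n + 1) (fun ω => F0 (ω 0) * F1 (ω 1) * F2 (ω 2)) = E' n F0 * E' n F1 * E' n F2 := by
  have h1 := Finset.prod_univ_sum (fun _ : Fin 3 => (Finset.univ : Finset (Bool × Om n)))
    (fun c z => (![F0, F1, F2] : Fin 3 → Bool × Om n → ℝ) c z)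
  simp only [Fin.prod_univ_three, Fintype.piFinset_univ, Matrix.cons_val_zero, Matrix.cons_val_one,
    Matrix.cons_val] at h1
  have h2 : (Fintype.card (Om (n + 1)) : ℝ) = (2 * Fintype.card (Om n)) ^ 3 := by
    have : Fintype.card (Om (n + 1)) = Fintype.card (Fin 3 → Bool × Om n) := rfl
    rw [this]; simp
  have h3 : ∀ F : Bool × Om n → ℝ, E' n F = (∑ z, F z) / (2 * Fintype.card (Om n)) := by
    intro F
    have := card_pos n
    rw [E', E, E, Fintype.sum_prod_type, Fintype.sum_bool]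
    field_simp
  rw [h3, h3, h3, E, h2]
  have h4 : (∑ ω : Om (n + 1), F0 (ω 0) * F1 (ω 1) * F2 (ω 2))
      = (∑ z, F0 z) * (∑ z, F1 z) * ∑ z, F2 z := h1.symm
  rw [h4]
  have := card_pos n
  field_simp

/-- average over the two labels -/
noncomputable def A (F : ℝ → ℝ) (ξ : ℝ) (c : ℕ) (y : ℝ) : ℝ :=
  (F (3 * y - (c + 2 * ξ)) + F (3 * y - c)) / 2

/-- hitting probability -/
noncomputable def p (n : ℕ) (ξ β y : ℝ) : ℝ := E n fun ω => g n ω ξ β y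
/-- first moment -/
noncomputable def m (n : ℕ) (ξ y : ℝ) : ℝ := E n fun ω => h n ω ξ 1 y
/-- second moment -/
noncomputable def j (n : ℕ) (ξ y : ℝ) : ℝ := E n fun ω => h n ω ξ 1 y ^ 2

theorem E'_A (n : ℕ) (F : Om n → ℝ → ℝ) (ξ : ℝ) (c : ℕ) (y : ℝ) :
    E' n (fun z => F z.2 (3 * y - c - bv z.1 * ξ)) = A (fun y => E n fun ω => F ω y) ξ c y := by
  simp [E', A, bv, sub_sub]

theorem p_succ (n : ℕ) (ξ β y : ℝ) : p (n + 1) ξ β y =
    1 - (1 - A (p n ξ β) ξ 0 y) * (1 - A (p n ξ β) ξ 1 y) * (1 - A (p n ξ β) ξ 2 y) := by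
  have e : ∀ c : ℕ, E' n (fun z => 1 - g n z.2 ξ β (3 * y - c - bv z.1 * ξ))
      = 1 - A (p n ξ β) ξ c y := by
    intro c
    rw [E'_A n (fun ω y => 1 - g n ω ξ β y)]
    simp only [A, E_sub, E_const, p]; ring
  rw [← e, ← e, ← e, ← E_prod]
  simp only [← g_succ]
  rw [E_sub, E_const, p]; ring

theorem h_succ (n : ℕ) (ω : Om (n + 1)) (ξ β y : ℝ) : h (n + 1) ω ξ β y =
    h n (ω 0).2 ξ β (3 * y - (0:ℕ) - bv (ω 0).1 * ξ)
      + h n (ω 1).2 ξ β (3 * y - (1:ℕ) - bv (ω 1).1 * ξ)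
      + h n (ω 2).2 ξ β (3 * y - (2:ℕ) - bv (ω 2).1 * ξ) := by
  rw [h, Fin.sum_univ_three]; rfl

theorem m_succ (n : ℕ) (ξ y : ℝ) : m (n + 1) ξ y =
    A (m n ξ) ξ 0 y + A (m n ξ) ξ 1 y + A (m n ξ) ξ 2 y := by
  let H : ℕ → Bool × Om n → ℝ := fun c z => h n z.2 ξ 1 (3 * y - c - bv z.1 * ξ)
  have e : ∀ c : ℕ, E' n (H c) = A (m n ξ) ξ c y := fun c => E'_A n (fun ω y => h n ω ξ 1 y) ξ c y
  have a0 := E_prod n (H 0) (fun _ => 1) (fun _ => 1)
  have a1 := E_prod n (fun _ => 1) (H 1) (fun _ => 1)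
  have a2 := E_prod n (fun _ => 1) (fun _ => 1) (H 2)
  simp only [E'_one, mul_one, one_mul, e] at a0 a1 a2
  rw [← a0, ← a1, ← a2, ← E_add, ← E_add, m]
  simp only [h_succ, H]

theorem j_succ (n : ℕ) (ξ y : ℝ) : j (n + 1) ξ y =
    A (j n ξ) ξ 0 y + A (j n ξ) ξ 1 y + A (j n ξ) ξ 2 y + 2 * (A (m n ξ) ξ 0 y * A (m n ξ) ξ 1 y)
      + 2 * (A (m n ξ) ξ 0 y * A (m n ξ) ξ 2 y) + 2 * (A (m n ξ) ξ 1 y * A (m n ξ) ξ 2 y) := by
  let H : ℕ → Bool × Om n → ℝ := fun c z => h n z.2 ξ 1 (3 * y - c - bv z.1 * ξ)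
  let J : ℕ → Bool × Om n → ℝ := fun c z => h n z.2 ξ 1 (3 * y - c - bv z.1 * ξ) ^ 2
  have e : ∀ c : ℕ, E' n (H c) = A (m n ξ) ξ c y := fun c => E'_A n (fun ω y => h n ω ξ 1 y) ξ c y
  have e2 : ∀ c : ℕ, E' n (J c) = A (j n ξ) ξ c y :=
    fun c => E'_A n (fun ω y => h n ω ξ 1 y ^ 2) ξ c y
  have a0 := E_prod n (J 0) (fun _ => 1) (fun _ => 1)
  have a1 := E_prod n (fun _ => 1) (J 1) (fun _ => 1)
  have a2 := E_prod n (fun _ => 1) (fun _ => 1) (J 2)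
  have a3 := E_prod n (H 0) (H 1) (fun _ => 1)
  have a4 := E_prod n (H 0) (fun _ => 1) (H 2)
  have a5 := E_prod n (fun _ => 1) (H 1) (H 2)
  simp only [E'_one, mul_one, one_mul, e, e2] at a0 a1 a2 a3 a4 a5
  rw [← a0, ← a1, ← a2, ← a3, ← a4, ← a5, ← E_mul, ← E_mul, ← E_mul, ← E_add, ← E_add, ← E_add,
    ← E_add, ← E_add, j]
  congr 1; funext ω
  simp only [h_succ, H, J]; ring

end Pool.Agent.H94.KC
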