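import Pool.Agent.H94.KC1

set_option autoImplicit false

open MeasureTheory Set

namespace Pool.Agent.H94.KC

theorem integ {F : ℝ → ℝ} (hm : Measurable F) {C L : ℝ} (hb : ∀ y, 0 ≤ F y ∧ F y ≤ C)
    (hs : ∀ y, F y ≠ 0 → 0 ≤ y ∧ y < L) : Integrable F := by
  have h1 : Integrable ((Ico (0:ℝ) L).indicator fun _ => C) :=
    (integrable_indicator_iff measurableSet_Ico).2 (integrableOn_const (by simp))
  refine h1.mono' hm.aestronglyMeasurable (Filter.Eventually.of_forall fun y => ?_)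
  rw [Real.norm_of_nonneg (hb y).1]
  by_cases hy : F y = 0
  · rw [hy]; exact indicator_nonneg (fun _ _ => (hb y).1.trans (hb y).2) _
  · rw [indicator_of_mem (show y ∈ Ico (0:ℝ) L from hs y hy)]; exact (hb y).2

theorem integ_aff {F : ℝ → ℝ} (hF : Integrable F) (d : ℝ) : Integrable fun y => F (3 * y - d) :=
  (hF.comp_sub_right d).comp_mul_left' (by norm_num : (3:ℝ) ≠ 0)

theorem int_aff (F : ℝ → ℝ) (d : ℝ) : ∫ y, F (3 * y - d) = (∫ y, F y) / 3 := by
  have := Measure.integral_comp_mul_left (fun y => F (y - d)) 3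
  rw [this, integral_sub_right_eq_self F d]
  simp only [smul_eq_mul]
  rw [abs_of_pos (by norm_num)]; ring

theorem integ_A {F : ℝ → ℝ} (hF : Integrable F) (ξ : ℝ) (c : ℕ) : Integrable (A F ξ c) :=
  ((integ_aff hF _).add (integ_aff hF _)).div_const 2

theorem int_A {F : ℝ → ℝ} (hF : Integrable F) (ξ : ℝ) (c : ℕ) :
    ∫ y, A F ξ c y = (∫ y, F y) / 3 := by
  unfold A
  rw [integral_div, integral_add (integ_aff hF _) (integ_aff hF _), int_aff, int_aff]; ring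

theorem iadd {F G : ℝ → ℝ} (hF : Integrable F) (hG : Integrable G) :
    Integrable fun y => F y + G y := hF.add hG

theorem integ_A3 {F : ℝ → ℝ} (hF : Integrable F) (ξ : ℝ) :
    Integrable fun y => A F ξ 0 y + A F ξ 1 y + A F ξ 2 y :=
  iadd (iadd (integ_A hF ξ 0) (integ_A hF ξ 1)) (integ_A hF ξ 2)

theorem int_A3 {F : ℝ → ℝ} (hF : Integrable F) (ξ : ℝ) :
    ∫ y, A F ξ 0 y + A F ξ 1 y + A F ξ 2 y = ∫ y, F y := by
  rw [integral_add (iadd (integ_A hF ξ 0) (integ_A hF ξ 1)) (integ_A hF ξ 2),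
    integral_add (integ_A hF ξ 0) (integ_A hF ξ 1), int_A hF, int_A hF, int_A hF]
  ring

theorem E_meas (n : ℕ) {F : Om n → ℝ → ℝ} (hF : ∀ ω, Measurable (F ω)) :
    Measurable fun y => E n fun ω => F ω y :=
  (Finset.measurable_sum _ fun ω _ => hF ω).div_const _

theorem g_bd (n : ℕ) (ω : Om n) (ξ β y : ℝ) : 0 ≤ g n ω ξ β y ∧ g n ω ξ β y ≤ 1 := by
  unfold g; split_ifs <;> norm_num

theorem p_bd (n : ℕ) (ξ β y : ℝ) : 0 ≤ p n ξ β y ∧ p n ξ β y ≤ 1 :=
  ⟨(E_const n 0).symm.le.trans (E_mono n fun ω => (g_bd n ω ξ β y).1),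
    (E_mono n fun ω => (g_bd n ω ξ β y).2).trans (E_const n 1).le⟩

theorem p_meas (n : ℕ) (ξ β : ℝ) : Measurable (p n ξ β) := E_meas n fun ω => g_meas1 n ω ξ β

theorem g_supp {ξ β L : ℝ} (hξ : 0 ≤ ξ) (h1 : β ≤ L) (h2 : 1 + ξ ≤ L) (n : ℕ) (ω : Om n) (y : ℝ)
    (hy : g n ω ξ β y ≠ 0) : 0 ≤ y ∧ y < L :=
  h_supp hξ h1 h2 n ω y fun h0 => hy (by simp [g, h0])

theorem p_supp {ξ β L : ℝ} (hξ : 0 ≤ ξ) (h1 : β ≤ L) (h2 : 1 + ξ ≤ L) (n : ℕ) (y : ℝ)
    (hy : p n ξ β y ≠ 0) : 0 ≤ y ∧ y < L := by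
  obtain ⟨ω, hω⟩ := E_ne n hy
  exact g_supp hξ h1 h2 n ω y hω

theorem phi_sub {a b : ℝ} (a0 : 0 ≤ a) (a1 : a ≤ 1) (b0 : 0 ≤ b) (b1 : b ≤ 1) :
    (1 - (1 - a) * (1 - b)) / (2 - (1 - (1 - a) * (1 - b))) ≤ a / (2 - a) + b / (2 - b) := by
  have h1 : 0 ≤ (1 - a) * (1 - b) := mul_nonneg (by linarith) (by linarith)
  rw [div_add_div _ _ (by linarith) (by linarith), div_le_div_iff₀ (by linarith)
    (mul_pos (by linarith) (by linarith))]
  have h2 : 0 ≤ a * b := mul_nonneg a0 b0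
  have h3 : 0 ≤ a * b * (a * (1 - b) + b * (1 - a) + a * b) := by
    have := mul_nonneg a0 (sub_nonneg.2 b1)
    have := mul_nonneg b0 (sub_nonneg.2 a1)
    positivity
  nlinarith [mul_nonneg h2 a0, mul_nonneg h2 b0, mul_nonneg h2 h2,
    mul_nonneg h2 (mul_nonneg a0 (sub_nonneg.2 b1)), mul_nonneg h2 (mul_nonneg b0 (sub_nonneg.2 a1))]

theorem phi_half {x a : ℝ} (x0 : 0 ≤ x) (x1 : x ≤ 1) (a0 : 0 < a) :
    (x / 2) / (2 - x / 2) ≤ (a ^ 2 + 2 * (x / (2 - x))) / (2 + a) ^ 2 := by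
  have q0 : 0 ≤ x / (2 - x) := div_nonneg x0 (by linarith)
  have e : (x / 2) / (2 - x / 2) = (x / (2 - x)) / (2 + x / (2 - x)) := by
    have : 2 - x ≠ 0 := by linarith
    have : 4 - x ≠ 0 := by linarith
    have : 2 - x / 2 ≠ 0 := by linarith
    have : 2 + x / (2 - x) ≠ 0 := by linarith
    field_simp
    ring
  rw [e]
  generalize x / (2 - x) = q at q0
  rw [div_le_div_iff₀ (by positivity) (by positivity)]
  nlinarith [sq_nonneg (a - q)]

theorem core (ξ : ℝ) (hξ : 1 ≤ ξ) (n : ℕ) :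
    ∫ y, p n ξ (1 + ξ) y / (2 - p n ξ (1 + ξ) y) ≤ 2 / (n + 2) * (1 + ξ) := by
  have iq : ∀ n, Integrable fun y => p n ξ (1 + ξ) y / (2 - p n ξ (1 + ξ) y) := by
    intro n
    refine integ (C := 1) (L := 1 + ξ) ((p_meas n ξ _).div ((p_meas n ξ _).const_sub 2))
      (fun y => ?_) fun y hy => p_supp (by linarith) le_rfl le_rfl n y fun h0 => hy (by simp [h0])
    obtain ⟨a, b⟩ := p_bd n ξ (1 + ξ) y
    exact ⟨div_nonneg a (by linarith), by rw [div_le_one (by linarith)]; linarith⟩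
  have i1 : Integrable ((Ico (0:ℝ) (1 + ξ)).indicator fun _ => (1:ℝ)) :=
    (integrable_indicator_iff measurableSet_Ico).2 (integrableOn_const (by simp))
  have i2 : ∫ y, (Ico (0:ℝ) (1 + ξ)).indicator (fun _ => (1:ℝ)) y = 1 + ξ := by
    rw [integral_indicator measurableSet_Ico]; simp; linarith
  induction n with
  | zero =>
    have : ∀ y, p 0 ξ (1 + ξ) y / (2 - p 0 ξ (1 + ξ) y)
        ≤ (Ico (0:ℝ) (1 + ξ)).indicator (fun _ => (1:ℝ)) y := by
      intro y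
      obtain ⟨a, b⟩ := p_bd 0 ξ (1 + ξ) y
      by_cases hy : p 0 ξ (1 + ξ) y = 0
      · rw [hy]; simpa using indicator_nonneg (fun _ _ => zero_le_one) _
      · rw [indicator_of_mem (show y ∈ Ico (0:ℝ) (1 + ξ) from
          p_supp (by linarith) le_rfl le_rfl 0 y hy), div_le_one (by linarith)]; linarith
    refine (integral_mono (iq 0) i1 this).trans ?_
    rw [i2]; simp
  | succ n ih =>
    set a : ℝ := 2 / (n + 2) with ha
    have a0 : 0 < a := by positivity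
    set P := p n ξ (1 + ξ) with hP
    let G : ℝ → ℝ := fun y => 2 / (2 + a) ^ 2 *
      (a ^ 2 * (Ico (0:ℝ) (1 + ξ)).indicator (fun _ => (1:ℝ)) y + 2 * (P y / (2 - P y)))
    have iG : Integrable G := ((i1.const_mul _).add ((iq n).const_mul _)).const_mul _
    have G0 : ∀ y, (P y / 2) / (2 - P y / 2) ≤ G y / 2 := by
      intro y
      obtain ⟨b0, b1⟩ := p_bd n ξ (1 + ξ) y
      by_cases hy : P y = 0
      · have : 0 ≤ (Ico (0:ℝ) (1 + ξ)).indicator (fun _ => (1:ℝ)) y :=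
          indicator_nonneg (fun _ _ => zero_le_one) _
        simp only [G, hy]
        simp only [zero_div, mul_zero, add_zero]
        positivity
      · have := phi_half b0 b1 a0
        simp only [G]
        rw [indicator_of_mem (show y ∈ Ico (0:ℝ) (1 + ξ) from
          p_supp (by linarith) le_rfl le_rfl n y hy)]
        refine this.trans (le_of_eq ?_)
        ring
    have G1 : ∀ y, 0 ≤ G y := fun y => by
      obtain ⟨b0, b1⟩ := p_bd n ξ (1 + ξ) y
      have := G0 y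
      have : 0 ≤ (P y / 2) / (2 - P y / 2) := div_nonneg (by positivity) (by linarith)
      linarith
    have hA : ∀ (c : ℕ) y, A P ξ c y / (2 - A P ξ c y) ≤ A G ξ c y := by
      intro c y
      unfold A
      by_cases h1 : P (3 * y - (c + 2 * ξ)) = 0
      · rw [h1, zero_add]
        linarith [G0 (3 * y - c), G1 (3 * y - (c + 2 * ξ))]
      · have h2 : P (3 * y - c) = 0 := by
          by_contra h2
          have := (p_supp (by linarith) le_rfl le_rfl n _ h1).1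
          have := (p_supp (by linarith) le_rfl le_rfl n _ h2).2
          linarith
        rw [h2, add_zero]
        linarith [G0 (3 * y - (c + 2 * ξ)), G1 (3 * y - c)]
    have hB : ∀ (c : ℕ) y, 0 ≤ A P ξ c y ∧ A P ξ c y ≤ 1 := by
      intro c y
      unfold A
      obtain ⟨b0, b1⟩ := p_bd n ξ (1 + ξ) (3 * y - (c + 2 * ξ))
      obtain ⟨b2, b3⟩ := p_bd n ξ (1 + ξ) (3 * y - c)
      constructor <;> linarith
    have hC : ∀ y, p (n + 1) ξ (1 + ξ) y / (2 - p (n + 1) ξ (1 + ξ) y)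
        ≤ A G ξ 0 y + A G ξ 1 y + A G ξ 2 y := by
      intro y
      rw [p_succ, ← hP]
      obtain ⟨u0, u1⟩ := hB 0 y
      obtain ⟨v0, v1⟩ := hB 1 y
      obtain ⟨w0, w1⟩ := hB 2 y
      have s1 := phi_sub u0 u1 v0 v1
      have t0 : 0 ≤ (1 - A P ξ 0 y) * (1 - A P ξ 1 y) := mul_nonneg (by linarith) (by linarith)
      have t1 : (1 - A P ξ 0 y) * (1 - A P ξ 1 y) ≤ 1 := by nlinarith
      have s2 := phi_sub (a := 1 - (1 - A P ξ 0 y) * (1 - A P ξ 1 y)) (by linarith) (by linarith)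
        w0 w1
      rw [sub_sub_cancel] at s2
      linarith [hA 0 y, hA 1 y, hA 2 y]
    refine (integral_mono (iq (n + 1)) (integ_A3 iG ξ) hC).trans ?_
    rw [int_A3 iG]
    have e : ∫ y, G y = 2 / (2 + a) ^ 2 * (a ^ 2 * (1 + ξ) + 2 * ∫ y, P y / (2 - P y)) := by
      simp only [G]
      rw [integral_const_mul, integral_add (i1.const_mul _) ((iq n).const_mul _),
        integral_const_mul, integral_const_mul, i2]
    have e2 : 2 / (2 + a) ^ 2 * (a ^ 2 * (1 + ξ) + 2 * (a * (1 + ξ)))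
        = 2 / (((n + 1 : ℕ) : ℝ) + 2) * (1 + ξ) := by
      rw [ha]; push_cast; field_simp; ring
    rw [← e2, e]
    have : 0 ≤ 2 / (2 + a) ^ 2 := by positivity
    nlinarith [mul_le_mul_of_nonneg_left ih this]

theorem p_int {ξ β : ℝ} (hξ : 0 ≤ ξ) (hβ : β ≤ 1 + ξ) (n : ℕ) : Integrable (p n ξ β) :=
  integ (p_meas n ξ β) (p_bd n ξ β) (p_supp hξ hβ le_rfl n)

theorem core' (ξ : ℝ) (hξ : 1 ≤ ξ) (n : ℕ) : ∫ y, p n ξ (1 + ξ) y ≤ 4 / (n + 2) * (1 + ξ) := by
  have iq : Integrable fun y => p n ξ (1 + ξ) y / (2 - p n ξ (1 + ξ) y) := by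
    refine integ (C := 1) (L := 1 + ξ) ((p_meas n ξ _).div ((p_meas n ξ _).const_sub 2))
      (fun y => ?_) fun y hy => p_supp (by linarith) le_rfl le_rfl n y fun h0 => hy (by simp [h0])
    obtain ⟨a, b⟩ := p_bd n ξ (1 + ξ) y
    exact ⟨div_nonneg a (by linarith), by rw [div_le_one (by linarith)]; linarith⟩
  have h1 := integral_mono (p_int (by linarith) le_rfl n) (iq.const_mul 2) (fun y => by
    obtain ⟨a, b⟩ := p_bd n ξ (1 + ξ) y
    show p n ξ (1 + ξ) y ≤ 2 * (p n ξ (1 + ξ) y / (2 - p n ξ (1 + ξ) y))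
    rw [← mul_div_assoc, le_div_iff₀ (by linarith)]
    nlinarith)
  rw [integral_const_mul] at h1
  have := core ξ hξ n
  have e : 4 / ((n:ℝ) + 2) * (1 + ξ) = 2 * (2 / (n + 2) * (1 + ξ)) := by ring
  linarith

theorem m_nonneg (n : ℕ) (ξ y : ℝ) : 0 ≤ m n ξ y :=
  (E_const n 0).symm.le.trans (E_mono n fun ω => h_nonneg n ω ξ 1 y)

theorem m_supp {ξ : ℝ} (hξ : 0 ≤ ξ) (n : ℕ) (y : ℝ) (hy : m n ξ y ≠ 0) : 0 ≤ y ∧ y < 1 + ξ := by
  obtain ⟨ω, hω⟩ := E_ne n hy
  exact h_supp hξ (by linarith) le_rfl n ω y hω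

theorem m_per (ξ : ℝ) (n : ℕ) : ∀ (S : Finset ℤ) (y : ℝ), ∑ k ∈ S, m n ξ (y - k) ≤ 1 := by
  induction n with
  | zero =>
    intro S y
    have : ∀ k : ℤ, m 0 ξ (y - k) = if k = ⌊y⌋ then 1 else 0 := by
      intro k
      simp only [m, h, E_const]
      congr 1
      rw [eq_comm (a := k), Int.floor_eq_iff]
      apply propext
      constructor <;> rintro ⟨a, b⟩ <;> constructor <;> linarith
    simp only [this, Finset.sum_ite_eq']
    split_ifs <;> norm_num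
  | succ n ih =>
    intro S y
    have key : ∀ z : ℝ, ∑ k ∈ S, (m n ξ (z - 3 * k - (0:ℕ)) + m n ξ (z - 3 * k - (1:ℕ))
        + m n ξ (z - 3 * k - (2:ℕ))) ≤ 1 := by
      intro z
      have h1 := ih ((S ×ˢ (Finset.range 3)).image fun q : ℤ × ℕ => 3 * q.1 + q.2) z
      rw [Finset.sum_image (by
        rintro ⟨a, b⟩ h1 ⟨c, d⟩ h2 h3
        simp only [Finset.coe_product, Finset.coe_range, mem_prod, mem_Iio] at h1 h2 h3
        have : a = c := by omega
        have : b = d := by omega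
        simp [*]), Finset.sum_product] at h1
      refine le_trans (le_of_eq (Finset.sum_congr rfl fun k _ => ?_)) h1
      simp [Finset.sum_range_succ, sub_sub]
    have k1 := key (3 * y)
    have k2 := key (3 * y - 2 * ξ)
    have : ∑ k ∈ S, m (n + 1) ξ (y - k) = (∑ k ∈ S, (m n ξ (3 * y - 3 * k - (0:ℕ))
        + m n ξ (3 * y - 3 * k - (1:ℕ)) + m n ξ (3 * y - 3 * k - (2:ℕ)))
        + ∑ k ∈ S, (m n ξ (3 * y - 2 * ξ - 3 * k - (0:ℕ)) + m n ξ (3 * y - 2 * ξ - 3 * k - (1:ℕ))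
        + m n ξ (3 * y - 2 * ξ - 3 * k - (2:ℕ)))) / 2 := by
      rw [← Finset.sum_add_distrib, Finset.sum_div]
      refine Finset.sum_congr rfl fun k _ => ?_
      rw [m_succ]
      unfold A
      ring_nf
    rw [this, div_le_one (by norm_num)]
    exact (add_le_add k1 k2).trans (by norm_num)

theorem m_le (n : ℕ) (ξ y : ℝ) : m n ξ y ≤ 1 := by simpa using m_per ξ n {0} y

theorem m_meas (n : ℕ) (ξ : ℝ) : Measurable (m n ξ) := E_meas n fun ω => h_meas1 n ω ξ 1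

theorem m_int {ξ : ℝ} (hξ : 0 ≤ ξ) (n : ℕ) : Integrable (m n ξ) :=
  integ (m_meas n ξ) (fun y => ⟨m_nonneg n ξ y, m_le n ξ y⟩) (m_supp hξ n)

theorem int_m {ξ : ℝ} (hξ : 0 ≤ ξ) (n : ℕ) : ∫ y, m n ξ y = 1 := by
  induction n with
  | zero =>
    have : m 0 ξ = (Ico (0:ℝ) 1).indicator fun _ => (1:ℝ) := by
      funext y; simp [m, h, E_const, indicator]
    rw [this, integral_indicator measurableSet_Ico]; simp
  | succ n ih =>
    have i := m_int hξ n
    simp only [m_succ]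
    rw [int_A3 i, ih]

theorem j_int {ξ : ℝ} (hξ : 0 ≤ ξ) (n : ℕ) : Integrable (j n ξ) := by
  refine integ (C := (3 ^ n) ^ 2) (L := 1 + ξ) (E_meas n fun ω => (h_meas1 n ω ξ 1).pow_const 2)
    (fun y => ⟨(E_const n 0).symm.le.trans (E_mono n fun ω => sq_nonneg _),
      (E_mono n fun ω => pow_le_pow_left₀ (h_nonneg n ω ξ 1 y) (h_le n ω ξ 1 y) 2).trans
        (E_const n _).le⟩) fun y hy => ?_
  obtain ⟨ω, hω⟩ := E_ne n hy
  exact h_supp (β := 1) hξ (by linarith) le_rfl n ω y fun h0 => hω (by simp [h0])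

theorem cross {ξ : ℝ} (hξ : 0 ≤ ξ) (n : ℕ) (c d : ℕ) (hcd : c < d) :
    Integrable (fun y => A (m n ξ) ξ c y * A (m n ξ) ξ d y) ∧
      ∫ y, A (m n ξ) ξ c y * A (m n ξ) ξ d y ≤ ξ := by
  have b : ∀ (c : ℕ) y, 0 ≤ A (m n ξ) ξ c y ∧ A (m n ξ) ξ c y ≤ 1 := by
    intro c y
    unfold A
    constructor <;> linarith [m_nonneg n ξ (3 * y - (c + 2 * ξ)), m_nonneg n ξ (3 * y - c),
      m_le n ξ (3 * y - (c + 2 * ξ)), m_le n ξ (3 * y - c)]
  have s : ∀ (c : ℕ) y, A (m n ξ) ξ c y ≠ 0 → c ≤ 3 * y ∧ 3 * y < c + 1 + 3 * ξ := by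
    intro c y hy
    by_cases h1 : m n ξ (3 * y - (c + 2 * ξ)) = 0
    · have := m_supp hξ n (3 * y - c) fun h2 => hy (by simp [A, h1, h2])
      constructor <;> linarith [this.1, this.2]
    · have := m_supp hξ n _ h1
      constructor <;> linarith [this.1, this.2]
  have i1 : Integrable ((Ico ((d:ℝ) / 3) (d / 3 + ξ)).indicator fun _ => (1:ℝ)) :=
    (integrable_indicator_iff measurableSet_Ico).2 (integrableOn_const (by simp))
  have hle : ∀ y, A (m n ξ) ξ c y * A (m n ξ) ξ d y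
      ≤ (Ico ((d:ℝ) / 3) (d / 3 + ξ)).indicator (fun _ => (1:ℝ)) y := by
    intro y
    by_cases h0 : A (m n ξ) ξ c y * A (m n ξ) ξ d y = 0
    · rw [h0]; exact indicator_nonneg (fun _ _ => zero_le_one) _
    · have h1 := s c y (left_ne_zero_of_mul h0)
      have h2 := s d y (right_ne_zero_of_mul h0)
      have h3 : (c:ℝ) + 1 ≤ d := by exact_mod_cast hcd
      rw [indicator_of_mem (show y ∈ Ico ((d:ℝ) / 3) (d / 3 + ξ) from
        ⟨by linarith [h2.1], by linarith [h1.2]⟩)]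
      exact mul_le_one₀ (b c y).2 (b d y).1 (b d y).2
  have i2 : Integrable (fun y => A (m n ξ) ξ c y * A (m n ξ) ξ d y) := by
    refine i1.mono' ((integ_A (m_int hξ n) ξ c).1.mul (integ_A (m_int hξ n) ξ d).1)
      (Filter.Eventually.of_forall fun y => ?_)
    rw [Real.norm_of_nonneg (mul_nonneg (b c y).1 (b d y).1)]
    exact hle y
  refine ⟨i2, (integral_mono i2 i1 hle).trans ?_⟩
  rw [integral_indicator measurableSet_Ico]; simp [hξ]

theorem int_j {ξ : ℝ} (hξ : 0 ≤ ξ) (n : ℕ) : ∫ y, j n ξ y ≤ 1 + 6 * n * ξ := by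
  induction n with
  | zero =>
    have : j 0 ξ = (Ico (0:ℝ) 1).indicator fun _ => (1:ℝ) := by
      funext y; simp [j, h, E_const, indicator]
    rw [this, integral_indicator measurableSet_Ico]; simp
  | succ n ih =>
    have i := j_int hξ n
    obtain ⟨a1, a2⟩ := cross hξ n 0 1 (by norm_num)
    obtain ⟨b1, b2⟩ := cross hξ n 0 2 (by norm_num)
    obtain ⟨c1, c2⟩ := cross hξ n 1 2 (by norm_num)
    have i0 := integ_A3 i ξ
    simp only [j_succ]
    rw [integral_add (iadd (iadd i0 (a1.const_mul 2)) (b1.const_mul 2)) (c1.const_mul 2),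
      integral_add (iadd i0 (a1.const_mul 2)) (b1.const_mul 2), integral_add i0 (a1.const_mul 2),
      int_A3 i,
      integral_const_mul, integral_const_mul, integral_const_mul]
    push_cast
    linarith

theorem reach {ξ : ℝ} (hξ : 0 ≤ ξ) (n : ℕ) : 1 / (1 + 6 * n * ξ) ≤ ∫ y, p n ξ 1 y := by
  set l : ℝ := 1 + 6 * n * ξ with hl
  have l0 : 0 < l := by positivity
  have h1 : ∀ y, 2 * m n ξ y ≤ l * p n ξ 1 y + l⁻¹ * j n ξ y := by
    intro y
    rw [m, p, j, ← E_mul, ← E_mul, ← E_mul, ← E_add]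
    refine E_mono n fun ω => ?_
    unfold g
    split_ifs with h0
    · simp [h0]
    · have : l * 1 + l⁻¹ * h n ω ξ 1 y ^ 2 - 2 * h n ω ξ 1 y = l⁻¹ * (l - h n ω ξ 1 y) ^ 2 := by
        field_simp; ring
      have : 0 ≤ l⁻¹ * (l - h n ω ξ 1 y) ^ 2 := by positivity
      linarith
  have ip := p_int hξ (β := 1) (by linarith) n
  have h2 := integral_mono ((m_int hξ n).const_mul 2)
    ((ip.const_mul l).add ((j_int hξ n).const_mul l⁻¹)) h1
  simp only [Pi.add_apply] at h2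
  rw [integral_add (ip.const_mul l) ((j_int hξ n).const_mul l⁻¹), integral_const_mul,
    integral_const_mul, integral_const_mul, int_m hξ] at h2
  have h3 : l⁻¹ * ∫ y, j n ξ y ≤ 1 := by
    rw [inv_mul_le_iff₀ l0, mul_one]; exact int_j hξ n
  rw [div_le_iff₀ l0]
  linarith

end Pool.Agent.H94.KC
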