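import Pool.Agent.H94.KC2

set_option autoImplicit false

open MeasureTheory Set

namespace Pool.Agent.H94.KC

/-- point of the Cantor set with given digits -/
noncomputable def sg (b : ℕ → Bool) : ℝ := ∑' n, bv (b n) / 3 ^ (n + 1)

theorem geo : HasSum (fun n : ℕ => (2:ℝ) / 3 ^ (n + 1)) 1 := by
  have := (hasSum_geometric_of_lt_one (r := (1/3:ℝ)) (by norm_num) (by norm_num)).mul_left (2/3)
  have e : (fun n : ℕ => (2:ℝ) / 3 ^ (n + 1)) = fun i => 2 / 3 * (1 / 3) ^ i := by
    funext n; rw [pow_succ]; simp only [one_div, inv_pow]; field_simp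
  have e2 : (2 / 3 * (1 - 1 / 3)⁻¹ : ℝ) = 1 := by norm_num
  rw [e2] at this
  rw [e]; exact this

theorem sg_sum (b : ℕ → Bool) : Summable fun n => bv (b n) / 3 ^ (n + 1) :=
  Summable.of_nonneg_of_le (fun n => div_nonneg (bv_nonneg _) (by positivity))
    (fun n => div_le_div_of_nonneg_right (bv_le _) (by positivity)) geo.summable

theorem sg_nonneg (b : ℕ → Bool) : 0 ≤ sg b :=
  tsum_nonneg fun n => div_nonneg (bv_nonneg _) (by positivity)

theorem sg_le (b : ℕ → Bool) : sg b ≤ 1 := by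
  rw [← geo.tsum_eq]
  exact (sg_sum b).tsum_le_tsum
    (fun n => div_le_div_of_nonneg_right (bv_le _) (by positivity)) geo.summable

theorem sg_split (L : ℕ) (b : ℕ → Bool) : sg b = ∑ i ∈ Finset.range L, bv (b i) / 3 ^ (i + 1)
    + sg (fun i => b (i + L)) / 3 ^ L := by
  rw [sg, ← (sg_sum b).sum_add_tsum_nat_add L, sg, ← tsum_div_const]
  congr 2; funext i
  rw [div_div, ← pow_add]; congr 2; ring

theorem sg_succ (b : ℕ → Bool) : 3 * sg b = bv (b 0) + sg (fun i => b (i + 1)) := by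
  rw [sg_split 1 b]; simp; ring

theorem sg_inj : Function.Injective sg := by
  intro b b' hb
  funext i
  induction i generalizing b b' with
  | zero =>
    have h1 := sg_succ b
    have h2 := sg_succ b'
    have := sg_nonneg fun i => b (i + 1)
    have := sg_nonneg fun i => b' (i + 1)
    have := sg_le fun i => b (i + 1)
    have := sg_le fun i => b' (i + 1)
    rw [hb] at h1
    cases hb0 : b 0 <;> cases hb1 : b' 0 <;> simp [hb0, hb1, bv] at h1 h2 ⊢ <;> linarith
  | succ i ih =>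
    have h1 := sg_succ b
    have h2 := sg_succ b'
    have := sg_nonneg fun i => b (i + 1)
    have := sg_nonneg fun i => b' (i + 1)
    have := sg_le fun i => b (i + 1)
    have := sg_le fun i => b' (i + 1)
    rw [hb] at h1
    refine ih (b := fun i => b (i + 1)) (b' := fun i => b' (i + 1)) ?_
    cases hb0 : b 0 <;> cases hb1 : b' 0 <;> simp [hb0, hb1, bv] at h1 h2 ⊢ <;> linarith

theorem field : ∀ (n : ℕ) (ω : Om n), ∃ w : ℝ × ℝ → ℕ → Bool, Measurable w ∧ ∀ z : ℝ × ℝ,
    0 ≤ z.1 → h n ω z.1 1 z.2 ≠ 0 → ∀ b : ℕ → Bool, (∀ i < n, b i = w z i) → ∀ τ, 0 ≤ τ →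
      h n ω (z.1 + τ) (1 + (z.1 + τ)) (z.2 + τ * sg b) ≠ 0
  | 0, _ => by
      refine ⟨fun _ _ => false, measurable_const, fun z z0 hz b _ τ hτ => ?_⟩
      unfold h at hz ⊢
      have h1 : 0 ≤ z.2 ∧ z.2 < 1 := by by_contra hc; simp [hc] at hz
      have := mul_nonneg hτ (sg_nonneg b)
      have := mul_le_mul_of_nonneg_left (sg_le b) hτ
      rw [if_pos ⟨by linarith, by linarith⟩]
      norm_num
  | n + 1, ω => by
      choose W hW1 hW2 using fun c : Fin 3 => field n (ω c).2
      let T : Fin 3 → ℝ × ℝ → ℝ × ℝ := fun c z => (z.1, 3 * z.2 - (c : ℕ) - bv (ω c).1 * z.1)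
      have hT : ∀ c, Measurable (T c) := fun c => by fun_prop
      let G : Fin 3 → ℝ × ℝ → ℕ → Bool := fun c z i =>
        Nat.casesOn i (ω c).1 fun i => W c (T c z) i
      have hG : ∀ c, Measurable (G c) := by
        intro c
        refine measurable_pi_lambda _ fun i => ?_
        cases i with
        | zero => exact measurable_const
        | succ i => exact (measurable_pi_apply i).comp ((hW1 c).comp (hT c))
      let H : Fin 3 → ℝ × ℝ → ℝ := fun c z => h n (ω c).2 (T c z).1 1 (T c z).2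
      have hH : ∀ c, MeasurableSet {z | H c z ≠ 0} := fun c =>
        (((h_meas n (ω c).2).comp (f := fun z : ℝ × ℝ => ((T c z).1, (1:ℝ), (T c z).2))
          (by fun_prop)) (measurableSet_singleton 0)).compl
      have key : ∀ c (z : ℝ × ℝ), 0 ≤ z.1 → H c z ≠ 0 → ∀ b : ℕ → Bool,
          (∀ i < n + 1, b i = G c z i) → ∀ τ, 0 ≤ τ →
          h (n + 1) ω (z.1 + τ) (1 + (z.1 + τ)) (z.2 + τ * sg b) ≠ 0 := by
        intro c z z0 hz b hb τ hτ
        have h1 := hW2 c (T c z) z0 hz (fun i => b (i + 1))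
          (fun i hi => hb (i + 1) (Nat.succ_lt_succ hi)) τ hτ
        have h2 : b 0 = (ω c).1 := hb 0 (Nat.succ_pos n)
        have h3 : (T c z).2 + τ * sg (fun i => b (i + 1))
            = 3 * (z.2 + τ * sg b) - (c : ℕ) - bv (ω c).1 * (z.1 + τ) := by
          have := sg_succ b
          rw [h2] at this
          simp only [T]
          linear_combination (-τ) * this
        rw [h3] at h1
        unfold h
        intro h0
        exact h1 ((Finset.sum_eq_zero_iff_of_nonneg fun c _ => h_nonneg _ _ _ _ _).1 h0 c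
          (Finset.mem_univ _))
      classical
      refine ⟨fun z => if H 0 z ≠ 0 then G 0 z else if H 1 z ≠ 0 then G 1 z else G 2 z,
        Measurable.ite (hH 0) (hG 0) (Measurable.ite (hH 1) (hG 1) (hG 2)), ?_⟩
      intro z z0 hz b hb
      by_cases a0 : H 0 z ≠ 0
      · simp only [if_pos a0] at hb; exact key 0 z z0 a0 b hb
      · by_cases a1 : H 1 z ≠ 0
        · simp only [if_neg a0, if_pos a1] at hb; exact key 1 z z0 a1 b hb
        · simp only [if_neg a0, if_neg a1] at hb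
          refine key 2 z z0 (fun a2 => hz ?_) b hb
          rw [h_succ]
          push Not at a0 a1
          exact (congrArg₂ (· + ·) (congrArg₂ (· + ·) a0 a1) a2).trans (by norm_num)

/-- the far parts of rays lie in `Z` -/
def Sh (N : ℕ) (w : ℝ × ℝ → ℕ → Bool) (B Z : Set (ℝ × ℝ)) : Prop :=
  ∀ z ∈ B, ∀ b : ℕ → Bool, (∀ i < N, b i = w z i) → ∀ τ ∈ Icc (2:ℝ) 16,
    (z.1 + τ, z.2 + τ * sg b) ∈ Z

theorem slice (n : ℕ) {ξ β : ℝ} (hξ : 0 ≤ ξ) (hβ : β ≤ 1 + ξ) :
    ∑ ω : Om n, volume {y | h n ω ξ β y ≠ 0}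
      = ENNReal.ofReal (Fintype.card (Om n) * ∫ y, p n ξ β y) := by
  have ig : ∀ ω, Integrable (g n ω ξ β) := fun ω =>
    integ (g_meas1 n ω ξ β) (g_bd n ω ξ β) (g_supp hξ hβ le_rfl n ω)
  have e1 : ∀ ω, volume {y | h n ω ξ β y ≠ 0} = ENNReal.ofReal (∫ y, g n ω ξ β y) := by
    intro ω
    rw [ofReal_integral_eq_lintegral_ofReal (ig ω)
      (Filter.Eventually.of_forall fun y => (g_bd n ω ξ β y).1),
      ← lintegral_indicator_one (s := {y | h n ω ξ β y ≠ 0})
        (h_meas1 n ω ξ β (measurableSet_singleton 0)).compl]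
    congr 1; funext y
    by_cases hy : h n ω ξ β y = 0 <;> simp [g, hy, indicator]
  simp only [e1]
  rw [← ENNReal.ofReal_sum_of_nonneg fun ω _ => integral_nonneg fun y => (g_bd n ω ξ β y).1,
    ← integral_finsetSum _ fun ω _ => ig ω]
  congr 1
  simp only [p, E]
  rw [integral_div]
  have := card_pos n
  field_simp

theorem sum_vol (n : ℕ) (a b : ℝ) (ha : 0 ≤ a) (β : ℝ → ℝ) (hβ : Measurable β)
    (hβ2 : ∀ x, 0 ≤ x → β x ≤ 1 + x) :
    ∑ ω : Om n, volume {z : ℝ × ℝ | z.1 ∈ Icc a b ∧ h n ω z.1 (β z.1) z.2 ≠ 0}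
      = ∫⁻ x in Icc a b, ENNReal.ofReal (Fintype.card (Om n) * ∫ y, p n x (β x) y) := by
  have hm : ∀ ω, MeasurableSet {z : ℝ × ℝ | h n ω z.1 (β z.1) z.2 ≠ 0} := fun ω =>
    (((h_meas n ω).comp (f := fun z : ℝ × ℝ => (z.1, β z.1, z.2))
          (by fun_prop)) (measurableSet_singleton 0)).compl
  have e1 : ∀ ω, volume {z : ℝ × ℝ | z.1 ∈ Icc a b ∧ h n ω z.1 (β z.1) z.2 ≠ 0}
      = ∫⁻ x in Icc a b, volume (Prod.mk x ⁻¹' {z : ℝ × ℝ | h n ω z.1 (β z.1) z.2 ≠ 0}) := by
    intro ω
    rw [Measure.volume_eq_prod, Measure.prod_apply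
      (s := {z : ℝ × ℝ | z.1 ∈ Icc a b ∧ h n ω z.1 (β z.1) z.2 ≠ 0}) ((measurable_fst measurableSet_Icc).inter (hm ω)), ← lintegral_indicator measurableSet_Icc]
    congr 1; funext x
    by_cases hx : x ∈ Icc a b
    · rw [indicator_of_mem hx]; congr 1; ext y; simp [hx.1, hx.2]
    · rw [indicator_of_notMem hx]
      convert measure_empty (μ := (volume : Measure ℝ))
      ext y; simp only [mem_preimage, mem_empty_iff_false, iff_false]
      exact fun hc => hx hc.1
  simp only [e1]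
  rw [← lintegral_finsetSum _ fun ω _ => measurable_measure_prodMk_left (hm ω)]
  refine setLIntegral_congr_fun measurableSet_Icc fun x hx => ?_
  exact slice n (ha.trans hx.1) (hβ2 x (ha.trans hx.1))

theorem base (lam : ℝ) (hl : 0 < lam) : ∃ (N : ℕ) (w : ℝ × ℝ → ℕ → Bool) (R C : Set (ℝ × ℝ)),
    Measurable w ∧ MeasurableSet R ∧ R ⊆ Icc 0 1 ×ˢ Icc 0 2 ∧
      ENNReal.ofReal lam * volume C < volume R ∧ Sh N w R C := by
  obtain ⟨n, hn⟩ := exists_nat_gt (Real.exp (6480 * lam))
  have n0 : (0:ℝ) < n := (Real.exp_pos _).trans hn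
  have hlog : 6480 * lam < Real.log (1 + 6 * n) := by
    rw [Real.lt_log_iff_exp_lt (by positivity)]; linarith
  have c0 := card_pos n
  have s1 := sum_vol n 0 1 le_rfl (fun _ => 1) measurable_const (fun x hx => by linarith)
  have s2 := sum_vol n 2 17 (by norm_num) (fun x => 1 + x) (by fun_prop) (fun x _ => le_rfl)
  generalize (Fintype.card (Om n) : ℝ) = c at c0 s1 s2
  have b2 : ∫⁻ x in Icc (2:ℝ) 17, ENNReal.ofReal (c * ∫ y, p n x (1 + x) y)
      ≤ ENNReal.ofReal (c * (1080 / n)) := by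
    refine (setLIntegral_mono' measurableSet_Icc (g := fun _ => ENNReal.ofReal (c * (72 / n)))
      fun x hx => ENNReal.ofReal_le_ofReal (mul_le_mul_of_nonneg_left ?_ c0.le)).trans ?_
    · refine (core' x (by linarith [hx.1]) n).trans ?_
      rw [div_mul_eq_mul_div, div_le_div_iff₀ (by positivity) n0]
      nlinarith [hx.1, hx.2]
    · rw [setLIntegral_const, Real.volume_Icc, ← ENNReal.ofReal_mul (by positivity)]
      exact ENNReal.ofReal_le_ofReal (le_of_eq (by ring))
  have b1 : ENNReal.ofReal (c * (Real.log (1 + 6 * n) / (6 * n)))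
      ≤ ∫⁻ x in Icc (0:ℝ) 1, ENNReal.ofReal (c * ∫ y, p n x 1 y) := by
    have cont : ContinuousOn (fun x : ℝ => c * (1 / (1 + 6 * n * x))) (Icc 0 1) := by
      refine continuousOn_const.mul (continuousOn_const.div (by fun_prop) fun x hx => ?_)
      have := hx.1
      positivity
    have e : ∫ x in Icc (0:ℝ) 1, c * (1 / (1 + 6 * n * x)) = c * (Real.log (1 + 6 * n) / (6 * n)) := by
      rw [integral_Icc_eq_integral_Ioc, ← intervalIntegral.integral_of_le zero_le_one,
        intervalIntegral.integral_eq_sub_of_hasDerivAt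
          (f := fun x => c * (Real.log (1 + 6 * n * x) / (6 * n)))]
      · simp
      · intro x hx
        rw [uIcc_of_le zero_le_one] at hx
        have := hx.1
        have h1 : HasDerivAt (fun x : ℝ => 1 + 6 * n * x) (6 * n) x := by
          simpa using ((hasDerivAt_id x).const_mul (6 * (n:ℝ))).const_add 1
        have h2 := ((h1.log (by positivity)).div_const (6 * n)).const_mul c
        have e3 : c * (1 / (1 + 6 * n * x)) = c * (6 * n / (1 + 6 * n * x) / (6 * n)) := by
          field_simp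
        rw [e3]; exact h2
      · exact (cont.mono (by rw [uIcc_of_le zero_le_one])).intervalIntegrable
    rw [← e, ofReal_integral_eq_lintegral_ofReal (cont.integrableOn_Icc)
      ((ae_restrict_iff' measurableSet_Icc).2 (Filter.Eventually.of_forall fun x hx => by
        have := hx.1
        simp only [Pi.zero_apply]
        positivity))]
    exact setLIntegral_mono' measurableSet_Icc fun x hx =>
      ENNReal.ofReal_le_ofReal (mul_le_mul_of_nonneg_left (reach hx.1 n) c0.le)
  obtain ⟨ω, hω⟩ : ∃ ω : Om n, ENNReal.ofReal lam *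
      volume {z : ℝ × ℝ | z.1 ∈ Icc (2:ℝ) 17 ∧ h n ω z.1 (1 + z.1) z.2 ≠ 0}
      < volume {z : ℝ × ℝ | z.1 ∈ Icc (0:ℝ) 1 ∧ h n ω z.1 1 z.2 ≠ 0} := by
    by_contra hno
    push Not at hno
    have h1 := Finset.sum_le_sum fun ω (_ : ω ∈ Finset.univ) => hno ω
    rw [← Finset.mul_sum, s1, s2] at h1
    have h2 := b1.trans (h1.trans (mul_le_mul_right b2 _))
    rw [← ENNReal.ofReal_mul hl.le, ENNReal.ofReal_le_ofReal_iff (by positivity)] at h2
    have h3 : c * (6480 * lam / (6 * n)) < c * (Real.log (1 + 6 * n) / (6 * n)) :=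
      mul_lt_mul_of_pos_left (div_lt_div_of_pos_right hlog (by positivity)) c0
    have h4 : c * (6480 * lam / (6 * n)) = lam * (c * (1080 / n)) := by field_simp; ring
    linarith
  obtain ⟨w, w1, w2⟩ := field n ω
  refine ⟨n, w, _, _, w1, ?_, ?_, hω, ?_⟩
  · exact (measurable_fst measurableSet_Icc).inter
      (((h_meas n ω).comp (f := fun z : ℝ × ℝ => (z.1, (1:ℝ), z.2))
          (by fun_prop)) (measurableSet_singleton 0)).compl
  · rintro z ⟨z1, z2⟩
    have := h_supp (β := 1) (L := 2) z1.1 (by norm_num) (by linarith [z1.2]) n ω z.2 z2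
    exact ⟨z1, this.1, this.2.le⟩
  · rintro z ⟨z1, z2⟩ b hb τ hτ
    exact ⟨⟨by linarith [z1.1, hτ.1], by linarith [z1.2, hτ.2]⟩,
      w2 z z1.1 z2 b hb τ (by linarith [hτ.1])⟩

end Pool.Agent.H94.KC
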