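import Pool.Agent.H94.KC3

set_option autoImplicit false

open MeasureTheory Set

namespace Pool.Agent.H94.KC

/-- square box -/
def Bx (T : ℝ) : Set (ℝ × ℝ) := Icc (-T) T ×ˢ Icc (-T) T

theorem Bx_meas (T : ℝ) : MeasurableSet (Bx T) := measurableSet_Icc.prod measurableSet_Icc

theorem Bx_vol {T : ℝ} (hT : 0 ≤ T) : volume (Bx T) = ENNReal.ofReal (4 * T ^ 2) := by
  rw [Bx, Measure.volume_eq_prod, Measure.prod_prod, Real.volume_Icc,
    ← ENNReal.ofReal_mul (by linarith)]
  congr 1; ring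

theorem avg {T : ℝ} (hT : 0 ≤ T) {U R : Set (ℝ × ℝ)} (hU : MeasurableSet U) (hR : MeasurableSet R)
    (h1 : U ⊆ Bx T) (h2 : R ⊆ Icc 0 1 ×ˢ Icc 0 2) (h0 : volume R * volume U ≠ 0) :
    ∃ v, volume R * volume U ≤ 2 * volume (Bx (T + 2)) * volume (U ∩ (fun z => z - v) ⁻¹' R) := by
  by_contra hno
  push Not at hno
  let S : Set ((ℝ × ℝ) × (ℝ × ℝ)) := {q | q.2 ∈ U ∧ q.2 - q.1 ∈ R}
  have hS : MeasurableSet S :=
    (measurable_snd hU).inter ((measurable_snd.sub measurable_fst) hR)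
  have e1 := Measure.prod_apply (μ := (volume : Measure (ℝ × ℝ))) (ν := volume) hS
  have e2 := Measure.prod_apply_symm (μ := (volume : Measure (ℝ × ℝ))) (ν := volume) hS
  have e3 : ∫⁻ z : ℝ × ℝ, volume ((fun v => (v, z)) ⁻¹' S) = volume R * volume U := by
    rw [← lintegral_indicator_const hU]
    congr 1; funext z
    by_cases hz : z ∈ U
    · rw [indicator_of_mem hz, ← (Measure.measurePreserving_sub_left volume z).measure_preimage
        hR.nullMeasurableSet]
      congr 1; ext v; simp [S, hz]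
    · rw [indicator_of_notMem hz]
      convert measure_empty (μ := (volume : Measure (ℝ × ℝ)))
      ext v; simp [S, hz]
  set a := volume R * volume U with ha
  set V := volume (Bx (T + 2)) with hV
  have V1 : V ≠ ⊤ := by rw [hV, Bx_vol (by linarith)]; exact ENNReal.ofReal_ne_top
  have V0 : V ≠ 0 := by
    rw [hV, Bx_vol (by linarith)]; exact (ENNReal.ofReal_pos.2 (by positivity)).ne'
  have a1 : a ≠ ⊤ := by
    refine ENNReal.mul_ne_top (ne_top_of_le_ne_top ?_ (measure_mono h2))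
      (ne_top_of_le_ne_top ?_ (measure_mono h1))
    · exact (isCompact_Icc.prod isCompact_Icc).measure_lt_top.ne
    · rw [Bx_vol hT]; exact ENNReal.ofReal_ne_top
  have e4 : 2 * V * a ≤ a * V := by
    have e5 : a = ∫⁻ v : ℝ × ℝ, volume (Prod.mk v ⁻¹' S) := by rw [← e3, ← e2, e1]
    have e6 : a * V = ∫⁻ v, (Bx (T + 2)).indicator (fun _ => a) v :=
      (lintegral_indicator_const (Bx_meas _) _).symm
    rw [e6]
    conv_lhs => rw [e5, ← lintegral_const_mul' _ _ (ENNReal.mul_ne_top (by simp) V1)]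
    refine lintegral_mono fun v => ?_
    by_cases hv : v ∈ Bx (T + 2)
    · rw [indicator_of_mem hv]; exact (hno v).le
    · have : Prod.mk v ⁻¹' S = ∅ := by
        rw [eq_empty_iff_forall_notMem]
        rintro z ⟨z1, z2⟩
        obtain ⟨⟨b1, b2⟩, b3, b4⟩ := h1 z1
        obtain ⟨⟨c1, c2⟩, c3, c4⟩ := h2 z2
        simp only [Prod.fst_sub, Prod.snd_sub] at c1 c2 c3 c4
        exact hv ⟨⟨by linarith, by linarith⟩, by linarith, by linarith⟩
      simp [this]
  rw [mul_assoc, two_mul, mul_comm a V] at e4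
  have := (ENNReal.add_le_add_iff_left (ENNReal.mul_ne_top V1 a1) (c := 0)).1 (by simpa using e4)
  exact mul_ne_zero V0 h0 (le_antisymm this (zero_le))

theorem cover {T ε : ℝ} (hT : 0 ≤ T) (hε : 0 < ε) : ∃ (N : ℕ) (w : ℝ × ℝ → ℕ → Bool)
    (B Z : Set (ℝ × ℝ)), Measurable w ∧ MeasurableSet B ∧ volume (Bx T \ B) ≤ ENNReal.ofReal ε ∧
      volume Z ≤ ENNReal.ofReal ε ∧ Sh N w B Z := by
  set V : ℝ := 4 * (T + 2) ^ 2 with hV
  have V0 : 0 < V := by positivity
  have hBV : volume (Bx (T + 2)) = ENNReal.ofReal V := Bx_vol (by linarith)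
  set lam : ℝ := (2 * V ^ 2 / ε + V) / ε with hlam
  have l0 : 0 < lam := by positivity
  obtain ⟨N, w0, R, C, a1, a2, a3, a4, a5⟩ := base lam l0
  have r1 : volume R ≤ ENNReal.ofReal V := by
    rw [← hBV]
    refine measure_mono (a3.trans ?_)
    rintro z ⟨⟨c1, c2⟩, c3, c4⟩
    exact ⟨⟨by linarith, by linarith⟩, by linarith, by linarith⟩
  have r2 : volume R ≠ ⊤ := ne_top_of_le_ne_top ENNReal.ofReal_ne_top r1
  have c2 : volume C ≠ ⊤ := by
    intro hc
    rw [hc, ENNReal.mul_top (ENNReal.ofReal_pos.2 l0).ne'] at a4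
    exact not_top_lt a4
  obtain ⟨r, r0, hr⟩ : ∃ r, 0 ≤ r ∧ volume R = ENNReal.ofReal r :=
    ⟨_, ENNReal.toReal_nonneg, (ENNReal.ofReal_toReal r2).symm⟩
  obtain ⟨c, c0, hc⟩ : ∃ r, 0 ≤ r ∧ volume C = ENNReal.ofReal r :=
    ⟨_, ENNReal.toReal_nonneg, (ENNReal.ofReal_toReal c2).symm⟩
  rw [hr, hc, ← ENNReal.ofReal_mul l0.le, ENNReal.ofReal_lt_ofReal_iff_of_nonneg (by positivity)]
    at a4
  rw [hr, ENNReal.ofReal_le_ofReal_iff V0.le] at r1
  have r3 : 0 < r := lt_of_le_of_lt (by positivity) a4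
  set δ : ℝ := ε * r / (2 * V) with hδ
  have δ0 : 0 < δ := by positivity
  have key : ∀ M : ℕ, ∃ (w : ℝ × ℝ → ℕ → Bool) (B Z : Set (ℝ × ℝ)), Measurable w ∧
      MeasurableSet B ∧ Sh N w B Z ∧ volume Z ≤ ENNReal.ofReal (M * c) ∧
      (volume (Bx T \ B) ≤ ENNReal.ofReal ε ∨
        volume (Bx T \ B) + ENNReal.ofReal (M * δ) ≤ ENNReal.ofReal V) := by
    intro M
    induction M with
    | zero =>
      refine ⟨w0, ∅, ∅, a1, MeasurableSet.empty, fun z hz => hz.elim, by simp, Or.inr ?_⟩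
      rw [sdiff_empty, Bx_vol hT, Nat.cast_zero, zero_mul, ENNReal.ofReal_zero, add_zero]
      exact ENNReal.ofReal_le_ofReal (by rw [hV]; nlinarith)
    | succ M ih =>
      obtain ⟨w, B, Z, b1, b2, b3, b4, b5⟩ := ih
      by_cases hU : volume (Bx T \ B) ≤ ENNReal.ofReal ε
      · refine ⟨w, B, Z, b1, b2, b3, b4.trans (ENNReal.ofReal_le_ofReal ?_), Or.inl hU⟩
        push_cast; nlinarith
      have b6 := b5.resolve_left hU
      rw [not_le] at hU
      obtain ⟨v, hv⟩ := avg hT ((Bx_meas T).diff b2) a2 sdiff_subset a3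
        (mul_ne_zero (by rw [hr]; exact (ENNReal.ofReal_pos.2 r3).ne') (ne_zero_of_lt hU))
      have mv : Measurable fun z : ℝ × ℝ => z - v := by fun_prop
      classical
      refine ⟨fun z => if z ∈ B then w z else w0 (z - v), B ∪ (fun z => z - v) ⁻¹' R,
        Z ∪ (fun z => z - v) ⁻¹' C, Measurable.ite b2 b1 (a1.comp mv), b2.union (mv a2), ?_, ?_,
        Or.inr ?_⟩
      · intro z hz b hb τ hτ
        by_cases hzB : z ∈ B
        · simp only [if_pos hzB] at hb
          exact Or.inl (b3 z hzB b hb τ hτ)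
        · simp only [if_neg hzB] at hb
          have := a5 (z - v) (hz.resolve_left hzB) b hb τ hτ
          refine Or.inr ?_
          rw [mem_preimage]
          convert this using 1
          ext <;> simp <;> ring
      · refine (measure_union_le _ _).trans ?_
        have : volume ((fun z : ℝ × ℝ => z - v) ⁻¹' C) = volume C := by
          simp only [sub_eq_add_neg]; exact measure_preimage_add_right _ _ _
        rw [this, hc]
        refine (add_le_add b4 le_rfl).trans ?_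
        rw [← ENNReal.ofReal_add (by positivity) c0]
        exact ENNReal.ofReal_le_ofReal (le_of_eq (by push_cast; ring))
      · have d1 : ENNReal.ofReal δ ≤ volume ((Bx T \ B) ∩ (fun z => z - v) ⁻¹' R) := by
          have d2 : ENNReal.ofReal (2 * V) * ENNReal.ofReal δ
              ≤ ENNReal.ofReal (2 * V) * volume ((Bx T \ B) ∩ (fun z => z - v) ⁻¹' R) := by
            rw [← ENNReal.ofReal_mul (by positivity), ENNReal.ofReal_mul (p := 2) (by norm_num),
              ← hBV, ENNReal.ofReal_ofNat]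
            refine le_trans ?_ hv
            rw [hr]
            refine le_trans (le_of_eq ?_) (mul_le_mul_right hU.le _)
            rw [← ENNReal.ofReal_mul r0]
            congr 1; rw [hδ]; field_simp
          exact (ENNReal.mul_le_mul_iff_right (ENNReal.ofReal_pos.2 (by positivity)).ne'
            ENNReal.ofReal_ne_top).1 d2
        have d3 := measure_inter_add_sdiff (μ := volume) (Bx T \ B) (mv a2)
        rw [← Set.sdiff_sdiff]
        refine le_trans ?_ b6
        rw [← d3]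
        push_cast
        rw [add_mul, one_mul, ENNReal.ofReal_add (by positivity) δ0.le, add_comm (ENNReal.ofReal _),
          ← add_assoc, add_comm _ (ENNReal.ofReal δ)]
        gcongr
  obtain ⟨w, B, Z, b1, b2, b3, b4, b5⟩ := key (⌊V / δ⌋₊ + 1)
  have f1 : V / δ < (⌊V / δ⌋₊ + 1 : ℕ) := by push_cast; exact Nat.lt_floor_add_one _
  have f2 : ((⌊V / δ⌋₊ + 1 : ℕ) : ℝ) ≤ V / δ + 1 := by
    push_cast; linarith [Nat.floor_le (show 0 ≤ V / δ by positivity)]
  refine ⟨N, w, B, Z, b1, b2, b5.resolve_right fun h => ?_,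
    b4.trans (ENNReal.ofReal_le_ofReal ?_), b3⟩
  · have := (ENNReal.ofReal_le_ofReal_iff V0.le).1 (le_add_self.trans h)
    rw [div_lt_iff₀ δ0] at f1
    linarith
  · refine (mul_le_mul_of_nonneg_right f2 c0).trans ?_
    have g1 : c ≤ r / lam := by rw [le_div_iff₀ l0]; linarith
    have g2 : (V / δ + 1) * (r / lam) = (2 * V ^ 2 / ε + r) / lam := by
      rw [hδ]; field_simp
    have g3 : (2 * V ^ 2 / ε + r) / lam ≤ ε := by
      rw [div_le_iff₀ l0, hlam, mul_div_cancel₀ _ hε.ne']; linarith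
    exact (mul_le_mul_of_nonneg_left g1 (by positivity)).trans (g2 ▸ g3)

theorem shear (a k : ℝ) (hk : 1 ≤ k) (X : Set (ℝ × ℝ)) :
    volume ((fun z : ℝ × ℝ => (z.1, k * (z.2 - a * z.1))) ⁻¹' X) ≤ volume X := by
  let f : (ℝ × ℝ) →ₗ[ℝ] (ℝ × ℝ) :=
    Matrix.toLin (Module.Basis.finTwoProd ℝ) (Module.Basis.finTwoProd ℝ) !![1, 0; -(k * a), k]
  have hd : LinearMap.det f = k := by simp [f, LinearMap.det_toLin, Matrix.det_fin_two]
  have e : (fun z : ℝ × ℝ => (z.1, k * (z.2 - a * z.1))) = f := by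
    funext z
    simp only [f, Matrix.toLin_finTwoProd_apply]
    ext <;> simp
    ring
  rw [e, Measure.addHaar_preimage_linearMap _ (by rw [hd]; linarith), hd]
  refine mul_le_of_le_one_left (zero_le) ?_
  rw [ENNReal.ofReal_le_one, abs_of_pos (by positivity)]
  exact inv_le_one_of_one_le₀ hk

theorem step (f : ℝ × ℝ → Bool) (hf : Measurable f) (L : ℕ) (w : ℝ × ℝ → ℕ → Bool)
    (hw : Measurable w) {ε : ℝ} (hε : 0 < ε) :
    ∃ (L' : ℕ) (w' : ℝ × ℝ → ℕ → Bool) (B Z : Set (ℝ × ℝ)), Measurable w' ∧ L < L' ∧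
      (∀ z, ∀ i < L, w' z i = w z i) ∧ (∃ i < L', ∀ z, w' z i = f z) ∧ MeasurableSet B ∧
      volume (Bx 1 \ B) ≤ ENNReal.ofReal ε ∧ volume Z ≤ ENNReal.ofReal ε ∧ Sh L' w' B Z := by
  have k1 : (1:ℝ) ≤ 3 ^ L := one_le_pow₀ (by norm_num)
  obtain ⟨N, w0, B0, Z0, a1, a2, a3, a4, a5⟩ := cover (T := 2 * 3 ^ L) (ε := ε / 2 ^ L)
    (by positivity) (by positivity)
  let s : (Fin L → Bool) → ℝ := fun u => ∑ i, bv (u i) / 3 ^ ((i : ℕ) + 1)
  have hs : ∀ b : ℕ → Bool, sg b = s (fun i => b i) + sg (fun i => b (i + L)) / 3 ^ L := by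
    intro b; rw [sg_split L b, Finset.sum_range]
  let ψ : (Fin L → Bool) → ℝ × ℝ → ℝ × ℝ := fun u z => (z.1, 3 ^ L * (z.2 - s u * z.1))
  have hψ : Measurable fun z => ψ (fun i => w z i) z := by
    have : Measurable fun z => s fun i => w z i :=
      (measurable_of_countable s).comp
        (measurable_pi_lambda _ fun i => (measurable_pi_apply (i : ℕ)).comp hw)
    simp only [ψ]
    fun_prop
  have un : ∀ X : Set (ℝ × ℝ), volume X ≤ ENNReal.ofReal (ε / 2 ^ L) →
      volume (⋃ u, ψ u ⁻¹' X) ≤ ENNReal.ofReal ε := by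
    intro X hX
    refine (measure_iUnion_fintype_le _ _).trans ?_
    refine (Finset.sum_le_sum fun u _ => (shear (s u) _ k1 X).trans hX).trans ?_
    rw [← ENNReal.ofReal_sum_of_nonneg fun _ _ => by positivity]
    refine ENNReal.ofReal_le_ofReal (le_of_eq ?_)
    simp
    field_simp
  refine ⟨L + N + 1, fun z i => if i < L then w z i else if i < L + N then
      w0 (ψ (fun i => w z i) z) (i - L) else f z, (fun z => ψ (fun i => w z i) z) ⁻¹' B0,
      ⋃ u, ψ u ⁻¹' Z0, ?_, by omega, fun z i hi => if_pos hi,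
      ⟨L + N, by omega, fun z => by
        beta_reduce; rw [if_neg (by omega), if_neg (by omega)]⟩, hψ a2, ?_,
      un _ a4, ?_⟩
  · refine measurable_pi_lambda _ fun i => ?_
    split_ifs
    · exact (measurable_pi_apply i).comp hw
    · exact (measurable_pi_apply _).comp (a1.comp hψ)
    · exact hf
  · refine (measure_mono ?_).trans (un _ a3)
    rintro z ⟨⟨⟨z1, z2⟩, z3, z4⟩, z5⟩
    refine mem_iUnion.2 ⟨fun i => w z i, ⟨⟨by simp only [ψ]; linarith, by simp only [ψ]; linarith⟩, ?_⟩, z5⟩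
    have e := hs (w z)
    have e1 := sg_nonneg (w z)
    have e2 := sg_le (w z)
    have e3 : 0 ≤ sg (fun i => w z (i + L)) / 3 ^ L := div_nonneg (sg_nonneg _) (by positivity)
    have e4 : 0 ≤ s fun i => w z i :=
      Finset.sum_nonneg fun i _ => div_nonneg (bv_nonneg _) (by positivity)
    have e5 : |z.2 - (s fun i => w z i) * z.1| ≤ 2 := by
      rw [abs_le]; constructor <;> nlinarith
    rw [abs_le] at e5
    simp only [ψ]
    constructor <;> nlinarith [e5.1, e5.2]
  · intro z hz b hb τ hτ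
    have e1 : (fun i : Fin L => b i) = fun i : Fin L => w z i := by
      funext i; rw [hb i (by omega)]; exact if_pos i.2
    have := a5 _ hz (fun i => b (i + L)) (fun i hi => by
      rw [hb _ (by omega)]
      beta_reduce
      rw [if_neg (by omega), if_pos (by omega), Nat.add_sub_cancel]) τ hτ
    refine mem_iUnion.2 ⟨fun i => w z i, ?_⟩
    rw [mem_preimage]
    convert this using 1
    simp only [ψ]
    rw [hs b, e1]
    congr 1
    field_simp
    ring

theorem final : ∃ (P Z : Set (ℝ × ℝ)) (b : ℝ × ℝ → ℕ → Bool), MeasurableSet P ∧ 0 < volume P ∧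
    volume Z = 0 ∧ Function.Injective b ∧
    ∀ z ∈ P, ∀ τ ∈ Icc (2:ℝ) 16, (z.1 + τ, z.2 + τ * sg (b z)) ∈ Z := by
  obtain ⟨f, f1, f2⟩ := MeasurableSpace.measurable_injection_nat_bool_of_countablySeparated (ℝ × ℝ)
  have st := fun (k : ℕ) (x : ℕ × {w : ℝ × ℝ → ℕ → Bool // Measurable w}) =>
    step (fun z => f z k) ((measurable_pi_apply k).comp f1) x.1 x.2.1 x.2.2
      (ε := (1 / 2) ^ k) (by positivity)
  choose L' w' B Z s1 s2 s3 s4 s5 s6 s7 s8 using st
  let X : ℕ → ℕ × {w : ℝ × ℝ → ℕ → Bool // Measurable w} := fun k =>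
    Nat.rec (0, ⟨fun _ _ => false, measurable_const⟩) (fun k x => (L' k x, ⟨w' k x, s1 k x⟩)) k
  have X1 : ∀ k, (X (k + 1)).1 = L' k (X k) := fun k => rfl
  have X2 : ∀ k, (X (k + 1)).2.1 = w' k (X k) := fun k => rfl
  have mono : StrictMono fun k => (X k).1 := strictMono_nat_of_lt_succ fun k => s2 k (X k)
  have agree : ∀ k d z, ∀ i < (X k).1, (X (k + d)).2.1 z i = (X k).2.1 z i := by
    intro k d z i hi
    induction d with
    | zero => rfl
    | succ d ih =>
      rw [← add_assoc, X2, s3 _ _ z i (hi.trans_le (mono.monotone (Nat.le_add_right k d))), ih]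
  let b : ℝ × ℝ → ℕ → Bool := fun z i => (X (i + 1)).2.1 z i
  have hb : ∀ k z, ∀ i < (X k).1, b z i = (X k).2.1 z i := by
    intro k z i hi
    have h1 := agree k (i + 1) z i hi
    have h2 := agree (i + 1) k z i (lt_of_lt_of_le (Nat.lt_succ_self i) (mono.id_le (i + 1)))
    rw [add_comm] at h2
    exact h2.symm.trans h1
  refine ⟨Bx 1 ∩ ⋂ k, B k (X k), ⋂ k, Z k (X k), b,
    (Bx_meas 1).inter (MeasurableSet.iInter fun k => s5 k _), ?_, ?_, ?_, ?_⟩
  · by_contra h0
    rw [not_lt, nonpos_iff_eq_zero] at h0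
    have h1 : volume (Bx 1) ≤ volume (Bx 1 ∩ ⋂ k, B k (X k)) + volume (⋃ k, Bx 1 \ B k (X k)) := by
      refine (measure_mono ?_).trans (measure_union_le _ _)
      intro z hz
      by_cases h : z ∈ ⋂ k, B k (X k)
      · exact Or.inl ⟨hz, h⟩
      · rw [mem_iInter, not_forall] at h
        obtain ⟨k, hk⟩ := h
        exact Or.inr (mem_iUnion.2 ⟨k, hz, hk⟩)
    rw [h0, zero_add, Bx_vol zero_le_one] at h1
    have h2 := h1.trans ((measure_iUnion_le _).trans (ENNReal.tsum_le_tsum fun k => s6 k (X k)))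
    rw [← ENNReal.ofReal_tsum_of_nonneg (fun k => by positivity) summable_geometric_two,
      tsum_geometric_two, ENNReal.ofReal_le_ofReal_iff (by norm_num)] at h2
    norm_num at h2
  · refine le_antisymm ?_ (zero_le)
    have t : Filter.Tendsto (fun k : ℕ => ENNReal.ofReal ((1 / 2 : ℝ) ^ k)) Filter.atTop (nhds 0) := by
      rw [← ENNReal.ofReal_zero]
      exact ENNReal.tendsto_ofReal
        (tendsto_pow_atTop_nhds_zero_of_lt_one (by norm_num) (by norm_num))
    exact ge_of_tendsto' t fun k => (measure_mono (iInter_subset _ k)).trans (s7 k _)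
  · intro z z' hz
    apply f2
    funext k
    obtain ⟨i, hi, h⟩ := s4 k (X k)
    rw [← h z, ← h z', ← X2, ← hb (k + 1) z i hi, ← hb (k + 1) z' i hi, hz]
  · rintro z ⟨-, hz⟩ τ hτ
    exact mem_iInter.2 fun k => s8 k (X k) z (mem_iInter.1 hz k) (b z) (hb (k + 1) z) τ hτ

end Pool.Agent.H94.KC
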