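import Mathlib

set_option autoImplicit false
namespace Pool.Agent.H94.KH
open Set MeasureTheory Metric Real Filter Topology

variable {N : ℕ}

/-- The heat kernel on `ℝ^N`. -/
noncomputable def K (t : ℝ) (z : EuclideanSpace ℝ (Fin N)) : ℝ :=
  ((4 * π * t) ^ (N / 2 : ℝ))⁻¹ * Real.exp (-‖z‖ ^ 2 / (4 * t))

/-- The heat semigroup. -/
noncomputable def P (t : ℝ) (g : EuclideanSpace ℝ (Fin N) → ℝ) (x : EuclideanSpace ℝ (Fin N)) : ℝ :=
  ∫ y, K t (x - y) * g y

abbrev E (N : ℕ) := EuclideanSpace ℝ (Fin N)

theorem K_pos {t : ℝ} (ht : 0 < t) (z : E N) : 0 < K t z := by unfold K; positivity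

theorem K_one {t : ℝ} (ht : 0 < t) (x : E N) : ∫ y, K t (x - y) = 1 := by
  rw [integral_sub_left_eq_self (K t)]
  have := GaussianFourier.integral_rexp_neg_mul_sq_norm (V := E N) (b := (4 * t)⁻¹) (by positivity)
  simp only [K, integral_const_mul, neg_div, div_eq_inv_mul (‖_‖ ^ 2), ← neg_mul]
  rw [this, finrank_euclideanSpace_fin, div_inv_eq_mul, show π * (4 * t) = 4 * π * t by ring]
  exact inv_mul_cancel₀ (by positivity)

theorem K_int {t : ℝ} (ht : 0 < t) (x : E N) : Integrable fun y => K t (x - y) :=
  Integrable.of_integral_ne_zero (by rw [K_one ht]; norm_num)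

@[fun_prop] theorem K_meas {α : Type} [MeasurableSpace α] {a : α → ℝ} {b : α → E N}
    (ha : Measurable a) (hb : Measurable b) : Measurable fun p => K (a p) (b p) := by
  unfold K; fun_prop

theorem Pi {t C : ℝ} (ht : 0 < t) {g : E N → ℝ} (hg : Measurable g) (h : ∀ y, |g y| ≤ C) (x : E N) :
    Integrable fun y => K t (x - y) * g y :=
  (K_int ht x).mul_bdd hg.aestronglyMeasurable (ae_of_all _ h)

theorem P_const {t : ℝ} (ht : 0 < t) (c : ℝ) (x : E N) : P t (fun _ => c) x = c := by
  rw [P, integral_mul_const, K_one ht, one_mul]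

theorem P_abs {t : ℝ} (ht : 0 < t) {g k : E N → ℝ} {x : E N} (h : ∀ y, |g y| ≤ k y)
    (hk : Integrable fun y => K t (x - y) * k y) : |P t g x| ≤ P t k x :=
  norm_integral_le_of_norm_le (f := fun y => K t (x - y) * g y) hk (ae_of_all _ fun y => by
    rw [norm_mul, Real.norm_of_nonneg (K_pos ht _).le]
    exact mul_le_mul_of_nonneg_left (h y) (K_pos ht _).le)

theorem P_bd {t C : ℝ} (ht : 0 < t) {g : E N → ℝ} (h : ∀ y, |g y| ≤ C) (x : E N) :
    |P t g x| ≤ C :=
  (P_abs ht h ((K_int ht x).mul_const C)).trans_eq (P_const ht C x)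

theorem P_mono {t : ℝ} (ht : 0 < t) {g k : E N → ℝ} {x : E N} (h : ∀ y, g y ≤ k y)
    (hg : Integrable fun y => K t (x - y) * g y) (hk : Integrable fun y => K t (x - y) * k y) :
    P t g x ≤ P t k x :=
  integral_mono hg hk fun y => mul_le_mul_of_nonneg_left (h y) (K_pos ht _).le

theorem P_meas {α : Type} [MeasurableSpace α] {a : α → ℝ} {b : α → E N} {G : α → E N → ℝ}
    (ha : Measurable a) (hb : Measurable b) (hG : Measurable fun p : α × E N => G p.1 p.2) :
    Measurable fun p => P (a p) (G p) (b p) :=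
  (StronglyMeasurable.integral_prod_right' (f := fun q : α × E N =>
    K (a q.1) (b q.1 - q.2) * G q.1 q.2) (Measurable.stronglyMeasurable (by fun_prop))).measurable

theorem P_exp {t : ℝ} (ht : 0 < t) (l : ℝ) (i : Fin N) (x : E N) :
    (Integrable fun y => K t (x - y) * Real.exp (l * y i)) ∧
      P t (fun y => Real.exp (l * y i)) x = Real.exp (l ^ 2 * t + l * x i) := by
  have e : ∀ y : E N, K t (x - y) * Real.exp (l * y i) =
      K t (x + EuclideanSpace.single i (2 * t * l) - y) * Real.exp (l ^ 2 * t + l * x i) := fun y => by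
    rw [K, K, mul_assoc _ (Real.exp _), mul_assoc _ (Real.exp _), ← Real.exp_add, ← Real.exp_add,
      add_sub_right_comm,
      norm_add_sq_real, EuclideanSpace.inner_single_right, PiLp.norm_single, Real.norm_eq_abs, sq_abs]
    congr 2
    simp only [PiLp.sub_apply, conj_trivial]
    field_simp; ring
  simp only [P, e]
  exact ⟨(K_int ht _).mul_const _, by rw [integral_mul_const, K_one ht, one_mul]⟩

theorem KK {a b : ℝ} (ha : 0 < a) (hb : 0 < b) (x y : E N) :
    ∫ z, K a (x - z) * K b (z - y) = K (a + b) (x - y) := by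
  have e : ∀ z : E N, K a (x - z) * K b (z - y) = K (a + b) (x - y) *
      K (a * b / (a + b)) ((a + b)⁻¹ • (b • x + a • y) - z) := fun z => by
    simp only [K]
    rw [mul_mul_mul_comm (_)⁻¹ (Real.exp _), mul_mul_mul_comm (_)⁻¹ (Real.exp _), ← mul_inv, ← mul_inv, ← Real.exp_add,
      ← Real.exp_add, ← Real.mul_rpow (by positivity) (by positivity),
      ← Real.mul_rpow (by positivity) (by positivity)]
    congr 2
    · congr 1; field_simp
    · simp only [EuclideanSpace.real_norm_sq_eq, neg_div, Finset.sum_div, ← Finset.sum_neg_distrib,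
        ← Finset.sum_add_distrib, PiLp.sub_apply, PiLp.smul_apply, PiLp.add_apply, smul_eq_mul]
      refine Finset.sum_congr rfl fun i _ => ?_
      field_simp; ring
  simp only [e]
  rw [integral_const_mul, K_one (by positivity), mul_one]

theorem P_swap {α : Type} [MeasurableSpace α] (μ : Measure α) [SFinite μ] {t : ℝ} (ht : 0 < t)
    {G : E N → α → ℝ} {k : E N → α → ℝ} (hG : Measurable fun p : E N × α => G p.1 p.2)
    (h : ∀ y a, |G y a| ≤ k y a) (hk : Measurable fun p : E N × α => k p.1 p.2)
    (ki : ∀ y, Integrable (k y) μ) {C : ℝ} (kb : ∀ y, ∫ a, k y a ∂μ ≤ C) (x : E N) :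
    P t (fun y => ∫ a, G y a ∂μ) x = ∫ a, P t (fun y => G y a) x ∂μ := by
  simp only [P, ← integral_const_mul]
  refine integral_integral_swap ?_
  have k0 : ∀ y a, 0 ≤ k y a := fun y a => (abs_nonneg _).trans (h y a)
  have : Integrable (fun p : E N × α => K t (x - p.1) * k p.1 p.2) (volume.prod μ) := by
    refine (integrable_prod_iff (Measurable.aestronglyMeasurable (by fun_prop))).2
      ⟨ae_of_all _ fun y => (ki y).const_mul (K t (x - y)), ?_⟩
    simp only [norm_mul, integral_const_mul, Real.norm_of_nonneg (K_pos ht _).le,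
      Real.norm_of_nonneg (k0 _ _)]
    exact Pi (C := C) ht (hk.stronglyMeasurable.integral_prod_right').measurable (fun y => by
      rw [abs_of_nonneg (integral_nonneg (k0 y))]; exact kb y) x
  refine this.mono' (Measurable.aestronglyMeasurable (by unfold Function.uncurry; fun_prop))
    (ae_of_all _ fun p => ?_)
  simp only [Function.uncurry, norm_mul, Real.norm_of_nonneg (K_pos ht _).le]
  exact mul_le_mul_of_nonneg_left (h _ _) (K_pos ht _).le

theorem P_semi {a b C : ℝ} (ha : 0 < a) (hb : 0 < b) {g : E N → ℝ} (hg : Measurable g)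
    (h : ∀ y, |g y| ≤ C) (x : E N) : P a (P b g) x = P (a + b) g x := by
  refine (P_swap volume ha (G := fun z y => K b (z - y) * g y) (k := fun z y => K b (z - y) * C)
    (C := C) (by fun_prop) (fun z y => ?_) (by fun_prop) (fun z => (K_int hb z).mul_const C)
    (fun z => (P_const hb C z).le) x).trans ?_
  · rw [abs_mul, abs_of_pos (K_pos hb _)]; exact mul_le_mul_of_nonneg_left (h y) (K_pos hb _).le
  · simp only [P, ← mul_assoc, integral_mul_const, KK ha hb]

theorem P_lin {t C D : ℝ} (ht : 0 < t) {g k : E N → ℝ} (hg : Measurable g) (h : ∀ y, |g y| ≤ C)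
    (hk : Measurable k) (h' : ∀ y, |k y| ≤ D) (a b : ℝ) (x : E N) :
    P t (fun y => a * g y + b * k y) x = a * P t g x + b * P t k x := by
  simp only [P, mul_add, mul_left_comm (K t _)]
  rw [integral_add ((Pi ht hg h x).const_mul _) ((Pi ht hk h' x).const_mul _), integral_const_mul,
    integral_const_mul]

theorem P_shift (t : ℝ) (g : E N → ℝ) (x h : E N) : P t g (x + h) = P t (fun y => g (y + h)) x := by
  rw [P, P, ← integral_add_right_eq_self _ h]
  simp only [add_sub_add_right_eq_sub]

theorem bi {t C : ℝ} {b : ℝ → ℝ} (hb : Measurable b) (h : ∀ s ∈ Ioo 0 t, |b s| ≤ C) :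
    IntegrableOn b (Ioo 0 t) :=
  (integrableOn_const (C := C) measure_Ioo_lt_top.ne).mono' hb.aestronglyMeasurable
    ((ae_restrict_mem measurableSet_Ioo).mono h)

theorem ex_int (c : ℝ) {r t : ℝ} (h : r ≤ t) (d : ℝ) :
    ∫ s in Ioo r t, c * Real.exp (c * s + d) = Real.exp (c * t + d) - Real.exp (c * r + d) := by
  rw [← integral_Ioc_eq_integral_Ioo, ← intervalIntegral.integral_of_le h]
  exact intervalIntegral.integral_eq_sub_of_hasDerivAt (f := fun s => Real.exp (c * s + d))
    (fun s _ => (((hasDerivAt_id' s).const_mul c).add_const d).exp.congr_deriv (by ring))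
    (Continuous.intervalIntegrable (by fun_prop) _ _)

/-- Duhamel's formula with the damping `α`. -/
def Duh (α : ℝ) (v0 : E N → ℝ) (G v : ℝ → E N → ℝ) : Prop :=
  ∀ t, 0 < t → ∀ x, v t x = Real.exp (-α * t) * P t v0 x +
    ∫ s in Ioo 0 t, Real.exp (-α * (t - s)) * P (t - s) (G s) x

theorem ex_le (α : ℝ) {s t : ℝ} (h0 : 0 ≤ s) (h : s ≤ t) : Real.exp (-α * s) ≤ Real.exp (|α| * t) :=
  Real.exp_le_exp.2 (by nlinarith [neg_le_abs α, abs_nonneg α])

theorem shift {α C : ℝ} (β : ℝ) {v0 : E N → ℝ} {G v : ℝ → E N → ℝ} (m0 : Measurable v0)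
    (mG : Measurable fun p : ℝ × E N => G p.1 p.2) (mv : Measurable fun p : ℝ × E N => v p.1 p.2)
    (b0 : ∀ y, |v0 y| ≤ C) (bG : ∀ s y, |G s y| ≤ C) (bv : ∀ s y, |v s y| ≤ C) (h : Duh α v0 G v) :
    Duh β v0 (fun s y => 1 * G s y + (β - α) * v s y) v := by
  intro t ht x
  have mG' : ∀ s, Measurable (G s) := fun s => mG.comp measurable_prodMk_left
  have mv' : ∀ s, Measurable (v s) := fun s => mv.comp measurable_prodMk_left
  have C0 : 0 ≤ C := (abs_nonneg _).trans (b0 0)
  set a := P t v0 x
  obtain ⟨b, hb⟩ : ∃ b : ℝ → ℝ, ∀ r, b r = P (t - r) (G r) x := ⟨_, fun _ => rfl⟩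
  have mb : Measurable b := funext hb ▸ P_meas (by fun_prop) measurable_const mG
  have bb : ∀ r, r < t → |b r| ≤ C := fun r hr => hb r ▸ P_bd (by linarith) (bG r) x
  have e1 : ∀ s ∈ Ioo 0 t, P (t - s) (v s) x = Real.exp (-α * s) * a +
      ∫ r in Ioo 0 s, Real.exp (-α * (s - r)) * b r := fun s hs => by
    have ts : 0 < t - s := sub_pos.2 hs.2
    let G' : E N → ℝ → ℝ := fun y => (Ioo 0 s).indicator fun r =>
      Real.exp (-α * (s - r)) * P (s - r) (G r) y
    have mG' : Measurable fun p : E N × ℝ => G' p.1 p.2 :=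
      Measurable.indicator (f := fun p : E N × ℝ => Real.exp (-α * (s - p.2)) * P (s - p.2) (G p.2) p.1)
        (Measurable.mul (by fun_prop) (P_meas (by fun_prop) measurable_fst (by fun_prop)))
        (measurable_snd measurableSet_Ioo)
    have bG' : ∀ y r, |G' y r| ≤ (Ioo 0 s).indicator (fun _ => Real.exp (|α| * s) * C) r :=
      fun y r => by
        by_cases hr : r ∈ Ioo 0 s
        · simp only [G', indicator_of_mem hr, abs_mul, abs_exp]
          exact mul_le_mul (ex_le α (by linarith [hr.2]) (by linarith [hr.1]))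
            (P_bd (by linarith [hr.2]) (bG r) y) (abs_nonneg _) (by positivity)
        · simp [G', hr]
    have ki := (integrable_indicator_iff (μ := volume) measurableSet_Ioo).2
      (integrableOn_const (s := Ioo 0 s) (C := Real.exp (|α| * s) * C) measure_Ioo_lt_top.ne)
    have sw := P_swap volume ts mG' bG' (measurable_const.indicator (measurable_snd measurableSet_Ioo))
      (fun _ => ki) (fun _ => le_rfl) x
    have : v s = fun y => Real.exp (-α * s) * P s v0 y + 1 * ∫ r, G' y r := funext fun y => by
      rw [h s hs.1 y, one_mul, integral_indicator measurableSet_Ioo]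
    rw [this, P_lin ts (g := P s v0) (k := fun y => ∫ r, G' y r)
      (P_meas measurable_const measurable_id (by fun_prop)) (P_bd hs.1 b0) (mG'.stronglyMeasurable.integral_prod_right').measurable
      (fun y => (Real.norm_eq_abs _).symm.trans_le
        (norm_integral_le_of_norm_le (f := G' y) ki (ae_of_all _ (bG' y)))), P_semi ts hs.1 m0 b0,
      sub_add_cancel, one_mul, sw, ← integral_indicator measurableSet_Ioo]
    congr 2; funext r
    by_cases hr : r ∈ Ioo 0 s
    · simp only [G', indicator_of_mem hr]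
      rw [hb, show t - r = t - s + (s - r) by ring, ← P_semi ts (by linarith [hr.2]) (by fun_prop)
        (bG r)]
      simp only [P, mul_left_comm (K _ _), integral_const_mul]
    · simp [G', hr, P]
  let F : ℝ → ℝ → ℝ := fun s r => if r < s then
    (β - α) * Real.exp ((β - α) * s + (α * r - β * t)) * b r else 0
  have mF : Measurable (Function.uncurry F) :=
    Measurable.ite (measurableSet_lt measurable_snd measurable_fst) (by fun_prop) measurable_const
  have iF : Integrable (Function.uncurry F)
      ((volume.restrict (Ioo 0 t)).prod (volume.restrict (Ioo 0 t))) := by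
    refine (integrable_const (|β - α| * Real.exp (|β| * t + |α| * t) * C)).mono'
      mF.aestronglyMeasurable ?_
    rw [Measure.prod_restrict]
    refine (ae_restrict_mem (measurableSet_Ioo.prod measurableSet_Ioo)).mono fun p hp => ?_
    simp only [Function.uncurry, F]
    split_ifs with hr
    · rw [Real.norm_eq_abs, abs_mul, abs_mul, abs_exp, show (β - α) * p.1 + (α * p.2 - β * t) =
        -β * (t - p.1) + -α * (p.1 - p.2) by ring, Real.exp_add, Real.exp_add]
      have := ex_le β (s := t - p.1) (t := t) (by linarith [hp.1.2]) (by linarith [hp.1.1])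
      have := ex_le α (s := p.1 - p.2) (t := t) (by linarith) (by linarith [hp.1.2, hp.2.1])
      have := bb _ hp.2.2
      gcongr
    · simp; positivity
  have ib : ∀ γ : ℝ, IntegrableOn (fun r => Real.exp (-γ * (t - r)) * b r) (Ioo 0 t) := fun γ =>
    bi (C := Real.exp (|γ| * t) * C) (by fun_prop) fun r hr => by
      rw [abs_mul, abs_exp]
      exact mul_le_mul (ex_le γ (by linarith [hr.2]) (by linarith [hr.1])) (bb r hr.2)
        (abs_nonneg _) (by positivity)
  have e2 := integral_integral_swap iF
  have i2 : IntegrableOn (fun s => ∫ r in Ioo 0 t, F s r) (Ioo 0 t) := iF.integral_prod_left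
  have i3 : IntegrableOn (fun s => (β - α) * Real.exp ((β - α) * s + -β * t) * a) (Ioo 0 t) :=
    (Continuous.integrableOn_Icc (by fun_prop)).mono_set Ioo_subset_Icc_self
  rw [setIntegral_congr_fun measurableSet_Ioo (f := fun r => ∫ s in Ioo 0 t, F s r)
    (g := fun r => Real.exp (-α * (t - r)) * b r - Real.exp (-β * (t - r)) * b r) fun r hr => by
      have : ∀ s, F s r = (Ioi r).indicator (fun s =>
        (β - α) * Real.exp ((β - α) * s + (α * r - β * t)) * b r) s := fun s => by simp [F, indicator]
      simp only [this]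
      rw [setIntegral_indicator measurableSet_Ioi, inter_comm, Ioi_inter_Ioo, max_eq_left hr.1.le,
        integral_mul_const, ex_int _ hr.2.le, ← sub_mul]
      congr 3 <;> ring, integral_sub (ib α) (ib β)] at e2
  rw [setIntegral_congr_fun measurableSet_Ioo (g := fun s => Real.exp (-β * (t - s)) * b s +
    ((β - α) * Real.exp ((β - α) * s + -β * t) * a + ∫ r in Ioo 0 t, F s r)) fun s hs => by
      have : ∀ r, F s r = (Iio s).indicator (fun r => (β - α) * Real.exp (-β * (t - s)) *
        (Real.exp (-α * (s - r)) * b r)) r := fun r => by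
          simp only [F, indicator, mem_Iio]
          split_ifs
          · rw [mul_assoc, mul_assoc, ← mul_assoc (Real.exp _), ← Real.exp_add]; congr 3; ring
          · rfl
      simp only [this]
      rw [P_lin (sub_pos.2 hs.2) (mG' s) (bG s) (mv' s) (bv s), e1 s hs, ← hb,
        setIntegral_indicator measurableSet_Iio, Ioo_inter_Iio, min_eq_right hs.2.le,
        integral_const_mul, show (β - α) * s + -β * t = -β * (t - s) + -α * s by ring, Real.exp_add]
      ring, integral_add (ib β) (Integrable.fun_add i3 i2), integral_add i3 i2, integral_mul_const,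
         ex_int _ ht.le, e2, h t ht x]
  simp only [← hb]
  rw [show (β - α) * t + -β * t = -α * t by ring, mul_zero, zero_add]
  ring

end Pool.Agent.H94.KH
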