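import Pool.Agent.H94.KH1

set_option autoImplicit false
namespace Pool.Agent.H94.KH
open Set MeasureTheory Metric Real Filter Topology

variable {N : ℕ}

theorem Duh.abs_le {α : ℝ} {v0 : E N → ℝ} {G v : ℝ → E N → ℝ} (h : Duh α v0 G v) {t : ℝ}
    (ht : 0 < t) (x : E N) {k : ℝ → ℝ} (hk : IntegrableOn k (Ioo 0 t))
    (hG : ∀ s ∈ Ioo 0 t, Real.exp (-α * (t - s)) * |P (t - s) (G s) x| ≤ k s) :
    |v t x| ≤ Real.exp (-α * t) * |P t v0 x| + ∫ s in Ioo 0 t, k s := by
  rw [h t ht x]
  refine (abs_add_le _ _).trans (add_le_add (by rw [abs_mul, abs_exp]) ?_)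
  exact norm_integral_le_of_norm_le (f := fun s => Real.exp (-α * (t - s)) * P (t - s) (G s) x) hk
    ((ae_restrict_mem measurableSet_Ioo).mono fun s hs => by
      rw [Real.norm_eq_abs, abs_mul, abs_exp]; exact hG s hs)

theorem ci {k : ℝ → ℝ} (hk : Continuous k) (t : ℝ) : IntegrableOn k (Ioo 0 t) :=
  hk.integrableOn_Icc.mono_set Ioo_subset_Icc_self

theorem gron {L κ η c : ℝ} (i : Fin N) (hL : 0 < L) (hκ : 0 ≤ κ) (hη : 0 ≤ η) {w0 : E N → ℝ}
    {G w : ℝ → E N → ℝ} (h : Duh 0 w0 G w) (b : ∀ s y, |w s y| ≤ 1)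
    (hG : ∀ s y, |G s y| ≤ L * |w s y|)
    (h0 : ∀ t, 0 < t → ∀ x, |P t w0 x| ≤ (Iio η).indicator 1 t + κ + Real.exp (t + c - x i))
    {t : ℝ} (ht : 0 < t) (x : E N) : |w t x| ≤ (Iio η).indicator 1 t +
      (κ + L * η) * Real.exp (L * t) + Real.exp ((1 + L) * t + c - x i) := by
  have key : ∀ n : ℕ, ∀ t, 0 < t → ∀ x, |w t x| ≤ (Iio η).indicator 1 t +
      (κ + L * η) * Real.exp (L * t) + (1 / 2) ^ n * Real.exp (2 * L * t) +
      Real.exp ((1 + L) * t + c - x i) := by
    intro n
    induction n with
    | zero =>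
      intro t ht x
      have : (0 : ℝ) ≤ (Iio η).indicator 1 t := indicator_nonneg (fun _ _ => zero_le_one) _
      have := Real.one_le_exp (show 0 ≤ 2 * L * t by positivity)
      have : 0 ≤ (κ + L * η) * Real.exp (L * t) := by positivity
      have := Real.exp_pos ((1 + L) * t + c - x i)
      linarith [b t x]
    | succ n ih =>
      intro t ht x
      have j1 : IntegrableOn (fun s => L * (Iio η).indicator 1 s) (Ioo 0 t) :=
        Integrable.const_mul ((ci (k := 1) continuous_const t).indicator measurableSet_Iio) L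
      have j2 := ci (k := fun s => (κ + L * η) * (L * Real.exp (L * s + 0))) (by fun_prop) t
      have j3 := ci (k := fun s => (1 / 2) ^ (n + 1) * (2 * L * Real.exp (2 * L * s + 0)))
        (by fun_prop) t
      have j4 := ci (k := fun s => L * Real.exp (L * s + (t + c - x i))) (by fun_prop) t
      have := h.abs_le ht x (((j1.fun_add j2).fun_add j3).fun_add j4) fun s hs => by
        have ts := sub_pos.2 hs.2
        obtain ⟨A, hA⟩ : ∃ A, A = (Iio η).indicator 1 s + (κ + L * η) * Real.exp (L * s) +
          (1 / 2) ^ n * Real.exp (2 * L * s) := ⟨_, rfl⟩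
        have pe := P_exp ts (-1) i x
        have a := P_abs ts (x := x) (g := G s) (k := fun y => L * A + L * Real.exp ((1 + L) * s + c) *
          Real.exp (-1 * y i)) (fun y => (hG s y).trans (by
            rw [mul_assoc, ← Real.exp_add, ← mul_add, hA, neg_one_mul, ← sub_eq_add_neg]
            exact mul_le_mul_of_nonneg_left (ih s hs.1 y) hL.le)) (by
            simp only [mul_add (K _ _), mul_left_comm (K _ _)]
            exact (((K_int ts x).mul_const _).const_mul _).add (pe.1.const_mul _))
        rw [neg_zero, zero_mul, Real.exp_zero, one_mul]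
        refine a.trans_eq ?_
        simp only [P, mul_add (K _ _), mul_left_comm (K _ _) (L * Real.exp _)]
        rw [integral_add ((K_int ts x).mul_const _) (pe.1.const_mul _), integral_mul_const, K_one ts,
          integral_const_mul, ← P, pe.2, mul_assoc L (Real.exp _), ← Real.exp_add, hA,
          show (1 + L) * s + c + ((-1) ^ 2 * (t - s) + -1 * x i) = L * s + (t + c - x i) by ring]
        simp only [add_zero]; ring
      rw [integral_add ((j1.fun_add j2).fun_add j3) j4, integral_add (j1.fun_add j2) j3,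
        integral_add j1 j2, integral_const_mul L, integral_const_mul (κ + L * η),
        integral_const_mul (_ ^ _), ex_int _ ht.le, ex_int _ ht.le, ex_int _ ht.le, setIntegral_indicator measurableSet_Iio,
        Ioo_inter_Iio] at this
      have a1 : ∫ _ in Ioo 0 (min t η), (1 : ℝ) ≤ η := by
        rw [setIntegral_const, smul_eq_mul, mul_one, Real.volume_real_Ioo]
        exact max_le (by linarith [min_le_right t η]) hη
      simp only [Pi.one_apply, neg_zero, zero_mul, mul_zero, Real.exp_zero, add_zero, zero_add,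
        one_mul] at this
      rw [show L * t + (t + c - x i) = (1 + L) * t + c - x i by ring] at this
      have a2 : (0 : ℝ) ≤ (1 / 2) ^ (n + 1) := by positivity
      nlinarith [h0 t ht x, mul_le_mul_of_nonneg_left a1 hL.le]
  have := (((tendsto_pow_atTop_nhds_zero_of_lt_one (r := (1 / 2 : ℝ)) (by norm_num)
    (by norm_num)).mul_const (Real.exp (2 * L * t))).const_add ((Iio η).indicator 1 t +
      (κ + L * η) * Real.exp (L * t))).add_const (Real.exp ((1 + L) * t + c - x i))
  simpa using ge_of_tendsto' this fun n => key n t ht x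

theorem strip {s η : ℝ} {M : ℕ} (hM : 0 < M) (hη : η = 1 / M ^ 2) (hs : η ≤ s) {S : Set (E N)}
    (mS : MeasurableSet S) (i : Fin N)
    (hS : ∀ y ∈ S, ∀ r : ℝ, y + EuclideanSpace.single i r ∈ S → |r| < 2 * η) (x : E N) :
    P s (S.indicator 1) x ≤ 2 ^ (N / 2 : ℝ) * Real.exp 1 / M := by
  have M0 : (0 : ℝ) < M := by exact_mod_cast hM
  have η0 : 0 < η := by rw [hη]; positivity
  have s0 : 0 < s := η0.trans_le hs
  have m : Measurable (S.indicator (1 : E N → ℝ)) := measurable_one.indicator mS
  have b : ∀ y, |S.indicator (1 : E N → ℝ) y| ≤ 1 := fun y => by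
    by_cases h : y ∈ S <;> simp [h]
  let a : ℕ → E N := fun k => EuclideanSpace.single i (2 * η * k)
  have h1 : ∀ k ∈ Finset.range M, P s (S.indicator 1) x ≤
      2 ^ (N / 2 : ℝ) * Real.exp 1 * P (2 * s) (fun y => S.indicator 1 (y + a k)) x := by
    intro k hk
    rw [← P_shift, P, P, ← integral_const_mul]
    refine integral_mono (Pi s0 m b x) ((Pi (by positivity) m b _).const_mul _) fun y => ?_
    simp only [← mul_assoc]
    refine mul_le_mul_of_nonneg_right ?_ (indicator_nonneg (fun _ _ => zero_le_one) _)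
    have a1 : ‖a k‖ ^ 2 ≤ 4 * s := by
      have : (k : ℝ) ≤ M := by exact_mod_cast (Finset.mem_range.1 hk).le
      rw [PiLp.norm_single, Real.norm_eq_abs, sq_abs]
      calc (2 * η * k) ^ 2 ≤ (2 * η * M) ^ 2 := by gcongr
        _ = 4 * η := by rw [hη]; field_simp; norm_num
        _ ≤ _ := by linarith
    have a2 := norm_add_le (x - y) (a k)
    rw [K, K, show 4 * π * (2 * s) = 2 * (4 * π * s) by ring, Real.mul_rpow (x := 2) (by norm_num)
      (by positivity), add_sub_right_comm, mul_inv, ← mul_assoc, mul_right_comm (2 ^ _),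
      ← mul_assoc, mul_inv_cancel₀ (by positivity), one_mul, mul_assoc _ (Real.exp 1), ← Real.exp_add]
    gcongr
    rw [div_le_iff₀ (by positivity)]
    have := pow_le_pow_left₀ (norm_nonneg _) a2 2
    field_simp
    nlinarith [sq_nonneg (‖x - y‖ - ‖a k‖)]
  have h2 := Finset.sum_le_sum h1
  rw [Finset.sum_const, Finset.card_range, nsmul_eq_mul, ← Finset.mul_sum] at h2
  have h3 : ∑ k ∈ Finset.range M, P (2 * s) (fun y => S.indicator 1 (y + a k)) x ≤ 1 := by
    have i1 : ∀ k, Integrable fun y => K (2 * s) (x - y) * S.indicator 1 (y + a k) := fun k =>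
      Pi (by positivity) (m.comp (measurable_add_const _)) (fun _ => b _) x
    simp only [P]
    rw [← integral_finsetSum _ fun k _ => i1 k, ← K_one (t := 2 * s) (by positivity) x]
    refine integral_mono (integrable_finsetSum _ fun k _ => i1 k) (K_int (by positivity) x)
      fun y => ?_
    simp only [← Finset.mul_sum]
    refine mul_le_of_le_one_right (K_pos (by positivity) _).le ?_
    by_cases h : ∃ k ∈ Finset.range M, y + a k ∈ S
    · obtain ⟨k, hk', hk⟩ := h
      rw [Finset.sum_eq_single_of_mem k hk' (fun j _ hj => indicator_of_notMem (fun h => hj ?_) _)]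
      · simp [hk]
      · have := hS _ hk (2 * η * j - 2 * η * k) (by
          rwa [EuclideanSpace.single, PiLp.single_sub, add_assoc, add_sub_cancel])
        rw [← mul_sub, abs_mul, abs_of_pos (by positivity), mul_lt_iff_lt_one_right (by positivity),
          abs_lt] at this
        have a1 : (j : ℤ) - k < 1 := by exact_mod_cast this.2
        have a2 : -1 < (j : ℤ) - k := by exact_mod_cast this.1
        omega
    · push Not at h
      rw [Finset.sum_eq_zero fun k hk => indicator_of_notMem (h k hk) _]; norm_num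
  rw [le_div_iff₀ M0]
  nlinarith [mul_le_mul_of_nonneg_left h3 (by positivity : 0 ≤ (2 : ℝ) ^ (N / 2 : ℝ) * Real.exp 1)]

noncomputable def d0 (N : ℕ) : ℝ :=
  ((4 * π) ^ (N / 2 : ℝ))⁻¹ * Real.exp (-9 / 4) * volume.real (ball (0 : E N) 1)

theorem d0_pos : 0 < d0 N := by
  have : 0 < volume.real (ball (0 : E N) 1) :=
    ENNReal.toReal_pos (measure_ball_pos _ _ one_pos).ne' measure_ball_lt_top.ne
  unfold d0; positivity

theorem low {s : ℝ} (hs : 0 < s) {U : Set (E N)} (mU : MeasurableSet U) {x c : E N}
    (hc : ‖x - c‖ ≤ 2 * √s) (h : ball c √s ⊆ U) : d0 N ≤ P s (U.indicator 1) x := by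
  have r0 := sqrt_pos.2 hs
  have := integral_mono ((integrable_indicator_iff measurableSet_ball).2 (integrableOn_const
    (s := ball c √s) (C := ((4 * π * s) ^ (N / 2 : ℝ))⁻¹ * Real.exp (-9 / 4))
    measure_ball_lt_top.ne)) (Pi (C := 1) hs (measurable_one.indicator mU) (fun y => by
      by_cases h : y ∈ U <;> simp [h]) x) fun y => by
    by_cases hy : y ∈ ball c √s
    · simp only [indicator_of_mem hy, indicator_of_mem (h hy), Pi.one_apply, mul_one, K]
      refine mul_le_mul_of_nonneg_left (Real.exp_le_exp.2 ?_) (by positivity)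
      have a1 := norm_sub_le_norm_sub_add_norm_sub x c y
      rw [mem_ball_iff_norm, norm_sub_rev] at hy
      have := pow_le_pow_left₀ (norm_nonneg _) (show ‖x - y‖ ≤ 3 * √s by linarith) 2
      rw [mul_pow, sq_sqrt hs.le] at this
      rw [le_div_iff₀ (show 0 < 4 * s by positivity)]; linarith
    · simp only [indicator_of_notMem hy]
      exact mul_nonneg (K_pos hs _).le (indicator_nonneg (fun _ _ => zero_le_one) _)
  refine le_trans (le_of_eq ?_) this
  rw [integral_indicator measurableSet_ball, setIntegral_const, smul_eq_mul,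
    Measure.real, Measure.addHaar_ball_of_pos _ _ r0, ENNReal.toReal_mul,
    ENNReal.toReal_ofReal (by positivity), finrank_euclideanSpace_fin, d0, Measure.real,
    Real.mul_rpow (by positivity) hs.le, sqrt_eq_rpow, ← Real.rpow_natCast, ← Real.rpow_mul hs.le,
    show 1 / 2 * (N : ℝ) = N / 2 by ring]
  have := Real.rpow_pos_of_pos hs (N / 2)
  field_simp

end Pool.Agent.H94.KH
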