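import Pool.Agent.H94.KH2

set_option autoImplicit false
namespace Pool.Agent.H94.KH
open Set MeasureTheory Metric Real Filter Topology

variable {N : ℕ}

/-- `u` is a mild solution of `∂_t u = Δ u + f(u)` with values in `[0,1]` and datum `1_U`. -/
def IsSol (f : ℝ → ℝ) (U : Set (EuclideanSpace ℝ (Fin N)))
    (u : ℝ → EuclideanSpace ℝ (Fin N) → ℝ) : Prop :=
  Measurable (fun p : ℝ × EuclideanSpace ℝ (Fin N) => u p.1 p.2) ∧ (∀ t x, u t x ∈ Icc (0 : ℝ) 1) ∧
    ∀ t, 0 < t → ∀ x, u t x = P t (U.indicator 1) x +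
      ∫ s in Ioo 0 t, P (t - s) (fun y => f (u s y)) x

theorem ind_le (U : Set (E N)) (y : E N) : |U.indicator (1 : E N → ℝ) y| ≤ 1 := by
  by_cases h : y ∈ U <;> simp [h]

theorem P_nonneg {t : ℝ} (ht : 0 < t) {g : E N → ℝ} (h : ∀ y, 0 ≤ g y) (x : E N) : 0 ≤ P t g x :=
  integral_nonneg fun y => mul_nonneg (K_pos ht _).le (h y)

theorem Di (α : ℝ) {C : ℝ} {G : ℝ → E N → ℝ} (mG : Measurable fun p : ℝ × E N => G p.1 p.2)
    (bG : ∀ s y, |G s y| ≤ C) (t : ℝ) (x : E N) :
    IntegrableOn (fun s => Real.exp (-α * (t - s)) * P (t - s) (G s) x) (Ioo 0 t) :=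
  bi (C := Real.exp (|α| * t) * C) (Measurable.mul (by fun_prop)
    (P_meas (by fun_prop) measurable_const mG)) fun s hs => by
      rw [abs_mul, abs_exp]
      exact mul_le_mul (ex_le α (by linarith [hs.2]) (by linarith [hs.1]))
        (P_bd (by linarith [hs.2]) (bG s) x) (abs_nonneg _) (by positivity)

structure Nl (f : ℝ → ℝ) (L : ℝ) : Prop where
  L1 : 1 ≤ L
  lip : ∀ a b, |f a - f b| ≤ L * |a - b|
  f0 : f 0 = 0
  f1 : f 1 = 0
  pos : ∀ a ∈ Ioo (0 : ℝ) 1, 0 < f a

theorem Nl.cont {f : ℝ → ℝ} {L : ℝ} (h : Nl f L) : Continuous f :=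
  (LipschitzWith.of_dist_le' (K := L) h.lip).continuous

theorem Nl.bd {f : ℝ → ℝ} {L a : ℝ} (h : Nl f L) (ha : a ∈ Icc (0 : ℝ) 1) : 0 ≤ f a ∧ |f a| ≤ L := by
  have := h.lip a 0
  rw [h.f0, sub_zero, sub_zero, abs_of_nonneg ha.1] at this
  refine ⟨?_, by nlinarith [h.L1, ha.2]⟩
  rcases ha.1.eq_or_lt with rfl | h0
  · exact h.f0.ge
  rcases ha.2.eq_or_lt with rfl | h1
  · exact h.f1.ge
  exact (h.pos a ⟨h0, h1⟩).le

theorem exist {f : ℝ → ℝ} {L : ℝ} (h : Nl f L) {U : Set (E N)} (mU : MeasurableSet U) :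
    ∃ u, IsSol f U u := by
  have L0 : 0 < L := by linarith [h.L1]
  have hc := h.cont
  have m0 : Measurable (U.indicator (1 : E N → ℝ)) := measurable_one.indicator mU
  let F : ℝ → ℝ := fun a => f a + L * a
  have Fm : Monotone F := fun a b hab => by
    have := (abs_le.1 (h.lip a b)).2
    rw [abs_of_nonpos (by linarith)] at this
    simp only [F]; linarith
  have Fb : ∀ a ∈ Icc (0 : ℝ) 1, 0 ≤ F a ∧ |F a| ≤ L := fun a ha => by
    have a1 := Fm ha.1
    have a2 := Fm ha.2
    simp only [F, h.f0, h.f1] at a1 a2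
    exact ⟨by simpa using a1, abs_le.2 ⟨by simp only [F]; linarith, by simp only [F]; linarith⟩⟩
  let Φ : (ℝ → E N → ℝ) → ℝ → E N → ℝ := fun u t x => if 0 < t then Real.exp (-L * t) *
    P t (U.indicator 1) x + ∫ s in Ioo 0 t, Real.exp (-L * (t - s)) * P (t - s) (fun y => F (u s y)) x
    else 0
  let Ok : (ℝ → E N → ℝ) → Prop := fun u => Measurable (fun p : ℝ × E N => u p.1 p.2) ∧
    ∀ t x, u t x ∈ Icc (0 : ℝ) 1
  have mF : ∀ u, Ok u → Measurable fun p : ℝ × E N => F (u p.1 p.2) := fun u hu =>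
    Fm.measurable.comp hu.1
  have iF := fun u (hu : Ok u) => Di L (G := fun s y => F (u s y)) (mF u hu)
    fun s y => (Fb _ (hu.2 s y)).2
  have ok : ∀ u, Ok u → Ok (Φ u) := fun u hu => by
    refine ⟨Measurable.ite (measurable_fst measurableSet_Ioi) (Measurable.add (Measurable.mul
      (by fun_prop) (P_meas measurable_fst measurable_snd (by fun_prop))) ?_) measurable_const,
      fun t x => ?_⟩
    · simp only [← integral_indicator measurableSet_Ioo]
      have := mF u hu
      exact (StronglyMeasurable.integral_prod_right' (f := fun q : (ℝ × E N) × ℝ =>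
        (Ioo 0 q.1.1).indicator (fun s => Real.exp (-L * (q.1.1 - s)) *
          P (q.1.1 - s) (fun y => F (u s y)) q.1.2) q.2) (Measurable.stronglyMeasurable
          (Measurable.ite ((measurable_snd measurableSet_Ioi).inter (measurableSet_lt measurable_snd
            (by fun_prop))) (Measurable.mul (by fun_prop) (P_meas (by fun_prop) (by fun_prop)
              (this.comp (f := fun p : ((ℝ × E N) × ℝ) × E N => (p.1.2, p.2)) (by fun_prop))))
            measurable_const))).measurable
    simp only [Φ]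
    split_ifs with ht
    · refine ⟨add_nonneg (mul_nonneg (by positivity) (P_nonneg ht (fun _ => indicator_nonneg
        (fun _ _ => zero_le_one) _) x)) (setIntegral_nonneg measurableSet_Ioo fun s hs => mul_nonneg
          (by positivity) (P_nonneg (sub_pos.2 hs.2) (fun y => (Fb _ (hu.2 s y)).1) x)), ?_⟩
      have a1 := setIntegral_mono_on (iF u hu t x) (ci (k := fun s => L * Real.exp (L * s + -L * t))
        (by fun_prop) t) measurableSet_Ioo fun s hs => by
          rw [mul_comm L, show L * s + -L * t = -L * (t - s) by ring]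
          exact mul_le_mul_of_nonneg_left (le_of_abs_le (P_bd (sub_pos.2 hs.2)
            (fun y => (Fb _ (hu.2 s y)).2) x)) (by positivity)
      rw [ex_int _ ht.le, show L * t + -L * t = 0 by ring, mul_zero, zero_add, Real.exp_zero] at a1
      nlinarith [le_of_abs_le (P_bd ht (ind_le U) x), Real.exp_pos (-L * t)]
    · simp
  have mono : ∀ u v, Ok u → Ok v → u ≤ v → Φ u ≤ Φ v := fun u v hu hv huv t x => by
    simp only [Φ]
    split_ifs with ht
    · refine add_le_add le_rfl (setIntegral_mono_on (iF u hu t x) (iF v hv t x) measurableSet_Ioo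
        fun s hs => mul_le_mul_of_nonneg_left (P_mono (sub_pos.2 hs.2) (fun y => Fm (huv s y))
          (Pi (sub_pos.2 hs.2) ((mF u hu).comp measurable_prodMk_left)
            (fun y => (Fb _ (hu.2 s y)).2) x) (Pi (sub_pos.2 hs.2)
            ((mF v hv).comp measurable_prodMk_left) (fun y => (Fb _ (hv.2 s y)).2) x)) (by positivity))
    · rfl
  let w : ℕ → ℝ → E N → ℝ := fun n => Φ^[n] 0
  have ws : ∀ n, w (n + 1) = Φ (w n) := fun n => Function.iterate_succ_apply' _ _ _
  have wo : ∀ n, Ok (w n) := fun n => by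
    induction n with
    | zero => exact ⟨measurable_const, fun _ _ => ⟨le_rfl, zero_le_one⟩⟩
    | succ n ih => exact ws n ▸ ok _ ih
  have wm : Monotone w := monotone_nat_of_le_succ fun n => by
    induction n with
    | zero => exact fun t x => ((wo 1).2 t x).1
    | succ n ih => rw [ws (n + 1), ws n]; exact mono _ _ (wo n) (ws n ▸ wo (n + 1)) (ws n ▸ ih)
  let u : ℝ → E N → ℝ := fun t x => ⨆ n, w n t x
  have lim : ∀ t x, Tendsto (fun n => w n t x) atTop (𝓝 (u t x)) := fun t x =>
    tendsto_atTop_ciSup (fun a b hab => wm hab t x) ⟨1, forall_mem_range.2 fun n => ((wo n).2 t x).2⟩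
  have uo : Ok u := ⟨measurable_of_tendsto_metrizable (fun n => (wo n).1)
    (tendsto_pi_nhds.2 fun p => lim p.1 p.2), fun t x =>
      isClosed_Icc.mem_of_tendsto (lim t x) (Eventually.of_forall fun n => (wo n).2 t x)⟩
  have D : Duh L (U.indicator 1) (fun s y => F (u s y)) u := fun t ht x => by
    refine tendsto_nhds_unique ((tendsto_add_atTop_iff_nat 1).2 (lim t x)) ?_
    simp only [ws, Φ, if_pos ht]
    refine Tendsto.const_add _ (tendsto_integral_of_dominated_convergence (fun _ => L)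
      (fun n => (iF _ (wo n) t x).1) (integrableOn_const measure_Ioo_lt_top.ne) (fun n =>
        (ae_restrict_mem measurableSet_Ioo).mono fun s hs => ?_)
      ((ae_restrict_mem measurableSet_Ioo).mono fun s hs => Tendsto.const_mul _ ?_))
    · rw [Real.norm_eq_abs, abs_mul, abs_exp]
      exact (mul_le_of_le_one_left (abs_nonneg _) (Real.exp_le_one_iff.2 (by nlinarith [hs.2]))).trans
        (P_bd (sub_pos.2 hs.2) (fun y => (Fb _ ((wo n).2 s y)).2) x)
    · refine tendsto_integral_of_dominated_convergence (fun y => K (t - s) (x - y) * L)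
        (fun n => (Pi (sub_pos.2 hs.2) ((mF _ (wo n)).comp measurable_prodMk_left)
          (fun y => (Fb _ ((wo n).2 s y)).2) x).1) ((K_int (sub_pos.2 hs.2) x).mul_const _)
        (fun n => ae_of_all _ fun y => ?_) (ae_of_all _ fun y => Tendsto.const_mul _
          (((by fun_prop : Continuous F).tendsto _).comp (lim s y)))
      rw [norm_mul, Real.norm_of_nonneg (K_pos (sub_pos.2 hs.2) _).le]
      exact mul_le_mul_of_nonneg_left (Fb _ ((wo n).2 s y)).2 (K_pos (sub_pos.2 hs.2) _).le
  have := shift (C := L) 0 m0 (mF u uo) uo.1 (fun y => (ind_le U y).trans h.L1)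
    (fun s y => (Fb _ (uo.2 s y)).2) (fun s y => by
      rw [abs_of_nonneg (uo.2 s y).1]; exact (uo.2 s y).2.trans h.L1) D
  exact ⟨u, uo.1, uo.2, fun t ht x => by simpa [F] using this t ht x⟩

end Pool.Agent.H94.KH
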