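import Pool.Agent.H94.KH3

set_option autoImplicit false
namespace Pool.Agent.H94.KH
open Set MeasureTheory Metric Real Filter Topology

noncomputable def gg (a : ℝ) : ℝ := √(√(1 + Real.log (max a 1))) - 1

theorem sq_lip {a b : ℝ} (ha : 1 ≤ a) (hb : 1 ≤ b) : |√a - √b| ≤ |a - b| := by
  have a1 := one_le_sqrt.2 ha
  have a2 := one_le_sqrt.2 hb
  rw [show a - b = (√a - √b) * (√a + √b) by
    nlinarith [sq_sqrt (show 0 ≤ a by linarith), sq_sqrt (show 0 ≤ b by linarith)], abs_mul]
  exact le_mul_of_one_le_right (abs_nonneg _) ((by linarith : 1 ≤ √a + √b).trans (le_abs_self _))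

theorem gg_lip {a b m : ℝ} (hm : 1 ≤ m) (ha : m ≤ max a 1) (hb : m ≤ max b 1) :
    |gg a - gg b| ≤ |a - b| / m := by
  have l : ∀ c : ℝ, 1 ≤ 1 + Real.log (max c 1) := fun c => by
    linarith [Real.log_nonneg (le_max_right c 1)]
  have k : ∀ p q : ℝ, m ≤ p → m ≤ q → Real.log p - Real.log q ≤ |p - q| / m := fun p q hp hq => by
    rw [← Real.log_div (by linarith) (by linarith)]
    refine (Real.log_le_sub_one_of_pos (div_pos (by linarith) (by linarith))).trans ?_
    rw [div_sub_one (by linarith)]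
    exact div_le_div₀ (abs_nonneg _) (le_abs_self _) (by linarith) hq
  rw [gg, gg, sub_sub_sub_cancel_right]
  refine (sq_lip (one_le_sqrt.2 (l a)) (one_le_sqrt.2 (l b))).trans ((sq_lip (l a) (l b)).trans ?_)
  rw [add_sub_add_left_eq_sub]
  refine le_trans (abs_le.2 ⟨?_, k _ _ ha hb⟩) (div_le_div_of_nonneg_right
    (abs_max_sub_max_le_abs a b 1) (by linarith))
  linarith [k _ _ hb ha, abs_sub_comm (max a 1) (max b 1) ▸ k _ _ hb ha]

theorem gg_le (a b : ℝ) : gg a ≤ gg b + |a - b| := by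
  have := gg_lip (a := a) (b := b) le_rfl (le_max_right _ _) (le_max_right _ _)
  linarith [le_of_abs_le this, div_one |a - b|]

theorem gg_cont : Continuous gg := by
  have : Continuous fun a : ℝ => Real.log (max a 1) :=
    Continuous.log (by fun_prop) fun a => (zero_lt_one.trans_le (le_max_right _ _)).ne'
  unfold gg; fun_prop

theorem gg_big {a r : ℝ} (hr : 0 < r) (h : r ≤ gg a) : Real.exp (r ^ 4) ≤ a := by
  have a1 : r + 1 ≤ √(√(1 + Real.log (max a 1))) := by unfold gg at h; linarith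
  rw [le_sqrt' (by linarith), le_sqrt' (by positivity)] at a1
  have a2 : r ^ 4 ≤ Real.log (max a 1) := by nlinarith [pow_pos hr 2, pow_pos hr 3]
  rw [Real.le_log_iff_exp_le (zero_lt_one.trans_le (le_max_right _ _))] at a2
  exact (le_max_iff.1 a2).resolve_right (Real.one_lt_exp_iff.2 (by positivity)).not_ge

theorem gg_surj {r : ℝ} (hr : 0 ≤ r) : gg (Real.exp ((r + 1) ^ 4 - 1)) = r := by
  rw [gg, max_eq_left (Real.one_le_exp (by nlinarith [pow_nonneg hr 2, pow_nonneg hr 3, pow_nonneg hr 4])),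
    Real.log_exp, add_sub_cancel, show (r + 1) ^ 4 = ((r + 1) ^ 2) ^ 2 by ring,
    sqrt_sq (by positivity), sqrt_sq (by positivity), add_sub_cancel_right]

variable {n : ℕ}

def UU (n : ℕ) : Set (E (n + 2)) := {x | x 1 ≤ 0 ∨ gg (x 0) ≤ x 1}

theorem UU_closed : IsClosed (UU n) :=
  (isClosed_le (f := fun x : E (n + 2) => x 1) (by fun_prop) continuous_const).union
    (isClosed_le (f := fun x : E (n + 2) => gg (x 0)) (g := fun x => x 1)
      (gg_cont.comp (by fun_prop)) (by fun_prop))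

theorem co (x y : E (n + 2)) (i : Fin (n + 2)) : |x i - y i| ≤ ‖x - y‖ := PiLp.norm_apply_le (x - y) i

theorem UU_ball {r : ℝ} (hr : 0 ≤ r) {y : E (n + 2)} (h : y 1 ≤ r ∨ gg (y 0) ≤ y 1) :
    ∃ c, ‖y - c‖ ≤ 2 * r ∧ ball c r ⊆ UU n := by
  rcases h with h | h
  · refine ⟨y + EuclideanSpace.single 1 (-(2 * r)), by simp [abs_of_nonneg hr], fun z hz => ?_⟩
    have := (abs_lt.1 ((co z _ 1).trans_lt (mem_ball_iff_norm.1 hz))).2
    simp at this
    exact Or.inl (by linarith)
  · refine ⟨y + EuclideanSpace.single 1 (2 * r), by simp [abs_of_nonneg hr], fun z hz => ?_⟩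
    have a1 := (abs_lt.1 ((co z _ 1).trans_lt (mem_ball_iff_norm.1 hz))).1
    have a2 := (co z _ 0).trans_lt (mem_ball_iff_norm.1 hz)
    simp at a1 a2
    exact Or.inr (by linarith [gg_le (z 0) (y 0)])

theorem spread {f : ℝ → ℝ} {L : ℝ} (h : Nl f L) {u : ℝ → E (n + 2) → ℝ} (hu : IsSol f (UU n) u)
    {ε : ℝ} (hε : 0 < ε) : ∃ δ, 0 < δ ∧ ∀ t, 0 < t → ∀ x, 1 - u t x ≤
      ε + Real.exp (-δ * t) + 4 * Real.exp (δ / 4 * (1 + gg (x 0) - √t)) := by
  have hc := h.cont
  have mU : MeasurableSet (UU n) := UU_closed.measurableSet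
  have m0 : Measurable ((UU n).indicator (1 : E (n + 2) → ℝ)) := measurable_one.indicator mU
  have mu := hu.1
  obtain ⟨m, m0', hm⟩ := (isCompact_Icc (a := d0 (n + 2)) (b := 1 - ε)).exists_forall_le'
    hc.continuousOn fun a ha => h.pos a ⟨d0_pos.trans_le ha.1, by linarith [ha.2]⟩
  obtain ⟨δ, δ0, δ1, δm⟩ : ∃ δ, 0 < δ ∧ δ ≤ 1 ∧ δ ≤ m := ⟨min 1 m, by positivity, min_le_left _ _,
    min_le_right _ _⟩
  have b1 : ∀ s y, |1 - u s y| ≤ L := fun s y =>
    abs_le.2 ⟨by linarith [(hu.2.1 s y).2, h.L1], by linarith [(hu.2.1 s y).1, h.L1]⟩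
  have b0 : ∀ y, |1 - (UU n).indicator (1 : E (n + 2) → ℝ) y| ≤ 1 := fun y => by
    by_cases hy : y ∈ UU n <;> simp [hy]
  have D : Duh 0 (fun y => 1 - (UU n).indicator 1 y) (fun s y => -f (u s y)) fun s y => 1 - u s y :=
    fun t ht x => by
      have := P_lin ht (g := fun _ => 1) measurable_const (fun _ => le_rfl) m0 (ind_le _) 1 (-1) x
      simp only [one_mul, neg_one_mul, ← sub_eq_add_neg, P_const ht] at this
      simp only [this, hu.2.2 t ht x, neg_zero, zero_mul, Real.exp_zero, one_mul]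
      simp only [P, mul_neg, integral_neg]; ring
  have D2 := shift δ (by fun_prop) (by fun_prop) (by fun_prop) (fun y => (b0 y).trans h.L1)
    (fun s y => by rw [abs_neg]; exact (h.bd (hu.2.1 s y)).2) b1 D
  have bG : ∀ s y, |1 * -f (u s y) + (δ - 0) * (1 - u s y)| ≤ L + L := fun s y =>
    (abs_add_le _ _).trans (add_le_add (by rw [one_mul, abs_neg]; exact (h.bd (hu.2.1 s y)).2) (by
      rw [sub_zero, abs_mul, abs_of_pos δ0]; nlinarith [b1 s y, abs_nonneg (1 - u s y)]))
  refine ⟨δ, δ0, fun t ht x => (D2 t ht x).trans_le ?_⟩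
  have j1 := ci (k := fun s => ε * (δ * Real.exp (δ * s + -δ * t))) (by fun_prop) t
  have j2 := ci (k := fun s => 4 * (δ / 2 * Real.exp (δ / 2 * s + (δ / 4 * (1 + gg (x 0) - √t) -
    δ / 2 * t)))) (by fun_prop) t
  have a1 := setIntegral_mono_on (Di δ (G := fun s y => 1 * -f (u s y) + (δ - 0) * (1 - u s y))
    (by fun_prop) bG t x) (j1.fun_add j2) measurableSet_Ioo fun s hs => by
      have ts := sub_pos.2 hs.2
      have p1 := P_exp ts (δ / 4) 0 x
      have p2 := P_exp ts (-(δ / 4)) 0 x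
      set c := δ / 4 * (gg (x 0) - √s) with hc
      have i3 := ((p1.1.const_mul (δ * Real.exp (c - δ / 4 * x 0))).fun_add
        (p2.1.const_mul (δ * Real.exp (c + δ / 4 * x 0))))
      have a := P_mono ts (x := x) (g := fun y => 1 * -f (u s y) + (δ - 0) * (1 - u s y))
        (k := fun y => δ * ε + (δ * Real.exp (c - δ / 4 * x 0) * Real.exp (δ / 4 * y 0) +
          δ * Real.exp (c + δ / 4 * x 0) * Real.exp (-(δ / 4) * y 0))) (fun y => by
          have f0 := (h.bd (hu.2.1 s y)).1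
          have u0 := hu.2.1 s y
          rw [mul_assoc, mul_assoc, ← Real.exp_add, ← Real.exp_add]
          have e1 := mul_pos δ0 (Real.exp_pos (c - δ / 4 * x 0 + δ / 4 * y 0))
          have e2 := mul_pos δ0 (Real.exp_pos (c + δ / 4 * x 0 + -(δ / 4) * y 0))
          by_cases hy : y 1 ≤ √s ∨ gg (y 0) ≤ y 1
          · obtain ⟨z, z1, z2⟩ := UU_ball (sqrt_nonneg s) hy
            have : d0 (n + 2) ≤ u s y := by
              rw [hu.2.2 s hs.1]
              exact le_add_of_le_of_nonneg (low hs.1 mU z1 z2) (setIntegral_nonneg measurableSet_Ioo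
                fun r hr => P_nonneg (sub_pos.2 hr.2) (fun y => (h.bd (hu.2.1 r y)).1) y)
            rcases le_total (u s y) (1 - ε) with h1 | h1
            · nlinarith [hm _ ⟨this, h1⟩, u0.1, mul_pos δ0 hε]
            · nlinarith
          · push Not at hy
            have := gg_le (y 0) (x 0)
            rcases abs_cases (y 0 - x 0) with h1 | h1
            · have := Real.one_le_exp (show 0 ≤ c - δ / 4 * x 0 + δ / 4 * y 0 by nlinarith)
              nlinarith [u0.1, mul_pos δ0 hε]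
            · have := Real.one_le_exp (show 0 ≤ c + δ / 4 * x 0 + -(δ / 4) * y 0 by nlinarith)
              nlinarith [u0.1, mul_pos δ0 hε])
        (Pi ts (by fun_prop) (bG s) x) (by
          simp only [mul_add (K _ _), mul_left_comm (K _ _) (δ * Real.exp _)]
          exact ((K_int ts x).mul_const _).add i3)
      refine (mul_le_mul_of_nonneg_left a (by positivity)).trans ?_
      simp only [P, mul_add (K _ _), mul_left_comm (K _ _) (δ * Real.exp _)]
      rw [integral_add ((K_int ts x).mul_const _) i3, integral_add (p1.1.const_mul _)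
        (p2.1.const_mul _), integral_mul_const, K_one ts, integral_const_mul, integral_const_mul, ← P,
        ← P, p1.2, p2.2, mul_assoc δ, mul_assoc δ, ← Real.exp_add, ← Real.exp_add,
        show c + δ / 4 * x 0 + ((-(δ / 4)) ^ 2 * (t - s) + -(δ / 4) * x 0) =
          c + (δ / 4) ^ 2 * (t - s) by ring, show c - δ / 4 * x 0 + ((δ / 4) ^ 2 * (t - s) +
          δ / 4 * x 0) = c + (δ / 4) ^ 2 * (t - s) by ring, show δ * s + -δ * t = -δ * (t - s) by ring]
      have a2 : √t ≤ √s + (1 + (t - s)) := by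
        rw [sqrt_le_iff]
        have := sqrt_nonneg s
        exact ⟨by positivity, by nlinarith [sq_sqrt hs.1.le]⟩
      have a3 : Real.exp (-δ * (t - s)) * Real.exp (c + (δ / 4) ^ 2 * (t - s)) ≤
          Real.exp (δ / 2 * s + (δ / 4 * (1 + gg (x 0) - √t) - δ / 2 * t)) := by
        rw [← Real.exp_add, Real.exp_le_exp, hc]
        nlinarith [mul_pos δ0 ts, mul_le_mul_of_nonneg_left a2 δ0.le,
          mul_le_mul_of_nonneg_left δ1 (mul_pos δ0 ts).le]
      nlinarith
  rw [integral_add j1 j2, integral_const_mul ε, integral_const_mul 4, ex_int _ ht.le, ex_int _ ht.le,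
    show δ * t + -δ * t = 0 by ring, Real.exp_zero, add_sub_cancel] at a1
  nlinarith [le_of_abs_le (P_bd ht b0 x), Real.exp_pos (-δ * t), Real.exp_pos (δ * 0 + -δ * t),
    Real.exp_pos (δ / 2 * 0 + (δ / 4 * (1 + gg (x 0) - √t) - δ / 2 * t))]

end Pool.Agent.H94.KH
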