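import Pool.Agent.H94.KH4

set_option autoImplicit false
namespace Pool.Agent.H94.KH
open Set MeasureTheory Metric Real Filter Topology

variable {n : ℕ}

theorem far {f : ℝ → ℝ} {L : ℝ} (h : Nl f L) {u : ℝ → E (n + 2) → ℝ} (hu : IsSol f (UU n) u)
    {a : E (n + 2)} (ha : a 1 = 0) {M : ℕ} (hM : 0 < M) {X : ℝ} (hX : ‖a‖ * M ^ 2 + ‖a‖ + 1 ≤ X)
    {t : ℝ} (ht : 1 ≤ t) (x : E (n + 2)) : |u t (x + a) - u t x| ≤ (Iio (1 / M ^ 2 : ℝ)).indicator 1 t +
      (2 ^ ((n + 2 : ℕ) / 2 : ℝ) * Real.exp 1 / M + L * (1 / M ^ 2)) * Real.exp (L * t) +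
      Real.exp ((1 + L) * t + X - x 0) := by
  have hc := h.cont
  have mU : MeasurableSet (UU n) := UU_closed.measurableSet
  have m0 : Measurable ((UU n).indicator (1 : E (n + 2) → ℝ)) := measurable_one.indicator mU
  have mu := hu.1
  have M1 : (1 : ℝ) ≤ M := by exact_mod_cast hM
  have mu' : Measurable fun p : ℝ × E (n + 2) => u p.1 (p.2 + a) :=
    mu.comp (f := fun p : ℝ × E (n + 2) => (p.1, p.2 + a)) (by fun_prop)
  have fb := fun s y => (h.bd (hu.2.1 s y)).2
  have b0 : ∀ y, |(UU n).indicator (1 : E (n + 2) → ℝ) (y + a) - (UU n).indicator 1 y| ≤ 1 :=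
    fun y => by by_cases h1 : y ∈ UU n <;> by_cases h2 : y + a ∈ UU n <;> simp [h1, h2]
  refine gron (w := fun t x => u t (x + a) - u t x) (G := fun s y => f (u s (y + a)) - f (u s y))
    (w0 := fun y => (UU n).indicator 1 (y + a) - (UU n).indicator 1 y) 0 (by linarith [h.L1])
    (by positivity) (by positivity) (fun t ht x => ?_) (fun s y => abs_le.2 ⟨by
      linarith [(hu.2.1 s y).2, (hu.2.1 s (y + a)).1], by
      linarith [(hu.2.1 s y).1, (hu.2.1 s (y + a)).2]⟩) (fun s y => h.lip _ _) (fun s hs x => ?_)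
    (by linarith) x
  · have e : ∀ {t C : ℝ} {g : E (n + 2) → ℝ}, 0 < t → Measurable g → (∀ y, |g y| ≤ C) →
        P t (fun y => g (y + a) - g y) x = P t g (x + a) - P t g x := fun ht hg hb => by
      have := P_lin ht (hg.comp (measurable_add_const a)) (fun _ => hb _) hg hb 1 (-1) x
      simp only [one_mul, neg_one_mul, ← sub_eq_add_neg] at this
      rw [P_shift]; exact this
    have i := fun x => Di 0 (G := fun s y => f (u s y)) (by fun_prop) fb t x
    simp only [neg_zero, zero_mul, Real.exp_zero, one_mul] at i ⊢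
    rw [hu.2.2 t ht, hu.2.2 t ht, e ht m0 (ind_le _), setIntegral_congr_fun measurableSet_Ioo
      fun s hs => e (g := fun y => f (u s y)) (sub_pos.2 hs.2) (by fun_prop) (fb s),
      integral_sub (i _) (i _)]
    ring
  set η : ℝ := 1 / M ^ 2 with hη
  by_cases hs' : s < η
  · rw [indicator_of_mem (show s ∈ Iio η from hs'), Pi.one_apply, add_assoc]
    exact (P_bd hs b0 x).trans (le_add_of_nonneg_right (by positivity))
  rw [indicator_of_notMem (show s ∉ Iio η from hs'), zero_add]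
  let S : Set (E (n + 2)) := {y | gg (y 0) - η ≤ y 1 ∧ y 1 < gg (y 0) + η}
  have gc := gg_cont
  have gm : Measurable fun y : E (n + 2) => gg (y 0) := gc.measurable.comp (by fun_prop)
  have mS : MeasurableSet S := (measurableSet_le (gm.sub_const η) (g := fun y => y 1)
    (by fun_prop)).inter (measurableSet_lt (f := fun y : E (n + 2) => y 1) (by fun_prop)
      (gm.add_const η))
  have pe := P_exp hs (-1) 0 x
  have i1 := Pi hs (measurable_one.indicator mS) (ind_le S) x
  refine (P_abs hs (k := fun y => S.indicator 1 y + Real.exp X * Real.exp (-1 * y 0)) (fun y => ?_)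
    (by simp only [mul_add, mul_left_comm (K _ _)]; exact i1.add (pe.1.const_mul _))).trans ?_
  · rw [← Real.exp_add]
    have e0 := Real.exp_pos (X + -1 * y 0)
    have e1 : (0 : ℝ) ≤ S.indicator 1 y := indicator_nonneg (fun _ _ => zero_le_one) _
    rcases le_total (y 0) X with h1 | h1
    · linarith [b0 y, Real.one_le_exp (show 0 ≤ X + -1 * y 0 by linarith)]
    by_cases hy : y ∈ S
    · simp only [indicator_of_mem hy, Pi.one_apply]; linarith [b0 y]
    have a0 : |a 0| ≤ ‖a‖ := PiLp.norm_apply_le a 0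
    have a1 := gg_lip (a := y 0 + a 0) (b := y 0) (m := ‖a‖ * M ^ 2 + 1)
      (le_add_of_nonneg_left (by positivity)) (le_max_of_le_left (by linarith [(abs_le.1 a0).1]))
      (le_max_of_le_left (by linarith [norm_nonneg a]))
    have a2 : |y 0 + a 0 - y 0| / (‖a‖ * M ^ 2 + 1) ≤ η := by
      rw [add_sub_cancel_left, hη, div_le_div_iff₀ (by positivity) (by positivity)]
      nlinarith [pow_pos (show (0 : ℝ) < M by linarith) 2]
    have a3 := abs_le.1 (a1.trans a2)
    have : y + a ∈ UU n ↔ y ∈ UU n := by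
      simp only [UU, mem_setOf_eq, PiLp.add_apply, ha, add_zero, S, not_and_or, not_le, not_lt] at hy ⊢
      refine or_congr_right ?_
      have : 0 < η := by positivity
      rcases hy with hy | hy <;> constructor <;> intro _ <;> linarith
    have : (UU n).indicator (1 : E (n + 2) → ℝ) (y + a) = (UU n).indicator 1 y := by
      by_cases hU : y ∈ UU n <;> simp [hU, this]
    rw [this, sub_self, abs_zero]
    linarith
  simp only [P, mul_add, mul_left_comm (K _ _)]
  rw [integral_add i1 (pe.1.const_mul _), integral_const_mul, ← P, ← P, pe.2, ← Real.exp_add]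
  refine add_le_add (strip hM hη (not_lt.1 hs') mS 1 (fun y hy r hr => ?_) x) (le_of_eq ?_)
  · have a1 := hr.1
    have a2 := hr.2
    simp at a1 a2
    exact abs_lt.2 ⟨by linarith [hy.2], by linarith [hy.1]⟩
  · congr 1; ring

theorem ev (A B : ℝ) : ∀ᶠ t : ℝ in atTop, A * Real.exp (B * t) ≤ Real.exp (t ^ 2 / 16) := by
  filter_upwards [eventually_ge_atTop (16 * (|B| + 1)), eventually_ge_atTop A] with t h1 h2
  have t0 : 0 < t := by linarith [abs_nonneg B]
  calc A * Real.exp (B * t) ≤ Real.exp t * Real.exp (B * t) := by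
        gcongr; linarith [Real.add_one_le_exp t]
    _ ≤ _ := by rw [← Real.exp_add, Real.exp_le_exp]; nlinarith [le_abs_self B]

theorem flat {f : ℝ → ℝ} {L : ℝ} (h : Nl f L) {u : ℝ → E (n + 2) → ℝ} (hu : IsSol f (UU n) u)
    {a : E (n + 2)} (ha : a 1 = 0) {ε : ℝ} (hε : 0 < ε) :
    ∀ᶠ t in atTop, ∀ x, |u t (x + a) - u t x| ≤ 3 * ε := by
  obtain ⟨δ, δ0, hδ⟩ := spread h hu hε
  set C := 2 ^ ((n + 2 : ℕ) / 2 : ℝ) * Real.exp 1 with hC
  have C0 : 0 < C := by positivity
  have L1 := h.L1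
  have e1 : Tendsto (fun t : ℝ => Real.exp (-δ * t)) atTop (𝓝 0) :=
    Real.tendsto_exp_atBot.comp (tendsto_id.const_mul_atTop_of_neg (by linarith))
  have e2 : Tendsto (fun t : ℝ => Real.exp (δ / 4 * (1 + ‖a‖) + -(δ / 8) * √t)) atTop (𝓝 0) :=
    Real.tendsto_exp_atBot.comp (tendsto_atBot_add_const_left _ _
      (tendsto_sqrt_atTop.const_mul_atTop_of_neg (by linarith)))
  set A := (C + L) / ε + 2 with hA
  have A2 : 2 ≤ A := le_add_of_nonneg_left (by positivity)
  filter_upwards [e1.eventually (ge_mem_nhds hε), e2.eventually (ge_mem_nhds (show 0 < ε / 4 by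
    positivity)), eventually_gt_atTop 1, ev (2 * (‖a‖ * A ^ 2 + ‖a‖ + 1)) (2 * L),
    ev (2 * (1 + L + |Real.log ε|)) 1] with t t1 t2 t3 t4 t5 x
  have u0 := hu.2.1 t
  rcases le_total (gg (x 0)) (√t / 2) with hx | hx
  · have k : ∀ y : E (n + 2), gg (y 0) ≤ √t / 2 + ‖a‖ → 1 - u t y ≤ 3 * ε := fun y hy => by
      have : Real.exp (δ / 4 * (1 + gg (y 0) - √t)) ≤
        Real.exp (δ / 4 * (1 + ‖a‖) + -(δ / 8) * √t) := Real.exp_le_exp.2 (by nlinarith)
      linarith [hδ t (by linarith) y]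
    have k1 := k x (by linarith [norm_nonneg a])
    have k2 := k (x + a) (by
      have := gg_le ((x + a) 0) (x 0)
      have a0 := co (x + a) x 0
      rw [add_sub_cancel_left] at a0; linarith)
    exact abs_le.2 ⟨by linarith [(u0 x).2], by linarith [(u0 (x + a)).2]⟩
  have x0 := gg_big (half_pos (sqrt_pos.2 (by linarith))) hx
  rw [show (√t / 2) ^ 4 = (√t ^ 2) ^ 2 / 16 by ring, sq_sqrt (by linarith)] at x0
  set B := Real.exp (L * t) with hB
  have B1 : 1 ≤ B := Real.one_le_exp (by nlinarith)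
  obtain ⟨M, M1, M2⟩ : ∃ M : ℕ, (C + L) / ε * B + 1 ≤ M ∧ M ≤ A * B :=
    ⟨⌈(C + L) / ε * B + 1⌉₊, Nat.le_ceil _, (Nat.ceil_lt_add_one (by positivity)).le.trans (by
      rw [hA]; linarith)⟩
  have M3 : (1 : ℝ) ≤ M := le_trans (le_add_of_nonneg_left (by positivity)) M1
  rw [show 2 * L * t = L * t + L * t by ring, Real.exp_add, ← hB] at t4
  have := far h hu ha (M := M) (by exact_mod_cast zero_lt_one.trans_le M3)
    (X := Real.exp (t ^ 2 / 16) / 2) (by
      have := mul_le_mul_of_nonneg_left (pow_le_pow_left₀ (by positivity) M2 2) (norm_nonneg a)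
      nlinarith [norm_nonneg a, mul_le_mul_of_nonneg_left (show 1 ≤ B * B by nlinarith)
        (show 0 ≤ ‖a‖ + 1 by positivity)]) t3.le x
  have a1 : (1 / M ^ 2 : ℝ) ≤ 1 / M := one_div_le_one_div_of_le (by linarith) (by nlinarith)
  have a2 : (1 / M : ℝ) ≤ 1 := by rw [div_le_one (by linarith)]; exact M3
  rw [indicator_of_notMem (by simp only [mem_Iio]; linarith), ← hC, ← hB] at this
  have a3 : (C / M + L * (1 / M ^ 2)) * B ≤ ε := by
    refine (mul_le_mul_of_nonneg_right (add_le_add le_rfl (mul_le_mul_of_nonneg_left a1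
      (by linarith))) (by linarith)).trans ?_
    rw [div_mul_eq_mul_div, div_add_one hε.ne', div_le_iff₀ hε] at M1
    rw [mul_one_div, ← add_div, div_mul_eq_mul_div, div_le_iff₀ (by linarith)]
    linarith
  have a4 : Real.exp ((1 + L) * t + Real.exp (t ^ 2 / 16) / 2 - x 0) ≤ ε := by
    rw [← Real.le_log_iff_exp_le hε]
    rw [one_mul] at t5
    nlinarith [Real.add_one_le_exp t, neg_abs_le (Real.log ε), abs_nonneg (Real.log ε),
      mul_le_mul_of_nonneg_left (show 1 ≤ Real.exp t by linarith [Real.add_one_le_exp t])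
        (abs_nonneg (Real.log ε))]
  linarith

/-- Asymptotic one-dimensional symmetry. -/
def Sym {N : ℕ} (u : ℝ → EuclideanSpace ℝ (Fin N) → ℝ) : Prop :=
  ∀ (ψ : EuclideanSpace ℝ (Fin N) → ℝ) (t : ℕ → ℝ) (x : ℕ → EuclideanSpace ℝ (Fin N)),
    Tendsto t atTop atTop →
    (∀ R ε : ℝ, 0 < ε → ∀ᶠ k in atTop, ∀ᵐ y, ‖y‖ ≤ R → |u (t k) (x k + y) - ψ y| ≤ ε) →
    ∃ (e : EuclideanSpace ℝ (Fin N)) (Ψ : ℝ → ℝ), ‖e‖ = 1 ∧ ∀ᵐ y, ψ y = Ψ (inner ℝ y e)

/-- Condition (D). -/
def CondD {N : ℕ} (U : Set (EuclideanSpace ℝ (Fin N))) : Prop :=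
  ∃ δ : ℝ, 0 < δ ∧ hausdorffEDist U {x ∈ U | ENNReal.ofReal δ ≤ infEDist x (frontier U)} ≠ ⊤

/-- Condition (B). -/
def CondB {N : ℕ} (U : Set (EuclideanSpace ℝ (Fin N))) : Prop :=
  ∀ ε : ℝ, 0 < ε → ∀ᶠ R : ℝ in atTop, ∀ x, infDist x U = R → ∀ ξ ∈ closure U, dist x ξ = R →
    ∀ y ∈ U, y ≠ ξ → inner ℝ (‖x - ξ‖⁻¹ • (x - ξ)) (‖y - ξ‖⁻¹ • (y - ξ)) ≤ ε

theorem sym {f : ℝ → ℝ} {L : ℝ} (h : Nl f L) {u : ℝ → E (n + 2) → ℝ} (hu : IsSol f (UU n) u) :
    Sym u := by
  intro ψ t x ht hψ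
  choose k hk using fun m : ℕ => eventually_atTop.1 (hψ m (1 / (m + 1)) (by positivity))
  refine ⟨EuclideanSpace.single 1 1, fun b => limsup (fun j => u (t j)
    (x j + EuclideanSpace.single 1 b)) atTop, by simp, ?_⟩
  filter_upwards [ae_all_iff.2 fun m => ae_all_iff.2 fun j : {j // k m ≤ j} => hk m j j.2] with y hy
  refine (Tendsto.limsup_eq (Metric.tendsto_nhds.2 fun ε hε => ?_)).symm
  obtain ⟨m, m1, m2⟩ := ((eventually_ge_atTop ⌈‖y‖⌉₊).and
    (tendsto_one_div_add_atTop_nhds_zero_nat.eventually (gt_mem_nhds (show (0 : ℝ) < ε / 4 by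
      positivity)))).exists
  filter_upwards [eventually_ge_atTop (k m), ht.eventually (flat h hu
    (a := y - EuclideanSpace.single 1 (y 1)) (by simp) (show 0 < ε / 4 by positivity))] with j j1 j2
  have a1 := abs_le.1 (hy m ⟨j, j1⟩ (Nat.ceil_le.1 m1))
  have a2 := abs_le.1 (j2 (x j + EuclideanSpace.single 1 (y 1)))
  rw [add_assoc, add_sub_cancel] at a2
  simp only [EuclideanSpace.inner_single_right, conj_trivial, one_mul, Real.dist_eq] at a1 ⊢
  exact abs_lt.2 ⟨by linarith, by linarith⟩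

theorem UU_conn : IsConnected (UU n) := by
  have gc := gg_cont
  have k : IsConnected {x : E (n + 2) | 0 ≤ x 1} :=
    (convex_halfSpace_ge (f := fun x : E (n + 2) => x 1) ⟨fun _ _ => rfl, fun _ _ => rfl⟩
      0).isConnected ⟨0, by simp⟩
  have : {x : E (n + 2) | gg (x 0) ≤ x 1} =
      (fun x => x + EuclideanSpace.single 1 (gg (x 0))) '' {x | 0 ≤ x 1} := by
    ext x; constructor
    · exact fun h => ⟨x - EuclideanSpace.single 1 (gg (x 0)), by simpa using h, by simp⟩
    · rintro ⟨y, hy, rfl⟩; simpa using hy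
  refine IsConnected.union (s := {x : E (n + 2) | x 1 ≤ 0}) (t := {x | gg (x 0) ≤ x 1})
    ⟨0, by simp, by simp [gg]⟩ ((convex_halfSpace_le (f := fun x : E (n + 2) => x 1)
      ⟨fun _ _ => rfl, fun _ _ => rfl⟩ 0).isConnected ⟨0, by simp⟩) ?_
  rw [this]
  refine k.image _ (Continuous.continuousOn ?_)
  have : Continuous fun r : ℝ => (EuclideanSpace.single (1 : Fin (n + 2)) r : E (n + 2)) :=
    (LipschitzWith.of_dist_le' (K := 1) fun a b => by simp).continuous
  fun_prop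

theorem UU_D : CondD (UU n) := by
  refine ⟨1, one_pos, ne_top_of_le_ne_top (ENNReal.ofReal_ne_top (r := 2))
    (hausdorffEDist_le_of_mem_edist (fun x hx => ?_) fun x hx => ⟨x, hx.1, by simp⟩)⟩
  obtain ⟨c, c1, c2⟩ := UU_ball zero_le_one (y := x) (hx.imp (fun h => h.trans zero_le_one) id)
  refine ⟨c, ⟨c2 (mem_ball_self one_pos), le_infEDist.2 fun z hz => ?_⟩, ?_⟩
  · rw [edist_dist]
    refine ENNReal.ofReal_le_ofReal (not_lt.1 fun h => hz.2 (interior_maximal c2 isOpen_ball ?_))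
    rwa [mem_ball, dist_comm]
  · rw [edist_dist, dist_eq_norm]; exact ENNReal.ofReal_le_ofReal (by linarith)

theorem UU_B : ¬ CondB (UU n) := fun h => by
  obtain ⟨R, h1, R0⟩ := ((h (1 / 2) (by norm_num)).and (eventually_gt_atTop 0)).exists
  have g := gg_surj (r := 3 * R) (by linarith)
  set a := Real.exp ((3 * R + 1) ^ 4 - 1)
  set ξ : E (n + 2) := EuclideanSpace.single 0 a with hξ
  have m : ξ ∈ UU n := Or.inl (by simp [hξ])
  have d : dist (ξ + EuclideanSpace.single 1 R) ξ = R := by simp [abs_of_pos R0]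
  have := h1 (ξ + EuclideanSpace.single 1 R) (le_antisymm ((infDist_le_dist_of_mem m).trans_eq d)
    ((le_infDist ⟨ξ, m⟩).2 fun z hz => ?_)) ξ (subset_closure m) d
    (ξ + EuclideanSpace.single 1 (3 * R)) (Or.inr (by simp [hξ, g])) (by simp [R0.ne'])
  · simp [real_inner_smul_left, real_inner_smul_right, EuclideanSpace.inner_single_right,
      abs_of_pos R0] at this
    field_simp at this
    linarith
  · have a1 := abs_le.1 (co (ξ + EuclideanSpace.single 1 R) z 1)
    have a0 := co (ξ + EuclideanSpace.single 1 R) z 0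
    rw [dist_eq_norm]
    simp [hξ] at a1 a0 ⊢
    rcases hz with hz | hz <;> linarith [gg_le a (z 0)]

theorem main (f : ℝ → ℝ) (hf : ContDiffOn ℝ 1 f (Icc 0 1)) (f0 : f 0 = 0) (f1 : f 1 = 0)
    (pos : ∀ s ∈ Ioo (0 : ℝ) 1, 0 < f s) : ∃ U : Set (E (n + 2)), MeasurableSet U ∧ IsConnected U ∧
      CondD U ∧ ¬ CondB U ∧ (∃ u, IsSol f U u) ∧ ∀ u, IsSol f U u → Sym u := by
  obtain ⟨L, hL⟩ := hf.exists_lipschitzOnWith one_ne_zero (convex_Icc 0 1) isCompact_Icc
  have e : ∀ a ∈ Icc (0 : ℝ) 1, max (min a 1) 0 = a := fun a ha => by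
    rw [min_eq_left ha.2, max_eq_left ha.1]
  have h : Nl (fun a => f (max (min a 1) 0)) (L + 1) := by
    refine ⟨by linarith [L.2], fun a b => ?_, by simpa using f0, by simpa using f1,
      fun a ha => by rw [e a (Ioo_subset_Icc_self ha)]; exact pos a ha⟩
    refine (hL.dist_le_mul _ ⟨le_max_right _ _, by simp⟩ _ ⟨le_max_right _ _, by simp⟩).trans
      (mul_le_mul (by linarith) ((abs_max_sub_max_le_abs _ _ _).trans ?_) dist_nonneg (by positivity))
    simpa using abs_min_sub_min_le_max a 1 b 1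
  have k : ∀ u : ℝ → E (n + 2) → ℝ, IsSol f (UU n) u ↔
      IsSol (fun a => f (max (min a 1) 0)) (UU n) u := fun u =>
    and_congr_right fun _ => and_congr_right fun h => by simp only [e _ (h _ _)]
  exact ⟨UU n, UU_closed.measurableSet, UU_conn, UU_D, UU_B,
    (exist h UU_closed.measurableSet).imp fun u => (k u).2, fun u hu => sym h ((k u).1 hu)⟩

end Pool.Agent.H94.KH
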