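import Mathlib

set_option autoImplicit false
namespace Pool.Agent.H94.KP
open Set Filter Topology

/-- Real `ℓ_2`. -/
abbrev H := lp (fun _ : ℕ => ℝ) 2

/-- The Kalton-Peck map, with values in all real sequences. -/
noncomputable def KP (x : H) : ℕ → ℝ := fun n => x n * Real.log (|x n| / ‖x‖)

noncomputable def ab (x : H) : H := ⟨fun n => ‖x n‖, (lp.memℓp x).norm⟩

theorem ab_norm (x : H) : ‖ab x‖ ≤ ‖x‖ := lp.norm_mono (by norm_num) fun n => by
  show ‖‖x n‖‖ ≤ _
  rw [norm_norm]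

theorem tlog {u t : ℝ} (h0 : 0 ≤ u) (h : u ≤ t) : u * |Real.log u - Real.log t| ≤ t := by
  rcases h0.eq_or_lt with rfl | h0
  · simpa using h
  have h1 := Real.log_le_log h0 h
  have h2 := Real.log_le_self (x := t / u) (div_nonneg (h0.le.trans h) h0.le)
  rw [Real.log_div (h0.trans_le h).ne' h0.ne', le_div_iff₀ h0] at h2
  rw [abs_sub_comm, abs_of_nonneg (by linarith)]; linarith

theorem KP_eq (x : H) (n : ℕ) : KP x n = x n * Real.log |x n| - x n * Real.log ‖x‖ := by
  rcases eq_or_ne (x n) 0 with h | h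
  · simp [KP, h]
  have : ‖x‖ ≠ 0 := fun h0 => h (by rw [norm_eq_zero.1 h0]; rfl)
  rw [KP, Real.log_div (abs_ne_zero.2 h) this]; ring

theorem KP_smul (c : ℝ) (x : H) (n : ℕ) : KP (c • x) n = c * KP x n := by
  rcases eq_or_ne c 0 with rfl | h
  · simp [KP]
  simp only [KP, lp.coeFn_smul, Pi.smul_apply, smul_eq_mul, norm_smul, abs_mul, Real.norm_eq_abs]
  rw [mul_div_mul_left _ _ (abs_ne_zero.2 h)]; ring

theorem scal (a b : ℝ) : abs ((a + b) * Real.log |a + b| - a * Real.log |a| - b * Real.log |b|) ≤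
    3 * |a| + 3 * |b| := by
  have h1 := tlog (abs_nonneg (a + b)) (abs_add_le a b)
  have h2 := tlog (t := |a| + |b|) (abs_nonneg a) (by linarith [abs_nonneg b])
  have h3 := tlog (t := |a| + |b|) (abs_nonneg b) (by linarith [abs_nonneg a])
  rw [← abs_mul, abs_le] at h1 h2 h3
  exact abs_le.2 ⟨by nlinarith [h1.1, h2.2, h3.2], by nlinarith [h1.2, h2.1, h3.1]⟩

theorem QL (x y : H) : ∃ z : H, (∀ n, z n = KP (x + y) n - KP x n - KP y n) ∧
    ‖z‖ ≤ 6 * (‖x‖ + ‖y‖) := by
  set s := ‖x‖ + ‖y‖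
  set h : H := (3 : ℝ) • ab x + (3 : ℝ) • ab y
  set g : ℕ → ℝ := fun n => (x n + y n) * Real.log |x n + y n| - x n * Real.log |x n| -
    y n * Real.log |y n| with hg
  have hb : ∀ n, ‖g n‖ ≤ h n := fun n => scal (x n) (y n)
  set w : H := ⟨g, (lp.memℓp h).mono hb⟩
  have w1 : ‖w‖ ≤ 3 * s := by
    refine (lp.norm_mono (y := h) (by norm_num) fun n => (hb n).trans (le_abs_self _)).trans
      ((norm_add_le _ _).trans ?_)
    rw [norm_smul, norm_smul, Real.norm_of_nonneg (by norm_num)]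
    linarith [ab_norm x, ab_norm y]
  have t : ∀ u : H, ‖u‖ ≤ s → ‖(Real.log ‖u‖ - Real.log s) • u‖ ≤ s := fun u hu => by
    rw [norm_smul, mul_comm]; exact tlog (norm_nonneg u) hu
  refine ⟨w - (Real.log ‖x + y‖ - Real.log s) • (x + y) + (Real.log ‖x‖ - Real.log s) • x +
    (Real.log ‖y‖ - Real.log s) • y, fun n => ?_, ?_⟩
  · have : w n = g n := rfl
    simp only [KP_eq, lp.coeFn_add, lp.coeFn_sub, lp.coeFn_smul, Pi.add_apply, Pi.sub_apply,
      Pi.smul_apply, smul_eq_mul, this, hg]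
    ring
  · have a1 := t (x + y) (norm_add_le x y)
    have a2 := t x (le_add_of_nonneg_right (norm_nonneg y))
    have a3 := t y (le_add_of_nonneg_left (norm_nonneg x))
    refine (norm_add₃_le).trans ?_
    linarith [norm_sub_le w ((Real.log ‖x + y‖ - Real.log s) • (x + y))]

theorem perm_mem (σ : ℕ ≃ ℕ) (x : H) : Memℓp (fun n => x (σ n)) 2 :=
  memℓp_gen ((σ.summable_iff (f := fun n => ‖x n‖ ^ (2 : ENNReal).toReal)).2
    ((lp.memℓp x).summable (by norm_num)))

theorem perm_norm (σ : ℕ ≃ ℕ) (x : H) : ‖(⟨fun n => x (σ n), perm_mem σ x⟩ : H)‖ ≤ ‖x‖ :=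
  lp.norm_le_of_tsum_le (by norm_num) (norm_nonneg _) (by
    rw [lp.norm_rpow_eq_tsum (by norm_num) x]
    exact (σ.tsum_eq fun n => ‖x n‖ ^ (2 : ENNReal).toReal).le)

def sw (n : ℕ) : ℕ := if n % 2 = 0 then n + 1 else n - 1

theorem sw_sw : Function.Involutive sw := fun n => by unfold sw; split_ifs <;> omega

theorem sw_sign (n : ℕ) : (-1 : ℝ) ^ sw n = -(-1) ^ n := by
  unfold sw; split_ifs with h
  · rw [pow_succ]; ring
  · obtain ⟨k, rfl⟩ : ∃ k, n = k + 1 := ⟨n - 1, by omega⟩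
    simp [pow_succ]

noncomputable def S : H →L[ℝ] H := LinearMap.mkContinuous
  { toFun := fun x => ⟨fun n => x (sw n), perm_mem sw_sw.toPerm x⟩
    map_add' := fun _ _ => rfl
    map_smul' := fun _ _ => rfl } 1 fun x => by
      rw [one_mul]; exact perm_norm sw_sw.toPerm x

theorem sgn (n : ℕ) (a : ℝ) : ‖(-1 : ℝ) ^ n * a‖ = ‖a‖ := by simp

noncomputable def V : H →L[ℝ] H := LinearMap.mkContinuous
  { toFun := fun x => ⟨fun n => (-1) ^ n * x n, (lp.memℓp x).mono' fun n => (sgn n _).le⟩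
    map_add' := fun x y => by ext n; exact mul_add _ _ _
    map_smul' := fun c x => by ext n; exact mul_left_comm _ _ _ } 1 fun x => by
      rw [one_mul]; exact lp.norm_mono (by norm_num) fun n => (sgn n _).le

theorem S_app (x : H) (n : ℕ) : S x n = x (sw n) := rfl
theorem V_app (x : H) (n : ℕ) : V x n = (-1) ^ n * x n := rfl
theorem S_S (x : H) : S (S x) = x := by ext n; rw [S_app, S_app, sw_sw n]
theorem S_le (x : H) : ‖S x‖ ≤ ‖x‖ := perm_norm sw_sw.toPerm x
theorem S_norm (x : H) : ‖S x‖ = ‖x‖ := le_antisymm (S_le x) (by simpa [S_S] using S_le (S x))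
theorem V_norm (x : H) : ‖V x‖ = ‖x‖ :=
  le_antisymm (lp.norm_mono (by norm_num) fun n => (sgn n _).le)
    (lp.norm_mono (by norm_num) fun n => (sgn n _).ge)
theorem V_V (x : H) : V (V x) = x := by
  ext n; rw [V_app, V_app, ← mul_assoc, ← mul_pow]; simp
theorem V_S (x : H) : V (S x) = -S (V x) := by
  ext n; rw [lp.coeFn_neg, Pi.neg_apply, V_app, S_app, S_app, V_app, sw_sign]; ring
theorem KP_V (x : H) (n : ℕ) : KP (V x) n = (-1) ^ n * KP x n := by
  simp only [KP, V_norm, V_app, abs_mul, abs_pow, abs_neg, abs_one, one_pow, one_mul]; ring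

theorem not_fd : ¬ FiniteDimensional ℝ H := fun _ =>
  (default : HilbertBasis ℕ ℝ H).orthonormal.linearIndependent.finite.not_infinite inferInstance

theorem not_compact : ¬ IsCompactOperator (-V - V : H →L[ℝ] H) := fun h => by
  have h1 := h.clm_comp ((-(1 / 2) : ℝ) • V)
  refine not_fd (isCompactOperator_id_iff_finiteDimensional.1 ?_)
  have : (((-(1 / 2) : ℝ) • V : H →L[ℝ] H) ∘ (-V - V : H →L[ℝ] H)) = id := by
    funext x
    simp only [Function.comp, smul_apply, sub_apply,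
      neg_apply, map_sub, map_neg, V_V, id]
    module
  rwa [this] at h1

theorem trunc (x : H) {e : ℝ} (he : 0 < e) (m0 : ℕ) : ∃ (m : ℕ) (u : H), m0 ≤ m ∧
    (∀ n, u n = if n < m then x n else 0) ∧ ‖x - u‖ < e := by
  have h := (lp.hasSum_single (by norm_num) x).tendsto_sum_nat
  obtain ⟨m, h1, h2⟩ := ((h.eventually (Metric.ball_mem_nhds x he)).and
    (eventually_ge_atTop m0)).exists
  refine ⟨m, _, h2, fun n => ?_, by rwa [dist_comm, dist_eq_norm] at h1⟩
  rw [lp.coeFn_sum, Finset.sum_apply]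
  simp [lp.single_apply, Pi.single_apply]

end Pool.Agent.H94.KP
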