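import Pool.Agent.H94.KP1

set_option autoImplicit false
namespace Pool.Agent.H94.KP
open Set Filter Topology

section
variable {E : Type} [NormedAddCommGroup E] [NormedSpace ℝ E]

/-- Quasi-linear map. -/
def IsQL (Ω : E → E) : Prop :=
  (∀ (c : ℝ) x, Ω (c • x) = c • Ω x) ∧ ∃ Q : ℝ, ∀ x y, ‖Ω (x + y) - Ω x - Ω y‖ ≤ Q * (‖x‖ + ‖y‖)

/-- `Φ` is trivial on the subspace `W`. -/
def Trivial (Φ : E → E) (W : Submodule ℝ E) : Prop :=
  ∃ (L : W →ₗ[ℝ] E) (C : ℝ), 0 ≤ C ∧ ∀ x : W, ‖Φ x - L x‖ ≤ C * ‖(x : E)‖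

/-- Singular: not trivial on any infinite-dimensional closed subspace. -/
def Singular (Ω : E → E) : Prop :=
  ∀ W : Submodule ℝ E, IsClosed (W : Set E) → ¬ FiniteDimensional ℝ W → ¬ Trivial Ω W

/-- The pair `(T, U)` is compatible with `Ω`. -/
def Compatible (Ω : E → E) (T U : E →L[ℝ] E) : Prop := Trivial (fun x => Ω (U x) - T (Ω x)) ⊤

/-- The negated form of the question on the space `E`. -/
def Counter (E : Type) [NormedAddCommGroup E] [NormedSpace ℝ E] : Prop :=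
  ∃ (Ω : E → E) (T U : E →L[ℝ] E), IsQL Ω ∧ Singular Ω ∧ Compatible Ω T U ∧
    ¬ IsCompactOperator (T - U : E →L[ℝ] E)
end

theorem exists_Om : ∃ (Ω : H → H) (L : H →ₗ[ℝ] (ℕ → ℝ)), ∀ x n, Ω x n = KP x n - L x n := by
  let N : Submodule ℝ (ℕ → ℝ) :=
    { carrier := {g | Memℓp g 2}
      add_mem' := fun h1 h2 => Memℓp.add h1 h2
      zero_mem' := zero_memℓp
      smul_mem' := fun c _ h => Memℓp.const_smul h c }
  let k : H →ₗ[ℝ] (ℕ → ℝ) ⧸ N :=
    { toFun := fun x => N.mkQ (KP x)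
      map_add' := fun x y => by
        obtain ⟨z, hz, -⟩ := QL x y
        rw [← map_add, Submodule.mkQ_apply, Submodule.mkQ_apply, Submodule.Quotient.eq]
        have : KP (x + y) - (KP x + KP y) = z := by funext n; simp [hz n]; ring
        rw [this]; exact lp.memℓp z
      map_smul' := fun c x => by
        rw [RingHom.id_apply, ← map_smul]; congr 1; funext n; exact KP_smul c x n }
  obtain ⟨s, hs⟩ := N.mkQ.exists_rightInverse_of_surjective N.range_mkQ
  refine ⟨fun x => ⟨KP x - s (k x), ?_⟩, s ∘ₗ k, fun _ _ => rfl⟩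
  exact (Submodule.Quotient.eq N).1 (LinearMap.congr_fun hs (k x)).symm

theorem sing {Ω : H → H} {L : H →ₗ[ℝ] (ℕ → ℝ)} (hΩ : ∀ x n, Ω x n = KP x n - L x n)
    (h1 : ∀ (c : ℝ) x, Ω (c • x) = c • Ω x) (h2 : ∀ x y, ‖Ω (x + y) - Ω x - Ω y‖ ≤ 6 * (‖x‖ + ‖y‖))
    (W : Submodule ℝ H) (hW : ¬ FiniteDimensional ℝ W) (A : H →ₗ[ℝ] H) {C : ℝ} (hC : 0 ≤ C)
    (hA : ∀ x ∈ W, ‖Ω x - A x‖ ≤ C * ‖x‖) : False := by
  set K := 2 * C + 12 with hK
  have step : ∀ (δ : ℝ) (m : ℕ) (G : H), 0 < δ → δ ≤ 1 → ∃ (m' : ℕ) (u r : H), m ≤ m' ∧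
      (∀ n, n < m ∨ m' ≤ n → u n = 0) ∧ ‖u‖ = 1 ∧ ‖r‖ ≤ δ ∧ u + r ∈ W ∧
      ‖G + (Ω u + Ω r - A (u + r))‖ ^ 2 ≤ ‖G‖ ^ 2 + K ^ 2 := by
    intro δ m G d0 d1
    obtain ⟨w, w1, w2, w3⟩ : ∃ w ∈ W, ‖w‖ = 1 ∧ ∀ n < m, w n = 0 := by
      let f : W →ₗ[ℝ] (Fin m → ℝ) :=
        { toFun := fun w i => (w : H) i
          map_add' := fun _ _ => rfl
          map_smul' := fun _ _ => rfl }
      have : ¬ Function.Injective f := fun h => hW (FiniteDimensional.of_injective f h)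
      rw [injective_iff_map_eq_zero] at this
      push Not at this
      obtain ⟨w, w1, w2⟩ := this
      have w3 : ‖(w : H)‖ ≠ 0 := by simpa using w2
      refine ⟨‖(w : H)‖⁻¹ • w, W.smul_mem _ w.2, by rw [norm_smul, norm_inv, norm_norm]; field_simp,
        fun n hn => ?_⟩
      have : (w : H) n = 0 := congrFun w1 ⟨n, hn⟩
      simp [this]
    obtain ⟨m', v, v1, v2, v3⟩ := trunc w (half_pos d0) m
    have v4 : 1 / 2 ≤ ‖v‖ := by
      have := norm_sub_norm_le w v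
      linarith
    have key : ∀ c : ℝ, |c| = ‖v‖⁻¹ → (∀ n, n < m ∨ m' ≤ n → (c • v) n = 0) ∧ ‖c • v‖ = 1 ∧
        ‖c • (w - v)‖ ≤ δ ∧ c • v + c • (w - v) ∈ W ∧
        ‖Ω (c • v) + Ω (c • (w - v)) - A (c • v + c • (w - v))‖ ≤ K := fun c hc => by
      have a1 : ‖c • v‖ = 1 := by rw [norm_smul, Real.norm_eq_abs, hc]; field_simp
      have a2 : ‖c • (w - v)‖ ≤ δ := by
        rw [norm_smul, Real.norm_eq_abs, hc, inv_mul_le_iff₀ (by linarith)]; nlinarith
      have a3 : c • v + c • (w - v) ∈ W := by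
        rw [← smul_add, add_sub_cancel]; exact W.smul_mem _ w1
      refine ⟨fun n hn => ?_, a1, a2, a3, ?_⟩
      · rw [lp.coeFn_smul, Pi.smul_apply, v2]
        split_ifs with h
        · rw [w3 n (by omega), smul_zero]
        · exact smul_zero _
      · have b1 := hA _ a3
        have b2 := h2 (c • v) (c • (w - v))
        have b3 := norm_add_le (c • v) (c • (w - v))
        have b4 := norm_sub_le (Ω (c • v + c • (w - v)) - A (c • v + c • (w - v)))
          (Ω (c • v + c • (w - v)) - Ω (c • v) - Ω (c • (w - v)))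
        rw [show Ω (c • v + c • (w - v)) - A (c • v + c • (w - v)) -
          (Ω (c • v + c • (w - v)) - Ω (c • v) - Ω (c • (w - v))) =
          Ω (c • v) + Ω (c • (w - v)) - A (c • v + c • (w - v)) by abel] at b4
        nlinarith
    have fin : ∀ e : H, ‖e‖ ≤ K → inner ℝ G e ≤ 0 → ‖G + e‖ ^ 2 ≤ ‖G‖ ^ 2 + K ^ 2 := fun e he hi => by
      rw [norm_add_sq_real]; nlinarith [norm_nonneg e]
    set e := Ω v + Ω (w - v) - A (v + (w - v))
    have sc : ∀ c : ℝ, Ω (c • v) + Ω (c • (w - v)) - A (c • v + c • (w - v)) = c • e := fun c => by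
      rw [h1, h1, ← smul_add, ← smul_add, map_smul, ← smul_sub]
    have p : 0 < ‖v‖⁻¹ := inv_pos.2 (by linarith)
    rcases le_total (inner ℝ G e) 0 with h | h
    · obtain ⟨k1, k2, k3, k4, k5⟩ := key ‖v‖⁻¹ (abs_of_pos p)
      exact ⟨m', _, _, v1, k1, k2, k3, k4, fin _ k5 (by
        rw [sc, real_inner_smul_right]; nlinarith)⟩
    · obtain ⟨k1, k2, k3, k4, k5⟩ := key (-‖v‖⁻¹) (by rw [abs_neg, abs_of_pos p])
      exact ⟨m', _, _, v1, k1, k2, k3, k4, fin _ k5 (by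
        rw [sc, real_inner_smul_right]; nlinarith)⟩
  have ind : ∀ δ : ℝ, 0 < δ → δ ≤ 1 → ∀ N : ℕ, ∃ (m : ℕ) (u r R : H), (∀ n, m ≤ n → u n = 0) ∧
      ‖u‖ ^ 2 = N ∧ ‖r‖ ≤ N * δ ∧ u + r ∈ W ∧ ‖Ω r - R‖ ≤ 6 * (N ^ 2 * δ) ∧
      ‖Ω u + Real.log ‖u‖ • u + R - A (u + r)‖ ^ 2 ≤ N * K ^ 2 := by
    intro δ d0 d1 N
    have z0 : Ω 0 = 0 := by simpa using h1 0 0
    induction N with
    | zero => exact ⟨0, 0, 0, 0, fun _ _ => rfl, by simp, by simp, by simp, by simp [z0], by simp [z0]⟩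
    | succ N ih =>
      obtain ⟨m, u, r, R, i1, i2, i3, i4, i5, i6⟩ := ih
      obtain ⟨m', u', r', s1, s2, s3, s4, s5, s6⟩ := step δ m _ d0 d1
      have dj : ∀ n, u n = 0 ∨ u' n = 0 := fun n =>
        (le_or_gt m n).imp (i1 n) fun h => s2 n (Or.inl h)
      refine ⟨m', u + u', r + r', R + Ω r', fun n hn => ?_, ?_, ?_, ?_, ?_, le_trans (le_of_eq ?_)
        (s6.trans (by push_cast; linarith))⟩
      · rw [lp.coeFn_add, Pi.add_apply, i1 n (by omega), s2 n (Or.inr hn), add_zero]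
      · have : inner ℝ u u' = 0 := by
          rw [lp.inner_eq_tsum]
          simpa using tsum_congr (g := fun _ => (0 : ℝ)) fun n => by rcases dj n with h | h <;> simp [h]
        rw [norm_add_sq_real, this, i2, s3]; push_cast; ring
      · push_cast; linarith [norm_add_le r r']
      · rw [add_add_add_comm]; exact W.add_mem i4 s5
      · have a1 := h2 r r'
        have a2 := norm_add_le (Ω (r + r') - Ω r - Ω r') (Ω r - R)
        rw [show Ω (r + r') - Ω r - Ω r' + (Ω r - R) = Ω (r + r') - (R + Ω r') by abel] at a2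
        have : (0 : ℝ) ≤ N * δ := by positivity
        push_cast; nlinarith
      · have : Ω (u + u') + Real.log ‖u + u'‖ • (u + u') = Ω u + Real.log ‖u‖ • u + Ω u' := by
          ext n
          simp only [lp.coeFn_add, lp.coeFn_smul, Pi.add_apply, Pi.smul_apply, smul_eq_mul, hΩ, KP_eq,
            map_add, s3, Real.log_one]
          rcases dj n with h | h <;> simp [h] <;> ring
        rw [this, add_add_add_comm u u', map_add A (u + r)]
        congr 2; abel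
  set B := K + 6 + 2 * (6 + C) with hB
  obtain ⟨N, hN⟩ := exists_nat_gt (Real.exp B ^ 2)
  have e1 : 1 ≤ Real.exp B := Real.one_le_exp (by positivity)
  have N1 : (1 : ℝ) ≤ N := by nlinarith
  obtain ⟨m, u, r, R, -, i2, i3, i4, i5, i6⟩ := ind (1 / N ^ 2) (by positivity)
    (by rw [div_le_one (by positivity)]; nlinarith) N
  have a0 : Real.exp B < ‖u‖ := lt_of_pow_lt_pow_left₀ 2 (norm_nonneg _) (by rw [i2]; exact hN)
  have a1 : B < Real.log ‖u‖ := (Real.lt_log_iff_exp_lt (by linarith)).2 a0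
  have a2 : ‖r‖ ≤ 1 := i3.trans (by rw [mul_one_div, div_le_one (by positivity)]; nlinarith)
  rw [mul_one_div_cancel (by positivity)] at i5
  have a3 : ‖Ω u + Real.log ‖u‖ • u + R - A (u + r)‖ ≤ ‖u‖ * K :=
    (sq_le_sq₀ (norm_nonneg _) (by positivity)).1 (by rw [mul_pow, i2]; exact i6)
  have a4 := hA _ i4
  have a5 := h2 u r
  have a6 := norm_add_le u r
  have a7 : Real.log ‖u‖ • u = (Ω u + Real.log ‖u‖ • u + R - A (u + r)) + (Ω r - R) +
      (Ω (u + r) - Ω u - Ω r) - (Ω (u + r) - A (u + r)) := by abel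
  have a8 : Real.log ‖u‖ * ‖u‖ ≤ ‖u‖ * K + 6 + 6 * (‖u‖ + ‖r‖) + C * ‖u + r‖ := by
    have := congrArg norm a7
    rw [norm_smul, Real.norm_of_nonneg (by linarith)] at this
    rw [this]
    refine (norm_sub_le _ _).trans (add_le_add (norm_add₃_le.trans ?_) a4)
    linarith
  have a9 : C * ‖u + r‖ ≤ C * (2 * ‖u‖) := mul_le_mul_of_nonneg_left (by linarith) hC
  nlinarith

theorem main : Counter H := by
  obtain ⟨Ω, L, hΩ⟩ := exists_Om
  have h1 : ∀ (c : ℝ) x, Ω (c • x) = c • Ω x := fun c x => by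
    ext n; simp only [hΩ, KP_smul, map_smul, lp.coeFn_smul, Pi.smul_apply, smul_eq_mul]; ring
  have h2 : ∀ x y, ‖Ω (x + y) - Ω x - Ω y‖ ≤ 6 * (‖x‖ + ‖y‖) := fun x y => by
    obtain ⟨z, hz, hz'⟩ := QL x y
    have : Ω (x + y) - Ω x - Ω y = z := by
      ext n; simp only [lp.coeFn_sub, Pi.sub_apply, hΩ, hz, map_add, Pi.add_apply]; ring
    rwa [this]
  refine ⟨fun x => S (Ω x), -V, V, ⟨fun c x => by simp only [h1, map_smul], 6, fun x y => ?_⟩,
    fun W _ hW ⟨L', C, hC, hL⟩ => ?_, ⟨⟨⟨fun x => S (Ω (V x) - V (Ω x)), fun x y => ?_⟩,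
      fun c x => ?_⟩, 0, le_rfl, fun x => ?_⟩, not_compact⟩
  · rw [← map_sub, ← map_sub, S_norm]; exact h2 x y
  · obtain ⟨A, hA⟩ := L'.exists_extend
    refine sing hΩ h1 h2 W hW (S.toLinearMap ∘ₗ A) hC fun x hx => ?_
    have := hL ⟨x, hx⟩
    rw [← hA, ← S_norm, map_sub, S_S] at this
    exact this
  · rw [← map_add]; congr 1
    ext n
    simp only [Submodule.coe_add, lp.coeFn_add, lp.coeFn_sub, Pi.add_apply, Pi.sub_apply, hΩ, V_app,
      KP_V, map_add V, map_add L]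
    have := KP_V (x + y) n
    rw [map_add] at this
    rw [this]; ring
  · simp only [Submodule.coe_smul, map_smul, h1, RingHom.id_apply, smul_sub, map_sub]
  · simp [V_S]

end Pool.Agent.H94.KP
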