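import Pool.Agent.H94.KP1

set_option autoImplicit false
namespace Pool.Agent.H94.KP
open Set Filter Topology

/-- The Kalton-Peck space: pairs `(y, x)` with `x ∈ ℓ_2` and `y - K x ∈ ℓ_2`. -/
def Z2 : Submodule ℝ ((ℕ → ℝ) × H) where
  carrier := {p | Memℓp (p.1 - KP p.2) 2}
  add_mem' := fun {a b} ha hb => by
    obtain ⟨z, hz, -⟩ := QL a.2 b.2
    have : (a + b).1 - KP (a + b).2 = (a.1 - KP a.2) + (b.1 - KP b.2) - z := by
      funext n; simp [hz n]; ring
    show Memℓp _ 2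
    rw [this]; exact (Memℓp.add ha hb).sub (lp.memℓp z)
  zero_mem' := by
    have : ((0 : (ℕ → ℝ) × H).1 - KP (0 : (ℕ → ℝ) × H).2) = 0 := by funext n; simp [KP]
    show Memℓp _ 2
    rw [this]; exact zero_memℓp
  smul_mem' := fun c a ha => by
    have : (c • a).1 - KP (c • a).2 = c • (a.1 - KP a.2) := by
      funext n; simp [KP_smul]; ring
    show Memℓp _ 2
    rw [this]; exact Memℓp.const_smul ha c

/-- The vector `y - K x` of `ℓ_2`. -/
noncomputable def D (z : Z2) : H := ⟨z.1.1 - KP z.1.2, z.2⟩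

/-- The quasi-norm `‖y - K x‖ + ‖x‖`. -/
noncomputable def qn (z : Z2) : ℝ := ‖D z‖ + ‖z.1.2‖

theorem D_app (z : Z2) (n : ℕ) : D z n = z.1.1 n - KP z.1.2 n := rfl

theorem KP_zero : KP 0 = 0 := by funext n; simp [KP]

noncomputable def io : H →ₗ[ℝ] Z2 where
  toFun y := ⟨(y, 0), by
    show Memℓp (_ - KP 0) 2
    rw [KP_zero, sub_zero]; exact lp.memℓp y⟩
  map_add' _ _ := Subtype.ext (Prod.ext rfl (add_zero _).symm)
  map_smul' _ _ := Subtype.ext (Prod.ext rfl (smul_zero _).symm)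

noncomputable def qq : Z2 →ₗ[ℝ] H := LinearMap.snd ℝ _ _ ∘ₗ Z2.subtype

noncomputable def li (x : H) : Z2 := ⟨(KP x, x), by
  show Memℓp (KP x - KP x) 2
  rw [sub_self]; exact zero_memℓp⟩

theorem D_io (z : Z2) (y : H) : D (z - io y) = D z - y := by
  ext n
  show z.1.1 n - y n - KP (z.1.2 - 0) n = z.1.1 n - KP z.1.2 n - y n
  rw [sub_zero]; ring

theorem qn_io (z : Z2) (y : H) : qn (z - io y) = ‖D z - y‖ + ‖z.1.2‖ := by
  rw [qn, D_io]; congr 2; exact sub_zero _

theorem D_sub (z w : Z2) : ‖D z - D w‖ ≤ ‖D (z - w)‖ + 6 * (‖z.1.2 - w.1.2‖ + ‖w.1.2‖) := by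
  obtain ⟨d, h1, h2⟩ := QL (z.1.2 - w.1.2) w.1.2
  have : D z - D w = D (z - w) - d := by
    ext n
    simp only [lp.coeFn_sub, Pi.sub_apply, D_app, h1, sub_add_cancel, Submodule.coe_sub,
      Prod.fst_sub, Prod.snd_sub]
    ring
  rw [this]; linarith [norm_sub_le (D (z - w)) d]

theorem dense (z : Z2) {e : ℝ} (he : 0 < e) : ∃ w : Z2, (Function.support w.1.1).Finite ∧
    (Function.support w.1.2).Finite ∧ qn (z - w) < e := by
  obtain ⟨m, x, -, x1, x2⟩ := trunc z.1.2 (half_pos he) 0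
  obtain ⟨k, y, -, y1, y2⟩ := trunc (D (z - li x)) (half_pos he) 0
  have fx : (Function.support x).Finite := (finite_lt_nat m).subset fun n hn => by
    by_contra h; exact hn ((x1 n).trans (if_neg h))
  have fy : (Function.support y).Finite := (finite_lt_nat k).subset fun n hn => by
    by_contra h; exact hn ((y1 n).trans (if_neg h))
  refine ⟨li x + io y, (fx.union fy).subset fun n hn => ?_, fx.subset fun n hn => ?_, ?_⟩
  · by_contra h
    simp only [mem_union, Function.mem_support, not_or, not_not] at h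
    refine hn ?_
    show KP x n + y n = 0
    simp [KP, h.1, h.2]
  · intro h
    refine hn ?_
    show (x + 0) n = 0
    rw [add_zero, h]
  · rw [← sub_sub, qn_io]
    have : (z - li x).1.2 = z.1.2 - x := rfl
    rw [this]; linarith

theorem complete (s : ℕ → Z2) (hs : ∀ e > 0, ∃ N, ∀ m ≥ N, ∀ n ≥ N, qn (s m - s n) < e) :
    ∃ z : Z2, Tendsto (fun n => qn (s n - z)) atTop (𝓝 0) := by
  obtain ⟨x, hx⟩ := cauchySeq_tendsto_of_complete (u := fun n => (s n).1.2)
    (Metric.cauchySeq_iff.2 fun e he => (hs e he).imp fun N h m hm n hn => by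
      rw [dist_eq_norm]
      exact lt_of_le_of_lt (le_add_of_nonneg_left (norm_nonneg (D (s m - s n)))) (h m hm n hn))
  have hx' := tendsto_iff_norm_sub_tendsto_zero.1 hx
  obtain ⟨y, hy⟩ := cauchySeq_tendsto_of_complete (u := fun n => D (s n - li x))
    (Metric.cauchySeq_iff.2 fun e he => by
      obtain ⟨N, hN⟩ := hs (e / 13) (by positivity)
      obtain ⟨M, hM⟩ := eventually_atTop.1 (hx'.eventually (gt_mem_nhds (show 0 < e / 13 by positivity)))
      refine ⟨max N M, fun m hm n hn => ?_⟩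
      have a1 := D_sub (s m - li x) (s n - li x)
      have a2 := hN m (le_of_max_le_left hm) n (le_of_max_le_left hn)
      have a3 := hM n (le_of_max_le_right hn)
      have e1 : (s m - li x).1.2 - (s n - li x).1.2 = (s m - s n).1.2 := sub_sub_sub_cancel_right _ _ _
      have e2 : (s n - li x).1.2 = (s n).1.2 - x := rfl
      rw [sub_sub_sub_cancel_right, e1, e2] at a1
      rw [qn] at a2
      rw [dist_eq_norm]
      linarith [norm_nonneg (D (s m - s n)), norm_nonneg (s m - s n).1.2])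
  refine ⟨li x + io y, ?_⟩
  simp only [← sub_sub, qn_io]
  have := (tendsto_iff_norm_sub_tendsto_zero.1 hy).add hx'
  rw [add_zero] at this
  exact this

noncomputable def tau : Z2 →ₗ[ℝ] Z2 where
  toFun z := ⟨(fun n => (-1) ^ n * z.1.1 n, V z.1.2), by
    have : (fun n => (-1) ^ n * z.1.1 n) - KP (V z.1.2) = V (D z) := by
      funext n; simp only [Pi.sub_apply, KP_V, V_app, D_app]; ring
    show Memℓp (_ - _) 2
    rw [this]; exact lp.memℓp _⟩
  map_add' _ _ := Subtype.ext (Prod.ext (funext fun _ => mul_add _ _ _) (map_add V _ _))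
  map_smul' _ _ := Subtype.ext (Prod.ext (funext fun _ => mul_left_comm _ _ _) (map_smul V _ _))

theorem qn_tau (z : Z2) : qn (tau z) = qn z := by
  have : D (tau z) = V (D z) := by
    ext n
    show (-1) ^ n * z.1.1 n - KP (V z.1.2) n = _
    simp only [KP_V, V_app, D_app]; ring
  rw [qn, this, V_norm, qn]; congr 1; exact V_norm _

section
variable {E Z : Type} [NormedAddCommGroup E] [NormedSpace ℝ E] [AddCommGroup Z] [Module ℝ Z]

/-- `0 → E → Z → E → 0` is exact, `Z` carrying the quasi-norm `N`. -/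
def Exact (N : Z → ℝ) (j : E →ₗ[ℝ] Z) (q : Z →ₗ[ℝ] E) : Prop :=
  (∀ y, N (j y) = ‖y‖) ∧ (∀ z, ‖q z‖ ≤ N z) ∧ Function.Surjective q ∧
    LinearMap.ker q = LinearMap.range j

/-- The pair `(T, U)` is compatible with the sequence. -/
def Compat (N : Z → ℝ) (j : E →ₗ[ℝ] Z) (q : Z →ₗ[ℝ] E) (T U : E →L[ℝ] E) : Prop :=
  ∃ τ : Z →ₗ[ℝ] Z, (∀ z, N (τ z) = N z) ∧ (∀ y, τ (j y) = j (T y)) ∧ ∀ z, q (τ z) = U (q z)

/-- An exact sequence with a compatible pair whose difference is not compact. -/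
def Counter3 (E : Type) [NormedAddCommGroup E] [NormedSpace ℝ E] (N : Z → ℝ) : Prop :=
  ∃ (j : E →ₗ[ℝ] Z) (q : Z →ₗ[ℝ] E) (T U : E →L[ℝ] E), Exact N j q ∧ Compat N j q T U ∧
    ¬ IsCompactOperator (T - U : E →L[ℝ] E)

/-- Every `N`-Cauchy sequence converges. -/
def Complete (N : Z → ℝ) : Prop :=
  ∀ s : ℕ → Z, (∀ e > 0, ∃ k, ∀ m ≥ k, ∀ n ≥ k, N (s m - s n) < e) →
    ∃ z : Z, Tendsto (fun n => N (s n - z)) atTop (𝓝 0)

/-- The set `A` is `N`-dense. -/
def DenseFor (N : Z → ℝ) (A : Set Z) : Prop := ∀ (z : Z) (e : ℝ), 0 < e → ∃ w ∈ A, N (z - w) < e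

/-- The Kalton-Peck map on a sequence space `E` with coordinates `ev`. -/
noncomputable def KPg (ev : E → ℕ → ℝ) (x : E) : ℕ → ℝ := fun n => ev x n * Real.log (|ev x n| / ‖x‖)

/-- The quasi-norm `‖y - K x‖_2 + ‖x‖`. -/
noncomputable def qng (ev : E → ℕ → ℝ) (p : (ℕ → ℝ) × E) : ℝ :=
  √(∑' n, (p.1 n - KPg ev p.2 n) ^ 2) + ‖p.2‖

/-- The space of pairs `(y, x)` with `y - K x` square summable is a linear space, complete for the
quasi-norm, with the finitely supported pairs dense, and it carries a counterexample. -/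
def Main (E : Type) [NormedAddCommGroup E] [NormedSpace ℝ E] (ev : E → ℕ → ℝ) : Prop :=
  ∃ Z : Submodule ℝ ((ℕ → ℝ) × E), (∀ p, p ∈ Z ↔ Summable fun n => (p.1 n - KPg ev p.2 n) ^ 2) ∧
    DenseFor (fun z : Z => qng ev z.1)
      {w | (Function.support w.1.1).Finite ∧ (Function.support (ev w.1.2)).Finite} ∧
    Complete (fun z : Z => qng ev z.1) ∧ Counter3 E (fun z : Z => qng ev z.1)
end

theorem main3 : Counter3 H qn := by
  refine ⟨io ∘ₗ S.toLinearMap, qq, -V, V, ⟨fun y => ?_,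
    fun z => le_add_of_nonneg_left (norm_nonneg _), fun x => ⟨li x, rfl⟩, ?_⟩,
    ⟨tau, qn_tau, fun y => ?_, fun _ => rfl⟩, not_compact⟩
  · have h := qn_io 0 (-S y)
    have h0 : D 0 = 0 := by ext n; simp [D_app, KP]
    simpa [h0, S_norm] using h
  · ext z
    constructor
    · intro h
      have h1 : z.1.2 = 0 := h
      refine ⟨S (D z), Subtype.ext (Prod.ext ?_ h1.symm)⟩
      show (S (S (D z)) : ℕ → ℝ) = z.1.1
      funext n; rw [S_S, D_app, h1, KP_zero]; simp
    · rintro ⟨y, rfl⟩; rfl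
  · refine Subtype.ext (Prod.ext (funext fun n => ?_) (map_zero V))
    show V (S y) n = S (-V y) n
    rw [V_S, map_neg]

theorem main4 : Main H (fun x n => x n) := by
  have e : (fun z : Z2 => qng (fun (x : H) n => x n) z.1) = qn := by
    funext z
    rw [qn, qng, lp.norm_eq_tsum_rpow (by norm_num) (D z), Real.sqrt_eq_rpow]
    simp only [D_app, ENNReal.toReal_ofNat, Real.rpow_two, Real.norm_eq_abs, sq_abs]
    rfl
  refine ⟨Z2, fun p => ?_, ?_⟩
  · refine (memℓp_gen_iff (f := p.1 - KP p.2) (p := 2) (by norm_num)).trans ?_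
    simp only [ENNReal.toReal_ofNat, Real.rpow_two, Real.norm_eq_abs, sq_abs]
    rfl
  · rw [e]
    exact ⟨fun z _ he => (dense z he).imp fun _ h => ⟨⟨h.1, h.2.1⟩, h.2.2⟩, complete, main3⟩

end Pool.Agent.H94.KP
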