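import Mathlib

set_option autoImplicit false

namespace Pool.Agent.H94.KneadDefs

open Set Filter
open scoped Topology

/-- `f` restricted to `[-1,1]` is a unimodal map with turning point `c`. -/
def Unimodal (f : ℝ → ℝ) (c : ℝ) : Prop :=
  c ∈ Ioo (-1 : ℝ) 1 ∧ ContinuousOn f (Icc (-1) 1) ∧ MapsTo f (Icc (-1) 1) (Icc (-1) 1) ∧
    f (-1) = -1 ∧ f 1 = -1 ∧ StrictMonoOn f (Icc (-1) c) ∧ StrictAntiOn f (Icc c 1)

/-- The coefficient `θ_i(x)`: the sign of the derivative of the `(i+1)`-th iterate at `x`. -/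
noncomputable def theta (f : ℝ → ℝ) (x : ℝ) (i : ℕ) : SignType :=
  SignType.sign (deriv (f^[i + 1]) x)

/-- `ν` is the kneading sequence of `f` with turning point `c`: each coefficient `θ_i(y)` equals
`ν i` for all `y < f c` close enough to `f c`. -/
def IsKneading (f : ℝ → ℝ) (c : ℝ) (ν : ℕ → SignType) : Prop :=
  ∀ i, ∀ᶠ y in 𝓝[<] (f c), theta f y i = ν i

/-- The quadratic family. -/
def quad (x μ : ℝ) : ℝ := (μ - 1) - μ * x ^ 2

end Pool.Agent.H94.KneadDefs
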