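import Pool.Agent.H94.KneadDefs

set_option autoImplicit false

namespace Pool.Agent.H94.KneadProof

open Set Filter Pool.Agent.H94.KneadDefs
open scoped Topology

lemma exists_kneading {f : ℝ → ℝ} (hf : ∀ x, AnalyticAt ℝ f x) (c : ℝ) :
    ∃ ν, IsKneading f c ν := by
  have h1 : ∀ n x, AnalyticAt ℝ (f^[n]) x := by
    intro n
    induction n with
    | zero => exact fun x => analyticAt_id
    | succ n ih =>
      intro x
      rw [Function.iterate_succ]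
      exact (ih _).comp (hf x)
  have h2 : ∀ i, ∃ s, ∀ᶠ y in 𝓝[<] (f c), theta f y i = s := by
    intro i
    have h3 : ∀ x, AnalyticAt ℝ (deriv (f^[i + 1])) x := fun x => (h1 _ x).deriv
    rcases (h3 (f c)).eventually_eq_zero_or_eventually_ne_zero with h | h
    · refine ⟨0, ?_⟩
      filter_upwards [nhdsWithin_le_nhds h] with y hy
      rw [theta, hy, sign_zero]
    · have h4 : ∀ᶠ y in 𝓝[<] (f c), deriv (f^[i + 1]) y ≠ 0 :=
        nhdsWithin_mono _ (fun y (hy : y < f c) => hy.ne) h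
      obtain ⟨l, hl, hsub⟩ := mem_nhdsLT_iff_exists_Ioo_subset.1 h4
      have hl' : l < f c := hl
      refine ⟨theta f ((l + f c) / 2) i, ?_⟩
      filter_upwards [Ioo_mem_nhdsLT hl'] with y hy
      refine isPreconnected_Ioo.constant (f := fun y => theta f y i) ?_ hy
        ⟨by linarith, by linarith⟩
      intro z hz
      exact ((continuousAt_sign_of_ne_zero (hsub hz)).comp
        (h3 z).continuousAt).continuousWithinAt
  choose ν hν using h2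
  exact ⟨ν, hν⟩

noncomputable def chi (ρ x : ℝ) : ℝ := ρ ^ 2 * (1 - x ^ 2) / (ρ ^ 2 + x ^ 2)
noncomputable def chi' (ρ x : ℝ) : ℝ := -2 * x * ρ ^ 2 * (1 + ρ ^ 2) / (ρ ^ 2 + x ^ 2) ^ 2
noncomputable def am (ρ μ : ℝ) : ℝ := ρ / 2 * Real.sin (4 * (μ - 1) / ρ)
noncomputable def am' (ρ μ : ℝ) : ℝ := 2 * Real.cos (4 * (μ - 1) / ρ)
noncomputable def hh (ρ μ x : ℝ) : ℝ := x - am ρ μ * chi ρ x
noncomputable def G (ρ x μ : ℝ) : ℝ := (μ - 1) - μ * hh ρ μ x ^ 2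

variable {ρ : ℝ}

lemma den_pos (hρ : 0 < ρ) (x : ℝ) : 0 < ρ ^ 2 + x ^ 2 := by positivity

lemma chi_deriv (hρ : 0 < ρ) (x : ℝ) : HasDerivAt (chi ρ) (chi' ρ x) x := by
  have h1 := (((hasDerivAt_pow 2 x).const_sub 1).const_mul (ρ ^ 2)).div
    ((hasDerivAt_pow 2 x).const_add (ρ ^ 2)) (den_pos hρ x).ne'
  refine h1.congr_deriv ?_
  rw [chi']
  congr 1
  push_cast
  ring

lemma am_deriv (hρ : 0 < ρ) (μ : ℝ) : HasDerivAt (am ρ) (am' ρ μ) μ := by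
  have h1 := (((((hasDerivAt_id μ).sub_const 1).const_mul 4).div_const ρ).sin).const_mul (ρ / 2)
  refine h1.congr_deriv ?_
  simp only [am', id]
  field_simp
  ring

lemma am_abs (hρ : 0 < ρ) (μ : ℝ) : |am ρ μ| ≤ ρ / 2 := by
  rw [am, abs_mul, abs_of_pos (by positivity)]
  exact mul_le_of_le_one_right (by positivity) (Real.abs_sin_le_one _)

lemma am'_abs (μ : ℝ) : |am' ρ μ| ≤ 2 := by
  rw [am', abs_mul, abs_two]
  linarith [Real.abs_cos_le_one (4 * (μ - 1) / ρ)]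

lemma chi_abs (hρ : 0 < ρ) {x : ℝ} (hx : |x| ≤ 1) : |chi ρ x| ≤ 1 := by
  have h : x ^ 2 ≤ 1 := by
    rw [← sq_abs]
    nlinarith [abs_nonneg x]
  have := den_pos hρ x
  rw [chi, abs_of_nonneg (div_nonneg (mul_nonneg (sq_nonneg _) (by linarith)) this.le),
    div_le_one this]
  nlinarith [sq_nonneg x, sq_nonneg ρ, mul_nonneg (sq_nonneg x) (sq_nonneg ρ)]

lemma xchi_abs (hρ : 0 < ρ) {x : ℝ} (hx : |x| ≤ 1) : |x * chi ρ x| ≤ ρ / 2 := by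
  have h : x ^ 2 ≤ 1 := by
    rw [← sq_abs]
    nlinarith [abs_nonneg x]
  have h0 := den_pos hρ x
  rw [abs_mul, chi, abs_of_nonneg (div_nonneg (mul_nonneg (sq_nonneg _) (by linarith)) h0.le),
    ← mul_div_assoc, div_le_iff₀ h0, ← sq_abs x]
  have h1 : 2 * |x| * ρ ≤ ρ ^ 2 + |x| ^ 2 := by nlinarith [sq_nonneg (ρ - |x|)]
  have h2 : 0 ≤ |x| * ρ ^ 2 * |x| ^ 2 := by positivity
  nlinarith

lemma chi'_abs (hρ : 0 < ρ) (x : ℝ) : ρ * |chi' ρ x| ≤ 1 + ρ ^ 2 := by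
  have h0 := den_pos hρ x
  have e : |chi' ρ x| = 2 * |x| * ρ ^ 2 * (1 + ρ ^ 2) / (ρ ^ 2 + x ^ 2) ^ 2 := by
    rw [chi', abs_div, abs_mul, abs_mul, abs_mul, abs_neg, abs_two,
      abs_of_pos (by positivity : 0 < ρ ^ 2), abs_of_pos (by positivity : 0 < 1 + ρ ^ 2),
      abs_of_pos (by positivity : 0 < (ρ ^ 2 + x ^ 2) ^ 2)]
  rw [e, ← mul_div_assoc, div_le_iff₀ (by positivity)]
  have h1 : 2 * |x| * ρ ≤ ρ ^ 2 + x ^ 2 := by
    rw [← sq_abs x]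
    nlinarith [sq_nonneg (ρ - |x|)]
  have h2 : ρ ^ 2 ≤ ρ ^ 2 + x ^ 2 := by nlinarith [sq_nonneg x]
  have h3 := mul_le_mul h1 h2 (sq_nonneg _) h0.le
  have h4 : 0 < 1 + ρ ^ 2 := by positivity
  nlinarith

lemma xchi'_abs (hρ : 0 < ρ) (hρ1 : ρ ≤ 1 / 2) (x : ℝ) : |x * chi' ρ x| ≤ 1 := by
  have h0 := den_pos hρ x
  have e : x * chi' ρ x = -(2 * x ^ 2 * ρ ^ 2 * (1 + ρ ^ 2) / (ρ ^ 2 + x ^ 2) ^ 2) := by
    rw [chi']
    ring
  rw [e, abs_neg, abs_of_nonneg (by positivity), div_le_one (by positivity)]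
  have h1 : 1 + ρ ^ 2 ≤ 2 := by nlinarith
  have h2 : 0 ≤ 2 * x ^ 2 * ρ ^ 2 := by positivity
  nlinarith [sq_nonneg (ρ ^ 2 - x ^ 2)]

lemma amchi'_abs (hρ : 0 < ρ) (hρ1 : ρ ≤ 1 / 2) (μ x : ℝ) : |am ρ μ * chi' ρ x| ≤ 5 / 8 := by
  rw [abs_mul]
  have h1 := am_abs hρ μ
  have h2 := chi'_abs hρ x
  have h3 := mul_le_mul_of_nonneg_right h1 (abs_nonneg (chi' ρ x))
  nlinarith

lemma hh_deriv (hρ : 0 < ρ) (μ x : ℝ) : HasDerivAt (hh ρ μ) (1 - am ρ μ * chi' ρ x) x :=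
  (hasDerivAt_id x).sub ((chi_deriv hρ x).const_mul _)

lemma hh'_pos (hρ : 0 < ρ) (hρ1 : ρ ≤ 1 / 2) (μ x : ℝ) : 0 < 1 - am ρ μ * chi' ρ x := by
  have := (abs_le.1 (amchi'_abs hρ hρ1 μ x)).2
  linarith

lemma hh_mono (hρ : 0 < ρ) (hρ1 : ρ ≤ 1 / 2) (μ : ℝ) : StrictMono (hh ρ μ) :=
  strictMono_of_deriv_pos fun x => by
    rw [(hh_deriv hρ μ x).deriv]
    exact hh'_pos hρ hρ1 μ x

lemma hh_one (μ : ℝ) : hh ρ μ 1 = 1 := by simp [hh, chi]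

lemma hh_neg_one (μ : ℝ) : hh ρ μ (-1) = -1 := by simp [hh, chi]

lemma hh_cont (hρ : 0 < ρ) (μ : ℝ) : Continuous (hh ρ μ) :=
  continuous_iff_continuousAt.2 fun x => (hh_deriv hρ μ x).continuousAt

lemma exists_c (hρ : 0 < ρ) (μ : ℝ) : ∃ c ∈ Ioo (-1 : ℝ) 1, hh ρ μ c = 0 :=
  intermediate_value_Ioo (by norm_num) (hh_cont hρ μ).continuousOn
    (by rw [hh_one, hh_neg_one]; constructor <;> norm_num)

lemma G_deriv (hρ : 0 < ρ) (μ x : ℝ) :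
    HasDerivAt (fun x => G ρ x μ) (-(μ * (2 * hh ρ μ x * (1 - am ρ μ * chi' ρ x)))) x := by
  have := (((hh_deriv hρ μ x).pow 2).const_mul μ).const_sub (μ - 1)
  refine this.congr_deriv ?_
  simp

lemma G_smooth (hρ : 0 < ρ) : ContDiff ℝ 1 fun p : ℝ × ℝ => G ρ p.1 p.2 := by
  unfold G hh am chi
  have h : ∀ p : ℝ × ℝ, ρ ^ 2 + p.1 ^ 2 ≠ 0 := fun p => (den_pos hρ p.1).ne'
  fun_prop (disch := exact h)

lemma G_analytic (hρ : 0 < ρ) (μ x : ℝ) : AnalyticAt ℝ (fun x => G ρ x μ) x := by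
  unfold G hh chi
  have h : ρ ^ 2 + x ^ 2 ≠ 0 := (den_pos hρ x).ne'
  fun_prop (disch := exact h)

lemma unimodal (hρ : 0 < ρ) (hρ1 : ρ ≤ 1 / 2) {μ c : ℝ} (hμ : μ ∈ Ioc (0 : ℝ) 2)
    (hc : c ∈ Ioo (-1 : ℝ) 1) (h0 : hh ρ μ c = 0) : Unimodal (fun x => G ρ x μ) c := by
  have hm := hh_mono hρ hρ1 μ
  refine ⟨hc, fun x _ => (G_deriv hρ μ x).continuousAt.continuousWithinAt, ?_, ?_, ?_, ?_, ?_⟩
  · intro x hx
    have h1 := hm.monotone hx.1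
    have h2 := hm.monotone hx.2
    rw [hh_neg_one] at h1
    rw [hh_one] at h2
    have h3 : hh ρ μ x ^ 2 ≤ 1 := by nlinarith
    have h4 := hμ.1
    have h5 := hμ.2
    constructor
    · simp only [G]
      nlinarith
    · simp only [G]
      nlinarith [sq_nonneg (hh ρ μ x)]
  · simp [G, hh_neg_one]
  · simp [G, hh_one]
  · intro x _ y hy hxy
    have h1 := hm hxy
    have h2 := hm.monotone hy.2
    rw [h0] at h2
    have h3 : hh ρ μ y ^ 2 < hh ρ μ x ^ 2 := by nlinarith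
    simp only [G]
    nlinarith [hμ.1]
  · intro x hx y _ hxy
    have h1 := hm hxy
    have h2 := hm.monotone hx.1
    rw [h0] at h2
    have h3 : hh ρ μ x ^ 2 < hh ρ μ y ^ 2 := by nlinarith
    simp only [G]
    nlinarith [hμ.1]

lemma dist_bound (hρ : 0 < ρ) (hρ1 : ρ ≤ 1 / 2) {x μ : ℝ} (hx : x ∈ Icc (-1 : ℝ) 1)
    (hμ : μ ∈ Ioc (0 : ℝ) 2) :
    |G ρ x μ - quad x μ| + |deriv (fun y => G ρ y μ - quad y μ) x|
      + |deriv (fun m => G ρ x m - quad x m) μ| ≤ 19 * ρ := by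
  have hx' : |x| ≤ 1 := abs_le.2 hx
  have hμ' : |μ| ≤ 2 := abs_le.2 ⟨by linarith [hμ.1], hμ.2⟩
  have m : ∀ {a b A B : ℝ}, |a| ≤ A → |b| ≤ B → |a * b| ≤ A * B := by
    intro a b A B ha hb
    rw [abs_mul]
    exact mul_le_mul ha hb (abs_nonneg _) ((abs_nonneg _).trans ha)
  have b1 := am_abs hρ μ
  have b2 := chi_abs hρ hx'
  have b3 := xchi_abs hρ hx'
  have b4 := xchi'_abs hρ hρ1 x
  have b5 := amchi'_abs hρ hρ1 μ x
  have b6 := am'_abs (ρ := ρ) μ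
  have b7 := m b1 b2
  have b8 : |2 * x - am ρ μ * chi ρ x| ≤ 5 / 2 := by
    refine (abs_sub _ _).trans ?_
    rw [abs_mul 2, abs_two]
    linarith
  have b9 := m b7 b8
  have d1 : HasDerivAt (fun y => G ρ y μ - quad y μ)
      (2 * (μ * (am ρ μ * chi ρ x + am ρ μ * (x * chi' ρ x)
        - (am ρ μ * chi ρ x) * (am ρ μ * chi' ρ x)))) x := by
    have := (G_deriv hρ μ x).fun_sub (((hasDerivAt_pow 2 x).const_mul μ).const_sub (μ - 1))
    refine this.congr_deriv ?_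
    simp only [hh]
    push_cast
    ring
  have d2 : HasDerivAt (fun m => G ρ x m - quad x m)
      ((am ρ μ * chi ρ x) * (2 * x - am ρ μ * chi ρ x)
        + 2 * (μ * (am' ρ μ * (x * chi ρ x - (am ρ μ * chi ρ x) * chi ρ x)))) μ := by
    have e1 := (((am_deriv hρ μ).mul_const (chi ρ x)).const_sub x).pow 2
    have e2 := ((hasDerivAt_id μ).sub_const 1).fun_sub ((hasDerivAt_id μ).mul e1)
    have e3 := ((hasDerivAt_id μ).sub_const 1).fun_sub ((hasDerivAt_id μ).mul_const (x ^ 2))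
    refine (e2.fun_sub e3).congr_deriv ?_
    simp
    ring
  rw [d1.deriv, d2.deriv]
  have e0 : G ρ x μ - quad x μ = μ * ((am ρ μ * chi ρ x) * (2 * x - am ρ μ * chi ρ x)) := by
    simp only [G, quad, hh]
    ring
  have c1 := m hμ' b9
  have c2 : |am ρ μ * chi ρ x + am ρ μ * (x * chi' ρ x)
      - (am ρ μ * chi ρ x) * (am ρ μ * chi' ρ x)| ≤ 3 * ρ / 2 := by
    refine (abs_sub _ _).trans ?_
    have := abs_add_le (am ρ μ * chi ρ x) (am ρ μ * (x * chi' ρ x))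
    have := m b1 b4
    have := m b7 b5
    linarith
  have c3 : |x * chi ρ x - (am ρ μ * chi ρ x) * chi ρ x| ≤ ρ := by
    refine (abs_sub _ _).trans ?_
    have := m b7 b2
    linarith
  have c4 := m hμ' c2
  have c5 := m hμ' (m b6 c3)
  have c6 := abs_add_le ((am ρ μ * chi ρ x) * (2 * x - am ρ μ * chi ρ x))
    (2 * (μ * (am' ρ μ * (x * chi ρ x - (am ρ μ * chi ρ x) * chi ρ x))))
  rw [abs_mul 2, abs_two] at c6
  rw [e0, abs_mul 2, abs_two]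
  linarith

lemma knead_neg (hρ : 0 < ρ) (hρ1 : ρ ≤ 1 / 2) {μ c : ℝ} (hμ : 0 < μ) (h0 : hh ρ μ c = 0)
    {ν : ℕ → SignType} (hν : IsKneading (fun x => G ρ x μ) c ν) (h : 0 < hh ρ μ (μ - 1)) :
    ν 0 = -1 := by
  have e : G ρ c μ = μ - 1 := by simp [G, h0]
  have h1 := hν 0
  simp only [e] at h1
  have h2 : ∀ᶠ y in 𝓝[<] (μ - 1), 0 < hh ρ μ y :=
    nhdsWithin_le_nhds ((hh_cont hρ μ).continuousAt.eventually (lt_mem_nhds h))
  obtain ⟨y, hy1, hy2⟩ := (h1.and h2).exists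
  rw [← hy1, theta, zero_add, Function.iterate_one, (G_deriv hρ μ y).deriv]
  apply sign_neg
  have := hh'_pos hρ hρ1 μ y
  have : 0 < μ * (2 * hh ρ μ y * (1 - am ρ μ * chi' ρ y)) := by positivity
  linarith

lemma knead_one (hρ : 0 < ρ) {c : ℝ} (h0 : hh ρ 1 c = 0)
    {ν : ℕ → SignType} (hν : IsKneading (fun x => G ρ x 1) c ν) : ν 0 = 1 := by
  have e : G ρ c 1 = 0 := by simp [G, h0]
  have h1 := hν 0
  simp only [e] at h1
  obtain ⟨y, hy1, hy2⟩ := (h1.and self_mem_nhdsWithin).exists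
  rw [← hy1, theta, zero_add, Function.iterate_one, (G_deriv hρ 1 y).deriv]
  apply sign_pos
  have : y < 0 := hy2
  simp [hh, am]
  linarith

lemma hh_pos (hρ : 0 < ρ) (hρ1 : ρ ≤ 1 / 2) : 0 < hh ρ (1 - ρ / 8) (1 - ρ / 8 - 1) := by
  have e1 : 4 * (1 - ρ / 8 - 1) / ρ = -(1 / 2) := by
    field_simp
    ring
  have e2 : chi ρ (1 - ρ / 8 - 1) = 64 / 65 * (1 - ρ ^ 2 / 64) := by
    rw [chi]
    field_simp
    ring
  rw [hh, am, e1, e2, Real.sin_neg]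
  have h1 := Real.sin_gt_sub_cube (x := 1 / 2) (by norm_num)
  have h2 : 9 / 10 ≤ 64 / 65 * (1 - ρ ^ 2 / 64) := by nlinarith
  have h3 : 2 / 5 * (9 / 10) ≤ Real.sin (1 / 2) * (64 / 65 * (1 - ρ ^ 2 / 64)) :=
    mul_le_mul (by linarith) h2 (by norm_num) (by linarith)
  nlinarith

theorem main (ε : ℝ) (hε : 0 < ε) :
    ∃ (G : ℝ → ℝ → ℝ) (c : ℝ → ℝ) (ν : ℝ → ℕ → SignType),
      ContDiff ℝ 1 (fun p : ℝ × ℝ => G p.1 p.2) ∧
      (∀ μ ∈ Ioc (0 : ℝ) 2, Unimodal (fun x => G x μ) (c μ) ∧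
        IsKneading (fun x => G x μ) (c μ) (ν μ)) ∧
      (∃ η < ε, ∀ x ∈ Icc (-1 : ℝ) 1, ∀ μ ∈ Ioc (0 : ℝ) 2,
        |G x μ - quad x μ| + |deriv (fun y => G y μ - quad y μ) x|
          + |deriv (fun m => G x m - quad x m) μ| ≤ η) ∧
      ¬ MonotoneOn (fun μ => toLex (ν μ)) (Ioc 0 2) ∧
      ¬ AntitoneOn (fun μ => toLex (ν μ)) (Ioc 0 2) := by
  set ρ := min (ε / 20) (1 / 2) with hρd
  have hρ : 0 < ρ := lt_min (by linarith) (by norm_num)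
  have hρ1 : ρ ≤ 1 / 2 := min_le_right _ _
  have hρ2 : ρ ≤ ε / 20 := min_le_left _ _
  choose c hc h0 using exists_c hρ
  choose ν hν using fun μ => exists_kneading (G_analytic hρ μ) (c μ)
  have k1 := knead_one hρ (h0 1) (hν 1)
  have k2 := knead_neg hρ hρ1 two_pos (h0 2) (hν 2) (by norm_num [hh_one])
  have k3 := knead_neg hρ hρ1 (by linarith) (h0 (1 - ρ / 8)) (hν _) (hh_pos hρ hρ1)
  have lt : ∀ a b : ℕ → SignType, a 0 = -1 → b 0 = 1 → toLex a < toLex b := by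
    intro a b ha hb
    refine ⟨0, fun j hj => absurd hj (Nat.not_lt_zero j), ?_⟩
    change a 0 < b 0
    rw [ha, hb]
    decide
  refine ⟨G ρ, c, ν, G_smooth hρ, fun μ hμ => ⟨unimodal hρ hρ1 hμ (hc μ) (h0 μ), hν μ⟩,
    ⟨19 * ρ, by linarith, fun x hx μ hμ => dist_bound hρ hρ1 hx hμ⟩, fun h => ?_, fun h => ?_⟩
  · exact absurd (h (a := 1) (b := 2) (by norm_num) (by norm_num) (by norm_num))
      (not_le.2 (lt _ _ k2 k1))
  · exact absurd (h (a := 1 - ρ / 8) (b := 1) ⟨by linarith, by linarith⟩ (by norm_num)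
      (by linarith)) (not_le.2 (lt _ _ k3 k1))

end Pool.Agent.H94.KneadProof
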