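import Mathlib

set_option autoImplicit false

namespace Pool.Agent.H94.Lee

open Matrix

/-- The absolute value `|X| = (X* X)^(1/2)` of a complex matrix, through the functional calculus
of the Hermitian matrix `X* X`. -/
noncomputable def absM {n : ℕ} (X : Matrix (Fin n) (Fin n) ℂ) : Matrix (Fin n) (Fin n) ℂ :=
  cfc Real.sqrt (Xᴴ * X)

/-- The Frobenius norm `(tr X* X)^(1/2)`. -/
noncomputable def frob {n : ℕ} (X : Matrix (Fin n) (Fin n) ℂ) : ℝ :=
  Real.sqrt (Matrix.trace (Xᴴ * X)).re

end Pool.Agent.H94.Lee
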