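import Mathlib
import Pool.Agent.H94.LeeDefs

set_option autoImplicit false

namespace Pool.Agent.H94.Lee

open Matrix Finset
open scoped ComplexOrder

abbrev Mat (n : ℕ) := Matrix (Fin n) (Fin n) ℂ

variable {n : ℕ}

noncomputable def hs (X : Mat n) : ℝ := (Matrix.trace (Xᴴ * X)).re
noncomputable def ip (X Y : Mat n) : ℝ := (Matrix.trace (Xᴴ * Y)).re
noncomputable def dg (d : Fin n → ℝ) : Mat n := diagonal (fun i => (d i : ℂ))

lemma hs_eq (X : Mat n) : hs X = ∑ i, ∑ j, Complex.normSq (X i j) := by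
  unfold hs
  simp only [Matrix.trace, Matrix.diag, Matrix.mul_apply, conjTranspose_apply, Complex.re_sum]
  rw [sum_comm]
  apply sum_congr rfl; intro i _; apply sum_congr rfl; intro j _
  simp [Complex.normSq_apply]

lemma hs_nonneg (X : Mat n) : 0 ≤ hs X := by
  rw [hs_eq]; exact sum_nonneg fun i _ => sum_nonneg fun j _ => Complex.normSq_nonneg _

lemma ip_comm (X Y : Mat n) : ip X Y = ip Y X := by
  unfold ip
  have : Matrix.trace (Yᴴ * X) = star (Matrix.trace (Xᴴ * Y)) := by
    rw [← Matrix.trace_conjTranspose, conjTranspose_mul, conjTranspose_conjTranspose]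
  rw [this]; simp

lemma hs_add (X Y : Mat n) : hs (X + Y) = hs X + hs Y + 2 * ip X Y := by
  have h := ip_comm X Y
  unfold hs ip at *
  simp only [conjTranspose_add, Matrix.add_mul, Matrix.mul_add, Matrix.trace_add, Complex.add_re]
  linarith

lemma ip_add (X Y Z : Mat n) : ip X (Y + Z) = ip X Y + ip X Z := by
  unfold ip; simp [Matrix.mul_add]

lemma ip_le (X Y : Mat n) {k : ℝ} (hk : 0 < k) : 2 * ip X Y ≤ k * hs X + hs Y / k := by
  have h := hs_nonneg ((k:ℂ) • X + (-1:ℂ) • Y)
  rw [hs_add] at h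
  have e1 : hs ((k:ℂ) • X) = k^2 * hs X := by
    unfold hs; simp [conjTranspose_smul, pow_two]; ring
  have e2 : hs ((-1:ℂ) • Y) = hs Y := by unfold hs; simp
  have e3 : ip ((k:ℂ) • X) ((-1:ℂ) • Y) = - k * ip X Y := by
    unfold ip; simp [conjTranspose_smul]
  rw [e1, e2, e3] at h
  have : 2 * ip X Y * k ≤ (k * hs X + hs Y / k) * k := by
    have : (k * hs X + hs Y / k) * k = k^2 * hs X + hs Y := by field_simp
    rw [this]; linarith
  exact le_of_mul_le_mul_right this hk

lemma dg_ct (d : Fin n → ℝ) : (dg d)ᴴ = dg d := by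
  unfold dg; rw [diagonal_conjTranspose]; congr 1; ext i; simp

lemma dg_mul (d e : Fin n → ℝ) : dg d * dg e = dg (fun i => d i * e i) := by
  unfold dg; rw [diagonal_mul_diagonal]; congr 1; ext i; simp

lemma trace_dg (d : Fin n → ℝ) : (Matrix.trace (dg d)).re = ∑ i, d i := by
  unfold dg; rw [trace_diagonal]; simp

/-- weighted Hilbert-Schmidt norm -/
lemma trace_conj (p q : Fin n → ℝ) (C : Mat n) :
    (Matrix.trace (dg q * (Cᴴ * dg p * C))).re = ∑ i, ∑ j, p i * q j * Complex.normSq (C i j) := by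
  unfold dg
  simp only [Matrix.trace, Matrix.diag, diagonal_mul, Matrix.mul_apply (M := Cᴴ * _), mul_diagonal,
    conjTranspose_apply, Complex.re_sum, mul_sum]
  rw [sum_comm]
  apply sum_congr rfl; intro i _; apply sum_congr rfl; intro j _
  simp [Complex.normSq_apply]; ring

lemma hs_gram {P : Mat n} {p : Fin n → ℝ} (h : Pᴴ * P = dg p) (C : Mat n) :
    hs (P * C) = ∑ i, ∑ j, p i * Complex.normSq (C i j) := by
  have h2 := trace_conj p (fun _ => 1) C
  have e : dg (fun _ : Fin n => (1:ℝ)) = 1 := by unfold dg; simp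
  rw [e, Matrix.one_mul] at h2
  unfold hs
  rw [conjTranspose_mul, show Cᴴ * Pᴴ * (P * C) = Cᴴ * (Pᴴ * P) * C by simp [Matrix.mul_assoc], h, h2]
  simp

lemma hs_unit (X : Mat n) {V : Mat n} (hV : V * Vᴴ = 1) : hs (X * V) = hs X := by
  unfold hs
  rw [conjTranspose_mul, Matrix.trace_mul_comm, Matrix.trace_mul_comm Xᴴ X]
  rw [show X * V * (Vᴴ * Xᴴ) = X * (V * Vᴴ) * Xᴴ by simp [Matrix.mul_assoc], hV, Matrix.mul_one]

lemma hs_mul_dg_le (X : Mat n) (d : Fin n → ℝ) (hd : ∀ i, d i = 0 ∨ d i = 1) :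
    hs (X * dg d) ≤ hs X := by
  rw [hs_eq, hs_eq]
  apply sum_le_sum; intro i _; apply sum_le_sum; intro j _
  unfold dg; rw [mul_diagonal]
  rcases hd j with h | h <;> simp [h, Complex.normSq_nonneg]

lemma col_sum {E : Mat n} (h : Eᴴ * E = 1) (j : Fin n) : ∑ i, Complex.normSq (E i j) = 1 := by
  have := congrArg (fun M : Mat n => (M j j).re) h
  simp only [Matrix.mul_apply, conjTranspose_apply, Complex.re_sum, one_apply_eq, Complex.one_re] at this
  rw [← this]; apply sum_congr rfl; intro i _; simp [Complex.normSq_apply]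

lemma row_sum {E : Mat n} (h : E * Eᴴ = 1) (i : Fin n) : ∑ j, Complex.normSq (E i j) = 1 := by
  have := congrArg (fun M : Mat n => (M i i).re) h
  simp only [Matrix.mul_apply, conjTranspose_apply, Complex.re_sum, one_apply_eq, Complex.one_re] at this
  rw [← this]; apply sum_congr rfl; intro j _; simp [Complex.normSq_apply]

lemma rank_add_le' (A B : Mat n) : (A + B).rank ≤ A.rank + B.rank := by
  unfold Matrix.rank
  rw [mulVecLin_add]
  refine le_trans (Submodule.finrank_mono ?_) (Submodule.finrank_add_le_finrank_add_finrank _ _)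
  rintro _ ⟨x, rfl⟩
  exact Submodule.add_mem_sup ⟨x, rfl⟩ ⟨x, rfl⟩

/-- right singular vectors -/
lemma exists_svd (M : Mat n) : ∃ (X : Mat n) (s : Fin n → ℝ), Xᴴ * X = 1 ∧ X * Xᴴ = 1 ∧
    (∀ i, 0 ≤ s i) ∧ (M * X)ᴴ * (M * X) = dg s ∧
    (∀ f : ℝ → ℝ, cfc f (absM M) = X * dg (fun i => f (Real.sqrt (s i))) * Xᴴ) ∧
    M.rank = Fintype.card {i // s i ≠ 0} := by
  have hP : (Mᴴ * M).PosSemidef := posSemidef_conjTranspose_mul_self M
  have hH : (Mᴴ * M).IsHermitian := hP.1
  have u1 : (hH.eigenvectorUnitary : Mat n)ᴴ * (hH.eigenvectorUnitary : Mat n) = 1 :=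
    Unitary.coe_star_mul_self hH.eigenvectorUnitary
  have u2 : (hH.eigenvectorUnitary : Mat n) * (hH.eigenvectorUnitary : Mat n)ᴴ = 1 :=
    Unitary.coe_mul_star_self hH.eigenvectorUnitary
  refine ⟨hH.eigenvectorUnitary, hH.eigenvalues, u1, u2, fun i => hP.eigenvalues_nonneg i, ?_, ?_, ?_⟩
  · have h := hH.conjStarAlgAut_star_eigenvectorUnitary
    rw [Unitary.conjStarAlgAut_star_apply] at h
    rw [conjTranspose_mul]
    calc _ = star (hH.eigenvectorUnitary : Mat n) * (Mᴴ * M) * (hH.eigenvectorUnitary : Mat n) := by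
          simp [Matrix.mul_assoc, star_eq_conjTranspose]
      _ = _ := by rw [h]; rfl
  · intro f
    have hsa : IsSelfAdjoint (Mᴴ * M) := hH
    unfold absM
    rw [← cfc_comp' f Real.sqrt (Mᴴ * M)
      ((Matrix.finite_real_spectrum.image _).continuousOn _)
      (Matrix.finite_real_spectrum.continuousOn _) hsa, hH.cfc_eq]
    unfold IsHermitian.cfc
    rw [Unitary.conjStarAlgAut_apply]
    rfl
  · rw [← rank_conjTranspose_mul_self, hH.rank_eq_card_non_zero_eigs]

lemma level1 {M Z : Mat n} {s : Fin n → ℝ} (z1 : Zᴴ * Z = 1) (z2 : Z * Zᴴ = 1)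
    (hM : (M * Z)ᴴ * (M * Z) = dg s) (N R : Mat n) (hNR : M = N + R) {t : ℝ} :
    ∑ k, min (s k) t ≤ hs N + t * R.rank := by
  obtain ⟨V, r, v1, v2, r0, hR, -, hrk⟩ := exists_svd R
  classical
  let d : Fin n → ℝ := fun j => if r j = 0 then 1 else 0
  have hd : ∀ i, d i = 0 ∨ d i = 1 := fun i => by
    simp only [d]; split_ifs <;> simp
  have hz : R * V * dg d = 0 := by
    have h1 : hs (R * V * dg d) = 0 := by
      rw [hs_gram hR]
      apply sum_eq_zero; intro i _; apply sum_eq_zero; intro j _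
      unfold dg
      by_cases hij : i = j
      · subst hij; simp only [diagonal_apply_eq, d]; split_ifs with h <;> simp [h]
      · simp [diagonal_apply_ne _ hij]
    rw [hs_eq] at h1
    ext i j
    have h2 := (sum_eq_zero_iff_of_nonneg (fun i _ => sum_nonneg fun j _ => Complex.normSq_nonneg _)).1
      h1 i (mem_univ _)
    have h3 := (sum_eq_zero_iff_of_nonneg (fun j _ => Complex.normSq_nonneg _)).1 h2 j (mem_univ _)
    simpa using h3
  set E := Zᴴ * V with hE
  have e1 : Eᴴ * E = 1 := by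
    rw [hE, conjTranspose_mul, conjTranspose_conjTranspose,
      show Vᴴ * Z * (Zᴴ * V) = Vᴴ * (Z * Zᴴ) * V by simp [Matrix.mul_assoc], z2, Matrix.mul_one, v1]
  have e2 : E * Eᴴ = 1 := by
    rw [hE, conjTranspose_mul, conjTranspose_conjTranspose,
      show Zᴴ * V * (Vᴴ * Z) = Zᴴ * (V * Vᴴ) * Z by simp [Matrix.mul_assoc], v2, Matrix.mul_one, z1]
  have h1 : M * Z * (E * dg d) = N * V * dg d := by
    rw [hE, show M * Z * (Zᴴ * V * dg d) = M * (Z * Zᴴ) * V * dg d by simp [Matrix.mul_assoc], z2,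
      Matrix.mul_one, hNR, Matrix.add_mul, Matrix.add_mul, hz, add_zero]
  have h2 : hs (M * Z * (E * dg d)) ≤ hs N := by
    rw [h1]; exact (hs_mul_dg_le _ d hd).trans (hs_unit N v2).le
  rw [hs_gram hM] at h2
  have h3 : (R.rank : ℝ) = ∑ j, (1 - d j) := by
    rw [hrk, Fintype.card_subtype, card_filter]
    push_cast
    apply sum_congr rfl; intro j _
    simp only [d]; split_ifs with h1 h2 <;> simp_all
  have h4 : ∑ k, min (s k) t ≤ ∑ k, ∑ j, (s k * Complex.normSq ((E * dg d) k j)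
      + t * ((1 - d j) * Complex.normSq (E k j))) := by
    apply sum_le_sum; intro k _
    calc min (s k) t = ∑ j, min (s k) t * Complex.normSq (E k j) := by
          rw [← mul_sum, row_sum e2, mul_one]
      _ ≤ _ := by
          apply sum_le_sum; intro j _
          unfold dg; rw [mul_diagonal]
          have := Complex.normSq_nonneg (E k j)
          rcases hd j with h | h
          · simp only [h]; simp
            exact mul_le_mul_of_nonneg_right (min_le_right _ _) this
          · simp only [h]; simp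
            exact mul_le_mul_of_nonneg_right (min_le_left _ _) this
  have h5 : ∑ k, ∑ j, t * ((1 - d j) * Complex.normSq (E k j)) = t * R.rank := by
    rw [sum_comm, h3, mul_sum]
    apply sum_congr rfl; intro j _
    rw [← mul_sum, ← mul_sum, col_sum e1, mul_one]
  simp only [sum_add_distrib] at h4
  linarith

lemma cross {P Q : Mat n} {p q : Fin n → ℝ} (hp : ∀ i, 0 ≤ p i) (hq : ∀ i, 0 ≤ q i)
    (hP : Pᴴ * P = dg p) (hQ : Qᴴ * Q = dg q) (C : Mat n) {k : ℝ} (hk : 0 < k) :
    2 * ip P (Q * C) ≤ k * (∑ i, p i + ∑ j, q j)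
      + (∑ j, ∑ i, Real.sqrt (p i * q j) * Complex.normSq (C j i)) / (2 * k) := by
  let al : Fin n → Fin n → ℝ := fun j i => p i / (p i + q j)
  let C1 : Mat n := Matrix.of fun j i => (al j i : ℂ) * C j i
  let C2 : Mat n := Matrix.of fun j i => ((1 - al j i : ℝ) : ℂ) * C j i
  have hC : C = C1 + C2 := by ext j i; simp [C1, C2]; ring
  have hsP : hs P = ∑ i, p i := by unfold hs; rw [hP, trace_dg]
  have hsQ : hs Q = ∑ i, q i := by unfold hs; rw [hQ, trace_dg]
  have h1 := ip_le P (Q * C1) hk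
  have h2 := ip_le Q (P * C2ᴴ) hk
  have e2 : ip P (Q * C2) = ip Q (P * C2ᴴ) := by
    rw [ip_comm Q]
    unfold ip
    rw [conjTranspose_mul, conjTranspose_conjTranspose, ← Matrix.mul_assoc, Matrix.trace_mul_comm,
      Matrix.mul_assoc]
  have e0 : ip P (Q * C) = ip P (Q * C1) + ip P (Q * C2) := by
    rw [← ip_add, ← Matrix.mul_add, ← hC]
  rw [hs_gram hQ, hsP] at h1
  rw [hs_gram hP, hsQ, sum_comm] at h2
  have h3 : ∑ j, ∑ i, q j * Complex.normSq (C1 j i) + ∑ j, ∑ i, p i * Complex.normSq (C2ᴴ i j)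
      ≤ (∑ j, ∑ i, Real.sqrt (p i * q j) * Complex.normSq (C j i)) / 2 := by
    rw [← sum_add_distrib, sum_div]
    apply sum_le_sum; intro j _
    rw [← sum_add_distrib, sum_div]
    apply sum_le_sum; intro i _
    simp only [C1, C2, conjTranspose_apply, of_apply, RCLike.star_def, Complex.normSq_conj,
      Complex.normSq_mul, Complex.normSq_ofReal]
    have w := Complex.normSq_nonneg (C j i)
    have key : q j * (al j i * al j i) + p i * ((1 - al j i) * (1 - al j i))
        ≤ Real.sqrt (p i * q j) / 2 := by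
      simp only [al]
      obtain ⟨a, ha, e1⟩ : ∃ a, 0 ≤ a ∧ p i = a^2 := ⟨Real.sqrt (p i), Real.sqrt_nonneg _,
        (Real.sq_sqrt (hp i)).symm⟩
      obtain ⟨b, hb, e2⟩ : ∃ b, 0 ≤ b ∧ q j = b^2 := ⟨Real.sqrt (q j), Real.sqrt_nonneg _,
        (Real.sq_sqrt (hq j)).symm⟩
      rw [e1, e2, ← mul_pow, Real.sqrt_sq (mul_nonneg ha hb)]
      rcases (by positivity : 0 ≤ a^2 + b^2).eq_or_lt with h | h
      · have ha0 : a = 0 := by nlinarith
        have hb0 : b = 0 := by nlinarith
        simp [ha0, hb0]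
      · have : b^2 * (a^2 / (a^2 + b^2) * (a^2 / (a^2 + b^2)))
            + a^2 * ((1 - a^2 / (a^2 + b^2)) * (1 - a^2 / (a^2 + b^2))) = a^2 * b^2 / (a^2 + b^2) := by
          field_simp; ring
        rw [this, div_le_div_iff₀ h two_pos]
        nlinarith [mul_nonneg (mul_nonneg ha hb) (sq_nonneg (a - b))]
    nlinarith [mul_le_mul_of_nonneg_right key w]
  have h4 := div_le_div_of_nonneg_right h3 hk.le
  rw [add_div, div_div] at h4
  rw [e0, e2]
  linarith

end Pool.Agent.H94.Lee
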