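import Mathlib
import Pool.Agent.H94.Lee1

set_option autoImplicit false

namespace Pool.Agent.H94.Lee

open Matrix Finset
open scoped ComplexOrder

variable {n : ℕ}

lemma split {A X : Mat n} {a : Fin n → ℝ} (x1 : Xᴴ * X = 1) (x2 : X * Xᴴ = 1) (a0 : ∀ i, 0 ≤ a i)
    (hA : (A * X)ᴴ * (A * X) = dg a) {t : ℝ} (ht : 0 ≤ t) :
    ∃ (P A2 : Mat n) (p : Fin n → ℝ), A = P * Xᴴ + A2 ∧ Pᴴ * P = dg p ∧ (∀ i, 0 ≤ p i) ∧
      (∀ i, p i ≤ min (a i) t) ∧ ∑ i, p i + t * A2.rank ≤ ∑ i, min (a i) t := by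
  classical
  let d : Fin n → ℝ := fun i => if a i ≤ t then 1 else 0
  refine ⟨A * X * dg d, A * X * dg (fun i => 1 - d i) * Xᴴ, fun i => d i * a i * d i, ?_, ?_, ?_, ?_, ?_⟩
  · have e : dg d + dg (fun i => 1 - d i) = 1 := by
      unfold dg; rw [diagonal_add]; simp
    rw [← Matrix.add_mul, ← Matrix.mul_add, e, Matrix.mul_one, Matrix.mul_assoc, x2, Matrix.mul_one]
  · rw [conjTranspose_mul, dg_ct, show dg d * (A * X)ᴴ * (A * X * dg d)
      = dg d * ((A * X)ᴴ * (A * X)) * dg d by simp [Matrix.mul_assoc], hA, dg_mul, dg_mul]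
  · intro i; simp only [d]; split_ifs <;> simp [a0 i]
  · intro i; simp only [d]; split_ifs with h
    · simp [h]
    · simp [a0 i, ht]
  · have h1 : (A * X * dg (fun i => 1 - d i) * Xᴴ).rank ≤ (dg (fun i => 1 - d i)).rank :=
      (rank_mul_le_left _ _).trans (rank_mul_le_right _ _)
    have h2 : ((dg (fun i => 1 - d i)).rank : ℝ) = ∑ i, (1 - d i) := by
      unfold dg
      rw [rank_diagonal, Fintype.card_subtype, card_filter]
      push_cast
      apply sum_congr rfl; intro j _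
      simp only [d]; split_ifs with h1 h2 <;> simp_all
    have h3 : ((A * X * dg (fun i => 1 - d i) * Xᴴ).rank : ℝ) ≤ ∑ i, (1 - d i) := by
      rw [← h2]; exact_mod_cast h1
    have h4 : ∑ i, d i * a i * d i + t * ∑ i, (1 - d i) = ∑ i, min (a i) t := by
      rw [mul_sum, ← sum_add_distrib]
      apply sum_congr rfl; intro i _
      simp only [d]; split_ifs with h
      · simp [h]
      · simp [(not_le.1 h).le]
    nlinarith [mul_le_mul_of_nonneg_left h3 ht]

lemma level2 {A B X Y Z : Mat n} {a b s : Fin n → ℝ} (x1 : Xᴴ * X = 1) (x2 : X * Xᴴ = 1)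
    (y1 : Yᴴ * Y = 1) (y2 : Y * Yᴴ = 1) (z1 : Zᴴ * Z = 1) (z2 : Z * Zᴴ = 1)
    (a0 : ∀ i, 0 ≤ a i) (b0 : ∀ i, 0 ≤ b i)
    (hA : (A * X)ᴴ * (A * X) = dg a) (hB : (B * Y)ᴴ * (B * Y) = dg b)
    (hM : ((A + B) * Z)ᴴ * ((A + B) * Z) = dg s) {t : ℝ} (ht : 0 ≤ t) {k : ℝ} (hk : 0 < k) :
    ∑ l, min (s l) t ≤ (1 + k) * (∑ i, min (a i) t + ∑ j, min (b j) t)
      + (∑ j, ∑ i, Real.sqrt (min (a i) t * min (b j) t) * Complex.normSq ((Yᴴ * X) j i)) / (2 * k) := by
  obtain ⟨P, A2, p, eA, hP, p0, p1, p2⟩ := split x1 x2 a0 hA ht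
  obtain ⟨Q, B2, q, eB, hQ, q0, q1, q2⟩ := split y1 y2 b0 hB ht
  have h1 := level1 z1 z2 hM (P * Xᴴ + Q * Yᴴ) (A2 + B2) (by rw [eA, eB]; abel) (t := t)
  have h2 := cross p0 q0 hP hQ (Yᴴ * X) hk
  have hsP : hs (P * Xᴴ) = ∑ i, p i := by
    rw [hs_unit P (by rw [conjTranspose_conjTranspose]; exact x1)]; unfold hs; rw [hP, trace_dg]
  have hsQ : hs (Q * Yᴴ) = ∑ i, q i := by
    rw [hs_unit Q (by rw [conjTranspose_conjTranspose]; exact y1)]; unfold hs; rw [hQ, trace_dg]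
  have e : ip (P * Xᴴ) (Q * Yᴴ) = ip P (Q * (Yᴴ * X)) := by
    unfold ip
    rw [conjTranspose_mul, conjTranspose_conjTranspose, Matrix.mul_assoc, Matrix.trace_mul_comm]
    simp [Matrix.mul_assoc]
  rw [hs_add, hsP, hsQ, e] at h1
  have h3 : ((A2 + B2).rank : ℝ) ≤ A2.rank + B2.rank := by exact_mod_cast rank_add_le' A2 B2
  have h4 : ∑ j, ∑ i, Real.sqrt (p i * q j) * Complex.normSq ((Yᴴ * X) j i)
      ≤ ∑ j, ∑ i, Real.sqrt (min (a i) t * min (b j) t) * Complex.normSq ((Yᴴ * X) j i) := by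
    apply sum_le_sum; intro j _; apply sum_le_sum; intro i _
    apply mul_le_mul_of_nonneg_right _ (Complex.normSq_nonneg _)
    apply Real.sqrt_le_sqrt
    exact mul_le_mul (p1 i) (q1 j) (q0 j) ((p0 i).trans (p1 i))
  have h5 := div_le_div_of_nonneg_right h4 (by positivity : 0 ≤ 2 * k)
  have h6 : ∑ i, p i ≤ ∑ i, min (a i) t := sum_le_sum fun i _ => p1 i
  have h7 : ∑ i, q i ≤ ∑ i, min (b i) t := sum_le_sum fun i _ => q1 i
  nlinarith [mul_le_mul_of_nonneg_left h3 ht, mul_le_mul_of_nonneg_left (add_le_add h6 h7) hk.le]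

/-- layer representation of a concave nondecreasing function on a finite set -/
lemma layers (T : Finset ℝ) : ∀ g : ℝ → ℝ, (∀ y ∈ T, 0 < y) →
    (∀ x y z, (x = 0 ∨ x ∈ T) → y ∈ T → z ∈ T → x < y → y < z →
      (g z - g y) / (z - y) ≤ (g y - g x) / (y - x)) →
    (∀ x y, (x = 0 ∨ x ∈ T) → y ∈ T → x < y → g x ≤ g y) →
    ∃ m : ℝ → ℝ, (∀ t, 0 ≤ m t) ∧ ∀ y ∈ T, g y = g 0 + ∑ t ∈ T, m t * min y t := by
  classical
  induction T using Finset.induction_on_max with
  | empty => intro g _ _ _; exact ⟨fun _ => 0, fun _ => le_rfl, by simp⟩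
  | insert z T hz ih =>
    intro g hpos hc hm
    have hzT : z ∉ T := fun h => lt_irrefl _ (hz z h)
    have z0 : 0 < z := hpos z (mem_insert_self _ _)
    obtain ⟨w, hw, hwmax⟩ : ∃ w, (w = 0 ∨ w ∈ T) ∧ ∀ y ∈ T, y ≤ w := by
      rcases T.eq_empty_or_nonempty with rfl | hne
      · exact ⟨0, Or.inl rfl, by simp⟩
      · exact ⟨T.max' hne, Or.inr (T.max'_mem hne), fun y hy => T.le_max' y hy⟩
    have hwz : w < z := by rcases hw with rfl | h; exacts [z0, hz w h]
    have w0 : 0 ≤ w := by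
      rcases hw with rfl | h; exacts [le_rfl, (hpos w (mem_insert_of_mem h)).le]
    have ins : ∀ {x : ℝ}, (x = 0 ∨ x ∈ T) → (x = 0 ∨ x ∈ insert z T) := fun h =>
      h.imp id mem_insert_of_mem
    set s := (g z - g w) / (z - w) with hs
    have s0 : 0 ≤ s := div_nonneg (sub_nonneg.2 (hm w z (ins hw) (mem_insert_self _ _) hwz)) (by linarith)
    have hsl : ∀ x y, (x = 0 ∨ x ∈ T) → y ∈ T → x < y → s ≤ (g y - g x) / (y - x) := by
      intro x y hx hy hxy
      have hyw := hwmax y hy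
      have hwT : w ∈ T := by
        rcases hw with rfl | h
        · exact absurd (hpos y (mem_insert_of_mem hy)) (not_lt.2 hyw)
        · exact h
      rcases hyw.eq_or_lt with rfl | hlt
      · exact hc x y z (ins hx) (mem_insert_of_mem hy) (mem_insert_self _ _) hxy hwz
      · exact (hc y w z (Or.inr (mem_insert_of_mem hy)) (mem_insert_of_mem hwT) (mem_insert_self _ _)
          hlt hwz).trans (hc x y w (ins hx) (mem_insert_of_mem hy) (mem_insert_of_mem hwT) hxy hlt)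
    obtain ⟨m, m0, hmm⟩ := ih (fun y => g y - s * y) (fun y hy => hpos y (mem_insert_of_mem hy))
      (by
        intro x y v hx hy hv hxy hyv
        have h := hc x y v (ins hx) (mem_insert_of_mem hy) (mem_insert_of_mem hv) hxy hyv
        have e1 : (g v - s * v - (g y - s * y)) / (v - y) = (g v - g y) / (v - y) - s := by
          have : v - y ≠ 0 := by linarith
          field_simp; ring
        have e2 : (g y - s * y - (g x - s * x)) / (y - x) = (g y - g x) / (y - x) - s := by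
          have : y - x ≠ 0 := by linarith
          field_simp; ring
        rw [e1, e2]; linarith)
      (by
        intro x y hx hy hxy
        have h := hsl x y hx hy hxy
        rw [le_div_iff₀ (by linarith)] at h
        linarith)
    refine ⟨fun t => if t = z then s else m t, fun t => by
      show 0 ≤ if t = z then s else m t
      split_ifs; exacts [s0, m0 t], ?_⟩
    have hsum : ∀ y, ∑ t ∈ insert z T, (if t = z then s else m t) * min y t
        = s * min y z + ∑ t ∈ T, m t * min y t := by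
      intro y
      rw [sum_insert hzT, if_pos rfl]
      congr 1
      apply sum_congr rfl; intro t ht
      rw [if_neg (fun h : t = z => hzT (h ▸ ht))]
    intro y hy
    rw [hsum]
    rcases mem_insert.1 hy with rfl | hy
    · have e : g w - s * w = g 0 + ∑ t ∈ T, m t * min y t := by
        rcases hw with rfl | h
        · have : ∑ t ∈ T, m t * min y t = 0 := by
            apply sum_eq_zero; intro t ht
            exact absurd (hpos t (mem_insert_of_mem ht)) (not_lt.2 (hwmax t ht))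
          rw [this]; ring
        · have := hmm w h
          simp only [mul_zero, sub_zero] at this
          rw [this]; congr 1
          apply sum_congr rfl; intro t ht
          rw [min_eq_right (hwmax t ht), min_eq_right (hz t ht).le]
      have e2 : s * (y - w) = g y - g w := by
        rw [hs]; have : y - w ≠ 0 := by linarith
        field_simp
      rw [min_self]; linarith
    · have := hmm y hy
      simp only [mul_zero, sub_zero] at this
      rw [min_eq_left (hz y hy).le]; linarith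

lemma conc_mono {f : ℝ → ℝ} (hf : ConcaveOn ℝ (Set.Ici 0) f) (f0 : ∀ x, 0 ≤ x → 0 ≤ f x)
    {x y : ℝ} (hx : 0 ≤ x) (hxy : x < y) : f x ≤ f y := by
  by_contra h
  push Not at h
  set z := y + (y - x) * (f y / (f x - f y) + 1) with hz
  have hd : 0 < f x - f y := by linarith
  have hq : 0 ≤ f y / (f x - f y) := div_nonneg (f0 y (by linarith)) hd.le
  have hyz : y < z := by rw [hz]; nlinarith
  have h1 := hf.slope_anti_adjacent (x := x) (y := y) (z := z) hx (show (0:ℝ) ≤ z by linarith) hxy hyz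
  rw [div_le_div_iff₀ (by linarith) (by linarith)] at h1
  have h2 := f0 z (by linarith)
  have e : (f y - f x) * (z - y) = -(y - x) * (f y + (f x - f y)) := by
    rw [hz]; field_simp; ring
  rw [e] at h1
  nlinarith

lemma sq_conc {f : ℝ → ℝ} (hf : ConcaveOn ℝ (Set.Ici 0) f) (f0 : ∀ x, 0 ≤ x → 0 ≤ f x)
    {a b c : ℝ} (ha : 0 ≤ a) (hab : a < b) (hbc : b < c) :
    (f c ^ 2 - f b ^ 2) / (c ^ 2 - b ^ 2) ≤ (f b ^ 2 - f a ^ 2) / (b ^ 2 - a ^ 2) := by
  have hb : 0 < b := by linarith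
  have h1 := hf.slope_anti_adjacent (x := a) (y := b) (z := c) ha (show (0:ℝ) ≤ c by linarith) hab hbc
  have m1 := conc_mono hf f0 hb.le hbc
  have fa := f0 a ha; have fb := f0 b hb.le; have fc := f0 c (by linarith); have fz := f0 0 le_rfl
  have r1 : b * f c ≤ c * f b := by
    have := hf.slope_anti_adjacent (x := 0) (y := b) (z := c) (le_refl (0:ℝ))
      (show (0:ℝ) ≤ c by linarith) hb hbc
    rw [div_le_div_iff₀ (by linarith) (by linarith)] at this
    nlinarith
  have r2 : a * f b ≤ b * f a := by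
    rcases ha.eq_or_lt with rfl | h
    · nlinarith
    · have := hf.slope_anti_adjacent (x := 0) (y := a) (z := b) (le_refl (0:ℝ)) hb.le h hab
      rw [div_le_div_iff₀ (by linarith) (by linarith)] at this
      nlinarith
  have h2 : (f c + f b) / (c + b) ≤ (f b + f a) / (b + a) := by
    have u1 : (f c + f b) / (c + b) ≤ f b / b := by
      rw [div_le_div_iff₀ (by linarith) hb]; nlinarith
    have u2 : f b / b ≤ (f b + f a) / (b + a) := by
      rw [div_le_div_iff₀ hb (by linarith)]; nlinarith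
    exact u1.trans u2
  have e1 : (f c ^ 2 - f b ^ 2) / (c ^ 2 - b ^ 2) = (f c - f b) / (c - b) * ((f c + f b) / (c + b)) := by
    rw [div_mul_div_comm]; congr 1 <;> ring
  have e2 : (f b ^ 2 - f a ^ 2) / (b ^ 2 - a ^ 2) = (f b - f a) / (b - a) * ((f b + f a) / (b + a)) := by
    rw [div_mul_div_comm]; congr 1 <;> ring
  rw [e1, e2]
  have p1 : 0 ≤ (f c - f b) / (c - b) := div_nonneg (by linarith) (by linarith)
  have p2 : 0 ≤ (f c + f b) / (c + b) := div_nonneg (by linarith) (by linarith)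
  exact mul_le_mul h1 h2 p2 (p1.trans h1)

lemma layers' {f : ℝ → ℝ} (hf : ConcaveOn ℝ (Set.Ici 0) f) (f0 : ∀ x, 0 ≤ x → 0 ≤ f x)
    (S : Finset ℝ) : ∃ (T : Finset ℝ) (m : ℝ → ℝ), (∀ t, 0 ≤ m t) ∧ (∀ t ∈ T, 0 ≤ t) ∧
      ∀ y ∈ S, 0 ≤ y → f (Real.sqrt y) ^ 2 = f 0 ^ 2 + ∑ t ∈ T, m t * min y t := by
  classical
  let T := S.filter (fun y => 0 < y)
  have hT : ∀ y ∈ T, 0 < y := fun y hy => (mem_filter.1 hy).2
  have nn : ∀ {x : ℝ}, (x = 0 ∨ x ∈ T) → 0 ≤ x := fun h => by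
    rcases h with rfl | h; exacts [le_rfl, (hT _ h).le]
  obtain ⟨m, m0, hm⟩ := layers T (fun y => f (Real.sqrt y) ^ 2) hT
    (by
      intro x y z hx hy hz hxy hyz
      have h := sq_conc hf f0 (Real.sqrt_nonneg x) (Real.sqrt_lt_sqrt (nn hx) hxy)
        (Real.sqrt_lt_sqrt (hT y hy).le hyz)
      rwa [Real.sq_sqrt (nn hx), Real.sq_sqrt (hT y hy).le, Real.sq_sqrt (hT z hz).le] at h)
    (by
      intro x y hx hy hxy
      exact pow_le_pow_left₀ (f0 _ (Real.sqrt_nonneg x))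
        (conc_mono hf f0 (Real.sqrt_nonneg x) (Real.sqrt_lt_sqrt (nn hx) hxy)) 2)
  refine ⟨T, m, m0, fun t ht => (hT t ht).le, fun y hy y0 => ?_⟩
  rcases y0.eq_or_lt with rfl | h
  · rw [Real.sqrt_zero, sum_eq_zero, add_zero]
    intro t ht; rw [min_eq_left (hT t ht).le, mul_zero]
  · have := hm y (mem_filter.2 ⟨hy, h⟩)
    simpa using this

lemma hs_fun {X : Mat n} (x1 : Xᴴ * X = 1) (d : Fin n → ℝ) :
    hs (X * dg d * Xᴴ) = ∑ i, d i ^ 2 := by
  rw [hs_unit _ (by rw [conjTranspose_conjTranspose]; exact x1)]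
  unfold hs
  rw [conjTranspose_mul, dg_ct, show dg d * Xᴴ * (X * dg d) = dg d * (Xᴴ * X) * dg d by
    simp [Matrix.mul_assoc], x1, Matrix.mul_one, dg_mul, trace_dg]
  simp [pow_two]

lemma ip_fun (X Y : Mat n) (d e : Fin n → ℝ) :
    ip (X * dg d * Xᴴ) (Y * dg e * Yᴴ) = ∑ j, ∑ i, e j * d i * Complex.normSq ((Yᴴ * X) j i) := by
  rw [← trace_conj]
  unfold ip
  simp only [conjTranspose_mul, conjTranspose_conjTranspose, dg_ct]
  rw [Matrix.mul_assoc X, Matrix.trace_mul_comm X]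
  simp [Matrix.mul_assoc]

theorem main (A B : Mat n) (f : ℝ → ℝ) (hf : ConcaveOn ℝ (Set.Ici 0) f)
    (f0 : ∀ x, 0 ≤ x → 0 ≤ f x) :
    hs (cfc f (absM (A + B))) ≤ (1 + Real.sqrt 2) / 2 * hs (cfc f (absM A) + cfc f (absM B)) := by
  classical
  obtain ⟨X, a, x1, x2, a0, hA, fA, -⟩ := exists_svd A
  obtain ⟨Y, b, y1, y2, b0, hB, fB, -⟩ := exists_svd B
  obtain ⟨Z, s, z1, z2, s0, hM, fM, -⟩ := exists_svd (A + B)
  rw [fA, fB, fM, hs_add, hs_fun x1, hs_fun y1, hs_fun z1, ip_fun]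
  obtain ⟨T, m, m0, T0, hT⟩ := layers' hf f0 (image a univ ∪ image b univ ∪ image s univ)
  have ea : ∀ i, f (Real.sqrt (a i)) ^ 2 = f 0 ^ 2 + ∑ t ∈ T, m t * min (a i) t := fun i =>
    hT _ (by simp) (a0 i)
  have eb : ∀ i, f (Real.sqrt (b i)) ^ 2 = f 0 ^ 2 + ∑ t ∈ T, m t * min (b i) t := fun i =>
    hT _ (by simp) (b0 i)
  have es : ∀ i, f (Real.sqrt (s i)) ^ 2 = f 0 ^ 2 + ∑ t ∈ T, m t * min (s i) t := fun i =>
    hT _ (by simp) (s0 i)
  have r2 : Real.sqrt 2 * Real.sqrt 2 = 2 := Real.mul_self_sqrt (by norm_num)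
  have r1 : 1 < Real.sqrt 2 := by nlinarith [Real.sqrt_nonneg 2]
  set k := (Real.sqrt 2 - 1) / 2 with hk
  have k0 : 0 < k := by rw [hk]; linarith
  set c := (1 + Real.sqrt 2) / 2 with hc
  have c1 : 1 + k = c := by rw [hk, hc]; ring
  have c2 : ∀ x : ℝ, x / (2 * k) = 2 * c * x := by
    intro x
    rw [div_eq_iff (by positivity), hk, hc]
    linear_combination (-x) * r2
  have c3 : 1 ≤ c := by linarith
  set w : Fin n → Fin n → ℝ := fun j i => Complex.normSq ((Yᴴ * X) j i) with hw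
  have w0 : ∀ j i, 0 ≤ w j i := fun j i => Complex.normSq_nonneg _
  have L : ∀ t ∈ T, m t * ∑ l, min (s l) t ≤ m t * (c * (∑ i, min (a i) t + ∑ j, min (b j) t)
      + 2 * c * ∑ j, ∑ i, Real.sqrt (min (a i) t * min (b j) t) * w j i) := by
    intro t ht
    have := level2 x1 x2 y1 y2 z1 z2 a0 b0 hA hB hM (T0 t ht) k0
    rw [c1, c2] at this
    exact mul_le_mul_of_nonneg_left this (m0 t)
  have L2 := sum_le_sum L
  have cs : ∀ j i, ∑ t ∈ T, m t * Real.sqrt (min (a i) t * min (b j) t)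
      ≤ f (Real.sqrt (b j)) * f (Real.sqrt (a i)) := by
    intro j i
    have h := Finset.sum_mul_sq_le_sq_mul_sq T (fun t => Real.sqrt (m t * min (b j) t))
      (fun t => Real.sqrt (m t * min (a i) t))
    have e1 : ∑ t ∈ T, Real.sqrt (m t * min (b j) t) * Real.sqrt (m t * min (a i) t)
        = ∑ t ∈ T, m t * Real.sqrt (min (a i) t * min (b j) t) := by
      apply sum_congr rfl; intro t ht
      rw [← Real.sqrt_mul (mul_nonneg (m0 t) (le_min (b0 j) (T0 t ht))),
        show m t * min (b j) t * (m t * min (a i) t) = m t ^ 2 * (min (a i) t * min (b j) t) by ring,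
        Real.sqrt_mul (sq_nonneg _), Real.sqrt_sq (m0 t)]
    have e2 : ∑ t ∈ T, Real.sqrt (m t * min (b j) t) ^ 2 = ∑ t ∈ T, m t * min (b j) t :=
      sum_congr rfl fun t ht => Real.sq_sqrt (mul_nonneg (m0 t) (le_min (b0 j) (T0 t ht)))
    have e3 : ∑ t ∈ T, Real.sqrt (m t * min (a i) t) ^ 2 = ∑ t ∈ T, m t * min (a i) t :=
      sum_congr rfl fun t ht => Real.sq_sqrt (mul_nonneg (m0 t) (le_min (a0 i) (T0 t ht)))
    rw [e1, e2, e3] at h
    have q1 : 0 ≤ ∑ t ∈ T, m t * min (b j) t :=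
      sum_nonneg fun t ht => mul_nonneg (m0 t) (le_min (b0 j) (T0 t ht))
    have q2 : 0 ≤ ∑ t ∈ T, m t * min (a i) t :=
      sum_nonneg fun t ht => mul_nonneg (m0 t) (le_min (a0 i) (T0 t ht))
    apply (abs_le_of_sq_le_sq' _ (mul_nonneg (f0 _ (Real.sqrt_nonneg _)) (f0 _ (Real.sqrt_nonneg _)))).2
    rw [mul_pow, ea, eb]
    refine h.trans (mul_le_mul (by nlinarith [sq_nonneg (f 0)]) (by nlinarith [sq_nonneg (f 0)]) q2 ?_)
    positivity
  have E1 : ∀ u : Fin n → ℝ, ∑ i, (f 0 ^ 2 + ∑ t ∈ T, m t * min (u i) t)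
      = n * f 0 ^ 2 + ∑ t ∈ T, m t * ∑ i, min (u i) t := by
    intro u
    rw [sum_add_distrib, sum_comm]
    simp [mul_sum]
  have E2 : ∑ t ∈ T, m t * (c * (∑ i, min (a i) t + ∑ j, min (b j) t)
      + 2 * c * ∑ j, ∑ i, Real.sqrt (min (a i) t * min (b j) t) * w j i)
      = c * (∑ t ∈ T, m t * ∑ i, min (a i) t + ∑ t ∈ T, m t * ∑ i, min (b i) t)
        + 2 * c * ∑ j, ∑ i, (∑ t ∈ T, m t * Real.sqrt (min (a i) t * min (b j) t)) * w j i := by
    have : ∑ j, ∑ i, (∑ t ∈ T, m t * Real.sqrt (min (a i) t * min (b j) t)) * w j i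
        = ∑ t ∈ T, m t * ∑ j, ∑ i, Real.sqrt (min (a i) t * min (b j) t) * w j i := by
      simp only [sum_mul, mul_sum]
      rw [sum_comm (s := T)]
      apply sum_congr rfl; intro j _
      rw [sum_comm (s := T)]
      apply sum_congr rfl; intro i _
      apply sum_congr rfl; intro t _; ring
    rw [this, ← sum_add_distrib, mul_sum, mul_sum, ← sum_add_distrib]
    apply sum_congr rfl; intro t _; ring
  have E3 : ∑ j, ∑ i, (∑ t ∈ T, m t * Real.sqrt (min (a i) t * min (b j) t)) * w j i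
      ≤ ∑ j, ∑ i, f (Real.sqrt (b j)) * f (Real.sqrt (a i)) * w j i :=
    sum_le_sum fun j _ => sum_le_sum fun i _ => mul_le_mul_of_nonneg_right (cs j i) (w0 j i)
  simp only [ea, eb, es, E1]
  rw [E2] at L2
  have q : 0 ≤ (n:ℝ) * f 0 ^ 2 := by positivity
  nlinarith [mul_le_mul_of_nonneg_left E3 (by linarith : 0 ≤ 2 * c)]

end Pool.Agent.H94.Lee
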