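import Mathlib

set_option autoImplicit false

namespace Pool.Agent.H94.MGDefs

open Matrix

/-- Data of a multigrid hierarchy: sizes `n ℓ`, matrices `A ℓ`, prolongations `P ℓ` and
restrictions `R ℓ` between the levels `ℓ` and `ℓ + 1`, Richardson parameters `Λ ℓ`. -/
structure Hierarchy (n : ℕ → ℕ) where
  A : ∀ l, Matrix (Fin (n l)) (Fin (n l)) ℝ
  P : ∀ l, Matrix (Fin (n (l + 1))) (Fin (n l)) ℝ
  R : ∀ l, Matrix (Fin (n l)) (Fin (n (l + 1))) ℝ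
  Λ : ℕ → ℝ

/-- Spectral radius of a real (symmetric) matrix. -/
noncomputable def rho {k : ℕ} (M : Matrix (Fin k) (Fin k) ℝ) : ℝ := (spectralRadius ℝ M).toReal

/-- The energy norm `‖v‖_M = sqrt (vᵀ M v)`. -/
noncomputable def energyNorm {k : ℕ} (M : Matrix (Fin k) (Fin k) ℝ) (v : Fin k → ℝ) : ℝ :=
  √(v ⬝ᵥ (M *ᵥ v))

namespace Hierarchy

variable {n : ℕ → ℕ} (H : Hierarchy n)

/-- `Π_ℓ = A_ℓ⁻¹ R_ℓ A_{ℓ+1}`. -/
noncomputable def Proj (l : ℕ) : Matrix (Fin (n l)) (Fin (n (l + 1))) ℝ :=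
  (H.A l)⁻¹ * H.R l * H.A (l + 1)

/-- The Richardson smoother `K_ℓ = I - Λ_ℓ⁻¹ A_ℓ`. -/
noncomputable def K (l : ℕ) : Matrix (Fin (n l)) (Fin (n l)) ℝ := 1 - (H.Λ l)⁻¹ • H.A l

/-- Error operator of the symmetric V-cycle with `m` pre- and `m` post-smoothing steps. -/
noncomputable def E (m : ℕ) : ∀ l, Matrix (Fin (n l)) (Fin (n l)) ℝ
  | 0 => 0
  | l + 1 => H.K (l + 1) ^ m * (1 - H.P l * (1 - E m l) * H.Proj l) * H.K (l + 1) ^ m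

/-- The hierarchy, up to depth `L`, is admissible: SPD matrices, full column rank prolongations,
(G3), (R) with constant `CR` and (A2) with exponent `α` and constant `CA`. -/
def Admissible (L : ℕ) (CR CA α : ℝ) : Prop :=
  (∀ l ≤ L, (H.A l).PosDef) ∧
  (∀ l < L, (H.P l).rank = n l) ∧
  (∃ r : ℝ, 0 < r ∧ r < 1 ∧ ∀ l < L,
    H.R l = r • (H.P l)ᵀ ∧ H.R l * H.A (l + 1) * H.P l = (2 : ℝ) • H.A l) ∧
  (∀ l < L, rho (H.A (l + 1)) ≤ H.Λ (l + 1) ∧ H.Λ (l + 1) ≤ CR * rho (H.A (l + 1))) ∧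
  (∀ l < L, ∀ v : Fin (n (l + 1)) → ℝ,
    |((1 - H.P l * H.Proj l) *ᵥ v) ⬝ᵥ (H.A (l + 1) *ᵥ v)| ≤
      CA ^ (2 * α) / rho (H.A (l + 1)) ^ α * energyNorm 1 (H.A (l + 1) *ᵥ v) ^ (2 * α) *
        energyNorm (H.A (l + 1)) v ^ (2 * (1 - α)))

end Hierarchy

end Pool.Agent.H94.MGDefs
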