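import Pool.Agent.H94.MGDefs

set_option autoImplicit false

namespace Pool.Agent.H94.MGProof

open Matrix Pool.Agent.H94.MGDefs

variable (η c s : ℝ)

def d (l : ℕ) : Fin (l + 1) → ℝ := Fin.cons (η ^ 2) fun _ => 1

def g (l : ℕ) : Fin (l + 1) → ℝ := Fin.cons (2 * s * η) fun _ => 2

def PP (l : ℕ) : Matrix (Fin (l + 2)) (Fin (l + 1)) ℝ :=
  Matrix.of (Fin.cons (Pi.single 0 (2 * c)) fun i => Pi.single i (g η s l i))

noncomputable def H : Hierarchy fun l => l + 1 where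
  A l := diagonal (d η l)
  P l := PP η c s l
  R l := (1 / 2 : ℝ) • (PP η c s l)ᵀ
  Λ _ := 1

variable {η c s}

lemma d_pos (hη : 0 < η) (l : ℕ) (i : Fin (l + 1)) : 0 < d η l i := by
  induction i using Fin.cases <;> simp [d, hη]

lemma A_inv (hη : 0 < η) (l : ℕ) : (diagonal (d η l))⁻¹ = diagonal fun i => (d η l i)⁻¹ := by
  apply inv_eq_right_inv
  rw [diagonal_mul_diagonal, ← diagonal_one]
  congr 1
  funext i
  exact mul_inv_cancel₀ (d_pos hη l i).ne'

lemma P_mulVec (l : ℕ) (w : Fin (l + 1) → ℝ) :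
    PP η c s l *ᵥ w = Fin.cons (2 * c * w 0) fun i => g η s l i * w i := by
  funext i
  induction i using Fin.cases <;> simp [PP, mulVec]

lemma PT_mulVec (l : ℕ) (v : Fin (l + 2) → ℝ) (j : Fin (l + 1)) :
    ((PP η c s l)ᵀ *ᵥ v) j = (Pi.single 0 (2 * c) : Fin (l + 1) → ℝ) j * v 0
      + g η s l j * v j.succ := by
  simp only [mulVec, dotProduct, transpose_apply, PP, of_apply, Fin.sum_univ_succ (n := l + 1),
    Fin.cons_zero, Fin.cons_succ]
  congr 1
  rw [Finset.sum_eq_single j]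
  · simp
  · intro i _ hi
    simp [Pi.single_apply, Ne.symm hi]
  · simp

lemma galerkin (hcs : c ^ 2 + s ^ 2 = 1) (l : ℕ) :
    ((1 / 2 : ℝ) • (PP η c s l)ᵀ) * diagonal (d η (l + 1)) * PP η c s l
      = (2 : ℝ) • diagonal (d η l) := by
  apply Matrix.toLin'.injective
  ext1 k
  ext1
  funext j
  simp only [LinearMap.coe_comp, Function.comp_apply, toLin'_apply, ← mulVec_mulVec, smul_mulVec,
    Pi.smul_apply, PT_mulVec, P_mulVec, mulVec_diagonal, Fin.cons_zero, Fin.cons_succ, d,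
    smul_eq_mul]
  induction j using Fin.cases with
  | zero =>
    simp only [Pi.single_eq_same, g, Fin.cons_zero]
    linear_combination (2 * η ^ 2 * (LinearMap.single ℝ (fun _ => ℝ) k) 1 0) * hcs
  | succ j =>
    simp only [g, Fin.cons_succ, Pi.single_eq_of_ne (Fin.succ_ne_zero j)]
    ring

lemma proj_mulVec (hη : 0 < η) (l : ℕ) (v : Fin (l + 2) → ℝ) :
    (H η c s).Proj l *ᵥ v = Fin.cons (c * v 0 + s * η⁻¹ * v 1) fun j => v j.succ.succ := by
  funext j
  simp only [Hierarchy.Proj, H, A_inv hη, ← mulVec_mulVec, smul_mulVec, mulVec_diagonal,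
    Pi.smul_apply, PT_mulVec, smul_eq_mul]
  induction j using Fin.cases with
  | zero =>
    simp only [Pi.single_eq_same, g, d, Fin.cons_zero, Fin.cons_succ, Fin.succ_zero_eq_one]
    have : (Fin.cons (η ^ 2) (fun _ => 1) : Fin (l + 2) → ℝ) 1 = 1 := rfl
    rw [this]
    field_simp
  | succ j =>
    simp only [g, d, Fin.cons_succ, Pi.single_eq_of_ne (Fin.succ_ne_zero j)]
    ring

lemma rho_A (hη : 0 < η) (hη1 : η ≤ 1) (l : ℕ) : rho (diagonal (d η (l + 1))) = 1 := by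
  have h : spectralRadius ℝ (diagonal (d η (l + 1))) = 1 := by
    rw [spectralRadius, spectrum_diagonal]
    apply le_antisymm
    · refine iSup₂_le ?_
      rintro _ ⟨i, rfl⟩
      have h1 : ‖d η (l + 1) i‖ ≤ 1 := by
        rw [Real.norm_of_nonneg (d_pos hη _ i).le]
        induction i using Fin.cases
        · exact pow_le_one₀ hη.le hη1
        · simp [d]
      exact_mod_cast h1
    · refine le_iSup₂_of_le 1 ⟨1, rfl⟩ (by simp)
  rw [rho, h, ENNReal.toReal_one]

lemma admissible (hη : 0 < η) (hη1 : η < 1) (hc : 2 * c ^ 2 = 1 + η) (hs : 2 * s ^ 2 = 1 - η)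
    (L : ℕ) : (H η c s).Admissible L 1 4 (1 / 2) := by
  have hcs : c ^ 2 + s ^ 2 = 1 := by linarith
  refine ⟨fun l _ => PosDef.diagonal (d_pos hη l), fun l _ => ?_,
    ⟨1 / 2, by norm_num, by norm_num, fun l _ => ⟨rfl, galerkin hcs l⟩⟩, fun l _ => ?_,
    fun l _ v => ?_⟩
  · apply le_antisymm (PP η c s l).rank_le_width
    have h1 := rank_mul_le_right
      (((1 / 2 : ℝ) • (PP η c s l)ᵀ) * diagonal (d η (l + 1))) (PP η c s l)
    rw [galerkin hcs l, ← diagonal_smul, rank_of_isUnit] at h1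
    · rw [Fintype.card_fin] at h1
      exact h1
    · rw [isUnit_iff_isUnit_det, det_diagonal, isUnit_iff_ne_zero]
      refine Finset.prod_ne_zero_iff.2 fun i _ => ?_
      simpa using (d_pos hη l i).ne'
  · simp only [H, rho_A hη hη1.le]
    norm_num
  · have e0 : rho ((H η c s).A (l + 1)) = 1 := rho_A hη hη1.le l
    rw [e0, Real.one_rpow, div_one]
    norm_num
    set B : ℝ := ∑ j : Fin l, v j.succ.succ ^ 2 with hB
    have hB0 : 0 ≤ B := by positivity
    have e1 : ((1 - (H η c s).P l * (H η c s).Proj l) *ᵥ v) ⬝ᵥ ((H η c s).A (l + 1) *ᵥ v)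
        = -η * (η * v 0) ^ 2 - 4 * c * s * (η * v 0) * v 1 + η * v 1 ^ 2 - B := by
      rw [sub_mulVec, one_mulVec, ← mulVec_mulVec, proj_mulVec hη]
      simp only [H, P_mulVec, dotProduct, Fin.sum_univ_succ, mulVec_diagonal, Pi.sub_apply, d, g,
        Fin.cons_zero, Fin.cons_succ, Fin.succ_zero_eq_one]
      have e2 : ∑ j : Fin l, (v j.succ.succ - 2 * v j.succ.succ) * (1 * v j.succ.succ) = -B := by
        rw [hB, ← Finset.sum_neg_distrib]
        exact Finset.sum_congr rfl fun j _ => by ring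
      rw [e2]
      have e3 : η * η⁻¹ = 1 := mul_inv_cancel₀ hη.ne'
      linear_combination (-(η * v 0) ^ 2) * hc - (v 1 ^ 2) * hs
        - (2 * c * s * η * v 0 * v 1 + 2 * s ^ 2 * v 1 ^ 2) * e3
    have e4 : energyNorm 1 ((H η c s).A (l + 1) *ᵥ v) = √((η * (η * v 0)) ^ 2 + v 1 ^ 2 + B) := by
      simp only [energyNorm, one_mulVec, H, dotProduct, Fin.sum_univ_succ, mulVec_diagonal, d,
        Fin.cons_zero, Fin.cons_succ, Fin.succ_zero_eq_one, hB]
      congr 1
      simp only [one_mul, ← sq]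
      ring
    have e5 : energyNorm ((H η c s).A (l + 1)) v = √((η * v 0) ^ 2 + v 1 ^ 2 + B) := by
      simp only [energyNorm, H, dotProduct, Fin.sum_univ_succ, mulVec_diagonal, d,
        Fin.cons_zero, Fin.cons_succ, Fin.succ_zero_eq_one, hB]
      congr 1
      simp only [one_mul, ← sq]
      ring
    rw [e1, e4, e5]
    set a := η * v 0
    set b := v 1
    set X := √((η * a) ^ 2 + b ^ 2 + B)
    set Y := √(a ^ 2 + b ^ 2 + B)
    have x1 : η * |a| ≤ X := Real.le_sqrt_of_sq_le (by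
      rw [mul_pow, mul_pow, sq_abs]
      nlinarith [sq_nonneg b])
    have x2 : |b| ≤ X := Real.le_sqrt_of_sq_le (by
      rw [sq_abs]
      nlinarith [sq_nonneg (η * a)])
    have x3 : √(b ^ 2 + B) ≤ X := Real.sqrt_le_sqrt (by nlinarith [sq_nonneg (η * a)])
    have y1 : |a| ≤ Y := Real.le_sqrt_of_sq_le (by
      rw [sq_abs]
      nlinarith [sq_nonneg b])
    have y3 : √(b ^ 2 + B) ≤ Y := Real.sqrt_le_sqrt (by nlinarith [sq_nonneg a])
    have hX : 0 ≤ X := Real.sqrt_nonneg _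
    have p1 : η * a ^ 2 ≤ X * Y := by
      have := mul_le_mul x1 y1 (abs_nonneg _) hX
      rwa [mul_assoc, abs_mul_abs_self, ← sq] at this
    have p2 : |b| * |a| ≤ X * Y := mul_le_mul x2 y1 (abs_nonneg _) hX
    have p3 : b ^ 2 + B ≤ X * Y := by
      have := mul_le_mul x3 y3 (Real.sqrt_nonneg _) hX
      rwa [Real.mul_self_sqrt (by positivity)] at this
    have p4 : |4 * c * s * a * b| ≤ 2 * (|b| * |a|) := by
      have h1 : |4 * c * s| ≤ 2 := by
        rw [abs_le]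
        constructor <;> nlinarith [sq_nonneg (c - s), sq_nonneg (c + s)]
      rw [abs_mul, abs_mul (4 * c * s)]
      nlinarith [abs_nonneg a, abs_nonneg b, mul_nonneg (abs_nonneg a) (abs_nonneg b)]
    have p5 : 0 ≤ η * a ^ 2 := by positivity
    have p6 : 0 ≤ η * b ^ 2 := by positivity
    have p7 : η * b ^ 2 ≤ b ^ 2 := by nlinarith [sq_nonneg b]
    rw [abs_le] at p4 ⊢
    constructor <;> nlinarith [p4.1, p4.2]

noncomputable def e (η : ℝ) (m : ℕ) : ℕ → ℝ
  | 0 => 0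
  | l + 1 => (1 - η ^ 2) ^ (2 * m) * (-η + (1 + η) * e η m l)

lemma K_mulVec (m : ℕ) (hm : 1 ≤ m) (l : ℕ) (v : Fin (l + 1) → ℝ) :
    ((H η c s).K l ^ m) *ᵥ v = Pi.single 0 ((1 - η ^ 2) ^ m * v 0) := by
  have h : (H η c s).K l = diagonal fun i => 1 - d η l i := by
    simp only [Hierarchy.K, H, inv_one, one_smul, ← diagonal_one, diagonal_sub]
  rw [h, diagonal_pow]
  funext i
  rw [mulVec_diagonal]
  induction i using Fin.cases with
  | zero => simp [d]
  | succ i => simp [d, show m ≠ 0 by omega]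

lemma E_mulVec (hη : 0 < η) (hc : 2 * c ^ 2 = 1 + η) (m : ℕ) (hm : 1 ≤ m) (l : ℕ)
    (v : Fin (l + 1) → ℝ) : (H η c s).E m l *ᵥ v = Pi.single 0 (e η m l * v 0) := by
  induction l with
  | zero => simp [Hierarchy.E, e]
  | succ l ih =>
    rw [Hierarchy.E, ← mulVec_mulVec, ← mulVec_mulVec, K_mulVec m hm, K_mulVec m hm, sub_mulVec,
      one_mulVec, ← mulVec_mulVec, ← mulVec_mulVec, proj_mulVec hη, sub_mulVec, one_mulVec, ih]
    congr 1
    simp only [H, P_mulVec, Pi.sub_apply, Fin.cons_zero, Pi.single_eq_same, e]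
    rw [Pi.single_eq_of_ne (by simp)]
    have : (1 - η ^ 2) ^ (2 * m) = (1 - η ^ 2) ^ m * (1 - η ^ 2) ^ m := by
      rw [two_mul, pow_add]
    rw [this]
    linear_combination ((1 - η ^ 2) ^ m * (1 - η ^ 2) ^ m * v 0 * (e η m l - 1)) * hc

lemma e_le (hη : 0 < η) (m : ℕ) (hq : 1 ≤ (1 - η ^ 2) ^ (2 * m) * (1 + η)) (l : ℕ) :
    e η m l ≤ -(l * ((1 - η ^ 2) ^ (2 * m) * η)) := by
  have h0 : 0 ≤ (1 - η ^ 2) ^ (2 * m) := by
    rw [pow_mul]
    positivity
  induction l with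
  | zero => simp [e]
  | succ l ih =>
    have h1 : 0 ≤ l * ((1 - η ^ 2) ^ (2 * m) * η) := by positivity
    rw [e]
    push_cast
    nlinarith

theorem main (m : ℕ) (hm : 1 ≤ m) (M : ℝ) :
    ∃ (n : ℕ → ℕ) (H : Hierarchy n) (L : ℕ), 1 ≤ L ∧ H.Admissible L 1 4 (1 / 2) ∧
      ∃ v : Fin (n L) → ℝ, v ≠ 0 ∧ M * energyNorm (H.A L) v ≤ energyNorm (H.A L) (H.E m L *ᵥ v) := by
  have hm' : (1 : ℝ) ≤ m := by exact_mod_cast hm
  set η : ℝ := 1 / (4 * m) with hηd
  have hη : 0 < η := by positivity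
  have hη2 : 4 * m * η = 1 := by
    rw [hηd]
    field_simp
  have hη1 : η ≤ 1 / 4 := by nlinarith
  have hb := one_add_mul_le_pow (a := -η ^ 2) (by nlinarith) (2 * m)
  rw [← sub_eq_add_neg] at hb
  push_cast at hb
  have hb2 : 1 - η / 2 ≤ (1 - η ^ 2) ^ (2 * m) := by nlinarith
  have hq : 1 ≤ (1 - η ^ 2) ^ (2 * m) * (1 + η) := by nlinarith
  have hc : 2 * √((1 + η) / 2) ^ 2 = 1 + η := by
    rw [Real.sq_sqrt (by positivity)]
    ring
  have hs : 2 * √((1 - η) / 2) ^ 2 = 1 - η := by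
    rw [Real.sq_sqrt (by linarith)]
    ring
  set κ := (1 - η ^ 2) ^ (2 * m) * η with hκ
  have hκ0 : 0 < κ := mul_pos (by linarith) hη
  obtain ⟨N, hN⟩ := exists_nat_ge (M / κ)
  refine ⟨_, H η √((1 + η) / 2) √((1 - η) / 2), N + 1, by omega,
    admissible hη (by linarith) hc hs _, Pi.single 0 1, by simp, ?_⟩
  rw [E_mulVec hη hc m hm]
  have h1 := e_le hη m hq (N + 1)
  rw [div_le_iff₀ hκ0] at hN
  push_cast at h1
  have h2 : ∀ x : ℝ, energyNorm ((H η √((1 + η) / 2) √((1 - η) / 2)).A (N + 1)) (Pi.single 0 x)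
      = η * |x| := by
    intro x
    simp only [energyNorm, H, single_dotProduct, mulVec_diagonal, d, Fin.cons_zero, Pi.single_eq_same]
    rw [show x * (η ^ 2 * x) = (η * |x|) ^ 2 by rw [mul_pow, sq_abs]; ring,
      Real.sqrt_sq (by positivity)]
  rw [h2, h2]
  simp only [Pi.single_eq_same, abs_one, mul_one]
  have h3 := neg_le_abs (e η m (N + 1))
  nlinarith

end Pool.Agent.H94.MGProof
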