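import Mathlib

set_option autoImplicit false
namespace Pool.Agent.H94.MU
open Set MeasureTheory Metric Filter Topology CompactlySupported

theorem gordan {Z : Type} [TopologicalSpace Z] [CompactSpace Z] [T2Space Z] [MeasurableSpace Z]
    [BorelSpace Z] (W : Submodule ℝ C(Z, ℝ)) : (∃ f ∈ W, ∀ z, 0 < f z) ∨
      ∃ μ : Measure Z, IsProbabilityMeasure μ ∧ ∀ f ∈ W, ∫ z, f z ∂μ = 0 := by
  refine or_iff_not_imp_left.2 fun h => ?_
  obtain ⟨L, u, h1, h2⟩ := geometric_hahn_banach_open (s := {f : C(Z, ℝ) | MapsTo f univ (Ioi 0)})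
    (t := W) (fun f hf g hg a b ha hb hab z hz => convex_Ioi 0 (hf hz) (hg hz) ha hb hab)
    (ContinuousMap.isOpen_setOf_mapsTo isCompact_univ isOpen_Ioi) W.convex
    (disjoint_left.2 fun f hf hw => h ⟨f, hw, fun z => hf trivial⟩)
  have u0 : u ≤ 0 := by simpa using h2 0 W.zero_mem
  have w0 : ∀ f ∈ W, L f = 0 := fun f hf => by
    by_contra hn
    have := h2 _ (W.smul_mem ((u - 1) / L f) hf)
    rw [map_smul, smul_eq_mul, div_mul_cancel₀ _ hn] at this
    linarith
  have c0 : L 1 < 0 := (h1 1 fun _ _ => by simp).trans_le u0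
  have hpos : ∀ g : C(Z, ℝ), (∀ z, 0 ≤ g z) → L g ≤ 0 := fun g hg => by
    by_contra hn
    have := h1 (g + (L g / -L 1) • 1) fun z _ => by
      have := div_pos (not_le.1 hn) (neg_pos.2 c0)
      simp only [ContinuousMap.add_apply, ContinuousMap.smul_apply, ContinuousMap.one_apply,
        smul_eq_mul, mem_Ioi]
      linarith [hg z]
    rw [map_add, map_smul, smul_eq_mul, div_neg, neg_mul, div_mul_cancel₀ _ c0.ne] at this
    linarith
  let Λ : C_c(Z, ℝ) →ₚ[ℝ] ℝ :=
  { toFun g := (L 1)⁻¹ * L g.toContinuousMap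
    map_add' g g' := by rw [← mul_add, ← map_add]; rfl
    map_smul' a g := by rw [RingHom.id_apply, smul_eq_mul, mul_left_comm, ← smul_eq_mul a, ← map_smul]; rfl
    monotone' g g' hgg' := by
      have := hpos (g'.toContinuousMap - g.toContinuousMap) fun z => sub_nonneg.2 (hgg' z)
      rw [map_sub] at this
      exact mul_le_mul_of_nonpos_left (by linarith) (inv_nonpos.2 c0.le) }
  have key : ∀ u : C(Z, ℝ), ∫ z, u z ∂(RealRMK.rieszMeasure Λ) = (L 1)⁻¹ * L u := fun u =>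
    RealRMK.integral_rieszMeasure Λ ⟨u, HasCompactSupport.of_compactSpace _⟩
  refine ⟨RealRMK.rieszMeasure Λ, isProbabilityMeasure_iff_real.2 ?_, fun g hg => by
    rw [key, w0 g hg, mul_zero]⟩
  simpa [c0.ne] using key 1

variable {n : ℕ}

abbrev E (n : ℕ) := EuclideanSpace ℝ (Fin n)

/-- `ℤ^n`-periodic functions, that is functions on the torus. -/
def Per (f : EuclideanSpace ℝ (Fin n) → ℝ) : Prop :=
  ∀ x (z : Fin n → ℤ), f (x + WithLp.toLp 2 fun i => (z i : ℝ)) = f x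

/-- Continuous periodic viscosity solution of `H(x, Dv) = 0`. -/
def Visc (H : EuclideanSpace ℝ (Fin n) → EuclideanSpace ℝ (Fin n) → ℝ)
    (v : EuclideanSpace ℝ (Fin n) → ℝ) : Prop :=
  Continuous v ∧ Per v ∧
    (∀ φ, ContDiff ℝ 1 φ → ∀ x, IsLocalMax (fun y => v y - φ y) x → H x (gradient φ x) ≤ 0) ∧
    ∀ φ, ContDiff ℝ 1 φ → ∀ x, IsLocalMin (fun y => v y - φ y) x → 0 ≤ H x (gradient φ x)

/-- `g` is integrable with integral zero. -/
def Null {α : Type} [MeasurableSpace α] (μ : Measure α) (g : α → ℝ) : Prop :=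
  Integrable g μ ∧ ∫ q, g q ∂μ = 0

/-- Mather measure at the level `0`. -/
def Mather (H : EuclideanSpace ℝ (Fin n) → EuclideanSpace ℝ (Fin n) → ℝ)
    (μ : Measure (EuclideanSpace ℝ (Fin n) × EuclideanSpace ℝ (Fin n))) : Prop :=
  IsProbabilityMeasure μ ∧ (∀ᵐ q ∂μ, H q.1 q.2 = 0) ∧ Null μ (fun q => fderiv ℝ (H q.1) q.2 q.2) ∧
    ∀ φ, ContDiff ℝ 2 φ → Per φ → Null μ fun q => fderiv ℝ (H q.1) q.2 (gradient φ q.1)

/-- The projected Mather set. -/
def M0 (H : EuclideanSpace ℝ (Fin n) → EuclideanSpace ℝ (Fin n) → ℝ) :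
    Set (EuclideanSpace ℝ (Fin n)) :=
  closure (⋃ μ ∈ {μ | Mather H μ}, Prod.fst '' μ.support)

theorem red (x : E n) : ∃ z : Fin n → ℤ, x + WithLp.toLp 2 (fun i => (z i : ℝ)) ∈
    closedBall (0 : E n) (n + 1) := by
  refine ⟨fun i => -⌊x i⌋, mem_closedBall_zero_iff.2 (abs_le_of_sq_le_sq' ?_ (by positivity)).2⟩
  rw [EuclideanSpace.real_norm_sq_eq]
  refine (Finset.sum_le_card_nsmul _ _ 1 fun i _ => ?_).trans (by simp; nlinarith)
  have a1 := Int.fract_nonneg (x i)
  have a2 := Int.fract_lt_one (x i)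
  simp only [PiLp.add_apply, Int.cast_neg, ← sub_eq_add_neg, Int.self_sub_floor]
  nlinarith

theorem Per.bd {F : Type} [NormedAddCommGroup F] {g : E n → F} (hg : Continuous g)
    (h : ∀ x (z : Fin n → ℤ), g (x + WithLp.toLp 2 fun i => (z i : ℝ)) = g x) :
    ∃ A, ∀ x, ‖g x‖ ≤ A := by
  obtain ⟨A, hA⟩ := (isCompact_closedBall (0 : E n) (n + 1)).exists_bound_of_continuousOn
    hg.continuousOn
  exact ⟨A, fun x => by obtain ⟨z, hz⟩ := red x; exact h x z ▸ hA _ hz⟩

theorem nz {H : E n → E n → ℝ} (hH : ContDiff ℝ 2 (Function.uncurry H))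
    (hp : ∀ p, Per fun x => H x p) {p : E n}
    (h : ∀ x, 0 < 1 / 2 * H x p ^ 2 + fderiv ℝ (fun x => H x p) x p) (x : E n) : H x p ≠ 0 := by
  intro h0
  have d : Differentiable ℝ fun x => H x p :=
    (hH.differentiable (by norm_num)).comp (f := fun x => (x, p)) (by fun_prop)
  have g : ∀ t : ℝ, HasDerivAt (fun t : ℝ => H (x + t • p) p)
      (fderiv ℝ (fun x => H x p) (x + t • p) p) t := fun t => by
    have := HasFDerivAt.comp_hasDerivAt (l := fun x => H x p) (f := fun t : ℝ => x + t • p) t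
      (d (x + t • p)).hasFDerivAt (((hasDerivAt_id' t).smul_const p).const_add x)
    rw [one_smul] at this
    exact this
  have g1 : ∀ t : ℝ, 0 ≤ t → 0 ≤ H (x + t • p) p := fun t ht =>
    image_le_of_deriv_right_lt_deriv_boundary (f := fun _ => 0) (f' := fun _ => 0) (a := 0) (b := t)
      continuousOn_const (fun _ _ => hasDerivWithinAt_const _ _ _) (by simp [h0]) g
      (fun s _ hs => by simpa [← hs] using h (x + s • p)) ⟨ht, le_rfl⟩
  have g2 : ∀ t : ℝ, 0 ≤ H (x + t • p) p := fun t => by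
    choose z hz using fun k : ℕ => red ((k : ℝ) • p)
    obtain ⟨a, -, φ, hφ, ha⟩ := (isCompact_closedBall _ _).tendsto_subseq hz
    have := ((ha.comp (tendsto_add_atTop_nat ⌈|t|⌉₊)).sub ha).const_add (x + t • p)
    rw [sub_self, add_zero] at this
    refine ge_of_tendsto' ((d.continuous.tendsto _).comp this) fun k => ?_
    have a1 : (φ k : ℝ) + ⌈|t|⌉₊ ≤ φ (k + ⌈|t|⌉₊) := by
      rw [add_comm, add_comm k]; exact_mod_cast hφ.add_le_nat _ k
    refine (g1 (t + φ (k + ⌈|t|⌉₊) - φ k) (by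
      linarith [Nat.le_ceil |t|, neg_abs_le t])).trans_eq ?_
    refine (hp p _ (z (φ (k + ⌈|t|⌉₊)) - z (φ k))).symm.trans ?_
    simp only [Function.comp]
    congr 1
    ext i; simp; ring
  have := (IsLocalMin.hasDerivAt_eq_zero (Eventually.of_forall fun t => by
    simpa [h0] using g2 t) (g 0))
  rw [zero_smul, add_zero] at this
  simpa [h0, this] using h x

theorem gr {f : E n → ℝ} {L : E n →L[ℝ] ℝ} {x g : E n} (h : HasFDerivAt f L x)
    (e : ∀ y, L y = inner ℝ g y) : gradient f x = g := by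
  rw [gradient, h.fderiv, LinearIsometryEquiv.symm_apply_eq]
  ext y; exact e y

theorem gi (f : E n → ℝ) (x y : E n) : fderiv ℝ f x y = inner ℝ (gradient f x) y := by
  simp [gradient]

theorem gc {φ : E n → ℝ} (hφ : ContDiff ℝ 2 φ) : Continuous (gradient φ) :=
  (LinearIsometryEquiv.continuous _).comp (hφ.continuous_fderiv (by norm_num))

theorem gp {φ : E n → ℝ} (h : Per φ) (x : E n) (z : Fin n → ℤ) :
    gradient φ (x + WithLp.toLp 2 fun i => (z i : ℝ)) = gradient φ x := by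
  rw [gradient, gradient, ← fderiv_comp_add_right, funext fun y => h y z]

end Pool.Agent.H94.MU
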