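import Pool.Agent.H94.MU1

set_option autoImplicit false
namespace Pool.Agent.H94.MU
open Set MeasureTheory Metric Filter Topology

variable {n : ℕ}

theorem ga {φ ψ : E n → ℝ} (h : ContDiff ℝ 2 φ) (k : ContDiff ℝ 2 ψ) (x : E n) :
    gradient (φ + ψ) x = gradient φ x + gradient ψ x :=
  gr ((h.differentiable (by norm_num) x).hasFDerivAt.add (k.differentiable (by norm_num) x).hasFDerivAt)
    fun y => by rw [inner_add_left, ← gi, ← gi]; rfl

theorem gs {φ : E n → ℝ} (h : ContDiff ℝ 2 φ) (c : ℝ) (x : E n) :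
    gradient (c • φ) x = c • gradient φ x :=
  gr ((h.differentiable (by norm_num) x).hasFDerivAt.const_smul c)
    fun y => by rw [real_inner_smul_left, ← gi]; rfl

theorem dbl {H : E n → E n → ℝ} (hc : Continuous (Function.uncurry H)) {R G ε : ℝ}
    (hR : ∀ x p, R ≤ ‖p‖ → H x p ≠ 0) {v w φ : E n → ℝ} (hv : Visc H v) (hw : Visc H w)
    (hφ : ContDiff ℝ 2 φ) (pφ : Per φ) (hG : ∀ x, ‖gradient φ x‖ ≤ G) (e0 : 0 < ε) (e1 : ε ≤ 1 / 2) :
    ∃ q ∈ closedBall (0 : E n) (n + 1) ×ˢ closedBall (0 : E n) (2 * (R + G)),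
      (∀ y, (1 - ε) * v y + ε * φ y - w y ≤ (1 - ε) * v q.1 + ε * φ q.1 - w q.1) ∧ H q.1 q.2 ≤ 0 ∧
        0 ≤ H q.1 (q.2 - ε • (q.2 - gradient φ q.1)) := by
  have vc := hv.1
  have wc := hw.1
  have φc := hφ.continuous
  have φ1 : ContDiff ℝ 1 φ := hφ.of_le (by norm_num)
  obtain ⟨A, hA⟩ := Per.bd wc hw.2.1
  have e2 : 0 < 1 - ε := by linarith
  have step : ∀ j : ℕ, ∃ q ∈ closedBall (0 : E n) (n + 1) ×ˢ closedBall (0 : E n) (2 * (R + G)),
      ∃ z : E n, ‖z‖ ^ 2 ≤ 1 / (j + 1) ∧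
      (∀ y, (1 - ε) * v y + ε * φ y - w y ≤ (1 - ε) * v q.1 + ε * φ q.1 - w (q.1 + z)) ∧
        H q.1 q.2 ≤ 0 ∧ 0 ≤ H (q.1 + z) (q.2 - ε • (q.2 - gradient φ q.1)) := by
    intro j
    have A0 : 0 ≤ A := (norm_nonneg _).trans (hA 0)
    obtain ⟨c, hc'⟩ : ∃ c : ℝ, c = (2 * A + 1) * (j + 1) := ⟨_, rfl⟩
    have c0 : 0 < c := by rw [hc']; positivity
    obtain ⟨⟨x, z⟩, ⟨hx, hz⟩, hm⟩ := ((isCompact_closedBall (0 : E n) (n + 1)).prod
      (isCompact_closedBall (0 : E n) 1)).exists_isMaxOn ⟨(0, 0), mem_closedBall_self (by positivity),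
        mem_closedBall_self zero_le_one⟩ (f := fun q => (1 - ε) * v q.1 + ε * φ q.1 - w (q.1 + q.2) -
          c * ‖q.2‖ ^ 2) (Continuous.continuousOn (by fun_prop))
    have gm : ∀ x' y', ‖y' - x'‖ ≤ 1 → (1 - ε) * v x' + ε * φ x' - w y' - c * ‖y' - x'‖ ^ 2 ≤
        (1 - ε) * v x + ε * φ x - w (x + z) - c * ‖z‖ ^ 2 := fun x' y' h => by
      obtain ⟨k, hk⟩ := red x'
      have := hm (a := (_, y' - x')) ⟨hk, mem_closedBall_zero_iff.2 h⟩
      simp only [mem_setOf_eq] at this
      rwa [hv.2.1, pφ, add_right_comm, add_sub_cancel, hw.2.1] at this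
    have z1 : c * ‖z‖ ^ 2 ≤ 2 * A := by
      have := gm x x (by simp)
      rw [sub_self, norm_zero] at this
      linarith [abs_le.1 (hA x), abs_le.1 (hA (x + z))]
    have z2 : ‖z‖ < 1 := by
      have : (0 : ℝ) ≤ j := j.cast_nonneg
      by_contra h
      nlinarith [mul_le_mul_of_nonneg_left (one_le_pow₀ (not_lt.1 h) (n := 2)) c0.le]
    have s1 := hv.2.2.1 (fun x' => (1 - ε)⁻¹ * (c * ‖x + z - x'‖ ^ 2 - ε * φ x'))
      (contDiff_const.mul ((contDiff_const.mul ((contDiff_const.sub contDiff_id).norm_sq ℝ)).sub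
        (contDiff_const.mul φ1))) x (by
        filter_upwards [(continuous_const.sub continuous_id).norm.continuousAt.eventually
          (ge_mem_nhds (show ‖x + z - id x‖ < 1 by simpa using z2))] with x' hx'
        have := gm x' (x + z) hx'
        rw [add_sub_cancel_left, ← mul_le_mul_iff_right₀ e2]
        simp only [mul_sub, mul_inv_cancel_left₀ e2.ne']
        linarith)
    have s2 := hw.2.2.2 (fun y' => -c * ‖y' - x‖ ^ 2)
      (contDiff_const.mul ((contDiff_id.sub contDiff_const).norm_sq ℝ)) (x + z) (by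
        filter_upwards [(continuous_id.sub continuous_const).norm.continuousAt.eventually
          (ge_mem_nhds (show ‖id (x + z) - x‖ < 1 by simpa using z2))] with y' hy'
        have := gm x y' hy'
        rw [add_sub_cancel_left]
        linarith)
    set p := (1 - ε)⁻¹ • ((-2 * c) • z - ε • gradient φ x) with hp
    rw [gr (g := p) (f := fun x' => (1 - ε)⁻¹ * (c * ‖x + z - x'‖ ^ 2 - ε * φ x')) (((((hasFDerivAt_id x).const_sub (x + z)).norm_sq.const_mul c).sub
      (((φ1.differentiable one_ne_zero) x).hasFDerivAt.const_mul ε)).const_mul (1 - ε)⁻¹)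
      fun y => by
        rw [hp, real_inner_smul_left, inner_sub_left, real_inner_smul_left, real_inner_smul_left, ← gi]
        simp; left; ring] at s1
    rw [gr (g := p - ε • (p - gradient φ x)) (f := fun y' => -c * ‖y' - x‖ ^ 2)
      (((hasFDerivAt_id (x + z)).sub_const x).norm_sq.const_mul (-c)) fun y => by
        simp [hp, inner_sub_left, real_inner_smul_left]; field_simp; ring] at s2
    refine ⟨(x, p), ⟨hx, mem_closedBall_zero_iff.2 (not_lt.1 fun h => ?_)⟩, z, ?_, fun y => ?_, s1, s2⟩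
    · obtain ⟨t, ht, h0⟩ := intermediate_value_Icc zero_le_one (f := fun t : ℝ =>
        H (x + t • z) (p - (t * ε) • (p - gradient φ x)))
        (hc.comp (f := fun t : ℝ => (x + t • z, p - (t * ε) • (p - gradient φ x)))
          (by fun_prop)).continuousOn (show (0 : ℝ) ∈ _ from ⟨by simpa using s1, by simpa using s2⟩)
      refine hR _ _ ?_ h0
      have t1 : 0 ≤ t * ε := mul_nonneg ht.1 e0.le
      have t2 : t * ε ≤ 1 / 2 := by nlinarith [ht.2]
      have := norm_sub_norm_le ((1 - t * ε) • p) (-((t * ε) • gradient φ x))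
      have h : 2 * (R + G) < ‖p‖ := h
      rw [norm_neg, norm_smul (1 - t * ε), norm_smul (t * ε), Real.norm_of_nonneg t1, Real.norm_of_nonneg (by linarith),
        show (1 - t * ε) • p - -((t * ε) • gradient φ x) = p - (t * ε) • (p - gradient φ x) by
          module] at this
      nlinarith [hG x, norm_nonneg p, norm_nonneg (gradient φ x)]
    · rw [le_div_iff₀ (by positivity)]
      nlinarith [sq_nonneg ‖z‖, mul_nonneg (sq_nonneg ‖z‖) (show (0 : ℝ) ≤ j + 1 by positivity)]
    · have := gm y y (by simp)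
      rw [sub_self, norm_zero] at this
      nlinarith [mul_nonneg c0.le (sq_nonneg ‖z‖)]
  choose q hq z h1 h2 h3 h4 using step
  obtain ⟨a, ha, s, hs, l⟩ := ((isCompact_closedBall _ _).prod (isCompact_closedBall _ _)).tendsto_subseq hq
  have lz : Tendsto z atTop (𝓝 0) := tendsto_zero_iff_norm_tendsto_zero.2 (by
    have := (squeeze_zero (fun _ => sq_nonneg _) h1 tendsto_one_div_add_atTop_nhds_zero_nat).sqrt
    simpa using this)
  have l2 := l.prodMk_nhds (lz.comp hs.tendsto_atTop)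
  have g := gc hφ
  refine ⟨a, ha, fun y => ?_, le_of_tendsto' ((hc.tendsto a).comp l) fun k => h3 _, ?_⟩
  · simpa using ge_of_tendsto' (((by fun_prop : Continuous fun r : (E n × E n) × E n =>
      (1 - ε) * v r.1.1 + ε * φ r.1.1 - w (r.1.1 + r.2)).tendsto _).comp l2) fun k => h2 _ y
  · simpa using ge_of_tendsto' (((hc.comp (f := fun r : (E n × E n) × E n =>
      (r.1.1 + r.2, r.1.2 - ε • (r.1.2 - gradient φ r.1.1))) (by fun_prop)).tendsto _).comp l2)
      fun k => h4 _

theorem le {H : E n → E n → ℝ} (hH : ContDiff ℝ 2 (Function.uncurry H)) {R : ℝ}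
    (hR : ∀ x p, R ≤ ‖p‖ → H x p ≠ 0) (h2 : ∀ x p, H x p = 0 → 0 ≤ fderiv ℝ (H x) p p)
    {v w : E n → ℝ} (hv : Visc H v) (hw : Visc H w) (h : ∀ x ∈ M0 H, v x = w x) (y : E n) :
    v y ≤ w y := by
  by_contra hy
  have vc := hv.1
  have wc := hw.1
  have hc := hH.continuous
  have dc : Continuous fun q : E n × E n => fderiv ℝ (H q.1) q.2 :=
    Continuous.fderiv (n := 2) (f := fun q : E n × E n => H q.1)
      (hH.comp (f := fun r : (E n × E n) × E n => (r.1.1, r.2)) (by fun_prop)) continuous_snd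
      (by norm_num)
  let Z : Set (E n × E n) := (closedBall 0 (n + 1) ×ˢ closedBall 0 R) ∩
    ({q | H q.1 q.2 = 0} ∩ {q | v y - w y ≤ v q.1 - w q.1})
  have Zc : IsCompact Z := ((isCompact_closedBall _ _).prod (isCompact_closedBall _ _)).inter_right
    ((isClosed_eq hc continuous_const).inter (isClosed_le continuous_const (by fun_prop)))
  have := isCompact_iff_compactSpace.1 Zc
  let W : Submodule ℝ C(Z, ℝ) :=
    { carrier := {f | ∃ (a : ℝ) (φ : E n → ℝ), ContDiff ℝ 2 φ ∧ Per φ ∧ ∀ q : Z,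
        f q = fderiv ℝ (H q.1.1) q.1.2 (a • q.1.2 - gradient φ q.1.1)}
      zero_mem' := ⟨0, fun _ => 0, contDiff_const, fun _ _ => rfl, fun q => by simp⟩
      add_mem' := by
        rintro f g ⟨a, φ, h1, h2, h3⟩ ⟨b, ψ, k1, k2, k3⟩
        refine ⟨a + b, φ + ψ, h1.add k1, fun x z => by simp [h2 x z, k2 x z], fun q => ?_⟩
        rw [ContinuousMap.add_apply, h3, k3, ← map_add, ga h1 k1]
        congr 1; module
      smul_mem' := by
        rintro c f ⟨a, φ, h1, h2, h3⟩
        refine ⟨c * a, c • φ, h1.const_smul c, fun x z => by simp [h2 x z], fun q => ?_⟩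
        rw [ContinuousMap.smul_apply, h3, ← map_smul, gs h1]
        congr 1; module }
  rcases gordan W with ⟨f, ⟨a, ψ, ψ1, ψ2, hf⟩, f0⟩ | ⟨μ, hμ, hW⟩
  swap
  · have nl : ∀ (a : ℝ) (φ : E n → ℝ), ContDiff ℝ 2 φ → Per φ → Null (μ.map Subtype.val)
        fun q => fderiv ℝ (H q.1) q.2 (a • q.2 - gradient φ q.1) := fun a φ h1 h2 => by
      have := gc h1
      have c : Continuous fun q : E n × E n => fderiv ℝ (H q.1) q.2 (a • q.2 - gradient φ q.1) :=
        dc.clm_apply (by fun_prop)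
      refine ⟨(integrable_map_measure c.aestronglyMeasurable measurable_subtype_coe.aemeasurable).2
        ((c.comp continuous_subtype_val).integrable_of_hasCompactSupport
          (HasCompactSupport.of_compactSpace _)), ?_⟩
      rw [integral_map measurable_subtype_coe.aemeasurable c.aestronglyMeasurable]
      exact hW ⟨_, c.comp continuous_subtype_val⟩ ⟨a, φ, h1, h2, fun _ => rfl⟩
    have ae : Z ∈ ae (μ.map Subtype.val) :=
      (ae_map_iff measurable_subtype_coe.aemeasurable Zc.measurableSet).2 (ae_of_all _ fun q => q.2)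
    have pm := Measure.isProbabilityMeasure_map (μ := μ) measurable_subtype_coe.aemeasurable
    have M : Mather H (μ.map Subtype.val) := ⟨pm, mem_of_superset ae fun q hq => hq.2.1, by
      simpa using nl 1 (fun _ => 0) contDiff_const fun _ _ => rfl, fun φ h1 h2 => by
        have := nl 0 φ h1 h2
        simp only [zero_smul, zero_sub, map_neg, Null, integral_neg, neg_eq_zero] at this
        exact ⟨by simpa using this.1.neg, this.2⟩⟩
    obtain ⟨q, hq⟩ := Measure.nonempty_support (IsProbabilityMeasure.ne_zero (μ.map Subtype.val))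
    have a1 := h q.1 (subset_closure (mem_biUnion M ⟨q, hq, rfl⟩))
    have a2 : v y - w y ≤ v q.1 - w q.1 := (Measure.support_subset_of_isClosed Zc.isClosed ae hq).2.2
    exact hy (by linarith)
  have b0 : 0 < max a 1 := lt_max_of_lt_right one_pos
  let φ := (max a 1)⁻¹ • ψ
  have φ1 : ContDiff ℝ 2 φ := ψ1.const_smul (max a 1)⁻¹
  have φ2 : Per φ := fun x z => by simp [φ, ψ2 x z]
  have g := gc φ1
  have φc := φ1.continuous
  obtain ⟨G, hG⟩ := Per.bd g (gp φ2)
  choose q hq k1 k2 k3 using fun k : ℕ => dbl (ε := 1 / (k + 1) / 2) hc hR hv hw φ1 φ2 hG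
    (by positivity) (by
      gcongr; rw [div_le_one (by positivity)]; exact le_add_of_nonneg_left k.cast_nonneg)
  have mv : ∀ k : ℕ, ∃ τ ∈ Ioo (0 : ℝ) (1 / (k + 1) / 2), fderiv ℝ (H (q k).1)
      ((q k).2 - τ • ((q k).2 - gradient φ (q k).1)) ((q k).2 - gradient φ (q k).1) ≤ 0 := fun k => by
    have d : Differentiable ℝ (H (q k).1) :=
      (hH.differentiable (by norm_num)).comp (f := fun p => ((q k).1, p)) (by fun_prop)
    have d1 := fun t : ℝ => (d _).hasFDerivAt.comp_hasDerivAt t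
      (((hasDerivAt_id' t).smul_const ((q k).2 - gradient φ (q k).1)).const_sub (q k).2)
    obtain ⟨τ, h1, h2⟩ := exists_hasDerivAt_eq_slope _ _ (show (0 : ℝ) < 1 / (k + 1) / 2 by positivity)
      (fun t _ => (d1 t).continuousAt.continuousWithinAt) fun t _ => d1 t
    refine ⟨τ, h1, ?_⟩
    rw [one_smul, map_neg, neg_eq_iff_eq_neg] at h2
    rw [h2, neg_nonpos]
    refine div_nonneg ?_ (by simp; positivity)
    simp only [Function.comp, zero_smul, sub_zero]
    linarith [k2 k, k3 k]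
  choose τ t1 t2 using mv
  obtain ⟨x, hx, s, hs, l⟩ := ((isCompact_closedBall _ _).prod (isCompact_closedBall _ _)).tendsto_subseq hq
  have le : Tendsto (fun k : ℕ => (1 / (k + 1) / 2 : ℝ)) atTop (𝓝 0) := by
    simpa using tendsto_one_div_add_atTop_nhds_zero_nat.div_const (2 : ℝ)
  have l1 := l.prodMk_nhds (le.comp hs.tendsto_atTop)
  have l2 := l.prodMk_nhds ((squeeze_zero (fun k => (t1 k).1.le) (fun k => (t1 k).2.le) le).comp
    hs.tendsto_atTop)
  have a1 : H x.1 x.2 = 0 := le_antisymm (le_of_tendsto' ((hc.tendsto x).comp l) fun k => k2 _) (by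
    simpa [Function.uncurry] using ge_of_tendsto' (((hc.comp (f := fun r : (E n × E n) × ℝ =>
      (r.1.1, r.1.2 - r.2 • (r.1.2 - gradient φ r.1.1))) (by fun_prop)).tendsto _).comp l1)
      fun k => k3 _)
  have a2 : v y - w y ≤ v x.1 - w x.1 := by
    simpa using le_of_tendsto_of_tendsto' (((by fun_prop : Continuous fun r : (E n × E n) × ℝ =>
      (1 - r.2) * v y + r.2 * φ y - w y).tendsto _).comp l1) (((by fun_prop : Continuous
        fun r : (E n × E n) × ℝ => (1 - r.2) * v r.1.1 + r.2 * φ r.1.1 - w r.1.1).tendsto _).comp l1)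
      fun k => k1 _ y
  have a3 : fderiv ℝ (H x.1) x.2 (x.2 - gradient φ x.1) ≤ 0 := by
    simpa using le_of_tendsto' ((((dc.comp (f := fun r : (E n × E n) × ℝ =>
      (r.1.1, r.1.2 - r.2 • (r.1.2 - gradient φ r.1.1))) (by fun_prop)).clm_apply
        (g := fun r => r.1.2 - gradient φ r.1.1) (by fun_prop)).tendsto _).comp l2) fun k => t2 _
  have a4 := f0 ⟨x, ⟨hx.1, mem_closedBall_zero_iff.2 (not_lt.1 fun h => hR _ _ h.le a1)⟩, a1, a2⟩
  rw [hf] at a4
  rw [gs ψ1] at a3
  simp only [map_sub, map_smul, smul_eq_mul] at a3 a4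
  have a5 := mul_le_mul_of_nonneg_left a3 b0.le
  rw [mul_sub, mul_inv_cancel_left₀ b0.ne'] at a5
  nlinarith [h2 _ _ a1, le_max_left a 1]

end Pool.Agent.H94.MU
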