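import Mathlib

set_option autoImplicit false

namespace Pool.Agent.H94.MassDefs

open Set
open scoped Topology

/-- `p` lies in the Frechet superdifferential of `f` at `x`. -/
def SuperDiff (f : ℝ × ℝ → ℝ) (x p : ℝ × ℝ) : Prop :=
  ∀ ε > 0, ∀ᶠ y in 𝓝 x, f y - f x - (p.1 * (y.1 - x.1) + p.2 * (y.2 - x.2))
    ≤ ε * √((y.1 - x.1) ^ 2 + (y.2 - x.2) ^ 2)

/-- `p` lies in the Frechet subdifferential of `f` at `x`. -/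
def SubDiff (f : ℝ × ℝ → ℝ) (x p : ℝ × ℝ) : Prop :=
  ∀ ε > 0, ∀ᶠ y in 𝓝 x, -(ε * √((y.1 - x.1) ^ 2 + (y.2 - x.2) ^ 2))
    ≤ f y - f x - (p.1 * (y.1 - x.1) + p.2 * (y.2 - x.2))

/-- Viscosity subsolution of the mass equation with datum `m₀`; points are `(t, ρ)`. -/
def IsSubsolution (α : ℝ) (m₀ : ℝ → ℝ) (m : ℝ × ℝ → ℝ) : Prop :=
  ContinuousOn m (Ici 0 ×ˢ Ici 0) ∧
  (∀ x p : ℝ × ℝ, 0 < x.1 → 0 < x.2 → SuperDiff m x p → p.1 + (max p.2 0) ^ α * m x ≤ 0) ∧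
  (∀ ρ ≥ 0, m (0, ρ) ≤ m₀ ρ) ∧ ∀ t ≥ 0, m (t, 0) ≤ 0

/-- Viscosity supersolution of the mass equation with datum `m₀`. -/
def IsSupersolution (α : ℝ) (m₀ : ℝ → ℝ) (m : ℝ × ℝ → ℝ) : Prop :=
  ContinuousOn m (Ici 0 ×ˢ Ici 0) ∧
  (∀ x p : ℝ × ℝ, 0 < x.1 → 0 < x.2 → SubDiff m x p → 0 ≤ p.1 + (max p.2 0) ^ α * m x) ∧
  (∀ ρ ≥ 0, m₀ ρ ≤ m (0, ρ)) ∧ ∀ t ≥ 0, 0 ≤ m (t, 0)

end Pool.Agent.H94.MassDefs
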