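import Pool.Agent.H94.MassDefs

set_option autoImplicit false

namespace Pool.Agent.H94.MassProof

open Set Filter Pool.Agent.H94.MassDefs
open scoped Topology

lemma small {a b : ℝ → ℝ} {x p : ℝ × ℝ} (ha : HasDerivAt a p.1 x.1) (hb : HasDerivAt b p.2 x.2)
    (ε : ℝ) (hε : 0 < ε) : ∀ᶠ y in 𝓝 x,
      |(a y.1 + b y.2) - (a x.1 + b x.2) - (p.1 * (y.1 - x.1) + p.2 * (y.2 - x.2))|
        ≤ ε * √((y.1 - x.1) ^ 2 + (y.2 - x.2) ^ 2) := by
  have h1 := (continuous_fst.tendsto x).eventually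
    (Asymptotics.isLittleO_iff.1 ha.isLittleO (half_pos hε))
  have h2 := (continuous_snd.tendsto x).eventually
    (Asymptotics.isLittleO_iff.1 hb.isLittleO (half_pos hε))
  filter_upwards [h1, h2] with y k1 k2
  simp only [Real.norm_eq_abs, smul_eq_mul] at k1 k2
  have k3 : |y.1 - x.1| ≤ √((y.1 - x.1) ^ 2 + (y.2 - x.2) ^ 2) :=
    Real.abs_le_sqrt (by nlinarith [sq_nonneg (y.2 - x.2)])
  have k4 : |y.2 - x.2| ≤ √((y.1 - x.1) ^ 2 + (y.2 - x.2) ^ 2) :=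
    Real.abs_le_sqrt (by nlinarith [sq_nonneg (y.1 - x.1)])
  rw [abs_le] at k1 k2 ⊢
  constructor <;> nlinarith [k1.1, k1.2, k2.1, k2.2]

lemma superDiff_of_max {f : ℝ × ℝ → ℝ} {a b : ℝ → ℝ} {x p : ℝ × ℝ} (ha : HasDerivAt a p.1 x.1)
    (hb : HasDerivAt b p.2 x.2) (h : ∀ᶠ y in 𝓝 x, f y - (a y.1 + b y.2) ≤ f x - (a x.1 + b x.2)) :
    SuperDiff f x p := by
  intro ε hε
  filter_upwards [small ha hb ε hε, h] with y k1 k2
  linarith [(abs_le.1 k1).2]

lemma subDiff_of_min {f : ℝ × ℝ → ℝ} {a b : ℝ → ℝ} {x p : ℝ × ℝ} (ha : HasDerivAt a p.1 x.1)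
    (hb : HasDerivAt b p.2 x.2) (h : ∀ᶠ y in 𝓝 x, f x - (a x.1 + b x.2) ≤ f y - (a y.1 + b y.2)) :
    SubDiff f x p := by
  intro ε hε
  filter_upwards [small ha hb ε hε, h] with y k1 k2
  linarith [(abs_le.1 k1).1]

lemma core {α : ℝ} (hα : 0 < α) {m₀ : ℝ → ℝ} {u v : ℝ × ℝ → ℝ} (hu : IsSubsolution α m₀ u)
    (hv : IsSupersolution α m₀ v)
    (hpos : ∀ x ∈ Ici (0 : ℝ) ×ˢ Ici (0 : ℝ), ∀ y ∈ Ici (0 : ℝ) ×ˢ Ici (0 : ℝ), v y < u x → 0 ≤ u x)
    (z : ℝ × ℝ) (hz1 : 0 ≤ z.1) (hz2 : 0 ≤ z.2) : u z ≤ v z := by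
  by_contra hlt
  push Not at hlt
  set θ := u z - v z with hθ
  have hθ0 : 0 < θ := by linarith
  let K : Set (ℝ × ℝ) := Icc 0 (z.1 + 1) ×ˢ Icc 0 (z.2 + 1)
  have hK : IsCompact K := isCompact_Icc.prod isCompact_Icc
  have hKs : K ⊆ Ici 0 ×ˢ Ici 0 := fun x hx => ⟨hx.1.1, hx.2.1⟩
  have hzK : z ∈ K := ⟨⟨hz1, by linarith⟩, hz2, by linarith⟩
  have cu := hu.1.mono hKs
  have cv := hv.1.mono hKs
  obtain ⟨B1, hB1⟩ := hK.exists_bound_of_continuousOn cu
  obtain ⟨B2, hB2⟩ := hK.exists_bound_of_continuousOn cv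
  set B := B1 + B2 with hB
  have hB0 : ∀ x ∈ K, ∀ y ∈ K, u x - v y ≤ B := fun x hx y hy => by
    linarith [(abs_le.1 (hB1 x hx)).2, (abs_le.1 (hB2 y hy)).1]
  have hBθ : θ ≤ B := hB0 z hzK z hzK
  obtain ⟨δ1, hδ1, w1⟩ := Metric.uniformContinuousOn_iff.1
    (hK.uniformContinuousOn_of_continuous cu) (θ / 2) (by linarith)
  obtain ⟨δ2, hδ2, w2⟩ := Metric.uniformContinuousOn_iff.1
    (hK.uniformContinuousOn_of_continuous cv) (θ / 2) (by linarith)
  set δ := min (min δ1 δ2) (1 / 2) with hδ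
  have hδ0 : 0 < δ := lt_min (lt_min hδ1 hδ2) (by norm_num)
  set N := 8 * B / θ with hN
  have hN0 : 0 < N := by
    have : 0 < B := by linarith
    positivity
  set M := B / δ ^ 2 with hM
  have hM0 : 0 < M := by
    have : 0 < B := by linarith
    positivity
  let g : ℝ → ℝ → ℝ := fun c s => θ / 4 * Real.exp (N * (s - c))
  have g0 : ∀ c s, 0 < g c s := fun c s => by positivity
  have gbig : ∀ c s, g c s < B → s < c + 1 / 2 := by
    intro c s h
    by_contra h1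
    push Not at h1
    have h2 := Real.add_one_le_exp (N * (s - c))
    have h3 : N * (1 / 2) ≤ N * (s - c) := mul_le_mul_of_nonneg_left (by linarith) hN0.le
    have h4 : θ / 4 * (N * (1 / 2)) = B := by
      rw [hN]
      field_simp
      ring
    have h5 : θ / 4 * (N * (1 / 2)) ≤ θ / 4 * Real.exp (N * (s - c)) :=
      mul_le_mul_of_nonneg_left (by linarith) (by linarith)
    simp only [g] at h
    linarith
  have gd : ∀ c s, HasDerivAt (g c) (N * g c s) s := by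
    intro c s
    have := ((((hasDerivAt_id s).sub_const c).const_mul N).exp).const_mul (θ / 4)
    refine this.congr_deriv ?_
    simp only [g, id]
    ring
  have qd : ∀ c s : ℝ, HasDerivAt (fun s => M * (s - c) ^ 2) (2 * M * (s - c)) s := by
    intro c s
    have := (((hasDerivAt_id s).sub_const c).pow 2).const_mul M
    refine this.congr_deriv ?_
    simp
    ring
  let Φ : (ℝ × ℝ) × (ℝ × ℝ) → ℝ := fun q => u q.1 - v q.2 - g z.1 q.1.1 - g z.2 q.1.2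
    - M * (q.1.1 - q.2.1) ^ 2 - M * (q.1.2 - q.2.2) ^ 2
  have hΦ : ContinuousOn Φ (K ×ˢ K) := by
    have h1 : ContinuousOn (fun q : (ℝ × ℝ) × (ℝ × ℝ) => u q.1) (K ×ˢ K) :=
      cu.comp continuousOn_fst fun q hq => hq.1
    have h2 : ContinuousOn (fun q : (ℝ × ℝ) × (ℝ × ℝ) => v q.2) (K ×ˢ K) :=
      cv.comp continuousOn_snd fun q hq => hq.2
    have h3 : Continuous (fun q : (ℝ × ℝ) × (ℝ × ℝ) => g z.1 q.1.1) := by
      simp only [g]; fun_prop
    have h4 : Continuous (fun q : (ℝ × ℝ) × (ℝ × ℝ) => g z.2 q.1.2) := by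
      simp only [g]; fun_prop
    have h5 : Continuous (fun q : (ℝ × ℝ) × (ℝ × ℝ) => M * (q.1.1 - q.2.1) ^ 2) := by fun_prop
    have h6 : Continuous (fun q : (ℝ × ℝ) × (ℝ × ℝ) => M * (q.1.2 - q.2.2) ^ 2) := by fun_prop
    exact ((((h1.sub h2).sub h3.continuousOn).sub h4.continuousOn).sub h5.continuousOn).sub
      h6.continuousOn
  obtain ⟨⟨x, y⟩, ⟨hx, hy⟩, hmax⟩ := (hK.prod hK).exists_isMaxOn ⟨(z, z), hzK, hzK⟩ hΦ
  have hm : ∀ x' ∈ K, ∀ y' ∈ K, Φ (x', y') ≤ Φ (x, y) := fun x' h1 y' h2 =>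
    hmax (show (x', y') ∈ K ×ˢ K from ⟨h1, h2⟩)
  have h1 := hm z hzK z hzK
  simp only [Φ, g, sub_self, mul_zero, Real.exp_zero, mul_one] at h1
  have h2 : θ / 2 ≤ u x - v y - g z.1 x.1 - g z.2 x.2 - M * (x.1 - y.1) ^ 2
      - M * (x.2 - y.2) ^ 2 := by
    simp only [g]
    linarith
  have h3 := hB0 x hx y hy
  have a1 := g0 z.1 x.1
  have a2 := g0 z.2 x.2
  have a3 : 0 ≤ M * (x.1 - y.1) ^ 2 := by positivity
  have a4 : 0 ≤ M * (x.2 - y.2) ^ 2 := by positivity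
  have close : ∀ s : ℝ, M * s ^ 2 < B → |s| < δ := by
    intro s hs
    apply abs_lt_of_sq_lt_sq _ hδ0.le
    have e : M * δ ^ 2 = B := by
      rw [hM]
      field_simp
    exact lt_of_mul_lt_mul_left (by linarith) hM0.le
  have b1 := close (x.1 - y.1) (by linarith)
  have b2 := close (x.2 - y.2) (by linarith)
  have hd : dist x y < δ := by
    rw [Prod.dist_eq]
    exact max_lt b1 b2
  have c1 := w1 x hx y hy (hd.trans_le ((min_le_left _ _).trans (min_le_left _ _)))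
  have c2 := w2 x hx y hy (hd.trans_le ((min_le_left _ _).trans (min_le_right _ _)))
  rw [Real.dist_eq, abs_lt] at c1 c2
  have bd : ∀ w ∈ K, v w < u w → 0 < w.1 ∧ 0 < w.2 := by
    rintro ⟨s, r⟩ hw hlt
    constructor
    · refine lt_of_le_of_ne hw.1.1 ?_
      rintro (rfl : 0 = s)
      linarith [hu.2.2.1 r hw.2.1, hv.2.2.1 r hw.2.1]
    · refine lt_of_le_of_ne hw.2.1 ?_
      rintro (rfl : 0 = r)
      linarith [hu.2.2.2 s hw.1.1, hv.2.2.2 s hw.1.1]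
  obtain ⟨x1, x2⟩ := bd x hx (by linarith [c2.2])
  obtain ⟨y1, y2⟩ := bd y hy (by linarith [c1.2])
  have x3 := gbig z.1 x.1 (by linarith)
  have x4 := gbig z.2 x.2 (by linarith)
  have hδh : δ ≤ 1 / 2 := min_le_right _ _
  have nx : K ∈ 𝓝 x := prod_mem_nhds (Icc_mem_nhds x1 (by linarith)) (Icc_mem_nhds x2 (by linarith))
  have ny : K ∈ 𝓝 y := prod_mem_nhds (Icc_mem_nhds y1 (by linarith [(abs_lt.1 b1).1]))
    (Icc_mem_nhds y2 (by linarith [(abs_lt.1 b2).1]))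
  have s1 := hu.2.1 x (N * g z.1 x.1 + 2 * M * (x.1 - y.1), N * g z.2 x.2 + 2 * M * (x.2 - y.2))
    x1 x2 (superDiff_of_max ((gd z.1 x.1).fun_add (qd y.1 x.1)) ((gd z.2 x.2).fun_add (qd y.2 x.2))
      (by
        filter_upwards [nx] with w hw
        have := hm w hw y hy
        simp only [Φ] at this
        linarith))
  have s2 := hv.2.1 y (-(2 * M * (y.1 - x.1)), -(2 * M * (y.2 - x.2))) y1 y2
    (subDiff_of_min (qd x.1 y.1).fun_neg (qd x.2 y.2).fun_neg (by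
        filter_upwards [ny] with w hw
        have := hm x hx w hw
        simp only [Φ] at this
        nlinarith))
  simp only at s1 s2
  have hvu : v y < u x := by linarith
  have hu0 := hpos x (hKs hx) y (hKs hy) hvu
  have e1 : max (-(2 * M * (y.2 - x.2))) 0 ^ α ≤ max (N * g z.2 x.2 + 2 * M * (x.2 - y.2)) 0 ^ α :=
    Real.rpow_le_rpow (le_max_right _ _)
      (max_le_max (by nlinarith [mul_pos hN0 a2]) le_rfl) hα.le
  have e2 : 0 ≤ max (-(2 * M * (y.2 - x.2))) 0 ^ α := Real.rpow_nonneg (le_max_right _ _) _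
  have e3 := mul_le_mul_of_nonneg_right e1 hu0
  have e4 := mul_le_mul_of_nonneg_left hvu.le e2
  have e5 := mul_pos hN0 a1
  linarith

theorem comparison {α : ℝ} (hα : 0 < α) {m₀ : ℝ → ℝ} (h₀ : ∀ ρ ≥ 0, 0 ≤ m₀ ρ)
    {u v : ℝ × ℝ → ℝ} (hu : IsSubsolution α m₀ u) (hv : IsSupersolution α m₀ v)
    (t ρ : ℝ) (ht : 0 ≤ t) (hρ : 0 ≤ ρ) : u (t, ρ) ≤ v (t, ρ) := by
  have h0 : IsSubsolution α m₀ fun _ => 0 := by
    refine ⟨continuousOn_const, fun x p _ _ hp => ?_, h₀, fun _ _ => le_rfl⟩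
    rw [mul_zero, add_zero]
    by_contra hlt
    push Not at hlt
    have h1 : Tendsto (fun s : ℝ => ((x.1 - s, x.2) : ℝ × ℝ)) (𝓝[>] 0) (𝓝 x) := by
      have : Continuous fun s : ℝ => ((x.1 - s, x.2) : ℝ × ℝ) := by fun_prop
      simpa using (this.tendsto 0).mono_left nhdsWithin_le_nhds
    obtain ⟨s, k1, k2⟩ := ((h1.eventually (hp (p.1 / 2) (by linarith))).and
      self_mem_nhdsWithin).exists
    have k3 : 0 < s := k2
    simp only [sub_self, sub_sub_cancel_left, mul_zero, add_zero, even_two, Even.neg_pow, ne_eq,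
      OfNat.ofNat_ne_zero, not_false_eq_true, zero_pow, Real.sqrt_sq k3.le] at k1
    nlinarith
  have hv0 := core hα h0 hv (fun _ _ _ _ _ => le_rfl)
  exact core hα hu hv (fun x _ y hy h => (hv0 y hy.1 hy.2).trans h.le) (t, ρ) ht hρ

end Pool.Agent.H94.MassProof
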