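import Mathlib

set_option autoImplicit false
open Filter Topology Polynomial

namespace Pool.Agent.H94.MaxLin

variable {𝕂 : Type} [RCLike 𝕂]

theorem no_hc_fd {V : Type} [AddCommGroup V] [Module 𝕂 V] [TopologicalSpace V]
    [IsTopologicalAddGroup V] [ContinuousSMul 𝕂 V] [T2Space V] [FiniteDimensional 𝕂 V]
    (S : Module.End 𝕂 V) (v : V) (hv : Dense (Set.range fun n : ℕ => (S ^ n) v)) :
    Subsingleton V := by
  classical
  by_contra hns
  rw [not_subsingleton_iff_nontrivial] at hns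
  let W : Submodule 𝕂 V := LinearMap.range
    ((LinearMap.applyₗ v).comp (Polynomial.aeval (R := 𝕂) S).toLinearMap)
  have hW : W = ⊤ := by
    have h1 : IsClosed (W : Set V) := W.closed_of_finiteDimensional
    have h2 : Set.range (fun n : ℕ => (S ^ n) v) ⊆ W := by
      rintro _ ⟨n, rfl⟩
      exact ⟨X ^ n, by simp⟩
    rw [eq_top_iff]
    intro y _
    exact closure_minimal h2 h1 (hv y)
  let b := Module.finBasis 𝕂 V
  have hp : ∀ i, ∃ p : 𝕂[X], aeval S p v = b i := by
    intro i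
    have : b i ∈ W := hW ▸ Submodule.mem_top
    obtain ⟨p, hp⟩ := this
    exact ⟨p, by simpa using hp⟩
  choose p hp using hp
  let D : V → 𝕂 := fun w => b.det (fun i => aeval S (p i) w)
  have hDc : Continuous D := by
    simp only [D, Module.Basis.det_apply]
    apply Continuous.matrix_det
    refine continuous_pi fun i => continuous_pi fun j => ?_
    simp only [Module.Basis.toMatrix_apply]
    exact ((b.coord i).comp (aeval S (p j))).continuous_of_finiteDimensional
  have hDS : ∀ (n : ℕ), D ((S ^ n) v) = (LinearMap.det S) ^ n := by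
    intro n
    have : (fun i => aeval S (p i) ((S ^ n) v)) = (S ^ n) ∘ b := by
      funext i
      simp only [Function.comp, ← hp i]
      have hc : aeval S (p i) * S ^ n = S ^ n * aeval S (p i) := by
        rw [← aeval_X_pow (R := 𝕂) S, ← map_mul, ← map_mul, mul_comm]
      exact LinearMap.congr_fun hc v
    simp only [D]
    rw [this, Module.Basis.det_comp, Module.Basis.det_self, mul_one, map_pow]
  have hDt : ∀ t : 𝕂, D (t • v) = t ^ Module.finrank 𝕂 V := by
    intro t
    have : (fun i => aeval S (p i) (t • v)) = (t • (LinearMap.id : V →ₗ[𝕂] V)) ∘ b := by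
      funext i
      simp [hp i]
    simp only [D]
    rw [this, Module.Basis.det_comp, Module.Basis.det_self, mul_one, LinearMap.det_smul]
    simp
  have hd : Module.finrank 𝕂 V ≠ 0 := Module.finrank_pos.ne'
  rcases le_total ‖LinearMap.det S‖ 1 with h | h
  · have hcl : IsClosed {w | ‖D w‖ ≤ 1} := isClosed_le hDc.norm continuous_const
    have : (2 : 𝕂) • v ∈ {w | ‖D w‖ ≤ 1} := by
      refine closure_minimal ?_ hcl (hv _)
      rintro _ ⟨n, rfl⟩
      simp only [Set.mem_ofPred_eq, hDS, norm_pow]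
      exact pow_le_one₀ (norm_nonneg _) h
    simp only [Set.mem_ofPred_eq, hDt, norm_pow, RCLike.norm_two] at this
    have h2 : (1 : ℝ) < 2 ^ Module.finrank 𝕂 V := one_lt_pow₀ (by norm_num) hd
    linarith
  · have hcl : IsClosed {w | 1 ≤ ‖D w‖} := isClosed_le continuous_const hDc.norm
    have : (0 : 𝕂) • v ∈ {w | 1 ≤ ‖D w‖} := by
      refine closure_minimal ?_ hcl (hv _)
      rintro _ ⟨n, rfl⟩
      simp only [Set.mem_ofPred_eq, hDS, norm_pow]
      exact one_le_pow₀ h
    simp only [Set.mem_ofPred_eq, hDt, norm_pow, norm_zero, zero_pow hd] at this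
    linarith

section
variable {E : Type} [AddCommGroup E] [Module 𝕂 E] [TopologicalSpace E]
  [IsTopologicalAddGroup E] [ContinuousSMul 𝕂 E]

theorem cont_aeval (T : Module.End 𝕂 E) (hT : Continuous T) (p : 𝕂[X]) :
    Continuous (aeval T p) := by
  have hpow : ∀ n : ℕ, Continuous (T ^ n : Module.End 𝕂 E) := by
    intro n
    rw [Module.End.coe_pow]
    exact hT.iterate n
  rw [aeval_eq_sum_range]
  have : ⇑(∑ i ∈ Finset.range (p.natDegree + 1), p.coeff i • T ^ i) =
      fun y => ∑ i ∈ Finset.range (p.natDegree + 1), p.coeff i • (T ^ i) y := by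
    funext y; simp [LinearMap.sum_apply]
  rw [this]
  exact continuous_finset_sum _ fun i _ => (hpow i).const_smul _

theorem dense_range_aeval (T : Module.End 𝕂 E) (hT : Continuous T) (x : E)
    (hx : Dense (Set.range fun n : ℕ => (T ^ n) x)) (p : 𝕂[X]) (hp : p ≠ 0) :
    DenseRange (aeval T p) := by
  let L : Submodule 𝕂 E := (LinearMap.range (aeval T p)).topologicalClosure
  haveI : IsClosed (L : Set E) := Submodule.isClosed_topologicalClosure _
  have hL : L ≤ L.comap T := by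
    intro y hy
    have hcl : IsClosed (T ⁻¹' (L : Set E)) := IsClosed.preimage hT ‹_›
    refine closure_minimal (s := (LinearMap.range (aeval T p) : Set E)) ?_ hcl hy
    rintro _ ⟨z, rfl⟩
    apply Submodule.le_topologicalClosure
    refine ⟨T z, ?_⟩
    have hc : aeval T p * T = T * aeval T p := by
      conv_lhs => rw [← aeval_X (R := 𝕂) T]
      conv_rhs => rw [← aeval_X (R := 𝕂) T]
      simp only [aeval_X, ← map_mul]
      nth_rewrite 2 [← aeval_X (R := 𝕂) T]
      nth_rewrite 3 [← aeval_X (R := 𝕂) T]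
      rw [← map_mul, ← map_mul, mul_comm]
    exact LinearMap.congr_fun hc z
  let S : Module.End 𝕂 (E ⧸ L) := L.mapQ L T hL
  have hS : ∀ (n : ℕ) (y : E), (S ^ n) (L.mkQ y) = L.mkQ ((T ^ n) y) := by
    intro n
    induction n with
    | zero => intro y; simp
    | succ n ih =>
      intro y
      rw [pow_succ', pow_succ', Module.End.mul_apply, Module.End.mul_apply, ih]
      simp [S]
  have hd : Dense (Set.range fun n : ℕ => (S ^ n) (L.mkQ x)) := by
    have h1 : DenseRange L.mkQ := (L.mkQ_surjective).denseRange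
    have h2 := h1.dense_image L.continuous_mkQ hx
    rw [← Set.range_comp] at h2
    convert h2 using 2
    funext n
    exact hS n x
  have hfd : FiniteDimensional 𝕂 (E ⧸ L) := by
    let W : Submodule 𝕂 (E ⧸ L) := Submodule.span 𝕂
      (Set.range fun i : Fin (p.natDegree + 1) => L.mkQ ((T ^ (i : ℕ)) x))
    haveI : FiniteDimensional 𝕂 W := FiniteDimensional.span_of_finite 𝕂 (Set.finite_range _)
    have hW : W = ⊤ := by
      have h1 : IsClosed (W : Set (E ⧸ L)) := W.closed_of_finiteDimensional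
      have h2 : Set.range (fun n : ℕ => (S ^ n) (L.mkQ x)) ⊆ W := by
        rintro _ ⟨n, rfl⟩
        simp only [hS]
        have e1 : (X ^ n : 𝕂[X]) = p * (X ^ n / p) + X ^ n % p :=
          (EuclideanDomain.div_add_mod _ _).symm
        have e2 : (T ^ n) x = aeval T p (aeval T (X ^ n / p) x) + aeval T (X ^ n % p) x := by
          rw [← aeval_X_pow (R := 𝕂) T]
          conv_lhs => rw [e1]
          simp
        have e3 : L.mkQ (aeval T p (aeval T (X ^ n / p) x)) = 0 := by
          rw [Submodule.mkQ_apply, Submodule.Quotient.mk_eq_zero]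
          exact Submodule.le_topologicalClosure _ ⟨_, rfl⟩
        have e4 : (X ^ n % p).natDegree < p.natDegree + 1 :=
          Nat.lt_succ_of_le (natDegree_le_natDegree (degree_mod_lt _ hp).le)
        rw [e2, map_add, e3, zero_add, aeval_eq_sum_range' e4, LinearMap.sum_apply, map_sum]
        refine Submodule.sum_mem _ fun i hi => ?_
        rw [LinearMap.smul_apply, map_smul]
        exact Submodule.smul_mem _ _ (Submodule.subset_span ⟨⟨i, Finset.mem_range.mp hi⟩, rfl⟩)
      rw [eq_top_iff]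
      intro y _
      exact closure_minimal h2 h1 (hd y)
    exact Module.Finite.of_surjective W.subtype (fun y => ⟨⟨y, hW ▸ Submodule.mem_top⟩, rfl⟩)
  have hsub := no_hc_fd S _ hd
  intro y
  have : L.mkQ y = 0 := Subsingleton.elim _ _
  rw [Submodule.mkQ_apply, Submodule.Quotient.mk_eq_zero] at this
  exact this

theorem hc_aeval (T : Module.End 𝕂 E) (hT : Continuous T) (x : E)
    (hx : Dense (Set.range fun n : ℕ => (T ^ n) x)) (p : 𝕂[X]) (hp : p ≠ 0) :
    Dense (Set.range fun n : ℕ => (T ^ n) (aeval T p x)) := by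
  have h2 := (dense_range_aeval T hT x hx p hp).dense_image (cont_aeval T hT p) hx
  rw [← Set.range_comp] at h2
  convert h2 using 2
  funext n
  have hc : T ^ n * aeval T p = aeval T p * T ^ n := by
    rw [← aeval_X_pow (R := 𝕂) T, ← map_mul, ← map_mul, mul_comm]
  exact LinearMap.congr_fun hc x

theorem hc_sum (T : Module.End 𝕂 E) (hT : Continuous T) (x : E)
    (hx : Dense (Set.range fun n : ℕ => (T ^ n) x)) (c : ℕ → 𝕂) (k i : ℕ) (hi : i < k)
    (hc : c i ≠ 0) :
    Dense (Set.range fun n : ℕ => (T ^ n) (∑ j ∈ Finset.range k, c j • (T ^ j) x)) := by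
  have h := hc_aeval T hT x hx (∑ j ∈ Finset.range k, monomial j (c j)) (by
    intro h
    have := congrArg (fun q : 𝕂[X] => q.coeff i) h
    simp [finset_sum_coeff, coeff_monomial, hi] at this
    exact hc this)
  convert h using 4
  simp [map_sum, aeval_monomial, Algebra.algebraMap_eq_smul_one, LinearMap.sum_apply]

theorem step (T : Module.End 𝕂 E) (hT : Continuous T) (x : E)
    (hx : Dense (Set.range fun n : ℕ => (T ^ n) x)) (U : ℕ → Set E)
    (hU : ∀ j, IsOpen (U j) ∧ (U j).Nonempty) (k : ℕ) (B : Set E) (hB : B ∈ 𝓝 (0 : E))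
    (e : ℕ → 𝕂) (he : ∀ i, e i ≠ 0) (V : Set E) (hV : V ∈ 𝓝 (0 : E)) :
    ∃ (e' : ℕ → 𝕂) (V' : Set E), (∀ i, e' i ≠ 0) ∧ V' ∈ 𝓝 (0 : E) ∧ (∀ i, i ≠ k → e' i = e i) ∧
      IsClosed V' ∧ V' ⊆ B ∧
      (∀ a : 𝕂, ‖a‖ ≤ 1 → ∀ z ∈ V', (a * e' k) • (T ^ k) x + z ∈ V) ∧
      (∀ j ≤ k, ∀ a : ℕ → 𝕂, (∀ i, ‖a i‖ ≤ 1) → (∃ i ≤ k, 1 / ((k : ℝ) + 1) ≤ ‖a i‖) →
        ∀ z ∈ V', ∃ n : ℕ,
          (T ^ n) (∑ i ∈ Finset.range (k + 1), (a i * e' i) • (T ^ i) x + z) ∈ U j) := by
  classical
  have hpow : ∀ n : ℕ, Continuous (T ^ n : Module.End 𝕂 E) := by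
    intro n
    rw [Module.End.coe_pow]
    exact hT.iterate n
  obtain ⟨V1, hV1, hV1a⟩ := exists_nhds_zero_half hV
  have h1 : ∀ᶠ ε in 𝓝 (0 : 𝕂), ∀ a ∈ Metric.closedBall (0 : 𝕂) 1, (a * ε) • (T ^ k) x ∈ V1 := by
    apply (isCompact_closedBall (0 : 𝕂) 1).eventually_forall_of_forall_eventually
    intro a _
    have hc : Continuous fun z : 𝕂 × 𝕂 => (z.2 * z.1) • (T ^ k) x := by fun_prop
    have := hc.tendsto (0, a)
    simp only [mul_zero, zero_smul] at this
    exact this hV1
  obtain ⟨ε, hε1, hε0⟩ := ((h1.filter_mono (nhdsWithin_le_nhds (s := {0}ᶜ))).and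
    self_mem_nhdsWithin).exists
  let e' := Function.update e k ε
  have he' : ∀ i, e' i ≠ 0 := by
    intro i
    by_cases h : i = k
    · subst h; simpa [e'] using hε0
    · simpa [e', h] using he i
  let A : Set (ℕ → 𝕂) := (Set.univ.pi fun _ => Metric.closedBall (0 : 𝕂) 1) ∩
    ⋃ i ∈ Set.Iic k, {a | 1 / ((k : ℝ) + 1) ≤ ‖a i‖}
  have hA : IsCompact A := by
    refine (isCompact_univ_pi fun _ => isCompact_closedBall _ _).inter_right ?_
    refine (Set.finite_Iic k).isClosed_biUnion fun i _ => ?_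
    exact isClosed_le continuous_const (continuous_apply i).norm
  have h2 : ∀ j, ∀ᶠ z in 𝓝 (0 : E), ∀ a ∈ A, ∃ n : ℕ,
      (T ^ n) (∑ i ∈ Finset.range (k + 1), (a i * e' i) • (T ^ i) x + z) ∈ U j := by
    intro j
    apply hA.eventually_forall_of_forall_eventually
    intro a ha
    obtain ⟨-, ha2⟩ := ha
    simp only [Set.mem_iUnion, Set.mem_Iic, Set.mem_ofPred_eq] at ha2
    obtain ⟨i, hi, hai⟩ := ha2
    have hai0 : a i ≠ 0 := by
      intro h
      rw [h, norm_zero] at hai
      have : 0 < 1 / ((k : ℝ) + 1) := by positivity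
      linarith
    have hd := hc_sum T hT x hx (fun i => a i * e' i) (k + 1) i (by omega)
      (mul_ne_zero hai0 (he' i))
    obtain ⟨_, ⟨n, rfl⟩, hn⟩ := hd.exists_mem_open (hU j).1 (hU j).2
    have hc : Continuous fun z : E × (ℕ → 𝕂) =>
        (T ^ n) (∑ i ∈ Finset.range (k + 1), (z.2 i * e' i) • (T ^ i) x + z.1) := by
      apply (hpow n).comp
      fun_prop
    have := hc.tendsto (0, a)
    simp only [add_zero] at this
    filter_upwards [this ((hU j).1.mem_nhds hn)] with z hz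
    exact ⟨n, hz⟩
  have h3 := (eventually_all_finite (Set.finite_Iic k)).mpr (fun j _ => h2 j)
  obtain ⟨V', hV'1, hV'2, hV'3⟩ := exists_mem_nhds_isClosed_subset
    (inter_mem hB (inter_mem hV1 h3))
  refine ⟨e', V', he', hV'1, fun i hi => by simp [e', hi], hV'2, fun z hz => (hV'3 hz).1, ?_, ?_⟩
  · intro a ha z hz
    apply hV1a _ _ _ (hV'3 hz).2.1
    have : e' k = ε := by simp [e']
    rw [this]
    exact hε1 a (by simpa using ha)
  · intro j hj a ha hi z hz
    refine (hV'3 hz).2.2 j hj a ⟨fun i _ => by simpa using ha i, ?_⟩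
    obtain ⟨i, hi1, hi2⟩ := hi
    simp only [Set.mem_iUnion, Set.mem_Iic, Set.mem_ofPred_eq]
    exact ⟨i, hi1, hi2⟩

theorem seq (T : Module.End 𝕂 E) (hT : Continuous T) (x : E)
    (hx : Dense (Set.range fun n : ℕ => (T ^ n) x)) (U : ℕ → Set E)
    (hU : ∀ j, IsOpen (U j) ∧ (U j).Nonempty) (B : ℕ → Set E) (hB : ∀ k, B k ∈ 𝓝 (0 : E)) :
    ∃ (e : ℕ → 𝕂) (V : ℕ → Set E), (∀ i, e i ≠ 0) ∧ (∀ k, V k ∈ 𝓝 (0 : E)) ∧
      (∀ k, IsClosed (V (k + 1))) ∧ (∀ k, V (k + 1) ⊆ B k) ∧
      (∀ k, ∀ a : 𝕂, ‖a‖ ≤ 1 → ∀ z ∈ V (k + 1), (a * e k) • (T ^ k) x + z ∈ V k) ∧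
      (∀ k : ℕ, ∀ j ≤ k, ∀ a : ℕ → 𝕂, (∀ i, ‖a i‖ ≤ 1) → (∃ i ≤ k, 1 / ((k : ℝ) + 1) ≤ ‖a i‖) →
        ∀ z ∈ V (k + 1), ∃ n : ℕ,
          (T ^ n) (∑ i ∈ Finset.range (k + 1), (a i * e i) • (T ^ i) x + z) ∈ U j) := by
  let St := {s : (ℕ → 𝕂) × Set E // (∀ i, s.1 i ≠ 0) ∧ s.2 ∈ 𝓝 (0 : E)}
  have key := fun (k : ℕ) (s : St) => step T hT x hx U hU k (B k) (hB k) s.1.1 s.2.1 s.1.2 s.2.2
  choose e' V' h1 h2 h3 h4 h5 h6 h7 using key
  obtain ⟨s, hs⟩ : ∃ s : ℕ → St, ∀ k, s (k + 1) = ⟨(e' k (s k), V' k (s k)), h1 _ _, h2 _ _⟩ :=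
    ⟨fun n => Nat.rec ⟨(fun _ => 1, Set.univ), fun _ => one_ne_zero, univ_mem⟩
      (fun k sk => ⟨(e' k sk, V' k sk), h1 _ _, h2 _ _⟩) n, fun _ => rfl⟩
  have hs1 : ∀ k, (s (k + 1)).1.1 = e' k (s k) := fun k => by rw [hs]
  have hs2 : ∀ k, (s (k + 1)).1.2 = V' k (s k) := fun k => by rw [hs]
  have hst : ∀ k i, i ≤ k → e' k (s k) i = e' i (s i) i := by
    intro k
    induction k with
    | zero => intro i hi; rw [Nat.le_zero.mp hi]
    | succ k ih =>
      intro i hi
      rcases Nat.lt_or_eq_of_le hi with h | h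
      · rw [h3 _ _ i h.ne, hs1, ih i (by omega)]
      · rw [h]
  refine ⟨fun i => e' i (s i) i, fun k => (s k).1.2, fun i => h1 _ _ _, fun k => (s k).2.2,
    fun k => ?_, fun k => ?_, fun k => ?_, fun k j hj a ha hi z hz => ?_⟩
  · simp only [hs2]; exact h4 _ _
  · simp only [hs2]; exact h5 _ _
  · simp only [hs2]; exact h6 _ _
  · simp only [hs2] at hz
    obtain ⟨n, hn⟩ := h7 k (s k) j hj a ha hi z hz
    refine ⟨n, ?_⟩
    convert hn using 3
    refine Finset.sum_congr rfl fun i hi => ?_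
    rw [hst k i (Nat.lt_succ_iff.mp (Finset.mem_range.mp hi))]

end

theorem main {E : Type} [AddCommGroup E] [Module 𝕂 E] [UniformSpace E]
    [IsUniformAddGroup E] [CompleteSpace E] [ContinuousSMul 𝕂 E]
    [TopologicalSpace.MetrizableSpace E] (T : Module.End 𝕂 E) (hT : Continuous T) (x : E)
    (hx : Dense (Set.range fun n : ℕ => (T ^ n) x)) :
    ∃ M : Submodule 𝕂 E, Dense (M : Set E) ∧
      (∀ y ∈ M, y ≠ 0 → Dense (Set.range fun n : ℕ => (T ^ n) y)) ∧
      Module.rank 𝕂 M = Module.rank 𝕂 E := by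
  classical
  rcases subsingleton_or_nontrivial E with hE | hE
  · exact ⟨⊤, by simp, fun y _ hy => absurd (Subsingleton.elim _ _) hy, rank_top 𝕂 E⟩
  haveI : (uniformity E).IsCountablyGenerated := IsUniformAddGroup.uniformity_countably_generated
  haveI : TopologicalSpace.SeparableSpace E := ⟨_, Set.countable_range _, hx⟩
  haveI : SecondCountableTopology E := UniformSpace.secondCountable_of_separable E
  obtain ⟨b, hbc, hbne, hb⟩ := TopologicalSpace.exists_countable_basis E
  have hbn : b.Nonempty := by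
    obtain ⟨o, ho, -⟩ := hb.exists_subset_of_mem_open (Set.mem_univ (0 : E)) isOpen_univ
    exact ⟨o, ho⟩
  obtain ⟨U, hU⟩ := hbc.exists_eq_range hbn
  have hUo : ∀ j, IsOpen (U j) ∧ (U j).Nonempty := by
    intro j
    have : U j ∈ b := hU ▸ Set.mem_range_self j
    exact ⟨hb.isOpen this, Set.nonempty_iff_ne_empty.mpr fun h => hbne (h ▸ this)⟩
  obtain ⟨B, hB⟩ := (𝓝 (0 : E)).exists_antitone_basis
  obtain ⟨e, V, he, hV, hVc, hVB, hVa, hVU⟩ := seq T hT x hx U hUo B (fun k => hB.mem k)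
  let P : (ℕ → 𝕂) → ℕ → E := fun a N => ∑ i ∈ Finset.range N, (a i * e i) • (T ^ i) x
  have htail : ∀ a : ℕ → 𝕂, (∀ i, ‖a i‖ ≤ 1) → ∀ d k, P a (k + d) - P a k ∈ V k := by
    intro a ha d
    induction d with
    | zero => intro k; simpa using mem_of_mem_nhds (hV k)
    | succ d ih =>
      intro k
      have h1 := hVa k (a k) (ha k) _ (ih (k + 1))
      have : P a (k + (d + 1)) - P a k =
          (a k * e k) • (T ^ k) x + (P a (k + 1 + d) - P a (k + 1)) := by
        have e1 : k + (d + 1) = k + 1 + d := by ring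
        have e2 : P a (k + 1) = P a k + (a k * e k) • (T ^ k) x := by
          simp only [P, Finset.sum_range_succ]
        rw [e1, e2]; abel
      rwa [this]
  have hlim : ∀ a : ℕ → 𝕂, (∀ i, ‖a i‖ ≤ 1) → ∃ v, Tendsto (P a) atTop (𝓝 v) := by
    intro a ha
    apply cauchySeq_tendsto_of_complete
    rw [hB.toHasBasis.uniformity_of_nhds_zero_swapped.cauchySeq_iff']
    intro k _
    refine ⟨k + 1, fun n hn => ?_⟩
    obtain ⟨d, rfl⟩ := Nat.exists_eq_add_of_le hn
    exact hVB k (htail a ha d (k + 1))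
  have hhc1 : ∀ a : ℕ → 𝕂, (∀ i, ‖a i‖ ≤ 1) → a ≠ 0 → ∀ v, Tendsto (P a) atTop (𝓝 v) →
      Dense (Set.range fun n : ℕ => (T ^ n) v) := by
    intro a ha ha0 v hv
    rw [hb.dense_iff]
    intro o ho _
    rw [hU] at ho
    obtain ⟨j, rfl⟩ := ho
    obtain ⟨i, hi⟩ := Function.ne_iff.mp ha0
    have hi' : 0 < ‖a i‖ := norm_pos_iff.mpr hi
    obtain ⟨m, hm⟩ := exists_nat_one_div_lt hi'
    obtain ⟨k, hk⟩ : ∃ k, k = i + j + m := ⟨_, rfl⟩
    have hz : v - P a (k + 1) ∈ V (k + 1) := by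
      refine (hVc k).mem_of_tendsto (hv.sub_const _) ?_
      filter_upwards [eventually_ge_atTop (k + 1)] with n hn
      obtain ⟨d, rfl⟩ := Nat.exists_eq_add_of_le hn
      exact htail a ha d (k + 1)
    obtain ⟨n, hn⟩ := hVU k j (by omega) a ha ⟨i, by omega, by
      refine le_trans ?_ hm.le
      apply one_div_le_one_div_of_le (by positivity)
      have : (m : ℝ) ≤ k := by exact_mod_cast (by omega : m ≤ k)
      linarith⟩ _ hz
    refine ⟨_, hn, n, ?_⟩
    simp [P]
  have hPs : ∀ (c : 𝕂) (a : ℕ → 𝕂) (N : ℕ), P (c • a) N = c • P a N := by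
    intro c a N
    simp only [P, Finset.smul_sum, Pi.smul_apply, smul_eq_mul, smul_smul, mul_assoc]
  have hPa : ∀ (a a' : ℕ → 𝕂) (N : ℕ), P (a + a') N = P a N + P a' N := by
    intro a a' N
    simp only [P, Pi.add_apply, add_mul, add_smul, Finset.sum_add_distrib]
  have hhc : ∀ (a : ℕ → 𝕂) (C : ℝ), (∀ i, ‖a i‖ ≤ C) → a ≠ 0 → ∀ v, Tendsto (P a) atTop (𝓝 v) →
      Dense (Set.range fun n : ℕ => (T ^ n) v) := by
    intro a C ha ha0 v hv
    obtain ⟨i, hi⟩ := Function.ne_iff.mp ha0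
    have hC : 0 < C := lt_of_lt_of_le (norm_pos_iff.mpr hi) (ha i)
    have hC' : (C : 𝕂) ≠ 0 := by exact_mod_cast hC.ne'
    have h1 := hhc1 ((C : 𝕂)⁻¹ • a) (fun i => by
      rw [Pi.smul_apply, norm_smul, norm_inv, RCLike.norm_ofReal, abs_of_pos hC,
        inv_mul_le_iff₀ hC, mul_one]
      exact ha i) (smul_ne_zero (inv_ne_zero hC') ha0) ((C : 𝕂)⁻¹ • v) (by
        have := hv.const_smul (C : 𝕂)⁻¹
        exact this.congr fun N => (hPs _ _ _).symm)
    have h2 : DenseRange fun y : E => (C : 𝕂) • y :=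
      Function.Surjective.denseRange fun y => ⟨(C : 𝕂)⁻¹ • y, by simp [smul_smul, hC']⟩
    have h3 := h2.dense_image (continuous_const_smul _) h1
    rw [← Set.range_comp] at h3
    convert h3 using 2
    funext n
    simp [smul_smul, hC']
  let M : Submodule 𝕂 E :=
    { carrier := {v | ∃ (a : ℕ → 𝕂) (C : ℝ), (∀ i, ‖a i‖ ≤ C) ∧ Tendsto (P a) atTop (𝓝 v)}
      add_mem' := by
        rintro v w ⟨a, C, ha, hv⟩ ⟨a', C', ha', hw⟩
        exact ⟨a + a', C + C', fun i => (norm_add_le _ _).trans (add_le_add (ha i) (ha' i)),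
          (hv.add hw).congr fun N => (hPa _ _ _).symm⟩
      zero_mem' := ⟨0, 0, by simp, by
        have : P 0 = fun _ => 0 := by funext N; simp [P]
        rw [this]; exact tendsto_const_nhds⟩
      smul_mem' := by
        rintro c v ⟨a, C, ha, hv⟩
        exact ⟨c • a, ‖c‖ * C, fun i => by
          rw [Pi.smul_apply, norm_smul]
          exact mul_le_mul_of_nonneg_left (ha i) (norm_nonneg _),
          (hv.const_smul c).congr fun N => (hPs _ _ _).symm⟩ }
  have hz : ¬ Dense (Set.range fun n : ℕ => (T ^ n) (0 : E)) := by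
    intro h
    obtain ⟨y, hy⟩ := exists_ne (0 : E)
    have h1 : Set.range (fun n : ℕ => (T ^ n) (0 : E)) ⊆ {0} := by
      rintro _ ⟨n, rfl⟩; simp
    exact hy (closure_minimal h1 isClosed_singleton (h y))
  refine ⟨M, ?_, ?_, ?_⟩
  · refine hx.mono ?_
    rintro _ ⟨n, rfl⟩
    refine ⟨Pi.single n (e n)⁻¹, ‖(e n)⁻¹‖, fun i => ?_, ?_⟩
    · by_cases h : i = n
      · subst h; simp
      · simp [h]
    · apply tendsto_const_nhds.congr'
      filter_upwards [eventually_gt_atTop n] with N hN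
      simp only [P]
      rw [Finset.sum_eq_single n]
      · simp [he n]
      · intro i _ hi; simp [hi]
      · intro h; exact absurd (Finset.mem_range.mpr hN) h
  · rintro y ⟨a, C, ha, hy⟩ hy0
    refine hhc a C ha ?_ y hy
    rintro rfl
    have : P 0 = fun _ => 0 := by funext N; simp [P]
    rw [this] at hy
    exact hy0 (tendsto_nhds_unique hy tendsto_const_nhds)
  · apply le_antisymm (Submodule.rank_le M)
    have hcard : Cardinal.mk E ≤ Cardinal.continuum := by
      rw [← Cardinal.mk_set_nat]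
      refine Cardinal.mk_le_of_injective (f := fun y => {j | y ∈ U j}) ?_
      intro y y' h
      apply Inseparable.eq
      rw [hb.inseparable_iff]
      intro s hs
      rw [hU] at hs
      obtain ⟨j, rfl⟩ := hs
      exact Set.ext_iff.mp h j
    refine (rank_le_card 𝕂 E).trans (hcard.trans ?_)
    let g : Set.Ioo (0 : ℝ) 1 → ℕ → 𝕂 := fun t i => ((t : ℝ) : 𝕂) ^ i
    have hg : ∀ t i, ‖g t i‖ ≤ 1 := by
      intro t i
      simp only [g, norm_pow, RCLike.norm_ofReal, abs_of_pos t.2.1]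
      exact pow_le_one₀ t.2.1.le t.2.2.le
    have hgli : LinearIndependent 𝕂 g := by
      have h1 := (linearIndependent_monoidHom (Multiplicative ℕ) 𝕂).comp
        (fun t : Set.Ioo (0 : ℝ) 1 => powersHom 𝕂 ((t : ℝ) : 𝕂)) (by
          intro t s h
          have := (powersHom 𝕂).injective h
          exact Subtype.ext (by exact_mod_cast this))
      exact h1
    choose v hv using fun t => hlim (g t) (hg t)
    let w : Set.Ioo (0 : ℝ) 1 → M := fun t => ⟨v t, g t, 1, hg t, hv t⟩
    have hw : LinearIndependent 𝕂 w := by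
      rw [linearIndependent_iff'] at hgli ⊢
      intro s c hs
      apply hgli s c
      by_contra hne
      apply hz
      refine hhc _ (∑ t ∈ s, ‖c t‖) (fun i => ?_) hne 0 ?_
      · rw [Finset.sum_apply]
        refine (norm_sum_le _ _).trans (Finset.sum_le_sum fun t _ => ?_)
        rw [Pi.smul_apply, norm_smul]
        exact mul_le_of_le_one_right (norm_nonneg _) (hg t i)
      · have h1 : ∑ t ∈ s, c t • v t = 0 := by
          have := congrArg Subtype.val hs
          simpa [w] using this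
        rw [← h1]
        have h2 := tendsto_finset_sum s fun t _ => (hv t).const_smul (c t)
        refine h2.congr fun N => ?_
        simp only [P, Finset.smul_sum, Finset.sum_apply, Pi.smul_apply, smul_eq_mul,
          Finset.sum_mul, Finset.sum_smul, smul_smul, mul_assoc]
        exact Finset.sum_comm
    have := hw.cardinal_le_rank
    rwa [Cardinal.mk_Ioo_real (by norm_num)] at this

end Pool.Agent.H94.MaxLin
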