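import Mathlib

set_option autoImplicit false
open Set Filter Topology MeasureTheory Metric

namespace Pool.Agent.H94.NZ

/-- approximations of the Cantor function -/
noncomputable def gs : ℕ → ℝ → ℝ
  | 0 => fun x => max 0 (min x 1)
  | n + 1 => fun x => (gs n (3 * x) + gs n (3 * x - 2)) / 2

theorem gs_zero (n : ℕ) : ∀ x, x ≤ 0 → gs n x = 0 := by
  induction n with
  | zero => intro x hx; simp [gs, hx]
  | succ n ih => intro x hx; simp only [gs]; rw [ih _ (by linarith), ih _ (by linarith)]; simp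

theorem gs_one (n : ℕ) : ∀ x, 1 ≤ x → gs n x = 1 := by
  induction n with
  | zero => intro x hx; simp [gs, hx]
  | succ n ih => intro x hx; simp only [gs]; rw [ih _ (by linarith), ih _ (by linarith)]; simp

theorem gs_mem (n : ℕ) : ∀ x, 0 ≤ gs n x ∧ gs n x ≤ 1 := by
  induction n with
  | zero => intro x; simp [gs]
  | succ n ih =>
    intro x; simp only [gs]
    constructor <;> linarith [ih (3 * x), ih (3 * x - 2)]

theorem gs_hol (n : ℕ) : ∀ x y, x ≤ y → (gs n y - gs n x) ^ 2 ≤ 3 * (y - x) := by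
  induction n with
  | zero =>
    intro x y h
    have h1 : gs 0 y - gs 0 x ≤ y - x := by
      simp only [gs, max_def, min_def]; split_ifs <;> linarith
    have h2 : 0 ≤ gs 0 y - gs 0 x := by
      simp only [gs, max_def, min_def]; split_ifs <;> linarith
    nlinarith [gs_mem 0 x, gs_mem 0 y]
  | succ n ih =>
    intro x y h
    rcases le_or_gt (1 / 3) (y - x) with h1 | h1
    · nlinarith [gs_mem (n + 1) x, gs_mem (n + 1) y]
    · simp only [gs]
      rcases le_or_gt 1 (3 * x) with h2 | h2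
      · rw [gs_one n _ h2, gs_one n (3 * y) (by linarith)]
        nlinarith [ih (3 * x - 2) (3 * y - 2) (by linarith)]
      · rw [gs_zero n (3 * x - 2) (by linarith), gs_zero n (3 * y - 2) (by linarith)]
        nlinarith [ih (3 * x) (3 * y) (by linarith)]

theorem gs_step (n : ℕ) : ∀ x, |gs n x - gs (n + 1) x| ≤ 1 * (1 / 2) ^ n := by
  induction n with
  | zero => intro x; rw [abs_le]; constructor <;> nlinarith [gs_mem 0 x, gs_mem 1 x]
  | succ n ih =>
    intro x
    have e : gs (n + 1) x - gs (n + 1 + 1) x = ((gs n (3 * x) - gs (n + 1) (3 * x)) +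
        (gs n (3 * x - 2) - gs (n + 1) (3 * x - 2))) / 2 := by
      rw [show gs (n + 1 + 1) x = (gs (n + 1) (3 * x) + gs (n + 1) (3 * x - 2)) / 2 from rfl,
        show gs (n + 1) x = (gs n (3 * x) + gs n (3 * x - 2)) / 2 from rfl]
      ring
    rw [e, pow_succ, abs_le]
    have a := abs_le.1 (ih (3 * x))
    have b := abs_le.1 (ih (3 * x - 2))
    rcases le_or_gt 1 (3 * x) with h2 | h2
    · rw [gs_one n _ h2, gs_one (n + 1) _ h2]
      constructor <;> linarith
    · rw [gs_zero n (3 * x - 2) (by linarith), gs_zero (n + 1) (3 * x - 2) (by linarith)]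
      constructor <;> linarith

theorem exists_g : ∃ g : ℝ → ℝ, g 0 = 0 ∧ g 1 = 1 ∧ (∀ x, 0 ≤ g x ∧ g x ≤ 1) ∧
    (∀ x y, (g y - g x) ^ 2 ≤ 3 * |y - x|) ∧
    volume {x | ¬ ∀ᶠ y in 𝓝 x, g y = g x} = 0 := by
  have h : ∀ x, ∃ a, Tendsto (fun n => gs n x) atTop (𝓝 a) := fun x =>
    cauchySeq_tendsto_of_complete (cauchySeq_of_le_geometric (1 / 2) 1 (by norm_num) fun n => by
      rw [Real.dist_eq]; exact gs_step n x)
  choose g hg using h
  have g0 : ∀ x, x ≤ 0 → g x = 0 := fun x hx =>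
    tendsto_nhds_unique (hg x) (by simp only [gs_zero _ x hx]; exact tendsto_const_nhds)
  have g1 : ∀ x, 1 ≤ x → g x = 1 := fun x hx =>
    tendsto_nhds_unique (hg x) (by simp only [gs_one _ x hx]; exact tendsto_const_nhds)
  have gf : ∀ x, g x = (g (3 * x) + g (3 * x - 2)) / 2 := fun x =>
    tendsto_nhds_unique ((hg x).comp (tendsto_add_atTop_nat 1))
      (((hg (3 * x)).add (hg (3 * x - 2))).div_const 2)
  have gh : ∀ x y, x ≤ y → (g y - g x) ^ 2 ≤ 3 * (y - x) := fun x y h =>
    le_of_tendsto' (((hg y).sub (hg x)).pow 2) fun n => gs_hol n x y h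
  refine ⟨g, g0 0 le_rfl, g1 1 le_rfl, fun x => ⟨ge_of_tendsto' (hg x) fun n => (gs_mem n x).1,
    le_of_tendsto' (hg x) fun n => (gs_mem n x).2⟩, fun x y => ?_, ?_⟩
  · rcases le_total x y with h | h
    · rw [abs_of_nonneg (by linarith)]; exact gh x y h
    · rw [abs_of_nonpos (by linarith)]; nlinarith [gh y x h]
  set C := {x | ¬ ∀ᶠ y in 𝓝 x, g y = g x} with hC
  have h1 : C ⊆ Icc 0 1 := by
    intro x hx
    by_contra h
    rcases not_and_or.1 h with h | h
    · exact hx ((gt_mem_nhds (not_le.1 h)).mono fun y hy => by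
        rw [g0 y hy.le, g0 x (not_le.1 h).le])
    · exact hx ((lt_mem_nhds (not_le.1 h)).mono fun y hy => by
        rw [g1 y hy.le, g1 x (not_le.1 h).le])
  have h2 : C ⊆ (fun x => 3 * x) ⁻¹' C ∪ (fun x => 3 * x) ⁻¹' ((fun x => x - 2) ⁻¹' C) := by
    intro x hx
    by_contra h
    simp only [hC, mem_union, mem_preimage, mem_setOf_eq, not_or, not_not] at h
    have c1 : ContinuousAt (fun y : ℝ => 3 * y) x := by fun_prop
    have c2 : ContinuousAt (fun y : ℝ => 3 * y - 2) x := by fun_prop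
    refine hx ?_
    filter_upwards [c1.tendsto.eventually h.1, c2.tendsto.eventually h.2] with y a b
    rw [gf y, gf x, a, b]
  have h3 : volume C ≠ ⊤ := ((measure_mono h1).trans_lt (by simp)).ne
  have h4 := (measure_mono (μ := volume) h2).trans (measure_union_le _ _)
  have h5 : volume ((fun x : ℝ => x - 2) ⁻¹' C) = volume C := by
    simpa only [sub_eq_add_neg] using measure_preimage_add_right volume (-2 : ℝ) C
  rw [Real.volume_preimage_mul_left (by norm_num), Real.volume_preimage_mul_left (by norm_num),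
    h5] at h4
  clear h5
  lift volume C to NNReal using h3 with v hv
  have e : ENNReal.ofReal |(3 : ℝ)⁻¹| = ((3⁻¹ : NNReal) : ENNReal) := by
    rw [abs_of_pos (by norm_num), ← ENNReal.ofReal_coe_nnreal]; simp
  rw [e] at h4
  have h5 : v ≤ 3⁻¹ * v + 3⁻¹ * v := by exact_mod_cast h4
  have h6 : (v : ℝ) ≤ 3⁻¹ * v + 3⁻¹ * v := by exact_mod_cast h5
  have h7 : (v : ℝ) = 0 := by linarith [v.2, NNReal.coe_nonneg v]
  exact_mod_cast h7

/-- a periodic singular function and the width of the nozzle -/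
structure Dat (c ψ : ℝ → ℝ) : Prop where
  hol : ∀ x y, |c x - c y| ≤ 3 * √|x - y|
  bd : ∀ x, |c x| ≤ 1
  per : ∀ x (k : ℤ), c (x + k) = c x
  c0 : c 0 = 0
  c1 : c (1 / 2) = 1
  lip : LipschitzWith 1 ψ
  pper : ∀ x (k : ℤ), ψ (x + k) = ψ x
  nn : ∀ x, 0 ≤ ψ x
  le : ∀ x, ψ x ≤ 1
  null : volume {x | ψ x = 0} = 0
  key : ∀ x y, |y - x| < ψ x → c y = c x

theorem exists_dat : ∃ c ψ : ℝ → ℝ, Dat c ψ := by
  obtain ⟨g, g0, g1, gm, gh, gn⟩ := exists_g
  let T : ℝ → ℝ := fun s => 2 * |s - round s|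
  have T1 : ∀ x y, T x - T y ≤ 2 * |x - y| := fun x y => by
    have := round_le x (round y)
    have := abs_sub_le x y (round y)
    simp only [T]; linarith
  have T2 : ∀ x y, |T x - T y| ≤ 2 * |x - y| := fun x y =>
    abs_sub_le_iff.2 ⟨T1 x y, by rw [abs_sub_comm]; exact T1 y x⟩
  have Tc : Continuous T := (LipschitzWith.of_dist_le_mul (K := 2) fun x y => by
    simpa [Real.dist_eq] using T2 x y).continuous
  have Tp : ∀ x (k : ℤ), T (x + k) = T x := fun x k => by simp [T]
  let c : ℝ → ℝ := fun s => g (T s)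
  have cp : ∀ x (k : ℤ), c (x + k) = c x := fun x k => by simp only [c, Tp]
  have c0 : c 0 = 0 := by simp [c, T, g0]
  have c1 : c (1 / 2) = 1 := by
    have : T (1 / 2) = 1 := by
      have : round (1 / 2 : ℝ) = 1 := by rw [round_eq]; norm_num
      simp only [T, this]; norm_num [abs_of_neg]
    simp only [c, this, g1]
  set C := {x | ¬ ∀ᶠ y in 𝓝 x, c y = c x} with hC
  have hcl : IsClosed C := by
    rw [← isOpen_compl_iff, isOpen_iff_mem_nhds]
    intro x hx
    have hx : ∀ᶠ y in 𝓝 x, c y = c x := not_not.1 hx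
    filter_upwards [hx.eventually_nhds, hx] with y a b
    exact not_not.2 (a.mono fun z hz => by rw [hz, b])
  have hconst : ∀ s : Set ℝ, IsPreconnected s → (∀ x ∈ s, x ∉ C) → ∀ x ∈ s, ∀ y ∈ s, c x = c y :=
    fun s hs h x hx y hy => hs.induction₂' (fun x y => c x = c y)
      (fun z hz => ((not_not.1 (h z hz)).filter_mono nhdsWithin_le_nhds).mono
        fun w hw => ⟨hw.symm, hw⟩) (fun _ _ _ _ _ _ a b => a.trans b) hx hy
  have hne : C.Nonempty := by
    by_contra h
    have := hconst univ isPreconnected_univ (fun x _ a => h ⟨x, a⟩) 0 trivial (1 / 2) trivial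
    rw [c0, c1] at this
    norm_num at this
  have Cp : ∀ x (k : ℤ), x ∈ C → x + k ∈ C := by
    intro x k hx h
    have c1 : ContinuousAt (fun y : ℝ => y + k) x := by fun_prop
    exact hx ((c1.tendsto.eventually h).mono fun y hy => by rwa [cp, cp] at hy)
  have Ci : ∀ k : ℤ, (fun x : ℝ => x + k) '' C = C := fun k => by
    refine Subset.antisymm ?_ fun x hx => ⟨x + (-k : ℤ), Cp x _ hx, by simp⟩
    rintro _ ⟨x, hx, rfl⟩
    exact Cp x k hx
  refine ⟨c, fun x => infDist x C, fun x y => ?_, fun x => ?_, cp, c0, c1, lipschitz_infDist_pt C,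
    fun x k => ?_, fun x => infDist_nonneg, fun x => ?_, ?_, fun x y h => ?_⟩
  · refine abs_le.2 (abs_le_of_sq_le_sq' ?_ (by positivity))
    rw [mul_pow, Real.sq_sqrt (abs_nonneg _)]
    nlinarith [gh (T y) (T x), T2 x y, abs_nonneg (x - y)]
  · rw [abs_of_nonneg (gm _).1]; exact (gm _).2
  · conv_lhs => rw [← Ci k]
    exact infDist_image (isometry_add_right (k : ℝ))
  · obtain ⟨z, hz⟩ := hne
    refine (infDist_le_dist_of_mem (Cp z (round (x - z)) hz)).trans ?_
    rw [Real.dist_eq, ← sub_sub]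
    linarith [abs_sub_round (x - z)]
  · have e : {x | infDist x C = 0} = C := by
      ext x; exact (hcl.mem_iff_infDist_zero hne).symm
    rw [e]
    have h1 : C ⊆ ⋃ n : ℤ, ((fun u => n + u / 2) '' {x | ¬ ∀ᶠ y in 𝓝 x, g y = g x} ∪
        (fun u => n - u / 2) '' {x | ¬ ∀ᶠ y in 𝓝 x, g y = g x}) := by
      intro x hx
      have h2 : T x ∈ {x | ¬ ∀ᶠ y in 𝓝 x, g y = g x} := fun h =>
        hx (Tc.continuousAt.tendsto.eventually h)
      refine mem_iUnion.2 ⟨round x, ?_⟩
      rcases le_total 0 (x - round x) with h | h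
      · exact Or.inl ⟨_, h2, by simp only [T, abs_of_nonneg h]; ring⟩
      · exact Or.inr ⟨_, h2, by simp only [T, abs_of_nonpos h]; ring⟩
    refine measure_mono_null h1 (measure_iUnion_null fun n => measure_union_null ?_ ?_) <;>
      exact addHaar_image_eq_zero_of_differentiableOn_of_addHaar_eq_zero volume (by fun_prop) gn
  · refine hconst (ball x (infDist x C)) (convex_ball _ _).isPreconnected
      (fun z hz a => ?_) y h x (mem_ball_self (lt_of_le_of_lt (abs_nonneg _) h))
    exact absurd (infDist_le_dist_of_mem (x := x) a) (not_le.2 (mem_ball'.1 hz))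

end Pool.Agent.H94.NZ
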