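import Pool.Agent.H94.NZ1

set_option autoImplicit false
open Set Filter Topology MeasureTheory Metric Real

namespace Pool.Agent.H94.NZ

/-- averages of `c` -/
noncomputable def FF (c : ℝ → ℝ) (s k : ℝ) : ℝ := ∫ u in (0 : ℝ)..1, c (s + k * u)
/-- derivative in the first variable -/
noncomputable def AA (c : ℝ → ℝ) (s k : ℝ) : ℝ := (c (s + k) - c s) / k
/-- derivative in the second variable -/
noncomputable def BB (c : ℝ → ℝ) (s k : ℝ) : ℝ := (c (s + k) - FF c s k) / k
/-- the averaging scale -/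
noncomputable def KK (e y : ℝ) : ℝ := √((sin (π * y) / π) ^ 2 + e ^ 2)
/-- its derivative -/
noncomputable def KD (e y : ℝ) : ℝ := sin (π * y) / π * cos (π * y) / KK e y
/-- the function -/
noncomputable def rr (c : ℝ → ℝ) (e : ℝ) (x : Fin 2 → ℝ) : ℝ := FF c (x 0) (KK e (x 1))
/-- its gradient -/
noncomputable def DD (c : ℝ → ℝ) (e : ℝ) (x : Fin 2 → ℝ) : Fin 2 → ℝ :=
  ![AA c (x 0) (KK e (x 1)), BB c (x 0) (KK e (x 1)) * KD e (x 1)]
/-- the majorant -/
noncomputable def mm (y : ℝ) : ℝ := 3 / √(KK 0 y)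

theorem KK_nonneg (e y : ℝ) : 0 ≤ KK e y := sqrt_nonneg _

theorem KK_zero (y : ℝ) : KK 0 y = |sin (π * y)| / π := by
  unfold KK
  rw [zero_pow two_ne_zero, add_zero, sqrt_sq_eq_abs, abs_div, abs_of_pos pi_pos]

theorem KK_le (e y : ℝ) : KK 0 y ≤ KK e y := sqrt_le_sqrt (by nlinarith [sq_nonneg e])

theorem KK_pos {e : ℝ} (he : e ≠ 0) (y : ℝ) : 0 < KK e y := sqrt_pos.2 (by positivity)

theorem KK_cont : Continuous fun p : ℝ × ℝ => KK p.1 p.2 := by unfold KK; fun_prop

theorem KK_der {e : ℝ} (he : e ≠ 0) (y : ℝ) : HasDerivAt (KK e) (KD e y) y := by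
  have h := (((((hasDerivAt_id' y).const_mul π).sin).div_const π).fun_pow 2).add_const (e ^ 2)
  refine (h.sqrt (by positivity)).congr_deriv ?_
  have := KK_pos he y
  unfold KD
  unfold KK at this ⊢
  simp
  field_simp

theorem KD_le (e y : ℝ) : |KD e y| ≤ 1 := by
  unfold KD
  rw [abs_div, abs_mul, abs_div, abs_of_pos pi_pos, ← KK_zero, abs_of_nonneg (KK_nonneg e y)]
  refine div_le_one_of_le₀ ?_ (KK_nonneg e y)
  nlinarith [abs_cos_le_one (π * y), KK_le e y, KK_nonneg 0 y]

theorem KK_per (y : ℝ) (k : ℤ) : KK 0 (y + k) = KK 0 y := by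
  rw [KK_zero, KK_zero, mul_add, mul_comm π (k : ℝ), sin_add_int_mul_pi, abs_mul]
  simp

theorem KK_le_abs (y : ℝ) : KK 0 y ≤ |y| := by
  rw [KK_zero, div_le_iff₀ pi_pos]
  refine abs_sin_le_abs.trans ?_
  rw [abs_mul, abs_of_pos pi_pos, mul_comm]

theorem KK_ae : ∀ᵐ y : ℝ, 0 < KK 0 y := by
  have h : volume (range ((↑) : ℤ → ℝ)) = 0 := (countable_range _).measure_zero _
  refine measure_mono_null (fun y hy => ?_) h
  have hy : ¬ 0 < KK 0 y := hy
  rw [KK_zero, not_lt, div_nonpos_iff] at hy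
  have h1 : sin (π * y) = 0 := by
    rcases hy with a | a
    · exact absurd a.2 (not_le.2 pi_pos)
    · exact abs_nonpos_iff.1 a.1
  obtain ⟨n, hn⟩ := sin_eq_zero_iff.1 h1
  exact ⟨n, mul_left_cancel₀ pi_pos.ne' (by linarith)⟩

theorem mm_meas : Measurable mm := by unfold mm KK; fun_prop

theorem mm_int (a b : ℝ) : IntervalIntegrable mm volume a b := by
  have hp : Function.Periodic mm 1 := fun y => by
    have := KK_per y 1
    unfold mm
    rw [Int.cast_one] at this
    rw [this]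
  have h1 : IntervalIntegrable mm volume 0 (1 / 2) := by
    refine ((intervalIntegral.intervalIntegrable_rpow' (r := -(1 / 2)) (a := 0) (b := 1 / 2)
      (by norm_num)).const_mul 6).mono_fun' mm_meas.aestronglyMeasurable ?_
    rw [uIoc_of_le (by norm_num)]
    filter_upwards [ae_restrict_mem measurableSet_Ioc] with y hy
    have h2 := mul_abs_le_abs_sin (x := π * y) (by
      rw [abs_of_pos (mul_pos pi_pos hy.1)]; nlinarith [pi_pos, hy.2])
    rw [abs_of_pos (mul_pos pi_pos hy.1)] at h2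
    have h3 : y / 4 ≤ KK 0 y := by
      rw [KK_zero, le_div_iff₀ pi_pos]
      have : 2 / π * (π * y) = 2 * y := by field_simp
      nlinarith [pi_le_four, hy.1]
    have h4 : √y / 2 ≤ √(KK 0 y) := by
      refine le_sqrt_of_sq_le ?_
      rw [div_pow, sq_sqrt hy.1.le]; linarith
    have h5 := sqrt_pos.2 hy.1
    unfold mm
    rw [norm_of_nonneg (by positivity), rpow_neg hy.1.le, ← sqrt_eq_rpow]
    calc 3 / √(KK 0 y) ≤ 3 / (√y / 2) := by gcongr
      _ = _ := by field_simp; norm_num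
  have h2 : IntervalIntegrable mm volume (-(1 / 2)) 0 := by
    have := ((IntervalIntegrable.iff_comp_neg (by simp)).1 h1).symm
    simp only [neg_zero] at this
    convert this using 2 with y
    unfold mm
    rw [KK_zero, KK_zero, mul_neg, sin_neg, abs_neg]
  refine hp.intervalIntegrable (t := -(1 / 2)) one_ne_zero ?_ a b
  rw [show -(1 / 2 : ℝ) + 1 = 1 / 2 by norm_num]
  exact h2.trans h1

theorem mm_box (S : Set ℝ) (hS : volume S < ⊤) (R : ℝ) :
    IntegrableOn (fun p : ℝ × (Fin 2 → ℝ) => mm (p.2 1)) (S ×ˢ closedBall 0 R) := by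
  have h0 : IntegrableOn mm (Icc (-R) R) := by
    rcases le_total (-R) R with h | h
    · exact (intervalIntegrable_iff_integrableOn_Icc_of_le h).1 (mm_int _ _)
    · exact ((intervalIntegrable_iff_integrableOn_Icc_of_le h).1 (mm_int _ _)).mono_set
        fun x hx => ⟨by linarith [hx.1, hx.2], by linarith [hx.1, hx.2]⟩
  have h1 : Integrable (fun x : Fin 2 → ℝ => ∏ i, (![fun _ => 1, mm] : Fin 2 → ℝ → ℝ) i (x i))
      (Measure.pi fun _ => volume.restrict (Icc (-R) R)) := by
    refine Integrable.fintype_prod fun i => ?_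
    fin_cases i
    · simp
    · exact h0
  rw [← Measure.restrict_pi_pi, ← volume_pi] at h1
  have h2 : IntegrableOn (fun x : Fin 2 → ℝ => mm (x 1)) (closedBall 0 R) := by
    refine IntegrableOn.mono_set (t := univ.pi fun _ => Icc (-R) R)
      (by unfold IntegrableOn; simpa using h1) ?_
    intro x hx i _
    exact abs_le.1 ((norm_le_pi_norm x i).trans (mem_closedBall_zero_iff.1 hx))
  have : IsFiniteMeasure (volume.restrict S) := ⟨by simpa using hS⟩
  have h3 := (integrable_const (μ := volume.restrict S) (1 : ℝ)).mul_prod h2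
  rw [Measure.prod_restrict] at h3
  simp only [one_mul] at h3
  exact h3

theorem mm_loc : LocallyIntegrable (fun p : ℝ × (Fin 2 → ℝ) => mm (p.2 1)) := by
  intro p
  refine ⟨_, ?_, mm_box (Ioo (p.1 - 1) (p.1 + 1)) (by simp) (‖p.2‖ + 1)⟩
  refine prod_mem_nhds (Ioo_mem_nhds (by linarith) (by linarith)) ?_
  exact mem_of_superset (isOpen_ball.mem_nhds (by simp)) ball_subset_closedBall

theorem KK_ae' : ∀ᵐ p : ℝ × (Fin 2 → ℝ), 0 < KK 0 (p.2 1) :=
  ((Measure.quasiMeasurePreserving_eval (fun _ : Fin 2 => (volume : Measure ℝ)) 1).comp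
    Measure.quasiMeasurePreserving_snd).ae KK_ae

theorem haar : (volume : Measure (ℝ × (Fin 2 → ℝ))).IsAddHaarMeasure :=
  Measure.prod.instIsAddHaarMeasure volume volume

namespace Dat
variable {c ψ : ℝ → ℝ}

theorem cont (D : Dat c ψ) : Continuous c := by
  refine continuous_iff_continuousAt.2 fun x => tendsto_iff_dist_tendsto_zero.2 ?_
  refine squeeze_zero (fun _ => dist_nonneg) (fun y => D.hol y x) ?_
  have : Continuous fun y : ℝ => 3 * √|y - x| := by fun_prop
  simpa using this.tendsto x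

theorem F_cont (D : Dat c ψ) : Continuous fun p : ℝ × ℝ => FF c p.1 p.2 := by
  have := D.cont
  exact intervalIntegral.continuous_parametric_intervalIntegral_of_continuous'
    (f := fun (p : ℝ × ℝ) u => c (p.1 + p.2 * u)) (by fun_prop) 0 1

theorem F_eq (D : Dat c ψ) (s : ℝ) {k : ℝ} (hk : k ≠ 0) :
    FF c s k = ((∫ u in (0 : ℝ)..(s + k), c u) - ∫ u in (0 : ℝ)..s, c u) / k := by
  unfold FF
  rw [intervalIntegral.integral_comp_add_mul c hk, intervalIntegral.integral_interval_sub_left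
    (D.cont.intervalIntegrable _ _) (D.cont.intervalIntegrable _ _)]
  simp [div_eq_inv_mul]

theorem F_le (D : Dat c ψ) (s k : ℝ) : |FF c s k| ≤ 1 := by
  unfold FF
  simpa using intervalIntegral.norm_integral_le_of_norm_le_const (a := 0) (b := 1) (C := 1)
    (f := fun u => c (s + k * u)) fun u _ => D.bd _

theorem F_ds (D : Dat c ψ) (s : ℝ) {k : ℝ} (hk : k ≠ 0) :
    HasDerivAt (fun s => FF c s k) (AA c s k) s := by
  simp only [D.F_eq _ hk]
  have h := fun s => D.cont.deriv_integral c 0 s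
  have h1 := fun s => (D.cont.integral_hasStrictDerivAt 0 s).hasDerivAt
  exact (((h1 (s + k)).comp_add_const s k).fun_sub (h1 s)).div_const k

theorem F_dk (D : Dat c ψ) (s : ℝ) {k : ℝ} (hk : k ≠ 0) :
    HasDerivAt (fun k => FF c s k) (BB c s k) k := by
  have h1 := fun s => (D.cont.integral_hasStrictDerivAt 0 s).hasDerivAt
  have h2 := (((h1 (s + k)).comp_const_add s k).sub_const (∫ u in (0 : ℝ)..s, c u)).fun_div
    (hasDerivAt_id' k) hk
  refine (h2.congr_deriv ?_).congr_of_eventuallyEq ?_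
  · unfold BB
    rw [D.F_eq s hk]
    field_simp
  · filter_upwards [isOpen_ne.mem_nhds hk] with l hl using D.F_eq s hl

theorem div_le {a k : ℝ} (hk : 0 < k) (h : |a| ≤ 3 * √k) : |a / k| ≤ 3 / √k := by
  have h1 := sqrt_pos.2 hk
  rw [abs_div, abs_of_pos hk, div_le_div_iff₀ hk h1]
  nlinarith [mul_self_sqrt hk.le]

theorem A_le (D : Dat c ψ) (s : ℝ) {k : ℝ} (hk : 0 < k) : |AA c s k| ≤ 3 / √k :=
  div_le hk (by simpa [abs_of_pos hk] using D.hol (s + k) s)

theorem B_le (D : Dat c ψ) (s : ℝ) {k : ℝ} (hk : 0 < k) : |BB c s k| ≤ 3 / √k := by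
  refine div_le hk ?_
  have := D.cont
  have e : c (s + k) - FF c s k = ∫ u in (0 : ℝ)..1, (c (s + k) - c (s + k * u)) := by
    rw [intervalIntegral.integral_sub (by simp) (Continuous.intervalIntegrable (by fun_prop) _ _)]
    simp [FF]
  rw [e]
  simpa using intervalIntegral.norm_integral_le_of_norm_le_const (a := 0) (b := 1) (C := 3 * √k)
    (f := fun u => c (s + k) - c (s + k * u)) fun u hu => by
      rw [uIoc_of_le zero_le_one] at hu
      refine (D.hol _ _).trans ?_
      gcongr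
      rw [abs_le]
      constructor <;> nlinarith [hu.1, hu.2]

theorem D_le (D : Dat c ψ) (e : ℝ) {x : Fin 2 → ℝ} (hx : 0 < KK 0 (x 1)) (j : Fin 2) :
    |DD c e x j| ≤ mm (x 1) := by
  have h1 := hx.trans_le (KK_le e (x 1))
  have h2 : 3 / √(KK e (x 1)) ≤ mm (x 1) := by
    unfold mm
    gcongr
    exact KK_le e _
  fin_cases j
  · exact (D.A_le _ h1).trans h2
  · show |BB c (x 0) (KK e (x 1)) * KD e (x 1)| ≤ _
    rw [abs_mul]
    exact (mul_le_of_le_one_right (abs_nonneg _) (KD_le _ _)).trans ((D.B_le _ h1).trans h2)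

theorem r_cont (D : Dat c ψ) : Continuous fun p : ℝ × (Fin 2 → ℝ) => rr c p.1 p.2 :=
  D.F_cont.comp (f := fun p : ℝ × (Fin 2 → ℝ) => (p.2 0, KK p.1 (p.2 1)))
    (Continuous.prodMk (by fun_prop)
      (KK_cont.comp (f := fun p : ℝ × (Fin 2 → ℝ) => (p.1, p.2 1)) (by fun_prop)))

theorem D_cont (D : Dat c ψ) (j : Fin 2) {p : ℝ × (Fin 2 → ℝ)} (hp : KK p.1 (p.2 1) ≠ 0) :
    ContinuousAt (fun p : ℝ × (Fin 2 → ℝ) => DD c p.1 p.2 j) p := by
  have h1 := D.cont
  have h2 : Continuous fun p : ℝ × (Fin 2 → ℝ) => KK p.1 (p.2 1) :=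
    KK_cont.comp (f := fun p : ℝ × (Fin 2 → ℝ) => (p.1, p.2 1)) (by fun_prop)
  have h3 : Continuous fun p : ℝ × (Fin 2 → ℝ) => c (p.2 0 + KK p.1 (p.2 1)) := by fun_prop
  fin_cases j
  · exact (h3.sub (by fun_prop)).continuousAt.div h2.continuousAt hp
  · exact ((h3.sub D.r_cont).continuousAt.div h2.continuousAt hp).mul
      (ContinuousAt.div (by fun_prop) h2.continuousAt hp)

theorem D_meas (D : Dat c ψ) : Measurable (DD c 0) := by
  have h1 := D.cont.measurable
  have h2 : Measurable fun x : Fin 2 → ℝ => KK 0 (x 1) := by unfold KK; fun_prop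
  have h3 : Measurable fun x : Fin 2 → ℝ => FF c (x 0) (KK 0 (x 1)) :=
    (D.r_cont.comp (f := fun x : Fin 2 → ℝ => ((0 : ℝ), x)) (by fun_prop)).measurable
  refine measurable_pi_lambda _ fun j => ?_
  fin_cases j
  · show Measurable fun x : Fin 2 → ℝ => AA c (x 0) (KK 0 (x 1))
    unfold AA; fun_prop
  · show Measurable fun x : Fin 2 → ℝ => BB c (x 0) (KK 0 (x 1)) * KD 0 (x 1)
    unfold BB KD; fun_prop

theorem line (D : Dat c ψ) {e : ℝ} (he : e ≠ 0) (j : Fin 2) (p : ℝ × (Fin 2 → ℝ)) :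
    HasLineDerivAt ℝ (fun p : ℝ × (Fin 2 → ℝ) => rr c e p.2) (DD c e p.2 j) p
      ((0 : ℝ), (Pi.single j (1 : ℝ) : Fin 2 → ℝ)) := by
  unfold HasLineDerivAt rr
  have hk := (KK_pos he (p.2 1)).ne'
  fin_cases j
  · have := (D.F_ds (p.2 0 + 0) hk).comp_const_add (p.2 0) 0
    simpa [DD] using this
  · have h1 := (KK_der he (p.2 1 + 0)).comp_const_add (p.2 1) 0
    have h2 := (D.F_dk (p.2 0) (KK_pos he (p.2 1 + 0)).ne').comp (0 : ℝ) h1
    simpa [DD, Function.comp_def] using h2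

theorem ibp (D : Dat c ψ) (φ : ℝ × (Fin 2 → ℝ) → ℝ) (h1 : ContDiff ℝ 1 φ)
    (h2 : HasCompactSupport φ) (j : Fin 2) :
    ∫ p, fderiv ℝ φ p ((0 : ℝ), (Pi.single j (1 : ℝ) : Fin 2 → ℝ)) * rr c 0 p.2 =
      -∫ p, φ p * DD c 0 p.2 j := by
  set v : ℝ × (Fin 2 → ℝ) := ((0 : ℝ), (Pi.single j (1 : ℝ) : Fin 2 → ℝ))
  have c1 : Continuous fun p => fderiv ℝ φ p v := (h1.continuous_fderiv one_ne_zero).clm_apply
    continuous_const
  have s1 : HasCompactSupport fun p => fderiv ℝ φ p v := h2.fderiv_apply ℝ v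
  let e : ℕ → ℝ := fun n => 1 / ((n : ℝ) + 1)
  have he : ∀ n, e n ≠ 0 := fun n => by positivity
  have ht : Tendsto e atTop (𝓝 0) := tendsto_one_div_add_atTop_nhds_zero_nat
  have rc : ∀ a : ℝ, Continuous fun p : ℝ × (Fin 2 → ℝ) => rr c a p.2 := fun a =>
    D.r_cont.comp (f := fun p : ℝ × (Fin 2 → ℝ) => (a, p.2)) (by fun_prop)
  have dc : ∀ n, Continuous fun p : ℝ × (Fin 2 → ℝ) => DD c (e n) p.2 j := fun n =>
    continuous_iff_continuousAt.2 fun p => ContinuousAt.comp
      (f := fun p : ℝ × (Fin 2 → ℝ) => (e n, p.2)) (D.D_cont j (KK_pos (he n) _).ne') (by fun_prop)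
  have k : ∀ n, ∫ p, fderiv ℝ φ p v * rr c (e n) p.2 = -∫ p, φ p * DD c (e n) p.2 j := by
    intro n
    have := haar
    have := integral_bilinear_hasLineDerivAt_right_eq_neg_left_of_integrable (μ := volume)
      (B := ContinuousLinearMap.mul ℝ ℝ) (f := φ) (f' := fun p => fderiv ℝ φ p v)
      (g := fun p => rr c (e n) p.2) (g' := fun p => DD c (e n) p.2 j) (v := v)
      ((c1.mul (rc _)).integrable_of_hasCompactSupport s1.mul_right)
      ((h1.continuous.mul (dc n)).integrable_of_hasCompactSupport h2.mul_right)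
      ((h1.continuous.mul (rc _)).integrable_of_hasCompactSupport h2.mul_right)
      (fun p _ => (h1.differentiable one_ne_zero p).hasFDerivAt.hasLineDerivAt v)
      (fun p _ => D.line (he n) j p)
    simp only [ContinuousLinearMap.mul_apply'] at this
    rw [this, neg_neg]
  have t0 : ∀ p : ℝ × (Fin 2 → ℝ), Tendsto (fun n => (e n, p.2)) atTop (𝓝 (0, p.2)) := fun p =>
    ht.prodMk_nhds tendsto_const_nhds
  have t1 := tendsto_integral_of_dominated_convergence (μ := volume)
    (F := fun n p => fderiv ℝ φ p v * rr c (e n) p.2) (f := fun p => fderiv ℝ φ p v * rr c 0 p.2)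
    (fun p => ‖fderiv ℝ φ p v‖) (fun n => (c1.mul (rc _)).aestronglyMeasurable)
    (c1.integrable_of_hasCompactSupport s1).norm
    (fun n => Eventually.of_forall fun p => by
      rw [norm_mul]; exact mul_le_of_le_one_right (norm_nonneg _) (D.F_le _ _))
    (Eventually.of_forall fun p => ((D.r_cont.tendsto (0, p.2)).comp (t0 p)).const_mul _)
  have t2 := tendsto_integral_of_dominated_convergence (μ := volume)
    (F := fun n p => φ p * DD c (e n) p.2 j) (f := fun p => φ p * DD c 0 p.2 j)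
    (fun p => ‖φ p‖ • mm (p.2 1)) (fun n => (h1.continuous.mul (dc n)).aestronglyMeasurable)
    (mm_loc.integrable_smul_left_of_hasCompactSupport h1.continuous.norm h2.norm)
    (fun n => KK_ae'.mono fun p hp => by
      rw [norm_mul]; exact mul_le_mul_of_nonneg_left (D.D_le _ hp j) (norm_nonneg _))
    (KK_ae'.mono fun p hp => ((D.D_cont j (p := (0, p.2)) hp.ne').tendsto.comp (t0 p)).const_mul _)
  simp only [k] at t1
  exact tendsto_nhds_unique t1 t2.neg

theorem ibp0 (D : Dat c ψ) (φ : ℝ × (Fin 2 → ℝ) → ℝ) (h1 : ContDiff ℝ 1 φ)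
    (h2 : HasCompactSupport φ) :
    ∫ p, fderiv ℝ φ p ((1 : ℝ), (0 : Fin 2 → ℝ)) * rr c 0 p.2 = 0 := by
  set v : ℝ × (Fin 2 → ℝ) := ((1 : ℝ), (0 : Fin 2 → ℝ))
  have c1 : Continuous fun p => fderiv ℝ φ p v := (h1.continuous_fderiv one_ne_zero).clm_apply
    continuous_const
  have s1 : HasCompactSupport fun p => fderiv ℝ φ p v := h2.fderiv_apply ℝ v
  have rc : Continuous fun p : ℝ × (Fin 2 → ℝ) => rr c 0 p.2 :=
    D.r_cont.comp (f := fun p : ℝ × (Fin 2 → ℝ) => ((0 : ℝ), p.2)) (by fun_prop)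
  have := haar
  have := integral_bilinear_hasLineDerivAt_right_eq_neg_left_of_integrable (μ := volume)
    (B := ContinuousLinearMap.mul ℝ ℝ) (f := φ) (f' := fun p => fderiv ℝ φ p v)
    (g := fun p => rr c 0 p.2) (g' := fun _ => 0) (v := v)
    ((c1.mul rc).integrable_of_hasCompactSupport s1.mul_right) (by simp)
    ((h1.continuous.mul rc).integrable_of_hasCompactSupport h2.mul_right)
    (fun p _ => (h1.differentiable one_ne_zero p).hasFDerivAt.hasLineDerivAt v)
    (fun p _ => by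
      unfold HasLineDerivAt
      simpa [v] using hasDerivAt_const (0 : ℝ) (rr c 0 p.2))
  simpa using this

end Dat

end Pool.Agent.H94.NZ
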