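import Pool.Agent.H94.NZ2

set_option autoImplicit false
open Set Filter Topology MeasureTheory Metric

namespace Pool.Agent.H94.NZ

/-- the time change -/
structure Fl (ψ τ σ : ℝ → ℝ) (P : ℝ) : Prop where
  der : ∀ s, HasDerivAt τ (ψ s) s
  mono : StrictMono τ
  zero : τ 0 = 0
  one : τ 1 = P
  cont : Continuous σ
  ts : ∀ u, τ (σ u) = u
  st : ∀ s, σ (τ s) = s
  tper : ∀ s, τ (s + 1) = τ s + P

theorem Dat.ae_pos {c ψ : ℝ → ℝ} (D : Dat c ψ) : ∀ᵐ s, ψ s ≠ 0 := by
  simpa [ae_iff] using D.null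

theorem Dat.exists_fl {c ψ : ℝ → ℝ} (D : Dat c ψ) : ∃ τ σ P, Fl ψ τ σ P := by
  have hc := D.lip.continuous
  have hp : Function.Periodic ψ 1 := fun x => by simpa using D.pper x 1
  have pos : ∀ a b : ℝ, a < b → 0 < ∫ x in a..b, ψ x := by
    intro a b h
    refine (intervalIntegral.integral_pos_iff_support_of_nonneg_ae (Eventually.of_forall D.nn)
      (hc.intervalIntegrable _ _)).2 ⟨h, ?_⟩
    rw [inter_comm, measure_inter_conull' ?_]
    · simpa using h
    · exact measure_mono_null (fun x hx => by simpa using hx.2) D.null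
  let τ : ℝ → ℝ := fun s => ∫ x in (0 : ℝ)..s, ψ x
  have der : ∀ s, HasDerivAt τ (ψ s) s := fun s => (hc.integral_hasStrictDerivAt 0 s).hasDerivAt
  have sub : ∀ a b, τ b - τ a = ∫ x in a..b, ψ x := fun a b =>
    intervalIntegral.integral_interval_sub_left (hc.intervalIntegrable _ _)
      (hc.intervalIntegrable _ _)
  have mono : StrictMono τ := fun a b h => by linarith [sub a b, pos a b h]
  have surj : Function.Surjective τ :=
    (continuous_iff_continuousAt.2 fun s => (der s).continuousAt).surjective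
      (hp.tendsto_atTop_intervalIntegral_of_pos (pos 0 1 one_pos) one_pos)
      (hp.tendsto_atBot_intervalIntegral_of_pos (pos 0 1 one_pos) one_pos)
  refine ⟨τ, (mono.orderIsoOfSurjective τ surj).symm, τ 1, der, mono, by simp [τ], rfl,
    (mono.orderIsoOfSurjective τ surj).symm.continuous,
    mono.orderIsoOfSurjective_self_symm_apply τ surj,
    mono.orderIsoOfSurjective_symm_apply_self τ surj, fun s => ?_⟩
  have := hp.intervalIntegral_add_eq s 0
  rw [zero_add, ← sub] at this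
  simp only [τ] at this ⊢
  linarith

/-- the velocity field -/
noncomputable def bb (ψ : ℝ → ℝ) (x : Fin 2 → ℝ) : Fin 2 → ℝ :=
  if Int.fract (x 1) < ψ (x 0) then
    ![(ψ (x 0))⁻¹, Int.fract (x 1) * deriv ψ (x 0) / ψ (x 0) ^ 2] else 0

/-- a streamline -/
noncomputable def ln (ψ : ℝ → ℝ) (θ s : ℝ) : Fin 2 → ℝ := ![s, θ * ψ s]

/-- the flow -/
noncomputable def XX (ψ τ σ : ℝ → ℝ) (t : ℝ) (x : Fin 2 → ℝ) : Fin 2 → ℝ :=
  if x 1 < ψ (x 0) then ln ψ (x 1 / ψ (x 0)) (σ (τ (x 0) + t)) else x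

namespace Dat
variable {c ψ τ σ : ℝ → ℝ} {P : ℝ}

theorem b_meas (D : Dat c ψ) : Measurable (bb ψ) := by
  have h1 := D.lip.continuous.measurable
  have h2 := measurable_deriv ψ
  refine Measurable.ite (measurableSet_lt (by fun_prop) (by fun_prop))
    (measurable_pi_lambda _ fun j => ?_) measurable_const
  fin_cases j <;> simp <;> fun_prop

theorem b_per (D : Dat c ψ) (x : Fin 2 → ℝ) (k : Fin 2 → ℤ) :
    bb ψ (x + fun i => (k i : ℝ)) = bb ψ x := by
  have h : deriv ψ (x 0 + k 0) = deriv ψ (x 0) := by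
    rw [← deriv_comp_add_const]
    simp only [D.pper]
  simp only [bb, Pi.add_apply, Int.fract_add_intCast, D.pper, h]

theorem X_meas (D : Dat c ψ) (F : Fl ψ τ σ P) : Measurable (Function.uncurry (XX ψ τ σ)) := by
  have h1 := D.lip.continuous.measurable
  have h2 := F.cont.measurable
  have h3 := F.mono.monotone.measurable
  refine Measurable.ite (p := fun p : ℝ × (Fin 2 → ℝ) => p.2 1 < ψ (p.2 0))
    (measurableSet_lt (by fun_prop) (by fun_prop))
    (measurable_pi_lambda _ fun j => ?_) measurable_snd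
  fin_cases j <;> simp [ln] <;> fun_prop

theorem fr (D : Dat c ψ) {θ : ℝ} (h : θ ∈ Ico (0 : ℝ) 1) (s : ℝ) :
    Int.fract (θ * ψ s) = θ * ψ s :=
  Int.fract_eq_self.2 ⟨mul_nonneg h.1 (D.nn s), by nlinarith [D.nn s, D.le s, h.1, h.2]⟩

theorem b_ln (D : Dat c ψ) {θ : ℝ} (h : θ ∈ Ico (0 : ℝ) 1) {s : ℝ} (hs : ψ s ≠ 0) :
    ψ s • bb ψ (ln ψ θ s) = ![1, θ * deriv ψ s] := by
  have h1 := (D.nn s).lt_of_ne' hs
  have h2 : θ * ψ s < ψ s := by nlinarith [h.2]
  simp only [bb, ln, Matrix.cons_val_one, Matrix.cons_val_zero, D.fr h, h2, if_true]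
  ext j
  fin_cases j <;> simp <;> field_simp

theorem flow (D : Dat c ψ) (F : Fl ψ τ σ P) {θ : ℝ} (h : θ ∈ Ico (0 : ℝ) 1) {a b : ℝ}
    (hab : a ≤ b) : IntegrableOn (fun u => bb ψ (ln ψ θ (σ u))) (Icc (τ a) (τ b)) ∧
      ∫ u in Icc (τ a) (τ b), bb ψ (ln ψ θ (σ u)) = ln ψ θ b - ln ψ θ a := by
  have hc : ContinuousOn τ (Icc a b) := fun s _ => (F.der s).continuousAt.continuousWithinAt
  have ac := (D.lip.lipschitzOnWith (s := uIcc a b)).absolutelyContinuousOnInterval
  have e : (fun s => ψ s • bb ψ (ln ψ θ (σ (τ s)))) =ᵐ[volume.restrict (Icc a b)]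
      fun s => ![1, θ * deriv ψ s] :=
    ae_restrict_of_ae (D.ae_pos.mono fun s hs => by simp only [F.st]; exact D.b_ln h hs)
  have i : ∀ j, Integrable (fun s => (![1, θ * deriv ψ s] : Fin 2 → ℝ) j)
      (volume.restrict (Icc a b)) := by
    intro j
    fin_cases j
    · simp
    · exact ((intervalIntegrable_iff_integrableOn_Icc_of_le hab).1
        ac.intervalIntegrable_deriv).const_mul θ
  constructor
  · rw [← integrableOn_Icc_deriv_smul_iff_of_deriv_nonneg hc (fun s _ => F.der s)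
      (fun s _ => D.nn s) hab]
    exact (Integrable.of_eval i).congr e.symm
  · rw [← integral_Icc_deriv_smul_of_deriv_nonneg hc (fun s _ => F.der s) (fun s _ => D.nn s) hab,
      integral_congr_ae e]
    ext j
    rw [eval_integral i]
    fin_cases j
    · simp [ln, hab]
    · have := ac.integral_deriv_eq_sub
      rw [intervalIntegral.integral_of_le hab, ← integral_Icc_eq_integral_Ioc] at this
      simp [ln, integral_const_mul, this, mul_sub]

theorem th (D : Dat c ψ) {x : Fin 2 → ℝ} (h0 : 0 ≤ x 1) (h : x 1 < ψ (x 0)) :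
    x 1 / ψ (x 0) ∈ Ico (0 : ℝ) 1 :=
  ⟨div_nonneg h0 (D.nn _), (div_lt_one (h0.trans_lt h)).2 h⟩

theorem traj (D : Dat c ψ) (F : Fl ψ τ σ P) {x : Fin 2 → ℝ} (hx : x 1 ∈ Ico (0 : ℝ) 1) {T : ℝ}
    (hT : 0 ≤ T) : XX ψ τ σ 0 x = x ∧ IntegrableOn (fun t => bb ψ (XX ψ τ σ t x)) (Icc 0 T) ∧
      ∀ t ∈ Icc (0 : ℝ) T, XX ψ τ σ t x = x + ∫ s in (0 : ℝ)..t, bb ψ (XX ψ τ σ s x) := by
  by_cases h : x 1 < ψ (x 0)
  · have h0 := (hx.1.trans_lt h).ne'
    have e : ln ψ (x 1 / ψ (x 0)) (x 0) = x := by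
      ext j; fin_cases j <;> simp [ln, h0]
    have k : ∀ t, 0 ≤ t → x 0 ≤ σ (τ (x 0) + t) := fun t ht =>
      F.mono.le_iff_le.1 (by rw [F.ts]; linarith)
    simp only [XX, h, if_true]
    refine ⟨by rw [add_zero, F.st, e], ?_, fun t ht => ?_⟩
    · have := (D.flow F (D.th hx.1 h) (k T hT)).1
      rw [F.ts, ← intervalIntegrable_iff_integrableOn_Icc_of_le (by linarith)] at this
      have := this.comp_add_left (τ (x 0))
      rwa [sub_self, add_sub_cancel_left, intervalIntegrable_iff_integrableOn_Icc_of_le hT] at this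
    · have := (D.flow F (D.th hx.1 h) (k t ht.1)).2
      rw [intervalIntegral.integral_comp_add_left (fun u => bb ψ (ln ψ (x 1 / ψ (x 0)) (σ u))),
        add_zero, intervalIntegral.integral_of_le (by linarith [ht.1]),
        ← integral_Icc_eq_integral_Ioc]
      rw [F.ts] at this
      rw [this, e]
      simp
  · have : bb ψ x = 0 := by simp only [bb, Int.fract_eq_self.2 hx, h, if_false]
    simp [XX, h, this]

theorem cell (G : (Fin 2 → ℝ) → ENNReal) (hG : Measurable G) :
    ∫⁻ x in univ.pi fun _ : Fin 2 => Ico (0 : ℝ) 1, G x =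
      ∫⁻ s in Ico (0 : ℝ) 1, ∫⁻ y in Ico (0 : ℝ) 1, G ![s, y] := by
  have h := (volume_preserving_finTwoArrow ℝ).symm
  rw [← h.setLIntegral_comp_preimage (MeasurableSet.univ_pi fun _ => measurableSet_Ico) hG]
  have e : (MeasurableEquiv.finTwoArrow (α := ℝ)).symm ⁻¹' (univ.pi fun _ : Fin 2 => Ico (0 : ℝ) 1) =
      Ico (0 : ℝ) 1 ×ˢ Ico (0 : ℝ) 1 := by
    ext p; simp [Fin.forall_fin_two, MeasurableEquiv.finTwoArrow]
  rw [e, Measure.volume_eq_prod]
  exact setLIntegral_prod (fun a => G ((MeasurableEquiv.finTwoArrow (α := ℝ)).symm a))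
    (hG.comp h.measurable).aemeasurable

theorem scale (h : ℝ → ENNReal) {a : ℝ} (ha : 0 ≤ a) :
    ∫⁻ y in Ico 0 a, h y = ENNReal.ofReal |a| * ∫⁻ θ in Ico (0 : ℝ) 1, h (θ * a) := by
  rcases ha.lt_or_eq with ha | rfl
  · have := lintegral_image_eq_lintegral_abs_deriv_mul (s := Ico (0 : ℝ) 1) (f := fun θ => θ * a)
      (f' := fun _ => a) measurableSet_Ico
      (fun θ _ => by simpa using ((hasDerivAt_id' θ).mul_const a).hasDerivWithinAt)
      (fun _ _ _ _ e => mul_right_cancel₀ ha.ne' e) h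
    rw [image_mul_right_Ico _ _ ha, zero_mul, one_mul] at this
    rw [this, lintegral_const_mul' _ _ ENNReal.ofReal_ne_top]
  · simp

theorem part (D : Dat c ψ) (G : (Fin 2 → ℝ) → ENNReal) (hG : Measurable G) :
    ∫⁻ x in (univ.pi fun _ : Fin 2 => Ico (0 : ℝ) 1) ∩ {x | x 1 < ψ (x 0)}, G x =
      ∫⁻ s in Ico (0 : ℝ) 1, ENNReal.ofReal |ψ s| * ∫⁻ θ in Ico (0 : ℝ) 1, G (ln ψ θ s) := by
  have h1 := D.lip.continuous.measurable
  have hm : MeasurableSet {x : Fin 2 → ℝ | x 1 < ψ (x 0)} :=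
    measurableSet_lt (by fun_prop) (by fun_prop)
  rw [inter_comm, ← Measure.restrict_restrict hm, ← lintegral_indicator hm,
    cell _ (hG.indicator hm)]
  refine lintegral_congr fun s => ?_
  have e : ∀ y, indicator {x : Fin 2 → ℝ | x 1 < ψ (x 0)} G ![s, y] =
      indicator (Iio (ψ s)) (fun y => G ![s, y]) y := fun y => by simp [indicator]
  simp only [e]
  rw [lintegral_indicator measurableSet_Iio, Measure.restrict_restrict measurableSet_Iio,
    inter_comm, Ico_inter_Iio, min_eq_right (D.le s), scale _ (D.nn s)]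
  rfl

theorem shift (F : Fl ψ τ σ P) (Q : ℝ → ENNReal) (hQ : Function.Periodic Q P) (t : ℝ) :
    ∫⁻ s in Ico (0 : ℝ) 1, ENNReal.ofReal |ψ s| * Q (τ s + t) = ∫⁻ u in Ioc 0 (0 + P), Q u := by
  have hP : 0 < P := by rw [← F.one, ← F.zero]; exact F.mono one_pos
  have hc : Continuous fun s => τ s + t :=
    (continuous_iff_continuousAt.2 fun s => (F.der s).continuousAt).add continuous_const
  have hm : StrictMono fun s => τ s + t := fun a b h => by simpa using F.mono h
  rw [← lintegral_image_eq_lintegral_abs_deriv_mul (f := fun s => τ s + t) measurableSet_Ico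
    (fun s _ => ((F.der s).add_const t).hasDerivWithinAt) hm.injective.injOn,
    hc.image_Ico_of_strictMono hm, F.zero, F.one, zero_add, add_comm P t,
    Measure.restrict_congr_set Ico_ae_eq_Ioc]
  refine (isAddFundamentalDomain_Ioc hP t).setLIntegral_eq (isAddFundamentalDomain_Ioc hP 0) Q ?_
  rintro ⟨_, n, rfl⟩ x
  exact (congrArg Q (add_comm _ _)).trans (hQ.zsmul n x)

theorem preserve (D : Dat c ψ) (F : Fl ψ τ σ P) (t : ℝ) :
    Measure.map (fun x i => Int.fract (XX ψ τ σ t x i))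
      (volume.restrict (univ.pi fun _ : Fin 2 => Ico (0 : ℝ) 1)) =
      volume.restrict (univ.pi fun _ : Fin 2 => Ico (0 : ℝ) 1) := by
  have h1 := D.lip.continuous.measurable
  have hm : MeasurableSet {x : Fin 2 → ℝ | x 1 < ψ (x 0)} :=
    measurableSet_lt (by fun_prop) (by fun_prop)
  have hc : MeasurableSet (univ.pi fun _ : Fin 2 => Ico (0 : ℝ) 1) :=
    MeasurableSet.univ_pi fun _ => measurableSet_Ico
  have hX : Measurable (XX ψ τ σ t) := (D.X_meas F).comp (measurable_prodMk_left (x := t))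
  have hY : Measurable fun x i => Int.fract (XX ψ τ σ t x i) := by fun_prop
  refine Measure.ext_of_lintegral _ fun G hG => ?_
  rw [lintegral_map hG hY, ← lintegral_inter_add_sdiff _ _ hm, ← lintegral_inter_add_sdiff G _ hm]
  congr 1
  · rw [D.part (fun x => G fun i => Int.fract (XX ψ τ σ t x i)) (hG.comp hY), D.part _ hG]
    let Q : ℝ → ENNReal := fun u => ∫⁻ θ in Ico (0 : ℝ) 1, G (ln ψ θ (Int.fract (σ u)))
    have hQ : Function.Periodic Q P := fun u => by
      have : σ (u + P) = σ u + 1 := F.mono.injective (by rw [F.ts, F.tper, F.ts])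
      simp only [Q, this, Int.fract_add_one]
    have pf : ∀ s, ψ (Int.fract s) = ψ s := fun s => by
      rw [← D.pper (Int.fract s) ⌊s⌋, Int.fract_add_floor]
    refine Eq.trans ?_ ((shift F Q hQ t).trans ((shift F Q hQ 0).symm.trans ?_))
    · refine lintegral_congr fun s => ?_
      by_cases hs : ψ s = 0
      · simp [hs]
      congr 1
      refine setLIntegral_congr_fun measurableSet_Ico fun θ hθ => ?_
      have h2 : θ * ψ s < ψ s := by nlinarith [hθ.2, (D.nn s).lt_of_ne' hs]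
      congr 1
      ext j
      fin_cases j <;> simp [XX, ln, h2, hs, pf, D.fr hθ]
    · refine setLIntegral_congr_fun measurableSet_Ico fun s hs => ?_
      simp only [Q, add_zero, F.st, Int.fract_eq_self.2 hs]
  · refine setLIntegral_congr_fun (hc.diff hm) fun x hx => ?_
    have h2 : ¬ x 1 < ψ (x 0) := hx.2
    simp only [XX, h2, if_false]
    congr 1
    ext j
    exact Int.fract_eq_self.2 (hx.1 j trivial)

end Dat

end Pool.Agent.H94.NZ
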