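import Pool.Agent.H94.NZ3

set_option autoImplicit false
open Set Filter Topology MeasureTheory Metric

namespace Pool.Agent.H94.NZ
namespace Dat
variable {c ψ τ σ : ℝ → ℝ} {P : ℝ}

theorem F_loc (D : Dat c ψ) {s k : ℝ} (hk : 0 ≤ k) (h : k < ψ s ∨ k = 0) :
    FF c s k = c s ∧ c (s + k) = c s := by
  have e : ∀ u ∈ Icc (0 : ℝ) 1, c (s + k * u) = c s := fun u hu => by
    rcases h with h | h
    · refine D.key _ _ ?_
      rw [add_sub_cancel_left, abs_of_nonneg (mul_nonneg hk hu.1)]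
      nlinarith [hu.2]
    · simp [h]
  refine ⟨?_, by simpa using e 1 ⟨zero_le_one, le_rfl⟩⟩
  unfold FF
  rw [intervalIntegral.integral_congr (g := fun _ => c s)
    (fun u hu => e u (by rwa [uIcc_of_le zero_le_one] at hu))]
  simp

theorem g_zero (D : Dat c ψ) (x : Fin 2 → ℝ) (j : Fin 2) : bb ψ x j * DD c 0 x j = 0 := by
  by_cases h : Int.fract (x 1) < ψ (x 0)
  · have h1 : KK 0 (x 1) < ψ (x 0) := by
      rw [← Int.fract_add_floor (x 1), KK_per]
      refine (KK_le_abs _).trans_lt ?_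
      rwa [abs_of_nonneg (Int.fract_nonneg _)]
    have h2 := D.F_loc (KK_nonneg 0 (x 1)) (Or.inl h1)
    fin_cases j <;> simp [DD, AA, BB, h2.1, h2.2]
  · simp [bb, h]

theorem r_ln (D : Dat c ψ) {θ : ℝ} (h : θ ∈ Ico (0 : ℝ) 1) (s : ℝ) : rr c 0 (ln ψ θ s) = c s := by
  have h1 := KK_le_abs (θ * ψ s)
  rw [abs_of_nonneg (mul_nonneg h.1 (D.nn s))] at h1
  refine (D.F_loc (s := s) (KK_nonneg 0 (θ * ψ s)) ?_).1
  rcases (D.nn s).lt_or_eq with h2 | h2
  · exact Or.inl (by nlinarith [h.2])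
  · exact Or.inr (le_antisymm (by rw [← h2] at h1 ⊢; simpa using h1) (KK_nonneg _ _))

theorem r_per (D : Dat c ψ) (x : Fin 2 → ℝ) (k : Fin 2 → ℤ) :
    rr c 0 (x + fun i => (k i : ℝ)) = rr c 0 x := by
  simp only [rr, FF, Pi.add_apply, KK_per]
  congr 1
  ext u
  rw [add_right_comm, D.per]

theorem not_ac (D : Dat c ψ) (F : Fl ψ τ σ P) (a : ℝ) (h : ℝ → ℝ)
    (hi : IntegrableOn h (Icc 0 P))
    (he : ∀ t ∈ Icc 0 P, c (σ (τ a + t)) = c (σ (τ a + 0)) + ∫ s in (0 : ℝ)..t, h s) : False := by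
  have hP : 0 < P := by rw [← F.one, ← F.zero]; exact F.mono one_pos
  have ac := ((intervalIntegrable_iff_integrableOn_Icc_of_le hP.le).2
    hi).absolutelyContinuousOnInterval_intervalIntegral (c := 0) left_mem_uIcc
  have hN := addHaar_image_eq_zero_of_differentiableOn_of_addHaar_eq_zero volume
    (f := fun s => τ s - τ a)
    (fun s _ => ((F.der s).sub_const _).differentiableAt.differentiableWithinAt) D.null
  have h0 : ∀ᵐ t, ψ (σ (τ a + t)) ≠ 0 :=
    measure_mono_null (fun t ht => (mem_image _ _ _).2 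
      ⟨σ (τ a + t), by simpa using ht, by simp [F.ts]⟩) hN
  obtain ⟨C, hC⟩ := ac.const_of_ae_hasDerivAt_zero (by
    filter_upwards [h0, (countable_singleton 0).ae_notMem volume,
      (countable_singleton P).ae_notMem volume] with t h1 h2 h3 h4
    rw [uIcc_of_le hP.le] at h4
    have hc : Continuous fun u => |σ (τ a + u) - σ (τ a + t)| := by have := F.cont; fun_prop
    refine (hasDerivAt_const t (c (σ (τ a + t)) - c (σ (τ a + 0)))).congr_of_eventuallyEq ?_
    filter_upwards [Icc_mem_nhds (h4.1.lt_of_ne' h2) (h4.2.lt_of_ne h3),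
      (hc.tendsto t).eventually (gt_mem_nhds (a := ψ (σ (τ a + t)))
        (by simpa using (D.nn _).lt_of_ne' h1))] with u h5 h6
    rw [← D.key _ _ h6, he u h5]
    ring)
  have k : ∀ s, a ≤ s → s ≤ a + 1 → c s = c (σ (τ a + 0)) + C := fun s h1 h2 => by
    have m : τ s - τ a ∈ Icc 0 P :=
      ⟨sub_nonneg.2 (F.mono.monotone h1), by linarith [F.mono.monotone h2, F.tper a]⟩
    have := he _ m
    rw [add_sub_cancel, F.st] at this
    rw [this, hC _ (by rwa [uIcc_of_le hP.le])]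
  have k1 := k ((0 : ℝ) + ⌈a⌉) (by linarith [Int.le_ceil a]) (by linarith [Int.ceil_lt_add_one a])
  have k2 := k (1 / 2 + ⌈a - 1 / 2⌉) (by linarith [Int.le_ceil (a - 1 / 2)])
    (by linarith [Int.ceil_lt_add_one (a - 1 / 2)])
  rw [D.per, D.c0] at k1
  rw [D.per, D.c1] at k2
  linarith

theorem exists_pt (D : Dat c ψ) {p : (Fin 2 → ℝ) → Prop}
    (h : ∀ᵐ x ∂(volume.restrict (univ.pi fun _ : Fin 2 => Ico (0 : ℝ) 1)), p x) :
    ∃ x, p x ∧ 0 ≤ x 1 ∧ x 1 < ψ (x 0) := by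
  have hc := D.lip.continuous
  let U : Set (Fin 2 → ℝ) := (univ.pi fun _ : Fin 2 => Ioo (0 : ℝ) 1) ∩ {x | x 1 < ψ (x 0)}
  have hU : IsOpen U := (isOpen_set_pi finite_univ fun _ _ => isOpen_Ioo).inter
    (isOpen_lt (by fun_prop) (by fun_prop))
  obtain ⟨s, hs, h1⟩ : ∃ s ∈ Ioo (0 : ℝ) 1, ψ s ≠ 0 :=
    Measure.exists_mem_of_measure_ne_zero_of_ae (μ := volume) (by simp)
      (ae_restrict_of_ae D.ae_pos)
  have h2 := (D.nn s).lt_of_ne' h1
  have hn : U.Nonempty := ⟨![s, ψ s / 2], fun j _ => by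
    fin_cases j
    · exact hs
    · exact ⟨half_pos h2, by show ψ s / 2 < 1; linarith [D.le s]⟩, half_lt_self h2⟩
  obtain ⟨x, hx, h3⟩ := Measure.exists_mem_of_measure_ne_zero_of_ae (hU.measure_ne_zero volume hn)
    (ae_restrict_of_ae_restrict_of_subset
      (inter_subset_left.trans (pi_mono fun _ _ => Ioo_subset_Ico_self)) h)
  exact ⟨x, h3, (hx.1 1 trivial).1.le, hx.2⟩

end Dat
end Pool.Agent.H94.NZ
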