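import Mathlib

set_option autoImplicit false
namespace Pool.Agent.H94.PM
open Set Filter Topology ENNReal

/-- Continuous pseudometric. -/
structure IsPM {X : Type*} [TopologicalSpace X] (ρ : X → X → ℝ) : Prop where
  cont : Continuous fun q : X × X => ρ q.1 q.2
  self : ∀ x, ρ x x = 0
  symm : ∀ x y, ρ x y = ρ y x
  tri : ∀ x y z, ρ x z ≤ ρ x y + ρ y z

/-- Dynamically generating. -/
def Gen (G : Type*) {X : Type*} [Group G] [MulAction G X] (ρ : X → X → ℝ) : Prop :=
  ∀ x y : X, x ≠ y → ∃ s : G, 0 < ρ (s • x) (s • y)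

/-- Sofic approximation. -/
def IsSofic {G : Type*} [Group G] (d : ℕ → ℕ) (σ : ∀ i, G → Equiv.Perm (Fin (d i))) : Prop :=
  Tendsto d atTop atTop ∧
  (∀ s t : G, Tendsto (fun i => (({k | σ i (s * t) k = σ i s (σ i t k)}.ncard : ℝ)) / d i)
    atTop (𝓝 1)) ∧
  (∀ s : G, s ≠ 1 → Tendsto (fun i => (({k | σ i s k = k}.ncard : ℝ)) / d i) atTop (𝓝 0))

/-- `ρ_p` for finite `p`. -/
noncomputable def rhoP {X : Type*} (p : ℝ) (ρ : X → X → ℝ) (d : ℕ) (φ ψ : Fin d → X) : ℝ :=
  ((1 / (d : ℝ)) * ∑ j, ρ (φ j) (ψ j) ^ p) ^ (1 / p)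

/-- `ρ_∞`. -/
noncomputable def rhoInf {X : Type*} (ρ : X → X → ℝ) (d : ℕ) (φ ψ : Fin d → X) : ℝ :=
  ⨆ j, ρ (φ j) (ψ j)

/-- `Map(ρ, F, δ, σ)`. -/
def MapSet {G X : Type*} [Group G] [MulAction G X] (ρ : X → X → ℝ) {d : ℕ}
    (F : Finset G) (δ : ℝ) (σ : G → Equiv.Perm (Fin d)) : Set (Fin d → X) :=
  {φ | ∀ s ∈ F, rhoP 2 ρ d (fun j => φ (σ s j)) (fun j => s • φ j) ≤ δ}

/-- Largest cardinality of an `ε`-separated subset of `Y` for `θ`. -/
noncomputable def Nsep {A : Type*} (ε : ℝ) (Y : Set A) (θ : A → A → ℝ) : ℝ≥0∞ :=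
  ⨆ (S : Finset A) (_ : (S : Set A) ⊆ Y) (_ : ∀ x ∈ S, ∀ y ∈ S, x ≠ y → ε ≤ θ x y),
    (S.card : ℝ≥0∞)

/-- The quantity at scale `ε`; `θ d` is the pseudometric used on `X ^ d`. -/
noncomputable def scale {G X : Type*} [Group G] [MulAction G X] (d : ℕ → ℕ)
    (σ : ∀ i, G → Equiv.Perm (Fin (d i))) (ρ : X → X → ℝ)
    (θ : ∀ n : ℕ, (Fin n → X) → (Fin n → X) → ℝ) (ε : ℝ) : EReal :=
  ⨅ (F : Finset G) (δ : ℝ) (_ : 0 < δ), limsup (fun i =>
    ENNReal.log (Nsep ε (MapSet ρ F δ (σ i)) (θ (d i))) /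
      (((d i : ℝ) * Real.log (1 / ε) : ℝ) : EReal)) atTop

/-- `p`-metric mean dimension, `p` finite. -/
noncomputable def mdimP {G : Type*} (X : Type*) [Group G] [TopologicalSpace X] [MulAction G X]
    (d : ℕ → ℕ) (σ : ∀ i, G → Equiv.Perm (Fin (d i))) (p : ℝ) : EReal :=
  ⨅ (ρ : X → X → ℝ) (_ : IsPM ρ) (_ : Gen G ρ), liminf (scale d σ ρ (rhoP p ρ)) (𝓝[>] 0)

/-- Sofic metric mean dimension (`p = ∞`). -/
noncomputable def mdimM {G : Type*} (X : Type*) [Group G] [TopologicalSpace X] [MulAction G X]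
    (d : ℕ → ℕ) (σ : ∀ i, G → Equiv.Perm (Fin (d i))) : EReal :=
  ⨅ (ρ : X → X → ℝ) (_ : IsPM ρ) (_ : Gen G ρ), liminf (scale d σ ρ (rhoInf ρ)) (𝓝[>] 0)

variable {X : Type*}

theorem IsPM.nonneg [TopologicalSpace X] {ρ : X → X → ℝ} (h : IsPM ρ) (x y : X) : 0 ≤ ρ x y := by
  have := h.tri x y x
  rw [h.self, h.symm y x] at this; linarith

theorem tame [TopologicalSpace X] [CompactSpace X] [TopologicalSpace.MetrizableSpace X]
    {ρ : X → X → ℝ} (h : IsPM ρ) : ∃ ρ' : X → X → ℝ, IsPM ρ' ∧ (∀ x y, ρ' x y ≤ ρ x y) ∧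
      (∀ x y, ρ' x y = 0 → ρ x y = 0) ∧ ∀ c : ℝ, 0 < c → ∃ C : ℝ, ∀ ε : ℝ, 0 < ε → ε < 1 →
        ∃ (M : ℕ) (l : X → Fin M), 1 ≤ M ∧ Real.log M ≤ C * ε ^ (-c) ∧
          ∀ x y, l x = l y → ρ' x y < ε := by
  classical
  rcases isEmpty_or_nonempty X with he | he
  · exact ⟨ρ, h, fun _ _ => le_rfl, fun _ _ => id, fun c _ => ⟨0, fun ε _ _ =>
      ⟨1, fun _ => 0, le_rfl, by simp, fun x => he.elim x⟩⟩⟩
  letI := TopologicalSpace.metrizableSpaceMetric X
  obtain ⟨D0, hD0⟩ := (isCompact_univ.image h.cont).bddAbove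
  set D := max D0 1
  have hD1 : 1 ≤ D := le_max_right _ _
  have hD : ∀ x y, ρ x y ≤ D := fun x y => (hD0 ⟨(x, y), mem_univ _, rfl⟩).trans (le_max_left _ _)
  set u := TopologicalSpace.denseSeq X
  have hw : ∀ n : ℕ, (0 : ℝ) < (1 / 2) ^ n ∧ (1 / 2 : ℝ) ^ n ≤ 1 := fun n =>
    ⟨by positivity, pow_le_one₀ (by norm_num) (by norm_num)⟩
  set f : X → BoundedContinuousFunction ℕ ℝ := fun x =>
    BoundedContinuousFunction.ofNormedAddCommGroupDiscrete (fun n => (1 / 2) ^ n * ρ x (u n)) D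
      fun n => by
        rw [Real.norm_of_nonneg (mul_nonneg (hw n).1.le (h.nonneg _ _))]
        have := hD x (u n); have := h.nonneg x (u n); have := hw n; nlinarith
  have hf : ∀ x y n, dist (f x n) (f y n) = (1 / 2) ^ n * |ρ x (u n) - ρ y (u n)| := fun x y n => by
    show dist ((1 / 2 : ℝ) ^ n * ρ x (u n)) ((1 / 2) ^ n * ρ y (u n)) = _
    rw [Real.dist_eq, ← mul_sub, abs_mul, abs_of_pos (hw n).1]
  have habs : ∀ x y z, |ρ x z - ρ y z| ≤ ρ x y := fun x y z => by
    have h1 := h.tri x y z; have h2 := h.tri y x z; rw [h.symm y x] at h2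
    exact abs_le.2 ⟨by linarith, by linarith⟩
  have hle : ∀ x y, dist (f x) (f y) ≤ ρ x y := fun x y =>
    (BoundedContinuousFunction.dist_le (h.nonneg _ _)).2 fun n => by
      rw [hf]; have := habs x y (u n); have := hw n; have := abs_nonneg (ρ x (u n) - ρ y (u n))
      nlinarith
  have hfc : Continuous f := continuous_iff_continuousAt.2 fun x => by
    rw [ContinuousAt, tendsto_iff_dist_tendsto_zero]
    refine squeeze_zero (fun _ => dist_nonneg) (fun y => hle y x) ?_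
    have : Continuous fun y => ρ y x := h.cont.comp (continuous_id.prodMk continuous_const)
    simpa [h.self] using this.tendsto x
  refine ⟨fun x y => dist (f x) (f y), ⟨(hfc.comp continuous_fst).dist (hfc.comp continuous_snd),
    fun x => dist_self _, fun x y => dist_comm _ _, fun x y z => dist_triangle _ _ _⟩, hle,
    fun x y h0 => ?_, fun c hc => ⟨24 / c ^ 2 * (2 * D) ^ c, fun ε h0 h1 => ?_⟩⟩
  · have h1 : f x = f y := dist_eq_zero.1 h0
    have c1 : ∀ x, Continuous fun z => ρ x z := fun x =>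
      h.cont.comp (continuous_const.prodMk continuous_id)
    have h2 := (TopologicalSpace.denseRange_denseSeq X).equalizer (c1 x) (c1 y) (funext fun n => by
      have := hf x y n
      rw [h1, dist_self] at this
      have h3 := (mul_eq_zero.1 this.symm).resolve_left (hw n).1.ne'
      exact sub_eq_zero.1 (abs_eq_zero.1 h3))
    have h3 : ρ x y = ρ y y := congrFun h2 y
    rw [h3, h.self]
  · have hx : 1 ≤ 2 * D / ε := by rw [le_div_iff₀ h0]; linarith
    obtain ⟨n, hn1, hn2⟩ := exists_nat_pow_near hx (by norm_num : (1 : ℝ) < 2)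
    have hfl : ∀ x (k : Fin (n + 1)), ⌊ρ x (u k) / (ε / 2)⌋₊ < 2 ^ (n + 1) := fun x k => by
      rw [Nat.floor_lt (div_nonneg (h.nonneg _ _) (by positivity))]
      push_cast
      refine lt_of_le_of_lt ?_ hn2
      rw [div_le_div_iff₀ (by positivity) h0]
      have := hD x (u k); nlinarith
    set e := Fintype.equivFin (Fin (n + 1) → Fin (2 ^ (n + 1)))
    refine ⟨_, fun x => e fun k => ⟨_, hfl x k⟩, Fintype.card_pos, ?_, fun x y hxy => ?_⟩
    · simp only [Fintype.card_fun, Fintype.card_fin]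
      push_cast
      rw [Real.log_pow, Real.log_pow]
      have l2 := Real.log_two_gt_d9
      have l3 := Real.log_two_lt_d9
      have hn0 : n ≠ 0 := by
        rintro rfl
        rw [div_lt_iff₀ h0] at hn2; norm_num at hn2; linarith
      have hn : (1 : ℝ) ≤ n := by exact_mod_cast Nat.one_le_iff_ne_zero.2 hn0
      have a1 : (n : ℝ) * Real.log 2 ≤ Real.log (2 * D / ε) := by
        rw [← Real.log_pow]; exact Real.log_le_log (by positivity) hn1
      have a2 := Real.log_le_rpow_div (x := 2 * D / ε) (by positivity) (half_pos hc)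
      set T := (2 * D / ε) ^ (c / 2) with hT
      have a3 : T * T = (2 * D) ^ c * ε ^ (-c) := by
        rw [hT, ← Real.rpow_add (by positivity), add_halves, Real.div_rpow (by positivity) h0.le,
          Real.rpow_neg h0.le, div_eq_mul_inv]
      have a4 : (n : ℝ) * Real.log 2 ≤ 2 / c * T := by
        refine a1.trans (a2.trans (le_of_eq ?_)); field_simp
      have a5 : 24 / c ^ 2 * (2 * D) ^ c * ε ^ (-c) = 6 * ((2 / c * T) * (2 / c * T)) := by
        rw [mul_assoc, ← a3]; ring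
      rw [a5]
      push_cast
      have a6 : (n : ℝ) * Real.log 2 * (n * Real.log 2) ≤ (2 / c * T) * (2 / c * T) :=
        mul_self_le_mul_self (by positivity) a4
      have a7 : ((n : ℝ) + 1) * (n + 1) ≤ 4 * (n * n) := by nlinarith
      have a8 : ((n : ℝ) + 1) * (n + 1) * Real.log 2 ≤ 4 * (n * n) * Real.log 2 :=
        mul_le_mul_of_nonneg_right a7 (by linarith)
      have a9 : 0 ≤ (n : ℝ) * n * Real.log 2 * (6 * Real.log 2 - 4) :=
        mul_nonneg (by positivity) (by linarith)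
      nlinarith
    · have h2 := e.injective hxy
      refine lt_of_le_of_lt ((BoundedContinuousFunction.dist_le (C := ε / 2) (by positivity)).2
        fun k => ?_) (by linarith)
      rw [hf]
      by_cases hk : k < n + 1
      · have h3 : ⌊ρ x (u k) / (ε / 2)⌋₊ = ⌊ρ y (u k) / (ε / 2)⌋₊ :=
          congrArg Fin.val (congrFun h2 ⟨k, hk⟩)
        have p1 : 0 ≤ ρ x (u k) / (ε / 2) := div_nonneg (h.nonneg _ _) (by positivity)
        have p2 : 0 ≤ ρ y (u k) / (ε / 2) := div_nonneg (h.nonneg _ _) (by positivity)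
        have b1 := Nat.floor_le p1
        have b2 := Nat.floor_le p2
        have b3 := Nat.lt_floor_add_one (ρ x (u k) / (ε / 2))
        have b4 := Nat.lt_floor_add_one (ρ y (u k) / (ε / 2))
        rw [h3] at b1 b3
        have b5 : |ρ x (u k) / (ε / 2) - ρ y (u k) / (ε / 2)| ≤ 1 :=
          abs_le.2 ⟨by linarith, by linarith⟩
        rw [← sub_div, abs_div, abs_of_pos (half_pos h0), div_le_one (half_pos h0)] at b5
        have := hw k; have := abs_nonneg (ρ x (u k) - ρ y (u k))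
        nlinarith
      · have b1 : (1 / 2 : ℝ) ^ k ≤ (1 / 2) ^ (n + 1) :=
          pow_le_pow_of_le_one (by norm_num) (by norm_num) (by omega)
        have b2 := (habs x y (u k)).trans (hD x y)
        have b3 : (1 / 2 : ℝ) ^ (n + 1) * D ≤ ε / 2 := by
          rw [div_lt_iff₀ h0] at hn2
          rw [one_div, inv_pow, inv_mul_le_iff₀ (by positivity)]; linarith
        calc _ ≤ (1 / 2 : ℝ) ^ (n + 1) * D :=
              mul_le_mul b1 b2 (abs_nonneg _) (by positivity)
          _ ≤ _ := b3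

end Pool.Agent.H94.PM
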