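import Pool.Agent.H94.PM1

set_option autoImplicit false
namespace Pool.Agent.H94.PM
open Set Filter Topology ENNReal

variable {X : Type*}

theorem maxsep {A : Type*} (S : Finset A) (θ : A → A → ℝ) (ε : ℝ) (hs : ∀ x y, θ x y = θ y x)
    (h0 : ∀ x, θ x x < ε) : ∃ T ⊆ S, (∀ x ∈ T, ∀ y ∈ T, x ≠ y → ε ≤ θ x y) ∧
      ∀ x ∈ S, ∃ y ∈ T, θ x y < ε := by
  classical
  obtain ⟨T, ⟨h1, h2⟩, hm⟩ := Set.exists_max_image
    {T : Finset A | T ⊆ S ∧ ∀ x ∈ T, ∀ y ∈ T, x ≠ y → ε ≤ θ x y} Finset.card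
    (S.powerset.finite_toSet.subset fun T hT => by simpa using hT.1) ⟨∅, by simp⟩
  refine ⟨T, h1, h2, fun x hx => ?_⟩
  by_contra hn
  push Not at hn
  have hxT : x ∉ T := fun h => (hn x h).not_gt (h0 x)
  have := hm (insert x T) ⟨Finset.insert_subset hx h1, fun a ha b hb hab => by
      rcases Finset.mem_insert.1 ha with ha' | ha' <;> rcases Finset.mem_insert.1 hb with hb' | hb'
      · exact absurd (ha'.trans hb'.symm) hab
      · rw [ha']; exact hn b hb'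
      · rw [hb', hs]; exact hn a ha'
      · exact h2 a ha' b hb' hab⟩
  rw [Finset.card_insert_of_notMem hxT] at this
  omega

theorem rhoP_mono {p : ℝ} (hp : 0 < p) {ρ ρ' : X → X → ℝ} (h0 : ∀ x y, 0 ≤ ρ' x y)
    (h : ∀ x y, ρ' x y ≤ ρ x y) (d : ℕ) (φ ψ : Fin d → X) : rhoP p ρ' d φ ψ ≤ rhoP p ρ d φ ψ := by
  unfold rhoP
  refine Real.rpow_le_rpow (mul_nonneg (by positivity) (Finset.sum_nonneg fun j _ =>
    Real.rpow_nonneg (h0 _ _) _)) (mul_le_mul_of_nonneg_left (Finset.sum_le_sum fun j _ =>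
    Real.rpow_le_rpow (h0 _ _) (h _ _) hp.le) (by positivity)) (by positivity)

theorem rhoP_le_iff {p : ℝ} (hp : 0 < p) {ρ : X → X → ℝ} (h0 : ∀ x y, 0 ≤ ρ x y) {d : ℕ}
    (hd : 0 < d) (φ ψ : Fin d → X) {e : ℝ} (he : 0 ≤ e) :
    rhoP p ρ d φ ψ ≤ e ↔ ∑ j, ρ (φ j) (ψ j) ^ p ≤ d * e ^ p := by
  have hd' : (0 : ℝ) < d := by exact_mod_cast hd
  unfold rhoP
  rw [one_div p, Real.rpow_inv_le_iff_of_pos (mul_nonneg (by positivity)
    (Finset.sum_nonneg fun j _ => Real.rpow_nonneg (h0 _ _) _)) he hp, one_div,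
    inv_mul_le_iff₀ hd']

theorem le_rhoInf {ρ : X → X → ℝ} {d : ℕ} (φ ψ : Fin d → X) (j : Fin d) :
    ρ (φ j) (ψ j) ≤ rhoInf ρ d φ ψ :=
  le_ciSup (f := fun j => ρ (φ j) (ψ j)) (Finite.bddAbove_range _) j

theorem rhoP_le_inf {p : ℝ} (hp : 0 < p) {ρ : X → X → ℝ} (h0 : ∀ x y, 0 ≤ ρ x y) {d : ℕ}
    (hd : 0 < d) (φ ψ : Fin d → X) : rhoP p ρ d φ ψ ≤ rhoInf ρ d φ ψ := by
  rw [rhoP_le_iff hp h0 hd _ _ ((h0 _ _).trans (le_rhoInf φ ψ ⟨0, hd⟩))]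
  calc _ ≤ ∑ _j : Fin d, rhoInf ρ d φ ψ ^ p := Finset.sum_le_sum fun j _ =>
        Real.rpow_le_rpow (h0 _ _) (le_rhoInf φ ψ j) hp.le
    _ = _ := by simp

theorem count [TopologicalSpace X] {ρ : X → X → ℝ} (h : IsPM ρ) {p ε e τ : ℝ} (hp : 1 ≤ p)
    (hε : 0 < ε) (he : 0 < e) (hτ : 2 * ε / e = τ) (hτ1 : τ ≤ 1) {M : ℕ} (l : X → Fin M)
    (hM : 1 ≤ M) (hl : ∀ x y, l x = l y → ρ x y < e) {d : ℕ} (hd : 0 < d)
    (S : Finset (Fin d → X)) (hS : ∀ x ∈ S, ∀ y ∈ S, x ≠ y → e ≤ rhoInf ρ d x y) :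
    ∃ T ⊆ S, (∀ x ∈ T, ∀ y ∈ T, x ≠ y → ε ≤ rhoP p ρ d x y) ∧
      (S.card : ℝ) ≤ T.card * Real.exp (d * (Real.log 2 + τ * Real.log M)) := by
  classical
  have hp0 : 0 < p := by linarith
  haveI : Nonempty (Fin d) := ⟨⟨0, hd⟩⟩
  obtain ⟨T, h1, h2, h3⟩ := maxsep S (rhoP p ρ d) ε
    (fun x y => by simp only [rhoP, h.symm (x _)])
    (fun x => by simp [rhoP, h.self, Real.zero_rpow hp0.ne', hp0.ne', hε])
  refine ⟨T, h1, h2, ?_⟩
  choose! c hc1 hc2 using h3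
  set B : (Fin d → X) → Finset (Fin d) := fun φ =>
    Finset.univ.filter fun j => e / 2 ≤ ρ (φ j) (c φ j) with hB
  have hτ0 : 0 < τ := by rw [← hτ]; positivity
  have hBc : ∀ φ ∈ S, (B φ).card ≤ ⌊τ * d⌋₊ := fun φ hφ => by
    have a1 := (rhoP_le_iff hp0 h.nonneg hd φ (c φ) hε.le).1 (hc2 φ hφ).le
    have a2 : ((B φ).card : ℝ) * (e / 2) ^ p ≤ ∑ j, ρ (φ j) (c φ j) ^ p := by
      calc ((B φ).card : ℝ) * (e / 2) ^ p = ∑ _l ∈ B φ, (e / 2) ^ p := by simp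
        _ ≤ ∑ j ∈ B φ, ρ (φ j) (c φ j) ^ p := Finset.sum_le_sum fun l hl =>
            Real.rpow_le_rpow (by positivity) (Finset.mem_filter.1 hl).2 hp0.le
        _ ≤ _ := Finset.sum_le_univ_sum_of_nonneg fun l => Real.rpow_nonneg (h.nonneg _ _) _
    have a3 : ε ^ p = τ ^ p * (e / 2) ^ p := by
      rw [← Real.mul_rpow hτ0.le (by positivity), ← hτ]; congr 1; field_simp
    have a4 : τ ^ p ≤ τ := by
      simpa using Real.rpow_le_rpow_of_exponent_ge hτ0 hτ1 hp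
    have a5 : 0 < (e / 2) ^ p := by positivity
    have a6 : ((B φ).card : ℝ) ≤ d * τ ^ p := by
      rw [a3, ← mul_assoc] at a1
      exact le_of_mul_le_mul_right (a2.trans a1) a5
    refine Nat.le_floor (a6.trans ?_)
    rw [mul_comm]; exact mul_le_mul_of_nonneg_right a4 (by positivity)
  have key : S.card ≤ M ^ ⌊τ * d⌋₊ * (T ×ˢ (Finset.univ : Finset (Finset (Fin d)))).card := by
    refine Finset.card_le_mul_card_image_of_maps_to (f := fun φ => (c φ, B φ))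
      (fun φ hφ => Finset.mem_product.2 ⟨hc1 φ hφ, Finset.mem_univ _⟩) _ fun q _ => ?_
    rcases (S.filter fun φ => (c φ, B φ) = q).eq_empty_or_nonempty with h0 | ⟨φ0, h0⟩
    · rw [h0]; simp
    have b0 : B φ0 = q.2 := congrArg Prod.snd (Finset.mem_filter.1 h0).2
    have b1 : (S.filter fun φ => (c φ, B φ) = q).card ≤
        (Finset.univ : Finset (q.2 → Fin M)).card := by
      refine Finset.card_le_card_of_injOn (fun φ j => l (φ j.1)) (fun _ _ => Finset.mem_univ _)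
        fun φ hφ ψ hψ hh => ?_
      obtain ⟨hφ1, hφ2⟩ := Finset.mem_filter.1 hφ
      obtain ⟨hψ1, hψ2⟩ := Finset.mem_filter.1 hψ
      by_contra hne
      obtain ⟨j, hj⟩ := exists_eq_ciSup_of_finite (f := fun j => ρ (φ j) (ψ j))
      have b2 : e ≤ ρ (φ j) (ψ j) := hj ▸ hS φ hφ1 ψ hψ1 hne
      by_cases hq : j ∈ q.2
      · exact (hl _ _ (congrFun hh ⟨j, hq⟩)).not_ge b2
      · have c1 : j ∉ B φ := by rwa [show B φ = q.2 from congrArg Prod.snd hφ2]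
        have c2 : j ∉ B ψ := by rwa [show B ψ = q.2 from congrArg Prod.snd hψ2]
        simp only [hB, Finset.mem_filter, Finset.mem_univ, true_and, not_le] at c1 c2
        rw [show c φ = q.1 from congrArg Prod.fst hφ2] at c1
        rw [show c ψ = q.1 from congrArg Prod.fst hψ2, h.symm] at c2
        have := h.tri (φ j) (q.1 j) (ψ j)
        linarith
    refine b1.trans ?_
    rw [Finset.card_univ, Fintype.card_fun, Fintype.card_fin, Fintype.card_coe, ← b0]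
    exact Nat.pow_le_pow_right hM (hBc φ0 (Finset.mem_filter.1 h0).1)
  rw [Finset.card_product, Finset.card_univ, Fintype.card_finset, Fintype.card_fin] at key
  have hM' : (1 : ℝ) ≤ M := by exact_mod_cast hM
  have k1 : (S.card : ℝ) ≤ (M : ℝ) ^ ⌊τ * d⌋₊ * (T.card * 2 ^ d) := by exact_mod_cast key
  have k2 : (M : ℝ) ^ ⌊τ * d⌋₊ ≤ Real.exp (d * (τ * Real.log M)) := by
    rw [← Real.exp_log (x := (M : ℝ) ^ ⌊τ * d⌋₊) (by positivity), Real.exp_le_exp, Real.log_pow]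
    have := Nat.floor_le (a := τ * d) (by positivity)
    have := Real.log_nonneg hM'
    nlinarith
  have k3 : (2 : ℝ) ^ d = Real.exp (d * Real.log 2) := by
    rw [← Real.log_pow, Real.exp_log (by positivity)]
  rw [mul_add, Real.exp_add, ← k3]
  calc _ ≤ _ := k1
    _ ≤ Real.exp (d * (τ * Real.log M)) * (T.card * 2 ^ d) :=
        mul_le_mul_of_nonneg_right k2 (by positivity)
    _ = _ := by ring

theorem unif [TopologicalSpace X] [CompactSpace X] {ρ ρ' : X → X → ℝ} (h : IsPM ρ) (h' : IsPM ρ')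
    (hz : ∀ x y, ρ' x y = 0 → ρ x y = 0) {δ : ℝ} (hδ : 0 < δ) :
    ∃ K : ℝ, 0 < K ∧ ∀ x y, ρ x y ^ 2 ≤ δ ^ 2 / 2 + K * ρ' x y ^ 2 := by
  obtain ⟨D0, hD0⟩ := (isCompact_univ.image h.cont).bddAbove
  have hD : ∀ x y, ρ x y ≤ D0 := fun x y => hD0 ⟨(x, y), mem_univ _, rfl⟩
  have hc : IsCompact {q : X × X | δ / 2 ≤ ρ q.1 q.2} :=
    (isClosed_le continuous_const h.cont).isCompact
  rcases {q : X × X | δ / 2 ≤ ρ q.1 q.2}.eq_empty_or_nonempty with he | he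
  · refine ⟨1, one_pos, fun x y => ?_⟩
    have h1 : ρ x y < δ / 2 := by
      by_contra h1
      exact (he ▸ (not_lt.1 h1 : (x, y) ∈ {q : X × X | δ / 2 ≤ ρ q.1 q.2}) : (x, y) ∈ (∅ : Set _))
    have := h.nonneg x y
    nlinarith [sq_nonneg (ρ' x y)]
  obtain ⟨q, hq, hm⟩ := hc.exists_isMinOn he h'.cont.continuousOn
  have hq0 : 0 < ρ' q.1 q.2 := lt_of_le_of_ne (h'.nonneg _ _) fun h0 => by
    have h1 : δ / 2 ≤ ρ q.1 q.2 := hq
    rw [hz _ _ h0.symm] at h1; linarith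
  refine ⟨D0 ^ 2 / ρ' q.1 q.2 ^ 2 + 1, by positivity, fun x y => ?_⟩
  have n1 := h.nonneg x y
  by_cases h1 : δ / 2 ≤ ρ x y
  · have h2 : ρ' q.1 q.2 ≤ ρ' x y := hm (a := (x, y)) h1
    have h3 : ρ x y ^ 2 ≤ D0 ^ 2 := pow_le_pow_left₀ n1 (hD x y) 2
    have h4 : D0 ^ 2 / ρ' q.1 q.2 ^ 2 * ρ' q.1 q.2 ^ 2 ≤ D0 ^ 2 / ρ' q.1 q.2 ^ 2 * ρ' x y ^ 2 :=
      mul_le_mul_of_nonneg_left (pow_le_pow_left₀ hq0.le h2 2) (by positivity)
    rw [div_mul_cancel₀ _ (by positivity)] at h4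
    nlinarith [sq_nonneg (ρ' x y), sq_nonneg δ]
  · have : 0 ≤ (D0 ^ 2 / ρ' q.1 q.2 ^ 2 + 1) * ρ' x y ^ 2 := by positivity
    push Not at h1
    nlinarith

theorem map_sub {G : Type*} [Group G] [MulAction G X] [TopologicalSpace X] [CompactSpace X]
    {ρ ρ' : X → X → ℝ} (h : IsPM ρ) (h' : IsPM ρ') (hz : ∀ x y, ρ' x y = 0 → ρ x y = 0) {δ : ℝ}
    (hδ : 0 < δ) : ∃ δ' : ℝ, 0 < δ' ∧ ∀ (d : ℕ) (F : Finset G) (σ : G → Equiv.Perm (Fin d)),
      0 < d → MapSet ρ' F δ' σ ⊆ MapSet ρ F δ σ := by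
  obtain ⟨K, hK, hu⟩ := unif h h' hz hδ
  refine ⟨δ / Real.sqrt (2 * K), by positivity, fun d F σ hd φ hφ s hs => ?_⟩
  have h1 := hφ s hs
  rw [rhoP_le_iff two_pos h'.nonneg hd _ _ (by positivity)] at h1
  rw [rhoP_le_iff two_pos h.nonneg hd _ _ hδ.le]
  simp only [Real.rpow_two] at h1 ⊢
  rw [div_pow, Real.sq_sqrt (by positivity)] at h1
  calc _ ≤ ∑ j : Fin d, (δ ^ 2 / 2 + K * ρ' (φ (σ s j)) (s • φ j) ^ 2) :=
        Finset.sum_le_sum fun j _ => hu _ _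
    _ = d * (δ ^ 2 / 2) + K * ∑ j : Fin d, ρ' (φ (σ s j)) (s • φ j) ^ 2 := by
        rw [Finset.sum_add_distrib, ← Finset.mul_sum]; simp
    _ ≤ d * (δ ^ 2 / 2) + K * (d * (δ ^ 2 / (2 * K))) := by gcongr
    _ = _ := by field_simp; ring

end Pool.Agent.H94.PM
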