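import Pool.Agent.H94.PM2

set_option autoImplicit false
namespace Pool.Agent.H94.PM
open Set Filter Topology ENNReal

variable {G X : Type*} [Group G] [MulAction G X] [TopologicalSpace X]

theorem easy {ρ : X → X → ℝ} (h : IsPM ρ) {p : ℝ} (hp : 0 < p) {d : ℕ → ℕ}
    (σ : ∀ i, G → Equiv.Perm (Fin (d i))) (hd : Tendsto d atTop atTop) :
    liminf (scale d σ ρ (rhoP p ρ)) (𝓝[>] 0) ≤ liminf (scale d σ ρ (rhoInf ρ)) (𝓝[>] 0) := by
  refine liminf_le_liminf ?_
  filter_upwards [Ioo_mem_nhdsGT one_pos] with ε hε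
  refine iInf_mono fun F => iInf_mono fun δ => iInf_mono fun _ => limsup_le_limsup ?_
  filter_upwards [hd.eventually_gt_atTop 0] with i hi
  have hL : 0 ≤ Real.log (1 / ε) := Real.log_nonneg (by rw [le_div_iff₀ hε.1]; linarith [hε.2])
  refine EReal.div_le_div_right_of_nonneg (by exact_mod_cast mul_nonneg (by positivity) hL)
    (ENNReal.log_monotone ?_)
  refine iSup_mono fun S => iSup_mono fun _ => iSup_le fun hS => le_iSup_of_le
    (fun x hx y hy hxy => (hS x hx y hy hxy).trans (rhoP_le_inf hp h.nonneg hi x y)) le_rfl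

theorem hard [CompactSpace X] {ρ ρ' : X → X → ℝ} (h : IsPM ρ) (h' : IsPM ρ')
    (hle : ∀ x y, ρ' x y ≤ ρ x y) (hz : ∀ x y, ρ' x y = 0 → ρ x y = 0)
    (ht : ∀ c : ℝ, 0 < c → ∃ C : ℝ, ∀ ε : ℝ, 0 < ε → ε < 1 →
        ∃ (M : ℕ) (l : X → Fin M), 1 ≤ M ∧ Real.log M ≤ C * ε ^ (-c) ∧
          ∀ x y, l x = l y → ρ' x y < ε) {p : ℝ} (hp : 1 ≤ p) {d : ℕ → ℕ}
    (σ : ∀ i, G → Equiv.Perm (Fin (d i))) (hd : Tendsto d atTop atTop) :
    liminf (scale d σ ρ' (rhoInf ρ')) (𝓝[>] 0) ≤ liminf (scale d σ ρ (rhoP p ρ)) (𝓝[>] 0) := by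
  refine EReal.le_of_forall_lt_iff_le.1 fun z hz' => ?_
  obtain ⟨y, hy1, hy2⟩ := EReal.lt_iff_exists_real_btwn.1 hz'
  have hyz : y < z := by exact_mod_cast hy2
  obtain ⟨b, hb0, hb1, hb⟩ : ∃ b : ℝ, 0 < b ∧ b < 1 ∧ (0 < y → y < b * z) := by
    by_cases h0 : 0 < y
    · have hz0 : 0 < z := by linarith
      refine ⟨(y + z) / (2 * z), by positivity, by rw [div_lt_one (by positivity)]; linarith,
        fun _ => ?_⟩
      have : (y + z) / (2 * z) * z = (y + z) / 2 := by field_simp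
      linarith
    · exact ⟨1 / 2, by norm_num, by norm_num, fun h1 => absurd h1 h0⟩
  have hc : 0 < (1 - b) / b := div_pos (by linarith) hb0
  obtain ⟨C, hC⟩ := ht _ hc
  have tend : ∀ a : ℝ, 0 < a → Tendsto (fun ε : ℝ => ε ^ a) (𝓝[>] 0) (𝓝[>] 0) := fun a ha => by
    refine tendsto_nhdsWithin_iff.2 ⟨?_, ?_⟩
    · have := (Real.continuousAt_rpow_const 0 a (Or.inr ha.le)).tendsto
      rw [Real.zero_rpow ha.ne'] at this
      exact this.mono_left nhdsWithin_le_nhds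
    · filter_upwards [self_mem_nhdsWithin] with ε hε using Real.rpow_pos_of_pos hε a
  have hL : Tendsto (fun ε : ℝ => Real.log (1 / ε)) (𝓝[>] 0) atTop := by
    simpa only [one_div, Function.comp_def] using Real.tendsto_log_atTop.comp tendsto_inv_nhdsGT_zero
  refine liminf_le_of_frequently_le ((tend b hb0).frequently ?_)
  refine ((frequently_lt_of_liminf_lt (by isBoundedDefault) hy1).and_eventually
    (((tend (1 - b) (by linarith)).eventually (Ioo_mem_nhdsGT (by norm_num : (0 : ℝ) < 1 / 2))).and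
    ((hL.eventually_ge_atTop ((Real.log 2 + 2 * C) / (b * z - y))).and
      (Ioo_mem_nhdsGT one_pos)))).mono ?_
  rintro ε ⟨h1, h2, h3, h4⟩
  obtain ⟨hε, hε1⟩ := h4
  simp only [scale, iInf_lt_iff] at h1
  obtain ⟨F, δ, hδ, h1⟩ := h1
  obtain ⟨δ', hδ', hsub⟩ := map_sub (G := G) h h' hz hδ
  have he : 0 < ε ^ b := Real.rpow_pos_of_pos hε b
  obtain ⟨M, l, hM, hMC, hl⟩ := hC (ε ^ b) he (Real.rpow_lt_one hε.le hε1 hb0)
  have hτ : 2 * ε / ε ^ b = 2 * ε ^ (1 - b) := by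
    rw [Real.rpow_sub hε, Real.rpow_one, mul_div_assoc]
  have hτM : 2 * ε ^ (1 - b) * Real.log M ≤ 2 * C := by
    have e1 : (ε ^ b) ^ (-((1 - b) / b)) * ε ^ (1 - b) = 1 := by
      rw [← Real.rpow_mul hε.le, ← Real.rpow_add hε]
      have : b * -((1 - b) / b) + (1 - b) = 0 := by field_simp; ring
      rw [this, Real.rpow_zero]
    have e2 := mul_le_mul_of_nonneg_right hMC h2.1.le
    rw [mul_assoc, e1] at e2
    linarith
  set L := Real.log (1 / ε) with hLd
  have hL0 : 0 < L := Real.log_pos (by rw [lt_div_iff₀ hε]; linarith)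
  have hLb : Real.log (1 / ε ^ b) = b * L := by
    rw [hLd, one_div, one_div, Real.log_inv, Real.log_inv, Real.log_rpow hε]; ring
  refine iInf_le_of_le F (iInf₂_le_of_le δ' hδ' (limsup_le_of_le (by isBoundedDefault) ?_))
  filter_upwards [eventually_lt_of_limsup_lt h1, hd.eventually_gt_atTop 0] with i hi hd0
  have hd' : (0 : ℝ) < d i := by exact_mod_cast hd0
  rw [EReal.div_lt_iff (by exact_mod_cast mul_pos hd' hL0) (EReal.coe_ne_top _),
    ← EReal.coe_mul] at hi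
  rw [hLb, EReal.div_le_iff_le_mul (by exact_mod_cast mul_pos hd' (mul_pos hb0 hL0))
    (EReal.coe_ne_top _), ← EReal.coe_mul, ← Real.log_exp (d i * (b * L) * z),
    ← ENNReal.log_ofReal_of_pos (Real.exp_pos _)]
  refine ENNReal.log_monotone (iSup_le fun S => iSup_le fun hS1 => iSup_le fun hS2 => ?_)
  obtain ⟨T, t1, t2, t3⟩ := count h' hp hε he hτ (by linarith [h2.2]) l hM hl hd0 S hS2
  rw [← ENNReal.ofReal_natCast]
  refine ENNReal.ofReal_le_ofReal (t3.trans ?_)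
  rcases Nat.eq_zero_or_pos T.card with h0 | h0
  · rw [h0]; simpa using (Real.exp_pos _).le
  have hT : (1 : ℝ) ≤ T.card := by exact_mod_cast h0
  have t4 : ((T.card : ℕ) : ℝ≥0∞) ≤ Nsep ε (MapSet ρ F δ (σ i)) (rhoP p ρ (d i)) :=
    le_iSup_of_le T (le_iSup_of_le (fun x hx => hsub _ F _ hd0 (hS1 (t1 hx)))
      (le_iSup_of_le (fun x hx y hy hxy => (t2 x hx y hy hxy).trans
        (rhoP_mono (by linarith) h'.nonneg hle _ x y)) le_rfl))
  have t5 := (ENNReal.log_monotone t4).trans_lt hi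
  rw [← ENNReal.ofReal_natCast, ENNReal.log_ofReal_of_pos (by linarith), EReal.coe_lt_coe_iff] at t5
  have t6 := Real.log_nonneg hT
  have hy : 0 < y := by
    by_contra hy
    have : y * (d i * L) ≤ 0 := mul_nonpos_of_nonpos_of_nonneg (not_lt.1 hy) (by positivity)
    linarith
  rw [div_le_iff₀ (by linarith [hb hy])] at h3
  rw [← Real.exp_log (x := (T.card : ℝ)) (by linarith), ← Real.exp_add, Real.exp_le_exp]
  have t7 : (d i : ℝ) * (Real.log 2 + 2 * ε ^ (1 - b) * Real.log M) ≤ d i * (L * (b * z - y)) :=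
    mul_le_mul_of_nonneg_left (by linarith) hd'.le
  nlinarith

theorem main [CompactSpace X] [TopologicalSpace.MetrizableSpace X] {d : ℕ → ℕ}
    (σ : ∀ i, G → Equiv.Perm (Fin (d i))) (hd : Tendsto d atTop atTop) {p : ℝ} (hp : 1 ≤ p) :
    mdimP X d σ p = mdimM X d σ := by
  refine le_antisymm (iInf_mono fun ρ => iInf_mono fun h => iInf_mono fun _ =>
    easy h (by linarith) σ hd) (le_iInf fun ρ => le_iInf fun h => le_iInf fun hg => ?_)
  obtain ⟨ρ', h', h1, h2, h3⟩ := tame h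
  refine iInf_le_of_le ρ' (iInf_le_of_le h' (iInf_le_of_le (fun x y hxy => ?_)
    (hard h h' h1 h2 h3 hp σ hd)))
  obtain ⟨s, hs⟩ := hg x y hxy
  exact ⟨s, lt_of_le_of_ne (h'.nonneg _ _) fun h0 => hs.ne' (h2 _ _ h0.symm)⟩

end Pool.Agent.H94.PM
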