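import Mathlib

set_option autoImplicit false

namespace Pool.Agent.H94.UB

open Set Filter Topology Complex Metric MeasureTheory

def H : Set ℂ := {z | 0 < z.im}

lemma oH : IsOpen H := isOpen_lt continuous_const continuous_im
lemma cH : Convex ℝ H := convex_halfSpace_im_gt 0

def Long (g : ℝ → ℂ) (α β A : ℝ) : Prop := ENNReal.ofReal A ≤ eVariationOn g (Icc α β)

lemma var_cmp {g h : ℝ → ℂ} {s : Set ℝ} {c : ℝ} (hc : 0 ≤ c)
    (e : ∀ x ∈ s, ∀ y ∈ s, c * ‖g x - g y‖ ≤ ‖h x - h y‖) :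
    ENNReal.ofReal c * eVariationOn g s ≤ eVariationOn h s := by
  rw [eVariationOn, ENNReal.mul_iSup]
  refine iSup_le fun ⟨n, u, hu, us⟩ => le_trans ?_ (eVariationOn.sum_le (n := n) hu us)
  rw [Finset.mul_sum]
  refine Finset.sum_le_sum fun i _ => ?_
  rw [edist_dist, edist_dist, ← ENNReal.ofReal_mul hc, dist_eq_norm, dist_eq_norm]
  exact ENNReal.ofReal_le_ofReal (e _ (us _) _ (us _))

lemma Long.cmp {g h : ℝ → ℂ} {α β A c : ℝ} (l : Long g α β A) (hc : 0 ≤ c)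
    (e : ∀ x ∈ Icc α β, ∀ y ∈ Icc α β, c * ‖g x - g y‖ ≤ ‖h x - h y‖) : Long h α β (c * A) := by
  refine le_trans ?_ (var_cmp hc e)
  rw [ENNReal.ofReal_mul hc]
  exact mul_le_mul_right l _

lemma Long.mono {g : ℝ → ℂ} {α β A B : ℝ} (l : Long g α β A) (h : B ≤ A) : Long g α β B :=
  (ENNReal.ofReal_le_ofReal h).trans l

lemma Long.sum {g : ℝ → ℂ} {I : ℕ → ℝ} (hI : Monotone I) {A : ℕ → ℝ} (hA : ∀ i, 0 ≤ A i) {n : ℕ}
    (l : ∀ i < n, Long g (I i) (I (i + 1)) (A i)) :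
    Long g (I 0) (I n) (∑ i ∈ Finset.range n, A i) := by
  rw [Long, ← eVariationOn.sum' g hI, ENNReal.ofReal_sum_of_nonneg fun i _ => hA i]
  exact Finset.sum_le_sum fun i hi => l i (Finset.mem_range.1 hi)

lemma Long.comp {g : ℝ → ℂ} {φ : ℝ → ℝ} {α β α' β' A : ℝ} (l : Long (g ∘ φ) α β A)
    (hφ : MonotoneOn φ (Icc α β)) (m : MapsTo φ (Icc α β) (Icc α' β')) : Long g α' β' A :=
  le_trans l (eVariationOn.comp_le_of_monotoneOn g φ hφ m)

lemma arc1 {β : ℝ → ℂ} (hc : Continuous β) {a b : ℝ} (hab : a ≤ b) :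
    edist (β b) (β a) ≤ μH[1] (β '' Ico a b) := by
  have h1 := (LipschitzWith.dist_left (β a)).hausdorffMeasure_image_le zero_le_one (β '' Ico a b)
  simp only [ENNReal.coe_one, ENNReal.rpow_one, one_mul, hausdorffMeasure_real] at h1
  refine le_trans ?_ h1
  rw [edist_dist, ← sub_zero (dist _ _), ← Real.volume_Ico]
  refine measure_mono fun r hr => ?_
  obtain ⟨x, hx, e⟩ := intermediate_value_Icc hab (f := fun x => dist (β x) (β a))
    (hc.dist continuous_const).continuousOn ⟨by simpa using hr.1, hr.2.le⟩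
  refine ⟨β x, ⟨x, ⟨hx.1, lt_of_le_of_ne hx.2 fun h => ?_⟩, rfl⟩, e⟩
  rw [h] at e
  exact hr.2.ne e.symm

lemma arc {β : ℝ → ℂ} (hc : Continuous β) (hi : Function.Injective β) :
    eVariationOn β univ ≤ μH[1] (range β) := by
  refine iSup_le fun ⟨n, u, hu, _⟩ => le_trans ?_
    (measure_mono (image_subset_range β (Ico (u 0) (u n))))
  induction n with
  | zero => simp
  | succ n ih =>
    rw [Finset.sum_range_succ, ← Ico_union_Ico_eq_Ico (hu (Nat.zero_le n)) (hu n.le_succ),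
      image_union, measure_union ((disjoint_image_iff hi).2 (Ico_disjoint_Ico_same))
      (measurableSet_Ico.image_of_continuousOn_injOn hc.continuousOn hi.injOn)]
    exact add_le_add ih (arc1 hc (hu n.le_succ))

lemma mv {s : Set ℂ} (hs : Convex ℝ s) {p : ℂ → ℂ} {C : ℝ} (hp : ∀ z ∈ s, DifferentiableAt ℂ p z)
    (hb : ∀ z ∈ s, ‖deriv p z‖ ≤ C) {x y : ℂ} (hx : x ∈ s) (hy : y ∈ s) :
    ‖p x - p y‖ ≤ C * ‖x - y‖ := hs.norm_image_sub_le_of_norm_deriv_le hp hb hy hx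

lemma contr {p : ℂ → ℂ} (hp : ∀ z ∈ H, DifferentiableAt ℂ p z) (hb : ∀ z ∈ H, ‖deriv p z‖ ≤ 1 / 2)
    (hi : ∀ z ∈ H, (p z).im ≤ 0) : ∃ K : ℂ → ℂ, DifferentiableOn ℂ K H ∧ MapsTo K H H ∧
      (∀ w ∈ H, K w + p (K w) = w) ∧ ∀ w ∈ H, ∀ w' ∈ H, ‖K w - K w'‖ ≤ 2 * ‖w - w'‖ ∧
        2 / 3 * ‖w - w'‖ ≤ ‖K w - K w'‖ := by
  have ex : ∀ w, ∃ z, w ∈ H → z ∈ H ∧ z + p z = w := fun w => by
    by_cases hw : w ∈ H
    swap
    · exact ⟨0, fun h => (hw h).elim⟩
    have sub : {z : ℂ | w.im ≤ z.im} ⊆ H := fun z hz =>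
      (lt_of_lt_of_le (hw : 0 < w.im) hz : 0 < z.im)
    have m : MapsTo (fun z => w - p z) {z : ℂ | w.im ≤ z.im} {z : ℂ | w.im ≤ z.im} := fun z hz => by
      have := hi z (sub hz)
      simp only [mem_setOf_eq, sub_im]; linarith
    obtain ⟨y, hy, e, -⟩ := ContractingWith.exists_fixedPoint' (K := 1 / 2)
      (isClosed_le continuous_const continuous_im).isComplete m
      ⟨by norm_num, LipschitzWith.of_dist_le_mul fun x y => by
        have := mv cH hp hb (sub y.2) (sub x.2)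
        rw [Subtype.dist_eq, Subtype.dist_eq, dist_eq_norm, dist_eq_norm]
        simp only [MapsTo.val_restrict_apply, sub_sub_sub_cancel_left]
        rw [norm_sub_rev (x : ℂ)]
        simpa using this⟩ (x := w) (le_refl w.im) (edist_ne_top _ _)
    exact ⟨y, fun _ => ⟨sub hy, by rw [eq_comm, ← sub_eq_iff_eq_add]; exact e⟩⟩
  choose K hK using ex
  have L : ∀ w ∈ H, ∀ w' ∈ H, ‖K w - K w'‖ ≤ 2 * ‖w - w'‖ ∧ 2 / 3 * ‖w - w'‖ ≤ ‖K w - K w'‖ :=
    fun w hw w' hw' => by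
      have h1 := mv cH hp hb (hK w hw).1 (hK w' hw').1
      have e : w - w' = (K w - K w') + (p (K w) - p (K w')) := by
        linear_combination (hK w' hw').2 - (hK w hw).2
      have h2 := norm_add_le (K w - K w') (p (K w) - p (K w'))
      have h3 := norm_sub_le (w - w') (p (K w) - p (K w'))
      rw [← e] at h2
      rw [e, add_sub_cancel_right, ← e] at h3
      constructor <;> linarith
  refine ⟨K, fun w hw => DifferentiableAt.differentiableWithinAt ?_, fun w hw => (hK w hw).1,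
    fun w hw => (hK w hw).2, L⟩
  refine (HasDerivAt.of_local_left_inverse (f := fun z => z + p z) (f' := 1 + deriv p (K w)) ?_
    ((hasDerivAt_id' _).add (hp _ (hK w hw).1).hasDerivAt) (fun h => ?_)
    ((oH.eventually_mem hw).mono fun y hy => (hK y hy).2)).differentiableAt
  · refine ContinuousOn.continuousAt (LipschitzOnWith.continuousOn (K := 2) ?_) (oH.mem_nhds hw)
    exact LipschitzOnWith.of_dist_le_mul fun x hx y hy => by
      simpa [dist_eq_norm] using (L x hx y hy).1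
  · have := hb _ (hK w hw).1
    rw [eq_neg_of_add_eq_zero_right h] at this
    norm_num at this

end Pool.Agent.H94.UB
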