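import Mathlib
import Pool.Agent.H94.UB1

set_option autoImplicit false

namespace Pool.Agent.H94.PS

open Set Filter Topology Complex Metric ComplexConjugate

def K (R : ℝ) : Set ℂ := {Z | Z.re ≤ 3 / 4} ∩ closedBall 0 R

lemma cK (R : ℝ) : Convex ℝ (K R) := (convex_halfSpace_re_le _).inter (convex_closedBall _ _)

lemma exP {R : ℝ} (hR : 1 ≤ R) : ∃ P : ℂ → ℂ, Differentiable ℂ P ∧ P 0 = 0 ∧
    (∀ Z, P (conj Z) = conj (P Z)) ∧
    ∀ Z ∈ K R, ‖exp (P Z) * (1 + Z * deriv P Z) - (1 - 2 * Z)‖ ≤ 1 / 4 := by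
  obtain ⟨c, hc⟩ : ∃ c : ℝ, c = 4 * (R + 1) ^ 2 := ⟨_, rfl⟩
  have c1 : 4 ≤ c := by nlinarith
  have c0 : (c : ℂ) ≠ 0 := by exact_mod_cast (by linarith : c ≠ 0)
  obtain ⟨κ, k0, k1, hκ⟩ : ∃ κ : ℝ, 0 ≤ κ ∧ κ < 1 ∧ ∀ Z ∈ K R, ‖1 - (1 - Z) / c‖ ≤ κ := by
    refine ⟨√(1 - 1 / (4 * c)), Real.sqrt_nonneg _, (Real.sqrt_lt' one_pos).2
      (by have : 0 < 1 / (4 * c) := by positivity
          linarith), fun Z hZ => Real.le_sqrt_of_sq_le ?_⟩
    have h1 : ‖1 - Z‖ ≤ R + 1 := by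
      linarith [norm_sub_le 1 Z, norm_one (α := ℂ), mem_closedBall_zero_iff.1 hZ.2]
    have h2 : ‖1 - Z‖ ^ 2 ≤ c / 4 := by nlinarith [norm_nonneg (1 - Z)]
    have h3 : Z.re ≤ 3 / 4 := hZ.1
    rw [Complex.sq_norm, normSq_apply] at h2 ⊢
    simp only [sub_re, sub_im, one_re, one_im, div_ofReal_re, div_ofReal_im] at h2 ⊢
    have cp : 0 < c := by linarith
    rw [← sub_nonneg]
    have : 1 - 1 / (4 * c) - ((1 - (1 - Z.re) / c) * (1 - (1 - Z.re) / c) +
        (0 - (0 - Z.im) / c) * (0 - (0 - Z.im) / c)) = (c * (2 * (1 - Z.re) - 1 / 4) -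
        ((1 - Z.re) * (1 - Z.re) + (0 - Z.im) * (0 - Z.im))) / c ^ 2 := by field_simp; ring
    rw [this]
    exact div_nonneg (by nlinarith) (by positivity)
  obtain ⟨n, hn⟩ := ((tendsto_pow_atTop_nhds_zero_of_lt_one k0 k1).eventually_le_const
    (show 0 < 1 / (128 * R ^ 2) by positivity)).exists
  set P : ℂ → ℂ := fun Z => -∑ k ∈ Finset.range n,
    ((1 - (1 - Z) / c) ^ (k + 1) - (1 - 1 / c) ^ (k + 1)) / (k + 1 : ℕ) with hP
  have d : ∀ Z : ℂ, HasDerivAt P (-∑ k ∈ Finset.range n, (1 - (1 - Z) / c) ^ k / c) Z := fun Z => by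
    refine (HasDerivAt.fun_sum fun k _ => ?_).neg
    refine (((((((hasDerivAt_id' Z).const_sub 1).div_const (c : ℂ)).const_sub 1).pow
      (k + 1)).sub_const _).div_const _).congr_deriv ?_
    have : ((k + 1 : ℕ) : ℂ) ≠ 0 := by exact_mod_cast k.succ_ne_zero
    simp only [Nat.add_sub_cancel]
    field_simp
  have y0 : ∀ Z ∈ K R, 1 / 4 ≤ (1 - Z).re := fun Z hZ => by
    have : Z.re ≤ 3 / 4 := hZ.1
    simp only [sub_re, one_re]; linarith
  have y1 : ∀ Z ∈ K R, 1 / 4 ≤ ‖1 - Z‖ := fun Z hZ => (y0 Z hZ).trans (re_le_norm _)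
  have y2 : ∀ Z ∈ K R, 1 - Z ≠ 0 := fun Z hZ => norm_pos_iff.1 (by linarith [y1 Z hZ])
  have e : ∀ Z ∈ K R, deriv P Z = -(1 - (1 - (1 - Z) / c) ^ n) / (1 - Z) := fun Z hZ => by
    have := mul_neg_geom_sum (1 - (1 - Z) / c) n
    rw [(d Z).deriv, ← Finset.sum_div, ← this, eq_div_iff (y2 Z hZ)]
    field_simp; ring
  have qn : ∀ Z ∈ K R, ‖(1 - (1 - Z) / c) ^ n‖ ≤ 1 / (128 * R ^ 2) := fun Z hZ => by
    rw [norm_pow]; exact le_trans (by gcongr; exact hκ Z hZ) hn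
  have P0 : P 0 = 0 := by simp [hP]
  refine ⟨P, fun Z => (d Z).differentiableAt, P0, fun Z => by simp [hP], fun Z hZ => ?_⟩
  have dl : ∀ x ∈ K R, HasDerivAt (fun x => P x - log (1 - x))
      (deriv P x - -1 / (1 - x)) x := fun x hx => (d x).differentiableAt.hasDerivAt.sub
    (((hasDerivAt_id' x).const_sub 1).clog (Or.inl (by linarith [y0 x hx])))
  have h1 := UB.mv (cK R) (C := 1 / (32 * R ^ 2)) (fun x hx => (dl x hx).differentiableAt)
    (fun x hx => by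
      rw [(dl x hx).deriv, e x hx, ← sub_div, norm_div, div_le_iff₀ (by linarith [y1 x hx]),
        show -(1 - (1 - (1 - x) / c) ^ n) - -1 = (1 - (1 - x) / c) ^ n by ring]
      refine (qn x hx).trans (le_trans (le_of_eq (by field_simp; ring))
        (mul_le_mul_of_nonneg_left (y1 x hx) (by positivity))))
    hZ ⟨show (0 : ℂ).re ≤ 3 / 4 by norm_num, mem_closedBall_self (by linarith)⟩
  have hZR := mem_closedBall_zero_iff.1 hZ.2
  simp only [P0, sub_zero, log_one] at h1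
  have h2 : ‖P Z - log (1 - Z)‖ ≤ 1 / (32 * R) :=
    h1.trans (le_trans (mul_le_mul_of_nonneg_left hZR (by positivity)) (le_of_eq (by field_simp)))
  have h3 : 1 / (32 * R) ≤ 1 / 32 := by gcongr; linarith
  have h4 := norm_exp_sub_one_le (h2.trans (by linarith))
  rw [exp_sub, exp_log (y2 Z hZ)] at h4
  have h5 := qn Z hZ
  have h0 := y2 Z hZ
  rw [e Z hZ, show exp (P Z) * (1 + Z * (-(1 - (1 - (1 - Z) / c) ^ n) / (1 - Z))) - (1 - 2 * Z) =
    (exp (P Z) / (1 - Z) - 1) * (1 - 2 * Z + Z * (1 - (1 - Z) / c) ^ n) +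
      Z * (1 - (1 - Z) / c) ^ n by field_simp; ring]
  generalize (1 - (1 - Z) / c) ^ n = q at h5
  have h6 : ‖Z * q‖ ≤ 1 / 128 := by
    rw [norm_mul]
    refine le_trans (mul_le_mul hZR h5 (norm_nonneg _) (by linarith)) ?_
    rw [mul_one_div, div_le_iff₀ (by positivity)]; nlinarith
  have h7 : ‖1 - 2 * Z + Z * q‖ ≤ 7 / 2 * R := by
    have := norm_sub_le 1 (2 * Z)
    rw [norm_mul, Complex.norm_two, norm_one] at this
    linarith [norm_add_le (1 - 2 * Z) (Z * q)]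
  refine (norm_add_le _ _).trans ?_
  rw [norm_mul]
  have h8 := mul_le_mul (h4.trans (mul_le_mul_of_nonneg_left h2 zero_le_two)) h7 (norm_nonneg _)
    (by positivity)
  have : 2 * (1 / (32 * R)) * (7 / 2 * R) = 7 / 32 := by field_simp
  linarith

variable {E : ℂ → ℂ} {R : ℝ}

lemma err (hE : Differentiable ℂ E) (hb : ∀ Z ∈ K R, ‖deriv E Z - (1 - 2 * Z)‖ ≤ 1 / 4) {x y : ℂ}
    (hx : x ∈ K R) (hy : y ∈ K R) :
    ‖E x - x * (1 - x) - (E y - y * (1 - y))‖ ≤ 1 / 4 * ‖x - y‖ := by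
  have d : ∀ x, HasDerivAt (fun x => E x - x * (1 - x)) (deriv E x - (1 - 2 * x)) x := fun x =>
    ((hE x).hasDerivAt.sub ((hasDerivAt_id' x).mul ((hasDerivAt_id' x).const_sub 1))).congr_deriv
      (by ring)
  exact UB.mv (cK R) (fun x _ => (d x).differentiableAt) (fun x hx => (d x).deriv ▸ hb x hx) hx hy

lemma lift (hR : 1 ≤ R) (hE : Differentiable ℂ E) (sy : ∀ Z, E (conj Z) = conj (E Z))
    (hb : ∀ Z ∈ K R, ‖deriv E Z - (1 - 2 * Z)‖ ≤ 1 / 4) {Z : ℝ → ℂ} (hc : ContinuousOn Z (Icc 0 1))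
    (h0 : Z 0 = 0) {v : ℂ} {τ : ℝ → ℝ} (hτ : ∀ t, 0 < t → 0 < τ t)
    (h : ∀ t ∈ Icc (0 : ℝ) 1, ‖Z t‖ ≤ R ∧ E (Z t) = τ t * v ∧ deriv E (Z t) ≠ 0) :
    (Z 1).re ≤ 3 / 4 ∧ (v.im = 0 → (Z 1).im = 0) := by
  have re : ∀ z : ℂ, z.im = 0 → (E z).im = 0 := fun z hz =>
    conj_eq_iff_im.1 (by rw [← sy, conj_eq_iff_im.2 hz])
  have ivt : ∀ a ∈ Icc (0 : ℝ) (Z 1).re, ∃ t ∈ Icc (0 : ℝ) 1, (Z t).re = a := fun a ha =>
    intermediate_value_Icc zero_le_one (continuous_re.comp_continuousOn hc)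
      (by simpa [h0] using ha)
  have rK : ∀ x : ℝ, |x| ≤ R → x ≤ 3 / 4 → (x : ℂ) ∈ K R := fun x h1 h2 =>
    ⟨h2, by simpa using h1⟩
  by_cases hv : v.im = 0
  · have all : Icc (0 : ℝ) 1 ⊆ {t | (Z t).im = 0} := by
      refine IsClosed.Icc_subset_of_forall_mem_nhdsWithin ?_ (by simp [h0]) fun x hx => ?_
      · rw [inter_comm]
        exact (continuous_im.comp_continuousOn hc).preimage_isClosed_of_isClosed isClosed_Icc
          (t := {0}) isClosed_singleton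
      · have m := Icc_mem_nhdsGT_of_mem hx.2
        have t1 : Tendsto Z (𝓝[>] x) (𝓝 (Z x)) :=
          (hc x (Ico_subset_Icc_self hx.2)).mono_of_mem_nhdsWithin m
        have t2 := (continuous_conj.tendsto _).comp t1
        rw [conj_eq_iff_im.2 hx.1] at t2
        have s := ((hE.analyticAt (Z x)).hasStrictDerivAt.hasStrictFDerivAt_equiv
          (h x (Ico_subset_Icc_self hx.2)).2.2).eventually_left_inverse
        filter_upwards [t1.eventually s, t2.eventually s, m] with t h1 h2 ht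
        have e : E (conj (Z t)) = E (Z t) := by
          rw [sy, conj_eq_iff_im, (h t ht).2.1]; simp [hv]
        simp only [Function.comp, e, h1] at h2
        exact conj_eq_iff_im.1 h2.symm
    refine ⟨not_lt.1 fun hl => ?_, fun _ => all (right_mem_Icc.2 zero_le_one)⟩
    have a0 := (abs_re_le_norm _).trans (hb _ (rK 0 (by simpa using by linarith) (by norm_num)))
    have a1 := (abs_re_le_norm _).trans (hb _ (rK (3 / 4)
      (by rw [abs_of_pos] <;> linarith) le_rfl))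
    simp only [sub_re, one_re, mul_re, re_ofNat, im_ofNat, ofReal_re, ofReal_im] at a0 a1
    obtain ⟨c, c1, c2⟩ := intermediate_value_Icc' (show (0 : ℝ) ≤ 3 / 4 by norm_num)
      (f := fun x : ℝ => (deriv E x).re) (by have := hE.deriv.continuous; fun_prop)
      (show (0 : ℝ) ∈ _ from ⟨by linarith [(abs_le.1 a1).2], by linarith [(abs_le.1 a0).1]⟩)
    obtain ⟨t, t1, t2⟩ := ivt c ⟨c1.1, by linarith [c1.2]⟩
    have e : Z t = c := Complex.ext t2 (all t1)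
    refine (h t t1).2.2 (e ▸ Complex.ext c2 ?_)
    have := (imCLM.hasFDerivAt.comp_hasDerivAt c (hE c).hasDerivAt.comp_ofReal)
    rw [show (imCLM ∘ fun y : ℝ => E y) = fun _ => 0 from funext fun y => re y (by simp)] at this
    exact this.unique (hasDerivAt_const c 0)
  refine ⟨not_lt.1 fun hl => ?_, fun h => (hv h).elim⟩
  obtain ⟨a, a1, a2⟩ := ivt (1 / 4) ⟨by norm_num, by linarith⟩
  obtain ⟨b, b1, b2⟩ := ivt (3 / 4) ⟨by norm_num, hl.le⟩
  have pos : ∀ t ∈ Icc (0 : ℝ) 1, 0 < (Z t).re → 0 < t := fun t ht h1 =>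
    lt_of_le_of_ne ht.1 (by rintro rfl; simp [h0] at h1)
  have est : ∀ t ∈ Icc (0 : ℝ) 1, (Z t).re ≤ 3 / 4 →
      |τ t * v.im - (Z t).im * (1 - 2 * (Z t).re)| ≤ 1 / 4 * |(Z t).im| := fun t ht h1 => by
    have := (abs_im_le_norm _).trans (err hE hb ⟨h1, mem_closedBall_zero_iff.2 (h t ht).1⟩
      (rK (Z t).re ((abs_re_le_norm _).trans (h t ht).1) h1))
    rw [show Z t - (Z t).re = (Z t).im * I by linear_combination -re_add_im (Z t), (h t ht).2.1]
      at this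
    simp only [sub_im, mul_im, re _ (ofReal_im _), ofReal_re, ofReal_im, sub_re, one_re, one_im,
      norm_mul, norm_I, norm_real, Real.norm_eq_abs] at this
    refine le_of_eq_of_le ?_ (this.trans (le_of_eq (by ring)))
    congr 1; ring
  have sub : uIcc a b ⊆ Icc 0 1 := uIcc_subset_Icc a1 b1
  have nz : ∀ t ∈ uIcc a b, (Z t).im ≠ 0 := fun t ht h1 => by
    have := re _ h1
    rw [(h t (sub ht)).2.1] at this
    simp only [mul_im, ofReal_re, ofReal_im, zero_mul, add_zero, mul_eq_zero, hv, or_false] at this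
    exact (hτ t (lt_of_lt_of_le (lt_min (pos a a1 (by linarith)) (pos b b1 (by linarith)))
      ht.1)).ne' this
  have e1 := abs_le.1 (est a a1 (by linarith))
  have e2 := abs_le.1 (est b b1 b2.le)
  have p1 := hτ a (pos a a1 (by linarith))
  have p2 := hτ b (pos b b1 (by linarith))
  rw [a2] at e1
  rw [b2] at e2
  obtain ⟨t, t1, t2⟩ := intermediate_value_uIcc (f := fun t => (Z t).im)
    (continuous_im.comp_continuousOn (hc.mono sub)) (show (0 : ℝ) ∈ _ from by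
      rcases lt_or_gt_of_ne hv with h1 | h1
      · refine mem_uIcc.2 (Or.inl ⟨not_lt.1 fun h2 => ?_, not_lt.1 fun h2 => ?_⟩)
        · rw [abs_of_pos h2] at e1; nlinarith [mul_pos p1 (neg_pos.2 h1)]
        · rw [abs_of_neg h2] at e2; nlinarith [mul_pos p2 (neg_pos.2 h1)]
      · refine mem_uIcc.2 (Or.inr ⟨not_lt.1 fun h2 => ?_, not_lt.1 fun h2 => ?_⟩)
        · rw [abs_of_pos h2] at e2; nlinarith [mul_pos p2 h1]
        · rw [abs_of_neg h2] at e1; nlinarith [mul_pos p1 h1])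
  exact nz t t1 t2

end Pool.Agent.H94.PS
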