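import Mathlib

set_option autoImplicit false

namespace Pool.Agent.H94.Pate

open MvPolynomial Finset

section Perm
open Equiv Matrix

variable {R : Type*} [CommSemiring R]

theorem permanent_succ_column_zero {n : ℕ} (A : Matrix (Fin (n + 1)) (Fin (n + 1)) R) :
    A.permanent = ∑ i : Fin (n + 1), A i 0 * (A.submatrix i.succAbove Fin.succ).permanent := by
  unfold Matrix.permanent
  rw [Finset.univ_perm_fin_succ, ← Finset.univ_product_univ]
  simp only [Finset.sum_map, Equiv.toEmbedding_apply, Finset.sum_product, Matrix.submatrix]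
  refine Finset.sum_congr rfl fun i _ => Fin.cases ?_ (fun i => ?_) i
  · simp only [Fin.prod_univ_succ, Finset.mul_sum,
      Equiv.Perm.decomposeFin_symm_apply_zero, Equiv.Perm.decomposeFin_symm_apply_succ,
      Fin.succAbove_zero, Equiv.swap_self, Equiv.refl_apply, of_apply]
  · have h := permanent_permute_cols (Fin.cycleRange i)
      (Matrix.of fun a b : Fin n => A (i.succ.succAbove a) b.succ)
    unfold Matrix.permanent at h
    rw [← h]
    simp only [Fin.prod_univ_succ, Finset.mul_sum,
      Equiv.Perm.decomposeFin_symm_apply_zero, Equiv.Perm.decomposeFin_symm_apply_succ,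
      Matrix.submatrix_apply, of_apply, id, Fin.succAbove_cycleRange]

theorem permanent_succ_row_zero {n : ℕ} (A : Matrix (Fin (n + 1)) (Fin (n + 1)) R) :
    A.permanent = ∑ j : Fin (n + 1), A 0 j * (A.submatrix Fin.succ j.succAbove).permanent := by
  rw [← permanent_transpose, permanent_succ_column_zero]
  refine Finset.sum_congr rfl fun j _ => ?_
  rw [← permanent_transpose (A.submatrix Fin.succ j.succAbove), transpose_submatrix]
  rfl

end Perm

variable {m : ℕ}

/-- multi-index factorial -/
def fac (α : Fin m →₀ ℕ) : ℕ := ∏ k, (α k).factorial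

theorem fac_add (i : Fin m) (α : Fin m →₀ ℕ) :
    fac (Finsupp.single i 1 + α) = fac α * (α i + 1) := by
  unfold fac
  rw [← Finset.mul_prod_erase _ _ (Finset.mem_univ i),
    ← Finset.mul_prod_erase _ (fun k => (α k).factorial) (Finset.mem_univ i)]
  have h1 : ∏ k ∈ Finset.univ.erase i, ((Finsupp.single i 1 + α : Fin m →₀ ℕ) k).factorial
      = ∏ k ∈ Finset.univ.erase i, (α k).factorial := by
    refine Finset.prod_congr rfl fun k hk => ?_
    have : k ≠ i := (Finset.mem_erase.mp hk).1
    simp [Finsupp.single_eq_of_ne this]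
  rw [h1]
  simp only [Finsupp.add_apply, Finsupp.single_eq_same]
  rw [add_comm 1 (α i), Nat.factorial_succ]
  ring

/-- Fischer pairing -/
noncomputable def F (P Q : MvPolynomial (Fin m) ℂ) : ℂ :=
  ∑ α ∈ P.support, (fac α : ℂ) * (starRingEnd ℂ) (coeff α P) * coeff α Q

theorem F_eq (P Q : MvPolynomial (Fin m) ℂ) (S : Finset (Fin m →₀ ℕ)) (h : P.support ⊆ S) :
    F P Q = ∑ α ∈ S, (fac α : ℂ) * (starRingEnd ℂ) (coeff α P) * coeff α Q := by
  unfold F
  refine Finset.sum_subset h fun α _ hα => ?_
  rw [MvPolynomial.notMem_support_iff.mp hα]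
  simp

theorem F_add_right (P Q R : MvPolynomial (Fin m) ℂ) : F P (Q + R) = F P Q + F P R := by
  unfold F
  rw [← Finset.sum_add_distrib]
  refine Finset.sum_congr rfl fun α _ => ?_
  rw [coeff_add]; ring

theorem F_C_right (P Q : MvPolynomial (Fin m) ℂ) (c : ℂ) : F P (C c * Q) = c * F P Q := by
  unfold F
  rw [Finset.mul_sum]
  refine Finset.sum_congr rfl fun α _ => ?_
  rw [coeff_C_mul]; ring

theorem F_add_left (P Q R : MvPolynomial (Fin m) ℂ) : F (P + Q) R = F P R + F Q R := by
  classical
  rw [F_eq (P + Q) R (P.support ∪ Q.support) MvPolynomial.support_add,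
    F_eq P R (P.support ∪ Q.support) Finset.subset_union_left,
    F_eq Q R (P.support ∪ Q.support) Finset.subset_union_right, ← Finset.sum_add_distrib]
  refine Finset.sum_congr rfl fun α _ => ?_
  rw [coeff_add, map_add]; ring

theorem F_C_left (P Q : MvPolynomial (Fin m) ℂ) (c : ℂ) :
    F (C c * P) Q = (starRingEnd ℂ) c * F P Q := by
  have h : (C c * P).support ⊆ P.support := by
    intro α hα
    rw [MvPolynomial.mem_support_iff] at hα ⊢
    rw [coeff_C_mul] at hα
    exact fun h => hα (by rw [h, mul_zero])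
  rw [F_eq _ Q _ h]
  unfold F
  rw [Finset.mul_sum]
  refine Finset.sum_congr rfl fun α _ => ?_
  rw [coeff_C_mul, map_mul]; ring

theorem F_zero_left (Q : MvPolynomial (Fin m) ℂ) : F 0 Q = 0 := by simp [F]

theorem F_zero_right (Q : MvPolynomial (Fin m) ℂ) : F Q 0 = 0 := by simp [F]

theorem F_sum_left {ι : Type*} (s : Finset ι) (P : ι → MvPolynomial (Fin m) ℂ)
    (Q : MvPolynomial (Fin m) ℂ) : F (∑ i ∈ s, P i) Q = ∑ i ∈ s, F (P i) Q := by
  classical
  induction s using Finset.induction_on with
  | empty => simp [F_zero_left]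
  | insert a s ha ih => rw [Finset.sum_insert ha, Finset.sum_insert ha, F_add_left, ih]

theorem F_sum_right {ι : Type*} (s : Finset ι) (P : ι → MvPolynomial (Fin m) ℂ)
    (Q : MvPolynomial (Fin m) ℂ) : F Q (∑ i ∈ s, P i) = ∑ i ∈ s, F Q (P i) := by
  classical
  induction s using Finset.induction_on with
  | empty => simp [F_zero_right]
  | insert a s ha ih => rw [Finset.sum_insert ha, Finset.sum_insert ha, F_add_right, ih]

theorem F_X_mul (i : Fin m) (P Q : MvPolynomial (Fin m) ℂ) :
    F (X i * P) Q = F P (pderiv i Q) := by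
  unfold F
  rw [support_X_mul, Finset.sum_map]
  refine Finset.sum_congr rfl fun α _ => ?_
  simp only [addLeftEmbedding_apply]
  rw [coeff_X_mul, coeff_pderiv, fac_add, add_comm α]
  push_cast
  ring

/-- linear form -/
noncomputable def lin (u : Fin m → ℂ) : MvPolynomial (Fin m) ℂ := ∑ i, C (u i) * X i

theorem pderiv_lin (i : Fin m) (u : Fin m → ℂ) : pderiv i (lin u) = C (u i) := by
  unfold lin
  rw [map_sum, Finset.sum_eq_single i]
  · rw [pderiv_C_mul, pderiv_X_self, mul_one]
  · intro j _ hj
    rw [pderiv_C_mul, pderiv_X_of_ne hj, mul_zero]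
  · simp

theorem pderiv_prod (i : Fin m) : ∀ (k : ℕ) (p : Fin (k + 1) → MvPolynomial (Fin m) ℂ),
    pderiv i (∏ c, p c) = ∑ c, pderiv i (p c) * ∏ d, p (c.succAbove d) := by
  intro k
  induction k with
  | zero => intro p; simp
  | succ k ih =>
    intro p
    rw [Fin.prod_univ_succ, pderiv_mul, ih (fun c => p c.succ), Fin.sum_univ_succ (n := k + 1),
      Finset.mul_sum]
    congr 1
    refine Finset.sum_congr rfl fun c _ => ?_
    rw [Fin.prod_univ_succ (fun d => p (c.succ.succAbove d))]
    simp only [Fin.succ_succAbove_zero, Fin.succ_succAbove_succ]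
    ring

theorem F_prod : ∀ (k : ℕ) (u w : Fin k → Fin m → ℂ),
    F (∏ r, lin (u r)) (∏ c, lin (w c))
      = (Matrix.of fun r c => ∑ i, (starRingEnd ℂ) (u r i) * w c i).permanent := by
  intro k
  induction k with
  | zero =>
    intro u w
    simp [F, fac, MvPolynomial.support_one, Matrix.permanent]
  | succ k ih =>
    intro u w
    rw [permanent_succ_row_zero, Fin.prod_univ_succ (fun r => lin (u r))]
    have h1 : lin (u 0) * ∏ r : Fin k, lin (u r.succ)
        = ∑ i, C (u 0 i) * (X i * ∏ r : Fin k, lin (u r.succ)) := by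
      unfold lin
      rw [Finset.sum_mul]
      exact Finset.sum_congr rfl fun i _ => mul_assoc _ _ _
    rw [h1, F_sum_left]
    simp only [F_C_left, F_X_mul, pderiv_prod, pderiv_lin, F_sum_right, F_C_right, ih,
      Matrix.of_apply, Finset.mul_sum, Finset.sum_mul]
    rw [Finset.sum_comm]
    refine Finset.sum_congr rfl fun c _ => Finset.sum_congr rfl fun i _ => ?_
    rw [mul_assoc]
    rfl

end Pool.Agent.H94.Pate
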