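import Mathlib
import Pool.Agent.H94.Pate1

set_option autoImplicit false

namespace Pool.Agent.H94.Pate

open MvPolynomial Finset

noncomputable def B (k : ℕ) : ℝ := Real.sqrt ((k : ℝ) * ((k : ℝ) - 1))

theorem B_nonneg (k : ℕ) : 0 ≤ B k := Real.sqrt_nonneg _

theorem B_sq (k : ℕ) : B k ^ 2 = (k : ℝ) * ((k : ℝ) - 1) := by
  unfold B
  apply Real.sq_sqrt
  rcases Nat.eq_zero_or_pos k with h | h
  · subst h; simp
  · have : (1 : ℝ) ≤ k := by exact_mod_cast h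
    nlinarith

theorem B_pos (k : ℕ) (hk : 2 ≤ k) : 0 < B k := by
  unfold B
  apply Real.sqrt_pos.mpr
  have : (2 : ℝ) ≤ k := by exact_mod_cast hk
  nlinarith

theorem B_le (k : ℕ) (hk : 1 ≤ k) : B k ≤ (k : ℝ) - 1 / 2 := by
  have h1 : (1 : ℝ) ≤ k := by exact_mod_cast hk
  apply abs_le_of_sq_le_sq' _ (by linarith) |>.2
  rw [B_sq]; nlinarith

theorem B_sq2 (k : ℕ) : B (k + 2) ^ 2 = ((k : ℝ) + 1) * ((k : ℝ) + 2) := by
  rw [B_sq]; push_cast; ring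

theorem B_ge (k : ℕ) : (k : ℝ) + 1 ≤ B (k + 2) := by
  have h0 : (0 : ℝ) ≤ k := Nat.cast_nonneg k
  apply abs_le_of_sq_le_sq' _ (B_nonneg _) |>.2
  rw [B_sq2]; nlinarith

theorem B_step (k : ℕ) (hk : 1 ≤ k) : B k + 2 ≤ B (k + 2) := by
  have h1 := B_le k hk
  have h2 := B_sq k
  apply abs_le_of_sq_le_sq' _ (B_nonneg _) |>.2
  rw [B_sq2]; nlinarith

theorem B_four : B 4 ≤ 3.4642 := by
  apply abs_le_of_sq_le_sq' _ (by norm_num) |>.2
  rw [B_sq]; norm_num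

noncomputable def psi1 (ρ : ℝ) (i j : ℕ) : ℝ :=
  if j < 2 then 0 else if j = 2 then 4 * ρ ^ 2 / ((i : ℝ) * ((i : ℝ) - 1))
  else if i = 2 then ρ ^ 2 * ((j : ℝ) * ((j : ℝ) - 1)) / 4 else ρ * B j / B i

noncomputable def psi2 (ρ : ℝ) (i j : ℕ) : ℝ :=
  if i < 2 then 0 else if j = 2 then ((i : ℝ) * ((i : ℝ) - 1)) / (4 * ρ ^ 2)
  else if i = 2 then 4 / (ρ ^ 2 * ((j : ℝ) * ((j : ℝ) - 1))) else B i / (ρ * B j)

theorem psi_prod (ρ : ℝ) (hρ : 0 < ρ) (i j : ℕ) (hi : 2 ≤ i) (hj : 2 ≤ j) :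
    0 < psi1 ρ i j ∧ psi1 ρ i j * psi2 ρ i j = 1 := by
  have hi' : (2 : ℝ) ≤ i := by exact_mod_cast hi
  have hj' : (2 : ℝ) ≤ j := by exact_mod_cast hj
  have a1 : 0 < (i : ℝ) * ((i : ℝ) - 1) := by nlinarith
  have a2 : 0 < (j : ℝ) * ((j : ℝ) - 1) := by nlinarith
  have b1 := B_pos i hi
  have b2 := B_pos j hj
  unfold psi1 psi2
  rw [if_neg (by omega), if_neg (show ¬ i < 2 by omega)]
  split_ifs
  · refine ⟨by positivity, ?_⟩
    rw [div_mul_div_comm, div_eq_one_iff_eq (by positivity)]; ring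
  · refine ⟨by positivity, ?_⟩
    rw [div_mul_div_comm, div_eq_one_iff_eq (by positivity)]; ring
  · refine ⟨by positivity, ?_⟩
    rw [div_mul_div_comm, div_eq_one_iff_eq (by positivity)]; ring

theorem cost1 (ρ : ℝ) (p q : ℕ) : ((p : ℝ) + 1) * ((p : ℝ) + 2) * psi1 ρ (p + 2) q =
    if q < 2 then 0 else if q = 2 then 4 * ρ ^ 2
    else if p = 0 then ρ ^ 2 * ((q : ℝ) * ((q : ℝ) - 1)) / 2 else ρ * B q * B (p + 2) := by
  have h0 : (0 : ℝ) ≤ p := Nat.cast_nonneg p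
  unfold psi1
  by_cases h1 : q < 2
  · simp [h1]
  rw [if_neg h1, if_neg h1]
  by_cases h2 : q = 2
  · rw [if_pos h2, if_pos h2]
    push_cast
    have : ((p : ℝ) + 2) * ((p : ℝ) + 2 - 1) ≠ 0 := by
      have : 0 < ((p : ℝ) + 2) * ((p : ℝ) + 2 - 1) := by nlinarith
      exact this.ne'
    rw [mul_div_assoc', div_eq_iff this]; ring
  rw [if_neg h2, if_neg h2]
  by_cases h3 : p = 0
  · subst h3
    simp only [zero_add, if_true]
    push_cast; ring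
  rw [if_neg (by omega), if_neg h3, ← B_sq2]
  have := (B_pos (p + 2) (by omega)).ne'
  field_simp

theorem cost2 (ρ : ℝ) (hρ : 0 < ρ) (p q : ℕ) :
    ρ ^ 2 * (((q : ℝ) + 1) * ((q : ℝ) + 2)) * psi2 ρ p (q + 2) =
    if p < 2 then 0 else if q = 0 then ((p : ℝ) * ((p : ℝ) - 1)) / 2
    else if p = 2 then 4 else ρ * B p * B (q + 2) := by
  have h0 : (0 : ℝ) ≤ q := Nat.cast_nonneg q
  have hρ' := hρ.ne'
  unfold psi2
  by_cases h1 : p < 2
  · simp [h1]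
  rw [if_neg h1, if_neg h1]
  by_cases h2 : q = 0
  · subst h2
    simp only [zero_add, if_true]
    push_cast
    field_simp
    ring
  rw [if_neg (by omega), if_neg h2]
  by_cases h3 : p = 2
  · rw [if_pos h3, if_pos h3]
    push_cast
    have : ρ ^ 2 * (((q : ℝ) + 2) * ((q : ℝ) + 2 - 1)) ≠ 0 := by
      have : 0 < ((q : ℝ) + 2) * ((q : ℝ) + 2 - 1) := by nlinarith
      positivity
    rw [mul_div_assoc', div_eq_iff this]; ring
  rw [if_neg h3, if_neg h3, ← B_sq2]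
  have := (B_pos (q + 2) (by omega)).ne'
  field_simp

theorem natural (ρ : ℝ) (hρ : 0 < ρ) (p q : ℕ) (hp : 1 ≤ p) (hq : 1 ≤ q) :
    ρ * B q * B (p + 2) + ρ * B p * B (q + 2) + 2 * ρ * ((p : ℝ) + q + 2)
      ≤ ((p : ℝ) + 1) * ((p : ℝ) + 2) + ρ ^ 2 * (((q : ℝ) + 1) * ((q : ℝ) + 2)) := by
  rw [← B_sq2, ← B_sq2]
  have h1 := B_step p hp
  have h2 := B_step q hq
  have h3 := B_ge p
  have h4 := B_ge q
  have h5 := B_nonneg (p + 2)
  have h6 := B_nonneg (q + 2)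
  have e1 : ρ * B q * B (p + 2) ≤ ρ * (B (q + 2) - 2) * B (p + 2) := by
    apply mul_le_mul_of_nonneg_right _ h5
    exact mul_le_mul_of_nonneg_left (by linarith) hρ.le
  have e2 : ρ * B p * B (q + 2) ≤ ρ * (B (p + 2) - 2) * B (q + 2) := by
    apply mul_le_mul_of_nonneg_right _ h6
    exact mul_le_mul_of_nonneg_left (by linarith) hρ.le
  have e3 : 2 * ρ * ((p : ℝ) + q + 2) ≤ 2 * ρ * (B (p + 2) + B (q + 2)) :=
    mul_le_mul_of_nonneg_left (by linarith) (by linarith)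
  nlinarith [sq_nonneg (B (p + 2) - ρ * B (q + 2))]

theorem special (x y : ℝ) (hx : 0 ≤ x) (hy : 0 ≤ y) (k : ℕ) (hk : 3 ≤ k) :
    x * y * B k * B 4 + 2 * (x * y) * ((k : ℝ) + 4)
      ≤ 8 * x ^ 2 + y ^ 2 * (((k : ℝ) + 1) * ((k : ℝ) + 2)) := by
  have h1 := B_le k (by omega)
  have h2 := B_four
  have h3 := B_nonneg k
  have h4 := B_nonneg 4
  have hk' : (3 : ℝ) ≤ k := by exact_mod_cast hk
  have e0 : B k * B 4 ≤ ((k : ℝ) - 1 / 2) * 3.4642 := mul_le_mul h1 h2 h4 (by linarith)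
  have e1 : x * y * B k * B 4 ≤ x * y * (((k : ℝ) - 1 / 2) * 3.4642) := by
    rw [mul_assoc (x * y)]
    exact mul_le_mul_of_nonneg_left e0 (mul_nonneg hx hy)
  have e2 : (5.4642 * (k : ℝ) + 6.2679) ^ 2 ≤ 32 * (((k : ℝ) + 1) * ((k : ℝ) + 2)) := by
    nlinarith
  have e3 : y ^ 2 * (5.4642 * (k : ℝ) + 6.2679) ^ 2
      ≤ y ^ 2 * (32 * (((k : ℝ) + 1) * ((k : ℝ) + 2))) :=
    mul_le_mul_of_nonneg_left e2 (sq_nonneg y)
  nlinarith [sq_nonneg (16 * x - y * (5.4642 * (k : ℝ) + 6.2679))]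

theorem node (ρ : ℝ) (hρ : 0 < ρ) (p q : ℕ) :
    2 * ρ * ((p : ℝ) + q + 2) ≤ ((p : ℝ) + 1) * ((p : ℝ) + 2) * (1 - psi1 ρ (p + 2) q)
      + ρ ^ 2 * (((q : ℝ) + 1) * ((q : ℝ) + 2)) * (1 - psi2 ρ p (q + 2)) := by
  rw [mul_sub, mul_sub, cost1, cost2 ρ hρ]
  have hB1 : B 1 = 0 := by simp [B]
  have hp0 : (0 : ℝ) ≤ p := Nat.cast_nonneg p
  have hq0 : (0 : ℝ) ≤ q := Nat.cast_nonneg q
  obtain hp | hp | hp | hp : p = 0 ∨ p = 1 ∨ p = 2 ∨ 3 ≤ p := by omega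
  all_goals obtain hq | hq | hq | hq : q = 0 ∨ q = 1 ∨ q = 2 ∨ 3 ≤ q := by omega
  · subst hp hq; norm_num; nlinarith [sq_nonneg (ρ - 1)]
  · subst hp hq; norm_num; nlinarith [sq_nonneg (ρ - 1 / 2)]
  · subst hp hq; norm_num; nlinarith [sq_nonneg (ρ - 1 / 2)]
  · subst hp
    rw [if_neg (by omega), if_neg (by omega), if_pos rfl, if_pos (by omega)]
    push_cast
    have e2 : ((q : ℝ) + 2) ^ 2 ≤ 2 * (((q : ℝ) + 1) * ((q : ℝ) + 2)) - (q : ℝ) * ((q : ℝ) - 1) := by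
      nlinarith
    have e3 := mul_le_mul_of_nonneg_left e2 (sq_nonneg ρ)
    nlinarith [sq_nonneg (2 - ρ * ((q : ℝ) + 2))]
  · subst hp hq; norm_num; nlinarith [sq_nonneg (ρ - 3 / 2)]
  · subst hp hq; norm_num; nlinarith [sq_nonneg (ρ - 1)]
  · subst hp hq; norm_num; nlinarith [sq_nonneg (ρ - 5 / 8)]
  · subst hp
    rw [if_neg (by omega), if_neg (by omega), if_neg (by omega), if_pos (by omega)]
    have := natural ρ hρ 1 q le_rfl (by omega)
    rw [hB1] at this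
    linarith
  · subst hp hq; norm_num; nlinarith [sq_nonneg (ρ - 2)]
  · subst hp hq; norm_num; nlinarith [sq_nonneg (ρ - 5 / 6)]
  · subst hp hq; norm_num; nlinarith [sq_nonneg (ρ - 3 / 4)]
  · subst hp
    rw [if_neg (by omega), if_neg (by omega), if_neg (by omega), if_neg (by omega),
      if_neg (by omega), if_pos rfl]
    have := special 1 ρ zero_le_one hρ.le q hq
    push_cast
    linarith
  · subst hq
    rw [if_pos (by omega), if_neg (by omega), if_pos rfl]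
    push_cast
    have e2 : ((p : ℝ) + 2) ^ 2 ≤ 2 * (((p : ℝ) + 1) * ((p : ℝ) + 2)) - (p : ℝ) * ((p : ℝ) - 1) := by
      nlinarith
    nlinarith [sq_nonneg (2 * ρ - ((p : ℝ) + 2))]
  · subst hq
    rw [if_pos (by omega), if_neg (by omega), if_neg (by omega), if_neg (by omega)]
    have := natural ρ hρ p 1 (by omega) le_rfl
    rw [hB1] at this
    linarith
  · subst hq
    rw [if_neg (by omega), if_pos rfl, if_neg (by omega), if_neg (by omega), if_neg (by omega)]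
    have := special ρ 1 hρ.le zero_le_one p hp
    push_cast
    linarith
  · rw [if_neg (by omega), if_neg (by omega), if_neg (by omega), if_neg (by omega),
      if_neg (by omega), if_neg (by omega)]
    have := natural ρ hρ p q (by omega) (by omega)
    linarith

theorem pointwise (u v : ℂ) (a b : ℝ) (ha : 0 < a) (hab : a * b = 1) :
    (1 - a) * ‖u‖ ^ 2 + (1 - b) * ‖v‖ ^ 2 ≤ ‖u - v‖ ^ 2 := by
  have h1 : (‖u‖ - ‖v‖) ^ 2 ≤ ‖u - v‖ ^ 2 := by
    rw [← sq_abs (‖u‖ - ‖v‖)]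
    exact pow_le_pow_left₀ (abs_nonneg _) (abs_norm_sub_norm_le u v) 2
  have h2 : 0 ≤ a * (a * ‖u‖ ^ 2 + b * ‖v‖ ^ 2 - 2 * ‖u‖ * ‖v‖) := by
    have : a * (a * ‖u‖ ^ 2 + b * ‖v‖ ^ 2 - 2 * ‖u‖ * ‖v‖) = (a * ‖u‖ - ‖v‖) ^ 2 := by
      linear_combination (‖v‖ ^ 2) * hab
    rw [this]; positivity
  have h3 := (mul_nonneg_iff_of_pos_left ha).mp h2
  nlinarith

variable {m : ℕ}

/-- weighted Fischer norm -/
noncomputable def W (φ : (Fin m →₀ ℕ) → ℝ) (P : MvPolynomial (Fin m) ℂ) : ℝ :=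
  ∑ α ∈ P.support, φ α * ((fac α : ℝ) * ‖coeff α P‖ ^ 2)

theorem W_eq (φ : (Fin m →₀ ℕ) → ℝ) (P : MvPolynomial (Fin m) ℂ) (S : Finset (Fin m →₀ ℕ))
    (h : P.support ⊆ S) : W φ P = ∑ α ∈ S, φ α * ((fac α : ℝ) * ‖coeff α P‖ ^ 2) := by
  unfold W
  refine Finset.sum_subset h fun α _ hα => ?_
  rw [MvPolynomial.notMem_support_iff.mp hα]
  simp

theorem F_self (P : MvPolynomial (Fin m) ℂ) : F P P = (W (fun _ => 1) P : ℂ) := by
  unfold F W
  push_cast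
  refine Finset.sum_congr rfl fun α _ => ?_
  rw [mul_assoc, Complex.conj_mul']
  ring

theorem W_C (φ : (Fin m →₀ ℕ) → ℝ) (P : MvPolynomial (Fin m) ℂ) (c : ℂ) :
    W φ (C c * P) = ‖c‖ ^ 2 * W φ P := by
  have h : (C c * P).support ⊆ P.support := by
    intro α hα
    rw [MvPolynomial.mem_support_iff] at hα ⊢
    rw [coeff_C_mul] at hα
    exact fun h => hα (by rw [h, mul_zero])
  rw [W_eq φ _ _ h]
  unfold W
  rw [Finset.mul_sum]
  refine Finset.sum_congr rfl fun α _ => ?_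
  rw [coeff_C_mul, norm_mul]; ring

theorem W_X (φ : (Fin m →₀ ℕ) → ℝ) (i : Fin m) (P : MvPolynomial (Fin m) ℂ) :
    W φ (X i * P) = W (fun α => φ (Finsupp.single i 1 + α) * ((α i : ℝ) + 1)) P := by
  unfold W
  rw [support_X_mul, Finset.sum_map]
  refine Finset.sum_congr rfl fun α _ => ?_
  simp only [addLeftEmbedding_apply]
  rw [coeff_X_mul, fac_add]
  push_cast
  ring

theorem W_nonneg (P : MvPolynomial (Fin m) ℂ) : 0 ≤ W (fun _ => 1) P := by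
  unfold W
  exact Finset.sum_nonneg fun α _ => by positivity

theorem coeff_XX (i : Fin m) (Q : MvPolynomial (Fin m) ℂ) (γ : Fin m →₀ ℕ) (h : γ i < 2) :
    coeff γ (X i * (X i * Q)) = 0 := by
  classical
  rw [coeff_X_mul']
  split_ifs with h1
  · rw [coeff_X_mul', if_neg]
    rw [Finsupp.mem_support_iff] at h1 ⊢
    simp only [Finsupp.coe_tsub, Pi.sub_apply, Finsupp.single_eq_same, ne_eq, not_not]
    omega
  · rfl

theorem core (i j : Fin m) (hij : i ≠ j) (Q : MvPolynomial (Fin m) ℂ) (c d : ℂ) :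
    2 * ‖c‖ * ‖d‖ * (W (fun _ => 1) (X i * Q) + W (fun _ => 1) (X j * Q))
      ≤ W (fun _ => 1) (C c * (X i * (X i * Q)) - C d * (X j * (X j * Q))) := by
  classical
  by_cases hc : c = 0
  · rw [hc]; simpa using W_nonneg _
  by_cases hd : d = 0
  · rw [hd]; simpa using W_nonneg _
  have hc' : 0 < ‖c‖ := norm_pos_iff.mpr hc
  have hd' : 0 < ‖d‖ := norm_pos_iff.mpr hd
  set ρ : ℝ := ‖d‖ / ‖c‖ with hρdef
  have hρ : 0 < ρ := div_pos hd' hc'
  have hdρ : ‖d‖ = ρ * ‖c‖ := by rw [hρdef]; field_simp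
  set U := C c * (X i * (X i * Q)) with hU
  set V := C d * (X j * (X j * Q)) with hV
  have step1 : W (fun γ => 1 - psi1 ρ (γ i) (γ j)) U + W (fun γ => 1 - psi2 ρ (γ i) (γ j)) V
      ≤ W (fun _ => 1) (U - V) := by
    rw [W_eq _ U (U.support ∪ V.support) Finset.subset_union_left,
      W_eq _ V (U.support ∪ V.support) Finset.subset_union_right,
      W_eq _ (U - V) (U.support ∪ V.support) (MvPolynomial.support_sub _ U V),
      ← Finset.sum_add_distrib]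
    refine Finset.sum_le_sum fun γ _ => ?_
    have key : (1 - psi1 ρ (γ i) (γ j)) * ‖coeff γ U‖ ^ 2
        + (1 - psi2 ρ (γ i) (γ j)) * ‖coeff γ V‖ ^ 2 ≤ ‖coeff γ (U - V)‖ ^ 2 := by
      rw [coeff_sub]
      by_cases h1 : γ i < 2
      · have : coeff γ U = 0 := by rw [hU, coeff_C_mul, coeff_XX i Q γ h1, mul_zero]
        rw [this]
        simp [psi2, h1]
      by_cases h2 : γ j < 2
      · have : coeff γ V = 0 := by rw [hV, coeff_C_mul, coeff_XX j Q γ h2, mul_zero]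
        rw [this]
        simp [psi1, h2]
      obtain ⟨a1, a2⟩ := psi_prod ρ hρ (γ i) (γ j) (by omega) (by omega)
      exact pointwise _ _ _ _ a1 a2
    have hf : (0 : ℝ) ≤ fac γ := Nat.cast_nonneg _
    have := mul_le_mul_of_nonneg_left key hf
    linarith
  refine le_trans ?_ step1
  rw [hU, hV, W_C, W_C, W_X, W_X, W_X, W_X, W_X, W_X]
  unfold W
  simp only [Finset.mul_sum, ← Finset.sum_add_distrib]
  refine Finset.sum_le_sum fun α _ => ?_
  have hn := node ρ hρ (α i) (α j)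
  have e1 : (Finsupp.single i 1 + (Finsupp.single i 1 + α) : Fin m →₀ ℕ) i = α i + 2 := by
    simp; omega
  have e2 : (Finsupp.single i 1 + (Finsupp.single i 1 + α) : Fin m →₀ ℕ) j = α j := by
    simp [Finsupp.single_eq_of_ne hij.symm]
  have e3 : (Finsupp.single j 1 + (Finsupp.single j 1 + α) : Fin m →₀ ℕ) j = α j + 2 := by
    simp; omega
  have e4 : (Finsupp.single j 1 + (Finsupp.single j 1 + α) : Fin m →₀ ℕ) i = α i := by
    simp [Finsupp.single_eq_of_ne hij]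
  have e5 : (((Finsupp.single i 1 + α : Fin m →₀ ℕ) i : ℕ) : ℝ) = α i + 1 := by
    simp; ring
  have e6 : (((Finsupp.single j 1 + α : Fin m →₀ ℕ) j : ℕ) : ℝ) = α j + 1 := by
    simp; ring
  rw [e1, e2, e3, e4, e5, e6, hdρ]
  have hw : 0 ≤ ‖c‖ ^ 2 * ((fac α : ℝ) * ‖coeff α Q‖ ^ 2) := by positivity
  have := mul_le_mul_of_nonneg_left hn hw
  linarith

end Pool.Agent.H94.Pate
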