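import Mathlib
import Pool.Agent.H94.Pate2

set_option autoImplicit false

namespace Pool.Agent.H94.Pate

open MvPolynomial Finset
open scoped InnerProductSpace ComplexOrder MatrixOrder

theorem split2 {E : Type*} [NormedAddCommGroup E] [InnerProductSpace ℂ E] (v0 v1 : E) :
    ∃ (a b : ℂ) (u u' : E), v0 = a • (u + u') ∧ v1 = b • (u - u') ∧ ⟪u, u'⟫_ℂ = 0 ∧
      (u = 0 → u' = 0) := by
  by_cases h0 : v0 = 0
  · exact ⟨0, 1, v1, 0, by simp [h0], by simp, by simp, fun _ => rfl⟩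
  by_cases h1 : v1 = 0
  · exact ⟨1, 0, v0, 0, by simp, by simp [h1], by simp, fun _ => rfl⟩
  obtain ⟨c, hc1, hc⟩ := Complex.exists_norm_eq_mul_self ⟪v0, v1⟫_ℂ
  have n0 : ((‖v0‖ : ℝ) : ℂ) ≠ 0 := by exact_mod_cast norm_ne_zero_iff.mpr h0
  have n1 : ((‖v1‖ : ℝ) : ℂ) ≠ 0 := by exact_mod_cast norm_ne_zero_iff.mpr h1
  have hc0 : c ≠ 0 := by intro h; rw [h] at hc1; simp at hc1
  set y0 : E := ((‖v1‖ : ℝ) : ℂ) • v0 with hy0
  set y1 : E := (c * ((‖v0‖ : ℝ) : ℂ)) • v1 with hy1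
  have hcc : (starRingEnd ℂ) c * c = 1 := by
    rw [Complex.conj_mul', hc1]; simp
  have i01 : ⟪y0, y1⟫_ℂ = ((‖v1‖ * ‖v0‖ * ‖⟪v0, v1⟫_ℂ‖ : ℝ) : ℂ) := by
    rw [hy0, hy1, inner_smul_left, inner_smul_right, Complex.conj_ofReal]
    push_cast
    rw [hc]; ring
  have i10 : ⟪y1, y0⟫_ℂ = ((‖v1‖ * ‖v0‖ * ‖⟪v0, v1⟫_ℂ‖ : ℝ) : ℂ) := by
    rw [← inner_conj_symm, i01, Complex.conj_ofReal]
  have i00 : ⟪y0, y0⟫_ℂ = ((‖v1‖ ^ 2 * ‖v0‖ ^ 2 : ℝ) : ℂ) := by
    rw [hy0, inner_smul_left, inner_smul_right, Complex.conj_ofReal, inner_self_eq_norm_sq_to_K]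
    push_cast
    simp only [Complex.coe_algebraMap]
    ring
  have i11 : ⟪y1, y1⟫_ℂ = ((‖v1‖ ^ 2 * ‖v0‖ ^ 2 : ℝ) : ℂ) := by
    rw [hy1, inner_smul_left, inner_smul_right, map_mul, Complex.conj_ofReal,
      inner_self_eq_norm_sq_to_K]
    push_cast
    simp only [Complex.coe_algebraMap]
    linear_combination ((‖v1‖ : ℂ) ^ 2 * (‖v0‖ : ℂ) ^ 2) * hcc
  refine ⟨((‖v1‖ : ℝ) : ℂ)⁻¹, (c * ((‖v0‖ : ℝ) : ℂ))⁻¹, (1 / 2 : ℂ) • (y0 + y1),
    (1 / 2 : ℂ) • (y0 - y1), ?_, ?_, ?_, ?_⟩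
  · have : (1 / 2 : ℂ) • (y0 + y1) + (1 / 2 : ℂ) • (y0 - y1) = y0 := by module
    rw [this, hy0, smul_smul, inv_mul_cancel₀ n1, one_smul]
  · have : (1 / 2 : ℂ) • (y0 + y1) - (1 / 2 : ℂ) • (y0 - y1) = y1 := by module
    rw [this, hy1, smul_smul, inv_mul_cancel₀ (mul_ne_zero hc0 n0), one_smul]
  · rw [inner_smul_left, inner_smul_right, inner_add_left, inner_sub_right, inner_sub_right,
      i00, i01, i10, i11]
    ring
  · intro h
    exfalso
    have h2 : y0 + y1 = 0 := by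
      rcases smul_eq_zero.mp h with h | h
      · norm_num at h
      · exact h
    have h3 : ⟪y0, y0 + y1⟫_ℂ = 0 := by rw [h2, inner_zero_right]
    rw [inner_add_right, i00, i01] at h3
    have h4 : ‖v1‖ ^ 2 * ‖v0‖ ^ 2 + ‖v1‖ * ‖v0‖ * ‖⟪v0, v1⟫_ℂ‖ = 0 := by exact_mod_cast h3
    have p0 : 0 < ‖v0‖ := norm_pos_iff.mpr h0
    have p1 : 0 < ‖v1‖ := norm_pos_iff.mpr h1
    have : 0 < ‖v1‖ ^ 2 * ‖v0‖ ^ 2 + ‖v1‖ * ‖v0‖ * ‖⟪v0, v1⟫_ℂ‖ := by positivity
    linarith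

theorem coords (n : ℕ) (A : Matrix (Fin (n + 2)) (Fin (n + 2)) ℂ) (hA : A.PosSemidef) :
    ∃ (w : Fin (n + 2) → Fin (n + 2) → ℂ) (a b s t : ℂ),
      (∀ i j, A i j = ∑ k, (starRingEnd ℂ) (w i k) * w j k) ∧
      w 0 0 = a * s ∧ w 0 1 = a * t ∧ w 1 0 = b * s ∧ w 1 1 = -(b * t) ∧
      (∀ k : Fin n, w 0 k.succ.succ = 0) ∧ (∀ k : Fin n, w 1 k.succ.succ = 0) := by
  obtain ⟨M, hM⟩ := CStarAlgebra.nonneg_iff_eq_star_mul_self.mp hA.nonneg
  set v : Fin (n + 2) → EuclideanSpace ℂ (Fin (n + 2)) :=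
    fun i => WithLp.toLp 2 (fun k => M k i) with hv
  have hAv : ∀ i j, A i j = ⟪v i, v j⟫_ℂ := by
    intro i j
    rw [hM, Matrix.mul_apply, PiLp.inner_apply]
    refine Finset.sum_congr rfl fun k _ => ?_
    simp [hv, Matrix.star_apply, mul_comm]
  obtain ⟨a, b, u, u', h0, h1, horth, hz⟩ := split2 (v 0) (v 1)
  set f : Fin (n + 2) → EuclideanSpace ℂ (Fin (n + 2)) :=
    Fin.cons u (Fin.cons u' (fun _ => 0)) with hf
  have hfin : Module.finrank ℂ (EuclideanSpace ℂ (Fin (n + 2))) = Fintype.card (Fin (n + 2)) := by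
    simp
  set e := InnerProductSpace.gramSchmidtOrthonormalBasis hfin f with he
  have t0 : ∀ k : Fin (n + 1), ⟪e k.succ, u⟫_ℂ = 0 := fun k =>
    InnerProductSpace.gramSchmidtOrthonormalBasis_inv_triangular hfin f (i := 0) (Fin.succ_pos k)
  have t1 : ∀ k : Fin n, ⟪e k.succ.succ, u'⟫_ℂ = 0 := fun k =>
    InnerProductSpace.gramSchmidtOrthonormalBasis_inv_triangular hfin f (i := 1)
      (Fin.succ_lt_succ_iff.mpr (Fin.succ_pos k))
  have t2 : ⟪e 0, u'⟫_ℂ = 0 := by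
    by_cases hu : u = 0
    · rw [hz hu, inner_zero_right]
    have h2 := e.sum_inner_mul_inner u u'
    have h3 := e.sum_inner_mul_inner u u
    rw [Fin.sum_univ_succ] at h2 h3
    have z : ∀ k : Fin (n + 1), ⟪u, e k.succ⟫_ℂ = 0 := fun k => by
      rw [← inner_conj_symm, t0 k, map_zero]
    simp only [z, zero_mul, Finset.sum_const_zero, add_zero] at h2 h3
    rw [horth] at h2
    rcases mul_eq_zero.mp h2 with h | h
    · rw [h, zero_mul] at h3
      exact absurd (inner_self_eq_zero.mp h3.symm) hu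
    · exact h
  have t3 : ⟪e 1, u⟫_ℂ = 0 := t0 0
  refine ⟨fun i k => ⟪e k, v i⟫_ℂ, a, b, ⟪e 0, u⟫_ℂ, ⟪e 1, u'⟫_ℂ, ?_, ?_, ?_, ?_, ?_, ?_, ?_⟩
  · intro i j
    rw [hAv, ← e.sum_inner_mul_inner]
    refine Finset.sum_congr rfl fun k _ => ?_
    rw [inner_conj_symm]
  · simp only []
    rw [h0, inner_smul_right, inner_add_right, t2, add_zero]
  · simp only []
    rw [h0, inner_smul_right, inner_add_right, t3, zero_add]
  · simp only []
    rw [h1, inner_smul_right, inner_sub_right, t2, sub_zero]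
  · simp only []
    rw [h1, inner_smul_right, inner_sub_right, t3]; ring
  · intro k
    simp only []
    rw [h0, inner_smul_right, inner_add_right, t0, t1]; ring
  · intro k
    simp only []
    rw [h1, inner_smul_right, inner_sub_right, t0, t1]; ring

theorem F_lin2 {m : ℕ} (P Q : MvPolynomial (Fin m) ℂ) (p q r s : ℂ) :
    F (C p * P + C q * Q) (C r * P + C s * Q)
      = (starRingEnd ℂ) p * r * F P P + (starRingEnd ℂ) p * s * F P Q
        + (starRingEnd ℂ) q * r * F Q P + (starRingEnd ℂ) q * s * F Q Q := by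
  simp only [F_add_left, F_add_right, F_C_left, F_C_right]
  ring

theorem main (n : ℕ) (A : Matrix (Fin (n+2)) (Fin (n+2)) ℂ) (hA : A.PosSemidef) :
      (A 0 0 * (A.submatrix (Fin.succAbove (0 : Fin (n+2))) (Fin.succAbove (0 : Fin (n+2)))).permanent
        - A 0 1 * (A.submatrix (Fin.succAbove (0 : Fin (n+2))) (Fin.succAbove (1 : Fin (n+2)))).permanent
        - A 1 0 * (A.submatrix (Fin.succAbove (1 : Fin (n+2))) (Fin.succAbove (0 : Fin (n+2)))).permanent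
        + A 1 1 * (A.submatrix (Fin.succAbove (1 : Fin (n+2))) (Fin.succAbove (1 : Fin (n+2)))).permanent).re
      ≤ 2 * (A.permanent).re := by
  obtain ⟨w, a, b, s, t, hw, h00, h01, h10, h11, hz0, hz1⟩ := coords n A hA
  set Q : MvPolynomial (Fin (n + 2)) ℂ := ∏ k : Fin n, lin (w k.succ.succ) with hQ
  have hsub : ∀ i j : Fin (n + 2), (A.submatrix i.succAbove j.succAbove).permanent
      = F (∏ r, lin (w (i.succAbove r))) (∏ c, lin (w (j.succAbove c))) := by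
    intro i j
    rw [F_prod]
    congr 1
    ext r c
    simp [hw]
  have hfull : A.permanent = F (∏ r, lin (w r)) (∏ c, lin (w c)) := by
    rw [F_prod]
    congr 1
    ext r c
    simp [hw]
  have l0 : lin (w 0) = C (a * s) * X 0 + C (a * t) * X 1 := by
    unfold lin
    rw [Fin.sum_univ_succ, Fin.sum_univ_succ]
    simp only [hz0, C_0, zero_mul, Finset.sum_const_zero, add_zero, Fin.succ_zero_eq_one, h00, h01]
  have l1 : lin (w 1) = C (b * s) * X 0 + C (-(b * t)) * X 1 := by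
    unfold lin
    rw [Fin.sum_univ_succ, Fin.sum_univ_succ]
    simp only [hz1, C_0, zero_mul, Finset.sum_const_zero, add_zero, Fin.succ_zero_eq_one, h10, h11]
  have p0 : ∏ r : Fin (n + 1), lin (w ((0 : Fin (n + 2)).succAbove r))
      = C (b * s) * (X 0 * Q) + C (-(b * t)) * (X 1 * Q) := by
    rw [Fin.prod_univ_succ]
    simp only [Fin.succAbove_zero, Fin.succ_zero_eq_one]
    rw [l1, ← hQ]; ring
  have p1 : ∏ r : Fin (n + 1), lin (w ((1 : Fin (n + 2)).succAbove r))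
      = C (a * s) * (X 0 * Q) + C (a * t) * (X 1 * Q) := by
    rw [Fin.prod_univ_succ]
    simp only [Fin.one_succAbove_zero, Fin.one_succAbove_succ]
    rw [l0, ← hQ]; ring
  have pf : ∏ r : Fin (n + 2), lin (w r)
      = C (a * b) * (C (s ^ 2) * (X 0 * (X 0 * Q)) - C (t ^ 2) * (X 1 * (X 1 * Q))) := by
    rw [Fin.prod_univ_succ, Fin.prod_univ_succ]
    simp only [Fin.succ_zero_eq_one]
    rw [l0, l1, ← hQ]
    simp only [map_mul, map_neg, map_pow]
    ring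
  have hent : ∀ i j : Fin (n + 2), (∀ k : Fin n, w j k.succ.succ = 0) →
      A i j = (starRingEnd ℂ) (w i 0) * w j 0 + (starRingEnd ℂ) (w i 1) * w j 1 := by
    intro i j hj
    rw [hw, Fin.sum_univ_succ, Fin.sum_univ_succ]
    simp only [hj, mul_zero, Finset.sum_const_zero, add_zero, Fin.succ_zero_eq_one]
  have hc := core (0 : Fin (n + 2)) 1 (by simp) Q (s ^ 2) (t ^ 2)
  have hL : A 0 0 * (A.submatrix (Fin.succAbove (0 : Fin (n+2))) (Fin.succAbove (0 : Fin (n+2)))).permanent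
        - A 0 1 * (A.submatrix (Fin.succAbove (0 : Fin (n+2))) (Fin.succAbove (1 : Fin (n+2)))).permanent
        - A 1 0 * (A.submatrix (Fin.succAbove (1 : Fin (n+2))) (Fin.succAbove (0 : Fin (n+2)))).permanent
        + A 1 1 * (A.submatrix (Fin.succAbove (1 : Fin (n+2))) (Fin.succAbove (1 : Fin (n+2)))).permanent
      = 4 * ((starRingEnd ℂ) (a * b) * (a * b)) * ((starRingEnd ℂ) s * s) * ((starRingEnd ℂ) t * t)
        * (F (X 0 * Q) (X 0 * Q) + F (X 1 * Q) (X 1 * Q)) := by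
    rw [hsub, hsub, hsub, hsub, p0, p1, F_lin2, F_lin2, F_lin2, F_lin2, hent 0 0 hz0,
      hent 0 1 hz1, hent 1 0 hz0, hent 1 1 hz1, h00, h01, h10, h11]
    simp only [map_mul, map_neg]
    ring
  rw [hL, hfull, pf, F_self, F_self, F_self, W_C, Complex.conj_mul', Complex.conj_mul',
    Complex.conj_mul']
  rw [norm_pow, norm_pow] at hc
  have hh := mul_le_mul_of_nonneg_left hc (sq_nonneg ‖a * b‖)
  norm_cast
  linarith

end Pool.Agent.H94.Pate
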