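import Mathlib

open MeasureTheory Set ProbabilityTheory
open scoped ENNReal

namespace Pool.Agent.H94.Per1

noncomputable def un : Measure ℝ := (2 : ℝ≥0∞)⁻¹ • volume.restrict (Icc (-1 : ℝ) 1)

instance : IsProbabilityMeasure un := ⟨by
  simp only [un, Measure.smul_apply, Measure.restrict_apply MeasurableSet.univ, univ_inter,
    Real.volume_Icc, smul_eq_mul]
  rw [show (1 : ℝ) - -1 = 2 by norm_num, ENNReal.ofReal_ofNat]
  exact ENNReal.inv_mul_cancel (by norm_num) (by norm_num)⟩

noncomputable def ua (c : ℝ) : Measure ℝ := un.map (fun v => c * v)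

instance (c : ℝ) : IsProbabilityMeasure (ua c) :=
  Measure.isProbabilityMeasure_map (by fun_prop)

lemma ua_zero : ua 0 = Measure.dirac 0 := by
  simp [ua, Measure.map_const]

lemma ua_ne (c : ℝ) (hc : c ≠ 0) :
    ua c = ENNReal.ofReal (1 / (2 * |c|)) • volume.restrict (Icc (-|c|) |c|) := by
  have hm : Measurable fun v : ℝ => c * v := by fun_prop
  have hpre : (fun v : ℝ => c * v) ⁻¹' Icc (-|c|) |c| = Icc (-1) 1 := by
    ext v
    have h0 : 0 < |c| := abs_pos.2 hc
    simp only [mem_preimage, mem_Icc, ← abs_le, abs_mul]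
    constructor
    · intro h; nlinarith
    · intro h; nlinarith
  rw [ua, un, Measure.map_smul, ← hpre, ← Measure.restrict_map hm measurableSet_Icc,
    Real.map_volume_mul_left hc, Measure.restrict_smul, smul_smul]
  congr 1
  rw [one_div, mul_inv, ENNReal.ofReal_mul (by norm_num), abs_inv,
    ENNReal.ofReal_inv_of_pos (x := 2) (by norm_num), ENNReal.ofReal_ofNat]

lemma ua_abs (c : ℝ) : ua |c| = ua c := by
  by_cases hc : c = 0
  · simp [hc]
  · rw [ua_ne c hc, ua_ne _ (abs_ne_zero.2 hc), abs_abs]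

set_option linter.unusedSectionVars false

variable {ι : Type*} [Fintype ι] [DecidableEq ι]

noncomputable def nu (u : ι → ℝ) (S : Finset ι) : Measure ℝ :=
  (Measure.pi fun _ : ι => un).map (fun ω => ∑ j ∈ S, u j * ω j)

instance (u : ι → ℝ) (S : Finset ι) : IsProbabilityMeasure (nu u S) :=
  Measure.isProbabilityMeasure_map (Measurable.aemeasurable (by fun_prop))

lemma nu_empty (u : ι → ℝ) : nu u ∅ = Measure.dirac 0 := by
  simp [nu, Measure.map_const]

lemma nu_insert (u : ι → ℝ) (S : Finset ι) (j : ι) (h : j ∉ S) :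
    nu u (insert j S) = nu u S ∗ ua (u j) := by
  have hi : iIndepFun (fun (i : ι) (ω : ι → ℝ) => u i * ω i) (Measure.pi fun _ : ι => un) :=
    iIndepFun_pi (X := fun i (v : ℝ) => u i * v) (fun i => by fun_prop)
  have h2 := hi.indepFun_finsetSum_of_notMem (fun i => by fun_prop) h
  have h3 := h2.map_add_eq_map_conv_map (by fun_prop) (by fun_prop)
  have e1 : (∑ i ∈ S, fun (ω : ι → ℝ) => u i * ω i) = fun ω => ∑ i ∈ S, u i * ω i := by
    ext ω; simp
  have e2 : (Measure.pi fun _ : ι => un).map (fun ω : ι → ℝ => u j * ω j) = ua (u j) := by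
    have := (measurePreserving_eval (fun _ : ι => un) j).map_eq
    have h5 := Measure.map_map (μ := Measure.pi fun _ : ι => un) (g := fun v : ℝ => u j * v)
      (f := Function.eval j) (by fun_prop) (by fun_prop)
    rw [this] at h5
    rw [ua, h5]
    rfl
  rw [e1, e2] at h3
  rw [nu, nu, ← h3]
  congr 1
  ext ω
  simp [Finset.sum_insert h, add_comm]

lemma nu_sub (u : ι → ℝ) (S : Finset ι) :
    (Measure.pi fun _ : S => un).map (fun y => ∑ j : S, u j * y j) = nu u S := by
  rw [← Measure.infinitePi_map_restrict (fun _ : ι => un), Measure.infinitePi_eq_pi,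
    Measure.map_map (by fun_prop) (by fun_prop), nu]
  congr 1
  ext ω
  simp only [Function.comp, Finset.restrict]
  exact Finset.sum_coe_sort S (fun j => u j * ω j)

lemma nu_abs (u : ι → ℝ) (S : Finset ι) : nu (fun j => |u j|) S = nu u S := by
  induction S using Finset.induction_on with
  | empty => rw [nu_empty, nu_empty]
  | insert j S h ih => rw [nu_insert _ _ _ h, nu_insert _ _ _ h, ih, ua_abs]

def EU (φ : ℝ → ℝ≥0∞) : Prop := ∀ x y, |x| ≤ |y| → φ y ≤ φ x

lemma shift_int (φ : ℝ → ℝ≥0∞) (hφ : Measurable φ) (y c : ℝ) :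
    ∫⁻ t in Icc (-c) c, φ (y + t) = ∫⁻ s in Icc (y - c) (y + c), φ s := by
  have h := (measurePreserving_add_left (volume : Measure ℝ) y).setLIntegral_comp_preimage
    (s := Icc (y - c) (y + c)) measurableSet_Icc hφ
  rw [← h]
  congr 2
  ext t
  simp only [mem_Icc, mem_preimage]
  constructor <;> rintro ⟨h1, h2⟩ <;> constructor <;> linarith

lemma EU_avg (φ : ℝ → ℝ≥0∞) (hφ : Measurable φ) (h : EU φ) (c : ℝ) :
    EU (fun y => ∫⁻ t, φ (y + t) ∂ua c) := by
  intro x y hxy
  by_cases hc : c = 0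
  · subst hc
    simp only [ua_zero]
    rw [lintegral_dirac, lintegral_dirac]
    simpa using h x y hxy
  simp only [ua_ne c hc, lintegral_smul_measure, smul_eq_mul]
  gcongr ?_ * ?_
  · exact le_rfl
  rw [shift_int φ hφ, shift_int φ hφ]
  set d := |c|
  have hd : 0 < d := abs_pos.2 hc
  rw [← lintegral_inter_add_sdiff φ (Icc (y - d) (y + d)) (measurableSet_Icc (a := x - d) (b := x + d)),
    ← lintegral_inter_add_sdiff φ (Icc (x - d) (x + d)) (measurableSet_Icc (a := y - d) (b := y + d)),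
    inter_comm]
  gcongr ?_ + ?_
  · exact le_rfl
  have h1 := (Measure.measurePreserving_sub_left (volume : Measure ℝ) (x + y)).setLIntegral_comp_preimage
    (s := Icc (y - d) (y + d) \ Icc (x - d) (x + d)) (measurableSet_Icc.diff measurableSet_Icc) hφ
  rw [← h1]
  have h2 : (fun s => x + y - s) ⁻¹' (Icc (y - d) (y + d) \ Icc (x - d) (x + d)) =
      Icc (x - d) (x + d) \ Icc (y - d) (y + d) := by
    ext s
    simp only [mem_preimage, mem_diff, mem_Icc]
    constructor
    · rintro ⟨⟨h1, h2⟩, h3⟩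
      exact ⟨⟨by linarith, by linarith⟩, fun h4 => h3 ⟨by linarith [h4.2], by linarith [h4.1]⟩⟩
    · rintro ⟨⟨h1, h2⟩, h3⟩
      exact ⟨⟨by linarith, by linarith⟩, fun h4 => h3 ⟨by linarith [h4.2], by linarith [h4.1]⟩⟩
  rw [h2]
  refine setLIntegral_mono' (measurableSet_Icc.diff measurableSet_Icc) ?_
  rintro s ⟨⟨h3, h4⟩, h5⟩
  apply h
  rw [← sq_le_sq] at hxy ⊢
  simp only [mem_Icc, not_and_or, not_le] at h5
  rcases h5 with h5 | h5
  · have : 0 ≤ x + y := by nlinarith
    nlinarith
  · have : x + y ≤ 0 := by nlinarith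
    nlinarith

lemma lint_insert (u : ι → ℝ) (S : Finset ι) (j : ι) (h : j ∉ S) (φ : ℝ → ℝ≥0∞)
    (hφ : Measurable φ) :
    ∫⁻ z, φ z ∂nu u (insert j S) = ∫⁻ z, ∫⁻ t, φ (z + t) ∂ua (u j) ∂nu u S := by
  rw [nu_insert _ _ _ h, Measure.lintegral_conv hφ]

lemma lint_insert' (u : ι → ℝ) (S : Finset ι) (j : ι) (h : j ∉ S) (φ : ℝ → ℝ≥0∞)
    (hφ : Measurable φ) :
    ∫⁻ z, φ z ∂nu u (insert j S) = ∫⁻ v, ∫⁻ z, φ (u j * v + z) ∂nu u S ∂un := by
  rw [nu_insert _ _ _ h, Measure.conv_comm, Measure.lintegral_conv hφ, ua, lintegral_map]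
  · exact Measurable.lintegral_prod_right (f := fun x y => φ (x + y)) (by fun_prop)
  · fun_prop

lemma EU_nu (u : ι → ℝ) (S : Finset ι) : ∀ (φ : ℝ → ℝ≥0∞), Measurable φ → EU φ →
    EU (fun y => ∫⁻ z, φ (y + z) ∂nu u S) := by
  induction S using Finset.induction_on with
  | empty =>
    intro φ hφ h x y hxy
    simp only [nu_empty]
    rw [lintegral_dirac, lintegral_dirac]
    simpa using h x y hxy
  | insert j S hj ih =>
    intro φ hφ h
    have := ih (fun y => ∫⁻ t, φ (y + t) ∂ua (u j))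
      (Measurable.lintegral_prod_right (f := fun x y => φ (x + y)) (by fun_prop))
      (EU_avg φ hφ h (u j))
    convert this using 2 with y
    rw [lint_insert u S j hj (fun z => φ (y + z)) (by fun_prop)]
    simp only [add_assoc]

lemma sq_avg (z c : ℝ) : ∫⁻ t, ENNReal.ofReal ((z + t) ^ 2) ∂ua c = ENNReal.ofReal (z ^ 2 + c ^ 2 / 3) := by
  rw [ua, lintegral_map (by fun_prop) (by fun_prop), un, lintegral_smul_measure,
    ← ofReal_integral_eq_lintegral_ofReal]
  · rw [integral_Icc_eq_integral_Ioc, ← intervalIntegral.integral_of_le (by norm_num)]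
    have : ∫ v in (-1 : ℝ)..1, (z + c * v) ^ 2 = 2 * (z ^ 2 + c ^ 2 / 3) := by
      have e : ∀ v : ℝ, (z + c * v) ^ 2 = z ^ 2 + (2 * z * c) * v + c ^ 2 * v ^ 2 := fun v => by ring
      simp_rw [e]
      rw [intervalIntegral.integral_add, intervalIntegral.integral_add,
        intervalIntegral.integral_const_mul, intervalIntegral.integral_const_mul]
      · simp; ring
      all_goals exact Continuous.intervalIntegrable (by fun_prop) _ _
    rw [this, ENNReal.ofReal_mul (by norm_num), ENNReal.ofReal_ofNat, smul_eq_mul, ← mul_assoc,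
      ENNReal.inv_mul_cancel (by norm_num) (by norm_num), one_mul]
  · exact Continuous.integrableOn_Icc (by fun_prop)
  · exact Filter.Eventually.of_forall fun v => sq_nonneg _

lemma nu_sq (u : ι → ℝ) (S : Finset ι) :
    ∫⁻ z, ENNReal.ofReal (z ^ 2) ∂nu u S = ENNReal.ofReal ((∑ j ∈ S, u j ^ 2) / 3) := by
  induction S using Finset.induction_on with
  | empty => rw [nu_empty, lintegral_dirac]; simp
  | insert j S hj ih =>
    rw [lint_insert u S j hj _ (by fun_prop)]
    simp_rw [sq_avg]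
    have : ∀ z : ℝ, ENNReal.ofReal (z ^ 2 + u j ^ 2 / 3) =
        ENNReal.ofReal (z ^ 2) + ENNReal.ofReal (u j ^ 2 / 3) := fun z =>
      ENNReal.ofReal_add (by positivity) (by positivity)
    simp_rw [this]
    rw [lintegral_add_right _ measurable_const, ih, lintegral_const, measure_univ, mul_one,
      ← ENNReal.ofReal_add (by positivity) (by positivity), Finset.sum_insert hj]
    congr 1; ring

/-- closed window probability -/
noncomputable def win (μ : Measure ℝ) (b y : ℝ) : ℝ≥0∞ := μ {z | |y + z| ≤ b}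

noncomputable def wio (μ : Measure ℝ) (b y : ℝ) : ℝ≥0∞ := μ {z | |y + z| < b}

lemma win_eq (μ : Measure ℝ) (b y : ℝ) :
    win μ b y = ∫⁻ z, (Icc (-b) b).indicator (fun _ => (1 : ℝ≥0∞)) (y + z) ∂μ := by
  rw [win, ← lintegral_indicator_one (by measurability)]
  congr 1; ext z
  simp only [indicator, mem_ofPred_eq, mem_Icc, abs_le, Pi.one_apply]

lemma wio_eq (μ : Measure ℝ) (b y : ℝ) :
    wio μ b y = ∫⁻ z, (Ioo (-b) b).indicator (fun _ => (1 : ℝ≥0∞)) (y + z) ∂μ := by
  rw [wio, ← lintegral_indicator_one (by measurability)]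
  congr 1; ext z
  simp only [indicator, mem_ofPred_eq, mem_Ioo, abs_lt, Pi.one_apply]

lemma EU_win (u : ι → ℝ) (S : Finset ι) (b : ℝ) : EU (win (nu u S) b) := by
  have := EU_nu u S ((Icc (-b) b).indicator (fun _ => (1 : ℝ≥0∞)))
    (measurable_const.indicator measurableSet_Icc) (by
      intro x y hxy
      simp only [indicator, mem_Icc, ← abs_le]
      split_ifs with h1 h2 <;> first | exact le_rfl | exact zero_le | exact absurd (hxy.trans h1) h2)
  convert this using 2 with y
  exact win_eq _ _ _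

lemma EU_wio (u : ι → ℝ) (S : Finset ι) (b : ℝ) : EU (wio (nu u S) b) := by
  have := EU_nu u S ((Ioo (-b) b).indicator (fun _ => (1 : ℝ≥0∞)))
    (measurable_const.indicator measurableSet_Ioo) (by
      intro x y hxy
      simp only [indicator, mem_Ioo, ← abs_lt]
      split_ifs with h1 h2 <;> first | exact le_rfl | exact zero_le | exact absurd (hxy.trans_lt h1) h2)
  convert this using 2 with y
  exact wio_eq _ _ _

lemma meas_win (μ : Measure ℝ) [SFinite μ] (b : ℝ) : Measurable (win μ b) := by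
  have : win μ b = fun y => ∫⁻ z, (Icc (-b) b).indicator (fun _ => (1 : ℝ≥0∞)) (y + z) ∂μ :=
    funext fun y => win_eq μ b y
  rw [this]
  exact Measurable.lintegral_prod_right
    (f := fun x y => (Icc (-b) b).indicator (fun _ => (1 : ℝ≥0∞)) (x + y))
    ((measurable_const.indicator measurableSet_Icc).comp measurable_add)

lemma wio_insert (u : ι → ℝ) (S : Finset ι) (j : ι) (h : j ∉ S) (b y : ℝ) :
    wio (nu u (insert j S)) b y = ∫⁻ v, wio (nu u S) b (y + u j * v) ∂un := by
  rw [wio_eq, lint_insert' u S j h (fun z => (Ioo (-b) b).indicator (fun _ => (1 : ℝ≥0∞)) (y + z))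
    ((measurable_const.indicator measurableSet_Ioo).comp (by fun_prop))]
  simp only [wio_eq, add_assoc]

lemma un_ae : ∀ᵐ v ∂un, |v| ≤ 1 := by
  rw [un]
  refine Measure.ae_smul_measure ?_ _
  filter_upwards [ae_restrict_mem measurableSet_Icc] with v hv
  exact abs_le.2 hv

lemma wio_le_center (u : ι → ℝ) (S : Finset ι) (j : ι) (h : j ∉ S) (b : ℝ) :
    wio (nu u S) b (u j) ≤ wio (nu u (insert j S)) b 0 := by
  rw [wio_insert u S j h]
  calc wio (nu u S) b (u j) = ∫⁻ _, wio (nu u S) b (u j) ∂un := by simp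
    _ ≤ _ := by
      refine lintegral_mono_ae ?_
      filter_upwards [un_ae] with v hv
      apply EU_wio
      rw [zero_add, abs_mul]
      nlinarith [abs_nonneg (u j)]

lemma swap_abs (p q v : ℝ) (h : |q| ≤ |p|) (hv : |v| ≤ 1) : |q + p * v| ≤ |p + q * v| := by
  rw [← sq_le_sq] at h ⊢
  have : v ^ 2 ≤ 1 := by
    have := sq_le_sq.2 (show |v| ≤ |1| by simpa using hv)
    simpa using this
  nlinarith [mul_nonneg (sub_nonneg.2 h) (sub_nonneg.2 this)]

lemma wio_mono (u : ι → ℝ) (S : Finset ι) (i j : ι) (hi : i ∉ S) (hj : j ∉ S) (b : ℝ)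
    (h : |u j| ≤ |u i|) :
    wio (nu u (insert j S)) b (u i) ≤ wio (nu u (insert i S)) b (u j) := by
  rw [wio_insert u S j hj, wio_insert u S i hi]
  refine lintegral_mono_ae ?_
  filter_upwards [un_ae] with v hv
  exact EU_wio u S b _ _ (swap_abs _ _ _ h hv)

end Pool.Agent.H94.Per1
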