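import Pool.Agent.H94.Per1

open MeasureTheory Set ProbabilityTheory
open scoped ENNReal

namespace Pool.Agent.H94.Per2
open Pool.Agent.H94.Per1

set_option linter.unusedSectionVars false

variable {ι : Type*} [Fintype ι] [DecidableEq ι]

noncomputable def dens (μ : Measure ℝ) (b y : ℝ) : ℝ≥0∞ := ENNReal.ofReal (1 / (2 * b)) * win μ b y

lemma meas_dens (μ : Measure ℝ) [SFinite μ] (b : ℝ) : Measurable (dens μ b) :=
  (meas_win μ b).const_mul _

lemma EU_dens (u : ι → ℝ) (S : Finset ι) (b : ℝ) : EU (dens (nu u S) b) := fun x y h => by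
  unfold dens
  gcongr
  exact EU_win u S b x y h

lemma dens_ne_top (μ : Measure ℝ) [IsFiniteMeasure μ] (b y : ℝ) : dens μ b y ≠ ⊤ :=
  ENNReal.mul_ne_top ENNReal.ofReal_ne_top (measure_ne_top _ _)

lemma lint_dens (u : ι → ℝ) (S : Finset ι) (j : ι) (h : j ∉ S) (hj : u j ≠ 0) (φ : ℝ → ℝ≥0∞)
    (hφ : Measurable φ) :
    ∫⁻ z, φ z ∂nu u (insert j S) = ∫⁻ y, φ y * dens (nu u S) |u j| y := by
  rw [lint_insert u S j h φ hφ]
  simp only [ua_ne _ hj, lintegral_smul_measure, smul_eq_mul]
  simp_rw [shift_int φ hφ]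
  set b := |u j|
  have hm : Measurable fun p : ℝ × ℝ => φ p.2 * (Icc (-b) b).indicator (fun _ => (1 : ℝ≥0∞)) (-p.2 + p.1) :=
    (hφ.comp measurable_snd).mul
      ((measurable_const.indicator measurableSet_Icc).comp (by fun_prop))
  have e : ∀ z : ℝ, ∫⁻ s in Icc (z - b) (z + b), φ s =
      ∫⁻ s, φ s * (Icc (-b) b).indicator (fun _ => (1 : ℝ≥0∞)) (-s + z) := by
    intro z
    rw [← lintegral_indicator measurableSet_Icc]
    congr 1; ext s
    by_cases hs : s ∈ Icc (z - b) (z + b)
    · have : -s + z ∈ Icc (-b) b := ⟨by linarith [hs.2], by linarith [hs.1]⟩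
      simp [hs, this]
    · have : -s + z ∉ Icc (-b) b := fun h => hs ⟨by linarith [h.2], by linarith [h.1]⟩
      simp [indicator_of_notMem hs, indicator_of_notMem this]
  simp_rw [e]
  rw [lintegral_const_mul _ (Measurable.lintegral_prod_right' hm),
    lintegral_lintegral_swap hm.aemeasurable, ← lintegral_const_mul]
  · congr 1; ext s
    have m0 : Measurable fun z : ℝ => (Icc (-b) b).indicator (fun _ => (1 : ℝ≥0∞)) (-s + z) :=
      (measurable_const.indicator measurableSet_Icc).comp (measurable_const_add (-s))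
    dsimp only
    rw [lintegral_const_mul _ m0, ← win_eq, dens]
    have : win (nu u S) b (-s) = win (nu u S) b s :=
      le_antisymm (EU_win u S b _ _ (by simp)) (EU_win u S b _ _ (by simp))
    rw [this]; ring
  · exact Measurable.lintegral_prod_left' hm

lemma lint_cap (ρ : ℝ) (hρ : 0 ≤ ρ) :
    ∫⁻ y : ℝ, ENNReal.ofReal (ρ ^ 2 - y ^ 2) = ENNReal.ofReal (4 * ρ ^ 3 / 3) := by
  have e : (fun y : ℝ => ENNReal.ofReal (ρ ^ 2 - y ^ 2)) =
      (Icc (-ρ) ρ).indicator (fun y => ENNReal.ofReal (ρ ^ 2 - y ^ 2)) := by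
    ext y
    by_cases hy : y ∈ Icc (-ρ) ρ
    · simp [hy]
    · rw [indicator_of_notMem hy, ENNReal.ofReal_eq_zero]
      simp only [mem_Icc, not_and_or, not_le] at hy
      rcases hy with hy | hy <;> nlinarith
  rw [e, lintegral_indicator measurableSet_Icc, ← ofReal_integral_eq_lintegral_ofReal]
  · rw [integral_Icc_eq_integral_Ioc, ← intervalIntegral.integral_of_le (by linarith),
      intervalIntegral.integral_sub]
    · simp; congr 1; ring
    all_goals exact Continuous.intervalIntegrable (by fun_prop) _ _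
  · exact Continuous.integrableOn_Icc (by fun_prop)
  · filter_upwards [ae_restrict_mem measurableSet_Icc] with y hy
    have := hy.1; have := hy.2
    simp only [Pi.zero_apply]
    nlinarith

/-- Gauss-type inequality. -/
lemma gauss (u : ι → ℝ) (S : Finset ι) (j : ι) (h : j ∉ S) (hj : u j ≠ 0) (a ρ : ℝ) (ha : 0 ≤ a)
    (hρ : a ≤ ρ) :
    ρ ^ 2 * (1 - (wio (nu u (insert j S)) a 0).toReal) +
      (dens (nu u S) |u j| a).toReal * (2 * a * ρ ^ 2) ≤
    (∑ i ∈ insert j S, u i ^ 2) / 3 + (dens (nu u S) |u j| a).toReal * (4 * ρ ^ 3 / 3) := by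
  set g := dens (nu u S) |u j| with hg
  set μ := nu u (insert j S) with hμ
  have hgm : Measurable g := meas_dens _ _
  have hgt : ∀ y, g y ≠ ⊤ := fun y => dens_ne_top _ _ _
  have hEU : EU g := EU_dens u S _
  have hρ0 : 0 ≤ ρ := ha.trans hρ
  have pt : ∀ y : ℝ, ((Ioo (-a) a)ᶜ).indicator (fun _ => ENNReal.ofReal (ρ ^ 2)) y * g y +
      g a * (Ioo (-a) a).indicator (fun _ => ENNReal.ofReal (ρ ^ 2)) y ≤
      ENNReal.ofReal (y ^ 2) * g y + g a * ENNReal.ofReal (ρ ^ 2 - y ^ 2) := by
    intro y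
    have sp : ENNReal.ofReal (ρ ^ 2) ≤ ENNReal.ofReal (y ^ 2) + ENNReal.ofReal (ρ ^ 2 - y ^ 2) := by
      calc ENNReal.ofReal (ρ ^ 2) = ENNReal.ofReal (y ^ 2 + (ρ ^ 2 - y ^ 2)) := by congr 1; ring
        _ ≤ _ := ENNReal.ofReal_add_le
    by_cases hy : y ∈ Ioo (-a) a
    · have h1 : g a ≤ g y := hEU _ _ (by rw [abs_of_nonneg ha]; exact (abs_lt.2 hy).le)
      rw [indicator_of_notMem (by simpa using hy), indicator_of_mem hy, zero_mul, zero_add]
      calc g a * ENNReal.ofReal (ρ ^ 2)
          ≤ g a * (ENNReal.ofReal (y ^ 2) + ENNReal.ofReal (ρ ^ 2 - y ^ 2)) := by gcongr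
        _ = ENNReal.ofReal (y ^ 2) * g a + g a * ENNReal.ofReal (ρ ^ 2 - y ^ 2) := by ring
        _ ≤ _ := by gcongr
    · have h1 : g y ≤ g a := hEU _ _ (by
        rw [abs_of_nonneg ha]; by_contra hc; exact hy (abs_lt.1 (not_le.1 hc)))
      rw [indicator_of_mem (by simpa using hy), indicator_of_notMem hy, mul_zero, add_zero]
      calc ENNReal.ofReal (ρ ^ 2) * g y
          ≤ (ENNReal.ofReal (y ^ 2) + ENNReal.ofReal (ρ ^ 2 - y ^ 2)) * g y := by gcongr
        _ = ENNReal.ofReal (y ^ 2) * g y + g y * ENNReal.ofReal (ρ ^ 2 - y ^ 2) := by ring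
        _ ≤ _ := by gcongr
  have I := lintegral_mono (μ := volume) pt
  have m1 : Measurable (((Ioo (-a) a)ᶜ).indicator (fun _ : ℝ => ENNReal.ofReal (ρ ^ 2))) :=
    measurable_const.indicator measurableSet_Ioo.compl
  have m2 : Measurable ((Ioo (-a) a).indicator (fun _ : ℝ => ENNReal.ofReal (ρ ^ 2))) :=
    measurable_const.indicator measurableSet_Ioo
  have m3 : Measurable fun y => ((Ioo (-a) a)ᶜ).indicator (fun _ : ℝ => ENNReal.ofReal (ρ ^ 2)) y * g y :=
    m1.mul hgm
  have m4 : Measurable fun y : ℝ => ENNReal.ofReal (y ^ 2) * g y := Measurable.mul (by fun_prop) hgm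
  rw [lintegral_add_left m3, lintegral_add_left m4,
    ← lint_dens u S j h hj _ m1, ← lint_dens u S j h hj _ (by fun_prop), nu_sq,
    lintegral_const_mul _ m2, lintegral_const_mul _ (by fun_prop), lint_cap ρ hρ0,
    lintegral_indicator_const measurableSet_Ioo.compl, lintegral_indicator_const measurableSet_Ioo,
    Real.volume_Ioo, ← hμ, prob_compl_eq_one_sub measurableSet_Ioo] at I
  have e1 : μ (Ioo (-a) a) = wio μ a 0 := by
    rw [wio]; congr 1; ext z; simp [abs_lt]
  rw [e1] at I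
  have hw : wio μ a 0 ≤ 1 := prob_le_one
  have hw' : wio μ a 0 ≠ ⊤ := ne_top_of_le_ne_top (by simp) hw
  have I2 := ENNReal.toReal_mono (by
    refine ENNReal.add_ne_top.2 ⟨ENNReal.ofReal_ne_top, ENNReal.mul_ne_top (hgt _) ENNReal.ofReal_ne_top⟩) I
  rw [ENNReal.toReal_add (ENNReal.mul_ne_top ENNReal.ofReal_ne_top (by
      exact ne_top_of_le_ne_top (by simp) tsub_le_self))
      (ENNReal.mul_ne_top (hgt _) (ENNReal.mul_ne_top ENNReal.ofReal_ne_top ENNReal.ofReal_ne_top)),
    ENNReal.toReal_add ENNReal.ofReal_ne_top (ENNReal.mul_ne_top (hgt _) ENNReal.ofReal_ne_top)] at I2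
  simp only [ENNReal.toReal_mul] at I2
  rw [ENNReal.toReal_sub_of_le hw (by simp), ENNReal.toReal_ofReal (by positivity),
    ENNReal.toReal_ofReal (by linarith), ENNReal.toReal_ofReal (by positivity),
    ENNReal.toReal_ofReal (by positivity)] at I2
  simp only [ENNReal.toReal_one] at I2
  nlinarith [I2]

lemma dens_le (u : ι → ℝ) (S : Finset ι) (j : ι) (h : j ∉ S) (hj : u j ≠ 0) (a : ℝ) (ha : 0 ≤ a) :
    (dens (nu u S) |u j| a).toReal * (2 * a) ≤ (wio (nu u (insert j S)) a 0).toReal := by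
  have m2 : Measurable ((Ioo (-a) a).indicator (fun _ : ℝ => (1 : ℝ≥0∞))) :=
    measurable_const.indicator measurableSet_Ioo
  have h1 : dens (nu u S) |u j| a * ENNReal.ofReal (2 * a) ≤ wio (nu u (insert j S)) a 0 := by
    rw [wio_eq]
    simp only [zero_add]
    rw [lint_dens u S j h hj _ m2]
    calc dens (nu u S) |u j| a * ENNReal.ofReal (2 * a)
        = ∫⁻ y, (Ioo (-a) a).indicator (fun _ : ℝ => dens (nu u S) |u j| a) y := by
          rw [lintegral_indicator_const measurableSet_Ioo, Real.volume_Ioo]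
          congr 2; ring
      _ ≤ _ := by
          refine lintegral_mono fun y => ?_
          by_cases hy : y ∈ Ioo (-a) a
          · simp only [indicator_of_mem hy, one_mul]
            exact EU_dens u S _ _ _ (by rw [abs_of_nonneg ha]; exact (abs_lt.2 hy).le)
          · simp [indicator_of_notMem hy]
  have := ENNReal.toReal_mono (measure_ne_top _ _) h1
  rwa [ENNReal.toReal_mul, ENNReal.toReal_ofReal (by positivity)] at this

lemma avg_eq (h : ℝ → ℝ≥0∞) (hm : Measurable h) (y b : ℝ) (hb : 0 < b) :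
    ∫⁻ v, h (y + b * v) ∂un = ENNReal.ofReal (1 / (2 * b)) * ∫⁻ s in Icc (y - b) (y + b), h s := by
  have := lintegral_map (μ := un) (f := fun t => h (y + t)) (g := fun v => b * v) (by fun_prop) (by fun_prop)
  rw [← this]
  change ∫⁻ t, h (y + t) ∂ua b = _
  rw [ua_ne b hb.ne', lintegral_smul_measure, abs_of_pos hb, shift_int h hm, smul_eq_mul]

lemma first_le (u : ι → ℝ) (S : Finset ι) (r : ι) (hr : r ∈ S) (hur : u r ≠ 0) (a b : ℝ)
    (hb : 0 < b) (hab : b ≤ a) :
    (dens (nu u S) b a).toReal * (2 * a) ≤ (wio (nu u S) a b).toReal := by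
  have ha : 0 < a := hb.trans_le hab
  obtain ⟨T, hT, rfl⟩ : ∃ T, r ∉ T ∧ S = insert r T :=
    ⟨S.erase r, Finset.notMem_erase _ _, (Finset.insert_erase hr).symm⟩
  set h := dens (nu u T) |u r|
  have hm : Measurable h := meas_dens _ _
  have e1 : win (nu u (insert r T)) b a = ∫⁻ s in Icc (-a - b) (-a + b), h s := by
    have m0 : Measurable fun z : ℝ => (Icc (-b) b).indicator (fun _ => (1 : ℝ≥0∞)) (a + z) :=
      (measurable_const.indicator measurableSet_Icc).comp (measurable_const_add a)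
    rw [win_eq, lint_dens u T r hT hur _ m0,
      ← lintegral_indicator measurableSet_Icc]
    congr 1; ext s
    by_cases hs : s ∈ Icc (-a - b) (-a + b)
    · have : a + s ∈ Icc (-b) b := ⟨by linarith [hs.1], by linarith [hs.2]⟩
      simp [hs, this, h]
    · have : a + s ∉ Icc (-b) b := fun h => hs ⟨by linarith [h.1], by linarith [h.2]⟩
      simp [indicator_of_notMem hs, indicator_of_notMem this]
  have e2 : wio (nu u (insert r T)) a b = ∫⁻ s in Icc (-b - a) (-b + a), h s := by
    have m0 : Measurable fun z : ℝ => (Ioo (-a) a).indicator (fun _ => (1 : ℝ≥0∞)) (b + z) :=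
      (measurable_const.indicator measurableSet_Ioo).comp (measurable_const_add b)
    rw [wio_eq, lint_dens u T r hT hur _ m0,
      ← setLIntegral_congr Ioo_ae_eq_Icc, ← lintegral_indicator measurableSet_Ioo]
    congr 1; ext s
    by_cases hs : s ∈ Ioo (-b - a) (-b + a)
    · have : b + s ∈ Ioo (-a) a := ⟨by linarith [hs.1], by linarith [hs.2]⟩
      simp [hs, this, h]
    · have : b + s ∉ Ioo (-a) a := fun h => hs ⟨by linarith [h.1], by linarith [h.2]⟩
      simp [indicator_of_notMem hs, indicator_of_notMem this]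
  have e3 : dens (nu u (insert r T)) b a ≤ ENNReal.ofReal (1 / (2 * a)) * wio (nu u (insert r T)) a b := by
    rw [dens, e1, e2, ← avg_eq h hm _ _ hb, ← avg_eq h hm _ _ ha]
    refine lintegral_mono_ae ?_
    filter_upwards [un_ae] with v hv
    apply EU_dens
    have := swap_abs (-a) (-b) (-v) (by simpa [abs_of_pos ha, abs_of_pos hb] using hab) (by simpa using hv)
    simpa using this
  have := ENNReal.toReal_mono (ENNReal.mul_ne_top ENNReal.ofReal_ne_top (measure_ne_top _ _)) e3
  rw [ENNReal.toReal_mul, ENNReal.toReal_ofReal (by positivity)] at this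
  calc _ ≤ 1 / (2 * a) * (wio (nu u (insert r T)) a b).toReal * (2 * a) := by gcongr; exact this
    _ = _ := by field_simp

lemma un_Ioo (s t : ℝ) (hs : -1 ≤ s) (ht : t ≤ 1) (B : Set ℝ) (hB : Ioo s t ⊆ B) :
    (t - s) / 2 ≤ (un B).toReal := by
  have h1 : un (Ioo s t) = ENNReal.ofReal ((t - s) / 2) := by
    rw [un, Measure.smul_apply, Measure.restrict_apply measurableSet_Ioo,
      inter_eq_left.2 (show Ioo s t ⊆ Icc (-1) 1 from
        fun x hx => ⟨by linarith [hx.1], by linarith [hx.2]⟩), Real.volume_Ioo,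
      smul_eq_mul, ENNReal.ofReal_div_of_pos (by norm_num), ENNReal.ofReal_ofNat, mul_comm]
    rfl
  have h2 := ENNReal.toReal_mono (measure_ne_top un B) (measure_mono hB)
  rw [h1] at h2
  exact (le_max_left _ _).trans (by rwa [ENNReal.toReal_ofReal'] at h2)

lemma nu_single (u : ι → ℝ) (r : ι) (B : Set ℝ) (hB : MeasurableSet B) :
    nu u {r} B = un {v | u r * v ∈ B} := by
  have : nu u {r} = ua (u r) := by
    rw [← Finset.insert_empty, nu_insert _ _ _ (Finset.notMem_empty _), nu_empty,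
      Measure.dirac_zero_conv]
  rw [this, ua, Measure.map_apply (by fun_prop) hB]
  rfl

end Pool.Agent.H94.Per2
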