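import Pool.Agent.H94.Per2

open MeasureTheory Set ProbabilityTheory
open scoped ENNReal

namespace Pool.Agent.H94.Per3
open Pool.Agent.H94.Per1 Pool.Agent.H94.Per2

set_option linter.unusedSectionVars false

variable {ι : Type*} [Fintype ι] [DecidableEq ι]

lemma big (a D : ι → ℝ) (A : ℝ) (p : ι) (ha : ∀ j, 0 ≤ a j) (hs : ∑ j, a j ^ 2 = 1)
    (hp : ∀ j, a j ≤ a p) (hp1 : a p < 1) (hn : 4 ≤ Fintype.card ι) (h0 : ∀ k, 0 ≤ D k)
    (h1 : ((Fintype.card ι : ℝ) - 1) * A ≤ ∑ k, D k) (h2 : ∀ k, D k ≤ A)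
    (h3 : ∀ ρ, a p ≤ ρ → ρ ^ 2 * (1 - a p * A) + D p * (a p * ρ ^ 2) ≤
      (1 - a p ^ 2) / 3 + D p * (2 * ρ ^ 3 / 3))
    (h4 : a p ≤ 5 / 8 → ∀ j, D p ≤ D j)
    (h5 : ∀ i j, i ≠ p → j ≠ p → a j ≤ a i → D i ≤ D j) :
    (Fintype.card ι : ℝ) - 1 < ∑ k, √(1 - a k ^ 2) * D k := by
  set n : ℝ := (Fintype.card ι : ℝ) with hn'
  have hn4 : (4 : ℝ) ≤ n := by rw [hn']; exact_mod_cast hn
  set x := a p with hx
  have hx0 : 0 < x := by
    by_contra hc
    have : ∀ j, a j = 0 := fun j => le_antisymm ((hp j).trans (not_lt.1 hc)) (ha j)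
    simp [this] at hs
  have hle : ∀ k, a k ^ 2 ≤ 1 := fun k => by nlinarith [ha k, hp k]
  set w : ι → ℝ := fun k => √(1 - a k ^ 2) with hw
  have hw0 : ∀ k, 0 ≤ w k := fun k => Real.sqrt_nonneg _
  have hw2 : ∀ k, w k ^ 2 = 1 - a k ^ 2 := fun k => Real.sq_sqrt (by linarith [hle k])
  have hw1 : ∀ k, w k ≤ 1 := fun k => by nlinarith [hw0 k, hw2 k, sq_nonneg (a k)]
  have hwp : ∀ k, w p ≤ w k := fun k => Real.sqrt_le_sqrt (by nlinarith [ha k, hp k])
  set y := w p with hy
  have hy2 : y ^ 2 = 1 - x ^ 2 := hw2 p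
  have hy0 : 0 ≤ y := hw0 p
  have hD0 := h0 p
  have G := h3 (3 * x / 2) (by linarith)
  have G' : 27 * x ^ 2 - 4 * (1 - x ^ 2) ≤ 27 * x ^ 3 * A := by nlinarith
  change n - 1 < ∑ k, w k * D k
  by_cases r1 : 3 * x < 2 * y
  · have hx58 : x ≤ 5 / 8 := by nlinarith
    have hy0' : 0 < y := by linarith
    have G1 := h3 y (by linarith)
    have G2 : 2 / 3 ≤ x * A + D p * (2 * y / 3 - x) := by
      have : y ^ 2 * (2 / 3) ≤ y ^ 2 * (x * A + D p * (2 * y / 3 - x)) := by nlinarith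
      exact le_of_mul_le_mul_left this (by positivity)
    set X := ∑ k, D k
    have hX1 : n * D p ≤ X := by
      have := Finset.sum_le_sum (s := Finset.univ) fun j _ => h4 hx58 j
      simpa [hn'] using this
    have hX2 : y * X ≤ ∑ k, w k * D k := by
      rw [Finset.mul_sum]
      exact Finset.sum_le_sum fun k _ => mul_le_mul_of_nonneg_right (hwp k) (h0 k)
    have hX0 : 0 < X := by
      by_contra hc
      have h6 : D p ≤ 0 := by nlinarith
      have h7 : A ≤ 0 := by nlinarith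
      nlinarith
    have h8 : (n - 1) * D p < X := by
      rcases hD0.eq_or_lt with h | h
      · rw [← h]; simpa using hX0
      · nlinarith
    have h9 : (n - 1) * (2 / 3) ≤ x * ((n - 1) * A) + ((n - 1) * D p) * (2 * y / 3 - x) := by
      nlinarith
    have h10 : x * ((n - 1) * A) ≤ x * X := by gcongr
    have h11 : ((n - 1) * D p) * (2 * y / 3 - x) < X * (2 * y / 3 - x) := by
      gcongr; linarith
    nlinarith
  by_cases r2 : x ≤ 5 / 8
  · have hx1 : 0.554 ≤ x := by nlinarith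
    have hA : 7 / 6 ≤ A := by
      have q1 : 0 ≤ (x - 0.554) * (5 / 8 - x) := mul_nonneg (by linarith) (by linarith)
      have q2 := mul_nonneg q1 hx0.le
      have : 27 * x ^ 3 * (7 / 6) ≤ 27 * x ^ 3 * A := by nlinarith
      exact le_of_mul_le_mul_left this (by positivity)
    have hy1 : 0.78 ≤ y := by nlinarith
    have hm : Monovary D w := by
      intro i j hij
      have hji : a j < a i := by
        by_contra hc
        have : w j ≤ w i := Real.sqrt_le_sqrt (by nlinarith [ha i, ha j, not_lt.1 hc])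
        linarith
      by_cases hi : i = p
      · rw [hi]; exact h4 r2 j
      · exact h5 i j hi (by rintro rfl; linarith [hp i]) hji.le
    have hC := hm.sum_mul_sum_le_card_mul_sum
    have hW : n - 1 / 1.78 ≤ ∑ k, w k := by
      have : ∀ k, 1 - a k ^ 2 / 1.78 ≤ w k := fun k => by
        have h6 : (1 - w k) * 1.78 ≤ (1 - w k) * (1 + w k) := by
          apply mul_le_mul_of_nonneg_left <;> linarith [hwp k, hw1 k]
        have h7 := hw2 k
        rw [sub_le_comm, le_div_iff₀ (by norm_num)]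
        nlinarith
      have h6 := Finset.sum_le_sum (s := Finset.univ) fun k _ => this k
      rw [Finset.sum_sub_distrib, ← Finset.sum_div, hs] at h6
      simpa [hn'] using h6
    have e : ∑ k, D k * w k = ∑ k, w k * D k := Finset.sum_congr rfl fun k _ => mul_comm _ _
    rw [e, ← hn'] at hC
    have h7 : (n - 1) * (7 / 6) ≤ ∑ k, D k := le_trans (by gcongr; linarith) h1
    have h8 : ((n - 1) * (7 / 6)) * (n - 1 / 1.78) ≤ (∑ k, D k) * ∑ k, w k := by
      apply mul_le_mul h7 hW (by norm_num; linarith) (Finset.sum_nonneg fun k _ => h0 k)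
    have h9 : n * (n - 1) < n * ∑ k, w k * D k := by
      have : n * (n - 1) < ((n - 1) * (7 / 6)) * (n - 1 / 1.78) := by
        have : 0 < (n - 1) * (n / 6 - 7 / 6 / 1.78) := by
          apply mul_pos <;> norm_num <;> linarith
        nlinarith
      linarith
    exact lt_of_mul_lt_mul_left h9 (by linarith)
  · push Not at r2
    have hA : 1 ≤ A := by
      have h6 : 0 ≤ (1 - x) * (27 * x ^ 2 - 4 * x - 4) := by
        apply mul_nonneg <;> nlinarith
      have : 27 * x ^ 3 * 1 ≤ 27 * x ^ 3 * A := by nlinarith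
      exact le_of_mul_le_mul_left this (by positivity)
    have hsum : ∑ k ∈ Finset.univ.erase p, a k ^ 2 = 1 - x ^ 2 := by
      rw [← hs, ← Finset.add_sum_erase _ _ (Finset.mem_univ p)]; ring
    have hk : ∀ k ∈ Finset.univ.erase p, D k - a k ^ 2 / (1 + x) * A ≤ w k * D k := by
      intro k hk
      have h6 : a k ^ 2 ≤ 1 - x ^ 2 := by
        rw [← hsum]
        exact Finset.single_le_sum (f := fun k => a k ^ 2) (fun k _ => sq_nonneg _) hk
      have h7 : x ≤ w k := by
        apply Real.le_sqrt_of_sq_le; linarith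
      have h8 : 1 - w k ≤ a k ^ 2 / (1 + x) := by
        rw [le_div_iff₀ (by linarith)]
        have h9 : (1 - w k) * (1 + x) ≤ (1 - w k) * (1 + w k) := by
          apply mul_le_mul_of_nonneg_left <;> linarith [hw1 k]
        nlinarith [hw2 k]
      have h9 : (1 - w k) * D k ≤ a k ^ 2 / (1 + x) * A :=
        mul_le_mul h8 (h2 k) (h0 k) (by positivity)
      linarith
    have h6 := Finset.sum_le_sum hk
    rw [Finset.sum_sub_distrib, ← Finset.sum_mul, ← Finset.sum_div, hsum] at h6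
    have e1 : (1 - x ^ 2) / (1 + x) = 1 - x := by field_simp; ring
    rw [e1] at h6
    rw [← Finset.add_sum_erase _ _ (Finset.mem_univ p)] at h1 ⊢
    have hy1 : 2 * (1 - x) ≤ y := by
      apply Real.le_sqrt_of_sq_le; nlinarith
    set ρ := 3 * x * (3 - x) / (2 * (2 + x)) with hρ
    have hρx : x ≤ ρ := by rw [hρ, le_div_iff₀ (by positivity)]; nlinarith
    have hρ0 : 0 < ρ := hx0.trans_le hρx
    have hρe : ρ * (2 * (2 + x)) = 3 * x * (3 - x) := by rw [hρ]; field_simp
    have G1 := h3 ρ hρx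
    have hpoly : (2 + x) * (1 + x) < 6 * ρ ^ 2 := by
      have h7 : 0 < (1 - x) * (-25 * x ^ 3 + 151 * x ^ 2 - 56 * x - 16) := by
        apply mul_pos <;> nlinarith
      have h8 : (2 * (2 + x)) ^ 2 * ((2 + x) * (1 + x)) < (2 * (2 + x)) ^ 2 * (6 * ρ ^ 2) := by
        have : (2 * (2 + x)) ^ 2 * (6 * ρ ^ 2) = 6 * (ρ * (2 * (2 + x))) ^ 2 := by ring
        rw [this, hρe]; nlinarith
      exact lt_of_mul_lt_mul_left h8 (by positivity)
    have key : 3 < (2 + x) * A - (2 * x - 1) * D p := by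
      have h7 : (2 + x) * (D p * (x * ρ ^ 2) - D p * (2 * ρ ^ 3 / 3)) = x * ρ ^ 2 * ((2 * x - 1) * D p) := by
        have : (2 + x) * (2 * ρ ^ 3 / 3) = ρ ^ 2 * (ρ * (2 * (2 + x))) / 3 := by ring
        calc _ = D p * ((2 + x) * (x * ρ ^ 2) - (2 + x) * (2 * ρ ^ 3 / 3)) := by ring
          _ = _ := by rw [this, hρe]; ring
      have h8 : (2 + x) * (ρ ^ 2 * (1 - x * A) + (D p * (x * ρ ^ 2) - D p * (2 * ρ ^ 3 / 3))) ≤
          (2 + x) * ((1 - x ^ 2) / 3) := by
        apply mul_le_mul_of_nonneg_left <;> linarith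
      rw [mul_add, h7] at h8
      have h9 : (2 + x) * ((1 - x ^ 2) / 3) < 2 * (1 - x) * ρ ^ 2 := by
        have : (1 - x) * ((2 + x) * (1 + x)) < (1 - x) * (6 * ρ ^ 2) := by gcongr
        nlinarith
      have h10 : x * ρ ^ 2 * 3 < x * ρ ^ 2 * ((2 + x) * A - (2 * x - 1) * D p) := by nlinarith
      exact lt_of_mul_lt_mul_left h10 (by positivity)
    have h11 : (2 - 2 * x) * D p ≤ y * D p := by gcongr; linarith
    have h12 : (n - 4) * 1 ≤ (n - 4) * A := by gcongr
    nlinarith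

lemma three (a b c D1 D2 D3 : ℝ) (hc : 0 < c) (hcb : c ≤ b) (hba : b ≤ a) (hs : a ^ 2 + b ^ 2 + c ^ 2 = 1)
    (hlt : a < b + c) (h1 : (b + c - a) / (2 * c) ≤ b * D1) (h2 : (a + c - b) / (2 * c) ≤ a * D2)
    (h3 : (a + b - c) / (2 * b) ≤ a * D3) :
    2 < √(1 - a ^ 2) * D1 + √(1 - b ^ 2) * D2 + √(1 - c ^ 2) * D3 := by
  have hb : 0 < b := hc.trans_le hcb
  have ha : 0 < a := hb.trans_le hba
  have w1 : 0.7 * (b + c) ≤ √(1 - a ^ 2) := by
    apply Real.le_sqrt_of_sq_le; nlinarith [sq_nonneg (b - c)]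
  have w2 : 0.7 * (a + c) ≤ √(1 - b ^ 2) := by
    apply Real.le_sqrt_of_sq_le; nlinarith [sq_nonneg (a - c)]
  have w3 : 0.7 * (a + b) ≤ √(1 - c ^ 2) := by
    apply Real.le_sqrt_of_sq_le; nlinarith [sq_nonneg (a - b)]
  have d1 : (b + c - a) / (2 * c * b) ≤ D1 := by
    rw [div_le_iff₀ (by positivity)]; rw [div_le_iff₀ (by positivity)] at h1; linarith
  have d2 : (a + c - b) / (2 * c * a) ≤ D2 := by
    rw [div_le_iff₀ (by positivity)]; rw [div_le_iff₀ (by positivity)] at h2; linarith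
  have d3 : (a + b - c) / (2 * b * a) ≤ D3 := by
    rw [div_le_iff₀ (by positivity)]; rw [div_le_iff₀ (by positivity)] at h3; linarith
  have e1 := mul_le_mul w1 d1 (by apply div_nonneg <;> nlinarith) (Real.sqrt_nonneg _)
  have e2 := mul_le_mul w2 d2 (by apply div_nonneg <;> nlinarith) (Real.sqrt_nonneg _)
  have e3 := mul_le_mul w3 d3 (by apply div_nonneg <;> nlinarith) (Real.sqrt_nonneg _)
  have : 0.7 * (b + c) * ((b + c - a) / (2 * c * b)) + 0.7 * (a + c) * ((a + c - b) / (2 * c * a)) +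
      0.7 * (a + b) * ((a + b - c) / (2 * b * a)) = 2.1 := by
    field_simp; ring
  linarith

end Pool.Agent.H94.Per3
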