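import Pool.Agent.H94.Per3

open MeasureTheory Set ProbabilityTheory
open scoped ENNReal

namespace Pool.Agent.H94.Per4
open Pool.Agent.H94.Per1 Pool.Agent.H94.Per2 Pool.Agent.H94.Per3

set_option linter.unusedSectionVars false

variable {ι : Type*} [Fintype ι] [DecidableEq ι]

noncomputable def AA (a : ι → ℝ) (p : ι) : ℝ :=
  (wio (nu a (Finset.univ.erase p)) (a p) 0).toReal / a p

noncomputable def DD (a : ι → ℝ) (p q k : ι) : ℝ :=
  if k = p then 2 * (dens (nu a ((Finset.univ.erase p).erase q)) (a q) (a p)).toReal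
  else (wio (nu a ((Finset.univ.erase p).erase k)) (a p) (a k)).toReal / a p

lemma DD_nonneg (a : ι → ℝ) (ha : ∀ j, 0 ≤ a j) (p q k : ι) : 0 ≤ DD a p q k := by
  unfold DD
  split_ifs
  · positivity
  · exact div_nonneg ENNReal.toReal_nonneg (ha p)

lemma wio_single (a : ι → ℝ) (r : ι) (b y s t : ℝ) (hs : -1 ≤ s) (ht : t ≤ 1)
    (h : ∀ v, s < v → v < t → |y + a r * v| < b) : (t - s) / 2 ≤ (wio (nu a {r}) b y).toReal := by
  rw [wio, nu_single _ _ _ (by measurability)]
  exact un_Ioo s t hs ht _ fun v hv => h v hv.1 hv.2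

lemma win_single (a : ι → ℝ) (r : ι) (b y s t : ℝ) (hs : -1 ≤ s) (ht : t ≤ 1)
    (h : ∀ v, s < v → v < t → |y + a r * v| ≤ b) : (t - s) / 2 ≤ (win (nu a {r}) b y).toReal := by
  rw [win, nu_single _ _ _ (by measurability)]
  exact un_Ioo s t hs ht _ fun v hv => h v hv.1 hv.2

lemma main4 (a : ι → ℝ) (ha : ∀ j, 0 ≤ a j) (hs : ∑ j, a j ^ 2 = 1) (p q : ι) (hqp : q ≠ p)
    (hp : ∀ j, a j ≤ a p) (hq : ∀ j, j ≠ p → a j ≤ a q) (hq0 : 0 < a q) (hn : 4 ≤ Fintype.card ι)
    (h1 : ((Fintype.card ι : ℝ) - 1) * AA a p ≤ ∑ k, DD a p q k) :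
    (Fintype.card ι : ℝ) - 1 < ∑ k, √(1 - a k ^ 2) * DD a p q k := by
  have hp0 : 0 < a p := hq0.trans_le (hp q)
  have hsum : ∑ k ∈ Finset.univ.erase p, a k ^ 2 = 1 - a p ^ 2 := by
    rw [← hs, ← Finset.add_sum_erase _ _ (Finset.mem_univ p)]; ring
  have hqm : q ∈ Finset.univ.erase p := by simp [hqp]
  have hp1 : a p < 1 := by
    have := Finset.single_le_sum (f := fun k => a k ^ 2) (fun k _ => sq_nonneg _) hqm
    have h2 : 0 < a q ^ 2 := by positivity
    nlinarith
  have hins : ∀ k, k ≠ p → insert k ((Finset.univ.erase p).erase k) = Finset.univ.erase p :=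
    fun k hk => Finset.insert_erase (by simp [hk])
  have hAe : a p * AA a p = (wio (nu a (Finset.univ.erase p)) (a p) 0).toReal := by
    rw [AA]; field_simp
  have hDp : DD a p q p = 2 * (dens (nu a ((Finset.univ.erase p).erase q)) (a q) (a p)).toReal := by
    simp [DD]
  have h5 : ∀ i j, i ≠ p → j ≠ p → a j ≤ a i → DD a p q i ≤ DD a p q j := by
    intro i j hi hj hij
    by_cases e : i = j
    · rw [e]
    simp only [DD, hi, hj, if_false]
    have := wio_mono a (((Finset.univ.erase p).erase i).erase j) i j (by simp) (by simp) (a p)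
      (by rwa [abs_of_nonneg (ha _), abs_of_nonneg (ha _)])
    rw [Finset.insert_erase (by simp [hj, Ne.symm e]), Finset.erase_right_comm (a := i),
      Finset.insert_erase (by simp [hi, e])] at this
    gcongr
    exact measure_ne_top _ _
  refine big a (DD a p q) (AA a p) p ha hs hp hp1 hn (DD_nonneg a ha p q) h1 ?_ ?_ ?_ h5
  · intro k
    by_cases hk : k = p
    · subst hk
      have := dens_le a ((Finset.univ.erase k).erase q) q (by simp) hq0.ne' (a k) hp0.le
      rw [hins q hqp, abs_of_pos hq0, ← hAe] at this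
      rw [hDp]
      nlinarith
    · simp only [DD, hk, if_false, AA]
      have := wio_le_center a ((Finset.univ.erase p).erase k) k (by simp) (a p)
      rw [hins k hk] at this
      gcongr
      exact measure_ne_top _ _
  · intro ρ hρ
    have := gauss a ((Finset.univ.erase p).erase q) q (by simp) hq0.ne' (a p) ρ hp0.le hρ
    rw [hins q hqp, abs_of_pos hq0, ← hAe, hsum] at this
    rw [hDp]
    linarith
  · intro h58 j
    by_cases hj : j = p
    · rw [hj]
    refine le_trans ?_ (h5 q j hqp hj (hq j hj))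
    obtain ⟨r, hr, hr0⟩ : ∃ r ∈ (Finset.univ.erase p).erase q, a r ≠ 0 := by
      by_contra hc
      push Not at hc
      rw [← Finset.add_sum_erase _ _ hqm, Finset.sum_eq_zero (fun r hr => by simp [hc r hr])] at hsum
      nlinarith [hp q]
    have := first_le a _ r hr hr0 (a p) (a q) hq0 (hp q)
    rw [hDp]
    simp only [DD, hqp, if_false]
    rw [le_div_iff₀ hp0]
    linarith

lemma main3 (a : ι → ℝ) (ha : ∀ j, 0 ≤ a j) (hs : ∑ j, a j ^ 2 = 1) (p q : ι) (hqp : q ≠ p)
    (hp : ∀ j, a j ≤ a p) (hq : ∀ j, j ≠ p → a j ≤ a q) (hq0 : 0 < a q) (hn : Fintype.card ι = 3) :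
    2 < ∑ k, √(1 - a k ^ 2) * DD a p q k := by
  have hp0 : 0 < a p := hq0.trans_le (hp q)
  obtain ⟨r, hr⟩ : ∃ r, (Finset.univ.erase p).erase q = {r} := by
    rw [← Finset.card_eq_one, Finset.card_erase_of_mem (by simp [hqp]),
      Finset.card_erase_of_mem (by simp), Finset.card_univ, hn]
  have hr1 : r ∈ (Finset.univ.erase p).erase q := by rw [hr]; simp
  have hrq : r ≠ q := (Finset.mem_erase.1 hr1).1
  have hrp : r ≠ p := (Finset.mem_erase.1 (Finset.mem_erase.1 hr1).2).1
  have hr2 : (Finset.univ.erase p).erase r = {q} := by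
    ext x
    have := congrArg (fun s => x ∈ s) hr
    simp only [Finset.mem_erase, Finset.mem_univ, and_true, Finset.mem_singleton, eq_iff_iff] at this ⊢
    constructor
    · rintro ⟨h1, h2⟩
      by_contra h3
      exact h1 (this.1 ⟨h3, h2⟩)
    · rintro rfl; exact ⟨hrq.symm, hqp⟩
  have hsum : ∀ f : ι → ℝ, ∑ k, f k = f p + f q + f r := fun f => by
    rw [← Finset.add_sum_erase _ _ (Finset.mem_univ p),
      ← Finset.add_sum_erase _ _ (show q ∈ Finset.univ.erase p by simp [hqp]), hr,
      Finset.sum_singleton, add_assoc]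
  rw [hsum] at hs ⊢
  have e1 : a q * DD a p q p = (win (nu a {r}) (a q) (a p)).toReal := by
    simp only [DD, if_true, hr, dens]
    rw [ENNReal.toReal_mul, ENNReal.toReal_ofReal (by positivity)]
    field_simp
  have e2 : a p * DD a p q q = (wio (nu a {r}) (a p) (a q)).toReal := by
    simp only [DD, hqp, if_false, hr]
    field_simp
  have e3 : a p * DD a p q r = (wio (nu a {q}) (a p) (a r)).toReal := by
    simp only [DD, hrp, if_false, hr2]
    field_simp
  have hcb := hq r hrp
  have hba := hp q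
  have hc0 := ha r
  have n1 := DD_nonneg a ha p q p
  have n2 := DD_nonneg a ha p q q
  set x := a p
  set b := a q
  set c := a r
  by_cases hlt : x < b + c
  · have hc : 0 < c := by linarith
    refine three x b c _ _ _ hc hcb hba hs hlt ?_ ?_ ?_
    · have := win_single a r b x (-1) ((b - x) / c) le_rfl (by rw [div_le_one hc]; linarith) (by
        intro v h1 h2
        rw [lt_div_iff₀ hc] at h2
        rw [abs_le]; constructor <;> nlinarith)
      rw [e1]; convert this using 1; field_simp; ring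
    · have := wio_single a r x b (-1) ((x - b) / c) le_rfl (by rw [div_le_one hc]; linarith) (by
        intro v h1 h2
        rw [lt_div_iff₀ hc] at h2
        rw [abs_lt]; constructor <;> nlinarith)
      rw [e2]; convert this using 1; field_simp; ring
    · have := wio_single a q x c (-1) ((x - c) / b) le_rfl (by rw [div_le_one hq0]; linarith) (by
        intro v h1 h2
        rw [lt_div_iff₀ hq0] at h2
        rw [abs_lt]; constructor <;> nlinarith)
      rw [e3]; convert this using 1; field_simp; ring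
  push Not at hlt
  have d3 : 1 ≤ x * DD a p q r := by
    have := wio_single a q x c (-1) 1 le_rfl le_rfl (by
      intro v h1 h2
      rw [abs_lt]; constructor <;> nlinarith)
    rw [e3]; linarith
  have w3 : x < √(1 - c ^ 2) := by
    apply Real.lt_sqrt_of_sq_lt; nlinarith
  have t3 : 1 < √(1 - c ^ 2) * DD a p q r := by
    have : 0 < DD a p q r := by
      by_contra h; nlinarith
    nlinarith
  by_cases hd : c = 0 ∧ x = b
  · have d1 : 1 ≤ b * DD a p q p := by
      have := win_single a r b x (-1) 1 le_rfl le_rfl (by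
        intro v h1 h2
        change |x + c * v| ≤ b
        rw [hd.1, hd.2]; simp [abs_of_pos hq0])
      rw [e1]; linarith
    have w1 : b ≤ √(1 - x ^ 2) := by
      apply Real.le_sqrt_of_sq_le; nlinarith
    have := mul_nonneg (Real.sqrt_nonneg (1 - b ^ 2)) n2
    nlinarith
  · have d2 : 1 ≤ x * DD a p q q := by
      have := wio_single a r x b (-1) 1 le_rfl le_rfl (by
        intro v h1 h2
        change |b + c * v| < x
        rcases hc0.eq_or_lt with h | h
        · have : b < x := lt_of_le_of_ne hba fun e => hd ⟨h.symm, e.symm⟩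
          rw [← h]; simpa [abs_of_pos hq0] using this
        · rw [abs_lt]; constructor <;> nlinarith)
      rw [e2]; linarith
    have w2 : x ≤ √(1 - b ^ 2) := by
      apply Real.le_sqrt_of_sq_le; nlinarith
    have := mul_nonneg (Real.sqrt_nonneg (1 - x ^ 2)) n1
    nlinarith

lemma main (a : ι → ℝ) (ha : ∀ j, 0 ≤ a j) (hs : ∑ j, a j ^ 2 = 1) (p q : ι) (hqp : q ≠ p)
    (hp : ∀ j, a j ≤ a p) (hq : ∀ j, j ≠ p → a j ≤ a q) (hq0 : 0 < a q) (hn : 3 ≤ Fintype.card ι)
    (h1 : ((Fintype.card ι : ℝ) - 1) * AA a p ≤ ∑ k, DD a p q k) :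
    (Fintype.card ι : ℝ) - 1 < ∑ k, √(1 - a k ^ 2) * DD a p q k := by
  rcases hn.eq_or_lt with h | h
  · have := main3 a ha hs p q hqp hp hq hq0 h.symm
    rw [← h]; norm_num; exact this
  · exact main4 a ha hs p q hqp hp hq hq0 h h1

end Pool.Agent.H94.Per4
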