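import Pool.Agent.H94.Per4

open MeasureTheory Set ProbabilityTheory Module
open scoped ENNReal Pointwise

namespace Pool.Agent.H94.Per5
open Pool.Agent.H94.Per1

set_option linter.unusedSectionVars false

variable {ι : Type*} [Fintype ι] [DecidableEq ι]

noncomputable def LL (u : ι → ℝ) (p : ι) (S : Finset ι) :
    EuclideanSpace ℝ S →ₗ[ℝ] EuclideanSpace ℝ ι where
  toFun y := WithLp.toLp 2 fun j =>
    if h : j ∈ S then y ⟨j, h⟩ else if j = p then -(∑ i : S, u i * y i) / u p else 0
  map_add' y z := by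
    ext j
    simp only [PiLp.add_apply]
    split_ifs
    · rfl
    · simp only [mul_add, Finset.sum_add_distrib]; ring
    · simp
  map_smul' c y := by
    ext j
    simp only [PiLp.smul_apply, smul_eq_mul, RingHom.id_apply]
    split_ifs
    · rfl
    · have : ∑ i : S, u i * (c * y i) = c * ∑ i : S, u i * y i := by
        rw [Finset.mul_sum]; exact Finset.sum_congr rfl fun i _ => by ring
      rw [this]; ring
    · simp

lemma LL_apply (u : ι → ℝ) (p : ι) (S : Finset ι) (y : EuclideanSpace ℝ S) (j : ι) :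
    LL u p S y j =
      if h : j ∈ S then y ⟨j, h⟩ else if j = p then -(∑ i : S, u i * y i) / u p else 0 := rfl

lemma sum_split (p : ι) (S : Finset ι) (hp : p ∉ S) (f : ι → ℝ) :
    ∑ j, f j = ∑ j : S, f j + f p + ∑ j ∈ (Sᶜ).erase p, f j := by
  rw [Finset.sum_coe_sort S f, add_assoc, Finset.add_sum_erase _ _ (by simpa using hp),
    Finset.sum_add_sum_compl]

lemma LL_inner (u : ι → ℝ) (p : ι) (S : Finset ι) (hp : p ∉ S) (y z : EuclideanSpace ℝ S) :
    inner ℝ (LL u p S y) (LL u p S z) =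
      inner ℝ y z + (∑ i : S, u i * y i) / u p * ((∑ i : S, u i * z i) / u p) := by
  simp only [PiLp.inner_apply, RCLike.inner_apply, conj_trivial]
  rw [sum_split p S hp, Finset.sum_eq_zero (s := (Sᶜ).erase p), add_zero]
  · congr 1
    · refine Finset.sum_congr rfl fun j _ => ?_
      simp [LL_apply, j.2]
    · simp only [LL_apply, hp, dif_neg, not_false_eq_true, if_true]; ring
  · intro j hj
    simp only [Finset.mem_erase, Finset.mem_compl] at hj
    simp [LL_apply, hj.1, hj.2]

lemma LL_normDet (u : ι → ℝ) (p : ι) (S : Finset ι) (hp : p ∉ S) :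
    (LL u p S).normDet = √(1 + (∑ j ∈ S, u j ^ 2) / u p ^ 2) := by
  have h := (LL u p S).normDet_sq_eq_det_gram (EuclideanSpace.basisFun S ℝ)
  have e : Matrix.gram ℝ (fun i => LL u p S (EuclideanSpace.basisFun S ℝ i)) =
      1 + Matrix.replicateCol Unit (fun i : S => u i / u p) *
        Matrix.replicateRow Unit (fun i : S => u i / u p) := by
    ext i j
    rw [Matrix.gram_apply, LL_inner u p S hp]
    simp [Matrix.mul_apply, Matrix.one_apply, EuclideanSpace.inner_single_left, PiLp.single_apply,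
      eq_comm]
  rw [e, Matrix.det_one_add_replicateCol_mul_replicateRow] at h
  simp only [RCLike.ofReal_real_eq_id, id] at h
  rw [← Real.sqrt_sq (LL u p S).normDet_nonneg, h]
  congr 2
  rw [dotProduct, Finset.sum_div, ← Finset.sum_coe_sort S]
  exact Finset.sum_congr rfl fun j _ => by ring

lemma vol_box (u : ι → ℝ) (S : Finset ι) (I B : Set ℝ) (hI : MeasurableSet I)
    (hI2 : I =ᵐ[volume] Icc (-1 : ℝ) 1) (hB : MeasurableSet B) :
    volume {y : EuclideanSpace ℝ S | (∀ j, y j ∈ I) ∧ ∑ j : S, u j * y j ∈ B} =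
      2 ^ S.card * nu u S B := by
  have hm : Measurable fun y : S → ℝ => ∑ j : S, u j * y j := by fun_prop
  have e1 : {y : EuclideanSpace ℝ S | (∀ j, y j ∈ I) ∧ ∑ j : S, u j * y j ∈ B} =
      WithLp.ofLp ⁻¹' ((fun y : S → ℝ => ∑ j : S, u j * y j) ⁻¹' B ∩ univ.pi fun _ => I) := by
    ext y; simp [and_comm]
  have e2 : (Measure.pi fun _ : S => un) =
      ((2 : ℝ≥0∞) ^ S.card)⁻¹ • (volume : Measure (S → ℝ)).restrict (univ.pi fun _ => I) := by
    refine Measure.pi_eq fun s hs => ?_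
    rw [Measure.smul_apply, volume_pi, Measure.restrict_pi_pi, Measure.pi_pi,
      Measure.restrict_congr_set hI2]
    simp only [un, Measure.smul_apply, smul_eq_mul]
    rw [Finset.prod_mul_distrib, Finset.prod_const, Finset.card_univ, Fintype.card_coe,
      ENNReal.inv_pow]
  rw [e1, (PiLp.volume_preserving_ofLp S).measure_preimage
    ((hm hB).inter (MeasurableSet.univ_pi fun _ => hI)).nullMeasurableSet,
    ← Measure.restrict_apply (hm hB), ← nu_sub, Measure.map_apply hm hB, e2, Measure.smul_apply,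
    smul_eq_mul, ← mul_assoc, ENNReal.mul_inv_cancel (by simp) (by simp), one_mul]

lemma param (u : ι → ℝ) (p : ι) (S : Finset ι) (hp : p ∉ S) (hu : u p ≠ 0) (c : ι → ℝ)
    (I J : Set ℝ) (hI : MeasurableSet I) (hI2 : I =ᵐ[volume] Icc (-1 : ℝ) 1)
    (hJ : MeasurableSet J) (d : ℕ) (hd : d = S.card) :
    μHE[d] {x : EuclideanSpace ℝ ι | ∑ j, u j * x j = 0 ∧ (∀ j ∈ S, x j ∈ I) ∧
      (∀ j ∈ (Sᶜ).erase p, x j = c j) ∧ x p ∈ J} =
    ENNReal.ofReal √(1 + (∑ j ∈ S, u j ^ 2) / u p ^ 2) *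
      (2 ^ d * nu u S {z | -(∑ j ∈ (Sᶜ).erase p, u j * c j + z) / u p ∈ J}) := by
  set y0 := ∑ j ∈ (Sᶜ).erase p, u j * c j with hy0
  let x0 : EuclideanSpace ℝ ι := WithLp.toLp 2 fun j =>
    if j ∈ S then 0 else if j = p then -y0 / u p else c j
  have hB : MeasurableSet {z : ℝ | -(y0 + z) / u p ∈ J} :=
    (show Measurable fun z : ℝ => -(y0 + z) / u p by fun_prop) hJ
  have e : {x : EuclideanSpace ℝ ι | ∑ j, u j * x j = 0 ∧ (∀ j ∈ S, x j ∈ I) ∧
      (∀ j ∈ (Sᶜ).erase p, x j = c j) ∧ x p ∈ J} =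
      x0 +ᵥ (LL u p S '' {y : EuclideanSpace ℝ S | (∀ j, y j ∈ I) ∧
        ∑ j : S, u j * y j ∈ {z : ℝ | -(y0 + z) / u p ∈ J}}) := by
    ext x
    constructor
    · rintro ⟨h1, h2, h3, h4⟩
      rw [sum_split p S hp, Finset.sum_congr rfl (fun j hj => by rw [h3 j hj] :
        ∀ j ∈ (Sᶜ).erase p, u j * x j = u j * c j), ← hy0] at h1
      have h5 : x p = -(y0 + ∑ j : S, u j * x j) / u p := by
        field_simp; linarith
      refine ⟨LL u p S (WithLp.toLp 2 fun j => x j), ⟨_, ⟨fun j => h2 j j.2, ?_⟩, rfl⟩, ?_⟩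
      · simp only [mem_ofPred_eq]; rw [← h5]; exact h4
      · ext j
        simp only [vadd_eq_add, PiLp.add_apply, LL_apply, x0]
        by_cases hj : j ∈ S
        · simp [hj]
        · by_cases hj2 : j = p
          · subst hj2
            simp only [hj, if_false, dif_neg, not_false_eq_true, if_true]
            rw [h5]; ring
          · simp [hj, hj2, h3 j (by simp [hj, hj2])]
    · rintro ⟨_, ⟨y, ⟨h1, h2⟩, rfl⟩, rfl⟩
      have a1 : ∀ j : S, (x0 +ᵥ LL u p S y) j = y j := fun j => by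
        simp [LL_apply, x0, j.2]
      have a2 : (x0 +ᵥ LL u p S y) p = -(y0 + ∑ j : S, u j * y j) / u p := by
        simp only [vadd_eq_add, PiLp.add_apply, LL_apply, x0, hp, if_false, dif_neg,
          not_false_eq_true, if_true]
        ring
      have a3 : ∀ j ∈ (Sᶜ).erase p, (x0 +ᵥ LL u p S y) j = c j := fun j hj => by
        simp only [Finset.mem_erase, Finset.mem_compl] at hj
        simp [LL_apply, x0, hj.1, hj.2]
      refine ⟨?_, fun j hj => by rw [a1 ⟨j, hj⟩]; exact h1 _, a3, by rw [a2]; exact h2⟩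
      rw [sum_split p S hp, Finset.sum_congr rfl (fun j hj => by rw [a3 j hj] :
        ∀ j ∈ (Sᶜ).erase p, u j * (x0 +ᵥ LL u p S y) j = u j * c j), ← hy0, a2]
      simp only [a1]
      field_simp; ring
  have hr : d = finrank ℝ (EuclideanSpace ℝ S) := by simp [hd]
  rw [e, measure_vadd, hr, LinearMap.euclideanHausdorffMeasure_image_eq_normDet_mul_volume,
    LL_normDet u p S hp, vol_box u S I _ hI hI2 hB, ← hr, hd]

lemma cone {V : Type*} [NormedAddCommGroup V] [InnerProductSpace ℝ V] [MeasurableSpace V]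
    [BorelSpace V] [FiniteDimensional ℝ V] (v : V) (hv : v ≠ 0) (F : Set V) (hF : MeasurableSet F)
    (m : ℕ) (hm : finrank ℝ V = m + 1) :
    μHE[m + 1] {x : V | 0 < inner ℝ v x ∧ inner ℝ v x ≤ 1 ∧ (inner ℝ v x)⁻¹ • x ∈ F} ≤
      ENNReal.ofReal (1 / ((m + 1) * ‖v‖)) * μHE[m] F := by
  have hmi : Measurable fun x : V => inner ℝ v x := by fun_prop
  have hC : MeasurableSet {x : V | 0 < inner ℝ v x ∧ inner ℝ v x ≤ 1 ∧ (inner ℝ v x)⁻¹ • x ∈ F} := by
    refine (measurableSet_lt measurable_const hmi).inter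
      ((measurableSet_le hmi measurable_const).inter ?_)
    exact (hmi.inv.smul measurable_id) hF
  have h := EuclideanGeometry.euclideanHausdorffMeasure_eq_lintegral (0 : V) hv hC
  rw [hm, Nat.add_sub_cancel] at h
  rw [h]
  have hn : 0 < ‖v‖ := norm_pos_iff.2 hv
  set N := ‖v‖ ^ 2 with hN
  have hN0 : 0 < N := by positivity
  have b : ∀ s : ℝ, μHE[m] ({x : V | 0 < inner ℝ v x ∧ inner ℝ v x ≤ 1 ∧ (inner ℝ v x)⁻¹ • x ∈ F} ∩
      (AffineSubspace.mk' (s • v +ᵥ (0 : V)) (ℝ ∙ v)ᗮ : Set V)) ≤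
      (Ioc 0 (1 / N)).indicator (fun s => ENNReal.ofReal ((s * N) ^ m)) s * μHE[m] F := by
    intro s
    have k : ∀ x ∈ (AffineSubspace.mk' (s • v +ᵥ (0 : V)) (ℝ ∙ v)ᗮ : Set V), inner ℝ v x = s * N := by
      intro x hx
      rw [SetLike.mem_coe, AffineSubspace.mem_mk', Submodule.mem_orthogonal_singleton_iff_inner_right] at hx
      simp only [vadd_eq_add, add_zero, vsub_eq_sub, inner_sub_right, inner_smul_right,
        real_inner_self_eq_norm_sq] at hx
      linarith
    by_cases hs : s ∈ Ioc 0 (1 / N)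
    · have ht : 0 < s * N := mul_pos hs.1 hN0
      rw [indicator_of_mem hs]
      calc _ ≤ μHE[m] ((s * N) • F) := by
            apply measure_mono
            rintro x ⟨⟨_, _, h3⟩, h4⟩
            rw [k x h4] at h3
            exact ⟨_, h3, smul_inv_smul₀ ht.ne' x⟩
        _ = _ := by
            rw [Measure.euclideanHausdorffMeasure_smul₀ m ht.ne', ENNReal.smul_def, smul_eq_mul,
              ENNReal.ofReal_pow ht.le, ENNReal.coe_pow]
            congr 2
            rw [← enorm_eq_nnnorm, ← ofReal_norm, Real.norm_of_nonneg ht.le]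
    · have : ({x : V | 0 < inner ℝ v x ∧ inner ℝ v x ≤ 1 ∧ (inner ℝ v x)⁻¹ • x ∈ F} ∩
          (AffineSubspace.mk' (s • v +ᵥ (0 : V)) (ℝ ∙ v)ᗮ : Set V)) = ∅ := by
        ext x
        simp only [mem_empty_iff_false, iff_false]
        rintro ⟨⟨h1, h2, _⟩, h4⟩
        rw [k x h4] at h1 h2
        exact hs ⟨(mul_pos_iff_of_pos_right hN0).1 h1, by rw [le_div_iff₀ hN0]; exact h2⟩
      rw [this, measure_empty]; exact zero_le
  have I : ∫⁻ s in Ioc 0 (1 / N), ENNReal.ofReal ((s * N) ^ m) = ENNReal.ofReal (1 / ((m + 1) * N)) := by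
    rw [← ofReal_integral_eq_lintegral_ofReal]
    · rw [← intervalIntegral.integral_of_le (by positivity)]
      simp_rw [mul_pow]
      rw [intervalIntegral.integral_mul_const, integral_pow]
      congr 1
      rw [one_div, inv_pow, pow_succ]
      field_simp
      simp
    · exact (Continuous.integrableOn_Icc (by fun_prop)).mono_set Ioc_subset_Icc_self
    · filter_upwards [ae_restrict_mem measurableSet_Ioc] with s hs
      have := hs.1
      positivity
  calc _ ≤ ‖v‖ₑ * ∫⁻ s, (Ioc 0 (1 / N)).indicator (fun s => ENNReal.ofReal ((s * N) ^ m)) s * μHE[m] F := by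
        gcongr with s; exact b s
    _ = _ := by
        rw [lintegral_mul_const _ (Measurable.indicator (by fun_prop) measurableSet_Ioc),
          lintegral_indicator measurableSet_Ioc, I, ← mul_assoc, ← ofReal_norm,
          ← ENNReal.ofReal_mul hn.le]
        congr 2
        rw [hN]; field_simp

end Pool.Agent.H94.Per5
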