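import Pool.Agent.H94.Per5

open MeasureTheory Set ProbabilityTheory Module
open scoped ENNReal Pointwise

namespace Pool.Agent.H94.Per6
open Pool.Agent.H94.Per1 Pool.Agent.H94.Per2 Pool.Agent.H94.Per4 Pool.Agent.H94.Per5

set_option linter.unusedSectionVars false

variable {ι : Type*} [Fintype ι] [DecidableEq ι]

def Bd (u : ι → ℝ) : Set (EuclideanSpace ℝ ι) :=
  {x | ∑ j, u j * x j = 0 ∧ (∀ j, |x j| ≤ 1) ∧ ∃ k, |x k| = 1}

def Fk (u : ι → ℝ) (p k : ι) (ε : ℝ) (I : Set ℝ) : Set (EuclideanSpace ℝ ι) :=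
  {x | ∑ j, u j * x j = 0 ∧ (∀ j ∈ (Finset.univ.erase p).erase k, x j ∈ I) ∧ x k = ε ∧
    x p ∈ Ioo (-1 : ℝ) 1}

def Fp (u : ι → ℝ) (p : ι) (ε : ℝ) : Set (EuclideanSpace ℝ ι) :=
  {x | ∑ j, u j * x j = 0 ∧ (∀ j ∈ Finset.univ.erase p, x j ∈ Icc (-1 : ℝ) 1) ∧ x p = ε}

def Ko (u : ι → ℝ) (p : ι) : Set (EuclideanSpace ℝ ι) :=
  {x | ∑ j, u j * x j = 0 ∧ (∀ j ∈ Finset.univ.erase p, x j ∈ Icc (-1 : ℝ) 1) ∧
    x p ∈ Ioo (-1 : ℝ) 1}

def sg (b : Bool) : ℝ := if b then 1 else -1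

lemma sg_abs (b : Bool) : |sg b| = 1 := by cases b <;> simp [sg]

def GG (u : ι → ℝ) (p : ι) (I : Set ℝ) (kb : ι × Bool) : Set (EuclideanSpace ℝ ι) :=
  if kb.1 = p then Fp u p (sg kb.2) else Fk u p kb.1 (sg kb.2) I

lemma compl_two (p k : ι) (hk : k ≠ p) :
    (((Finset.univ.erase p).erase k)ᶜ).erase p = {k} := by
  ext j
  simp only [Finset.mem_erase, Finset.mem_compl, Finset.mem_univ, and_true, Finset.mem_singleton]
  constructor
  · rintro ⟨h1, h2⟩; by_contra h3; exact h2 ⟨h3, h1⟩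
  · rintro rfl; exact ⟨hk, fun h => h.1 rfl⟩

lemma sum_two (u : ι → ℝ) (hs : ∑ j, u j ^ 2 = 1) (p k : ι) (hk : k ≠ p) :
    ∑ j ∈ (Finset.univ.erase p).erase k, u j ^ 2 = 1 - u p ^ 2 - u k ^ 2 := by
  rw [← hs, ← Finset.add_sum_erase _ _ (Finset.mem_univ p),
    ← Finset.add_sum_erase _ _ (show k ∈ Finset.univ.erase p by simp [hk])]
  ring

lemma sqrt_aux (x y : ℝ) (hx : x ≠ 0) :
    √(1 + (1 - x ^ 2 - y ^ 2) / x ^ 2) = √(1 - y ^ 2) / |x| := by
  rw [← Real.sqrt_sq_eq_abs, ← Real.sqrt_div' _ (sq_nonneg x)]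
  congr 1; field_simp; ring

lemma card_two (p k : ι) (hk : k ≠ p) (d : ℕ) (hd : Fintype.card ι = d + 2) :
    d = ((Finset.univ.erase p).erase k).card := by
  rw [Finset.card_erase_of_mem (by simp [hk]), Finset.card_erase_of_mem (by simp),
    Finset.card_univ, hd]
  omega

lemma Fk_meas (u : ι → ℝ) (hs : ∑ j, u j ^ 2 = 1) (p k : ι) (hk : k ≠ p) (hu : u p ≠ 0) (ε : ℝ)
    (hε : |ε| = 1) (I : Set ℝ) (hI : MeasurableSet I) (hI2 : I =ᵐ[volume] Icc (-1 : ℝ) 1)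
    (d : ℕ) (hd : Fintype.card ι = d + 2) :
    μHE[d] (Fk u p k ε I) = ENNReal.ofReal (2 ^ d * (√(1 - |u k| ^ 2) *
      ((wio (nu (fun j => |u j|) ((Finset.univ.erase p).erase k)) |u p| |u k|).toReal / |u p|))) := by
  have h := param u p ((Finset.univ.erase p).erase k) (by simp) hu (fun _ => ε) I (Ioo (-1) 1) hI hI2
    measurableSet_Ioo d (card_two p k hk d hd)
  rw [compl_two p k hk, sum_two u hs p k hk, sqrt_aux _ _ hu] at h
  simp only [Finset.mem_singleton, forall_eq, Finset.sum_singleton] at h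
  have h0 : 0 < |u p| := abs_pos.2 hu
  have e : {z : ℝ | -(u k * ε + z) / u p ∈ Ioo (-1 : ℝ) 1} = {z | |u k * ε + z| < |u p|} := by
    ext z
    simp only [mem_ofPred_eq, mem_Ioo, ← abs_lt, abs_div, abs_neg, div_lt_one h0]
  have e2 : wio (nu u ((Finset.univ.erase p).erase k)) |u p| (u k * ε) =
      wio (nu u ((Finset.univ.erase p).erase k)) |u p| |u k| :=
    le_antisymm (EU_wio _ _ _ _ _ (by simp [abs_mul, hε])) (EU_wio _ _ _ _ _ (by simp [abs_mul, hε]))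
  rw [e] at h
  change μHE[d] (Fk u p k ε I) = _ * (_ * wio _ _ _) at h
  rw [h, e2, nu_abs, sq_abs, ENNReal.ofReal_mul (by positivity), ENNReal.ofReal_pow (by norm_num),
    ENNReal.ofReal_ofNat, mul_div_left_comm, mul_comm (ENNReal.toReal _),
    ENNReal.ofReal_mul (by positivity), ENNReal.ofReal_toReal (by exact measure_ne_top _ _)]
  ring

lemma Fp_meas (u : ι → ℝ) (hs : ∑ j, u j ^ 2 = 1) (p q : ι) (hq : q ≠ p) (hu : u q ≠ 0) (ε : ℝ)
    (hε : |ε| = 1) (d : ℕ) (hd : Fintype.card ι = d + 2) :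
    μHE[d] (Fp u p ε) = ENNReal.ofReal (2 ^ d * (√(1 - |u p| ^ 2) *
      (2 * (dens (nu (fun j => |u j|) ((Finset.univ.erase p).erase q)) |u q| |u p|).toReal))) := by
  have h := param u q ((Finset.univ.erase q).erase p) (by simp) hu (fun _ => ε) (Icc (-1) 1) (Icc (-1) 1)
    measurableSet_Icc (ae_eq_refl _) measurableSet_Icc d (card_two q p hq.symm d hd)
  rw [compl_two q p hq.symm, sum_two u hs q p hq.symm, sqrt_aux _ _ hu] at h
  simp only [Finset.mem_singleton, forall_eq, Finset.sum_singleton] at h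
  have h0 : 0 < |u q| := abs_pos.2 hu
  have e : {z : ℝ | -(u p * ε + z) / u q ∈ Icc (-1 : ℝ) 1} = {z | |u p * ε + z| ≤ |u q|} := by
    ext z
    simp only [mem_ofPred_eq, mem_Icc, ← abs_le, abs_div, abs_neg, div_le_one h0]
  have e2 : win (nu u ((Finset.univ.erase q).erase p)) |u q| (u p * ε) =
      win (nu u ((Finset.univ.erase q).erase p)) |u q| |u p| :=
    le_antisymm (EU_win _ _ _ _ _ (by simp [abs_mul, hε])) (EU_win _ _ _ _ _ (by simp [abs_mul, hε]))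
  have e3 : Fp u p ε = {x : EuclideanSpace ℝ ι | ∑ j, u j * x j = 0 ∧
      (∀ j ∈ (Finset.univ.erase q).erase p, x j ∈ Icc (-1 : ℝ) 1) ∧ x p = ε ∧ x q ∈ Icc (-1 : ℝ) 1} := by
    ext x
    simp only [Fp, mem_ofPred_eq, Finset.mem_erase, Finset.mem_univ, and_true]
    constructor
    · rintro ⟨h1, h2, h3⟩
      exact ⟨h1, fun j hj => h2 j hj.1, h3, h2 q hq⟩
    · rintro ⟨h1, h2, h3, h4⟩
      refine ⟨h1, fun j hj => ?_, h3⟩
      by_cases hjq : j = q
      · rw [hjq]; exact h4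
      · exact h2 j ⟨hj, hjq⟩
  rw [e] at h
  change _ = _ * (_ * win _ _ _) at h
  rw [e3, h, e2, nu_abs, sq_abs, Finset.erase_right_comm, dens, ENNReal.toReal_mul,
    ENNReal.toReal_ofReal (by positivity)]
  have e4 : ∀ t : ℝ, 2 ^ d * (√(1 - u p ^ 2) * (2 * (1 / (2 * |u q|) * t))) =
      √(1 - u p ^ 2) / |u q| * (2 ^ d * t) := fun t => by field_simp
  rw [e4, ENNReal.ofReal_mul (by positivity), ENNReal.ofReal_mul (by positivity),
    ENNReal.ofReal_pow (by norm_num), ENNReal.ofReal_ofNat,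
    ENNReal.ofReal_toReal (by exact measure_ne_top _ _)]

lemma Ko_meas (u : ι → ℝ) (hs : ∑ j, u j ^ 2 = 1) (p : ι) (hu : u p ≠ 0)
    (d : ℕ) (hd : Fintype.card ι = d + 2) :
    μHE[d + 1] (Ko u p) = ENNReal.ofReal (2 ^ (d + 1) * AA (fun j => |u j|) p) := by
  have h := param u p (Finset.univ.erase p) (by simp) hu (fun _ => 0) (Icc (-1) 1) (Ioo (-1) 1)
    measurableSet_Icc (ae_eq_refl _) measurableSet_Ioo (d + 1)
    (by rw [Finset.card_erase_of_mem (by simp), Finset.card_univ, hd]; omega)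
  have c1 : ((Finset.univ.erase p)ᶜ).erase p = ∅ := by ext j; simp
  have c2 : ∑ j ∈ Finset.univ.erase p, u j ^ 2 = 1 - u p ^ 2 - 0 ^ 2 := by
    rw [← hs, ← Finset.add_sum_erase _ _ (Finset.mem_univ p)]; ring
  rw [c1, c2, sqrt_aux _ _ hu] at h
  simp only [Finset.notMem_empty, Finset.sum_empty, IsEmpty.forall_iff, implies_true, true_and] at h
  have h0 : 0 < |u p| := abs_pos.2 hu
  have e : {z : ℝ | -(0 + z) / u p ∈ Ioo (-1 : ℝ) 1} = {z | |0 + z| < |u p|} := by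
    ext z
    simp only [mem_ofPred_eq, mem_Ioo, ← abs_lt, abs_div, abs_neg, div_lt_one h0]
  rw [e] at h
  change μHE[d + 1] (Ko u p) = _ * (_ * wio _ _ _) at h
  rw [h, AA, nu_abs]
  have e4 : ∀ t : ℝ, 2 ^ (d + 1) * (t / |u p|) = √(1 - 0 ^ 2) / |u p| * (2 ^ (d + 1) * t) :=
    fun t => by simp; field_simp
  rw [e4, ENNReal.ofReal_mul (by positivity), ENNReal.ofReal_mul (by positivity),
    ENNReal.ofReal_pow (by norm_num), ENNReal.ofReal_ofNat,
    ENNReal.ofReal_toReal (by exact measure_ne_top _ _)]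

lemma GG_measurable (u : ι → ℝ) (p : ι) (I : Set ℝ) (hI : MeasurableSet I) (kb : ι × Bool) :
    MeasurableSet (GG u p I kb) := by
  have m0 : MeasurableSet {x : EuclideanSpace ℝ ι | ∑ j, u j * x j = 0} :=
    measurableSet_eq_fun (by fun_prop) measurable_const
  have m1 : ∀ (j : ι) (J : Set ℝ), MeasurableSet J → MeasurableSet {x : EuclideanSpace ℝ ι | x j ∈ J} :=
    fun j J hJ => (show Measurable fun x : EuclideanSpace ℝ ι => x j by fun_prop) hJ
  have m2 : ∀ (S : Finset ι) (J : Set ℝ), MeasurableSet J →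
      MeasurableSet {x : EuclideanSpace ℝ ι | ∀ j ∈ S, x j ∈ J} := fun S J hJ => by
    have : {x : EuclideanSpace ℝ ι | ∀ j ∈ S, x j ∈ J} = ⋂ j ∈ S, {x | x j ∈ J} := by ext; simp
    rw [this]
    exact S.measurableSet_biInter fun j _ => m1 j J hJ
  unfold GG
  split_ifs
  · exact m0.inter ((m2 _ _ measurableSet_Icc).inter (m1 p {sg kb.2} (measurableSet_singleton _)))
  · exact m0.inter ((m2 _ _ hI).inter ((m1 _ {sg kb.2} (measurableSet_singleton _)).inter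
      (m1 p _ measurableSet_Ioo)))

lemma exists_sg (t : ℝ) (ht : |t| = 1) : ∃ b, t = sg b := by
  rcases abs_eq (by norm_num : (0 : ℝ) ≤ 1) |>.1 ht with h | h
  · exact ⟨true, by simp [sg, h]⟩
  · exact ⟨false, by simp [sg, h]⟩

lemma Bd_sub (u : ι → ℝ) (p : ι) : Bd u ⊆ ⋃ kb, GG u p (Icc (-1) 1) kb := by
  rintro x ⟨h1, h2, k, hk⟩
  by_cases hp : |x p| = 1
  · obtain ⟨b, hb⟩ := exists_sg _ hp
    refine mem_iUnion.2 ⟨(p, b), ?_⟩
    simp only [GG, if_true]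
    exact ⟨h1, fun j _ => abs_le.1 (h2 j), hb⟩
  · obtain ⟨b, hb⟩ := exists_sg _ hk
    have hkp : k ≠ p := by rintro rfl; exact hp hk
    refine mem_iUnion.2 ⟨(k, b), ?_⟩
    simp only [GG, hkp, if_false]
    exact ⟨h1, fun j _ => abs_le.1 (h2 j), hb, abs_lt.1 (lt_of_le_of_ne (h2 p) hp)⟩

lemma GG_prop (u : ι → ℝ) (p : ι) (kb : ι × Bool) (x : EuclideanSpace ℝ ι)
    (hx : x ∈ GG u p (Ioo (-1) 1) kb) :
    ∑ j, u j * x j = 0 ∧ x kb.1 = sg kb.2 ∧ (∀ j, |x j| ≤ 1) ∧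
      (kb.1 ≠ p → ∀ j, j ≠ kb.1 → |x j| < 1) := by
  obtain ⟨k, b⟩ := kb
  by_cases hk : k = p
  · subst hk
    simp only [GG, if_true] at hx
    refine ⟨hx.1, hx.2.2, fun j => ?_, fun h => absurd rfl h⟩
    by_cases hj : j = k
    · rw [hj, hx.2.2, sg_abs]
    · exact abs_le.2 (hx.2.1 j (by simp [hj]))
  · simp only [GG, hk, if_false] at hx
    have : ∀ j, j ≠ k → |x j| < 1 := fun j hj => by
      by_cases hjp : j = p
      · rw [hjp]; exact abs_lt.2 hx.2.2.2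
      · exact abs_lt.2 (hx.2.1 j (by simp [hj, hjp]))
    refine ⟨hx.1, hx.2.2.1, fun j => ?_, fun _ => this⟩
    by_cases hj : j = k
    · rw [hj, hx.2.2.1, sg_abs]
    · exact (this j hj).le

lemma Bd_meas (u : ι → ℝ) (hs : ∑ j, u j ^ 2 = 1) (p : ι) (hu : u p ≠ 0)
    (d : ℕ) (hd : Fintype.card ι = d + 2) :
    μHE[d] (Bd u) = ∑ kb, μHE[d] (GG u p (Icc (-1) 1) kb) := by
  apply le_antisymm
  · exact (measure_mono (Bd_sub u p)).trans (measure_iUnion_fintype_le _ _)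
  have e : ∀ kb, μHE[d] (GG u p (Icc (-1) 1) kb) = μHE[d] (GG u p (Ioo (-1) 1) kb) := by
    intro kb
    unfold GG
    split_ifs with h
    · rfl
    · rw [Fk_meas u hs p _ h hu _ (sg_abs _) _ measurableSet_Icc (ae_eq_refl _) d hd,
        Fk_meas u hs p _ h hu _ (sg_abs _) _ measurableSet_Ioo Ioo_ae_eq_Icc d hd]
  simp_rw [e]
  rw [← tsum_fintype (L := SummationFilter.unconditional _), ← measure_iUnion _ (GG_measurable u p _ measurableSet_Ioo)]
  · apply measure_mono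
    intro x hx
    obtain ⟨kb, hkb⟩ := mem_iUnion.1 hx
    obtain ⟨h1, h2, h3, _⟩ := GG_prop u p kb x hkb
    exact ⟨h1, h3, kb.1, by rw [h2, sg_abs]⟩
  · rintro ⟨k, b⟩ ⟨k', b'⟩ hne
    refine Set.disjoint_left.2 fun x hx hx' => ?_
    obtain ⟨_, h2, _, h4⟩ := GG_prop u p _ x hx
    obtain ⟨_, h2', _, h4'⟩ := GG_prop u p _ x hx'
    simp only at h2 h4 h2' h4'
    by_cases hk : k = k'
    · subst hk
      apply hne
      rw [h2] at h2'
      cases b <;> cases b' <;> simp [sg] at h2' ⊢ <;> linarith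
    · by_cases hkp : k = p
      · have := h4' (fun h => hk (hkp.trans h.symm)) k hk
        rw [h2, sg_abs] at this; exact lt_irrefl _ this
      · have := h4 hkp k' (Ne.symm hk)
        rw [h2', sg_abs] at this; exact lt_irrefl _ this

lemma Ko_le (u : EuclideanSpace ℝ ι) (hs : ∑ j, u j ^ 2 = 1) (p : ι) (hw : ∀ k, u k ^ 2 < 1)
    (d : ℕ) (hd : Fintype.card ι = d + 2) :
    μHE[d + 1] (Ko u p) ≤ ∑ kb : ι × Bool, ENNReal.ofReal (1 / ((d + 1) * √(1 - |u kb.1| ^ 2))) *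
      μHE[d] (GG u p (Icc (-1) 1) kb) := by
  have hu0 : u ≠ 0 := by rintro rfl; simp at hs
  have : Fact (finrank ℝ (EuclideanSpace ℝ ι) = (d + 1) + 1) := ⟨by simp [hd]⟩
  have hr : finrank ℝ (ℝ ∙ u)ᗮ = d + 1 := Submodule.finrank_orthogonal_span_singleton hu0
  have hin : ∀ x : EuclideanSpace ℝ ι, inner ℝ u x = ∑ j, u j * x j := fun x => by
    simp only [PiLp.inner_apply, RCLike.inner_apply, conj_trivial]
    exact Finset.sum_congr rfl fun j _ => mul_comm _ _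
  have hmem : ∀ x : EuclideanSpace ℝ ι, x ∈ (ℝ ∙ u)ᗮ ↔ ∑ j, u j * x j = 0 := fun x => by
    rw [Submodule.mem_orthogonal_singleton_iff_inner_right, hin]
  have huu : inner ℝ u u = 1 := by rw [hin, ← hs]; exact Finset.sum_congr rfl fun j _ => by ring
  have tr : ∀ (m : ℕ) (X : Set (EuclideanSpace ℝ ι)), (∀ x ∈ X, ∑ j, u j * x j = 0) →
      μHE[m] (Subtype.val ⁻¹' X : Set (ℝ ∙ u)ᗮ) = μHE[m] X := fun m X hX => by
    rw [isometry_subtype_coe.euclideanHausdorffMeasure_preimage, inter_eq_left.2]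
    intro x hx
    exact ⟨⟨x, (hmem x).2 (hX x hx)⟩, rfl⟩
  let v : ι × Bool → (ℝ ∙ u)ᗮ := fun kb =>
    ⟨sg kb.2 • (EuclideanSpace.single kb.1 (1 : ℝ) - u kb.1 • u), by
      rw [Submodule.mem_orthogonal_singleton_iff_inner_right, inner_smul_right, inner_sub_right,
        inner_smul_right, huu, EuclideanSpace.inner_single_right]
      simp⟩
  have hv : ∀ kb (x : (ℝ ∙ u)ᗮ), inner ℝ (v kb) x = sg kb.2 * x.1 kb.1 := fun kb x => by
    have h0 : inner ℝ u x.1 = 0 := Submodule.mem_orthogonal_singleton_iff_inner_right.1 x.2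
    rw [Submodule.coe_inner]
    simp only [v]
    rw [real_inner_smul_left, inner_sub_left, real_inner_smul_left, h0,
      EuclideanSpace.inner_single_left]
    simp
  have hn : ∀ kb, ‖v kb‖ = √(1 - |u kb.1| ^ 2) := fun kb => by
    rw [← Real.sqrt_sq (norm_nonneg (v kb)), ← real_inner_self_eq_norm_sq, hv, sq_abs]
    congr 1
    have : sg kb.2 * sg kb.2 = 1 := by cases kb.2 <;> simp [sg]
    simp only [v, PiLp.smul_apply, PiLp.sub_apply, smul_eq_mul, PiLp.single_apply, if_true]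
    rw [← mul_assoc, this]; ring
  have hv0 : ∀ kb, v kb ≠ 0 := fun kb h => by
    have h1 := hn kb
    rw [h, norm_zero, sq_abs] at h1
    have := Real.sqrt_pos.2 (sub_pos.2 (hw kb.1))
    linarith
  rw [← tr _ _ (fun x hx => hx.1)]
  let C : ι × Bool → Set (ℝ ∙ u)ᗮ := fun kb => {x | 0 < inner ℝ (v kb) x ∧ inner ℝ (v kb) x ≤ 1 ∧
    (inner ℝ (v kb) x)⁻¹ • x ∈ (Subtype.val ⁻¹' GG u p (Icc (-1) 1) kb : Set (ℝ ∙ u)ᗮ)}
  have sub : (Subtype.val ⁻¹' Ko u p : Set (ℝ ∙ u)ᗮ) ⊆ {0} ∪ ⋃ kb, C kb := by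
    intro x hx
    by_cases h0 : x = 0
    · exact Or.inl h0
    right
    obtain ⟨h1, h2, h3⟩ := hx
    have : Nonempty ι := ⟨p⟩
    obtain ⟨k, -, hk⟩ := Finset.exists_max_image Finset.univ (fun j => |x.1 j|) Finset.univ_nonempty
    simp only [Finset.mem_univ, forall_true_left] at hk
    set t := |x.1 k| with ht
    have ht0 : 0 < t := by
      by_contra hc
      apply h0
      ext j
      have := (hk j).trans (not_lt.1 hc)
      simpa using this
    have ht1 : t ≤ 1 := by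
      by_cases hkp : k = p
      · rw [ht, hkp]; exact (abs_lt.2 h3).le
      · exact abs_le.2 (h2 k (by simp [hkp]))
    have hB : (t⁻¹ • x.1) ∈ Bd u := by
      refine ⟨?_, fun j => ?_, k, ?_⟩
      · simp only [PiLp.smul_apply, smul_eq_mul]
        have : ∑ j, u j * (t⁻¹ * x.1 j) = t⁻¹ * ∑ j, u j * x.1 j := by
          rw [Finset.mul_sum]; exact Finset.sum_congr rfl fun j _ => by ring
        rw [this, h1, mul_zero]
      · simp only [PiLp.smul_apply, smul_eq_mul, abs_mul, abs_inv, abs_of_pos ht0]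
        rw [inv_mul_le_iff₀ ht0, mul_one]; exact hk j
      · simp only [PiLp.smul_apply, smul_eq_mul, abs_mul, abs_inv, abs_of_pos ht0]
        exact inv_mul_cancel₀ ht0.ne'
    obtain ⟨kb, hkb⟩ := mem_iUnion.1 (Bd_sub u p hB)
    have hc : (t⁻¹ • x.1) kb.1 = sg kb.2 := by
      unfold GG at hkb
      split_ifs at hkb with h
      · rw [h]; exact hkb.2.2
      · exact hkb.2.2.1
    have hi : inner ℝ (v kb) x = t := by
      rw [hv]
      simp only [PiLp.smul_apply, smul_eq_mul] at hc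
      have h5 : x.1 kb.1 = t * sg kb.2 := by rw [← hc]; field_simp
      have : sg kb.2 * sg kb.2 = 1 := by cases kb.2 <;> simp [sg]
      rw [h5, mul_left_comm, this, mul_one]
    refine mem_iUnion.2 ⟨kb, ?_⟩
    simp only [C, mem_ofPred_eq, hi]
    exact ⟨ht0, ht1, hkb⟩
  have z : μHE[d + 1] ({0} : Set (ℝ ∙ u)ᗮ) = 0 := by
    have : Nontrivial (ℝ ∙ u)ᗮ := Module.nontrivial_of_finrank_pos (R := ℝ) (by rw [hr]; omega)
    rw [← hr, InnerProductSpace.euclideanHausdorffMeasure_eq_volume]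
    exact measure_singleton _
  refine (measure_mono sub).trans ((measure_union_le _ _).trans ?_)
  rw [z, zero_add]
  refine (measure_iUnion_fintype_le _ _).trans (Finset.sum_le_sum fun kb _ => ?_)
  have := cone (v kb) (hv0 kb) (Subtype.val ⁻¹' GG u p (Icc (-1) 1) kb)
    (measurable_subtype_coe (GG_measurable u p _ measurableSet_Icc kb)) d hr
  rw [hn, tr] at this
  · exact this
  · intro x hx
    unfold GG at hx
    split_ifs at hx <;> exact hx.1

end Pool.Agent.H94.Per6
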