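import Pool.Agent.H94.Per6

open MeasureTheory Set ProbabilityTheory Module
open scoped ENNReal Pointwise

namespace Pool.Agent.H94.Per7
open Pool.Agent.H94.Per1 Pool.Agent.H94.Per2 Pool.Agent.H94.Per4 Pool.Agent.H94.Per5
  Pool.Agent.H94.Per6

set_option linter.unusedSectionVars false

variable {ι : Type*} [Fintype ι] [DecidableEq ι]

lemma frontier_eq (u : EuclideanSpace ℝ ι) :
    Subtype.val '' frontier (Subtype.val ⁻¹' {x : EuclideanSpace ℝ ι | ∀ i, |x i| ≤ 1} :
      Set (ℝ ∙ u)ᗮ) = Bd u := by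
  have hin : ∀ x : EuclideanSpace ℝ ι, inner ℝ u x = ∑ j, u j * x j := fun x => by
    simp only [PiLp.inner_apply, RCLike.inner_apply, conj_trivial]
    exact Finset.sum_congr rfl fun j _ => mul_comm _ _
  have hmem : ∀ x : EuclideanSpace ℝ ι, x ∈ (ℝ ∙ u)ᗮ ↔ ∑ j, u j * x j = 0 := fun x => by
    rw [Submodule.mem_orthogonal_singleton_iff_inner_right, hin]
  set s : Set (ℝ ∙ u)ᗮ := Subtype.val ⁻¹' {x : EuclideanSpace ℝ ι | ∀ i, |x i| ≤ 1} with hs
  have hc : IsClosed s := by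
    have : s = ⋂ i, {x : (ℝ ∙ u)ᗮ | |x.1 i| ≤ 1} := by ext; simp [hs]
    rw [this]
    exact isClosed_iInter fun i => isClosed_le (by fun_prop) continuous_const
  have hi : ∀ x : (ℝ ∙ u)ᗮ, x ∈ interior s ↔ ∀ i, |x.1 i| < 1 := by
    intro x
    constructor
    · intro hx i
      have h1 : |x.1 i| ≤ 1 := interior_subset hx i
      refine lt_of_le_of_ne h1 fun h2 => ?_
      have hcont : Continuous fun t : ℝ => t • x := by fun_prop
      have h3 : (fun t : ℝ => t • x) ⁻¹' interior s ∈ nhds (1 : ℝ) :=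
        (isOpen_interior.preimage hcont).mem_nhds (by simpa using hx)
      obtain ⟨t, ht1, ht2⟩ := ((frequently_gt_nhds (1 : ℝ)).and_eventually h3).exists
      have h4 : |(t • x).1 i| ≤ 1 := interior_subset ht2 i
      simp only [Submodule.coe_smul, PiLp.smul_apply, smul_eq_mul, abs_mul, h2, mul_one] at h4
      linarith [le_abs_self t]
    · intro hx
      have ho : IsOpen {x : (ℝ ∙ u)ᗮ | ∀ i, |x.1 i| < 1} := by
        have : {x : (ℝ ∙ u)ᗮ | ∀ i, |x.1 i| < 1} = ⋂ i, {x : (ℝ ∙ u)ᗮ | |x.1 i| < 1} := by ext; simp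
        rw [this]
        exact isOpen_iInter_of_finite fun i => isOpen_lt (by fun_prop) continuous_const
      exact interior_maximal (fun y hy i => (hy i).le) ho hx
  rw [hc.frontier_eq]
  ext x
  constructor
  · rintro ⟨y, ⟨h1, h2⟩, rfl⟩
    rw [hi] at h2
    push Not at h2
    obtain ⟨k, hk⟩ := h2
    exact ⟨(hmem _).1 y.2, h1, k, le_antisymm (h1 k) hk⟩
  · rintro ⟨h1, h2, k, hk⟩
    refine ⟨⟨x, (hmem x).2 h1⟩, ⟨h2, fun h => ?_⟩, rfl⟩
    have := (hi _).1 h k
    rw [hk] at this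
    exact lt_irrefl _ this

lemma GG_meas (u : ι → ℝ) (hs : ∑ j, u j ^ 2 = 1) (p q : ι) (hq : q ≠ p) (hp : u p ≠ 0)
    (hu : u q ≠ 0) (d : ℕ) (hd : Fintype.card ι = d + 2) (kb : ι × Bool) :
    μHE[d] (GG u p (Icc (-1) 1) kb) =
      ENNReal.ofReal (2 ^ d * (√(1 - |u kb.1| ^ 2) * DD (fun j => |u j|) p q kb.1)) := by
  unfold GG DD
  split_ifs with h
  · rw [Fp_meas u hs p q hq hu _ (sg_abs _) d hd, h]
  · rw [Fk_meas u hs p _ h hp _ (sg_abs _) _ measurableSet_Icc (ae_eq_refl _) d hd]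

lemma Bd_formula (u : ι → ℝ) (hs : ∑ j, u j ^ 2 = 1) (p q : ι) (hq : q ≠ p) (hp : u p ≠ 0)
    (hu : u q ≠ 0) (d : ℕ) (hd : Fintype.card ι = d + 2) :
    μHE[d] (Bd u) = ENNReal.ofReal (2 ^ (d + 1) * ∑ k, √(1 - |u k| ^ 2) * DD (fun j => |u j|) p q k) := by
  rw [Bd_meas u hs p hp d hd]
  simp_rw [GG_meas u hs p q hq hp hu d hd]
  rw [← ENNReal.ofReal_sum_of_nonneg]
  · congr 1
    rw [Fintype.sum_prod_type, Finset.mul_sum]
    refine Finset.sum_congr rfl fun k _ => ?_
    simp; ring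
  · intro kb _
    have := DD_nonneg (fun j => |u j|) (fun j => abs_nonneg _) p q kb.1
    positivity

lemma cone_ineq (u : EuclideanSpace ℝ ι) (hs : ∑ j, u j ^ 2 = 1) (p q : ι) (hq : q ≠ p)
    (hp : u p ≠ 0) (hu : u q ≠ 0) (d : ℕ) (hd : Fintype.card ι = d + 2) :
    ((Fintype.card ι : ℝ) - 1) * AA (fun j => |u j|) p ≤ ∑ k, DD (fun j => |u j|) p q k := by
  have hw : ∀ k, u k ^ 2 < 1 := by
    intro k
    have h1 : ∀ r, r ≠ k → u r ≠ 0 → u k ^ 2 < 1 := fun r hr h0 => by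
      have h2 := sum_two u hs k r hr
      have h3 : 0 ≤ ∑ j ∈ (Finset.univ.erase k).erase r, u j ^ 2 :=
        Finset.sum_nonneg fun j _ => sq_nonneg _
      have : 0 < u r ^ 2 := by positivity
      linarith
    by_cases hk : k = p
    · exact h1 q (by rw [hk]; exact hq) hu
    · exact h1 p (Ne.symm hk) hp
  have h := Ko_le u hs p hw d hd
  rw [Ko_meas u hs p hp d hd] at h
  simp_rw [GG_meas u hs p q hq hp hu d hd] at h
  have e : ∀ kb : ι × Bool, ENNReal.ofReal (1 / ((d + 1) * √(1 - |u kb.1| ^ 2))) *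
      ENNReal.ofReal (2 ^ d * (√(1 - |u kb.1| ^ 2) * DD (fun j => |u j|) p q kb.1)) =
      ENNReal.ofReal (2 ^ d / (d + 1) * DD (fun j => |u j|) p q kb.1) := fun kb => by
    rw [← ENNReal.ofReal_mul (by positivity)]
    congr 1
    have : 0 < √(1 - |u kb.1| ^ 2) := Real.sqrt_pos.2 (by rw [sq_abs]; linarith [hw kb.1])
    field_simp
  simp_rw [e] at h
  have hD := DD_nonneg (fun j => |u j|) (fun j => abs_nonneg _) p q
  rw [← ENNReal.ofReal_sum_of_nonneg (fun kb _ => by have := hD kb.1; positivity),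
    ENNReal.ofReal_le_ofReal_iff (Finset.sum_nonneg fun kb _ => by have := hD kb.1; positivity),
    Fintype.sum_prod_type] at h
  simp only [Finset.sum_const, Finset.card_univ, Fintype.card_bool, nsmul_eq_mul] at h
  rw [← Finset.mul_sum, ← Finset.mul_sum] at h
  rw [hd]
  push_cast at h ⊢
  have h2 : (0 : ℝ) < 2 ^ (d + 1) / (d + 1) := by positivity
  refine le_of_mul_le_mul_left ?_ h2
  calc _ = 2 ^ (d + 1) * AA (fun j => |u j|) p := by field_simp; ring
    _ ≤ _ := h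
    _ = _ := by ring

lemma strict (u : EuclideanSpace ℝ ι) (hs : ∑ j, u j ^ 2 = 1) (d : ℕ) (hd : Fintype.card ι = d + 2)
    (hd1 : 1 ≤ d) (p q : ι) (hqp : q ≠ p) (hp : ∀ j, |u j| ≤ |u p|)
    (hq : ∀ j, j ≠ p → |u j| ≤ |u q|) (hu : u q ≠ 0) :
    (((d + 1) * 2 ^ (d + 1) : ℕ) : ℝ≥0∞) < μHE[d] (Bd u) := by
  have hq0 : 0 < |u q| := abs_pos.2 hu
  have hp0 : u p ≠ 0 := abs_pos.1 (hq0.trans_le (hp q))
  have h := main (fun j => |u j|) (fun j => abs_nonneg _) (by simpa using hs) p q hqp hp hq hq0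
    (by omega) (cone_ineq u hs p q hqp hp0 hu d hd)
  rw [Bd_formula u hs p q hqp hp0 hu d hd, ← ENNReal.ofReal_natCast,
    ENNReal.ofReal_lt_ofReal_iff_of_nonneg (by positivity)]
  rw [hd] at h
  push_cast at h ⊢
  have : (0 : ℝ) < 2 ^ (d + 1) := by positivity
  nlinarith

lemma axis (u : ι → ℝ) (hs : ∑ j, u j ^ 2 = 1) (d : ℕ) (hd : Fintype.card ι = d + 2)
    (p : ι) (h0 : ∀ j, j ≠ p → u j = 0) :
    μHE[d] (Bd u) = (((d + 1) * 2 ^ (d + 1) : ℕ) : ℝ≥0∞) := by
  have hp2 : u p ^ 2 = 1 := by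
    rw [← hs, ← Finset.add_sum_erase _ _ (Finset.mem_univ p),
      Finset.sum_eq_zero (fun j hj => by simp [h0 j (Finset.mem_erase.1 hj).1]), add_zero]
  have hp1 : |u p| = 1 := by
    have := sq_eq_sq₀ (abs_nonneg (u p)) zero_le_one |>.1 (by simpa using hp2)
    exact this
  have hp : u p ≠ 0 := by rintro h; simp [h] at hp2
  rw [Bd_meas u hs p hp d hd]
  have e : ∀ kb : ι × Bool, μHE[d] (GG u p (Icc (-1) 1) kb) = if kb.1 = p then 0 else 2 ^ d := by
    intro kb
    unfold GG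
    split_ifs with h
    · have : Fp u p (sg kb.2) = ∅ := by
        ext x
        simp only [mem_empty_iff_false, iff_false]
        rintro ⟨h1, _, h3⟩
        rw [← Finset.add_sum_erase _ _ (Finset.mem_univ p),
          Finset.sum_eq_zero (fun j hj => by simp [h0 j (Finset.mem_erase.1 hj).1]), add_zero, h3] at h1
        have := sg_abs kb.2
        rcases mul_eq_zero.1 h1 with h | h
        · exact hp h
        · rw [h] at this; simp at this
      rw [this, measure_empty]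
    · rw [Fk_meas u hs p _ h hp _ (sg_abs _) _ measurableSet_Icc (ae_eq_refl _) d hd, h0 _ h, hp1]
      have : nu (fun j => |u j|) ((Finset.univ.erase p).erase kb.1) = Measure.dirac 0 := by
        rw [nu]
        have : (fun ω : ι → ℝ => ∑ j ∈ (Finset.univ.erase p).erase kb.1, |u j| * ω j) = fun _ => 0 := by
          ext ω
          exact Finset.sum_eq_zero fun j hj => by
            simp [h0 j (Finset.mem_erase.1 (Finset.mem_erase.1 hj).2).1]
        rw [this]; simp [Measure.map_const]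
      rw [this, wio, Measure.dirac_apply_of_mem (by simp)]
      simp [ENNReal.ofReal_pow]
  simp_rw [e]
  rw [Fintype.sum_prod_type]
  have e5 : ∀ x : ι, (∑ _b : Bool, if x = p then (0 : ℝ≥0∞) else 2 ^ d) =
      2 * if x = p then (0 : ℝ≥0∞) else 2 ^ d := fun x => by
    rw [Fintype.sum_bool, two_mul]
  simp only [e5]
  rw [← Finset.mul_sum, ← Finset.add_sum_erase _ _ (Finset.mem_univ p), if_pos rfl, zero_add,
    Finset.sum_congr rfl (fun j hj => if_neg (Finset.mem_erase.1 hj).1), Finset.sum_const,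
    Finset.card_erase_of_mem (Finset.mem_univ p), Finset.card_univ, hd]
  simp only [nsmul_eq_mul]
  push_cast
  ring

lemma exists_pq (u : ι → ℝ) (d : ℕ) (hd : Fintype.card ι = d + 2) :
    ∃ p q, q ≠ p ∧ (∀ j, |u j| ≤ |u p|) ∧ ∀ j, j ≠ p → |u j| ≤ |u q| := by
  have : Nonempty ι := Fintype.card_pos_iff.1 (by omega)
  obtain ⟨p, -, hp⟩ := Finset.exists_max_image Finset.univ (fun j => |u j|) Finset.univ_nonempty
  obtain ⟨q, hq1, hq⟩ := Finset.exists_max_image (Finset.univ.erase p) (fun j => |u j|) (by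
    rw [← Finset.card_pos, Finset.card_erase_of_mem (Finset.mem_univ p), Finset.card_univ]; omega)
  exact ⟨p, q, (Finset.mem_erase.1 hq1).1, fun j => hp j (Finset.mem_univ _),
    fun j hj => hq j (by simp [hj])⟩

lemma two (u : ι → ℝ) (hs : ∑ j, u j ^ 2 = 1) (hd : Fintype.card ι = 0 + 2) :
    μHE[0] (Bd u) = 2 := by
  obtain ⟨p, q, hqp, hp, hq⟩ := exists_pq u 0 hd
  by_cases hu : u q = 0
  · rw [axis u hs 0 hd p (fun j hj => by simpa [hu] using hq j hj)]
    norm_num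
  have hq0 : 0 < |u q| := abs_pos.2 hu
  have hp0 : 0 < |u p| := hq0.trans_le (hp q)
  have he : (Finset.univ.erase p).erase q = ∅ := by
    rw [← Finset.card_eq_zero]; exact (card_two p q hqp 0 hd).symm
  have h2 := sum_two u hs p q hqp
  rw [he, Finset.sum_empty] at h2
  rw [Bd_formula u hs p q hqp (abs_pos.1 hp0) hu 0 hd, ← Finset.add_sum_erase _ _ (Finset.mem_univ p),
    ← Finset.add_sum_erase _ _ (show q ∈ Finset.univ.erase p by simp [hqp]), he, Finset.sum_empty]
  have w1 : √(1 - |u p| ^ 2) = |u q| := by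
    rw [sq_abs, ← Real.sqrt_sq_eq_abs]; congr 1; linarith
  have w2 : √(1 - |u q| ^ 2) = |u p| := by
    rw [sq_abs, ← Real.sqrt_sq_eq_abs]; congr 1; linarith
  rw [w1, w2]
  simp only [DD, if_true, hqp, if_false, he, nu_empty, dens, win, wio]
  rw [ENNReal.toReal_mul, ENNReal.toReal_ofReal (by positivity)]
  rcases (hp q).eq_or_lt with h | h
  · rw [Measure.dirac_apply_of_mem (by simp [h]), Measure.dirac_apply' _ (by measurability),
      indicator_of_notMem (by simp [h])]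
    simp only [ENNReal.toReal_one, ENNReal.toReal_zero]
    rw [← ENNReal.ofReal_ofNat]; congr 1; field_simp; ring
  · rw [Measure.dirac_apply' _ (by measurability), indicator_of_notMem (by simpa using h),
      Measure.dirac_apply_of_mem (by simpa using h)]
    simp only [ENNReal.toReal_one, ENNReal.toReal_zero]
    rw [← ENNReal.ofReal_ofNat]; congr 1; field_simp; ring

lemma final (u : EuclideanSpace ℝ ι) (hu : ‖u‖ = 1) (d : ℕ) (hd : Fintype.card ι = d + 2)
    (hd1 : 1 ≤ d) :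
    (((d + 1) * 2 ^ (d + 1) : ℕ) : ℝ≥0∞) ≤ μHE[d] (Bd u) ∧
    (μHE[d] (Bd u) = (((d + 1) * 2 ^ (d + 1) : ℕ) : ℝ≥0∞) ↔
      ∃ i, u = EuclideanSpace.single i 1 ∨ u = -EuclideanSpace.single i 1) := by
  have hs : ∑ j, u j ^ 2 = 1 := by
    rw [← EuclideanSpace.real_norm_sq_eq, hu]; norm_num
  obtain ⟨p, q, hqp, hp, hq⟩ := exists_pq u d hd
  by_cases h0 : u q = 0
  · have h1 : ∀ j, j ≠ p → u j = 0 := fun j hj => by simpa [h0] using hq j hj
    have h2 := axis u hs d hd p h1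
    refine ⟨h2.ge, fun _ => ⟨p, ?_⟩, fun _ => h2⟩
    have hp2 : u p ^ 2 = 1 := by
      rw [← hs, ← Finset.add_sum_erase _ _ (Finset.mem_univ p),
        Finset.sum_eq_zero (fun j hj => by simp [h1 j (Finset.mem_erase.1 hj).1]), add_zero]
    rcases sq_eq_one_iff.1 hp2 with h | h
    · left; ext j
      by_cases hj : j = p
      · simp [hj, h]
      · simp [hj, h1 j hj]
    · right; ext j
      by_cases hj : j = p
      · simp [hj, h]
      · simp [hj, h1 j hj]
  · have h1 := strict u hs d hd hd1 p q hqp hp hq h0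
    refine ⟨h1.le, fun h => absurd h h1.ne', ?_⟩
    rintro ⟨i, hi⟩
    refine axis u hs d hd i fun j hj => ?_
    rcases hi with hi | hi <;> simp [hi, hj]

end Pool.Agent.H94.Per7
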