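import Mathlib

set_option autoImplicit false

namespace Pool.Agent.H94.Poly

open MeasureTheory Set

abbrev E := EuclideanSpace ℝ (Fin 2)

theorem ip (x y : E) : @inner ℝ _ _ x y = x 0 * y 0 + x 1 * y 1 := by
  simp [PiLp.inner_apply, Fin.sum_univ_two, mul_comm]

theorem nrm (x : E) (h : ‖x‖ = 1) : x 0 ^ 2 + x 1 ^ 2 = 1 := by
  have := real_inner_self_eq_norm_sq x
  rw [ip, h] at this
  linarith

/-- the set of values of supporting unit normals at a point -/
def supp (A : Set E) (x : E) : Set ℝ :=
  {t : ℝ | ∃ u : E, ‖u‖ = 1 ∧ (∀ y ∈ A, @inner ℝ _ _ y u ≤ @inner ℝ _ _ x u) ∧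
    t = @inner ℝ _ _ x u}

theorem normal_unique (A : Set E) (p q u w x v : E) (h : ℝ) (hu : ‖u‖ = 1) (hp : p ∈ A)
    (hq : q ∈ A) (hpu : @inner ℝ _ _ p u = h) (hqu : @inner ℝ _ _ q u = h) (hpq : p ≠ q)
    (hw : w ∈ A) (hwu : @inner ℝ _ _ w u < h) (hx : x ∈ openSegment ℝ p q) (hv : ‖v‖ = 1)
    (hsup : ∀ y ∈ A, @inner ℝ _ _ y v ≤ @inner ℝ _ _ x v) : v = u := by
  obtain ⟨a, b, ha, hb, hab, rfl⟩ := hx
  have h1 := hsup p hp
  have h2 := hsup q hq
  have h3 := hsup w hw
  have n1 := nrm u hu
  have n2 := nrm v hv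
  rw [ip] at hpu hqu hwu
  simp only [ip, PiLp.add_apply, PiLp.smul_apply, smul_eq_mul] at h1 h2 h3
  have hb' : b = 1 - a := by linarith
  subst hb'
  have e1 : (q 0 - p 0) * v 0 + (q 1 - p 1) * v 1 = 0 := by
    apply le_antisymm
    · by_contra hc
      push Not at hc
      nlinarith
    · by_contra hc
      push Not at hc
      nlinarith
  have e2 : (q 0 - p 0) * u 0 + (q 1 - p 1) * u 1 = 0 := by linarith
  have e3 : u 0 * v 1 - u 1 * v 0 = 0 := by
    by_contra hc
    apply hpq
    have a1 : (q 0 - p 0) * (u 0 * v 1 - u 1 * v 0) = 0 := by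
      linear_combination (v 1) * e2 - (u 1) * e1
    have a2 : (q 1 - p 1) * (u 0 * v 1 - u 1 * v 0) = 0 := by
      linear_combination (u 0) * e1 - (v 0) * e2
    have b1 := (mul_eq_zero.mp a1).resolve_right hc
    have b2 := (mul_eq_zero.mp a2).resolve_right hc
    ext i
    fin_cases i
    · show p 0 = q 0
      linarith
    · show p 1 = q 1
      linarith
  set l := u 0 * v 0 + u 1 * v 1 with hl
  have f0 : v 0 = l * u 0 := by
    rw [hl]; linear_combination (-(v 0)) * n1 - (u 1) * e3
  have f1 : v 1 = l * u 1 := by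
    rw [hl]; linear_combination (-(v 1)) * n1 + (u 0) * e3
  have l2 : (l - 1) * (l + 1) = 0 := by
    have : l ^ 2 * (u 0 ^ 2 + u 1 ^ 2) = 1 := by
      rw [← n2, f0, f1]; ring
    rw [n1] at this
    linear_combination this
  rcases mul_eq_zero.mp l2 with l3 | l3
  · have : l = 1 := by linarith
    rw [this, one_mul] at f0 f1
    ext i
    fin_cases i
    · exact f0
    · exact f1
  · exfalso
    have : l = -1 := by linarith
    rw [this] at f0 f1
    rw [f0, f1] at h3
    nlinarith

theorem inner_seg (p q u x : E) (h : ℝ) (hpu : @inner ℝ _ _ p u = h) (hqu : @inner ℝ _ _ q u = h)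
    (hx : x ∈ segment ℝ p q) : @inner ℝ _ _ x u = h := by
  obtain ⟨a, b, _, _, hab, rfl⟩ := hx
  rw [inner_add_left, real_inner_smul_left, real_inner_smul_left, hpu, hqu, ← add_mul, hab, one_mul]

section
variable {ι : Type} [Fintype ι] (u : ι → E) (h : ι → ℝ)

def body : Set E := {x | ∀ i, @inner ℝ _ _ x (u i) ≤ h i}

theorem body_convex : Convex ℝ (body u h) := by
  intro x hx y hy a b ha hb hab i
  rw [inner_add_left, real_inner_smul_left, real_inner_smul_left]
  have h1 := mul_le_mul_of_nonneg_left (hx i) ha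
  have h2 := mul_le_mul_of_nonneg_left (hy i) hb
  have : a * h i + b * h i = h i := by rw [← add_mul, hab, one_mul]
  linarith

theorem body_closed : IsClosed (body u h) := by
  have : body u h = ⋂ i, {x : E | @inner ℝ _ _ x (u i) ≤ h i} := by
    ext x; simp [body]
  rw [this]
  exact isClosed_iInter fun i => isClosed_le (by fun_prop) continuous_const

theorem mem_interior_body (x : E) (hx : ∀ i, @inner ℝ _ _ x (u i) < h i) :
    x ∈ interior (body u h) := by
  have ho : IsOpen (⋂ i, {x : E | @inner ℝ _ _ x (u i) < h i}) :=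
    isOpen_iInter_of_finite fun i => isOpen_lt (by fun_prop) continuous_const
  have hs : (⋂ i, {x : E | @inner ℝ _ _ x (u i) < h i}) ⊆ body u h := by
    intro y hy i
    exact le_of_lt (Set.mem_iInter.mp hy i)
  exact interior_maximal hs ho (Set.mem_iInter.mpr hx)

theorem not_mem_interior (hu : ∀ i, ‖u i‖ = 1) (x : E) (i : ι) (hx : @inner ℝ _ _ x (u i) = h i) :
    x ∉ interior (body u h) := by
  intro hi
  obtain ⟨ε, hε, hb⟩ := Metric.isOpen_iff.mp isOpen_interior x hi
  have hm : x + (ε / 2) • u i ∈ Metric.ball x ε := by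
    rw [mem_ball_iff_norm, add_sub_cancel_left, norm_smul, hu i, Real.norm_eq_abs,
      abs_of_pos (by linarith)]
    linarith
  have := interior_subset (hb hm) i
  rw [inner_add_left, real_inner_smul_left, real_inner_self_eq_norm_sq, hu i, hx] at this
  linarith

theorem polygon_integral (φ : ℝ → ℝ) (p q : ι → E) (w : E) (hu : ∀ i, ‖u i‖ = 1)
    (hinj : Function.Injective u) (hp : ∀ i, p i ∈ body u h) (hq : ∀ i, q i ∈ body u h)
    (hpu : ∀ i, @inner ℝ _ _ (p i) (u i) = h i) (hqu : ∀ i, @inner ℝ _ _ (q i) (u i) = h i)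
    (hpq : ∀ i, p i ≠ q i) (hw : ∀ i, @inner ℝ _ _ w (u i) < h i)
    (hseg : ∀ i, ∀ x ∈ body u h, @inner ℝ _ _ x (u i) = h i → x ∈ segment ℝ (p i) (q i)) :
    ∫ x in frontier (body u h), φ (sSup (supp (body u h) x)) ∂(μH[1])
      = ∑ i, φ (h i) * dist (p i) (q i) := by
  classical
  have hwA : w ∈ body u h := fun i => (hw i).le
  have hsub : ∀ i, segment ℝ (p i) (q i) ⊆ body u h := fun i =>
    (body_convex u h).segment_subset (hp i) (hq i)
  have hsubF : ∀ i, segment ℝ (p i) (q i) ⊆ frontier (body u h) := by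
    intro i x hx
    rw [(body_closed u h).frontier_eq]
    exact ⟨hsub i hx, not_mem_interior u h hu x i (inner_seg _ _ _ _ _ (hpu i) (hqu i) hx)⟩
  have hF : ∀ x ∈ frontier (body u h), ∃ i, x ∈ segment ℝ (p i) (q i) := by
    intro x hx
    rw [(body_closed u h).frontier_eq] at hx
    by_contra hc
    push Not at hc
    apply hx.2
    apply mem_interior_body
    intro i
    exact lt_of_le_of_ne (hx.1 i) fun he => hc i (hseg i x hx.1 he)
  have hmeas : ∀ i, MeasurableSet (segment ℝ (p i) (q i)) := by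
    intro i
    rw [segment_eq_image]
    exact (isCompact_Icc.image (by fun_prop)).isClosed.measurableSet
  have hlen : ∀ i, (μH[1] : Measure E) (segment ℝ (p i) (q i)) = ENNReal.ofReal (dist (p i) (q i)) := by
    intro i
    rw [hausdorffMeasure_segment, edist_dist]
  have : NullSingletonClass (μH[1] : Measure E) :=
    Measure.nullSingletonClass_hausdorff E one_pos
  have hnull : (μH[1] : Measure E) (Set.range p ∪ Set.range q) = 0 :=
    ((Set.finite_range p).union (Set.finite_range q)).measure_zero _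
  have hae : ∀ᵐ x ∂((μH[1] : Measure E).restrict (frontier (body u h))),
      φ (sSup (supp (body u h) x))
        = ∑ i, (segment ℝ (p i) (q i)).indicator (fun _ => φ (h i)) x := by
    rw [ae_restrict_iff' isClosed_frontier.measurableSet]
    have : ∀ᵐ x ∂(μH[1] : Measure E), x ∉ Set.range p ∪ Set.range q :=
      measure_eq_zero_iff_ae_notMem.mp hnull
    filter_upwards [this] with x hx hxF
    have hopen : ∀ j, x ∈ segment ℝ (p j) (q j) → x ∈ openSegment ℝ (p j) (q j) := by
      intro j hj
      apply mem_openSegment_of_ne_left_right _ _ hj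
      · intro he; exact hx (Or.inl ⟨j, he⟩)
      · intro he; exact hx (Or.inr ⟨j, he⟩)
    obtain ⟨i, hi⟩ := hF x hxF
    have hxi := inner_seg _ _ _ _ _ (hpu i) (hqu i) hi
    have huniq := fun v hv hs => normal_unique (body u h) (p i) (q i) (u i) w x v (h i) (hu i)
      (hp i) (hq i) (hpu i) (hqu i) (hpq i) hwA (hw i) (hopen i hi) hv hs
    have hs : supp (body u h) x = {h i} := by
      ext t
      constructor
      · rintro ⟨v, hv, hs, rfl⟩
        rw [huniq v hv hs, hxi]; rfl
      · rintro rfl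
        exact ⟨u i, hu i, fun y hy => by rw [hxi]; exact hy i, hxi.symm⟩
    rw [hs, csSup_singleton, Finset.sum_eq_single i]
    · rw [Set.indicator_of_mem hi]
    · intro j _ hj
      rw [Set.indicator_of_notMem]
      intro hxj
      apply hj
      apply hinj
      apply huniq (u j) (hu j)
      intro y hy
      rw [inner_seg _ _ _ _ _ (hpu j) (hqu j) hxj]
      exact hy j
    · simp
  rw [integral_congr_ae hae, integral_finsetSum]
  · refine Finset.sum_congr rfl fun i _ => ?_
    rw [integral_indicator (hmeas i), Measure.restrict_restrict (hmeas i),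
      Set.inter_eq_left.mpr (hsubF i), setIntegral_const, measureReal_def, hlen,
      ENNReal.toReal_ofReal dist_nonneg, smul_eq_mul, mul_comm]
  · intro i _
    rw [integrable_indicator_iff (hmeas i)]
    apply integrableOn_const
    · rw [Measure.restrict_apply (hmeas i), Set.inter_eq_left.mpr (hsubF i), hlen]
      exact ENNReal.ofReal_ne_top
    · simp

end

end Pool.Agent.H94.Poly
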