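import Mathlib
import Pool.Agent.H94.Poly1

set_option autoImplicit false

namespace Pool.Agent.H94.Poly

open MeasureTheory Set
open scoped Pointwise

noncomputable def pt (x y : ℝ) : E := WithLp.toLp 2 ![x, y]

@[simp] theorem pt0 (x y : ℝ) : pt x y 0 = x := rfl
@[simp] theorem pt1 (x y : ℝ) : pt x y 1 = y := rfl

theorem dist_pt (x y x' y' L : ℝ) (hL : 0 ≤ L) (h : (x - x') ^ 2 + (y - y') ^ 2 = L ^ 2) :
    dist (pt x y) (pt x' y') = L := by
  rw [EuclideanSpace.dist_eq, Fin.sum_univ_two]
  simp only [pt0, pt1, Real.dist_eq, sq_abs]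
  rw [h, Real.sqrt_sq hL]

theorem norm_pt (x y : ℝ) (h : x ^ 2 + y ^ 2 = 1) : ‖pt x y‖ = 1 := by
  rw [EuclideanSpace.norm_eq, Fin.sum_univ_two]
  simp only [pt0, pt1, Real.norm_eq_abs, sq_abs]
  rw [h, Real.sqrt_one]

theorem mem_seg (z : E) (x y x' y' t : ℝ) (h0 : 0 ≤ t) (h1 : t ≤ 1) (e0 : z 0 = x + t * (x' - x))
    (e1 : z 1 = y + t * (y' - y)) : z ∈ segment ℝ (pt x y) (pt x' y') := by
  refine ⟨1 - t, t, by linarith, h0, by ring, ?_⟩
  ext i
  fin_cases i
  · show (1 - t) * x + t * x' = z 0
    rw [e0]; ring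
  · show (1 - t) * y + t * y' = z 1
    rw [e1]; ring

theorem pt_ne (x y x' y' : ℝ) (h : x ≠ x' ∨ y ≠ y') : pt x y ≠ pt x' y' := by
  intro he
  rcases h with h | h
  · exact h (congrArg (fun z : E => z 0) he)
  · exact h (congrArg (fun z : E => z 1) he)

noncomputable def U : Fin 5 → E :=
  ![pt 1 0, pt (61 / 1861) (1860 / 1861), pt (-(61 / 1861)) (1860 / 1861), pt (-1) 0, pt 0 (-1)]

noncomputable def H (a b d k l : ℝ) : Fin 5 → ℝ := ![b, 61 / 1861 * k, 61 / 1861 * l, a, d]

noncomputable def house (a b d k l : ℝ) : Set E := body U (H a b d k l)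

theorem mem_house (a b d k l : ℝ) (z : E) : z ∈ house a b d k l ↔
    z 0 ≤ b ∧ z 1 ≤ 61 / 1860 * (k - z 0) ∧ z 1 ≤ 61 / 1860 * (l + z 0) ∧ -a ≤ z 0 ∧ -d ≤ z 1 := by
  unfold house body
  simp only [Set.mem_setOf_eq, Fin.forall_fin_succ, ip, U, H]
  simp only [Matrix.cons_val_zero, Matrix.cons_val_succ, pt0, pt1, IsEmpty.forall_iff, and_true]
  constructor
  · rintro ⟨h1, h2, h3, h4, h5⟩
    exact ⟨by linarith, by linarith, by linarith, by linarith, by linarith⟩
  · rintro ⟨h1, h2, h3, h4, h5⟩
    exact ⟨by linarith, by linarith, by linarith, by linarith, by linarith⟩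

theorem U_inj : Function.Injective U := by
  intro i j hij
  have h0 := congrArg (fun z : E => z 0) hij
  have h1 := congrArg (fun z : E => z 1) hij
  fin_cases i <;> fin_cases j <;> 
    first | rfl | (exfalso; revert h0 h1; norm_num [U]; done) | (exfalso; revert h0 h1; simp [U]; norm_num)

theorem house_integral (φ : ℝ → ℝ) (a b d k l : ℝ) (ha : 0 < a) (hb : 0 < b) (hd : 0 < d)
    (hbk : b < k) (hal : a < l) (h1 : (k - l) / 2 < b) (h2 : -a < (k - l) / 2) :
    ∫ x in frontier (house a b d k l), φ (sSup (supp (house a b d k l) x)) ∂(μH[1])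
      = φ b * (61 / 1860 * (k - b) + d) + φ (61 / 1861 * k) * (1861 / 1860 * (b - (k - l) / 2))
        + φ (61 / 1861 * l) * (1861 / 1860 * ((k - l) / 2 + a))
        + φ a * (61 / 1860 * (l - a) + d) + φ d * (a + b) := by
  have key := polygon_integral U (H a b d k l) φ
    ![pt b (-d), pt b (61 / 1860 * (k - b)), pt ((k - l) / 2) (61 / 1860 * ((k + l) / 2)),
      pt (-a) (61 / 1860 * (l - a)), pt (-a) (-d)]
    ![pt b (61 / 1860 * (k - b)), pt ((k - l) / 2) (61 / 1860 * ((k + l) / 2)),
      pt (-a) (61 / 1860 * (l - a)), pt (-a) (-d), pt b (-d)] (pt 0 0)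
    (by
      intro i
      fin_cases i <;> apply norm_pt <;> norm_num)
    U_inj
    (by
      intro i
      fin_cases i <;> apply (mem_house a b d k l _).mpr <;>
        simp only [Fin.reduceFinMk, Matrix.cons_val, Fin.zero_eta, Fin.mk_one, pt0, pt1] <;>
        refine ⟨by linarith, by linarith, by linarith, by linarith, by linarith⟩)
    (by
      intro i
      fin_cases i <;> apply (mem_house a b d k l _).mpr <;>
        simp only [Fin.reduceFinMk, Matrix.cons_val, Fin.zero_eta, Fin.mk_one, pt0, pt1] <;>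
        refine ⟨by linarith, by linarith, by linarith, by linarith, by linarith⟩)
    (by
      intro i
      fin_cases i <;> rw [ip] <;>
        simp only [U, H, Fin.reduceFinMk, Matrix.cons_val, Fin.zero_eta, Fin.mk_one, pt0, pt1] <;>
        ring)
    (by
      intro i
      fin_cases i <;> rw [ip] <;>
        simp only [U, H, Fin.reduceFinMk, Matrix.cons_val, Fin.zero_eta, Fin.mk_one, pt0, pt1] <;>
        ring)
    (by
      intro i
      fin_cases i
      · exact pt_ne _ _ _ _ (Or.inr (by linarith))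
      · exact pt_ne _ _ _ _ (Or.inl (by linarith))
      · exact pt_ne _ _ _ _ (Or.inl (by linarith))
      · exact pt_ne _ _ _ _ (Or.inr (by linarith))
      · exact pt_ne _ _ _ _ (Or.inl (by linarith)))
    (by
      intro i
      fin_cases i <;> rw [ip] <;>
        simp only [U, H, Fin.reduceFinMk, Matrix.cons_val, Fin.zero_eta, Fin.mk_one, pt0, pt1] <;>
        linarith)
    (by
      intro i z hz he
      obtain ⟨z1, z2, z3, z4, z5⟩ := (mem_house a b d k l z).mp hz
      rw [ip] at he
      fin_cases i <;>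
        simp only [U, H, Fin.reduceFinMk, Matrix.cons_val, Fin.zero_eta, Fin.mk_one, pt0, pt1]
          at he ⊢
      · have p : 0 < 61 / 1860 * (k - b) + d := by linarith
        refine mem_seg z _ _ _ _ ((z 1 + d) / (61 / 1860 * (k - b) + d))
          (div_nonneg (by linarith) p.le) ((div_le_one p).mpr (by linarith)) (by linarith) ?_
        rw [sub_neg_eq_add, div_mul_cancel₀ _ p.ne']; ring
      · have p : 0 < b - (k - l) / 2 := by linarith
        have e : (b - z 0) / (b - (k - l) / 2) * (b - (k - l) / 2) = b - z 0 :=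
          div_mul_cancel₀ _ p.ne'
        refine mem_seg z _ _ _ _ ((b - z 0) / (b - (k - l) / 2))
          (div_nonneg (by linarith) p.le) ((div_le_one p).mpr (by linarith)) ?_ ?_
        · linear_combination e
        · linear_combination (1861 / 1860) * he - (61 / 1860) * e
      · have p : 0 < (k - l) / 2 + a := by linarith
        have e : ((k - l) / 2 - z 0) / ((k - l) / 2 + a) * ((k - l) / 2 + a) = (k - l) / 2 - z 0 :=
          div_mul_cancel₀ _ p.ne'
        refine mem_seg z _ _ _ _ (((k - l) / 2 - z 0) / ((k - l) / 2 + a))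
          (div_nonneg (by linarith) p.le) ((div_le_one p).mpr (by linarith)) ?_ ?_
        · linear_combination e
        · linear_combination (1861 / 1860) * he + (61 / 1860) * e
      · have p : 0 < 61 / 1860 * (l - a) + d := by linarith
        have e : (61 / 1860 * (l - a) - z 1) / (61 / 1860 * (l - a) + d)
            * (61 / 1860 * (l - a) + d) = 61 / 1860 * (l - a) - z 1 := div_mul_cancel₀ _ p.ne'
        refine mem_seg z _ _ _ _ ((61 / 1860 * (l - a) - z 1) / (61 / 1860 * (l - a) + d))
          (div_nonneg (by linarith) p.le) ((div_le_one p).mpr (by linarith)) (by linarith) ?_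
        linear_combination e
      · have p : 0 < a + b := by linarith
        have e : (z 0 + a) / (a + b) * (a + b) = z 0 + a := div_mul_cancel₀ _ p.ne'
        refine mem_seg z _ _ _ _ ((z 0 + a) / (a + b))
          (div_nonneg (by linarith) p.le) ((div_le_one p).mpr (by linarith)) ?_ (by linarith)
        linear_combination (-1) * e)
  unfold house
  rw [key, Fin.sum_univ_five]
  simp only [H, Matrix.cons_val]
  rw [dist_pt _ _ _ _ (61 / 1860 * (k - b) + d) (by linarith) (by ring),
    dist_pt _ _ _ _ (1861 / 1860 * (b - (k - l) / 2)) (by linarith) (by ring),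
    dist_pt _ _ _ _ (1861 / 1860 * ((k - l) / 2 + a)) (by linarith) (by ring),
    dist_pt _ _ _ _ (61 / 1860 * (l - a) + d) (by linarith) (by ring),
    dist_pt _ _ _ _ (a + b) (by linarith) (by ring)]

theorem house_compact (a b d k l : ℝ) : IsCompact (house a b d k l) := by
  apply Metric.isCompact_of_isClosed_isBounded (body_closed _ _)
  apply (Metric.isBounded_closedBall (x := (0 : E))
    (r := (|a| + |b|) + (|d| + |k| + |l|))).subset
  intro z hz
  obtain ⟨z1, z2, z3, z4, z5⟩ := (mem_house a b d k l z).mp hz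
  rw [mem_closedBall_zero_iff, EuclideanSpace.norm_eq, Fin.sum_univ_two]
  have a0 : |z 0| ≤ |a| + |b| := by
    rw [abs_le]
    constructor <;> linarith [le_abs_self a, le_abs_self b, abs_nonneg a, abs_nonneg b]
  have a1 : |z 1| ≤ |d| + |k| + |l| := by
    rw [abs_le]
    constructor <;> linarith [le_abs_self d, le_abs_self k, le_abs_self l, abs_nonneg d,
      abs_nonneg k, abs_nonneg l]
  apply Real.sqrt_le_iff.mpr
  refine ⟨by positivity, ?_⟩
  simp only [Real.norm_eq_abs]
  nlinarith [abs_nonneg (z 0), abs_nonneg (z 1)]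

theorem zero_mem_interior (a b d k l : ℝ) (ha : 0 < a) (hb : 0 < b) (hd : 0 < d) (hk : 0 < k)
    (hl : 0 < l) : (0 : E) ∈ interior (house a b d k l) := by
  apply mem_interior_body
  intro i
  rw [inner_zero_left]
  fin_cases i <;> simp only [H, Fin.reduceFinMk, Matrix.cons_val, Fin.zero_eta, Fin.mk_one] <;>
    positivity

theorem house_add : house 5 19 (1 / 25) 20 12 + house 19 5 (1 / 25) 12 20
    = house 24 24 (2 / 25) 32 32 := by
  ext z
  constructor
  · rintro ⟨x, hx, y, hy, rfl⟩
    rw [mem_house] at hx hy ⊢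
    obtain ⟨x1, x2, x3, x4, x5⟩ := hx
    obtain ⟨y1, y2, y3, y4, y5⟩ := hy
    simp only [PiLp.add_apply]
    exact ⟨by linarith, by linarith, by linarith, by linarith, by linarith⟩
  · intro hz
    rw [mem_house] at hz
    obtain ⟨z1, z2, z3, z4, z5⟩ := hz
    have main : ∀ x f g : ℝ, x ≤ 19 → -5 ≤ x → z 0 - x ≤ 5 → -19 ≤ z 0 - x → 0 ≤ f → 0 ≤ g →
        f ≤ 61 / 1860 * (20 - x) → f ≤ 61 / 1860 * (12 + x) →
        g ≤ 61 / 1860 * (12 - (z 0 - x)) → g ≤ 61 / 1860 * (20 + (z 0 - x)) → z 1 ≤ f + g →
        z ∈ house 5 19 (1 / 25) 20 12 + house 19 5 (1 / 25) 12 20 := by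
      intro x f g b1 b2 b3 b4 f0 g0 f1 f2 g1 g2 hs
      by_cases hc : z 1 + 1 / 25 ≤ f
      · refine ⟨pt x (z 1 + 1 / 25), ?_, pt (z 0 - x) (-(1 / 25)), ?_, ?_⟩
        · rw [mem_house]
          simp only [pt0, pt1]
          exact ⟨by linarith, by linarith, by linarith, by linarith, by linarith⟩
        · rw [mem_house]
          simp only [pt0, pt1]
          exact ⟨by linarith, by linarith, by linarith, by linarith, by linarith⟩
        · ext i
          fin_cases i
          · show x + (z 0 - x) = z 0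
            ring
          · show z 1 + 1 / 25 + -(1 / 25) = z 1
            ring
      · refine ⟨pt x f, ?_, pt (z 0 - x) (z 1 - f), ?_, ?_⟩
        · rw [mem_house]
          simp only [pt0, pt1]
          exact ⟨by linarith, by linarith, by linarith, by linarith, by linarith⟩
        · rw [mem_house]
          simp only [pt0, pt1]
          exact ⟨by linarith, by linarith, by linarith, by linarith, by linarith⟩
        · ext i
          fin_cases i
          · show x + (z 0 - x) = z 0
            ring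
          · show f + (z 1 - f) = z 1
            ring
    rcases le_total 0 (z 0) with h | h
    · exact main (4 + 15 / 24 * z 0) (61 / 1860 * (16 - 15 / 24 * z 0))
        (61 / 1860 * (16 - 9 / 24 * z 0)) (by linarith) (by linarith) (by linarith) (by linarith)
        (by linarith) (by linarith) (by linarith) (by linarith) (by linarith) (by linarith)
        (by linarith)
    · exact main (4 + 9 / 24 * z 0) (61 / 1860 * (16 + 9 / 24 * z 0))
        (61 / 1860 * (16 + 15 / 24 * z 0)) (by linarith) (by linarith) (by linarith) (by linarith)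
        (by linarith) (by linarith) (by linarith) (by linarith) (by linarith) (by linarith)
        (by linarith)

theorem sq_lo (x r : ℝ) (h : r ^ 2 ≤ x) : r ≤ x ^ (1 - (1 / 2 : ℝ)) := by
  rw [show (1 - (1 / 2 : ℝ)) = 1 / 2 by norm_num, ← Real.sqrt_eq_rpow]
  exact Real.le_sqrt_of_sq_le h

theorem sq_hi (x r : ℝ) (hr : 0 ≤ r) (h : x ≤ r ^ 2) : x ^ (1 - (1 / 2 : ℝ)) ≤ r := by
  rw [show (1 - (1 / 2 : ℝ)) = 1 / 2 by norm_num, ← Real.sqrt_eq_rpow]
  exact Real.sqrt_le_iff.mpr ⟨hr, h⟩

theorem cube (x : ℝ) (hx : 0 ≤ x) : (x ^ 3) ^ (1 / (((2 : ℕ) : ℝ) - 1 / 2)) = x ^ 2 := by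
  rw [← Real.rpow_natCast, ← Real.rpow_mul hx, ← Real.rpow_natCast]
  norm_num

end Pool.Agent.H94.Poly
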