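import Mathlib

open Polynomial

namespace Pool.Agent.H94.Popov

/-- The interval `Δ = [-1,1]`. -/
abbrev Del : Set ℝ := Set.Icc (-1 : ℝ) 1

/-- The Hausdorff difference `|f(x) - g(x)|_1` at the point `x` (parameter `α = 1`). -/
noncomputable def hdiff (f g : ℝ → ℝ) (x : ℝ) : ℝ :=
  max (⨅ ξ : Del, max |x - ξ| |f x - g ξ|) (⨅ ξ : Del, max |x - ξ| |f ξ - g x|)

/-- The Hausdorff distance `r(Δ; f, g)`. -/
noncomputable def hdist (f g : ℝ → ℝ) : ℝ := ⨆ x : Del, hdiff f g x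

/-- The best Hausdorff approximation `E_n(f)` by real polynomials of degree at most `n`. -/
noncomputable def bestE (n : ℕ) (f : ℝ → ℝ) : ℝ :=
  ⨅ p : {p : ℝ[X] // p.degree ≤ n}, hdist f (fun x => p.1.eval x)

/-- The class `K` of continuous convex functions `[-1,1] → [0,1]`. -/
def InK (f : ℝ → ℝ) : Prop :=
  ContinuousOn f Del ∧ ConvexOn ℝ Del f ∧ ∀ x ∈ Del, f x ∈ Set.Icc (0 : ℝ) 1

end Pool.Agent.H94.Popov
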