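import Pool.Agent.H94.PopovDefs

open Polynomial

namespace Pool.Agent.H94.Popov

instance : Nonempty Del := ⟨⟨0, by simp [Del]⟩⟩

lemma bddB1 (f g : ℝ → ℝ) (x : ℝ) :
    BddBelow (Set.range fun ξ : Del => max |x - ξ| |f x - g ξ|) :=
  ⟨0, by rintro _ ⟨ξ, rfl⟩; exact le_max_of_le_left (abs_nonneg _)⟩

lemma bddB2 (f g : ℝ → ℝ) (x : ℝ) :
    BddBelow (Set.range fun ξ : Del => max |x - ξ| |f ξ - g x|) :=
  ⟨0, by rintro _ ⟨ξ, rfl⟩; exact le_max_of_le_left (abs_nonneg _)⟩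

lemma hdiff_le (f g : ℝ → ℝ) (x : Del) : hdiff f g x ≤ |f x - g x| := by
  unfold hdiff
  refine max_le ?_ ?_
  · refine (ciInf_le (bddB1 f g x) x).trans ?_
    simp
  · refine (ciInf_le (bddB2 f g x) x).trans ?_
    simp

lemma hdiff_nonneg (f g : ℝ → ℝ) (x : ℝ) : 0 ≤ hdiff f g x := by
  unfold hdiff
  exact le_max_of_le_left (le_ciInf fun ξ => le_max_of_le_left (abs_nonneg _))

lemma hdist_nonneg (f g : ℝ → ℝ) : 0 ≤ hdist f g :=
  Real.iSup_nonneg fun x => hdiff_nonneg f g x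

lemma bddA (f g : ℝ → ℝ) (hf : ContinuousOn f Del) (hg : ContinuousOn g Del) :
    BddAbove (Set.range fun x : Del => hdiff f g x) := by
  obtain ⟨C, hC⟩ := isCompact_Icc.exists_bound_of_continuousOn (hf.sub hg)
  refine ⟨C, ?_⟩
  rintro _ ⟨x, rfl⟩
  exact (hdiff_le f g x).trans (by simpa using hC x x.2)

lemma upper (n : ℕ) (hn : 2 ≤ n) : bestE n (fun x => |x|) ≤ 1 / 8 := by
  unfold bestE
  have hdeg : (X ^ 2 + C (1 / 8 : ℝ) : ℝ[X]).degree ≤ n := by
    have : (X ^ 2 + C (1 / 8 : ℝ) : ℝ[X]).degree ≤ 2 := by compute_degree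
    exact this.trans (by exact_mod_cast hn)
  refine (ciInf_le ⟨0, ?_⟩ ⟨_, hdeg⟩).trans ?_
  · rintro _ ⟨p, rfl⟩; exact hdist_nonneg _ _
  · unfold hdist
    refine ciSup_le fun x => (hdiff_le _ _ x).trans ?_
    obtain ⟨x, hx1, hx2⟩ := x
    simp only [eval_add, eval_pow, eval_X, eval_C]
    have h1 : |x| ≤ 1 := abs_le.2 ⟨hx1, hx2⟩
    have h0 : 0 ≤ |x| := abs_nonneg x
    rw [← sq_abs x, abs_le]
    constructor
    · nlinarith
    · nlinarith [sq_nonneg (|x| - 1 / 2)]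

noncomputable def ff (x : ℝ) : ℝ := max 0 (100 * x - 99)

lemma ff_cont : Continuous ff := by unfold ff; fun_prop

lemma ff_inK : InK ff := by
  refine ⟨ff_cont.continuousOn, ?_, ?_⟩
  · refine ⟨convex_Icc _ _, ?_⟩
    intro x _ y _ a b ha hb hab
    simp only [ff, smul_eq_mul]
    have h1 := le_max_left 0 (100 * x - 99)
    have h2 := le_max_right 0 (100 * x - 99)
    have h3 := le_max_left 0 (100 * y - 99)
    have h4 := le_max_right 0 (100 * y - 99)
    refine max_le (by positivity) ?_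
    have e : 100 * (a * x + b * y) - 99 = a * (100 * x - 99) + b * (100 * y - 99) := by
      have : b = 1 - a := by linarith
      subst this; ring
    rw [e]
    exact add_le_add (mul_le_mul_of_nonneg_left h2 ha) (mul_le_mul_of_nonneg_left h4 hb)
  · intro x hx
    refine ⟨le_max_left _ _, max_le zero_le_one ?_⟩
    linarith [hx.2]

lemma lower_p (p : ℝ[X]) (hp : p.degree ≤ (4 : ℕ)) :
    13 / 100 ≤ hdist ff (fun x => p.eval x) := by
  by_contra hlt
  push Not at hlt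
  have hb := bddA ff (fun x => p.eval x) ff_cont.continuousOn p.continuous.continuousOn
  have hx : ∀ x : Del, hdiff ff (fun x => p.eval x) x < 13 / 100 :=
    fun x => (le_ciSup hb x).trans_lt hlt
  have hsmall : ∀ x ∈ Set.Icc (-1 : ℝ) (86 / 100), |p.eval x| ≤ 13 / 100 := by
    intro x hx'
    have hxD : x ∈ Del := ⟨hx'.1, by linarith [hx'.2]⟩
    have h := (le_max_right _ _).trans_lt (hx ⟨x, hxD⟩)
    obtain ⟨ξ, hξ⟩ := exists_lt_of_ciInf_lt h
    have h1 := (le_max_left _ _).trans_lt hξ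
    have h2 := (le_max_right _ _).trans_lt hξ
    have h3 : ff ξ = 0 := by
      unfold ff
      refine max_eq_left ?_
      have := (abs_lt.1 h1).1
      simp only at this
      linarith [hx'.2]
    simp only [h3, zero_sub, abs_neg] at h2
    exact h2.le
  have h1D : (1 : ℝ) ∈ Del := by simp [Del]
  have h := (le_max_left _ _).trans_lt (hx ⟨1, h1D⟩)
  obtain ⟨ξ, hξ⟩ := exists_lt_of_ciInf_lt h
  have h1 := (le_max_left _ _).trans_lt hξ
  have h2 := (le_max_right _ _).trans_lt hξ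
  have hf1 : ff 1 = 1 := by unfold ff; norm_num
  simp only [hf1] at h1 h2
  have hξ1 : 87 / 100 < (ξ : ℝ) := by linarith [(abs_lt.1 h1).2]
  have hξ2 : (ξ : ℝ) ≤ 1 := ξ.2.2
  have hpξ : 87 / 100 < p.eval (ξ : ℝ) := by linarith [(abs_lt.1 h2).2]
  set q : ℝ[X] := C (100 / 13) * p.comp (C (93 / 100) * X - C (7 / 100)) with hq
  have hqeval : ∀ u, q.eval u = 100 / 13 * p.eval (93 / 100 * u - 7 / 100) := by
    intro u; simp [hq, eval_comp]
  have hqdeg : q.degree ≤ (4 : ℕ) := by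
    rw [← natDegree_le_iff_degree_le] at hp ⊢
    refine (natDegree_C_mul_le _ _).trans (natDegree_comp_le.trans ?_)
    have : (C (93 / 100 : ℝ) * X - C (7 / 100)).natDegree ≤ 1 := by compute_degree
    nlinarith
  have hqb : ∀ u ∈ Set.Icc (-1 : ℝ) 1, |q.eval u| ≤ 1 := by
    intro u hu
    rw [hqeval, abs_mul, abs_of_pos (by norm_num : (0 : ℝ) < 100 / 13)]
    have := hsmall (93 / 100 * u - 7 / 100) ⟨by linarith [hu.1], by linarith [hu.2]⟩
    linarith
  set u : ℝ := (100 * ξ + 7) / 93 with hu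
  have hu1 : 1 ≤ u := by rw [hu]; linarith
  have hu2 : u ≤ 107 / 93 := by rw [hu]; linarith
  have key := Chebyshev.eval_iterate_derivative_le_of_forall_abs_le_one (k := 0) hu1 hqdeg hqb
  simp only [Function.iterate_zero, id_eq] at key
  have e1 : 93 / 100 * u - 7 / 100 = ξ := by rw [hu]; ring
  rw [hqeval, e1] at key
  have hT : (Chebyshev.T ℝ ((4 : ℕ) : ℤ)).eval u = 8 * u ^ 4 - 8 * u ^ 2 + 1 := by
    have h4 : Chebyshev.T ℝ 4 = 2 * X * Chebyshev.T ℝ 3 - Chebyshev.T ℝ 2 :=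
      Chebyshev.T_add_two ℝ 2
    have h3 : Chebyshev.T ℝ 3 = 2 * X * Chebyshev.T ℝ 2 - Chebyshev.T ℝ 1 :=
      Chebyshev.T_add_two ℝ 1
    have : ((4 : ℕ) : ℤ) = 4 := rfl
    rw [this, h4, h3, Chebyshev.T_two, Chebyshev.T_one]
    simp; ring
  rw [hT] at key
  have hu3 : u ^ 2 ≤ 4 / 3 := by nlinarith
  have hu4 : 1 ≤ u ^ 2 := by nlinarith
  nlinarith

lemma lower (n : ℕ) (hn : n ≤ 4) : 13 / 100 ≤ bestE n ff := by
  unfold bestE
  haveI : Nonempty {p : ℝ[X] // p.degree ≤ n} := ⟨⟨0, by simp⟩⟩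
  refine le_ciInf fun p => lower_p p.1 (p.2.trans (by exact_mod_cast hn))

theorem main (n : ℕ) (h2 : 2 ≤ n) (h4 : n ≤ 4) :
    ∃ f, InK f ∧ bestE n (fun x => |x|) < bestE n f :=
  ⟨ff, ff_inK, by linarith [upper n h2, lower n h4]⟩

end Pool.Agent.H94.Popov
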