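import Mathlib

open Polynomial

namespace Pool.Agent.H94.PtakD

/-- Operators on the `n`-dimensional complex Hilbert space `H_n`. -/
abbrev Op (n : ℕ) := EuclideanSpace ℂ (Fin n) →L[ℂ] EuclideanSpace ℂ (Fin n)

/-- The holomorphic functional calculus on the unit disc: `f(T) = ∑ f^(k)(0)/k! T^k`. -/
noncomputable def funCalc {n : ℕ} (f : ℂ → ℂ) (T : Op n) : Op n :=
  ∑' k : ℕ, (iteratedDeriv k f 0 / (k.factorial : ℂ)) • T ^ k

/-- `A(p)`: contractions of `H_n` annihilated by `p`. -/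
def AA (n : ℕ) (p : ℂ[X]) : Set (Op n) := {T | ‖T‖ ≤ 1 ∧ aeval T p = 0}

/-- `C(p,f) = max { ‖f(T)‖ : T ∈ A(p) }`. -/
noncomputable def CC (n : ℕ) (p : ℂ[X]) (f : ℂ → ℂ) : ℝ :=
  sSup ((fun T => ‖funCalc f T‖) '' AA n p)

/-- `P_{n,r}`: polynomials of degree `n` with all roots in `|z| ≤ r`. -/
def PSet (n : ℕ) (r : ℝ) : Set ℂ[X] := {p | p.degree = n ∧ ∀ z, p.IsRoot z → ‖z‖ ≤ r}

/-- `p` is a worst polynomial for `f`. -/
def IsWorst (n : ℕ) (r : ℝ) (f : ℂ → ℂ) (p : ℂ[X]) : Prop :=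
  p ∈ PSet n r ∧ ∀ q ∈ PSet n r, CC n q f ≤ CC n p f

end Pool.Agent.H94.PtakD
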