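import Pool.Agent.H94.PtakDefs

open Polynomial

namespace Pool.Agent.H94.PtakD

/-- The nilpotent Jordan block `J e_j = e_(j+1)`, `J e_(n-1) = 0`. -/
noncomputable def shiftJ (n : ℕ) : Op n :=
  Matrix.toEuclideanCLM (n := Fin n) (𝕜 := ℂ)
    (Matrix.of fun i j : Fin n => if (i : ℕ) = (j : ℕ) + 1 then (1 : ℂ) else 0)

/-- The Toeplitz matrix `T_a = (J + a) (1 + conj(a) J)⁻¹ = (J + a) ∑_(k<n) (-conj(a) J)^k`. -/
noncomputable def modelT (n : ℕ) (a : ℂ) : Op n :=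
  (shiftJ n + a • (1 : Op n)) * ∑ k ∈ Finset.range n, (-((starRingEnd ℂ) a) • shiftJ n) ^ k

/-- `F(p)`: nonconstant polynomials with all roots in the closed disc of radius `p`. -/
def FF (p : ℝ) : Set ℂ[X] := {φ | 0 < φ.degree ∧ ∀ z, φ.IsRoot z → ‖z‖ ≤ p}

end Pool.Agent.H94.PtakD
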