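import Pool.Agent.H94.PtakDefs2

namespace Pool.Agent.H94.PtakD

/-- Contractions of the `n`-dimensional Hilbert space with spectral radius at most `r`. -/
def Adm (n : ℕ) (r : ℝ) : Set (Op n) := {T | ‖T‖ ≤ 1 ∧ spectralRadius ℂ T ≤ ENNReal.ofReal r}

/-- `M_h(n,r)` in operator form. -/
noncomputable def MM (n : ℕ) (r : ℝ) (h : ℂ → ℂ) : ℝ := sSup ((fun T => ‖funCalc h T‖) '' Adm n r)

end Pool.Agent.H94.PtakD
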