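import Pool.Agent.H94.PtakFinal
import Pool.Agent.H94.PtakDefs2

open Complex Real Metric Set Polynomial Filter Topology

namespace Pool.Agent.H94.Ptak

open Pool.Agent.H94.PtakD

lemma key_id1 {m : ℕ} {s : Multiset ℂ} (hs : ∀ a ∈ s, ‖a‖ < 1) {T : Op (m + 1)}
    (l : HH (m + 1) →L[ℂ] ℂ)
    (hl : ∀ u w, (starRingEnd ℂ) (l u) * l w = inner ℂ u w - inner ℂ (T u) (T w))
    {x y : HH (m + 1)} {v v' : ℂ → HH (m + 1)} (hv : IsRes s T x v) (hv' : IsRes s T y v')
    (q q' : ℂ[X]) (hq : ∀ z, l (v z) = q.eval z / (PP s).eval z)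
    (hq' : ∀ z, l (v' z) = q'.eval z / (PP s).eval z) (g : ℂ[X]) :
    BB s q' (g * q) = 2 * π * inner ℂ y (aeval T g x) := by
  have := key_id hs (T := T) (D := l.smulRight (EuclideanSpace.single 0 1)) (by
    intro u w
    rw [← hl]
    simp [inner_smul_left, inner_smul_right, mul_comm]) hv hv'
    (fun i => if i = 0 then q else 0) (fun i => if i = 0 then q' else 0) (by
      intro i z
      by_cases hi : i = 0
      · simp [hi, hq]
      · simp [hi]) (by
      intro i z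
      by_cases hi : i = 0
      · simp [hi, hq']
      · simp [hi]) g
  rw [← this, Fin.sum_univ_succ]
  simp [BB, J, Fin.succ_ne_zero]

lemma extremal_of_rank_one {m : ℕ} (s : Multiset ℂ) (hs : ∀ a ∈ s, ‖a‖ < 1)
    (hcard : s.card = m + 1) (T : Op (m + 1)) (hT : aeval T (PP s) = 0) (l : HH (m + 1) →L[ℂ] ℂ)
    (hl : ∀ u w, (starRingEnd ℂ) (l u) * l w = inner ℂ u w - inner ℂ (T u) (T w))
    (g q q' : ℂ[X]) (hq : q.degree < s.card) (hq' : q'.degree < s.card) :
    (BB s q' (g * q)).re ≤ ‖aeval T g‖ / 2 * (NN s q + NN s q') := by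
  choose v hv using fun i : Fin (m + 1) => exists_res s hs T hT (EuclideanSpace.single i 1)
  choose qq hqq1 hqq using fun i => (hv i).rat l
  let V : HH (m + 1) → ℂ → HH (m + 1) := fun x z => ∑ i, x i • v i z
  have hV : ∀ x, IsRes s T x (V x) := by
    intro x
    refine ⟨fun l' => ?_, fun z hz => ?_⟩
    · choose q1 hq1 hq2 using fun i => (hv i).rat l'
      refine ⟨∑ i, x i • q1 i, ?_, fun z => ?_⟩
      · rw [← mem_degreeLT]
        exact Submodule.sum_mem _ fun i _ => Submodule.smul_mem _ _ (mem_degreeLT.2 (hq1 i))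
      · simp [V, hq2, eval_finsetSum, Finset.sum_div, mul_div_assoc]
    · have e : x = ∑ i, x i • EuclideanSpace.single i (1 : ℂ) := by
        conv_lhs => rw [← (EuclideanSpace.basisFun (Fin (m + 1)) ℂ).sum_repr x]
        simp
      simp only [V, map_sum, map_smul, (hv _).eqn z hz]
      conv_rhs => rw [e]
      simp only [smul_sub, Finset.sum_sub_distrib, Finset.smul_sum, smul_comm z]
      simp [← e]
  let Φ : HH (m + 1) →ₗ[ℂ] degreeLT ℂ s.card :=
    ∑ i, (EuclideanSpace.proj i : HH (m + 1) →L[ℂ] ℂ).toLinearMap.smulRight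
      (⟨qq i, mem_degreeLT.2 (hqq1 i)⟩ : degreeLT ℂ s.card)
  have hΦ : ∀ x, (Φ x : ℂ[X]) = ∑ i, x i • qq i := by
    intro x; simp [Φ]
  have hΦl : ∀ x z, l (V x z) = (Φ x : ℂ[X]).eval z / (PP s).eval z := by
    intro x z
    simp [V, hΦ, hqq, eval_finsetSum, Finset.sum_div, mul_div_assoc]
  have hkey : ∀ x y (g : ℂ[X]), BB s (Φ y) (g * Φ x) = 2 * π * inner ℂ y (aeval T g x) :=
    fun x y g => key_id1 hs l hl (hV x) (hV y) _ _ (hΦl x) (hΦl y) g
  have hN : ∀ x, NN s (Φ x) = 2 * π * ‖x‖ ^ 2 := by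
    intro x
    have := hkey x x 1
    simp only [one_mul, map_one, ContinuousLinearMap.one_apply, BB_self,
      inner_self_eq_norm_sq_to_K] at this
    apply Complex.ofReal_injective; push_cast; exact this
  have hpi : 0 < 2 * π := by positivity
  have hinj : Function.Injective Φ := by
    rw [injective_iff_map_eq_zero]
    intro x hx
    have := hN x
    rw [hx] at this
    have h0 : NN s ((0 : degreeLT ℂ s.card) : ℂ[X]) = 0 := by simp [NN, J]
    rw [h0] at this
    have h1 : ‖x‖ ^ 2 = 0 := (mul_eq_zero.1 this.symm).resolve_left hpi.ne'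
    simpa using h1
  haveI : FiniteDimensional ℂ (degreeLT ℂ s.card) :=
    (degreeLTEquiv ℂ s.card).symm.finiteDimensional
  have hsurj : Function.Surjective Φ := by
    rw [← LinearMap.injective_iff_surjective_of_finrank_eq_finrank]
    · exact hinj
    · rw [(degreeLTEquiv ℂ s.card).finrank_eq]; simp [hcard]
  obtain ⟨x, hx⟩ := hsurj ⟨q, mem_degreeLT.2 hq⟩
  obtain ⟨y, hy⟩ := hsurj ⟨q', mem_degreeLT.2 hq'⟩
  have h1 := hkey x y g
  have h2 := hN x
  have h3 := hN y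
  rw [hx] at h1 h2
  rw [hy] at h1 h3
  simp only at h1 h2 h3
  have h4 : (inner ℂ y (aeval T g x)).re ≤ ‖y‖ * (‖aeval T g‖ * ‖x‖) :=
    (Complex.re_le_norm _).trans ((norm_inner_le_norm _ _).trans
      (mul_le_mul_of_nonneg_left (ContinuousLinearMap.le_opNorm _ _) (norm_nonneg _)))
  have h5 : (BB s q' (g * q)).re = 2 * π * (inner ℂ y (aeval T g x)).re := by
    rw [h1]; simp
  rw [h5, h2, h3]
  have h6 : (inner ℂ y (aeval T g x)).re ≤ ‖aeval T g‖ / 2 * (‖x‖ ^ 2 + ‖y‖ ^ 2) := by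
    nlinarith [mul_nonneg (norm_nonneg (aeval T g)) (sq_nonneg (‖x‖ - ‖y‖))]
  nlinarith

lemma shiftJ_zero {m : ℕ} (x : HH (m + 1)) : shiftJ (m + 1) x 0 = 0 := by
  simp [shiftJ, Matrix.ofLp_toEuclideanCLM, Matrix.mulVec, dotProduct]

lemma shiftJ_succ {m : ℕ} (x : HH (m + 1)) (i : Fin m) :
    shiftJ (m + 1) x i.succ = x i.castSucc := by
  simp only [shiftJ, Matrix.ofLp_toEuclideanCLM, Matrix.mulVec, dotProduct, Matrix.of_apply,
    Fin.val_succ, Nat.add_right_cancel_iff]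
  rw [Finset.sum_eq_single i.castSucc]
  · simp
  · intro j _ hj
    rw [if_neg, zero_mul]
    intro h
    exact hj (Fin.ext (by simp [h]))
  · simp

lemma shiftJ_inner {m : ℕ} (u w : HH (m + 1)) :
    inner ℂ (shiftJ (m + 1) u) (shiftJ (m + 1) w)
      = inner ℂ u w - (starRingEnd ℂ) (u (Fin.last m)) * w (Fin.last m) := by
  rw [PiLp.inner_apply, PiLp.inner_apply, Fin.sum_univ_succ, Fin.sum_univ_castSucc]
  simp [shiftJ_zero, shiftJ_succ, mul_comm]

lemma shiftJ_pow {m : ℕ} : shiftJ (m + 1) ^ (m + 1) = 0 := by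
  have h : ∀ (k : ℕ) (x : HH (m + 1)) (i : Fin (m + 1)), (i : ℕ) < k →
      (shiftJ (m + 1) ^ k) x i = 0 := by
    intro k
    induction k with
    | zero => intro x i hi; omega
    | succ k ih =>
      intro x i hi
      have e : (shiftJ (m + 1) ^ (k + 1)) x = shiftJ (m + 1) ((shiftJ (m + 1) ^ k) x) := by
        rw [pow_succ']; rfl
      rw [e]
      refine Fin.cases (fun _ => shiftJ_zero _) (fun j hj => ?_) i hi
      rw [shiftJ_succ]
      exact ih x _ (by simpa using hj)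
  ext x i
  exact h _ x i i.2

lemma modelT_spec {m : ℕ} {a : ℂ} (ha : ‖a‖ < 1) :
    aeval (modelT (m + 1) a) ((X - C a) ^ (m + 1)) = 0 ∧ ∃ l : HH (m + 1) →L[ℂ] ℂ,
      ∀ u w, (starRingEnd ℂ) (l u) * l w
        = inner ℂ u w - inner ℂ (modelT (m + 1) a u) (modelT (m + 1) a w) := by
  set Jm := shiftJ (m + 1) with hJ
  set U : Op (m + 1) := ∑ k ∈ Finset.range (m + 1), (-((starRingEnd ℂ) a) • Jm) ^ k with hU
  have h1 : (1 + (starRingEnd ℂ) a • Jm) * U = 1 := by
    have := mul_neg_geom_sum (-((starRingEnd ℂ) a) • Jm) (m + 1)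
    have e0 : (-((starRingEnd ℂ) a) • Jm) ^ (m + 1) = 0 := by
      rw [_root_.smul_pow, hJ, shiftJ_pow]; ext; simp
    have e1 : 1 - -((starRingEnd ℂ) a) • Jm = 1 + (starRingEnd ℂ) a • Jm := by
      ext; simp
    rw [e0, sub_zero, e1] at this
    exact this
  have hT : modelT (m + 1) a = (Jm + a • (1 : Op (m + 1))) * U := rfl
  constructor
  · have e : modelT (m + 1) a - algebraMap ℂ (Op (m + 1)) a
        = (1 - a * (starRingEnd ℂ) a) • (Jm * U) := by
      have e1 : algebraMap ℂ (Op (m + 1)) a = a • ((1 + (starRingEnd ℂ) a • Jm) * U) := by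
        rw [h1, Algebra.algebraMap_eq_smul_one]
      rw [e1, hT]
      simp only [add_mul, smul_mul_assoc, one_mul]
      module
    have hc : Commute Jm U := by
      rw [hU]
      exact Commute.sum_right _ _ _ fun k _ => ((Commute.refl Jm).smul_right _).pow_right k
    rw [map_pow, map_sub, aeval_X, aeval_C, e, _root_.smul_pow, hc.mul_pow, hJ, shiftJ_pow, zero_mul,
      smul_zero]
  · have hpos : 0 ≤ 1 - ‖a‖ ^ 2 := by nlinarith [norm_nonneg a]
    refine ⟨((√(1 - ‖a‖ ^ 2) : ℝ) : ℂ) • (EuclideanSpace.proj (Fin.last m)).comp U, fun u w => ?_⟩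
    have hu : u = U u + (starRingEnd ℂ) a • Jm (U u) := by
      have := congrArg (fun A : Op (m + 1) => A u) h1
      simpa using this.symm
    have hw : w = U w + (starRingEnd ℂ) a • Jm (U w) := by
      have := congrArg (fun A : Op (m + 1) => A w) h1
      simpa using this.symm
    have hTu : ∀ u, modelT (m + 1) a u = Jm (U u) + a • U u := by
      intro u; rw [hT]; simp
    rw [hTu, hTu]
    conv_rhs => lhs; rw [hu, hw]
    have hs : ((√(1 - ‖a‖ ^ 2) : ℝ) : ℂ) * ((√(1 - ‖a‖ ^ 2) : ℝ) : ℂ)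
        = 1 - a * (starRingEnd ℂ) a := by
      rw [← Complex.ofReal_mul, Real.mul_self_sqrt hpos, Complex.mul_conj']; push_cast; rfl
    simp only [inner_add_left, inner_add_right, inner_smul_left, inner_smul_right, hJ,
      shiftJ_inner, Complex.conj_conj, ContinuousLinearMap.smul_apply,
      ContinuousLinearMap.comp_apply, smul_eq_mul, map_mul, Complex.conj_ofReal]
    simp only [EuclideanSpace.coe_proj, PiLp.proj_apply]
    linear_combination ((starRingEnd ℂ) ((U u) (Fin.last m)) * (U w) (Fin.last m)) * hs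

lemma modelT_mem {m : ℕ} {a : ℂ} (ha : ‖a‖ < 1) :
    modelT (m + 1) a ∈ AA (m + 1) ((X - C a) ^ (m + 1)) := by
  obtain ⟨h1, l, hl⟩ := modelT_spec (m := m) ha
  refine ⟨ContinuousLinearMap.opNorm_le_bound _ zero_le_one fun x => ?_, h1⟩
  have := hl x x
  rw [inner_self_eq_norm_sq_to_K, inner_self_eq_norm_sq_to_K, Complex.conj_mul'] at this
  have h2 : ‖l x‖ ^ 2 = ‖x‖ ^ 2 - ‖modelT (m + 1) a x‖ ^ 2 := by
    apply Complex.ofReal_injective; push_cast; exact this
  rw [one_mul, ← sq_le_sq₀ (norm_nonneg _) (norm_nonneg _)]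
  nlinarith [sq_nonneg ‖l x‖]

lemma PP_replicate (n : ℕ) (b : ℂ) : PP (Multiset.replicate n b) = (X - C b) ^ n := by simp [PP]

lemma modelT_extremal {m : ℕ} {a : ℂ} (ha : ‖a‖ < 1) (T : Op (m + 1)) (hT1 : ‖T‖ ≤ 1)
    (hT : aeval T (PP (Multiset.replicate (m + 1) a)) = 0) (g : ℂ[X]) :
    ‖aeval T g‖ ≤ ‖aeval (modelT (m + 1) a) g‖ := by
  obtain ⟨h1, l, hl⟩ := modelT_spec (m := m) ha
  have hs : ∀ b ∈ Multiset.replicate (m + 1) a, ‖b‖ < 1 := by
    intro b hb; rw [Multiset.eq_of_mem_replicate hb]; exact ha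
  refine upper _ hs T hT1 hT g _ (norm_nonneg _) fun q q' hq hq' => ?_
  exact extremal_of_rank_one _ hs (Multiset.card_replicate _ _) _ (by rw [PP_replicate]; exact h1) l hl
    g q q' hq hq'

lemma reduce {n : ℕ} {p : ℝ} (hp : 0 ≤ p) {φ : ℂ[X]} (hφ : φ ∈ FF p) {T : Op n}
    (hT : aeval T φ = 0) :
    ∃ s : Multiset ℂ, s.card = n ∧ (∀ a ∈ s, ‖a‖ ≤ p) ∧ aeval T (PP s) = 0 := by
  have hφ0 : φ ≠ 0 := by
    rintro rfl
    have := hφ.1
    simp at this
  have hint : IsIntegral ℂ T := Algebra.IsIntegral.isIntegral T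
  have hmon := minpoly.monic hint
  have hdvd : minpoly ℂ T ∣ φ := minpoly.dvd ℂ T hT
  have hch : aeval T (T : HH n →ₗ[ℂ] HH n).charpoly = 0 := by
    have e : T = Module.End.toContinuousLinearMap (HH n) (T : HH n →ₗ[ℂ] HH n) := rfl
    conv_lhs => rw [e]
    rw [aeval_algHom_apply]
    have : aeval (T : HH n →ₗ[ℂ] HH n) (T : HH n →ₗ[ℂ] HH n).charpoly = 0 :=
      LinearMap.aeval_self_charpoly _
    erw [this, map_zero]
  have hdeg : (minpoly ℂ T).natDegree ≤ n := by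
    have := natDegree_le_of_dvd (minpoly.dvd ℂ T hch) (LinearMap.charpoly_monic _).ne_zero
    rwa [LinearMap.charpoly_natDegree, finrank_euclideanSpace_fin] at this
  refine ⟨(minpoly ℂ T).roots + Multiset.replicate (n - (minpoly ℂ T).natDegree) 0, ?_, ?_, ?_⟩
  · rw [Multiset.card_add, IsAlgClosed.card_roots_eq_natDegree, Multiset.card_replicate]; omega
  · intro a ha
    rcases Multiset.mem_add.1 ha with ha | ha
    · exact hφ.2 a (((mem_roots hmon.ne_zero).1 ha).dvd hdvd)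
    · rw [Multiset.eq_of_mem_replicate ha]; simpa using hp
  · have e := C_leadingCoeff_mul_prod_multiset_X_sub_C (p := minpoly ℂ T)
      IsAlgClosed.card_roots_eq_natDegree
    rw [hmon.leadingCoeff, map_one, one_mul] at e
    unfold PP
    rw [Multiset.map_add, Multiset.prod_add, e, map_mul, minpoly.aeval, zero_mul]

lemma funCalc_pow {n : ℕ} (m : ℕ) (T : Op n) : funCalc (fun z => z ^ m) T = T ^ m := by
  unfold funCalc
  rw [tsum_eq_single m]
  · rw [iteratedDeriv_eq_iterate, iter_deriv_pow]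
    have : (∏ i ∈ Finset.range m, ((m : ℂ) - i)) = (m.factorial : ℂ) := by
      rw [← Nat.descFactorial_self, Nat.descFactorial_eq_prod_range]
      push_cast
      refine Finset.prod_congr rfl fun i hi => ?_
      rw [Nat.cast_sub (Finset.mem_range.1 hi).le]
    rw [this, Nat.sub_self, pow_zero, mul_one, div_self (by exact_mod_cast m.factorial_ne_zero),
      one_smul]
  · intro k hk
    rw [iteratedDeriv_eq_iterate, iter_deriv_pow]
    rcases lt_or_gt_of_ne hk with h | h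
    · rw [zero_pow (by omega)]; ext; simp
    · rw [Finset.prod_eq_zero (Finset.mem_range.2 h) (sub_self _)]; ext; simp

lemma modelT_cont (n : ℕ) : Continuous (modelT n) := by
  unfold modelT
  fun_prop

theorem determine {n : ℕ} (hn : 1 ≤ n) {p : ℝ} (hp0 : 0 < p) (hp1 : p < 1) {ψ : ℂ → ℂ}
    (hψ : AnalyticOnNhd ℂ ψ (closedBall 0 p)) :
    (∀ a : ℂ, ‖a‖ = p → (X - C a) ^ n ∈ FF p ∧ modelT n a ∈ AA n ((X - C a) ^ n) ∧
      CC n ((X - C a) ^ n) ψ = ‖funCalc ψ (modelT n a)‖) ∧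
    (∃ a : ℂ, ‖a‖ = p ∧ ∀ b : ℂ, ‖b‖ = p → ‖funCalc ψ (modelT n b)‖ ≤ ‖funCalc ψ (modelT n a)‖) ∧
    (∀ a : ℂ, ‖a‖ = p →
      (∀ b : ℂ, ‖b‖ = p → ‖funCalc ψ (modelT n b)‖ ≤ ‖funCalc ψ (modelT n a)‖) →
      ∀ φ ∈ FF p, CC n φ ψ ≤ CC n ((X - C a) ^ n) ψ ∧ ∀ T ∈ AA n φ,
        Summable (fun k : ℕ => (iteratedDeriv k ψ 0 / (k.factorial : ℂ)) • T ^ k) ∧
        ‖funCalc ψ T‖ ≤ ‖funCalc ψ (modelT n a)‖) ∧
    (∀ m : ℕ, ψ = (fun z => z ^ m) → ∀ φ ∈ FF p, CC n φ ψ ≤ CC n ((X - C (p : ℂ)) ^ n) ψ) := by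
  obtain ⟨m, rfl⟩ : ∃ m, n = m + 1 := ⟨n - 1, by omega⟩
  obtain ⟨δ, hδ, hsub⟩ := (isCompact_closedBall (0 : ℂ) p).exists_thickening_subset_open
    (isOpen_analyticAt ℂ ψ) hψ
  rw [thickening_closedBall hδ hp0.le] at hsub
  have hf : DifferentiableOn ℂ ψ (ball 0 (δ + p)) :=
    fun z hz => (hsub hz).differentiableAt.differentiableWithinAt
  set c : ℕ → ℂ := fun k => iteratedDeriv k ψ 0 / (k.factorial : ℂ) with hc
  set ρ : ℝ := δ / 2 + p with hρ
  have hρ1 : p < ρ := by rw [hρ]; linarith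
  have hρ0 : 0 ≤ ρ := hp0.le.trans hρ1.le
  have hcs : Summable fun k : ℕ => ‖c k‖ * ρ ^ k := by
    have := (Complex.hasSum_taylorSeries_on_ball hf (z := (ρ : ℂ))
      (by simp only [mem_ball, dist_zero_right, Complex.norm_real, Real.norm_of_nonneg hρ0]
          rw [hρ]; linarith)).summable.norm
    refine this.congr fun k => ?_
    simp [hc, abs_of_nonneg hρ0]
    ring
  set u : ℕ → ℝ := fun k => KK (ρ - p) (m + 1) * (‖c k‖ * ρ ^ k) with hu
  have hus : Summable u := hcs.mul_left _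
  have hbd : ∀ (T : Op (m + 1)) (s : Multiset ℂ), ‖T‖ ≤ 1 → s.card = m + 1 →
      (∀ a ∈ s, ‖a‖ ≤ p) → aeval T (PP s) = 0 → ∀ k, ‖c k • T ^ k‖ ≤ u k := by
    intro T s hT hcard hs h0 k
    rw [norm_smul, hu]
    have := pow_bound' hp0.le hp1.le hρ1 T hT s hs h0 k
    rw [hcard] at this
    nlinarith [norm_nonneg (c k)]
  have hrep : ∀ b : ℂ, ‖b‖ = p → ∀ a ∈ Multiset.replicate (m + 1) b, ‖a‖ ≤ p := by
    intro b hb a ha
    rw [Multiset.eq_of_mem_replicate ha, hb]
  have hsum : ∀ (T : Op (m + 1)), (∀ k, ‖c k • T ^ k‖ ≤ u k) → Summable fun k => c k • T ^ k :=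
    fun T h => Summable.of_norm_bounded hus h
  have htail : ∀ (T : Op (m + 1)), (∀ k, ‖c k • T ^ k‖ ≤ u k) → ∀ N,
      ‖funCalc ψ T - aeval T (∑ k ∈ Finset.range N, monomial k (c k))‖ ≤ ∑' k, u (k + N) := by
    intro T h N
    have e : aeval T (∑ k ∈ Finset.range N, monomial k (c k))
        = ∑ k ∈ Finset.range N, c k • T ^ k := by
      rw [map_sum]
      refine Finset.sum_congr rfl fun k _ => ?_
      rw [aeval_monomial, ← Algebra.smul_def]
    have e2 : funCalc ψ T = ∑ k ∈ Finset.range N, c k • T ^ k + ∑' k, c (k + N) • T ^ (k + N) :=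
      ((hsum T h).sum_add_tsum_nat_add N).symm
    rw [e, e2, add_sub_cancel_left]
    exact tsum_of_norm_bounded ((summable_nat_add_iff N).2 hus).hasSum fun k => h _
  have hmb : ∀ b : ℂ, ‖b‖ = p → ∀ k, ‖c k • modelT (m + 1) b ^ k‖ ≤ u k := by
    intro b hb
    have := modelT_mem (m := m) (hb.trans_lt hp1)
    exact hbd _ _ this.1 (Multiset.card_replicate _ b) (hrep b hb)
      (by rw [PP_replicate]; exact this.2)
  have hlim : ∀ (T : Op (m + 1)) (M : ℝ), (∀ k, ‖c k • T ^ k‖ ≤ u k) →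
      (∀ N, ‖aeval T (∑ k ∈ Finset.range N, monomial k (c k))‖ ≤ M + ∑' k, u (k + N)) →
      ‖funCalc ψ T‖ ≤ M := by
    intro T M h1 h2
    have hN : ∀ N, ‖funCalc ψ T‖ ≤ M + 2 * ∑' k, u (k + N) := by
      intro N
      have h3 := htail T h1 N
      have h4 := norm_sub_norm_le (funCalc ψ T)
        (aeval T (∑ k ∈ Finset.range N, monomial k (c k)))
      linarith [h2 N]
    have hl : Tendsto (fun N => M + 2 * ∑' k, u (k + N)) atTop (𝓝 (M + 2 * 0)) :=
      ((tendsto_sum_nat_add u).const_mul 2).const_add _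
    simpa using ge_of_tendsto' hl hN
  have hmodel : ∀ b : ℂ, ‖b‖ = p → ∀ (T : Op (m + 1)), ‖T‖ ≤ 1 →
      aeval T (PP (Multiset.replicate (m + 1) b)) = 0 → ∀ N,
      ‖aeval T (∑ k ∈ Finset.range N, monomial k (c k))‖
        ≤ ‖funCalc ψ (modelT (m + 1) b)‖ + ∑' k, u (k + N) := by
    intro b hb T hT1 hT N
    have h1 := modelT_extremal (hb.trans_lt hp1) T hT1 hT (∑ k ∈ Finset.range N, monomial k (c k))
    have h2 := htail _ (hmb b hb) N
    have h4 := norm_sub_norm_le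
      (aeval (modelT (m + 1) b) (∑ k ∈ Finset.range N, monomial k (c k)))
      (funCalc ψ (modelT (m + 1) b))
    rw [norm_sub_rev] at h4
    linarith
  have part1 : ∀ a : ℂ, ‖a‖ = p → (X - C a) ^ (m + 1) ∈ FF p ∧
      modelT (m + 1) a ∈ AA (m + 1) ((X - C a) ^ (m + 1)) ∧
      CC (m + 1) ((X - C a) ^ (m + 1)) ψ = ‖funCalc ψ (modelT (m + 1) a)‖ := by
    intro a ha
    have hmem := modelT_mem (m := m) (ha.trans_lt hp1)
    refine ⟨⟨?_, fun z hz => ?_⟩, hmem, IsGreatest.csSup_eq ⟨⟨_, hmem, rfl⟩, ?_⟩⟩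
    · rw [degree_pow, degree_X_sub_C, nsmul_one]
      exact_mod_cast Nat.succ_pos m
    · have : z - a = 0 := by
        have := hz.eq_zero
        simp only [eval_pow, eval_sub, eval_X, eval_C] at this
        exact pow_eq_zero_iff (by omega) |>.1 this
      rw [sub_eq_zero.1 this, ha]
    · rintro _ ⟨T, hT, rfl⟩
      have h0 : aeval T (PP (Multiset.replicate (m + 1) a)) = 0 := by
        rw [PP_replicate]; exact hT.2
      exact hlim T _ (hbd T _ hT.1 (Multiset.card_replicate _ a) (hrep a ha) h0)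
        (hmodel a ha T hT.1 h0)
  have part3 : ∀ a : ℂ, ‖a‖ = p →
      (∀ b : ℂ, ‖b‖ = p →
        ‖funCalc ψ (modelT (m + 1) b)‖ ≤ ‖funCalc ψ (modelT (m + 1) a)‖) →
      ∀ φ ∈ FF p, CC (m + 1) φ ψ ≤ CC (m + 1) ((X - C a) ^ (m + 1)) ψ ∧ ∀ T ∈ AA (m + 1) φ,
        Summable (fun k : ℕ => (iteratedDeriv k ψ 0 / (k.factorial : ℂ)) • T ^ k) ∧
        ‖funCalc ψ T‖ ≤ ‖funCalc ψ (modelT (m + 1) a)‖ := by
    intro a ha hmax φ hφ
    have key : ∀ T ∈ AA (m + 1) φ,
        Summable (fun k : ℕ => (iteratedDeriv k ψ 0 / (k.factorial : ℂ)) • T ^ k) ∧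
        ‖funCalc ψ T‖ ≤ ‖funCalc ψ (modelT (m + 1) a)‖ := by
      intro T hT
      obtain ⟨s, hcard, hs, h0⟩ := reduce hp0.le hφ hT.2
      have hTb := hbd T s hT.1 hcard hs h0
      refine ⟨hsum T hTb, hlim T _ hTb fun N => ?_⟩
      refine poly_main hn hp0 hp1 _ _ (fun b hb T' hT' h0' => ?_) s hcard hs T hT.1 h0
      have h1 := hmodel b hb T' hT' h0' N
      have h2 := hmax b hb
      linarith
    refine ⟨?_, key⟩
    rw [(part1 a ha).2.2]
    refine Real.sSup_le ?_ (norm_nonneg _)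
    rintro _ ⟨T, hT, rfl⟩
    exact (key T hT).2
  have hpn : ‖(p : ℂ)‖ = p := by simp [abs_of_pos hp0]
  refine ⟨part1, ?_, part3, ?_⟩
  · have hcont : ContinuousOn (fun b : ℂ => ‖funCalc ψ (modelT (m + 1) b)‖) (sphere 0 p) := by
      refine ContinuousOn.norm ?_
      have := modelT_cont (m + 1)
      refine continuousOn_tsum (f := fun k (b : ℂ) => c k • modelT (m + 1) b ^ k)
        (fun k => by fun_prop) hus ?_
      intro k b hb
      exact hmb b (by simpa using hb) k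
    obtain ⟨a, ha, hmax⟩ := (isCompact_sphere (0 : ℂ) p).exists_isMaxOn
      ⟨(p : ℂ), by simpa using hpn⟩ hcont
    refine ⟨a, by simpa using ha, fun b hb => ?_⟩
    have := isMaxOn_iff.1 hmax b (by simpa using hb)
    exact this
  · intro k hk φ hφ
    refine (part3 p hpn (fun b hb => ?_) φ hφ).1
    rw [hk, funCalc_pow, funCalc_pow]
    have hb0 : b ≠ 0 := by rintro rfl; simp at hb; linarith
    have hω : ‖(p : ℂ) / b‖ = 1 := by rw [norm_div, hpn, hb, div_self hp0.ne']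
    have hmem := modelT_mem (m := m) (hb.trans_lt hp1)
    have h1 := modelT_extremal (m := m) (hpn.trans_lt hp1) (((p : ℂ) / b) • modelT (m + 1) b)
      (by rw [norm_smul, hω, one_mul]; exact hmem.1) (by
        have h2 := hmem.2
        rw [PP_replicate]
        rw [map_pow, map_sub, aeval_X, aeval_C] at h2 ⊢
        have e : ((p : ℂ) / b) • modelT (m + 1) b - algebraMap ℂ (Op (m + 1)) p
            = ((p : ℂ) / b) • (modelT (m + 1) b - algebraMap ℂ (Op (m + 1)) b) := by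
          rw [smul_sub, Algebra.algebraMap_eq_smul_one, Algebra.algebraMap_eq_smul_one, smul_smul,
            div_mul_cancel₀ _ hb0]
        rw [e, _root_.smul_pow, h2]; ext; simp) (X ^ k)
    rw [map_pow, map_pow, aeval_X, aeval_X, _root_.smul_pow, norm_smul, norm_pow, hω, one_pow,
      one_mul] at h1
    exact h1

end Pool.Agent.H94.Ptak
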