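import Pool.Agent.H94.PtakUpper
import Pool.Agent.H94.PtakDefs

open Complex Real Metric Set Polynomial Filter Topology

namespace Pool.Agent.H94.Ptak

open Pool.Agent.H94.PtakD

noncomputable def KK (d : ℝ) : ℕ → ℝ
  | 0 => 0
  | m + 1 => 1 + 2 * KK d m / d

lemma KK_nonneg {d : ℝ} (hd : 0 < d) : ∀ m, 0 ≤ KK d m
  | 0 => le_rfl
  | m + 1 => by
    have := KK_nonneg hd m
    unfold KK; positivity

lemma pow_bound {n : ℕ} {r ρ : ℝ} (hr0 : 0 ≤ r) (hr1 : r ≤ 1) (hρ : r < ρ) (T : Op n)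
    (hT : ‖T‖ ≤ 1) (s : Multiset ℂ) : (∀ a ∈ s, ‖a‖ ≤ r) → ∀ E : Op n, aeval T (PP s) * E = 0 →
      ∀ k, ‖T ^ k * E‖ ≤ KK (ρ - r) s.card * ‖E‖ * ρ ^ k := by
  induction s using Multiset.induction_on with
  | empty =>
    intro _ E hE k
    have : E = 0 := by simpa [PP] using hE
    simp [this]
  | cons a s ih =>
    intro hs E hE
    have ha := hs a (Multiset.mem_cons_self a s)
    have hd : 0 < ρ - r := sub_pos.2 hρ
    have hρ0 : 0 < ρ := hr0.trans_lt hρ
    have h1 : aeval T (PP s) * ((T - algebraMap ℂ (Op n) a) * E) = 0 := by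
      rw [PP_cons, mul_comm, map_mul, mul_assoc] at hE
      simpa using hE
    have h2 := ih (fun b hb => hs b (Multiset.mem_cons_of_mem hb)) _ h1
    have h3 : ‖(T - algebraMap ℂ (Op n) a) * E‖ ≤ 2 * ‖E‖ := by
      rw [sub_mul, ← Algebra.smul_def]
      refine (norm_sub_le _ _).trans ?_
      have := norm_mul_le T E
      rw [norm_smul]
      nlinarith [norm_nonneg E]
    have hK := KK_nonneg hd s.card
    rw [Multiset.card_cons]
    intro k
    induction k with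
    | zero =>
      simp only [pow_zero, one_mul, mul_one, KK]
      have : 0 ≤ 2 * KK (ρ - r) s.card / (ρ - r) := by positivity
      nlinarith [norm_nonneg E]
    | succ k ihk =>
      have e : T ^ (k + 1) * E = T ^ k * ((T - algebraMap ℂ (Op n) a) * E) + a • (T ^ k * E) := by
        rw [sub_mul, ← Algebra.smul_def, mul_sub, mul_smul_comm, pow_succ, mul_assoc]; abel
      rw [e]
      refine (norm_add_le _ _).trans ?_
      rw [norm_smul]
      have h4 : ‖T ^ k * ((T - algebraMap ℂ (Op n) a) * E)‖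
          ≤ KK (ρ - r) s.card * (2 * ‖E‖) * ρ ^ k :=
        (h2 k).trans (by gcongr)
      have h5 : ‖a‖ * ‖T ^ k * E‖ ≤ r * (KK (ρ - r) (s.card + 1) * ‖E‖ * ρ ^ k) := by gcongr
      have h6 : KK (ρ - r) s.card * 2 ≤ KK (ρ - r) (s.card + 1) * (ρ - r) := by
        simp only [KK]
        rw [add_mul, div_mul_cancel₀ _ hd.ne']
        linarith
      have h7 := mul_le_mul_of_nonneg_right h6
        (mul_nonneg (norm_nonneg E) (pow_nonneg hρ0.le k))
      rw [pow_succ]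
      nlinarith

lemma pow_bound' {n : ℕ} {r ρ : ℝ} (hr0 : 0 ≤ r) (hr1 : r ≤ 1) (hρ : r < ρ) (T : Op n)
    (hT : ‖T‖ ≤ 1) (s : Multiset ℂ) (hs : ∀ a ∈ s, ‖a‖ ≤ r) (h0 : aeval T (PP s) = 0) (k : ℕ) :
    ‖T ^ k‖ ≤ KK (ρ - r) s.card * ρ ^ k := by
  have := pow_bound hr0 hr1 hρ T hT s hs 1 (by simp [h0]) k
  rw [mul_one] at this
  refine this.trans ?_
  have h1 : ‖(1 : Op n)‖ ≤ 1 := ContinuousLinearMap.norm_id_le
  have hK := KK_nonneg (sub_pos.2 hρ) s.card
  have hρ0 : 0 ≤ ρ := hr0.trans hρ.le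
  gcongr
  exact mul_le_of_le_one_right hK h1

lemma coeff_summable {f : ℂ → ℂ} (hf : DifferentiableOn ℂ f (ball 0 1)) {ρ : ℝ} (h0 : 0 ≤ ρ)
    (h1 : ρ < 1) : Summable fun k : ℕ => ‖iteratedDeriv k f 0 / (k.factorial : ℂ)‖ * ρ ^ k := by
  have := (Complex.hasSum_taylorSeries_on_ball hf (z := (ρ : ℂ))
    (by simpa [abs_of_nonneg h0] using h1)).summable.norm
  refine this.congr fun k => ?_
  simp [abs_of_nonneg h0]
  ring

theorem strong {n : ℕ} (hn : 1 ≤ n) {r : ℝ} (hr0 : 0 < r) (hr1 : r < 1) {f : ℂ → ℂ}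
    (hf : DifferentiableOn ℂ f (ball 0 1)) :
    ∃ a : ℂ, ‖a‖ = r ∧ ∃ T₀ ∈ AA n ((X - C a) ^ n), ∀ p ∈ PSet n r, ∀ T ∈ AA n p,
      Summable (fun k : ℕ => (iteratedDeriv k f 0 / (k.factorial : ℂ)) • T ^ k) ∧
      ‖funCalc f T‖ ≤ ‖funCalc f T₀‖ := by
  set c : ℕ → ℂ := fun k => iteratedDeriv k f 0 / (k.factorial : ℂ) with hc
  set ρ : ℝ := (1 + r) / 2 with hρ
  have hρ1 : r < ρ := by rw [hρ]; linarith
  have hρ2 : ρ < 1 := by rw [hρ]; linarith
  set u : ℕ → ℝ := fun k => KK (ρ - r) n * (‖c k‖ * ρ ^ k) with hu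
  have hus : Summable u := (coeff_summable hf (hr0.le.trans hρ1.le) hρ2).mul_left _
  have hbd : ∀ (T : Op n) (s : Multiset ℂ), ‖T‖ ≤ 1 → s.card = n → (∀ a ∈ s, ‖a‖ ≤ r) →
      aeval T (PP s) = 0 → ∀ k, ‖c k • T ^ k‖ ≤ u k := by
    intro T s hT hcard hs h0 k
    rw [norm_smul, hu]
    have := pow_bound' hr0.le hr1.le hρ1 T hT s hs h0 k
    rw [hcard] at this
    nlinarith [norm_nonneg (c k)]
  have hPP : ∀ b : ℂ, PP (Multiset.replicate n b) = (X - C b) ^ n := by intro b; simp [PP]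
  have hrep : ∀ b : ℂ, ‖b‖ = r → ∀ a ∈ Multiset.replicate n b, ‖a‖ ≤ r := by
    intro b hb a ha
    rw [Multiset.eq_of_mem_replicate ha, hb]
  set K : Set (ℂ × Op n) := {w | ‖w.1‖ = r ∧ ‖w.2‖ ≤ 1 ∧ (w.2 - w.1 • (1 : Op n)) ^ n = 0} with hK
  have hae : ∀ (b : ℂ) (T : Op n), aeval T ((X - C b) ^ n) = (T - b • (1 : Op n)) ^ n := by
    intro b T; simp [Algebra.algebraMap_eq_smul_one]
  haveI : ProperSpace (Op n) := FiniteDimensional.proper ℂ _
  have hKc : IsCompact K := by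
    refine ((isCompact_sphere (0 : ℂ) r).prod (isCompact_closedBall (0 : Op n) 1)).of_isClosed_subset
      ?_ ?_
    · have c1 : IsClosed {w : ℂ × Op n | ‖w.1‖ = r} := isClosed_eq (by fun_prop) continuous_const
      have c2 : IsClosed {w : ℂ × Op n | ‖w.2‖ ≤ 1} := isClosed_le (by fun_prop) continuous_const
      have c3 : IsClosed {w : ℂ × Op n | (w.2 - w.1 • (1 : Op n)) ^ n = 0} :=
        isClosed_eq (by fun_prop) continuous_const
      exact c1.inter (c2.inter c3)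
    · rintro ⟨b, T⟩ ⟨h1, h2, -⟩
      exact ⟨by simpa using h1, by simpa using h2⟩
  have hrn : ‖(r : ℂ)‖ = r := by simp [abs_of_pos hr0]
  have hKn : K.Nonempty := by
    refine ⟨((r : ℂ), (r : ℂ) • (1 : Op n)), hrn, ?_, ?_⟩
    · have h1 : ‖(1 : Op n)‖ ≤ 1 := ContinuousLinearMap.norm_id_le
      simp only [norm_smul, hrn]
      nlinarith [norm_nonneg (1 : Op n)]
    · simp only [sub_self]
      exact zero_pow (by omega)
  have hcont : ContinuousOn (fun w : ℂ × Op n => ‖funCalc f w.2‖) K := by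
    refine ContinuousOn.norm ?_
    refine continuousOn_tsum (f := fun k (w : ℂ × Op n) => c k • w.2 ^ k)
      (fun k => by fun_prop) hus ?_
    rintro k ⟨b, T⟩ ⟨h1, h2, h3⟩
    exact hbd T _ h2 (Multiset.card_replicate n b) (hrep b h1) (by rw [hPP, hae]; exact h3) k
  obtain ⟨⟨a, T₀⟩, ⟨ha, hT₀, hT₀'⟩, hmax⟩ := hKc.exists_isMaxOn hKn hcont
  refine ⟨a, ha, T₀, ⟨hT₀, by rw [hae]; exact hT₀'⟩, fun p hp T hT => ?_⟩
  have hp0 : p ≠ 0 := by
    rintro rfl
    have := hp.1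
    simp at this
  have hcard : p.roots.card = n := by
    rw [IsAlgClosed.card_roots_eq_natDegree, natDegree_eq_of_degree_eq_some hp.1]
  have hroots : ∀ b ∈ p.roots, ‖b‖ ≤ r := fun b hb => hp.2 b ((mem_roots hp0).1 hb)
  have hT0 : aeval T (PP p.roots) = 0 := by
    have e := C_leadingCoeff_mul_prod_multiset_X_sub_C (p := p)
      IsAlgClosed.card_roots_eq_natDegree
    have h2 := hT.2
    rw [← e, map_mul, aeval_C, ← Algebra.smul_def] at h2
    exact (smul_eq_zero.1 h2).resolve_left (leadingCoeff_ne_zero.2 hp0)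
  have hsum : ∀ (T : Op n), (∀ k, ‖c k • T ^ k‖ ≤ u k) → Summable fun k => c k • T ^ k :=
    fun T h => Summable.of_norm_bounded hus h
  have htail : ∀ (T : Op n), (∀ k, ‖c k • T ^ k‖ ≤ u k) → ∀ N,
      ‖funCalc f T - aeval T (∑ k ∈ Finset.range N, monomial k (c k))‖ ≤ ∑' k, u (k + N) := by
    intro T h N
    have e : aeval T (∑ k ∈ Finset.range N, monomial k (c k))
        = ∑ k ∈ Finset.range N, c k • T ^ k := by
      rw [map_sum]
      refine Finset.sum_congr rfl fun k _ => ?_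
      rw [aeval_monomial, ← Algebra.smul_def]
    have e2 : funCalc f T = ∑ k ∈ Finset.range N, c k • T ^ k + ∑' k, c (k + N) • T ^ (k + N) :=
      ((hsum T h).sum_add_tsum_nat_add N).symm
    rw [e, e2, add_sub_cancel_left]
    exact tsum_of_norm_bounded ((summable_nat_add_iff N).2 hus).hasSum fun k => h _
  have hTb := hbd T _ hT.1 hcard hroots hT0
  refine ⟨hsum T hTb, ?_⟩
  have hN : ∀ N, ‖funCalc f T‖ ≤ ‖funCalc f T₀‖ + 2 * ∑' k, u (k + N) := by
    intro N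
    have h1 := poly_main hn hr0 hr1 (∑ k ∈ Finset.range N, monomial k (c k))
      (‖funCalc f T₀‖ + ∑' k, u (k + N)) (by
        intro b hb T' hT' h0
        have h2 := htail T' (hbd T' _ hT' (Multiset.card_replicate n b) (hrep b hb) h0) N
        have hbK : (b, T') ∈ K := ⟨hb, hT', by rw [← hae, ← hPP]; exact h0⟩
        have h3 : ‖funCalc f T'‖ ≤ ‖funCalc f T₀‖ := by
          have := isMaxOn_iff.1 hmax (b, T') hbK
          exact this
        have h4 := norm_sub_norm_le (aeval T' (∑ k ∈ Finset.range N, monomial k (c k)))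
          (funCalc f T')
        rw [norm_sub_rev] at h4
        linarith) p.roots hcard hroots T hT.1 hT0
    have h2 := htail T hTb N
    have h4 := norm_sub_norm_le (funCalc f T)
      (aeval T (∑ k ∈ Finset.range N, monomial k (c k)))
    linarith
  have hlim : Tendsto (fun N => ‖funCalc f T₀‖ + 2 * ∑' k, u (k + N)) atTop
      (𝓝 (‖funCalc f T₀‖ + 2 * 0)) :=
    ((tendsto_sum_nat_add u).const_mul 2).const_add _
  simpa using ge_of_tendsto' hlim hN

theorem worst {n : ℕ} (hn : 1 ≤ n) {r : ℝ} (hr0 : 0 < r) (hr1 : r < 1) {f : ℂ → ℂ}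
    (hf : DifferentiableOn ℂ f (ball 0 1)) :
    ∃ a : ℂ, ‖a‖ = r ∧ IsWorst n r f ((X - C a) ^ n) ∧
      ∃ T₀ ∈ AA n ((X - C a) ^ n), ∀ p ∈ PSet n r, ∀ T ∈ AA n p,
        Summable (fun k : ℕ => (iteratedDeriv k f 0 / (k.factorial : ℂ)) • T ^ k) ∧
        ‖funCalc f T‖ ≤ ‖funCalc f T₀‖ := by
  obtain ⟨a, ha, T₀, hT₀, h⟩ := strong hn hr0 hr1 hf
  have hmem : (X - C a) ^ n ∈ PSet n r := by
    refine ⟨by simp [degree_pow, degree_X_sub_C], fun z hz => ?_⟩
    have : z - a = 0 := by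
      have := hz.eq_zero
      simp only [eval_pow, eval_sub, eval_X, eval_C] at this
      exact pow_eq_zero_iff (by omega) |>.1 this
    rw [sub_eq_zero.1 this, ha]
  refine ⟨a, ha, ⟨hmem, fun q hq => ?_⟩, T₀, hT₀, h⟩
  have h1 : ‖funCalc f T₀‖ ≤ CC n ((X - C a) ^ n) f := by
    refine le_csSup ⟨‖funCalc f T₀‖, ?_⟩ ⟨T₀, hT₀, rfl⟩
    rintro _ ⟨T, hT, rfl⟩
    exact (h _ hmem T hT).2
  refine le_trans (Real.sSup_le ?_ (norm_nonneg _)) h1
  rintro _ ⟨T, hT, rfl⟩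
  exact (h q hq T hT).2

end Pool.Agent.H94.Ptak
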