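import Pool.Agent.H94.PtakPos2

open Complex Real Metric Set Polynomial

namespace Pool.Agent.H94.Ptak

/-- monic polynomial with prescribed roots -/
noncomputable def PP (s : Multiset ℂ) : ℂ[X] := (s.map fun a => X - C a).prod

lemma PP_cons (a : ℂ) (s : Multiset ℂ) : PP (a ::ₘ s) = (X - C a) * PP s := by simp [PP]

lemma PP_monic (s : Multiset ℂ) : (PP s).Monic := monic_multiset_prod_of_monic _ _
  fun a _ => monic_X_sub_C a

lemma PP_natDegree (s : Multiset ℂ) : (PP s).natDegree = s.card :=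
  natDegree_multiset_prod_X_sub_C_eq_card s

lemma PP_degree (s : Multiset ℂ) : (PP s).degree = s.card := by
  rw [degree_eq_natDegree (PP_monic s).ne_zero, PP_natDegree]

lemma norm_PP (s : Multiset ℂ) (z : ℂ) : ‖(PP s).eval z‖ ^ 2 = W s z := by
  induction s using Multiset.induction_on with
  | empty => simp [PP, W]
  | cons a s ih => rw [PP_cons, W_cons, ← ih]; simp [mul_pow]

lemma PP_ne (s : Multiset ℂ) (hs : ∀ a ∈ s, ‖a‖ < 1) {z : ℂ} (hz : ‖z‖ = 1) :
    (PP s).eval z ≠ 0 := by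
  intro h
  have := W_pos s hs hz
  rw [← norm_PP, h] at this
  simp at this

lemma conj_mul_PP (s : Multiset ℂ) (z : ℂ) :
    (starRingEnd ℂ) ((PP s).eval z) * (PP s).eval z = (W s z : ℂ) := by
  rw [← norm_PP, Complex.conj_mul']; push_cast; rfl

lemma PP_inv (s : Multiset ℂ) {z : ℂ} (hz : z ≠ 0) :
    z ^ s.card * (PP s).eval z⁻¹ = (s.map fun a => 1 - a * z).prod := by
  induction s using Multiset.induction_on with
  | empty => simp [PP]
  | cons a s ih =>
    rw [PP_cons, Multiset.card_cons, Multiset.map_cons, Multiset.prod_cons, ← ih]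
    simp only [eval_mul, eval_sub, eval_X, eval_C]
    field_simp
    ring

lemma rev_diff (s : Multiset ℂ) : Differentiable ℂ fun z : ℂ => (s.map fun a => 1 - a * z).prod := by
  induction s using Multiset.induction_on with
  | empty => simp
  | cons a s ih =>
    simp only [Multiset.map_cons, Multiset.prod_cons]
    fun_prop

lemma rev_ne (s : Multiset ℂ) (hs : ∀ a ∈ s, ‖a‖ < 1) {z : ℂ} (hz : ‖z‖ ≤ 1) :
    (s.map fun a => 1 - a * z).prod ≠ 0 := by
  refine Multiset.prod_ne_zero fun h => ?_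
  obtain ⟨a, ha, h0⟩ := Multiset.mem_map.1 h
  have h1 : a * z = 1 := by linear_combination -h0
  have h2 : ‖a‖ * ‖z‖ = 1 := by rw [← norm_mul, h1, norm_one]
  have := hs a ha
  nlinarith [norm_nonneg a, norm_nonneg z]

lemma orth (s : Multiset ℂ) (hs : ∀ a ∈ s, ‖a‖ < 1) (q g : ℂ[X]) (hq : q.degree < s.card) :
    J (fun z => q.eval z / (PP s).eval z * (starRingEnd ℂ) (g.eval z)) = 0 := by
  rw [J_eq, ← circleAverage_zero_one_congr_inv]
  set h : ℂ → ℂ := fun z => (∑ j ∈ Finset.range s.card, q.coeff j * z ^ (s.card - j)) /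
    (s.map fun a => 1 - a * z).prod * (g.map (starRingEnd ℂ)).eval z with hh
  have hd : DiffContOnCl ℂ h (ball 0 |1|) := by
    refine DifferentiableOn.diffContOnCl ?_
    rw [abs_one, closure_ball _ one_ne_zero]
    refine DifferentiableOn.mul (DifferentiableOn.div (by fun_prop) (rev_diff s).differentiableOn
      fun z hz => rev_ne s hs (by simpa using hz)) (Polynomial.differentiable _).differentiableOn
  have h0 : h 0 = 0 := by
    rw [hh]
    simp only
    rw [Finset.sum_eq_zero, zero_div, zero_mul]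
    intro j hj
    rw [zero_pow (by have := Finset.mem_range.1 hj; omega), mul_zero]
  have e : circleAverage (fun z => q.eval z⁻¹ / (PP s).eval z⁻¹ * (starRingEnd ℂ) (g.eval z⁻¹)) 0 1
      = circleAverage h 0 1 := by
    refine circleAverage_congr_sphere fun z hz => ?_
    have hz1 : ‖z‖ = 1 := by simpa using hz
    have hz0 : z ≠ 0 := by rintro rfl; simp at hz1
    have e1 : (starRingEnd ℂ) (g.eval z⁻¹) = (g.map (starRingEnd ℂ)).eval z := by
      have : z = (starRingEnd ℂ) z⁻¹ := by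
        rw [Complex.inv_eq_conj hz1]; simp
      conv_rhs => rw [this]
      rw [Polynomial.eval_map, Polynomial.eval₂_at_apply]
    have e2 : z ^ s.card * q.eval z⁻¹ = ∑ j ∈ Finset.range s.card, q.coeff j * z ^ (s.card - j) := by
      by_cases hq0 : q = 0
      · simp [hq0]
      rw [eval_eq_sum_range' ((natDegree_lt_iff_degree_lt hq0).2 hq), Finset.mul_sum]
      refine Finset.sum_congr rfl fun j hj => ?_
      rw [pow_sub₀ _ hz0 (Finset.mem_range.1 hj).le, inv_pow]; ring
    simp only [hh]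
    rw [e1, ← e2, ← PP_inv s hz0, mul_div_mul_left _ _ (pow_ne_zero _ hz0)]
  rw [e, hd.circleAverage, h0, smul_zero]

lemma exists_euclid (V : Type) [AddCommGroup V] [Module ℂ V] [FiniteDimensional ℂ V] (n : ℕ)
    (hn : Module.finrank ℂ V = n) (c : InnerProductSpace.Core ℂ V) :
    ∃ e : V ≃ₗ[ℂ] EuclideanSpace ℂ (Fin n), ∀ v w, inner ℂ (e v) (e w) = c.inner v w := by
  letI : NormedAddCommGroup V := c.toNormedAddCommGroup
  letI : InnerProductSpace ℂ V := InnerProductSpace.ofCore c.toCore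
  let b := (stdOrthonormalBasis ℂ V).reindex (finCongr hn)
  exact ⟨b.repr.toLinearEquiv, fun v w => b.repr.inner_map_map v w⟩

lemma J_add {g h : ℂ → ℂ} (hg : ContinuousOn g (sphere 0 1)) (hh : ContinuousOn h (sphere 0 1)) :
    J (fun z => g z + h z) = J g + J h :=
  intervalIntegral.integral_add ((cont_ee hg).intervalIntegrable _ _)
    ((cont_ee hh).intervalIntegrable _ _)

lemma J_mul (c : ℂ) (g : ℂ → ℂ) : J (fun z => c * g z) = c * J g :=
  intervalIntegral.integral_const_mul _ _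

lemma J_conj (g : ℂ → ℂ) : J (fun z => (starRingEnd ℂ) (g z)) = (starRingEnd ℂ) (J g) := by
  unfold J
  rw [intervalIntegral.integral_of_le (by positivity), intervalIntegral.integral_of_le
    (by positivity), integral_conj]

lemma J_ofReal (g : ℂ → ℝ) : J (fun z => (g z : ℂ)) = ((J g : ℝ) : ℂ) :=
  intervalIntegral.integral_ofReal

/-- the weighted sesquilinear form -/
noncomputable def BB (s : Multiset ℂ) (q' q : ℂ[X]) : ℂ :=
  J fun z => (starRingEnd ℂ) (q'.eval z) * q.eval z / (W s z : ℂ)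

/-- the weighted norm squared -/
noncomputable def NN (s : Multiset ℂ) (q : ℂ[X]) : ℝ := J fun z => ‖q.eval z‖ ^ 2 / W s z

lemma BB_self (s : Multiset ℂ) (q : ℂ[X]) : BB s q q = NN s q := by
  unfold BB NN
  rw [← J_ofReal]
  refine J_congr fun z _ => ?_
  rw [Complex.conj_mul']; push_cast; rfl

lemma BB_cont (s : Multiset ℂ) (hs : ∀ a ∈ s, ‖a‖ < 1) (q' q : ℂ[X]) :
    ContinuousOn (fun z => (starRingEnd ℂ) (q'.eval z) * q.eval z / (W s z : ℂ)) (sphere 0 1) := by
  have h1 := W_cont s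
  refine ContinuousOn.div (by fun_prop) (by fun_prop) fun z hz => ?_
  exact_mod_cast (W_pos s hs (by simpa using hz)).ne'

lemma BB_add_right (s : Multiset ℂ) (hs : ∀ a ∈ s, ‖a‖ < 1) (q' q₁ q₂ : ℂ[X]) :
    BB s q' (q₁ + q₂) = BB s q' q₁ + BB s q' q₂ := by
  unfold BB
  rw [← J_add (BB_cont s hs _ _) (BB_cont s hs _ _)]
  refine J_congr fun z _ => ?_
  simp only [eval_add]; ring

lemma BB_add_left (s : Multiset ℂ) (hs : ∀ a ∈ s, ‖a‖ < 1) (q₁ q₂ q : ℂ[X]) :
    BB s (q₁ + q₂) q = BB s q₁ q + BB s q₂ q := by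
  unfold BB
  rw [← J_add (BB_cont s hs _ _) (BB_cont s hs _ _)]
  refine J_congr fun z _ => ?_
  simp only [eval_add, map_add]; ring

lemma BB_smul_left (s : Multiset ℂ) (c : ℂ) (q' q : ℂ[X]) :
    BB s (c • q') q = (starRingEnd ℂ) c * BB s q' q := by
  unfold BB
  rw [← J_mul]
  refine J_congr fun z _ => ?_
  simp only [eval_smul, smul_eq_mul, map_mul]; ring

lemma BB_conj (s : Multiset ℂ) (q' q : ℂ[X]) : (starRingEnd ℂ) (BB s q' q) = BB s q q' := by
  unfold BB
  rw [← J_conj]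
  refine J_congr fun z _ => ?_
  simp only [map_div₀, map_mul, Complex.conj_conj, Complex.conj_ofReal]; ring

lemma NN_nonneg (s : Multiset ℂ) (hs : ∀ a ∈ s, ‖a‖ < 1) (q : ℂ[X]) : 0 ≤ NN s q :=
  intervalIntegral.integral_nonneg (by positivity) fun θ _ =>
    div_nonneg (by positivity) (W_pos s hs (norm_ee θ)).le

lemma NN_eq_zero (s : Multiset ℂ) (hs : ∀ a ∈ s, ‖a‖ < 1) (q : ℂ[X]) (h : NN s q = 0) : q = 0 := by
  by_contra hq
  have hc : Continuous fun θ => ‖q.eval (ee θ)‖ ^ 2 / W s (ee θ) :=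
    cont_ee (contOn_div_W (χ := fun z => ‖q.eval z‖ ^ 2) (by fun_prop) s hs)
  have hex : ∃ θ ∈ Icc (0 : ℝ) (2 * π), q.eval (ee θ) ≠ 0 := by
    by_contra hne
    push Not at hne
    apply hq
    refine Polynomial.eq_zero_of_infinite_isRoot q ?_
    have hinj : InjOn ee (Ico (0 : ℝ) 1) := by
      refine injOn_circleMap_of_abs_sub_le' (c := 0) one_ne_zero ?_
      linarith [Real.pi_gt_three]
    refine ((Set.Ico_infinite (zero_lt_one' ℝ)).image hinj).mono ?_
    rintro _ ⟨θ, hθ, rfl⟩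
    exact hne θ ⟨hθ.1, by linarith [Real.pi_gt_three, hθ.2]⟩
  obtain ⟨θ, hθ, hne⟩ := hex
  have := intervalIntegral.integral_pos (f := fun θ => ‖q.eval (ee θ)‖ ^ 2 / W s (ee θ))
    (show (0 : ℝ) < 2 * π by positivity) hc.continuousOn
    (fun θ _ => div_nonneg (by positivity) (W_pos s hs (norm_ee θ)).le)
    ⟨θ, hθ, div_pos (by positivity) (W_pos s hs (norm_ee θ))⟩
  exact this.ne' h

lemma BB_orth (s : Multiset ℂ) (hs : ∀ a ∈ s, ‖a‖ < 1) (q g : ℂ[X]) (hq : q.degree < s.card) :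
    BB s (PP s * g) q = 0 := by
  rw [← orth s hs q g hq]
  unfold BB
  refine J_congr fun z hz => ?_
  have := PP_ne s hs hz
  have h2 : (starRingEnd ℂ) ((PP s).eval z) ≠ 0 := by simpa using this
  rw [← conj_mul_PP]
  simp only [eval_mul, map_mul]
  field_simp

lemma BB_mod (s : Multiset ℂ) (hs : ∀ a ∈ s, ‖a‖ < 1) (q g : ℂ[X]) (hq : q.degree < s.card) :
    BB s (g %ₘ PP s) q = BB s g q := by
  conv_rhs => rw [← modByMonic_add_div g (PP s)]
  rw [BB_add_left s hs, BB_orth s hs _ _ hq, add_zero]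

lemma NN_mod_le (s : Multiset ℂ) (hs : ∀ a ∈ s, ‖a‖ < 1) (g : ℂ[X]) :
    NN s (g %ₘ PP s) ≤ NN s g := by
  have hd : (g %ₘ PP s).degree < s.card := by
    rw [← PP_degree]; exact degree_modByMonic_lt _ (PP_monic s)
  have h1 : BB s g g = BB s (g %ₘ PP s) (g %ₘ PP s)
      + BB s (PP s * (g /ₘ PP s)) (PP s * (g /ₘ PP s)) := by
    conv_lhs => rw [← modByMonic_add_div g (PP s)]
    rw [BB_add_left s hs, BB_add_right s hs, BB_add_right s hs, BB_orth s hs _ _ hd,
      ← BB_conj s (PP s * _) (g %ₘ PP s), BB_orth s hs _ _ hd]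
    simp
  rw [BB_self, BB_self, BB_self] at h1
  have h2 : NN s g = NN s (g %ₘ PP s) + NN s (PP s * (g /ₘ PP s)) := by exact_mod_cast h1
  linarith [NN_nonneg s hs (PP s * (g /ₘ PP s))]

lemma NN_X_mul (s : Multiset ℂ) (q : ℂ[X]) : NN s (X * q) = NN s q := by
  unfold NN
  refine J_congr fun z hz => ?_
  simp [hz]

theorem model (s : Multiset ℂ) (hs : ∀ a ∈ s, ‖a‖ < 1) (n : ℕ) (hn : s.card = n) :
    ∃ T : EuclideanSpace ℂ (Fin n) →L[ℂ] EuclideanSpace ℂ (Fin n), ‖T‖ ≤ 1 ∧
      aeval T (PP s) = 0 ∧ ∀ g q q' : ℂ[X], q.degree < n → q'.degree < n →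
        (BB s q' (g * q)).re ≤ ‖aeval T g‖ / 2 * (NN s q + NN s q') := by
  subst hn
  let c : InnerProductSpace.Core ℂ (degreeLT ℂ s.card) :=
    { inner := fun v w => BB s v w
      conj_inner_symm := fun v w => BB_conj s _ _
      re_inner_nonneg := fun v => by
        show 0 ≤ (BB s v v).re
        rw [BB_self]; simpa using NN_nonneg s hs _
      add_left := fun u v w => BB_add_left s hs _ _ _
      smul_left := fun v w r => BB_smul_left s _ _ _
      definite := fun v hv => by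
        have hv' : BB s v v = 0 := hv
        rw [BB_self] at hv'
        exact Subtype.ext (NN_eq_zero s hs _ (by exact_mod_cast hv')) }
  haveI : FiniteDimensional ℂ (degreeLT ℂ s.card) :=
    (degreeLTEquiv ℂ s.card).symm.finiteDimensional
  obtain ⟨e, he⟩ := exists_euclid (degreeLT ℂ s.card) s.card
    (by rw [(degreeLTEquiv ℂ s.card).finrank_eq]; simp) c
  have he' : ∀ v w : degreeLT ℂ s.card, inner ℂ (e v) (e w) = BB s v w := he
  have hnorm : ∀ v : degreeLT ℂ s.card, ‖e v‖ ^ 2 = NN s v := by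
    intro v
    have := he' v v
    rw [BB_self] at this
    rw [← inner_self_eq_norm_sq (𝕜 := ℂ), this]
    simp
  have hmem : ∀ g : ℂ[X], g %ₘ PP s ∈ degreeLT ℂ s.card := fun g => by
    rw [mem_degreeLT, ← PP_degree]; exact degree_modByMonic_lt _ (PP_monic s)
  let π' : ℂ[X] →ₗ[ℂ] degreeLT ℂ s.card := (modByMonicHom (PP s)).codRestrict _ hmem
  have hπ : ∀ g, (π' g : ℂ[X]) = g %ₘ PP s := fun g => rfl
  let S : degreeLT ℂ s.card →ₗ[ℂ] degreeLT ℂ s.card :=
    π' ∘ₗ (LinearMap.mulLeft ℂ X) ∘ₗ (degreeLT ℂ s.card).subtype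
  let T : EuclideanSpace ℂ (Fin s.card) →L[ℂ] EuclideanSpace ℂ (Fin s.card) :=
    LinearMap.toContinuousLinearMap (e.toLinearMap ∘ₗ S ∘ₗ e.symm.toLinearMap)
  have hT : ∀ g : ℂ[X], T (e (π' g)) = e (π' (X * g)) := by
    intro g
    have : T (e (π' g)) = e (π' (X * (g %ₘ PP s))) := by simp [T, S, hπ]
    rw [this]
    congr 1
    apply Subtype.ext
    rw [hπ, hπ]
    refine modByMonic_eq_of_dvd_sub (PP_monic s) ?_
    rw [← mul_sub]
    refine Dvd.dvd.mul_left ?_ _
    rw [modByMonic_eq_sub_mul_div]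
    simp
  have hπid : ∀ v : degreeLT ℂ s.card, π' v = v := fun v => by
    apply Subtype.ext
    rw [hπ, modByMonic_eq_self_iff (PP_monic s), PP_degree]
    exact mem_degreeLT.1 v.2
  have hpow : ∀ (k : ℕ) (g : ℂ[X]), (T ^ k) (e (π' g)) = e (π' (X ^ k * g)) := by
    intro k
    induction k with
    | zero => intro g; simp
    | succ k ih =>
      intro g
      rw [pow_succ', ContinuousLinearMap.mul_apply, ih, hT, pow_succ', mul_assoc]
  have hae : ∀ f g : ℂ[X], aeval T f (e (π' g)) = e (π' (f * g)) := by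
    intro f g
    induction f using Polynomial.induction_on' with
    | add p q hp hq => simp [add_mul, hp, hq]
    | monomial k a =>
      rw [aeval_monomial, ← C_mul_X_pow_eq_monomial, mul_assoc, ← smul_eq_C_mul, map_smul,
        map_smul, ← hpow, ← Algebra.smul_def]
      rfl
  refine ⟨T, ?_, ?_, ?_⟩
  · refine ContinuousLinearMap.opNorm_le_bound _ zero_le_one fun x => ?_
    obtain ⟨v, rfl⟩ := e.surjective x
    rw [one_mul, ← sq_le_sq₀ (norm_nonneg _) (norm_nonneg _), ← hπid v, hT, hnorm, hnorm, hπid, hπ]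
    exact (NN_mod_le s hs _).trans (NN_X_mul s _).le
  · ext1 x
    obtain ⟨v, rfl⟩ := e.surjective x
    rw [← hπid v, hae]
    have : π' (PP s * v) = 0 := by
      apply Subtype.ext
      rw [hπ]
      exact (modByMonic_eq_zero_iff_dvd (PP_monic s)).2 (Dvd.intro _ rfl)
    simp [this]
  · intro g q q' hq hq'
    let v : degreeLT ℂ s.card := ⟨q, mem_degreeLT.2 hq⟩
    let v' : degreeLT ℂ s.card := ⟨q', mem_degreeLT.2 hq'⟩
    have h1 : BB s q' (g * q) = inner ℂ (e v') (aeval T g (e v)) := by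
      rw [← hπid v, hae, he', hπ, ← BB_conj s (g * q), ← BB_conj s (_ %ₘ _), BB_mod s hs _ _ hq']
    have h2 : (inner ℂ (e v') (aeval T g (e v))).re ≤ ‖e v'‖ * (‖aeval T g‖ * ‖e v‖) :=
      (Complex.re_le_norm _).trans ((norm_inner_le_norm _ _).trans
        (mul_le_mul_of_nonneg_left (ContinuousLinearMap.le_opNorm _ _) (norm_nonneg _)))
    have h3 : NN s q = ‖e v‖ ^ 2 := (hnorm v).symm
    have h4 : NN s q' = ‖e v'‖ ^ 2 := (hnorm v').symm
    rw [h1, h3, h4]
    nlinarith [mul_nonneg (norm_nonneg (aeval T g)) (sq_nonneg (‖e v‖ - ‖e v'‖))]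

end Pool.Agent.H94.Ptak
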