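import Pool.Agent.H94.PtakExpl
import Pool.Agent.H94.PtakDefs3

open Complex Real Metric Set Polynomial Filter Topology

namespace Pool.Agent.H94.Ptak

open Pool.Agent.H94.PtakD

lemma adm_of_AA {n : ℕ} {r : ℝ} {p : ℂ[X]} (hp : ∀ z, p.IsRoot z → ‖z‖ ≤ r) {T : Op n}
    (hT : T ∈ AA n p) : T ∈ Adm n r := by
  refine ⟨hT.1, ?_⟩
  unfold spectralRadius
  refine iSup₂_le fun k hk => ?_
  have h1 : p.eval k ∈ spectrum ℂ (aeval T p) :=
    spectrum.subset_polynomial_aeval T p ⟨k, hk, rfl⟩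
  rw [hT.2] at h1
  have h2 : p.eval k = 0 := by
    by_contra hne
    apply h1
    rw [spectrum.mem_resolventSet_iff, sub_zero]
    exact (IsUnit.mk0 _ hne).map _
  have h3 := hp k h2
  rw [← ENNReal.ofReal_coe_nnreal]
  exact ENNReal.ofReal_le_ofReal h3

lemma AA_of_adm {n : ℕ} (hn : 1 ≤ n) {r : ℝ} (hr : 0 ≤ r) {T : Op n} (hT : T ∈ Adm n r) :
    ∃ φ ∈ FF r, T ∈ AA n φ := by
  haveI : Nonempty (Fin n) := ⟨⟨0, hn⟩⟩
  have hint : IsIntegral ℂ T := Algebra.IsIntegral.isIntegral T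
  refine ⟨minpoly ℂ T, ⟨minpoly.degree_pos hint, fun z hz => ?_⟩, hT.1, minpoly.aeval ℂ T⟩
  have hz' : z ∈ spectrum ℂ T := by
    obtain ⟨q, hq⟩ := dvd_iff_isRoot.2 hz
    rw [spectrum.mem_iff]
    intro hu
    have h0 := minpoly.aeval ℂ T
    have hu' : IsUnit (T - algebraMap ℂ (Op n) z) := by
      have := hu.neg
      rwa [neg_sub] at this
    rw [hq, map_mul, map_sub, aeval_X, aeval_C, hu'.mul_right_eq_zero] at h0
    have hq0 : q ≠ 0 := by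
      rintro rfl
      exact minpoly.ne_zero hint (by rw [hq, mul_zero])
    have h1 := natDegree_le_of_dvd (minpoly.dvd ℂ T h0) hq0
    have h2 : (minpoly ℂ T).natDegree = 1 + q.natDegree := by
      conv_lhs => rw [hq]
      rw [natDegree_mul (X_sub_C_ne_zero z) hq0, natDegree_X_sub_C]
    omega
  have h1 : (‖z‖₊ : ENNReal) ≤ spectralRadius ℂ T :=
    le_iSup₂ (f := fun k (_ : k ∈ spectrum ℂ T) => (‖k‖₊ : ENNReal)) z hz'
  have h2 := h1.trans hT.2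
  rw [← ENNReal.ofReal_coe_nnreal, ENNReal.ofReal_le_ofReal_iff hr] at h2
  exact h2

theorem opform {n : ℕ} (hn : 1 ≤ n) {r : ℝ} (hr0 : 0 < r) (hr1 : r < 1) {h : ℂ → ℂ}
    (hh : DifferentiableOn ℂ h (ball 0 1)) :
    (∃ a : ℂ, ‖a‖ = r ∧ ∀ b : ℂ, ‖b‖ = r → ‖funCalc h (modelT n b)‖ ≤ ‖funCalc h (modelT n a)‖) ∧
    (∀ a : ℂ, ‖a‖ = r →
      (∀ b : ℂ, ‖b‖ = r → ‖funCalc h (modelT n b)‖ ≤ ‖funCalc h (modelT n a)‖) →
      IsGreatest ((fun T => ‖funCalc h T‖) '' Adm n r) ‖funCalc h (modelT n a)‖ ∧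
      MM n r h = ‖funCalc h (modelT n a)‖ ∧ modelT n a ∈ AA n ((X - C a) ^ n) ∧
      CC n ((X - C a) ^ n) h = MM n r h ∧ IsWorst n r h ((X - C a) ^ n)) ∧
    (∀ T ∈ Adm n r, Summable (fun k : ℕ => (iteratedDeriv k h 0 / (k.factorial : ℂ)) • T ^ k)) ∧
    (∀ m : ℕ, h = (fun z => z ^ m) →
      MM n r h = ‖modelT n r ^ m‖ ∧ IsWorst n r h ((X - C (r : ℂ)) ^ n)) := by
  have hA : AnalyticOnNhd ℂ h (closedBall 0 r) :=
    (hh.analyticOnNhd isOpen_ball).mono (closedBall_subset_ball hr1)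
  obtain ⟨h1, h2, h3, h4⟩ := determine hn hr0 hr1 hA
  have hPF : ∀ p ∈ PSet n r, p ∈ FF r := fun p hp =>
    ⟨by rw [hp.1]; exact_mod_cast hn, hp.2⟩
  have hmem : ∀ a : ℂ, ‖a‖ = r → (X - C a) ^ n ∈ PSet n r := fun a ha =>
    ⟨by simp [degree_pow, degree_X_sub_C], (h1 a ha).1.2⟩
  have part2 : ∀ a : ℂ, ‖a‖ = r →
      (∀ b : ℂ, ‖b‖ = r → ‖funCalc h (modelT n b)‖ ≤ ‖funCalc h (modelT n a)‖) →
      IsGreatest ((fun T => ‖funCalc h T‖) '' Adm n r) ‖funCalc h (modelT n a)‖ ∧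
      MM n r h = ‖funCalc h (modelT n a)‖ ∧ modelT n a ∈ AA n ((X - C a) ^ n) ∧
      CC n ((X - C a) ^ n) h = MM n r h ∧ IsWorst n r h ((X - C a) ^ n) := by
    intro a ha hmax
    have hg : IsGreatest ((fun T => ‖funCalc h T‖) '' Adm n r) ‖funCalc h (modelT n a)‖ := by
      refine ⟨⟨_, adm_of_AA (h1 a ha).1.2 (h1 a ha).2.1, rfl⟩, ?_⟩
      rintro _ ⟨T, hT, rfl⟩
      obtain ⟨φ, hφ, hT'⟩ := AA_of_adm hn hr0.le hT
      exact ((h3 a ha hmax φ hφ).2 T hT').2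
    refine ⟨hg, hg.csSup_eq, (h1 a ha).2.1, ?_, hmem a ha, fun q hq => (h3 a ha hmax q (hPF q hq)).1⟩
    rw [(h1 a ha).2.2]; exact hg.csSup_eq.symm
  have hrn : ‖(r : ℂ)‖ = r := by simp [abs_of_pos hr0]
  refine ⟨h2, part2, fun T hT => ?_, fun m hm => ?_⟩
  · obtain ⟨a, ha, hmax⟩ := h2
    obtain ⟨φ, hφ, hT'⟩ := AA_of_adm hn hr0.le hT
    exact ((h3 a ha hmax φ hφ).2 T hT').1
  · have := part2 r hrn (fun b hb => by
      rw [← (h1 b hb).2.2, ← (h1 r hrn).2.2]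
      exact h4 m hm _ (h1 b hb).1)
    refine ⟨?_, this.2.2.2.2⟩
    rw [this.2.1, hm, funCalc_pow]

end Pool.Agent.H94.Ptak
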