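import Mathlib

open Complex Real Metric Set

namespace Pool.Agent.H94.Ptak

lemma pt_feyn (i : ℕ) (A b : ℝ) (hA : 0 < A) (hb : 0 < b) :
    ∫ t in (0 : ℝ)..1, ((i + 1 : ℝ) * t ^ i / (t * A + (1 - t) * b) ^ (i + 2))
      = 1 / (A ^ (i + 1) * b) := by
  have hpos : ∀ t ∈ uIcc (0 : ℝ) 1, 0 < t * A + (1 - t) * b := by
    intro t ht
    rw [uIcc_of_le zero_le_one] at ht
    rcases eq_or_lt_of_le ht.1 with h | h
    · rw [← h]; simpa using hb
    · have := mul_pos h hA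
      have := mul_nonneg (sub_nonneg.2 ht.2) hb.le
      linarith
  have hder : ∀ t ∈ uIcc (0 : ℝ) 1,
      HasDerivAt (fun t : ℝ => (t / (t * A + (1 - t) * b)) ^ (i + 1) / b)
        ((i + 1 : ℝ) * t ^ i / (t * A + (1 - t) * b) ^ (i + 2)) t := by
    intro t ht
    have h0 := (hpos t ht).ne'
    have h1 : HasDerivAt (fun t : ℝ => t * A + (1 - t) * b) (A - b) t := by
      have := ((hasDerivAt_id' t).mul_const A).fun_add
        (((hasDerivAt_id' t).const_sub 1).mul_const b)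
      exact this.congr_deriv (by ring)
    have h2 := (((hasDerivAt_id' t).fun_div h1 h0).fun_pow (i + 1)).div_const b
    refine h2.congr_deriv ?_
    simp only [Nat.add_sub_cancel, div_pow]
    push_cast
    field_simp
    ring
  have hcont : ContinuousOn
      (fun t : ℝ => ((i + 1 : ℝ) * t ^ i / (t * A + (1 - t) * b) ^ (i + 2))) (uIcc 0 1) := by
    refine ContinuousOn.div (by fun_prop) (by fun_prop) fun t ht => pow_ne_zero _ (hpos t ht).ne'
  rw [intervalIntegral.integral_eq_sub_of_hasDerivAt hder hcont.intervalIntegrable]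
  simp
  field_simp

lemma step_feyn (i : ℕ) (χ A b : ℝ → ℝ) (hχ : Continuous χ) (hA : Continuous A)
    (hb : Continuous b) (hA0 : ∀ θ, 0 < A θ) (hb0 : ∀ θ, 0 < b θ)
    (h : ∀ t ∈ Icc (0 : ℝ) 1,
      0 ≤ ∫ θ in (0 : ℝ)..2 * π, χ θ / (t * A θ + (1 - t) * b θ) ^ (i + 2)) :
    0 ≤ ∫ θ in (0 : ℝ)..2 * π, χ θ / (A θ ^ (i + 1) * b θ) := by
  have hpos : ∀ t ∈ Icc (0 : ℝ) 1, ∀ θ, 0 < t * A θ + (1 - t) * b θ := by
    intro t ht θ
    rcases eq_or_lt_of_le ht.1 with h | h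
    · rw [← h]; simpa using hb0 θ
    · have := mul_pos h (hA0 θ)
      have := mul_nonneg (sub_nonneg.2 ht.2) (hb0 θ).le
      linarith
  have e1 : ∀ θ, χ θ / (A θ ^ (i + 1) * b θ) = ∫ t in (0 : ℝ)..1,
      χ θ * ((i + 1 : ℝ) * t ^ i / (t * A θ + (1 - t) * b θ) ^ (i + 2)) := by
    intro θ
    rw [intervalIntegral.integral_const_mul, pt_feyn i _ _ (hA0 θ) (hb0 θ)]
    ring
  simp_rw [e1]
  rw [MeasureTheory.intervalIntegral_intervalIntegral_swap]
  · refine intervalIntegral.integral_nonneg zero_le_one fun t ht => ?_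
    have e2 : ∀ θ, χ θ * ((i + 1 : ℝ) * t ^ i / (t * A θ + (1 - t) * b θ) ^ (i + 2))
        = ((i + 1 : ℝ) * t ^ i) * (χ θ / (t * A θ + (1 - t) * b θ) ^ (i + 2)) := by
      intro θ; ring
    simp_rw [e2]
    rw [intervalIntegral.integral_const_mul]
    exact mul_nonneg (mul_nonneg (by positivity) (pow_nonneg ht.1 _)) (h t ht)
  · have hc : ContinuousOn (Function.uncurry fun (θ t : ℝ) =>
        χ θ * ((i + 1 : ℝ) * t ^ i / (t * A θ + (1 - t) * b θ) ^ (i + 2)))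
        (uIcc 0 (2 * π) ×ˢ uIcc 0 1) := by
      refine ContinuousOn.mul (by fun_prop) (ContinuousOn.div (by fun_prop) (by fun_prop) ?_)
      rintro ⟨θ, t⟩ ht
      have ht2 : t ∈ Icc (0 : ℝ) 1 := by simpa [uIcc_of_le zero_le_one] using ht.2
      exact pow_ne_zero _ (hpos t ht2 θ).ne'
    exact (hc.integrableOn_compact (isCompact_uIcc.prod isCompact_uIcc)).mono_set
      (Set.prod_mono uIoc_subset_uIcc uIoc_subset_uIcc)

/-- the point of the unit circle -/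
noncomputable abbrev ee (θ : ℝ) : ℂ := circleMap 0 1 θ

lemma norm_ee (θ : ℝ) : ‖ee θ‖ = 1 := by simp [ee]

def Cone (r : ℝ) : Set (ℝ → ℝ) :=
  {L | ∃ (α : ℝ) (β : ℂ), 0 < α ∧ ‖β‖ * (1 + r ^ 2) ≤ r * α ∧
    L = fun θ => α - 2 * (ee θ * (starRingEnd ℂ) β).re}

lemma normsq_sub (z a : ℂ) (hz : ‖z‖ = 1) :
    ‖z - a‖ ^ 2 = 1 + ‖a‖ ^ 2 - 2 * (z * (starRingEnd ℂ) a).re := by
  rw [← Complex.normSq_eq_norm_sq, Complex.normSq_sub, Complex.normSq_eq_norm_sq,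
    Complex.normSq_eq_norm_sq, hz]
  ring

lemma mem_cone {r : ℝ} (hr1 : r < 1) {a : ℂ} (ha : ‖a‖ ≤ r) :
    (fun θ => ‖ee θ - a‖ ^ 2) ∈ Cone r := by
  refine ⟨1 + ‖a‖ ^ 2, a, by positivity, ?_, ?_⟩
  · have h0 := norm_nonneg a
    have h1 : 0 ≤ (r - ‖a‖) * (1 - r * ‖a‖) := mul_nonneg (by linarith) (by nlinarith)
    nlinarith
  · funext θ; exact normsq_sub _ _ (norm_ee θ)

lemma cone_repr {r : ℝ} (hr0 : 0 ≤ r) {L : ℝ → ℝ} (hL : L ∈ Cone r) :
    ∃ (l : ℝ) (a : ℂ), 0 < l ∧ ‖a‖ ≤ r ∧ L = fun θ => l * ‖ee θ - a‖ ^ 2 := by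
  obtain ⟨α, β, hα, hβ, rfl⟩ := hL
  have hc : ContinuousOn (fun s : ℝ => s * α - ‖β‖ * (1 + s ^ 2)) (Icc 0 r) := by fun_prop
  have := intermediate_value_Icc hr0 hc
  obtain ⟨s, hs, hs0⟩ := this (show (0 : ℝ) ∈ _ from ⟨by simp, by simp; linarith⟩)
  simp only at hs0
  have h1 : 0 < 1 + s ^ 2 := by positivity
  have hl : 0 < α / (1 + s ^ 2) := by positivity
  have hn : ‖β / ((α / (1 + s ^ 2) : ℝ) : ℂ)‖ = s := by
    rw [norm_div, Complex.norm_real, Real.norm_of_nonneg hl.le]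
    field_simp
    linarith
  refine ⟨α / (1 + s ^ 2), β / ((α / (1 + s ^ 2) : ℝ) : ℂ), hl, hn ▸ hs.2, ?_⟩
  funext θ
  rw [normsq_sub _ _ (norm_ee θ), hn, map_div₀, Complex.conj_ofReal, ← mul_div_assoc,
    Complex.div_ofReal_re]
  field_simp

lemma cone_convex {r : ℝ} {A B : ℝ → ℝ} (hA : A ∈ Cone r) (hB : B ∈ Cone r) {t : ℝ}
    (ht : t ∈ Icc (0 : ℝ) 1) : (fun θ => t * A θ + (1 - t) * B θ) ∈ Cone r := by
  obtain ⟨α, β, hα, hβ, rfl⟩ := hA
  obtain ⟨α', β', hα', hβ', rfl⟩ := hB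
  have ht1 : 0 ≤ 1 - t := sub_nonneg.2 ht.2
  refine ⟨t * α + (1 - t) * α', (t : ℂ) * β + ((1 - t : ℝ) : ℂ) * β', ?_, ?_, ?_⟩
  · rcases eq_or_lt_of_le ht.1 with h | h
    · rw [← h]; simpa using hα'
    · have := mul_pos h hα
      have := mul_nonneg ht1 hα'.le
      linarith
  · have h1 : ‖(t : ℂ) * β + ((1 - t : ℝ) : ℂ) * β'‖ ≤ t * ‖β‖ + (1 - t) * ‖β'‖ := by
      refine (norm_add_le _ _).trans ?_
      rw [norm_mul, norm_mul, Complex.norm_real, Complex.norm_real, Real.norm_of_nonneg ht.1,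
        Real.norm_of_nonneg ht1]
    have h2 := mul_le_mul_of_nonneg_left hβ ht.1
    have h3 := mul_le_mul_of_nonneg_left hβ' ht1
    have h4 := mul_le_mul_of_nonneg_right h1 (by positivity : (0 : ℝ) ≤ 1 + r ^ 2)
    nlinarith
  · funext θ
    simp only [map_add, map_mul, Complex.conj_ofReal, mul_add, Complex.add_re]
    have e1 : (ee θ * ((t : ℂ) * (starRingEnd ℂ) β)).re = t * (ee θ * (starRingEnd ℂ) β).re := by
      rw [mul_left_comm, Complex.re_ofReal_mul]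
    have e2 : (ee θ * (((1 - t : ℝ) : ℂ) * (starRingEnd ℂ) β')).re
        = (1 - t) * (ee θ * (starRingEnd ℂ) β').re := by
      rw [mul_left_comm, Complex.re_ofReal_mul]
    rw [e1, e2]; ring

lemma sub_ne {z a : ℂ} (hz : ‖z‖ = 1) (ha : ‖a‖ < 1) : z - a ≠ 0 := by
  intro h
  rw [sub_eq_zero] at h
  rw [h] at hz; linarith

lemma cone_cont_pos {r : ℝ} (hr0 : 0 ≤ r) (hr1 : r < 1) {L : ℝ → ℝ} (hL : L ∈ Cone r) :
    Continuous L ∧ ∀ θ, 0 < L θ := by
  obtain ⟨l, a, hl, ha, rfl⟩ := cone_repr hr0 hL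
  refine ⟨by fun_prop, fun θ => mul_pos hl (pow_pos (norm_pos_iff.2 ?_) 2)⟩
  exact sub_ne (norm_ee θ) (ha.trans_lt hr1)

/-- the weight `∏ |z - a|^2`. -/
noncomputable def W (s : Multiset ℂ) (z : ℂ) : ℝ := (s.map fun a => ‖z - a‖ ^ 2).prod

lemma W_cons (a : ℂ) (s : Multiset ℂ) (z : ℂ) : W (a ::ₘ s) z = ‖z - a‖ ^ 2 * W s z := by
  simp [W]

lemma W_replicate (n : ℕ) (a z : ℂ) : W (Multiset.replicate n a) z = (‖z - a‖ ^ 2) ^ n := by
  simp [W]

lemma W_cont (s : Multiset ℂ) : Continuous (W s) := by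
  induction s using Multiset.induction_on with
  | empty =>
    have : W 0 = fun _ => 1 := by funext z; simp [W]
    rw [this]; exact continuous_const
  | cons a s ih =>
    have : W (a ::ₘ s) = fun z => ‖z - a‖ ^ 2 * W s z := funext (W_cons a s)
    rw [this]; fun_prop

lemma W_pos (s : Multiset ℂ) (hs : ∀ a ∈ s, ‖a‖ < 1) {z : ℂ} (hz : ‖z‖ = 1) : 0 < W s z := by
  refine Multiset.prod_pos fun x hx => ?_
  obtain ⟨a, ha, rfl⟩ := Multiset.mem_map.1 hx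
  exact pow_pos (norm_pos_iff.2 (sub_ne hz (hs a ha))) 2

lemma feyn {r : ℝ} (hr0 : 0 ≤ r) (hr1 : r < 1) (s : Multiset ℂ) :
    (∀ a ∈ s, ‖a‖ ≤ r) → ∀ (i : ℕ) (χ : ℝ → ℝ), Continuous χ →
      (∀ L ∈ Cone r, 0 ≤ ∫ θ in (0 : ℝ)..2 * π, χ θ / L θ ^ (i + 1 + s.card)) →
      ∀ A ∈ Cone r, 0 ≤ ∫ θ in (0 : ℝ)..2 * π, χ θ / (A θ ^ (i + 1) * W s (ee θ)) := by
  induction s using Multiset.induction_on with
  | empty => intro _ i χ _ h A hA; simpa [W] using h A hA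
  | cons b s ih =>
    intro hs i χ hχ h A hA
    have hs' : ∀ a ∈ s, ‖a‖ ≤ r := fun a ha => hs a (Multiset.mem_cons_of_mem ha)
    have hb := mem_cone hr1 (hs b (Multiset.mem_cons_self b s))
    have hW : ∀ θ, 0 < W s (ee θ) :=
      fun θ => W_pos s (fun a ha => (hs' a ha).trans_lt hr1) (norm_ee θ)
    have ih' := ih hs' (i + 1) χ hχ (by
      intro L hL
      have := h L hL
      rw [Multiset.card_cons] at this
      convert this using 4
      ring)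
    have hcW : Continuous fun θ => W s (ee θ) := (W_cont s).comp (continuous_circleMap 0 1)
    have key := step_feyn i (fun θ => χ θ / W s (ee θ)) A (fun θ => ‖ee θ - b‖ ^ 2)
      (hχ.div hcW fun θ => (hW θ).ne') (cone_cont_pos hr0 hr1 hA).1 (cone_cont_pos hr0 hr1 hb).1
      (cone_cont_pos hr0 hr1 hA).2 (cone_cont_pos hr0 hr1 hb).2 (by
        intro t ht
        have := ih' _ (cone_convex hA hb ht)
        convert this using 3
        rw [div_div, mul_comm])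
    convert key using 3
    rw [W_cons, div_div]; ring

end Pool.Agent.H94.Ptak
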