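import Pool.Agent.H94.PtakPos

open Complex Real Metric Set

namespace Pool.Agent.H94.Ptak

/-- integral over the unit circle -/
noncomputable def J {E : Type*} [NormedAddCommGroup E] [NormedSpace ℝ E] (g : ℂ → E) : E :=
  ∫ θ in (0 : ℝ)..2 * π, g (ee θ)

lemma J_eq {E : Type*} [NormedAddCommGroup E] [NormedSpace ℝ E] (g : ℂ → E) :
    J g = (2 * π) • circleAverage g 0 1 := by
  rw [circleAverage_def, smul_smul, mul_inv_cancel₀ (by positivity), one_smul]; rfl

lemma cont_ee {E : Type*} [TopologicalSpace E] {g : ℂ → E} (hg : ContinuousOn g (sphere 0 1)) :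
    Continuous fun θ => g (ee θ) :=
  hg.comp_continuous (continuous_circleMap 0 1) fun θ => by simp

lemma J_congr {E : Type*} [NormedAddCommGroup E] [NormedSpace ℝ E] {g h : ℂ → E}
    (e : ∀ z, ‖z‖ = 1 → g z = h z) : J g = J h := by
  unfold J
  congr 1
  funext θ
  exact e _ (norm_ee θ)

lemma one_var {r : ℝ} (hr0 : 0 < r) (hr1 : r < 1) (χ : ℂ → ℝ) (hχ : ContinuousOn χ (sphere 0 1))
    (h : ∀ a : ℂ, ‖a‖ ≤ r → 0 ≤ J fun z => χ z / ‖z - a‖ ^ 2) {c : ℂ} (hc : ‖c‖ < r)
    (h0 : (J fun z => χ z / ‖z - c‖ ^ 2) = 0) : (J fun z => χ z / ‖z - (r : ℂ)‖ ^ 2) = 0 := by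
  have hint : CircleIntegrable χ 0 1 := hχ.circleIntegrable zero_le_one
  have hint' : CircleIntegrable (fun z => (χ z : ℂ)) 0 1 :=
    (Complex.continuous_ofReal.comp_continuousOn hχ).circleIntegrable zero_le_one
  set F : ℂ → ℂ := fun w => circleAverage (fun ζ => herglotzRieszKernel 0 w ζ • (χ ζ : ℂ)) 0 1
    with hF
  have hFd : DifferentiableOn ℂ F (ball 0 1) :=
    differentiableOn_circleAverage_herglotzRieszKernel_smul hint'
  have hre : ∀ a : ℂ, ‖a‖ < 1 →
      (2 * π) * (F a).re = (1 - ‖a‖ ^ 2) * J fun z => χ z / ‖z - a‖ ^ 2 := by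
    intro a ha
    rw [hF]
    simp only
    rw [re_circleAverage_herglotzRieszKernel_smul hint (by simpa using ha),
      ← poissonKernel_eq_re_herglotzRieszKernel, ← smul_eq_mul, ← J_eq]
    unfold J
    rw [← intervalIntegral.integral_const_mul]
    congr 1
    funext θ
    simp only [Pi.smul_apply', poissonKernel, sub_zero, norm_ee, smul_eq_mul]
    ring
  have hG : DiffContOnCl ℂ (fun w => cexp (-F w)) (ball 0 r) := by
    refine DifferentiableOn.diffContOnCl ?_
    rw [closure_ball _ hr0.ne']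
    exact (hFd.mono (closedBall_subset_ball hr1)).neg.cexp
  have hpi : 0 < 2 * π := by positivity
  have hFc : (F c).re = 0 := by
    have := hre c (hc.trans hr1)
    rw [h0, mul_zero] at this
    exact (mul_eq_zero.1 this).resolve_left hpi.ne'
  have hmax : IsMaxOn (norm ∘ fun w => cexp (-F w)) (ball 0 r) c := by
    intro a ha
    have ha' : ‖a‖ < r := by simpa using ha
    have h1 := hre a (ha'.trans hr1)
    have h2 : 0 ≤ (1 - ‖a‖ ^ 2) * J fun z => χ z / ‖z - a‖ ^ 2 :=
      mul_nonneg (by nlinarith [norm_nonneg a]) (h a ha'.le)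
    have h3 : 0 ≤ (F a).re := by
      by_contra hneg
      push Not at hneg
      nlinarith
    simp only [mem_setOf_eq, Function.comp, Complex.norm_exp, neg_re, hFc]
    exact Real.exp_le_exp.2 (by linarith)
  have key := Complex.norm_eqOn_closure_of_isPreconnected_of_isMaxOn
    (convex_ball (0 : ℂ) r).isPreconnected isOpen_ball hG (by simpa using hc) hmax
    (x := (r : ℂ)) (by rw [closure_ball _ hr0.ne']; simp [abs_of_pos hr0])
  simp only [Function.comp, Function.const, Complex.norm_exp, neg_re, hFc, Real.exp_eq_exp] at key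
  have hrn : ‖(r : ℂ)‖ = r := by simp [abs_of_pos hr0]
  have h1 := hre r (by rw [hrn]; exact hr1)
  have h2 : (F r).re = 0 := by linarith
  rw [h2, mul_zero, hrn] at h1
  exact (mul_eq_zero.1 h1.symm).resolve_left (by nlinarith)

lemma contOn_div_W {χ : ℂ → ℝ} (hχ : ContinuousOn χ (sphere 0 1)) (s : Multiset ℂ)
    (hs : ∀ a ∈ s, ‖a‖ < 1) : ContinuousOn (fun z => χ z / W s z) (sphere 0 1) :=
  hχ.div (W_cont s).continuousOn fun z hz => (W_pos s hs (by simpa using hz)).ne'

lemma diag_to_all {r : ℝ} (hr0 : 0 ≤ r) (hr1 : r < 1) {n : ℕ} (hn : 1 ≤ n) (φ : ℂ → ℝ)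
    (hφ : ContinuousOn φ (sphere 0 1))
    (h : ∀ b : ℂ, ‖b‖ ≤ r → 0 ≤ J fun z => φ z / (‖z - b‖ ^ 2) ^ n)
    (s : Multiset ℂ) (hcard : s.card = n) (hs : ∀ a ∈ s, ‖a‖ ≤ r) :
    0 ≤ J fun z => φ z / W s z := by
  obtain ⟨a, ha⟩ := Multiset.card_pos_iff_exists_mem.1 (show 0 < s.card by omega)
  obtain ⟨s', rfl⟩ := Multiset.exists_cons_of_mem ha
  have hs' : ∀ a ∈ s', ‖a‖ ≤ r := fun a ha => hs a (Multiset.mem_cons_of_mem ha)
  have key := feyn hr0 hr1 s' hs' 0 (fun θ => φ (ee θ)) (cont_ee hφ) (by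
    intro L hL
    obtain ⟨l, b, hl, hb, rfl⟩ := cone_repr hr0 hL
    have e : 0 + 1 + s'.card = n := by rw [Multiset.card_cons] at hcard; omega
    rw [e]
    have e2 : ∀ θ, φ (ee θ) / (l * ‖ee θ - b‖ ^ 2) ^ n
        = (l ^ n)⁻¹ * (φ (ee θ) / (‖ee θ - b‖ ^ 2) ^ n) := by
      intro θ; rw [mul_pow]; field_simp
    simp_rw [e2]
    rw [intervalIntegral.integral_const_mul]
    exact mul_nonneg (by positivity) (h b hb)) _ (mem_cone hr1 (hs a ha))
  unfold J
  convert key using 3
  simp [W_cons]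

lemma cont_diag {r : ℝ} (hr1 : r < 1) (n : ℕ) (φ : ℂ → ℝ) (hφ : ContinuousOn φ (sphere 0 1)) :
    Continuous fun b : closedBall (0 : ℂ) r => J fun z => φ z / (‖z - b‖ ^ 2) ^ n := by
  unfold J
  refine intervalIntegral.continuous_parametric_intervalIntegral_of_continuous' ?_ _ _
  have h1 := cont_ee hφ
  have h2 : Continuous ee := continuous_circleMap 0 1
  refine Continuous.div (h1.comp continuous_snd) (by fun_prop) ?_
  rintro ⟨b, θ⟩
  have hb : ‖(b : ℂ)‖ ≤ r := mem_closedBall_zero_iff.1 b.2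
  exact pow_ne_zero _ (pow_ne_zero _ (norm_ne_zero_iff.2 (sub_ne (norm_ee θ) (hb.trans_lt hr1))))

lemma J_one_pos (s : Multiset ℂ) (hs : ∀ a ∈ s, ‖a‖ < 1) : 0 < J fun z => 1 / W s z := by
  unfold J
  refine intervalIntegral.intervalIntegral_pos_of_pos ?_ ?_ (by positivity)
  · exact (cont_ee (contOn_div_W continuousOn_const s hs)).intervalIntegrable _ _
  · intro θ
    exact one_div_pos.2 (W_pos s hs (norm_ee θ))

lemma J_sub_const {φ : ℂ → ℝ} (hφ : ContinuousOn φ (sphere 0 1)) (m : ℝ) (s : Multiset ℂ)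
    (hs : ∀ a ∈ s, ‖a‖ < 1) :
    (J fun z => (φ z - m) / W s z) = (J fun z => φ z / W s z) - m * J fun z => 1 / W s z := by
  unfold J
  rw [← intervalIntegral.integral_const_mul, ← intervalIntegral.integral_sub]
  · congr 1; funext θ; ring
  · exact (cont_ee (contOn_div_W hφ s hs)).intervalIntegrable _ _
  · exact (continuous_const.mul
      (cont_ee (contOn_div_W continuousOn_const s hs))).intervalIntegrable _ _

theorem pos_transfer {r : ℝ} (hr0 : 0 < r) (hr1 : r < 1) {n : ℕ} (hn : 1 ≤ n) (φ : ℂ → ℝ)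
    (hφ : ContinuousOn φ (sphere 0 1))
    (h : ∀ b : ℂ, ‖b‖ = r → 0 ≤ J fun z => φ z / W (Multiset.replicate n b) z)
    (s : Multiset ℂ) (hcard : s.card = n) (hs : ∀ a ∈ s, ‖a‖ ≤ r) :
    0 ≤ J fun z => φ z / W s z := by
  have hrep : ∀ b : ℂ, ‖b‖ ≤ r → ∀ k, ∀ a ∈ Multiset.replicate k b, ‖a‖ < 1 := by
    intro b hb k a ha
    rw [Multiset.eq_of_mem_replicate ha]; exact hb.trans_lt hr1
  have hD : ∀ b : ℂ, ‖b‖ ≤ r → 0 < J fun z => 1 / W (Multiset.replicate n b) z :=
    fun b hb => J_one_pos _ (hrep b hb n)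
  have hcont : Continuous fun b : closedBall (0 : ℂ) r =>
      (J fun z => φ z / W (Multiset.replicate n (b : ℂ)) z) /
        J fun z => 1 / W (Multiset.replicate n (b : ℂ)) z := by
    refine Continuous.div ?_ ?_ fun b => (hD b (mem_closedBall_zero_iff.1 b.2)).ne'
    · simp_rw [W_replicate]; exact cont_diag hr1 n φ hφ
    · simp_rw [W_replicate]; exact cont_diag hr1 n (fun _ => 1) continuousOn_const
  haveI : Nonempty (closedBall (0 : ℂ) r) := ⟨⟨0, by simpa using hr0.le⟩⟩
  obtain ⟨c, -, hc⟩ := isCompact_univ.exists_isMinOn univ_nonempty hcont.continuousOn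
  set m := (J fun z => φ z / W (Multiset.replicate n (c : ℂ)) z) /
        J fun z => 1 / W (Multiset.replicate n (c : ℂ)) z with hm
  have hcr : ‖(c : ℂ)‖ ≤ r := mem_closedBall_zero_iff.1 c.2
  have hψ : ContinuousOn (fun z => φ z - m) (sphere 0 1) := hφ.sub continuousOn_const
  have hdiag : ∀ b : ℂ, ‖b‖ ≤ r → 0 ≤ J fun z => (φ z - m) / (‖z - b‖ ^ 2) ^ n := by
    intro b hb
    simp_rw [← W_replicate]
    rw [J_sub_const hφ m _ (hrep b hb n)]
    have h1 : m ≤ _ := hc (mem_univ (⟨b, by simpa using hb⟩ : closedBall (0 : ℂ) r))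
    rw [le_div_iff₀ (hD b hb)] at h1
    linarith
  have hall := diag_to_all hr0.le hr1 hn _ hψ hdiag
  have hc0 : (J fun z => (φ z - m) / W (Multiset.replicate n (c : ℂ)) z) = 0 := by
    rw [J_sub_const hφ m _ (hrep c hcr n), hm, div_mul_cancel₀ _ (hD c hcr).ne', sub_self]
  have hrn : ‖(r : ℂ)‖ = r := by simp [abs_of_pos hr0]
  have hex : ∃ b : ℂ, ‖b‖ = r ∧ (J fun z => (φ z - m) / W (Multiset.replicate n b) z) = 0 := by
    rcases eq_or_lt_of_le hcr with h1 | h1
    · exact ⟨c, h1, hc0⟩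
    refine ⟨r, hrn, ?_⟩
    have ind : ∀ k j : ℕ, k + j = n → (J fun z => (φ z - m) /
        W (Multiset.replicate k (r : ℂ) + Multiset.replicate j (c : ℂ)) z) = 0 := by
      intro k
      induction k with
      | zero => intro j hj; rw [zero_add] at hj; subst hj; simpa using hc0
      | succ k ih =>
        intro j hj
        have ih' := ih (j + 1) (by omega)
        set t := Multiset.replicate k (r : ℂ) + Multiset.replicate j (c : ℂ) with ht
        have htr : ∀ a ∈ t, ‖a‖ ≤ r := by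
          intro a ha
          rcases Multiset.mem_add.1 ha with ha | ha
          · rw [Multiset.eq_of_mem_replicate ha, hrn]
          · rw [Multiset.eq_of_mem_replicate ha]; exact hcr
        have e1 : Multiset.replicate k (r : ℂ) + Multiset.replicate (j + 1) (c : ℂ)
            = (c : ℂ) ::ₘ t := by
          rw [Multiset.replicate_succ, Multiset.add_cons]
        have e2 : Multiset.replicate (k + 1) (r : ℂ) + Multiset.replicate j (c : ℂ)
            = (r : ℂ) ::ₘ t := by
          rw [Multiset.replicate_succ, Multiset.cons_add]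
        rw [e1] at ih'
        rw [e2]
        have e3 : ∀ a : ℂ, (fun z => (φ z - m) / W (a ::ₘ t) z)
            = fun z => (φ z - m) / W t z / ‖z - a‖ ^ 2 := by
          intro a; funext z; rw [W_cons, div_div, mul_comm]
        rw [e3] at ih' ⊢
        refine one_var hr0 hr1 _ (contOn_div_W hψ t fun a ha => (htr a ha).trans_lt hr1) ?_ h1 ih'
        intro a ha
        rw [← e3]
        refine hall _ (by simp [ht]; omega) fun x hx => ?_
        rcases Multiset.mem_cons.1 hx with rfl | hx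
        · exact ha
        · exact htr x hx
    simpa using ind n 0 rfl
  obtain ⟨b, hb, hb0⟩ := hex
  rw [J_sub_const hφ m _ (hrep b hb.le n)] at hb0
  have hm0 : 0 ≤ m := by
    have h1 := h b hb
    have h2 := hD b hb.le
    by_contra hneg
    push Not at hneg
    nlinarith
  have h1 := hall s hcard hs
  have hs1 : ∀ a ∈ s, ‖a‖ < 1 := fun a ha => (hs a ha).trans_lt hr1
  rw [J_sub_const hφ m _ hs1] at h1
  have h2 := mul_nonneg hm0 (J_one_pos s hs1).le
  linarith

end Pool.Agent.H94.Ptak
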