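import Pool.Agent.H94.PtakModel

open Complex Real Metric Set Polynomial

namespace Pool.Agent.H94.Ptak

abbrev HH (n : ℕ) := EuclideanSpace ℂ (Fin n)

lemma res_mono {n : ℕ} (T : HH n →L[ℂ] HH n) (x : HH n) (k : ℕ) :
    ∃ Q : ℂ → HH n, (∀ l : HH n →L[ℂ] ℂ, ∃ q : ℂ[X], q.degree < k ∧ ∀ z, l (Q z) = q.eval z) ∧
      ∀ z, z • Q z - T (Q z) = z ^ k • x - (T ^ k) x := by
  induction k with
  | zero => exact ⟨fun _ => 0, fun l => ⟨0, by simp, by simp⟩, by simp⟩
  | succ k ih =>
    obtain ⟨Q, hQ1, hQ2⟩ := ih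
    refine ⟨fun z => z ^ k • x + T (Q z), fun l => ?_, fun z => ?_⟩
    · obtain ⟨q, hq, hq2⟩ := hQ1 (l.comp T)
      refine ⟨monomial k (l x) + q, ?_, fun z => ?_⟩
      · refine (degree_add_le _ _).trans_lt (max_lt ?_ ?_)
        · exact (degree_monomial_le _ _).trans_lt (by exact_mod_cast Nat.lt_succ_self k)
        · exact hq.trans (by exact_mod_cast Nat.lt_succ_self k)
      · have := hq2 z
        simp only [ContinuousLinearMap.comp_apply] at this
        simp [this, mul_comm]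
    · have h := congrArg T (hQ2 z)
      simp only [map_sub, map_smul] at h
      have e : (T ^ (k + 1)) x = T ((T ^ k) x) := by rw [pow_succ']; rfl
      rw [e, map_add, map_smul, smul_add, smul_smul, ← pow_succ']
      linear_combination (norm := module) h

lemma res_poly {n : ℕ} (T : HH n →L[ℂ] HH n) (x : HH n) (p : ℂ[X]) :
    ∃ Q : ℂ → HH n,
      (∀ l : HH n →L[ℂ] ℂ, ∃ q : ℂ[X], q.degree < p.natDegree ∧ ∀ z, l (Q z) = q.eval z) ∧
      ∀ z, z • Q z - T (Q z) = p.eval z • x - aeval T p x := by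
  choose Q hQ1 hQ2 using res_mono T x
  refine ⟨fun z => ∑ k ∈ Finset.range (p.natDegree + 1), p.coeff k • Q k z, fun l => ?_,
    fun z => ?_⟩
  · choose q hq hq2 using fun k => hQ1 k l
    refine ⟨∑ k ∈ Finset.range (p.natDegree + 1), p.coeff k • q k, ?_, fun z => ?_⟩
    · rw [← mem_degreeLT]
      refine Submodule.sum_mem _ fun k hk => Submodule.smul_mem _ _ (mem_degreeLT.2 ?_)
      exact (hq k).trans_le (by exact_mod_cast Nat.lt_succ_iff.1 (Finset.mem_range.1 hk))
    · simp [hq2, eval_finset_sum]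
  · rw [aeval_eq_sum_range, eval_eq_sum_range, Finset.sum_smul, map_sum, Finset.smul_sum,
      ContinuousLinearMap.sum_apply, ← Finset.sum_sub_distrib, ← Finset.sum_sub_distrib]
    refine Finset.sum_congr rfl fun k _ => ?_
    rw [map_smul, smul_comm, ← smul_sub, hQ2, smul_sub, smul_smul]
    rfl

/-- resolvent vectors on the unit circle -/
structure IsRes {n : ℕ} (s : Multiset ℂ) (T : HH n →L[ℂ] HH n) (x : HH n) (v : ℂ → HH n) :
    Prop where
  rat : ∀ l : HH n →L[ℂ] ℂ, ∃ q : ℂ[X], q.degree < s.card ∧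
    ∀ z, l (v z) = q.eval z / (PP s).eval z
  eqn : ∀ z, ‖z‖ = 1 → T (v z) = z • v z - x

lemma exists_res {n : ℕ} (s : Multiset ℂ) (hs : ∀ a ∈ s, ‖a‖ < 1) (T : HH n →L[ℂ] HH n)
    (hT : aeval T (PP s) = 0) (x : HH n) : ∃ v, IsRes s T x v := by
  obtain ⟨Q, hQ1, hQ2⟩ := res_poly T x (PP s)
  refine ⟨fun z => ((PP s).eval z)⁻¹ • Q z, fun l => ?_, fun z hz => ?_⟩
  · obtain ⟨q, hq, hq2⟩ := hQ1 l
    refine ⟨q, by rwa [PP_natDegree] at hq, fun z => ?_⟩
    rw [map_smul, hq2, smul_eq_mul, div_eq_inv_mul]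
  · have h := hQ2 z
    rw [hT, ContinuousLinearMap.zero_apply, sub_zero] at h
    have h2 : x = ((PP s).eval z)⁻¹ • (z • Q z - T (Q z)) := by
      rw [h, smul_smul, inv_mul_cancel₀ (PP_ne s hs hz), one_smul]
    rw [map_smul, smul_comm z]
    conv_rhs => rw [h2]
    rw [smul_sub]; abel

lemma J_const (c : ℂ) : J (fun _ => c) = 2 * π * c := by
  simp [J]

lemma J_poly (g : ℂ[X]) : J (fun z => g.eval z) = 2 * π * g.eval 0 := by
  rw [J_eq]
  have hd : DiffContOnCl ℂ (fun z => g.eval z) (ball 0 |1|) :=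
    (Polynomial.differentiable g).diffContOnCl
  rw [hd.circleAverage]
  simp

section
variable {n : ℕ} {s : Multiset ℂ} (hs : ∀ a ∈ s, ‖a‖ < 1) {T : HH n →L[ℂ] HH n} {x : HH n}
  {v : ℂ → HH n} (hv : IsRes s T x v)
include hs hv

lemma IsRes.cont (l : HH n →L[ℂ] ℂ) : ContinuousOn (fun z => l (v z)) (sphere 0 1) := by
  obtain ⟨q, -, hq⟩ := hv.rat l
  simp_rw [hq]
  exact ContinuousOn.div (by fun_prop) (by fun_prop) fun z hz => PP_ne s hs (by simpa using hz)

lemma IsRes.orth (l : HH n →L[ℂ] ℂ) (g : ℂ[X]) :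
    J (fun z => l (v z) * (starRingEnd ℂ) (g.eval z)) = 0 := by
  obtain ⟨q, hq1, hq⟩ := hv.rat l
  simp_rw [hq]
  exact Ptak.orth s hs q g hq1

lemma IsRes.mom (k : ℕ) : ∀ l : HH n →L[ℂ] ℂ,
    J (fun z => z ^ (k + 1) * l (v z)) = 2 * π * l ((T ^ k) x) := by
  have step : ∀ (l : HH n →L[ℂ] ℂ) (k : ℕ), J (fun z => z ^ (k + 1) * l (v z))
      = J (fun z => l x * z ^ k) + J (fun z => z ^ k * (l.comp T) (v z)) := by
    intro l k
    have hc := hv.cont hs (l.comp T)
    rw [← J_add (by fun_prop) (ContinuousOn.fun_mul (by fun_prop) hc)]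
    refine J_congr fun z hz => ?_
    simp only [ContinuousLinearMap.comp_apply, hv.eqn z hz, map_sub, map_smul, smul_eq_mul]
    ring
  induction k with
  | zero =>
    intro l
    rw [step]
    have := hv.orth hs (l.comp T) 1
    simp only [eval_one, map_one, mul_one] at this
    simp only [pow_zero, one_mul, mul_one, this, J_const]
    simp
  | succ k ih =>
    intro l
    rw [step, ih, J_mul]
    have := J_poly (X ^ (k + 1))
    simp only [eval_pow, eval_X] at this
    rw [this]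
    have e : (T ^ (k + 1)) x = T ((T ^ k) x) := by rw [pow_succ']; rfl
    simp [e]

lemma IsRes.mom_poly (g : ℂ[X]) (l : HH n →L[ℂ] ℂ) :
    J (fun z => g.eval z * (z * l (v z))) = 2 * π * l (aeval T g x) := by
  have hc := hv.cont hs l
  induction g using Polynomial.induction_on' with
  | add p q hp hq =>
    simp only [eval_add, add_mul, map_add, ContinuousLinearMap.add_apply, mul_add]
    have hc' : ∀ g : ℂ[X], ContinuousOn (fun z => g.eval z * (z * l (v z))) (sphere 0 1) :=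
      fun g => ContinuousOn.mul (by fun_prop) (ContinuousOn.mul (by fun_prop) hc)
    rw [J_add (hc' p) (hc' q), hp, hq]
  | monomial k a =>
    have e : ∀ z : ℂ, (monomial k a).eval z * (z * l (v z)) = a * (z ^ (k + 1) * l (v z)) := by
      intro z; simp only [eval_monomial]; ring
    simp_rw [e]
    rw [J_mul, hv.mom hs, aeval_monomial, ← Algebra.smul_def]
    simp only [ContinuousLinearMap.smul_apply, map_smul, smul_eq_mul]
    ring

lemma IsRes.mom_conj (g : ℂ[X]) (l : HH n →L[ℂ] ℂ) :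
    J (fun z => g.eval z * (starRingEnd ℂ) (z * l (v z)))
      = 2 * π * (g.eval 0 * (starRingEnd ℂ) (l x)) := by
  have hc := hv.cont hs l
  have h1 := hv.mom hs 0 l
  have h2 := hv.orth hs l g.divX
  have e : J (fun z => g.eval z * (starRingEnd ℂ) (z * l (v z)))
      = J (fun z => g.eval 0 * (starRingEnd ℂ) (z ^ (0 + 1) * l (v z)))
        + J (fun z => (starRingEnd ℂ) (l (v z) * (starRingEnd ℂ) (g.divX.eval z))) := by
    rw [← J_add]
    · refine J_congr fun z hz => ?_
      have e1 : g.eval z = g.divX.eval z * z + g.eval 0 := by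
        conv_lhs => rw [← divX_mul_X_add g]
        simp [coeff_zero_eq_eval_zero]
      have e2 : z * (starRingEnd ℂ) z = 1 := by
        rw [Complex.mul_conj', hz]; simp
      rw [e1]
      simp only [map_mul, Complex.conj_conj, zero_add, pow_one]
      linear_combination (g.divX.eval z * (starRingEnd ℂ) (l (v z))) * e2
    · exact ContinuousOn.mul (by fun_prop)
        (Complex.continuous_conj.comp_continuousOn (ContinuousOn.mul (by fun_prop) hc))
    · exact Complex.continuous_conj.comp_continuousOn (ContinuousOn.mul hc (by fun_prop))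
  rw [e, J_mul, J_conj, J_conj, h1, h2]
  simp [map_ofNat]
  ring

end

lemma J_sum {ι : Type} (t : Finset ι) (g : ι → ℂ → ℂ)
    (hg : ∀ i, ContinuousOn (g i) (sphere 0 1)) :
    J (fun z => ∑ i ∈ t, g i z) = ∑ i ∈ t, J (g i) :=
  intervalIntegral.integral_finset_sum fun i _ => (cont_ee (hg i)).intervalIntegrable _ _

lemma key_id {n : ℕ} {s : Multiset ℂ} (hs : ∀ a ∈ s, ‖a‖ < 1) {T D : HH n →L[ℂ] HH n}
    (hD : ∀ u w, inner ℂ (D u) (D w) = inner ℂ u w - inner ℂ (T u) (T w))
    {x y : HH n} {v v' : ℂ → HH n} (hv : IsRes s T x v) (hv' : IsRes s T y v')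
    (q q' : Fin n → ℂ[X]) (hq : ∀ i z, D (v z) i = (q i).eval z / (PP s).eval z)
    (hq' : ∀ i z, D (v' z) i = (q' i).eval z / (PP s).eval z) (g : ℂ[X]) :
    ∑ i, BB s (q' i) (g * q i) = 2 * π * inner ℂ y (aeval T g x) := by
  have h1 := hv.mom_poly hs g (innerSL ℂ y)
  have h2 := hv'.mom_conj hs g (innerSL ℂ x)
  have h3 : J (fun z => -inner ℂ y x * g.eval z) = -inner ℂ y x * (2 * π * g.eval 0) := by
    rw [J_mul, J_poly]
  have c1 := hv.cont hs (innerSL ℂ y)
  have c2 := hv'.cont hs (innerSL ℂ x)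
  have c1' : ContinuousOn (fun z => g.eval z * (z * innerSL ℂ y (v z))) (sphere 0 1) :=
    ContinuousOn.mul (by fun_prop) (ContinuousOn.mul (by fun_prop) c1)
  have c2' : ContinuousOn (fun z => g.eval z * (starRingEnd ℂ) (z * innerSL ℂ x (v' z)))
      (sphere 0 1) := ContinuousOn.mul (by fun_prop)
        (Complex.continuous_conj.comp_continuousOn (ContinuousOn.mul (by fun_prop) c2))
  have e : ∑ i, BB s (q' i) (g * q i) = J (fun z => (g.eval z * (z * innerSL ℂ y (v z))
      + g.eval z * (starRingEnd ℂ) (z * innerSL ℂ x (v' z))) + -inner ℂ y x * g.eval z) := by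
    unfold BB
    rw [← J_sum _ _ fun i => BB_cont s hs _ _]
    refine J_congr fun z hz => ?_
    have e1 : ∑ i, (starRingEnd ℂ) ((q' i).eval z) * (g * q i).eval z / (W s z : ℂ)
        = g.eval z * inner ℂ (D (v' z)) (D (v z)) := by
      rw [PiLp.inner_apply, Finset.mul_sum]
      refine Finset.sum_congr rfl fun i _ => ?_
      have := PP_ne s hs hz
      have h2 : (starRingEnd ℂ) ((PP s).eval z) ≠ 0 := by simpa using this
      rw [← conj_mul_PP, hq, hq']
      simp only [eval_mul, RCLike.inner_apply, map_div₀]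
      field_simp
    have e2 : z * (starRingEnd ℂ) z = 1 := by
      rw [Complex.mul_conj', hz]; simp
    rw [e1, hD, hv.eqn z hz, hv'.eqn z hz]
    simp only [inner_sub_left, inner_sub_right, inner_smul_left, inner_smul_right, innerSL_apply_apply,
      map_mul, inner_conj_symm]
    linear_combination (-g.eval z * inner ℂ (v' z) (v z)) * e2
  rw [e, J_add (c1'.fun_add c2') (by fun_prop), J_add c1' c2', h1, h2, h3]
  simp only [innerSL_apply_apply, inner_conj_symm]
  ring

theorem upper {n : ℕ} (s : Multiset ℂ) (hs : ∀ a ∈ s, ‖a‖ < 1) (T : HH n →L[ℂ] HH n)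
    (hT1 : ‖T‖ ≤ 1) (hT : aeval T (PP s) = 0) (g : ℂ[X]) (M : ℝ) (hM : 0 ≤ M)
    (h : ∀ q q' : ℂ[X], q.degree < s.card → q'.degree < s.card →
      (BB s q' (g * q)).re ≤ M / 2 * (NN s q + NN s q')) : ‖aeval T g‖ ≤ M := by
  have hpos : 0 ≤ 1 - star T * T := by
    have h1 := CStarAlgebra.star_mul_le_algebraMap_norm_sq (a := T)
    have h2 : algebraMap ℝ (HH n →L[ℂ] HH n) (‖T‖ ^ 2) ≤ 1 := by
      rw [← map_one (algebraMap ℝ (HH n →L[ℂ] HH n)), ← sub_nonneg, ← map_sub]
      exact algebraMap_nonneg _ (by nlinarith [norm_nonneg T])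
    exact sub_nonneg.2 (h1.trans h2)
  obtain ⟨D, hD0⟩ := CStarAlgebra.nonneg_iff_eq_star_mul_self.1 hpos
  have hD : ∀ u w, inner ℂ (D u) (D w) = inner ℂ u w - inner ℂ (T u) (T w) := by
    intro u w
    have := congrArg (fun A : HH n →L[ℂ] HH n => inner ℂ u (A w)) hD0
    simp only [ContinuousLinearMap.star_eq_adjoint, ContinuousLinearMap.sub_apply,
      ContinuousLinearMap.one_apply, inner_sub_right] at this
    rw [← ContinuousLinearMap.adjoint_inner_right D, ← ContinuousLinearMap.adjoint_inner_right T]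
    exact this.symm
  have hpi : 0 < 2 * π := by positivity
  have main : ∀ x y : HH n, (inner ℂ y (aeval T g x)).re ≤ M / 2 * (‖x‖ ^ 2 + ‖y‖ ^ 2) := by
    intro x y
    obtain ⟨v, hv⟩ := exists_res s hs T hT x
    obtain ⟨v', hv'⟩ := exists_res s hs T hT y
    choose q hq1 hq using fun i : Fin n => hv.rat ((EuclideanSpace.proj i).comp D)
    choose q' hq1' hq' using fun i : Fin n => hv'.rat ((EuclideanSpace.proj i).comp D)
    have k1 := key_id hs hD hv hv' q q' hq hq' g
    have k2 := key_id hs hD hv hv q q hq hq 1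
    have k3 := key_id hs hD hv' hv' q' q' hq' hq' 1
    simp only [one_mul, map_one, ContinuousLinearMap.one_apply, BB_self,
      inner_self_eq_norm_sq_to_K] at k2 k3
    have k2' : ∑ i, NN s (q i) = 2 * π * ‖x‖ ^ 2 := by
      apply Complex.ofReal_injective; push_cast; exact k2
    have k3' : ∑ i, NN s (q' i) = 2 * π * ‖y‖ ^ 2 := by
      apply Complex.ofReal_injective; push_cast; exact k3
    have k1' : ∑ i, (BB s (q' i) (g * q i)).re = 2 * π * (inner ℂ y (aeval T g x)).re := by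
      rw [← Complex.re_sum, k1]; simp
    have k4 : ∑ i, (BB s (q' i) (g * q i)).re ≤ ∑ i, M / 2 * (NN s (q i) + NN s (q' i)) :=
      Finset.sum_le_sum fun i _ => h _ _ (hq1 i) (hq1' i)
    rw [← Finset.mul_sum, Finset.sum_add_distrib, k1', k2', k3'] at k4
    have : 2 * π * (inner ℂ y (aeval T g x)).re ≤ 2 * π * (M / 2 * (‖x‖ ^ 2 + ‖y‖ ^ 2)) := by
      linarith
    exact le_of_mul_le_mul_left this hpi
  refine ContinuousLinearMap.opNorm_le_of_unit_norm hM fun x hx => ?_
  by_cases h0 : aeval T g x = 0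
  · rw [h0, norm_zero]; exact hM
  have hn : ‖aeval T g x‖ ≠ 0 := norm_ne_zero_iff.2 h0
  have := main x (((‖aeval T g x‖⁻¹ : ℝ) : ℂ) • aeval T g x)
  rw [inner_smul_left, inner_self_eq_norm_sq_to_K, norm_smul, hx, Complex.conj_ofReal,
    Complex.norm_real, norm_inv, norm_norm, inv_mul_cancel₀ hn] at this
  have e : ((((‖aeval T g x‖⁻¹ : ℝ) : ℂ)) * ((‖aeval T g x‖ : ℝ) : ℂ) ^ 2).re
      = ‖aeval T g x‖ := by
    rw [← Complex.ofReal_pow, ← Complex.ofReal_mul, Complex.ofReal_re]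
    field_simp
  have e' := e.symm.le.trans this
  linarith

theorem poly_main {n : ℕ} (hn : 1 ≤ n) {r : ℝ} (hr0 : 0 < r) (hr1 : r < 1) (g : ℂ[X]) (M : ℝ)
    (hM : ∀ b : ℂ, ‖b‖ = r → ∀ T : HH n →L[ℂ] HH n, ‖T‖ ≤ 1 →
      aeval T (PP (Multiset.replicate n b)) = 0 → ‖aeval T g‖ ≤ M)
    (s : Multiset ℂ) (hcard : s.card = n) (hs : ∀ a ∈ s, ‖a‖ ≤ r) (T : HH n →L[ℂ] HH n)
    (hT1 : ‖T‖ ≤ 1) (hT : aeval T (PP s) = 0) : ‖aeval T g‖ ≤ M := by
  have hrep : ∀ b : ℂ, ‖b‖ = r → ∀ a ∈ Multiset.replicate n b, ‖a‖ < 1 := by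
    intro b hb a ha
    rw [Multiset.eq_of_mem_replicate ha, hb]; exact hr1
  have hrn : ‖(r : ℂ)‖ = r := by simp [abs_of_pos hr0]
  have hM0 : 0 ≤ M := by
    obtain ⟨T0, h1, h2, -⟩ := model _ (hrep r hrn) n (Multiset.card_replicate _ _)
    exact (norm_nonneg _).trans (hM r hrn T0 h1 h2)
  have hs1 : ∀ a ∈ s, ‖a‖ < 1 := fun a ha => (hs a ha).trans_lt hr1
  refine upper s hs1 T hT1 hT g M hM0 fun q q' hq hq' => ?_
  rw [hcard] at hq hq'
  set φ : ℂ → ℝ := fun z => M / 2 * (‖q.eval z‖ ^ 2 + ‖q'.eval z‖ ^ 2)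
    - ((starRingEnd ℂ) (q'.eval z) * (g * q).eval z).re with hφ
  have hJ : ∀ t : Multiset ℂ, (∀ a ∈ t, ‖a‖ < 1) → (J fun z => φ z / W t z)
      = M / 2 * (NN t q + NN t q') - (BB t q' (g * q)).re := by
    intro t ht
    have c1 := (cont_ee (contOn_div_W (χ := fun z => ‖q.eval z‖ ^ 2) (by fun_prop) t ht))
    have c2 := (cont_ee (contOn_div_W (χ := fun z => ‖q'.eval z‖ ^ 2) (by fun_prop) t ht))
    have c3 := cont_ee (BB_cont t ht q' (g * q))
    unfold NN BB J
    rw [← intervalIntegral.integral_add (c1.intervalIntegrable _ _) (c2.intervalIntegrable _ _),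
      ← intervalIntegral.integral_const_mul, ← Complex.reCLM_apply,
      ← ContinuousLinearMap.intervalIntegral_comp_comm _ (c3.intervalIntegrable _ _),
      ← intervalIntegral.integral_sub ((continuous_const.fun_mul (c1.fun_add c2)).intervalIntegrable _ _)
        ((Complex.reCLM.continuous.comp' c3).intervalIntegrable _ _)]
    congr 1
    funext θ
    simp only [hφ, Complex.reCLM_apply, Complex.div_ofReal_re]
    ring
  have := pos_transfer hr0 hr1 hn φ (by rw [hφ]; fun_prop) (by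
    intro b hb
    rw [hJ _ (hrep b hb)]
    obtain ⟨T0, h1, h2, h3⟩ := model _ (hrep b hb) n (Multiset.card_replicate _ _)
    have h4 := h3 g q q' hq hq'
    have h5 := hM b hb T0 h1 h2
    have h6 := add_nonneg (NN_nonneg _ (hrep b hb) q) (NN_nonneg _ (hrep b hb) q')
    nlinarith) s hcard hs
  rw [hJ s hs1] at this
  linarith

end Pool.Agent.H94.Ptak
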