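import Mathlib

set_option autoImplicit false

namespace Pool.Agent.H94.PureState

open Set

lemma hb {V : Type*} [AddCommGroup V] [Module ℝ V] (p : V → ℝ)
    (hh : ∀ c : ℝ, 0 < c → ∀ x, p (c • x) = c * p x) (ha : ∀ x y, p (x + y) ≤ p x + p y)
    (x0 : V) : ∃ ψ : V →ₗ[ℝ] ℝ, (∀ x, ψ x ≤ p x) ∧ ψ x0 = p x0 := by
  have p0 : p 0 = 0 := by
    have := hh 2 two_pos 0
    rw [smul_zero] at this
    linarith
  by_cases hx : x0 = 0
  · obtain ⟨g, -, h2⟩ := exists_extension_of_le_sublinear (⟨⊥, 0⟩ : V →ₗ.[ℝ] ℝ) p hh ha (by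
      rintro ⟨x, hx⟩
      rw [Submodule.mem_bot] at hx
      subst hx
      exact p0.ge)
    exact ⟨g, h2, by rw [hx, map_zero, p0]⟩
  · obtain ⟨g, h1, h2⟩ := exists_extension_of_le_sublinear
      (LinearPMap.mkSpanSingleton x0 (p x0) hx) p hh ha (by
        rintro ⟨x, hx'⟩
        obtain ⟨c, rfl⟩ := Submodule.mem_span_singleton.1 hx'
        rw [LinearPMap.mkSpanSingleton'_apply]
        simp only [RingHom.id_apply, smul_eq_mul]
        rcases lt_trichotomy c 0 with h | h | h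
        · have h3 := ha (c • x0) ((-c) • x0)
          rw [← add_smul, add_neg_cancel, zero_smul, p0, hh (-c) (by linarith)] at h3
          linarith
        · simp [h, p0]
        · exact (hh c h x0).ge)
    refine ⟨g, h2, ?_⟩
    rw [h1 ⟨x0, Submodule.mem_span_singleton_self x0⟩]
    exact LinearPMap.mkSpanSingleton_apply _ _ _ _

lemma hb2 {V W : Type*} [AddCommGroup V] [Module ℝ V] [AddCommGroup W] [Module ℝ W]
    (L : W →ₗ[ℝ] ℝ) (R : W → V → Prop)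
    (hadd : ∀ w x w' x', R w x → R w' x' → R (w + w') (x + x'))
    (hsm : ∀ c : ℝ, 0 < c → ∀ w x, R w x → R (c • w) (c • x))
    (hne : ∀ x, ∃ w, R w x) (h0 : ∀ w, R w 0 → 0 ≤ L w) (x0 : V) :
    ∃ ψ : V →ₗ[ℝ] ℝ, (∀ w x, R w x → ψ x ≤ L w) ∧ ∀ ε > 0, ∃ w, R w x0 ∧ L w < ψ x0 + ε := by
  let p : V → ℝ := fun x => sInf (L '' {w | R w x})
  have ne : ∀ x, (L '' {w | R w x}).Nonempty := fun x => (hne x).elim fun w hw => ⟨_, w, hw, rfl⟩
  have bd : ∀ x, BddBelow (L '' {w | R w x}) := fun x => by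
    obtain ⟨w', hw'⟩ := hne (-x)
    refine ⟨-L w', ?_⟩
    rintro _ ⟨w, hw, rfl⟩
    have := h0 _ (by simpa using hadd _ _ _ _ hw hw')
    rw [map_add] at this
    linarith
  have le : ∀ w x, R w x → p x ≤ L w := fun w x h => csInf_le (bd x) ⟨w, h, rfl⟩
  have ap : ∀ x, ∀ ε > 0, ∃ w, R w x ∧ L w < p x + ε := fun x ε hε => by
    obtain ⟨_, ⟨w, hw, rfl⟩, h⟩ := exists_lt_of_csInf_lt (ne x) (lt_add_of_pos_right (p x) hε)
    exact ⟨w, hw, h⟩
  have hle : ∀ c : ℝ, 0 < c → ∀ x, p (c • x) ≤ c * p x := fun c hc x => by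
    refine le_of_forall_pos_le_add fun ε hε => ?_
    obtain ⟨w, h1, h2⟩ := ap x (ε / c) (div_pos hε hc)
    have h3 := le _ _ (hsm c hc _ _ h1)
    rw [map_smul, smul_eq_mul] at h3
    have h4 := mul_lt_mul_of_pos_left h2 hc
    rw [mul_add, mul_div_cancel₀ _ hc.ne'] at h4
    linarith
  obtain ⟨ψ, h1, h2⟩ := hb p (fun c hc x => le_antisymm (hle c hc x) (by
      have h3 := hle c⁻¹ (inv_pos.2 hc) (c • x)
      rw [smul_smul, inv_mul_cancel₀ hc.ne', one_smul] at h3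
      have h4 := mul_le_mul_of_nonneg_left h3 hc.le
      rwa [← mul_assoc, mul_inv_cancel₀ hc.ne', one_mul] at h4))
    (fun x y => le_of_forall_pos_le_add fun ε hε => by
      obtain ⟨w, a1, a2⟩ := ap x (ε / 2) (half_pos hε)
      obtain ⟨w', b1, b2⟩ := ap y (ε / 2) (half_pos hε)
      have h3 := le _ _ (hadd _ _ _ _ a1 b1)
      rw [map_add] at h3
      linarith) x0
  exact ⟨ψ, fun w x h => (h1 x).trans (le w x h), fun ε hε => by rw [h2]; exact ap x0 ε hε⟩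

variable {V : Type*} [AddCommGroup V] [Module ℝ V]

/-- A convex cone with an order unit. -/
structure Cone (P : Set V) (e : V) : Prop where
  add : ∀ x ∈ P, ∀ y ∈ P, x + y ∈ P
  smul : ∀ c : ℝ, 0 ≤ c → ∀ x ∈ P, c • x ∈ P
  unit : ∀ x, ∃ t : ℝ, t • e - x ∈ P
  mem : e ∈ P
  proper : -e ∉ P

/-- A pure state. -/
structure Pure (P : Set V) (e : V) (ω : V →ₗ[ℝ] ℝ) : Prop where
  pos : ∀ x ∈ P, 0 ≤ ω x
  one : ω e = 1
  pure : ∀ ψ : V →ₗ[ℝ] ℝ, (∀ x ∈ P, 0 ≤ ψ x) → (∀ x ∈ P, ψ x ≤ ω x) → ∀ x, ψ x = ψ e * ω x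

variable {P : Set V} {e : V}

lemma Cone.vanish (C : Cone P e) {ψ : V →ₗ[ℝ] ℝ} (h : ∀ x ∈ P, 0 ≤ ψ x) (h0 : ψ e = 0) (x : V) :
    ψ x = 0 := by
  have key : ∀ x, ψ x ≤ 0 := fun x => by
    obtain ⟨t, ht⟩ := C.unit x
    have := h _ ht
    rw [map_sub, map_smul, h0, smul_zero] at this
    linarith
  have := key (-x)
  rw [map_neg] at this
  linarith [key x]

theorem Cone.exists_pure (C : Cone P e) (s : V) :
    ∃ ω, Pure P e ω ∧ ∀ ε > 0, ∃ t : ℝ, t • e - s ∈ P ∧ t < ω s + ε := by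
  have zero : (0 : V) ∈ P := by simpa using C.smul 0 le_rfl e C.mem
  obtain ⟨ψ, h1, h2⟩ := hb2 (LinearMap.id : ℝ →ₗ[ℝ] ℝ) (fun t x => t • e - x ∈ P)
    (fun w x w' x' a b => by
      convert C.add _ a _ b using 1
      module)
    (fun c hc w x a => by
      convert C.smul c hc.le _ a using 1
      rw [smul_sub, smul_smul, smul_eq_mul])
    C.unit (fun t ht => by
      by_contra hc
      replace hc : t < 0 := not_le.1 hc
      refine C.proper ?_
      convert C.smul (-t⁻¹) (by simpa using hc.le) _ ht using 1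
      rw [sub_zero, smul_smul, neg_mul, inv_mul_cancel₀ hc.ne, neg_one_smul]) s
  simp only [LinearMap.id_apply] at h1 h2
  let Q : Set (V → ℝ) := {φ | (∀ x y, φ (x + y) = φ x + φ y) ∧ (∀ (c : ℝ) x, φ (c • x) = c * φ x) ∧
    (∀ x ∈ P, 0 ≤ φ x) ∧ φ e = 1 ∧ φ s = ψ s}
  have hcl : IsClosed Q := by
    simp only [Q, setOf_and, setOf_forall]
    refine (isClosed_iInter fun x => isClosed_iInter fun y => isClosed_eq ?_ ?_).inter
      ((isClosed_iInter fun c => isClosed_iInter fun x => isClosed_eq ?_ ?_).inter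
      ((isClosed_iInter fun x => isClosed_iInter fun _ => isClosed_le ?_ ?_).inter
      ((isClosed_eq ?_ ?_).inter (isClosed_eq ?_ ?_)))) <;> fun_prop
  have up : ∀ φ : V →ₗ[ℝ] ℝ, (∀ x ∈ P, 0 ≤ φ x) → φ e = 1 → ∀ (t : ℝ) x, t • e - x ∈ P →
      φ x ≤ t := fun φ a b t x ht => by
    have := a _ ht
    rw [map_sub, map_smul, b, smul_eq_mul, mul_one] at this
    linarith
  choose τ hτ using C.unit
  have hQ : IsCompact Q := by
    refine (isCompact_univ_pi fun x => isCompact_Icc (a := -τ (-x)) (b := τ x)).of_isClosed_subset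
      hcl ?_
    rintro φ ⟨a1, a2, a3, a4, -⟩ x -
    let φ' : V →ₗ[ℝ] ℝ := ⟨⟨φ, a1⟩, a2⟩
    have b1 := up φ' a3 a4 _ _ (hτ (-x))
    rw [map_neg] at b1
    exact ⟨neg_le.1 b1, up φ' a3 a4 _ _ (hτ x)⟩
  have e1 : ψ e = 1 := by
    have b1 := h1 1 e (by simpa using zero)
    have b2 := h1 (-1) (-e) (by simpa using zero)
    rw [map_neg] at b2
    linarith
  obtain ⟨φ, hφ⟩ := hQ.extremePoints_nonempty ⟨ψ, map_add ψ, map_smul ψ, fun x hx => by
    have := h1 0 (-x) (by simpa using hx)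
    rw [map_neg] at this
    linarith, e1, rfl⟩
  rw [mem_extremePoints_iff_left] at hφ
  obtain ⟨⟨a1, a2, a3, a4, a5⟩, hφ⟩ := hφ
  let ω : V →ₗ[ℝ] ℝ := ⟨⟨φ, a1⟩, a2⟩
  have ωφ : ∀ x, ω x = φ x := fun _ => rfl
  refine ⟨ω, ⟨a3, a4, fun χ c1 c2 x => ?_⟩, fun ε hε => by rw [ωφ, a5]; exact h2 ε hε⟩
  have c3 : ∀ x ∈ P, 0 ≤ (ω - χ) x := fun x hx => sub_nonneg.2 (c2 x hx)
  have l0 := c1 e C.mem
  have l1 : χ e ≤ 1 := (c2 e C.mem).trans (le_of_eq a4)
  rcases l0.eq_or_lt with l0 | l0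
  · rw [← l0, zero_mul, C.vanish c1 l0.symm]
  rcases l1.eq_or_lt with l1 | l1
  · have := C.vanish c3 (by rw [LinearMap.sub_apply, l1, ωφ, a4, sub_self]) x
    rw [LinearMap.sub_apply] at this
    rw [l1]
    linarith
  have l2 : 0 < 1 - χ e := by linarith
  have top : ∀ φ : V →ₗ[ℝ] ℝ, (∀ x ∈ P, 0 ≤ φ x) → φ e = 1 → φ s ≤ ψ s := fun φ a b =>
    le_of_forall_pos_le_add fun ε hε => by
      obtain ⟨t, t1, t2⟩ := h2 ε hε
      linarith [up φ a b t s t1]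
  let φ1 : V →ₗ[ℝ] ℝ := (χ e)⁻¹ • χ
  let φ2 : V →ₗ[ℝ] ℝ := (1 - χ e)⁻¹ • (ω - χ)
  have p1 : ∀ x ∈ P, 0 ≤ φ1 x := fun x hx => mul_nonneg (inv_pos.2 l0).le (c1 x hx)
  have p2 : ∀ x ∈ P, 0 ≤ φ2 x := fun x hx => mul_nonneg (inv_pos.2 l2).le (c3 x hx)
  have q1 : φ1 e = 1 := inv_mul_cancel₀ l0.ne'
  have q2 : φ2 e = 1 := by
    change (1 - χ e)⁻¹ * (φ e - χ e) = 1
    rw [a4, inv_mul_cancel₀ l2.ne']
  have comb : ∀ x, χ e * φ1 x + (1 - χ e) * φ2 x = φ x := fun x => by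
    change χ e * ((χ e)⁻¹ * χ x) + (1 - χ e) * ((1 - χ e)⁻¹ * (φ x - χ x)) = φ x
    rw [mul_inv_cancel_left₀ l0.ne', mul_inv_cancel_left₀ l2.ne']
    ring
  have r1 := top φ1 p1 q1
  have r2 := top φ2 p2 q2
  have r3 := comb s
  rw [a5] at r3
  have r4 := hφ φ1 ⟨map_add φ1, map_smul φ1, p1, q1, by nlinarith⟩ φ2
    ⟨map_add φ2, map_smul φ2, p2, q2, by nlinarith⟩
    ⟨χ e, 1 - χ e, l0, l2, by ring, funext comb⟩
  rw [ωφ, ← r4]
  change χ x = χ e * ((χ e)⁻¹ * χ x)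
  rw [mul_inv_cancel_left₀ l0.ne']

/-- For a pure state the upper bounds of finitely many elements come close to the maximum. -/
theorem Pure.directed (C : Cone P e) {ω : V →ₗ[ℝ] ℝ} (h : Pure P e ω) {ι : Type} [Fintype ι]
    [Nonempty ι] (z : ι → V) (β : ℝ) (hβ : ∀ i, ω (z i) ≤ β) (ε : ℝ) (hε : 0 < ε) :
    ∃ c, (∀ i, c - z i ∈ P) ∧ ω c < β + ε := by
  classical
  have zero : (0 : V) ∈ P := by simpa using C.smul 0 le_rfl e C.mem
  obtain ⟨ψ, h1, h2⟩ := hb2 ω (fun c (y : ι → V) => ∀ i, c - y i ∈ P)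
    (fun w x w' x' a b i => by
      convert C.add _ (a i) _ (b i) using 1
      rw [Pi.add_apply]
      abel)
    (fun c hc w x a i => by
      convert C.smul c hc.le _ (a i) using 1
      rw [smul_sub, Pi.smul_apply])
    (fun y => by
      choose τ hτ using fun i => C.unit (y i)
      obtain ⟨t, ht⟩ := (Set.finite_range τ).bddAbove
      refine ⟨t • e, fun i => ?_⟩
      convert C.add _ (hτ i) _ (C.smul (t - τ i) (sub_nonneg.2 (ht ⟨i, rfl⟩)) e C.mem) using 1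
      module)
    (fun w hw => h.pos _ (by simpa using hw (Classical.arbitrary ι))) z
  let χ : ι → V →ₗ[ℝ] ℝ := fun i => ψ.comp (LinearMap.single ℝ (fun _ => V) i)
  have sum : ∀ y : ι → V, ψ y = ∑ i, χ i (y i) := fun y => by
    conv_lhs => rw [← Finset.univ_sum_single y, map_sum]
    rfl
  have pos : ∀ i, ∀ x ∈ P, 0 ≤ χ i x := fun i x hx => by
    have := h1 0 (-Pi.single i x) fun j => by
      by_cases hj : j = i
      · subst hj
        simpa using hx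
      · simpa [hj] using zero
    rw [map_neg, map_zero] at this
    exact neg_nonpos.1 this
  have tot : ∀ x, ∑ i, χ i x = ω x := fun x => by
    have b1 := h1 x (fun _ => x) fun _ => by simpa using zero
    have b2 := h1 (-x) (-fun _ => x) fun _ => by simpa using zero
    rw [map_neg, map_neg] at b2
    rw [← sum fun _ => x]
    linarith
  have mul := fun i => h.pure (χ i) (pos i) fun x hx => by
    rw [← tot x]
    exact Finset.single_le_sum (fun j _ => pos j x hx) (Finset.mem_univ i)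
  obtain ⟨c, c1, c2⟩ := h2 ε hε
  refine ⟨c, c1, c2.trans_le (add_le_add_left ?_ ε)⟩
  calc ψ z = ∑ i, χ i e * ω (z i) := by
        rw [sum]
        exact Finset.sum_congr rfl fun i _ => mul i _
    _ ≤ ∑ i, χ i e * β :=
        Finset.sum_le_sum fun i _ => mul_le_mul_of_nonneg_left (hβ i) (pos i e C.mem)
    _ = β := by rw [← Finset.sum_mul, tot, h.one, one_mul]

end Pool.Agent.H94.PureState
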