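import Mathlib

set_option autoImplicit false
namespace Pool.Agent.H94.QV
open Set MeasureTheory Filter Topology Real

/-- Radial Laplacian `r^(1-N) (r^(N-1) f')'` in dimension `N`. -/
noncomputable def lap (N : ℕ) (f : ℝ → ℝ) (r : ℝ) : ℝ :=
  (r ^ (N - 1))⁻¹ * deriv (fun s => s ^ (N - 1) * deriv f s) r

/-- `u` is the profile of the radial solution with data `a`; `v i` is the profile of the
`i`-th iterated Laplacian. -/
def Sol (m : ℕ) (a : Fin m → ℝ) (u : ℝ → ℝ) : Prop :=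
  ∃ v : ℕ → ℝ → ℝ, v 0 = u ∧ (∀ r, 0 < r → v m r = -Real.exp (u r)) ∧ ∀ i : Fin m,
    ContDiff ℝ 2 (v i) ∧ v i 0 = a i ∧ deriv (v i) 0 = 0 ∧
      ∀ r, 0 < r → lap (2 * m) (v i) r = v (i + 1) r

def LR (n : ℕ) (f f' g : ℝ → ℝ) : Prop :=
  (∀ r, HasDerivAt f (f' r) r) ∧ Continuous f' ∧
    ∀ r, 0 < r → HasDerivAt (fun s => s ^ n * f' s) (r ^ n * g r) r

def Big (f : ℝ → ℝ) (p : ℝ) : Prop := ∀ K : ℝ, ∀ᶠ r in atTop, K * r ^ p ≤ f r

theorem cmp {F G F' G' : ℝ → ℝ} {a : ℝ} (cF : ContinuousOn F (Ici a)) (cG : ContinuousOn G (Ici a))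
    (hF : ∀ r, a < r → HasDerivAt F (F' r) r) (hG : ∀ r, a < r → HasDerivAt G (G' r) r)
    (h : ∀ r, a < r → G' r ≤ F' r) {r : ℝ} (hr : a ≤ r) : G r - G a ≤ F r - F a := by
  have := monotoneOn_of_hasDerivWithinAt_nonneg (convex_Ici a) (cF.sub cG) (f' := fun x => F' x - G' x)
    (fun x hx => by
      rw [interior_Ici] at hx
      exact ((hF x hx).sub (hG x hx)).hasDerivWithinAt)
    (fun x hx => by rw [interior_Ici] at hx; exact sub_nonneg.2 (h x hx)) self_mem_Ici hr hr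
  simp only [Pi.sub_apply] at this
  linarith

theorem cmp' {F G F' G' : ℝ → ℝ} {a : ℝ} (ha : 0 < a)
    (hF : ∀ r, 0 < r → HasDerivAt F (F' r) r) (hG : ∀ r, 0 < r → HasDerivAt G (G' r) r)
    (h : ∀ r, a < r → G' r ≤ F' r) {r : ℝ} (hr : a ≤ r) : G r - G a ≤ F r - F a :=
  cmp (fun x hx => (hF x (ha.trans_le hx)).continuousAt.continuousWithinAt)
    (fun x hx => (hG x (ha.trans_le hx)).continuousAt.continuousWithinAt)
    (fun x hx => hF x (ha.trans hx)) (fun x hx => hG x (ha.trans hx)) h hr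

theorem ev {P : ℝ → Prop} (h : ∀ᶠ r in atTop, P r) : ∃ a, 0 < a ∧ ∀ r, a ≤ r → P r := by
  obtain ⟨a, ha⟩ := eventually_atTop.1 h
  exact ⟨max a 1, lt_max_of_lt_right one_pos, fun r hr => ha r ((le_max_left _ _).trans hr)⟩

theorem up {F F' : ℝ → ℝ} {p : ℝ} (hp : 0 < p) (hF : ∀ r, 0 < r → HasDerivAt F (F' r) r)
    (h : Big F' (p - 1)) : Big F p := fun K => by
  obtain ⟨a, a0, ha⟩ := ev (h ((K + 1) * p))
  filter_upwards [eventually_ge_atTop a, (tendsto_rpow_atTop hp).eventually_ge_atTop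
    ((K + 1) * a ^ p - F a)] with r h1 h2
  have := cmp' a0 hF (G := fun r => (K + 1) * r ^ p) (fun r hr =>
    (hasDerivAt_rpow_const (Or.inl hr.ne')).const_mul _)
    (fun r hr => by rw [← mul_assoc]; exact ha r hr.le) h1
  linarith

theorem down {F F' : ℝ → ℝ} {p : ℝ} (hp : 0 < p) (hF : ∀ r, 0 < r → HasDerivAt F (F' r) r)
    (h : Big (fun r => -F' r) (-p - 1)) (h0 : ∀ r, 0 < r → 0 ≤ F r) : Big F (-p) := fun K => by
  obtain ⟨a, a0, ha⟩ := ev (h (K * p))
  filter_upwards [eventually_ge_atTop a] with r h1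
  rw [← sub_nonpos, ← mul_zero K]
  refine ge_of_tendsto ((tendsto_rpow_neg_atTop hp).const_mul K) ?_
  filter_upwards [eventually_ge_atTop r] with s hs
  have := cmp' (a0.trans_le h1) (G := F) (F := fun r => K * r ^ (-p)) (fun r hr =>
    (hasDerivAt_rpow_const (Or.inl hr.ne')).const_mul _) hF
    (fun x hx => by linarith [ha x (h1.trans hx.le)]) hs
  linarith [h0 s ((a0.trans_le h1).trans_le hs)]

theorem Big.mono {f : ℝ → ℝ} {p q : ℝ} (h : Big f p) (hq : q ≤ p) : Big f q := fun K => by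
  filter_upwards [h |K|, eventually_ge_atTop 1] with r h1 h2
  have := rpow_le_rpow_of_exponent_le h2 hq
  have := rpow_nonneg (zero_le_one.trans h2) q
  nlinarith [le_abs_self K, abs_nonneg K]

theorem Big.const {f : ℝ → ℝ} {c : ℝ} (c0 : 0 < c) (h : ∀ᶠ r in atTop, c ≤ f r) : Big f (-1) :=
  fun K => by
  have := (tendsto_rpow_neg_atTop one_pos).const_mul K
  rw [mul_zero] at this
  filter_upwards [h, this.eventually (ge_mem_nhds c0)] with r h1 h2
  exact h2.trans h1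

theorem Big.div {n : ℕ} {f : ℝ → ℝ} {p : ℝ} : Big (fun r => r ^ n * f r) (n + p) ↔ Big f p := by
  refine forall_congr' fun K => eventually_congr ?_
  filter_upwards [eventually_gt_atTop 0] with r hr
  rw [rpow_add hr, rpow_natCast, mul_left_comm, mul_le_mul_iff_right₀ (pow_pos hr n)]

theorem LR.smul {n : ℕ} {f f' g : ℝ → ℝ} (h : LR n f f' g) (s : ℝ) :
    LR n (fun r => s * f r) (fun r => s * f' r) fun r => s * g r :=
  ⟨fun r => (h.1 r).const_mul s, continuous_const.mul h.2.1, fun r hr => by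
    simpa only [mul_left_comm s] using (h.2.2 r hr).const_mul s⟩

theorem LR.flux {n : ℕ} {f f' g : ℝ → ℝ} (h : LR n f f' g) {q : ℝ} (hq : 0 < n + (q + 1))
    (hg : Big g q) : Big f' (q + 1) :=
  Big.div.1 (up hq h.2.2 (by rw [show (n : ℝ) + (q + 1) - 1 = n + q by ring]; exact Big.div.2 hg))

theorem LR.le {n : ℕ} {f f' g G G' : ℝ → ℝ} (h : LR n f f' g) (n0 : n ≠ 0) (cG : Continuous G)
    (hG : ∀ r, 0 < r → HasDerivAt G (G' r) r) (hg : ∀ r, 0 < r → r ^ n * g r ≤ G' r) {r : ℝ}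
    (hr : 0 ≤ r) : r ^ n * f' r ≤ G r - G 0 := by
  have := h.2.1
  simpa [n0] using cmp cG.continuousOn (Continuous.continuousOn (by fun_prop)) hG h.2.2 hg hr

/-- `g ≤ c` gives `f' ≤ c r / (n+1)`. -/
theorem LR.lin {n : ℕ} {f f' g : ℝ → ℝ} (h : LR n f f' g) (n0 : n ≠ 0) {c : ℝ}
    (hg : ∀ r, 0 < r → g r ≤ c) {r : ℝ} (hr : 0 < r) : f' r ≤ c / (n + 1) * r := by
  have := h.le n0 (G := fun r => c / (n + 1) * r ^ (n + 1)) (by fun_prop)
    (fun r _ => (hasDerivAt_pow _ r).const_mul _) (fun r hr => by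
      rw [← mul_assoc, Nat.cast_succ, div_mul_cancel₀ _ (by positivity), Nat.add_sub_cancel, mul_comm c]
      exact mul_le_mul_of_nonneg_left (hg r hr) (by positivity)) hr.le
  rw [zero_pow (by simp), mul_zero, sub_zero, pow_succ, mul_left_comm] at this
  exact le_of_mul_le_mul_left this (pow_pos hr n)

theorem LR.anti {n : ℕ} {f f' g : ℝ → ℝ} (h : LR n f f' g) (hf : ∀ r, 0 < r → f' r ≤ 0) {a r : ℝ}
    (ha : 0 ≤ a) (hr : a ≤ r) : f r ≤ f a := by
  have := cmp (F := fun _ => 0) continuousOn_const (fun x _ => (h.1 x).continuousAt.continuousWithinAt)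
    (fun x _ => hasDerivAt_const x _) (fun x _ => h.1 x) (fun x hx => hf x (ha.trans_lt hx)) hr
  linarith

theorem LR.four {n : ℕ} {f f' g : ℝ → ℝ} (h : LR n f f' g) (n4 : 4 ≤ n) {c : ℝ} (c0 : 0 ≤ c)
    (hg : ∀ r, 0 < r → g r ≤ c) (hf : ∀ r, 1 ≤ r → r ^ n * f' r ≤ c * r ^ 2) {r : ℝ} (hr : 0 ≤ r) :
    f r ≤ f 0 + 4 * c := by
  have d : ∀ x : ℝ, 0 ≤ x → HasDerivAt (fun x : ℝ => -(4 * c) * (1 + x)⁻¹)
      (4 * c / (1 + x) ^ 2) x := fun x hx =>
    ((((hasDerivAt_id' x).const_add 1).fun_inv (by positivity)).const_mul _).congr_deriv (by ring)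
  have := cmp (fun x hx => (d x hx).continuousAt.continuousWithinAt)
    (fun x _ => (h.1 x).continuousAt.continuousWithinAt) (fun x hx => d x hx.le) (fun x _ => h.1 x)
    (fun x hx => by
      rw [le_div_iff₀ (by positivity)]
      rcases le_total x 1 with h1 | h1
      · have a1 := h.lin (by omega) hg hx
        have a2 : c / (n + 1) ≤ c := div_le_self c0 (by simp)
        have a3 : f' x ≤ c := by nlinarith [div_nonneg c0 (show (0 : ℝ) ≤ n + 1 by positivity)]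
        have : (1 + x) ^ 2 ≤ 4 := by nlinarith
        nlinarith [sq_nonneg (1 + x)]
      · have a1 := hf x h1
        have a2 : x ^ 4 ≤ x ^ n := pow_le_pow_right₀ h1 n4
        by_contra hn
        have a3 : 0 < f' x := by nlinarith [sq_nonneg (1 + x)]
        have a4 : x ^ 2 * (x ^ 2 * f' x) ≤ x ^ 2 * c := by nlinarith
        have := le_of_mul_le_mul_left a4 (by positivity)
        have : (1 + x) ^ 2 ≤ 4 * x ^ 2 := by nlinarith
        nlinarith) hr
  have : 0 ≤ 4 * c * (1 + r)⁻¹ := by positivity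
  simp only [add_zero, inv_one] at *
  linarith

end Pool.Agent.H94.QV
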