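import Pool.Agent.H94.QV1

set_option autoImplicit false
namespace Pool.Agent.H94.QV
open Set MeasureTheory Filter Topology Real

def Ch (n m : ℕ) (v d : ℕ → ℝ → ℝ) : Prop :=
  (∀ i ≤ m, LR n (v i) (d i) (v (i + 1))) ∧ ∀ r, 0 < r → v (m + 1) r = -exp (v 0 r)

variable {n m : ℕ} {v d : ℕ → ℝ → ℝ}

theorem Ch.chain (h : Ch n m v d) (n0 : n ≠ 0) (s : ℝ) : ∀ k ≤ m,
    Big (fun r => s * v (k + 1) r) (-1) → Big (fun r => s * d 0 r) 0 := by
  have : (0 : ℝ) < n + (-1 + 1) := by simpa using Nat.pos_of_ne_zero n0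
  intro k
  induction k with
  | zero => exact fun hk hb => by simpa using ((h.1 0 hk).smul s).flux this hb
  | succ k ih =>
    intro hk hb
    have a := (h.1 _ hk).smul s
    exact ih (by omega) ((up one_pos (fun r _ => a.1 r) (by simpa using a.flux this hb)).mono
      (by norm_num))

theorem Ch.nopos (h : Ch n m v d) (n0 : n ≠ 0) : ¬ Big (d 0) (-1) := fun hb => by
  obtain ⟨a, a0, ha⟩ := ev (hb 0)
  have := h.chain n0 (-1) m le_rfl (Big.const (exp_pos (v 0 a)) (by
    filter_upwards [eventually_ge_atTop a] with r hr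
    have := cmp' a0 (G := fun _ => 0) (fun x _ => (h.1 0 m.zero_le).1 x) (fun x _ => hasDerivAt_const x _)
      (fun x hx => by simpa using ha x hx.le) hr
    rw [h.2 r (a0.trans_le hr), neg_mul_neg, one_mul]
    exact exp_le_exp.2 (by linarith)))
  obtain ⟨r, h1, h2⟩ := ((this 1).and (hb 0)).exists
  simp only [rpow_zero] at h1
  linarith

theorem Ch.cont (h : Ch n m v d) : Continuous fun r => r ^ n * exp (v 0 r) := by
  have := continuous_iff_continuousAt.2 fun x => ((h.1 0 m.zero_le).1 x).continuousAt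
  fun_prop

theorem Ch.fin (h : Ch n m v d) (hb : Big (fun r => -1 * d 0 r) (-1)) :
    IntegrableOn (fun r => r ^ n * exp (v 0 r)) (Ioi 0) := by
  obtain ⟨a, a0, ha⟩ := ev (hb (n + 2))
  refine ((h.cont.locallyIntegrable.locallyIntegrableOn _).integrableOn_of_isBigO_atTop
    (g := fun r => r ^ (-2 : ℝ)) (Asymptotics.IsBigO.of_bound (exp (v 0 a + (n + 2) * log a)) ?_)
    (integrableAtFilter_rpow_atTop_iff.2 (by norm_num))).mono_set Ioi_subset_Ici_self
  filter_upwards [eventually_ge_atTop a] with r hr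
  have r0 := a0.trans_le hr
  have := cmp' a0 (F := fun r => -(n + 2) * log r) (fun x hx => (hasDerivAt_log hx.ne').const_mul _)
    (fun x _ => (h.1 0 m.zero_le).1 x) (fun x hx => by
      have := ha x hx.le
      rw [rpow_neg_one] at this
      linarith) hr
  rw [norm_of_nonneg (by positivity), norm_of_nonneg (by positivity), ← rpow_natCast,
    rpow_def_of_pos r0, rpow_def_of_pos r0, ← exp_add, ← exp_add]
  exact exp_le_exp.2 (by linarith)

theorem Ch.mass (h : Ch n m v d) (n0 : n ≠ 0) {r : ℝ} (hr : 0 ≤ r) :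
    ∫ s in (0)..r, s ^ n * exp (v 0 s) = r ^ n * (-1 * d m r) := by
  have a := (h.1 m le_rfl).smul (-1)
  have := a.2.1
  rw [intervalIntegral.integral_eq_sub_of_hasDerivAt_of_le hr (f := fun s => s ^ n * (-1 * d m s))
    (Continuous.continuousOn (by fun_prop)) (fun x hx => (a.2.2 x hx.1).congr_deriv (by
      simp [h.2 x hx.1])) (h.cont.intervalIntegrable _ _)]
  simp [n0]

theorem Ch.top (h : Ch n m v d) (n0 : n ≠ 0) (r : ℝ) (hr : 0 < r) : 1 * d m r ≤ 0 := by
  simpa using (h.1 m le_rfl).lin n0 (c := 0) (fun r hr => by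
    rw [h.2 r hr, neg_nonpos]; positivity) hr

theorem Ch.int (h : Ch (2 * m + 1) m v d) :
    IntegrableOn (fun r => r ^ (2 * m + 1) * exp (v 0 r)) (Ioi 0) := by
  by_contra hn
  have n0 : 2 * m + 1 ≠ 0 := by omega
  have no : ∀ s : ℝ, s = 1 ∨ s = -1 → ¬ Big (fun r => s * d 0 r) (-1) := by
    rintro s (rfl | rfl) hb
    · exact h.nopos n0 (by simpa using hb)
    · exact hn (h.fin hb)
  have key : ∀ j k : ℕ, j + k = m → ∃ s : ℝ, (s = 1 ∨ s = -1) ∧ (∀ r, 0 < r → s * d k r ≤ 0) ∧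
      Big (fun r => -(s * d k r)) (-(2 * k) - 1) := by
    intro j
    induction j with
    | zero =>
      rintro k rfl
      simp only [zero_add] at *
      refine ⟨1, Or.inl rfl, h.top n0, (Big.div (n := 2 * k + 1)).1 fun K => ?_⟩
      obtain ⟨a, h1, a0⟩ : ∃ a, K < ∫ s in (0)..a, ‖s ^ (2 * k + 1) * exp (v 0 s)‖ ∧ 0 < a := by
        by_contra hc
        push Not at hc
        exact hn (integrableOn_Ioi_of_intervalIntegral_norm_bounded K 0 (fun i =>
          h.cont.integrableOn_Ioc) tendsto_id ((eventually_gt_atTop 0).mono fun r hr =>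
            not_lt.1 fun h => (hc r h).not_gt hr))
      filter_upwards [eventually_ge_atTop a] with r hr
      have := intervalIntegral.integral_mono_interval le_rfl a0.le hr (ae_of_all _ fun s =>
        norm_nonneg _) (h.cont.norm.intervalIntegrable (μ := volume) 0 r)
      rw [intervalIntegral.integral_congr (b := r) (g := fun s => s ^ (2 * k + 1) * exp (v 0 s))
        (fun s hs => by
          rw [uIcc_of_le (a0.le.trans hr)] at hs
          have := hs.1
          exact norm_of_nonneg (by positivity)), h.mass n0 (a0.le.trans hr)] at this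
      rw [show ((2 * k + 1 : ℕ) : ℝ) + (-(2 * k) - 1) = 0 by push_cast; ring, rpow_zero]
      linarith
    | succ j ih =>
      intro k hk
      obtain ⟨s, hs, h1, h2⟩ := ih (k + 1) (by omega)
      have a := (h.1 (k + 1) (by omega)).smul s
      have b := (h.1 k (by omega)).smul (-s)
      have p : ∀ r, 0 < r → 0 ≤ s * v (k + 1) r := fun r hr => not_lt.1 fun hlt =>
        no (-s) (by rcases hs with rfl | rfl <;> simp) ((h.chain n0 (-s) k (by omega)
          (Big.const (neg_pos.2 hlt) ((eventually_ge_atTop r).mono fun x hx => by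
            linarith [a.anti h1 hr.le hx]))).mono (by norm_num))
      refine ⟨-s, by rcases hs with rfl | rfl <;> simp, fun r hr => by
        simpa using b.lin n0 (c := 0) (fun r hr => by linarith [p r hr]) hr, ?_⟩
      have : (k : ℝ) + 1 ≤ m := by exact_mod_cast (by omega : k + 1 ≤ m)
      have := ((h.1 k (by omega)).smul s).flux (by push_cast; linarith)
        (down (by positivity) (fun r _ => a.1 r) h2 p)
      rw [show -(2 * ((k + 1 : ℕ) : ℝ)) + 1 = -(2 * k) - 1 by push_cast; ring] at this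
      simpa only [neg_mul, neg_neg] using this
  obtain ⟨s, hs, -, h2⟩ := key m 0 rfl
  exact no (-s) (by rcases hs with rfl | rfl <;> simp) (by simpa using h2)

theorem Ch.small (h : Ch n (m + 1) v d) (n0 : n ≠ 0) {e : ℝ} (e0 : 0 < e) :
    ∃ s, 0 < s ∧ ∀ r, s ≤ r → v (m + 1) r ≤ e := by
  by_contra hc
  push Not at hc
  have an := fun a r => ((h.1 _ le_rfl).smul 1).anti (h.top n0) (a := a) (r := r)
  have := (h.chain n0 1 m m.le_succ (Big.const e0 ((eventually_gt_atTop 0).mono fun r hr => by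
    obtain ⟨x, h1, h2⟩ := hc r hr
    linarith [an r x hr.le h1]))).mono (q := -1) (by norm_num)
  exact h.nopos n0 (by simpa using this)

theorem Ch.mle (h : Ch (2 * m + 1) m v d) {r : ℝ} (hr : 0 ≤ r) : r ^ (2 * m + 1) * (-1 * d m r) ≤
    ∫ s in Ioi 0, s ^ (2 * m + 1) * exp (v 0 s) := by
  rw [← h.mass (by omega) hr, intervalIntegral.integral_of_le hr]
  exact setIntegral_mono_set h.int ((ae_restrict_mem measurableSet_Ioi).mono fun s (hs : 0 < s) => by
    simp only [Pi.zero_apply]; positivity) Ioc_subset_Ioi_self.eventuallyLE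

theorem Ch.half (h : Ch (2 * (m + 2) + 1) (m + 2) v d) (h1 : v (m + 1) 0 = -1)
    (h2 : v (m + 2) 0 ≤ 1 / 8) (h3 : ∫ s in Ioi 0, s ^ (2 * (m + 2) + 1) * exp (v 0 s) ≤ 1 / 8)
    (r : ℝ) (hr : 0 < r) : v (m + 1) r ≤ -1 / 2 := by
  have ml := fun r => h.mle (r := r)
  generalize hn : 2 * (m + 2) + 1 = n at *
  have n0 : n ≠ 0 := by omega
  have n2 : (2 : ℝ) ≤ n := by exact_mod_cast (by omega : 2 ≤ n)
  have a := h.1 _ le_rfl
  have b := h.1 (m + 1) (by omega)
  have w : ∀ x, 0 < x → x ^ n * v (m + 2) x ≤ 1 / 8 * (2 * x) := fun x hx => by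
    have : v (m + 2) x ≤ 1 / 8 * x ^ (1 - n : ℝ) := le_of_forall_pos_le_add fun e e0 => by
      obtain ⟨s, s0, hs⟩ := h.small n0 e0
      have := cmp' hx (G := fun y => 1 / 8 * y ^ (1 - n : ℝ)) (fun y _ => a.1 y)
        (fun y hy => (hasDerivAt_rpow_const (Or.inl hy.ne')).const_mul _) (fun y hy => by
          have y0 := hx.trans hy
          have p := pow_pos y0 n
          refine le_of_mul_le_mul_left ?_ p
          rw [show (1 : ℝ) - n - 1 = -n by ring, rpow_neg y0.le, rpow_natCast, mul_left_comm,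
            mul_left_comm (y ^ n), mul_inv_cancel₀ p.ne']
          linarith [ml y y0.le]) (le_max_left x s)
      linarith [hs _ (le_max_right x s), rpow_nonneg (hx.le.trans (le_max_left x s)) (1 - n : ℝ)]
    rw [rpow_sub hx, rpow_one, rpow_natCast, ← mul_div_assoc, le_div_iff₀' (pow_pos hx n)] at this
    linarith
  have := b.four (by omega) (c := 1 / 8) (by norm_num) (fun x hx => (a.anti (by
    simpa using h.top n0) le_rfl hx.le).trans h2) (fun x hx => by
      simpa using b.le n0 (G := fun y => 1 / 8 * y ^ 2) (by fun_prop) (fun y _ =>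
        ((hasDerivAt_pow 2 y).const_mul _).congr_deriv (by norm_num)) w (zero_le_one.trans hx)) hr.le
  linarith

theorem tiny (m : ℕ) : ∃ K : ℝ, ∀ v d : ℕ → ℝ → ℝ, Ch (2 * (m + 2) + 1) (m + 2) v d → v 0 0 = K →
    (∀ i ≤ m, v (i + 1) 0 = -1) → (∀ r, 0 < r → v (m + 1) r ≤ -1 / 2) →
      ∫ s in Ioi 0, s ^ (2 * (m + 2) + 1) * exp (v 0 s) ≤ 1 / 64 ∧ v (m + 2) 0 ≤ 1 / 16 := by
  have ml := fun v d (h : Ch (2 * (m + 2) + 1) (m + 2) v d) r => h.mle (r := r)
  have mi := fun v d (h : Ch (2 * (m + 2) + 1) (m + 2) v d) => h.int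
  generalize hn : 2 * (m + 2) + 1 = n at *
  have n0 : n ≠ 0 := by omega
  obtain ⟨b, hb⟩ : ∃ b : ℝ, b = 1 / 4 / (n + 1) := ⟨_, rfl⟩
  have b0 : 0 < b := by rw [hb]; positivity
  have gi := integrableOn_rpow_mul_exp_neg_mul_sq b0 (s := n) (by linarith [n.cast_nonneg (α := ℝ)])
  simp only [rpow_natCast] at gi
  obtain ⟨C, hC⟩ : ∃ C : ℝ, C = ∫ s in Ioi 0, s ^ n * exp (-b * s ^ 2) := ⟨_, rfl⟩
  refine ⟨log (1 / 64 / (|C| + 1)), fun v d h h0 h1 h2 => ?_⟩
  have e0 : exp (v 0 0) * (|C| + 1) = 1 / 64 := by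
    rw [h0, exp_log (by positivity), div_mul_cancel₀ _ (by positivity)]
  have ep := exp_pos (v 0 0)
  have dn : ∀ j i, j + i = m → ∀ r, 0 < r → v (i + 1) r ≤ -1 / 2 := by
    intro j
    induction j with
    | zero => rintro i rfl; simpa only [zero_add] using h2
    | succ j ih =>
      intro i hi r hr
      have a := h.1 (i + 1) (by omega)
      linarith [h1 i (by omega), a.anti (fun x hx => by
        simpa using a.lin n0 (c := 0) (fun y hy => by linarith [ih (i + 1) (by omega) y hy]) hx)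
          le_rfl hr.le]
  have a := h.1 0 (by omega)
  have u : ∀ r, 0 < r → exp (v 0 r) ≤ exp (v 0 0) * exp (-b * r ^ 2) := fun r hr => by
    have := cmp (F := fun y => -b * y ^ 2) (Continuous.continuousOn (by fun_prop))
      (fun x _ => (a.1 x).continuousAt.continuousWithinAt) (fun y _ => (hasDerivAt_pow 2 y).const_mul _)
      (fun y _ => a.1 y) (fun y hy => (a.lin n0 (dn m 0 rfl) hy).trans_eq (by
        rw [hb]; norm_num; ring)) hr.le
    rw [← exp_add]
    exact exp_le_exp.2 (by linarith)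
  have i1 : ∫ s in Ioi 0, s ^ n * exp (v 0 s) ≤ 1 / 64 := by
    refine (setIntegral_mono_on (mi v d h) (gi.const_mul (exp (v 0 0))) measurableSet_Ioi
      fun s (hs : 0 < s) => ?_).trans ?_
    · rw [mul_left_comm]
      exact mul_le_mul_of_nonneg_left (u s hs) (by positivity)
    · rw [integral_const_mul, ← hC]
      nlinarith [le_abs_self C]
  refine ⟨i1, le_of_forall_pos_le_add fun e e1 => ?_⟩
  obtain ⟨s, s0, hs⟩ := h.small n0 e1
  have := ((h.1 _ le_rfl).smul (-1)).four (by omega) (c := 1 / 64) (by norm_num) (fun r hr => by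
    have : exp (-b * r ^ 2) ≤ 1 := exp_le_one_iff.2 (by nlinarith [sq_nonneg r])
    rw [h.2 r hr]
    nlinarith [u r hr, abs_nonneg C]) (fun r hr => by
      nlinarith [ml v d h r (zero_le_one.trans hr)]) s0.le
  linarith [hs s le_rfl]

theorem Sol.ch {a : Fin (m + 1) → ℝ} {u : ℝ → ℝ} (h : Sol (m + 1) a u) : ∃ v d : ℕ → ℝ → ℝ,
    Ch (2 * m + 1) m v d ∧ v 0 = u ∧ ∀ i : Fin (m + 1), v i 0 = a i := by
  obtain ⟨v, rfl, h1, h2⟩ := h
  refine ⟨v, fun i => deriv (v i), ⟨fun i hi => ?_, h1⟩, rfl, fun i => (h2 i).2.1⟩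
  obtain ⟨c, -, -, e⟩ := h2 ⟨i, by omega⟩
  have c1 : ContDiff ℝ 1 (deriv (v i)) := c.iterate_deriv' 1 1
  refine ⟨fun r => (c.differentiable (by norm_num) r).hasDerivAt, c1.continuous, fun r hr => ?_⟩
  rw [← e r hr, lap, show 2 * (m + 1) - 1 = 2 * m + 1 from rfl, mul_inv_cancel_left₀ (pow_pos hr _).ne']
  have := c1.differentiable one_ne_zero
  exact DifferentiableAt.hasDerivAt (by fun_prop)

theorem disc (u : (Fin (m + 3) → ℝ) → ℝ → ℝ) (hu : ∀ a, Sol (m + 3) a (u a)) :
    ¬ Continuous fun a => ∫ s in Ioi (0 : ℝ), s ^ (2 * (m + 2) + 1) * exp (u a s) := fun hc => by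
  obtain ⟨K, hK⟩ := tiny m
  let a : ℝ → Fin (m + 3) → ℝ := fun t i => if i.1 = 0 then K else if i.1 = m + 2 then t else -1
  have ac : Continuous a := continuous_pi fun i => by
    simp only [a]; split_ifs <;> fun_prop
  have key : ∀ t, ∃ v d : ℕ → ℝ → ℝ, Ch (2 * (m + 2) + 1) (m + 2) v d ∧ v 0 = u (a t) ∧ v 0 0 = K ∧
      (∀ i ≤ m, v (i + 1) 0 = -1) ∧ v (m + 2) 0 = t := fun t => by
    obtain ⟨v, d, h, h0, h1⟩ := (hu (a t)).ch
    refine ⟨v, d, h, h0, h1 0, fun i hi => (h1 ⟨i + 1, by omega⟩).trans ?_,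
      (h1 ⟨m + 2, by omega⟩).trans (by simp [a])⟩
    simp only [a]
    rw [if_neg (by omega), if_neg (by omega)]
  have k2 : ∀ t ≤ 1 / 8, ∫ s in Ioi (0 : ℝ), s ^ (2 * (m + 2) + 1) * exp (u (a t) s) ≤ 1 / 8 →
      ∫ s in Ioi (0 : ℝ), s ^ (2 * (m + 2) + 1) * exp (u (a t) s) ≤ 1 / 64 ∧ t ≤ 1 / 16 :=
    fun t ht hi => by
      obtain ⟨v, d, h, h0, h1, h2, h3⟩ := key t
      rw [← h0] at hi ⊢
      exact h3 ▸ hK v d h h1 h2 (h.half (h2 m le_rfl) (h3 ▸ ht) hi)
  obtain ⟨t, ht, h0⟩ := intermediate_value_Icc (a := 0) (b := 1 / 8) (by norm_num)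
    (hc.comp ac).continuousOn (show (1 / 8 : ℝ) ∈ _ from ⟨by
      obtain ⟨v, d, h, h0, h1, h2, h3⟩ := key 0
      have n0 : 2 * (m + 2) + 1 ≠ 0 := by omega
      have b := h.1 (m + 1) (by omega)
      have := (hK v d h h1 h2 fun r hr => by
        linarith [h2 m le_rfl, b.anti (fun x hx => by
          simpa using b.lin n0 (c := 0) (fun y hy => h3 ▸ (h.1 _ le_rfl).anti (by
            simpa using h.top n0) le_rfl hy.le) hx) le_rfl hr.le]).1
      rw [h0] at this
      exact this.trans (by norm_num), not_lt.1 fun h => by linarith [(k2 _ le_rfl h.le).2]⟩)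
  have := (k2 t ht.2 h0.le).1
  linarith [show _ = (1 / 8 : ℝ) from h0, h0.symm.trans_le this]

end Pool.Agent.H94.QV
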