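import Pool.Agent.H94.QV2

set_option autoImplicit false
namespace Pool.Agent.H94.QV
open Set MeasureTheory Filter Topology Real

/-- `u` is the profile of the radial solution on `ℝ^4` with `u''(0) = a`; `w` is the profile of
its Laplacian. -/
def Sol4 (a : ℝ) (u : ℝ → ℝ) : Prop :=
  ∃ w : ℝ → ℝ, ContDiff ℝ 2 u ∧ ContDiff ℝ 2 w ∧ u 0 = 0 ∧ deriv u 0 = 0 ∧ deriv (deriv u) 0 = a ∧
    deriv w 0 = 0 ∧ ∀ r, 0 < r → deriv (deriv u) r + 3 / r * deriv u r = w r ∧
      deriv (deriv w) r + 3 / r * deriv w r = -6 * Real.exp (4 * u r)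

theorem lr3 {f g : ℝ → ℝ} (c : ContDiff ℝ 2 f)
    (e : ∀ r, 0 < r → deriv (deriv f) r + 3 / r * deriv f r = g r) : LR 3 f (deriv f) g := by
  have c1 : ContDiff ℝ 1 (deriv f) := c.iterate_deriv' 1 1
  refine ⟨fun r => (c.differentiable (by norm_num) r).hasDerivAt, c1.continuous, fun r hr =>
    ((hasDerivAt_pow 3 r).fun_mul (c1.differentiable one_ne_zero r).hasDerivAt).congr_deriv ?_⟩
  rw [← e r hr]
  field_simp
  norm_num
  ring

theorem Sol4.ch {a : ℝ} {u : ℝ → ℝ} (h : Sol4 a u) : ∃ v d : ℕ → ℝ → ℝ, Ch 3 1 v d ∧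
    (∀ r, exp (v 0 r) = 24 * exp (4 * u r)) ∧ v 0 0 = log 24 ∧ v 1 0 = 16 * a := by
  obtain ⟨w, cu, cw, u0, u1, u2, -, e⟩ := h
  have a1 := (lr3 cu fun r hr => (e r hr).1).smul 4
  have a2 := (lr3 cw fun r hr => (e r hr).2).smul 4
  have ex : ∀ r, exp (4 * u r + log 24) = 24 * exp (4 * u r) := fun r => by
    rw [exp_add, exp_log (by norm_num), mul_comm]
  refine ⟨fun i => match i with
    | 0 => fun r => 4 * u r + log 24
    | 1 => fun r => 4 * w r
    | _ => fun r => 4 * (-6 * exp (4 * u r)), fun i => match i with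
    | 0 => fun r => 4 * deriv u r
    | _ => fun r => 4 * deriv w r, ⟨fun i hi => ?_, fun r _ => ?_⟩, ex, by simp [u0], ?_⟩
  · interval_cases i
    · exact ⟨fun r => (a1.1 r).add_const _, a1.2⟩
    · exact a2
  · simp only [ex]; ring
  · have c1 : ContDiff ℝ 1 (deriv u) := cu.iterate_deriv' 1 1
    have t1 := (hasDerivAt_iff_tendsto_slope_zero.1
      (c1.differentiable one_ne_zero 0).hasDerivAt).mono_left (nhdsGT_le_nhdsNE 0)
    have t2 := ((c1.continuous_deriv le_rfl).tendsto 0).mono_left (nhdsWithin_le_nhds (s := Ioi 0))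
    have := tendsto_nhds_unique ((t2.add (t1.const_mul 3)).congr' (by
      filter_upwards [self_mem_nhdsWithin] with r hr
      rw [← (e r hr).1, u1, zero_add, sub_zero, smul_eq_mul, ← mul_assoc, ← div_eq_mul_inv]))
      ((cw.continuous.tendsto 0).mono_left nhdsWithin_le_nhds)
    simp only [← this, u2]
    ring

theorem big {v d : ℕ → ℝ → ℝ} (h : Ch 3 1 v d) (h0 : v 0 0 = log 24) {T : ℝ} (T0 : 0 < T)
    (h1 : 48 * exp T + 1 ≤ v 1 0) : 4 * T ≤ ∫ s in Ioi 0, s ^ 3 * exp (v 0 s) := by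
  have ml := fun r => Ch.mle (m := 1) h (r := r)
  simp only [mul_one, show 2 + 1 = 3 from rfl] at ml
  generalize ∫ s in Ioi 0, s ^ 3 * exp (v 0 s) = I at *
  generalize hα : v 1 0 = α at *
  have eT := exp_pos T
  have α0 : 0 < α := by linarith
  have a := h.1 1 le_rfl
  have b := h.1 0 zero_le_one
  have n0 : (3 : ℕ) ≠ 0 := by norm_num
  have I0 : 0 ≤ I := by simpa using ml 0 le_rfl
  have w : ∀ x, 0 < x → v 1 x ≤ I * (x ^ 2)⁻¹ := fun x hx => le_of_forall_pos_le_add fun e e0 => by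
    obtain ⟨s, s0, hs⟩ := Ch.small (m := 0) h n0 e0
    have := cmp' hx (G := fun y => I * (y ^ 2)⁻¹) (fun y _ => a.1 y)
      (fun y hy => ((hasDerivAt_pow 2 y).fun_inv (by positivity)).const_mul _) (fun y hy => by
        have y0 := hx.trans hy
        refine le_of_mul_le_mul_left ?_ (pow_pos y0 3)
        rw [show y ^ 3 * (I * (-((2 : ℕ) * y ^ (2 - 1)) / (y ^ 2) ^ 2)) = -(2 * I) by
          norm_num; field_simp]
        linarith [ml y y0.le]) (le_max_left x s)
    have : 0 ≤ I * (max x s ^ 2)⁻¹ := by positivity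
    linarith [hs _ (le_max_right x s)]
  have dq : ∀ y : ℝ, HasDerivAt (fun y : ℝ => α / 8 * y ^ 2) (α / 4 * y) y := fun y =>
    ((hasDerivAt_pow 2 y).const_mul _).congr_deriv (by norm_num; ring)
  have u : ∀ r, 0 < r → exp (v 0 r) ≤ 24 * exp (α / 8 * r ^ 2) := fun r hr => by
    have := cmp (fun y _ => (dq y).continuousAt.continuousWithinAt)
      (fun x _ => (b.1 x).continuousAt.continuousWithinAt) (fun y _ => dq y)
      (fun y _ => b.1 y) (fun y hy => (b.lin n0 (c := α) (fun x hx => hα ▸ a.anti (by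
        simpa using h.top n0) le_rfl hx.le) hy).trans_eq (by norm_num)) hr.le
    rw [← exp_log (show (0 : ℝ) < 24 by norm_num), ← exp_add]
    exact exp_le_exp.2 (by linarith)
  have f : ∀ y, 0 < y → -1 * d 1 y ≤ 24 / α * (exp (α / 8 * y ^ 2) * (α / 4 * y)) := fun y hy => by
    have := (a.smul (-1)).le n0 (G := fun s => 6 * s ^ 4 * exp (α / 8 * s ^ 2)) (by fun_prop)
      (fun s _ => ((hasDerivAt_pow 4 s).const_mul 6).fun_mul (dq s).exp) (fun s hs => by
        rw [h.2 s hs]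
        have := mul_le_mul_of_nonneg_left (u s hs) (pow_pos hs 3).le
        have : 0 ≤ 6 * s ^ 4 * (exp (α / 8 * s ^ 2) * (α / 4 * s)) := by positivity
        norm_num at *
        linarith) hy.le
    refine le_of_mul_le_mul_left (this.trans_eq ?_) (pow_pos hy 3)
    field_simp
    ring
  have R0 : 0 < √(8 * T / α) := by positivity
  have := cmp (fun y _ => ((dq y).exp.const_mul (24 / α)).continuousAt.continuousWithinAt)
    (fun x _ => ((a.smul (-1)).1 x).continuousAt.continuousWithinAt)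
    (fun y _ => (dq y).exp.const_mul (24 / α)) (fun y _ => (a.smul (-1)).1 y) f R0.le
  have w1 := w _ R0
  rw [sq_sqrt (by positivity)] at this w1
  rw [show α / 8 * (8 * T / α) = T by field_simp, hα] at this
  have a1 : 24 / α * exp T ≤ α / 2 := by
    rw [div_mul_eq_mul_div, div_le_iff₀ α0]; nlinarith
  have a2 : 0 ≤ 24 / α * exp (α / 8 * 0 ^ 2) := by positivity
  have a3 : α / 2 ≤ I * (8 * T / α)⁻¹ := by linarith
  rw [inv_div, ← mul_div_assoc, le_div_iff₀ (by positivity)] at a3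
  nlinarith

end Pool.Agent.H94.QV
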