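import Mathlib

set_option autoImplicit false
namespace Pool.Agent.H94.Qw
open Real Finset Matrix

/-- Adjacency matrix of the path on `n` vertices. -/
def adj (n : ℕ) : Matrix (Fin n) (Fin n) ℂ :=
  fun a b => if (a : ℕ) + 1 = b ∨ (b : ℕ) + 1 = a then 1 else 0

/-- Mixing matrix `M(t)`. -/
noncomputable def mix (n : ℕ) (t : ℝ) : Matrix (Fin n) (Fin n) ℝ :=
  fun a b => ‖NormedSpace.exp ((Complex.I * t) • adj n) a b‖ ^ 2

noncomputable def dl (n : ℕ) (m : ℤ) : ℝ := if (2 * (n + 1) : ℤ) ∣ m then 1 else 0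
noncomputable def x (n : ℕ) (a : ℕ) : ℝ := (a + 1) * (π / (n + 1))
noncomputable def v (n : ℕ) (p a : ℕ) : ℝ := sin ((p + 1) * x n a)

theorem v_comm (n p a : ℕ) : v n p a = v n a p := by unfold v x; congr 1; ring

theorem S (n : ℕ) (m : ℤ) :
    ∑ a : Fin n, cos (m * x n a) = (n + 1) * dl n m - if Even m then 1 else 0 := by
  have N : (n + 1 : ℝ) ≠ 0 := by positivity
  unfold dl
  by_cases h : (2 * (n + 1) : ℤ) ∣ m
  · obtain ⟨k, rfl⟩ := h
    rw [if_pos (dvd_mul_right _ _), if_pos (by simp [parity_simps]), sum_congr rfl (g := fun _ => 1)]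
    · simp
    · intro a _
      rw [← cos_int_mul_two_pi (k * (a + 1))]
      congr 1; unfold x; push_cast; field_simp
  have s : sin (m * (π / (n + 1)) / 2) ≠ 0 := fun e => by
    obtain ⟨k, hk⟩ := sin_eq_zero_iff.1 e
    refine h ⟨k, ?_⟩
    field_simp at hk
    exact_mod_cast (by linarith : (m : ℝ) = 2 * (n + 1) * k)
  rw [if_neg h, Fin.sum_univ_eq_sum_range (fun a => cos (m * x n a))]
  refine mul_left_cancel₀ (mul_ne_zero two_ne_zero s) ?_
  have t := sum_range_sub (fun a : ℕ => sin (m * x n a - m * (π / (n + 1)) / 2)) n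
  rw [mul_sum, sum_congr rfl (g := fun a : ℕ => sin (m * x n (a + 1) - m * (π / (n + 1)) / 2) -
    sin (m * x n a - m * (π / (n + 1)) / 2)), t]
  · rw [show m * x n n = m * π by unfold x; field_simp, sin_sub, sin_int_mul_pi, cos_int_mul_pi,
      show m * x n 0 - m * (π / (n + 1)) / 2 = m * (π / (n + 1)) / 2 by unfold x; push_cast; ring]
    split_ifs with e
    · rw [e.neg_one_zpow]; ring
    · rw [(Int.not_even_iff_odd.1 e).neg_one_zpow]; ring
  · intro a _
    rw [show m * x n (a + 1) - m * (π / (n + 1)) / 2 = m * x n a + m * (π / (n + 1)) / 2 by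
      unfold x; push_cast; ring, sin_add, sin_sub]
    ring

noncomputable def dd (n : ℕ) (j : ℤ) (p q : ℕ) : ℝ :=
  dl n (p - q + j) + dl n (p - q - j) - dl n (p + q + 2 + j) - dl n (p + q + 2 - j)

theorem D (n : ℕ) (j : ℤ) (p q : ℕ) :
    ∑ a : Fin n, cos (j * x n a) * (v n p a * v n q a) = (n + 1) / 4 * dd n j p q := by
  have h1 := S n (p - q + j)
  have h2 := S n (p - q - j)
  have h3 := S n (p + q + 2 + j)
  have h4 := S n (p + q + 2 - j)
  have e : ∀ a : Fin n, cos (j * x n a) * (v n p a * v n q a) =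
      (cos ((p - q + j : ℤ) * x n a) + cos ((p - q - j : ℤ) * x n a) - cos ((p + q + 2 + j : ℤ) * x n a) -
        cos ((p + q + 2 - j : ℤ) * x n a)) / 4 := fun a => by
    unfold v
    push_cast
    rw [show (p - q + j : ℝ) * x n a = (p + 1) * x n a - (q + 1) * x n a + j * x n a by ring,
      show (p - q - j : ℝ) * x n a = (p + 1) * x n a - (q + 1) * x n a - j * x n a by ring,
      show (p + q + 2 + j : ℝ) * x n a = (p + 1) * x n a + (q + 1) * x n a + j * x n a by ring,
      show (p + q + 2 - j : ℝ) * x n a = (p + 1) * x n a + (q + 1) * x n a - j * x n a by ring]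
    simp only [cos_add, cos_sub, sin_add, sin_sub]
    ring
  simp only [e, ← sum_div, sum_sub_distrib, sum_add_distrib, h1, h2, h3, h4, dd, Int.even_iff]
  split_ifs <;> first | omega | ring

theorem dl_eq {n : ℕ} {m : ℤ} (h1 : -(4 * (n + 1)) < m) (h2 : m < 4 * (n + 1)) :
    dl n m = if m = 0 ∨ m = 2 * (n + 1) ∨ m = -(2 * (n + 1)) then 1 else 0 := by
  unfold dl
  congr 1
  refine propext ⟨fun ⟨k, hk⟩ => ?_, fun h => ?_⟩
  · have a : k < 2 := by nlinarith
    have b : -2 < k := by nlinarith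
    interval_cases k <;> omega
  · rcases h with h | h | h <;> simp [h]

theorem orth (n : ℕ) (p q : Fin n) :
    ∑ a : Fin n, v n p a * v n q a = if p = q then (n + 1 : ℝ) / 2 else 0 := by
  have := D n 0 p q
  have hp := p.2
  have hq := q.2
  simp only [Int.cast_zero, zero_mul, cos_zero, one_mul, dd] at this
  rw [this, dl_eq (by omega) (by omega), dl_eq (by omega) (by omega), dl_eq (by omega) (by omega),
    dl_eq (by omega) (by omega)]
  simp only [Fin.ext_iff]
  split_ifs <;> first | omega | ring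

theorem eig (n : ℕ) (p : ℕ) (a : Fin n) :
    ∑ b : Fin n, adj n a b * (v n p b : ℂ) = v n p a * (2 * cos (x n p) : ℝ) := by
  have N : (n + 1 : ℝ) ≠ 0 := by positivity
  have e : ∀ b : Fin n, adj n a b * (v n p b : ℂ) = (if (a : ℕ) + 1 = b then (v n p b : ℂ) else 0) +
      if (b : ℕ) + 1 = a then (v n p b : ℂ) else 0 := fun b => by
    unfold adj; split_ifs <;> first | omega | simp
  have u : ∑ b : Fin n, (if (a : ℕ) + 1 = b then (v n p b : ℂ) else 0) = v n p (a + 1) := by
    rw [Fin.sum_univ_eq_sum_range (fun b => if (a : ℕ) + 1 = b then (v n p b : ℂ) else 0), sum_ite_eq]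
    split_ifs with h
    · rfl
    · rw [show (a : ℕ) + 1 = n by have := a.2; simp at h; omega, v, show (p + 1 : ℝ) * x n n =
        (p + 1 : ℕ) * π by unfold x; push_cast; field_simp, sin_nat_mul_pi]; simp
  have w : ∑ b : Fin n, (if (b : ℕ) + 1 = a then (v n p b : ℂ) else 0) =
      (sin ((p + 1) * x n a - x n p) : ℝ) := by
    obtain ⟨_ | a, ha⟩ := a
    · rw [show (p + 1) * x n (⟨0, ha⟩ : Fin n) - x n p = 0 by unfold x; simp]; simp
    · rw [Fin.sum_univ_eq_sum_range (fun b => if b + 1 = a + 1 then (v n p b : ℂ) else 0)]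
      simp only [add_left_inj, sum_ite_eq', mem_range, if_pos (Nat.lt_of_succ_lt ha), v]
      congr 2; unfold x; push_cast; ring
  simp only [e, sum_add_distrib, u, w]
  rw [v, v, show (p + 1 : ℝ) * x n (a + 1) = (p + 1) * x n a + x n p by unfold x; push_cast; ring,
    sin_add, sin_sub]
  push_cast; ring

theorem mix_eq (n : ℕ) (t : ℝ) (a b : Fin n) : mix n t a b = (2 / (n + 1)) ^ 2 * ∑ p : Fin n, ∑ q : Fin n,
    cos (t * (2 * cos (x n p) - 2 * cos (x n q))) * (v n p a * v n q a * (v n p b * v n q b)) := by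
  have N : (n + 1 : ℂ) ≠ 0 := by exact_mod_cast Nat.succ_ne_zero n
  let V : Matrix (Fin n) (Fin n) ℂ := fun a p => v n p a
  have h1 : V * ((2 / (n + 1) : ℂ) • V) = 1 := by
    ext a b
    have := congrArg (fun r : ℝ => (r : ℂ)) (orth n a b)
    simp only [Complex.ofReal_sum, Complex.ofReal_mul] at this
    rw [Matrix.mul_smul, Matrix.smul_apply, mul_apply]
    simp only [V, v_comm n _ a, this, one_apply]
    split_ifs <;> simp [N]
  have h2 : (Complex.I * t) • adj n = V * diagonal (fun p : Fin n =>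
      ((t * (2 * cos (x n p)) : ℝ) : ℂ) * Complex.I) * V⁻¹ := by
    have : (Complex.I * t) • adj n * V = V * diagonal (fun p : Fin n =>
        ((t * (2 * cos (x n p)) : ℝ) : ℂ) * Complex.I) := by
      ext a p
      rw [mul_diagonal, Matrix.smul_mul, Matrix.smul_apply, mul_apply]
      simp only [V, eig, smul_eq_mul]; push_cast; ring
    rw [← this, inv_eq_right_inv h1, Matrix.mul_assoc, h1, Matrix.mul_one]
  have h3 : NormedSpace.exp ((Complex.I * t) • adj n) a b = ∑ p : Fin n,
      ((2 / (n + 1) * (v n p a * v n p b) : ℝ) : ℂ) *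
        Complex.exp (((t * (2 * cos (x n p)) : ℝ) : ℂ) * Complex.I) := by
    rw [h2, Matrix.exp_conj _ _ (IsUnit.of_mul_eq_one _ h1), Matrix.exp_diagonal, inv_eq_right_inv h1,
      mul_apply]
    refine sum_congr rfl fun p _ => ?_
    rw [mul_diagonal, Pi.coe_exp, ← Complex.exp_eq_exp_ℂ]
    simp only [V, Matrix.smul_apply, v_comm n b p, smul_eq_mul]; push_cast; ring
  rw [mix, h3, Complex.sq_norm, Complex.normSq_apply]
  simp only [Complex.re_sum, Complex.im_sum, Complex.re_ofReal_mul, Complex.im_ofReal_mul,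
    Complex.exp_ofReal_mul_I_re, Complex.exp_ofReal_mul_I_im]
  rw [sum_mul_sum, sum_mul_sum]
  simp only [← sum_add_distrib, mul_sum, mul_sub, cos_sub]
  exact sum_congr rfl fun p _ => sum_congr rfl fun q _ => by ring

end Pool.Agent.H94.Qw
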