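import Pool.Agent.H94.Qw1

set_option autoImplicit false
namespace Pool.Agent.H94.Qw
open Real Finset Matrix MeasureTheory

/-- The averaged mixing matrix for the density `f`. -/
noncomputable def avg (n : ℕ) (f : ℝ → ℝ) : Matrix (Fin n) (Fin n) ℝ :=
  fun a b => ∫ s, f s * mix n s a b

theorem mix_symm (n : ℕ) (t : ℝ) (a b : Fin n) : mix n t a b = mix n t b a := by
  simp only [mix_eq, mul_comm (v n _ a * v n _ a)]

theorem row (n : ℕ) (t : ℝ) (a : Fin n) : ∑ b, mix n t a b = 1 := by
  have N : (n + 1 : ℝ) ≠ 0 := by positivity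
  simp only [mix_eq, ← mul_sum]
  rw [sum_comm, sum_congr rfl fun p _ => sum_comm]
  simp only [← mul_sum, orth, mul_ite, mul_zero, sum_ite_eq, mem_univ, if_true, sub_self, cos_zero,
    one_mul, ← sum_mul, v_comm n _ a]
  field_simp

theorem G (n : ℕ) (t : ℝ) (j l : ℤ) : ∑ a : Fin n, ∑ b : Fin n, cos (j * x n a) * cos (l * x n b) *
    mix n t a b = 1 / 4 * ∑ p : Fin n, ∑ q : Fin n, cos (t * (2 * cos (x n p) - 2 * cos (x n q))) *
      (dd n j p q * dd n l p q) := by
  have N : (n + 1 : ℝ) ≠ 0 := by positivity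
  have e : ∀ p q : Fin n, dd n j p q * dd n l p q = (4 / (n + 1)) ^ 2 * ∑ a : Fin n, ∑ b : Fin n,
      cos (j * x n a) * (v n p a * v n q a) * (cos (l * x n b) * (v n p b * v n q b)) := fun p q => by
    rw [← sum_mul_sum, D, D]; field_simp
  simp only [mix_eq, e, mul_sum]
  rw [sum_congr rfl fun a _ => sum_comm, sum_comm]
  refine sum_congr rfl fun p _ => ?_
  rw [sum_congr rfl fun a _ => sum_comm, sum_comm]
  exact sum_congr rfl fun q _ => sum_congr rfl fun a _ => sum_congr rfl fun b _ => by
    field_simp; ring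

theorem G2 {n : ℕ} (t : ℝ) {r s : ℕ} (h1 : r < s) (h2 : s < n) : ∑ a : Fin n, ∑ b : Fin n,
    cos ((s - r : ℤ) * x n a) * cos ((s + r + 2 : ℤ) * x n b) * mix n t a b =
      -cos (t * (2 * cos (x n r) - 2 * cos (x n s))) := by
  have N : (n + 1 : ℝ) ≠ 0 := by positivity
  have e : ∀ p q : Fin n, dd n (s - r) p q * dd n (s + r + 2) p q =
      -((if (p : ℕ) = r ∧ (q : ℕ) = s then 1 else 0) + (if (p : ℕ) = s ∧ (q : ℕ) = r then 1 else 0) +
        (if (p : ℕ) = n - 1 - r ∧ (q : ℕ) = n - 1 - s then 1 else 0) +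
        if (p : ℕ) = n - 1 - s ∧ (q : ℕ) = n - 1 - r then 1 else 0) := fun p q => by
    have hp := p.2
    have hq := q.2
    have z : ∀ (c : Prop) [Decidable c] (m : ℤ), -(4 * (n + 1 : ℤ)) < m → m < 4 * (n + 1) →
        ((m = 0 ∨ m = 2 * (n + 1) ∨ m = -(2 * (n + 1))) ↔ c) → dl n m = if c then 1 else 0 :=
      fun c _ m a b k => by rw [dl_eq a b]; exact if_congr k rfl rfl
    by_cases c1 : (p : ℤ) - q = s - r ∨ (p : ℤ) - q = r - s
    · rw [dd, dd, z ((p : ℤ) - q = r - s) _ (by omega) (by omega) (by omega),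
        z ((p : ℤ) - q = s - r) _ (by omega) (by omega) (by omega),
        z ((p : ℤ) + q + 2 + (s - r) = 2 * (n + 1)) _ (by omega) (by omega) (by omega),
        z ((p : ℤ) + q + 2 = s - r) _ (by omega) (by omega) (by omega),
        z False _ (by omega) (by omega) (by simp only [iff_false]; omega),
        z False _ (by omega) (by omega) (by simp only [iff_false]; omega),
        z ((p : ℤ) + q + 2 + (s + r + 2) = 2 * (n + 1)) _ (by omega) (by omega) (by omega),
        z ((p : ℤ) + q = s + r) _ (by omega) (by omega) (by omega)]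
      split_ifs <;> first | omega | contradiction | norm_num
    · rw [if_neg (by omega), if_neg (by omega), if_neg (by omega), if_neg (by omega), dd, dd,
        z False _ (by omega) (by omega) (by simp only [iff_false]; omega),
        z False _ (by omega) (by omega) (by simp only [iff_false]; omega)]
      by_cases c2 : (p : ℤ) + q + 2 + (s - r) = 2 * (n + 1) ∨ (p : ℤ) + q + 2 = s - r
      · rw [z False (p - q + (s + r + 2)) (by omega) (by omega) (by simp only [iff_false]; omega),
          z False (p - q - (s + r + 2)) (by omega) (by omega) (by simp only [iff_false]; omega),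
          z False (p + q + 2 + (s + r + 2)) (by omega) (by omega) (by simp only [iff_false]; omega),
          z False (p + q + 2 - (s + r + 2)) (by omega) (by omega) (by simp only [iff_false]; omega)]
        simp
      · rw [z False _ (by omega) (by omega) (by simp only [iff_false]; omega),
          z False _ (by omega) (by omega) (by simp only [iff_false]; omega)]
        simp
  have k : ∀ (F : ℕ → ℕ → ℝ) (a b : ℕ), a < n → b < n → ∑ p : Fin n, ∑ q : Fin n,
      F p q * (if (p : ℕ) = a ∧ (q : ℕ) = b then 1 else 0) = F a b := fun F a b ha hb => by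
    rw [sum_eq_single ⟨a, ha⟩ (fun p _ h => sum_eq_zero fun q _ => by
      rw [if_neg fun c => h (Fin.ext c.1), mul_zero]) (by simp), sum_eq_single ⟨b, hb⟩
        (fun q _ h => by rw [if_neg fun c => h (Fin.ext c.2), mul_zero]) (by simp)]
    simp
  have c : ∀ a < n, cos (x n (n - 1 - a)) = -cos (x n a) := fun a ha => by
    rw [← cos_pi_sub]; congr 1
    obtain ⟨d, rfl⟩ := Nat.exists_eq_add_of_lt ha
    rw [show a + d + 1 - 1 - a = d by omega, x, x]; push_cast at N ⊢; field_simp; ring
  have k' := k fun p q => cos (t * (2 * cos (x n p) - 2 * cos (x n q)))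
  rw [G]
  simp only [e, mul_neg, mul_add, sum_neg_distrib, sum_add_distrib]
  rw [k' _ _ (by omega) h2, k' _ _ h2 (by omega), k' _ _ (by omega) (by omega),
    k' _ _ (by omega) (by omega), c r (by omega), c s h2, ← cos_neg (t * (2 * cos (x n s) - _)),
    ← cos_neg (t * (2 * -cos (x n r) - _))]
  ring_nf

theorem core {n r s u w : ℕ} (h1 : r < s) (h2 : s < n) (h3 : u < w) (h4 : w < n) (e : Even (r + s))
    (o : Odd (u + w)) (c : cos (x n r) - cos (x n s) = cos (x n u) - cos (x n w)) {f : ℝ → ℝ}
    (i1 : ∫ t, f t = 1) : (avg n f).rank ≠ 1 := fun hr => by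
  have i : Integrable f := by
    by_contra k
    rw [integral_undef k] at i1; norm_num at i1
  have m0 : ∀ t a b, 0 ≤ mix n t a b := fun t a b => sq_nonneg _
  have I : ∀ a b, Integrable fun t => f t * mix n t a b := fun a b =>
    i.mul_bdd (c := 1) (Continuous.aestronglyMeasurable (by simp only [mix_eq]; fun_prop))
      (ae_of_all _ fun t => by
        rw [Real.norm_of_nonneg (m0 t a b), ← row n t a]
        exact single_le_sum (fun b _ => m0 t a b) (mem_univ b))
  have L : ∀ (W : Fin n → Fin n → ℝ), ∑ a, ∑ b, W a b * avg n f a b =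
      ∫ t, f t * ∑ a, ∑ b, W a b * mix n t a b := fun W => by
    simp only [avg, ← integral_const_mul, mul_sum]
    rw [integral_finset_sum _ fun a _ => integrable_finset_sum _ fun b _ =>
      ((I a b).const_mul (W a b)).congr (ae_of_all _ fun t => by ring)]
    refine sum_congr rfl fun a _ => ?_
    rw [integral_finset_sum _ fun b _ => ((I a b).const_mul (W a b)).congr (ae_of_all _ fun t => by ring)]
    exact sum_congr rfl fun b _ => by congr 1; ext t; ring
  have R : ∀ a, ∑ b, avg n f a b = 1 := fun a => by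
    simp only [avg]
    rw [← integral_finset_sum _ fun b _ => I a b]
    simp only [← mul_sum, row, mul_one, i1]
  rw [rank_eq_finrank_span_row] at hr
  obtain ⟨y, hy⟩ := finrank_le_one_iff.1 hr.le
  choose k hk using fun a => hy ⟨(avg n f).row a, Submodule.subset_span ⟨a, rfl⟩⟩
  have k1 : ∀ a b, avg n f a b = k a * y.1 b := fun a b => (congrFun (congrArg Subtype.val (hk a)) b).symm
  have k2 : ∀ a, k a * ∑ b, y.1 b = 1 := fun a => by simpa only [k1, ← mul_sum] using R a
  let z : Fin n := ⟨r, by omega⟩
  have k3 : ∀ a, k a = k z := fun a => mul_right_cancel₀ (right_ne_zero_of_mul_eq_one (k2 z))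
    ((k2 a).trans (k2 z).symm)
  have sy : ∀ a b, avg n f a b = avg n f b a := fun a b => by simp only [avg, mix_symm n _ a b]
  have k4 : ∀ a b, avg n f a b = avg n f z z := fun a b => by
    rw [k1, k3, ← k1, sy, k1, k3, ← k1]
  have p := R z
  have q1 := L fun a b => cos ((s - r : ℤ) * x n a) * cos ((s + r + 2 : ℤ) * x n b)
  have q2 := L fun a b => cos ((w - u : ℤ) * x n a) * cos ((w + u + 2 : ℤ) * x n b)
  simp only [G2 _ h1 h2, ← mul_sub, c] at q1
  simp only [G2 _ h3 h4, ← mul_sub] at q2
  rw [← q2] at q1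
  simp only [k4 _ _] at q1 p
  generalize avg n f z z = g at *
  simp only [← sum_mul, ← mul_sum, S] at q1
  rw [Nat.even_iff] at e
  rw [Nat.odd_iff] at o
  rw [dl_eq (by omega) (by omega), dl_eq (by omega) (by omega), dl_eq (by omega) (by omega),
    dl_eq (by omega) (by omega)] at q1
  simp only [Int.even_iff] at q1
  have g0 : g ≠ 0 := by rintro rfl; simp at p
  split_ifs at q1 <;> first | omega | simp [g0] at q1

end Pool.Agent.H94.Qw
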