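import Pool.Agent.H94.Qw2

set_option autoImplicit false
namespace Pool.Agent.H94.Qw
open Real Finset Matrix MeasureTheory

theorem xe {n k d : ℕ} (h : n + 1 = d * k) (c a : ℕ) (e : a + 1 = c * k) : x n a = c * π / d := by
  have h1 : (n + 1 : ℝ) = d * k := by exact_mod_cast h
  have h2 : (a + 1 : ℝ) = c * k := by exact_mod_cast e
  have N : (n + 1 : ℝ) ≠ 0 := by positivity
  rw [x, h2, h1]
  rw [h1] at N
  have := left_ne_zero_of_mul N
  have := right_ne_zero_of_mul N
  field_simp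

theorem six {n : ℕ} (h : 6 ∣ n + 1) (h' : 11 ≤ n) {f : ℝ → ℝ} (i1 : ∫ t, f t = 1) :
    (avg n f).rank ≠ 1 := by
  obtain ⟨k, hk⟩ := h
  obtain ⟨r, r1, r2⟩ : ∃ r : ℕ, r ≤ 1 ∧ r % 2 = k % 2 := ⟨k % 2, by omega, by omega⟩
  obtain ⟨u, hu⟩ : ∃ u, u + r + 2 = 2 * k := ⟨2 * k - r - 2, by omega⟩
  have a := xe hk 2 (2 * k - 1) (by omega)
  have b := xe hk 3 (3 * k - 1) (by omega)
  have e1 : x n (r + 2 * k) = x n r + π / 3 := by
    have : x n (r + 2 * k) = x n r + x n (2 * k - 1) := by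
      unfold x; rw [Nat.cast_sub (by omega)]; push_cast; ring
    rw [this, a]; push_cast; ring
  have e2 : x n u = π / 3 - x n r := by
    have : x n (2 * k - 1) = x n r + x n u := by
      unfold x; rw [show 2 * k - 1 = u + r + 1 by omega]; push_cast; ring
    rw [eq_sub_iff_add_eq', ← this, a]; push_cast; ring
  refine core (r := r) (s := r + 2 * k) (u := u) (w := 3 * k - 1) (by omega) (by omega) (by omega)
    (by omega) (Nat.even_iff.2 (by omega)) (Nat.odd_iff.2 (by omega)) ?_ i1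
  rw [e1, e2, b, show ((3 : ℕ) : ℝ) * π / (6 : ℕ) = π / 2 by push_cast; ring, cos_add, cos_sub,
    cos_pi_div_two, cos_pi_div_three]
  ring

theorem main {n : ℕ} (h : (6 ∣ n + 1 ∧ 11 ≤ n) ∨ 15 ∣ n + 1 ∨ 21 ∣ n + 1) {f : ℝ → ℝ}
    (i1 : ∫ t, f t = 1) : (avg n f).rank ≠ 1 := by
  rcases h with h | ⟨k, hk⟩ | ⟨k, hk⟩
  · exact six h.1 h.2 i1
  · rcases Nat.mod_two_eq_zero_or_one k with e | e
    · exact six (by omega) (by omega) i1
    refine core (r := k - 1) (s := 3 * k - 1) (u := 4 * k - 1) (w := 5 * k - 1) (by omega) (by omega)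
      (by omega) (by omega) (Nat.even_iff.2 (by omega)) (Nat.odd_iff.2 (by omega)) ?_ i1
    rw [xe hk 1 _ (by omega), xe hk 3 _ (by omega), xe hk 4 _ (by omega), xe hk 5 _ (by omega)]
    push_cast
    rw [show 1 * π / 15 = 2 * (π / 5) - π / 3 by ring, show 3 * π / 15 = π / 5 by ring,
      show 4 * π / 15 = π - (2 * (π / 5) + π / 3) by ring, show 5 * π / 15 = π / 3 by ring, cos_pi_sub,
      cos_add, cos_sub, cos_two_mul, cos_pi_div_five, cos_pi_div_three]
    nlinarith [sq_sqrt (show (0 : ℝ) ≤ 5 by norm_num)]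
  · rcases Nat.mod_two_eq_zero_or_one k with e | e
    · exact six (by omega) (by omega) i1
    refine core (r := 7 * k - 1) (s := 9 * k - 1) (u := 3 * k - 1) (w := 6 * k - 1) (by omega) (by omega)
      (by omega) (by omega) (Nat.even_iff.2 (by omega)) (Nat.odd_iff.2 (by omega)) ?_ i1
    rw [xe hk 7 _ (by omega), xe hk 9 _ (by omega), xe hk 3 _ (by omega), xe hk 6 _ (by omega)]
    have s := S 6 1
    have t := S 6 2
    rw [dl_eq (by omega) (by omega), if_neg (by omega), if_pos (by decide)] at t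
    simp only [Fin.sum_univ_six, x] at t
    push_cast at t ⊢
    have c1 := cos_pi_sub (π / 7)
    have c2 := cos_pi_sub (3 * π / 7)
    have c3 := cos_add_pi (π / 7)
    have c4 := cos_add_pi (3 * π / 7)
    have c5 := cos_two_pi_sub (2 * π / 7)
    have c6 := cos_pi_div_three
    norm_num at t
    ring_nf at c1 c2 c3 c4 c5 c6 t ⊢
    linarith

end Pool.Agent.H94.Qw
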