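import Mathlib
import Pool.Agent.Lead.WF.A
import Pool.Agent.Lead.WF.Defs

set_option autoImplicit false

namespace Pool.Agent.H94.RG

open MeasureTheory Set Filter Real Polynomial

noncomputable def AA (w : ℂ) : ℝ := (‖w - 1‖ + ‖w + 1‖) / 2

noncomputable def G (w : ℂ) : ℝ := Real.log (AA w + Real.sqrt (AA w ^ 2 - 1))

lemma AA_ge (w : ℂ) : 1 ≤ AA w := by
  have := norm_sub_le (w + 1) (w - 1)
  rw [show w + 1 - (w - 1) = 2 by ring, Complex.norm_ofNat] at this
  unfold AA; linarith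

lemma G_cont : Continuous G := by
  have h : Continuous AA := by unfold AA; fun_prop
  refine Continuous.log (by fun_prop) fun w => ?_
  have := AA_ge w
  have := Real.sqrt_nonneg (AA w ^ 2 - 1)
  linarith

lemma G_nonneg (w : ℂ) : 0 ≤ G w :=
  Real.log_nonneg (by linarith [AA_ge w, Real.sqrt_nonneg (AA w ^ 2 - 1)])

lemma G_real (s : ℝ) (hs : |s| ≤ 1) : G s = 0 := by
  have : AA s = 1 := by
    rw [abs_le] at hs
    unfold AA
    rw [← Complex.ofReal_one, ← Complex.ofReal_sub, ← Complex.ofReal_add, Complex.norm_real,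
      Complex.norm_real, Real.norm_eq_abs, Real.norm_eq_abs, abs_of_nonpos (by linarith),
      abs_of_nonneg (by linarith)]
    ring
  simp [G, this]

lemma norm_le_exp (w : ℂ) : ‖w‖ ≤ Real.exp (G w) := by
  have h1 := AA_ge w
  have h2 := Real.sqrt_nonneg (AA w ^ 2 - 1)
  rw [G, Real.exp_log (by linarith)]
  have := norm_add_le (w - 1) (w + 1)
  rw [show w - 1 + (w + 1) = 2 * w by ring, norm_mul, Complex.norm_ofNat] at this
  have : ‖w‖ ≤ AA w := by unfold AA; linarith
  linarith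

lemma G_u (u : ℂ) (hu : 1 ≤ ‖u‖) : G ((u + u⁻¹) / 2) = Real.log ‖u‖ := by
  have hu0 : u ≠ 0 := by rintro rfl; norm_num at hu
  have hn : 0 < ‖u‖ := by linarith
  have e1 : (u + u⁻¹) / 2 - 1 = (u - 1) ^ 2 / (2 * u) := by field_simp; ring
  have e2 : (u + u⁻¹) / 2 + 1 = (u + 1) ^ 2 / (2 * u) := by field_simp; ring
  have e3 : ‖u - 1‖ ^ 2 + ‖u + 1‖ ^ 2 = 2 * ‖u‖ ^ 2 + 2 := by
    simp only [Complex.sq_norm, Complex.normSq_apply]
    simp; ring
  have e4 : AA ((u + u⁻¹) / 2) = (‖u‖ + ‖u‖⁻¹) / 2 := by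
    unfold AA
    rw [e1, e2, norm_div, norm_div, norm_pow, norm_pow, norm_mul, Complex.norm_ofNat, ← add_div, e3]
    field_simp
  have e5 : ((‖u‖ + ‖u‖⁻¹) / 2) ^ 2 - 1 = ((‖u‖ - ‖u‖⁻¹) / 2) ^ 2 := by field_simp; ring
  have h6 : ‖u‖⁻¹ ≤ 1 := inv_le_one_of_one_le₀ hu
  rw [G, e4, e5, Real.sqrt_sq (by linarith)]
  congr 1; ring

lemma ex_u (w : ℂ) : ∃ u : ℂ, 1 ≤ ‖u‖ ∧ w = (u + u⁻¹) / 2 := by
  obtain ⟨r, hr⟩ := IsAlgClosed.exists_pow_nat_eq (w ^ 2 - 1) (n := 2) (by norm_num)
  have h : (w + r) * (w - r) = 1 := by linear_combination -hr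
  by_cases h1 : 1 ≤ ‖w + r‖
  · exact ⟨w + r, h1, by rw [← eq_inv_of_mul_eq_one_right h]; ring⟩
  · refine ⟨w - r, ?_, by rw [← eq_inv_of_mul_eq_one_left h]; ring⟩
    have := congrArg norm h
    rw [norm_mul, norm_one] at this
    nlinarith [norm_nonneg (w + r), norm_nonneg (w - r)]

lemma G_sq (w : ℂ) : G (2 * w ^ 2 - 1) = 2 * G w := by
  obtain ⟨u, hu, rfl⟩ := ex_u w
  have hu0 : u ≠ 0 := by rintro rfl; norm_num at hu
  have : 2 * ((u + u⁻¹) / 2) ^ 2 - 1 = (u ^ 2 + (u ^ 2)⁻¹) / 2 := by field_simp; ring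
  rw [this, G_u u hu, G_u _ (by rw [norm_pow]; exact one_le_pow₀ hu), norm_pow, Real.log_pow]
  norm_num

lemma arcsC (w : ℂ) :
    IntervalIntegrable (fun θ => Real.log ‖w - (cos θ : ℝ)‖) volume 0 π ∧
      ∫ θ in (0:ℝ)..π, Real.log ‖w - (cos θ : ℝ)‖ = π * (G w - Real.log 2) := by
  obtain ⟨u, hu, hw⟩ := ex_u w
  have hG : G w = Real.log ‖u‖ := by rw [hw, G_u u hu]
  rw [hG, intervalIntegrable_iff_integrableOn_Ioo_of_le pi_pos.le,
    intervalIntegral.integral_of_le pi_pos.le, integral_Ioc_eq_integral_Ioo]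
  have hu0 : u ≠ 0 := by rintro rfl; norm_num at hu
  set g : ℝ → ℝ := fun θ => Real.log ‖circleMap 0 1 θ - u‖ with hg
  have hci : IntervalIntegrable g volume 0 (2 * π) :=
    (analyticOnNhd_id.sub analyticOnNhd_const).meromorphicOn.circleIntegrable_log_norm
      (c := 0) (R := 1)
  have hav : ∫ θ in (0:ℝ)..(2 * π), g θ = 2 * π * Real.log ‖u‖ := by
    have := circleAverage_log_norm_sub_const_eq_posLog (a := u)
    rw [Real.circleAverage_def, Real.posLog_eq_log (by rwa [abs_norm]), smul_eq_mul] at this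
    rw [← this]; field_simp; rfl
  have h1 : IntervalIntegrable g volume 0 π :=
    hci.mono_set (by rw [uIcc_of_le pi_pos.le, uIcc_of_le (by positivity)]
                     exact Icc_subset_Icc le_rfl (by linarith [pi_pos]))
  have h2 : IntervalIntegrable g volume π (2 * π) :=
    hci.mono_set (by rw [uIcc_of_le (by linarith [pi_pos]), uIcc_of_le (by positivity)]
                     exact Icc_subset_Icc pi_pos.le le_rfl)
  have h3 : IntervalIntegrable (fun θ => g (2 * π - θ)) volume 0 π := by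
    have := (h2.comp_sub_left (2 * π)).symm
    rwa [sub_self, show 2 * π - π = π by ring] at this
  have h4 : ∫ θ in (0:ℝ)..π, g (2 * π - θ) = ∫ θ in π..(2 * π), g θ := by
    rw [intervalIntegral.integral_comp_sub_left, sub_zero, show 2 * π - π = π by ring]
  have hae : (fun θ => Real.log ‖w - (cos θ : ℝ)‖) =ᵐ[volume.restrict (Ioo 0 π)]
      fun θ => g θ + g (2 * π - θ) - Real.log (2 * ‖u‖) := by
    filter_upwards [Pool.Agent.Lead.WF.ae_ne_cos w.re] with θ hθ
    have hθ' : w - (cos θ : ℝ) ≠ 0 := fun h => hθ (by rw [sub_eq_zero.1 h, Complex.ofReal_re])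
    have e : (circleMap 0 1 θ - u) * (circleMap 0 1 (2 * π - θ) - u) =
        2 * u * (w - (cos θ : ℝ)) := by
      simp only [circleMap, zero_add, Complex.ofReal_one, one_mul, Complex.exp_mul_I]
      rw [← Complex.ofReal_cos, ← Complex.ofReal_cos, ← Complex.ofReal_sin, ← Complex.ofReal_sin,
        Real.cos_two_pi_sub, Real.sin_two_pi_sub]
      have h5 : ((cos θ : ℝ) : ℂ) ^ 2 + ((sin θ : ℝ) : ℂ) ^ 2 = 1 := by
        exact_mod_cast Real.cos_sq_add_sin_sq θ
      rw [hw, Complex.ofReal_neg]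
      field_simp
      linear_combination h5 - ((sin θ : ℝ) : ℂ) ^ 2 * Complex.I_sq
    have hne : 2 * u * (w - (cos θ : ℝ)) ≠ 0 :=
      mul_ne_zero (mul_ne_zero two_ne_zero hu0) hθ'
    rw [← e] at hne
    simp only [hg]
    rw [← Real.log_mul (norm_ne_zero_iff.mpr (left_ne_zero_of_mul hne))
      (norm_ne_zero_iff.mpr (right_ne_zero_of_mul hne)), ← norm_mul, e, norm_mul, norm_mul,
      Complex.norm_ofNat, Real.log_mul (by positivity) (norm_ne_zero_iff.mpr hθ')]
    ring
  rw [intervalIntegrable_iff_integrableOn_Ioo_of_le pi_pos.le] at h1 h3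
  have hc : Integrable (fun _ : ℝ => Real.log (2 * ‖u‖)) (volume.restrict (Ioo 0 π)) :=
    integrable_const _
  have h13 : Integrable (fun θ => g θ + g (2 * π - θ)) (volume.restrict (Ioo 0 π)) := h1.add h3
  refine ⟨(h13.sub hc).congr hae.symm, ?_⟩
  rw [integral_congr_ae hae, integral_sub h13 hc, integral_add h1 h3,
    ← integral_Ioc_eq_integral_Ioo, ← integral_Ioc_eq_integral_Ioo,
    ← intervalIntegral.integral_of_le pi_pos.le, ← intervalIntegral.integral_of_le pi_pos.le, h4,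
    intervalIntegral.integral_add_adjacent_intervals
      ((intervalIntegrable_iff_integrableOn_Ioo_of_le pi_pos.le).mpr h1) h2, hav,
    Real.log_mul (by norm_num) (by positivity)]
  simp [pi_pos.le]; ring

lemma fact (p : ℝ[X]) (hp : p ≠ 0) (s : Finset ℕ) (hN : p.natDegree ≤ s.card) (y : ℕ → ℝ)
    (hy : InjOn y s) (hr : ∀ j ∈ s, p.eval (y j) = 0) :
    p.roots = s.val.map y ∧ p = C p.leadingCoeff * ∏ j ∈ s, (X - C (y j)) := by
  classical
  have h1 : p.roots = (s.image y).val := roots_eq_of_natDegree_le_card_of_ne_zero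
    (fun x hx => by obtain ⟨j, hj, rfl⟩ := Finset.mem_image.1 hx; exact hr j hj)
    (by rwa [Finset.card_image_of_injOn hy]) hp
  rw [Finset.image_val_of_injOn hy] at h1
  refine ⟨h1, ?_⟩
  have h2 : p.roots.card = p.natDegree := by
    refine le_antisymm (card_roots' p) ?_
    rw [h1]; simpa using hN
  conv_lhs => rw [← C_leadingCoeff_mul_prod_multiset_X_sub_C h2]
  rw [h1, Multiset.map_map]
  rfl

lemma log_bdd (z : ℂ) (hz : z.im ≠ 0) (R : ℝ) (x : ℝ) (hx : |x| ≤ R) :
    ‖Real.log ‖z - x‖‖ ≤ |Real.log (|z.im|)| + |Real.log (‖z‖ + R)| := by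
  have h1 : |z.im| ≤ ‖z - x‖ := by
    have := Complex.abs_im_le_norm (z - x)
    simpa using this
  have h2 : ‖z - x‖ ≤ ‖z‖ + R := (norm_sub_le _ _).trans (by simpa using hx)
  have h0 := abs_pos.2 hz
  have h3 := Real.log_le_log h0 h1
  have h4 := Real.log_le_log (h0.trans_le h1) h2
  rw [Real.norm_eq_abs, abs_le]
  constructor
  · linarith [neg_abs_le (Real.log (|z.im|)), abs_nonneg (Real.log (‖z‖ + R))]
  · linarith [le_abs_self (Real.log (‖z‖ + R)), abs_nonneg (Real.log (|z.im|))]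

lemma pot (T : ℝ[X]) (N : ℕ) (hN : 0 < N) (hT : T.natDegree = N)
    (hl : 2 * |T.leadingCoeff| = 2 ^ N) (Y : ℝ → ℝ) (hm : Measurable Y) (R : ℝ)
    (hR : ∀ u, |Y u| ≤ R) (hY : StrictMonoOn Y (Icc 0 1))
    (hc : ∀ u ∈ Icc (0:ℝ) 1, T.eval (Y u) = cos (N * π * u)) (z : ℂ) (hz : z.im ≠ 0) :
    ∫ u in (0:ℝ)..1, Real.log ‖z - Y u‖ = G (aeval z T) / N - Real.log 2 := by
  set F : ℝ → ℝ := fun u => Real.log ‖z - Y u‖ with hF
  have hFm : Measurable F := by rw [hF]; fun_prop
  have hI : ∀ φ : ℝ → ℝ, Measurable φ → ∀ a b, IntervalIntegrable (fun θ => F (φ θ)) volume a b :=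
    fun φ hφ a b => by
      rw [intervalIntegrable_iff]
      exact Measure.integrableOn_of_bounded (by simp [uIoc]) (hFm.comp hφ).aestronglyMeasurable
        (Eventually.of_forall fun θ => log_bdd z hz R _ (hR _))
  have hN' : (0:ℝ) < N := by exact_mod_cast hN
  have hp := pi_pos
  set φ : ℕ → ℝ → ℝ := fun j θ => if Even j then (N * π)⁻¹ * θ + j / N
    else -(N * π)⁻¹ * θ + (j + 1) / N with hφ
  have hφm : ∀ j, Measurable (φ j) := fun j => by
    simp only [hφ]; split_ifs <;> fun_prop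
  have h1 := intervalIntegral.sum_integral_adjacent_intervals (f := F) (μ := volume)
    (a := fun j : ℕ => (j:ℝ) / N) (n := N) (fun j _ => hI id measurable_id _ _)
  simp only [Nat.cast_zero, zero_div, div_self hN'.ne'] at h1
  have h2 : ∀ j : ℕ, ∫ u in ((j:ℝ) / N)..(((j + 1 : ℕ) : ℝ) / N), F u =
      (N * π)⁻¹ * ∫ θ in (0:ℝ)..π, F (φ j θ) := by
    intro j
    simp only [hφ]
    split_ifs
    · rw [intervalIntegral.integral_comp_mul_add F (by positivity), smul_eq_mul, inv_inv,
        ← mul_assoc, inv_mul_cancel₀ (by positivity), one_mul]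
      congr 1
      · simp
      · push_cast; field_simp; ring
    · rw [intervalIntegral.integral_comp_mul_add F (neg_ne_zero.2 (by positivity)), smul_eq_mul,
        inv_neg, inv_inv, neg_mul, mul_neg, ← mul_assoc, inv_mul_cancel₀ (by positivity), one_mul,
        ← intervalIntegral.integral_symm]
      congr 1
      · field_simp; ring
      · simp
  have hl0 : T.leadingCoeff ≠ 0 := by
    intro h; rw [h] at hl; simp at hl; exact absurd hl (by positivity)
  have h3 : ∀ θ ∈ Ioo 0 π, ∑ j ∈ Finset.range N, F (φ j θ) =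
      Real.log ‖aeval z T - (cos θ : ℝ)‖ - Real.log |T.leadingCoeff| := by
    intro θ hθ
    have q0 : 0 < θ / π := div_pos hθ.1 hp
    have q1 : θ / π < 1 := (div_lt_one hp).2 hθ.2
    have b1 : ∀ j : ℕ, (j:ℝ) < N * φ j θ ∧ N * φ j θ < j + 1 := fun j => by
      simp only [hφ]
      split_ifs
      · rw [show N * ((N * π)⁻¹ * θ + j / N) = θ / π + j by field_simp]
        constructor <;> linarith
      · rw [show N * (-(N * π)⁻¹ * θ + (j + 1) / N) = -(θ / π) + (j + 1) by field_simp]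
        constructor <;> linarith
    have b2 : ∀ j ∈ Finset.range N, φ j θ ∈ Icc (0:ℝ) 1 := fun j hj => by
      have c1 : (j:ℝ) + 1 ≤ N := by exact_mod_cast Finset.mem_range.1 hj
      have c2 : (0:ℝ) ≤ j := Nat.cast_nonneg _
      have := b1 j
      constructor <;> nlinarith
    have b3 : ∀ j : ℕ, cos (N * π * φ j θ) = cos θ := fun j => by
      simp only [hφ]
      split_ifs with h
      · rw [show N * π * ((N * π)⁻¹ * θ + j / N) = θ + j * π by field_simp,
          Real.cos_add_nat_mul_pi, h.neg_one_pow, one_mul]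
      · rw [show N * π * (-(N * π)⁻¹ * θ + (j + 1) / N) = ((j + 1 : ℕ) : ℝ) * π - θ by
          push_cast; field_simp; ring, Real.cos_nat_mul_pi_sub,
          (Nat.even_add_one.2 h).neg_one_pow, one_mul]
    have d1 : (T - C (cos θ)).natDegree = N := by rw [natDegree_sub_C, hT]
    have d2 : (T - C (cos θ)).leadingCoeff = T.leadingCoeff := by
      rw [leadingCoeff, d1, coeff_sub, coeff_C, if_neg hN.ne', sub_zero, leadingCoeff, hT]
    obtain ⟨-, e⟩ := fact (T - C (cos θ)) (by intro h; rw [h] at d1; simp at d1; omega)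
      (Finset.range N) (by simp [d1]) (fun j => Y (φ j θ)) (fun i hi j hj h => by
        have e := hY.injOn (b2 i hi) (b2 j hj) h
        have c1 := b1 i
        have c2 := b1 j
        rw [e] at c1
        have c3 : (i:ℝ) < j + 1 := by linarith
        have c4 : (j:ℝ) < i + 1 := by linarith
        have c5 : i < j + 1 := by exact_mod_cast c3
        have c6 : j < i + 1 := by exact_mod_cast c4
        omega) (fun j hj => by rw [eval_sub, hc _ (b2 j hj), b3, eval_C, sub_self])
    have e2 := congrArg (aeval z) e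
    rw [d2] at e2
    simp only [map_sub, map_mul, map_prod, aeval_C, aeval_X, Complex.coe_algebraMap] at e2
    have hne : ∀ j ∈ Finset.range N, ‖z - (Y (φ j θ) : ℝ)‖ ≠ 0 := fun j _ h => by
      rw [norm_eq_zero, sub_eq_zero] at h
      exact hz (by rw [h]; simp)
    rw [e2, norm_mul, norm_prod, Real.log_mul (by simpa using hl0) (Finset.prod_ne_zero_iff.2 hne),
      Real.log_prod hne, Complex.norm_real, Real.norm_eq_abs]
    simp [hF]
  obtain ⟨i1, i2⟩ := arcsC (aeval z T)
  rw [← h1, Finset.sum_congr rfl fun j _ => h2 j, ← Finset.mul_sum,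
    ← intervalIntegral.integral_finsetSum fun j _ => hI _ (hφm j) _ _,
    intervalIntegral.integral_congr_ae (g := fun θ => Real.log ‖aeval z T - (cos θ : ℝ)‖ -
      Real.log |T.leadingCoeff|), intervalIntegral.integral_sub i1 intervalIntegrable_const, i2]
  · have : Real.log 2 + Real.log |T.leadingCoeff| = N * Real.log 2 := by
      rw [← Real.log_mul (by norm_num) (abs_ne_zero.2 hl0), hl, Real.log_pow]
    simp only [intervalIntegral.integral_const, sub_zero, smul_eq_mul]
    field_simp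
    linarith
  · filter_upwards [Measure.ae_ne volume π] with θ h1 h2
    rw [uIoc_of_le hp.le] at h2
    exact h3 θ ⟨h2.1, lt_of_le_of_ne h2.2 h1⟩

end Pool.Agent.H94.RG
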