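import Pool.Agent.H94.RG1

set_option autoImplicit false

namespace Pool.Agent.H94.RG

open Set Filter Real Polynomial Topology

lemma anti_of (P : ℝ[X]) (s a b : ℝ) (hs : s ≠ 0) (h : ∀ x ∈ Ioo a b, P.derivative.eval x ≠ 0)
    {x y : ℝ} (hx : x ∈ Icc a b) (hy : y ∈ Icc a b) (hxy : x < y)
    (hv : s * P.eval y < s * P.eval x) : StrictAntiOn (fun t => s * P.eval t) (Icc a b) := by
  have hc : Continuous fun t => s * P.eval t := by fun_prop
  have key : ∀ u ∈ Icc a b, ∀ v ∈ Icc a b, u < v → s * P.eval u ≠ s * P.eval v := by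
    intro u hu v hv huv e
    obtain ⟨c, hc1, hc2⟩ := exists_hasDerivAt_eq_zero huv hc.continuousOn e
      (f' := fun t => s * P.derivative.eval t) (fun t _ => (P.hasDerivAt t).const_mul s)
    exact h c ⟨hu.1.trans_lt hc1.1, hc1.2.trans_le hv.2⟩ ((mul_eq_zero.1 hc2).resolve_left hs)
  have hi : InjOn (fun t => s * P.eval t) (Icc a b) := fun u hu v hv e => by
    rcases lt_trichotomy u v with h1 | h1 | h1
    · exact absurd e (key u hu v hv h1)
    · exact h1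
    · exact absurd e.symm (key v hv u hu h1)
  refine (hc.continuousOn.strictMonoOn_of_injOn_Icc' (hx.1.trans hx.2) hi).resolve_left fun hm => ?_
  exact absurd (hm hx hy hxy) (not_lt.2 hv.le)

lemma smono {M : ℕ} {e : ℕ → ℝ} (h : ∀ j < M, e j < e (j + 1)) {i j : ℕ} (hij : i < j)
    (hj : j ≤ M) : e i < e j := by
  induction j, hij using Nat.le_induction with
  | base => exact h i (by omega)
  | succ n _ ih => exact (ih (by omega)).trans (h n (by omega))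

lemma wmono {M : ℕ} {e : ℕ → ℝ} (h : ∀ j < M, e j < e (j + 1)) {i j : ℕ} (hij : i ≤ j)
    (hj : j ≤ M) : e i ≤ e j := by
  rcases hij.eq_or_lt with rfl | h1
  · exact le_rfl
  · exact (smono h h1 hj).le

lemma crit_only {P : ℝ[X]} {M : ℕ} {e : ℕ → ℝ} (hM : 0 < M) (hP : P.natDegree = M)
    (h : ∀ j < M, e j < e (j + 1)) (hc : ∀ j, 0 < j → j < M → P.derivative.eval (e j) = 0) :
    (∀ j < M, ∀ x ∈ Ioo (e j) (e (j + 1)), P.derivative.eval x ≠ 0) ∧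
      ∀ j, 0 < j → j < M → P.derivative.derivative.eval (e j) ≠ 0 := by
  classical
  have h0 : P.derivative ≠ 0 := fun h => by
    have := natDegree_eq_zero_of_derivative_eq_zero h; omega
  have hinj : InjOn e (Finset.Ioo 0 M : Finset ℕ) := fun i hi j hj hij => by
    simp only [Finset.coe_Ioo, mem_Ioo] at hi hj
    rcases lt_trichotomy i j with h1 | h1 | h1
    · exact absurd hij (smono h h1 hj.2.le).ne
    · exact h1
    · exact absurd hij (smono h h1 hi.2.le).ne'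
  obtain ⟨hr, -⟩ := fact P.derivative h0 (Finset.Ioo 0 M)
    (by have := natDegree_derivative_le P; simp; omega) e hinj
    (fun j hj => hc j (Finset.mem_Ioo.1 hj).1 (Finset.mem_Ioo.1 hj).2)
  refine ⟨fun j hj x hx hx0 => ?_, fun j h1 h2 h3 => ?_⟩
  · have : x ∈ P.derivative.roots := (mem_roots h0).2 hx0
    rw [hr, Multiset.mem_map] at this
    obtain ⟨i, hi, rfl⟩ := this
    have hi' := Finset.mem_Ioo.1 (show i ∈ Finset.Ioo 0 M from hi)
    by_cases hij : i ≤ j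
    · exact absurd hx.1 (not_lt.2 (wmono h hij hj.le))
    · exact absurd hx.2 (not_lt.2 (wmono h (by omega) hi'.2.le))
  · have q1 := (one_lt_rootMultiplicity_iff_isRoot h0).2 ⟨hc j h1 h2, h3⟩
    rw [← count_roots, hr] at q1
    have : (Multiset.map e (Finset.Ioo 0 M).val).Nodup :=
      (Multiset.nodup_map_iff_inj_on (Finset.Ioo 0 M).nodup).2 hinj
    exact absurd (Multiset.nodup_iff_count_le_one.1 this (e j)) (not_le.2 q1)

structure Nodes (P : ℝ[X]) (M : ℕ) (e : ℕ → ℝ) : Prop where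
  pos : 0 < M
  deg : P.natDegree = M
  lt : ∀ j < M, e j < e (j + 1)
  crit : ∀ j, 0 < j → j < M → P.derivative.eval (e j) = 0
  val : ∀ j ≤ M, 1 ≤ (-1) ^ j * P.eval (e j)

lemma Nodes.anti {P : ℝ[X]} {M : ℕ} {e : ℕ → ℝ} (h : Nodes P M e) {j : ℕ} (hj : j < M) :
    StrictAntiOn (fun t => (-1) ^ j * P.eval t) (Icc (e j) (e (j + 1))) := by
  have h1 := h.lt j hj
  refine anti_of P _ _ _ (by positivity) ((crit_only h.pos h.deg h.lt h.crit).1 j hj)
    (left_mem_Icc.2 h1.le) (right_mem_Icc.2 h1.le) h1 ?_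
  have h2 := h.val j hj.le
  have h3 := h.val (j + 1) hj
  rw [pow_succ] at h3
  linarith

def Ix (M : ℕ) (u : ℝ) (j : ℕ) : Prop :=
  j < M ∧ (j : ℝ) ≤ M * u ∧ M * u ≤ j + 1 ∧ ((j : ℝ) < M * u ∨ j = 0)

lemma ix_ex {M : ℕ} (hM : 0 < M) {u : ℝ} (hu : u ∈ Icc (0:ℝ) 1) : ∃ j, Ix M u j := by
  have hM' : (0:ℝ) < M := by exact_mod_cast hM
  have h0 : 0 ≤ M * u := mul_nonneg hM'.le hu.1
  rcases h0.eq_or_lt with h | h
  · exact ⟨0, hM, by simp [← h], by simp [← h], Or.inr rfl⟩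
  · obtain ⟨j, hj⟩ : ∃ j, ⌈M * u⌉₊ = j + 1 := ⟨_, (Nat.succ_pred_eq_of_pos (Nat.ceil_pos.2 h)).symm⟩
    have := (Nat.ceil_eq_iff (by omega)).1 hj
    simp only [Nat.add_sub_cancel, Nat.cast_add, Nat.cast_one] at this
    refine ⟨j, ?_, this.1.le, this.2, Or.inl this.1⟩
    have : (j:ℝ) < M := by nlinarith [hu.2]
    exact_mod_cast this

lemma ix_le {M : ℕ} {u u' : ℝ} {j j' : ℕ} (h : Ix M u j) (h' : Ix M u' j') (huu : u ≤ u') :
    j ≤ j' := by
  by_contra hn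
  have h1 : (j':ℝ) + 1 ≤ j := by exact_mod_cast (by omega : j' + 1 ≤ j)
  have h2 : (M:ℝ) * u ≤ M * u' := mul_le_mul_of_nonneg_left huu (Nat.cast_nonneg _)
  rcases h.2.2.2 with h3 | h3
  · linarith [h'.2.2.1]
  · omega

def Rep (P : ℝ[X]) (M : ℕ) (e : ℕ → ℝ) (Y : ℝ → ℝ) : Prop :=
  ∀ u ∈ Icc (0:ℝ) 1, P.eval (Y u) = cos (M * π * u) ∧ ∀ j, Ix M u j → Y u ∈ Icc (e j) (e (j + 1))

lemma sq1 (j : ℕ) : (-1:ℝ) ^ j * (-1) ^ j = 1 := by rw [← mul_pow]; simp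

lemma Nodes.rep {P : ℝ[X]} {M : ℕ} {e : ℕ → ℝ} (h : Nodes P M e) : ∃ Y, Rep P M e Y := by
  have : ∀ u, ∃ y, u ∈ Icc (0:ℝ) 1 →
      P.eval y = cos (M * π * u) ∧ ∀ j, Ix M u j → y ∈ Icc (e j) (e (j + 1)) := by
    intro u
    by_cases hu : u ∈ Icc (0:ℝ) 1
    · obtain ⟨j, hj⟩ := ix_ex h.pos hu
      have h2 := h.val j hj.1.le
      have h3 := h.val (j + 1) hj.1
      rw [pow_succ] at h3
      have h4 := Real.cos_sub_nat_mul_pi (M * π * u) j
      obtain ⟨y, hy, e1⟩ := intermediate_value_Icc' (h.lt j hj.1).le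
        (f := fun t => (-1) ^ j * P.eval t) (by fun_prop)
        (show (-1) ^ j * cos (M * π * u) ∈ _ from
          ⟨by linarith [Real.neg_one_le_cos (M * π * u - j * π)],
            by linarith [Real.cos_le_one (M * π * u - j * π)]⟩)
      refine ⟨y, fun _ => ⟨mul_left_cancel₀ (by positivity) e1, fun i hi => ?_⟩⟩
      rwa [le_antisymm (ix_le hi hj le_rfl) (ix_le hj hi le_rfl)]
    · exact ⟨0, fun h => absurd h hu⟩
  choose Y hY using this
  exact ⟨Y, hY⟩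

lemma ang {M : ℕ} {u : ℝ} {j : ℕ} (h : Ix M u j) : M * π * u - j * π ∈ Icc 0 π := by
  have := pi_pos
  constructor <;> nlinarith [h.2.1, h.2.2.1]

lemma cos_lt1 {x : ℝ} (h0 : 0 < x) (h1 : x ≤ π) : cos x < 1 := by
  rw [← Real.cos_zero]; exact Real.cos_lt_cos_of_nonneg_of_le_pi le_rfl h1 h0

lemma Nodes.smon {P : ℝ[X]} {M : ℕ} {e : ℕ → ℝ} (h : Nodes P M e) {Y : ℝ → ℝ} (hY : Rep P M e Y) :
    StrictMonoOn Y (Icc 0 1) := by
  intro u hu u' hu' huu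
  obtain ⟨j, hj⟩ := ix_ex h.pos hu
  obtain ⟨j', hj'⟩ := ix_ex h.pos hu'
  have hM' : (0:ℝ) < M := by exact_mod_cast h.pos
  have hp := pi_pos
  have m1 := (hY u hu).2 j hj
  have m2 := (hY u' hu').2 j' hj'
  rcases (ix_le hj hj' huu.le).eq_or_lt with rfl | hlt
  · rw [← (h.anti hj.1).lt_iff_gt m2 m1, (hY u hu).1, (hY u' hu').1, ← Real.cos_sub_nat_mul_pi,
      ← Real.cos_sub_nat_mul_pi]
    exact Real.strictAntiOn_cos (ang hj) (ang hj') (by nlinarith [mul_pos hM' hp])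
  · refine lt_of_le_of_lt (m1.2.trans (wmono h.lt hlt hj'.1.le)) (lt_of_le_of_ne m2.1 fun e1 => ?_)
    have q1 := h.val j' hj'.1.le
    rw [e1, (hY u' hu').1, ← Real.cos_sub_nat_mul_pi] at q1
    have q2 := hj'.2.2.2.resolve_right (by omega)
    exact absurd (cos_lt1 (by nlinarith) (ang hj').2) (not_lt.2 q1)

lemma Nodes.iv {P : ℝ[X]} {M : ℕ} {e : ℕ → ℝ} (h : Nodes P M e) {Y : ℝ → ℝ} (hY : Rep P M e Y)
    {a b : ℝ} (ha : a ∈ Icc (0:ℝ) 1) (hb : b ∈ Icc (0:ℝ) 1)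
    (hcl : ∀ j, 0 < j → j < M → M * a ≤ j → j < M * b → (-1) ^ j * P.eval (e j) = 1)
    {y : ℝ} (hy : y ∈ Icc (Y a) (Y b)) : ∃ u ∈ Icc a b, Y u = y := by
  classical
  have hs := h.smon hY
  have hab : a ≤ b := (hs.le_iff_le ha hb).1 (hy.1.trans hy.2)
  rcases hy.1.eq_or_lt with e0 | hlt
  · exact ⟨a, left_mem_Icc.2 hab, e0⟩
  obtain ⟨ja, hja⟩ := ix_ex h.pos ha
  obtain ⟨jb, hjb⟩ := ix_ex h.pos hb
  have m1 := (hY a ha).2 ja hja
  have m2 := (hY b hb).2 jb hjb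
  have hex : ∃ j, ja ≤ j ∧ y ≤ e (j + 1) := ⟨jb, ix_le hja hjb hab, hy.2.trans m2.2⟩
  obtain ⟨j, ⟨j1, j2⟩, j3⟩ : ∃ j, (ja ≤ j ∧ y ≤ e (j + 1)) ∧
      ∀ i < j, ¬ (ja ≤ i ∧ y ≤ e (i + 1)) := ⟨Nat.find hex, Nat.find_spec hex, fun i => Nat.find_min hex⟩
  have j4 : j ≤ jb := by
    by_contra hn
    exact j3 jb (by omega) ⟨ix_le hja hjb hab, hy.2.trans m2.2⟩
  have j5 : j < M := j4.trans_lt hjb.1
  have cl : ∀ i, ja < i → i ≤ jb → (-1) ^ i * P.eval (e i) = 1 := fun i h1 h2 => by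
    have q1 : (ja:ℝ) + 1 ≤ i := by exact_mod_cast h1
    have q2 : (i:ℝ) ≤ jb := by exact_mod_cast h2
    exact hcl i (by omega) (h2.trans_lt hjb.1) (hja.2.2.1.trans q1)
      (q2.trans_lt (hjb.2.2.2.resolve_right (by omega)))
  have hl := (h.lt j j5).le
  have c1 : e j ≤ y ∧ (-1) ^ j * P.eval y < 1 := by
    rcases j1.eq_or_lt with rfl | hlt'
    · have q : e ja ≤ y := m1.1.trans hlt.le
      refine ⟨q, (h.anti j5 m1 ⟨q, j2⟩ hlt).trans_le ?_⟩
      simp only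
      rw [(hY a ha).1, ← Real.cos_sub_nat_mul_pi]
      exact Real.cos_le_one _
    · obtain ⟨i, rfl⟩ : ∃ i, j = i + 1 := ⟨j - 1, by omega⟩
      have q : e (i + 1) < y := not_le.1 fun hh => j3 i (by omega) ⟨by omega, hh⟩
      exact ⟨q.le, (h.anti j5 (left_mem_Icc.2 hl) ⟨q.le, j2⟩ q).trans_le (cl _ hlt' j4).le⟩
  have c2 : -1 ≤ (-1) ^ j * P.eval y := by
    rcases j4.eq_or_lt with rfl | hlt'
    · refine le_trans ?_ ((h.anti j5).antitoneOn ⟨c1.1, j2⟩ m2 hy.2)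
      rw [(hY b hb).1, ← Real.cos_sub_nat_mul_pi]
      exact Real.neg_one_le_cos _
    · refine le_trans ?_ ((h.anti j5).antitoneOn ⟨c1.1, j2⟩ (right_mem_Icc.2 hl) j2)
      have := cl (j + 1) (by omega) hlt'
      rw [pow_succ] at this
      linarith
  have hM' : (0:ℝ) < M := by exact_mod_cast h.pos
  have hp := pi_pos
  set s := (-1) ^ j * P.eval y with hsd
  have a0 : 0 < arccos s / π := div_pos (Real.arccos_pos.2 c1.2) hp
  have a1 : arccos s / π ≤ 1 := (div_le_one hp).2 (Real.arccos_le_pi s)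
  have e1 : M * ((j + arccos s / π) / M) = j + arccos s / π := by field_simp
  have j6 : (j:ℝ) + 1 ≤ M := by exact_mod_cast j5
  have hu : (j + arccos s / π) / M ∈ Icc (0:ℝ) 1 :=
    ⟨by positivity, (div_le_one hM').2 (by linarith)⟩
  have hi : Ix M ((j + arccos s / π) / M) j := ⟨j5, by linarith, by linarith, Or.inl (by linarith)⟩
  have e2 : Y ((j + arccos s / π) / M) = y := by
    refine (h.anti j5).injOn ((hY _ hu).2 j hi) ⟨c1.1, j2⟩ ?_
    rw [(hY _ hu).1, ← Real.cos_sub_nat_mul_pi,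
      show M * π * ((j + arccos s / π) / M) - j * π = arccos s by field_simp; ring,
      Real.cos_arccos c2 c1.2.le]
  refine ⟨_, ⟨(hs.le_iff_le ha hu).1 ?_, (hs.le_iff_le hu hb).1 ?_⟩, e2⟩ <;> rw [e2]
  exacts [hy.1, hy.2]

end Pool.Agent.H94.RG
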