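import Pool.Agent.H94.RG2

set_option autoImplicit false

namespace Pool.Agent.H94.RG

open Set Filter Real Polynomial Topology

lemma ift {ι : Type} [Fintype ι] [DecidableEq ι] (S : ℝ[X]) (c : ι → ℝ) (L : ι → ℝ[X])
    (hL : ∀ i j, (L j).eval (c i) = if j = i then 1 else 0)
    (h1 : ∀ i, S.derivative.eval (c i) = 0) (h2 : ∀ i, S.derivative.derivative.eval (c i) ≠ 0)
    (ρ : ℝ) (hρ : 0 < ρ) : ∃ δ > 0, ∀ v : ι → ℝ, (∀ i, |v i - S.eval (c i)| < δ) →
      ∃ s c' : ι → ℝ, (∀ i, |s i| < ρ) ∧ (∀ i, |c' i - c i| < ρ) ∧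
        ∀ i, (S + ∑ j, C (s j) * L j).derivative.eval (c' i) = 0 ∧
          (S + ∑ j, C (s j) * L j).eval (c' i) = v i := by
  let E := (ι → ℝ) × (ι → ℝ)
  let p1 : ι → E →L[ℝ] ℝ := fun j => (ContinuousLinearMap.proj j).comp (ContinuousLinearMap.fst ℝ _ _)
  let p2 : ι → E →L[ℝ] ℝ := fun j => (ContinuousLinearMap.proj j).comp (ContinuousLinearMap.snd ℝ _ _)
  have a1 : ∀ (Q : ℝ[X]) (i : ι), HasStrictFDerivAt (fun x : E => Q.eval (x.2 i))
      (Q.derivative.eval (c i) • p2 i) (0, c) := fun Q i =>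
    HasStrictDerivAt.comp_hasStrictFDerivAt (h₂ := fun t => Q.eval t) (f := p2 i) ((0, c) : E)
      (Q.hasStrictDerivAt (c i)) (p2 i).hasStrictFDerivAt
  have a2 : ∀ (Q : ℝ[X]) (W : ι → ℝ[X]) (i : ι), HasStrictFDerivAt
      (fun x : E => Q.eval (x.2 i) + ∑ j, x.1 j * (W j).eval (x.2 i))
      (Q.derivative.eval (c i) • p2 i + ∑ j, (W j).eval (c i) • p1 j) (0, c) := fun Q W i => by
    refine (a1 Q i).add (HasStrictFDerivAt.fun_sum fun j _ => ?_)
    have := (p1 j).hasStrictFDerivAt.mul (a1 (W j) i)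
    rw [show p1 j ((0, c) : E) = 0 from rfl, zero_smul, zero_add] at this
    exact this
  have a3 := (hasStrictFDerivAt_pi.2 (a2 S.derivative fun j => (L j).derivative)).prodMk
    (hasStrictFDerivAt_pi.2 (a2 S L))
  have a4 := a3.map_nhds_eq_of_surj (by
    rw [LinearMap.range_eq_top]
    rintro ⟨a, b⟩
    refine ⟨(b, fun i => (a i - ∑ j, (L j).derivative.eval (c i) * b j) /
      S.derivative.derivative.eval (c i)), Prod.ext (funext fun i => ?_) (funext fun i => ?_)⟩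
    · have := h2 i
      have e : ∀ x : E, (S.derivative.derivative.eval (c i) • p2 i +
          ∑ j, (L j).derivative.eval (c i) • p1 j) x = S.derivative.derivative.eval (c i) * x.2 i +
          ∑ j, (L j).derivative.eval (c i) * x.1 j := fun x => by
        rw [ContinuousLinearMap.add_apply, ContinuousLinearMap.sum_apply]; rfl
      refine (e _).trans ?_
      simp only
      field_simp
      ring
    · have e : ∀ x : E, (S.derivative.eval (c i) • p2 i +
          ∑ j, (L j).eval (c i) • p1 j) x = S.derivative.eval (c i) * x.2 i +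
          ∑ j, (L j).eval (c i) * x.1 j := fun x => by
        rw [ContinuousLinearMap.add_apply, ContinuousLinearMap.sum_apply]; rfl
      refine (e _).trans ?_
      simp [h1, hL])
  have a5 := a4.ge (image_mem_map (Metric.ball_mem_nhds ((0, c) : E) hρ))
  obtain ⟨δ, hδ, hb⟩ := Metric.mem_nhds_iff.1 a5
  refine ⟨δ, hδ, fun v hv => ?_⟩
  obtain ⟨⟨s, c'⟩, q1, q2⟩ := hb (show ((0, v) : E) ∈ _ by
    rw [Metric.mem_ball, Prod.dist_eq, max_lt_iff, dist_pi_lt_iff hδ, dist_pi_lt_iff hδ]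
    exact ⟨fun i => by simpa [h1] using hδ, fun i => by simpa [Real.dist_eq] using hv i⟩)
  rw [Metric.mem_ball, Prod.dist_eq, max_lt_iff, dist_pi_lt_iff hρ, dist_pi_lt_iff hρ] at q1
  refine ⟨s, c', fun i => by simpa using q1.1 i, fun i => by simpa [Real.dist_eq] using q1.2 i,
    fun i => ⟨?_, ?_⟩⟩
  · have := congrFun (congrArg Prod.fst q2) i
    simpa [eval_finsetSum] using this
  · have := congrFun (congrArg Prod.snd q2) i
    simpa [eval_finsetSum] using this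

def IV (J : ℝ → Prop) (Y : ℝ → ℝ) : Prop :=
  ∀ a ∈ Icc (0:ℝ) 1, ∀ b ∈ Icc (0:ℝ) 1, (∀ t, J t → a ≤ t → b ≤ t) →
    ∀ y ∈ Icc (Y a) (Y b), ∃ u ∈ Icc a b, Y u = y

lemma nodes (S : ℝ[X]) (M : ℕ) (hM : 2 ≤ M) (hS : S.natDegree = M) (Y : ℝ → ℝ)
    (hY : StrictMonoOn Y (Icc 0 1)) (hc : ∀ u ∈ Icc (0:ℝ) 1, S.eval (Y u) = cos (M * π * u))
    (J : ℝ → Prop) (hJ : ∀ t, J t → ∃ i : ℕ, M * t = i) (hI : IV J Y) :
    ∃ c, Nodes S M c ∧ Rep S M c Y ∧ c 0 = Y 0 - 1 ∧ c M = Y 1 + 1 ∧ 1 < S.eval (c 0) ∧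
      1 < (-1) ^ M * S.eval (c M) ∧
      ∀ j, 0 < j → j < M → ¬ J (j / M) → (-1) ^ j * S.eval (c j) = 1 := by
  have hM' : (0:ℝ) < M := by exact_mod_cast (by omega : 0 < M)
  have hM2 : (2:ℝ) ≤ M := by exact_mod_cast hM
  have hp := pi_pos
  have mem : ∀ x : ℝ, 0 ≤ x → x ≤ M → x / M ∈ Icc (0:ℝ) 1 := fun x h1 h2 =>
    ⟨by positivity, (div_le_one hM').2 h2⟩
  have lt : ∀ x y : ℝ, 0 ≤ x → x < y → y ≤ M → Y (x / M) < Y (y / M) := fun x y h1 h2 h3 =>
    hY (mem x h1 (by linarith)) (mem y (by linarith) h3) (by gcongr)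
  have ev : ∀ x : ℝ, 0 ≤ x → x ≤ M → S.eval (Y (x / M)) = cos (x * π) := fun x h1 h2 => by
    rw [hc _ (mem x h1 h2)]; congr 1; field_simp
  have ev1 : ∀ j : ℕ, j ≤ M → (-1) ^ j * S.eval (Y (j / M)) = 1 := fun j hj => by
    rw [ev j (Nat.cast_nonneg _) (by exact_mod_cast hj), Real.cos_nat_mul_pi, sq1]
  have ev0 : ∀ j : ℕ, j < M → S.eval (Y ((j + 1 / 2) / M)) = 0 := fun j hj => by
    have : (j:ℝ) + 1 ≤ M := by exact_mod_cast hj
    rw [ev _ (by positivity) (by linarith), show ((j:ℝ) + 1 / 2) * π = π / 2 + j * π by ring,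
      Real.cos_add_nat_mul_pi, Real.cos_pi_div_two, mul_zero]
  have : ∀ i : ℕ, ∃ c, i + 1 < M → c ∈ Ioo (Y ((i + 1 / 2) / M)) (Y ((i + 1 + 1 / 2) / M)) ∧
      S.derivative.eval c = 0 ∧ 1 ≤ (-1) ^ (i + 1) * S.eval c := by
    intro i
    by_cases hi : i + 1 < M
    swap
    · exact ⟨0, fun h => absurd h hi⟩
    have hi' : (i:ℝ) + 1 + 1 ≤ M := by exact_mod_cast hi
    have l1 := lt (i + 1 / 2) (i + 1) (by positivity) (by linarith) (by linarith)
    have l2 := lt (i + 1) (i + 1 + 1 / 2) (by positivity) (by linarith) (by linarith)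
    obtain ⟨c, c1, c2⟩ := isCompact_Icc.exists_isMaxOn (nonempty_Icc.2 (l1.trans l2).le)
      (f := fun t => (-1) ^ (i + 1) * S.eval t) (by fun_prop)
    have c3 : 1 ≤ (-1) ^ (i + 1) * S.eval c := by
      have q := c2 ⟨l1.le, l2.le⟩
      have q2 := ev1 (i + 1) hi.le
      push_cast at q2
      exact q2.ge.trans q
    have z1 := ev0 i (by omega)
    have z2 := ev0 (i + 1) hi
    push_cast at z2
    have c4 : c ∈ Ioo (Y ((i + 1 / 2) / M)) (Y ((i + 1 + 1 / 2) / M)) :=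
      ⟨lt_of_le_of_ne c1.1 fun e => by rw [← e, z1] at c3; linarith,
        lt_of_le_of_ne c1.2 fun e => by rw [e, z2] at c3; linarith⟩
    have c5 := (c2.isLocalMax (Icc_mem_nhds c4.1 c4.2)).hasDerivAt_eq_zero
      ((S.hasDerivAt c).const_mul _)
    exact ⟨c, fun _ => ⟨c4, (mul_eq_zero.1 c5).resolve_left (by positivity), c3⟩⟩
  choose d hd using this
  obtain ⟨c, c0, cM, cd⟩ : ∃ c : ℕ → ℝ, c 0 = Y 0 - 1 ∧ c M = Y 1 + 1 ∧
      ∀ i, i + 1 < M → c (i + 1) = d i :=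
    ⟨fun j => if j = 0 then Y 0 - 1 else if j = M then Y 1 + 1 else d (j - 1), by simp,
      by simp [show M ≠ 0 by omega], fun i hi => by simp [hi.ne]⟩
  have y0 : Y 0 = Y (0 / M) := by rw [zero_div]
  have y1 : Y 1 = Y (M / M) := by rw [div_self hM'.ne']
  have b1 : ∀ j < M, c j < Y ((j + 1 / 2) / M) := fun j hj => by
    rcases j with _ | i
    · have := lt 0 (((0:ℕ):ℝ) + 1 / 2) le_rfl (by norm_num) (by norm_num; linarith)
      linarith
    · rw [cd i hj]; push_cast; exact (hd i hj).1.2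
  have b2 : ∀ j < M, Y ((j + 1 / 2) / M) < c (j + 1) := fun j hj => by
    rcases (Nat.succ_le_of_lt hj).eq_or_lt with e | h
    · have e' : (j:ℝ) + 1 = M := by exact_mod_cast e
      have := lt (j + 1 / 2) M (by positivity) (by linarith) le_rfl
      rw [show j + 1 = M from e]; linarith
    · rw [cd j h]; exact (hd j h).1.1
  have hlt : ∀ j < M, c j < c (j + 1) := fun j hj => (b1 j hj).trans (b2 j hj)
  have hcr : ∀ j, 0 < j → j < M → S.derivative.eval (c j) = 0 := fun j h1 h2 => by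
    obtain ⟨i, rfl⟩ : ∃ i, j = i + 1 := ⟨j - 1, by omega⟩
    rw [cd i h2]; exact (hd i h2).2.1
  have hno := (crit_only (by omega) hS hlt hcr).1
  have v0 : 1 < S.eval (c 0) := by
    have q0 := lt 0 (((0:ℕ):ℝ) + 1 / 2) le_rfl (by norm_num) (by norm_num; linarith)
    have q1 := b2 0 (by omega)
    have q2 := ev1 0 (by omega)
    simp only [pow_zero, Nat.cast_zero] at q2
    rw [← y0] at q0 q2
    have q3 : Y 0 ∈ Icc (c 0) (c (0 + 1)) := ⟨by linarith, by linarith⟩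
    have := anti_of S 1 _ _ one_ne_zero (hno 0 (by omega)) q3 ⟨by linarith, q1.le⟩ q0
      (by rw [ev0 0 (by omega)]; linarith) (left_mem_Icc.2 (hlt 0 (by omega)).le) q3 (by linarith)
    simp only at this
    linarith
  have vM : 1 < (-1) ^ M * S.eval (c M) := by
    obtain ⟨j, rfl⟩ : ∃ j, M = j + 1 := ⟨M - 1, by omega⟩
    have q0 := lt (j + 1 / 2) ((j + 1 : ℕ) : ℝ) (by positivity) (by push_cast; linarith) le_rfl
    have q1 := b1 j (by omega)
    have q2 := ev1 (j + 1) le_rfl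
    rw [← y1] at q0 q2
    rw [pow_succ] at q2 ⊢
    have q3 : Y 1 ∈ Icc (c j) (c (j + 1)) := ⟨by linarith, by linarith⟩
    have := anti_of S ((-1) ^ j) _ _ (by positivity) (hno j (by omega)) ⟨q1.le, by linarith⟩ q3 q0
      (by rw [ev0 j (by omega)]; linarith) q3 (right_mem_Icc.2 (hlt j (by omega)).le) (by linarith)
    simp only at this
    linarith
  have hN : Nodes S M c := ⟨by omega, hS, hlt, hcr, fun j hj => by
    rcases hj.eq_or_lt with rfl | h
    · exact vM.le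
    · rcases j with _ | i
      · simpa using v0.le
      · rw [cd i h]; exact (hd i h).2.2⟩
  refine ⟨c, hN, fun u hu => ⟨hc u hu, fun j hj => ⟨?_, ?_⟩⟩, c0, cM, v0, vM, fun j h1 h2 h3 => ?_⟩
  · rcases j with _ | i
    · linarith [hY.monotoneOn (left_mem_Icc.2 zero_le_one) hu hu.1]
    by_contra hn
    push Not at hn
    have hi' : (i:ℝ) + 1 + 1 ≤ M := by exact_mod_cast hj.1
    have q1 := hj.2.2.2.resolve_right (by omega)
    push_cast at q1
    have q2 : Y ((i + 1) / M) < Y u :=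
      hY (mem _ (by positivity) (by linarith)) hu (by rw [div_lt_iff₀ hM']; linarith)
    have q3 := lt (i + 1 / 2) (i + 1) (by positivity) (by linarith) (by linarith)
    have q4 := b1 i (by have := hj.1; omega)
    have q5 := hN.anti (j := i) (by have := hj.1; omega) ⟨by linarith, by linarith⟩
      ⟨by linarith, hn.le⟩ q2
    have q6 := ev1 (i + 1) hj.1.le
    simp only at q5
    rw [hc u hu, ← Real.cos_sub_nat_mul_pi] at q5
    push_cast at q6
    rw [pow_succ] at q6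
    linarith [Real.neg_one_le_cos (M * π * u - i * π)]
  · rcases (Nat.succ_le_of_lt hj.1).eq_or_lt with e | h
    · rw [show j + 1 = M from e]
      linarith [hY.monotoneOn hu (right_mem_Icc.2 zero_le_one) hu.2]
    by_contra hn
    push Not at hn
    have hi' : (j:ℝ) + 1 + 1 ≤ M := by exact_mod_cast h
    have ha := mem (j + 1 / 2) (by positivity) (by linarith)
    obtain ⟨u', u1, u2⟩ := hI _ ha u hu (fun t ht hat => by
      obtain ⟨i, hi⟩ := hJ t ht
      rw [div_le_iff₀ hM'] at hat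
      have q1 : (j:ℝ) < i := by linarith
      have q2 : (j:ℝ) + 1 ≤ i := by exact_mod_cast q1
      nlinarith [hj.2.2.1]) (c (j + 1)) ⟨(b2 j hj.1).le, hn.le⟩
    have hu' : u' ∈ Icc (0:ℝ) 1 := ⟨ha.1.trans u1.1, u1.2.trans hu.2⟩
    have q1 : u' < u := (hY.lt_iff_lt hu' hu).1 (u2 ▸ hn)
    have q2 := hN.val (j + 1) h.le
    rw [← u2, hc u' hu', ← Real.cos_nat_mul_pi_sub] at q2
    have q3 := u1.1
    rw [div_le_iff₀ hM'] at q3
    push_cast at q2
    have q4 : M * u' < j + 1 := by nlinarith [hj.2.2.1]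
    exact absurd (cos_lt1 (by nlinarith) (by nlinarith)) (not_lt.2 q2)
  · obtain ⟨i, rfl⟩ : ∃ i, j = i + 1 := ⟨j - 1, by omega⟩
    have hi' : (i:ℝ) + 1 + 1 ≤ M := by exact_mod_cast h2
    have ha := mem (i + 1 / 2) (by positivity) (by linarith)
    have hb := mem (i + 1 + 1 / 2) (by positivity) (by linarith)
    obtain ⟨u', u1, u2⟩ := hI _ ha _ hb (fun t ht hat => by
      obtain ⟨l, hl⟩ := hJ t ht
      rw [div_le_iff₀ hM'] at hat ⊢
      have q1 : (i:ℝ) < l := by linarith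
      have q2 : i < l := by exact_mod_cast q1
      have q3 : i + 1 ≠ l := by
        rintro rfl
        exact h3 (by rw [← hl, mul_div_cancel_left₀ _ hM'.ne']; exact ht)
      have q4 : (i:ℝ) + 2 ≤ l := by exact_mod_cast (by omega : i + 2 ≤ l)
      linarith) (c (i + 1)) (by rw [cd i h2]; exact Ioo_subset_Icc_self (hd i h2).1)
    refine le_antisymm ?_ (hN.val _ h2.le)
    rw [← u2, hc u' ⟨ha.1.trans u1.1, u1.2.trans hb.2⟩, ← Real.cos_sub_nat_mul_pi]
    exact Real.cos_le_one _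

end Pool.Agent.H94.RG
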