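import Pool.Agent.H94.RG3

set_option autoImplicit false

namespace Pool.Agent.H94.RG

open Set Filter Real Polynomial Topology

def Jk (k : ℕ) (t : ℝ) : Prop := ∃ i, 1 ≤ i ∧ i ≤ k ∧ t = (1 / 2) ^ i

structure Inv (k : ℕ) (T : ℝ[X]) (Y : ℝ → ℝ) : Prop where
  deg : T.natDegree = 2 ^ k
  lead : 2 * |T.leadingCoeff| = 2 ^ (2 ^ k)
  mono : StrictMonoOn Y (Icc 0 1)
  ev : ∀ u ∈ Icc (0:ℝ) 1, T.eval (Y u) = cos ((2 ^ k : ℕ) * π * u)
  iv : IV (Jk k) Y

lemma aeval_real (P : ℝ[X]) (x : ℝ) : aeval (x : ℂ) P = (P.eval x : ℝ) :=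
  Polynomial.aeval_algebraMap_apply_eq_algebraMap_eval (A := ℂ) x P

lemma small (A B : ℝ) (hA : 0 < A) : ∀ᶠ ρ in 𝓝[>] (0:ℝ), ρ * B < A := by
  have : Tendsto (fun ρ : ℝ => ρ * B) (𝓝[>] 0) (𝓝 (0 * B)) :=
    ((continuous_id.mul continuous_const).tendsto 0).mono_left nhdsWithin_le_nhds
  rw [zero_mul] at this
  exact this.eventually (gt_mem_nhds hA)

lemma modulus (f : ℝ → ℝ) (hf : Continuous f) (a b : ℝ) (hi : InjOn f (Icc a b)) (ε : ℝ)
    (hε : 0 < ε) : ∃ η > 0, ∀ x ∈ Icc a b, ∀ y ∈ Icc a b, |f x - f y| < η → |x - y| < ε := by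
  have hc : IsCompact ((Icc a b ×ˢ Icc a b) ∩ {p : ℝ × ℝ | ε ≤ |p.1 - p.2|}) :=
    (isCompact_Icc.prod isCompact_Icc).inter_right (isClosed_le continuous_const (by fun_prop))
  obtain ⟨η, h1, h2⟩ := hc.exists_forall_le' (f := fun p : ℝ × ℝ => |f p.1 - f p.2|) (a := 0)
    (by fun_prop) (fun p hp => abs_pos.2 (sub_ne_zero.2 fun h => by
      have := hp.2
      rw [mem_setOf_eq, hi hp.1.1 hp.1.2 h, sub_self, abs_zero] at this
      linarith))
  exact ⟨η, h1, fun x hx y hy h => not_le.1 fun h' => absurd (h2 (x, y) ⟨⟨hx, hy⟩, h'⟩) (not_le.2 h)⟩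

lemma step {k : ℕ} {T : ℝ[X]} {Y : ℝ → ℝ} (h : Inv k T Y) (hb : ∀ u ∈ Icc (0:ℝ) 1, |Y u| ≤ 2)
    (ε : ℝ) (hε : 0 < ε) : ∃ T' Y', Inv (k + 1) T' Y' ∧ (∀ u ∈ Icc (0:ℝ) 1, |Y' u - Y u| ≤ ε) ∧
      (∀ z : ℂ, ‖z‖ ≤ 5 → |G (aeval z T') / 2 ^ (k + 1) - G (aeval z T) / 2 ^ k| ≤ ε) ∧
      ∃ d, Y' ((1 / 2) ^ (k + 1)) < d ∧ ∀ u ∈ Icc (0:ℝ) 1, (1 / 2) ^ (k + 1) < u → d ≤ Y' u := by
  classical
  obtain ⟨M, hM⟩ : ∃ M : ℕ, M = 2 ^ (k + 1) := ⟨_, rfl⟩
  have hk : 0 < 2 ^ k := by positivity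
  have hM2 : 2 ≤ M := by rw [hM, pow_succ]; omega
  have hM' : (0:ℝ) < M := by exact_mod_cast (by omega : 0 < M)
  have hMr : (M:ℝ) = 2 ^ (k + 1) := by rw [hM]; push_cast; rfl
  have add : ∀ A Q : ℝ[X], A.natDegree = M → Q.natDegree < M →
      (A + Q).natDegree = M ∧ (A + Q).leadingCoeff = A.leadingCoeff := fun A Q h1 h2 =>
    ⟨(natDegree_add_eq_left_of_natDegree_lt (h1 ▸ h2)).trans h1,
      leadingCoeff_add_of_degree_lt' (degree_lt_degree (h1 ▸ h2))⟩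
  obtain ⟨S, hS⟩ : ∃ S : ℝ[X], S = C 2 * T ^ 2 + C (-1) := ⟨_, rfl⟩
  obtain ⟨s1, s2⟩ := add (C 2 * T ^ 2) (C (-1))
    (by rw [natDegree_C_mul (by norm_num), natDegree_pow, h.deg, hM]; ring) (by simp; omega)
  rw [← hS] at s1 s2
  have s3 : 2 * |S.leadingCoeff| = 2 ^ (2 ^ (k + 1)) := by
    rw [s2, leadingCoeff_mul, leadingCoeff_C, leadingCoeff_pow, pow_succ 2 k, pow_mul, ← h.lead,
      abs_mul, abs_pow, abs_two]
    ring
  have s4 : ∀ u ∈ Icc (0:ℝ) 1, S.eval (Y u) = cos (M * π * u) := fun u hu => by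
    rw [hS, show M * π * u = 2 * ((2 ^ k : ℕ) * π * u) by rw [hMr]; push_cast; ring,
      Real.cos_two_mul, ← h.ev u hu]
    simp; ring
  have s5 : ∀ z : ℂ, G (aeval z S) = 2 * G (aeval z T) := fun z => by
    rw [← G_sq, hS]; simp [sub_eq_add_neg]
  obtain ⟨c, hN, hR, c0, cM, v0, vM, hcl⟩ := nodes S M hM2 s1 Y h.mono s4 (Jk k) (by
    rintro _ ⟨i, -, hi, rfl⟩
    refine ⟨2 ^ (k + 1 - i), ?_⟩
    obtain ⟨l, rfl⟩ := Nat.exists_eq_add_of_le hi
    rw [hMr, show i + l + 1 - i = l + 1 by omega]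
    push_cast
    rw [one_div, inv_pow]
    field_simp
    ring) h.iv
  have cb : ∀ j ≤ M, |c j| ≤ 3 := fun j hj => by
    have q1 := wmono hN.lt (Nat.zero_le j) hj
    have q2 := wmono hN.lt hj le_rfl
    have q3 := abs_le.1 (hb 0 (left_mem_Icc.2 zero_le_one))
    have q4 := abs_le.1 (hb 1 (right_mem_Icc.2 zero_le_one))
    rw [abs_le]; constructor <;> linarith [q3.1, q4.2]
  let ι := {j // j ∈ Finset.Ioo 0 M}
  letI : Fintype ι := Finset.Subtype.fintype _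
  have hι : ∀ i : ι, 0 < i.1 ∧ i.1 < M := fun i => Finset.mem_Ioo.1 i.2
  have hinj : InjOn (fun i : ι => c i) (Finset.univ : Finset ι) := fun i _ j _ hij => by
    apply Subtype.ext
    rcases lt_trichotomy i.1 j.1 with h1 | h1 | h1
    · exact absurd hij (smono hN.lt h1 (hι j).2.le).ne
    · exact h1
    · exact absurd hij (smono hN.lt h1 (hι i).2.le).ne'
  let L : ι → ℝ[X] := fun j => Lagrange.basis Finset.univ (fun i : ι => c i) j
  obtain ⟨B, hB⟩ := (isCompact_closedBall (0:ℂ) 5).exists_bound_of_continuousOn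
    (f := fun z : ℂ => ∑ j, ‖aeval z (L j)‖) (by fun_prop)
  obtain ⟨B0, hB0⟩ := (isCompact_closedBall (0:ℂ) 5).exists_bound_of_continuousOn
    (f := fun z : ℂ => aeval z S) (by fun_prop)
  obtain ⟨η, η0, hη⟩ := Metric.uniformContinuousOn_iff.1
    ((isCompact_closedBall (0:ℂ) (B0 + 1)).uniformContinuousOn_of_continuous G_cont.continuousOn) ε hε
  have E4 : ∀ᶠ ρ in 𝓝[>] (0:ℝ), ∀ j ∈ Finset.range M, ∀ x ∈ Icc (c j) (c (j + 1)),
      ∀ y ∈ Icc (c j) (c (j + 1)), ∀ w ∈ Icc (-5:ℝ) 5, |y - w| < ρ →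
        |S.eval w - S.eval x| ≤ ρ * B → |x - y| < ε / 2 := by
    refine (eventually_all_finset _).2 fun j hj => ?_
    have hj' := Finset.mem_range.1 hj
    obtain ⟨η1, q1, q2⟩ := modulus (fun t => S.eval t) (by fun_prop) (c j) (c (j + 1))
      (fun x hx y hy e => (hN.anti hj').injOn hx hy (by simp only at e ⊢; rw [e])) _ (half_pos hε)
    obtain ⟨η2, q3, q4⟩ := Metric.uniformContinuousOn_iff.1
      ((isCompact_Icc (a := (-5:ℝ)) (b := 5)).uniformContinuousOn_of_continuous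
        (f := fun t => S.eval t) (by fun_prop)) _ (half_pos q1)
    filter_upwards [small _ B (half_pos q1), small _ 1 q3] with ρ r1 r2 x hx y hy w hw r3 r4
    have q5 := abs_le.1 (cb j hj'.le)
    have q6 := abs_le.1 (cb (j + 1) hj')
    have q7 := q4 y ⟨by linarith [hy.1], by linarith [hy.2]⟩ w hw (by rw [Real.dist_eq]; linarith)
    rw [Real.dist_eq] at q7
    refine q2 x hx y hy ?_
    have := abs_sub_le (S.eval x) (S.eval w) (S.eval y)
    rw [abs_sub_comm] at r4 q7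
    linarith
  have E1 : ∀ᶠ ρ in 𝓝[>] (0:ℝ), ∀ j ∈ Finset.range M, ρ * 2 < c (j + 1) - c j :=
    (eventually_all_finset _).2 fun j hj =>
      small _ _ (sub_pos.2 (hN.lt j (Finset.mem_range.1 hj)))
  obtain ⟨ρ, ⟨⟨⟨⟨⟨⟨r1, r2⟩, r3⟩, r4⟩, r5⟩, r6⟩, r7⟩, r0⟩ :=
    (((((((E1.and E4).and (small _ B (sub_pos.2 v0))).and (small _ B (sub_pos.2 vM))).and
      (small _ 1 (half_pos hε))).and (small _ B (lt_min η0 one_pos))).and
      (small _ 1 one_pos)).and self_mem_nhdsWithin).exists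
  replace r0 : 0 < ρ := r0
  rw [lt_min_iff] at r6
  obtain ⟨δ, δ0, hδ⟩ := ift S (fun i : ι => c i) L (fun i j => by
      split_ifs with e
      · rw [e]; exact Lagrange.eval_basis_self hinj (Finset.mem_univ _)
      · exact Lagrange.eval_basis_of_ne (v := fun i : ι => c i) e (Finset.mem_univ _))
    (fun i => hN.crit _ (hι i).1 (hι i).2)
    (fun i => (crit_only hN.pos hN.deg hN.lt hN.crit).2 _ (hι i).1 (hι i).2) ρ r0
  obtain ⟨s, c', t1, t2, t3⟩ := hδ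
    (fun i => if i.1 = 1 then S.eval (c 1) - δ / 2 else S.eval (c i)) (fun i => by
      split_ifs with e
      · rw [e, sub_sub_cancel_left, abs_neg, abs_of_pos (by linarith)]; linarith
      · simpa using δ0)
  obtain ⟨P, hP⟩ : ∃ P, P = S + ∑ j, C (s j) * L j := ⟨_, rfl⟩
  obtain ⟨p1, p2⟩ := add S (∑ j, C (s j) * L j) s1 (by
    refine lt_of_le_of_lt (natDegree_sum_le_of_forall_le _ _ (n := M - 1) fun j _ => ?_) (by omega)
    refine (natDegree_C_mul_le _ _).trans ?_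
    rw [Lagrange.natDegree_basis hinj (Finset.mem_univ _)]
    rw [Finset.card_univ, Fintype.card_coe, Nat.card_Ioo]; omega)
  rw [← hP] at p1 p2 t3
  have pc : ∀ z : ℂ, ‖z‖ ≤ 5 → ‖aeval z P - aeval z S‖ ≤ ρ * B := fun z hz => by
    have q := hB z (by simpa using hz)
    rw [hP, map_add, add_sub_cancel_left, map_sum]
    refine (norm_sum_le _ _).trans (le_trans ?_ (mul_le_mul_of_nonneg_left
      ((le_abs_self _).trans q) r0.le))
    rw [Finset.mul_sum]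
    refine Finset.sum_le_sum fun j _ => ?_
    rw [map_mul, norm_mul, aeval_C]
    exact mul_le_mul_of_nonneg_right (by simpa using (t1 j).le) (norm_nonneg _)
  have pr : ∀ x : ℝ, |x| ≤ 5 → |P.eval x - S.eval x| ≤ ρ * B := fun x hx => by
    have := pc x (by simpa using hx)
    rwa [aeval_real, aeval_real, ← Complex.ofReal_sub, Complex.norm_real] at this
  obtain ⟨e, e1, e2, e3⟩ : ∃ e : ℕ → ℝ, (∀ i : ι, e i = c' i) ∧ (∀ j, |e j - c j| < ρ) ∧
      e 0 = c 0 ∧ e M = c M :=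
    ⟨fun j => if h : j ∈ Finset.Ioo 0 M then c' ⟨j, h⟩ else c j, fun i => dif_pos i.2, fun j => by
      simp only
      split_ifs with hj
      · exact t2 ⟨j, hj⟩
      · simpa using r0, by simp, by simp⟩
  have ev : ∀ j, 0 < j → j < M →
      P.eval (e j) = if j = 1 then S.eval (c 1) - δ / 2 else S.eval (c j) := fun j h1 h2 => by
    have := (t3 ⟨j, Finset.mem_Ioo.2 ⟨h1, h2⟩⟩).2
    rwa [← e1] at this
  have hN' : Nodes P M e := ⟨hN.pos, p1, fun j hj => by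
      have q1 := r1 j (Finset.mem_range.2 hj)
      have q2 := abs_lt.1 (e2 j)
      have q3 := abs_lt.1 (e2 (j + 1))
      linarith [q2.2, q3.1], fun j h1 h2 => by
      have := (t3 ⟨j, Finset.mem_Ioo.2 ⟨h1, h2⟩⟩).1
      rwa [← e1] at this, fun j hj => by
      rcases hj.eq_or_lt with rfl | h1
      · have q := pr _ ((cb j le_rfl).trans (by norm_num))
        have q2 : |(-1) ^ j * (P.eval (c j) - S.eval (c j))| ≤ ρ * B := by simpa [abs_mul] using q
        rw [e3.2]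
        linarith [(abs_le.1 q2).1]
      · rcases Nat.eq_zero_or_pos j with rfl | h0
        · have q := pr _ ((cb 0 hj).trans (by norm_num))
          rw [e3.1]
          linarith [(abs_le.1 q).1]
        · rw [ev j h0 h1]
          have := hN.val j hj
          split_ifs with h2
          · subst h2; linarith
          · exact this⟩
  obtain ⟨Y', hY'⟩ := hN'.rep
  have hu1 : (1 / 2 : ℝ) ^ (k + 1) ∈ Icc (0:ℝ) 1 :=
    ⟨by positivity, pow_le_one₀ (by norm_num) (by norm_num)⟩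
  have hu2 : M * (1 / 2 : ℝ) ^ (k + 1) = 1 := by rw [hMr, ← mul_pow]; norm_num
  refine ⟨P, Y', ⟨hM ▸ p1, p2 ▸ s3, hN'.smon hY', fun u hu => hM ▸ (hY' u hu).1,
    fun a ha b hb' hJ y hy => hN'.iv hY' ha hb' (fun j h1 h2 h3 h4 => ?_) hy⟩,
    fun u hu => ?_, fun z hz => ?_, e 1, ?_, fun u hu h1 => ?_⟩
  · have q : ¬ Jk (k + 1) (j / M) := fun hj => by
      have := hJ _ hj (by rw [le_div_iff₀ hM']; linarith)
      rw [le_div_iff₀ hM'] at this
      linarith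
    rw [ev j h1 h2, if_neg]
    · exact hcl j h1 h2 fun ⟨i, a1, a2, a3⟩ => q ⟨i, a1, by omega, a3⟩
    · rintro rfl
      exact q ⟨k + 1, by omega, le_rfl, by rw [div_eq_iff hM'.ne']; push_cast; linarith⟩
  · obtain ⟨j, hj⟩ := ix_ex hN.pos hu
    have m1 := (hR u hu).2 j hj
    have m2 := (hY' u hu).2 j hj
    have q2 := abs_lt.1 (e2 j)
    have q3 := abs_lt.1 (e2 (j + 1))
    have q5 := abs_le.1 (cb j hj.1.le)
    have q6 := abs_le.1 (cb (j + 1) hj.1)
    have q7 := hN.lt j hj.1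
    have hw : Y' u ∈ Icc (-5:ℝ) 5 := ⟨by linarith [m2.1], by linarith [m2.2]⟩
    obtain ⟨y, y1, y2⟩ : ∃ y ∈ Icc (c j) (c (j + 1)), |y - Y' u| < ρ := by
      by_cases a1 : Y' u < c j
      · exact ⟨c j, left_mem_Icc.2 q7.le, abs_lt.2 ⟨by linarith, by linarith [m2.1]⟩⟩
      · by_cases a2 : c (j + 1) < Y' u
        · exact ⟨c (j + 1), right_mem_Icc.2 q7.le, abs_lt.2 ⟨by linarith [m2.2], by linarith⟩⟩
        · exact ⟨Y' u, ⟨not_lt.1 a1, not_lt.1 a2⟩, by simpa using r0⟩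
    have q8 := r2 j (Finset.mem_range.2 hj.1) _ m1 y y1 _ hw y2 (by
      rw [(hR u hu).1, ← (hY' u hu).1, abs_sub_comm]; exact pr _ (abs_le.2 hw))
    have := abs_sub_le (Y u) y (Y' u)
    rw [abs_sub_comm]
    linarith
  · have q1 := hB0 z (by simpa using hz)
    have q2 := pc z hz
    have q3 := hη (aeval z P) (by
      have := norm_le_norm_add_norm_sub' (aeval z P) (aeval z S)
      rw [mem_closedBall_zero_iff]; linarith) (aeval z S) (by
      rw [mem_closedBall_zero_iff]; linarith) (by rw [dist_eq_norm]; linarith)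
    rw [Real.dist_eq, s5] at q3
    rw [show G (aeval z P) / 2 ^ (k + 1) - G (aeval z T) / 2 ^ k =
      (G (aeval z P) - 2 * G (aeval z T)) / 2 ^ (k + 1) by field_simp; ring, abs_div,
      abs_of_pos (show (0:ℝ) < 2 ^ (k + 1) by positivity)]
    exact (div_le_self (abs_nonneg _) (one_le_pow₀ (by norm_num))).trans q3.le
  · have q := (hY' _ hu1).2 0 ⟨by omega, by rw [hu2]; simp, by rw [hu2]; simp, Or.inr rfl⟩
    refine lt_of_le_of_ne q.2 fun e0 => ?_
    have q1 := (hY' _ hu1).1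
    have q2 := hN.val 1 (by omega)
    rw [e0, ev 1 one_pos (by omega), if_pos rfl, mul_right_comm, hu2, one_mul, Real.cos_pi] at q1
    linarith
  · obtain ⟨j, hj⟩ := ix_ex hN.pos hu
    refine (wmono hN'.lt (Nat.pos_of_ne_zero ?_) hj.1.le).trans ((hY' u hu).2 j hj).1
    rintro rfl
    have := hj.2.2.1
    simp only [Nat.cast_zero, zero_add] at this
    nlinarith

end Pool.Agent.H94.RG
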