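import Pool.Agent.H94.RG4

set_option autoImplicit false

namespace Pool.Agent.H94.RG

open Set Filter Real Polynomial Topology MeasureTheory

lemma lim_ex (a e : ℕ → ℝ) (he : ∀ k, 0 ≤ e k) (h1 : ∀ k, e (k + 1) ≤ e k / 2)
    (h2 : ∀ k, |a (k + 1) - a k| ≤ e k) : ∃ l, ∀ k, |l - a k| ≤ 2 * e k := by
  have m1 : Monotone fun k => a k - 2 * e k := monotone_nat_of_le_succ fun k => by
    linarith [(abs_le.1 (h2 k)).1, h1 k]
  have m2 : Antitone fun k => a k + 2 * e k := antitone_nat_of_succ_le fun k => by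
    linarith [(abs_le.1 (h2 k)).2, h1 k]
  have m3 : ∀ k n, a k - 2 * e k ≤ a n + 2 * e n := fun k n => by
    have q1 := m1 (le_max_left k n)
    have q2 := m2 (le_max_right k n)
    simp only at q1 q2
    linarith [he (max k n)]
  refine ⟨⨆ k, (a k - 2 * e k), fun k => abs_le.2 ⟨?_, ?_⟩⟩
  · linarith [le_ciSup (f := fun k => a k - 2 * e k) ⟨_, forall_mem_range.2 fun j => m3 j 0⟩ k]
  · linarith [ciSup_le (f := fun k => a k - 2 * e k) fun j => m3 j k]

lemma inv0 : Inv 0 (-X) (fun u => -cos (π * u)) := by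
  have hm : StrictMonoOn (fun u => -cos (π * u)) (Icc 0 1) := fun a ha b hb hab => by
    have := pi_pos
    exact neg_lt_neg (Real.strictAntiOn_cos ⟨by nlinarith [ha.1], by nlinarith [ha.2]⟩
      ⟨by nlinarith [hb.1], by nlinarith [hb.2]⟩ (by nlinarith))
  refine ⟨by simp, by simp, hm, fun u _ => by simp, fun a ha b hb _ y hy => ?_⟩
  exact intermediate_value_Icc ((hm.le_iff_le ha hb).1 (hy.1.trans hy.2)) (by fun_prop) hy

theorem limit : ∃ (T : ℕ → ℝ[X]) (Z : ℕ → ℝ → ℝ) (Y : ℝ → ℝ) (g : ℂ → ℝ) (e : ℕ → ℝ),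
    (∀ k, Inv k (T k) (Z k)) ∧ (∀ k, ∀ u ∈ Icc (0:ℝ) 1, |Z k u| ≤ 2) ∧
    Tendsto e atTop (𝓝 0) ∧ (∀ k, ∀ u ∈ Icc (0:ℝ) 1, |Y u - Z k u| ≤ e k) ∧
    (∀ k, ∀ z : ℂ, ‖z‖ ≤ 5 → |g z - G (aeval z (T k)) / 2 ^ k| ≤ e k) ∧
    ∀ k, ∃ c d, Y ((1 / 2) ^ (k + 1)) < c ∧ c < d ∧
      ∀ u ∈ Icc (0:ℝ) 1, (1 / 2) ^ (k + 1) < u → d ≤ Y u := by
  let St := fun k => {x : ℝ[X] × (ℝ → ℝ) × ℝ // Inv k x.1 x.2.1 ∧ 0 < x.2.2 ∧
    ∀ u ∈ Icc (0:ℝ) 1, |x.2.1 u| ≤ 2 - 2 * x.2.2}
  have : ∀ k (x : St k), ∃ y : St (k + 1), y.1.2.2 ≤ x.1.2.2 / 2 ∧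
      (∀ u ∈ Icc (0:ℝ) 1, |y.1.2.1 u - x.1.2.1 u| ≤ x.1.2.2) ∧
      (∀ z : ℂ, ‖z‖ ≤ 5 → |G (aeval z y.1.1) / 2 ^ (k + 1) - G (aeval z x.1.1) / 2 ^ k| ≤ x.1.2.2) ∧
      ∃ d, y.1.2.1 ((1 / 2) ^ (k + 1)) + 8 * y.1.2.2 ≤ d ∧
        ∀ u ∈ Icc (0:ℝ) 1, (1 / 2) ^ (k + 1) < u → d ≤ y.1.2.1 u := by
    rintro k ⟨⟨T, Y, ε⟩, h1, h2, h3⟩
    obtain ⟨T', Y', q1, q2, q3, d, q4, q5⟩ := step h1 (fun u hu => by linarith [h3 u hu]) ε h2
    have m1 := min_le_left (ε / 2) ((d - Y' ((1 / 2) ^ (k + 1))) / 8)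
    have m2 := min_le_right (ε / 2) ((d - Y' ((1 / 2) ^ (k + 1))) / 8)
    refine ⟨⟨(T', Y', min (ε / 2) ((d - Y' ((1 / 2) ^ (k + 1))) / 8)), q1,
      lt_min (by linarith) (by linarith), fun u hu => ?_⟩, m1, q2, q3, d, by simp only; linarith, q5⟩
    have a1 := h3 u hu
    have a2 := q2 u hu
    have a3 := abs_sub_abs_le_abs_sub (Y' u) (Y u)
    simp only at a1 ⊢
    linarith
  choose nx h1 h2 h3 h4 using this
  let s : ∀ k, St k := fun k => Nat.rec ⟨(-X, fun u => -cos (π * u), 1 / 2), inv0, by norm_num,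
    fun u _ => by rw [abs_neg]; linarith [Real.abs_cos_le_one (π * u)]⟩ nx k
  have hs : ∀ k, s (k + 1) = nx k (s k) := fun k => rfl
  have e0 : ∀ k, 0 ≤ (s k).1.2.2 := fun k => (s k).2.2.1.le
  have hY : ∀ u, ∃ l, u ∈ Icc (0:ℝ) 1 → ∀ k, |l - (s k).1.2.1 u| ≤ 2 * (s k).1.2.2 := fun u => by
    by_cases hu : u ∈ Icc (0:ℝ) 1
    · obtain ⟨l, hl⟩ := lim_ex (fun k => (s k).1.2.1 u) _ e0 (fun k => h1 k (s k))
        fun k => h2 k (s k) u hu
      exact ⟨l, fun _ => hl⟩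
    · exact ⟨0, fun h => absurd h hu⟩
  have hg : ∀ z : ℂ, ∃ l, ‖z‖ ≤ 5 → ∀ k, |l - G (aeval z (s k).1.1) / 2 ^ k| ≤ 2 * (s k).1.2.2 :=
    fun z => by
    by_cases hu : ‖z‖ ≤ 5
    · obtain ⟨l, hl⟩ := lim_ex (fun k => G (aeval z (s k).1.1) / 2 ^ k) _ e0 (fun k => h1 k (s k))
        fun k => h3 k (s k) z hu
      exact ⟨l, fun _ => hl⟩
    · exact ⟨0, fun h => absurd h hu⟩
  choose Y hY using hY
  choose g hg using hg
  refine ⟨fun k => (s k).1.1, fun k => (s k).1.2.1, Y, g, fun k => 2 * (s k).1.2.2,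
    fun k => (s k).2.1, fun k u hu => by linarith [(s k).2.2.2 u hu, e0 k], ?_,
    fun k u hu => hY u hu k, fun k z hz => hg z hz k, fun k => ?_⟩
  · have : ∀ k, (s k).1.2.2 ≤ (1 / 2) ^ k := fun k => by
      induction k with
      | zero => simp [s]; norm_num
      | succ k ih => have := h1 k (s k); rw [pow_succ, hs]; linarith
    have h := (tendsto_pow_atTop_nhds_zero_of_lt_one (r := (1 / 2 : ℝ)) (by norm_num)
      (by norm_num)).const_mul 2
    rw [mul_zero] at h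
    exact squeeze_zero (fun k => by linarith [e0 k]) (fun k => by linarith [this k]) h
  · obtain ⟨d, d1, d2⟩ := h4 k (s k)
    rw [← hs] at d1 d2
    have p := (s (k + 1)).2.2.1
    have q := hY _ ⟨by positivity, pow_le_one₀ (n := k + 1) (by norm_num : (0:ℝ) ≤ 1 / 2)
      (by norm_num)⟩ (k + 1)
    refine ⟨d - 4 * (s (k + 1)).1.2.2, d - 2 * (s (k + 1)).1.2.2, by linarith [(abs_le.1 q).2],
      by linarith, fun u hu h => ?_⟩
    linarith [(abs_le.1 (hY u hu (k + 1))).1, d2 u hu h]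

lemma int_pos (μ : Measure ℝ) [IsProbabilityMeasure μ] (f : ℝ → ℝ) (hf : Integrable f μ)
    (h : ∀ᵐ t ∂μ, 0 < f t) : 0 < ∫ t, f t ∂μ := by
  refine lt_of_le_of_ne (integral_nonneg_of_ae (h.mono fun t ht => ht.le)) fun e => ?_
  have := (integral_eq_zero_iff_of_nonneg_ae (h.mono fun t ht => ht.le) hf).1 e.symm
  obtain ⟨t, h1, h2⟩ := (h.and this).exists
  exact h1.ne' h2

lemma int_nonreal (μ : Measure ℝ) [IsProbabilityMeasure μ] (hμ : ∀ᵐ t ∂μ, |t| ≤ 2) (z : ℂ)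
    (hz : z.im ≠ 0) : Integrable (fun t : ℝ => Real.log ‖z - t‖) μ :=
  Integrable.of_bound (by fun_prop : Measurable _).aestronglyMeasurable _
    (hμ.mono fun t ht => log_bdd z hz 2 t ht)

lemma realpot (μ : Measure ℝ) [IsProbabilityMeasure μ] (hμ : ∀ᵐ t ∂μ, |t| ≤ 2) (g : ℂ → ℝ)
    (hg : ContinuousOn g (Metric.closedBall 0 5)) (hg0 : ∀ z : ℂ, ‖z‖ ≤ 5 → 0 ≤ g z)
    (h : ∀ z : ℂ, ‖z‖ ≤ 5 → z.im ≠ 0 → ∫ t : ℝ, Real.log ‖z - t‖ ∂μ = g z - Real.log 2)
    (x : ℝ) (hx : |x| ≤ 4) : μ {x} = 0 ∧ Integrable (fun t => Real.log |x - t|) μ ∧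
      ∫ t, Real.log |x - t| ∂μ = g x - Real.log 2 := by
  let z : ℕ → ℂ := fun n => x + (1 / ((n:ℝ) + 1) : ℝ) * Complex.I
  have y1 : ∀ n : ℕ, 1 / ((n:ℝ) + 1) ≤ 1 := fun n => by
    rw [div_le_one (by positivity)]; linarith [(Nat.cast_nonneg n : (0:ℝ) ≤ n)]
  have z1 : ∀ n, (z n).im = 1 / ((n:ℝ) + 1) := fun n => by
    simp only [z, Complex.add_im, Complex.ofReal_im, Complex.mul_im, Complex.ofReal_re,
      Complex.I_im, Complex.I_re]; ring
  have z2 : ∀ n, (z n).im ≠ 0 := fun n => by rw [z1]; positivity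
  have z3 : ∀ n, ‖z n‖ ≤ 5 := fun n => by
    refine (norm_add_le _ _).trans ?_
    rw [norm_mul, Complex.norm_I, Complex.norm_real, Complex.norm_real, Real.norm_eq_abs,
      Real.norm_eq_abs, abs_of_pos (show 0 < 1 / ((n:ℝ) + 1) by positivity)]
    linarith [y1 n]
  have z4 : Tendsto z atTop (𝓝 x) := by
    have := ((Complex.continuous_ofReal.tendsto 0).comp
      tendsto_one_div_add_atTop_nhds_zero_nat).mul_const Complex.I |>.const_add (x:ℂ)
    simpa [z] using this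
  have z5 : ∀ n (t : ℝ), 0 < ‖z n - t‖ := fun n t => norm_pos_iff.2 fun e => z2 n (by
    rw [sub_eq_zero.1 e]; simp)
  have z6 : ∀ n (t : ℝ), |x - t| ≤ ‖z n - t‖ := fun n t => by
    simpa [z] using Complex.abs_re_le_norm (z n - t)
  let f : ℕ → ℝ → ℝ := fun n t => Real.log 7 - Real.log ‖z n - t‖
  have f1 : ∀ n, Integrable (f n) μ := fun n => (integrable_const _).sub (int_nonreal μ hμ _ (z2 n))
  have f2 : ∀ n, ∫ t, f n t ∂μ = Real.log 7 - (g (z n) - Real.log 2) := fun n => by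
    rw [integral_sub (integrable_const _) (int_nonreal μ hμ _ (z2 n)), h _ (z3 n) (z2 n)]; simp
  have f3 : ∀ n, ∫ t, f n t ∂μ ≤ Real.log 7 + Real.log 2 := fun n => by
    linarith [f2 n, hg0 _ (z3 n)]
  have f4 : ∀ᵐ t ∂μ, ∀ n, 0 ≤ f n t := hμ.mono fun t ht n => sub_nonneg.2
    (Real.log_le_log (z5 n t) ((norm_sub_le _ _).trans (by
      rw [Complex.norm_real, Real.norm_eq_abs]; linarith [z3 n])))
  have a0 : μ {x} = 0 := by
    by_contra hne
    have hp : 0 < μ.real {x} := ENNReal.toReal_pos hne (measure_ne_top _ _)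
    obtain ⟨n, hn⟩ := ((Real.tendsto_log_atTop.comp (tendsto_atTop_add_const_right _ 1
      tendsto_natCast_atTop_atTop)).eventually_gt_atTop
        ((Real.log 7 + Real.log 2) / μ.real {x})).exists
    have q1 := mul_meas_ge_le_integral_of_nonneg (f4.mono fun t ht => ht n) (f1 n) (f n x)
    have q2 : μ.real {x} ≤ μ.real {t | f n x ≤ f n t} :=
      measureReal_mono (by rintro _ rfl; exact le_refl (f n _))
    have q3 : f n x = Real.log 7 + Real.log (n + 1) := by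
      simp only [f, z, add_sub_cancel_left, norm_mul, Complex.norm_I, Complex.norm_real, mul_one,
        Real.norm_eq_abs, Real.log_abs, one_div, Real.log_inv]
      ring
    have q4 : 0 ≤ Real.log 7 := Real.log_nonneg (by norm_num)
    have q5 : 0 ≤ Real.log (n + 1) :=
      Real.log_nonneg (by linarith [(Nat.cast_nonneg n : (0:ℝ) ≤ n)])
    rw [div_lt_iff₀ hp] at hn
    simp only [Function.comp] at hn
    have q6 := mul_le_mul_of_nonneg_left q2 (show 0 ≤ f n x by linarith)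
    rw [q3] at q6 q1
    nlinarith [f3 n]
  have a1 : ∀ᵐ t ∂μ, t ≠ x := by simpa [ae_iff] using a0
  have a2 : ∀ᵐ t ∂μ, Tendsto (fun n => f n t) atTop (𝓝 (Real.log 7 - Real.log |x - t|)) :=
    a1.mono fun t ht => by
      have q : ‖(x:ℂ) - t‖ = |x - t| := by rw [← Complex.ofReal_sub, Complex.norm_real]; rfl
      rw [← q]
      exact ((z4.sub_const _).norm.log (by rw [q]; exact abs_ne_zero.2 (sub_ne_zero.2 ht.symm))).const_sub _
  have a3 : Integrable (fun t => Real.log 7 - Real.log |x - t|) μ := by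
    refine ⟨(by fun_prop : Measurable _).aestronglyMeasurable, ?_⟩
    refine (lintegral_enorm_le_liminf_of_tendsto a2 fun n => (f1 n).1.enorm).trans_lt
      (lt_of_le_of_lt (liminf_le_of_frequently_le' (Frequently.of_forall fun n => ?_))
        (ENNReal.ofReal_lt_top (r := Real.log 7 + Real.log 2)))
    rw [← ofReal_integral_norm_eq_lintegral_enorm (f1 n),
      integral_congr_ae (f4.mono fun t ht => Real.norm_of_nonneg (ht n))]
    exact ENNReal.ofReal_le_ofReal (f3 n)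
  have a4 : Integrable (fun t => Real.log |x - t|) μ :=
    ((integrable_const (Real.log 7)).sub a3).congr (Eventually.of_forall fun t => by simp)
  refine ⟨a0, a4, ?_⟩
  have t1 := tendsto_integral_of_dominated_convergence _ (fun n => (f1 n).1) a3
    (fun n => by
      filter_upwards [f4, a1] with t h1 h2
      rw [Real.norm_of_nonneg (h1 n)]
      exact sub_le_sub_left (Real.log_le_log (abs_pos.2 (sub_ne_zero.2 h2.symm)) (z6 n t)) _) a2
  have t2 : Tendsto (fun n => g (z n)) atTop (𝓝 (g x)) :=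
    (hg x (by simp; linarith)).tendsto.comp (tendsto_nhdsWithin_iff.2
      ⟨z4, Eventually.of_forall fun n => by simpa using z3 n⟩)
  simp only [f2] at t1
  have := tendsto_nhds_unique t1 ((t2.sub_const _).const_sub _)
  rw [integral_sub (integrable_const _) a4] at this
  simp at this ⊢
  linarith

lemma harm (μ : Measure ℝ) [IsProbabilityMeasure μ] (hμ : ∀ᵐ t ∂μ, |t| ≤ 2) (z0 : ℂ) (r : ℝ)
    (hr : 0 < r) (h : ∀ᵐ t : ℝ ∂μ, 2 * r ≤ ‖z0 - t‖) :
    InnerProductSpace.HarmonicAt (fun z : ℂ => ∫ t : ℝ, Real.log ‖z - t‖ ∂μ) z0 := by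
  have w1 : ∀ z ∈ Metric.ball z0 r, ∀ t : ℝ, 2 * r ≤ ‖z0 - t‖ → ‖(z - z0) / (z0 - t)‖ ≤ 1 / 2 :=
    fun z hz t ht => by
      rw [norm_div, div_le_iff₀ (by linarith)]
      linarith [mem_ball_iff_norm.1 hz]
  have w2 : ∀ z ∈ Metric.ball z0 r, ∀ t : ℝ, 2 * r ≤ ‖z0 - t‖ →
      1 / 2 ≤ ‖1 + (z - z0) / (z0 - t)‖ := fun z hz t ht => by
    have := norm_sub_norm_le (1:ℂ) (-((z - z0) / (z0 - t)))
    rw [norm_one, norm_neg, sub_neg_eq_add] at this
    linarith [w1 z hz t ht]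
  have hm : ∀ z : ℂ, AEStronglyMeasurable (fun t : ℝ => Complex.log (1 + (z - z0) / (z0 - t))) μ :=
    fun z => (Complex.measurable_log.comp (by fun_prop)).aestronglyMeasurable
  have hi : ∀ z ∈ Metric.ball z0 r,
      Integrable (fun t : ℝ => Complex.log (1 + (z - z0) / (z0 - t))) μ := fun z hz =>
    Integrable.of_bound (hm z) 1 (h.mono fun t ht => by
      linarith [Complex.norm_log_one_add_half_le_self (w1 z hz t ht), w1 z hz t ht])
  have hd : DifferentiableOn ℂ (fun z => ∫ t : ℝ, Complex.log (1 + (z - z0) / (z0 - t)) ∂μ)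
      (Metric.ball z0 r) := fun z hz => by
    refine (hasDerivAt_integral_of_dominated_loc_of_deriv_le (Metric.isOpen_ball.mem_nhds hz)
      (F' := fun z (t : ℝ) => (1 / (z0 - t)) / (1 + (z - z0) / (z0 - t))) (bound := fun _ => 1 / r)
      (Eventually.of_forall hm) (hi z hz) (by fun_prop : Measurable _).aestronglyMeasurable
      (h.mono fun t ht y hy => ?_) (integrable_const _)
      (h.mono fun t ht y hy => ?_)).2.differentiableAt.differentiableWithinAt
    · have q := w2 y hy t ht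
      rw [norm_div, norm_div, norm_one, div_div]
      exact one_div_le_one_div_of_le hr (by nlinarith)
    · exact ((((hasDerivAt_id y).sub_const z0).div_const _).const_add 1).clog
        (Complex.mem_slitPlane_of_norm_lt_one ((w1 y hy t ht).trans_lt (by norm_num)))
  have i0 : Integrable (fun t : ℝ => Real.log ‖z0 - t‖) μ := by
    refine Integrable.of_bound (by fun_prop : Measurable _).aestronglyMeasurable
      (|Real.log (2 * r)| + |Real.log (‖z0‖ + 2)|) ?_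
    filter_upwards [h, hμ] with t h1 h2
    have h3 := Real.log_le_log (by linarith) h1
    have h4 := Real.log_le_log (by linarith) ((norm_sub_le z0 t).trans
      (show _ ≤ ‖z0‖ + 2 by simpa using h2))
    rw [Real.norm_eq_abs, abs_le]
    constructor
    · linarith [neg_abs_le (Real.log (2 * r)), abs_nonneg (Real.log (‖z0‖ + 2))]
    · linarith [le_abs_self (Real.log (‖z0‖ + 2)), abs_nonneg (Real.log (2 * r))]
  have := (InnerProductSpace.harmonicAt_const (∫ t : ℝ, Real.log ‖z0 - t‖ ∂μ)).add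
    (hd.analyticAt (Metric.ball_mem_nhds z0 hr)).harmonicAt_re
  refine (InnerProductSpace.harmonicAt_congr_nhds ?_).1 this
  filter_upwards [Metric.ball_mem_nhds z0 hr] with z hz
  have e := Complex.reCLM.integral_comp_comm (hi z hz)
  simp only [Complex.reCLM_apply] at e
  simp only [Pi.add_apply]
  have i1 : Integrable (fun t : ℝ => (Complex.log (1 + (z - z0) / (z0 - t))).re) μ := (hi z hz).re
  rw [← e, ← integral_add i0 i1]
  refine integral_congr_ae (h.mono fun t ht => ?_)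
  have q0 : z0 - t ≠ 0 := norm_pos_iff.1 (by linarith)
  have q1 := w2 z hz t ht
  simp only
  rw [Complex.log_re, ← Real.log_mul (by linarith) (by linarith), ← norm_mul]
  congr 2
  field_simp
  ring

end Pool.Agent.H94.RG
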