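import Pool.Agent.H94.RG5

set_option autoImplicit false

namespace Pool.Agent.H94.RG

open Set Filter Real Polynomial Topology MeasureTheory
open Pool.Agent.Lead.WF

lemma polys (K : Set ℝ) (hK : ∀ x ∈ K, |x| ≤ 2) (κ : ℝ) (hκ : 1 / 2 ≤ κ) (N : ℕ) (hN : 0 < N)
    (Q : ℝ[X]) (h1 : Q.Monic) (h2 : Q.natDegree = N) (h3 : ∀ x ∈ K, |Q.eval x| ≤ κ ^ N) (k : ℕ) :
    ∃ Q : ℝ[X], Q.Monic ∧ Q.natDegree = k ∧ ∀ x ∈ K, |Q.eval x| ≤ 4 ^ N * κ ^ k := by
  refine ⟨X ^ (k % N) * Q ^ (k / N), (monic_X_pow _).mul (h1.pow _), ?_, fun x hx => ?_⟩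
  · rw [(monic_X_pow _).natDegree_mul (h1.pow _), natDegree_X_pow, natDegree_pow, h2, mul_comm]
    exact Nat.mod_add_div k N
  · rw [eval_mul, eval_pow, eval_pow, eval_X, abs_mul, abs_pow, abs_pow]
    have a1 : |x| ^ (k % N) ≤ 4 ^ N * κ ^ (k % N) := by
      refine (pow_le_pow_left₀ (abs_nonneg _) (show |x| ≤ 4 * κ by linarith [hK x hx]) _).trans ?_
      rw [mul_pow]
      exact mul_le_mul_of_nonneg_right (pow_le_pow_right₀ (by norm_num) (Nat.mod_lt _ hN).le)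
        (by positivity)
    have a2 := pow_le_pow_left₀ (abs_nonneg _) (h3 x hx) (k / N)
    refine (mul_le_mul a1 a2 (by positivity) (by positivity)).trans (le_of_eq ?_)
    rw [← pow_mul, mul_assoc, ← pow_add, Nat.mod_add_div]

lemma equil (K : Set ℝ) (hK : ∀ x ∈ K, |x| ≤ 2) (μ : Measure ℝ) [IsProbabilityMeasure μ]
    (hμ : ∀ᵐ t ∂μ, t ∈ K) (h0 : ∀ x, μ {x} = 0)
    (h1 : ∀ x ∈ K, Integrable (fun t => Real.log |x - t|) μ ∧
      ∫ t, Real.log |x - t| ∂μ = -Real.log 2)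
    (h2 : ∀ ε > 0, ∃ N > 0, ∃ Q : ℝ[X], Q.Monic ∧ Q.natDegree = N ∧
      ∀ x ∈ K, |Q.eval x| ≤ (Real.exp ε / 2) ^ N) : IsEquilibrium K μ := by
  have hi : Integrable (fun p : ℝ × ℝ => Real.log |p.1 - p.2|) (μ.prod μ) := by
    rw [integrable_prod_iff measurable_lg.aestronglyMeasurable]
    refine ⟨hμ.mono fun x hx => (h1 x hx).1, ?_⟩
    refine (integrable_const (2 * 3 + Real.log 2)).mono'
      measurable_lg.aestronglyMeasurable.norm.integral_prod_right' ?_
    filter_upwards [hμ] with x hx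
    have : ∫ y, (2 * 3 - Real.log |x - y|) ∂μ = 2 * 3 + Real.log 2 := by
      rw [integral_sub (integrable_const _) (h1 x hx).1, (h1 x hx).2]; simp
    rw [Real.norm_of_nonneg (integral_nonneg fun _ => norm_nonneg _), ← this]
    apply integral_mono_ae (h1 x hx).1.norm ((integrable_const _).sub (h1 x hx).1)
    filter_upwards [hμ] with y hy
    have q : Real.log |x - y| ≤ 3 := by
      have q1 := abs_sub x y
      rcases (abs_nonneg (x - y)).eq_or_lt with e | e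
      · rw [← e]; simp
      · linarith [Real.log_le_sub_one_of_pos e, hK x hx, hK y hy]
    show ‖Real.log |x - y|‖ ≤ 2 * 3 - Real.log |x - y|
    rw [Real.norm_eq_abs, abs_le]; constructor <;> linarith
  refine ⟨⟨inferInstance, hμ, h0, hi⟩, fun ρ ⟨r1, r2, r3, r4⟩ => ?_⟩
  haveI : NullSingletonClass ρ := ⟨r3⟩
  have e : negEnergy μ = -Real.log 2 := by
    rw [negEnergy, integral_prod _ hi, integral_congr_ae (hμ.mono fun x hx => (h1 x hx).2)]
    simp
  rw [e]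
  refine le_of_forall_pos_le_add fun ε hε => ?_
  obtain ⟨N, hN, Q, q1, q2, q3⟩ := h2 ε hε
  have := energy_le K (4 ^ N) _ (one_le_pow₀ (by norm_num)) (by positivity)
    (polys K hK _ (by linarith [Real.one_le_exp hε.le]) N hN Q q1 q2 q3) ρ r2 r4
  rw [Real.log_div (by positivity) (by norm_num), Real.log_exp] at this
  unfold negEnergy
  linarith

noncomputable def cl (u : ℝ) : ℝ := max 0 (min u 1)

lemma cl_mem (u : ℝ) : cl u ∈ Icc (0:ℝ) 1 :=
  ⟨le_max_left _ _, max_le zero_le_one (min_le_right _ _)⟩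

lemma cl_eq {u : ℝ} (hu : u ∈ Icc (0:ℝ) 1) : cl u = u := by
  rw [cl, min_eq_left hu.2, max_eq_right hu.1]

lemma cl_meas {Y : ℝ → ℝ} (h : MonotoneOn Y (Icc 0 1)) : Measurable fun u => Y (cl u) :=
  Monotone.measurable fun _ _ hab => h (cl_mem _) (cl_mem _)
    (max_le_max le_rfl (min_le_min hab le_rfl))

lemma half_mem (i : ℕ) : (1 / 2 : ℝ) ^ i ∈ Icc (0:ℝ) 1 :=
  ⟨by positivity, pow_le_one₀ (by norm_num) (by norm_num)⟩

theorem main : ∃ (K : Set ℝ) (μ : Measure ℝ) (α : ℝ), IsCompact K ∧ IsLeast K α ∧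
    IsEquilibrium K μ ∧
    (∃ b : ℂ → ℝ, InnerProductSpace.HarmonicOnNhd b ((↑) '' K)ᶜ ∧
      (∀ z ∈ Metric.ball (0:ℂ) 4 \ (↑) '' K, b z < 0) ∧
      ∀ x ∈ K, (x:ℂ) ∈ Metric.ball (0:ℂ) 4 ∧ ContinuousAt b x ∧ b x = 0) ∧
    (∀ c ∉ K, ∃ q : ℚ, μ.real (Icc α c) = q) ∧
    (∀ w ∈ K, w ≠ α → ∃ a b, a < b ∧ w ∈ Icc a b ∧ Icc a b ⊆ K) ∧
    (∀ δ > 0, ∃ x ∈ Ioo α (α + δ), x ∉ K) ∧ (∃ x ∈ K, α < x) := by
  obtain ⟨T, Z, Y, g, e, hI, hZ, he, hY, hg, hJ⟩ := limit
  have i0 : (0:ℝ) ∈ Icc (0:ℝ) 1 := left_mem_Icc.2 zero_le_one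
  have i1 : (1:ℝ) ∈ Icc (0:ℝ) 1 := right_mem_Icc.2 zero_le_one
  have sm : ∀ ε > 0, ∀ᶠ k in atTop, e k < ε := fun ε hε => he.eventually (gt_mem_nhds hε)
  have tY : ∀ u ∈ Icc (0:ℝ) 1, Tendsto (fun k => Z k u) atTop (𝓝 (Y u)) := fun u hu =>
    tendsto_iff_dist_tendsto_zero.2 (squeeze_zero (fun _ => dist_nonneg)
      (fun k => by rw [Real.dist_eq, abs_sub_comm]; exact hY k u hu) he)
  have mY : MonotoneOn Y (Icc 0 1) := fun a ha b hb hab =>
    le_of_tendsto_of_tendsto' (tY a ha) (tY b hb) fun k => (hI k).mono.monotoneOn ha hb hab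
  have bY : ∀ u ∈ Icc (0:ℝ) 1, |Y u| ≤ 2 := fun u hu =>
    le_of_tendsto' (tY u hu).abs fun k => hZ k u hu
  set K := closure (Y '' Icc 0 1) with hK
  have sub : ∀ C : Set ℝ, IsClosed C → (∀ u ∈ Icc (0:ℝ) 1, Y u ∈ C) → ∀ x ∈ K, x ∈ C :=
    fun C h1 h2 => closure_minimal (image_subset_iff.2 h2) h1
  have mK : ∀ u ∈ Icc (0:ℝ) 1, Y u ∈ K := fun u hu => subset_closure ⟨u, hu, rfl⟩
  have bK : ∀ x ∈ K, |x| ≤ 2 := fun x hx =>
    abs_le.2 (sub (Icc (-2) 2) isClosed_Icc (fun u hu => abs_le.1 (bY u hu)) x hx)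
  have lK : ∀ x ∈ K, Y 0 ≤ x := sub (Ici (Y 0)) isClosed_Ici fun u hu => mY i0 hu hu.1
  have uK : ∀ x ∈ K, x ≤ Y 1 := sub (Iic (Y 1)) isClosed_Iic fun u hu => mY hu i1 hu.2
  haveI : IsProbabilityMeasure (volume.restrict (Ioc (0:ℝ) 1)) := ⟨by simp⟩
  have mX := cl_meas mY
  set μ := (volume.restrict (Ioc (0:ℝ) 1)).map fun u => Y (cl u) with hμ
  haveI : IsProbabilityMeasure μ := Measure.isProbabilityMeasure_map mX.aemeasurable
  have aK : ∀ᵐ t ∂μ, t ∈ K := (ae_map_iff mX.aemeasurable isClosed_closure.measurableSet).2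
    (Eventually.of_forall fun u => mK _ (cl_mem u))
  have a2 : ∀ᵐ t ∂μ, |t| ≤ 2 := aK.mono bK
  have tg : TendstoUniformlyOn (fun k z => G (aeval z (T k)) / 2 ^ k) g atTop
      (Metric.closedBall 0 5) := Metric.tendstoUniformlyOn_iff.2 fun ε hε =>
    (sm ε hε).mono fun k hk z hz => (hg k z (by simpa using hz)).trans_lt hk
  have cg : ContinuousOn g (Metric.closedBall 0 5) := tg.continuousOn
    (Frequently.of_forall fun k => ((G_cont.comp (by fun_prop)).div_const _).continuousOn)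
  have g0 : ∀ z : ℂ, ‖z‖ ≤ 5 → 0 ≤ g z := fun z hz =>
    ge_of_tendsto' (tg.tendsto_at (by simpa using hz)) fun k =>
      div_nonneg (G_nonneg _) (by positivity)
  have F1 : ∀ z : ℂ, ‖z‖ ≤ 5 → z.im ≠ 0 → ∫ t : ℝ, Real.log ‖z - t‖ ∂μ = g z - Real.log 2 := by
    intro z hz hz0
    rw [hμ, integral_map mX.aemeasurable (by fun_prop : Measurable _).aestronglyMeasurable]
    refine tendsto_nhds_unique (tendsto_integral_of_dominated_convergence
      (F := fun k u => Real.log ‖z - Z k (cl u)‖) (fun _ => _)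
      (fun k => ((show Measurable fun t : ℝ => Real.log ‖z - t‖ by fun_prop).comp
        (cl_meas (hI k).mono.monotoneOn)).aestronglyMeasurable) (integrable_const _)
      (fun k => Eventually.of_forall fun u => log_bdd z hz0 2 _ (hZ k _ (cl_mem u)))
      (Eventually.of_forall fun u => ?_))
      (((tg.tendsto_at (by simpa using hz)).sub_const _).congr fun k => ?_)
    · exact (((Complex.continuous_ofReal.tendsto _).comp (tY _ (cl_mem u))).const_sub z).norm.log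
        (norm_ne_zero_iff.2 fun h => hz0 (by rw [sub_eq_zero.1 h]; simp))
    · have := pot (T k) (2 ^ k) (by positivity) (hI k).deg (hI k).lead (fun u => Z k (cl u))
        (cl_meas (hI k).mono.monotoneOn) 2 (fun u => hZ k _ (cl_mem u))
        (fun a ha b hb h => by simp only [cl_eq ha, cl_eq hb]; exact (hI k).mono ha hb h)
        (fun u hu => by simp only [cl_eq hu]; exact (hI k).ev u hu) z hz0
      rw [intervalIntegral.integral_of_le zero_le_one] at this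
      rw [this]; push_cast; rfl
  have F2 := realpot μ a2 g cg g0 F1
  have gK : ∀ x ∈ K, g x = 0 := by
    have c1 : ContinuousOn (fun x : ℝ => g x) (Icc (-2) 2) :=
      cg.comp Complex.continuous_ofReal.continuousOn fun x hx => by
        simp; linarith [abs_le.2 hx]
    intro x hx
    refine (sub _ (c1.preimage_isClosed_of_isClosed isClosed_Icc (isClosed_singleton (x := 0)))
      (fun u hu => ⟨abs_le.1 (bY u hu), ?_⟩) x hx).2
    have := tg.tendsto_comp (x := (Y u : ℂ)) (cg _ (by simp; linarith [bY u hu]))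
      (g := fun k => (Z k u : ℂ)) (tendsto_nhdsWithin_iff.2
        ⟨(Complex.continuous_ofReal.tendsto _).comp (tY u hu),
          Eventually.of_forall fun k => by simp; linarith [hZ k u hu]⟩)
    refine tendsto_nhds_unique this (tendsto_const_nhds.congr fun k => ?_)
    rw [aeval_real, (hI k).ev u hu, G_real _ (Real.abs_cos_le_one _), zero_div]
  have at0 : ∀ x, μ {x} = 0 := fun x => by
    by_cases hx : |x| ≤ 4
    · exact (F2 x hx).1
    · exact measure_mono_null (t := {t | ¬ |t| ≤ 2}) (by rintro _ rfl h; exact hx (by linarith)) a2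
  have mu : ∀ s, MeasurableSet s → μ s = volume ((fun u => Y (cl u)) ⁻¹' s ∩ Ioc 0 1) :=
    fun s hs => by rw [hμ, Measure.map_apply mX hs, Measure.restrict_apply (mX hs)]
  have sY : StrictMonoOn Y (Icc 0 1) := fun a ha b hb hab => by
    refine lt_of_le_of_ne (mY ha hb hab.le) fun h => ?_
    have q := at0 (Y a)
    rw [mu _ (measurableSet_singleton _)] at q
    have := measure_mono_null (s := Ioc a b) (fun u hu => by
      have hu' : u ∈ Icc (0:ℝ) 1 := ⟨ha.1.trans hu.1.le, hu.2.trans hb.2⟩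
      refine ⟨?_, ha.1.trans_lt hu.1, hu'.2⟩
      simp only [mem_preimage, cl_eq hu', mem_singleton_iff]
      exact le_antisymm (h ▸ mY hu' hb hu.2) (mY ha hu' hu.1.le)) q
    simp at this; linarith
  have wIV : ∀ a ∈ Icc (0:ℝ) 1, ∀ b ∈ Icc (0:ℝ) 1, a ≤ b →
      (∀ i : ℕ, a ≤ (1 / 2) ^ i → b ≤ (1 / 2) ^ i) → ∀ y ∈ Icc (Y a) (Y b), y ∈ K := by
    intro a ha b hb hab h y hy
    refine Metric.mem_closure_iff.2 fun ε hε => ?_
    obtain ⟨k, hk⟩ := (sm _ (half_pos hε)).exists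
    have q0 := (hI k).mono.monotoneOn ha hb hab
    have q1 := abs_le.1 (hY k a ha)
    have q2 := abs_le.1 (hY k b hb)
    obtain ⟨y', y1, y2⟩ : ∃ y' ∈ Icc (Z k a) (Z k b), |y - y'| ≤ e k := by
      by_cases c1 : y < Z k a
      · exact ⟨_, left_mem_Icc.2 q0, abs_le.2 ⟨by linarith [hy.1], by linarith⟩⟩
      · by_cases c2 : Z k b < y
        · exact ⟨_, right_mem_Icc.2 q0, abs_le.2 ⟨by linarith, by linarith [hy.2]⟩⟩
        · exact ⟨y, ⟨not_lt.1 c1, not_lt.1 c2⟩, by rw [sub_self, abs_zero]; linarith⟩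
    obtain ⟨u, u1, rfl⟩ := (hI k).iv a ha b hb (by rintro _ ⟨i, -, -, rfl⟩; exact h i) y' y1
    have hu : u ∈ Icc (0:ℝ) 1 := ⟨ha.1.trans u1.1, u1.2.trans hb.2⟩
    refine ⟨_, ⟨u, hu, rfl⟩, ?_⟩
    have q3 := abs_sub_le y (Z k u) (Y u)
    have q4 := hY k u hu
    rw [abs_sub_comm] at q4
    rw [Real.dist_eq]; linarith
  have c0 : ∀ ε > 0, ∃ i : ℕ, Y ((1 / 2) ^ i) < Y 0 + ε := fun ε hε => by
    obtain ⟨k, hk⟩ := (sm (ε / 3) (by positivity)).exists
    have q0 := (hI k).mono i0 (half_mem k) (by positivity)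
    obtain ⟨u, u1, u2⟩ := (hI k).iv 0 i0 _ (half_mem k) (by
      rintro _ ⟨i, -, hi, rfl⟩ -
      exact pow_le_pow_of_le_one (by norm_num) (by norm_num) hi)
      (min (Z k 0 + ε / 3) (Z k ((1 / 2) ^ k))) ⟨le_min (by linarith) q0.le, min_le_right _ _⟩
    have u0 : 0 < u := lt_of_le_of_ne u1.1 fun h => by
      rw [← h] at u2
      exact absurd u2 (lt_min (by linarith) q0).ne
    obtain ⟨i, hi⟩ := exists_pow_lt_of_lt_one u0 (show (1 / 2 : ℝ) < 1 by norm_num)
    have q1 := (hI k).mono (half_mem i) ⟨u1.1, u1.2.trans (half_mem k).2⟩ hi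
    have q2 := min_le_left (Z k 0 + ε / 3) (Z k ((1 / 2) ^ k))
    exact ⟨i, by linarith [(abs_le.1 (hY k _ (half_mem i))).2, (abs_le.1 (hY k 0 i0)).1]⟩
  have hh : ∀ j : ℕ, (1 / 2 : ℝ) ^ (j + 1) < (1 / 2) ^ j := fun j =>
    pow_lt_pow_right_of_lt_one₀ (by norm_num) (by norm_num) (by omega)
  have piece : ∀ j : ℕ, ∃ a, a < Y ((1 / 2) ^ j) ∧ Icc a (Y ((1 / 2) ^ j)) ⊆ K ∧
      ∀ u ∈ Icc (0:ℝ) 1, (1 / 2) ^ (j + 1) < u → a ≤ Y u := fun j => by
    have s1 : Ioc ((1 / 2 : ℝ) ^ (j + 1)) 1 ⊆ Icc 0 1 := fun u hu =>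
      ⟨(half_mem _).1.trans hu.1.le, hu.2⟩
    have ne : (Y '' Ioc ((1 / 2) ^ (j + 1)) 1).Nonempty :=
      ⟨_, 1, ⟨(hh j).trans_le (half_mem j).2, le_rfl⟩, rfl⟩
    have bd : BddBelow (Y '' Ioc ((1 / 2) ^ (j + 1)) 1) :=
      ⟨Y 0, by rintro _ ⟨u, hu, rfl⟩; exact mY i0 (s1 hu) (s1 hu).1⟩
    obtain ⟨m, m1, m2⟩ := exists_between (hh j)
    have m3 : m ∈ Ioc ((1 / 2 : ℝ) ^ (j + 1)) 1 := ⟨m1, m2.le.trans (half_mem j).2⟩
    refine ⟨_, (csInf_le bd ⟨m, m3, rfl⟩).trans_lt (sY (s1 m3) (half_mem j) m2), fun y hy => ?_,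
      fun u hu h => csInf_le bd ⟨u, ⟨h, hu.2⟩, rfl⟩⟩
    rcases hy.1.eq_or_lt with rfl | h
    · exact closure_mono (image_mono s1) (csInf_mem_closure ne bd)
    · obtain ⟨_, ⟨u, hu, rfl⟩, h1⟩ := exists_lt_of_csInf_lt ne h
      refine wIV u (s1 hu) _ (half_mem j) ((sY.le_iff_le (s1 hu) (half_mem j)).1
        (h1.le.trans hy.2)) (fun i hi => ?_) y ⟨h1.le, hy.2⟩
      refine pow_le_pow_of_le_one (by norm_num) (by norm_num) (not_lt.1 fun h2 => ?_)
      exact absurd (hu.1.trans_le hi)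
        (not_lt.2 (pow_le_pow_of_le_one (by norm_num) (by norm_num) h2))
  have least : ∀ w, Y 0 < w → ∃ i : ℕ, Y ((1 / 2) ^ i) < w ∧ ∀ j < i, w ≤ Y ((1 / 2) ^ j) := by
    intro w hw
    classical
    have hex : ∃ i : ℕ, Y ((1 / 2) ^ i) < w := by simpa using c0 (w - Y 0) (by linarith)
    exact ⟨Nat.find hex, Nat.find_spec hex, fun j hj => not_lt.1 (Nat.find_min hex hj)⟩
  have e1 : ∀ x t : ℝ, ‖(x:ℂ) - t‖ = |x - t| := fun x t => by
    rw [← Complex.ofReal_sub, Complex.norm_real]; rfl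
  have far : ∀ z ∉ ((↑) '' K : Set ℂ), ∃ r > 0, ∀ t ∈ K, 2 * r ≤ ‖z - t‖ := fun z hz => by
    have cK : IsClosed ((↑) '' K : Set ℂ) :=
      Complex.isometry_ofReal.isClosedEmbedding.isClosedMap _ isClosed_closure
    obtain ⟨r, r0, hr⟩ := Metric.isOpen_iff.1 cK.isOpen_compl z hz
    refine ⟨r / 2, by positivity, fun t ht => not_lt.1 fun h => hr ?_ ⟨t, ht, rfl⟩⟩
    rw [mem_ball_iff_norm']; linarith
  have F3 : ∀ z : ℂ, ‖z‖ < 4 → ∫ t : ℝ, Real.log ‖z - t‖ ∂μ = g z - Real.log 2 := fun z hz => by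
    by_cases h : z.im = 0
    · obtain ⟨x, rfl⟩ : ∃ x : ℝ, z = x := ⟨z.re, Complex.ext (by simp) (by simp [h])⟩
      simp only [e1]
      exact (F2 x (by simpa using hz.le)).2.2
    · exact F1 z (by linarith) h
  have F4 : ∀ x : ℝ, |x| ≤ 4 → -Real.log 2 ≤ ∫ t, Real.log |x - t| ∂μ := fun x hx => by
    linarith [(F2 x hx).2.2, g0 x (by simp; linarith)]
  refine ⟨K, μ, Y 0, isCompact_Icc.of_isClosed_subset isClosed_closure
    fun x hx => abs_le.1 (bK x hx), ⟨mK 0 i0, lK⟩, equil K bK μ aK at0 (fun x hx => ?_)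
    fun ε hε => ?_, ⟨fun z => -Real.log 2 - ∫ t : ℝ, Real.log ‖z - t‖ ∂μ, fun z hz => ?_,
    fun z hz => ?_, fun x hx => ?_⟩, fun c hc => ?_, fun w hw hne => ?_, fun δ hδ => ?_,
    _, mK 1 i1, sY i0 i1 one_pos⟩
  · have := F2 x (by linarith [bK x hx])
    exact ⟨this.2.1, by rw [this.2.2, gK x hx, zero_sub]⟩
  · obtain ⟨k, k1, k2⟩ := ((sm _ (half_pos hε)).and ((tendsto_pow_atTop_atTop_of_one_lt
      (show (1:ℝ) < 2 by norm_num)).eventually_ge_atTop (2 / ε))).exists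
    have l1 := (hI k).lead
    have l0 : (T k).leadingCoeff ≠ 0 := by
      intro h; rw [h] at l1; simp at l1; exact absurd l1 (by positivity)
    refine ⟨2 ^ k, by positivity, T k * C (T k).leadingCoeff⁻¹,
      monic_mul_leadingCoeff_inv (leadingCoeff_ne_zero.1 l0),
      by rw [natDegree_mul_C (inv_ne_zero l0), (hI k).deg], fun x hx => ?_⟩
    have q1 := norm_le_exp (aeval (x:ℂ) (T k))
    have q2 := (abs_le.1 (hg k x (by simp; linarith [bK x hx]))).1
    rw [gK x hx, zero_sub, neg_le_neg_iff, div_le_iff₀ (by positivity)] at q2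
    rw [div_le_iff₀ hε] at k2
    have q3 : 2 * Real.exp (G (aeval (x:ℂ) (T k))) ≤ Real.exp ((2 ^ k : ℕ) * ε) := by
      have q4 := Real.add_one_le_exp 1
      refine (mul_le_mul_of_nonneg_right (show 2 ≤ Real.exp 1 by linarith)
        (Real.exp_pos _).le).trans ?_
      rw [← Real.exp_add]
      push_cast
      exact Real.exp_le_exp.2 (by nlinarith [pow_pos (show (0:ℝ) < 2 by norm_num) k])
    conv_lhs at q1 => rw [aeval_real, Complex.norm_real, Real.norm_eq_abs]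
    rw [eval_mul, eval_C, abs_mul, abs_inv, div_pow, ← Real.exp_nat_mul, ← l1, ← div_eq_mul_inv,
      div_le_div_iff₀ (abs_pos.2 l0) (by positivity)]
    nlinarith [abs_pos.2 l0]
  · obtain ⟨r, r0, hr⟩ := far z hz
    exact (InnerProductSpace.harmonicAt_const _).sub (harm μ a2 z r r0 (aK.mono hr))
  · have z4 : ‖z‖ < 4 := by simpa using hz.1
    simp only [sub_neg]
    by_cases h : z.im = 0
    · obtain ⟨x, rfl⟩ : ∃ x : ℝ, z = x := ⟨z.re, Complex.ext (by simp) (by simp [h])⟩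
      obtain ⟨r, r0, hr⟩ := far _ hz.2
      simp only [e1] at hr ⊢
      have x4 : |x| < 4 := by simpa using z4
      obtain ⟨s, s0, s1, s2⟩ : ∃ s > 0, s ≤ r ∧ |x| + s ≤ 4 :=
        ⟨min r (4 - |x|), lt_min r0 (by linarith), min_le_left _ _,
          by linarith [min_le_right r (4 - |x|)]⟩
      have b1 : |x - s| ≤ 4 := (abs_sub x s).trans (by rwa [abs_of_pos s0])
      have b2 : |x + s| ≤ 4 := (abs_add_le x s).trans (by rwa [abs_of_pos s0])
      have j0 := (F2 x x4.le).2.1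
      have j1 := (F2 _ b1).2.1
      have j2 := (F2 _ b2).2.1
      have := int_pos μ _ ((j0.const_mul 2).sub (j1.add j2)) (aK.mono fun t ht => by
        have q := hr t ht
        have q1 : s ^ 2 < (x - t) ^ 2 := by rw [← sq_abs (x - t)]; nlinarith
        have q2 : (x - s - t) * (x + s - t) = (x - t) ^ 2 - s ^ 2 := by ring
        have q3 : (x - s - t) * (x + s - t) ≠ 0 := by rw [q2]; linarith
        simp only [Pi.sub_apply, Pi.add_apply, Real.log_abs, sub_pos]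
        rw [← Real.log_mul (left_ne_zero_of_mul q3) (right_ne_zero_of_mul q3), q2,
          show 2 * Real.log (x - t) = Real.log ((x - t) ^ 2) by rw [Real.log_pow]; norm_num]
        exact Real.log_lt_log (by linarith) (by nlinarith))
      simp only [Pi.sub_apply, Pi.add_apply] at this
      have j3 : Integrable (fun t => Real.log |x - s - t| + Real.log |x + s - t|) μ := j1.add j2
      rw [integral_sub (j0.const_mul 2) j3, integral_const_mul, integral_add j1 j2] at this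
      linarith [F4 _ b1, F4 _ b2]
    · have x4 : |z.re| ≤ 4 := (Complex.abs_re_le_norm z).trans z4.le
      have j0 := (F2 _ x4).2.1
      have j1 := int_nonreal μ a2 z h
      have a1 : ∀ᵐ t ∂μ, t ≠ z.re := by simpa [ae_iff] using at0 z.re
      have := int_pos μ _ (j1.sub j0) (a1.mono fun t ht => by
        simp only [Pi.sub_apply, sub_pos]
        refine Real.log_lt_log (abs_pos.2 (sub_ne_zero.2 ht.symm)) ?_
        simpa using (Complex.abs_re_lt_norm (z := z - t)).2 (by simpa using h))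
      simp only [Pi.sub_apply] at this
      rw [integral_sub j1 j0] at this
      linarith [F4 _ x4]
  · have x4 : ‖(x:ℂ)‖ < 4 := by simp; linarith [bK x hx]
    refine ⟨by simpa using x4, ?_, by simp only; rw [F3 _ x4, gK x hx]; ring⟩
    have q : ContinuousAt g x := cg.continuousAt
      (Metric.closedBall_mem_nhds_of_mem (by simp at x4 ⊢; linarith))
    refine q.neg.congr ?_
    filter_upwards [Metric.isOpen_ball.mem_nhds (show (x:ℂ) ∈ Metric.ball 0 4 by simpa using x4)]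
      with z hz
    rw [F3 z (by simpa using hz), Pi.neg_apply]
    ring
  · by_cases h : c < Y 0
    · exact ⟨0, by simp [Icc_eq_empty_of_lt h]⟩
    have h1 : Y 0 < c := lt_of_le_of_ne (not_lt.1 h) fun e => hc (e ▸ mK 0 i0)
    obtain ⟨i, q1, q2⟩ := least c h1
    have : (fun u => Y (cl u)) ⁻¹' Icc (Y 0) c ∩ Ioc 0 1 = Ioc 0 ((1 / 2) ^ i) := by
      ext u
      constructor
      · rintro ⟨u1, u2⟩
        have hu := Ioc_subset_Icc_self u2
        simp only [mem_preimage, cl_eq hu] at u1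
        refine ⟨u2.1, not_lt.1 fun h2 => ?_⟩
        rcases i with _ | j
        · exact absurd u2.2 (not_le.2 (by simpa using h2))
        · obtain ⟨a, -, a2, a3⟩ := piece j
          exact hc (a2 ⟨(a3 u hu h2).trans u1.2, q2 j (by omega)⟩)
      · intro u1
        have hu : u ∈ Icc (0:ℝ) 1 := ⟨u1.1.le, u1.2.trans (half_mem i).2⟩
        refine ⟨?_, u1.1, hu.2⟩
        simp only [mem_preimage, cl_eq hu]
        exact ⟨mY i0 hu hu.1, (mY hu (half_mem i) u1.2).trans q1.le⟩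
    refine ⟨(1 / 2) ^ i, ?_⟩
    rw [measureReal_def, mu _ measurableSet_Icc, this, Real.volume_Ioc, sub_zero,
      ENNReal.toReal_ofReal (by positivity)]
    push_cast; rfl
  · obtain ⟨i, q1, q2⟩ := least w (lt_of_le_of_ne (lK w hw) hne.symm)
    rcases i with _ | j
    · exact absurd (uK w hw) (not_le.2 (by simpa using q1))
    · obtain ⟨a, a1, a2, a3⟩ := piece j
      refine ⟨a, _, a1, ⟨?_, q2 j (by omega)⟩, a2⟩
      refine (sub (Iic (Y ((1 / 2) ^ (j + 1))) ∪ Ici a) (isClosed_Iic.union isClosed_Ici)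
        (fun u hu => ?_) w hw).resolve_left (not_le.2 q1)
      exact (le_or_gt u _).imp (mY hu (half_mem _)) (a3 u hu)
  · obtain ⟨i, hi⟩ := c0 δ hδ
    obtain ⟨c, d, q1, q2, q3⟩ := hJ i
    refine ⟨c, ⟨(mY i0 (half_mem _) (half_mem _).1).trans_lt q1,
      by linarith [q3 _ (half_mem i) (hh i)]⟩, fun hc => ?_⟩
    rcases sub (Iic (Y ((1 / 2) ^ (i + 1))) ∪ Ici d) (isClosed_Iic.union isClosed_Ici)
      (fun u hu => (le_or_gt u _).imp (mY hu (half_mem _)) (q3 u hu)) c hc with h | h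
    · exact absurd q1 (not_lt.2 h)
    · exact absurd q2 (not_lt.2 h)

end Pool.Agent.H94.RG
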