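import Pool.Agent.H94.RG6

set_option autoImplicit false

namespace Pool.Agent.H94.RG

open Set Filter Polynomial Topology

theorem nonsat (K : Set ℝ) (α : ℝ) (hα : IsLeast K α)
    (h1 : ∀ w ∈ K, w ≠ α → ∃ a b, a < b ∧ w ∈ Icc a b ∧ Icc a b ⊆ K)
    (h2 : ∀ δ > 0, ∃ x ∈ Ioo α (α + δ), x ∉ K) (h3 : ∃ x ∈ K, α < x)
    (f : ℂ[X]) (hf : 2 ≤ f.natDegree)
    (hs : ∀ x ∈ K, ∀ z : ℂ, f.eval z = f.eval (x:ℂ) → ∃ y ∈ K, z = y) : False := by
  classical
  obtain ⟨h, hh⟩ : ∃ h, h = f - C (f.eval (α:ℂ)) := ⟨_, rfl⟩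
  have hd : h.natDegree = f.natDegree := by rw [hh, natDegree_sub_C]
  have h0 : h ≠ 0 := by rintro rfl; simp at hd; omega
  have he : ∀ z, h.eval z = f.eval z - f.eval (α:ℂ) := fun z => by simp [hh]
  have hr : ∀ r ∈ h.roots, ∃ y ∈ K, r = y := fun r hr => hs α hα.1 r (by
    have := (mem_roots h0).1 hr
    rwa [IsRoot, he, sub_eq_zero] at this)
  have hc : h.roots.card = h.natDegree := IsAlgClosed.card_roots_eq_natDegree
  have hp : ∀ z, h.eval z = h.leadingCoeff * (h.roots.map fun r => z - r).prod := fun z => by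
    conv_lhs => rw [← C_leadingCoeff_mul_prod_multiset_X_sub_C hc]
    simp [eval_multiset_prod]
  have ha : h.leadingCoeff ≠ 0 := leadingCoeff_ne_zero.2 h0
  by_cases hA : ∀ r ∈ h.roots, r = α
  · obtain ⟨x, hx, hlt⟩ := h3
    have hζ := Complex.isPrimitiveRoot_exp f.natDegree (by omega)
    generalize Complex.exp _ = ζ at hζ
    have e : ∀ z, h.eval z = h.leadingCoeff * (z - α) ^ f.natDegree := fun z => by
      rw [hp, Multiset.map_congr (g := fun _ => z - α) rfl (fun r hr => by rw [hA r hr]),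
        Multiset.map_const',
        Multiset.prod_replicate, hc, hd]
    obtain ⟨y, hy, e2⟩ := hs x hx (α + (x - α) * ζ) (by
      have q1 := e (α + (x - α) * ζ)
      have q2 := e x
      rw [add_sub_cancel_left, mul_pow, hζ.pow_eq_one, mul_one, ← q2, he, he] at q1
      linear_combination q1)
    have q1 : ((x - α : ℝ) : ℂ) * ζ = ((y - α : ℝ) : ℂ) := by push_cast; linear_combination e2
    have q2 := congrArg norm q1
    rw [norm_mul, hζ.norm'_eq_one (by omega), mul_one, Complex.norm_real, Complex.norm_real,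
      Real.norm_of_nonneg (by linarith), Real.norm_of_nonneg (by linarith [hα.2 hy])] at q2
    rw [← q2] at q1
    exact hζ.ne_one (by omega) ((mul_eq_left₀ (by exact_mod_cast (sub_pos.2 hlt).ne')).1 q1)
  push Not at hA
  obtain ⟨r, r1, r2⟩ := hA
  obtain ⟨w, hw, rfl⟩ := hr r r1
  obtain ⟨a, b, hab, wab, abK⟩ := h1 w hw (by rintro rfl; exact r2 rfl)
  let p : ℝ → ℝ := fun t => (h.eval (t:ℂ) / h.leadingCoeff).re
  have pc : Continuous p := by fun_prop
  have pe : ∀ t : ℝ, h.eval (t:ℂ) = h.leadingCoeff * p t := fun t => by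
    have : h.eval (t:ℂ) / h.leadingCoeff = ((h.roots.map fun r => t - r.re).prod : ℝ) := by
      rw [hp, mul_div_cancel_left₀ _ ha, ← Complex.coe_algebraMap, map_multiset_prod,
        Multiset.map_map]
      congr 1
      refine Multiset.map_congr rfl fun r hr' => ?_
      obtain ⟨y, -, rfl⟩ := hr r hr'
      simp
    simp only [p]
    rw [this, Complex.ofReal_re, ← this, mul_div_cancel₀ _ ha]
  have fin : {t : ℝ | p t = 0}.Finite := by
    refine (Set.Finite.preimage Complex.ofReal_injective.injOn h.roots.toFinset.finite_toSet).subset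
      fun t ht => ?_
    simp only [mem_preimage, Finset.mem_coe, Multiset.mem_toFinset, mem_roots h0, IsRoot]
    rw [pe, show p t = 0 from ht]; simp
  obtain ⟨e, e1, e2⟩ := (Icc_infinite hab).exists_notMem_finite fin
  let q : ℝ → ℝ := fun t => p t * p e
  have qc : Continuous q := by fun_prop
  have qe : 0 < q e := mul_self_pos.2 e2
  have qw : q w = 0 := by
    have := (mem_roots h0).1 r1
    rw [IsRoot, pe, mul_eq_zero, Complex.ofReal_eq_zero] at this
    simp [q, this.resolve_left ha]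
  have qα : q α = 0 := by
    have := pe α
    rw [he, sub_self, eq_comm, mul_eq_zero, Complex.ofReal_eq_zero] at this
    simp [q, this.resolve_left ha]
  have sat : ∀ x y : ℝ, q y = q x ↔ f.eval (y:ℂ) = f.eval (x:ℂ) := fun x y => by
    have e3 : f.eval (y:ℂ) - f.eval (x:ℂ) = h.leadingCoeff * ((p y - p x : ℝ) : ℂ) := by
      push_cast; rw [mul_sub, ← pe, ← pe, he, he]; ring
    rw [← sub_eq_zero (a := f.eval (y:ℂ)), e3, mul_eq_zero, Complex.ofReal_eq_zero, sub_eq_zero,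
      or_iff_right ha]
    exact mul_left_inj' e2
  have iv : ∀ s ∈ Icc 0 (q e), ∃ x ∈ Icc a b, q x = s := fun s hs =>
    isPreconnected_Icc.intermediate_value wab e1 qc.continuousOn (qw ▸ hs)
  obtain ⟨δ, δ0, hδ⟩ : ∃ δ > 0, ∀ t ∈ Ioo α (α + δ), q t ≠ 0 ∧ q t < q e := by
    have c1 : IsClosed ({t : ℝ | p t = 0} \ {α}) := (fin.subset sdiff_subset).isClosed
    have c2 := (c1.isOpen_compl.inter (isOpen_lt qc (continuous_const (y := q e)))).mem_nhds
      (show α ∈ _ from ⟨fun h => h.2 rfl, by rw [mem_setOf_eq, qα]; exact qe⟩)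
    obtain ⟨δ, δ0, hδ⟩ := Metric.mem_nhds_iff.1 c2
    refine ⟨δ, δ0, fun t ht => ?_⟩
    have := hδ (show t ∈ _ by rw [Real.ball_eq_Ioo]; exact ⟨by linarith [ht.1], ht.2⟩)
    exact ⟨mul_ne_zero (fun h => this.1 ⟨h, ht.1.ne'⟩) e2, this.2⟩
  have op := (f.isOpenQuotientMap_eval (by omega)).isOpenMap.image_mem_nhds
    (Metric.ball_mem_nhds (α:ℂ) δ0)
  have ct : ContinuousAt (fun s : ℝ => f.eval (α:ℂ) + h.leadingCoeff * ((s / p e : ℝ) : ℂ)) 0 := by
    fun_prop
  have := (ct.preimage_mem_nhds (by simpa using op))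
  obtain ⟨s, ⟨z, z1, z2⟩, s1⟩ := Filter.nonempty_of_mem
    (inter_mem (mem_nhdsWithin_of_mem_nhds this) (Ioo_mem_nhdsGT qe))
  simp only at z2
  obtain ⟨x, x1, x2⟩ := iv s (Ioo_subset_Icc_self s1)
  have z3 : f.eval z = f.eval (x:ℂ) := by
    have := pe x
    rw [he] at this
    rw [z2, ← x2, mul_div_cancel_right₀ _ e2]
    linear_combination -this
  obtain ⟨y, y1, rfl⟩ := hs x (abK x1) z z3
  have y2 : q y = s := ((sat x y).2 z3).trans x2
  have y3 : y ∈ Ioo α (α + δ) := by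
    rw [Metric.mem_ball, Complex.dist_eq, ← Complex.ofReal_sub, Complex.norm_real,
      Real.norm_eq_abs, abs_lt] at z1
    exact ⟨lt_of_le_of_ne (hα.2 y1) fun h => by rw [← h, qα] at y2; linarith [s1.1], by linarith⟩
  obtain ⟨t, t1, t2⟩ := h2 δ δ0
  have t3 : 0 ≤ q t := not_lt.1 fun hn => by
    obtain ⟨v, v1, v2⟩ := isPreconnected_Ioo.intermediate_value t1 y3 qc.continuousOn
      (show 0 ∈ _ from ⟨hn.le, by linarith [s1.1]⟩)
    exact (hδ v v1).1 v2
  obtain ⟨v, v1, v2⟩ := iv _ ⟨t3, (hδ t t1).2.le⟩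
  obtain ⟨u, u1, u2⟩ := hs v (abK v1) t ((sat v t).1 v2.symm)
  exact t2 (Complex.ofReal_injective u2 ▸ u1)

theorem realroot (T : ℝ[X]) (hT : 1 ≤ T.natDegree) (hr : T.roots.card = T.natDegree)
    (hc : ∀ y, T.derivative.eval y = 0 → 1 ≤ |T.eval y|) (z : ℂ) (s : ℝ) (hs : s ∈ Icc (-1:ℝ) 1)
    (hz : aeval z T = s) : z.im = 0 := by
  set P := T.map (algebraMap ℝ ℂ) with hP
  have ev : ∀ z : ℂ, P.eval z = aeval z T := fun z => eval_map_algebraMap T z
  have hP1 : P.natDegree ≠ 0 := by rw [hP, natDegree_map]; omega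
  let B : Set ℝ := (↑) ⁻¹' (P.eval '' {z : ℂ | z.im ≠ 0})
  have oB : IsOpen B := ((P.isOpenQuotientMap_eval hP1).isOpenMap _
    (isOpen_ne_fun Complex.continuous_im continuous_const)).preimage Complex.continuous_ofReal
  let D : Set ℂ := {z | z.im ≠ 0 ∧ (P.eval z).im = 0}
  have cB : IsClosed (((↑) ⁻¹' (P.eval '' closure D)) : Set ℝ) :=
    (P.isClosedMap_eval _ isClosed_closure).preimage Complex.continuous_ofReal
  have k1 : ∀ s ∈ Ioo (-1:ℝ) 1, s ∈ closure B → s ∈ B := fun s hs h => by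
    have sb : B ⊆ (↑) ⁻¹' (P.eval '' closure D) := by
      rintro t ⟨w, w1, w2⟩
      simp only at w2
      exact ⟨w, subset_closure ⟨w1, by rw [w2]; simp⟩, w2⟩
    obtain ⟨w, w1, w2⟩ := closure_minimal sb cB h
    simp only at w2
    refine ⟨w, fun w0 => ?_, w2⟩
    obtain ⟨x, rfl⟩ : ∃ x : ℝ, w = x := ⟨w.re, Complex.ext (by simp) (by simp [w0])⟩
    rw [ev, aeval_real, Complex.ofReal_inj] at w2
    have d0 : P.derivative.eval (x:ℂ) ≠ 0 := by
      rw [hP, derivative_map, eval_map_algebraMap, aeval_real, Complex.ofReal_ne_zero]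
      intro h0
      have := hc x h0
      rw [w2] at this
      exact absurd (abs_lt.2 hs) (not_lt.2 this)
    obtain ⟨r, r0, hr⟩ := Metric.eventually_nhds_iff_ball.1
      ((P.hasStrictDerivAt (x:ℂ)).eventually_left_inverse d0)
    obtain ⟨v, v1, v2⟩ := Metric.mem_closure_iff.1 w1 r r0
    have a1 := hr v (by rwa [Metric.mem_ball, dist_comm])
    have a2 := hr (starRingEnd ℂ v) (by
      rwa [Metric.mem_ball, ← Complex.conj_ofReal, Complex.dist_conj_conj, dist_comm])
    have a3 : P.eval (starRingEnd ℂ v) = P.eval v := by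
      have := v1.2
      rw [ev] at this
      rw [ev, ev, Polynomial.aeval_conj, Complex.conj_eq_iff_im.2 this]
    rw [a3, a1] at a2
    exact v1.1 (Complex.conj_eq_iff_im.1 a2.symm)
  have k0 : (0:ℝ) ∉ B := by
    rintro ⟨w, w1, w2⟩
    have hT0 : T ≠ 0 := by rintro rfl; simp at hT
    have : w ∈ P.roots := (mem_roots (map_ne_zero hT0)).2 w2
    rw [hP, ← roots_map_of_injective_of_card_eq_natDegree (algebraMap ℝ ℂ).injective hr,
      Multiset.mem_map] at this
    obtain ⟨x, -, rfl⟩ := this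
    exact w1 (by simp)
  have k2 : ∀ s ∈ Ioo (-1:ℝ) 1, s ∉ B := fun s hs h => by
    have := isPreconnected_Ioo.subset_of_closure_inter_subset oB ⟨s, hs, h⟩
      (fun t ht => k1 t ht.2 ht.1)
    exact k0 (this ⟨by norm_num, by norm_num⟩)
  by_contra hn
  have : s ∈ closure (Ioo (-1:ℝ) 1) := by rwa [closure_Ioo (by norm_num)]
  obtain ⟨t, t1, t2⟩ := mem_closure_iff.1 this B oB ⟨z, hn, (ev z).trans hz⟩
  exact k2 t t2 t1

end Pool.Agent.H94.RG
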