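import Mathlib
import Pool.Agent.H94.Pate2

set_option autoImplicit false

namespace Pool.Agent.H94.Rk2

open MvPolynomial Finset Pool.Agent.H94.Pate

abbrev G := GaussianInt

def go (a b : G) : G → List G → List G
  | prev, [] => [a * prev]
  | prev, x :: xs => (a * prev + b * x) :: go a b x xs

theorem go_getD (a b : G) : ∀ (l : List G) (prev : G) (j : ℕ),
    (go a b prev l).getD j 0 = a * (prev :: l).getD j 0 + b * l.getD j 0 := by
  intro l
  induction l with
  | nil =>
    intro prev j
    cases j <;> simp [go]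
  | cons x xs ih =>
    intro prev j
    cases j with
    | zero => simp [go]
    | succ j =>
      simp only [go, List.getD_cons_succ]
      rw [ih x j]

theorem go_length (a b : G) : ∀ (l : List G) (prev : G), (go a b prev l).length = l.length + 1 := by
  intro l
  induction l with
  | nil => intro prev; simp [go]
  | cons x xs ih => intro prev; simp [go, ih]

def pl : List (G × G) → List G
  | [] => [1]
  | p :: L => go p.1 p.2 0 (pl L)

theorem pl_length : ∀ L : List (G × G), (pl L).length = L.length + 1 := by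
  intro L
  induction L with
  | nil => rfl
  | cons p L ih => simp [pl, go_length, ih]

noncomputable def lf (p : G × G) : MvPolynomial (Fin 2) ℂ :=
  C (p.1 : ℂ) * X 0 + C (p.2 : ℂ) * X 1

theorem coeff_pl : ∀ (L : List (G × G)) (α : Fin 2 →₀ ℕ), coeff α (L.map lf).prod
    = if α 0 + α 1 = L.length then (((pl L).getD (α 0) 0 : G) : ℂ) else 0 := by
  intro L
  induction L with
  | nil =>
    intro α
    simp only [List.map_nil, List.prod_nil, List.length_nil, coeff_one, pl]
    by_cases h : α 0 + α 1 = 0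
    · have h0 : α 0 = 0 := by omega
      have h1 : α 1 = 0 := by omega
      have : 0 = α := by
        ext i; fin_cases i
        · simp [h0]
        · simp [h1]
      rw [if_pos this, if_pos h, h0]
      simp
    · rw [if_neg h, if_neg]
      rintro rfl
      simp at h
  | cons p L ih =>
    intro α
    rw [List.map_cons, List.prod_cons, lf, add_mul, mul_assoc, mul_assoc, coeff_add, coeff_C_mul,
      coeff_C_mul, coeff_X_mul', coeff_X_mul', ih, ih]
    simp only [Finsupp.mem_support_iff, Finsupp.coe_tsub, Pi.sub_apply, Finsupp.single_eq_same,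
      List.length_cons, pl, go_getD]
    have e1 : (Finsupp.single (0 : Fin 2) 1 : Fin 2 →₀ ℕ) 1 = 0 := by simp
    have e2 : (Finsupp.single (1 : Fin 2) 1 : Fin 2 →₀ ℕ) 0 = 0 := by simp
    rw [e1, e2]
    simp only [Nat.sub_zero]
    by_cases h : α 0 + α 1 = L.length + 1
    · rw [if_pos h, map_add, map_mul, map_mul]
      congr 1
      · congr 1
        rcases Nat.eq_zero_or_pos (α 0) with h0 | h0
        · rw [if_neg (by omega), h0]; simp
        · rw [if_pos (by omega), if_pos (by omega)]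
          obtain ⟨j, hj⟩ : ∃ j, α 0 = j + 1 := ⟨α 0 - 1, by omega⟩
          rw [hj]; simp
      · congr 1
        rcases Nat.eq_zero_or_pos (α 1) with h0 | h0
        · rw [if_neg (by omega), List.getD_eq_default _ _ (by rw [pl_length]; omega)]; simp
        · rw [if_pos (by omega), if_pos (by omega)]
    · rw [if_neg h]
      have a1 : (if α 0 ≠ 0 then (if α 0 - 1 + α 1 = L.length
          then (((pl L).getD (α 0 - 1) 0 : G) : ℂ) else 0) else 0) = 0 := by
        split_ifs <;> first | rfl | omega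
      have a2 : (if α 1 ≠ 0 then (if α 0 + (α 1 - 1) = L.length
          then (((pl L).getD (α 0) 0 : G) : ℂ) else 0) else 0) = 0 := by
        split_ifs <;> first | rfl | omega
      rw [a1, a2]; simp

def perL (L : List (G × G)) : ℤ :=
  ∑ j ∈ Finset.range (L.length + 1),
    ((j.factorial * (L.length - j).factorial : ℕ) : ℤ) * ((pl L).getD j 0).norm

theorem W_pl (L : List (G × G)) : W (fun _ => 1) (L.map lf).prod = (perL L : ℝ) := by
  classical
  set e : ℕ → (Fin 2 →₀ ℕ) := fun j => Finsupp.single 0 j + Finsupp.single 1 (L.length - j)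
    with he
  have e0 : ∀ j, e j 0 = j := fun j => by simp [he]
  have e1 : ∀ j, e j 1 = L.length - j := fun j => by simp [he]
  rw [W_eq _ _ ((Finset.range (L.length + 1)).image e), Finset.sum_image]
  · unfold perL
    push_cast
    refine Finset.sum_congr rfl fun j hj => ?_
    have hj' : j ≤ L.length := by simpa [Nat.lt_succ_iff] using hj
    rw [coeff_pl, e0, e1, if_pos (by omega), fac, Fin.prod_univ_two, e0, e1, Complex.sq_norm,
      GaussianInt.intCast_real_norm]
    push_cast
    ring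
  · intro a _ b _ h
    have := congrArg (fun f : Fin 2 →₀ ℕ => f 0) h
    simpa [e0] using this
  · intro α hα
    rw [MvPolynomial.mem_support_iff, coeff_pl] at hα
    have h : α 0 + α 1 = L.length := by
      by_contra h
      exact hα (if_neg h)
    refine Finset.mem_image.mpr ⟨α 0, Finset.mem_range.mpr (by omega), ?_⟩
    ext i; fin_cases i
    · exact e0 _
    · show e (α 0) 1 = α 1
      rw [e1]; omega

noncomputable def gram {k : ℕ} (g : Fin k → G × G) : Matrix (Fin k) (Fin k) ℂ :=
  Matrix.of fun r c => (starRingEnd ℂ) ((g r).1 : ℂ) * ((g c).1 : ℂ)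
    + (starRingEnd ℂ) ((g r).2 : ℂ) * ((g c).2 : ℂ)

theorem per_gram {k : ℕ} (g : Fin k → G × G) :
    (gram g).permanent = ((perL (List.ofFn g) : ℝ) : ℂ) := by
  have h := F_prod k (fun r => ![((g r).1 : ℂ), ((g r).2 : ℂ)])
    (fun r => ![((g r).1 : ℂ), ((g r).2 : ℂ)])
  have h2 : ∏ r, lin ![((g r).1 : ℂ), ((g r).2 : ℂ)] = ((List.ofFn g).map lf).prod := by
    rw [List.map_ofFn, List.prod_ofFn]
    refine Finset.prod_congr rfl fun r _ => ?_
    simp [lin, lf, Fin.sum_univ_two]
  rw [h2, F_self, W_pl] at h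
  rw [h]
  congr 1
  ext r c
  simp [gram, Fin.sum_univ_two]

open scoped ComplexOrder in
theorem gram_psd {k : ℕ} (g : Fin k → G × G) : (gram g).PosSemidef := by
  have : gram g = (Matrix.of fun (i : Fin 2) (c : Fin k) => ![((g c).1 : ℂ), ((g c).2 : ℂ)] i).conjTranspose
      * (Matrix.of fun (i : Fin 2) (c : Fin k) => ![((g c).1 : ℂ), ((g c).2 : ℂ)] i) := by
    ext r c
    simp [gram, Matrix.mul_apply, Fin.sum_univ_two]
  rw [this]
  exact Matrix.posSemidef_conjTranspose_mul_self _

def g0 : Fin 12 → G × G :=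
  ![(⟨1, 0⟩, ⟨0, 0⟩), (⟨0, 0⟩, ⟨1, 0⟩), (⟨36, 6⟩, ⟨26, 0⟩), (⟨9, 9⟩, ⟨26, 0⟩), (⟨6, 36⟩, ⟨26, 0⟩),
    (⟨-6, 12⟩, ⟨26, 0⟩), (⟨-33, 17⟩, ⟨26, 0⟩), (⟨-13, -2⟩, ⟨26, 0⟩), (⟨-26, -26⟩, ⟨26, 0⟩),
    (⟨-2, -13⟩, ⟨26, 0⟩), (⟨17, -33⟩, ⟨26, 0⟩), (⟨12, -6⟩, ⟨26, 0⟩)]

theorem g0_ineq : perL (List.ofFn g0) < ∑ k : Fin 11, (g0 k.succ).1.norm *
    perL (List.ofFn fun a : Fin 10 => g0 (k.succAbove a).succ) := by
  decide +kernel

open scoped ComplexOrder in
theorem main : ∃ A : Matrix (Fin 12) (Fin 12) ℂ, A.PosSemidef ∧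
    A.permanent.re < ∑ k : Fin 11, ‖A 0 k.succ‖ ^ 2 *
      (A.submatrix (fun a : Fin 10 => (k.succAbove a).succ)
        (fun a : Fin 10 => (k.succAbove a).succ)).permanent.re := by
  refine ⟨gram g0, gram_psd g0, ?_⟩
  have h1 : ∀ k : Fin 11, (gram g0).submatrix (fun a : Fin 10 => (k.succAbove a).succ)
      (fun a : Fin 10 => (k.succAbove a).succ) = gram (fun a : Fin 10 => g0 (k.succAbove a).succ) :=
    fun k => rfl
  have h2 : ∀ k : Fin 11, ‖gram g0 0 k.succ‖ ^ 2 = (((g0 k.succ).1.norm : ℤ) : ℝ) := by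
    intro k
    have a1 : (g0 0).1 = 1 := rfl
    have a2 : (g0 0).2 = 0 := rfl
    rw [GaussianInt.intCast_real_norm, ← Complex.sq_norm]
    simp only [gram, Matrix.of_apply, a1, a2, map_one, map_zero, one_mul, zero_mul, add_zero]
  simp only [h1, h2, per_gram, Complex.ofReal_re]
  exact_mod_cast g0_ineq

end Pool.Agent.H94.Rk2
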