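import Mathlib

set_option autoImplicit false

namespace Pool.Agent.H94.Robin

open Finset Complex Metric

/-- Zero-freeness on the closed disc is preserved along a homotopy with no zeros on the circle. -/
theorem homotopy {T : Type} [TopologicalSpace T] [PreconnectedSpace T] (F : T → ℂ → ℂ)
    (hc : Continuous (fun p : T × ℂ => F p.1 p.2)) (hd : ∀ t, Differentiable ℂ (F t))
    (hs : ∀ t w, ‖w‖ = 1 → F t w ≠ 0) (t0 : T) (h0 : ∀ z, ‖z‖ ≤ 1 → F t0 z ≠ 0) :
    ∀ t z, ‖z‖ ≤ 1 → F t z ≠ 0 := by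
  let U : Set T := {t | ∀ z ∈ closedBall (0:ℂ) 1, F t z ≠ 0}
  have hUo : IsOpen U := by
    rw [isOpen_iff_mem_nhds]
    intro t ht
    apply (isCompact_closedBall (0:ℂ) 1).eventually_forall_of_forall_eventually
      (P := fun t z => F t z ≠ 0)
    intro y hy
    exact hc.continuousAt.eventually_ne (ht y hy)
  have hUc : IsClosed U := by
    rw [← isOpen_compl_iff, isOpen_iff_mem_nhds]
    intro t ht
    simp only [U, Set.mem_compl_iff, Set.mem_setOf_eq, not_forall, not_not] at ht
    obtain ⟨z0, hz0, hF⟩ := ht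
    have hev : ∀ᶠ s in nhds t, ∀ w ∈ sphere (0:ℂ) 1, ‖F s z0‖ < ‖F s w‖ := by
      apply (isCompact_sphere (0:ℂ) 1).eventually_forall_of_forall_eventually
        (P := fun s w => ‖F s z0‖ < ‖F s w‖)
      intro y hy
      have h1 : Continuous (fun p : T × ℂ => ‖F p.1 z0‖) :=
        (hc.comp (continuous_fst.prodMk continuous_const)).norm
      have h2 : Continuous (fun p : T × ℂ => ‖F p.1 p.2‖) := hc.norm
      apply ContinuousAt.eventually_lt h1.continuousAt h2.continuousAt
      simp only [hF, norm_zero, norm_pos_iff]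
      exact hs t y (by simpa using hy)
    filter_upwards [hev] with s hsw hsU
    have hdd : DiffContOnCl ℂ (fun z => (F s z)⁻¹) (ball (0:ℂ) 1) := by
      apply DifferentiableOn.diffContOnCl
      rw [closure_ball _ one_ne_zero]
      exact ((hd s).differentiableOn).inv (fun z hz => hsU z hz)
    obtain ⟨w, hw, hmax⟩ := Complex.exists_mem_frontier_isMaxOn_norm isBounded_ball
      ⟨0, mem_ball_self one_pos⟩ hdd
    rw [frontier_ball _ one_ne_zero] at hw
    rw [closure_ball _ one_ne_zero] at hmax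
    have h3 := hmax hz0
    simp only [Function.comp, Set.mem_setOf_eq, norm_inv] at h3
    have h4 := hsw w hw
    have h5 : 0 < ‖F s z0‖ := norm_pos_iff.2 (hsU z0 hz0)
    have := inv_strictAnti₀ h5 h4
    linarith
  have hU : U = Set.univ := by
    rcases isClopen_iff.1 ⟨hUc, hUo⟩ with h | h
    · exfalso
      have : t0 ∈ U := fun z hz => h0 z (by simpa using hz)
      rw [h] at this; exact this
    · exact h
  intro t z hz
  have : t ∈ U := by rw [hU]; trivial
  exact this z (by simpa using hz)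

/-- rising factorial -/
noncomputable def R (b : ℝ) (k : ℕ) : ℝ := ∏ i ∈ range k, (b + i)

lemma R_zero (b : ℝ) : R b 0 = 1 := by simp [R]
lemma R_succ (b : ℝ) (k : ℕ) : R b (k+1) = R b k * (b + k) := by simp [R, prod_range_succ]
lemma R_succ' (b : ℝ) (k : ℕ) : R b (k+1) = b * R (b+1) k := by
  simp only [R, prod_range_succ']
  rw [mul_comm]; congr 1
  · simp
  · apply prod_congr rfl; intro i _; push_cast; ring
lemma R_pos {b : ℝ} (hb : 0 < b) (k : ℕ) : 0 < R b k := by
  apply prod_pos; intro i _; positivity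
lemma R_eq (b : ℝ) (k : ℕ) : (ascPochhammer ℝ k).eval b = R b k := by
  induction k with
  | zero => simp [R]
  | succ k ih => rw [ascPochhammer_succ_eval, ih, R_succ]
lemma R_cont (k : ℕ) : Continuous (fun b => R b k) := by
  unfold R; fun_prop

lemma chu (n : ℕ) : ∀ b c : ℝ, 0 < c →
    ∑ k ∈ range (n+1), (n.choose k : ℝ) * ((-1)^k * R b k / R c k) = R (c - b) n / R c n := by
  induction n with
  | zero => intro b c _; simp [R]
  | succ n ih =>
    intro b c hc
    have h := Finset.sum_choose_succ_mul (R := ℝ) (fun i _ => (-1)^i * R b i / R c i) n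
    rw [h, ih b c hc]
    have h2 : ∑ i ∈ range (n+1), (n.choose i : ℝ) * ((-1)^(i+1) * R b (i+1) / R c (i+1))
        = -(b/c) * ∑ i ∈ range (n+1), (n.choose i : ℝ) * ((-1)^i * R (b+1) i / R (c+1) i) := by
      rw [mul_sum]; apply sum_congr rfl; intro i _
      rw [R_succ', R_succ']
      have := R_pos (b := c+1) (by linarith) i
      field_simp; ring
    rw [h2, ih (b+1) (c+1) (by linarith)]
    have e : c + 1 - (b + 1) = c - b := by ring
    rw [e, R_succ (c-b)]
    have h3 := R_succ c n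
    have h4 := R_succ' c n
    have p1 := R_pos hc n
    have p2 := R_pos (b := c+1) (by linarith) n
    have h5 : R (c+1) n = R c n * (c + n) / c := by
      rw [← h3, h4]; field_simp
    rw [h3, h5]
    have : 0 < c + n := by positivity
    field_simp; ring

noncomputable def a (n : ℕ) (β : ℝ) (k : ℕ) : ℝ :=
  (n.descFactorial k : ℝ) / R (β + n) k * (R β k / k.factorial)
noncomputable def b (n : ℕ) (β : ℝ) (k : ℕ) : ℝ :=
  (n.descFactorial (k+1) : ℝ) / R (β + n) (k+1) * (R β k / k.factorial)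

lemma rel1 (n : ℕ) {β : ℝ} (hβ : 0 < β) (k : ℕ) :
    ((k:ℝ)+1) * a n β (k+1) = (k + β) * b n β k := by
  unfold a b
  rw [R_succ β k, Nat.factorial_succ]
  have := R_pos (b := β + n) (by positivity) (k+1)
  have : (0:ℝ) < k.factorial := by exact_mod_cast k.factorial_pos
  push_cast; field_simp; ring

lemma rel2 (n : ℕ) {β : ℝ} (hβ : 0 < β) (k : ℕ) (hk : k ≤ n) :
    (β + n + k) * b n β k = (n - k) * a n β k := by
  unfold a b
  rw [R_succ (β+n) k, Nat.descFactorial_succ]
  have := R_pos (b := β + n) (by positivity) k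
  have : (0:ℝ) < k.factorial := by exact_mod_cast k.factorial_pos
  have : (0:ℝ) < β + n + k := by positivity
  push_cast [Nat.cast_sub hk]; field_simp

lemma a_zero (n : ℕ) (β : ℝ) : a n β 0 = 1 := by simp [a, R]
lemma b_nonneg (n : ℕ) {β : ℝ} (hβ : 0 < β) (k : ℕ) : 0 ≤ b n β k := by
  unfold b
  have := R_pos (b := β + n) (by positivity) (k+1)
  have := R_pos hβ k
  positivity
lemma b_le (n : ℕ) {β : ℝ} (hβ : 1 ≤ β) (k : ℕ) : b n β k ≤ a n β (k+1) := by
  have h := rel1 n (by linarith : 0 < β) k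
  have h2 := b_nonneg n (by linarith : 0 < β) k
  have h3 : (0:ℝ) < k + 1 := by positivity
  apply le_of_mul_le_mul_left _ h3
  rw [h]; apply mul_le_mul_of_nonneg_right _ h2; linarith

noncomputable def A (n : ℕ) (β : ℝ) (z : ℂ) : ℂ := ∑ k ∈ range (n+1), (a n β k : ℂ) * z^k
noncomputable def B1 (n : ℕ) (β : ℝ) (z : ℂ) : ℂ := ∑ k ∈ range n, (b n β k : ℂ) * z^k
noncomputable def B (n : ℕ) (β : ℝ) (z : ℂ) : ℂ := ∑ k ∈ range n, (b n β k : ℂ) * z^(k+1)
noncomputable def DA (n : ℕ) (β : ℝ) (z : ℂ) : ℂ := ∑ k ∈ range (n+1), (k:ℂ) * (a n β k : ℂ) * z^k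
noncomputable def DB (n : ℕ) (β : ℝ) (z : ℂ) : ℂ :=
  ∑ k ∈ range n, ((k+1:ℕ):ℂ) * (b n β k : ℂ) * z^(k+1)

lemma B_eq (n : ℕ) (β : ℝ) (z : ℂ) : B n β z = z * B1 n β z := by
  unfold B B1; rw [mul_sum]; apply sum_congr rfl; intro k _; ring

lemma eqI (n : ℕ) {β : ℝ} (hβ : 0 < β) (z : ℂ) :
    DA n β z = DB n β z + ((β - 1 : ℝ):ℂ) * B n β z := by
  unfold DA DB B
  rw [sum_range_succ', mul_sum, ← sum_add_distrib]
  simp only [Nat.cast_zero, zero_mul, add_zero]
  apply sum_congr rfl; intro k _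
  have h := congrArg (fun x : ℝ => (x:ℂ)) (rel1 n hβ k)
  push_cast at h ⊢
  linear_combination z^(k+1) * h

lemma eqII (n : ℕ) {β : ℝ} (hβ : 0 < β) (z : ℂ) :
    (1 + z) * DA n β z = n * (z * A n β z - B n β z) := by
  have h1 := eqI n hβ z
  have h2 : DB n β z + ((β - 1 : ℝ):ℂ) * B n β z + n * B n β z
      = z * (n * A n β z - DA n β z) := by
    unfold DA DB B A
    rw [mul_sum, mul_sum, mul_sum, ← sum_add_distrib, ← sum_add_distrib, ← sum_sub_distrib,
      mul_sum, sum_range_succ]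
    have : z * ((n:ℂ) * ((a n β n : ℂ) * z^n) - n * (a n β n : ℂ) * z^n) = 0 := by ring
    rw [this, add_zero]
    apply sum_congr rfl; intro k hk
    have h := congrArg (fun x : ℝ => (x:ℂ)) (rel2 n hβ k (mem_range.1 hk).le)
    push_cast at h ⊢
    linear_combination z^(k+1) * h
  linear_combination h1 + h2

lemma hasDeriv_pow (c : ℂ) (k : ℕ) (θ : ℝ) :
    HasDerivAt (fun t : ℝ => c * (cexp (t * I))^k) (I * ((k:ℂ) * c * (cexp (θ * I))^k)) θ := by
  have h0 : HasDerivAt (fun t : ℝ => (t:ℂ) * I) I θ := by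
    simpa using (Complex.ofRealCLM.hasDerivAt (x := θ)).mul_const I
  have h1 : HasDerivAt (fun t : ℝ => c * cexp (k * (t * I))) (c * (cexp (k * (θ * I)) * (k * I))) θ :=
    ((h0.const_mul (k:ℂ)).cexp).const_mul c
  simp only [Complex.exp_nat_mul] at h1
  convert h1 using 1; ring

lemma hasDeriv_A (n : ℕ) (β θ : ℝ) :
    HasDerivAt (fun t : ℝ => A n β (cexp (t * I))) (I * DA n β (cexp (θ * I))) θ := by
  unfold A DA
  rw [mul_sum]
  exact HasDerivAt.fun_sum (fun k _ => hasDeriv_pow _ k θ)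

lemma hasDeriv_B (n : ℕ) (β θ : ℝ) :
    HasDerivAt (fun t : ℝ => B n β (cexp (t * I))) (I * DB n β (cexp (θ * I))) θ := by
  unfold B DB
  rw [mul_sum]
  exact HasDerivAt.fun_sum (fun k _ => hasDeriv_pow _ (k+1) θ)

lemma alg (P Q dP dQ z : ℂ) (g m : ℝ) (hz : z.re^2 + z.im^2 = 1) (h1 : dP = dQ + (g:ℂ) * Q)
    (h2 : (1 + z) * dP = (m:ℂ) * (z * P - Q)) :
    (1 + z.re) * (2 * inner ℝ P (I * dP) - 2 * inner ℝ Q (I * dQ)) = - m * z.im * (‖P‖^2 - ‖Q‖^2) := by
  have h3 : dQ = dP - (g:ℂ) * Q := by linear_combination -h1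
  subst h3
  have r := congrArg Complex.re h2
  have i := congrArg Complex.im h2
  simp only [Complex.inner, Complex.sq_norm, Complex.normSq_apply]
  simp at r i ⊢
  set x := z.re; set y := z.im
  have e1 : (2 + 2*x) * dP.re = m * ((1+x) * P.re - y * P.im - (1+x) * Q.re - y * Q.im) := by
    linear_combination (1+x) * r + y * i + (m * P.re - dP.re) * hz
  have e2 : (2 + 2*x) * dP.im = m * ((1+x) * P.im + y * P.re - (1+x) * Q.im + y * Q.re) := by
    linear_combination (1+x) * i - y * r + (m * P.im - dP.im) * hz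
  linear_combination (P.im - Q.im) * e1 - (P.re - Q.re) * e2

lemma W_pos (n : ℕ) {β : ℝ} (hβ : 1 ≤ β) (θ : ℝ) (hθ : θ ∈ Set.Ioo (-Real.pi) Real.pi) :
    ‖B n β (cexp (θ * I))‖ < ‖A n β (cexp (θ * I))‖ := by
  have hβ0 : 0 < β := by linarith
  let W : ℝ → ℝ := fun t => ‖A n β (cexp (t * I))‖^2 - ‖B n β (cexp (t * I))‖^2
  have hcos : ∀ t ∈ Set.Ioo (-Real.pi) Real.pi, 0 < 1 + Real.cos t := by
    intro t ht
    have h := Real.cos_pos_of_mem_Ioo (x := t/2) ⟨by linarith [ht.1], by linarith [ht.2]⟩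
    have h2 := Real.cos_two_mul (t/2)
    rw [show 2 * (t/2) = t by ring] at h2
    nlinarith
  have hder : ∀ t ∈ Set.Ioo (-Real.pi) Real.pi,
      HasDerivAt (fun t => W t / (1 + Real.cos t)^n) 0 t := by
    intro t ht
    have hW := ((hasDeriv_A n β t).norm_sq).sub ((hasDeriv_B n β t).norm_sq)
    have hc := ((Real.hasDerivAt_cos t).const_add 1).pow n
    have hp := hcos t ht
    have hq := hW.div hc (pow_pos hp n).ne'
    have key := alg (A n β (cexp (t * I))) (B n β (cexp (t * I))) (DA n β (cexp (t * I)))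
      (DB n β (cexp (t * I))) (cexp (t * I)) (β - 1) n
      (by rw [Complex.exp_ofReal_mul_I_re, Complex.exp_ofReal_mul_I_im]; exact Real.cos_sq_add_sin_sq t)
      (eqI n hβ0 _) (by simpa using eqII n hβ0 (cexp (t * I)))
    rw [Complex.exp_ofReal_mul_I_re, Complex.exp_ofReal_mul_I_im] at key
    refine HasDerivAt.congr_deriv hq ?_
    rw [div_eq_zero_iff]; left
    simp only [Pi.pow_apply, Pi.sub_apply]
    rcases n with _ | n
    · simp only [Nat.cast_zero, pow_zero, zero_mul, mul_zero, sub_zero, mul_one, neg_zero] at key ⊢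
      exact (mul_eq_zero.1 key).resolve_left hp.ne'
    · simp only [Nat.add_sub_cancel]
      linear_combination (1 + Real.cos t)^n * key
  have h0 : (0:ℝ) ∈ Set.Ioo (-Real.pi) Real.pi := ⟨by linarith [Real.pi_pos], Real.pi_pos⟩
  have hconst := IsOpen.is_const_of_deriv_eq_zero (f := fun t => W t / (1 + Real.cos t)^n)
    isOpen_Ioo isPreconnected_Ioo
    (fun t ht => (hder t ht).differentiableAt.differentiableWithinAt)
    (fun t ht => (hder t ht).deriv) hθ h0
  have hW0 : 0 < W 0 := by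
    simp only [W, Complex.ofReal_zero, zero_mul, Complex.exp_zero, A, B, one_pow, mul_one]
    rw [← Complex.ofReal_sum, ← Complex.ofReal_sum, Complex.norm_real, Complex.norm_real,
      Real.norm_eq_abs, Real.norm_eq_abs, sq_abs, sq_abs, sum_range_succ', a_zero]
    have s1 : 0 ≤ ∑ k ∈ range n, b n β k := sum_nonneg (fun k _ => b_nonneg n hβ0 k)
    have s2 : ∑ k ∈ range n, b n β k ≤ ∑ k ∈ range n, a n β (k+1) :=
      sum_le_sum (fun k _ => b_le n hβ k)
    nlinarith
  have hWθ : 0 < W θ := by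
    have p1 := pow_pos (hcos θ hθ) n
    have p2 := pow_pos (hcos 0 h0) n
    have : 0 < W θ / (1 + Real.cos θ)^n := by
      have := div_pos hW0 p2
      rw [hconst]; exact this
    exact (div_pos_iff_of_pos_right p1).1 this
  apply lt_of_pow_lt_pow_left₀ 2 (norm_nonneg _)
  simp only [W] at hWθ; linarith

lemma A_neg_one (n : ℕ) (hn : 1 ≤ n) {β : ℝ} (hβ : 0 < β) : A n β (-1) ≠ 0 := by
  have h := chu n β (β + n) (by positivity)
  have e : A n β (-1) = ((∑ k ∈ range (n+1),
      (n.choose k : ℝ) * ((-1)^k * R β k / R (β + n) k) : ℝ) : ℂ) := by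
    unfold A
    rw [Complex.ofReal_sum]; apply sum_congr rfl; intro k _
    have : a n β k * (-1)^k = (n.choose k : ℝ) * ((-1)^k * R β k / R (β + n) k) := by
      unfold a
      rw [Nat.descFactorial_eq_factorial_mul_choose]
      have := R_pos (b := β + n) (by positivity) k
      have : (0:ℝ) < k.factorial := by exact_mod_cast k.factorial_pos
      push_cast; field_simp
    rw [← this]; push_cast; ring
  rw [e, h]
  have p1 : 0 < R (β + n - β) n := R_pos (by simp; omega) n
  have p2 : 0 < R (β + n) n := R_pos (by positivity) n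
  exact_mod_cast (div_pos p1 p2).ne'

lemma B_neg_one (n : ℕ) (hn : 1 ≤ n) {β : ℝ} (hβ : 0 < β) : B n β (-1) = - A n β (-1) := by
  have h := eqII n hβ (-1)
  have hn' : (n:ℂ) ≠ 0 := by exact_mod_cast (by omega : n ≠ 0)
  apply mul_left_cancel₀ hn'
  linear_combination h

lemma circle_cases (n : ℕ) {β : ℝ} (hβ : 1 ≤ β) (w : ℂ) (hw : ‖w‖ = 1) :
    w = -1 ∨ ‖B n β w‖ < ‖A n β w‖ := by
  have h1 : w = cexp (w.arg * I) := by
    have := Complex.norm_mul_exp_arg_mul_I w
    rw [hw] at this; simpa using this.symm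
  rcases (Complex.arg_le_pi w).eq_or_lt with h | h
  · left; rw [h1, h, Complex.exp_pi_mul_I]
  · right; rw [h1]; exact W_pos n hβ _ ⟨Complex.neg_pi_lt_arg w, h⟩

lemma A_cont (n : ℕ) {T : Type} [TopologicalSpace T] (β : T → ℝ) (z : T → ℂ) (hβ : Continuous β)
    (hz : Continuous z) (h0 : ∀ t, 0 < β t) : Continuous (fun t => A n (β t) (z t)) := by
  unfold A
  apply continuous_finsetSum; intro k _
  apply Continuous.mul _ (hz.pow k)
  apply Complex.continuous_ofReal.comp
  unfold a
  apply Continuous.mul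
  · exact continuous_const.div ((R_cont k).comp (hβ.add continuous_const))
      (fun t => (R_pos (by have := h0 t; positivity) k).ne')
  · exact ((R_cont k).comp hβ).div_const _

lemma B_cont (n : ℕ) {T : Type} [TopologicalSpace T] (β : T → ℝ) (z : T → ℂ) (hβ : Continuous β)
    (hz : Continuous z) (h0 : ∀ t, 0 < β t) : Continuous (fun t => B n (β t) (z t)) := by
  unfold B
  apply continuous_finsetSum; intro k _
  apply Continuous.mul _ (hz.pow (k+1))
  apply Complex.continuous_ofReal.comp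
  unfold b
  apply Continuous.mul
  · exact continuous_const.div ((R_cont (k+1)).comp (hβ.add continuous_const))
      (fun t => (R_pos (by have := h0 t; positivity) (k+1)).ne')
  · exact ((R_cont k).comp hβ).div_const _

lemma A_diff (n : ℕ) (β : ℝ) : Differentiable ℂ (A n β) := by unfold A; fun_prop
lemma B_diff (n : ℕ) (β : ℝ) : Differentiable ℂ (B n β) := by unfold B; fun_prop
lemma B1_diff (n : ℕ) (β : ℝ) : Differentiable ℂ (B1 n β) := by unfold B1; fun_prop

lemma A_ne (n : ℕ) (hn : 1 ≤ n) {β : ℝ} (hβ : 1 ≤ β) (z : ℂ) (hz : ‖z‖ ≤ 1) : A n β z ≠ 0 := by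
  have hb : ∀ t : unitInterval, 1 ≤ 1 + (t:ℝ) * (β - 1) := fun t => by
    have := t.2.1; nlinarith
  have h := homotopy (T := unitInterval)
    (fun t z => A n (1 + (t:ℝ) * (β - 1)) z - ((1 - (t:ℝ) : ℝ) : ℂ) * B n (1 + (t:ℝ) * (β - 1)) z)
    ?_ ?_ ?_ 0 ?_ 1 z hz
  · simpa using h
  · apply Continuous.sub
    · exact A_cont n _ _ (by fun_prop) (by fun_prop) (fun t => by have := hb t.1; linarith)
    · apply Continuous.mul (by fun_prop)
      exact B_cont n _ _ (by fun_prop) (by fun_prop) (fun t => by have := hb t.1; linarith)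
  · intro t; exact (A_diff _ _).sub ((B_diff _ _).const_mul _)
  · intro t w hw h
    have t0 := t.2.1; have t1 := t.2.2
    rcases circle_cases n (hb t) w hw with rfl | hlt
    · rw [B_neg_one n hn (by have := hb t; linarith)] at h
      have h2 : ((2 - (t:ℝ) : ℝ) : ℂ) * A n (1 + (t:ℝ) * (β - 1)) (-1) = 0 := by
        push_cast at h ⊢; linear_combination h
      rcases mul_eq_zero.1 h2 with h3 | h3
      · have : (2 - (t:ℝ)) = 0 := by exact_mod_cast h3
        linarith
      · exact A_neg_one n hn (by have := hb t; linarith) h3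
    · rw [sub_eq_zero] at h
      rw [h, norm_mul, Complex.norm_real, Real.norm_eq_abs, abs_of_nonneg (by linarith)] at hlt
      nlinarith [norm_nonneg (B n (1 + (t:ℝ) * (β - 1)) w)]
  · intro z _
    have : A n 1 z - B n 1 z = 1 := by
      unfold A B
      rw [sum_range_succ', a_zero]
      have : ∑ k ∈ range n, (a n 1 (k+1) : ℂ) * z^(k+1) = ∑ k ∈ range n, (b n 1 k : ℂ) * z^(k+1) := by
        apply sum_congr rfl; intro k _
        have h := rel1 n one_pos k
        have : a n 1 (k+1) = b n 1 k := mul_left_cancel₀ (by positivity) h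
        rw [this]
      rw [this]; simp
    simp [this]

theorem main (n : ℕ) (hn : 1 ≤ n) {β : ℝ} (hβ : 1 ≤ β) (x : ℂ) (hx : ‖x‖ = 1) (z : ℂ)
    (hz : ‖z‖ < 1) : A n β z + x * B n β z ≠ 0 := by
  have hdd : DiffContOnCl ℂ (fun z => B1 n β z / A n β z) (ball (0:ℂ) 1) := by
    apply DifferentiableOn.diffContOnCl
    rw [closure_ball _ one_ne_zero]
    exact (B1_diff n β).differentiableOn.div (A_diff n β).differentiableOn
      (fun z hz => A_ne n hn hβ z (by simpa using hz))
  have h1 := Complex.norm_le_of_forall_mem_frontier_norm_le isBounded_ball hdd (C := 1) (z := z)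
    ?_ (subset_closure (by simpa using hz))
  · have hA := norm_pos_iff.2 (A_ne n hn hβ z hz.le)
    rw [norm_div, div_le_one hA] at h1
    intro h
    have h2 : A n β z = - (x * B n β z) := by linear_combination h
    have h3 := congrArg norm h2
    rw [norm_neg, norm_mul, hx, one_mul, B_eq, norm_mul] at h3
    nlinarith [norm_nonneg z, norm_nonneg (B1 n β z)]
  · intro w hw
    rw [frontier_ball _ one_ne_zero] at hw
    have hw1 : ‖w‖ = 1 := by simpa using hw
    have hA := norm_pos_iff.2 (A_ne n hn hβ w hw1.le)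
    rw [norm_div, div_le_one hA]
    have e : ‖B1 n β w‖ = ‖B n β w‖ := by rw [B_eq, norm_mul, hw1, one_mul]
    rw [e]
    rcases circle_cases n hβ w hw1 with rfl | hlt
    · rw [B_neg_one n hn (by linarith), norm_neg]
    · exact hlt.le

end Pool.Agent.H94.Robin
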