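import Mathlib

set_option autoImplicit false

namespace Pool.Agent.H94.SL

open Set Filter Topology Complex Metric

lemma cau {h : ℂ → ℂ} {w : ℂ} {r M : ℝ} (hr : 0 < r) (hd : DifferentiableOn ℂ h (ball w (2 * r)))
    (hb : ∀ x ∈ ball w (2 * r), ‖h x‖ ≤ M) : ∀ x ∈ ball w r, ‖deriv h x‖ ≤ M / r := fun x hx => by
  have hsub : closedBall x r ⊆ ball w (2 * r) := fun y hy => by
    rw [mem_closedBall] at hy; rw [mem_ball] at hx ⊢
    linarith [dist_triangle y x w]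
  refine norm_deriv_le_of_forall_mem_sphere_norm_le hr ?_ fun z hz =>
    hb z (hsub (sphere_subset_closedBall hz))
  refine DifferentiableOn.diffContOnCl ?_
  rw [closure_ball x hr.ne']
  exact hd.mono hsub

lemma mvt {h : ℂ → ℂ} {w : ℂ} {r C : ℝ} (hd : DifferentiableOn ℂ h (ball w r))
    (hb : ∀ x ∈ ball w r, ‖deriv h x‖ ≤ C) :
    ∀ x ∈ ball w r, ∀ y ∈ ball w r, ‖h y - h x‖ ≤ C * ‖y - x‖ := fun x hx y hy =>
  (convex_ball w r).norm_image_sub_le_of_norm_deriv_le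
    (fun z hz => hd.differentiableAt (isOpen_ball.mem_nhds hz)) hb hx hy

lemma lip {h : ℂ → ℂ} {w : ℂ} {r M : ℝ} (hr : 0 < r) (hd : DifferentiableOn ℂ h (ball w (2 * r)))
    (hb : ∀ x ∈ ball w (2 * r), ‖h x‖ ≤ M) :
    ∀ x ∈ ball w r, ∀ y ∈ ball w r, ‖h y - h x‖ ≤ M / r * ‖y - x‖ :=
  mvt (hd.mono (ball_subset_ball (by linarith))) (cau hr hd hb)

lemma ulim {ι : Type} (U : Ultrafilter ι) (u : ι → ℂ) (M : ℝ) (h : ∀ᶠ i in U, ‖u i‖ ≤ M) :
    ∃ c, Tendsto u U (𝓝 c) := by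
  obtain ⟨c, -, hc⟩ := (isCompact_closedBall (0 : ℂ) M).ultrafilter_le_nhds (U.map u)
    (le_principal_iff.2 (h.mono fun i hi => mem_closedBall_zero_iff.2 hi))
  exact ⟨c, hc⟩

lemma montel {ι : Type} (U : Ultrafilter ι) (h : ι → ℂ → ℂ) {w : ℂ} {r M : ℝ} (hr : 0 < r)
    (hd : ∀ᶠ i in U, DifferentiableOn ℂ (h i) (ball w (2 * r)) ∧ ∀ x ∈ ball w (2 * r), ‖h i x‖ ≤ M) :
    ∃ H : ℂ → ℂ, DifferentiableOn ℂ H (ball w r) ∧ ∀ x ∈ ball w r,
      Tendsto (h · x) U (𝓝 (H x)) ∧ Tendsto (fun i => deriv (h i) x) U (𝓝 (deriv H x)) := by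
  have hs : ball w r ⊆ ball w (2 * r) := ball_subset_ball (by linarith)
  have h1 : ∀ x, ∃ c, x ∈ ball w r → Tendsto (h · x) U (𝓝 c) := fun x => by
    by_cases hx : x ∈ ball w r
    · obtain ⟨c, hc⟩ := ulim U (h · x) M (hd.mono fun i hi => hi.2 x (hs hx))
      exact ⟨c, fun _ => hc⟩
    · exact ⟨0, fun h => absurd h hx⟩
  choose H hH using h1
  have h2 := hd.mono fun i hi => lip hr hi.1 hi.2
  have h3 : TendstoLocallyUniformlyOn h H U (ball w r) := by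
    refine Metric.tendstoLocallyUniformlyOn_iff.2 fun ε hε x hx => ?_
    set L := |M / r| + 1
    have hL : 0 < L := by positivity
    refine ⟨ball w r ∩ ball x (ε / (3 * L)), inter_mem_nhdsWithin _ (ball_mem_nhds _ (by positivity)),
      ?_⟩
    filter_upwards [h2, Metric.tendsto_nhds.1 (hH x hx) (ε / 3) (by positivity)] with i hi h4 y hy
    have h5 : ‖H y - H x‖ ≤ M / r * ‖y - x‖ :=
      le_of_tendsto ((hH y hy.1).sub (hH x hx)).norm (h2.mono fun j hj => hj x hx y hy.1)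
    have h6 := hi x hx y hy.1
    have h7 : M / r * ‖y - x‖ ≤ ε / 3 := by
      have := hy.2
      rw [mem_ball, dist_eq_norm, lt_div_iff₀ (by positivity)] at this
      nlinarith [le_abs_self (M / r), norm_nonneg (y - x)]
    rw [dist_eq_norm] at h4 ⊢
    calc ‖H y - h i y‖ = ‖(H y - H x) - (h i x - H x) - (h i y - h i x)‖ := by ring_nf
      _ ≤ ‖H y - H x‖ + ‖h i x - H x‖ + ‖h i y - h i x‖ :=
        (norm_sub_le _ _).trans (by gcongr; exact norm_sub_le _ _)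
      _ < ε := by linarith
  have h4 := hd.mono fun i hi => hi.1.mono hs
  exact ⟨H, h3.differentiableOn h4 isOpen_ball, fun x hx =>
    ⟨hH x hx, (h3.deriv h4 isOpen_ball).tendsto_at hx⟩⟩

lemma prod_ge (n : ℕ) : ∀ i : ℕ, i ≤ n →
    (n.factorial : ℝ) ≤ 2 ^ n * ∏ k ∈ Finset.range (n + 1), max 1 |(k : ℝ) - i| := by
  induction n with
  | zero => intro i hi; simp
  | succ n ih =>
    intro i hi
    have hp : ∀ j : ℕ, 0 ≤ ∏ k ∈ Finset.range (n + 1), max 1 |(k : ℝ) - j| := fun j =>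
      Finset.prod_nonneg fun k _ => zero_le_one.trans (le_max_left _ _)
    rw [Nat.factorial_succ, pow_succ]
    by_cases h : 2 * i ≤ n + 1
    · rw [Finset.prod_range_succ]
      have h1 := ih i (by omega)
      have h2 : ((n : ℝ) + 1) / 2 ≤ max 1 |((n + 1 : ℕ) : ℝ) - i| := by
        refine le_trans ?_ ((le_abs_self _).trans (le_max_right _ _))
        have : (2 * i : ℝ) ≤ n + 1 := by exact_mod_cast h
        push_cast; linarith
      push_cast at h2 ⊢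
      nlinarith [mul_le_mul h1 h2 (by positivity) (mul_nonneg (by positivity) (hp i))]
    · obtain ⟨j, rfl⟩ : ∃ j, i = j + 1 := ⟨i - 1, by omega⟩
      rw [Finset.prod_range_succ']
      have h1 := ih j (by omega)
      have h2 : ((n : ℝ) + 1) / 2 ≤ max 1 |((0 : ℕ) : ℝ) - (j + 1 : ℕ)| := by
        refine le_trans ?_ ((neg_le_abs _).trans (le_max_right _ _))
        have : (n + 1 : ℝ) < 2 * (j + 1) := by exact_mod_cast not_le.1 h
        push_cast; linarith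
      push_cast at h2 ⊢
      simp only [add_sub_add_right_eq_sub]
      nlinarith [mul_le_mul h1 h2 (by positivity) (mul_nonneg (by positivity) (hp j))]

lemma prod_lb (α : ℕ → ℂ) (hα : ∀ k l : ℕ, 2 * |(k : ℝ) - l| ≤ ‖α k - α l‖) {r0 : ℝ} (h0 : 0 < r0)
    (h1 : r0 ≤ 1) (z : ℂ) (hz : ∀ k, r0 ≤ ‖z - α k‖) (m : ℕ) (hm : 1 ≤ m) :
    (r0 * m ^ 2 / 36) ^ m ≤ ‖∏ j ∈ Finset.range (2 * m), (z - α (m + j))‖ := by
  obtain ⟨n, hn⟩ : ∃ n, 2 * m = n + 1 := ⟨2 * m - 1, by omega⟩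
  obtain ⟨i, hi, hmin⟩ := (Finset.range (n + 1)).exists_min_image (fun j => ‖z - α (m + j)‖)
    ⟨0, by simp⟩
  have h2 := prod_ge n i (by simpa [Nat.lt_succ_iff] using hi)
  have h3 : r0 * ∏ k ∈ Finset.range (n + 1), max 1 |(k : ℝ) - i| ≤
      ‖∏ j ∈ Finset.range (n + 1), (z - α (m + j))‖ := by
    rw [norm_prod, ← Finset.mul_prod_erase _ _ hi, ← Finset.mul_prod_erase _ _ hi, sub_self, abs_zero,
      max_eq_left zero_le_one, one_mul]
    refine mul_le_mul (hz _) (Finset.prod_le_prod (fun k _ => by positivity) fun k hk => ?_)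
      (Finset.prod_nonneg fun k _ => by positivity) (norm_nonneg _)
    have h4 := hα (m + k) (m + i)
    have h5 := hmin k (Finset.mem_of_mem_erase hk)
    have h6 := norm_sub_le (z - α (m + i)) (z - α (m + k))
    rw [show z - α (m + i) - (z - α (m + k)) = α (m + k) - α (m + i) by ring] at h6
    push_cast at h4
    rw [add_sub_add_left_eq_sub] at h4
    have h7 : (1 : ℝ) ≤ |(k : ℝ) - i| := by
      have : (k : ℤ) - i ≠ 0 := sub_ne_zero.2 (by exact_mod_cast Finset.ne_of_mem_erase hk)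
      exact_mod_cast Int.one_le_abs this
    rw [max_eq_right h7]; linarith
  rw [hn]
  refine le_trans ?_ h3
  have h4 := Real.pow_div_factorial_le_exp ((2 * m : ℕ) : ℝ) (by positivity) (2 * m)
  have h5 : Real.exp ((2 * m : ℕ) : ℝ) ≤ 3 ^ (2 * m) := by
    rw [← Real.exp_one_pow]
    exact pow_le_pow_left₀ (by positivity) (by linarith [Real.exp_one_lt_d9]) _
  have h6 : ((2 * m : ℕ) : ℝ) ≤ 4 ^ m := by
    have := Nat.lt_two_pow_self (n := 2 * m)
    rw [pow_mul] at this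
    exact_mod_cast this.le
  have h7 : (((2 * m).factorial : ℕ) : ℝ) = (2 * m : ℕ) * n.factorial := by
    rw [hn, Nat.factorial_succ]; push_cast; ring
  rw [div_le_iff₀ (by positivity), h7] at h4
  set Q := ∏ k ∈ Finset.range (n + 1), max 1 |(k : ℝ) - i|
  have hQ : 0 ≤ Q := Finset.prod_nonneg fun k _ => by positivity
  have h8 : ((2 * m : ℕ) : ℝ) ^ (2 * m) ≤ 3 ^ (2 * m) * (4 ^ m * (2 ^ (2 * m) * Q)) := by
    refine h4.trans ?_
    gcongr
    refine h2.trans ?_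
    gcongr
    · norm_num
    · omega
  have h9 : ((m : ℝ) ^ 2 / 36) ^ m ≤ Q := by
    rw [div_pow, div_le_iff₀ (by positivity)]
    push_cast at h8
    rw [mul_pow, pow_mul, pow_mul, pow_mul] at h8
    have e : (36 : ℝ) ^ m = (3 ^ 2) ^ m * 4 ^ m := by rw [← mul_pow]; norm_num
    have h10 : (0 : ℝ) < (2 ^ 2) ^ m := by positivity
    rw [e]
    nlinarith
  rw [mul_div_assoc, mul_pow]
  exact mul_le_mul (pow_le_of_le_one h0.le h1 (by omega)) h9 (by positivity) h0.le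

lemma barrier_step {W : Set ℂ} (hW : IsOpen W) {Θ : ℂ → ℂ} {ρ r0 : ℝ} (α : ℕ → ℂ)
    (hA : ∀ z ∈ closure W, ρ < ‖z‖ → DifferentiableAt ℂ Θ z)
    (h0 : ∀ ε > 0, ∃ ρ', ∀ z ∈ closure W, z ∉ W → ρ' < ‖z‖ → ‖Θ z‖ ≤ ε)
    (hα : ∀ k l : ℕ, 2 * |(k : ℝ) - l| ≤ ‖α k - α l‖) (hα2 : ∀ k : ℕ, ‖α k - α 0‖ ≤ 8 * k)
    (hr : 0 < r0) (hr1 : r0 ≤ 1) (hα3 : ∀ z ∈ closure W, ∀ k, r0 ≤ ‖z - α k‖) {M : ℝ} (hM : 0 < M)
    (hb : ∃ ρ', ∀ z ∈ closure W, ρ' < ‖z‖ → ‖Θ z‖ ≤ M) :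
    ∃ ρ', ∀ z ∈ closure W, ρ' < ‖z‖ → ‖Θ z‖ ≤ M / 2 := by
  obtain ⟨ρ1, h1⟩ := hb
  obtain ⟨ρ2, h2⟩ := h0 (M * r0 / (9 * 10816 ^ 2)) (by positivity)
  refine ⟨10816 * (|ρ| + |ρ1| + |ρ2| + ‖α 0‖ + 2), fun z0 hz0 hz => ?_⟩
  obtain ⟨m, hm1, hm2⟩ : ∃ m : ℕ, ‖z0‖ ≤ m ∧ (m : ℝ) < ‖z0‖ + 1 :=
    ⟨_, Nat.le_ceil _, Nat.ceil_lt_add_one (norm_nonneg _)⟩
  have a1 := abs_nonneg ρ
  have a2 := abs_nonneg ρ1
  have a3 := abs_nonneg ρ2
  have a4 := norm_nonneg (α 0)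
  have b1 := le_abs_self ρ
  have b2 := le_abs_self ρ1
  have b3 := le_abs_self ρ2
  have hm0 : (2 : ℝ) ≤ m := by linarith
  have hm : 1 ≤ m := by exact_mod_cast (by linarith : (1 : ℝ) ≤ m)
  have hlo : ∀ j, (m : ℝ) ≤ ‖α (m + j)‖ := fun j => by
    have := hα (m + j) 0
    have h3 := norm_sub_le (α (m + j)) (α 0)
    have h4 := le_abs_self (((m + j : ℕ) : ℝ) - (0 : ℕ))
    have h5 : (0 : ℝ) ≤ j := by positivity
    push_cast at this h4; linarith
  have hhi : ∀ j ∈ Finset.range (2 * m), ‖α (m + j)‖ ≤ 25 * m := fun j hj => by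
    have := hα2 (m + j)
    have h3 := norm_sub_norm_le (α (m + j)) (α 0)
    have h5 : (j : ℝ) < 2 * m := by exact_mod_cast Finset.mem_range.1 hj
    push_cast at this; linarith
  set P := fun z => ∏ j ∈ Finset.range (2 * m), (z - α (m + j)) with hP
  have hP0 : ∀ z ∈ closure W, (r0 * m ^ 2 / 36) ^ m ≤ ‖P z‖ := fun z hz =>
    prod_lb α hα hr hr1 z (hα3 z hz) m hm
  have hPne : ∀ z ∈ closure W, P z ≠ 0 := fun z hz =>
    norm_pos_iff.1 (lt_of_lt_of_le (by positivity) (hP0 z hz))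
  set U := W ∩ {z | m / 10816 < ‖z‖ ∧ ‖z‖ < 10816 * m} with hU
  have hUo : IsOpen {z : ℂ | m / 10816 < ‖z‖ ∧ ‖z‖ < 10816 * m} :=
    (isOpen_lt continuous_const continuous_norm).inter (isOpen_lt continuous_norm continuous_const)
  have hcl : ∀ z ∈ closure U, z ∈ closure W ∧ m / 10816 ≤ ‖z‖ ∧ ‖z‖ ≤ 10816 * m := fun z hz =>
    ⟨closure_mono inter_subset_left hz, closure_minimal (s := U)
      (t := {z : ℂ | m / 10816 ≤ ‖z‖ ∧ ‖z‖ ≤ 10816 * m}) (fun x hx => ⟨hx.2.1.le, hx.2.2.le⟩)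
      ((isClosed_le continuous_const continuous_norm).inter
        (isClosed_le continuous_norm continuous_const)) hz⟩
  have key := norm_le_of_forall_mem_frontier_norm_le (U := U)
    (f := fun z => (Θ z * (m * z)) ^ m / P z) (C := (4 * M / 10816) ^ m)
    ((isBounded_ball (x := (0 : ℂ)) (r := 10816 * m)).subset fun z hz => by simpa using hz.2.2)
    (DifferentiableOn.diffContOnCl fun z hz => ?_) (fun z hz => ?_) (z := z0) ?_
  · rw [norm_div, div_le_iff₀ (norm_pos_iff.2 (hPne z0 hz0)), norm_pow] at key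
    have h3 : ‖P z0‖ ≤ ((26 * m) ^ 2) ^ m := by
      rw [← pow_mul, hP, norm_prod]
      refine (Finset.prod_le_prod (g := fun _ => 26 * (m : ℝ)) (fun _ _ => norm_nonneg _)
        fun j hj => ?_).trans (by simp)
      linarith [norm_sub_le z0 (α (m + j)), hhi j hj]
    have h4 := key.trans (mul_le_mul_of_nonneg_left h3 (by positivity))
    rw [← mul_pow, pow_le_pow_iff_left₀ (by positivity) (by positivity) (by omega), norm_mul, norm_mul,
      Complex.norm_natCast] at h4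
    have h5 : ‖Θ z0‖ * (m * (m / 2)) ≤ ‖Θ z0‖ * (m * ‖z0‖) := by gcongr; linarith
    have h6 : (0 : ℝ) < m ^ 2 := by positivity
    nlinarith
  · obtain ⟨h3, h4, -⟩ := hcl z hz
    have := hA z h3 (by linarith)
    refine (DifferentiableAt.div (by fun_prop) ?_ (hPne z h3)).differentiableWithinAt
    exact DifferentiableAt.fun_finsetProd fun j _ => by fun_prop
  · rw [(hW.inter hUo).frontier_eq] at hz
    obtain ⟨h3, h4, h5⟩ := hcl z hz.1
    rw [norm_div, div_le_iff₀ (norm_pos_iff.2 (hPne z h3)), norm_pow, norm_mul, norm_mul,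
      Complex.norm_natCast]
    have hb := h1 z h3 (by linarith)
    have fin : ∀ t : ℝ, 0 ≤ t → t ^ m ≤ ‖P z‖ → ‖Θ z‖ * (m * ‖z‖) ≤ 4 * M / 10816 * t →
        (‖Θ z‖ * (m * ‖z‖)) ^ m ≤ (4 * M / 10816) ^ m * ‖P z‖ := fun t ht h6 h7 => by
      refine (pow_le_pow_left₀ (by positivity) h7 m).trans ?_
      rw [mul_pow]; gcongr
    have low : ∀ s : ℝ, 0 ≤ s → (∀ j ∈ Finset.range (2 * m), s ≤ ‖z - α (m + j)‖) →
        (s ^ 2) ^ m ≤ ‖P z‖ := fun s hs h6 => by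
      rw [← pow_mul, hP, norm_prod]
      refine le_trans (by simp) (Finset.prod_le_prod (f := fun _ => s) (fun _ _ => hs) h6)
    by_cases hzW : z ∈ W
    · rcases h4.eq_or_lt with h4 | h4
      · refine fin _ (by positivity) (low (m / 2) (by positivity) fun j _ => ?_) ?_
        · linarith [norm_sub_norm_le (α (m + j)) z, norm_sub_rev z (α (m + j)), hlo j]
        · rw [← h4]
          have : ‖Θ z‖ * (m * (m / 10816)) ≤ M * (m * (m / 10816)) := by gcongr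
          linarith
      · have h5' : ‖z‖ = 10816 * m := by
          by_contra h6
          exact hz.2 ⟨hzW, h4, lt_of_le_of_ne h5 h6⟩
        refine fin _ (by positivity) (low (10816 * m / 2) (by positivity) fun j hj => ?_) ?_
        · linarith [norm_sub_norm_le z (α (m + j)), hhi j hj]
        · rw [h5']
          have : ‖Θ z‖ * (m * (10816 * m)) ≤ M * (m * (10816 * m)) := by gcongr
          linarith
    · refine fin _ (by positivity) (hP0 z h3) ?_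
      have h6 := h2 z h3 hzW (by linarith)
      have : ‖Θ z‖ * (m * ‖z‖) ≤ M * r0 / (9 * 10816 ^ 2) * (m * (10816 * m)) := by gcongr
      linarith
  · rw [hU]
    exact hUo.closure_inter ⟨hz0, by linarith, by linarith⟩

lemma barrier {W : Set ℂ} (hW : IsOpen W) {Θ : ℂ → ℂ} {ρ r0 : ℝ} (α : ℕ → ℂ)
    (hA : ∀ z ∈ closure W, ρ < ‖z‖ → DifferentiableAt ℂ Θ z)
    (h0 : ∀ ε > 0, ∃ ρ', ∀ z ∈ closure W, z ∉ W → ρ' < ‖z‖ → ‖Θ z‖ ≤ ε)
    (hα : ∀ k l : ℕ, 2 * |(k : ℝ) - l| ≤ ‖α k - α l‖) (hα2 : ∀ k : ℕ, ‖α k - α 0‖ ≤ 8 * k)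
    (hr : 0 < r0) (hr1 : r0 ≤ 1) (hα3 : ∀ z ∈ closure W, ∀ k, r0 ≤ ‖z - α k‖) {M : ℝ} (hM : 0 < M)
    (hb : ∃ ρ', ∀ z ∈ closure W, ρ' < ‖z‖ → ‖Θ z‖ ≤ M) :
    ∀ ε > 0, ∃ ρ', ∀ z ∈ closure W, ρ' < ‖z‖ → ‖Θ z‖ ≤ ε := fun ε hε => by
  have : ∀ n : ℕ, ∃ ρ', ∀ z ∈ closure W, ρ' < ‖z‖ → ‖Θ z‖ ≤ M * (1 / 2) ^ n := fun n => by
    induction n with
    | zero => simpa using hb
    | succ n ih =>
      have := barrier_step hW α hA h0 hα hα2 hr hr1 hα3 (by positivity) ih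
      rwa [pow_succ, ← mul_assoc, mul_one_div]
  obtain ⟨n, hn⟩ := exists_pow_lt_of_lt_one (div_pos hε hM) (by norm_num : (1 / 2 : ℝ) < 1)
  obtain ⟨ρ', h⟩ := this n
  rw [lt_div_iff₀ hM] at hn
  exact ⟨ρ', fun z hz h1 => by linarith [h z hz h1]⟩

end Pool.Agent.H94.SL
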