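import Mathlib
import Pool.Agent.H94.SL1

set_option autoImplicit false

namespace Pool.Agent.H94.SL

open Set Filter Topology Complex Metric

lemma linv {r M δ : ℝ} (hr : 0 < r) (hδ : 0 < δ) : ∃ κ > 0, ∀ (G : ℂ → ℂ) (w : ℂ),
    DifferentiableOn ℂ G (ball w (2 * (2 * r))) → (∀ x ∈ ball w (2 * (2 * r)), ‖G x‖ ≤ M) →
    δ ≤ ‖deriv G w‖ → ∃ χ : ℂ → ℂ, DifferentiableOn ℂ χ (ball (G w) κ) ∧ χ (G w) = w ∧
      ∀ y ∈ ball (G w) κ, χ y ∈ ball w r ∧ G (χ y) = y := by
  set s := min r (δ / (2 * (|M / (2 * r) / r| + 1))) with hs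
  have hs0 : 0 < s := by positivity
  refine ⟨δ * s / 4, by positivity, fun G w hd hb hw => ?_⟩
  set d := deriv G w
  have hd0 : d ≠ 0 := norm_pos_iff.1 (hδ.trans_le hw)
  have hsub : ball w s ⊆ ball w r := ball_subset_ball (min_le_left _ _)
  have hda : ∀ x ∈ ball w s, DifferentiableAt ℂ G x := fun x hx =>
    hd.differentiableAt (isOpen_ball.mem_nhds (ball_subset_ball (by linarith) (hsub hx)))
  have h1 : ∀ x ∈ ball w s, ‖deriv G x - d‖ ≤ ‖d‖ / 2 := fun x hx => by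
    have := lip hr ((hd.deriv isOpen_ball).mono (ball_subset_ball (by linarith)))
      (cau (by positivity) hd hb) w (mem_ball_self hr) x (hsub hx)
    have h2 : ‖x - w‖ < δ / (2 * (|M / (2 * r) / r| + 1)) :=
      (mem_ball_iff_norm.1 hx).trans_le (min_le_right _ _)
    rw [lt_div_iff₀ (by positivity)] at h2
    nlinarith [le_abs_self (M / (2 * r) / r), norm_nonneg (x - w)]
  have hne : ∀ x ∈ ball w s, deriv G x ≠ 0 := fun x hx h => by
    have := h1 x hx
    rw [h, zero_sub, norm_neg] at this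
    linarith
  have ap : ApproximatesLinearOn (fun x => G x / d)
      (ContinuousLinearEquiv.refl ℂ ℂ : ℂ →L[ℂ] ℂ) (ball w s) (1 / 2) := fun x hx y hy => by
    have := mvt (h := fun x => G x / d - x) (C := 1 / 2)
      (fun z hz => (((hda z hz).div_const d).sub differentiableAt_id).differentiableWithinAt)
      (fun z hz => by
        rw [(((hda z hz).hasDerivAt.div_const d).fun_sub (hasDerivAt_id' z)).deriv,
          div_sub_one hd0, norm_div, div_le_iff₀ (norm_pos_iff.2 hd0)]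
        linarith [h1 z hz]) y hy x hx
    simpa [sub_sub_sub_comm] using this
  have hN : ‖((ContinuousLinearEquiv.refl ℂ ℂ).symm : ℂ →L[ℂ] ℂ)‖₊ = 1 := by
    simp [ContinuousLinearMap.nnnorm_id]
  have hc : Subsingleton ℂ ∨ (1 / 2 : NNReal) <
      ‖((ContinuousLinearEquiv.refl ℂ ℂ).symm : ℂ →L[ℂ] ℂ)‖₊⁻¹ := Or.inr (by rw [hN]; norm_num)
  set e := ap.toOpenPartialHomeomorph _ _ hc isOpen_ball
  have ht : ∀ y ∈ ball (G w) (δ * s / 4), y / d ∈ e.target := fun y hy => by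
    refine ap.closedBall_subset_target hc isOpen_ball (b := w) (ε := s / 2) (by positivity)
      (closedBall_subset_ball (by linarith)) ?_
    rw [hN, mem_closedBall_iff_norm, ← sub_div, norm_div, div_le_iff₀ (norm_pos_iff.2 hd0)]
    have := mem_ball_iff_norm.1 hy
    push_cast
    nlinarith
  refine ⟨fun y => e.symm (y / d), fun y hy => ?_, e.left_inv (mem_ball_self hs0), fun y hy =>
    ⟨hsub (e.map_target (ht y hy)), ?_⟩⟩
  · have h2 := e.map_target (ht y hy)
    exact ((e.hasDerivAt_symm (ht y hy) (div_ne_zero (hne _ h2) hd0)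
      ((hda _ h2).hasDerivAt.div_const d)).differentiableAt.comp y
      (differentiableAt_id.div_const d)).differentiableWithinAt
  · exact (div_left_inj' hd0).1 (e.right_inv (ht y hy))

lemma glue (Q : ℂ → ℂ → Prop) (h0 : Q 0 0)
    (ls : ∀ R : ℝ, ∃ κ > 0, ∀ t w, ‖t‖ ≤ R → Q t w → ∃ χ : ℂ → ℂ,
      DifferentiableOn ℂ χ (ball t κ) ∧ χ t = w ∧ ∀ u ∈ ball t κ, Q u (χ u))
    (inj : ∀ t w, Q t w → ∀ᶠ p : ℂ × ℂ in 𝓝 (w, w), ∀ u, Q u p.1 → Q u p.2 → p.1 = p.2) :
    ∃ ψ : ℂ → ℂ, Differentiable ℂ ψ ∧ ψ 0 = 0 ∧ ∀ t, Q t (ψ t) := by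
  have uq : ∀ (U : Set ℂ) (ψ χ : ℂ → ℂ) (t : ℂ), IsOpen U → Convex ℝ U → t ∈ U →
      DifferentiableOn ℂ ψ U → DifferentiableOn ℂ χ U → (∀ u ∈ U, Q u (ψ u)) →
      (∀ u ∈ U, Q u (χ u)) → ψ t = χ t → EqOn ψ χ U := fun U ψ χ t h1 h2 h3 h4 h5 h6 h7 h8 => by
    refine (h4.analyticOnNhd h1).eqOn_of_preconnected_of_eventuallyEq (h5.analyticOnNhd h1)
      h2.isPreconnected h3 ?_
    have c1 := (h4.differentiableAt (h1.mem_nhds h3)).continuousAt
    have c2 := (h5.differentiableAt (h1.mem_nhds h3)).continuousAt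
    rw [ContinuousAt, ← h8] at c2
    filter_upwards [(c1.prodMk_nhds c2).eventually (inj t _ (h6 t h3)), h1.mem_nhds h3] with u hu hU
    exact hu u (h6 u hU) (h7 u hU)
  set Sol := fun (r : ℝ) (ψ : ℂ → ℂ) =>
    DifferentiableOn ℂ ψ (ball 0 r) ∧ ψ 0 = 0 ∧ ∀ t ∈ ball (0 : ℂ) r, Q t (ψ t) with hSol
  have mono : ∀ r r' ψ, r' ≤ r → Sol r ψ → Sol r' ψ := fun r r' ψ h hs =>
    ⟨hs.1.mono (ball_subset_ball h), hs.2.1, fun t ht => hs.2.2 t (ball_subset_ball h ht)⟩
  have all : ∀ R : ℝ, 0 < R → ∃ ψ, Sol R ψ := fun R hR => by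
    obtain ⟨κ, hκ, hl⟩ := ls R
    have step : ∀ r ψ, 0 < r → r ≤ R → Sol r ψ → ∃ ψ', Sol (r + κ / 2) ψ' := fun r ψ hr hrR hs => by
      have h1 : ∀ s : ℂ, ∃ χ : ℂ → ℂ, s ∈ ball (0 : ℂ) r → DifferentiableOn ℂ χ (ball s κ) ∧
          χ s = ψ s ∧ ∀ u ∈ ball s κ, Q u (χ u) := fun s => by
        by_cases h : s ∈ ball (0 : ℂ) r
        · obtain ⟨χ, hχ⟩ := hl s (ψ s) ((mem_ball_zero_iff.1 h).le.trans hrR) (hs.2.2 s h)
          exact ⟨χ, fun _ => hχ⟩
        · exact ⟨ψ, fun h' => absurd h' h⟩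
      choose χ hχ using h1
      set p : ℂ → ℂ := fun t => ((r / (r + κ / 2) : ℝ) : ℂ) * t with hp
      have hp1 : ∀ t ∈ ball (0 : ℂ) (r + κ / 2), p t ∈ ball (0 : ℂ) r ∧ t ∈ ball (p t) κ :=
        fun t ht => by
          rw [mem_ball_zero_iff] at ht
          have e : t - p t = ((κ / 2 / (r + κ / 2) : ℝ) : ℂ) * t := by
            simp only [hp]
            rw [show κ / 2 / (r + κ / 2) = 1 - r / (r + κ / 2) by field_simp; ring]; push_cast; ring
          rw [mem_ball_zero_iff, mem_ball_iff_norm, e]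
          simp only [hp, norm_mul, norm_real]
          rw [Real.norm_of_nonneg (by positivity), Real.norm_of_nonneg (by positivity),
            div_mul_eq_mul_div, div_mul_eq_mul_div, div_lt_iff₀ (by positivity),
            div_lt_iff₀ (by positivity)]
          constructor <;> nlinarith
      refine ⟨fun t => χ (p t) t, fun t1 ht1 => ?_, ?_, fun t ht =>
        (hχ _ (hp1 t ht).1).2.2 t (hp1 t ht).2⟩
      · obtain ⟨a1, a2⟩ := hp1 t1 ht1
        obtain ⟨b1, b2, b3⟩ := hχ _ a1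
        refine ((b1.differentiableAt (isOpen_ball.mem_nhds a2)).congr_of_eventuallyEq
          ?_).differentiableWithinAt
        have cp : Continuous p := by fun_prop
        filter_upwards [isOpen_ball.mem_nhds ht1, isOpen_ball.mem_nhds a2,
          cp.continuousAt.eventually (ball_mem_nhds (p t1) hκ)] with t c1 c2 c3
        obtain ⟨d1, d2⟩ := hp1 t c1
        obtain ⟨e1, e2, e3⟩ := hχ _ d1
        have f1 := uq (ball (p t1) κ ∩ ball 0 r) _ _ (p t1) (isOpen_ball.inter isOpen_ball)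
          ((convex_ball _ _).inter (convex_ball _ _)) ⟨mem_ball_self hκ, a1⟩
          (b1.mono inter_subset_left) (hs.1.mono inter_subset_right) (fun u hu => b3 u hu.1)
          (fun u hu => hs.2.2 u hu.2) b2 ⟨c3, d1⟩
        exact uq (ball (p t) κ ∩ ball (p t1) κ) _ _ (p t) (isOpen_ball.inter isOpen_ball)
          ((convex_ball _ _).inter (convex_ball _ _)) ⟨mem_ball_self hκ, c3⟩
          (e1.mono inter_subset_left) (b1.mono inter_subset_right) (fun u hu => e3 u hu.1)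
          (fun u hu => b3 u hu.2) (e2.trans f1.symm) ⟨d2, c2⟩
      · have : p 0 = 0 := by simp [hp]
        simp only [this]
        rw [(hχ 0 (mem_ball_self hr)).2.1, hs.2.1]
    have ind : ∀ n : ℕ, ∃ ψ, Sol (min R ((n + 1) * (κ / 2))) ψ := fun n => by
      induction n with
      | zero =>
        obtain ⟨χ, hχ⟩ := hl 0 0 (by simpa using hR.le) h0
        exact ⟨χ, mono κ _ _ ((min_le_right _ _).trans (by simp; linarith)) hχ⟩
      | succ n ih =>
        obtain ⟨ψ, hψ⟩ := ih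
        obtain ⟨ψ', h⟩ := step _ ψ (by positivity) (min_le_left _ _) hψ
        refine ⟨ψ', mono _ _ _ ?_ h⟩
        rw [← min_add_add_right]
        exact min_le_min (by linarith) (by push_cast; linarith)
    obtain ⟨n, hn⟩ := exists_nat_gt (R / (κ / 2))
    rw [div_lt_iff₀ (by positivity)] at hn
    obtain ⟨ψ, h⟩ := ind n
    exact ⟨ψ, mono _ _ _ (le_min le_rfl (by linarith)) h⟩
  choose! Ψ hΨ using all
  have hp : ∀ t : ℂ, 0 < ‖t‖ + 1 := fun t => by positivity
  have hm : ∀ t : ℂ, t ∈ ball (0 : ℂ) (‖t‖ + 1) := fun t => by simp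
  refine ⟨fun t => Ψ (‖t‖ + 1) t, fun t1 => ?_, (hΨ _ (hp 0)).2.1, fun t => (hΨ _ (hp t)).2.2 t (hm t)⟩
  refine (((hΨ _ (hp t1)).1.differentiableAt (isOpen_ball.mem_nhds (hm t1))).congr_of_eventuallyEq ?_)
  filter_upwards [isOpen_ball.mem_nhds (hm t1)] with t ht
  obtain ⟨a1, a2, a3⟩ := hΨ _ (hp t)
  obtain ⟨b1, b2, b3⟩ := hΨ _ (hp t1)
  exact uq (ball 0 (‖t‖ + 1) ∩ ball 0 (‖t1‖ + 1)) _ _ 0 (isOpen_ball.inter isOpen_ball)
    ((convex_ball _ _).inter (convex_ball _ _)) ⟨mem_ball_self (hp t), mem_ball_self (hp t1)⟩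
    (a1.mono inter_subset_left) (b1.mono inter_subset_right) (fun u hu => a3 u hu.1)
    (fun u hu => b3 u hu.2) (a2.trans b2.symm) ⟨hm t, ht⟩

lemma lin {k : ℂ → ℂ} (hk : Differentiable ℂ k) {C δ : ℝ} (hδ : 0 < δ) (h0 : ∀ t, k t ≠ 0)
    (h1 : ∀ t, t.re ≤ 0 → ‖k t‖ ≤ C) (h2 : ∀ t, 0 ≤ t.re → δ ≤ ‖k t‖) :
    ∃ l : ℂ, ∀ t, k t = k 0 * exp (l * t) := by
  obtain ⟨L0, hL0⟩ := Differentiable.isExactOn_univ (f := fun t => deriv k t / k t)
    (hk.deriv.div hk h0)
  set L := fun t => L0 t - L0 0 with hL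
  have dL : ∀ t, HasDerivAt L (deriv k t / k t) t := fun t => (hL0 t trivial).sub_const _
  have e1 : ∀ t, k t = k 0 * exp (L t) := fun t => by
    have hd : ∀ t, HasDerivAt (fun t => k t * exp (-L t)) 0 t := fun t => by
      refine ((hk t).hasDerivAt.mul (dL t).neg.cexp).congr_deriv ?_
      have := h0 t
      simp only [Pi.neg_apply]; field_simp; ring
    have := is_const_of_deriv_eq_zero (fun t => (hd t).differentiableAt) (fun t => (hd t).deriv) t 0
    simp only [hL, sub_self, neg_zero, exp_zero, mul_one] at this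
    rw [← this, mul_assoc, ← exp_add]; simp [hL]
  have hk0 := norm_pos_iff.2 (h0 0)
  set B := |Real.log (C / ‖k 0‖)| + |Real.log (δ / ‖k 0‖)| with hB
  have e2 : ∀ t : ℂ, -(B * ‖t‖) ≤ t.re * (L t).re := fun t => by
    have e3 : ‖k t‖ = ‖k 0‖ * Real.exp (L t).re := by rw [e1 t, norm_mul, norm_exp]
    have a1 := abs_nonneg (Real.log (C / ‖k 0‖))
    have a2 := abs_nonneg (Real.log (δ / ‖k 0‖))
    have a3 := abs_le.1 (abs_re_le_norm t)
    rcases le_total t.re 0 with h | h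
    · have : (L t).re ≤ B := by
        have h3 : Real.exp (L t).re ≤ C / ‖k 0‖ := by
          rw [le_div_iff₀ hk0, mul_comm, ← e3]; exact h1 t h
        have := (Real.le_log_iff_exp_le ((Real.exp_pos _).trans_le h3)).2 h3
        linarith [le_abs_self (Real.log (C / ‖k 0‖))]
      nlinarith
    · have : -B ≤ (L t).re := by
        have h3 : δ / ‖k 0‖ ≤ Real.exp (L t).re := by
          rw [div_le_iff₀ hk0, mul_comm, ← e3]; exact h2 t h
        have := (Real.log_le_iff_le_exp (by positivity)).2 h3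
        linarith [neg_abs_le (Real.log (δ / ‖k 0‖))]
      nlinarith
  have dS : Differentiable ℂ (dslope L 0) := differentiableOn_univ.1
    ((differentiableOn_dslope univ_mem).2 fun t _ => (dL t).differentiableAt.differentiableWithinAt)
  have eS : ∀ t, L t = dslope L 0 t * t := fun t => by
    have := sub_smul_dslope L 0 t
    simp only [sub_zero, smul_eq_mul, hL, sub_self] at this ⊢
    rw [mul_comm, this]
  have pos : ∀ t, 0 ≤ (dslope L 0 t).re := fun t => by
    have hi : Tendsto (fun r : ℝ => r⁻¹) atTop (𝓝 0) := tendsto_inv_atTop_zero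
    have t1 : Tendsto (fun r : ℝ => ((1 + t ^ 2 * ((r⁻¹ : ℝ) : ℂ) ^ 2) * dslope L 0 t).re) atTop
        (𝓝 ((1 + t ^ 2 * ((0 : ℝ) : ℂ) ^ 2) * dslope L 0 t).re) := by
      have c : Continuous fun s : ℝ => ((1 + t ^ 2 * (s : ℂ) ^ 2) * dslope L 0 t).re := by fun_prop
      exact (c.tendsto 0).comp hi
    have t2 := hi.const_mul (-2 * B)
    simp only [ofReal_zero, ne_eq, OfNat.ofNat_ne_zero, not_false_eq_true, zero_pow, mul_zero,
      add_zero, one_mul] at t1 t2
    refine le_of_tendsto_of_tendsto t2 t1 ((eventually_gt_atTop ‖t‖).mono fun r hr => ?_)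
    have hr0 : 0 < r := (norm_nonneg _).trans_lt hr
    have := norm_le_of_forall_mem_frontier_norm_le
      (f := fun z => exp (-((1 + z ^ 2 * ((r⁻¹ : ℝ) : ℂ) ^ 2) * dslope L 0 z)))
      (C := Real.exp (2 * B * r⁻¹)) (isBounded_ball (x := 0) (r := r))
      (Differentiable.diffContOnCl (by fun_prop)) (fun w hw => ?_) (z := t)
      (subset_closure (mem_ball_zero_iff.2 hr))
    · rw [norm_exp, Real.exp_le_exp, neg_re] at this; linarith
    rw [frontier_ball _ hr0.ne', mem_sphere_zero_iff_norm] at hw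
    have hw0 : w ≠ 0 := by rintro rfl; simp at hw; linarith
    have e : (1 + w ^ 2 * ((r⁻¹ : ℝ) : ℂ) ^ 2) = ((2 * w.re * r⁻¹ ^ 2 : ℝ) : ℂ) * w := by
      have h3 : (r : ℂ) ^ 2 = w * (starRingEnd ℂ) w := by
        rw [mul_conj, normSq_eq_norm_sq, hw]; simp
      have h4 : (r : ℂ) ≠ 0 := by simp [hr0.ne']
      have h5 := add_conj w
      push_cast at h5 ⊢
      field_simp
      linear_combination h3 + w * h5
    rw [norm_exp, Real.exp_le_exp, neg_re, e, mul_assoc, mul_comm w, ← eS, re_ofReal_mul]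
    have h3 := mul_le_mul_of_nonneg_left (e2 w) (by positivity : 0 ≤ 2 * r⁻¹ ^ 2)
    have h4 : r⁻¹ ^ 2 * r = r⁻¹ := by field_simp
    rw [hw] at h3
    have h5 : 2 * r⁻¹ ^ 2 * -(B * r) = -(2 * B * (r⁻¹ ^ 2 * r)) := by ring
    rw [h5, h4] at h3
    linarith
  obtain ⟨c, hc⟩ := Differentiable.exists_const_forall_eq_of_bounded
    (f := fun t => exp (-dslope L 0 t)) (by fun_prop) (isBounded_iff_forall_norm_le.2 ⟨1, by
      rintro _ ⟨t, rfl⟩
      rw [norm_exp, Real.exp_le_one_iff, neg_re]; linarith [pos t]⟩)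
  have d0 : ∀ t, deriv (dslope L 0) t = 0 := fun t => by
    have := ((dS t).hasDerivAt.neg.cexp).unique
      ((hasDerivAt_const t c).congr_of_eventuallyEq (.of_forall hc))
    simpa using this
  exact ⟨dslope L 0 0, fun t => by rw [e1 t, eS t, is_const_of_deriv_eq_zero dS d0 t 0]⟩

end Pool.Agent.H94.SL
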