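import Mathlib
import Pool.Agent.H94.SL2

set_option autoImplicit false

namespace Pool.Agent.H94.SL

open Set Filter Topology Complex Metric

open Classical in
noncomputable def iv (A : ℂ → Prop) (h : ℂ → ℂ) (s : ℂ) (x : ℂ) : ℂ := if A x then (h x - s)⁻¹ else 0

structure Hull (A : ℂ → Prop) (G : ℂ → ℂ) (b : ℂ) : Prop where
  loc : ∀ R : ℝ, ∃ r > 0, ∃ M, ∀ w, A w → ‖G w‖ ≤ R →
    (∀ x ∈ ball w r, A x ∧ ‖G x‖ ≤ M) ∧ DifferentiableOn ℂ G (ball w r)
  pole : ∀ w, ¬A w → AnalyticAt ℂ (iv A G b) w ∧ ∀ᶠ x in 𝓝 w, A x → G x ≠ b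
  bd : ∃ K, (∀ w, A w → ‖deriv G w‖ ≤ K * (1 + ‖G w - b‖ ^ 2)) ∧
    ∀ w, ¬A w → ‖deriv (iv A G b) w‖ ≤ K

structure Sh (A : ℂ → Prop) (G : ℂ → ℂ) (v : ℂ) : Prop where
  l : ∀ ε > 0, ∃ δ > 0, ∀ w, A w → ‖G w - v‖ < δ → ‖deriv G w - v‖ ≤ ε
  r : ∀ ε > 0, ∃ δ > 0, ∀ w, A w → ‖deriv G w - v‖ < δ → ‖G w - v‖ ≤ ε

variable {A : ℂ → Prop} {G : ℂ → ℂ} {a b v : ℂ}

lemma Sh.l0 (h : Sh A G v) {w : ℂ} (hw : A w) (e : G w = v) : deriv G w = v := by
  refine sub_eq_zero.1 (norm_le_zero_iff.1 (le_of_forall_pos_le_add fun ε hε => ?_))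
  obtain ⟨δ, hδ, h1⟩ := h.l ε hε
  simpa using h1 w hw (by simpa [e] using hδ)

lemma Sh.r0 (h : Sh A G v) {w : ℂ} (hw : A w) (e : deriv G w = v) : G w = v := by
  refine sub_eq_zero.1 (norm_le_zero_iff.1 (le_of_forall_pos_le_add fun ε hε => ?_))
  obtain ⟨δ, hδ, h1⟩ := h.r ε hε
  simpa using h1 w hw (by simpa [e] using hδ)

lemma Hull.an (h : Hull A G b) {w : ℂ} (hw : A w) : AnalyticAt ℂ G w ∧ ∀ᶠ x in 𝓝 w, A x := by
  obtain ⟨r, hr, M, h1⟩ := h.loc ‖G w‖
  obtain ⟨h2, h3⟩ := h1 w hw le_rfl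
  exact ⟨h3.analyticAt (ball_mem_nhds w hr),
    Filter.mem_of_superset (ball_mem_nhds w hr) fun x hx => (h2 x hx).1⟩

lemma clsB (h : Hull A G b) (ha : Sh A G 0) (hb : Sh A G b) (hb0 : b ≠ 0) (h0 : A 0)
    (hd : deriv G 0 ≠ 0) : ∀ w, A w ∧ G w = G 0 * exp w := by
  set c := G 0 with hc
  have hc0 : c ≠ 0 := fun e => hd (ha.l0 h0 e)
  have hcn := norm_pos_iff.2 hc0
  have low : ∀ ε > 0, ∃ δ > 0, ∀ w, A w → ε ≤ ‖G w‖ → δ ≤ ‖deriv G w‖ := fun ε hε => by
    obtain ⟨δ, hδ, h1⟩ := ha.r (ε / 2) (by positivity)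
    refine ⟨δ, hδ, fun w hw h2 => not_lt.1 fun h3 => ?_⟩
    have := h1 w hw (by simpa using h3)
    rw [sub_zero] at this; linarith
  have dne : ∀ t w, A w → G w = c * exp t → deriv G w ≠ 0 := fun t w h1 h2 h3 =>
    mul_ne_zero hc0 (exp_ne_zero t) (h2 ▸ ha.r0 h1 h3)
  obtain ⟨ψ, dψ, ψ0, hψ⟩ := glue (fun t w => A w ∧ G w = c * exp t) ⟨h0, by simp [hc]⟩
    (fun R => by
      obtain ⟨r, hr, M, h1⟩ := h.loc (‖c‖ * Real.exp R)
      obtain ⟨δ, hδ, h2⟩ := low (‖c‖ * Real.exp (-R)) (by positivity)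
      obtain ⟨κ, hκ, h3⟩ := linv (r := r / 4) (M := M) (by positivity) hδ
      refine ⟨min 1 (κ / (2 * ‖c‖ * Real.exp R)), by positivity, fun t w ht ⟨hw, e⟩ => ?_⟩
      have a1 := abs_le.1 ((abs_re_le_norm t).trans ht)
      have a2 : ‖G w‖ = ‖c‖ * Real.exp t.re := by rw [e, norm_mul, norm_exp]
      have a3 : ‖G w‖ ≤ ‖c‖ * Real.exp R := by rw [a2]; gcongr; exact a1.2
      obtain ⟨h4, h5⟩ := h1 w hw a3
      rw [show r = 2 * (2 * (r / 4)) by ring] at h4 h5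
      obtain ⟨χ, b1, b2, b3⟩ := h3 G w h5 (fun x hx => (h4 x hx).2)
        (h2 w hw (by rw [a2]; gcongr; exact a1.1))
      have hm : ∀ u ∈ ball t (min 1 (κ / (2 * ‖c‖ * Real.exp R))), c * exp u ∈ ball (G w) κ :=
        fun u hu => by
          rw [mem_ball_iff_norm, lt_min_iff, lt_div_iff₀ (by positivity)] at hu
          rw [mem_ball_iff_norm, show c * exp u - G w = G w * (exp (u - t) - 1) by
            rw [e, mul_sub, mul_assoc, ← exp_add]; simp, norm_mul]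
          have := norm_exp_sub_one_le hu.1.le
          calc _ ≤ ‖c‖ * Real.exp R * (2 * ‖u - t‖) := by gcongr
            _ < κ := by linarith [hu.2]
      refine ⟨fun u => χ (c * exp u), b1.comp (by fun_prop) hm, by simp only [← e, b2], fun u hu =>
        ⟨(h4 _ (ball_subset_ball (by linarith) (b3 _ (hm u hu)).1)).1, (b3 _ (hm u hu)).2⟩⟩)
    (fun t w ⟨h1, h2⟩ => by
      have hs := (h.an h1).1.hasStrictDerivAt
      have := hs.eventually_left_inverse (dne t w h1 h2)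
      filter_upwards [this.prod_nhds this] with p hp u h3 h4
      rw [← hp.1, ← hp.2, h3.2, h4.2])
  have dk : Differentiable ℂ fun t => deriv G (ψ t) := fun t =>
    (h.an (hψ t).1).1.deriv.differentiableAt.comp t (dψ t)
  have nG : ∀ t, ‖G (ψ t)‖ = ‖c‖ * Real.exp t.re := fun t => by rw [(hψ t).2, norm_mul, norm_exp]
  obtain ⟨r, hr, M, h1⟩ := h.loc ‖c‖
  obtain ⟨δ, hδ, h2⟩ := low ‖c‖ hcn
  obtain ⟨l, hl⟩ := lin dk (C := M / (r / 2)) hδ (fun t => dne t _ (hψ t).1 (hψ t).2)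
    (fun t ht => by
      obtain ⟨h4, h5⟩ := h1 _ (hψ t).1
        (by rw [nG]; exact mul_le_of_le_one_right hcn.le (Real.exp_le_one_iff.2 ht))
      rw [show r = 2 * (r / 2) by ring] at h4 h5
      exact cau (by positivity) h5 (fun x hx => (h4 x hx).2) _ (mem_ball_self (by positivity)))
    (fun t ht => h2 _ (hψ t).1
      (by rw [nG]; exact le_mul_of_one_le_right hcn.le (Real.one_le_exp_iff.2 ht)))
  set k0 := deriv G (ψ 0)
  set t0 := log (b / c)
  have e0 : c * exp t0 = b := by rw [exp_log (div_ne_zero hb0 hc0)]; field_simp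
  have e1 : k0 * exp (l * t0) = b := by rw [← hl]; exact hb.l0 (hψ _).1 ((hψ _).2.trans e0)
  have e2 : ∀ s, deriv G (ψ (t0 + s)) = b * exp (l * s) := fun s => by
    rw [hl, mul_add, exp_add, ← mul_assoc, e1]
  have e3 : ∀ s, G (ψ (t0 + s)) = b * exp s := fun s => by rw [(hψ _).2, exp_add, ← mul_assoc, e0]
  have hpi : (2 * Real.pi * I : ℂ) ≠ 0 := by simp [Real.pi_ne_zero]
  obtain ⟨m, hm⟩ : ∃ m : ℤ, l = m := by
    have := hb.l0 (hψ (t0 + 2 * Real.pi * I)).1 (by rw [e3, exp_two_pi_mul_I, mul_one])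
    rw [e2, mul_eq_left₀ hb0, exp_eq_one_iff] at this
    obtain ⟨m, hm⟩ := this
    exact ⟨m, mul_right_cancel₀ hpi hm⟩
  subst hm
  have hbn := norm_pos_iff.2 hb0
  have m1 : 0 < m := by
    by_contra! hm
    obtain ⟨δ, hδ, h3⟩ := ha.l (‖b‖ / 2) (by positivity)
    obtain ⟨x, hx, h4⟩ := ((eventually_ge_atTop (0 : ℝ)).and
      (Real.tendsto_exp_neg_atTop_nhds_zero.eventually (gt_mem_nhds (div_pos hδ hbn)))).exists
    have := h3 _ (hψ (t0 + (-x : ℝ))).1 (by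
      rw [e3, sub_zero, norm_mul, norm_exp_ofReal]; rwa [lt_div_iff₀' hbn] at h4)
    rw [e2, sub_zero, norm_mul, norm_exp] at this
    have h5 : 1 ≤ Real.exp ((m : ℂ) * (-x : ℝ)).re := by
      refine Real.one_le_exp_iff.2 ?_
      have : (m : ℝ) ≤ 0 := by exact_mod_cast hm
      simp only [mul_re, intCast_re, ofReal_re, intCast_im, ofReal_im, mul_zero, sub_zero]
      nlinarith
    nlinarith
  have m2 : m = 1 := by
    have hm0 : (m : ℂ) ≠ 0 := by exact_mod_cast m1.ne'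
    have := hb.r0 (hψ (t0 + 2 * Real.pi * I / m)).1 (by
      rw [e2, mul_div_cancel₀ _ hm0, exp_two_pi_mul_I, mul_one])
    rw [e3, mul_eq_left₀ hb0, exp_eq_one_iff] at this
    obtain ⟨n, hn⟩ := this
    rw [div_eq_iff hm0] at hn
    have hn' : (n : ℂ) * m = 1 := mul_right_cancel₀ hpi (by linear_combination -hn)
    have : n * m = 1 := by exact_mod_cast hn'
    exact Int.eq_one_of_mul_eq_one_left m1.le this
  subst m2
  have e4 : ∀ t, HasDerivAt (fun t => ψ t - t) 0 t := fun t => by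
    have a1 := (h.an (hψ t).1).1.differentiableAt.hasDerivAt.comp t (dψ t).hasDerivAt
    have a2 := a1.unique (((hasDerivAt_exp t).const_mul c).congr_of_eventuallyEq
      (.of_forall fun u => (hψ u).2))
    have a3 := e2 (t - t0)
    have a4 := e3 (t - t0)
    rw [add_sub_cancel] at a3 a4
    rw [a3, ← (hψ t).2, a4, Int.cast_one, one_mul,
      mul_eq_left₀ (mul_ne_zero hb0 (exp_ne_zero _))] at a2
    simpa [a2] using (dψ t).hasDerivAt.fun_sub (hasDerivAt_id' t)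
  intro w
  have := is_const_of_deriv_eq_zero (fun t => (e4 t).differentiableAt) (fun t => (e4 t).deriv) w 0
  rw [ψ0, sub_zero, sub_eq_zero] at this
  simpa [this] using hψ w

lemma Hull.dens (h : Hull A G b) (h0 : A 0) (hd : deriv G 0 ≠ 0) (s : ℂ) {ε : ℝ} (hε : 0 < ε) :
    ∃ w, A w ∧ ‖G w - s‖ < ε := by
  by_contra! hc
  have hne : ∀ w, A w → G w - s ≠ 0 := fun w hw => norm_pos_iff.1 (hε.trans_le (hc w hw))
  have e1 : ∀ w, A w → iv A G s =ᶠ[𝓝 w] fun x => (G x - s)⁻¹ := fun w hw =>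
    (h.an hw).2.mono fun x hx => if_pos hx
  have dY : Differentiable ℂ (iv A G s) := fun w => by
    by_cases hw : A w
    · exact (((h.an hw).1.differentiableAt.sub_const s).inv (hne w hw)).congr_of_eventuallyEq (e1 w hw)
    · obtain ⟨h1, h2⟩ := h.pole w hw
      have h3 : 1 + (b - s) * iv A G b w ≠ 0 := by simp [iv, hw]
      have h4 := h1.differentiableAt
      refine DifferentiableAt.congr_of_eventuallyEq
        (f := fun x => iv A G b x / (1 + (b - s) * iv A G b x)) (by fun_prop (disch := exact h3)) ?_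
      filter_upwards [h2] with x hx
      by_cases hA : A x
      · have a1 := sub_ne_zero.2 (hx hA)
        have a2 := hne x hA
        simp only [iv, hA, if_true]
        rw [show 1 + (b - s) * (G x - b)⁻¹ = (G x - s) / (G x - b) by field_simp; ring]
        field_simp
      · simp [iv, hA]
  obtain ⟨c, hc2⟩ := dY.exists_const_forall_eq_of_bounded (isBounded_iff_forall_norm_le.2 ⟨ε⁻¹, by
    rintro _ ⟨w, rfl⟩
    by_cases hw : A w
    · simp only [iv, hw, if_true, norm_inv]; exact inv_anti₀ hε (hc w hw)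
    · simp [iv, hw, hε.le]⟩)
  have := (((h.an h0).1.differentiableAt.hasDerivAt.sub_const s).inv (hne 0 h0)).unique
    ((hasDerivAt_const 0 c).congr_of_eventuallyEq ((e1 0 h0).symm.trans (.of_forall hc2)))
  simp [hd, hne 0 h0] at this

lemma Hull.near (h : Hull A G b) (hv : Sh A G v) (hv0 : v ≠ 0) {u : ℂ} (hu : v ≠ u) :
    ∃ r > 0, ∃ η > 0, ∀ w, A w → ‖G w - v‖ < η → ∀ x ∈ sphere w r,
      A x ∧ η ≤ ‖G x - v‖ ∧ η ≤ ‖G x - u‖ := by
  have hvn := norm_pos_iff.2 hv0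
  have hun := norm_pos_iff.2 (sub_ne_zero.2 hu)
  obtain ⟨δ1, hδ1, h1⟩ := hv.l (‖v‖ / 2) (by positivity)
  obtain ⟨r0, hr0, M, h2⟩ := h.loc (‖v‖ + 1)
  set δ := min δ1 (‖v - u‖ / 2) with hδ
  have hδ0 : 0 < δ := by positivity
  set r := min (r0 / 4) (δ / (4 * (|M / (r0 / 2)| + 1))) with hr
  have hrp : 0 < r := by positivity
  refine ⟨r, hrp, min (min (δ / 2) (‖v‖ * r / 4)) 1, by positivity, fun w hw h3 x hx => ?_⟩
  simp only [lt_min_iff] at h3
  obtain ⟨h4, h5⟩ := h2 w hw (by linarith [norm_sub_norm_le (G w) v])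
  have s1 : ball w (2 * r) ⊆ ball w (r0 / 2) := ball_subset_ball (by linarith [min_le_left (r0 / 4) (δ / (4 * (|M / (r0 / 2)| + 1)))])
  have s2 : ball w (r0 / 2) ⊆ ball w r0 := ball_subset_ball (by linarith)
  have h6 : ∀ y ∈ ball w (2 * r), ‖G y - v‖ < δ := fun y hy => by
    have := lip (r := r0 / 2) (M := M) (by positivity) (by rwa [mul_div_cancel₀ _ two_ne_zero])
      (by rw [mul_div_cancel₀ _ two_ne_zero]; exact fun x hx => (h4 x hx).2) w
      (mem_ball_self (by positivity)) y (s1 hy)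
    have a1 := mem_ball_iff_norm.1 hy
    have a2 : r ≤ δ / (4 * (|M / (r0 / 2)| + 1)) := min_le_right _ _
    rw [le_div_iff₀ (by positivity)] at a2
    have a3 := norm_sub_le_norm_sub_add_norm_sub (G y) (G w) v
    nlinarith [le_abs_self (M / (r0 / 2)), norm_nonneg (y - w), abs_nonneg (M / (r0 / 2))]
  have hx1 : ‖x - w‖ = r := mem_sphere_iff_norm.1 hx
  have hx2 : x ∈ ball w (2 * r) := mem_ball_iff_norm.2 (by linarith)
  have hda : ∀ y ∈ ball w (2 * r), DifferentiableAt ℂ G y := fun y hy =>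
    h5.differentiableAt (isOpen_ball.mem_nhds (s2 (s1 hy)))
  have h7 := mvt (h := fun y => G y - v * y) (C := ‖v‖ / 2)
    (fun y hy => ((hda y hy).sub (differentiableAt_id.const_mul v)).differentiableWithinAt)
    (fun y hy => by
      rw [((hda y hy).hasDerivAt.fun_sub ((hasDerivAt_id' y).const_mul v)).deriv, mul_one]
      exact h1 y (h4 y (s2 (s1 hy))).1 ((h6 y hy).trans_le (min_le_left _ _)))
    w (mem_ball_self (by positivity)) x hx2
  have a1 := norm_sub_norm_le (v * (x - w)) (G x - G w)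
  rw [norm_sub_rev (v * (x - w)), show G x - G w - v * (x - w) = G x - v * x - (G w - v * w) by ring, norm_mul,
    hx1] at a1
  rw [hx1] at h7
  have a2 := norm_sub_le_norm_sub_add_norm_sub (G x) v (G w)
  rw [norm_sub_rev v] at a2
  have a3 := norm_sub_le_norm_sub_add_norm_sub v (G x) u
  rw [norm_sub_rev v (G x)] at a3
  have a4 := h6 x hx2
  have a5 : δ ≤ ‖v - u‖ / 2 := min_le_right _ _
  refine ⟨(h4 x (s2 (s1 hx2))).1, (min_le_left _ _).trans ((min_le_right _ _).trans ?_),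
    (min_le_left _ _).trans ((min_le_left _ _).trans ?_)⟩ <;> linarith

end Pool.Agent.H94.SL
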