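import Mathlib
import Pool.Agent.H94.SL3

set_option autoImplicit false

namespace Pool.Agent.H94.SL

open Set Filter Topology Complex Metric

variable {A : ℂ → Prop} {G : ℂ → ℂ} {a b v : ℂ}

lemma Hull.rem (h : Hull A G b) (hv : Sh A G v) (hv0 : v ≠ 0) {u w : ℂ} (hu : v ≠ u) (hw : A w)
    (e : G w = v) : ∃ k : ℂ → ℂ, DifferentiableAt ℂ k w ∧ ∀ᶠ x in 𝓝[≠] w, A x ∧ G x ≠ v ∧ G x ≠ u ∧
      (deriv G x - G x) / ((G x - v) * (G x - u)) = k x := by
  obtain ⟨h1, h2⟩ := h.an hw
  have h3 := hv.l0 hw e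
  obtain ⟨p, hp⟩ := h1.deriv.sub h1
  obtain ⟨q, hq⟩ := id h1
  have d1 := hp.has_fpower_series_dslope_fslope.analyticAt.differentiableAt
  have d2 := hq.has_fpower_series_dslope_fslope.analyticAt.differentiableAt
  have d3 := h1.differentiableAt
  have n1 : dslope G w w * (G w - u) ≠ 0 := by
    rw [dslope_same, h3, e]; exact mul_ne_zero hv0 (sub_ne_zero.2 hu)
  refine ⟨fun x => dslope (deriv G - G) w x / (dslope G w x * (G x - u)),
    d1.div (d2.mul (d3.sub_const u)) n1, ?_⟩
  filter_upwards [nhdsWithin_le_nhds h2, d3.hasDerivAt.eventually_ne (c := v) (by rwa [h3]),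
    nhdsWithin_le_nhds (d3.continuousAt.eventually_ne (e ▸ hu)), self_mem_nhdsWithin] with x a1 a2 a3 a4
  refine ⟨a1, a2, a3, ?_⟩
  have a5 : x - w ≠ 0 := sub_ne_zero.2 a4
  rw [dslope_of_ne _ a4, dslope_of_ne _ a4, slope_def_field, slope_def_field]
  simp only [Pi.sub_apply, h3, e, sub_self, sub_zero]
  have := sub_ne_zero.2 a2
  have := sub_ne_zero.2 a3
  field_simp

lemma ricc (h : Hull A G b) (ha : Sh A G a) (hb : Sh A G b) (ha0 : a ≠ 0) (hb0 : b ≠ 0)
    (hab : a ≠ b) : ∃ κ, ∀ w, A w → deriv G w = G w + κ * ((G w - a) * (G w - b)) := by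
  classical
  set E0 : ℂ → ℂ := fun w => if A w then (deriv G w - G w) / ((G w - a) * (G w - b))
    else -deriv (iv A G b) w with hE0
  set E : ℂ → ℂ := fun w => if A w ∧ (G w = a ∨ G w = b) then limUnder (𝓝[≠] w) E0 else E0 w with hE
  have e1 : ∀ w, A w → G w ≠ a → G w ≠ b →
      E w = (deriv G w - G w) / ((G w - a) * (G w - b)) := fun w h1 h2 h3 => by
    simp [hE, hE0, h1, h2, h3]
  have dE : Differentiable ℂ E := fun w => by
    by_cases hw : A w
    · obtain ⟨h1, h2⟩ := h.an hw
      by_cases hv : G w = a ∨ G w = b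
      · obtain ⟨k, hk, he⟩ : ∃ k : ℂ → ℂ, DifferentiableAt ℂ k w ∧ ∀ᶠ x in 𝓝[≠] w,
            A x ∧ G x ≠ a ∧ G x ≠ b ∧ (deriv G x - G x) / ((G x - a) * (G x - b)) = k x := by
          rcases hv with hv | hv
          · exact h.rem ha ha0 hab hw hv
          · obtain ⟨k, hk, he⟩ := h.rem hb hb0 hab.symm hw hv
            exact ⟨k, hk, he.mono fun x hx => ⟨hx.1, hx.2.2.1, hx.2.1, by rw [mul_comm, hx.2.2.2]⟩⟩
        refine hk.congr_of_eventuallyEq ?_
        rw [← nhdsNE_sup_pure, EventuallyEq, eventually_sup, eventually_pure]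
        refine ⟨he.mono fun x hx => by rw [e1 x hx.1 hx.2.1 hx.2.2.1, hx.2.2.2], ?_⟩
        simp only [hE]
        rw [if_pos ⟨hw, hv⟩]
        refine ((hk.continuousAt.tendsto.mono_left nhdsWithin_le_nhds).congr'
          (he.mono fun x hx => ?_)).limUnder_eq
        simp only [hE0]; rw [if_pos hx.1, hx.2.2.2]
      · push Not at hv
        have d1 := h1.differentiableAt
        refine DifferentiableAt.congr_of_eventuallyEq
          (f := fun x => (deriv G x - G x) / ((G x - a) * (G x - b)))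
          ((h1.deriv.differentiableAt.sub d1).div ((d1.sub_const a).mul (d1.sub_const b))
            (mul_ne_zero (sub_ne_zero.2 hv.1) (sub_ne_zero.2 hv.2))) ?_
        filter_upwards [h2, d1.continuousAt.eventually_ne hv.1, d1.continuousAt.eventually_ne hv.2]
          with x a1 a2 a3 using e1 x a1 a2 a3
    · obtain ⟨h1, h2⟩ := h.pole w hw
      have h3 : 1 + (b - a) * iv A G b w ≠ 0 := by simp [iv, hw]
      have h4 := h1.differentiableAt
      have h5 := h1.deriv.differentiableAt
      have c : ContinuousAt (fun x => 1 + (b - a) * iv A G b x) w := by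
        have := h4.continuousAt; fun_prop
      refine DifferentiableAt.congr_of_eventuallyEq (f := fun x =>
        -(deriv (iv A G b) x + iv A G b x + b * iv A G b x ^ 2) / (1 + (b - a) * iv A G b x))
        (by fun_prop (disch := exact h3)) ?_
      filter_upwards [h2, c.eventually_ne h3] with x hx a0
      by_cases hA : A x
      · have a1 := sub_ne_zero.2 (hx hA)
        have a3 : 1 + (b - a) * iv A G b x = (G x - a) / (G x - b) := by
          simp only [iv, hA, if_true]; field_simp; ring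
        have a2 : G x - a ≠ 0 := fun h0 => a0 (by rw [a3, h0, zero_div])
        have a4 : deriv (iv A G b) x = -deriv G x / (G x - b) ^ 2 :=
          (HasDerivAt.congr_of_eventuallyEq
            (((h.an hA).1.differentiableAt.hasDerivAt.sub_const b).inv a1)
            ((h.an hA).2.mono fun y hy => if_pos hy)).deriv
        rw [e1 x hA (sub_ne_zero.1 a2) (hx hA), a3, a4]
        simp only [iv, hA, if_true]
        field_simp; ring
      · simp [hE, hE0, iv, hA]
  obtain ⟨K, hK1, hK2⟩ := h.bd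
  obtain ⟨r1, hr1, η1, hη1, n1⟩ := h.near ha ha0 hab
  obtain ⟨r2, hr2, η2, hη2, n2⟩ := h.near hb hb0 hab.symm
  set η := min η1 η2
  have hη : 0 < η := by positivity
  set C := |K| / η ^ 2 + |K| * (1 + ‖a - b‖ / η) + 1 / η + ‖b‖ / η ^ 2 with hC
  have far : ∀ w, A w → η ≤ ‖G w - a‖ → η ≤ ‖G w - b‖ → ‖E w‖ ≤ C := fun w h1 h2 h3 => by
    have a1 := hη.trans_le h2
    have a2 := hη.trans_le h3
    rw [e1 w h1 (sub_ne_zero.1 (norm_pos_iff.1 a1)) (sub_ne_zero.1 (norm_pos_iff.1 a2)), norm_div,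
      norm_mul, div_le_iff₀ (by positivity)]
    have a3 := (hK1 w h1).trans (mul_le_mul_of_nonneg_right (le_abs_self K) (by positivity))
    have a4 := norm_sub_le (deriv G w) (G w)
    have a5 := norm_sub_norm_le (G w) b
    have a6 := norm_sub_le_norm_sub_add_norm_sub (G w) a b
    set x := ‖G w - a‖
    set y := ‖G w - b‖
    have b1 : 1 ≤ x / η := by rwa [le_div_iff₀ hη, one_mul]
    have b2 : 1 ≤ y / η := by rwa [le_div_iff₀ hη, one_mul]
    have b3 : 1 ≤ x / η * (y / η) := by nlinarith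
    have b4 : y ≤ x * (1 + ‖a - b‖ / η) := by
      have : x * (‖a - b‖ / η) = ‖a - b‖ * (x / η) := by ring
      nlinarith [norm_nonneg (a - b)]
    have e : C * (x * y) = |K| * (x / η * (y / η)) + |K| * (y * (x * (1 + ‖a - b‖ / η))) +
      y * (x / η) + ‖b‖ * (x / η * (y / η)) := by rw [hC]; field_simp
    have c1 := mul_le_mul_of_nonneg_left b3 (abs_nonneg K)
    have c2 := mul_le_mul_of_nonneg_left (mul_le_mul_of_nonneg_left b4 a2.le) (abs_nonneg K)
    have c3 := mul_le_mul_of_nonneg_left b1 a2.le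
    have c4 := mul_le_mul_of_nonneg_left b3 (norm_nonneg b)
    rw [e]; nlinarith
  have mp : ∀ w r, 0 < r → (∀ x ∈ sphere w r, ‖E x‖ ≤ C) → ‖E w‖ ≤ C := fun w r hr h1 =>
    norm_le_of_forall_mem_frontier_norm_le (isBounded_ball (x := w) (r := r)) dE.diffContOnCl
      (by rwa [frontier_ball _ hr.ne']) (subset_closure (mem_ball_self hr))
  obtain ⟨κ, hκ⟩ := dE.exists_const_forall_eq_of_bounded (isBounded_iff_forall_norm_le.2
    ⟨max C K, by
      rintro _ ⟨w, rfl⟩
      by_cases hw : A w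
      · refine le_max_of_le_left ?_
        by_cases h1 : ‖G w - a‖ < η1
        · exact mp w r1 hr1 fun x hx => far x (n1 w hw h1 x hx).1
            ((min_le_left _ _).trans (n1 w hw h1 x hx).2.1)
            ((min_le_left _ _).trans (n1 w hw h1 x hx).2.2)
        by_cases h2 : ‖G w - b‖ < η2
        · exact mp w r2 hr2 fun x hx => far x (n2 w hw h2 x hx).1
            ((min_le_right _ _).trans (n2 w hw h2 x hx).2.2)
            ((min_le_right _ _).trans (n2 w hw h2 x hx).2.1)
        exact far w hw ((min_le_left _ _).trans (not_lt.1 h1)) ((min_le_right _ _).trans (not_lt.1 h2))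
      · refine le_max_of_le_right ?_
        simpa [hE, hE0, hw] using hK2 w hw⟩)
  refine ⟨κ, fun w hw => ?_⟩
  by_cases h1 : G w = a
  · rw [ha.l0 hw h1, h1]; simp
  by_cases h2 : G w = b
  · rw [hb.l0 hw h2, h2]; simp
  rw [← hκ w, e1 w hw h1 h2, div_mul_cancel₀ _ (mul_ne_zero (sub_ne_zero.2 h1) (sub_ne_zero.2 h2))]
  ring

lemma Hull.val (h : Hull A G b) (h0 : A 0) (hd : deriv G 0 ≠ 0) (hv : Sh A G v) {Q : ℂ → ℂ}
    (hQ : Continuous Q) (he : ∀ w, A w → deriv G w = Q (G w)) {s : ℂ} (hs : Q s = v) : s = v := by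
  refine sub_eq_zero.1 (norm_le_zero_iff.1 (le_of_forall_pos_le_add fun ε hε => ?_))
  obtain ⟨δ, hδ, h1⟩ := hv.r (ε / 2) (by positivity)
  obtain ⟨η, hη, h2⟩ := Metric.continuousAt_iff.1 (hQ.continuousAt (x := s)) δ hδ
  obtain ⟨w, hw, h3⟩ := h.dens h0 hd s (ε := min η (ε / 2)) (by positivity)
  rw [lt_min_iff] at h3
  have h4 := h2 (x := G w) (by rw [dist_eq_norm]; exact h3.1)
  rw [hs, dist_eq_norm, ← he w hw] at h4
  have := norm_sub_le_norm_sub_add_norm_sub s (G w) v
  rw [norm_sub_rev s (G w)] at this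
  linarith [h1 w hw h4]

theorem cls (h : Hull A G b) (ha : Sh A G a) (hb : Sh A G b) (hb0 : b ≠ 0) (hab : a ≠ b) (h0 : A 0)
    (hd : deriv G 0 ≠ 0) : ∀ w, A w ∧ G w = G 0 * exp w := by
  by_cases ha0 : a = 0
  · subst ha0; exact clsB h ha hb hb0 h0 hd
  obtain ⟨κ, hκ⟩ := ricc h ha hb ha0 hb0 hab
  have hk : κ = 0 := by
    by_contra hk
    have c : Continuous fun y : ℂ => y + κ * ((y - a) * (y - b)) := by fun_prop
    have h1 := h.val h0 hd ha c hκ (s := b - 1 / κ) (by field_simp; ring)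
    have h2 := h.val h0 hd hb c hκ (s := a - 1 / κ) (by field_simp; ring)
    have : (1 : ℂ) / κ = 0 := by linear_combination -(h1 + h2) / 2
    simp [hk] at this
  simp only [hk, zero_mul, add_zero] at hκ
  have : {w | A w ∧ G w = G 0 * exp w} = univ := by
    refine IsClopen.eq_univ ⟨isClosed_of_closure_subset fun w hw => ?_,
      isOpen_iff_mem_nhds.2 fun w hw => ?_⟩ ⟨0, h0, by simp⟩
    · have hf := mem_closure_iff_frequently.1 hw
      have c : ContinuousAt (fun x => G 0 * exp x) w := by fun_prop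
      by_cases hA : A w
      · exact ⟨hA, tendsto_nhds_unique_of_frequently_eq (h.an hA).1.continuousAt c
          (hf.mono fun x hx => hx.2)⟩
      · obtain ⟨h1, h2⟩ := h.pole w hA
        have := tendsto_nhds_unique_of_frequently_eq (h1.continuousAt.mul (c.sub continuousAt_const))
          (tendsto_const_nhds (x := (1 : ℂ))) ((hf.and_eventually h2).mono fun x hx => by
            simp only [iv, hx.1.1, if_true, ← hx.1.2, Pi.mul_apply, Pi.sub_apply]
            exact inv_mul_cancel₀ (sub_ne_zero.2 (hx.2 hx.1.1)))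
        simp [iv, hA] at this
    · obtain ⟨r, hr, M, h1⟩ := h.loc ‖G w‖
      obtain ⟨h2, h3⟩ := h1 w hw.1 le_rfl
      have hD : ∀ x ∈ ball w r, HasDerivAt (fun x => G x * exp (-x)) 0 x := fun x hx => by
        refine ((h3.differentiableAt (isOpen_ball.mem_nhds hx)).hasDerivAt.mul
          (hasDerivAt_neg x).cexp).congr_deriv ?_
        rw [hκ x (h2 x hx).1]; ring
      refine Filter.mem_of_superset (ball_mem_nhds w hr) fun x hx => ⟨(h2 x hx).1, ?_⟩
      have := mvt (C := 0) (fun x hx => (hD x hx).differentiableAt.differentiableWithinAt)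
        (fun x hx => by rw [(hD x hx).deriv, norm_zero]) w (mem_ball_self hr) x hx
      rw [zero_mul, norm_le_zero_iff, sub_eq_zero, hw.2, mul_assoc, ← exp_add, add_neg_cancel,
        exp_zero, mul_one] at this
      rw [← this, mul_assoc, ← exp_add]; simp
  exact fun w => (this ▸ mem_univ w : w ∈ {w | A w ∧ G w = G 0 * exp w})

end Pool.Agent.H94.SL
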