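import Mathlib
import Pool.Agent.H94.SL4

set_option autoImplicit false

namespace Pool.Agent.H94.SL

open Set Filter Topology Complex Metric Bornology

structure Mer (f : ℂ → ℂ) : Prop where
  ev : ∀ z, ¬AnalyticAt ℂ f z → ∀ᶠ w in 𝓝[≠] z, AnalyticAt ℂ f w
  p0 : ∀ z, ¬AnalyticAt ℂ f z → Tendsto f (𝓝[≠] z) (cobounded ℂ)
  p1 : ∀ z, ¬AnalyticAt ℂ f z → Tendsto (deriv f) (𝓝[≠] z) (cobounded ℂ)

structure ShI (f : ℂ → ℂ) (v : ℂ) : Prop where
  l : ∀ ε > 0, ∃ δ > 0, ∃ ρ, ∀ z, ρ < ‖z‖ → AnalyticAt ℂ f z → ‖f z - v‖ < δ → ‖deriv f z - v‖ ≤ ε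
  r : ∀ ε > 0, ∃ δ > 0, ∃ ρ, ∀ z, ρ < ‖z‖ → AnalyticAt ℂ f z → ‖deriv f z - v‖ < δ → ‖f z - v‖ ≤ ε

variable {f : ℂ → ℂ} {a b : ℂ}

lemma iv_an (hm : Mer f) {h : ℂ → ℂ} (hA : ∀ z, AnalyticAt ℂ f z → AnalyticAt ℂ h z)
    (hp : ∀ z, ¬AnalyticAt ℂ f z → Tendsto h (𝓝[≠] z) (cobounded ℂ)) {s z : ℂ}
    (hz : AnalyticAt ℂ f z → h z ≠ s) : AnalyticAt ℂ (iv (AnalyticAt ℂ f) h s) z := by
  have h1 : ∀ z, AnalyticAt ℂ f z → h z ≠ s → AnalyticAt ℂ (iv (AnalyticAt ℂ f) h s) z :=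
    fun z h1 h2 => (((hA z h1).sub analyticAt_const).inv (sub_ne_zero.2 h2)).congr
      (h1.eventually_analyticAt.mono fun x hx => (if_pos hx).symm)
  by_cases h2 : AnalyticAt ℂ f z
  · exact h1 z h2 (hz h2)
  refine analyticAt_of_differentiable_on_punctured_nhds_of_continuousAt ?_ ?_
  · filter_upwards [hm.ev z h2, (hp z h2).eventually (eventually_ne_cobounded s)] with w a1 a2
      using (h1 w a1 a2).differentiableAt
  · rw [continuousAt_iff_punctured_nhds, show iv (AnalyticAt ℂ f) h s z = 0 from if_neg h2]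
    exact (tendsto_inv₀_cobounded.comp ((tendsto_sub_const_cobounded s).comp (hp z h2))).congr'
      ((hm.ev z h2).mono fun x hx => (if_pos hx).symm)

lemma stay (hm : Mer f) {z : ℂ} {r δ C : ℝ} (hC : 0 < C) (hr : C * r ≤ δ)
    (H : ∀ x ∈ ball z r, AnalyticAt ℂ f x → ‖f x - b‖ < 2 * δ → ‖deriv f x‖ ≤ C)
    (h1 : AnalyticAt ℂ f z) (h2 : ‖f z - b‖ ≤ δ) :
    ∀ x ∈ ball z r, AnalyticAt ℂ f x ∧ ‖f x - f z‖ ≤ C * ‖x - z‖ := by
  set V := {x | AnalyticAt ℂ f x ∧ ‖f x - b‖ < 2 * δ} with hV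
  have hVo : IsOpen V := isOpen_iff_mem_nhds.2 fun x hx => hx.1.eventually_analyticAt.and
    ((hx.1.continuousAt.sub continuousAt_const).norm.eventually_lt continuousAt_const hx.2)
  have main : ∀ s, 0 < s → s ≤ r → ball z s ⊆ V → ∀ y ∈ ball z s, ‖f y - f z‖ ≤ C * ‖y - z‖ :=
    fun s hs h3 h4 => mvt (fun y hy => (h4 hy).1.differentiableAt.differentiableWithinAt)
      (fun y hy => H y (ball_subset_ball h3 hy) (h4 hy).1 (h4 hy).2) z (mem_ball_self hs)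
  intro x hx
  have hr0 : 0 < r := pos_of_mem_ball hx
  have hδ : 0 < δ := lt_of_lt_of_le (by positivity) hr
  have all : ball z r ⊆ V := fun x hx => by
    by_contra hxV
    obtain ⟨x0, ⟨a1, a2⟩, a3⟩ := ((isCompact_closedBall z ‖x - z‖).diff hVo).exists_isMinOn
      ⟨x, mem_closedBall_iff_norm.2 le_rfl, hxV⟩ (f := fun y => ‖y - z‖) (by fun_prop)
    rw [mem_closedBall_iff_norm] at a1
    have a4 := mem_ball_iff_norm.1 hx
    have hs : 0 < ‖x0 - z‖ := norm_pos_iff.2 (sub_ne_zero.2 (by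
      rintro rfl; exact a2 ⟨h1, by linarith⟩))
    have a5 : ball z ‖x0 - z‖ ⊆ V := fun y hy => by
      by_contra hyV
      rw [mem_ball_iff_norm] at hy
      exact not_le.2 hy (a3 ⟨mem_closedBall_iff_norm.2 (by linarith), hyV⟩)
    have a6 : ∃ᶠ y in 𝓝[≠] x0, ‖f y - f z‖ ≤ C * ‖x0 - z‖ := by
      have : x0 ∈ closure (ball z ‖x0 - z‖) := by
        rw [closure_ball _ hs.ne']; exact mem_closedBall_iff_norm.2 le_rfl
      refine frequently_nhdsWithin_iff.2 ((mem_closure_iff_frequently.1 this).mono fun y hy => ⟨?_, ?_⟩)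
      · exact (main _ hs (by linarith) a5 y hy).trans (by gcongr; exact (mem_ball_iff_norm.1 hy).le)
      · rintro rfl; exact lt_irrefl _ (mem_ball_iff_norm.1 hy)
    have a7 : C * ‖x0 - z‖ < δ := lt_of_lt_of_le (by gcongr; linarith) hr
    by_cases hA : AnalyticAt ℂ f x0
    · have := le_of_tendsto_of_frequently ((hA.continuousAt.sub continuousAt_const).norm.tendsto.mono_left
        nhdsWithin_le_nhds) a6
      exact a2 ⟨hA, by
        linarith [norm_sub_le_norm_sub_add_norm_sub (f x0) (f z) b, show ‖f x0 - f z‖ ≤ _ from this]⟩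
    · have := tendsto_norm_atTop_iff_cobounded.2
        ((tendsto_sub_const_cobounded (f z)).comp (hm.p0 x0 hA))
      obtain ⟨y, b1, b2⟩ := (a6.and_eventually (this.eventually_gt_atTop (C * ‖x0 - z‖))).exists
      exact not_le.2 b2 b1
  exact ⟨(all hx).1, main r hr0 le_rfl all x hx⟩

lemma norm1 (hm : Mer f) (hb : ShI f b) : ∃ δ > 0, ∃ r > 0, ∃ C > 0, ∃ ρ, ∀ z, ρ < ‖z‖ →
    (AnalyticAt ℂ f z → ‖f z - b‖ ≤ δ → ‖deriv f z‖ ≤ C ∧
      ∀ x ∈ ball z r, AnalyticAt ℂ f x ∧ ‖f x - f z‖ ≤ C * ‖x - z‖) ∧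
    (¬(AnalyticAt ℂ f z ∧ ‖f z - b‖ ≤ δ) →
      DifferentiableOn ℂ (iv (AnalyticAt ℂ f) f b) (ball z (2 * (r / 2))) ∧
      (∀ x ∈ ball z (2 * (r / 2)), ‖iv (AnalyticAt ℂ f) f b x‖ ≤ 2 / δ) ∧
      ∀ x ∈ ball z r, AnalyticAt ℂ f x → δ / 2 < ‖f x - b‖) := by
  obtain ⟨δ, hδ, ρ, h1⟩ := hb.l 1 one_pos
  set C := ‖b‖ + 1 with hC
  have hC0 : 0 < C := by positivity
  set r := min 1 (δ / (4 * C)) with hr
  have hr1 : r ≤ 1 := min_le_left _ _
  have hr2 : C * r ≤ δ / 4 := by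
    have : r ≤ δ / (4 * C) := min_le_right _ _
    rw [le_div_iff₀ (by positivity)] at this; linarith
  have H : ∀ x, ρ < ‖x‖ → AnalyticAt ℂ f x → ‖f x - b‖ < 2 * (δ / 2) → ‖deriv f x‖ ≤ C :=
    fun x a1 a2 a3 => by linarith [h1 x a1 a2 (by linarith), norm_sub_norm_le (deriv f x) b]
  have st : ∀ z, ρ + 1 < ‖z‖ → AnalyticAt ℂ f z → ‖f z - b‖ ≤ δ / 2 →
      ∀ x ∈ ball z r, AnalyticAt ℂ f x ∧ ‖f x - f z‖ ≤ C * ‖x - z‖ := fun z hz =>
    stay hm hC0 (by linarith) fun x hx => H x (by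
      linarith [mem_ball_iff_norm'.1 hx, norm_sub_norm_le z x])
  refine ⟨δ / 2, by positivity, r, by positivity, C, hC0, ρ + 2, fun z hz =>
    ⟨fun a1 a2 => ⟨H z (by linarith) a1 (by linarith), st z (by linarith) a1 a2⟩, fun a1 => ?_⟩⟩
  have a2 : ∀ x ∈ ball z r, AnalyticAt ℂ f x → δ / 2 / 2 < ‖f x - b‖ := fun x hx a3 => by
    by_contra! a4
    have a5 := mem_ball_iff_norm'.1 hx
    obtain ⟨a6, a7⟩ := st x (by linarith [norm_sub_norm_le z x]) a3 (by linarith) z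
      (mem_ball_comm.1 hx)
    refine a1 ⟨a6, ?_⟩
    nlinarith [norm_sub_le_norm_sub_add_norm_sub (f z) (f x) b]
  rw [mul_div_cancel₀ _ two_ne_zero]
  refine ⟨fun x hx => (iv_an hm (fun _ h => h) hm.p0 fun a3 a4 => ?_).differentiableAt.differentiableWithinAt,
    fun x hx => ?_, a2⟩
  · have := a2 x hx a3
    rw [a4, sub_self, norm_zero] at this; linarith
  · by_cases a3 : AnalyticAt ℂ f x
    · simp only [iv, a3, if_true, norm_inv]
      rw [← inv_div]; exact inv_anti₀ (by positivity) (a2 x hx a3).le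
    · simp only [iv, a3, if_false, norm_zero]; positivity

lemma norm3 (hm : Mer f) (hb : ShI f b) (R : ℝ) : ∃ r > 0, ∃ M ρ, ∀ z, ρ < ‖z‖ → AnalyticAt ℂ f z →
    ‖f z‖ ≤ R → ∀ x ∈ ball z r, AnalyticAt ℂ f x ∧ ‖f x‖ ≤ M := by
  obtain ⟨δ, hδ, r, hr, C, hC, ρ, h⟩ := norm1 hm hb
  set T := |R| + ‖b‖ + 1 with hT
  have hT0 : 0 < T := by positivity
  refine ⟨min (r / 2) (1 / (2 * T) / (2 / δ / (r / 2))), by positivity, C * r + 3 * T, ρ,
    fun z hz a1 a2 x hx => ?_⟩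
  rw [mem_ball_iff_norm, lt_min_iff] at hx
  have b1 := le_abs_self R
  have b2 := norm_nonneg b
  have b3 := abs_nonneg R
  by_cases h1 : ‖f z - b‖ ≤ δ
  · obtain ⟨a3, a4⟩ := ((h z hz).1 a1 h1).2 x (mem_ball_iff_norm.2 (by linarith))
    refine ⟨a3, ?_⟩
    nlinarith [norm_sub_norm_le (f x) (f z)]
  · obtain ⟨a3, a4, -⟩ := (h z hz).2 fun h2 => h1 h2.2
    have a5 := lip (by positivity) a3 a4 z (mem_ball_self (by positivity)) x (mem_ball_iff_norm.2 hx.1)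
    have a6 := hx.2
    rw [lt_div_iff₀ (by positivity)] at a6
    have a7 : 1 / T ≤ ‖iv (AnalyticAt ℂ f) f b z‖ := by
      simp only [iv, a1, if_true, norm_inv, one_div]
      exact inv_anti₀ (by linarith [not_le.1 h1]) (by linarith [norm_sub_le (f z) b])
    have a8 : 1 / (2 * T) ≤ ‖iv (AnalyticAt ℂ f) f b x‖ := by
      have := norm_sub_norm_le (iv (AnalyticAt ℂ f) f b z) (iv (AnalyticAt ℂ f) f b x)
      rw [norm_sub_rev] at this
      have e : 1 / T = 2 * (1 / (2 * T)) := by field_simp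
      linarith
    have a9 : 0 < 1 / (2 * T) := by positivity
    by_cases hA : AnalyticAt ℂ f x
    · refine ⟨hA, ?_⟩
      simp only [iv, hA, if_true, norm_inv] at a8
      have b4 := inv_pos.1 (a9.trans_le a8)
      rw [one_div, inv_le_inv₀ (by positivity) b4] at a8
      nlinarith [norm_sub_norm_le (f x) b, mul_pos hC hr]
    · simp only [iv, hA, if_false, norm_zero] at a8; linarith

lemma norm4 (hm : Mer f) (hb : ShI f b) : ∃ K ρ, ∀ z, ρ < ‖z‖ → AnalyticAt ℂ f z →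
    ‖deriv f z‖ ≤ K * (1 + ‖f z - b‖ ^ 2) := by
  obtain ⟨δ, hδ, r, hr, C, hC, ρ, h⟩ := norm1 hm hb
  have hL : 0 < 2 / δ / (r / 2) := by positivity
  refine ⟨C + 2 / δ / (r / 2), ρ, fun z hz a1 => ?_⟩
  by_cases h1 : ‖f z - b‖ ≤ δ
  · nlinarith [((h z hz).1 a1 h1).1, sq_nonneg ‖f z - b‖]
  · obtain ⟨a3, a4, -⟩ := (h z hz).2 fun h2 => h1 h2.2
    have a5 := cau (by positivity) a3 a4 z (mem_ball_self (by positivity))
    have a6 : 0 < ‖f z - b‖ := hδ.trans (not_le.1 h1)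
    have a7 : deriv (iv (AnalyticAt ℂ f) f b) z = -deriv f z / (f z - b) ^ 2 :=
      (HasDerivAt.congr_of_eventuallyEq
      ((a1.differentiableAt.hasDerivAt.sub_const b).inv (norm_pos_iff.1 a6))
      (a1.eventually_analyticAt.mono fun y hy => if_pos hy)).deriv
    rw [a7, norm_div, norm_neg, norm_pow,
      div_le_iff₀ (by positivity)] at a5
    nlinarith [sq_nonneg ‖f z - b‖]

lemma hull (hm : Mer f) (hb : ShI f b) (U : Ultrafilter ℂ) (hU : ∀ ρ, ∀ᶠ z : ℂ in U, ρ < ‖z‖) :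
    ∃ (A : ℂ → Prop) (G : ℂ → ℂ), Hull A G b ∧ (∀ v, ShI f v → Sh A G v) ∧
      (∀ w, A w → (∀ᶠ z : ℂ in U, AnalyticAt ℂ f (z + w)) ∧ Tendsto (fun z => f (z + w)) U (𝓝 (G w)) ∧
        Tendsto (fun z => deriv f (z + w)) U (𝓝 (deriv G w))) ∧
      ∀ w c, (∀ᶠ z : ℂ in U, AnalyticAt ℂ f (z + w)) → Tendsto (fun z => f (z + w)) U (𝓝 c) → A w := by
  set A : ℂ → Prop := fun w => (∀ᶠ z : ℂ in U, AnalyticAt ℂ f (z + w)) ∧
    ∃ c, Tendsto (fun z => f (z + w)) U (𝓝 c) with hA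
  set G : ℂ → ℂ := fun w => limUnder U fun z => f (z + w) with hG
  have T1 : ∀ w, A w → Tendsto (fun z => f (z + w)) U (𝓝 (G w)) := fun w hw =>
    tendsto_nhds_limUnder hw.2
  have sh : ∀ ρ w, ∀ᶠ z : ℂ in U, ρ < ‖z + w‖ := fun ρ w => (hU (ρ + ‖w‖)).mono fun z hz => by
    have := norm_sub_le (z + w) w
    rw [add_sub_cancel_right] at this; linarith
  have mb : ∀ {z w x : ℂ} {r : ℝ}, x ∈ ball w r → z + x ∈ ball (z + w) r := fun h => by simpa using h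
  have L : ∀ R : ℝ, ∃ r > 0, ∃ M, ∀ w, A w → ‖G w‖ ≤ R → ((∀ x ∈ ball w r, A x ∧ ‖G x‖ ≤ M) ∧
      DifferentiableOn ℂ G (ball w r)) ∧ Tendsto (fun z => deriv f (z + w)) U (𝓝 (deriv G w)) :=
    fun R => by
      obtain ⟨r, hr, M, ρ, h⟩ := norm3 hm hb (R + 1)
      refine ⟨r / 2, by positivity, M, fun w hw hR => ?_⟩
      have e : ∀ᶠ z : ℂ in U, ∀ x ∈ ball w r, AnalyticAt ℂ f (z + x) ∧ ‖f (z + x)‖ ≤ M := by
        filter_upwards [hw.1, sh ρ w, (T1 w hw).norm.eventually (gt_mem_nhds (lt_add_one _))]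
          with z a1 a2 a3 x hx using h _ a2 a1 (by linarith) _ (mb hx)
      obtain ⟨H, h1, h2⟩ := montel U (fun z x => f (z + x)) (w := w) (r := r / 2) (M := M)
        (by positivity) (e.mono fun z hz => by
          rw [mul_div_cancel₀ _ two_ne_zero]
          exact ⟨fun x hx => ((hz x hx).1.differentiableAt.comp x
            (by fun_prop)).differentiableWithinAt, fun x hx => (hz x hx).2⟩)
      have s : ball w (r / 2) ⊆ ball w r := ball_subset_ball (by linarith)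
      have h3 : ∀ x ∈ ball w (r / 2), A x := fun x hx => ⟨e.mono fun z hz => (hz x (s hx)).1, _, (h2 x hx).1⟩
      have h4 : ∀ x ∈ ball w (r / 2), G x = H x := fun x hx => (h2 x hx).1.limUnder_eq
      refine ⟨⟨fun x hx => ⟨h3 x hx, le_of_tendsto (T1 x (h3 x hx)).norm
        (e.mono fun z hz => (hz x (s hx)).2)⟩, h1.congr h4⟩, ?_⟩
      rw [EventuallyEq.deriv_eq (f := H) (Filter.mem_of_superset (ball_mem_nhds w (by positivity)) h4)]
      simpa [deriv_comp_const_add] using (h2 w (mem_ball_self (by positivity))).2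
  have T2 : ∀ w, A w → Tendsto (fun z => deriv f (z + w)) U (𝓝 (deriv G w)) := fun w hw => by
    obtain ⟨r, -, M, h⟩ := L ‖G w‖
    exact (h w hw le_rfl).2
  obtain ⟨δ, hδ, r, hr, C, hC, ρ, h⟩ := norm1 hm hb
  have P : ∀ w, ¬A w → (AnalyticAt ℂ (iv A G b) w ∧ ∀ᶠ x in 𝓝 w, A x → G x ≠ b) ∧
      ‖deriv (iv A G b) w‖ ≤ 2 / δ / (r / 2) := fun w hw => by
    have e0 : ∀ᶠ z : ℂ in U, ¬(AnalyticAt ℂ f (z + w) ∧ ‖f (z + w) - b‖ ≤ δ) :=
      Ultrafilter.eventually_not.2 fun h1 => hw ⟨h1.mono fun z hz => hz.1,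
        ulim U _ (‖b‖ + δ) (h1.mono fun z hz => by linarith [hz.2, norm_sub_norm_le (f (z + w)) b])⟩
    have e := (e0.and (sh ρ w)).mono fun z hz => (h _ hz.2).2 hz.1
    have e' : ∀ᶠ z : ℂ in U, DifferentiableOn ℂ (fun x => iv (AnalyticAt ℂ f) f b (z + x))
        (ball w (2 * (r / 2))) ∧ ∀ x ∈ ball w (2 * (r / 2)),
          ‖iv (AnalyticAt ℂ f) f b (z + x)‖ ≤ 2 / δ :=
      e.mono fun z hz => ⟨hz.1.comp (by fun_prop) fun x hx => mb hx, fun x hx => hz.2.1 _ (mb hx)⟩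
    obtain ⟨H, h1, h2⟩ := montel U _ (by positivity) e'
    have s : ball w (r / 2) ⊆ ball w r := ball_subset_ball (by linarith)
    have h3 : ∀ x ∈ ball w (r / 2), A x → G x ≠ b := fun x hx a1 a2 => by
      have := ge_of_tendsto ((T1 x a1).sub_const b).norm
        ((e.and a1.1).mono fun z hz => (hz.1.2.2 _ (mb (s hx)) hz.2).le)
      rw [a2, sub_self, norm_zero] at this; linarith
    have h4 : ∀ x ∈ ball w (r / 2), iv A G b x = H x := fun x hx => by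
      by_cases a1 : A x
      · refine tendsto_nhds_unique (((((T1 x a1).sub_const b).inv₀
          (sub_ne_zero.2 (h3 x hx a1))).congr' (a1.1.mono fun z hz => ?_)).trans ?_) (h2 x hx).1
        · exact (if_pos hz).symm
        · rw [iv, if_pos a1]
      · rw [iv, if_neg a1]
        by_contra a2
        have a3 : ∀ᶠ z : ℂ in U, AnalyticAt ℂ f (z + x) :=
          ((h2 x hx).1.eventually_ne (Ne.symm a2)).mono fun z hz => by_contra fun a3 => hz (if_neg a3)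
        refine a1 ⟨a3, _, (((h2 x hx).1.inv₀ (Ne.symm a2)).add_const b).congr'
          (a3.mono fun z hz => ?_)⟩
        simp [iv, hz]
    have h5 : iv A G b =ᶠ[𝓝 w] H := Filter.mem_of_superset (ball_mem_nhds w (by positivity)) h4
    refine ⟨⟨(h1.analyticAt (ball_mem_nhds w (by positivity))).congr h5.symm,
      Filter.mem_of_superset (ball_mem_nhds w (by positivity)) h3⟩, ?_⟩
    rw [h5.deriv_eq]
    exact le_of_tendsto (h2 w (mem_ball_self (by positivity))).2.norm (e'.mono fun z hz =>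
      cau (by positivity) hz.1 hz.2 w (mem_ball_self (by positivity)))
  refine ⟨A, G, ⟨fun R => ?_, fun w hw => (P w hw).1, ?_⟩, fun v hv => ⟨fun ε hε => ?_, fun ε hε => ?_⟩,
    fun w hw => ⟨hw.1, T1 w hw, T2 w hw⟩, fun w c h1 h2 => ⟨h1, c, h2⟩⟩
  · obtain ⟨r, hr, M, h⟩ := L R
    exact ⟨r, hr, M, fun w h1 h2 => (h w h1 h2).1⟩
  · obtain ⟨K, ρ, h⟩ := norm4 hm hb
    refine ⟨max K (2 / δ / (r / 2)), fun w hw => ?_, fun w hw => le_max_of_le_right (P w hw).2⟩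
    refine le_trans (le_of_tendsto_of_tendsto (T2 w hw).norm
      (((((T1 w hw).sub_const b).norm.pow 2).const_add 1).const_mul K)
      (((sh ρ w).and hw.1).mono fun z hz => h _ hz.1 hz.2)) ?_
    gcongr; exact le_max_left _ _
  · obtain ⟨δ, hδ, ρ, h⟩ := hv.l ε hε
    refine ⟨δ, hδ, fun w hw h1 => le_of_tendsto ((T2 w hw).sub_const v).norm ?_⟩
    filter_upwards [sh ρ w, hw.1, ((T1 w hw).sub_const v).norm.eventually (gt_mem_nhds h1)]
      with z a1 a2 a3 using h _ a1 a2 a3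
  · obtain ⟨δ, hδ, ρ, h⟩ := hv.r ε hε
    refine ⟨δ, hδ, fun w hw h1 => le_of_tendsto ((T1 w hw).sub_const v).norm ?_⟩
    filter_upwards [sh ρ w, hw.1, ((T2 w hw).sub_const v).norm.eventually (gt_mem_nhds h1)]
      with z a1 a2 a3 using h _ a1 a2 a3

lemma key (hm : Mer f) (ha : ShI f a) (hb : ShI f b) (hb0 : b ≠ 0) (hab : a ≠ b) :
    ∃ η > 0, ∀ (U : Ultrafilter ℂ), (∀ ρ, ∀ᶠ z : ℂ in U, ρ < ‖z‖) → ∀ c, (∀ᶠ z : ℂ in U, AnalyticAt ℂ f z) →
      Tendsto f U (𝓝 c) → ‖c - b‖ < η → Tendsto (deriv f) U (𝓝 c) ∧ ∀ w,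
        (∀ᶠ z : ℂ in U, AnalyticAt ℂ f (z + w)) ∧ Tendsto (fun z => f (z + w)) U (𝓝 (c * exp w)) := by
  have hbn := norm_pos_iff.2 hb0
  obtain ⟨η, hη, ρ, h⟩ := hb.l (‖b‖ / 2) (by positivity)
  refine ⟨η, hη, fun U hU c h1 h2 h3 => ?_⟩
  obtain ⟨A, G, a1, a2, a3, a4⟩ := hull hm hb U hU
  have A0 : A 0 := a4 0 c (by simpa using h1) (by simpa using h2)
  obtain ⟨-, b1, b2⟩ := a3 0 A0
  simp only [add_zero] at b1 b2
  have e : G 0 = c := tendsto_nhds_unique b1 h2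
  have hd : deriv G 0 ≠ 0 := fun h0 => by
    have : ‖deriv G 0 - b‖ ≤ ‖b‖ / 2 := by
      refine le_of_tendsto (b2.sub_const b).norm ?_
      filter_upwards [hU ρ, h1, (h2.sub_const b).norm.eventually (gt_mem_nhds h3)]
        with z a1 a2 a3 using h _ a1 a2 a3
    rw [h0, zero_sub, norm_neg] at this; linarith
  have hc := cls a1 (a2 a ha) (a2 b hb) hb0 hab A0 hd
  rw [e] at hc
  refine ⟨?_, fun w => ⟨(a3 w (hc w).1).1, (hc w).2 ▸ (a3 w (hc w).1).2.1⟩⟩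
  have : deriv G 0 = c := by
    rw [show G = fun w => c * exp w from funext fun w => (hc w).2]
    simpa using ((hasDerivAt_exp 0).const_mul c).deriv
  exact this ▸ b2

end Pool.Agent.H94.SL
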