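import Mathlib
import Pool.Agent.H94.SL5

set_option autoImplicit false

namespace Pool.Agent.H94.SL

open Set Filter Topology Complex Metric Bornology

variable {f : ℂ → ℂ} {a b : ℂ}

lemma uf (p : ℂ → Prop) (h : ∀ U : Ultrafilter ℂ, (∀ ρ, ∀ᶠ z : ℂ in U, ρ < ‖z‖) → ∀ᶠ z : ℂ in U, p z) :
    ∃ ρ, ∀ z, ρ < ‖z‖ → p z := by
  have : {z | p z} ∈ comap norm (atTop : Filter ℝ) := mem_iff_ultrafilter.2 fun U hU =>
    h U fun ρ => hU (preimage_mem_comap (Ioi_mem_atTop ρ))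
  obtain ⟨t, ht, h1⟩ := this
  obtain ⟨ρ, h2⟩ := mem_atTop_sets.1 ht
  exact ⟨ρ, fun z hz => h1 (h2 _ hz.le)⟩

lemma chain {η ρ0 : ℝ} (st : ∀ σ : ℤ, ∃ ρ, ∀ z, ρ < ‖z‖ → AnalyticAt ℂ f z → ‖f z - b‖ < η →
      ∃ z', ‖z' - z - σ * (2 * Real.pi * I)‖ ≤ 1 ∧ AnalyticAt ℂ f z' ∧ ‖f z' - b‖ < η)
    (ex : ∀ ρ, ∃ z, ρ < ‖z‖ ∧ AnalyticAt ℂ f z ∧ ‖f z - b‖ < η) : ∃ α : ℕ → ℂ,
    (∀ k l : ℕ, 2 * |(k : ℝ) - l| ≤ ‖α k - α l‖) ∧ (∀ k : ℕ, ‖α k - α 0‖ ≤ 8 * k) ∧
      ∀ k, ρ0 < ‖α k‖ ∧ AnalyticAt ℂ f (α k) ∧ ‖f (α k) - b‖ < η := by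
  choose ρ hρ using st
  obtain ⟨z0, h0, h1⟩ := ex (2 * (|ρ0| + |ρ 1| + |ρ (-1)|))
  obtain ⟨σ, hσ, hs⟩ : ∃ σ : ℤ, (σ = 1 ∨ σ = -1) ∧ 0 ≤ σ * z0.im := by
    rcases le_total 0 z0.im with h | h
    · exact ⟨1, Or.inl rfl, by simpa using h⟩
    · exact ⟨-1, Or.inr rfl, by simpa using h⟩
  choose! nx hnx using hρ σ
  set d : ℂ := σ * (2 * Real.pi * I) with hd
  have hpi := Real.pi_gt_three
  have hpi2 := Real.pi_lt_d2
  have hσ2 : (σ : ℝ) ^ 2 = 1 := by rcases hσ with rfl | rfl <;> simp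
  have nd : ‖d‖ = 2 * Real.pi := by
    rcases hσ with rfl | rfl <;> simp [hd, abs_of_pos Real.pi_pos]
  have big : ∀ (k : ℕ) (z : ℂ), ‖z - z0 - k * d‖ ≤ k → ρ0 < ‖z‖ ∧ ρ σ < ‖z‖ := fun k z hz => by
    have hk : (0 : ℝ) ≤ k := by positivity
    have a1 : ‖z0‖ / 2 + k ≤ ‖z0 + k * d‖ := by
      refine le_of_sq_le_sq (le_of_le_of_eq ?_ (normSq_eq_norm_sq _)) (norm_nonneg _)
      have e : normSq (z0 + k * d) = ‖z0‖ ^ 2 + 4 * Real.pi * k * (σ * z0.im) +
          4 * Real.pi ^ 2 * k ^ 2 * (σ : ℝ) ^ 2 := by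
        rw [← normSq_eq_norm_sq]; simp [normSq_apply, hd]; ring
      rw [e, hσ2]
      have a2 : 0 ≤ 4 * Real.pi * k * (σ * z0.im) := by positivity
      nlinarith [sq_nonneg (‖z0‖ / 2 - k), mul_nonneg (sq_nonneg (k : ℝ)) (by nlinarith : 0 ≤ Real.pi ^ 2 - 1)]
    have a2 := norm_sub_norm_le (z0 + k * d) z
    rw [norm_sub_rev, ← sub_sub] at a2
    have b1 := le_abs_self ρ0
    have b2 : ρ σ ≤ |ρ 1| + |ρ (-1)| := by
      rcases hσ with rfl | rfl <;> linarith [le_abs_self (ρ 1), le_abs_self (ρ (-1)), abs_nonneg (ρ 1),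
        abs_nonneg (ρ (-1))]
    constructor <;> linarith [abs_nonneg ρ0, abs_nonneg (ρ 1), abs_nonneg (ρ (-1))]
  set α : ℕ → ℂ := fun k => nx^[k] z0 with hα
  have as : ∀ k, α (k + 1) = nx (α k) := fun k => Function.iterate_succ_apply' _ _ _
  have tri : ∀ (x y z : ℂ) (k : ℕ), ‖y - x - k * d‖ ≤ k → ‖z - y - d‖ ≤ 1 →
      ‖z - x - (k + 1 : ℕ) * d‖ ≤ (k + 1 : ℕ) := fun x y z k h1 h2 => by
    have := norm_add_le (y - x - k * d) (z - y - d)
    push_cast
    rw [show z - x - (k + 1) * d = y - x - k * d + (z - y - d) by ring]; linarith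
  have ind : ∀ k : ℕ, ‖α k - z0 - k * d‖ ≤ k ∧ AnalyticAt ℂ f (α k) ∧ ‖f (α k) - b‖ < η := fun k => by
    induction k with
    | zero => exact ⟨by simp [hα], h1⟩
    | succ k ih =>
      obtain ⟨c1, c2⟩ := hnx _ (big k _ ih.1).2 ih.2.1 ih.2.2
      rw [as]; exact ⟨tri _ _ _ _ ih.1 c1, c2⟩
  have ind2 : ∀ l n : ℕ, ‖α (l + n) - α l - n * d‖ ≤ n := fun l n => by
    induction n with
    | zero => simp
    | succ n ih =>
      rw [← add_assoc, as]
      exact tri _ _ _ _ ih (hnx _ (big _ _ (ind _).1).2 (ind _).2.1 (ind _).2.2).1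
  have sep : ∀ l n : ℕ, 2 * n ≤ ‖α (l + n) - α l‖ ∧ ‖α (l + n) - α l‖ ≤ 8 * n := fun l n => by
    have a1 := ind2 l n
    have a2 := abs_le.1 (abs_norm_sub_norm_le (α (l + n) - α l) (n * d))
    rw [norm_mul, nd, Complex.norm_natCast] at a2
    have hk : (0 : ℝ) ≤ n := by positivity
    constructor <;> nlinarith
  refine ⟨α, fun k l => ?_, fun k => by simpa using (sep 0 k).2, fun k => ⟨(big k _ (ind k).1).1, (ind k).2⟩⟩
  rcases le_total k l with h | h
  · obtain ⟨n, rfl⟩ := Nat.exists_eq_add_of_le h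
    rw [norm_sub_rev]; simpa using (sep k n).1
  · obtain ⟨n, rfl⟩ := Nat.exists_eq_add_of_le h
    simpa using (sep l n).1

lemma theta (hm : Mer f) (ha : ShI f a) (hb : ShI f b) (hb0 : b ≠ 0) (hab : a ≠ b)
    (ex : ∀ η > 0, ∀ ρ, ∃ z, ρ < ‖z‖ ∧ AnalyticAt ℂ f z ∧ ‖f z - b‖ < η) :
    ∃ η1 > 0, ∀ η > 0, η ≤ η1 → ∀ ε > 0, ∃ ρ, ∀ z, ρ < ‖z‖ → AnalyticAt ℂ f z → η < ‖f z - b‖ →
      ‖(f z - b)⁻¹ - (deriv f z - b)⁻¹‖ ≤ ε := by
  obtain ⟨η0, hη0, hk⟩ := key hm ha hb hb0 hab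
  obtain ⟨δ, hδ, r, hr, C, hC, ρ1, hn⟩ := norm1 hm hb
  have hbn := norm_pos_iff.2 hb0
  refine ⟨min (min (η0 / 2) δ) (‖b‖ / 3), by positivity, fun η hη hη1 ε hε => ?_⟩
  simp only [le_min_iff] at hη1
  have lim : ∀ U : Ultrafilter ℂ, (∀ᶠ z : ℂ in U, ‖f z - b‖ ≤ η) →
      ∃ c, Tendsto f U (𝓝 c) ∧ ‖c - b‖ ≤ η := fun U h => by
    obtain ⟨c, hc⟩ := ulim U f (‖b‖ + η) (h.mono fun z hz => by linarith [norm_sub_norm_le (f z) b])
    exact ⟨c, hc, le_of_tendsto (hc.sub_const b).norm h⟩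
  obtain ⟨α, a1, a2, a3⟩ := chain (f := f) (b := b) (η := η / 2) (ρ0 := ρ1) (fun σ => uf _ fun U hU => by
    by_cases h : ∀ᶠ z : ℂ in U, AnalyticAt ℂ f z ∧ ‖f z - b‖ < η / 2
    · obtain ⟨c, h1, h2⟩ := lim U (h.mono fun z hz => by linarith [hz.2])
      have h3 : 2 * ‖b‖ / 3 ≤ ‖c‖ := by linarith [norm_sub_norm_le b c, norm_sub_rev b c]
      have hc : c ≠ 0 := norm_pos_iff.1 (by linarith)
      obtain ⟨h4, h5⟩ := (hk U hU c (h.mono fun z hz => hz.1) h1 (by linarith)).2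
        (σ * (2 * Real.pi * I) + log (b / c))
      rw [exp_add, exp_int_mul_two_pi_mul_I, exp_log (div_ne_zero hb0 hc), one_mul,
        mul_div_cancel₀ _ hc] at h5
      have h6 : ‖log (b / c)‖ ≤ 1 := by
        have h7 : ‖(b - c) / c‖ ≤ 1 / 2 := by
          rw [norm_div, div_le_iff₀ (by linarith), norm_sub_rev]; linarith
        have := norm_log_one_add_half_le_self h7
        rw [show 1 + (b - c) / c = b / c by field_simp; ring] at this; linarith
      filter_upwards [h4, (h5.sub_const b).norm.eventually (gt_mem_nhds (a := η / 2) (by simpa using hη))]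
        with z b1 b2 _ _ using ⟨_, by simpa using h6, b1, b2⟩
    · exact (Ultrafilter.eventually_not.2 h).mono fun z hz b1 b2 => absurd ⟨b1, b2⟩ hz)
    (ex _ (by positivity))
  set W := {z | AnalyticAt ℂ f z → η < ‖f z - b‖} with hW
  have hWo : IsOpen W := isOpen_iff_mem_nhds.2 fun z hz => by
    by_cases hA : AnalyticAt ℂ f z
    · exact (continuousAt_const.eventually_lt (hA.continuousAt.sub continuousAt_const).norm
        (hz hA)).mono fun x hx _ => hx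
    · rw [← nhdsNE_sup_pure, mem_sup]
      exact ⟨((tendsto_norm_atTop_iff_cobounded.2 ((tendsto_sub_const_cobounded b).comp
        (hm.p0 z hA))).eventually_gt_atTop η).mono fun x hx _ => hx, hz⟩
  have hcl : ∀ z ∈ closure W, AnalyticAt ℂ f z → η ≤ ‖f z - b‖ := fun z hz hA =>
    ge_of_tendsto_of_frequently (hA.continuousAt.sub continuousAt_const).norm.tendsto
      (((mem_closure_iff_frequently.1 hz).and_eventually hA.eventually_analyticAt).mono
        fun x hx => (hx.1 hx.2).le)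
  obtain ⟨δ2, hδ2, ρ2, h2⟩ := hb.r (η / 2) (by positivity)
  have h3 : ∀ z ∈ closure W, ρ2 < ‖z‖ → AnalyticAt ℂ f z → δ2 ≤ ‖deriv f z - b‖ := fun z b1 b2 b3 =>
    not_lt.1 fun b4 => by linarith [h2 z b2 b3 b4, hcl z b1 b3]
  obtain ⟨ρ, hρ⟩ := barrier hWo (ρ := ρ2) (r0 := min (min r 1) (η / (2 * C))) (M := η⁻¹ + δ2⁻¹)
    (Θ := fun z => iv (AnalyticAt ℂ f) f b z - iv (AnalyticAt ℂ f) (deriv f) b z) α
    (fun z b1 b2 => ((iv_an hm (fun _ h => h) hm.p0 fun b3 => sub_ne_zero.1 (norm_pos_iff.1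
      (hη.trans_le (hcl z b1 b3)))).sub (iv_an hm (fun _ h => h.deriv) hm.p1 fun b3 =>
      sub_ne_zero.1 (norm_pos_iff.1 (hδ2.trans_le (h3 z b1 b2 b3))))).differentiableAt)
    (fun ε hε => by
      obtain ⟨ρ, h⟩ := uf (fun z => z ∈ closure W → z ∉ W → ‖iv (AnalyticAt ℂ f) f b z -
        iv (AnalyticAt ℂ f) (deriv f) b z‖ ≤ ε) fun U hU => by
          by_cases h : ∀ᶠ z : ℂ in U, z ∈ closure W ∧ z ∉ W
          · have h' : ∀ᶠ z : ℂ in U, AnalyticAt ℂ f z ∧ ‖f z - b‖ ≤ η := h.mono fun z hz => by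
              simpa [hW] using hz.2
            obtain ⟨c, h1, h2⟩ := lim U (h'.mono fun z hz => hz.2)
            have h4 : η ≤ ‖c - b‖ := ge_of_tendsto (h1.sub_const b).norm
              ((h.and h').mono fun z hz => hcl z hz.1.1 hz.2.1)
            have h5 : c - b ≠ 0 := norm_pos_iff.1 (hη.trans_le h4)
            have h6 := (hk U hU c (h'.mono fun z hz => hz.1) h1 (by linarith)).1
            have h7 := (((h1.sub_const b).inv₀ h5).sub ((h6.sub_const b).inv₀ h5)).norm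
            filter_upwards [h', h7.eventually (gt_mem_nhds (a := ε) (by simpa using hε))]
              with z b1 b2 _ _
            simpa [iv, b1.1] using b2.le
          · exact (Ultrafilter.eventually_not.2 h).mono fun z hz b1 b2 => absurd ⟨b1, b2⟩ hz
      exact ⟨ρ, fun z b1 b2 b3 => h z b3 b1 b2⟩)
    a1 a2 (by positivity) ((min_le_left _ _).trans (min_le_right _ _))
    (fun z hz k => not_lt.1 fun b1 => by
      simp only [lt_min_iff] at b1
      obtain ⟨c1, c2, c3⟩ := a3 k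
      obtain ⟨c4, c5⟩ := ((hn _ c1).1 c2 (by linarith)).2 z (mem_ball_iff_norm.2 b1.1.1)
      have c6 := b1.2
      rw [lt_div_iff₀ (by positivity)] at c6
      linarith [hcl z hz c4, norm_sub_le_norm_sub_add_norm_sub (f z) (f (α k)) b])
    (by positivity) ⟨ρ2, fun z b1 b2 => by
      by_cases hA : AnalyticAt ℂ f z
      · refine (norm_sub_le _ _).trans ?_
        simp only [iv, hA, if_true, norm_inv]
        exact add_le_add (inv_anti₀ hη (hcl z b1 hA)) (inv_anti₀ hδ2 (h3 z b1 b2 hA))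
      · simp only [iv, hA, if_false, sub_self, norm_zero]; positivity⟩ ε hε
  exact ⟨ρ, fun z b1 b2 b3 => by simpa [iv, b2] using hρ z (subset_closure fun _ => b3) b1⟩

open Polynomial in
lemma polyL (n : ℕ) : ∀ g : ℂ → ℂ, Differentiable ℂ g →
    (∃ C ρ, ∀ z, ρ < ‖z‖ → ‖g z‖ ≤ C * ‖z‖ ^ n) → ∃ p : ℂ[X], ∀ z, g z = p.eval z := by
  induction n with
  | zero =>
    rintro g hg ⟨K, ρ, h⟩
    obtain ⟨M, hM⟩ := (isCompact_closedBall (0 : ℂ) ρ).exists_bound_of_continuousOn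
      hg.continuous.continuousOn
    obtain ⟨c, hc⟩ := hg.exists_const_forall_eq_of_bounded (isBounded_iff_forall_norm_le.2
      ⟨max K M, by
        rintro _ ⟨z, rfl⟩
        rcases lt_or_ge ρ ‖z‖ with h1 | h1
        · exact le_max_of_le_left (by simpa using h z h1)
        · exact le_max_of_le_right (hM z (mem_closedBall_zero_iff.2 h1))⟩)
    exact ⟨C c, by simpa using hc⟩
  | succ n ih =>
    rintro g hg ⟨K, ρ, h⟩
    have e : ∀ z, g z = g 0 + z * dslope g 0 z := fun z => by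
      have := sub_smul_dslope g 0 z
      rw [sub_zero, smul_eq_mul] at this; rw [this]; ring
    obtain ⟨p, hp⟩ := ih (dslope g 0) (differentiableOn_univ.1
      ((differentiableOn_dslope univ_mem).2 hg.differentiableOn)) ⟨K + ‖g 0‖, max ρ 1, fun z hz => by
        rw [max_lt_iff] at hz
        have h1 := h z hz.1
        have h2 := norm_sub_le (g z) (g 0)
        rw [show g z - g 0 = z * dslope g 0 z by rw [e z]; ring, norm_mul] at h2
        have h3 : ‖g 0‖ * 1 ≤ ‖g 0‖ * ‖z‖ ^ (n + 1) := by gcongr; exact one_le_pow₀ hz.2.le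
        refine le_of_mul_le_mul_left ?_ (zero_lt_one.trans hz.2)
        rw [pow_succ] at h1 h3; linarith⟩
    exact ⟨C (g 0) + X * p, fun z => by rw [e z, hp]; simp⟩

open Polynomial in
lemma near_ex (hf : MeromorphicOn f univ) (hm : Mer f)
    (ht : ¬∃ P Q : ℂ[X], Q ≠ 0 ∧ ∀ z, Q.eval z ≠ 0 → f z = P.eval z / Q.eval z) :
    ∀ η > 0, ∀ ρ, ∃ z, ρ < ‖z‖ ∧ AnalyticAt ℂ f z ∧ ‖f z - b‖ < η := fun η hη ρ => by
  classical
  by_contra! hc
  set φ := iv (AnalyticAt ℂ f) f b with hφ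
  have m1 : MeromorphicOn φ univ := fun z _ =>
    ((hf z trivial).sub (MeromorphicAt.const b z)).inv.congr
      ((hf z trivial).eventually_analyticAt.mono fun x hx => (if_pos hx).symm)
  have hne : ∀ z, ρ < ‖z‖ → AnalyticAt ℂ f z → f z ≠ b := fun z h1 h2 =>
    sub_ne_zero.1 (norm_pos_iff.1 (hη.trans_le (hc z h1 h2)))
  have fin := (isCompact_closedBall (0 : ℂ) ρ).finite_sdiff_of_mem_codiscreteWithin
    (codiscreteWithin_mono (subset_univ _) m1.analyticAt_mem_codiscreteWithin)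
  choose n hn using fun z => m1 z trivial
  set S := fin.toFinset
  set q : ℂ[X] := ∏ s ∈ S, (X - C s) ^ n s with hq
  have eq : ∀ z, q.eval z = ∏ s ∈ S, (z - s) ^ n s := fun z => by simp [hq, eval_prod]
  obtain ⟨p, hp⟩ := polyL (∑ s ∈ S, n s) (fun z => q.eval z * φ z) (fun z => by
      by_cases hz : z ∈ S
      · have : (fun z => q.eval z * φ z) = fun x => (∏ s ∈ S.erase z, (x - s) ^ n s) *
            ((x - z) ^ n z • φ x) := by
          ext x; rw [eq, ← Finset.mul_prod_erase _ _ hz, smul_eq_mul]; ring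
        rw [this]
        exact (DifferentiableAt.fun_finsetProd fun j _ => by fun_prop).mul (hn z).differentiableAt
      · refine q.differentiableAt.mul (AnalyticAt.differentiableAt ?_)
        by_cases h1 : ρ < ‖z‖
        · exact iv_an hm (fun _ h => h) hm.p0 (hne z h1)
        · by_contra h2
          exact hz (fin.mem_toFinset.2 ⟨mem_closedBall_zero_iff.2 (not_lt.1 h1), h2⟩))
    ⟨2 ^ (∑ s ∈ S, n s) * η⁻¹, ρ, fun z hz => by
      have h1 : ‖q.eval z‖ ≤ (2 * ‖z‖) ^ ∑ s ∈ S, n s := by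
        rw [eq, norm_prod, ← Finset.prod_pow_eq_pow_sum]
        refine Finset.prod_le_prod (fun _ _ => norm_nonneg _) fun s hs => ?_
        rw [norm_pow]
        gcongr
        linarith [norm_sub_le z s, mem_closedBall_zero_iff.1 (fin.mem_toFinset.1 hs).1]
      have h2 : ‖φ z‖ ≤ η⁻¹ := by
        by_cases hA : AnalyticAt ℂ f z
        · simp only [hφ, iv, hA, if_true, norm_inv]; exact inv_anti₀ hη (hc z hz hA)
        · simp only [hφ, iv, hA, if_false, norm_zero]; positivity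
      rw [norm_mul, mul_right_comm, ← mul_pow]; gcongr⟩
  refine ht ⟨C b * p + q, p, fun h0 => ?_, fun z hz => ?_⟩
  · obtain ⟨z, h1, h2⟩ : ∃ z, ρ < ‖z‖ ∧ AnalyticAt ℂ f z := by
      have h3 : ρ < ‖((|ρ| + 1 : ℝ) : ℂ)‖ := by
        rw [norm_real, Real.norm_of_nonneg (by positivity)]; linarith [le_abs_self ρ]
      exact (((continuousAt_const.eventually_lt continuous_norm.continuousAt h3).filter_mono
        nhdsWithin_le_nhds).and (hf _ trivial).eventually_analyticAt).exists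
    have := hp z
    rw [h0, eval_zero, eq, mul_eq_zero, Finset.prod_eq_zero_iff] at this
    rcases this with ⟨s, hs, h3⟩ | h3
    · rw [sub_eq_zero.1 (pow_eq_zero_iff'.1 h3).1] at h1
      exact not_le.2 h1 (mem_closedBall_zero_iff.1 (fin.mem_toFinset.1 hs).1)
    · simp only [hφ, iv, h2, if_true, inv_eq_zero, sub_eq_zero] at h3
      exact hne z h1 h2 h3
  · have h1 := hp z
    have h2 := right_ne_zero_of_mul (h1 ▸ hz)
    by_cases hA : AnalyticAt ℂ f z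
    · simp only [hφ, iv, hA, if_true, ne_eq, inv_eq_zero] at h1 h2
      rw [eq_div_iff hz, eval_add, eval_mul, eval_C, ← h1]
      field_simp; ring
    · simp [hφ, iv, hA] at h2

end Pool.Agent.H94.SL
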