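import Mathlib
import Pool.Agent.H94.SL6

set_option autoImplicit false

namespace Pool.Agent.H94.SL

open Set Filter Topology Complex Metric Bornology OnePoint

variable {f : ℂ → ℂ} {a b : ℂ}

lemma mer (hf : MeromorphicNFOn f univ) : Mer f := by
  have h : ∀ z, ¬AnalyticAt ℂ f z → MeromorphicAt f z ∧ meromorphicOrderAt f z < 0 := fun z hz =>
    let t := (meromorphicNFAt_iff_analyticAt_or.1 (hf (mem_univ z))).resolve_left hz
    ⟨t.1, t.2.1⟩
  refine ⟨fun z hz => (h z hz).1.eventually_analyticAt,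
    fun z hz => tendsto_cobounded_of_meromorphicOrderAt_neg (h z hz).2, fun z hz => ?_⟩
  obtain ⟨n, hn⟩ := WithTop.ne_top_iff_exists.1 (h z hz).2.ne_top
  have h0 : n < 0 := by have := (h z hz).2; rw [← hn] at this; exact_mod_cast this
  refine tendsto_cobounded_of_meromorphicOrderAt_neg ?_
  rw [meromorphicOrderAt_deriv_eq_sub_one (by exact_mod_cast h0.ne) hn.symm]
  exact_mod_cast (by omega : n - 1 < 0)

lemma an_iff (hm : Mer f) (z : ℂ) : AnalyticAt ℂ (deriv f) z ↔ AnalyticAt ℂ f z := by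
  refine ⟨fun h => by_contra fun h2 => ?_, fun h => h.deriv⟩
  exact not_tendsto_atTop_of_tendsto_nhds
    (h.continuousAt.norm.tendsto.mono_left (nhdsWithin_le_nhds (s := {z}ᶜ)))
    (tendsto_norm_atTop_iff_cobounded.2 (hm.p1 z h2))

lemma sym (hm : Mer f) (ha : ShI f a) (hb : ShI f b) (hb0 : b ≠ 0) (hab : a ≠ b)
    (ex : ∀ η > 0, ∀ ρ, ∃ z, ρ < ‖z‖ ∧ AnalyticAt ℂ f z ∧ ‖f z - b‖ < η) :
    ∀ η > 0, ∀ ε > 0, ∃ ρ, ∀ z, ρ < ‖z‖ → AnalyticAt ℂ f z →
      (η < ‖f z - b‖ ∨ η < ‖deriv f z - b‖) → f z ≠ b ∧ deriv f z ≠ b ∧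
      ‖(f z - b)⁻¹ - (deriv f z - b)⁻¹‖ ≤ ε := fun η hη ε hε => by
  obtain ⟨η1, h1, ht⟩ := theta hm ha hb hb0 hab ex
  obtain ⟨δ1, d1, ρ1, e1⟩ := hb.l η hη
  obtain ⟨δ2, d2, ρ2, e2⟩ := hb.r η hη
  have hp : 0 < min η1 (min η (δ1 / 2)) := by positivity
  obtain ⟨ρ3, e3⟩ := ht _ hp (min_le_left _ _) ε hε
  refine ⟨max ρ1 (max ρ2 ρ3), fun z hz hA h => ?_⟩
  simp only [max_lt_iff] at hz
  have k : min η1 (min η (δ1 / 2)) < ‖f z - b‖ := by
    rcases h with h | h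
    · exact ((min_le_right _ _).trans (min_le_left _ _)).trans_lt h
    · have : δ1 ≤ ‖f z - b‖ := not_lt.1 fun h2 => not_le.2 h (e1 z hz.1 hA h2)
      exact ((min_le_right _ _).trans (min_le_right _ _)).trans_lt (by linarith)
  refine ⟨fun e => ?_, fun e => ?_, e3 z hz.2.2 hA k⟩
  · rw [e, sub_self, norm_zero] at k; exact lt_asymm k hp
  · rcases h with h | h
    · exact not_le.2 h (e2 z hz.2.1 hA (by rw [e, sub_self, norm_zero]; exact d2))
    · rw [e, sub_self, norm_zero] at h; exact lt_asymm h hη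

open Classical in
lemma tend_coe (A : ℕ → Prop) (u : ℕ → ℂ) (v : ℂ) :
    Tendsto (fun n => if A n then (u n : OnePoint ℂ) else ∞) atTop (𝓝 ↑v) ↔
      (∀ᶠ n in atTop, A n) ∧ Tendsto u atTop (𝓝 v) := by
  have k : (∀ᶠ n in atTop, A n) → ((fun n => if A n then (u n : OnePoint ℂ) else ∞) =ᶠ[atTop]
      (↑) ∘ u) := fun h => h.mono fun n hn => if_pos hn
  constructor
  · intro h
    have h1 : ∀ᶠ n in atTop, A n :=
      (h.eventually (isOpen_range_coe.mem_nhds (mem_range_self v))).mono fun n hn => by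
        by_contra h2
        simp only [h2, if_false] at hn
        exact infty_notMem_range_coe hn
    exact ⟨h1, isOpenEmbedding_coe.isInducing.tendsto_nhds_iff.2 (h.congr' (k h1))⟩
  · exact fun h => (isOpenEmbedding_coe.isInducing.tendsto_nhds_iff.1 h.2).congr' (k h.1).symm

open Classical in
lemma tend_inf (A : ℕ → Prop) (u : ℕ → ℂ) :
    Tendsto (fun n => if A n then (u n : OnePoint ℂ) else ∞) atTop (𝓝 ∞) ↔
      ∀ R, ∀ᶠ n in atTop, A n → R < ‖u n‖ := by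
  rw [hasBasis_nhds_infty.tendsto_right_iff]
  constructor
  · intro h R
    refine (h (closedBall 0 R) ⟨isClosed_closedBall, isCompact_closedBall _ _⟩).mono fun n hn hA => ?_
    simpa [hA] using hn
  · rintro h s ⟨_, hs⟩
    obtain ⟨R, hR⟩ := hs.isBounded.subset_closedBall 0
    refine (h R).mono fun n hn => ?_
    by_cases hA : A n
    · simp only [hA, if_true]
      exact Or.inl ⟨_, fun h2 => not_le.2 (hn hA) (mem_closedBall_zero_iff.1 (hR h2)), rfl⟩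
    · simp [hA]

open Classical in
lemma tr (A : ℕ → Prop) (u w : ℕ → ℂ)
    (T : ∀ η > 0, ∀ ε > 0, ∀ᶠ n in atTop, A n → η < ‖u n - b‖ →
      u n ≠ b ∧ w n ≠ b ∧ ‖(u n - b)⁻¹ - (w n - b)⁻¹‖ ≤ ε) (c : OnePoint ℂ) (hc : c ≠ ↑b)
    (h : Tendsto (fun n => if A n then (u n : OnePoint ℂ) else ∞) atTop (𝓝 c)) :
    Tendsto (fun n => if A n then (w n : OnePoint ℂ) else ∞) atTop (𝓝 c) := by
  induction c using OnePoint.rec with
  | infty =>
    rw [tend_inf] at h ⊢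
    intro R
    have hR : 0 < |R| + ‖b‖ + 1 := by positivity
    filter_upwards [T 1 one_pos (3 * (|R| + ‖b‖ + 1))⁻¹ (by positivity),
      h (3 * (|R| + ‖b‖ + 1) + ‖b‖)] with n h1 h2 hA
    have h3 : 3 * (|R| + ‖b‖ + 1) ≤ ‖u n - b‖ := by linarith [h2 hA, norm_sub_norm_le (u n) b]
    obtain ⟨-, h4, h5⟩ := h1 hA (by linarith [abs_nonneg R, norm_nonneg b])
    have h6 : ‖(u n - b)⁻¹‖ ≤ (3 * (|R| + ‖b‖ + 1))⁻¹ := by
      rw [norm_inv]; exact inv_anti₀ (by positivity) h3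
    have h7 : ‖w n - b‖⁻¹ ≤ (|R| + ‖b‖ + 1)⁻¹ := by
      have := norm_sub_norm_le (w n - b)⁻¹ (u n - b)⁻¹
      rw [norm_sub_rev, norm_inv] at this
      have e : (|R| + ‖b‖ + 1)⁻¹ = 3 * (3 * (|R| + ‖b‖ + 1))⁻¹ := by field_simp
      have : 0 < (3 * (|R| + ‖b‖ + 1))⁻¹ := by positivity
      linarith
    rw [inv_le_inv₀ (norm_pos_iff.2 (sub_ne_zero.2 h4)) hR] at h7
    linarith [norm_sub_le (w n) b, le_abs_self R]
  | coe v =>
    rw [tend_coe] at h ⊢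
    have hv : v - b ≠ 0 := fun e => hc (by rw [sub_eq_zero.1 e])
    have hp := norm_pos_iff.2 hv
    have h1 : ∀ᶠ n in atTop, ‖v - b‖ / 2 < ‖u n - b‖ :=
      tendsto_const_nhds.eventually_lt (h.2.sub_const b).norm (half_lt_self hp)
    have h2 : Tendsto (fun n => (u n - b)⁻¹ - (w n - b)⁻¹) atTop (𝓝 0) := by
      refine Metric.nhds_basis_closedBall.tendsto_right_iff.2 fun ε hε => ?_
      filter_upwards [T _ (half_pos hp) ε hε, h1, h.1] with n k1 k2 k3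
      exact mem_closedBall_zero_iff.2 (k1 k3 k2).2.2
    have h3 := (((((h.2.sub_const b).inv₀ hv).sub h2).inv₀
      (by rw [sub_zero]; exact inv_ne_zero hv)).add_const b)
    refine ⟨h.1, ?_⟩
    simpa using h3

lemma seq_ed (A : ℂ → Prop) (u w : ℂ → ℂ) (v : ℂ)
    (h : ∀ z : ℕ → ℂ, Tendsto (fun n => ‖z n‖) atTop atTop → (∀ n, A (z n)) →
      Tendsto (fun n => u (z n)) atTop (𝓝 v) → Tendsto (fun n => w (z n)) atTop (𝓝 v)) :
    ∀ ε > 0, ∃ δ > 0, ∃ ρ, ∀ z, ρ < ‖z‖ → A z → ‖u z - v‖ < δ → ‖w z - v‖ ≤ ε := fun ε hε => by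
  by_contra! hc
  choose z h1 h2 h3 h4 using fun n : ℕ => hc (1 / ((n : ℝ) + 1)) Nat.one_div_pos_of_nat n
  have := h z (tendsto_atTop_mono (fun n => (h1 n).le) tendsto_natCast_atTop_atTop) h2
    (tendsto_iff_norm_sub_tendsto_zero.2 (squeeze_zero (fun _ => norm_nonneg _) (fun n => (h3 n).le)
      tendsto_one_div_add_atTop_nhds_zero_nat))
  obtain ⟨n, hn⟩ := ((tendsto_iff_norm_sub_tendsto_zero.1 this).eventually_lt
    tendsto_const_nhds hε).exists
  exact lt_asymm hn (h4 n)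

end Pool.Agent.H94.SL
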