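import Mathlib

set_option autoImplicit false
namespace Pool.Agent.H94.SM
open Set Filter Topology

/-- Lebesgue covering dimension at most `n`: every finite open cover has a finite open refinement
covering the space in which each point lies in at most `n + 1` members. -/
def DimLE (P : Type*) [TopologicalSpace P] (n : ℕ) : Prop :=
  ∀ 𝒰 : Finset (Set P), (∀ U ∈ 𝒰, IsOpen U) → (∀ x, ∃ U ∈ 𝒰, x ∈ U) →
    ∃ 𝒱 : Finset (Set P), (∀ V ∈ 𝒱, IsOpen V) ∧ (∀ x, ∃ V ∈ 𝒱, x ∈ V) ∧
      (∀ V ∈ 𝒱, ∃ U ∈ 𝒰, V ⊆ U) ∧ ∀ x, {V | V ∈ 𝒱 ∧ x ∈ V}.ncard ≤ n + 1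

open Classical in
/-- Covering dimension, with value `-∞` on the empty space and `+∞` if no finite bound exists. -/
noncomputable def cdim (P : Type*) [TopologicalSpace P] : EReal :=
  if IsEmpty P then ⊥ else ⨅ (n : ℕ) (_ : DimLE P n), (n : EReal)

/-- `Widim ε Y`: least covering dimension of a compact metric space `P` admitting a continuous
`ε`-embedding `Y → P`. -/
noncomputable def Widim (ε : ℝ) (Y : Type*) [MetricSpace Y] : EReal :=
  ⨅ (P : Type) (_ : MetricSpace P) (_ : CompactSpace P) (f : Y → P) (_ : Continuous f)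
    (_ : ∀ y y', f y = f y' → dist y y' < ε), cdim P

/-- Sofic approximation sequence. -/
def IsSofic {G : Type*} [Group G] (d : ℕ → ℕ) (σ : ∀ i, G → Equiv.Perm (Fin (d i))) : Prop :=
  (∀ s t : G, Tendsto (fun i => (({k | σ i (s * t) k = σ i s (σ i t k)}.ncard : ℝ)) / d i)
    atTop (𝓝 1)) ∧
  (∀ s t : G, s ≠ t → Tendsto (fun i => (({k | σ i s k ≠ σ i t k}.ncard : ℝ)) / d i)
    atTop (𝓝 1)) ∧
  Tendsto d atTop atTop

/-- The set `Map(ρ, F, δ, σ)`, inside `X ^ d` with the sup metric. -/
def MapSet {G : Type*} (X : Type*) [Group G] [MetricSpace X] [MulAction G X] {d : ℕ}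
    (F : Finset G) (δ : ℝ) (σ : G → Equiv.Perm (Fin d)) : Set (Fin d → X) :=
  {φ | ∀ s ∈ F, Real.sqrt ((1 / (d : ℝ)) * ∑ l, dist (φ (σ s l)) (s • φ l) ^ 2) ≤ δ}

/-- Sofic mean dimension. -/
noncomputable def mdim {G : Type*} (X : Type*) [Group G] [MetricSpace X] [MulAction G X]
    (d : ℕ → ℕ) (σ : ∀ i, G → Equiv.Perm (Fin (d i))) : EReal :=
  ⨆ (ε : ℝ) (_ : 0 < ε), ⨅ (F : Finset G) (δ : ℝ) (_ : 0 < δ),
    limsup (fun i => Widim ε (MapSet X F δ (σ i)) / ((d i : ℝ) : EReal)) atTop

theorem cdim_le {P : Type*} [TopologicalSpace P] {n : ℕ} (h : DimLE P n) :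
    cdim P ≤ (n : EReal) := by
  unfold cdim
  split_ifs
  · exact bot_le
  · exact iInf₂_le_of_le n h le_rfl

theorem exists_dimLE {P : Type*} [TopologicalSpace P] (h : cdim P < ⊤) : ∃ n, DimLE P n := by
  by_cases he : IsEmpty P
  · refine ⟨0, fun 𝒰 _ _ => ⟨∅, by simp, fun x => he.elim x, by simp, fun x => he.elim x⟩⟩
  · by_contra hn
    push Not at hn
    simp [cdim, he, hn] at h

theorem dimLE_sparse {ι : Type*} [Fintype ι] (P : Set (ι → ℝ)) (hP : IsCompact P) (k : ℕ)
    (hk : ∀ v ∈ P, {i | v i ≠ 0}.ncard ≤ k) : DimLE P k := by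
  classical
  haveI : CompactSpace P := isCompact_iff_compactSpace.1 hP
  intro 𝒰 hU hc
  obtain ⟨η, hη, hL⟩ := lebesgue_number_lemma_of_metric (s := (univ : Set P)) (ι := 𝒰)
    (c := fun U => (U : Set P)) isCompact_univ (fun U => hU U U.2)
    (fun x _ => by obtain ⟨U, h1, h2⟩ := hc x; exact mem_iUnion.2 ⟨⟨U, h1⟩, h2⟩)
  set a : Fin (k + 1) → ℝ := fun j => ((j : ℝ) + 1) / (k + 2) with ha
  have ha0 : ∀ j, 0 < a j := fun j => by positivity
  have ha1 : ∀ j, a j < 1 := fun j => by
    have : (j : ℝ) < k + 1 := by exact_mod_cast j.2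
    rw [ha]; simp only; rw [div_lt_one (by positivity)]; linarith
  have hainj : Function.Injective a := fun j j' h => by
    simp only [ha] at h
    rw [div_left_inj' (by positivity)] at h
    exact Fin.ext (by exact_mod_cast (add_right_cancel h))
  set V : Fin (k + 1) → (ι → ℤ) → Set P := fun j m =>
    {v | ∀ i, (m i : ℝ) < v.1 i / η - a j ∧ v.1 i / η - a j < m i + 1} with hV
  have hVo : ∀ j m, IsOpen (V j m) := fun j m => by
    simp only [hV, setOf_forall]
    refine isOpen_iInter_of_finite fun i => ?_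
    have hc : Continuous fun v : P => v.1 i / η - a j := by
      have h0 : Continuous fun v : P => (v : ι → ℝ) i :=
        (continuous_apply i).comp continuous_subtype_val
      exact (h0.div_const η).sub continuous_const
    exact (isOpen_lt continuous_const hc).inter (isOpen_lt hc continuous_const)
  have hfl : ∀ j m (v : P), v ∈ V j m → m = fun i => ⌊v.1 i / η - a j⌋ := fun j m v h => by
    funext i
    exact (Int.floor_eq_iff.2 ⟨(h i).1.le, (h i).2⟩).symm
  have hex : ∀ v : P, ∃ j m, v ∈ V j m := fun v => by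
    have : ∃ j, ∀ i, Int.fract (v.1 i / η) ≠ a j := by
      by_contra hn
      push Not at hn
      choose g hg using hn
      have hg1 : Function.Injective g := fun j j' h => hainj (by rw [← hg j, ← hg j', h])
      have hg2 : ∀ j, g j ∈ {i | v.1 i ≠ 0} := fun j h0 => by
        have := hg j
        rw [h0] at this; simp at this; exact (ha0 j).ne this
      have h3 := ncard_le_ncard_of_injOn (s := (univ : Set (Fin (k + 1)))) g (fun j _ => hg2 j)
        hg1.injOn (toFinite _)
      have h4 := hk v.1 v.2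
      rw [ncard_univ] at h3; simp at h3; simp only [ne_eq] at h4; omega
    obtain ⟨j, hj⟩ := this
    refine ⟨j, fun i => ⌊v.1 i / η - a j⌋, fun i => ⟨?_, Int.lt_floor_add_one _⟩⟩
    refine lt_of_le_of_ne (Int.floor_le _) fun h => hj i ?_
    rw [Int.fract_eq_iff]
    exact ⟨(ha0 j).le, ha1 j, _, h.symm⟩
  choose j m hjm using hex
  obtain ⟨t, -, ht⟩ := isCompact_univ.elim_nhds_subcover (fun v => V (j v) (m v))
    (fun v _ => (hVo _ _).mem_nhds (hjm v))
  refine ⟨t.image fun v => V (j v) (m v), ?_, ?_, ?_, ?_⟩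
  · intro W hW
    obtain ⟨v, -, rfl⟩ := Finset.mem_image.1 hW
    exact hVo _ _
  · intro x
    obtain ⟨v, hv, hx⟩ := mem_iUnion₂.1 (ht (mem_univ x))
    exact ⟨_, Finset.mem_image_of_mem _ hv, hx⟩
  · intro W hW
    obtain ⟨v, -, rfl⟩ := Finset.mem_image.1 hW
    obtain ⟨U, hU⟩ := hL v (mem_univ v)
    refine ⟨U, U.2, fun w hw => hU ?_⟩
    rw [Metric.mem_ball, Subtype.dist_eq, dist_pi_lt_iff hη]
    intro i
    have h1 := hw i
    have h2 := hjm v i
    have h3 : |w.1 i / η - v.1 i / η| < 1 := abs_lt.2 ⟨by linarith, by linarith⟩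
    rw [← sub_div, abs_div, abs_of_pos hη, div_lt_one hη] at h3
    exact h3
  · intro x
    have : {W | W ∈ t.image (fun v => V (j v) (m v)) ∧ x ∈ W} ⊆
        (fun j' => V j' fun i => ⌊x.1 i / η - a j'⌋) '' univ := by
      rintro W ⟨hW, hx⟩
      obtain ⟨v, -, rfl⟩ := Finset.mem_image.1 hW
      exact ⟨j v, mem_univ _, by simp only; rw [← hfl _ _ x hx]⟩
    refine (ncard_le_ncard this (toFinite _)).trans ((ncard_image_le (toFinite _)).trans ?_)
    rw [ncard_univ]; simp

theorem greedy {G D : Type*} [Fintype D] [DecidableEq D] (τ : G → Equiv.Perm D) (F : Finset G)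
    (η : ℝ) (hη : 0 < η) (hF : 0 < F.card) (n : ℕ) : ∀ U : Finset D, U.card = n →
    (∀ u ∈ U, InjOn (fun s => (τ s).symm u) F) →
    ∃ A C : Finset D, C ⊆ U ∧ (∀ k ∈ C, ∃ a ∈ A, ∃ s ∈ F, τ s a = k) ∧
      (U.card : ℝ) ≤ C.card + η * Fintype.card D ∧ F.card * η * A.card ≤ C.card := by
  classical
  induction n using Nat.strong_induction_on with
  | _ n ih =>
  intro U hn hU
  by_cases h : (U.card : ℝ) ≤ η * Fintype.card D
  · exact ⟨∅, ∅, by simp, by simp, by simpa using h, by simp⟩
  push Not at h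
  set N : D → Finset D := fun a => U.filter fun u => ∃ s ∈ F, τ s a = u with hN
  have hsum : ∑ a, (N a).card = U.card * F.card := by
    simp only [hN, Finset.card_filter]
    rw [Finset.sum_comm, Finset.sum_const_nat]
    intro u hu
    rw [← Finset.card_filter, ← Finset.card_image_of_injOn (hU u hu)]
    congr 1
    ext a
    simp only [Finset.mem_filter, Finset.mem_univ, true_and, Finset.mem_image]
    refine exists_congr fun s => and_congr_right fun _ => ?_
    rw [Equiv.symm_apply_eq]; exact eq_comm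
  have hF' : (0 : ℝ) < F.card := by exact_mod_cast hF
  obtain ⟨a, ha⟩ : ∃ a, F.card * η < (N a).card := by
    by_contra hc
    push Not at hc
    have h1 : ((∑ a, (N a).card : ℕ) : ℝ) ≤ Fintype.card D * (F.card * η) := by
      push_cast
      calc ∑ a, ((N a).card : ℝ) ≤ ∑ _a : D, F.card * η := Finset.sum_le_sum fun a _ => hc a
        _ = _ := by simp
    rw [hsum] at h1; push_cast at h1
    nlinarith
  have hsub : N a ⊆ U := Finset.filter_subset _ _
  have hpos : 0 < (N a).card := by
    have : (0 : ℝ) < (N a).card := lt_trans (by positivity) ha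
    exact_mod_cast this
  have hcard := Finset.card_sdiff_add_card_eq_card hsub
  obtain ⟨A, C, h1, h2, h3, h4⟩ := ih (U \ N a).card (by omega) (U \ N a) rfl
    (fun u hu => hU u (Finset.mem_sdiff.1 hu).1)
  have hdis : Disjoint C (N a) := Finset.disjoint_left.2 fun u hu => (Finset.mem_sdiff.1 (h1 hu)).2
  refine ⟨insert a A, C ∪ N a, Finset.union_subset (h1.trans Finset.sdiff_subset) hsub, ?_, ?_, ?_⟩
  · intro k hk
    rcases Finset.mem_union.1 hk with hk | hk
    · obtain ⟨b, hb, hs⟩ := h2 k hk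
      exact ⟨b, Finset.mem_insert_of_mem hb, hs⟩
    · exact ⟨a, Finset.mem_insert_self _ _, (Finset.mem_filter.1 hk).2⟩
  · rw [Finset.card_union_of_disjoint hdis, ← hcard]; push_cast; linarith
  · rw [Finset.card_union_of_disjoint hdis]
    have : ((insert a A).card : ℝ) ≤ A.card + 1 := by exact_mod_cast Finset.card_insert_le a A
    push_cast
    have h5 : (0 : ℝ) < F.card * η := by positivity
    nlinarith

theorem bump {X : Type*} [MetricSpace X] (V : Set X) (hV : IsOpen V) :
    ∃ g : X → ℝ, Continuous g ∧ (∀ x, g x ≠ 0 ↔ x ∈ V) ∧ ∀ x, g x ∈ Icc (0 : ℝ) 1 := by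
  by_cases h : (Vᶜ).Nonempty
  · refine ⟨fun x => min 1 (Metric.infDist x Vᶜ),
      continuous_const.min (Metric.continuous_infDist_pt _), fun x => ?_,
      fun x => ⟨le_min zero_le_one Metric.infDist_nonneg, min_le_left _ _⟩⟩
    have := hV.isClosed_compl.notMem_iff_infDist_pos (x := x) h
    rw [mem_compl_iff, not_not] at this
    rw [this]
    constructor
    · intro h0
      refine lt_of_le_of_ne Metric.infDist_nonneg fun h1 => h0 ?_
      simp [← h1]
    · intro h0
      exact (lt_min one_pos h0).ne'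
  · have : V = univ := by
      rw [not_nonempty_iff_eq_empty, compl_empty_iff] at h; exact h
    exact ⟨fun _ => 1, continuous_const, by simp [this], by simp⟩

end Pool.Agent.H94.SM
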