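import Pool.Agent.H94.SM1

set_option autoImplicit false
namespace Pool.Agent.H94.SM
open Set Filter Topology

theorem widim_le {G X : Type*} [Group G] [MetricSpace X] [MulAction G X]
    [ContinuousConstSMul G X] {d N n K : ℕ} (F : Finset G) (δ ε ε' : ℝ) (hε : 0 < ε)
    (hε' : ε' ≤ ε) (σ : G → Equiv.Perm (Fin d)) (g : Fin N → X → ℝ) (hg : ∀ j, Continuous (g j))
    (hg1 : ∀ j x, g j x ∈ Icc (0 : ℝ) 1) (hcov : ∀ x, ∃ j, g j x ≠ 0)
    (hord : ∀ x, {j | g j x ≠ 0}.ncard ≤ n + 1)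
    (hsm : ∀ j x y, g j x ≠ 0 → g j y ≠ 0 → dist x y < ε')
    (huc : ∀ s ∈ F, ∀ x y : X, dist x y < ε' → dist (s • x) (s • y) < ε / 3)
    (C : Finset (Fin d)) (hC : ∀ k ∈ C, ∃ a ∉ C, ∃ s ∈ F, σ s a = k)
    (hK : (Cᶜ.card : ℝ) + F.card * (9 * δ ^ 2 * d / ε ^ 2) ≤ K) :
    Widim ε (MapSet X F δ σ) ≤ ((K * (n + 1) : ℕ) : EReal) := by
  classical
  choose! a ha s hs hsa using hC
  set t : Fin d → (Fin d → X) → ℝ := fun k φ =>
    if k ∈ C then min 1 (max 0 (dist (φ k) (s k • φ (a k)) - ε / 3)) else 1 with ht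
  have htc : ∀ k, Continuous (t k) := fun k => by
    simp only [ht]
    split_ifs
    · exact continuous_const.min (continuous_const.max ((((continuous_apply k).dist
        ((continuous_const_smul (s k)).comp (continuous_apply (a k))))).sub continuous_const))
    · exact continuous_const
  have ht1 : ∀ k φ, t k φ ∈ Icc (0 : ℝ) 1 := fun k φ => by
    simp only [ht]
    split_ifs
    · exact ⟨le_min zero_le_one (le_max_left _ _), min_le_left _ _⟩
    · simp
  have ht0 : ∀ k φ, t k φ = 0 ↔ k ∈ C ∧ dist (φ k) (s k • φ (a k)) ≤ ε / 3 := fun k φ => by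
    simp only [ht]
    split_ifs with h
    · simp only [h, true_and]
      constructor
      · intro h0
        by_contra h1
        push Not at h1
        exact (lt_min one_pos (lt_max_of_lt_right (by linarith))).ne' h0
      · intro h0
        rw [max_eq_left (by linarith)]; simp
    · simp [h]
  set P : Set (Fin d × Fin N → ℝ) := ⋃ S ∈ {S : Finset (Fin d × Fin N) | S.card ≤ K * (n + 1)},
    univ.pi fun i => if i ∈ S then Icc (0 : ℝ) 1 else {0} with hP
  have hPc : IsCompact P := (toFinite _).isCompact_biUnion fun S _ =>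
    isCompact_univ_pi fun i => by split_ifs; exacts [isCompact_Icc, isCompact_singleton]
  have hPk : ∀ v ∈ P, {i | v i ≠ 0}.ncard ≤ K * (n + 1) := fun v hv => by
    obtain ⟨S, hS, hv⟩ := mem_iUnion₂.1 hv
    have : {i | v i ≠ 0} ⊆ (S : Set _) := fun i hi => by
      by_contra h
      have := hv i (mem_univ i)
      simp only [Finset.mem_coe] at h
      simp only [h, if_false] at this
      exact hi this
    exact (ncard_le_ncard this (toFinite _)).trans (by rw [ncard_coe_finset]; exact hS)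
  set Φ : (Fin d → X) → (Fin d × Fin N → ℝ) := fun φ i => t i.1 φ * g i.2 (φ i.1) with hΦ
  have hΦc : Continuous Φ := continuous_pi fun i =>
    (htc i.1).mul ((hg i.2).comp (continuous_apply i.1))
  have hmem : ∀ φ ∈ MapSet X F δ σ, Φ φ ∈ P := fun φ hφ => by
    set B : Finset (Fin d) := Finset.univ.filter fun k => t k φ ≠ 0 with hB
    set E : G → Finset (Fin d) := fun r =>
      Finset.univ.filter fun l => ε / 3 < dist (φ (σ r l)) (r • φ l) with hE
    have hEc : ∀ r ∈ F, ((E r).card : ℝ) ≤ 9 * δ ^ 2 * d / ε ^ 2 := fun r hr => by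
      have h1 := hφ r hr
      have h2 := Real.sqrt_le_iff.1 h1
      rcases Nat.eq_zero_or_pos d with h0 | h0
      · subst h0
        have : (E r).card ≤ 0 := (Finset.card_le_univ _).trans (by simp)
        simp [Nat.le_zero.1 this]
      have hd : (0 : ℝ) < d := by exact_mod_cast h0
      have h3 : ((E r).card : ℝ) * (ε / 3) ^ 2 ≤ ∑ l, dist (φ (σ r l)) (r • φ l) ^ 2 := by
        calc ((E r).card : ℝ) * (ε / 3) ^ 2 = ∑ _l ∈ E r, (ε / 3) ^ 2 := by simp
          _ ≤ ∑ l ∈ E r, dist (φ (σ r l)) (r • φ l) ^ 2 := Finset.sum_le_sum fun l hl =>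
              pow_le_pow_left₀ (by positivity) (Finset.mem_filter.1 hl).2.le 2
          _ ≤ _ := Finset.sum_le_univ_sum_of_nonneg fun l => by positivity
      have h4 := h2.2
      rw [one_div, inv_mul_le_iff₀ hd] at h4
      rw [le_div_iff₀ (by positivity)]
      nlinarith
    have hBs : B ⊆ Cᶜ ∪ F.biUnion fun r => (E r).image (σ r) := fun k hk => by
      by_cases h : k ∈ C
      · have h1 := (Finset.mem_filter.1 hk).2
        rw [Ne, ht0] at h1
        push Not at h1
        refine Finset.mem_union_right _ (Finset.mem_biUnion.2 ⟨s k, hs k h, Finset.mem_image.2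
          ⟨a k, Finset.mem_filter.2 ⟨Finset.mem_univ _, ?_⟩, hsa k h⟩⟩)
        rw [hsa k h]; exact h1 h
      · exact Finset.mem_union_left _ (Finset.mem_compl.2 h)
    have hBK : B.card ≤ K := by
      have h1 : B.card ≤ Cᶜ.card + ∑ r ∈ F, (E r).card :=
        (Finset.card_le_card hBs).trans ((Finset.card_union_le _ _).trans (Nat.add_le_add_left
          (Finset.card_biUnion_le.trans (Finset.sum_le_sum fun r _ => Finset.card_image_le)) _))
      have h2 : ∑ r ∈ F, ((E r).card : ℝ) ≤ F.card * (9 * δ ^ 2 * d / ε ^ 2) := by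
        simpa using Finset.sum_le_sum hEc
      have h3 : (B.card : ℝ) ≤ Cᶜ.card + ∑ r ∈ F, ((E r).card : ℝ) := by exact_mod_cast h1
      have h4 : (B.card : ℝ) ≤ K := by linarith
      exact_mod_cast h4
    refine mem_iUnion₂.2 ⟨B.biUnion fun k =>
      (Finset.univ.filter fun j => g j (φ k) ≠ 0).image fun j => (k, j), ?_, fun i _ => ?_⟩
    · refine (Finset.card_biUnion_le_card_mul _ _ (n + 1) fun k _ => ?_).trans
        (Nat.mul_le_mul_right _ hBK)
      refine Finset.card_image_le.trans ?_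
      have := hord (φ k)
      rwa [← ncard_coe_finset, Finset.coe_filter_univ]
    · simp only
      split_ifs with h
      · exact ⟨mul_nonneg (ht1 _ _).1 (hg1 _ _).1, mul_le_one₀ (ht1 _ _).2 (hg1 _ _).1 (hg1 _ _).2⟩
      · by_contra h0
        have h1 : t i.1 φ * g i.2 (φ i.1) ≠ 0 := h0
        exact h (Finset.mem_biUnion.2 ⟨i.1, Finset.mem_filter.2 ⟨Finset.mem_univ _,
          left_ne_zero_of_mul h1⟩, Finset.mem_image.2 ⟨i.2, Finset.mem_filter.2
          ⟨Finset.mem_univ _, right_ne_zero_of_mul h1⟩, rfl⟩⟩)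
  have hnz : ∀ φ ψ k, Φ φ = Φ ψ → t k φ ≠ 0 → dist (φ k) (ψ k) < ε' ∧ t k ψ ≠ 0 :=
    fun φ ψ k h h0 => by
      obtain ⟨j, hj⟩ := hcov (φ k)
      have h1 : t k φ * g j (φ k) = t k ψ * g j (ψ k) := congrFun h (k, j)
      have h2 : t k ψ * g j (ψ k) ≠ 0 := h1 ▸ mul_ne_zero h0 hj
      exact ⟨hsm j _ _ hj (right_ne_zero_of_mul h2), left_ne_zero_of_mul h2⟩
  have hemb : ∀ φ ψ, Φ φ = Φ ψ → dist φ ψ < ε := fun φ ψ h => by
    rw [dist_pi_lt_iff hε]
    intro k
    by_cases h0 : t k φ = 0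
    · have h1 : t k ψ = 0 := by
        by_contra h1
        exact (hnz ψ φ k h.symm h1).2 h0
      obtain ⟨hk, h2⟩ := (ht0 k φ).1 h0
      obtain ⟨-, h3⟩ := (ht0 k ψ).1 h1
      have h4 := huc (s k) (hs k hk) _ _ (hnz φ ψ (a k) h fun h5 => ha k hk ((ht0 _ _).1 h5).1).1
      have h5 := dist_triangle4 (φ k) (s k • φ (a k)) (s k • ψ (a k)) (ψ k)
      rw [dist_comm (s k • ψ (a k))] at h5
      linarith
    · exact (hnz φ ψ k h h0).1.trans_le hε'
  haveI : CompactSpace P := isCompact_iff_compactSpace.1 hPc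
  unfold Widim
  refine iInf_le_of_le P (iInf_le_of_le inferInstance (iInf_le_of_le inferInstance
    (iInf_le_of_le (fun φ => ⟨Φ φ.1, hmem φ.1 φ.2⟩) (iInf_le_of_le
      ((hΦc.comp continuous_subtype_val).subtype_mk _) (iInf_le_of_le (fun y y' h => ?_)
        (cdim_le (dimLE_sparse P hPc _ hPk)))))))
  exact hemb y.1 y'.1 (congrArg Subtype.val h)

theorem cover {X : Type*} [MetricSpace X] [CompactSpace X] {n : ℕ} (hn : DimLE X n) {ε' : ℝ}
    (h : 0 < ε') : ∃ (N : ℕ) (g : Fin N → X → ℝ), (∀ j, Continuous (g j)) ∧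
      (∀ j x, g j x ∈ Icc (0 : ℝ) 1) ∧ (∀ x, ∃ j, g j x ≠ 0) ∧
      (∀ x, {j | g j x ≠ 0}.ncard ≤ n + 1) ∧ ∀ j x y, g j x ≠ 0 → g j y ≠ 0 → dist x y < ε' := by
  classical
  obtain ⟨t, -, ht⟩ := isCompact_univ.elim_nhds_subcover (fun x : X => Metric.ball x (ε' / 2))
    (fun x _ => Metric.ball_mem_nhds x (by positivity))
  obtain ⟨𝒱, h1, h2, h3, h4⟩ := hn (t.image fun x => Metric.ball x (ε' / 2))
    (fun U hU => by obtain ⟨x, -, rfl⟩ := Finset.mem_image.1 hU; exact Metric.isOpen_ball)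
    (fun x => by
      obtain ⟨v, hv, hx⟩ := mem_iUnion₂.1 (ht (mem_univ x))
      exact ⟨_, Finset.mem_image_of_mem _ hv, hx⟩)
  set e := 𝒱.equivFin.symm
  choose g hg1 hg2 hg3 using fun j : Fin 𝒱.card => bump (e j : Set X) (h1 _ (e j).2)
  refine ⟨𝒱.card, g, hg1, hg3, fun x => ?_, fun x => ?_, fun j x y hx hy => ?_⟩
  · obtain ⟨V, hV, hx⟩ := h2 x
    exact ⟨e.symm ⟨V, hV⟩, (hg2 _ _).2 (by simpa using hx)⟩
  · refine (ncard_le_ncard_of_injOn (t := {V | V ∈ 𝒱 ∧ x ∈ V}) (fun j => (e j : Set X))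
      (fun j hj => ⟨(e j).2, (hg2 _ _).1 hj⟩)
      (fun j _ j' _ hjj => e.injective (Subtype.ext hjj)) ?_).trans (h4 x)
    exact 𝒱.finite_toSet.subset fun V hV => hV.1
  · obtain ⟨U, hU, hs⟩ := h3 _ (e j).2
    obtain ⟨z, -, rfl⟩ := Finset.mem_image.1 hU
    have a1 := Metric.mem_ball.1 (hs ((hg2 _ _).1 hx))
    have a2 := Metric.mem_ball.1 (hs ((hg2 _ _).1 hy))
    have := dist_triangle_right x y z
    linarith

theorem good {G : Type*} [Group G] {d : ℕ → ℕ} {σ : ∀ i, G → Equiv.Perm (Fin (d i))}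
    (hσ : IsSofic d σ) (F : Finset G) {η : ℝ} (hη : 0 < η) : ∀ᶠ i in atTop,
      ∃ U : Finset (Fin (d i)), (∀ u ∈ U, InjOn (fun s => (σ i s).symm u) F) ∧
        (Uᶜ.card : ℝ) ≤ η * d i := by
  classical
  set M : ℝ := (F.offDiag.card : ℝ) + 1 with hM
  have hM0 : 0 < M := by positivity
  have h1 : ∀ p ∈ F.offDiag, ∀ᶠ i in atTop,
      1 - η / M < (({k | σ i p.1 k ≠ σ i p.2 k}.ncard : ℝ)) / d i := fun p hp =>
    (hσ.2.1 p.1 p.2 (Finset.mem_offDiag.1 hp).2.2).eventually
      (lt_mem_nhds (by have := div_pos hη hM0; linarith))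
  filter_upwards [(eventually_all_finset _).2 h1, hσ.2.2.eventually_gt_atTop 0] with i hi hd
  have hd' : (0 : ℝ) < d i := by exact_mod_cast hd
  set E : G × G → Finset (Fin (d i)) := fun p =>
    Finset.univ.filter fun k => σ i p.1 k = σ i p.2 k with hE
  have hEc : ∀ p ∈ F.offDiag, ((E p).card : ℝ) ≤ η / M * d i := fun p hp => by
    have h2 := hi p hp
    rw [lt_div_iff₀ hd'] at h2
    have h3 : {k | σ i p.1 k ≠ σ i p.2 k}.ncard + (E p).card = d i := by
      have : {k | σ i p.1 k ≠ σ i p.2 k} = ((E p)ᶜ : Finset _) := by ext k; simp [hE]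
      rw [this, ncard_coe_finset, Finset.card_compl_add_card]; simp
    have h4 : ({k | σ i p.1 k ≠ σ i p.2 k}.ncard : ℝ) + (E p).card = d i := by exact_mod_cast h3
    linarith
  refine ⟨(F.offDiag.biUnion fun p => (E p).image (σ i p.1))ᶜ, fun u hu s hs t ht hst => ?_, ?_⟩
  · by_contra hne
    refine Finset.mem_compl.1 hu (Finset.mem_biUnion.2 ⟨(s, t), Finset.mem_offDiag.2
      ⟨hs, ht, hne⟩, Finset.mem_image.2 ⟨(σ i s).symm u, Finset.mem_filter.2
      ⟨Finset.mem_univ _, ?_⟩, by simp⟩⟩)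
    have h5 : (σ i s).symm u = (σ i t).symm u := hst
    simp only [Equiv.apply_symm_apply]
    rw [h5, Equiv.apply_symm_apply]
  · rw [compl_compl]
    have h5 : (F.offDiag.biUnion fun p => (E p).image (σ i p.1)).card ≤
        ∑ p ∈ F.offDiag, (E p).card :=
      Finset.card_biUnion_le.trans (Finset.sum_le_sum fun r _ => Finset.card_image_le)
    have h6 : ∑ p ∈ F.offDiag, ((E p).card : ℝ) ≤ F.offDiag.card * (η / M * d i) := by
      simpa using Finset.sum_le_sum hEc
    have h7 : ((F.offDiag.biUnion fun p => (E p).image (σ i p.1)).card : ℝ) ≤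
        ∑ p ∈ F.offDiag, ((E p).card : ℝ) := by exact_mod_cast h5
    have h8 : M * (η / M * d i) = η * d i := by field_simp
    have h9 : 0 ≤ η / M * d i := by positivity
    nlinarith

theorem main {G X : Type*} [Group G] [Infinite G] [MetricSpace X] [CompactSpace X]
    [MulAction G X] [ContinuousConstSMul G X] (hX : cdim X < ⊤) (d : ℕ → ℕ)
    (σ : ∀ i, G → Equiv.Perm (Fin (d i))) (hσ : IsSofic d σ) : mdim X d σ ≤ 0 := by
  classical
  obtain ⟨n, hn⟩ := exists_dimLE hX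
  refine iSup₂_le fun ε hε => ?_
  refine EReal.le_of_forall_lt_iff_le.1 fun z hz => ?_
  have hz' : 0 < z := by exact_mod_cast hz
  set η : ℝ := z / (5 * (n + 1)) with hη
  have hη0 : 0 < η := by positivity
  obtain ⟨m, hm⟩ := exists_nat_gt (1 / η ^ 2)
  obtain ⟨F, hF⟩ := Infinite.exists_subset_card_eq G m
  have hm0 : (0 : ℝ) < m := lt_trans (by positivity) hm
  have h1 : ∀ s ∈ F, ∀ᶠ e in 𝓝[>] (0 : ℝ), ∀ x y : X, dist x y < e → dist (s • x) (s • y) < ε / 3 :=
    fun s _ => by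
      obtain ⟨e, he, h⟩ := Metric.uniformContinuous_iff.1
        (CompactSpace.uniformContinuous_of_continuous (continuous_const_smul (T := X) s))
        (ε / 3) (by positivity)
      filter_upwards [Ioo_mem_nhdsGT he] with e' he' x y hxy using h (hxy.trans he'.2)
  obtain ⟨ε', huc, hε'⟩ := (((eventually_all_finset _).2 h1).and (Ioo_mem_nhdsGT hε)).exists
  obtain ⟨N, g, g1, g2, g3, g4, g5⟩ := cover hn hε'.1
  set δ : ℝ := Real.sqrt (η / m) * ε / 3 with hδ
  have hδ0 : 0 < δ := by positivity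
  have hδ2 : m * (9 * δ ^ 2 / ε ^ 2) = η := by
    rw [hδ, div_pow, mul_pow, Real.sq_sqrt (by positivity)]; field_simp; norm_num
  refine iInf_le_of_le F (iInf₂_le_of_le δ hδ0 (limsup_le_of_le (by isBoundedDefault) ?_))
  filter_upwards [good hσ F hη0, hσ.2.2.eventually_gt_atTop ⌈1 / η⌉₊] with i ⟨U, hU1, hU2⟩ hd
  have hd1 : 1 / η < d i := (Nat.le_ceil _).trans_lt (by exact_mod_cast hd)
  have hd' : (0 : ℝ) < d i := lt_trans (by positivity) hd1
  rw [div_lt_iff₀ hη0] at hd1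
  obtain ⟨A, C, -, c2, c3, c4⟩ := greedy (σ i) F η hη0 (by rw [hF]; exact_mod_cast hm0) _ U rfl hU1
  rw [Fintype.card_fin] at c3
  rw [hF] at c4
  have hCd : (C.card : ℝ) ≤ d i := by exact_mod_cast (Finset.card_le_univ C).trans (by simp)
  have hA : (A.card : ℝ) ≤ η * d i := by
    rw [div_lt_iff₀ (by positivity)] at hm
    have : (0 : ℝ) ≤ A.card := by positivity
    nlinarith
  have e1 : ((C \ A)ᶜ.card : ℝ) + (C \ A).card = d i := by
    exact_mod_cast (Finset.card_compl_add_card _).trans (Fintype.card_fin _)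
  have e2 : (Uᶜ.card : ℝ) + U.card = d i := by
    exact_mod_cast (Finset.card_compl_add_card _).trans (Fintype.card_fin _)
  have e3 : (C.card : ℝ) ≤ (C \ A).card + A.card := by
    exact_mod_cast Finset.card_le_card_sdiff_add_card
  have hW := widim_le (K := ⌈4 * η * d i⌉₊) F δ ε ε' hε hε'.2.le (σ i) g g1 g2 g3 g4 g5 huc (C \ A)
    (fun k hk => by
      obtain ⟨a, ha, hs⟩ := c2 k (Finset.mem_sdiff.1 hk).1
      exact ⟨a, fun h => (Finset.mem_sdiff.1 h).2 ha, hs⟩)
    (by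
      have : (F.card : ℝ) * (9 * δ ^ 2 * d i / ε ^ 2) = η * d i := by
        rw [hF, ← hδ2]; ring
      have := Nat.le_ceil (4 * η * d i)
      linarith)
  have hc : (⌈4 * η * d i⌉₊ : ℝ) ≤ 5 * η * d i := by
    have := Nat.ceil_lt_add_one (a := 4 * η * d i) (by positivity)
    linarith
  have hfin : ((⌈4 * η * d i⌉₊ * (n + 1) : ℕ) : ℝ) ≤ z * d i := by
    have : z = 5 * η * (n + 1) := by rw [hη]; field_simp
    rw [this]; push_cast
    have : (0 : ℝ) ≤ n + 1 := by positivity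
    nlinarith
  rw [EReal.div_le_iff_le_mul (by exact_mod_cast hd') (EReal.coe_ne_top _)]
  refine hW.trans ?_
  rw [← EReal.coe_mul, ← EReal.coe_coe_eq_natCast]
  exact EReal.coe_le_coe_iff.2 (by linarith)

end Pool.Agent.H94.SM
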