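import Mathlib

set_option autoImplicit false
namespace Pool.Agent.H94.Sg
open Set Real EuclideanGeometry

abbrev E := EuclideanSpace ℝ (Fin 3)

noncomputable def A1 : EuclideanSpace ℝ (Fin 3) := !₂[0, 0, 0]
noncomputable def B1 : EuclideanSpace ℝ (Fin 3) := !₂[1, 1, 0]
noncomputable def A2 : EuclideanSpace ℝ (Fin 3) := !₂[0, 1, 2]
noncomputable def B2 : EuclideanSpace ℝ (Fin 3) := !₂[1, 0, 2]
noncomputable def C1 (θ : ℝ) : EuclideanSpace ℝ (Fin 3) := !₂[1, cos θ, sin θ]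
noncomputable def C2 (θ : ℝ) : EuclideanSpace ℝ (Fin 3) := !₂[0, cos θ, 2 - sin θ]

/-- A motion of the segment. -/
def Motion (A B : ℝ → EuclideanSpace ℝ (Fin 3)) : Prop :=
  ContinuousOn A (Icc 0 1) ∧ ContinuousOn B (Icc 0 1) ∧ (∀ t ∈ Icc (0 : ℝ) 1, dist (A t) (B t) = √2) ∧
    A 0 = A1 ∧ B 0 = B1 ∧ A 1 = A2 ∧ B 1 = B2

/-- Sum of the arc lengths of the two endpoint curves. -/
noncomputable def cost (A B : ℝ → EuclideanSpace ℝ (Fin 3)) : ENNReal :=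
  eVariationOn A (Icc 0 1) + eVariationOn B (Icc 0 1)

/-- Stage 2 of `M_θ` can be carried out. -/
def Admissible (θ : ℝ) : Prop :=
  ∃ s t : ℝ → ℝ, ContinuousOn s (Icc 0 1) ∧ ContinuousOn t (Icc 0 1) ∧ MonotoneOn s (Icc 0 1) ∧
    MonotoneOn t (Icc 0 1) ∧ s 0 = 0 ∧ t 0 = 0 ∧ s 1 = 1 ∧ t 1 = 1 ∧ ∀ τ ∈ Icc (0 : ℝ) 1,
      dist (AffineMap.lineMap A1 (C2 θ) (s τ)) (AffineMap.lineMap (C1 θ) B2 (t τ)) = √2

/-- Cost of `M_θ`: two great-circle arcs of radius `√2` and two segments. -/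
noncomputable def costM (θ : ℝ) : ℝ :=
  √2 * ∠ B1 A1 (C1 θ) + (dist (C1 θ) B2 + dist A1 (C2 θ)) + √2 * ∠ (C2 θ) B2 A2

theorem dsq (x y : E) : dist x y = √((x 0 - y 0) ^ 2 + (x 1 - y 1) ^ 2 + (x 2 - y 2) ^ 2) := by
  simp [EuclideanSpace.dist_eq, Fin.sum_univ_three, Real.dist_eq]

theorem ang {x y : E} {c : ℝ} (hx : x 0 ^ 2 + x 1 ^ 2 + x 2 ^ 2 = 2)
    (hy : y 0 ^ 2 + y 1 ^ 2 + y 2 ^ 2 = 2) (h : x 0 * y 0 + x 1 * y 1 + x 2 * y 2 = 2 * c) :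
    InnerProductGeometry.angle x y = arccos c := by
  have n : ∀ z : E, z 0 ^ 2 + z 1 ^ 2 + z 2 ^ 2 = 2 → ‖z‖ = √2 := fun z hz => by
    rw [EuclideanSpace.norm_eq, Fin.sum_univ_three]; simp [hz]
  rw [InnerProductGeometry.angle, n x hx, n y hy, mul_self_sqrt (by norm_num)]
  congr 1
  simp [PiLp.inner_apply, Fin.sum_univ_three]
  linarith

theorem asin {y : ℝ} (h : 0 ≤ y) : sin y + sin y ^ 3 / 6 ≤ y := by
  have d : ∀ x, HasDerivAt (fun x => x - (sin x + sin x ^ 3 / 6))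
      (1 - (cos x + 3 * sin x ^ 2 * cos x / 6)) x := fun x =>
    (hasDerivAt_id' x).fun_sub ((hasDerivAt_sin x).fun_add
      (((hasDerivAt_sin x).fun_pow 3).div_const 6))
  have := monotone_of_deriv_nonneg (fun x => (d x).differentiableAt) (fun x => by
    rw [(d x).deriv, sin_sq]
    have a := cos_le_one x
    have b := neg_one_le_cos x
    nlinarith [mul_nonneg (sub_nonneg.2 a) (mul_nonneg (sub_nonneg.2 a) (show 0 ≤ cos x + 2 by
      linarith))]) h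
  simpa using this

theorem lower (θ : ℝ) (h : Admissible θ) : 4.494 ≤ costM θ := by
  have sc := sin_sq_add_cos_sq θ
  have c1 := cos_le_one θ
  have c2 := neg_one_le_cos θ
  have e1 : ∠ B1 A1 (C1 θ) = arccos ((1 + cos θ) / 2) :=
    ang (by simp [A1, B1]; norm_num) (by simp [A1, C1]; linarith) (by simp [A1, B1, C1]; ring)
  have e2 : ∠ (C2 θ) B2 A2 = arccos ((1 + cos θ) / 2) :=
    ang (by simp [C2, B2]; linarith) (by simp [A2, B2]; norm_num) (by simp [A2, B2, C2]; ring)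
  have e3 : dist (C1 θ) B2 = √(5 - 4 * sin θ) := by
    rw [dsq]; congr 1; simp [C1, B2]; linarith
  have e4 : dist A1 (C2 θ) = √(5 - 4 * sin θ) := by
    rw [dsq]; congr 1; simp [C2, A1]; linarith
  rw [costM, e1, e2, e3, e4]
  obtain ⟨y, hy⟩ : ∃ y, arccos ((1 + cos θ) / 2) = 2 * y := ⟨arccos ((1 + cos θ) / 2) / 2, by ring⟩
  have y0 : 0 ≤ y := by linarith [arccos_nonneg ((1 + cos θ) / 2)]
  have y1 : y ≤ π := by linarith [arccos_le_pi ((1 + cos θ) / 2)]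
  have k := cos_arccos (x := (1 + cos θ) / 2) (by linarith) (by linarith)
  rw [hy, cos_two_mul, cos_sq'] at k
  have w := mul_self_sqrt (show (0 : ℝ) ≤ 2 by norm_num)
  have w0 := sqrt_nonneg 2
  obtain ⟨u, hu⟩ : ∃ u, u = √2 * sin y := ⟨_, rfl⟩
  have u0 : 0 ≤ u := hu ▸ mul_nonneg w0 (sin_nonneg_of_nonneg_of_le_pi y0 y1)
  have u2 : u ^ 2 = 2 * sin y ^ 2 := by rw [hu, mul_pow, sq_sqrt (by norm_num)]
  have u3 : 2 * u + u ^ 3 / 6 ≤ √2 * (2 * y) := by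
    have := mul_le_mul_of_nonneg_left (asin y0) w0
    rw [pow_succ, u2, hu]; nlinarith
  have cu : cos θ = 1 - 2 * u ^ 2 := by linarith
  have u1 : u ≤ 1 := by nlinarith
  have su : sin θ ^ 2 = 4 * u ^ 2 * (1 - u ^ 2) := by rw [cu] at sc; linarith
  have l : 1 / 10 ≤ u := by
    by_contra l
    push Not at l
    obtain ⟨s, t, cs, ct, ms, mt, s0, t0, s1, t1, d⟩ := h
    obtain ⟨τ, m, (e : s τ + t τ = 1 / 10)⟩ := intermediate_value_Icc zero_le_one (cs.add ct)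
      (show (1 / 10 : ℝ) ∈ Icc (s 0 + t 0) (s 1 + t 1) by rw [s0, t0, s1, t1]; constructor <;> norm_num)
    have a := s0 ▸ ms ⟨le_rfl, zero_le_one⟩ m m.1
    have b := t0 ▸ mt ⟨le_rfl, zero_le_one⟩ m m.1
    have := d τ m
    rw [dsq, sqrt_inj (by positivity) (by norm_num)] at this
    simp [AffineMap.lineMap_apply, A1, C1, C2, B2] at this
    have q : sin θ ^ 2 ≤ (1 / 5) ^ 2 := by nlinarith [sq_nonneg (u ^ 2)]
    obtain ⟨q1, q2⟩ := abs_le_of_sq_le_sq' q (by norm_num)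
    have r1 : |s τ * (2 - sin θ) - (t τ * (2 - sin θ) + sin θ)| ≤ 0.42 :=
      abs_le.2 ⟨by nlinarith, by nlinarith⟩
    have r2 := sq_le_sq' (abs_le.1 r1).1 (abs_le.1 r1).2
    have r3 : (s τ * cos θ - (-(t τ * cos θ) + cos θ)) ^ 2 = 0.81 * cos θ ^ 2 := by
      rw [show s τ = 1 / 10 - t τ by linarith]; ring
    nlinarith [sq_nonneg (sin θ)]
  have v : sin θ ≤ 2 * u * (1 - u ^ 2 / 2 - u ^ 4 / 8) := by
    have p2 := pow_le_one₀ u0 u1 (n := 2)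
    have p4 := pow_le_one₀ u0 u1 (n := 4)
    refine (abs_le_of_sq_le_sq' ?_ (mul_nonneg (by linarith) (by linarith))).2
    rw [su]
    nlinarith [pow_nonneg u0 8, pow_nonneg u0 10]
  have z : 2.247 - 2 * u - u ^ 3 / 6 ≤ √(5 - 4 * sin θ) := by
    refine le_sqrt_of_sq_le ?_
    have p1 : u ^ 6 ≤ u ^ 5 := pow_le_pow_of_le_one u0 u1 (by norm_num)
    nlinarith [mul_nonneg u0 (sq_nonneg (u - 0.39)), mul_nonneg (sub_nonneg.2 l) (sq_nonneg (u - 0.39)),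
      mul_nonneg (pow_nonneg u0 3) (sq_nonneg (u - 0.39)), sq_nonneg (u - 0.39), pow_nonneg u0 3]
  rw [hy]
  linarith

end Pool.Agent.H94.Sg
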