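import Pool.Agent.H94.Sg1

set_option autoImplicit false
namespace Pool.Agent.H94.Sg
open Set Real

theorem var_le {f : ℝ → E} {F : ℝ → ℝ} (h : ∀ x y, x ≤ y → dist (f y) (f x) ≤ F y - F x) :
    eVariationOn f (Icc 0 1) ≤ ENNReal.ofReal (F 1 - F 0) := by
  have m : Monotone F := fun x y l => sub_nonneg.1 (dist_nonneg.trans (h x y l))
  refine iSup_le fun ⟨n, u, hu, us⟩ => ?_
  refine (Finset.sum_le_sum fun i _ => (edist_dist _ _).trans_le
    (ENNReal.ofReal_le_ofReal (h _ _ (hu i.le_succ)))).trans ?_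
  rw [← ENNReal.ofReal_sum_of_nonneg fun i _ => sub_nonneg.2 (m (hu i.le_succ)),
    Finset.sum_range_sub fun i => F (u i)]
  exact ENNReal.ofReal_le_ofReal (sub_le_sub (m (us n).2) (m (us 0).1))

noncomputable def dl (r : ℝ) : ℝ := (-1078 + √(1078 ^ 2 + 3368 * 961 * (1 - r ^ 2))) / 3368
noncomputable def rr (τ : ℝ) : ℝ := max (-1) (min 1 (3 - 6 * τ))
noncomputable def tt (τ : ℝ) : ℝ := (1 - rr τ + dl (rr τ)) / 2
noncomputable def cc (τ : ℝ) : ℝ := arcsin (5 / 13) * min 1 (3 * τ)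
noncomputable def arc (a : ℝ) : E := !₂[cos a + sin a / 3, cos a - sin a / 3, 4 * sin a / 3]
noncomputable def V : E := !₂[-2 / 39, -31 / 39, 58 / 39]
noncomputable def BB (τ : ℝ) : E := arc (cc τ) + tt τ • V
noncomputable def sw (x : E) : E := !₂[1 - x 0, x 1, 2 - x 2]

theorem rr_mem (τ : ℝ) : -1 ≤ rr τ ∧ rr τ ≤ 1 :=
  ⟨le_max_left _ _, max_le (by norm_num) (min_le_left _ _)⟩

theorem dl_eq {r : ℝ} (h : -1 ≤ r ∧ r ≤ 1) :
    0 ≤ dl r ∧ 3368 * dl r ^ 2 + 2156 * dl r = 961 * (1 - r ^ 2) := by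
  have p : 0 ≤ 1 - r ^ 2 := by nlinarith
  have a := sq_sqrt (show 0 ≤ (1078 : ℝ) ^ 2 + 3368 * 961 * (1 - r ^ 2) by positivity)
  have b : 1078 ≤ √(1078 ^ 2 + 3368 * 961 * (1 - r ^ 2)) := le_sqrt_of_sq_le (by nlinarith)
  unfold dl
  generalize √(1078 ^ 2 + 3368 * 961 * (1 - r ^ 2)) = w at *
  exact ⟨div_nonneg (by linarith) (by norm_num), by linear_combination (1 / 3368) * a⟩

theorem tt_mono : Monotone tt := fun x y l => by
  have m : rr y ≤ rr x := max_le_max le_rfl (min_le_min le_rfl (by linarith))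
  obtain ⟨a1, a2⟩ := dl_eq (rr_mem x)
  obtain ⟨b1, b2⟩ := dl_eq (rr_mem y)
  have c := rr_mem x
  have d := rr_mem y
  unfold tt
  generalize dl (rr x) = p at *
  generalize dl (rr y) = q at *
  generalize rr x = r at *
  generalize rr y = s at *
  by_contra k
  have k1 : r - s < p - q := by linarith
  nlinarith [mul_nonneg (sub_nonneg.2 m) (show 0 ≤ r + s + 2 by linarith),
    mul_nonneg (show 0 ≤ p - q by linarith) (add_nonneg a1 b1)]

theorem cc_mono : Monotone cc := fun x y l => mul_le_mul_of_nonneg_left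
  (min_le_min le_rfl (by linarith)) (arcsin_nonneg.2 (by norm_num))

theorem nV : ‖V‖ ≤ 1.6871 := by
  rw [← dist_zero_right, dsq]
  exact sqrt_le_iff.2 ⟨by norm_num, by simp [V]; norm_num⟩

theorem dB (x y : ℝ) (l : x ≤ y) :
    dist (BB y) (BB x) ≤ (√2 * cc y + 1.6871 * tt y) - (√2 * cc x + 1.6871 * tt x) := by
  have a := sub_nonneg.2 (cc_mono l)
  have b := sub_nonneg.2 (tt_mono l)
  have c : dist (arc (cc y)) (arc (cc x)) ≤ √2 * (cc y - cc x) := by
    rw [dsq]
    refine sqrt_le_iff.2 ⟨by positivity, ?_⟩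
    have := one_sub_sq_div_two_le_cos (x := cc y - cc x)
    rw [cos_sub] at this
    rw [mul_pow, sq_sqrt (by norm_num)]
    simp [arc]
    nlinarith [sin_sq_add_cos_sq (cc x), sin_sq_add_cos_sq (cc y)]
  have d : dist (tt y • V) (tt x • V) ≤ (tt y - tt x) * 1.6871 := by
    rw [dist_eq_norm, ← sub_smul, norm_smul, Real.norm_of_nonneg b]
    exact mul_le_mul_of_nonneg_left nV b
  linarith [dist_add_add_le (arc (cc y)) (tt y • V) (arc (cc x)) (tt x • V), (rfl : BB y = _),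
    show dist (BB y) (BB x) = dist (arc (cc y) + tt y • V) (arc (cc x) + tt x • V) from rfl]

theorem sw_dist (x y : E) : dist (sw x) (sw y) = dist x y := by
  rw [dsq, dsq]; congr 1; simp [sw]; ring

theorem t0 {τ : ℝ} (h : τ ≤ 1 / 3) : tt τ = 0 := by
  have : rr τ = 1 := by rw [rr, min_eq_left (by linarith), max_eq_right (by norm_num)]
  rw [tt, this, dl]; norm_num

theorem t1 {τ : ℝ} (h : 2 / 3 ≤ τ) : tt τ = 1 := by
  have : rr τ = -1 := max_eq_left (min_le_of_right_le (by linarith))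
  rw [tt, this, dl]; norm_num

theorem c1 {τ : ℝ} (h : 1 / 3 ≤ τ) : cos (cc τ) = 12 / 13 ∧ sin (cc τ) = 5 / 13 := by
  rw [cc, min_eq_left (by linarith), mul_one, cos_arcsin, sin_arcsin (by norm_num) (by norm_num)]
  exact ⟨by rw [sqrt_eq_iff_mul_self_eq (by norm_num) (by norm_num)]; norm_num, rfl⟩

theorem upper : ∃ A B, Motion A B ∧ cost A B ≤ ENNReal.ofReal 4.492 := by
  have cB : Continuous BB := by unfold BB arc cc tt dl rr; fun_prop
  have cs : Continuous sw := by unfold sw; fun_prop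
  have b0 : BB 0 = B1 := by
    ext i; fin_cases i <;> simp [BB, t0 (τ := 0) (by norm_num), arc, cc, B1]
  have b1 : BB 1 = B2 := by
    ext i; fin_cases i <;> simp [BB, t1 (τ := 1) (by norm_num), arc, c1 (τ := 1) (by norm_num), B2, V] <;>
      norm_num
  refine ⟨fun τ => sw (BB (1 - τ)), BB, ⟨(cs.comp (cB.comp (by fun_prop))).continuousOn,
    cB.continuousOn, fun τ _ => ?_, ?_, b0, ?_, b1⟩, ?_⟩
  · rw [dsq]; congr 1
    rcases le_total τ (1 / 3) with h | h
    · simp [sw, BB, arc, V, t0 h, t1 (τ := 1 - τ) (by linarith), c1 (τ := 1 - τ) (by linarith)]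
      nlinarith [sin_sq_add_cos_sq (cc τ)]
    rcases le_total (2 / 3) τ with g | g
    · simp [sw, BB, arc, V, t1 g, t0 (τ := 1 - τ) (by linarith), c1 h]
      nlinarith [sin_sq_add_cos_sq (cc (1 - τ))]
    have r1 : rr τ = 3 - 6 * τ := by rw [rr, min_eq_right (by linarith), max_eq_right (by linarith)]
    have r2 : rr (1 - τ) = -rr τ := by
      rw [r1, rr, min_eq_right (by linarith), max_eq_right (by linarith)]; ring
    have r3 : dl (-rr τ) = dl (rr τ) := by simp [dl]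
    have := (dl_eq (rr_mem τ)).2
    simp [sw, BB, arc, V, c1 h, c1 (τ := 1 - τ) (by linarith), tt, r2, r3]
    linarith
  · simp only [sub_zero, b1]; ext i; fin_cases i <;> simp [sw, B2, A1]
  · simp only [sub_self, b0]; ext i; fin_cases i <;> simp [sw, B1, A2]
  have p : arcsin (5 / 13) ≤ 0.395 := (arcsin_le_iff_le_sin ⟨by norm_num, by norm_num⟩
    ⟨by linarith [pi_gt_three], by linarith [pi_gt_three]⟩).2
      (le_trans (by norm_num) (sin_ge_sub_cube (by norm_num)))
  have q : √2 ≤ 1.41422 := sqrt_le_iff.2 ⟨by norm_num, by norm_num⟩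
  have e : √2 * cc 1 + 1.6871 * tt 1 - (√2 * cc 0 + 1.6871 * tt 0) ≤ 2.246 := by
    rw [t0 (τ := 0) (by norm_num), t1 (τ := 1) (by norm_num), cc, cc]
    have := mul_le_mul q p (arcsin_nonneg.2 (by norm_num)) (by norm_num)
    norm_num at this ⊢
    linarith
  refine (add_le_add ((var_le (F := fun τ => -(√2 * cc (1 - τ) + 1.6871 * tt (1 - τ)))
    fun x y l => ?_).trans (ENNReal.ofReal_le_ofReal (show _ ≤ 2.246 from ?_)))
      ((var_le dB).trans (ENNReal.ofReal_le_ofReal e))).trans ?_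
  · rw [sw_dist, dist_comm]
    linarith [dB (1 - y) (1 - x) (by linarith)]
  · simp only [sub_self, sub_zero]; linarith
  · rw [← ENNReal.ofReal_add (by norm_num) (by norm_num)]; norm_num

end Pool.Agent.H94.Sg
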