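import Pool.Agent.H94.Per2

open MeasureTheory Set ProbabilityTheory
open scoped ENNReal

namespace Pool.Agent.H94.Slab1
open Pool.Agent.H94.Per1 Pool.Agent.H94.Per2

set_option linter.unusedSectionVars false

variable {ι : Type*} [Fintype ι] [DecidableEq ι]

lemma nu_ae (u : ι → ℝ) (S : Finset ι) : ∀ᵐ z ∂nu u S, |z| ≤ ∑ j ∈ S, |u j| := by
  rw [nu, ae_map_iff (Measurable.aemeasurable (by fun_prop)) (by measurability)]
  have : ∀ᵐ ω ∂(Measure.pi fun _ : ι => un), ∀ j, |ω j| ≤ 1 :=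
    ae_all_iff.2 fun j => (Measure.tendsto_eval_ae_ae (μ := fun _ : ι => un) (i := j)).eventually un_ae
  filter_upwards [this] with ω hω
  refine (Finset.abs_sum_le_sum_abs _ _).trans (Finset.sum_le_sum fun j _ => ?_)
  rw [abs_mul]
  exact mul_le_of_le_one_right (abs_nonneg _) (hω j)

lemma int_cont (μ : Measure ℝ) [IsFiniteMeasure μ] (M : ℝ) (h : ∀ᵐ z ∂μ, |z| ≤ M) (f : ℝ → ℝ)
    (hf : Continuous f) : Integrable f μ := by
  obtain ⟨C, hC⟩ := (isCompact_Icc (a := -M) (b := M)).exists_bound_of_continuousOn hf.continuousOn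
  refine Integrable.of_bound hf.aestronglyMeasurable C ?_
  filter_upwards [h] with z hz
  exact hC z (abs_le.1 hz)

lemma int_nu (u : ι → ℝ) (S : Finset ι) (f : ℝ → ℝ) (hf : Continuous f) : Integrable f (nu u S) :=
  int_cont _ _ (nu_ae u S) f hf

lemma int_un (f : ℝ → ℝ) (hf : Continuous f) : Integrable f un := int_cont _ _ un_ae f hf

lemma integral_ua (c : ℝ) (f : ℝ → ℝ) (hf : Continuous f) :
    ∫ s, f s ∂ua c = ∫ v, f (c * v) ∂un := by
  rw [ua, integral_map (by fun_prop) hf.aestronglyMeasurable]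

lemma integral_un (f : ℝ → ℝ) : ∫ v, f v ∂un = (∫ v in (-1 : ℝ)..1, f v) / 2 := by
  rw [un, integral_smul_measure, integral_Icc_eq_integral_Ioc,
    ← intervalIntegral.integral_of_le (by norm_num)]
  simp; ring

noncomputable def mu (k : ℕ) : ℝ := (1 - (-1) ^ (k + 1)) / (k + 1) / 2

noncomputable def MM (u : ι → ℝ) (S : Finset ι) (k : ℕ) : ℝ := ∫ z, z ^ k ∂nu u S

lemma MM_insert (u : ι → ℝ) (S : Finset ι) (j : ι) (h : j ∉ S) (n : ℕ) :
    MM u (insert j S) n =
      ∑ i ∈ Finset.range (n + 1), MM u S i * (u j ^ (n - i) * mu (n - i) * n.choose i) := by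
  have hi := int_nu u (insert j S) (fun z => z ^ n) (by fun_prop)
  rw [MM]
  rw [nu_insert _ _ _ h] at hi ⊢
  rw [integral_conv hi]
  have e : ∀ z : ℝ, ∫ s, (z + s) ^ n ∂ua (u j) =
      ∑ i ∈ Finset.range (n + 1), z ^ i * (u j ^ (n - i) * mu (n - i) * n.choose i) := by
    intro z
    rw [integral_ua _ _ (by fun_prop)]
    simp_rw [add_pow]
    rw [integral_finsetSum _ fun i _ => int_un _ (by fun_prop)]
    refine Finset.sum_congr rfl fun i _ => ?_
    have : ∀ v : ℝ, z ^ i * (u j * v) ^ (n - i) * n.choose i =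
        (z ^ i * u j ^ (n - i) * n.choose i) * v ^ (n - i) := fun v => by ring
    simp_rw [this]
    rw [integral_const_mul, integral_un, integral_pow, mu]
    ring
  simp_rw [e]
  rw [integral_finsetSum _ fun i _ => int_nu _ _ _ (by fun_prop)]
  refine Finset.sum_congr rfl fun i _ => ?_
  rw [integral_mul_const, MM]

noncomputable def PP (u : ι → ℝ) (S : Finset ι) (k : ℕ) : ℝ := ∑ j ∈ S, (u j ^ 2) ^ k

lemma MM_zero (u : ι → ℝ) (S : Finset ι) : MM u S 0 = 1 := by simp [MM]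

lemma moments (u : ι → ℝ) (S : Finset ι) :
    MM u S 2 = PP u S 1 / 3 ∧
    MM u S 4 = PP u S 1 ^ 2 / 3 - 2 / 15 * PP u S 2 ∧
    MM u S 6 = 5 / 9 * PP u S 1 ^ 3 - 2 / 3 * PP u S 1 * PP u S 2 + 16 / 63 * PP u S 3 ∧
    MM u S 8 = 35 / 27 * PP u S 1 ^ 4 - 28 / 9 * PP u S 1 ^ 2 * PP u S 2 +
      64 / 27 * PP u S 1 * PP u S 3 + 28 / 45 * PP u S 2 ^ 2 - 16 / 15 * PP u S 4 ∧
    MM u S 10 = 35 / 9 * PP u S 1 ^ 5 - 140 / 9 * PP u S 1 ^ 3 * PP u S 2 +
      160 / 9 * PP u S 1 ^ 2 * PP u S 3 + 28 / 3 * PP u S 1 * PP u S 2 ^ 2 -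
      16 * PP u S 1 * PP u S 4 - 64 / 9 * PP u S 2 * PP u S 3 + 256 / 33 * PP u S 5 ∧
    MM u S 12 = 385 / 27 * PP u S 1 ^ 6 - 770 / 9 * PP u S 1 ^ 4 * PP u S 2 +
      3520 / 27 * PP u S 1 ^ 3 * PP u S 3 + 308 / 3 * PP u S 1 ^ 2 * PP u S 2 ^ 2 -
      176 * PP u S 1 ^ 2 * PP u S 4 - 1408 / 9 * PP u S 1 * PP u S 2 * PP u S 3 +
      512 / 3 * PP u S 1 * PP u S 5 - 616 / 45 * PP u S 2 ^ 3 + 352 / 5 * PP u S 2 * PP u S 4 +
      5632 / 189 * PP u S 3 ^ 2 - 353792 / 4095 * PP u S 6 := by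
  induction S using Finset.induction_on with
  | empty => simp [MM, PP, nu_empty]
  | insert j S hj ih =>
    obtain ⟨h2, h4, h6, h8, h10, h12⟩ := ih
    have hP : ∀ k, PP u (insert j S) k = (u j ^ 2) ^ k + PP u S k := fun k => Finset.sum_insert hj
    simp only [hP, MM_insert u S j hj, Finset.sum_range_succ, Finset.sum_range_zero, MM_zero,
      h2, h4, h6, h8, h10, h12, mu]
    norm_num [Nat.choose]
    refine ⟨?_, ?_, ?_, ?_, ?_, ?_⟩ <;> ring

lemma PP_nonneg (u : ι → ℝ) (S : Finset ι) (k : ℕ) : 0 ≤ PP u S k :=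
  Finset.sum_nonneg fun _ _ => by positivity

lemma PP_succ (u : ι → ℝ) (S : Finset ι) (θ : ℝ) (h : ∀ j ∈ S, u j ^ 2 ≤ θ) (k : ℕ) :
    PP u S (k + 1) ≤ θ * PP u S k := by
  rw [PP, PP, Finset.mul_sum]
  refine Finset.sum_le_sum fun j hj => ?_
  rw [pow_succ, mul_comm]
  exact mul_le_mul_of_nonneg_right (h j hj) (by positivity)

lemma layer (h : ℝ → ℝ≥0∞) (hm : Measurable h) (hEU : EU h) (hfin : ∀ x, h x ≠ ⊤) (M : ℝ)
    (hM : ∀ x, M < |x| → h x = 0) (φ ψ : ℝ → ℝ≥0∞) (hφ : Measurable φ) (hψ : Measurable ψ)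
    (H : ∀ r, 0 ≤ r → ∫⁻ x in Icc (-r) r, φ x ≤ ∫⁻ x in Icc (-r) r, ψ x) :
    ∫⁻ x, φ x * h x ≤ ∫⁻ x, ψ x * h x := by
  have hA : ∀ s : ℝ, MeasurableSet {x | ENNReal.ofReal s < h x} := fun s =>
    measurableSet_lt measurable_const hm
  have key : ∀ f : ℝ → ℝ≥0∞, Measurable f → ∫⁻ x, f x * h x =
      ∫⁻ s in Ioi (0 : ℝ), ∫⁻ x in {x | ENNReal.ofReal s < h x}, f x := by
    intro f hf
    have m : Measurable fun p : ℝ × ℝ => {p : ℝ × ℝ | ENNReal.ofReal p.2 < h p.1}.indicator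
        (fun p => f p.1) p :=
      (hf.comp measurable_fst).indicator
        (measurableSet_lt (by fun_prop) (hm.comp measurable_fst))
    have e : ∀ x, f x * h x = ∫⁻ s in Ioi (0 : ℝ), {p : ℝ × ℝ | ENNReal.ofReal p.2 < h p.1}.indicator
        (fun p => f p.1) (x, s) := by
      intro x
      have : (fun s : ℝ => {p : ℝ × ℝ | ENNReal.ofReal p.2 < h p.1}.indicator (fun p => f p.1) (x, s)) =
          {s : ℝ | ENNReal.ofReal s < h x}.indicator fun _ => f x := by
        ext s; simp only [indicator, mem_ofPred_eq]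
      rw [this, lintegral_indicator_const (measurableSet_lt (by fun_prop) measurable_const),
        Measure.restrict_apply (measurableSet_lt (by fun_prop) measurable_const)]
      have : {s : ℝ | ENNReal.ofReal s < h x} ∩ Ioi 0 = Ioo 0 (h x).toReal := by
        ext s
        simp only [mem_inter_iff, mem_ofPred_eq, mem_Ioi, mem_Ioo]
        constructor
        · rintro ⟨h1, h2⟩
          exact ⟨h2, (ENNReal.ofReal_lt_iff_lt_toReal h2.le (hfin x)).1 h1⟩
        · rintro ⟨h1, h2⟩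
          exact ⟨(ENNReal.ofReal_lt_iff_lt_toReal h1.le (hfin x)).2 h2, h1⟩
      rw [this, Real.volume_Ioo, sub_zero, ENNReal.ofReal_toReal (hfin x)]
    simp_rw [e]
    rw [lintegral_lintegral_swap m.aemeasurable]
    refine lintegral_congr fun s => ?_
    rw [← lintegral_indicator (hA s)]
    refine lintegral_congr fun x => ?_
    by_cases hx : ENNReal.ofReal s < h x <;> simp [indicator, hx]
  rw [key φ hφ, key ψ hψ]
  refine setLIntegral_mono' measurableSet_Ioi fun s hs => ?_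
  obtain ⟨r, hr, e⟩ : ∃ r, 0 ≤ r ∧ {x | ENNReal.ofReal s < h x} =ᵐ[volume] Icc (-r) r := by
    by_cases hne : {x | ENNReal.ofReal s < h x}.Nonempty
    · have hb : BddAbove ((fun x => |x|) '' {x | ENNReal.ofReal s < h x}) := by
        refine ⟨M, ?_⟩
        rintro _ ⟨x, hx, rfl⟩
        by_contra hc
        have := hM x (not_le.1 hc)
        simp only [mem_ofPred_eq, this] at hx
        exact absurd hx (not_lt.2 zero_le)
      set r := sSup ((fun x => |x|) '' {x | ENNReal.ofReal s < h x})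
      have h1 : {x | ENNReal.ofReal s < h x} ⊆ Icc (-r) r := fun x hx =>
        abs_le.1 (le_csSup hb ⟨x, hx, rfl⟩)
      have h2 : Ioo (-r) r ⊆ {x | ENNReal.ofReal s < h x} := fun x hx => by
        obtain ⟨_, ⟨y, hy, rfl⟩, h3⟩ := exists_lt_of_lt_csSup (hne.image _) (abs_lt.2 hx)
        exact lt_of_lt_of_le hy (hEU x y h3.le)
      obtain ⟨x, hx⟩ := hne
      refine ⟨r, (abs_nonneg x).trans (abs_le.2 (h1 hx)), ?_⟩
      exact (LE.le.eventuallyLE h1).antisymm
        (Ioo_ae_eq_Icc.symm.le.trans (LE.le.eventuallyLE h2))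
    · refine ⟨0, le_rfl, ?_⟩
      rw [not_nonempty_iff_eq_empty.1 hne]
      simp only [neg_zero, Icc_self]
      exact (ae_eq_empty.2 (measure_singleton _)).symm
  rw [setLIntegral_congr e, setLIntegral_congr e]
  exact H r hr

lemma layer_nu (u : ι → ℝ) (S : Finset ι) (j : ι) (hj : j ∈ S) (h0 : u j ≠ 0)
    (φ ψ : ℝ → ℝ≥0∞) (hφ : Measurable φ) (hψ : Measurable ψ)
    (H : ∀ r, 0 ≤ r → ∫⁻ x in Icc (-r) r, φ x ≤ ∫⁻ x in Icc (-r) r, ψ x) :
    ∫⁻ x, φ x ∂nu u S ≤ ∫⁻ x, ψ x ∂nu u S := by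
  obtain ⟨T, hT, rfl⟩ : ∃ T, j ∉ T ∧ S = insert j T :=
    ⟨S.erase j, Finset.notMem_erase _ _, (Finset.insert_erase hj).symm⟩
  rw [lint_dens u T j hT h0 φ hφ, lint_dens u T j hT h0 ψ hψ]
  refine layer _ (meas_dens _ _) (EU_dens u T _) (dens_ne_top _ _) (|u j| + ∑ i ∈ T, |u i|) ?_ φ ψ hφ hψ H
  intro x hx
  rw [dens, win, measure_mono_null _ (ae_iff.1 (nu_ae u T)), mul_zero]
  intro z hz hz2
  have h1 : |x + z| ≤ |u j| := hz
  have : |x| ≤ |x + z| + |z| := by
    calc |x| = |x + z - z| := by ring_nf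
      _ ≤ _ := abs_sub _ _
  linarith

lemma layer_real (u : ι → ℝ) (S : Finset ι) (j : ι) (hj : j ∈ S) (h0 : u j ≠ 0)
    (ψ : ℝ → ℝ) (hψ : Measurable ψ) (hloc : ∀ r, IntegrableOn ψ (Icc (-r) r))
    (hint : Integrable ψ (nu u S)) (H : ∀ r, 0 ≤ r → 0 ≤ ∫ x in Icc (-r) r, ψ x) :
    0 ≤ ∫ x, ψ x ∂nu u S := by
  have := layer_nu u S j hj h0 (fun x => ENNReal.ofReal (-ψ x)) (fun x => ENNReal.ofReal (ψ x))
    (by fun_prop) (by fun_prop) (fun r hr => by
      have h1 := H r hr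
      rw [integral_eq_lintegral_pos_part_sub_lintegral_neg_part (hloc r), sub_nonneg] at h1
      exact (ENNReal.toReal_le_toReal (hloc r).neg.lintegral_lt_top.ne
        (hloc r).lintegral_lt_top.ne).1 h1)
  rw [integral_eq_lintegral_pos_part_sub_lintegral_neg_part hint, sub_nonneg]
  exact ENNReal.toReal_mono hint.lintegral_lt_top.ne this

lemma slab_mono (u : ι → ℝ) (S : Finset ι) (j : ι) (hj : j ∈ S) (h0 : u j ≠ 0) (t T : ℝ)
    (ht : 0 < t) (htT : t ≤ T) (h : (nu u S).real {z | T < |z|} ≤ 1 - T) :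
    ENNReal.ofReal t ≤ nu u S {z | |z| ≤ t} := by
  have hT : 0 < T := ht.trans_le htT
  have e : ∀ x : ℝ, {z : ℝ | |z| ≤ x} = Icc (-x) x := fun x => by ext z; simp [abs_le]
  have h1 := layer_nu u S j hj h0 ((Icc (-T) T).indicator fun _ => ENNReal.ofReal t)
    ((Icc (-t) t).indicator fun _ => ENNReal.ofReal T)
    (measurable_const.indicator measurableSet_Icc) (measurable_const.indicator measurableSet_Icc)
    (fun r hr => by
      rw [lintegral_indicator_const measurableSet_Icc, lintegral_indicator_const measurableSet_Icc,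
        Measure.restrict_apply measurableSet_Icc, Measure.restrict_apply measurableSet_Icc,
        Icc_inter_Icc, Icc_inter_Icc, Real.volume_Icc, Real.volume_Icc,
        ← ENNReal.ofReal_mul ht.le, ← ENNReal.ofReal_mul hT.le]
      apply ENNReal.ofReal_le_ofReal
      rcases le_total r t with h2 | h2
      · rw [min_eq_right h2, min_eq_right (h2.trans htT), max_eq_right (neg_le_neg h2),
          max_eq_right (neg_le_neg (h2.trans htT))]
        nlinarith
      · rw [min_eq_left h2, max_eq_left (neg_le_neg h2)]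
        have := min_le_left T r
        have := le_max_left (-T) (-r)
        nlinarith)
  rw [lintegral_indicator_const measurableSet_Icc, lintegral_indicator_const measurableSet_Icc] at h1
  have h2 : ENNReal.ofReal T ≤ nu u S (Icc (-T) T) := by
    have h3 : {z : ℝ | T < |z|} = (Icc (-T) T)ᶜ := by rw [← e]; ext z; simp
    rw [h3, probReal_compl_eq_one_sub measurableSet_Icc] at h
    exact ENNReal.ofReal_le_of_le_toReal (by rw [← measureReal_def]; linarith)
  rw [e]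
  have h4 : ENNReal.ofReal T * ENNReal.ofReal t ≤ ENNReal.ofReal T * nu u S (Icc (-t) t) := by
    calc _ = ENNReal.ofReal t * ENNReal.ofReal T := mul_comm _ _
      _ ≤ ENNReal.ofReal t * nu u S (Icc (-T) T) := by gcongr
      _ ≤ _ := h1
  exact (ENNReal.mul_le_mul_iff_right (by simpa using hT) ENNReal.ofReal_ne_top).1 h4

end Pool.Agent.H94.Slab1
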