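import Pool.Agent.H94.Slab1

open MeasureTheory Set ProbabilityTheory
open scoped ENNReal

namespace Pool.Agent.H94.Slab2
open Pool.Agent.H94.Per1 Pool.Agent.H94.Per2 Pool.Agent.H94.Slab1

set_option linter.unusedSectionVars false

variable {ι : Type*} [Fintype ι] [DecidableEq ι]

noncomputable def HH (c x : ℝ) : ℝ := ∫ v, max (x + c * v) 0 ∂un

lemma HH_nonneg (c x : ℝ) : 0 ≤ HH c x := integral_nonneg fun _ => le_max_right _ _

lemma HH_neg (c x : ℝ) : HH (-c) x = HH c x := by
  have h1 := integral_ua (-c) (fun s => max (x + s) 0) (by fun_prop)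
  have h2 := integral_ua c (fun s => max (x + s) 0) (by fun_prop)
  rw [← ua_abs, abs_neg, ua_abs] at h1
  rw [HH, HH, ← h1, ← h2]

lemma HH_zero (c x : ℝ) (hc : 0 ≤ c) (h : x ≤ -c) : HH c x = 0 := by
  rw [HH, integral_congr_ae (g := fun _ => 0), integral_zero]
  filter_upwards [un_ae] with v hv
  exact max_eq_right (by nlinarith [(abs_le.1 hv).2])

lemma HH_lin (c x : ℝ) (hc : 0 ≤ c) (h : c ≤ x) : HH c x = x := by
  rw [HH, integral_congr_ae (g := fun v => x + c * v)]
  · rw [integral_un, intervalIntegral.integral_add, intervalIntegral.integral_const_mul]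
    · simp; ring
    all_goals exact Continuous.intervalIntegrable (by fun_prop) _ _
  filter_upwards [un_ae] with v hv
  exact max_eq_left (by nlinarith [(abs_le.1 hv).1])

lemma HH_mid (c x : ℝ) (hc : 0 < c) (h : |x| ≤ c) : HH c x = (x + c) ^ 2 / (4 * c) := by
  obtain ⟨h1, h2⟩ := abs_le.1 h
  have hp1 : -1 ≤ -x / c := by rw [le_div_iff₀ hc]; linarith
  have hp2 : -x / c ≤ 1 := by rw [div_le_iff₀ hc]; linarith
  have hp : c * (-x / c) = -x := by field_simp
  rw [HH, integral_un, ← intervalIntegral.integral_add_adjacent_intervals (b := -x / c)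
    (Continuous.intervalIntegrable (by fun_prop) _ _) (Continuous.intervalIntegrable (by fun_prop) _ _),
    intervalIntegral.integral_congr (g := fun _ => 0),
    intervalIntegral.integral_congr (a := -x / c) (g := fun v => x + c * v),
    intervalIntegral.integral_add, intervalIntegral.integral_const_mul]
  · simp; field_simp; ring
  · exact Continuous.intervalIntegrable (by fun_prop) _ _
  · exact Continuous.intervalIntegrable (by fun_prop) _ _
  · intro v hv
    rw [uIcc_of_le hp2] at hv
    exact max_eq_left (by nlinarith [hv.1])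
  · intro v hv
    rw [uIcc_of_le hp1] at hv
    exact max_eq_right (by nlinarith [hv.2])

lemma HH_le (c x : ℝ) (hc : 0 < c) : HH c x ≤ (x + c) ^ 2 / (4 * c) := by
  by_cases h1 : x ≤ -c
  · rw [HH_zero c x hc.le h1]; positivity
  by_cases h2 : c ≤ x
  · rw [HH_lin c x hc.le h2, le_div_iff₀ (by positivity)]; nlinarith [sq_nonneg (x - c)]
  · exact (HH_mid c x hc (abs_le.2 ⟨by linarith, by linarith⟩)).le

lemma HH_convex (a b l x : ℝ) (h0 : 0 ≤ l) (h1 : l ≤ 1) :
    HH ((1 - l) * a + l * b) x ≤ (1 - l) * HH a x + l * HH b x := by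
  rw [HH, HH, HH, ← integral_const_mul, ← integral_const_mul, ← integral_add (int_un _ (by fun_prop))
    (int_un _ (by fun_prop))]
  refine integral_mono (int_un _ (by fun_prop)) (int_un _ (by fun_prop)) fun v => ?_
  have a1 := le_max_left (x + a * v) 0
  have a2 := le_max_right (x + a * v) 0
  have a3 := le_max_left (x + b * v) 0
  have a4 := le_max_right (x + b * v) 0
  refine max_le ?_ ?_ <;> nlinarith

noncomputable def TT (c t y : ℝ) : ℝ≥0∞ := un {v | t < |y + c * v|}

lemma TT_eq (c t y : ℝ) :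
    TT c t y = ∫⁻ v, {p : ℝ × ℝ | t < |p.1 + c * p.2|}.indicator (fun _ => (1 : ℝ≥0∞)) (y, v) ∂un := by
  rw [TT, ← lintegral_indicator_one (by measurability)]
  refine lintegral_congr fun v => ?_
  by_cases h : t < |y + c * v| <;> simp [indicator, h]

lemma meas_ind (c t : ℝ) :
    Measurable ({p : ℝ × ℝ | t < |p.1 + c * p.2|}.indicator (fun _ => (1 : ℝ≥0∞))) :=
  measurable_const.indicator (measurableSet_lt measurable_const (by fun_prop))

lemma meas_TT (c t : ℝ) : Measurable (TT c t) := by
  have : TT c t = _ := funext fun y => TT_eq c t y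
  rw [this]
  exact Measurable.lintegral_prod_right' (meas_ind c t)

lemma TT_int (c t r : ℝ) (hr : 0 ≤ r) :
    ∫⁻ y in Icc (-r) r, TT c t y ≤ ENNReal.ofReal (2 * (HH c (r - t) - HH c (-r - t))) := by
  simp_rw [TT_eq]
  rw [lintegral_lintegral_swap (f := fun y v => {p : ℝ × ℝ | t < |p.1 + c * p.2|}.indicator
    (fun _ => (1 : ℝ≥0∞)) (y, v)) (meas_ind c t).aemeasurable]
  set k : ℝ → ℝ := fun s => max (r - t + s) 0 - max (-r - t + s) 0 with hk
  have k0 : ∀ s, 0 ≤ k s := fun s => sub_nonneg.2 (max_le_max (by linarith) le_rfl)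
  have b : ∀ v : ℝ, ∫⁻ y in Icc (-r) r,
      {p : ℝ × ℝ | t < |p.1 + c * p.2|}.indicator (fun _ => (1 : ℝ≥0∞)) (y, v) ≤
      ENNReal.ofReal (k (c * v) + k (-c * v)) := by
    intro v
    have e : (fun y : ℝ => {p : ℝ × ℝ | t < |p.1 + c * p.2|}.indicator (fun _ => (1 : ℝ≥0∞)) (y, v)) =
        {y : ℝ | t < |y + c * v|}.indicator 1 := by
      ext y
      by_cases h : t < |y + c * v| <;> simp [indicator, h]
    rw [e, lintegral_indicator_one (by measurability), Measure.restrict_apply (by measurability),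
      ENNReal.ofReal_add (k0 _) (k0 _)]
    have sub : {y : ℝ | t < |y + c * v|} ∩ Icc (-r) r ⊆
        Icc (r - k (c * v)) r ∪ Icc (-r) (-r + k (-c * v)) := by
      rintro y ⟨h1, h2, h3⟩
      rcases lt_abs.1 (show t < |y + c * v| from h1) with h | h
      · left
        refine ⟨?_, h3⟩
        simp only [hk]
        rcases le_total (-r - t + c * v) 0 with h4 | h4
        · rw [max_eq_right h4]; linarith [le_max_left (r - t + c * v) 0]
        · rw [max_eq_left h4]; linarith [le_max_left (r - t + c * v) 0]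
      · right
        refine ⟨h2, ?_⟩
        simp only [hk]
        rcases le_total (-r - t + -c * v) 0 with h4 | h4
        · rw [max_eq_right h4]; linarith [le_max_left (r - t + -c * v) 0]
        · rw [max_eq_left h4]; linarith [le_max_left (r - t + -c * v) 0]
    refine (measure_mono sub).trans ((measure_union_le _ _).trans ?_)
    rw [Real.volume_Icc, Real.volume_Icc]
    apply le_of_eq; congr 2 <;> ring
  refine (lintegral_mono b).trans (le_of_eq ?_)
  have hc : Continuous k := by rw [hk]; fun_prop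
  rw [← ofReal_integral_eq_lintegral_ofReal (int_un _ (by fun_prop))
    (Filter.Eventually.of_forall fun v => add_nonneg (k0 _) (k0 _)),
    integral_add (int_un _ (by fun_prop)) (int_un _ (by fun_prop))]
  simp only [hk]
  rw [integral_sub (int_un _ (by fun_prop)) (int_un _ (by fun_prop)),
    integral_sub (int_un _ (by fun_prop)) (int_un _ (by fun_prop))]
  change ENNReal.ofReal (HH c _ - HH c _ + (HH (-c) _ - HH (-c) _)) = _
  rw [HH_neg, HH_neg]; congr 1; ring

lemma tail_eq (μ : Measure ℝ) [IsProbabilityMeasure μ] (c t : ℝ) :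
    (μ ∗ ua c) {z | t < |z|} = ∫⁻ y, TT c t y ∂μ := by
  have hm : MeasurableSet {z : ℝ | t < |z|} := by measurability
  rw [← lintegral_indicator_one hm, Measure.lintegral_conv (measurable_one.indicator hm)]
  refine lintegral_congr fun y => ?_
  have e : (fun s : ℝ => {z : ℝ | t < |z|}.indicator (1 : ℝ → ℝ≥0∞) (y + s)) =
      {s : ℝ | t < |y + s|}.indicator 1 := by
    ext s
    by_cases h : t < |y + s| <;> simp [indicator, h]
  rw [e, lintegral_indicator_one (by measurability), ua, Measure.map_apply (by fun_prop) (by measurability)]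
  rfl

lemma ML (u : ι → ℝ) (S : Finset ι) (j : ι) (hj : j ∈ S) (h0 : u j ≠ 0) (c t : ℝ)
    (q0 q1 q2 q3 q4 q5 q6 : ℝ)
    (H : ∀ r, 0 ≤ r → HH c (r - t) - HH c (-r - t) ≤
      q0 * r + q1 * r ^ 3 + q2 * r ^ 5 + q3 * r ^ 7 + q4 * r ^ 9 + q5 * r ^ 11 + q6 * r ^ 13) :
    (nu u S ∗ ua c).real {z | t < |z|} ≤ q0 + 3 * q1 * MM u S 2 + 5 * q2 * MM u S 4 +
      7 * q3 * MM u S 6 + 9 * q4 * MM u S 8 + 11 * q5 * MM u S 10 + 13 * q6 * MM u S 12 := by
  set g : ℝ → ℝ := fun y => q0 + 3 * q1 * y ^ 2 + 5 * q2 * y ^ 4 + 7 * q3 * y ^ 6 + 9 * q4 * y ^ 8 +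
    11 * q5 * y ^ 10 + 13 * q6 * y ^ 12 with hg
  have hgc : Continuous g := by rw [hg]; fun_prop
  have hT1 : ∀ y, TT c t y ≤ 1 := fun y => prob_le_one
  have hTt : ∀ y, TT c t y < ⊤ := fun y => (hT1 y).trans_lt ENNReal.one_lt_top
  have hTm : Measurable fun y => (TT c t y).toReal := (meas_TT c t).ennreal_toReal
  have hTi : ∀ (μ : Measure ℝ) [IsFiniteMeasure μ], Integrable (fun y => (TT c t y).toReal) μ := by
    intro μ _
    refine Integrable.of_bound hTm.aestronglyMeasurable 1 (Filter.Eventually.of_forall fun y => ?_)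
    rw [Real.norm_of_nonneg ENNReal.toReal_nonneg]
    exact ENNReal.toReal_le_of_le_ofReal zero_le_one (by simpa using hT1 y)
  have hTe : ∀ (μ : Measure ℝ), ∫ y, (TT c t y).toReal ∂μ = (∫⁻ y, TT c t y ∂μ).toReal := fun μ =>
    integral_toReal (meas_TT c t).aemeasurable (Filter.Eventually.of_forall hTt)
  have key := layer_real u S j hj h0 (fun y => g y - (TT c t y).toReal) (hgc.measurable.sub hTm)
    (fun r => hgc.integrableOn_Icc.sub (hTi _)) ((int_nu u S g hgc).sub (hTi _)) (by
      intro r hr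
      rw [integral_sub hgc.integrableOn_Icc (hTi _), hTe, sub_nonneg]
      have h1 : ∫ y in Icc (-r) r, g y = 2 * (q0 * r + q1 * r ^ 3 + q2 * r ^ 5 + q3 * r ^ 7 +
          q4 * r ^ 9 + q5 * r ^ 11 + q6 * r ^ 13) := by
        rw [integral_Icc_eq_integral_Ioc, ← intervalIntegral.integral_of_le (by linarith)]
        have hd : ∀ y ∈ uIcc (-r) r, HasDerivAt (fun y => q0 * y + q1 * y ^ 3 + q2 * y ^ 5 + q3 * y ^ 7 +
            q4 * y ^ 9 + q5 * y ^ 11 + q6 * y ^ 13) (g y) y := by
          intro y _
          have := (((((((hasDerivAt_id y).const_mul q0).add ((hasDerivAt_pow 3 y).const_mul q1)).add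
            ((hasDerivAt_pow 5 y).const_mul q2)).add ((hasDerivAt_pow 7 y).const_mul q3)).add
            ((hasDerivAt_pow 9 y).const_mul q4)).add ((hasDerivAt_pow 11 y).const_mul q5)).add
            ((hasDerivAt_pow 13 y).const_mul q6)
          refine HasDerivAt.congr_deriv this ?_
          simp only [hg]; norm_num; ring
        rw [intervalIntegral.integral_eq_sub_of_hasDerivAt hd (hgc.intervalIntegrable _ _)]
        ring
      rw [h1]
      have h2 := H r hr
      have h3 : 0 ≤ HH c (r - t) - HH c (-r - t) := by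
        rw [sub_nonneg]
        exact integral_mono (int_un _ (by fun_prop)) (int_un _ (by fun_prop)) fun v =>
          max_le_max (by linarith) le_rfl
      refine (ENNReal.toReal_le_of_le_ofReal (by linarith) (TT_int c t r hr)).trans (by linarith))
  rw [integral_sub (int_nu u S g hgc) (hTi _), hTe, ← tail_eq, sub_nonneg] at key
  refine key.trans (le_of_eq ?_)
  simp only [hg]
  rw [integral_add, integral_add, integral_add, integral_add, integral_add, integral_add]
  · simp only [integral_const_mul, MM, integral_const, probReal_univ, smul_eq_mul, one_mul]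
  all_goals exact int_nu u S _ (by fun_prop)

/-! A checker for nonnegativity of rational polynomials on intervals. -/

noncomputable def ev : List ℚ → ℝ → ℝ
  | [], _ => 0
  | c :: l, x => c + x * ev l x

def padd : List ℚ → List ℚ → List ℚ
  | [], q => q
  | p, [] => p
  | a :: p, b :: q => (a + b) :: padd p q

lemma ev_padd : ∀ (p q : List ℚ) (x : ℝ), ev (padd p q) x = ev p x + ev q x
  | [], q, x => by simp [padd, ev]
  | a :: p, [], x => by simp [padd, ev]
  | a :: p, b :: q, x => by simp [padd, ev, ev_padd p q x]; ring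

lemma ev_map (a : ℚ) : ∀ (p : List ℚ) (x : ℝ), ev (p.map (a * ·)) x = a * ev p x
  | [], x => by simp [ev]
  | b :: p, x => by simp only [List.map_cons, ev, ev_map a p x]; push_cast; ring

def shift (a : ℚ) : List ℚ → List ℚ
  | [] => []
  | c :: l => padd (c :: shift a l) ((shift a l).map (a * ·))

lemma ev_shift (a : ℚ) : ∀ (l : List ℚ) (x : ℝ), ev (shift a l) x = ev l (a + x)
  | [], x => by simp [shift, ev]
  | c :: l, x => by simp only [shift, ev_padd, ev_map, ev, ev_shift a l x]; ring

def lb (h : ℚ) : List ℚ → ℚ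
  | [] => 0
  | c :: l => c + h * min (lb h l) 0

lemma lb_le (h : ℚ) (x : ℝ) (h0 : 0 ≤ x) (h1 : x ≤ h) : ∀ l : List ℚ, (lb h l : ℝ) ≤ ev l x
  | [] => by simp [lb, ev]
  | c :: l => by
    have ih := lb_le h x h0 h1 l
    simp only [lb, ev]
    push_cast
    have a1 := min_le_left (lb h l : ℝ) 0
    have a2 := min_le_right (lb h l : ℝ) 0
    nlinarith

def chk (l : List ℚ) : ℚ → List ℚ → Bool
  | _, [] => true
  | x, y :: pts => decide (0 ≤ lb (y - x) (shift x l)) && chk l y pts

lemma chk_sound (l : List ℚ) : ∀ (pts : List ℚ) (x y : ℚ), chk l x (y :: pts) = true →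
    ∀ r : ℝ, (x : ℝ) ≤ r → r ≤ ((y :: pts).getLast (by simp) : ℚ) → 0 ≤ ev l r := by
  intro pts
  induction pts with
  | nil =>
    intro x y h r h1 h2
    simp only [chk, Bool.and_true, decide_eq_true_eq] at h
    have := lb_le (y - x) (r - x) (by linarith) (by simpa using h2) (shift x l)
    rw [ev_shift, add_sub_cancel] at this
    exact le_trans (by exact_mod_cast h) this
  | cons z pts ih =>
    intro x y h r h1 h2
    rw [chk, Bool.and_eq_true, decide_eq_true_eq] at h
    by_cases h3 : r ≤ y
    · have := lb_le (y - x) (r - x) (by linarith) (by simpa using h3) (shift x l)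
      rw [ev_shift, add_sub_cancel] at this
      exact le_trans (by exact_mod_cast h.1) this
    · exact ih y z h.2 r (not_le.1 h3).le (by simpa using h2)

lemma ev_nonneg (x : ℝ) (hx : 0 ≤ x) : ∀ l : List ℚ, l.all (fun c => decide (0 ≤ c)) = true → 0 ≤ ev l x
  | [], _ => by simp [ev]
  | c :: l, h => by
    simp only [List.all_cons, Bool.and_eq_true, decide_eq_true_eq] at h
    have := ev_nonneg x hx l h.2
    have h1 : (0 : ℝ) ≤ c := by exact_mod_cast h.1
    simp only [ev]; positivity

lemma chk_inf (l : List ℚ) (pts : List ℚ) (x y : ℚ) (h : chk l x (y :: pts) = true)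
    (h2 : (shift ((y :: pts).getLast (by simp)) l).all (fun c => decide (0 ≤ c)) = true)
    (r : ℝ) (h1 : (x : ℝ) ≤ r) : 0 ≤ ev l r := by
  by_cases h3 : r ≤ ((y :: pts).getLast (by simp) : ℚ)
  · exact chk_sound l pts x y h r h1 h3
  · have := ev_nonneg (r - ((y :: pts).getLast (by simp) : ℚ)) (by linarith) _ h2
    rwa [ev_shift, add_sub_cancel] at this

end Pool.Agent.H94.Slab2
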