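import Pool.Agent.H94.Slab2

open MeasureTheory Set ProbabilityTheory
open scoped ENNReal

namespace Pool.Agent.H94.Slab3
open Pool.Agent.H94.Per1 Pool.Agent.H94.Per2 Pool.Agent.H94.Slab1 Pool.Agent.H94.Slab2

set_option linter.unusedSectionVars false
set_option linter.style.longLine false

variable {ι : Type*} [Fintype ι] [DecidableEq ι]

lemma cC0 (r : ℝ) (h1 : (0 : ℝ) ≤ r) (h2 : r ≤ (1657 / 2000 : ℝ)) :
    0 ≤ (63068139 / 1000000000 : ℝ) * r ^ 0 + (-49335019 / 100000000 : ℝ) * r ^ 2 + (5737183 / 5000000 : ℝ) * r ^ 4 + (-18097359 / 25000000 : ℝ) * r ^ 6 + (4248951 / 20000000 : ℝ) * r ^ 8 + (-14825573 / 500000000 : ℝ) * r ^ 10 + (15842731 / 10000000000 : ℝ) * r ^ 12 := by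
  have := chk_sound [63068139 / 1000000000, 0, -49335019 / 100000000, 0, 5737183 / 5000000, 0, -18097359 / 25000000, 0, 4248951 / 20000000, 0, -14825573 / 500000000, 0, 15842731 / 10000000000] [3 / 8, 7 / 16, 31 / 64, 65 / 128, 67 / 128, 35 / 64, 1657 / 2000] (0) (1 / 4) (by decide +kernel) r (by push_cast; linarith) (by simp only [List.getLast_cons_cons, List.getLast_singleton]; push_cast; linarith)
  simp only [ev] at this
  push_cast at this
  refine le_of_le_of_eq this ?_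
  ring

lemma cC1 (r : ℝ) (h1 : (1657 / 2000 : ℝ) ≤ r) :
    0 ≤ (1657 / 2000 : ℝ) * r ^ 0 + (-936931861 / 1000000000 : ℝ) * r ^ 1 + (-49335019 / 100000000 : ℝ) * r ^ 3 + (5737183 / 5000000 : ℝ) * r ^ 5 + (-18097359 / 25000000 : ℝ) * r ^ 7 + (4248951 / 20000000 : ℝ) * r ^ 9 + (-14825573 / 500000000 : ℝ) * r ^ 11 + (15842731 / 10000000000 : ℝ) * r ^ 13 := by
  have := chk_inf [1657 / 2000, -936931861 / 1000000000, 0, -49335019 / 100000000, 0, 5737183 / 5000000, 0, -18097359 / 25000000, 0, 4248951 / 20000000, 0, -14825573 / 500000000, 0, 15842731 / 10000000000] [3939 / 4000, 8253 / 8000, 16881 / 16000, 17131 / 16000, 17381 / 16000, 18381 / 16000, 22381 / 16000, 25381 / 16000, 26381 / 16000, 6689 / 4000, 27131 / 16000, 35131 / 16000, 36631 / 16000, 37381 / 16000, 37631 / 16000, 9439 / 4000, 37881 / 16000, 5 / 2] (1657 / 2000) (3689 / 4000) (by decide +kernel) (by decide +kernel) r (by push_cast; linarith)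
  simp only [ev] at this
  push_cast at this
  refine le_of_le_of_eq this ?_
  ring

lemma cB10 (r : ℝ) (h1 : (0 : ℝ) ≤ r) (h2 : r ≤ (1097 / 2000 : ℝ)) :
    0 ≤ (59 / 10000 : ℝ) * r ^ 0 + (-15539 / 200000 : ℝ) * r ^ 2 + (403887 / 1000000 : ℝ) * r ^ 4 + (-168583 / 1000000 : ℝ) * r ^ 6 + (10357 / 500000 : ℝ) * r ^ 8 := by
  have := chk_sound [59 / 10000, 0, -15539 / 200000, 0, 403887 / 1000000, 0, -168583 / 1000000, 0, 10357 / 500000] [3 / 8, 1097 / 2000] (0) (1 / 4) (by decide +kernel) r (by push_cast; linarith) (by simp only [List.getLast_cons_cons, List.getLast_singleton]; push_cast; linarith)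
  simp only [ev] at this
  push_cast at this
  refine le_of_le_of_eq this ?_
  ring

lemma cB11 (r : ℝ) (h1 : (1097 / 2000 : ℝ) ≤ r) (h2 : r ≤ (2217 / 2000 : ℝ)) :
    0 ≤ (-1203409 / 4000000 : ℝ) * r ^ 0 + (137951 / 125000 : ℝ) * r ^ 1 + (-1 : ℝ) * r ^ 2 + (-108773 / 1250000 : ℝ) * r ^ 3 + (2827209 / 6250000 : ℝ) * r ^ 5 + (-1180081 / 6250000 : ℝ) * r ^ 7 + (72499 / 3125000 : ℝ) * r ^ 9 := by
  have := chk_sound [-1203409 / 4000000, 137951 / 125000, -1, -108773 / 1250000, 0, 2827209 / 6250000, 0, -1180081 / 6250000, 0, 72499 / 3125000] [861 / 1000, 493 / 500, 2217 / 2000] (1097 / 2000) (92 / 125) (by decide +kernel) r (by push_cast; linarith) (by simp only [List.getLast_cons_cons, List.getLast_singleton]; push_cast; linarith)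
  simp only [ev] at this
  push_cast at this
  refine le_of_le_of_eq this ?_
  ring

lemma cB12 (r : ℝ) (h1 : (2217 / 2000 : ℝ) ≤ r) :
    0 ≤ (1657 / 2000 : ℝ) * r ^ 0 + (-9941 / 10000 : ℝ) * r ^ 1 + (-15539 / 200000 : ℝ) * r ^ 3 + (403887 / 1000000 : ℝ) * r ^ 5 + (-168583 / 1000000 : ℝ) * r ^ 7 + (10357 / 500000 : ℝ) * r ^ 9 := by
  have := chk_inf [1657 / 2000, -9941 / 10000, 0, -15539 / 200000, 0, 403887 / 1000000, 0, -168583 / 1000000, 0, 10357 / 500000] [3467 / 2000, 449 / 250, 7309 / 4000, 2] (2217 / 2000) (3217 / 2000) (by decide +kernel) (by decide +kernel) r (by push_cast; linarith)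
  simp only [ev] at this
  push_cast at this
  refine le_of_le_of_eq this ?_
  ring

lemma cB20 (r : ℝ) (h1 : (0 : ℝ) ≤ r) (h2 : r ≤ (717 / 2000 : ℝ)) :
    0 ≤ (1 / 500 : ℝ) * r ^ 0 + (69613 / 500000 : ℝ) * r ^ 2 + (18699 / 125000 : ℝ) * r ^ 4 + (-39997 / 500000 : ℝ) * r ^ 6 + (11363 / 1000000 : ℝ) * r ^ 8 := by
  have := chk_sound [1 / 500, 0, 69613 / 500000, 0, 18699 / 125000, 0, -39997 / 500000, 0, 11363 / 1000000] [] (0) (717 / 2000) (by decide +kernel) r (by push_cast; linarith) (by simp only [List.getLast_cons_cons, List.getLast_singleton]; push_cast; linarith)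
  simp only [ev] at this
  push_cast at this
  refine le_of_le_of_eq this ?_
  ring

lemma cB21 (r : ℝ) (h1 : (717 / 2000 : ℝ) ≤ r) (h2 : r ≤ (2597 / 2000 : ℝ)) :
    0 ≤ (-514089 / 4000000 : ℝ) * r ^ 0 + (18019 / 25000 : ℝ) * r ^ 1 + (-1 : ℝ) * r ^ 2 + (3271811 / 12500000 : ℝ) * r ^ 3 + (878853 / 3125000 : ℝ) * r ^ 5 + (-1879859 / 12500000 : ℝ) * r ^ 7 + (534061 / 25000000 : ℝ) * r ^ 9 := by
  have := chk_sound [-514089 / 4000000, 18019 / 25000, -1, 3271811 / 12500000, 0, 878853 / 3125000, 0, -1879859 / 12500000, 0, 534061 / 25000000] [199 / 250, 921 / 1000, 2597 / 2000] (717 / 2000) (1217 / 2000) (by decide +kernel) r (by push_cast; linarith) (by simp only [List.getLast_cons_cons, List.getLast_singleton]; push_cast; linarith)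
  simp only [ev] at this
  push_cast at this
  refine le_of_le_of_eq this ?_
  ring

lemma cB22 (r : ℝ) (h1 : (2597 / 2000 : ℝ) ≤ r) :
    0 ≤ (1657 / 2000 : ℝ) * r ^ 0 + (-499 / 500 : ℝ) * r ^ 1 + (69613 / 500000 : ℝ) * r ^ 3 + (18699 / 125000 : ℝ) * r ^ 5 + (-39997 / 500000 : ℝ) * r ^ 7 + (11363 / 1000000 : ℝ) * r ^ 9 := by
  have := chk_inf [1657 / 2000, -499 / 500, 0, 69613 / 500000, 0, 18699 / 125000, 0, -39997 / 500000, 0, 11363 / 1000000] [3347 / 2000, 2] (2597 / 2000) (3097 / 2000) (by decide +kernel) (by decide +kernel) r (by push_cast; linarith)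
  simp only [ev] at this
  push_cast at this
  refine le_of_le_of_eq this ?_
  ring

lemma cF1 (r : ℝ) (h1 : (7 / 25 : ℝ) ≤ r) (h2 : r ≤ (47 / 100 : ℝ)) :
    0 ≤ (386843 / 19000000 : ℝ) * r ^ 0 + (-55381 / 427500 : ℝ) * r ^ 1 + (4530349 / 14250000 : ℝ) * r ^ 2 + (-12589 / 71250 : ℝ) * r ^ 3 + (-422613 / 1900000 : ℝ) * r ^ 4 + (13457 / 57000 : ℝ) * r ^ 5 + (1696457 / 3800000 : ℝ) * r ^ 6 + (-165361 / 342000 : ℝ) * r ^ 7 + (-2293879 / 5700000 : ℝ) * r ^ 8 + (21819 / 38000 : ℝ) * r ^ 9 := by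
  have := chk_sound [386843 / 19000000, -55381 / 427500, 4530349 / 14250000, -12589 / 71250, -422613 / 1900000, 13457 / 57000, 1696457 / 3800000, -165361 / 342000, -2293879 / 5700000, 21819 / 38000] [] (7 / 25) (47 / 100) (by decide +kernel) r (by push_cast; linarith) (by simp only [List.getLast_cons_cons, List.getLast_singleton]; push_cast; linarith)
  simp only [ev] at this
  push_cast at this
  refine le_of_le_of_eq this ?_
  ring

lemma cF2 (r : ℝ) (h1 : (7 / 25 : ℝ) ≤ r) (h2 : r ≤ (47 / 100 : ℝ)) :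
    0 ≤ (386843 / 19000000 : ℝ) * r ^ 0 + (-55381 / 427500 : ℝ) * r ^ 1 + (1449547 / 3562500 : ℝ) * r ^ 2 + (-7727 / 28500 : ℝ) * r ^ 3 + (-29553933 / 23750000 : ℝ) * r ^ 4 + (3008273 / 2137500 : ℝ) * r ^ 5 + (933177397 / 285000000 : ℝ) * r ^ 6 + (-12152273 / 2850000 : ℝ) * r ^ 7 + (-109123101 / 47500000 : ℝ) * r ^ 8 + (3113883 / 950000 : ℝ) * r ^ 9 := by
  have := chk_sound [386843 / 19000000, -55381 / 427500, 1449547 / 3562500, -7727 / 28500, -29553933 / 23750000, 3008273 / 2137500, 933177397 / 285000000, -12152273 / 2850000, -109123101 / 47500000, 3113883 / 950000] [] (7 / 25) (47 / 100) (by decide +kernel) r (by push_cast; linarith) (by simp only [List.getLast_cons_cons, List.getLast_singleton]; push_cast; linarith)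
  simp only [ev] at this
  push_cast at this
  refine le_of_le_of_eq this ?_
  ring

lemma cF3 (r : ℝ) (h1 : (7 / 25 : ℝ) ≤ r) (h2 : r ≤ (47 / 100 : ℝ)) :
    0 ≤ (242351 / 1187500 : ℝ) * r ^ 0 + (-23623 / 106875 : ℝ) * r ^ 1 + (-655394 / 890625 : ℝ) * r ^ 2 + (12468 / 11875 : ℝ) * r ^ 3 := by
  have := chk_sound [242351 / 1187500, -23623 / 106875, -655394 / 890625, 12468 / 11875] [] (7 / 25) (47 / 100) (by decide +kernel) r (by push_cast; linarith) (by simp only [List.getLast_cons_cons, List.getLast_singleton]; push_cast; linarith)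
  simp only [ev] at this
  push_cast at this
  refine le_of_le_of_eq this ?_
  ring

lemma cG (r : ℝ) (h1 : (0 : ℝ) ≤ r) (h2 : r ≤ (49 / 625 : ℝ)) :
    0 ≤ (38369383 / 54000000000 : ℝ) * r ^ 0 + (226093806521 / 16875000000000 : ℝ) * r ^ 1 + (-5088882323042707 / 26367187500000000 : ℝ) * r ^ 2 + (15858573731 / 56250000000 : ℝ) * r ^ 3 := by
  have := chk_sound [38369383 / 54000000000, 226093806521 / 16875000000000, -5088882323042707 / 26367187500000000, 15858573731 / 56250000000] [] (0) (49 / 625) (by decide +kernel) r (by push_cast; linarith) (by simp only [List.getLast_cons_cons, List.getLast_singleton]; push_cast; linarith)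
  simp only [ev] at this
  push_cast at this
  refine le_of_le_of_eq this ?_
  ring

lemma piece1 (r : ℝ) (hr : 0 ≤ r) : HH (7 / 25 : ℝ) (r - (1657 / 2000 : ℝ)) ≤ (59 / 10000 : ℝ) * r + (-15539 / 200000 : ℝ) * r ^ 3 + (403887 / 1000000 : ℝ) * r ^ 5 + (-168583 / 1000000 : ℝ) * r ^ 7 + (10357 / 500000 : ℝ) * r ^ 9 := by
  by_cases h1 : r ≤ (1657 / 2000 : ℝ) - (7 / 25 : ℝ)
  · rw [HH_zero _ _ (by norm_num) (by linarith)]
    have := mul_nonneg hr (cB10 r (by linarith) (by linarith))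
    nlinarith
  by_cases h2 : r ≤ (1657 / 2000 : ℝ) + (7 / 25 : ℝ)
  · refine (HH_le _ _ (by norm_num)).trans ?_
    rw [div_le_iff₀ (by norm_num)]
    have := cB11 r (by linarith) (by linarith)
    nlinarith
  · rw [HH_lin _ _ (by norm_num) (by linarith)]
    have := cB12 r (by linarith)
    nlinarith

lemma piece2 (r : ℝ) (hr : 0 ≤ r) : HH (47 / 100 : ℝ) (r - (1657 / 2000 : ℝ)) ≤ (1 / 500 : ℝ) * r + (69613 / 500000 : ℝ) * r ^ 3 + (18699 / 125000 : ℝ) * r ^ 5 + (-39997 / 500000 : ℝ) * r ^ 7 + (11363 / 1000000 : ℝ) * r ^ 9 := by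
  by_cases h1 : r ≤ (1657 / 2000 : ℝ) - (47 / 100 : ℝ)
  · rw [HH_zero _ _ (by norm_num) (by linarith)]
    have := mul_nonneg hr (cB20 r (by linarith) (by linarith))
    nlinarith
  by_cases h2 : r ≤ (1657 / 2000 : ℝ) + (47 / 100 : ℝ)
  · refine (HH_le _ _ (by norm_num)).trans ?_
    rw [div_le_iff₀ (by norm_num)]
    have := cB21 r (by linarith) (by linarith)
    nlinarith
  · rw [HH_lin _ _ (by norm_num) (by linarith)]
    have := cB22 r (by linarith)
    nlinarith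

lemma regC (u : ι → ℝ) (j : ι) (h0 : u j ≠ 0) (hs : PP u Finset.univ 1 = 1)
    (hθ : ∀ i, u i ^ 2 ≤ 49 / 625) :
    (nu u Finset.univ).real {z | (1657 / 2000 : ℝ) < |z|} ≤ 1 - (1657 / 2000 : ℝ) := by
  have h := ML u Finset.univ j (Finset.mem_univ _) h0 0 (1657 / 2000 : ℝ) (63068139 / 1000000000 : ℝ) (-49335019 / 100000000 : ℝ) (5737183 / 5000000 : ℝ) (-18097359 / 25000000 : ℝ) (4248951 / 20000000 : ℝ) (-14825573 / 500000000 : ℝ) (15842731 / 10000000000 : ℝ) (by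
    intro r hr
    have h3 := HH_nonneg 0 (-r - (1657 / 2000 : ℝ))
    by_cases h1 : r ≤ (1657 / 2000 : ℝ)
    · rw [HH_zero _ _ le_rfl (by linarith)]
      have := mul_nonneg hr (cC0 r (by linarith) (by linarith))
      nlinarith
    · rw [HH_lin _ _ le_rfl (by linarith)]
      have := cC1 r (by linarith)
      nlinarith)
  rw [ua_zero, Measure.conv_dirac_zero] at h
  refine h.trans ?_
  obtain ⟨h2, h4, h6, h8, h10, h12⟩ := moments u Finset.univ
  rw [h2, h4, h6, h8, h10, h12, hs]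
  have b := fun k => PP_succ u Finset.univ (49 / 625) (fun i _ => hθ i) k
  have b1 := b 1
  have b2 := b 2
  have b4 := b 4
  have n := PP_nonneg u Finset.univ
  have n2 := n 2
  have n3 := n 3
  have n4 := n 4
  have n6 := n 6
  rw [hs] at b1
  norm_num at b1 b2 b4
  set p := PP u Finset.univ 2
  set q := PP u Finset.univ 3
  set r := PP u Finset.univ 4
  set s := PP u Finset.univ 5
  set z := PP u Finset.univ 6
  have g := cG p (by linarith) (by linarith)
  have e1 : ((111285803 / 843750000 : ℝ) + (-634697503 / 703125000 : ℝ) * p) * q ≤ ((111285803 / 843750000 : ℝ) + (-634697503 / 703125000 : ℝ) * p) * (49 / 625 * p) :=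
    mul_le_mul_of_nonneg_left b2 (by linarith)
  have e2 : q ^ 2 ≤ (49 / 625 * p) ^ 2 := by gcongr
  have e3 : p * r ≤ 49 / 625 * r := by gcongr
  nlinarith

lemma regB (u : ι → ℝ) (S : Finset ι) (j : ι) (hj : j ∈ S) (h0 : u j ≠ 0) (a : ℝ)
    (ha1 : 7 / 25 ≤ a) (ha2 : a ≤ 47 / 100) (hs : PP u S 1 = 1 - a ^ 2)
    (hθ : ∀ i ∈ S, u i ^ 2 ≤ a ^ 2) :
    (nu u S ∗ ua a).real {z | (1657 / 2000 : ℝ) < |z|} ≤ 1 - (1657 / 2000 : ℝ) := by
  have h := ML u S j hj h0 a (1657 / 2000 : ℝ) ((2213 / 190000 : ℝ) + (-39 / 1900 : ℝ) * a) ((-7549993 / 19000000 : ℝ) + (216921 / 190000 : ℝ) * a) ((14794113 / 19000000 : ℝ) + (-50859 / 38000 : ℝ) * a) ((-5683569 / 19000000 : ℝ) + (88589 / 190000 : ℝ) * a) ((327697 / 9500000 : ℝ) + (-9351 / 190000 : ℝ) * a) 0 0 (by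
    intro r hr
    have h3 := HH_nonneg a (-r - (1657 / 2000 : ℝ))
    set l := (a - 7 / 25) * (100 / 19) with hl
    have l0 : 0 ≤ l := by rw [hl]; linarith
    have l1 : l ≤ 1 := by rw [hl]; linarith
    have h4 := HH_convex (7 / 25) (47 / 100) l (r - (1657 / 2000 : ℝ)) l0 l1
    rw [show (1 - l) * (7 / 25) + l * (47 / 100) = a by rw [hl]; ring] at h4
    have h5 := mul_le_mul_of_nonneg_left (piece1 r hr) (sub_nonneg.2 l1)
    have h6 := mul_le_mul_of_nonneg_left (piece2 r hr) l0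
    have e : (1 - l) * ((59 / 10000 : ℝ) * r + (-15539 / 200000 : ℝ) * r ^ 3 + (403887 / 1000000 : ℝ) * r ^ 5 + (-168583 / 1000000 : ℝ) * r ^ 7 + (10357 / 500000 : ℝ) * r ^ 9) + l * ((1 / 500 : ℝ) * r + (69613 / 500000 : ℝ) * r ^ 3 + (18699 / 125000 : ℝ) * r ^ 5 + (-39997 / 500000 : ℝ) * r ^ 7 + (11363 / 1000000 : ℝ) * r ^ 9) = ((2213 / 190000 : ℝ) + (-39 / 1900 : ℝ) * a) * r + ((-7549993 / 19000000 : ℝ) + (216921 / 190000 : ℝ) * a) * r ^ 3 + ((14794113 / 19000000 : ℝ) + (-50859 / 38000 : ℝ) * a) * r ^ 5 + ((-5683569 / 19000000 : ℝ) + (88589 / 190000 : ℝ) * a) * r ^ 7 + ((327697 / 9500000 : ℝ) + (-9351 / 190000 : ℝ) * a) * r ^ 9 + 0 * r ^ 11 + 0 * r ^ 13 := by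
      rw [hl]; ring
    linarith)
  refine h.trans ?_
  obtain ⟨h2, h4, h6, h8, -, -⟩ := moments u S
  rw [h2, h4, h6, h8, hs]
  have b := fun k => PP_succ u S (a ^ 2) hθ k
  have b1 := b 1
  have b2 := b 2
  have n := PP_nonneg u S
  have n2 := n 2
  have n4 := n 4
  rw [hs] at b1
  norm_num only at b1 b2
  set p := PP u S 2
  set q := PP u S 3
  set r := PP u S 4
  have f1 := cF1 a (by linarith) (by linarith)
  have f2 := cF2 a (by linarith) (by linarith)
  have f3 := cF3 a (by linarith) (by linarith)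
  have e1 := mul_le_mul_of_nonneg_left b2 f3
  have e2 : ((2293879 / 11875000 : ℝ) * a ^ 0 + (-65457 / 237500 : ℝ) * a ^ 1) * (p * p) ≤ ((2293879 / 11875000 : ℝ) * a ^ 0 + (-65457 / 237500 : ℝ) * a ^ 1) * (a ^ 2 * (1 - a ^ 2) * p) :=
    mul_le_mul_of_nonneg_left (mul_le_mul_of_nonneg_right b1 n2) (by linarith)
  have e3 : ((-983091 / 2968750 : ℝ) * a ^ 0 + (28053 / 59375 : ℝ) * a ^ 1) * r ≤ 0 := mul_nonpos_of_nonpos_of_nonneg (by linarith) n4
  set Z := ((-422613 / 4750000 : ℝ) * a ^ 0 + (13457 / 142500 : ℝ) * a ^ 1 + (5089371 / 9500000 : ℝ) * a ^ 2 + (-165361 / 285000 : ℝ) * a ^ 3 + (-2293879 / 2375000 : ℝ) * a ^ 4 + (65457 / 47500 : ℝ) * a ^ 5) + ((242351 / 1187500 : ℝ) * a ^ 0 + (-23623 / 106875 : ℝ) * a ^ 1 + (-655394 / 890625 : ℝ) * a ^ 2 + (12468 / 11875 : ℝ) * a ^ 3) * a ^ 2 + ((2293879 / 11875000 : ℝ) * a ^ 0 + (-65457 / 237500 : ℝ) * a ^ 1) * (a ^ 2 * (1 - a ^ 2)) with hZ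
  have e4 : p * Z ≤ 0 ∨ p * Z ≤ a ^ 2 * (1 - a ^ 2) * Z := by
    rcases le_total Z 0 with h | h
    · exact Or.inl (mul_nonpos_of_nonneg_of_nonpos n2 h)
    · exact Or.inr (mul_le_mul_of_nonneg_right b1 h)
  rw [hZ] at e4
  rcases e4 with e4 | e4 <;> linarith

end Pool.Agent.H94.Slab3
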