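import Pool.Agent.H94.Slab3

open MeasureTheory Set ProbabilityTheory
open scoped ENNReal

namespace Pool.Agent.H94.Slab4
open Pool.Agent.H94.Per1 Pool.Agent.H94.Per2 Pool.Agent.H94.Slab1 Pool.Agent.H94.Slab2
  Pool.Agent.H94.Slab3

set_option linter.unusedSectionVars false

variable {ι : Type*} [Fintype ι] [DecidableEq ι]

lemma tangent (a t ρ : ℝ) (ha : 0 < a) (ht : 0 ≤ t) (hρ : 0 < ρ) (h3 : 3 * |a - t| ≤ ρ) (r : ℝ)
    (hr : 0 ≤ r) :
    HH a (r - t) - HH a (-r - t) ≤ (ρ + (a - t)) * (ρ + 3 * (a - t)) / (8 * a * ρ) * r +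
      (ρ ^ 2 - (a - t) ^ 2) / (8 * a * ρ ^ 3) * r ^ 3 + 0 * r ^ 5 + 0 * r ^ 7 + 0 * r ^ 9 +
      0 * r ^ 11 + 0 * r ^ 13 := by
  set d := a - t with hd
  have e0 := abs_nonneg d
  have e1 := le_abs_self d
  have e2 := neg_abs_le d
  have e3 : |d| ^ 2 = d ^ 2 := sq_abs d
  have hβ : 0 ≤ (ρ ^ 2 - d ^ 2) / (8 * a * ρ ^ 3) * r ^ 3 := by
    apply mul_nonneg (div_nonneg _ (by positivity)) (by positivity); nlinarith
  have h0 := HH_nonneg a (-r - t)
  have h1 := HH_le a (r - t) ha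
  rw [show r - t + a = r + d by rw [hd]; ring] at h1
  by_cases hc : |d| ≤ r
  · have k : (r + d) ^ 2 / (4 * a) ≤ (ρ + d) * (ρ + 3 * d) / (8 * a * ρ) * r +
        (ρ ^ 2 - d ^ 2) / (8 * a * ρ ^ 3) * r ^ 3 := by
      have e : (ρ + d) * (ρ + 3 * d) / (8 * a * ρ) * r + (ρ ^ 2 - d ^ 2) / (8 * a * ρ ^ 3) * r ^ 3 -
          (r + d) ^ 2 / (4 * a) =
          (r - ρ) ^ 2 * ((ρ ^ 2 - d ^ 2) * r - 2 * d ^ 2 * ρ) / (8 * a * ρ ^ 3) := by
        field_simp; ring
      have h4 : 0 ≤ (ρ ^ 2 - d ^ 2) * r - 2 * d ^ 2 * ρ := by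
        rw [← e3]
        have h5 : (ρ ^ 2 - |d| ^ 2) * |d| ≤ (ρ ^ 2 - |d| ^ 2) * r :=
          mul_le_mul_of_nonneg_left hc (by nlinarith)
        have h6 : 0 ≤ |d| * (ρ ^ 2 - 2 * |d| * ρ - |d| ^ 2) := mul_nonneg e0 (by nlinarith)
        nlinarith
      have : 0 ≤ (r - ρ) ^ 2 * ((ρ ^ 2 - d ^ 2) * r - 2 * d ^ 2 * ρ) / (8 * a * ρ ^ 3) := by positivity
      linarith
    linarith
  push Not at hc
  rcases le_total d 0 with h | h
  · rw [abs_of_nonpos h] at hc h3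
    rw [HH_zero a (r - t) ha.le (by linarith)]
    have : 0 ≤ (ρ + d) * (ρ + 3 * d) / (8 * a * ρ) * r := by
      apply mul_nonneg (div_nonneg (mul_nonneg _ _) (by positivity)) hr <;> linarith
    linarith
  · rw [abs_of_nonneg h] at hc h3
    rw [HH_mid a (-r - t) ha (abs_le.2 ⟨by linarith, by linarith⟩),
      show -r - t + a = d - r by rw [hd]; ring]
    have e : (ρ + d) * (ρ + 3 * d) / (8 * a * ρ) * r - ((r + d) ^ 2 / (4 * a) - (d - r) ^ 2 / (4 * a)) =
        (ρ - d) * (ρ - 3 * d) * r / (8 * a * ρ) := by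
      field_simp; ring
    have : 0 ≤ (ρ - d) * (ρ - 3 * d) * r / (8 * a * ρ) := by
      apply div_nonneg (mul_nonneg (mul_nonneg _ _) hr) (by positivity) <;> linarith
    linarith

lemma regA (u : ι → ℝ) (S : Finset ι) (j : ι) (hj : j ∈ S) (h0 : u j ≠ 0) (a t : ℝ)
    (ha1 : 47 / 100 ≤ a) (ha2 : a < 1) (hs : PP u S 1 = 1 - a ^ 2) (ht0 : 0 < t)
    (ht : t ^ 2 + 4 * t = 4) :
    (nu u S ∗ ua a).real {z | t < |z|} ≤ 1 - t := by
  have ha : 0 < a := by linarith
  have t1 : 0.82842 < t := by nlinarith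
  have t2 : t < 0.82843 := by nlinarith
  have key : ∀ ρ, 0 < ρ → 3 * |a - t| ≤ ρ → (nu u S ∗ ua a).real {z | t < |z|} ≤
      (ρ + (a - t)) * (ρ + 3 * (a - t)) / (8 * a * ρ) +
        (ρ ^ 2 - (a - t) ^ 2) / (8 * a * ρ ^ 3) * (1 - a ^ 2) := by
    intro ρ hρ h3
    have h := ML u S j hj h0 a t _ _ 0 0 0 0 0 (tangent a t ρ ha ht0.le hρ h3)
    rw [(moments u S).1, hs] at h
    linarith
  set w := √(1 - a ^ 2) with hw
  have hw2 : w ^ 2 = 1 - a ^ 2 := Real.sq_sqrt (by nlinarith)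
  have hw0 : 0 < w := Real.sqrt_pos.2 (by nlinarith)
  by_cases hc : 3 * |a - t| ≤ w
  · refine (key w hw0 hc).trans ?_
    have e : (w + (a - t)) * (w + 3 * (a - t)) / (8 * a * w) +
        (w ^ 2 - (a - t) ^ 2) / (8 * a * w ^ 3) * (1 - a ^ 2) = (w + a - t) ^ 2 / (4 * a * w) := by
      rw [← hw2]; field_simp; ring
    rw [e, div_le_iff₀ (by positivity)]
    have s1 : a + w ≤ (t + 2) / 2 := by
      apply le_of_sq_le_sq (by nlinarith [sq_nonneg (a - w)]) (by linarith)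
    have s2 : 1.11 ≤ a + w := by
      by_cases h9 : 0.9 ≤ a
      · linarith [le_abs_self (a - t)]
      · have : 0.435 ≤ w := by apply Real.le_sqrt_of_sq_le; nlinarith
        nlinarith
    have s3 : 0 ≤ (2 * t - 1) * (a + w) - (9 / 2 * t - 3) := by nlinarith
    have s4 := mul_nonneg (sub_nonneg.2 s1) s3
    have s5 : (1 - t) * (4 * a * w) = (1 - t) * (2 * ((a + w) ^ 2 - 1)) := by
      congr 1; nlinarith
    rw [s5]
    nlinarith
  push Not at hc
  have hd : 0 < |a - t| := by linarith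
  refine (key _ (by linarith) le_rfl).trans ?_
  rcases le_total (a - t) 0 with h | h
  · rw [abs_of_nonpos h] at hc hd ⊢
    have e : (3 * -(a - t) + (a - t)) * (3 * -(a - t) + 3 * (a - t)) / (8 * a * (3 * -(a - t))) +
        ((3 * -(a - t)) ^ 2 - (a - t) ^ 2) / (8 * a * (3 * -(a - t)) ^ 3) * (1 - a ^ 2) =
        (1 - a ^ 2) / (27 * a * (t - a)) := by
      have : a - t ≠ 0 := by linarith
      have : t - a ≠ 0 := by linarith
      field_simp; ring
    rw [e, div_le_iff₀ (by apply mul_pos <;> linarith)]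
    have a56 : a ≤ 0.56 := by
      by_contra h9
      have h10 : w ^ 2 < (3 * -(a - t)) ^ 2 := by gcongr
      nlinarith
    have p1 : 0.17157 * (27 * a * (t - a)) ≤ (1 - t) * (27 * a * (t - a)) := by
      apply mul_le_mul_of_nonneg_right (by linarith); apply mul_nonneg <;> linarith
    have p2 : a * 0.82842 ≤ a * t := by gcongr
    nlinarith [mul_nonneg (sub_nonneg.2 ha1) (sub_nonneg.2 a56)]
  · rw [abs_of_nonneg h] at hc hd ⊢
    have e : (3 * (a - t) + (a - t)) * (3 * (a - t) + 3 * (a - t)) / (8 * a * (3 * (a - t))) +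
        ((3 * (a - t)) ^ 2 - (a - t) ^ 2) / (8 * a * (3 * (a - t)) ^ 3) * (1 - a ^ 2) =
        (27 * (a - t) ^ 2 + (1 - a ^ 2)) / (27 * a * (a - t)) := by
      have : a - t ≠ 0 := by linarith
      field_simp; ring
    rw [e, div_le_iff₀ (by positivity)]
    have a93 : 0.93 ≤ a := by
      by_contra h9
      have h10 : w ^ 2 < (3 * (a - t)) ^ 2 := by gcongr
      nlinarith
    have p1 : 1 + a ≤ 27 * (a - t) * t := by nlinarith
    have p2 := mul_le_mul_of_nonneg_left p1 (sub_nonneg.2 ha2.le)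
    nlinarith

lemma un_slab (t : ℝ) (ht1 : t ≤ 1) : un {z | |z| ≤ t} = ENNReal.ofReal t := by
  have e : {z : ℝ | |z| ≤ t} = Icc (-t) t := by ext z; simp [abs_le]
  rw [e, un, Measure.smul_apply, Measure.restrict_apply measurableSet_Icc,
    inter_eq_left.2 (Icc_subset_Icc (by linarith) ht1), Real.volume_Icc, smul_eq_mul,
    show t - -t = 2 * t by ring, ENNReal.ofReal_mul (by norm_num), ENNReal.ofReal_ofNat, ← mul_assoc,
    ENNReal.inv_mul_cancel (by norm_num) (by norm_num), one_mul]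

lemma nu_axis (u : ι → ℝ) (p : ι) (h1 : u p = 1) (h0 : ∀ j, j ≠ p → u j = 0) :
    nu u Finset.univ = un := by
  have : nu u (Finset.univ.erase p) = Measure.dirac 0 := by
    rw [nu]
    have : (fun ω : ι → ℝ => ∑ j ∈ Finset.univ.erase p, u j * ω j) = fun _ => 0 := by
      ext ω
      exact Finset.sum_eq_zero fun j hj => by simp [h0 j (Finset.mem_erase.1 hj).1]
    rw [this]; simp [Measure.map_const]
  rw [← Finset.insert_erase (Finset.mem_univ p), nu_insert _ _ _ (Finset.notMem_erase _ _), this,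
    Measure.dirac_zero_conv, h1, ua]
  simp

lemma main_pos (u : ι → ℝ) (hu : ∀ j, 0 ≤ u j) (hs : ∑ j, u j ^ 2 = 1) (t : ℝ) (ht0 : 0 < t)
    (ht : t ≤ 2 * √2 - 2) : ENNReal.ofReal t ≤ nu u Finset.univ {z | |z| ≤ t} := by
  have hne : Nonempty ι := by
    by_contra h
    rw [not_nonempty_iff] at h
    simp at hs
  obtain ⟨p, -, hp⟩ := Finset.exists_max_image Finset.univ u Finset.univ_nonempty
  simp only [Finset.mem_univ, forall_true_left] at hp
  have hp0 : u p ≠ 0 := by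
    intro h
    have : ∀ j, u j = 0 := fun j => le_antisymm (h ▸ hp j) (hu j)
    simp [this] at hs
  have r2 : √2 ^ 2 = 2 := Real.sq_sqrt (by norm_num)
  have r0 : 0 ≤ √2 := Real.sqrt_nonneg _
  set T := 2 * √2 - 2 with hT
  have hT2 : T ^ 2 + 4 * T = 4 := by rw [hT]; nlinarith
  have hT0 : 0 < T := ht0.trans_le ht
  have hT1 : T ≤ 1657 / 2000 := by nlinarith
  have hsq : ∀ i, u i ^ 2 ≤ u p ^ 2 := fun i => by have := hp i; have := hu i; gcongr
  have hS : PP u (Finset.univ.erase p) 1 = 1 - u p ^ 2 := by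
    rw [← hs, ← Finset.add_sum_erase _ _ (Finset.mem_univ p), PP]; simp
  by_cases hz : ∀ j, j ≠ p → u j = 0
  · have h1 : u p ^ 2 = 1 := by
      rw [← hs, ← Finset.add_sum_erase _ _ (Finset.mem_univ p),
        Finset.sum_eq_zero (fun j hj => by simp [hz j (Finset.mem_erase.1 hj).1]), add_zero]
    have h2 : u p = 1 := by nlinarith [hu p]
    rw [nu_axis u p h2 hz, un_slab t (by linarith)]
  push Not at hz
  obtain ⟨j, hj, hj0⟩ := hz
  have hjm : j ∈ Finset.univ.erase p := by simp [hj]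
  have hconv : nu u Finset.univ = nu u (Finset.univ.erase p) ∗ ua (u p) := by
    rw [← nu_insert _ _ _ (Finset.notMem_erase _ _), Finset.insert_erase (Finset.mem_univ p)]
  by_cases hA : 47 / 100 ≤ u p
  · refine slab_mono u _ p (Finset.mem_univ _) hp0 t T ht0 ht ?_
    rw [hconv]
    refine regA u _ j hjm hj0 (u p) T hA ?_ hS hT0 hT2
    have h1 := Finset.single_le_sum (f := fun k => (u k ^ 2) ^ 1) (fun k _ => by positivity) hjm
    have h2 : 0 < (u j ^ 2) ^ 1 := by positivity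
    have h3 : PP u (Finset.univ.erase p) 1 = ∑ k ∈ Finset.univ.erase p, (u k ^ 2) ^ 1 := rfl
    nlinarith [hu p]
  refine slab_mono u _ p (Finset.mem_univ _) hp0 t (1657 / 2000) ht0 (by linarith) ?_
  by_cases hB : 7 / 25 ≤ u p
  · rw [hconv]
    exact regB u _ j hjm hj0 (u p) hB (by linarith) hS fun i _ => hsq i
  · refine regC u p hp0 (by simpa [PP] using hs) fun i => (hsq i).trans ?_
    nlinarith [hu p]

lemma vol_slab (u : ι → ℝ) (B : Set ℝ) (hB : MeasurableSet B) :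
    volume {y : EuclideanSpace ℝ ι | (∀ j, |y j| ≤ 1) ∧ ∑ j, u j * y j ∈ B} =
      2 ^ Fintype.card ι * nu u Finset.univ B := by
  have hm : Measurable fun y : ι → ℝ => ∑ j, u j * y j := by fun_prop
  have e1 : {y : EuclideanSpace ℝ ι | (∀ j, |y j| ≤ 1) ∧ ∑ j, u j * y j ∈ B} =
      WithLp.ofLp ⁻¹' ((fun y : ι → ℝ => ∑ j, u j * y j) ⁻¹' B ∩ univ.pi fun _ => Icc (-1) 1) := by
    ext y; simp only [mem_ofPred_eq, mem_preimage, mem_inter_iff, mem_univ_pi, mem_Icc, abs_le, and_comm]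
  have e2 : (Measure.pi fun _ : ι => un) = ((2 : ℝ≥0∞) ^ Fintype.card ι)⁻¹ •
      (volume : Measure (ι → ℝ)).restrict (univ.pi fun _ => Icc (-1) 1) := by
    refine Measure.pi_eq fun s hs => ?_
    rw [Measure.smul_apply, volume_pi, Measure.restrict_pi_pi, Measure.pi_pi]
    simp only [un, Measure.smul_apply, smul_eq_mul]
    rw [Finset.prod_mul_distrib, Finset.prod_const, Finset.card_univ, ENNReal.inv_pow]
  rw [e1, (PiLp.volume_preserving_ofLp ι).measure_preimage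
    ((hm hB).inter (MeasurableSet.univ_pi fun _ => measurableSet_Icc)).nullMeasurableSet,
    ← Measure.restrict_apply (hm hB), nu, Measure.map_apply hm hB, e2, Measure.smul_apply,
    smul_eq_mul, ← mul_assoc, ENNReal.mul_inv_cancel (by simp) (by simp), one_mul]

lemma vol_inner (a : EuclideanSpace ℝ ι) (t : ℝ) :
    volume {x : EuclideanSpace ℝ ι | (∀ j, |x j| ≤ 1) ∧ |inner ℝ x a| ≤ t} =
      2 ^ Fintype.card ι * nu a Finset.univ {z | |z| ≤ t} := by
  rw [← vol_slab a _ (by measurability)]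
  congr 1

lemma final (a : EuclideanSpace ℝ ι) (ha : ‖a‖ = 1) (i : ι) (t : ℝ) (ht0 : 0 < t)
    (ht : t ≤ 2 * √2 - 2) :
    volume {x : EuclideanSpace ℝ ι | (∀ j, |x j| ≤ 1) ∧
      |inner ℝ x (EuclideanSpace.single i (1 : ℝ))| ≤ t} ≤
    volume {x : EuclideanSpace ℝ ι | (∀ j, |x j| ≤ 1) ∧ |inner ℝ x a| ≤ t} := by
  have hs : ∑ j, a j ^ 2 = 1 := by
    rw [← EuclideanSpace.real_norm_sq_eq, ha]; norm_num
  have r2 : √2 ^ 2 = 2 := Real.sq_sqrt (by norm_num)
  have r0 : 0 ≤ √2 := Real.sqrt_nonneg _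
  rw [vol_inner, vol_inner, nu_axis _ i (by simp) (fun j hj => by simp [hj]),
    un_slab t (by nlinarith), ← nu_abs]
  gcongr
  exact main_pos _ (fun j => abs_nonneg _) (by simpa using hs) t ht0 ht

end Pool.Agent.H94.Slab4
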