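import Mathlib

set_option autoImplicit false

namespace Pool.Agent.H94.Slit

open Finset Complex Metric Filter Topology

/-- Taylor coefficient at the origin. -/
noncomputable def co (f : ℂ → ℂ) (k : ℕ) : ℂ := iteratedDeriv k f 0 / (k.factorial : ℂ)

lemma co_zero (f : ℂ → ℂ) : co f 0 = f 0 := by simp [co]

lemma co_mul {f g : ℂ → ℂ} (hf : AnalyticAt ℂ f 0) (hg : AnalyticAt ℂ g 0) (n : ℕ) :
    co (fun z => f z * g z) n = ∑ i ∈ range (n+1), co f i * co g (n - i) := by
  unfold co
  rw [iteratedDeriv_fun_mul hf.contDiffAt hg.contDiffAt, sum_div]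
  apply sum_congr rfl; intro i hi
  have hi' : i ≤ n := Nat.lt_succ_iff.1 (mem_range.1 hi)
  have h := Nat.choose_mul_factorial_mul_factorial hi'
  have h' : (n.choose i : ℂ) * i.factorial * (n-i).factorial = n.factorial := by exact_mod_cast h
  have p1 : (i.factorial : ℂ) ≠ 0 := by exact_mod_cast i.factorial_ne_zero
  have p2 : ((n-i).factorial : ℂ) ≠ 0 := by exact_mod_cast (n-i).factorial_ne_zero
  have p3 : (n.choose i : ℂ) ≠ 0 := by exact_mod_cast (Nat.choose_pos hi').ne'
  rw [← h']; field_simp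

lemma co_add_const (f : ℂ → ℂ) (c : ℂ) {n : ℕ} (hn : 0 < n) :
    co (fun z => f z + c) n = co f n := by
  unfold co
  simp only [add_comm _ c]
  rw [iteratedDeriv_const_add hn]

lemma co_congr {f g : ℂ → ℂ} (h : f =ᶠ[𝓝 0] g) (n : ℕ) : co f n = co g n := by
  unfold co; rw [h.iteratedDeriv_eq]

lemma co_div (f : ℂ → ℂ) (c : ℂ) (n : ℕ) : co (fun z => f z / c) n = co f n / c := by
  unfold co; rw [iteratedDeriv_div_const]; ring

/-- univalent maps of the disc into the right half-plane -/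
structure Good (F : ℂ → ℂ) : Prop where
  diff : DifferentiableOn ℂ F (ball 0 1)
  inj : Set.InjOn F (ball 0 1)
  pos : ∀ z ∈ ball (0:ℂ) 1, 0 < (F z).re

lemma Good.an {F : ℂ → ℂ} (h : Good F) : AnalyticAt ℂ F 0 :=
  h.diff.analyticAt (ball_mem_nhds 0 one_pos)

noncomputable def m0 (z : ℂ) : ℂ := 2 * ((-1) * z + 1)⁻¹ + (-1)

lemma ne_one {z : ℂ} (hz : z ∈ ball (0:ℂ) 1) : (-1) * z + 1 ≠ 0 := by
  intro h
  have : z = 1 := by linear_combination -h
  rw [this] at hz; simp at hz

lemma good_m0 : Good m0 := by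
  refine ⟨?_, ?_, ?_⟩
  · unfold m0
    apply DifferentiableOn.add_const
    apply DifferentiableOn.const_mul
    exact DifferentiableOn.inv (by fun_prop) (fun z hz => ne_one hz)
  · intro z hz w hw h
    unfold m0 at h
    have h1 : ((-1) * z + 1)⁻¹ = ((-1) * w + 1)⁻¹ := by linear_combination h / 2
    have h2 := inv_injective h1
    linear_combination -h2
  · intro z hz
    have h0 := ne_one hz
    have hp : 0 < normSq ((-1) * z + 1) := normSq_pos.2 h0
    have hz1 : normSq z < 1 := by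
      rw [Complex.normSq_eq_norm_sq]
      have : ‖z‖ < 1 := by simpa using hz
      nlinarith [norm_nonneg z]
    unfold m0
    simp only [add_re, mul_re, inv_re, inv_im, re_ofNat, im_ofNat, zero_mul, sub_zero, neg_re, one_re,
      neg_im, one_im, neg_zero]
    rw [show (2:ℝ) * ((-1 * z.re + 1) / normSq (-1 * z + 1)) + -1
      = (2 * (-1 * z.re + 1) - normSq (-1 * z + 1)) / normSq (-1 * z + 1) by
        rw [sub_div, div_self hp.ne']; ring]
    apply div_pos _ hp
    simp only [normSq_apply] at hz1 ⊢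
    simp
    nlinarith

lemma co_m0 (k : ℕ) : co m0 k = if k = 0 then 1 else 2 := by
  split_ifs with h
  · subst h; simp [co_zero, m0]; norm_num
  · unfold m0
    rw [co_add_const _ _ (Nat.pos_of_ne_zero h)]
    unfold co
    rw [iteratedDeriv_const_mul_field, iteratedDeriv_eq_iterate, iter_deriv_inv_linear]
    have p1 : (k.factorial : ℂ) ≠ 0 := by exact_mod_cast k.factorial_ne_zero
    have : ((-1:ℂ))^k * (-1)^k = 1 := by rw [← mul_pow]; simp
    simp only [mul_zero, zero_add, one_zpow, mul_one]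
    field_simp
    linear_combination this

noncomputable def rt (u : ℂ) : ℂ := cexp (Complex.log u / 2)

lemma rt_sq {u : ℂ} (hu : u ≠ 0) : rt u * rt u = u := by
  unfold rt; rw [← Complex.exp_add, add_halves, Complex.exp_log hu]

lemma rt_pos {u : ℂ} (hu : u ∈ slitPlane) : 0 < (rt u).re := by
  unfold rt
  rw [Complex.exp_re]
  apply mul_pos (Real.exp_pos _)
  have h1 : (Complex.log u / 2).im = u.arg / 2 := by simp [Complex.log_im]
  rw [h1]
  have h2 := Complex.neg_pi_lt_arg u
  have h3 : u.arg < Real.pi := lt_of_le_of_ne (Complex.arg_le_pi u) (slitPlane_arg_ne_pi hu)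
  exact Real.cos_pos_of_mem_Ioo ⟨by linarith, by linarith⟩

lemma sq_inj {u v : ℂ} (hu : 0 < u.re) (hv : 0 < v.re) (h : u * u = v * v) : u = v := by
  have h1 : (u - v) * (u + v) = 0 := by linear_combination h
  rcases mul_eq_zero.1 h1 with h2 | h2
  · linear_combination h2
  · have := congrArg Complex.re h2
    simp at this; linarith

lemma mem_slit {w : ℂ} (hw : 0 < w.re) {a : ℝ} (ha : 0 < a) : w * w + a ∈ slitPlane := by
  rw [mem_slitPlane_iff]
  by_cases h : w.im = 0
  · left; simp [h]; positivity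
  · right; simp
    intro h2
    have : w.re * w.im = 0 := by linarith
    rcases mul_eq_zero.1 this with h3 | h3
    · linarith
    · exact h h3

lemma Good.shift {F : ℂ → ℂ} (h : Good F) (b : ℝ) : Good (fun z => F z + b * I) :=
  ⟨h.diff.add_const _, fun z hz w hw e => h.inj hz hw (add_right_cancel e),
    fun z hz => by simpa using h.pos z hz⟩

lemma Good.root {F : ℂ → ℂ} (h : Good F) {a : ℝ} (ha : 0 < a) :
    Good (fun z => rt (F z * F z + a)) := by
  refine ⟨?_, ?_, fun z hz => rt_pos (mem_slit (h.pos z hz) ha)⟩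
  · unfold rt
    apply DifferentiableOn.cexp
    apply DifferentiableOn.div_const
    exact DifferentiableOn.clog ((h.diff.mul h.diff).add_const _) (fun z hz => mem_slit (h.pos z hz) ha)
  · intro z hz w hw e
    have e1 := rt_sq (slitPlane_ne_zero (mem_slit (h.pos z hz) ha))
    have e2 := rt_sq (slitPlane_ne_zero (mem_slit (h.pos w hw) ha))
    simp only at e
    rw [e, e2] at e1
    exact h.inj hz hw (sq_inj (h.pos z hz) (h.pos w hw) (add_right_cancel e1).symm)

/-- Gaussian rational sequences -/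
def cq (r i : List ℚ) (n : ℕ) : ℂ := ⟨(r.getD n 0 : ℚ), (i.getD n 0 : ℚ)⟩
def cvr (r i : List ℚ) (n : ℕ) : ℚ :=
  ∑ k ∈ range (n+1), (r.getD k 0 * r.getD (n-k) 0 - i.getD k 0 * i.getD (n-k) 0)
def cvi (r i : List ℚ) (n : ℕ) : ℚ :=
  ∑ k ∈ range (n+1), (r.getD k 0 * i.getD (n-k) 0 + i.getD k 0 * r.getD (n-k) 0)

lemma conv_cq (r i : List ℚ) (n : ℕ) :
    ∑ k ∈ range (n+1), cq r i k * cq r i (n-k) = ⟨(cvr r i n : ℚ), (cvi r i n : ℚ)⟩ := by
  apply Complex.ext
  · simp [cq, cvr, Complex.re_sum]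
  · simp [cq, cvi, Complex.im_sum]

lemma solve (N : ℕ) (S P : ℕ → ℂ) (h0 : S 0 = P 0) (hne : P 0 ≠ 0)
    (h : ∀ n, 1 ≤ n → n ≤ N → ∑ k ∈ range (n+1), S k * S (n-k) = ∑ k ∈ range (n+1), P k * P (n-k)) :
    ∀ n, n ≤ N → S n = P n := by
  intro n
  induction n using Nat.strong_induction_on with
  | _ n ih =>
    intro hn
    rcases n with _ | n
    · exact h0
    · have e := h (n+1) (by omega) hn
      rw [sum_range_succ, sum_range_succ', sum_range_succ (fun k => P k * P (n+1-k)),
        sum_range_succ' (fun k => P k * P (n+1-k))] at e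
      have e2 : ∑ k ∈ range n, S (k+1) * S (n+1-(k+1)) = ∑ k ∈ range n, P (k+1) * P (n+1-(k+1)) := by
        apply sum_congr rfl; intro k hk
        have := mem_range.1 hk
        rw [ih (k+1) (by omega) (by omega), ih (n+1-(k+1)) (by omega) (by omega)]
      simp only [Nat.sub_zero, Nat.sub_self] at e
      rw [e2, h0] at e
      apply mul_left_cancel₀ hne
      linear_combination e / 2

lemma co_sq {F : ℂ → ℂ} (h : Good F) (N : ℕ) (r i : List ℚ) (hF : ∀ n, n ≤ N → co F n = cq r i n)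
    (n : ℕ) (hn : n ≤ N) : co (fun z => F z * F z) n = ⟨(cvr r i n : ℚ), (cvi r i n : ℚ)⟩ := by
  rw [co_mul h.an h.an, ← conv_cq]
  apply sum_congr rfl; intro k hk
  have := mem_range.1 hk
  rw [hF k (by omega), hF (n-k) (by omega)]

lemma co_root {F : ℂ → ℂ} (h : Good F) {a : ℚ} (ha : 0 < a) (N : ℕ) (r i r' i' : List ℚ)
    (hF : ∀ n, n ≤ N → co F n = cq r i n) (hp : 0 < r'.getD 0 0)
    (h0 : cvr r' i' 0 = cvr r i 0 + a ∧ cvi r' i' 0 = cvi r i 0)
    (h1 : ∀ n ∈ Finset.Icc 1 N, cvr r' i' n = cvr r i n ∧ cvi r' i' n = cvi r i n) :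
    ∀ n, n ≤ N → co (fun z => rt (F z * F z + ((a:ℝ):ℂ))) n = cq r' i' n := by
  have ha' : (0:ℝ) < a := by exact_mod_cast ha
  have hG := h.root ha'
  have hev : (fun z => rt (F z * F z + ((a:ℝ):ℂ)) * rt (F z * F z + ((a:ℝ):ℂ))) =ᶠ[𝓝 0]
      (fun z => F z * F z + ((a:ℝ):ℂ)) := by
    filter_upwards [ball_mem_nhds (0:ℂ) one_pos] with z hz
    exact rt_sq (slitPlane_ne_zero (mem_slit (h.pos z hz) ha'))
  have hp' : 0 < (cq r' i' 0).re := by
    simp only [cq]; exact_mod_cast hp
  apply solve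
  · rw [co_zero]
    apply sq_inj (hG.pos 0 (mem_ball_self one_pos)) hp'
    rw [rt_sq (slitPlane_ne_zero (mem_slit (h.pos 0 (mem_ball_self one_pos)) ha'))]
    have e1 := co_sq h N r i hF 0 (Nat.zero_le _)
    rw [co_zero] at e1
    have e2 := conv_cq r' i' 0
    simp only [zero_add, range_one, sum_singleton, Nat.sub_self] at e2
    rw [e1, e2, h0.1, h0.2]
    apply Complex.ext <;> simp
  · intro e; rw [e] at hp'; simp at hp'
  · intro n hn1 hn
    rw [← co_mul hG.an hG.an, co_congr hev, co_add_const _ _ hn1, co_sq h N r i hF n hn, conv_cq]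
    obtain ⟨e1, e2⟩ := h1 n (Finset.mem_Icc.2 ⟨hn1, hn⟩)
    rw [e1, e2]

lemma co_shift {F : ℂ → ℂ} (b : ℚ) (N : ℕ) (r i i' : List ℚ)
    (hF : ∀ n, n ≤ N → co F n = cq r i n) (h0 : i'.getD 0 0 = i.getD 0 0 + b)
    (h1 : ∀ n ∈ Finset.Icc 1 N, i'.getD n 0 = i.getD n 0) :
    ∀ n, n ≤ N → co (fun z => F z + ((b:ℝ):ℂ) * I) n = cq r i' n := by
  intro n hn
  rcases Nat.eq_zero_or_pos n with rfl | hp
  · have := hF 0 hn
    rw [co_zero] at this ⊢
    rw [this]; unfold cq; rw [h0]
    apply Complex.ext <;> simp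
  · rw [co_add_const _ _ hp, hF n hn]; unfold cq
    rw [h1 n (Finset.mem_Icc.2 ⟨hp, hn⟩)]

/-- The normalised square of a good map is in the class S. -/
lemma normalise {F : ℂ → ℂ} (h : Good F) (hc : co (fun z => F z * F z) 1 ≠ 0) :
    ∃ f : ℂ → ℂ, DifferentiableOn ℂ f (ball 0 1) ∧ Set.InjOn f (ball 0 1) ∧ f 0 = 0 ∧
      deriv f 0 = 1 ∧ ∀ n, 0 < n →
        co f n = co (fun z => F z * F z) n / co (fun z => F z * F z) 1 := by
  set c := co (fun z => F z * F z) 1
  have key : ∀ n, 0 < n → co (fun z => (F z * F z + (-(F 0 * F 0))) / c) n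
      = co (fun z => F z * F z) n / c := by
    intro n hn
    rw [co_div, co_add_const _ _ hn]
  refine ⟨fun z => (F z * F z + (-(F 0 * F 0))) / c, ((h.diff.mul h.diff).add_const _).div_const _,
    ?_, by simp, ?_, key⟩
  · intro z hz w hw e
    have e1 : F z * F z = F w * F w := by
      have := (div_left_inj' hc).1 e
      exact add_right_cancel this
    exact h.inj hz hw (sq_inj (h.pos z hz) (h.pos w hw) e1)
  · have := key 1 one_pos
    rw [div_self hc] at this
    unfold co at this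
    simpa using this

end Pool.Agent.H94.Slit
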