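import Pool.Agent.H60.HSa

set_option autoImplicit false
namespace Pool.Agent.H94.TF
open Set MeasureTheory Metric Real Filter Topology Pool.Agent.H60.HS ENNReal

/-- Twice the Coulomb energy: the double integral of `f(x) g(y) / |x - y|`. -/
noncomputable def DD (f g : EuclideanSpace ℝ (Fin 3) → ℝ) : ℝ≥0∞ :=
  ∫⁻ x, ∫⁻ y, ENNReal.ofReal (f x * g y * ‖x - y‖⁻¹)

theorem lint_of {α : Type} [MeasurableSpace α] {μ : Measure α} {f : α → ℝ} {c : ℝ} (hc : 0 < c)
    (h0 : ∀ x, 0 ≤ f x) (h : ∫ x, f x ∂μ = c) : ∫⁻ x, ENNReal.ofReal (f x) ∂μ = ENNReal.ofReal c := by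
  rw [← h, ofReal_integral_eq_lintegral_ofReal (Integrable.of_integral_ne_zero (h ▸ hc.ne'))
    (ae_of_all _ h0)]

noncomputable def gk (p : ℝ × E3) (x : E3) : ℝ≥0∞ :=
  ENNReal.ofReal (√(p.1 ^ 3) * Real.exp (-p.1 ^ 2 * ‖x - p.2‖ ^ 2))

noncomputable def c0 : ℝ := (π / 2) ^ (3 / 2 : ℝ) * (√(2 * π) / 2)

theorem c0_pos : 0 < c0 := by unfold c0; positivity

theorem gk_int {x y : E3} (h : x ≠ y) :
    ∫⁻ p, gk p x * gk p y ∂((volume.restrict (Ioi (0 : ℝ))).prod volume) =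
      ENNReal.ofReal (c0 * ‖x - y‖⁻¹) := by
  have d0 : 0 < ‖x - y‖ := norm_pos_iff.2 (sub_ne_zero.2 h)
  rw [lintegral_prod _ (by unfold gk; fun_prop), setLIntegral_congr_fun measurableSet_Ioi
    (g := fun t => ENNReal.ofReal ((π / 2) ^ (3 / 2 : ℝ) * Real.exp (-(‖x - y‖ ^ 2 / 2) * t ^ 2)))]
  · refine lint_of (mul_pos c0_pos (inv_pos.2 d0)) (fun _ => by positivity) ?_
    rw [integral_const_mul, integral_gaussian_Ioi, c0, show π / (‖x - y‖ ^ 2 / 2) =
      (2 * π) / ‖x - y‖ ^ 2 by field_simp, Real.sqrt_div' _ (by positivity), Real.sqrt_sq d0.le]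
    ring
  intro t (ht : 0 < t)
  simp only [gk]
  have e : ∀ z : E3, ENNReal.ofReal (√(t ^ 3) * Real.exp (-t ^ 2 * ‖x - z‖ ^ 2)) *
      ENNReal.ofReal (√(t ^ 3) * Real.exp (-t ^ 2 * ‖y - z‖ ^ 2)) = ENNReal.ofReal
      (t ^ 3 * Real.exp (-(‖x - y‖ ^ 2 / 2) * t ^ 2) *
        Real.exp (-(2 * t ^ 2) * ‖z - (1 / 2 : ℝ) • (x + y)‖ ^ 2)) := fun z => by
    rw [← ENNReal.ofReal_mul (by positivity), mul_mul_mul_comm, Real.mul_self_sqrt (by positivity),
      mul_assoc, ← Real.exp_add, ← Real.exp_add]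
    congr 3
    simp only [EuclideanSpace.real_norm_sq_eq, Fin.sum_univ_three, PiLp.sub_apply, PiLp.smul_apply,
      PiLp.add_apply, smul_eq_mul]
    ring
  simp_rw [e]
  refine lint_of (by positivity) (fun _ => by positivity) ?_
  rw [integral_const_mul, integral_sub_right_eq_self
    (fun z : E3 => Real.exp (-(2 * t ^ 2) * ‖z‖ ^ 2)),
    GaussianFourier.integral_rexp_neg_mul_sq_norm (by positivity), finrank_euclideanSpace_fin,
    show π / (2 * t ^ 2) = (π / 2) / t ^ 2 by field_simp, Real.div_rpow (by positivity) (by positivity),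
    ← Real.rpow_natCast t 2, ← Real.rpow_mul ht.le]
  norm_num
  field_simp

theorem DD_eq {f g : E3 → ℝ} (hf : Measurable f) (hg : Measurable g) (f0 : ∀ x, 0 ≤ f x)
    (g0 : ∀ x, 0 ≤ g x) : ENNReal.ofReal c0 * DD f g =
    ∫⁻ p, (∫⁻ x, ENNReal.ofReal (f x) * gk p x) * (∫⁻ y, ENNReal.ofReal (g y) * gk p y)
      ∂((volume.restrict (Ioi (0 : ℝ))).prod volume) := by
  have m : Measurable fun q : (ℝ × E3) × E3 => gk q.1 q.2 := by unfold gk; fun_prop
  have m1 : ∀ p, Measurable (gk p) := fun p => by unfold gk; fun_prop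
  have e : ∀ p, (∫⁻ x, ENNReal.ofReal (f x) * gk p x) * (∫⁻ y, ENNReal.ofReal (g y) * gk p y) =
      ∫⁻ x, ∫⁻ y, ENNReal.ofReal (f x) * gk p x * (ENNReal.ofReal (g y) * gk p y) := fun p =>
    (lintegral_lintegral_mul (μ := volume) (ν := volume)
    (hf.ennreal_ofReal.mul (m1 p)).aemeasurable (hg.ennreal_ofReal.mul (m1 p)).aemeasurable).symm
  simp_rw [e]
  rw [lintegral_lintegral_swap (Measurable.aemeasurable (Measurable.lintegral_prod_right'
    (f := fun q : ((ℝ × E3) × E3) × E3 => ENNReal.ofReal (f q.1.2) * gk q.1.1 q.1.2 *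
      (ENNReal.ofReal (g q.2) * gk q.1.1 q.2)) (by unfold gk; fun_prop))), DD,
    ← lintegral_const_mul' _ _ ENNReal.ofReal_ne_top]
  refine lintegral_congr fun x => ?_
  rw [lintegral_lintegral_swap (Measurable.aemeasurable (by unfold gk; fun_prop)),
    ← lintegral_const_mul' _ _ ENNReal.ofReal_ne_top]
  refine lintegral_congr_ae ((Measure.ae_ne volume x).mono fun y hy => ?_)
  have hy : x ≠ y := hy.symm
  simp_rw [mul_mul_mul_comm (ENNReal.ofReal (f x))]
  rw [lintegral_const_mul _ (by unfold gk; fun_prop), gk_int hy, ← ENNReal.ofReal_mul (f0 x),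
    ← ENNReal.ofReal_mul (mul_nonneg (f0 x) (g0 y)), ← ENNReal.ofReal_mul c0_pos.le]
  congr 1; ring

theorem two_mul_le (a b : ℝ≥0∞) : 2 * (a * b) ≤ a * a + b * b := by
  rcases eq_or_ne a ⊤ with rfl | ha
  · simp
  rcases eq_or_ne b ⊤ with rfl | hb
  · simp
  lift a to NNReal using ha
  lift b to NNReal using hb
  norm_cast
  rw [← NNReal.coe_le_coe]; push_cast; nlinarith [sq_nonneg ((a : ℝ) - b)]

theorem DD_pos {f g : E3 → ℝ} (hf : Measurable f) (hg : Measurable g) (f0 : ∀ x, 0 ≤ f x)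
    (g0 : ∀ x, 0 ≤ g x) : 2 * DD f g ≤ DD f f + DD g g := by
  refine (ENNReal.mul_le_mul_iff_right (a := ENNReal.ofReal c0) (by simpa using c0_pos)
    ENNReal.ofReal_ne_top).1 ?_
  have m : Measurable fun p : ℝ × E3 => ∫⁻ x, ENNReal.ofReal (f x) * gk p x :=
    Measurable.lintegral_prod_right' (f := fun q : (ℝ × E3) × E3 =>
      ENNReal.ofReal (f q.2) * gk q.1 q.2) (by unfold gk; fun_prop)
  rw [mul_add, mul_left_comm, DD_eq hf hg f0 g0, DD_eq hf hf f0 f0, DD_eq hg hg g0 g0,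
    ← lintegral_add_left (m.fun_mul m), ← lintegral_const_mul' _ _ (by simp)]
  exact lintegral_mono fun p => two_mul_le _ _

end Pool.Agent.H94.TF
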