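import Pool.Agent.H94.TF1

set_option autoImplicit false
namespace Pool.Agent.H94.TF
open Set MeasureTheory Metric Real Filter Topology Pool.Agent.H60.HS

theorem ne0 : ∀ᵐ y : E3, 0 < ‖y‖ :=
  (Measure.ae_ne volume (0 : E3)).mono fun _ hy => norm_pos_iff.2 hy

theorem inv_ball {r : ℝ} (hr : 0 ≤ r) : ∫ z in ball (0 : E3) r, ‖z‖⁻¹ = 2 * π * r ^ 2 := by
  simpa using newton_in (y := 0) (r := r) (by simpa using hr)

theorem max_le_inv {r s : ℝ} (hs : 0 < s) : (max r s)⁻¹ ≤ s⁻¹ := inv_anti₀ hs (le_max_right _ _)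

theorem max_int (a r : ℝ) : IntegrableOn (fun z : E3 => (max a ‖z‖)⁻¹) (ball 0 r) :=
  (ker_int0 r).mono' (by fun_prop) (ae_restrict_of_ae (ne0.mono fun z hz => by
    rw [Real.norm_of_nonneg (by positivity)]; exact max_le_inv hz))

theorem max_out {a r : ℝ} (hr : 0 ≤ r) (h : r ≤ a) :
    ∫ z in ball (0 : E3) r, (max a ‖z‖)⁻¹ = 4 * π / 3 * r ^ 3 * a⁻¹ := by
  rw [setIntegral_congr_fun measurableSet_ball (g := fun _ => a⁻¹) fun z hz => by
    simp only [mem_ball_zero_iff] at hz; simp only; rw [max_eq_left (by linarith)]]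
  simp [vol_ball _ hr]

theorem max_in {a r : ℝ} (ha : 0 ≤ a) (h : a ≤ r) :
    ∫ z in ball (0 : E3) r, (max a ‖z‖)⁻¹ = 2 * π * r ^ 2 - 2 * π / 3 * a ^ 2 := by
  have s := ball_subset_ball (x := (0 : E3)) h
  have e1 := setIntegral_sdiff measurableSet_ball (max_int a r) s
  have e2 := setIntegral_sdiff measurableSet_ball (ker_int0 r) s
  rw [setIntegral_congr_fun (measurableSet_ball.diff measurableSet_ball) (g := fun z => ‖z‖⁻¹)
    fun z hz => by simp only; rw [max_eq_right (by simpa using hz.2)], e2, max_out ha le_rfl,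
    inv_ball ha, inv_ball (ha.trans h)] at e1
  have : a ^ 3 * a⁻¹ = a ^ 2 := by rcases ha.eq_or_lt with rfl | h <;> [simp; field_simp]
  rw [mul_assoc _ (a ^ 3), this] at e1
  linarith

theorem meas_eq (x : E3) :
    (volume.withDensity fun y : E3 => ENNReal.ofReal ‖x - y‖⁻¹).map norm =
    (volume.withDensity fun y : E3 => ENNReal.ofReal (max ‖x‖ ‖y‖)⁻¹).map norm := by
  have pre : ∀ r : ℝ, norm ⁻¹' Iio r = ball (0 : E3) r := fun r => by ext; simp
  have key : ∀ k : E3 → ℝ, (∀ y, 0 ≤ k y) → (∀ r, IntegrableOn k (ball 0 r)) → ∀ r,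
      ((volume.withDensity fun y : E3 => ENNReal.ofReal (k y)).map norm) (Iio r) =
        ENNReal.ofReal (∫ y in ball 0 r, k y) := fun k k0 hk r => by
    rw [Measure.map_apply measurable_norm measurableSet_Iio, pre,
      withDensity_apply _ measurableSet_ball,
      ofReal_integral_eq_lintegral_ofReal (hk r) (ae_of_all _ k0)]
  have k1 := key (fun y => ‖x - y‖⁻¹) (fun _ => by positivity) fun r => by
    simpa only [norm_sub_rev x] using ker_int 0 x r
  have k2 := key (fun y => (max ‖x‖ ‖y‖)⁻¹) (fun _ => by positivity) (max_int _)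
  have k3 : ∀ r, ∫ y in ball (0 : E3) r, ‖x - y‖⁻¹ = ∫ y in ball (0 : E3) r, (max ‖x‖ ‖y‖)⁻¹ := by
    intro r
    simp only [norm_sub_rev x]
    rcases le_or_gt r 0 with h | h
    · simp [ball_eq_empty.2 h]
    rcases le_total r ‖x‖ with h' | h'
    · rw [newton_out h h', max_out h.le h']
    · rw [newton_in h', max_in (norm_nonneg _) h']
  refine Measure.ext_of_Ico' _ _ (fun a b _ => ne_top_of_le_ne_top ?_
    (measure_mono Ico_subset_Iio_self)) fun a b h => ?_
  · rw [k1]; simp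
  · rw [← Iio_sdiff_Iio, measure_sdiff (Iio_subset_Iio h.le) measurableSet_Iio.nullMeasurableSet
      (by rw [k1]; simp), measure_sdiff (Iio_subset_Iio h.le) measurableSet_Iio.nullMeasurableSet
      (by rw [k2]; simp), k1, k1, k2, k2, k3, k3]

theorem mi {f : ℝ → ℝ} (hf : Measurable f) (h : Integrable fun y : E3 => f ‖y‖ * ‖y‖⁻¹) (r : ℝ) :
    Integrable fun y : E3 => f ‖y‖ * (max r ‖y‖)⁻¹ :=
  h.norm.mono' (by fun_prop) (ne0.mono fun z hz => by
    rw [norm_mul, norm_mul, Real.norm_of_nonneg (r := (max _ _)⁻¹) (by positivity),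
      Real.norm_of_nonneg (r := ‖z‖⁻¹) (by positivity)]
    exact mul_le_mul_of_nonneg_left (max_le_inv hz) (norm_nonneg _))

theorem newton {f : ℝ → ℝ} (hf : Measurable f) (h : Integrable fun y : E3 => f ‖y‖ * ‖y‖⁻¹)
    (x : E3) : (Integrable fun y : E3 => f ‖y‖ * ‖x - y‖⁻¹) ∧
      ∫ y : E3, f ‖y‖ * ‖x - y‖⁻¹ = ∫ y : E3, f ‖y‖ * (max ‖x‖ ‖y‖)⁻¹ := by
  have key : ∀ k : E3 → ℝ, (∀ y, 0 ≤ k y) → Measurable k →
      (Integrable f ((volume.withDensity fun y : E3 => ENNReal.ofReal (k y)).map norm) ↔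
        Integrable fun y : E3 => f ‖y‖ * k y) ∧
      ∫ s, f s ∂((volume.withDensity fun y : E3 => ENNReal.ofReal (k y)).map norm) =
        ∫ y : E3, f ‖y‖ * k y := fun k k0 hk => by
    rw [integrable_map_measure hf.aestronglyMeasurable measurable_norm.aemeasurable,
      integral_map measurable_norm.aemeasurable hf.aestronglyMeasurable,
      integrable_withDensity_iff_integrable_smul' hk.ennreal_ofReal (by simp),
      integral_withDensity_eq_integral_toReal_smul hk.ennreal_ofReal (by simp)]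
    simp [ENNReal.toReal_ofReal (k0 _), mul_comm]
  have k1 := key (fun y => ‖x - y‖⁻¹) (fun _ => by positivity) (by fun_prop)
  have k2 := key (fun y => (max ‖x‖ ‖y‖)⁻¹) (fun _ => by positivity) (by fun_prop)
  rw [meas_eq] at k1
  exact ⟨k1.1.1 (k2.1.2 (mi hf h _)), k1.2.symm.trans k2.2⟩

theorem rad_int (f : ℝ → ℝ) : ∫ y : E3, f ‖y‖ = 4 * π * ∫ s in Ioi (0 : ℝ), s ^ 2 * f s := by
  rw [integral_fun_norm_addHaar, vol_ball _ zero_le_one]
  simp; ring

theorem mul_ind (A : Set ℝ) (f : ℝ → ℝ) (s : ℝ) :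
    s ^ 2 * A.indicator f s = A.indicator (fun s => s ^ 2 * f s) s := by
  by_cases h : s ∈ A <;> simp [h]

theorem tail {a : ℝ} (ha : 0 < a) {n : ℕ} (hn : 4 ≤ n) :
    IntegrableOn (fun y : E3 => (‖y‖ ^ n)⁻¹) (ball 0 a)ᶜ ∧
    ∫ y : E3 in (ball 0 a)ᶜ, (‖y‖ ^ n)⁻¹ = 4 * π / (n - 3) * (a ^ 3 * (a ^ n)⁻¹) := by
  have n4 : (4 : ℝ) ≤ n := by exact_mod_cast hn
  have e : ∫ y : E3 in (ball 0 a)ᶜ, (‖y‖ ^ n)⁻¹ = 4 * π / (n - 3) * (a ^ 3 * (a ^ n)⁻¹) := by
    have := rad_int ((Ici a).indicator fun s => (s ^ n)⁻¹)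
    simp_rw [mul_ind] at this
    rw [setIntegral_indicator measurableSet_Ici, inter_eq_right.2 (Ici_subset_Ioi.2 ha),
      integral_Ici_eq_integral_Ioi, setIntegral_congr_fun measurableSet_Ioi
        (g := fun s => s ^ (2 - n : ℝ)) fun s hs => by
          simp only; rw [Real.rpow_sub (ha.trans hs), Real.rpow_natCast, Real.rpow_two, div_eq_mul_inv],
      integral_Ioi_rpow_of_lt (by linarith) ha, show (2 - n + 1 : ℝ) = (3 : ℕ) - n by push_cast; ring,
      Real.rpow_sub ha, Real.rpow_natCast, Real.rpow_natCast] at this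
    rw [← integral_indicator measurableSet_ball.compl]
    refine Eq.trans (integral_congr_ae (ae_of_all _ fun y => ?_)) (this.trans ?_)
    · simp [indicator]
    · have : (n : ℝ) - 3 ≠ 0 := by linarith
      have : (3 : ℝ) - n ≠ 0 := by linarith
      push_cast; field_simp; ring
  refine ⟨Integrable.of_integral_ne_zero ?_, e⟩
  have : (0 : ℝ) < n - 3 := by linarith
  rw [e]; positivity

theorem gauss {K r : ℝ} (hK : 0 < K) (hr : 0 ≤ r) :
    IntegrableOn (fun y : E3 => ‖y‖⁻¹ * Real.exp (K * ‖y‖ ^ 2)) (ball 0 r) ∧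
    ∫ y in ball (0 : E3) r, ‖y‖⁻¹ * Real.exp (K * ‖y‖ ^ 2) =
      2 * π / K * (Real.exp (K * r ^ 2) - 1) := by
  refine ⟨((ker_int0 r).mul_const (Real.exp (K * r ^ 2))).mono' (by fun_prop)
    ((ae_restrict_mem measurableSet_ball).mono fun y hy => ?_), ?_⟩
  · rw [Real.norm_of_nonneg (by positivity)]
    rw [mem_ball_zero_iff] at hy
    gcongr
  have := rad_int ((Iio r).indicator fun s => s⁻¹ * Real.exp (K * s ^ 2))
  simp_rw [mul_ind] at this
  rw [setIntegral_indicator measurableSet_Iio, Ioi_inter_Iio, ← integral_Ioc_eq_integral_Ioo,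
    setIntegral_congr_fun measurableSet_Ioc (g := fun s => s * Real.exp (K * s ^ 2)) fun s hs => by
      have := hs.1.ne'; simp only; field_simp, ← intervalIntegral.integral_of_le hr,
    intervalIntegral.integral_eq_sub_of_hasDerivAt (f := fun s => Real.exp (K * s ^ 2) / (2 * K))
      (fun s _ => ((((hasDerivAt_pow 2 s).const_mul K).exp).div_const (2 * K)).congr_deriv
        (by field_simp; simp; ring)) (Continuous.intervalIntegrable (by fun_prop) _ _)] at this
  rw [← integral_indicator measurableSet_ball]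
  refine Eq.trans (integral_congr_ae (ae_of_all _ fun y => ?_)) (this.trans ?_)
  · simp [indicator]
  · simp; field_simp; ring

end Pool.Agent.H94.TF
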