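import Pool.Agent.H94.TF2

set_option autoImplicit false
namespace Pool.Agent.H94.TF
open Set MeasureTheory Metric Real Filter Topology Pool.Agent.H60.HS

noncomputable def ph (s : ℝ) : ℝ := if s < 1 then 3 - 2 * s ^ 2 else (s ^ 4)⁻¹
noncomputable def GG (a w : ℝ) : ℝ := √a ^ 3 - √(a - w) ^ 3
noncomputable def kk (r s : ℝ) : ℝ := if 0 < s then s⁻¹ - (max r s)⁻¹ else 0
noncomputable def TT (e : ℝ) (w : ℝ → ℝ) (r : ℝ) : ℝ :=
  e + 3 / π * ∫ y : E3, GG (ph ‖y‖) (w ‖y‖) * kk r ‖y‖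

@[fun_prop] theorem ph_meas : Measurable ph :=
  Measurable.ite measurableSet_Iio (by fun_prop) (by fun_prop)
@[fun_prop] theorem kk_meas (r : ℝ) : Measurable (kk r) :=
  Measurable.ite measurableSet_Ioi (by fun_prop) (by fun_prop)

theorem sq_tail {s : ℝ} (h : 1 ≤ s) : √(ph s) = (s ^ 2)⁻¹ := by
  rw [ph, if_neg h.not_gt, show (s ^ 4)⁻¹ = ((s ^ 2)⁻¹) ^ 2 by ring, sqrt_sq (by positivity)]

theorem sq_le (s : ℝ) : √(ph s) ≤ 7 / 4 := by
  rcases lt_or_ge s 1 with h | h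
  · rw [ph, if_pos h, sqrt_le_iff]; constructor <;> nlinarith [sq_nonneg s]
  · rw [sq_tail h]; exact (inv_le_one_of_one_le₀ (by nlinarith)).trans (by norm_num)

theorem GG_mono (a : ℝ) {w v : ℝ} (h : w ≤ v) : GG a w ≤ GG a v := by unfold GG; gcongr
theorem GG_nonneg (a : ℝ) {w : ℝ} (h : 0 ≤ w) : 0 ≤ GG a w := by
  simpa [GG] using GG_mono a h
theorem GG_le (a w : ℝ) : GG a w ≤ √a ^ 3 := sub_le_self _ (by positivity)

theorem GG_up (a : ℝ) {w : ℝ} (h : 0 ≤ w) : GG a w ≤ 3 / 2 * √a * w := by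
  have b0 := sqrt_nonneg a
  rcases le_total a w with h1 | h1
  · have : √a ^ 2 ≤ w := by rw [sq_sqrt']; exact max_le h1 h
    nlinarith [GG_le a w, mul_nonneg b0 h]
  have c0 := sqrt_nonneg (a - w)
  have e1 := sq_sqrt (h.trans h1)
  have e2 := sq_sqrt (sub_nonneg.2 h1)
  have : √(a - w) ≤ √a := sqrt_le_sqrt (by linarith)
  unfold GG
  generalize √a = b at *
  generalize √(a - w) = c at *
  rw [show w = b ^ 2 - c ^ 2 by linarith]
  nlinarith [mul_nonneg (sq_nonneg (b - c)) (by positivity : 0 ≤ b + 2 * c)]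

theorem GG_lo {a w : ℝ} (h : 0 ≤ w) (h1 : w ≤ 19 / 100 * a) : 7 / 5 * √a * w ≤ GG a w := by
  have b0 := sqrt_nonneg a
  have c0 := sqrt_nonneg (a - w)
  have e1 := sq_sqrt (show 0 ≤ a by linarith)
  have e2 := sq_sqrt (show 0 ≤ a - w by linarith)
  have : √(a - w) ≤ √a := sqrt_le_sqrt (by linarith)
  have h3 : 9 / 10 * √a ≤ √(a - w) := (abs_le_of_sq_le_sq' (by nlinarith) c0).2
  unfold GG
  generalize √a = b at *
  generalize √(a - w) = c at *
  rw [show w = b ^ 2 - c ^ 2 by linarith]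
  have : 0 ≤ c ^ 2 - 2 / 5 * b * c - 2 / 5 * b ^ 2 := by nlinarith
  nlinarith [mul_nonneg (by linarith : 0 ≤ b - c) this]

theorem kk_nonneg (r s : ℝ) : 0 ≤ kk r s := by
  unfold kk; split_ifs with h
  · linarith [max_le_inv (r := r) h]
  · rfl
theorem kk_le (r : ℝ) {s : ℝ} (hs : 0 ≤ s) : kk r s ≤ s⁻¹ := by
  unfold kk; split_ifs with h
  · exact sub_le_self _ (by positivity)
  · positivity
theorem kk_mono {r t : ℝ} (h : r ≤ t) (s : ℝ) : kk r s ≤ kk t s := by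
  unfold kk; split_ifs with h
  · gcongr
  · rfl
theorem kk_zero {r s : ℝ} (h : r ≤ s) : kk r s = 0 := by simp [kk, max_eq_right h]

theorem dom {f : ℝ → ℝ} (hf : Measurable f) (h : ∀ s, 0 ≤ s → |f s| ≤ √(ph s) ^ 3) :
    (Integrable fun y : E3 => f ‖y‖) ∧ Integrable fun y : E3 => f ‖y‖ * ‖y‖⁻¹ := by
  have b : ∀ y : E3, |f ‖y‖| ≤ 8 := fun y => (h _ (norm_nonneg y)).trans
    ((pow_le_pow_left₀ (sqrt_nonneg _) (sq_le _) 3).trans (by norm_num))
  have t : ∀ y : E3, y ∈ (ball 0 1)ᶜ → |f ‖y‖| ≤ (‖y‖ ^ 6)⁻¹ := fun y hy => (h _ (norm_nonneg y)).trans_eq (by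
    rw [sq_tail (by simpa using hy)]; ring)
  simp only [← integrableOn_univ, ← union_compl_self (ball (0 : E3) 1)]
  refine ⟨IntegrableOn.union ((integrableOn_const (C := (8 : ℝ)) measure_ball_lt_top.ne).mono'
      (hf.comp measurable_norm).aestronglyMeasurable (ae_of_all _ fun y => b _))
      ((tail one_pos (n := 6) (by norm_num)).1.mono'
      (hf.comp measurable_norm).aestronglyMeasurable ((ae_restrict_mem measurableSet_ball.compl).mono t)),
    IntegrableOn.union (((ker_int0 1).const_mul 8).mono' (by fun_prop) (ae_of_all _ fun y => ?_))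
      ((tail one_pos (n := 7) (by norm_num)).1.mono' (by fun_prop)
      ((ae_restrict_mem measurableSet_ball.compl).mono fun y hy => ?_))⟩
  all_goals rw [norm_mul, Real.norm_of_nonneg (r := ‖y‖⁻¹) (by positivity)]
  · exact mul_le_mul_of_nonneg_right (b _) (by positivity)
  · exact (mul_le_mul_of_nonneg_right (t y hy) (by positivity)).trans_eq (by ring)

theorem GG_dom {w : ℝ → ℝ} (hw : Monotone w) (w0 : ∀ r, 0 ≤ w r) :
    (Integrable fun y : E3 => GG (ph ‖y‖) (w ‖y‖)) ∧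
      Integrable fun y : E3 => GG (ph ‖y‖) (w ‖y‖) * ‖y‖⁻¹ := by
  have := hw.measurable
  exact dom (f := fun s => GG (ph s) (w s)) (by unfold GG; fun_prop) fun s _ => by
    rw [abs_of_nonneg (GG_nonneg _ (w0 s))]; exact GG_le _ _

theorem Ti {w : ℝ → ℝ} (hw : Monotone w) (w0 : ∀ r, 0 ≤ w r) (r : ℝ) :
    Integrable fun y : E3 => GG (ph ‖y‖) (w ‖y‖) * kk r ‖y‖ := by
  have := hw.measurable
  refine (GG_dom hw w0).2.mono' (by unfold GG; fun_prop) (ae_of_all _ fun y => ?_)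
  rw [Real.norm_of_nonneg (mul_nonneg (GG_nonneg _ (w0 _)) (kk_nonneg _ _))]
  exact mul_le_mul_of_nonneg_left (kk_le _ (norm_nonneg _)) (GG_nonneg _ (w0 _))

theorem T_le {e : ℝ} {w v : ℝ → ℝ} (hw : Monotone w) (w0 : ∀ r, 0 ≤ w r) (hv : Monotone v)
    (h : ∀ r, w r ≤ v r) {r t : ℝ} (hr : r ≤ t) : TT e w r ≤ TT e v t := by
  have v0 := fun r => (w0 r).trans (h r)
  refine add_le_add le_rfl (mul_le_mul_of_nonneg_left (integral_mono (Ti hw w0 r) (Ti hv v0 t)
    fun y => mul_le_mul (GG_mono _ (h _)) (kk_mono hr _) (kk_nonneg _ _) (GG_nonneg _ (v0 _)))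
    (by positivity))

theorem T_ge (e : ℝ) {w : ℝ → ℝ} (w0 : ∀ r, 0 ≤ w r) (r : ℝ) : e ≤ TT e w r :=
  le_add_of_nonneg_right (mul_nonneg (by positivity)
    (integral_nonneg fun _ => mul_nonneg (GG_nonneg _ (w0 _)) (kk_nonneg _ _)))

noncomputable def su (e r : ℝ) : ℝ := e * Real.exp (18 * max r 0 ^ 2)

theorem su_sup {e : ℝ} (he : 0 ≤ e) : Monotone (su e) ∧ (∀ r, 0 ≤ su e r) ∧
    ∀ r, TT e (su e) r ≤ su e r := by
  have m : Monotone (su e) := fun a b h => by unfold su; gcongr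
  have p : ∀ r, 0 ≤ su e r := fun r => by unfold su; positivity
  refine ⟨m, p, fun r => ?_⟩
  obtain ⟨g1, g2⟩ := gauss (K := 18) (r := max r 0) (by norm_num) (le_max_right _ _)
  have := integral_mono (Ti m p r) (((integrable_indicator_iff measurableSet_ball).2 g1).const_mul
    (3 * e)) fun y => by
      by_cases h : y ∈ ball (0 : E3) (max r 0)
      · simp only [indicator_of_mem h]
        have a1 := GG_up (ph ‖y‖) (p ‖y‖)
        have a2 := mul_le_mul_of_nonneg_right (sq_le ‖y‖) (p ‖y‖)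
        refine (mul_le_mul (b := 3 * su e ‖y‖) (by linarith [p ‖y‖]) (kk_le _ (norm_nonneg _))
          (kk_nonneg _ _) (by linarith [p ‖y‖])).trans_eq ?_
        rw [su, max_eq_left (norm_nonneg _)]; ring
      · simp only [indicator_of_notMem h]
        rw [kk_zero ((le_max_left r 0).trans (not_lt.1 (mt mem_ball_zero_iff.2 h)))]; simp
  rw [integral_const_mul, integral_indicator measurableSet_ball, g2] at this
  refine (add_le_add le_rfl (mul_le_mul_of_nonneg_left this (by positivity))).trans_eq ?_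
  rw [su]; field_simp; ring

theorem fix {e : ℝ} (he : 0 ≤ e) : ∃ w : ℝ → ℝ, Monotone w ∧ (∀ r, e ≤ w r) ∧
    (∀ r, w r = TT e w r) ∧ ∀ v : ℝ → ℝ, Monotone v → (∀ r, 0 ≤ v r) → (∀ r, TT e v r ≤ v r) →
      ∀ r, w r ≤ v r := by
  let S := {v : ℝ → ℝ // Monotone v ∧ (∀ r, 0 ≤ v r) ∧ ∀ r, TT e v r ≤ v r}
  have : Nonempty S := ⟨⟨_, su_sup he⟩⟩
  let w : ℝ → ℝ := fun r => ⨅ v : S, v.1 r
  have l : ∀ (v : S) r, w r ≤ v.1 r := fun v r =>
    ciInf_le ⟨0, forall_mem_range.2 fun v : S => v.2.2.1 r⟩ v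
  have m : Monotone w := fun a b h => le_ciInf fun v => (l v a).trans (v.2.1 h)
  have w0 : ∀ r, 0 ≤ w r := fun r => le_ciInf fun v => v.2.2.1 r
  have s : ∀ r, TT e w r ≤ w r := fun r => le_ciInf fun v =>
    (T_le m w0 v.2.1 (l v) le_rfl).trans (v.2.2.2 r)
  have tm : Monotone (TT e w) := fun a b h => T_le m w0 m (fun _ => le_rfl) h
  have t0 := fun r => he.trans (T_ge e w0 r)
  exact ⟨w, m, fun r => (T_ge e w0 r).trans (s r), fun r => le_antisymm
    (l ⟨TT e w, tm, t0, fun r => T_le tm t0 m s le_rfl⟩ r) (s r), fun v a b c => l ⟨v, a, b, c⟩⟩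

theorem ph_in {s : ℝ} (h0 : 0 ≤ s) (h : s < 1) : 1 ≤ ph s := by rw [ph, if_pos h]; nlinarith

theorem low {e : ℝ} {w : ℝ → ℝ} (he : 0 ≤ e) (he' : e ≤ 1 / 1000) (m : Monotone w)
    (h : ∀ r, e ≤ w r) : 17 / 2 * e ≤ TT e w (21 / 10) := by
  have i : ∀ R, IntegrableOn (fun y : E3 => ‖y‖⁻¹ - 10 / 21) (ball 0 R) := fun R =>
    (ker_int0 R).sub (integrableOn_const measure_ball_lt_top.ne)
  have j := fun R => (integrable_indicator_iff measurableSet_ball).2 (i R)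
  have v : ∀ R : ℝ, 0 ≤ R → ∫ y, (ball (0 : E3) R).indicator (fun y : E3 => ‖y‖⁻¹ - 10 / 21) y =
      2 * π * R ^ 2 - 4 * π / 3 * R ^ 3 * (10 / 21) := fun R hR => by
    rw [integral_indicator measurableSet_ball, integral_sub (ker_int0 R)
      (integrableOn_const measure_ball_lt_top.ne), inv_ball hR]
    simp [vol_ball _ hR]
  have w0 := fun r => he.trans (h r)
  have := integral_mono_ae (((j (3 / 2)).const_mul (7 / 5 * e * (4 / 9))).add
    ((j 1).const_mul (7 / 5 * e * (5 / 9)))) (Ti m w0 (21 / 10)) (ne0.mono fun y hy => by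
      simp only [Pi.add_apply, indicator, mem_ball_zero_iff]
      have k0 := kk_nonneg (21 / 10) ‖y‖
      have key : ∀ c : ℝ, ‖y‖ < 3 / 2 → 1 / 10 ≤ ph ‖y‖ → c ≤ √(ph ‖y‖) → 7 / 5 * e * c *
          (‖y‖⁻¹ - 10 / 21) ≤ GG (ph ‖y‖) (w ‖y‖) * kk (21 / 10) ‖y‖ := fun c h1 h2 h3 => by
        have : kk (21 / 10) ‖y‖ = ‖y‖⁻¹ - 10 / 21 := by
          rw [kk, if_pos hy, max_eq_left (by linarith)]; norm_num
        rw [← this]
        refine mul_le_mul_of_nonneg_right (le_trans ?_ ((GG_lo he (by linarith)).trans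
          (GG_mono _ (h _)))) k0
        nlinarith
      split_ifs with h1 h2 h2
      · have := key 1 h1 (by linarith [ph_in hy.le h2]) (one_le_sqrt.2 (ph_in hy.le h2))
        linarith
      · have a : ‖y‖ ^ 2 ≤ 9 / 4 := by nlinarith
        have := key (4 / 9) h1 (by
          rw [ph, if_neg h2, le_inv_comm₀ (by norm_num) (by positivity)]; nlinarith) (by
          rw [sq_tail (not_lt.1 h2), le_inv_comm₀ (by norm_num) (by positivity)]; linarith)
        linarith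
      · linarith
      · simpa using mul_nonneg (GG_nonneg _ (w0 _)) k0)
  rw [integral_add' ((j _).const_mul _) ((j _).const_mul _), integral_const_mul, integral_const_mul,
    v _ (by norm_num), v _ (by norm_num)] at this
  refine le_trans ?_ (add_le_add le_rfl (mul_le_mul_of_nonneg_left this (by positivity)))
  have := pi_pos
  field_simp
  nlinarith

theorem pair : ∃ (e1 e2 : ℝ) (w1 w2 : ℝ → ℝ), 0 < e1 ∧ 0 < e2 ∧ Monotone w1 ∧ Monotone w2 ∧
    (∀ r, e2 ≤ w2 r) ∧ (∀ r, w2 r ≤ w1 r) ∧ (∀ r, w1 r = TT e1 w1 r) ∧ (∀ r, w2 r = TT e2 w2 r) ∧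
    (∀ s, 0 ≤ s → s < 1 → w2 s < w1 s ∧ w1 s < ph s) ∧
    GG (ph 0) (w1 0) + GG (ph (21 / 10)) (w2 (21 / 10)) < GG (ph (21 / 10)) (w1 (21 / 10)) := by
  set A := Real.exp (18 * 3 ^ 2)
  have A1 : 1 ≤ A := Real.one_le_exp (by norm_num)
  set e1 := 1 / 1000 / A with h1
  set e2 := e1 / 100 / A with h2
  have p1 : 0 < e1 := by positivity
  have p2 : 0 < e2 := by positivity
  have q1 : e1 * A = 1 / 1000 := by rw [h1]; field_simp
  have q2 : e2 * A = e1 / 100 := by rw [h2]; field_simp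
  obtain ⟨w1, m1, l1, f1, u1⟩ := fix p1.le
  obtain ⟨w2, m2, l2, f2, u2⟩ := fix p2.le
  have b : ∀ e r, 0 ≤ e → 0 ≤ r → r ≤ 3 → su e r ≤ e * A := fun e r he r0 r3 => by
    rw [su, max_eq_left r0]
    exact mul_le_mul_of_nonneg_left (Real.exp_le_exp.2 (by nlinarith)) he
  have b1 := fun r r0 r3 => (u1 _ (su_sup p1.le).1 (su_sup p1.le).2.1 (su_sup p1.le).2.2 r).trans
    ((b e1 r p1.le r0 r3).trans_eq q1)
  have b2 := fun r r0 r3 => (u2 _ (su_sup p2.le).1 (su_sup p2.le).2.1 (su_sup p2.le).2.2 r).trans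
    ((b e2 r p2.le r0 r3).trans_eq q2)
  have c1 : e1 ≤ 1 / 1000 := by nlinarith
  refine ⟨e1, e2, w1, w2, p1, p2, m1, m2, l2, u2 w1 m1 (fun r => p1.le.trans (l1 r)) fun r => ?_,
    f1, f2, fun s s0 s1 => ⟨by linarith [b2 s s0 (by linarith), l1 s],
      by linarith [b1 s s0 (by linarith), ph_in s0 s1]⟩, ?_⟩
  · rw [f1 r]; unfold TT; gcongr; nlinarith
  have z : w1 0 = e1 := by rw [f1, TT]; simp [kk_zero]
  have a1 := GG_up (ph 0) p1.le
  have a2 := GG_up (ph (21 / 10)) (p2.le.trans (l2 (21 / 10)))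
  have a3 := GG_mono (ph (21 / 10)) ((low p1.le c1 m1 l1).trans_eq (f1 _).symm)
  have a4 := GG_lo (a := ph (21 / 10)) (w := 17 / 2 * e1) (by positivity) (by
    rw [ph, if_neg (by norm_num)]; norm_num; linarith)
  have a5 := b2 (21 / 10) (by norm_num) (by norm_num)
  rw [sq_tail (by norm_num)] at a2 a4
  have a6 := mul_le_mul_of_nonneg_right (sq_le 0) p1.le
  rw [z]
  norm_num at a2 a4
  linarith

end Pool.Agent.H94.TF
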