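import Pool.Agent.H94.TF3

set_option autoImplicit false
namespace Pool.Agent.H94.TF
open Set MeasureTheory Metric Real Filter Topology Pool.Agent.H60.HS

/-- Admissible densities with electron number `l`. -/
def Adm (l : ℝ) (ρ : EuclideanSpace ℝ (Fin 3) → ℝ) : Prop :=
  Measurable ρ ∧ (∀ x, 0 ≤ ρ x) ∧ Integrable ρ ∧ Integrable (fun x => ρ x ^ (5 / 3 : ℝ)) ∧
    ∫ x, ρ x = l

/-- The Thomas-Fermi functional. -/
noncomputable def En (γ : ℝ) (V ρ : EuclideanSpace ℝ (Fin 3) → ℝ) : EReal :=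
  ((3 / 5 * γ * (∫ x, ρ x ^ (5 / 3 : ℝ)) - ∫ x, V x * ρ x : ℝ) : EReal) +
    ((DD ρ ρ / 2 : ENNReal) : EReal)

/-- `ρ` minimises the functional at electron number `l` and solves the TF equation pointwise. -/
def IsTF (γ : ℝ) (V : EuclideanSpace ℝ (Fin 3) → ℝ) (l : ℝ) (ρ : EuclideanSpace ℝ (Fin 3) → ℝ) :
    Prop :=
  Adm l ρ ∧ (∀ σ, Adm l σ → En γ V ρ ≤ En γ V σ) ∧ (∀ x, Integrable fun y => ρ y * ‖x - y‖⁻¹) ∧
    ∃ μ : ℝ, 0 ≤ μ ∧ ∀ x, γ * ρ x ^ (2 / 3 : ℝ) = max (V x - (∫ y, ρ y * ‖x - y‖⁻¹) - μ) 0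

/-- The potential of a charge distribution. -/
noncomputable def pot (m : Measure (EuclideanSpace ℝ (Fin 3))) (x : EuclideanSpace ℝ (Fin 3)) : ℝ :=
  ∫ y, ‖x - y‖⁻¹ ∂m

/-- A finite measure of positive mass with a finite, bounded potential. -/
def Nuc (m : Measure (EuclideanSpace ℝ (Fin 3))) : Prop :=
  IsFiniteMeasure m ∧ 0 < m.real univ ∧ (∀ x, Integrable (fun y => ‖x - y‖⁻¹) m) ∧
    ∃ M, ∀ x, pot m x ≤ M

/-- The mirror image in the plane `x 0 = a`. -/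
noncomputable def mirror (a : ℝ) (x : EuclideanSpace ℝ (Fin 3)) : EuclideanSpace ℝ (Fin 3) :=
  x - (2 * (x 0 - a)) • EuclideanSpace.single 0 1

theorem tang {r s : ℝ} (hr : 0 ≤ r) (hs : 0 ≤ s) :
    r ^ (2 / 3 : ℝ) * (s - r) ≤ 3 / 5 * (s ^ (5 / 3 : ℝ) - r ^ (5 / 3 : ℝ)) := by
  have e : ∀ (t : ℝ) (n : ℕ), 0 ≤ t → t ^ (n / 3 : ℝ) = (t ^ (1 / 3 : ℝ)) ^ n := fun t n ht => by
    rw [← Real.rpow_natCast, ← Real.rpow_mul ht]; congr 1; ring
  have a1 := e r 2 hr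
  have a2 := e r 5 hr
  have a3 := e s 5 hs
  have a4 := e r 3 hr
  have a5 := e s 3 hs
  norm_num at a1 a2 a3 a4 a5
  have b1 := Real.rpow_nonneg hr (1 / 3)
  have b2 := Real.rpow_nonneg hs (1 / 3)
  norm_num at b1 b2 ⊢
  rw [a1, a2, a3]
  generalize r ^ (1 / 3 : ℝ) = a at *
  generalize s ^ (1 / 3 : ℝ) = b at *
  subst a4 a5
  nlinarith [mul_nonneg (sq_nonneg (b - a))
    (by positivity : 0 ≤ 3 * b ^ 3 + 6 * a * b ^ 2 + 4 * a ^ 2 * b + 2 * a ^ 3)]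

theorem minim {γ l M M' μ : ℝ} {V ρ : E3 → ℝ} (hγ : 0 < γ) (hV : Measurable V)
    (hM : ∀ x, |V x| ≤ M) (hρ : Adm l ρ) (hi : ∀ x, Integrable fun y => ρ y * ‖x - y‖⁻¹)
    (hM' : ∀ x, ∫ y, ρ y * ‖x - y‖⁻¹ ≤ M')
    (hμ : ∀ x, γ * ρ x ^ (2 / 3 : ℝ) = max (V x - (∫ y, ρ y * ‖x - y‖⁻¹) - μ) 0) (σ : E3 → ℝ)
    (hσ : Adm l σ) : En γ V ρ ≤ En γ V σ := by
  obtain ⟨ψ, hψ⟩ : ∃ ψ : E3 → ℝ, ∀ x, ψ x = ∫ y, ρ y * ‖x - y‖⁻¹ := ⟨_, fun _ => rfl⟩
  have rm := hρ.1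
  have pm : StronglyMeasurable ψ := by
    rw [funext hψ]
    exact StronglyMeasurable.integral_prod_right' (f := fun q : E3 × E3 => ρ q.2 * ‖q.1 - q.2‖⁻¹)
      (Measurable.stronglyMeasurable (by fun_prop))
  have p0 : ∀ x, 0 ≤ ψ x := fun x => hψ x ▸ integral_nonneg fun y =>
    mul_nonneg (hρ.2.1 y) (by positivity)
  simp only [← hψ] at hM' hμ
  have i1 : ∀ τ, Adm l τ → Integrable fun x => ψ x * τ x := fun τ h =>
    h.2.2.1.bdd_mul (c := M') pm.aestronglyMeasurable (ae_of_all _ fun x => by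
      rw [Real.norm_of_nonneg (p0 x)]; exact hM' x)
  have i2 : ∀ τ, Adm l τ → Integrable fun x => V x * τ x := fun τ h =>
    h.2.2.1.bdd_mul hV.aestronglyMeasurable (ae_of_all _ hM)
  have n1 : ∀ τ, Adm l τ → 0 ≤ ∫ x, ψ x * τ x := fun τ h =>
    integral_nonneg fun x => mul_nonneg (p0 x) (h.2.1 x)
  have d : ∀ τ, Adm l τ → DD τ ρ = ENNReal.ofReal (∫ x, ψ x * τ x) := fun τ h => by
    rw [ofReal_integral_eq_lintegral_ofReal (i1 τ h)
      (ae_of_all _ fun x => mul_nonneg (p0 x) (h.2.1 x)), DD]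
    refine lintegral_congr fun x => ?_
    simp_rw [mul_assoc]
    rw [← ofReal_integral_eq_lintegral_ofReal ((hi x).const_mul _) (ae_of_all _ fun y =>
      mul_nonneg (h.2.1 x) (mul_nonneg (hρ.2.1 y) (by positivity))), integral_const_mul, ← hψ,
      mul_comm]
  have k := DD_pos hσ.1 rm hσ.2.1 hρ.2.1
  rw [d σ hσ, d ρ hρ] at k
  have pt : ∀ τ, Adm l τ → ∫ x, (3 / 5 * γ * τ x ^ (5 / 3 : ℝ) - V x * τ x + ψ x * τ x + μ * τ x) =
      3 / 5 * γ * (∫ x, τ x ^ (5 / 3 : ℝ)) - (∫ x, V x * τ x) + (∫ x, ψ x * τ x) + μ * l :=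
    fun τ h => by
      rw [integral_add (((h.2.2.2.1.const_mul _).sub' (i2 τ h)).fun_add (i1 τ h)) (h.2.2.1.const_mul _),
        integral_add ((h.2.2.2.1.const_mul _).sub' (i2 τ h)) (i1 τ h),
        integral_sub (h.2.2.2.1.const_mul _) (i2 τ h), integral_const_mul, integral_const_mul,
        h.2.2.2.2]
  have it : ∀ τ, Adm l τ → Integrable fun x =>
      (3 / 5 * γ * τ x ^ (5 / 3 : ℝ) - V x * τ x + ψ x * τ x + μ * τ x) := fun τ h =>
    (((h.2.2.2.1.const_mul _).sub (i2 τ h)).add (i1 τ h)).add (h.2.2.1.const_mul _)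
  have q := integral_mono (it ρ hρ) (it σ hσ) fun x => by
    have a := mul_le_mul_of_nonneg_left (tang (hρ.2.1 x) (hσ.2.1 x)) hγ.le
    have b := hμ x
    rw [← mul_assoc, b] at a
    rcases le_total (V x - ψ x - μ) 0 with h | h
    · rw [max_eq_right h] at a b
      have : ρ x = 0 := by
        simpa [hγ.ne', Real.rpow_eq_zero_iff_of_nonneg (hρ.2.1 x)] using b
      simp only [this] at a ⊢
      nlinarith [mul_nonneg (neg_nonneg.2 h) (hσ.2.1 x)]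
    · rw [max_eq_left h] at a
      simp only
      linarith
  rw [pt ρ hρ, pt σ hσ] at q
  rw [En, En, d ρ hρ]
  rcases eq_or_ne (DD σ σ) ⊤ with h | h
  · rw [h, ENNReal.top_div_of_ne_top (by simp), EReal.coe_ennreal_top, EReal.coe_add_top]
    exact le_top
  have c : ∀ t : ℝ, 0 ≤ t → ((ENNReal.ofReal t / 2 : ENNReal) : EReal) = (t / 2 : ℝ) := fun t ht => by
    rw [← ENNReal.ofReal_ofNat, ← ENNReal.ofReal_div_of_pos two_pos, EReal.coe_ennreal_ofReal,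
      max_eq_left (by positivity)]
  have k2 := ENNReal.toReal_mono (ENNReal.add_ne_top.2 ⟨h, ENNReal.ofReal_ne_top⟩) k
  rw [ENNReal.toReal_add h ENNReal.ofReal_ne_top, ENNReal.toReal_mul, ENNReal.toReal_ofReal (n1 σ hσ),
    ENNReal.toReal_ofReal (n1 ρ hρ), ENNReal.toReal_ofNat] at k2
  rw [← ENNReal.ofReal_toReal h, c _ (n1 ρ hρ), c _ ENNReal.toReal_nonneg, ← EReal.coe_add,
    ← EReal.coe_add, EReal.coe_le_coe_iff]
  linarith

noncomputable def rm (d : ℝ → ℝ) : Measure E3 := volume.withDensity fun y => ENNReal.ofReal (d ‖y‖)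

theorem mx_le {d : ℝ → ℝ} (hd : Measurable d) (d0 : ∀ y : E3, 0 ≤ d ‖y‖)
    (i2 : Integrable fun y : E3 => d ‖y‖ * ‖y‖⁻¹) (r : ℝ) :
    ∫ y : E3, d ‖y‖ * (max r ‖y‖)⁻¹ ≤ ∫ y : E3, d ‖y‖ * ‖y‖⁻¹ :=
  integral_mono_ae (mi hd i2 r) i2
    (ne0.mono fun y hy => mul_le_mul_of_nonneg_left (max_le_inv hy) (d0 y))

theorem radm {d : ℝ → ℝ} (hd : Measurable d) (d0 : ∀ y : E3, 0 ≤ d ‖y‖)
    (i1 : Integrable fun y : E3 => d ‖y‖) (i2 : Integrable fun y : E3 => d ‖y‖ * ‖y‖⁻¹)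
    (p : 0 < ∫ y : E3, d ‖y‖) : Nuc (rm d) ∧ (rm d).real univ = ∫ y : E3, d ‖y‖ ∧
      (∀ x, pot (rm d) x = ∫ y : E3, d ‖y‖ * (max ‖x‖ ‖y‖)⁻¹) ∧ Measurable (pot (rm d)) := by
  have m : Measurable fun y : E3 => ENNReal.ofReal (d ‖y‖) := by fun_prop
  have e1 : (rm d).real univ = ∫ y : E3, d ‖y‖ := by
    rw [rm, Measure.real, withDensity_apply _ MeasurableSet.univ, Measure.restrict_univ,
      ← ofReal_integral_eq_lintegral_ofReal i1 (ae_of_all _ d0), ENNReal.toReal_ofReal p.le]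
  have e2 : ∀ x, pot (rm d) x = ∫ y : E3, d ‖y‖ * (max ‖x‖ ‖y‖)⁻¹ := fun x => by
    rw [pot, rm, integral_withDensity_eq_integral_toReal_smul m (by simp), ← (newton hd i2 x).2]
    simp [ENNReal.toReal_ofReal (d0 _)]
  have f : IsFiniteMeasure (rm d) := isFiniteMeasure_withDensity_ofReal i1.2
  refine ⟨⟨f, e1 ▸ p, fun x => ?_, _, fun x => (e2 x).trans_le (mx_le hd d0 i2 _)⟩, e1, e2,
    (StronglyMeasurable.integral_prod_right' (f := fun q : E3 × E3 => ‖q.1 - q.2‖⁻¹)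
      (Measurable.stronglyMeasurable (by fun_prop))).measurable⟩
  rw [rm, integrable_withDensity_iff_integrable_smul' m (by simp)]
  simpa [ENNReal.toReal_ofReal (d0 _)] using (newton hd i2 x).1

theorem rm_map {d : ℝ → ℝ} (hd : Measurable d) (e : E3 ≃ₗᵢ[ℝ] E3) : (rm d).map e = rm d := by
  ext s hs
  have := e.measurePreserving.setLIntegral_comp_preimage hs
    (f := fun y => ENNReal.ofReal (d ‖y‖)) (by fun_prop)
  simp only [e.norm_map] at this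
  rw [Measure.map_apply e.continuous.measurable hs, rm,
    withDensity_apply _ (e.continuous.measurable hs), withDensity_apply _ hs, this]

noncomputable def hh (s : ℝ) : ℝ := if s < 1 then 1 else -(s ^ 6)⁻¹

@[fun_prop] theorem hh_meas : Measurable hh :=
  Measurable.ite measurableSet_Iio (by fun_prop) (by fun_prop)

theorem hh_tail {s : ℝ} (h : 1 ≤ s) : √(ph s) ^ 3 + hh s = 0 := by
  rw [sq_tail h, hh, if_neg h.not_gt]; ring

theorem hh_le (s : ℝ) (h : 0 ≤ s) : |hh s| ≤ √(ph s) ^ 3 := by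
  rcases lt_or_ge s 1 with h1 | h1
  · rw [hh, if_pos h1, abs_one]; exact one_le_pow₀ (one_le_sqrt.2 (ph_in h h1))
  · rw [eq_neg_of_add_eq_zero_right (hh_tail h1), abs_neg, abs_of_nonneg (by positivity)]

theorem hh_split (k : ℝ → ℝ) (h : Integrable fun y : E3 => hh ‖y‖ * k ‖y‖) :
    ∫ y : E3, hh ‖y‖ * k ‖y‖ =
      (∫ y in ball (0 : E3) 1, k ‖y‖) - ∫ y in (ball (0 : E3) 1)ᶜ, (‖y‖ ^ 6)⁻¹ * k ‖y‖ := by
  rw [← integral_add_compl (s := ball 0 1) measurableSet_ball h, sub_eq_add_neg, ← integral_neg]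
  congr 1
  · exact setIntegral_congr_fun measurableSet_ball fun y hy => by
      simp [hh, mem_ball_zero_iff.1 hy]
  · exact setIntegral_congr_fun measurableSet_ball.compl fun y hy => by
      simp [hh, mt mem_ball_zero_iff.2 hy]

theorem hh_int : ∫ y : E3, hh ‖y‖ = 0 := by
  have := hh_split (fun _ => 1) (by simpa using (dom hh_meas hh_le).1)
  simp only [mul_one] at this
  rw [this, (tail one_pos (n := 6) (by norm_num)).2]
  simp [vol_ball _ zero_le_one]; ring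

theorem hh_pot {r : ℝ} (hr : 0 ≤ r) : ∫ y : E3, hh ‖y‖ * (max r ‖y‖)⁻¹ = π / 3 * ph r := by
  rw [hh_split (fun s => (max r s)⁻¹) (mi hh_meas (dom hh_meas hh_le).2 r)]
  have t : ∀ a, r ≤ a → ∫ y in (ball (0 : E3) a)ᶜ, (‖y‖ ^ 6)⁻¹ * (max r ‖y‖)⁻¹ =
      ∫ y in (ball (0 : E3) a)ᶜ, (‖y‖ ^ 7)⁻¹ := fun a ha =>
    setIntegral_congr_fun measurableSet_ball.compl fun y hy => by
      rw [max_eq_right (ha.trans (by simpa using hy))]; ring
  rcases lt_or_ge r 1 with h | h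
  · rw [max_in hr h.le, t 1 h.le, (tail one_pos (n := 7) (by norm_num)).2, ph, if_pos h]
    norm_num; ring
  have r0 : 0 < r := by linarith
  have s : (ball (0 : E3) r)ᶜ ⊆ (ball 0 1)ᶜ := compl_subset_compl.2 (ball_subset_ball h)
  have i := (tail one_pos (n := 6) (by norm_num)).1
  have e1 := setIntegral_sdiff measurableSet_ball.compl (i.mul_const r⁻¹) s
  have e2 := setIntegral_sdiff measurableSet_ball.compl
    (f := fun y : E3 => (‖y‖ ^ 6)⁻¹ * (max r ‖y‖)⁻¹) (i.mul_bdd (c := r⁻¹) (by fun_prop)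
      (ae_of_all _ fun y => by
        rw [Real.norm_of_nonneg (by positivity)]; exact inv_anti₀ r0 (le_max_left _ _))) s
  rw [setIntegral_congr_fun (measurableSet_ball.compl.diff measurableSet_ball.compl)
    (g := fun y : E3 => (‖y‖ ^ 6)⁻¹ * r⁻¹) fun y hy => by
      simp only; rw [max_eq_left (le_of_lt (by simpa using hy.2))], e1, integral_mul_const,
    integral_mul_const, t r le_rfl, (tail one_pos (n := 6) (by norm_num)).2,
    (tail r0 (n := 6) (by norm_num)).2, (tail r0 (n := 7) (by norm_num)).2] at e2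
  rw [max_out zero_le_one h, eq_add_of_sub_eq e2.symm, ph, if_neg h.not_gt]
  field_simp; ring

end Pool.Agent.H94.TF
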