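import Pool.Agent.H94.TF4

set_option autoImplicit false
namespace Pool.Agent.H94.TF
open Set MeasureTheory Metric Real Filter Topology Pool.Agent.H60.HS

noncomputable def rh (b : ℝ) (w : ℝ → ℝ) (s : ℝ) : ℝ := b ^ 3 * √(ph s - w s) ^ 3

theorem rh_eq (b : ℝ) (w : ℝ → ℝ) (s : ℝ) :
    rh b w s = b ^ 3 * √(ph s) ^ 3 - b ^ 3 * GG (ph s) (w s) := by unfold rh GG; ring

theorem p_dom : (Integrable fun y : E3 => √(ph ‖y‖) ^ 3) ∧
    Integrable fun y : E3 => √(ph ‖y‖) ^ 3 * ‖y‖⁻¹ :=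
  dom (f := fun s => √(ph s) ^ 3) (by fun_prop) fun _ _ => (abs_of_nonneg (by positivity)).le

theorem rh_int (b : ℝ) {w : ℝ → ℝ} (m : Monotone w) (w0 : ∀ r, 0 ≤ w r) :
    (Integrable fun y : E3 => rh b w ‖y‖) ∧ Integrable fun y : E3 => rh b w ‖y‖ * ‖y‖⁻¹ := by
  simp only [rh_eq, sub_mul, mul_assoc]
  exact ⟨(p_dom.1.const_mul _).sub ((GG_dom m w0).1.const_mul _),
    (p_dom.2.const_mul _).sub ((GG_dom m w0).2.const_mul _)⟩

theorem tf {γ b e v M : ℝ} {w : ℝ → ℝ} {V V1 : E3 → ℝ} (hγ : 0 < γ) (hb : b = 3 * γ / π)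
    (he : 0 ≤ e) (hv : 0 ≤ v) (m : Monotone w) (w0 : ∀ r, 0 ≤ w r) (f : ∀ r, w r = TT e w r)
    (hV : Measurable V) (hM : ∀ x, |V x| ≤ M)
    (h1 : ∀ x, V x = V1 x + ∫ y : E3, b ^ 3 * (√(ph ‖y‖) ^ 3 + hh ‖y‖) * (max ‖x‖ ‖y‖)⁻¹)
    (h2 : ∀ x, V1 x ≤ v) (h3 : ∀ x, V1 x = v ∨ ph ‖x‖ ≤ w ‖x‖) :
    IsTF γ V (∫ y : E3, rh b w ‖y‖) fun y => rh b w ‖y‖ := by
  have b0 : 0 < b := by rw [hb]; positivity
  have wm := m.measurable
  have rmm : Measurable (rh b w) := by unfold rh; fun_prop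
  have r0 : ∀ s, 0 ≤ rh b w s := fun s => by unfold rh; positivity
  obtain ⟨i1, i2⟩ := rh_int b m w0
  have A : Adm (∫ y : E3, rh b w ‖y‖) fun y => rh b w ‖y‖ := by
    refine ⟨by fun_prop, fun _ => r0 _, i1, ?_, rfl⟩
    refine (i1.mul_bdd (c := (b ^ 3 * 2 ^ 3) ^ (2 / 3 : ℝ))
      (g := fun y : E3 => rh b w ‖y‖ ^ (2 / 3 : ℝ)) (Measurable.aestronglyMeasurable (by fun_prop))
      (ae_of_all _ fun y => ?_)).congr (ae_of_all _ fun y => ?_)
    · rw [Real.norm_of_nonneg (Real.rpow_nonneg (r0 _) _)]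
      refine Real.rpow_le_rpow (r0 _) ?_ (by norm_num)
      have := (sqrt_le_sqrt (sub_le_self (ph ‖y‖) (w0 ‖y‖))).trans (sq_le ‖y‖)
      unfold rh; gcongr; linarith
    · simp only
      rw [show (5 / 3 : ℝ) = 1 + 2 / 3 by norm_num, Real.rpow_add' (r0 _) (by norm_num), rpow_one]
  have N := newton rmm i2
  have gm : Measurable fun s => GG (ph s) (w s) := by unfold GG; fun_prop
  set C := ∫ y : E3, GG (ph ‖y‖) (w ‖y‖) * ‖y‖⁻¹ with hC
  have C0 : 0 ≤ C := integral_nonneg fun y => mul_nonneg (GG_nonneg _ (w0 _)) (by positivity)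
  have E : ∀ x, γ * rh b w ‖x‖ ^ (2 / 3 : ℝ) = max (V x - (∫ y, rh b w ‖y‖ * ‖x - y‖⁻¹) -
      (v + b ^ 3 * (C + π / 3 * e))) 0 := fun x => by
    have j1 := mi (f := fun s => √(ph s) ^ 3) (by fun_prop) p_dom.2 ‖x‖
    have j2 := mi hh_meas (dom hh_meas hh_le).2 ‖x‖
    have j3 := mi gm (GG_dom m w0).2 ‖x‖
    have a1 : ∫ y : E3, GG (ph ‖y‖) (w ‖y‖) * kk ‖x‖ ‖y‖ =
        C - ∫ y : E3, GG (ph ‖y‖) (w ‖y‖) * (max ‖x‖ ‖y‖)⁻¹ := by
      rw [hC, ← integral_sub (GG_dom m w0).2 j3]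
      exact integral_congr_ae (ne0.mono fun y hy => by simp only [kk, if_pos hy]; ring)
    have a2 := f ‖x‖
    rw [TT, a1] at a2
    have a3 : rh b w ‖x‖ ^ (2 / 3 : ℝ) = b ^ 2 * max (ph ‖x‖ - w ‖x‖) 0 := by
      rw [rh, ← mul_pow, ← Real.rpow_natCast, ← Real.rpow_mul (by positivity), ← sq_sqrt',
        ← mul_pow, ← Real.rpow_natCast]
      norm_num
    have a4 : V x - (∫ y, rh b w ‖y‖ * ‖x - y‖⁻¹) - (v + b ^ 3 * (C + π / 3 * e)) =
        γ * b ^ 2 * (ph ‖x‖ - w ‖x‖) + (V1 x - v) := by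
      rw [h1, (N x).2]
      simp only [rh_eq, sub_mul, mul_add, add_mul, mul_assoc]
      rw [integral_add (j1.const_mul _) (j2.const_mul _), integral_sub (j1.const_mul _)
        (j3.const_mul _), integral_const_mul, integral_const_mul, integral_const_mul,
        hh_pot (norm_nonneg x), a2, hb]
      field_simp; ring
    rw [a3, a4, ← mul_assoc]
    rcases h3 x with h | h
    · rw [h, sub_self, add_zero, mul_max_of_nonneg _ _ (by positivity), mul_zero]
    · rw [max_eq_right (by linarith), mul_zero, max_eq_right]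
      nlinarith [h2 x, mul_nonneg (by positivity : 0 ≤ γ * b ^ 2) (sub_nonneg.2 h)]
  exact ⟨A, minim hγ hV hM A (fun x => (N x).1)
    (fun x => (N x).2.trans_le (mx_le rmm (fun _ => r0 _) i2 _)) E, fun x => (N x).1, _,
    by positivity, E⟩

theorem pos_int {f : E3 → ℝ} (f0 : ∀ y, 0 ≤ f y) (i : Integrable f) {c : E3} {r : ℝ} (hr : 0 < r)
    (h : ∀ y ∈ ball c r, 0 < f y) : 0 < ∫ y, f y :=
  (integral_pos_iff_support_of_nonneg f0 i).2
    ((measure_ball_pos volume c hr).trans_le (measure_mono fun y hy => (h y hy).ne'))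

theorem main {γ : ℝ} (hγ : 0 < γ) : ∃ (m1 m2 : Measure E3) (R1 R2 : E3) (a : ℝ),
    Nuc m1 ∧ Nuc m2 ∧ R1 0 = a ∧ (∀ e : E3 ≃ₗᵢ[ℝ] E3, m1.map e = m1) ∧
    (∃ K : Set E3, IsClosed K ∧ (∀ y ∈ K, a < y 0) ∧ m2 {y | y + R2 ∉ K} = 0) ∧
    ∃ (l1 l2 : ℝ) (ρ1 ρ2 : E3 → ℝ) (x : E3), 0 < l1 ∧ l1 < l2 ∧ l2 ≤ m1.real univ + m2.real univ ∧
      IsTF γ (fun x => pot m1 (x - R1) + pot m2 (x - R2)) l1 ρ1 ∧
      IsTF γ (fun x => pot m1 (x - R1) + pot m2 (x - R2)) l2 ρ2 ∧ a < x 0 ∧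
      ρ2 x - ρ2 (mirror a x) < ρ1 x - ρ1 (mirror a x) := by
  obtain ⟨e1, e2, w1, w2, p1, p2, m1, m2, l2, l21, f1, f2, s, q⟩ := pair
  obtain ⟨b, hb⟩ : ∃ b, b = 3 * γ / π := ⟨_, rfl⟩
  have b0 : 0 < b := by rw [hb]; positivity
  have n2 := fun r => p2.le.trans (l2 r)
  have n1 := fun r => (n2 r).trans (l21 r)
  set L := 3 + e2⁻¹ with hL
  have L0 : 0 < e2⁻¹ := inv_pos.2 p2
  set R : E3 := EuclideanSpace.single 0 (-(21 / 20))
  have nR : ‖R‖ = 21 / 20 := by simp [R]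
  let d1 : ℝ → ℝ := (Ioo L (2 * L)).indicator 1
  have dm : Measurable d1 := measurable_one.indicator measurableSet_Ioo
  have d0 : ∀ s, 0 ≤ d1 s := fun s => indicator_nonneg (fun _ _ => zero_le_one) s
  have di : ∀ k : E3 → ℝ, Measurable k → IntegrableOn k (ball 0 (2 * L)) →
      Integrable fun y : E3 => d1 ‖y‖ * k y := fun k hk h =>
    ((integrable_indicator_iff measurableSet_ball).2 h).norm.mono' (Measurable.aestronglyMeasurable
      (by fun_prop)) (ae_of_all _ fun y => by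
        by_cases hy : ‖y‖ ∈ Ioo L (2 * L)
        · simp [d1, hy, hy.2]
        · simp [d1, hy])
  have i1 := di (fun _ => 1) measurable_const (integrableOn_const measure_ball_lt_top.ne)
  have i2 := di _ (by fun_prop) (ker_int0 _)
  simp only [mul_one] at i1
  obtain ⟨A1, -, A3, A4⟩ := radm dm (fun _ => d0 _) i1 i2 (pos_int (fun _ => d0 _) i1
    (c := EuclideanSpace.single 0 (L + 1)) one_pos fun y hy => by
      have := abs_lt.1 ((abs_norm_sub_norm_le _ _).trans_lt (mem_ball_iff_norm.1 hy))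
      rw [EuclideanSpace.norm_single, Real.norm_of_nonneg (by linarith)] at this
      have : ‖y‖ ∈ Ioo L (2 * L) := ⟨by linarith, by linarith⟩
      simp [d1, this])
  have e0 : ∀ y : E3, 0 ≤ b ^ 3 * (√(ph ‖y‖) ^ 3 + hh ‖y‖) := fun y =>
    mul_nonneg (by positivity) (by linarith [(abs_le.1 (hh_le _ (norm_nonneg y))).1])
  have k1 : Integrable fun y : E3 => b ^ 3 * (√(ph ‖y‖) ^ 3 + hh ‖y‖) :=
    (p_dom.1.add (dom hh_meas hh_le).1).const_mul _
  obtain ⟨B1, B2, B3, B4⟩ := radm (d := fun s => b ^ 3 * (√(ph s) ^ 3 + hh s)) (by fun_prop) e0 k1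
    (by simp only [mul_assoc, add_mul]; exact (p_dom.2.add (dom hh_meas hh_le).2).const_mul _)
    (pos_int e0 k1 (c := 0) one_pos fun y hy => by
      rw [hh, if_pos (mem_ball_zero_iff.1 hy)]; positivity)
  obtain ⟨M1, hM1⟩ := A1.2.2.2
  obtain ⟨M2, hM2⟩ := B1.2.2.2
  have T : ∀ (e : ℝ) (w : ℝ → ℝ), 0 ≤ e → Monotone w → (∀ r, e2 ≤ w r) → (∀ r, w r = TT e w r) →
      IsTF γ (fun x => pot (rm d1) (x - R) + pot (rm fun s => b ^ 3 * (√(ph s) ^ 3 + hh s)) (x - 0))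
        (∫ y : E3, rh b w ‖y‖) fun y => rh b w ‖y‖ := fun e w he m l f => by
    refine tf (v := ∫ y : E3, d1 ‖y‖ * ‖y‖⁻¹) (M := M1 + M2) (V1 := fun x => pot (rm d1) (x - R))
      hγ hb he (integral_nonneg fun y => mul_nonneg (d0 _) (by positivity)) m
      (fun r => p2.le.trans (l r)) f (by fun_prop) (fun x => ?_) (fun x => by rw [sub_zero, B3])
      (fun x => (A3 _).trans_le (mx_le dm (fun _ => d0 _) i2 _)) fun x => ?_
    · rw [abs_of_nonneg (add_nonneg (integral_nonneg fun _ => by positivity)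
        (integral_nonneg fun _ => by positivity))]
      exact add_le_add (hM1 _) (hM2 _)
    rcases le_or_gt ‖x - R‖ L with h | h
    · refine Or.inl ((A3 _).trans (integral_congr_ae (ae_of_all _ fun y => ?_)))
      by_cases hy : ‖y‖ ∈ Ioo L (2 * L)
      · simp only; rw [max_eq_right (h.trans hy.1.le)]
      · simp [d1, hy]
    · have := norm_sub_le x R
      have x1 : 1 ≤ ‖x‖ := by linarith
      refine Or.inr (le_trans ?_ (l _))
      rw [ph, if_neg x1.not_gt, inv_le_comm₀ (by positivity) p2]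
      exact le_trans (by linarith) (le_self_pow₀ x1 (by norm_num))
  have u1 := (rh_int b m1 n1).1
  have u2 := (rh_int b m2 n2).1
  refine ⟨_, _, R, 0, -(21 / 20), A1, B1, by simp [R], rm_map dm, ⟨closedBall 0 1, isClosed_closedBall,
    fun y hy => ?_, ?_⟩, _, _, _, _, 0, ?_, ?_, ?_, T e1 w1 p1.le m1 (fun r => (l2 r).trans (l21 r)) f1,
    T e2 w2 p2.le m2 l2 f2, by norm_num, ?_⟩
  · have := (abs_le.1 ((PiLp.norm_apply_le y 0).trans (mem_closedBall_zero_iff.1 hy))).1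
    linarith
  · simp only [add_zero]
    refine (withDensity_apply _ measurableSet_closedBall.compl).trans ?_
    refine setLIntegral_eq_zero measurableSet_closedBall.compl fun y hy => ?_
    simp only; rw [hh_tail (le_of_lt (by simpa using hy))]; simp
  · exact pos_int (fun _ => by unfold rh; positivity) u1 (c := 0) one_pos fun y hy => by
      have := sqrt_pos.2 (sub_pos.2 (s _ (norm_nonneg y) (mem_ball_zero_iff.1 hy)).2)
      unfold rh; positivity
  · rw [← sub_pos, ← integral_sub u2 u1]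
    refine pos_int (fun y => sub_nonneg.2 ?_) (u2.sub u1) (c := 0) one_pos fun y hy => sub_pos.2 ?_
    · unfold rh; gcongr; exact l21 _
    · have := s _ (norm_nonneg y) (mem_ball_zero_iff.1 hy)
      unfold rh; gcongr
      · linarith [this.2]
      · exact this.1
  · rw [B2, integral_const_mul, integral_add p_dom.1 (dom hh_meas hh_le).1, hh_int, add_zero,
      ← integral_const_mul]
    refine le_add_of_nonneg_of_le measureReal_nonneg (integral_mono u2 (p_dom.1.const_mul _)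
      fun y => ?_)
    simp only [rh_eq]
    exact sub_le_self _ (mul_nonneg (by positivity) (GG_nonneg _ (n2 _)))
  · have : ‖mirror (-(21 / 20)) 0‖ = 21 / 10 := by simp [mirror, norm_smul]; norm_num
    simp only [this, norm_zero, rh_eq]
    nlinarith [mul_lt_mul_of_pos_left q (pow_pos b0 3),
      mul_nonneg (pow_pos b0 3).le (GG_nonneg (ph 0) (n2 0))]

end Pool.Agent.H94.TF
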