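import Pool.Agent.H94.QV1

set_option autoImplicit false
namespace Pool.Agent.H94.TW
open Set MeasureTheory Filter Topology Real

def Tr (m : ℝ) (U W g : ℝ → ℝ) : Prop :=
  U 0 = 0 ∧ (∀ r, HasDerivAt U (exp (2 * m * r) * W r) r) ∧ Continuous W ∧
    (∀ r, 0 < r → HasDerivAt W (-g r) r) ∧ Tendsto W atTop (𝓝 0)

theorem Tr.cmp {m : ℝ} {U W g V X k : ℝ → ℝ} (h : Tr m U W g) (h' : Tr m V X k)
    (e : ∀ r, 0 < r → g r ≤ k r) : MonotoneOn (fun r => V r - U r) (Ici 0) := by
  refine monotoneOn_of_hasDerivWithinAt_nonneg (convex_Ici 0) (fun x _ =>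
    ((h'.2.1 x).fun_sub (h.2.1 x)).continuousAt.continuousWithinAt) (fun x _ =>
      ((h'.2.1 x).fun_sub (h.2.1 x)).hasDerivWithinAt) fun x hx => ?_
  rw [interior_Ici] at hx
  have := le_of_tendsto_of_tendsto (h'.2.2.2.2.sub_const (X x)) (h.2.2.2.2.sub_const (W x))
    ((eventually_ge_atTop x).mono fun s hs => QV.cmp' hx h.2.2.2.1 h'.2.2.2.1
      (fun r hr => neg_le_neg (e r (hx.trans hr))) hs)
  rw [← mul_sub]
  exact mul_nonneg (exp_pos _).le (by linarith)

theorem sol (m : ℝ) {g : ℝ → ℝ} (c : ContinuousOn g (Ioi 0)) (i : IntegrableOn g (Ioi 0)) :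
    ∃ U W, Tr m U W g := by
  have j := (integrable_indicator_iff measurableSet_Ioi).2 i
  have cw : Continuous fun r => (∫ s in Ioi 0, (Ioi 0).indicator g s) -
      ∫ s in (0)..r, (Ioi 0).indicator g s :=
    continuous_const.sub (intervalIntegral.continuous_primitive (fun _ _ => j.intervalIntegrable) 0)
  have d := fun r => (((by fun_prop : Continuous fun s => exp (2 * m * s)).fun_mul
    cw).integral_hasStrictDerivAt 0 r).hasDerivAt
  refine ⟨_, _, by simp, d, cw, fun r hr => ?_, ?_⟩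
  · have e : (Ioi 0).indicator g =ᶠ[𝓝 r] g := (lt_mem_nhds hr).mono fun s hs => indicator_of_mem hs _
    have := (intervalIntegral.integral_hasDerivAt_right (a := 0) j.intervalIntegrable
      j.1.stronglyMeasurableAtFilter ((c.continuousAt (Ioi_mem_nhds hr)).congr e.symm)).const_sub
        (∫ s in Ioi 0, (Ioi 0).indicator g s)
    rwa [e.eq_of_nhds] at this
  · simpa using (intervalIntegral_tendsto_integral_Ioi 0 j.integrableOn tendsto_id).const_sub
      (∫ s in Ioi 0, (Ioi 0).indicator g s)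

theorem mk {m C : ℝ} (m0 : 0 < m) {u a b : ℝ → ℝ} (u0 : u 0 = 0) (h1 : ∀ r, HasDerivAt u (a r) r)
    (h2 : ∀ r, HasDerivAt a (b r) r) (h3 : ∀ r, 0 ≤ r → |a r + m * u r| ≤ C * (1 + r)) :
    Tr m (fun r => exp (m * r) * u r) (fun r => exp (-m * r) * (a r + m * u r))
      fun r => exp (-m * r) * (m ^ 2 * u r - b r) := by
  have d := fun r => ((hasDerivAt_id' r).const_mul (-m)).exp.fun_mul ((h2 r).fun_add ((h1 r).const_mul m))
  refine ⟨by simp [u0], fun r => (((hasDerivAt_id' r).const_mul m).exp.fun_mul (h1 r)).congr_deriv ?_,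
    continuous_iff_continuousAt.2 fun r => (d r).continuousAt, fun r _ => (d r).congr_deriv (by ring),
    squeeze_zero_norm' (a := fun r => C * (r ^ (0 : ℝ) * exp (-m * r) + r ^ (1 : ℝ) * exp (-m * r)))
      ((eventually_ge_atTop 0).mono fun r hr => ?_) ?_⟩
  · simp only
    rw [← mul_assoc (exp (2 * m * r)), ← exp_add, show 2 * m * r + -m * r = m * r by ring]; ring
  · rw [norm_mul, norm_of_nonneg (exp_pos _).le, rpow_zero, rpow_one, norm_eq_abs]
    nlinarith [h3 r hr, exp_pos (-m * r)]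
  · simpa using ((tendsto_rpow_mul_exp_neg_mul_atTop_nhds_zero 0 m m0).add
      (tendsto_rpow_mul_exp_neg_mul_atTop_nhds_zero 1 m m0)).const_mul C

theorem kt {m : ℝ} {U0 W0 g0 U1 W1 g1 : ℝ → ℝ} (h0 : Tr m U0 W0 g0) (h1 : Tr m U1 W1 g1)
    {G : ℝ → ℝ → ℝ} (cG : ∀ U : ℝ → ℝ, ContinuousOn U (Ioi 0) → ContinuousOn (fun r => G r (U r)) (Ioi 0))
    (mG : ∀ r, 0 < r → ∀ s t, U0 r ≤ s → s ≤ t → t ≤ U1 r → G r s ≤ G r t)
    (a0 : ∀ r, 0 < r → U0 r ≤ U1 r ∧ 0 ≤ G r (U0 r) ∧ g0 r ≤ G r (U0 r) ∧ G r (U1 r) ≤ g1 r) :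
    ∃ U W, Tr m U W (fun r => G r (U r)) ∧ ∀ r, 0 < r → U0 r ≤ U r ∧ U r ≤ U1 r := by
  let L : (ℝ → ℝ) → Prop := fun U => U 0 = 0 ∧ MonotoneOn (fun r => U r - U0 r) (Ici 0) ∧
    MonotoneOn (fun r => U1 r - U r) (Ici 0)
  have bd : ∀ U, L U → ∀ r, 0 ≤ r → U0 r ≤ U r ∧ U r ≤ U1 r := fun U h r hr => by
    have a := h.2.1 self_mem_Ici hr hr
    have b := h.2.2 self_mem_Ici hr hr
    simp only [h.1, h0.1, h1.1] at a b
    exact ⟨by linarith, by linarith⟩
  have lo : ∀ U, L U → ∀ r, 0 < r → G r (U0 r) ≤ G r (U r) ∧ G r (U r) ≤ g1 r := fun U h r hr =>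
    ⟨mG r hr _ _ le_rfl (bd U h r hr.le).1 (bd U h r hr.le).2,
      (mG r hr _ _ (bd U h r hr.le).1 (bd U h r hr.le).2 le_rfl).trans (a0 r hr).2.2.2⟩
  have c0 := continuous_iff_continuousAt.2 fun r => (h0.2.1 r).continuousAt
  have c1 := continuous_iff_continuousAt.2 fun r => (h1.2.1 r).continuousAt
  have L0 : L U0 := ⟨h0.1, fun _ _ _ _ _ => by simp, h0.cmp h1 fun r hr => (a0 r hr).2.2.1.trans
    ((mG r hr _ _ le_rfl (a0 r hr).1 le_rfl).trans (a0 r hr).2.2.2)⟩
  have i1 : IntegrableOn g1 (Ioi 0) := integrableOn_Ioi_deriv_of_nonneg (g := fun r => -W1 r)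
    h1.2.2.1.neg.continuousWithinAt (fun x hx => by simpa using (h1.2.2.2.1 x hx).fun_neg)
    (fun x hx => (a0 x hx).2.1.trans (lo U0 L0 x hx).2) h1.2.2.2.2.neg
  have ex : ∀ U, L U → ∃ V W, Tr m V W fun r => G r (U r) := fun U h => by
    have : ContinuousOn (fun r => U r - U0 r) (Ioi 0) := fun x hx => by
      refine Metric.tendsto_nhds.2 fun e e0 => ?_
      filter_upwards [(Metric.tendsto_nhds.1 ((c1.sub c0).tendsto x) e e0).filter_mono
        nhdsWithin_le_nhds, self_mem_nhdsWithin] with y h2 hy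
      have hx : x ∈ Ici 0 := mem_Ici.2 (le_of_lt hx)
      have hy : y ∈ Ici 0 := mem_Ici.2 (le_of_lt hy)
      refine lt_of_le_of_lt ?_ h2
      simp only [Real.dist_eq, Pi.sub_apply]
      rcases le_total x y with k | k
      · have a := h.2.1 hx hy k
        have b := h.2.2 hx hy k
        simp only at a b
        exact abs_le_abs (by linarith) (by linarith)
      · have a := h.2.1 hy hx k
        have b := h.2.2 hy hx k
        simp only at a b
        rw [abs_sub_comm, abs_sub_comm (_ - _) (U1 x - _)]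
        exact abs_le_abs (by linarith) (by linarith)
    have c := cG U ((this.add c0.continuousOn).congr fun x _ => by simp)
    refine sol m c (i1.mono' (c.aestronglyMeasurable measurableSet_Ioi)
      ((ae_restrict_mem measurableSet_Ioi).mono fun x hx => ?_))
    rw [norm_of_nonneg ((a0 x hx).2.1.trans (lo U h x hx).1)]
    exact (lo U h x hx).2
  choose! T W hT using ex
  have TL : ∀ U, L U → L (T U) := fun U h => ⟨(hT U h).1, h0.cmp (hT U h) fun r hr =>
    (a0 r hr).2.2.1.trans (lo U h r hr).1, (hT U h).cmp h1 fun r hr => (lo U h r hr).2⟩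
  have Tm : ∀ U V, L U → L V → (∀ r, 0 ≤ r → U r ≤ V r) → ∀ r, 0 ≤ r → T U r ≤ T V r :=
    fun U V h k e r hr => by
      have := (hT U h).cmp (hT V k) (fun x hx => mG x hx _ _ (bd U h x hx.le).1 (e x hx.le)
        (bd V k x hx.le).2) self_mem_Ici hr hr
      simp only [(hT U h).1, (hT V k).1] at this
      linarith
  let S := {U // L U ∧ ∀ r, 0 ≤ r → U r ≤ T U r}
  have : Nonempty S := ⟨⟨U0, L0, fun r hr => (bd _ (TL _ L0) r hr).1⟩⟩
  let Z : ℝ → ℝ := fun r => ⨆ U : S, U.1 r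
  have le : ∀ (U : S) r, 0 ≤ r → U.1 r ≤ Z r := fun U r hr =>
    le_ciSup (f := fun U : S => U.1 r) ⟨U1 r, by rintro _ ⟨V, rfl⟩; exact (bd _ V.2.1 r hr).2⟩ U
  have LZ : L Z := ⟨by simp only [Z, fun U : S => U.2.1.1, ciSup_const], fun x hx y hy k =>
    sub_le_iff_le_add.2 (ciSup_le fun U => by
      have := U.2.1.2.1 hx hy k
      simp only at this
      linarith [le U y hy]), fun x hx y hy k => by
        have : Z y ≤ U1 y - (U1 x - Z x) := ciSup_le fun U => by
          have := U.2.1.2.2 hx hy k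
          simp only at this
          linarith [le U x hx]
        simp only
        linarith⟩
  have z1 : ∀ r, 0 ≤ r → Z r ≤ T Z r := fun r hr => ciSup_le fun U =>
    (U.2.2 r hr).trans (Tm _ _ U.2.1 LZ (le U) r hr)
  have z2 : ∀ r, 0 < r → T Z r = Z r := fun r hr => le_antisymm
    (le ⟨T Z, TL _ LZ, Tm _ _ LZ (TL _ LZ) z1⟩ r hr.le) (z1 r hr.le)
  obtain ⟨b1, b2, b3, b4, b5⟩ := hT Z LZ
  exact ⟨T Z, W Z, ⟨b1, b2, b3, fun r hr => by simpa only [z2 r hr] using b4 r hr, b5⟩,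
    fun r hr => bd _ (TL _ LZ) r hr.le⟩

theorem ode {q : ℝ} (q0 : 0 < q) : ∃ (u a : ℝ → ℝ) (e M : ℝ), 0 < e ∧ u 0 = 0 ∧
    (∀ r, HasDerivAt u (a r) r) ∧ Continuous a ∧
      (∀ r, 0 < r → HasDerivAt a (r * (u r / r) ^ (q + 1) - u r / r) r) ∧
        ∀ r, 0 < r → e * exp (-(1 / 2) * r) ≤ u r / r ∧ u r / r ≤ M := by
  obtain ⟨e, e0, e1, e2⟩ : ∃ e : ℝ, 0 < e ∧ e ≤ 1 ∧ e ^ q = 1 / 4 := ⟨(1 / 4) ^ q⁻¹, by positivity,
    rpow_le_one (by norm_num) (by norm_num) (by positivity), rpow_inv_rpow (by norm_num) q0.ne'⟩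
  obtain ⟨K, K1, K2⟩ : ∃ K : ℝ, 1 ≤ K ∧ K ^ q = 2 := ⟨2 ^ q⁻¹, one_le_rpow one_le_two
    (by positivity), rpow_inv_rpow (by norm_num) q0.ne'⟩
  obtain ⟨m, m0, m1⟩ : ∃ m : ℝ, 0 < m ∧ m ^ 2 = (q + 1) * (2 * K) ^ q :=
    ⟨√_, by positivity, sq_sqrt (by positivity)⟩
  have N : MonotoneOn (fun t : ℝ => m ^ 2 * t - t ^ (q + 1)) (Icc 0 (2 * K)) := by
    have d := fun t : ℝ => ((hasDerivAt_id' t).const_mul (m ^ 2)).fun_sub
      (hasDerivAt_rpow_const (x := t) (p := q + 1) (Or.inr (by linarith)))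
    refine monotoneOn_of_hasDerivWithinAt_nonneg (convex_Icc _ _) (fun t _ =>
      (d t).continuousAt.continuousWithinAt) (fun t _ => (d t).hasDerivWithinAt) fun t ht => ?_
    rw [interior_Icc] at ht
    rw [mul_one, m1, add_sub_cancel_right, ← mul_sub]
    exact mul_nonneg (by linarith) (sub_nonneg.2 (rpow_le_rpow ht.1.le ht.2.le q0.le))
  have x1 : ∀ c r : ℝ, 0 ≤ c → 0 ≤ r → exp (-c * r) ≤ 1 := fun c r a b =>
    exp_le_one_iff.2 (by nlinarith)
  have h0 := mk m0 (C := 1 + m) (u := fun r => e * (r * exp (-(1 / 2) * r)))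
    (a := fun r => e * ((1 - r / 2) * exp (-(1 / 2) * r)))
    (b := fun r => e * ((r / 4 - 1) * exp (-(1 / 2) * r))) (by simp)
    (fun r => (((hasDerivAt_id' r).fun_mul ((hasDerivAt_id' r).const_mul _).exp).const_mul e).congr_deriv
      (by ring)) (fun r => (((((hasDerivAt_id' r).div_const 2).const_sub 1).fun_mul
        ((hasDerivAt_id' r).const_mul _).exp).const_mul e).congr_deriv (by ring)) fun r hr => by
    have a := mul_le_one₀ e1 (exp_pos _).le (x1 (1 / 2) r (by norm_num) hr)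
    have b := mul_pos e0 (exp_pos (-(1 / 2) * r))
    rw [show e * ((1 - r / 2) * exp (-(1 / 2) * r)) + m * (e * (r * exp (-(1 / 2) * r))) =
      e * exp (-(1 / 2) * r) * (1 - r / 2 + m * r) by ring, abs_mul, abs_of_pos b]
    refine (mul_le_of_le_one_left (abs_nonneg _) a).trans (abs_le.2 ⟨?_, ?_⟩) <;> nlinarith
  have h1 := mk m0 (C := K * (2 + 2 * m)) (u := fun r => K * (r * (1 + exp (-1 * r))))
    (a := fun r => K * (1 + (1 - r) * exp (-1 * r))) (b := fun r => K * ((r - 2) * exp (-1 * r)))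
    (by simp) (fun r => (((hasDerivAt_id' r).fun_mul (((hasDerivAt_id' r).const_mul _).exp.const_add
      1)).const_mul K).congr_deriv (by ring)) (fun r => (((((hasDerivAt_id' r).const_sub 1).fun_mul
        ((hasDerivAt_id' r).const_mul _).exp).const_add 1).const_mul K).congr_deriv (by ring))
    fun r hr => by
      have a := x1 1 r zero_le_one hr
      have b := exp_pos (-1 * r)
      rw [← mul_left_comm, ← mul_add, abs_mul, abs_of_pos (by linarith : 0 < K), mul_assoc]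
      refine mul_le_mul_of_nonneg_left (abs_le.2 ⟨?_, ?_⟩) (by linarith) <;>
        nlinarith [mul_nonneg hr b.le, mul_nonneg hr m0.le, mul_nonneg (mul_nonneg hr m0.le) b.le,
          mul_le_mul_of_nonneg_left a hr, mul_le_mul_of_nonneg_left a (mul_nonneg hr m0.le)]
  have cn : ∀ r c d : ℝ, 0 < r → exp (-m * r) * (exp (m * r) * (c * (r * d))) / r = c * d :=
    fun r c d hr => by rw [← mul_assoc, ← exp_add]; simp; field_simp
  have r0 : ∀ r, 0 < r → exp (-m * r) * (exp (m * r) * (e * (r * exp (-(1 / 2) * r)))) / r =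
      e * exp (-(1 / 2) * r) := fun r hr => cn r _ _ hr
  have r1 : ∀ r, 0 < r → exp (-m * r) * (exp (m * r) * (K * (r * (1 + exp (-1 * r))))) / r =
      K * (1 + exp (-1 * r)) := fun r hr => cn r _ _ hr
  have mo : ∀ r s t : ℝ, 0 < r → s ≤ t → exp (-m * r) * s / r ≤ exp (-m * r) * t / r :=
    fun r s t hr h => by gcongr
  have up : ∀ r, 0 < r → K * (1 + exp (-1 * r)) ≤ 2 * K := fun r hr => by
    nlinarith [x1 1 r zero_le_one hr.le]
  obtain ⟨U, W, ⟨b1, b2, b3, b4, -⟩, b5⟩ := kt h0 h1 (G := fun r s => exp (-m * r) *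
    (r * (m ^ 2 * (exp (-m * r) * s / r) - (exp (-m * r) * s / r) ^ (q + 1)) + exp (-m * r) * s / r))
    (fun U hU => by
      have : ContinuousOn (fun r => exp (-m * r) * U r / r) (Ioi 0) :=
        ((Continuous.continuousOn (by fun_prop)).mul hU).div continuousOn_id fun x hx => ne_of_gt hx
      exact (Continuous.continuousOn (by fun_prop)).mul ((continuousOn_id.mul ((continuousOn_const.mul
        this).sub (this.rpow_const fun _ _ => Or.inr (by linarith)))).add this))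
    (fun r hr s t k1 k2 k3 => by
      have a := mo r _ _ hr k1
      have b := mo r _ _ hr k2
      have c := mo r _ _ hr k3
      rw [r0 r hr] at a
      rw [r1 r hr] at c
      have a' := (mul_pos e0 (exp_pos _)).le.trans a
      have c' := c.trans (up r hr)
      exact mul_le_mul_of_nonneg_left (add_le_add (mul_le_mul_of_nonneg_left
        (N ⟨a', b.trans c'⟩ ⟨a'.trans b, c'⟩ b) hr.le) b) (exp_pos _).le)
    (fun r hr => by
      simp only [r0 r hr, r1 r hr]
      have a := x1 (1 / 2) r (by norm_num) hr.le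
      have b := mul_pos e0 (exp_pos (-(1 / 2) * r))
      have c := exp_pos (-1 * r)
      have d : e * exp (-(1 / 2) * r) ≤ e := mul_le_of_le_one_right e0.le a
      have f := N ⟨le_rfl, by linarith⟩ ⟨b.le, by linarith⟩ b.le
      simp only [mul_zero, zero_rpow (show q + 1 ≠ 0 by linarith), sub_zero] at f
      have k1 := (rpow_le_rpow b.le d q0.le).trans_eq e2
      have k2 := K2.ge.trans (rpow_le_rpow (by linarith) (show K ≤ K * (1 + exp (-1 * r)) by
        nlinarith) q0.le)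
      refine ⟨mul_le_mul_of_nonneg_left (by nlinarith [mul_pos hr c]) (exp_pos _).le, by positivity,
        mul_le_mul_of_nonneg_left ?_ (exp_pos _).le, mul_le_mul_of_nonneg_left ?_ (exp_pos _).le⟩
      · rw [rpow_add_one b.ne']
        nlinarith [mul_le_mul_of_nonneg_left k1 (mul_pos hr b).le]
      · have K0 : 0 < K := by linarith
        rw [rpow_add_one (by positivity)]
        have := add_one_le_exp (-1 * r)
        nlinarith [mul_le_mul_of_nonneg_left k2 (show 0 ≤ r * (K * (1 + exp (-1 * r))) by positivity),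
          mul_pos (mul_pos K0 hr) c, mul_le_mul_of_nonneg_left this K0.le])
  have c := continuous_iff_continuousAt.2 fun r => (b2 r).continuousAt
  have ee : ∀ r, exp (2 * m * r) = exp (m * r) * exp (m * r) := fun r => by rw [← exp_add]; ring_nf
  have e' : ∀ r, exp (-m * r) = (exp (m * r))⁻¹ := fun r => by rw [← exp_neg, neg_mul]
  have d := fun r => (((hasDerivAt_id' r).const_mul (-m)).exp.fun_mul (b2 r)).congr_deriv
    (show _ = exp (m * r) * W r - m * (exp (-m * r) * U r) by rw [ee, e']; field_simp; ring)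
  refine ⟨_, _, e, 2 * K, e0, by simp [b1], d, by fun_prop, fun r hr =>
    ((((hasDerivAt_id' r).const_mul m).exp.fun_mul (b4 r hr)).fun_sub ((d r).const_mul m)).congr_deriv ?_,
    fun r hr => ⟨(r0 r hr).ge.trans (mo r _ _ hr (b5 r hr).1),
      ((mo r _ _ hr (b5 r hr).2).trans_eq (r1 r hr)).trans (up r hr)⟩⟩
  simp only
  generalize (exp (-m * r) * U r / r) ^ (q + 1) = y
  rw [e']
  field_simp
  ring

end Pool.Agent.H94.TW
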