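import Pool.Agent.H94.TW1

set_option autoImplicit false
namespace Pool.Agent.H94.TW
open Set MeasureTheory Filter Topology Real

abbrev E := EuclideanSpace ℝ (Fin 3)

/-- Test functions. -/
def Test (η : EuclideanSpace ℝ (Fin 3) → ℝ) : Prop := ContDiff ℝ (⊤ : ℕ∞) η ∧ HasCompactSupport η

/-- `G` is the distributional gradient of `ψ`, `ψ ∈ L^1_loc`, `G ∈ L^2_loc`. -/
def InM (ψ : EuclideanSpace ℝ (Fin 3) → ℝ)
    (G : EuclideanSpace ℝ (Fin 3) → EuclideanSpace ℝ (Fin 3)) : Prop :=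
  LocallyIntegrable ψ ∧ (∀ K, IsCompact K → MemLp G 2 (volume.restrict K)) ∧
    ∀ η, Test η → ∀ v, ∫ x, ψ x * fderiv ℝ η x v = -∫ x, inner ℝ (G x) v * η x

/-- Distributional solution of `(E_p)` in the class `M`. -/
def IsSol (p : ℝ) (ψ : EuclideanSpace ℝ (Fin 3) → ℝ) : Prop :=
  ∃ G, InM ψ G ∧ LocallyIntegrable (fun x => |ψ x| ^ (2 * p - 1)) ∧ ∀ η, Test η →
    Integrable (fun x => inner ℝ (gradient η x) (G x)) ∧
    Integrable (fun x => η x * ((|ψ x| ^ (2 * p - 2) - ‖x‖⁻¹) * ψ x)) ∧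
    (∫ x, inner ℝ (gradient η x) (G x)) +
      (∫ x, η x * ((|ψ x| ^ (2 * p - 2) - ‖x‖⁻¹) * ψ x)) = 0

theorem ne0 : ∀ᵐ x : E, 0 < ‖x‖ :=
  (Measure.ae_ne volume 0).mono fun _ h => norm_pos_iff.2 h

theorem lim {Φ : ℝ × E → ℝ} (c : ContinuousOn Φ (Ioi 0 ×ˢ univ)) {C : ℝ}
    (b : ∀ r x, 0 < r → ‖x‖ ≤ r → |Φ (r, x)| ≤ C * ((1 + r⁻¹) * (1 + ‖x‖))) {θ : E → ℝ}
    (cθ : Continuous θ) (sθ : HasCompactSupport θ) : Integrable (fun x => Φ (‖x‖, x) * θ x) ∧
      (∀ e : ℝ, 0 < e → Integrable fun x => Φ (√(‖x‖ ^ 2 + e), x) * θ x) ∧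
      Tendsto (fun e : ℝ => ∫ x, Φ (√(‖x‖ ^ 2 + e), x) * θ x) (𝓝[>] 0)
        (𝓝 (∫ x, Φ (‖x‖, x) * θ x)) := by
  have C0 : 0 ≤ C := by simpa using (abs_nonneg _).trans (b 1 0 one_pos (by simp))
  have l : LocallyIntegrable fun x : E => ‖x‖⁻¹ := locallyIntegrable_of_norm_le_rpow (C := 1) (α := 1)
    (by simp) (by simp) (ae_of_all _ fun x => by simp [rpow_neg_one]) (by fun_prop)
  have i : Integrable fun x : E => (C * ((1 + ‖x‖) * ‖θ x‖)) • (1 + ‖x‖⁻¹) :=
    ((locallyIntegrable_const 1).add l).integrable_smul_left_of_hasCompactSupport (by fun_prop)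
      sθ.norm.mul_left.mul_left
  have m : ∀ e : ℝ, 0 < e → Continuous fun x : E => Φ (√(‖x‖ ^ 2 + e), x) * θ x := fun e he =>
    (c.comp_continuous (by fun_prop) fun x => ⟨mem_Ioi.2 (by positivity), trivial⟩).mul cθ
  have k : ∀ (r : ℝ) (x : E), 0 < ‖x‖ → ‖x‖ ≤ r →
      ‖Φ (r, x) * θ x‖ ≤ (C * ((1 + ‖x‖) * ‖θ x‖)) • (1 + ‖x‖⁻¹) := fun r x h1 h2 => by
    rw [norm_mul, smul_eq_mul]
    refine (mul_le_mul_of_nonneg_right ((b r x (h1.trans_le h2) h2).trans (mul_le_mul_of_nonneg_left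
      (mul_le_mul_of_nonneg_right (add_le_add le_rfl (inv_anti₀ h1 h2)) (by positivity)) C0))
        (norm_nonneg _)).trans_eq (by ring)
  have t : ∀ᵐ x : E, Tendsto (fun e : ℝ => Φ (√(‖x‖ ^ 2 + e), x) * θ x) (𝓝[>] 0)
      (𝓝 (Φ (‖x‖, x) * θ x)) := ne0.mono fun x hx => by
    refine ((c.continuousAt (prod_mem_nhds (Ioi_mem_nhds hx) univ_mem)).tendsto.comp ?_).mul_const _
    simpa using ((by fun_prop : Continuous fun e : ℝ => (√(‖x‖ ^ 2 + e), x)).tendsto 0).mono_left
      (nhdsWithin_le_nhds (s := Ioi 0))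
  refine ⟨i.mono' ?_ (ne0.mono fun x hx => k _ x hx le_rfl), fun e he =>
    (m e he).integrable_of_hasCompactSupport sθ.mul_left,
    tendsto_integral_filter_of_dominated_convergence _ (eventually_mem_nhdsWithin.mono fun e he =>
      (m e he).aestronglyMeasurable) (eventually_mem_nhdsWithin.mono fun e (he : 0 < e) => ne0.mono
        fun x hx => k _ x hx (le_sqrt_of_sq_le (by linarith))) i t⟩
  rw [← restrict_compl_singleton (μ := volume) (0 : E)]
  exact ((c.comp (by fun_prop) fun x hx => ⟨norm_pos_iff.2 hx, trivial⟩).mul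
    cθ.continuousOn).aestronglyMeasurable (measurableSet_singleton _).compl

theorem ibp {k k1 : ℝ → ℝ} (hk : ∀ r, 0 < r → HasDerivAt k (r * k1 r) r)
    (c1 : ContinuousOn k1 (Ioi 0)) (c : ℝ) (w v : E) {C D : ℝ}
    (b1 : ∀ r x, 0 < r → ‖x‖ ≤ r → |k r * (c + inner ℝ w x)| ≤ C * ((1 + r⁻¹) * (1 + ‖x‖)))
    (b2 : ∀ r x, 0 < r → ‖x‖ ≤ r → |k1 r * inner ℝ x v * (c + inner ℝ w x) + k r * inner ℝ w v| ≤
      D * ((1 + r⁻¹) * (1 + ‖x‖))) {η : E → ℝ} (h : Test η) :
    Integrable (fun x => k ‖x‖ * (c + inner ℝ w x) * fderiv ℝ η x v) ∧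
    Integrable (fun x => (k1 ‖x‖ * inner ℝ x v * (c + inner ℝ w x) + k ‖x‖ * inner ℝ w v) * η x) ∧
    ∫ x, k ‖x‖ * (c + inner ℝ w x) * fderiv ℝ η x v =
      -∫ x, (k1 ‖x‖ * inner ℝ x v * (c + inner ℝ w x) + k ‖x‖ * inner ℝ w v) * η x := by
  have c0 : ContinuousOn k (Ioi 0) := fun r hr => (hk r hr).continuousAt.continuousWithinAt
  have d0 : ContinuousOn (fun q : ℝ × E => k q.1) (Ioi 0 ×ˢ univ) :=
    c0.comp continuousOn_fst fun _ h => h.1
  have d1 : ContinuousOn (fun q : ℝ × E => k1 q.1) (Ioi 0 ×ˢ univ) :=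
    c1.comp continuousOn_fst fun _ h => h.1
  have cf := h.1.continuous_fderiv (by simp)
  obtain ⟨i1, j1, t1⟩ := lim (Φ := fun q => k q.1 * (c + inner ℝ w q.2))
    (d0.mul (Continuous.continuousOn (by fun_prop))) b1
    (θ := fun x => fderiv ℝ η x v) (by fun_prop) (h.2.fderiv_apply ℝ v)
  obtain ⟨i2, j2, t2⟩ := lim (Φ := fun q => k1 q.1 * inner ℝ q.2 v * (c + inner ℝ w q.2) +
    k q.1 * inner ℝ w v) (((d1.mul (Continuous.continuousOn (by fun_prop))).mul
      (Continuous.continuousOn (by fun_prop))).add (d0.mul continuousOn_const)) b2 h.1.continuous h.2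
  obtain ⟨-, j3, -⟩ := lim (Φ := fun q => k q.1 * (c + inner ℝ w q.2))
    (d0.mul (Continuous.continuousOn (by fun_prop))) b1
    h.1.continuous h.2
  refine ⟨i1, i2, tendsto_nhds_unique t1 (t2.neg.congr' (eventually_mem_nhdsWithin.mono
    fun e (he : 0 < e) => ?_))⟩
  have p : ∀ x : E, 0 < ‖x‖ ^ 2 + e := fun x => by positivity
  have d := fun x : E => ((hk _ (sqrt_pos.2 (p x))).comp_hasFDerivAt x
    (((hasFDerivAt_id x).norm_sq.add_const e).sqrt (p x).ne')).fun_mul
      ((innerSL ℝ w).hasFDerivAt.const_add c)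
  have f : ∀ x : E, fderiv ℝ (fun x : E => k √(‖x‖ ^ 2 + e) * (c + inner ℝ w x)) x v =
      k1 √(‖x‖ ^ 2 + e) * inner ℝ x v * (c + inner ℝ w x) + k √(‖x‖ ^ 2 + e) * inner ℝ w v :=
    fun x => by
      have := sqrt_pos.2 (p x)
      refine (congrArg (· v) (d x).fderiv).trans ?_
      simp
      field_simp
      ring
  have j4 := j2 e he
  simp only [← f] at j4 ⊢
  exact (integral_mul_fderiv_eq_neg_fderiv_mul_of_integrable j4 (j1 e he) (j3 e he)
    (fun x _ => (d x).differentiableAt) fun x _ => h.1.differentiable (by simp) x).symm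

theorem main {p : ℝ} (hp : 1 < p) : ∃ ψ : E → ℝ, Continuous ψ ∧ (∀ x, 0 < ψ x) ∧ IsSol p ψ := by
  obtain ⟨u, a, e, M, e0, u0, du, ca, da, bd⟩ := ode (q := 2 * p - 2) (by linarith)
  have cu : Continuous u := continuous_iff_continuousAt.2 fun r => (du r).continuousAt
  have cs : Continuous (dslope u 0) := continuousOn_univ.1 ((continuousOn_dslope univ_mem).2
    ⟨cu.continuousOn, (du 0).differentiableAt⟩)
  have es : ∀ r, 0 < r → dslope u 0 r = u r / r := fun r hr => by
    rw [dslope_of_ne _ hr.ne', slope_def_field, u0, sub_zero, sub_zero]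
  have po : ∀ r, 0 < r → 0 < u r / r := fun r hr => (mul_pos e0 (exp_pos _)).trans_le (bd r hr).1
  have ps : ∀ r, 0 ≤ r → 0 < dslope u 0 r := fun r hr => by
    rcases hr.eq_or_lt with rfl | h
    · refine e0.trans_le (le_of_tendsto_of_tendsto (b := 𝓝[>] 0) (f := fun r => e * exp (-(1 / 2) * r))
        ?_ ((cs.tendsto 0).mono_left nhdsWithin_le_nhds) (eventually_mem_nhdsWithin.mono fun r hr =>
          (bd r hr).1.trans_eq (es r hr).symm))
      simpa using ((by fun_prop : Continuous fun r : ℝ => e * exp (-(1 / 2) * r)).tendsto 0).mono_left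
        (nhdsWithin_le_nhds (s := Ioi 0))
    · exact es r h ▸ po r h
  have M0 : 0 < M := (po 1 one_pos).trans_le (bd 1 one_pos).2
  obtain ⟨A, hA⟩ : ∃ A, A = M ^ (2 * p - 2 + 1) + M := ⟨_, rfl⟩
  have A1 : M ≤ A := by rw [hA]; exact le_add_of_nonneg_left (by positivity)
  let b : ℝ → ℝ := fun r => r * (u r / r) ^ (2 * p - 2 + 1) - u r / r
  have bb : ∀ r, 0 < r → |b r| ≤ A * (r + 1) := fun r hr => by
    have h1 := rpow_le_rpow (po r hr).le (bd r hr).2 (show 0 ≤ 2 * p - 2 + 1 by linarith)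
    have h2 := rpow_nonneg (po r hr).le (2 * p - 2 + 1)
    have h3 := rpow_nonneg M0.le (2 * p - 2 + 1)
    exact abs_le.2 ⟨by nlinarith [(bd r hr).2, mul_nonneg hr.le h2], by
      nlinarith [po r hr, mul_le_mul_of_nonneg_left h1 hr.le]⟩
  let g : ℝ → ℝ := fun r => (a r * r - u r) / r ^ 3
  have dF : ∀ r, 0 < r → HasDerivAt (fun r => a r * r - u r) (b r * r) r := fun r hr =>
    (((da r hr).fun_mul (hasDerivAt_id' r)).fun_sub (du r)).congr_deriv (by ring)
  have gb : ∀ r, 0 < r → |g r| ≤ A * (1 + r⁻¹) := fun r hr => by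
    have dq := fun (s : ℝ) (x : ℝ) => ((hasDerivAt_pow 3 x).fun_add (hasDerivAt_pow 2 x)).const_mul s
    have h1 := QV.cmp (Continuous.continuousOn (by fun_prop)) (Continuous.continuousOn (by fun_prop))
      (fun x _ => dq A x) dF (fun x hx => by
        norm_num
        nlinarith [mul_le_mul_of_nonneg_right (abs_le.1 (bb x hx)).2 hx.le, mul_pos hx hx]) hr.le
    have h2 := QV.cmp (Continuous.continuousOn (by fun_prop)) (Continuous.continuousOn (by fun_prop))
      dF (fun x _ => dq (-A) x) (fun x hx => by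
        norm_num
        nlinarith [mul_le_mul_of_nonneg_right (abs_le.1 (bb x hx)).1 hx.le, mul_pos hx hx]) hr.le
    rw [abs_div, abs_of_pos (pow_pos hr 3), div_le_iff₀ (pow_pos hr 3),
      show A * (1 + r⁻¹) * r ^ 3 = A * (r ^ 3 + r ^ 2) by field_simp]
    simp only [u0] at h1 h2
    exact abs_le.2 ⟨by linarith, by linarith⟩
  have dg : ∀ r, 0 < r → HasDerivAt g (r * ((b r / r - 3 * g r) / r ^ 2)) r := fun r hr =>
    ((dF r hr).fun_div (hasDerivAt_pow 3 r) (pow_pos hr 3).ne').congr_deriv (by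
      simp only [g]; norm_num; field_simp)
  have cg : ContinuousOn g (Ioi 0) := fun r hr => (dg r hr).continuousAt.continuousWithinAt
  have cq : ContinuousOn (fun r => u r / r) (Ioi 0) :=
    cu.continuousOn.div continuousOn_id fun x hx => ne_of_gt hx
  have ck : ContinuousOn (fun r => (b r / r - 3 * g r) / r ^ 2) (Ioi 0) :=
    ((((continuousOn_id.mul (cq.rpow_const fun _ _ => Or.inr (by linarith))).sub cq).div
      continuousOn_id fun x hx => ne_of_gt hx).sub (continuousOn_const.mul cg)).div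
        (continuous_pow 2).continuousOn fun x hx => (pow_pos hx 2).ne'
  have A0 : 0 < A := M0.trans_le A1
  have gx : ∀ (r : ℝ) (x v : E), 0 < r → |g r * inner ℝ x v| ≤ A * ‖v‖ * ((1 + r⁻¹) * (1 + ‖x‖)) :=
    fun r x v hr => by
      rw [abs_mul]
      refine (mul_le_mul (gb r hr) (abs_real_inner_le_norm x v) (abs_nonneg _) (by positivity)).trans ?_
      have : 0 ≤ A * ‖v‖ * (1 + r⁻¹) := by positivity
      nlinarith
  have cψ : Continuous fun x : E => dslope u 0 ‖x‖ := cs.comp continuous_norm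
  refine ⟨_, cψ, fun x => ps _ (norm_nonneg x), fun x => g ‖x‖ • x, ⟨cψ.locallyIntegrable,
    fun K hK => ?_, fun η h v => ?_⟩, (cψ.abs.rpow_const fun _ => Or.inr (by linarith)).locallyIntegrable,
    fun η h => ?_⟩
  · obtain ⟨R, hR⟩ := hK.isBounded.exists_norm_le
    have : IsFiniteMeasure (volume.restrict K) := ⟨by simpa using hK.measure_lt_top⟩
    have : Measurable g := by have := ca.measurable; have := cu.measurable; fun_prop
    refine MemLp.of_bound (Measurable.aestronglyMeasurable (by fun_prop)) (A * (R + 1))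
      (((ae_restrict_mem hK.measurableSet).and (ae_restrict_of_ae ne0)).mono fun x hx => ?_)
    rw [norm_smul]
    refine (mul_le_mul_of_nonneg_right (gb _ hx.2) (norm_nonneg _)).trans ?_
    rw [mul_assoc, add_mul, inv_mul_cancel₀ hx.2.ne', one_mul]
    exact mul_le_mul_of_nonneg_left (by linarith [hR x hx.1]) A0.le
  · have := (ibp (k := fun r => u r / r) (k1 := g) (fun r hr => ((du r).fun_div (hasDerivAt_id' r)
      hr.ne').congr_deriv (by simp only [g]; field_simp)) cg 1 0 v (C := M) (D := A * ‖v‖)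
      (fun r x hr _ => by
        rw [inner_zero_left, add_zero, mul_one, abs_of_pos (po r hr)]
        exact (bd r hr).2.trans (le_mul_of_one_le_right M0.le (one_le_mul_of_one_le_of_one_le
          (le_add_of_nonneg_right (by positivity)) (le_add_of_nonneg_right (by positivity)))))
      (fun r x hr _ => by simpa using gx r x v hr) h).2.2
    simp only [inner_zero_left, add_zero, mul_one, mul_zero] at this
    simp only [real_inner_smul_left, ← this]
    exact integral_congr_ae (ne0.mono fun x hx => by simp only [es _ hx])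
  have I := fun i : Fin 3 => ibp dg ck 0 (EuclideanSpace.single i (1 : ℝ)) (EuclideanSpace.single i 1)
    (C := A) (D := 5 * A) (fun r x hr _ => by
      simpa [real_inner_comm] using gx r x (EuclideanSpace.single i 1) hr) (fun r x hr hx => by
      have h1 : x i ^ 2 / r ^ 2 ≤ 1 := by
        rw [div_le_one (by positivity), ← sq_abs]
        exact pow_le_pow_left₀ (abs_nonneg _) ((PiLp.norm_apply_le x i).trans hx) 2
      have h2 : 0 ≤ x i ^ 2 / r ^ 2 := by positivity
      have h3 : |b r / r| ≤ A * (1 + r⁻¹) := by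
        rw [abs_div, abs_of_pos hr, div_le_iff₀ hr]
        exact (bb r hr).trans_eq (by field_simp)
      have h4 := abs_le.1 (gb r hr)
      have h5 := abs_le.1 h3
      have h6 : 0 ≤ A * (1 + r⁻¹) * ‖x‖ := by positivity
      rw [show (b r / r - 3 * g r) / r ^ 2 * inner ℝ x (EuclideanSpace.single i (1 : ℝ)) *
        (0 + inner ℝ (EuclideanSpace.single i (1 : ℝ)) x) + g r * inner ℝ
          (EuclideanSpace.single i (1 : ℝ)) (EuclideanSpace.single i (1 : ℝ)) =
            (b r / r - 3 * g r) * (x i ^ 2 / r ^ 2) + g r by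
        simp [EuclideanSpace.inner_single_left, EuclideanSpace.inner_single_right]; ring]
      exact abs_le.2 ⟨by nlinarith, by nlinarith⟩) h
  have s1 := integrable_finset_sum Finset.univ fun i _ => (I i).1
  have s2 := integrable_finset_sum Finset.univ fun i _ => (I i).2.1
  have s3 := Finset.sum_congr (rfl : Finset.univ = _) fun i _ => (I i).2.2
  rw [Finset.sum_neg_distrib, ← integral_finset_sum _ fun i _ => (I i).1,
    ← integral_finset_sum _ fun i _ => (I i).2.1] at s3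
  have e1 : ∀ x : E, ∑ i, g ‖x‖ * (0 + inner ℝ (EuclideanSpace.single i (1 : ℝ)) x) *
      fderiv ℝ η x (EuclideanSpace.single i 1) = inner ℝ (gradient η x) (g ‖x‖ • x) := fun x => by
    have : ∀ y, fderiv ℝ η x y = inner ℝ (gradient η x) y := fun y => by simp [gradient]
    simp only [this]
    generalize gradient η x = y
    simp [PiLp.inner_apply, Fin.sum_univ_three]
  have e2 : ∀ᵐ x : E, ∑ i, ((b ‖x‖ / ‖x‖ - 3 * g ‖x‖) / ‖x‖ ^ 2 * inner ℝ x
      (EuclideanSpace.single i (1 : ℝ)) * (0 + inner ℝ (EuclideanSpace.single i (1 : ℝ)) x) + g ‖x‖ *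
        inner ℝ (EuclideanSpace.single i (1 : ℝ)) (EuclideanSpace.single i (1 : ℝ))) * η x =
      η x * ((|dslope u 0 ‖x‖| ^ (2 * p - 2) - ‖x‖⁻¹) * dslope u 0 ‖x‖) := ne0.mono fun x hx => by
    have n := EuclideanSpace.real_norm_sq_eq x
    rw [Fin.sum_univ_three] at n
    rw [es _ hx, abs_of_pos (po _ hx), show (( u ‖x‖ / ‖x‖) ^ (2 * p - 2) - ‖x‖⁻¹) * (u ‖x‖ / ‖x‖) =
      (b ‖x‖ / ‖x‖ - 3 * g ‖x‖) / ‖x‖ ^ 2 * (x 0 ^ 2 + x 1 ^ 2 + x 2 ^ 2) + 3 * g ‖x‖ by
        rw [← n, div_mul_cancel₀ _ (by positivity)]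
        simp only [b, rpow_add_one (po _ hx).ne']
        field_simp
        ring]
    simp [EuclideanSpace.inner_single_left, EuclideanSpace.inner_single_right, Fin.sum_univ_three]
    ring
  simp only [e1] at s1 s3
  exact ⟨s1, s2.congr e2, (congrArg₂ (· + ·) s3 (integral_congr_ae e2).symm).trans
    (neg_add_cancel _)⟩

end Pool.Agent.H94.TW
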