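import Mathlib

set_option autoImplicit false
open Filter Topology
open scoped ZeroAtInfty

namespace Pool.Agent.H94.Tak

noncomputable def dZ (x : ℝ) : ℝ := Metric.infDist x (Set.range (Int.cast : ℤ → ℝ))

noncomputable def T (t : ℝ) : ℝ := ∑' n : ℕ, (1 / 2 : ℝ) ^ n * dZ (2 ^ n * t)

lemma dZ_nonneg (x : ℝ) : 0 ≤ dZ x := Metric.infDist_nonneg

lemma dZ_le (x : ℝ) : dZ x ≤ 1 := by
  refine (Metric.infDist_le_dist_of_mem (Set.mem_range_self ⌊x⌋)).trans ?_
  rw [Real.dist_eq, abs_of_nonneg (by linarith [Int.floor_le x])]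
  linarith [Int.lt_floor_add_one x]

lemma dZ_lip (x y : ℝ) : |dZ x - dZ y| ≤ |x - y| := by
  have := (Metric.lipschitz_infDist_pt (Set.range (Int.cast : ℤ → ℝ))).dist_le_mul x y
  simpa [Real.dist_eq, dZ] using this

lemma term_le (t : ℝ) (n : ℕ) : (1 / 2 : ℝ) ^ n * dZ (2 ^ n * t) ≤ (1 / 2 : ℝ) ^ n :=
  mul_le_of_le_one_right (by positivity) (dZ_le _)

lemma T_summ (t : ℝ) : Summable fun n : ℕ => (1 / 2 : ℝ) ^ n * dZ (2 ^ n * t) :=
  Summable.of_nonneg_of_le (fun n => mul_nonneg (by positivity) (dZ_nonneg _)) (term_le t)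
    summable_geometric_two

lemma T_nonneg (t : ℝ) : 0 ≤ T t :=
  tsum_nonneg fun n => mul_nonneg (by positivity) (dZ_nonneg _)

lemma T_le (t : ℝ) : T t ≤ 2 := by
  rw [← tsum_geometric_two]
  exact (T_summ t).tsum_le_tsum (term_le t) summable_geometric_two

lemma T_succ (t : ℝ) : T t = dZ t + 1 / 2 * T (2 * t) := by
  unfold T
  rw [(T_summ t).tsum_eq_zero_add, ← tsum_mul_left]
  congr 1
  · simp
  · refine tsum_congr fun m => ?_
    rw [show (2:ℝ) ^ (m + 1) * t = 2 ^ m * (2 * t) by ring]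
    ring

lemma T_mod (n : ℕ) : ∀ s t : ℝ, |T s - T t| ≤ n * |s - t| + 2 * (1 / 2 : ℝ) ^ n := by
  induction n with
  | zero =>
    intro s t
    simp only [Nat.cast_zero, zero_mul, pow_zero, zero_add, mul_one, abs_le]
    constructor <;> linarith [T_nonneg s, T_nonneg t, T_le s, T_le t]
  | succ n ih =>
    intro s t
    have h1 := ih (2 * s) (2 * t)
    have h2 := dZ_lip s t
    have h3 : |2 * s - 2 * t| = 2 * |s - t| := by
      rw [← mul_sub, abs_mul]; norm_num
    rw [h3] at h1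
    rw [T_succ s, T_succ t]
    have e : dZ s + 1 / 2 * T (2 * s) - (dZ t + 1 / 2 * T (2 * t)) =
        (dZ s - dZ t) + 1 / 2 * (T (2 * s) - T (2 * t)) := by ring
    rw [e]
    refine (abs_add_le _ _).trans ?_
    rw [abs_mul, abs_of_pos (by norm_num : (0:ℝ) < 1 / 2), pow_succ]
    push_cast
    linarith

noncomputable def dl (k : ℕ) : ℝ := 1 / (k * (Nat.log 2 k + 1))

lemma dl_nonneg (k : ℕ) : 0 ≤ dl k := by unfold dl; positivity

lemma dl_div : Tendsto (fun n => ∑ k ∈ Finset.range n, dl k) atTop atTop := by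
  rw [← not_summable_iff_tendsto_nat_atTop_of_nonneg dl_nonneg,
    ← summable_condensed_iff_of_nonneg dl_nonneg]
  · intro h
    apply Real.not_summable_one_div_natCast
    rw [← summable_nat_add_iff 1]
    refine h.congr fun k => ?_
    unfold dl
    rw [Nat.log_pow (by norm_num)]
    push_cast
    field_simp
  · intro m n hm hmn
    unfold dl
    have h1 : (0:ℝ) < m := by exact_mod_cast hm
    have h2 : (m:ℝ) ≤ n := by exact_mod_cast hmn
    have h3 : (Nat.log 2 m : ℝ) ≤ Nat.log 2 n := by exact_mod_cast Nat.log_mono_right hmn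
    apply one_div_le_one_div_of_le (by positivity)
    gcongr

/-- the covering sequence -/
lemma cov (τ : ℝ) (hτ : 0 < τ) (D K0 : ℕ) : ∃ (K K1 : ℕ) (t : ℕ → ℝ), K0 ≤ K ∧ K ≤ K1 ∧ t K = 0 ∧
    1 ≤ t K1 ∧ Monotone t ∧ ∀ k, K ≤ k → ∀ s ∈ Set.Icc (t k) (t (k + 1)),
      (D * k : ℝ) * |s - t k| ≤ τ ∧ (D * k : ℝ) * |T s - T (t k)| ≤ τ := by
  obtain ⟨K2, hK2⟩ := exists_nat_ge (4 * D / τ)
  set c : ℝ := τ / (4 * (D + 1)) with hc
  have hc0 : 0 < c := by positivity
  have hcD : D * c ≤ τ / 4 := by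
    rw [hc, ← mul_div_assoc, div_le_div_iff₀ (by positivity) (by positivity)]
    nlinarith
  obtain ⟨K, hK⟩ : ∃ K, K = K0 + K2 + 1 := ⟨_, rfl⟩
  have hlim := dl_div.eventually_ge_atTop (1 / c + ∑ k ∈ Finset.range K, dl k)
  obtain ⟨K1, h1, h2⟩ := (hlim.and (eventually_ge_atTop K)).exists
  refine ⟨K, K1, fun n => c * (∑ k ∈ Finset.range n, dl k - ∑ k ∈ Finset.range K, dl k),
    by omega, h2, by simp, ?_, ?_, ?_⟩
  · have : 1 / c ≤ ∑ k ∈ Finset.range K1, dl k - ∑ k ∈ Finset.range K, dl k := by linarith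
    rw [div_le_iff₀ hc0] at this
    simp only
    linarith
  · refine monotone_nat_of_le_succ fun n => ?_
    rw [Finset.sum_range_succ _ n]
    have := dl_nonneg n
    nlinarith
  · intro k hk s hs
    simp only [Finset.sum_range_succ, Set.mem_Icc] at hs
    simp only
    generalize ∑ j ∈ Finset.range k, dl j = A at hs ⊢
    generalize ∑ j ∈ Finset.range K, dl j = B at hs ⊢
    have hk0 : (0:ℝ) < k := by exact_mod_cast (by omega : 0 < k)
    have hk2 : (K2:ℝ) ≤ k := by exact_mod_cast (by omega : K2 ≤ k)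
    have hd : |s - c * (A - B)| ≤ c * dl k := by
      rw [abs_of_nonneg (by linarith [hs.1])]; linarith [hs.2]
    set L := Nat.log 2 k with hL
    have hL0 : (0:ℝ) ≤ L := Nat.cast_nonneg _
    have e1 : (k:ℝ) * ((L + 1) * dl k) = 1 := by
      unfold dl; rw [← hL]; field_simp
    have hD0 : (0:ℝ) ≤ D := Nat.cast_nonneg _
    have q1 : (D * k : ℝ) * ((L + 1) * |s - c * (A - B)|) ≤ τ / 4 := by
      calc _ ≤ (D * k : ℝ) * ((L + 1) * (c * dl k)) := by gcongr
        _ = D * c * (k * ((L + 1) * dl k)) := by ring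
        _ ≤ τ / 4 := by rw [e1, mul_one]; exact hcD
    have q0 : 0 ≤ (D * k : ℝ) * |s - c * (A - B)| := by positivity
    constructor
    · nlinarith [mul_nonneg hL0 q0]
    · have h3 := T_mod (2 * (L + 1)) s (c * (A - B))
      have h4 : (k:ℝ) ≤ 2 ^ (L + 1) := by
        exact_mod_cast (Nat.lt_pow_succ_log_self (by norm_num : 1 < 2) k).le
      have h5 : (k:ℝ) * (1 / 2 : ℝ) ^ (L + 1) ≤ 1 := by
        rw [one_div, inv_pow, ← div_eq_mul_inv, div_le_one (by positivity)]; exact h4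
      have h6 : (1 / 2 : ℝ) ^ (2 * (L + 1)) = (1 / 2 : ℝ) ^ (L + 1) * (1 / 2 : ℝ) ^ (L + 1) := by
        rw [two_mul, pow_add]
      have h7 : 0 ≤ (1 / 2 : ℝ) ^ (L + 1) := by positivity
      rw [h6] at h3
      push_cast at h3
      generalize (1 / 2 : ℝ) ^ (L + 1) = w at h3 h5 h7
      have h8 : 4 * D * w ≤ τ := by
        rw [div_le_iff₀ hτ] at hK2
        calc 4 * D * w ≤ k * τ * w := mul_le_mul_of_nonneg_right (by nlinarith) h7
          _ = τ * (k * w) := by ring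
          _ ≤ τ := by nlinarith
      have h9 : (D * k : ℝ) * (2 * (w * w)) ≤ τ / 2 := by
        have : (D * k : ℝ) * (2 * (w * w)) = 2 * D * w * (k * w) := by ring
        rw [this]
        have : 0 ≤ 2 * D * w := by positivity
        nlinarith
      calc _ ≤ (D * k : ℝ) * (2 * (L + 1) * |s - c * (A - B)| + 2 * (w * w)) := by gcongr
        _ = 2 * ((D * k : ℝ) * ((L + 1) * |s - c * (A - B)|)) + (D * k : ℝ) * (2 * (w * w)) := by
          ring
        _ ≤ τ := by linarith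

lemma find (t : ℕ → ℝ) (K : ℕ) (s : ℝ) (h0 : t K ≤ s) (K1 : ℕ) (hK : K ≤ K1) (ht : Monotone t) :
    s ≤ t K1 → ∃ k, K ≤ k ∧ k ≤ K1 ∧ s ∈ Set.Icc (t k) (t (k + 1)) := by
  induction K1, hK using Nat.le_induction with
  | base => intro h; exact ⟨K, le_rfl, le_rfl, h0, h.trans (ht (by omega))⟩
  | succ n hn ih =>
    intro h
    by_cases h' : s ≤ t n
    · obtain ⟨k, a, b, c⟩ := ih h'
      exact ⟨k, a, by omega, c⟩
    · exact ⟨n, hn, by omega, (not_le.mp h').le, h⟩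

variable {𝕜 : Type*} [RCLike 𝕜]

lemma block (γ : ℝ → ℝ) (t : ℕ → ℝ) (K K1 D : ℕ) (hD : 0 < D) (τ a M η : ℝ) (hτ : 0 ≤ τ)
    (ha : 0 ≤ a) (hM : 0 ≤ M) (ht : Monotone t) (hγ : ∀ k, K ≤ k → a ≤ γ (t k))
    (hc : ∀ k, K ≤ k → ∀ s ∈ Set.Icc (t k) (t (k + 1)), (D * k : ℝ) * |γ s - γ (t k)| ≤ τ)
    (u : ℕ → 𝕜) (hu : ∀ i, ‖u i‖ ≤ M) (hu0 : ∀ i, D ≤ i → u i = 0)
    (h1 : (Real.exp τ - 1) * M ≤ η) (h2 : 2 * τ ≤ D * a) (h3 : M * Real.exp (2 * τ - D * a) ≤ η) :
    ∃ x : ℕ → 𝕜, (∀ n, n < D * K ∨ D * (K1 + 1) ≤ n → x n = 0) ∧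
      (∀ n, ‖x n‖ ≤ M * Real.exp (-(K * (D * a)))) ∧
      ∀ k, K ≤ k → k ≤ K1 → ∀ s ∈ Set.Icc (t k) (t (k + 1)), ∀ i,
        ‖((Real.exp (((D * k : ℕ) : ℝ) * γ s) : ℝ) : 𝕜) * x (i + D * k) - u i‖ ≤ η := by
  have hη : 0 ≤ η := le_trans (by positivity) h3
  have hD0 : (0:ℝ) ≤ D := Nat.cast_nonneg _
  have chain : ∀ k, K ≤ k → ∀ l, k ≤ l → (D * k : ℝ) * |γ (t k) - γ (t l)| ≤ (l - k) * τ := by
    intro k hk l hl
    induction l, hl using Nat.le_induction with
    | base => simp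
    | succ n hn ih =>
      have q1 := hc n (by omega) (t (n + 1)) ⟨ht (by omega), le_rfl⟩
      have q2 : (k:ℝ) ≤ n := by exact_mod_cast hn
      have q3 : (D * k : ℝ) * |γ (t (n + 1)) - γ (t n)| ≤ (D * n : ℝ) * |γ (t (n + 1)) - γ (t n)| := by
        gcongr
      have q4 : |γ (t k) - γ (t (n + 1))| ≤ |γ (t k) - γ (t n)| + |γ (t (n + 1)) - γ (t n)| := by
        rw [abs_sub_comm (γ (t (n + 1)))]; exact abs_sub_le _ _ _
      have q5 := mul_le_mul_of_nonneg_left q4 (show (0:ℝ) ≤ D * k by positivity)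
      push_cast
      linarith
  refine ⟨fun n => if K ≤ n / D ∧ n / D ≤ K1 then
    ((Real.exp (-(D * (n / D : ℕ) * γ (t (n / D)))) : ℝ) : 𝕜) * u (n % D) else 0, ?_, ?_, ?_⟩
  · intro n hn
    simp only
    rw [if_neg]
    rintro ⟨q1, q2⟩
    rcases hn with hn | hn
    · rw [Nat.le_div_iff_mul_le hD] at q1; nlinarith
    · have : K1 + 1 ≤ n / D := (Nat.le_div_iff_mul_le hD).2 (by nlinarith)
      omega
  · intro n
    simp only
    split_ifs with h
    · rw [norm_mul, RCLike.norm_ofReal, abs_of_pos (Real.exp_pos _), mul_comm]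
      refine mul_le_mul (hu _) (Real.exp_le_exp.mpr ?_) (Real.exp_pos _).le hM
      have q1 : (K:ℝ) ≤ (n / D : ℕ) := by exact_mod_cast h.1
      have q2 := hγ _ h.1
      have q3 : (K:ℝ) * a ≤ (n / D : ℕ) * γ (t (n / D)) :=
        mul_le_mul q1 q2 ha (Nat.cast_nonneg _)
      nlinarith
    · rw [norm_zero]; positivity
  · intro k hk hk1 s hs i
    have q0 := hc k hk s hs
    have e1 : (i + D * k) / D = i / D + k := Nat.add_mul_div_left _ _ hD
    have e2 : (i + D * k) % D = i % D := Nat.add_mul_mod_self_left _ _ _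
    simp only [e1, e2]
    by_cases hi : i < D
    · rw [Nat.div_eq_of_lt hi, Nat.mod_eq_of_lt hi, zero_add, if_pos ⟨hk, hk1⟩, ← mul_assoc,
        ← RCLike.ofReal_mul, ← Real.exp_add]
      have e : ∀ r : ℝ, (r : 𝕜) * u i - u i = ((r - 1 : ℝ) : 𝕜) * u i := by
        intro r; push_cast; ring
      rw [e, norm_mul, RCLike.norm_ofReal]
      refine le_trans (mul_le_mul ?_ (hu i) (norm_nonneg _) ?_) h1
      · have q1 : |((D * k : ℕ) : ℝ) * γ s + -(D * k * γ (t k))| ≤ τ := by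
          have : ((D * k : ℕ) : ℝ) * γ s + -(D * k * γ (t k)) = (D * k : ℝ) * (γ s - γ (t k)) := by
            push_cast; ring
          rw [this, abs_mul, abs_of_nonneg (by positivity)]; exact q0
        generalize ((D * k : ℕ) : ℝ) * γ s + -(D * k * γ (t k)) = y at q1
        rw [abs_le] at q1 ⊢
        have p1 := Real.exp_le_exp.mpr q1.2
        have p2 := Real.add_one_le_exp y
        have p3 := Real.add_one_le_exp τ
        constructor <;> linarith
      · linarith [Real.one_le_exp hτ]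
    · rw [hu0 i (by omega), sub_zero]
      split_ifs with h
      · rw [← mul_assoc, ← RCLike.ofReal_mul, ← Real.exp_add, norm_mul, RCLike.norm_ofReal,
          abs_of_pos (Real.exp_pos _), mul_comm]
        refine le_trans (mul_le_mul (hu _) (Real.exp_le_exp.mpr ?_) (Real.exp_pos _).le hM) h3
        have p0 : 1 ≤ i / D := (Nat.le_div_iff_mul_le hD).2 (by omega)
        have p1 := chain k hk (i / D + k) (by omega)
        have p2 := hγ _ h.1
        have p3 : (1:ℝ) ≤ (i / D : ℕ) := by exact_mod_cast p0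
        push_cast at p1 ⊢
        generalize γ (t (i / D + k)) = g at p1 p2 ⊢
        generalize ((i / D : ℕ) : ℝ) = j at p1 p3 ⊢
        have p4 : (D * k : ℝ) * (γ s - γ (t k)) ≤ τ :=
          le_trans (mul_le_mul_of_nonneg_left (le_abs_self _) (by positivity)) q0
        have p5 : (D * k : ℝ) * (γ (t k) - g) ≤ (j + k - k) * τ :=
          le_trans (mul_le_mul_of_nonneg_left (le_abs_self _) (by positivity)) p1
        have p6 : D * j * a ≤ D * j * g := by gcongr
        nlinarith [mul_nonneg (sub_nonneg.2 p3) (sub_nonneg.2 h2), mul_nonneg (sub_nonneg.2 p3) hτ]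
      · simp [hη]

end Pool.Agent.H94.Tak
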