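import Pool.Agent.H94.Tak

set_option autoImplicit false
open Filter Topology
open scoped ZeroAtInfty

namespace Pool.Agent.H94.Tak

variable {𝕜 : Type*} [RCLike 𝕜]

lemma apply_le (y : C₀(ℕ, 𝕜)) (n : ℕ) : ‖y n‖ ≤ ‖y‖ := by
  have := y.toBCF.norm_coe_le_norm n
  simpa [ZeroAtInftyContinuousMap.norm_toBCF_eq_norm] using this

lemma norm_le1 (y : C₀(ℕ, 𝕜)) (C : ℝ) (hC : 0 ≤ C) (h : ∀ n, ‖y n‖ ≤ C) : ‖y‖ ≤ C := by
  rw [← ZeroAtInftyContinuousMap.norm_toBCF_eq_norm]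
  exact (BoundedContinuousFunction.norm_le hC).2 h

def mk1 (f : ℕ → 𝕜) (h : Tendsto f atTop (𝓝 0)) : C₀(ℕ, 𝕜) where
  toFun := f
  continuous_toFun := continuous_of_discreteTopology
  zero_at_infty' := by
    rw [cocompact_eq_cofinite, Nat.cofinite_eq_atTop]
    exact h

@[simp] lemma mk1_apply (f : ℕ → 𝕜) (h : Tendsto f atTop (𝓝 0)) (n : ℕ) : mk1 f h n = f n := rfl

lemma tend (y : C₀(ℕ, 𝕜)) : Tendsto (fun n => y n) atTop (𝓝 0) := by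
  have := y.zero_at_infty'
  rwa [cocompact_eq_cofinite, Nat.cofinite_eq_atTop] at this

lemma glue (x0 : C₀(ℕ, 𝕜)) (r : ℝ) (hr : 0 < r) : ∃ K0 : ℕ, ∀ (x : ℕ → 𝕜) (m e : ℕ), K0 ≤ m →
    (∀ n, n < m ∨ e ≤ n → x n = 0) → (∀ n, ‖x n‖ ≤ r) →
    ∃ z : C₀(ℕ, 𝕜), ‖z - x0‖ ≤ 2 * r ∧ ∀ n, m ≤ n → z n = x n := by
  obtain ⟨K0, hK⟩ := Metric.tendsto_atTop.mp (tend x0) r hr
  refine ⟨K0, fun x m e hm hx hxr => ⟨mk1 (fun n => if n < m then x0 n else x n) ?_, ?_, ?_⟩⟩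
  · apply tendsto_const_nhds.congr'
    filter_upwards [eventually_ge_atTop (m + e)] with n hn
    rw [if_neg (by omega), hx n (Or.inr (by omega))]
  · refine norm_le1 _ _ (by positivity) fun n => ?_
    simp only [ZeroAtInftyContinuousMap.coe_sub, Pi.sub_apply, mk1_apply]
    split_ifs with h
    · simp; positivity
    · have h1 := hK n (by omega)
      rw [dist_zero_right] at h1
      have := norm_sub_le (x n) (x0 n)
      linarith [hxr n]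
  · intro n hn
    simp [not_lt.mpr hn]

def W (a b : ℝ) (u v : ℕ → 𝕜) (η : ℝ) : Set (C₀(ℕ, 𝕜) × C₀(ℕ, 𝕜)) :=
  {z | ∀ s ∈ Set.Icc (0:ℝ) 1, ∃ k : ℕ, ∀ n : ℕ,
    ‖((Real.exp ((k : ℝ) * (a + s)) : ℝ) : 𝕜) * z.1 (n + k) - u n‖ ≤ 2 * η ∧
    ‖((Real.exp ((k : ℝ) * (b + T s)) : ℝ) : 𝕜) * z.2 (n + k) - v n‖ ≤ 2 * η}

lemma small_exp (M c η : ℝ) (hc : 0 < c) (hη : 0 < η) :
    ∃ N : ℕ, ∀ t : ℝ, N ≤ t → M * Real.exp (-(t * c)) ≤ η := by
  have h1 : Tendsto (fun t : ℝ => M * Real.exp (-(t * c))) atTop (𝓝 (M * 0)) :=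
    (Real.tendsto_exp_neg_atTop_nhds_zero.comp (tendsto_id.atTop_mul_const hc)).const_mul M
  rw [mul_zero] at h1
  obtain ⟨t0, ht0⟩ := eventually_atTop.mp (h1.eventually (ge_mem_nhds hη))
  obtain ⟨N, hN⟩ := exists_nat_ge t0
  exact ⟨N, fun t ht => ht0 t (hN.trans ht)⟩

lemma close {x u : ℕ → 𝕜} {z z' : C₀(ℕ, 𝕜)} {lam c ρ η : ℝ} {m e k : ℕ} (hk : m ≤ k)
    (hke : k ≤ e) (hc : 0 ≤ c) (hlam : lam ≤ c) (hz : ∀ n, m ≤ n → z n = x n) (hzz : ‖z' - z‖ ≤ ρ)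
    (hρ : Real.exp (e * c) * ρ ≤ η)
    (h : ∀ i, ‖((Real.exp ((k : ℝ) * lam) : ℝ) : 𝕜) * x (i + k) - u i‖ ≤ η) (n : ℕ) :
    ‖((Real.exp ((k : ℝ) * lam) : ℝ) : 𝕜) * z' (n + k) - u n‖ ≤ 2 * η := by
  have h1 := h n
  rw [← hz _ (by omega)] at h1
  have h2 : ‖z' (n + k) - z (n + k)‖ ≤ ρ := (apply_le (z' - z) (n + k)).trans hzz
  have h3 : Real.exp ((k : ℝ) * lam) ≤ Real.exp (e * c) := by
    apply Real.exp_le_exp.mpr
    have q1 : (k : ℝ) ≤ e := by exact_mod_cast hke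
    have q2 : (0 : ℝ) ≤ k := Nat.cast_nonneg k
    nlinarith
  have e1 : ((Real.exp ((k : ℝ) * lam) : ℝ) : 𝕜) * z' (n + k) - u n =
      (((Real.exp ((k : ℝ) * lam) : ℝ) : 𝕜) * z (n + k) - u n) +
        ((Real.exp ((k : ℝ) * lam) : ℝ) : 𝕜) * (z' (n + k) - z (n + k)) := by ring
  rw [e1]
  refine (norm_add_le _ _).trans ?_
  rw [norm_mul, RCLike.norm_ofReal, abs_of_pos (Real.exp_pos _)]
  have := mul_le_mul h3 h2 (norm_nonneg _) (Real.exp_pos _).le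
  linarith

lemma W_dense (a b : ℝ) (ha : 0 < a) (hb : 0 < b) (u v : ℕ → 𝕜) (N : ℕ)
    (hu0 : ∀ i, N ≤ i → u i = 0) (hv0 : ∀ i, N ≤ i → v i = 0) (η : ℝ) (hη : 0 < η) :
    Dense (interior (W a b u v η)) := by
  set M : ℝ := ∑ i ∈ Finset.range N, (‖u i‖ + ‖v i‖) + 1 with hM
  have hs : 0 ≤ ∑ i ∈ Finset.range N, (‖u i‖ + ‖v i‖) := Finset.sum_nonneg fun _ _ => by positivity
  have hM0 : 0 < M := by linarith
  have huv : ∀ i, ‖u i‖ + ‖v i‖ ≤ M := by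
    intro i
    by_cases hi : i < N
    · have := Finset.single_le_sum (f := fun i => ‖u i‖ + ‖v i‖) (fun _ _ => by positivity)
        (Finset.mem_range.mpr hi)
      linarith
    · rw [hu0 i (by omega), hv0 i (by omega)]; simp; linarith
  have ha0 : 0 < min a b := lt_min ha hb
  have hma := min_le_left a b
  have hmb := min_le_right a b
  generalize min a b = a0 at ha0 hma hmb
  have hq : 0 < η / M := by positivity
  have hτ : 0 < Real.log (1 + η / M) := Real.log_pos (by linarith)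
  have hτη : (Real.exp (Real.log (1 + η / M)) - 1) * M ≤ η := by
    rw [Real.exp_log (by linarith)]
    apply le_of_eq; field_simp; ring
  generalize Real.log (1 + η / M) = τ at hτ hτη
  obtain ⟨N1, hN1⟩ := small_exp (M * Real.exp (2 * τ)) _ η ha0 hη
  obtain ⟨N3, hN3⟩ := exists_nat_ge (2 * τ / a0)
  obtain ⟨D, hD⟩ : ∃ D, D = N + N1 + N3 + 1 := ⟨_, rfl⟩
  have hD0 : 0 < D := by omega
  have hD1 : (1:ℝ) ≤ D := by exact_mod_cast hD0
  have h2 : 2 * τ ≤ D * a0 := by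
    rw [div_le_iff₀ ha0] at hN3
    have : (N3:ℝ) ≤ D := by exact_mod_cast (by omega : N3 ≤ D)
    nlinarith
  have h3 : M * Real.exp (2 * τ - D * a0) ≤ η := by
    have := hN1 D (by exact_mod_cast (by omega : N1 ≤ D))
    rwa [mul_assoc, ← Real.exp_add, ← sub_eq_add_neg] at this
  rw [Metric.dense_iff]
  rintro ⟨x0, y0⟩ r hr
  have hr3 : 0 < r / 3 := by positivity
  obtain ⟨K2, hK2⟩ := glue x0 _ hr3
  obtain ⟨K3, hK3⟩ := glue y0 _ hr3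
  obtain ⟨N2, hN2⟩ := small_exp M (D * a0) _ (by positivity) hr3
  obtain ⟨K, K1, t, k0, k1, t0, t1, tm, hc⟩ := cov τ hτ D (N2 + K2 + K3)
  have tp : ∀ k, K ≤ k → 0 ≤ t k := fun k hk => t0 ▸ tm hk
  obtain ⟨x, sx, zx, ax⟩ := block (fun s => a + s) t K K1 D hD0 τ a0 M η hτ.le ha0.le hM0.le tm
    (fun k hk => by linarith [tp k hk]) (fun k hk s hs => by simpa using (hc k hk s hs).1) u
    (fun i => by linarith [huv i, norm_nonneg (v i)]) (fun i hi => hu0 i (by omega)) hτη h2 h3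
  obtain ⟨y, sy, zy, ay⟩ := block (fun s => b + T s) t K K1 D hD0 τ a0 M η hτ.le ha0.le hM0.le tm
    (fun k hk => by linarith [T_nonneg (t k)]) (fun k hk s hs => by simpa using (hc k hk s hs).2) v
    (fun i => by linarith [huv i, norm_nonneg (u i)]) (fun i hi => hv0 i (by omega)) hτη h2 h3
  have hK : K ≤ D * K := Nat.le_mul_of_pos_left _ hD0
  have bd := hN2 K (by exact_mod_cast (by omega : N2 ≤ K))
  obtain ⟨z1, q1, q1'⟩ := hK2 x _ _ (by omega) sx (fun n => (zx n).trans bd)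
  obtain ⟨z2, q2, q2'⟩ := hK3 y _ _ (by omega) sy (fun n => (zy n).trans bd)
  refine ⟨(z1, z2), ?_, ?_⟩
  · rw [Metric.mem_ball, Prod.dist_eq, dist_eq_norm, dist_eq_norm]
    exact max_lt (by linarith) (by linarith)
  · rw [mem_interior_iff_mem_nhds, Metric.mem_nhds_iff]
    refine ⟨η / Real.exp ((D * K1 : ℕ) * (a + b + 2)), by positivity, ?_⟩
    rintro ⟨z1', z2'⟩ hz s hs
    rw [Metric.mem_ball, Prod.dist_eq, dist_eq_norm, dist_eq_norm, max_lt_iff] at hz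
    obtain ⟨k, k1, k2, k3⟩ := find t K s (t0 ▸ hs.1) K1 k1 tm (hs.2.trans t1)
    have hρ : Real.exp ((D * K1 : ℕ) * (a + b + 2)) *
        (η / Real.exp ((D * K1 : ℕ) * (a + b + 2))) ≤ η := by
      apply le_of_eq; field_simp
    refine ⟨D * k, fun n => ⟨close (Nat.mul_le_mul_left D k1) (Nat.mul_le_mul_left D k2)
      (c := a + b + 2) (by positivity) ?_ q1' hz.1.le hρ (ax k k1 k2 s k3) n,
      close (Nat.mul_le_mul_left D k1) (Nat.mul_le_mul_left D k2) (c := a + b + 2)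
        (by positivity) ?_ q2' hz.2.le hρ (ay k k1 k2 s k3) n⟩⟩
    · linarith [hs.2]
    · linarith [T_le s]

variable (𝕜) in
noncomputable def tgt (f : ℕ × (ℕ →₀ ℕ)) (i : ℕ) : 𝕜 :=
  if i < f.1 then TopologicalSpace.denseSeq 𝕜 (f.2 i) else 0

lemma tgt_dense (u : ℕ → 𝕜) (hu : Tendsto u atTop (𝓝 0)) (r : ℝ) (hr : 0 < r) :
    ∃ f, ∀ i, ‖tgt 𝕜 f i - u i‖ ≤ r := by
  classical
  obtain ⟨K, hK⟩ := Metric.tendsto_atTop.mp hu r hr
  choose q hq using fun t => (TopologicalSpace.denseRange_denseSeq 𝕜).exists_dist_lt (u t) hr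
  refine ⟨(K, Finsupp.onFinset (Finset.range K) (fun t => if t < K then q t else 0) (by
    intro t ht
    by_contra h
    simp at h
    simp [not_lt.mpr h] at ht)), fun t => ?_⟩
  simp only [tgt, Finsupp.onFinset_apply]
  split_ifs with h
  · rw [norm_sub_rev, ← dist_eq_norm]; exact (hq t).le
  · have := hK t (not_lt.mp h)
    simpa using this.le

variable (𝕜) in
theorem final (a b : ℝ) (ha : 0 < a) (hb : 0 < b) : ∃ z : C₀(ℕ, 𝕜) × C₀(ℕ, 𝕜),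
    ∀ s ∈ Set.Icc (0:ℝ) 1, ∀ u v : C₀(ℕ, 𝕜), ∀ η : ℝ, 0 < η → ∃ k : ℕ, ∀ n : ℕ,
      ‖((Real.exp ((k : ℝ) * (a + s)) : ℝ) : 𝕜) * z.1 (n + k) - u n‖ ≤ η ∧
      ‖((Real.exp ((k : ℝ) * (b + T s)) : ℝ) : 𝕜) * z.2 (n + k) - v n‖ ≤ η := by
  have hd := dense_iInter_of_isOpen
    (f := fun c : (ℕ × (ℕ →₀ ℕ)) × (ℕ × (ℕ →₀ ℕ)) × ℕ =>
      interior (W a b (tgt 𝕜 c.1) (tgt 𝕜 c.2.1) (1 / ((c.2.2 : ℝ) + 1))))
    (fun _ => isOpen_interior) (fun c => W_dense a b ha hb _ _ (c.1.1 + c.2.1.1)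
      (fun i hi => by simp only [tgt]; rw [if_neg (by omega)])
      (fun i hi => by simp only [tgt]; rw [if_neg (by omega)]) _ (by positivity))
  obtain ⟨z, hz⟩ := hd.nonempty
  refine ⟨z, fun s hs u v η hη => ?_⟩
  have h4 : 0 < η / 4 := by positivity
  obtain ⟨f, hf⟩ := tgt_dense _ (tend u) _ h4
  obtain ⟨g, hg⟩ := tgt_dense _ (tend v) _ h4
  obtain ⟨l, hl⟩ := exists_nat_one_div_lt h4
  obtain ⟨k, hk⟩ := interior_subset (Set.mem_iInter.mp hz (f, g, l)) s hs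
  refine ⟨k, fun n => ⟨?_, ?_⟩⟩
  · have h1 := (hk n).1
    have h2 := norm_add_le (((Real.exp ((k : ℝ) * (a + s)) : ℝ) : 𝕜) * z.1 (n + k) - tgt 𝕜 f n)
      (tgt 𝕜 f n - u n)
    rw [sub_add_sub_cancel] at h2
    linarith [hf n]
  · have h1 := (hk n).2
    have h2 := norm_add_le (((Real.exp ((k : ℝ) * (b + T s)) : ℝ) : 𝕜) * z.2 (n + k) - tgt 𝕜 g n)
      (tgt 𝕜 g n - v n)
    rw [sub_add_sub_cancel] at h2
    linarith [hg n]

end Pool.Agent.H94.Tak
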