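import Mathlib

set_option autoImplicit false
namespace Pool.Agent.H94.Tn
open Set Filter Topology

noncomputable def br (a : ℝ) (b : Bool) (y : ℝ) : ℝ := if b then 1 - y / a else y / a

noncomputable def F (a : ℝ) (w : List Bool) (y : ℝ) : ℝ := w.foldr (br a) y

theorem F_cons (a : ℝ) (b : Bool) (w : List Bool) (y : ℝ) : F a (b :: w) y = br a b (F a w y) := rfl

theorem F_app (a : ℝ) (v w : List Bool) (y : ℝ) : F a (v ++ w) y = F a v (F a w y) :=
  List.foldr_append

theorem aff {a : ℝ} (h : 1 < a) (w : List Bool) :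
    ∃ s c : ℝ, |s| ≤ 1 ∧ (w ≠ [] → |s| < 1) ∧ ∀ t, F a w t = c + s * t := by
  induction w with
  | nil => exact ⟨1, 0, by simp, by simp, fun t => by simp [F]⟩
  | cons b w ih =>
    obtain ⟨s, c, h1, -, h2⟩ := ih
    have k : |s / a| < 1 := by
      rw [abs_div, abs_of_pos (by linarith : 0 < a), div_lt_one (by linarith)]; linarith
    cases b
    · exact ⟨s / a, c / a, k.le, fun _ => k, fun t => by simp [F_cons, br, h2]; ring⟩
    · exact ⟨-(s / a), 1 - c / a, by rw [abs_neg]; exact k.le, fun _ => by rw [abs_neg]; exact k,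
        fun t => by simp [F_cons, br, h2]; ring⟩

theorem ex {a : ℝ} (h : 1 < a) {w : List Bool} (n : w ≠ []) : ∃ q, F a w q = q := by
  obtain ⟨s, c, -, h1, h2⟩ := aff h w
  have := (abs_lt.1 (h1 n)).2
  exact ⟨c / (1 - s), by rw [h2]; field_simp [(sub_pos.2 this).ne']; ring⟩

theorem sg {a : ℝ} (h : 1 < a) {w : List Bool} (n : w ≠ []) {q : ℝ} (f : F a w q = q) (t : ℝ) :
    (F a w t < t ↔ q < t) ∧ (t < F a w t ↔ t < q) := by
  obtain ⟨s, c, -, h1, h2⟩ := aff h w
  have := (abs_lt.1 (h1 n)).2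
  rw [h2] at f ⊢
  exact ⟨⟨fun k => by nlinarith, fun k => by nlinarith⟩, fun k => by nlinarith, fun k => by nlinarith⟩

theorem cont {a : ℝ} (h : 1 < a) (w : List Bool) : Continuous (F a w) := by
  obtain ⟨s, c, -, -, h2⟩ := aff h w
  rw [funext h2]; fun_prop

theorem mem {a : ℝ} (h : 1 < a) (w : List Bool) {y : ℝ} (m : y ∈ Icc (0 : ℝ) 1) :
    F a w y ∈ Icc (0 : ℝ) 1 := by
  induction w with
  | nil => exact m
  | cons b w ih =>
    have h1 : 0 ≤ F a w y / a := div_nonneg ih.1 (by linarith)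
    have h2 : F a w y / a ≤ 1 := (div_le_one (by linarith)).2 (by linarith [ih.2])
    cases b <;> simp only [F_cons, br] <;> constructor <;> simp <;> linarith

theorem good {a : ℝ} (h : 1 < a) {N : ℕ} (hN : ∀ m < N, a ^ m * (2 - a) < 1) (v : List Bool) {y : ℝ}
    {m : ℕ} (h1 : y ≤ a / 2) (h2 : a / 2 ≤ a ^ m * y) (l : m + v.length ≤ N) :
    F a v y ≤ a / 2 ∧ a / 2 ≤ a ^ (m + v.length) * F a v y ∧ (v ≠ [] → F a v y < a / 2) := by
  induction v with
  | nil => exact ⟨h1, h2, fun k => (k rfl).elim⟩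
  | cons b v ih =>
    simp only [List.length_cons] at l ⊢
    obtain ⟨i1, i2, -⟩ := ih (by omega)
    have k := hN (m + v.length) (by omega)
    have p := one_le_pow₀ (n := m + v.length) h.le
    rw [← add_assoc, pow_succ, F_cons]
    generalize a ^ (m + v.length) = P at *
    obtain ⟨z, hz⟩ : ∃ z, F a v y = a * z := ⟨F a v y / a, by field_simp⟩
    have e : a * z / a = z := by field_simp
    rw [hz] at i1 i2 ⊢
    have z1 : z ≤ 1 / 2 := by nlinarith
    have z2 : 1 / 2 ≤ P * z := by nlinarith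
    cases b <;> simp only [br, e, if_true, if_false, Bool.false_eq_true]
    · exact ⟨by linarith, by nlinarith, fun _ => by linarith⟩
    · have : 1 - z < a / 2 := by nlinarith
      have t := mul_le_mul p (show 1 / 2 ≤ 1 - z by linarith) (by norm_num) (by linarith)
      exact ⟨this.le, by nlinarith, fun _ => this⟩

theorem top {a : ℝ} (h : 1 < a) {N : ℕ} (hN : ∀ m < N, a ^ m * (2 - a) < 1) {v : List Bool}
    (n : v ≠ []) (l : v.length ≤ N) : F a v (a / 2) < a / 2 :=
  (good h hN v (m := 0) le_rfl (by simp) (by simpa using l)).2.2 n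

theorem flt {a : ℝ} (h : 1 < a) {N : ℕ} (hN : ∀ m < N, a ^ m * (2 - a) < 1) {v : List Bool}
    (n : v ≠ []) (l : v.length ≤ N) {q : ℝ} (f : F a v q = q) : q < a / 2 :=
  (sg h n f _).1.1 (top h hN n l)

theorem cyc {a q : ℝ} {p v : List Bool} (f : F a (p ++ v) q = q) :
    F a (v ++ p) (F a v q) = F a v q := by rw [F_app, ← F_app a p, f]

theorem low {a : ℝ} (h : 1 < a) {N : ℕ} (hN : ∀ m < N, a ^ m * (2 - a) < 1) {q : ℝ} (v : List Bool) :
    ∀ p : List Bool, F a (p ++ v) q = q → (p ++ v).length ≤ N →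
      a / 2 ≤ a ^ v.length * F a v q ∨ a ^ v.length * F a v q = q := by
  induction v with
  | nil => exact fun _ _ _ => Or.inr (by simp [F])
  | cons b v ih =>
    intro p f l
    rw [List.append_cons] at f l
    have k := flt h hN (by simp) (by simpa [add_comm, add_left_comm, add_assoc] using l) (cyc f)
    have i := ih _ f l
    have o := one_le_pow₀ (n := v.length) h.le
    rw [List.length_cons, pow_succ, F_cons]
    generalize a ^ v.length = P at *
    obtain ⟨z, hz⟩ : ∃ z, F a v q = a * z := ⟨F a v q / a, by field_simp⟩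
    have e : a * z / a = z := by field_simp
    rw [hz] at k i ⊢
    have z1 : z ≤ 1 / 2 := by nlinarith
    cases b <;> simp only [br, e, if_true, if_false, Bool.false_eq_true]
    · rwa [mul_assoc]
    · have t := mul_le_mul o (show 1 / 2 ≤ 1 - z by linarith) (by norm_num) (by linarith)
      exact Or.inl (by nlinarith)

theorem in01 {v : List Bool} (n : v ≠ []) {q : ℝ} (f : F 2 v q = q) : 0 ≤ q ∧ q ≤ 1 :=
  ⟨not_lt.1 fun k => (mem one_lt_two v ⟨le_rfl, zero_le_one⟩).1.not_gt ((sg one_lt_two n f 0).1.2 k),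
    not_lt.1 fun k => (mem one_lt_two v ⟨zero_le_one, le_rfl⟩).2.not_gt ((sg one_lt_two n f 1).2.2 k)⟩

theorem cmp' {a : ℝ} (h : 1 < a) {N : ℕ} (hN : ∀ m < N, a ^ m * (2 - a) < 1) (k : ℕ) :
    ∀ (u w : List Bool) (x x' y y' : ℝ), u ≠ [] → w ≠ [] → u.length ≤ N → w.length ≤ N →
      F 2 u x = x → F 2 w x' = x' → F a u y = y → F a w y' = y' → (1 / 2) ^ k < x' - x → y < y' := by
  induction k with
  | zero =>
    intro u w x x' y y' n n' _ _ f f' _ _ d
    linarith [(in01 n f).1, (in01 n' f').2, pow_zero (1 / 2 : ℝ)]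
  | succ k ih =>
    rintro (_ | ⟨b, u⟩) (_ | ⟨c, w⟩) x x' y y' n n' l l' f f' g g' d <;> try contradiction
    have f1 := cyc (p := [b]) f
    have f2 := cyc (p := [c]) f'
    have g1 := cyc (p := [b]) g
    have g2 := cyc (p := [c]) g'
    have m1 : (u ++ [b]).length ≤ N := by simpa using l
    have m2 : (w ++ [c]).length ≤ N := by simpa using l'
    have i1 := ih _ _ _ _ _ _ (by simp) (by simp) m1 m2 f1 f2 g1 g2
    have i2 := ih _ _ _ _ _ _ (by simp) (by simp) m2 m1 f2 f1 g2 g1
    have j1 := (div_lt_iff₀ (by linarith : 0 < a)).2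
      ((flt h hN (by simp) m1 g1).trans_eq (by ring : a / 2 = 1 / 2 * a))
    have j2 := (div_lt_iff₀ (by linarith : 0 < a)).2
      ((flt h hN (by simp) m2 g2).trans_eq (by ring : a / 2 = 1 / 2 * a))
    have k1 := (in01 (by simp) f1).2
    have k2 := (in01 (by simp) f2).2
    have p : (0 : ℝ) < (1 / 2) ^ k := by positivity
    rw [F_cons] at f f' g g'
    rw [← f, ← f', pow_succ] at d
    rw [← g, ← g']
    cases b <;> cases c <;> simp only [br, if_true, if_false, Bool.false_eq_true] at d ⊢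
    · exact div_lt_div_of_pos_right (i1 (by linarith)) (by linarith)
    · linarith
    · linarith
    · exact sub_lt_sub_left (div_lt_div_of_pos_right (i2 (by linarith)) (by linarith)) _

theorem cmp {a : ℝ} (h : 1 < a) {N : ℕ} (hN : ∀ m < N, a ^ m * (2 - a) < 1) {u w : List Bool}
    {x x' y y' : ℝ} (n : u ≠ []) (n' : w ≠ []) (l : u.length ≤ N) (l' : w.length ≤ N)
    (f : F 2 u x = x) (f' : F 2 w x' = x') (g : F a u y = y) (g' : F a w y' = y') (d : x < x') :
    y < y' := by
  obtain ⟨k, hk⟩ := exists_pow_lt_of_lt_one (sub_pos.2 d) (by norm_num : (1 / 2 : ℝ) < 1)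
  exact cmp' h hN k u w x x' y y' n n' l l' f f' g g' hk

end Pool.Agent.H94.Tn
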