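import Pool.Agent.H94.Tn1

set_option autoImplicit false
namespace Pool.Agent.H94.Tn
open Set Filter Topology

/-- The symmetric tent map of height `μ`. -/
noncomputable def T (μ x : ℝ) : ℝ := 2 * μ * min x (1 - x)

theorem T_mem {μ : ℝ} (h0 : 0 ≤ μ) (h1 : μ ≤ 1) {x : ℝ} (m : x ∈ Icc (0 : ℝ) 1) (k : ℕ) :
    (T μ)^[k] x ∈ Icc (0 : ℝ) 1 := by
  induction k with
  | zero => exact m
  | succ k ih =>
    rw [Function.iterate_succ_apply']
    have a1 := min_le_left ((T μ)^[k] x) (1 - (T μ)^[k] x)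
    have a2 := min_le_right ((T μ)^[k] x) (1 - (T μ)^[k] x)
    have a3 := le_min ih.1 (sub_nonneg.2 ih.2)
    generalize (T μ)^[k] x = z at *
    exact ⟨by unfold T; positivity, by unfold T; nlinarith⟩

theorem transfer {μ : ℝ} (h : 1 < 2 * μ) (h' : μ ≤ 1) {N : ℕ}
    (hN : ∀ m < N, (2 * μ) ^ m * (2 - 2 * μ) < 1) {x : ℝ} (m : x ∈ Icc (0 : ℝ) 1) :
    ∃ y ∈ Icc (0 : ℝ) 1, ∀ i ≤ N, ∀ j ≤ N,
      (T 1)^[i] x < (T 1)^[j] x → (T μ)^[i] y < (T μ)^[j] y := by
  obtain ⟨X, hX⟩ : ∃ X : ℕ → ℝ, X = fun k => (T 1)^[k] x := ⟨_, rfl⟩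
  have Xm : ∀ k, X k ∈ Icc (0 : ℝ) 1 := fun k => hX ▸ T_mem zero_le_one le_rfl m k
  obtain ⟨s, hs⟩ : ∃ s : ℕ → Bool, s = fun k => decide (1 / 2 < X k) := ⟨_, rfl⟩
  have X1 : ∀ k, X k = br 2 (s k) (X (k + 1)) := fun k => by
    have : X (k + 1) = T 1 (X k) := by simp only [hX, Function.iterate_succ_apply']
    rw [this, hs, br, T]
    by_cases c : 1 / 2 < X k
    · rw [if_pos (by simpa using c), min_eq_right (by linarith)]; ring
    · rw [if_neg (by simpa using c), min_eq_left (by linarith)]; ring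
  obtain ⟨g, hg⟩ : ∃ g : ℕ → ℕ → List Bool, g = fun k r => (List.range' k r).map s := ⟨_, rfl⟩
  have g0 : ∀ k, g k 0 = [] := fun k => by simp [hg]
  have g1 : ∀ k r, g k (r + 1) = s k :: g (k + 1) r := fun k r => by simp [hg, List.range'_succ]
  have gl : ∀ k r, (g k r).length = r := fun k r => by simp [hg]
  have ga : ∀ k j, k ≤ j → j ≤ N → g k (N - k) = g k (j - k) ++ g j (N - j) := fun k j h1 h2 => by
    obtain ⟨d, rfl⟩ := Nat.exists_eq_add_of_le h1
    simp only [hg, ← List.map_append, Nat.add_sub_cancel_left]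
    rw [List.range'_append_1]
    congr 2; omega
  have X2 : ∀ r k, X k = F 2 (g k r) (X (k + r)) := fun r => by
    induction r with
    | zero => exact fun k => by rw [g0]; rfl
    | succ r ih => exact fun k => by rw [g1, F_cons, ← add_assoc, add_right_comm, ← ih, ← X1]
  have X3 : ∀ k ≤ N, X k = F 2 (g k (N - k)) (X N) := fun k hk => by
    simpa only [Nat.add_sub_cancel' hk] using X2 (N - k) k
  have ne : ∀ k < N, g k (N - k) ≠ [] := fun k hk e => by
    have := gl k (N - k); rw [e] at this; simp at this; omega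
  have le : ∀ k, (g k (N - k)).length ≤ N := fun k => by rw [gl]; omega
  choose! p hp using fun k (hk : k < N) => ex one_lt_two (ne k hk)
  choose! q hq using fun k (hk : k < N) => ex h (ne k hk)
  have pA : ∀ k < N, X k < X N → p k < X N := fun k hk c =>
    (sg one_lt_two (ne k hk) (hp k hk) _).1.1 (X3 k hk.le ▸ c)
  have pB : ∀ k < N, X N < X k → X N < p k := fun k hk c =>
    (sg one_lt_two (ne k hk) (hp k hk) _).2.1 (X3 k hk.le ▸ c)
  obtain ⟨u, u0, u1, u2, u3, u4⟩ : ∃ u, 0 < u ∧ u ≤ 2 * μ / 2 ∧ (∀ i < N, X i < X N → q i < u) ∧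
      (∀ j < N, X N < X j → u ≤ q j) ∧ ∀ k < N, F (2 * μ) (g k (N - k)) u < 2 * μ / 2 := by
    by_cases B : ∃ j < N, X N < X j
    · obtain ⟨j, ⟨j1, j2⟩, j3⟩ := Set.exists_min_image {j | j < N ∧ X N < X j} q
        ((Set.finite_Iio N).subset fun _ h => h.1) B
      have q0 : 0 < q j := cmp h hN (u := [false]) (x := 0) (by simp) (ne j j1) (by simp; omega) (le j)
        (by simp [F, br]) (hp j j1) (by simp [F, br]) (hq j j1) ((Xm N).1.trans_lt (pB j j1 j2))
      have q1 := flt h hN (ne j j1) (le j) (hq j j1)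
      refine ⟨q j, q0, q1.le, fun i hi c => cmp h hN (ne i hi) (ne j j1) (le i) (le j) (hp i hi)
        (hp j j1) (hq i hi) (hq j j1) ((pA i hi c).trans (pB j j1 j2)), fun i hi c => j3 i ⟨hi, c⟩,
        fun k hk => ?_⟩
      rcases le_or_gt j k with c | c
      · exact flt h hN (by simp [ne k hk]) (by simp [gl]; omega) (cyc (ga j k c hk.le ▸ hq j j1))
      · rw [ga k j c.le j1.le, F_app, hq j j1]
        have := low h hN (g j (N - j)) [] (hq j j1) (le j)
        rw [hq j j1, gl] at this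
        have o := one_lt_pow₀ h (show N - j ≠ 0 by omega)
        refine (good h hN _ q1.le (this.resolve_right (by nlinarith)) (by rw [gl]; omega)).2.2
          fun e => ?_
        have := gl k (j - k); rw [e] at this; simp at this; omega
    · exact ⟨_, by linarith, le_rfl, fun i hi _ => flt h hN (ne i hi) (le i) (hq i hi),
        fun j hj c => (B ⟨j, hj, c⟩).elim, fun k hk => top h hN (ne k hk) (le k)⟩
  have e1 : ∀ᶠ t in 𝓝 u, ∀ i ∈ Iio N, (X i < X N → q i < t) ∧
      F (2 * μ) (g i (N - i)) t < 2 * μ / 2 :=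
    (eventually_all_finite (Set.finite_Iio N)).2 fun i hi => (eventually_imp_distrib_left.2
      fun c => lt_mem_nhds (u2 i hi c)).and (((cont h _).tendsto u).eventually (gt_mem_nhds (u4 i hi)))
  obtain ⟨t, ⟨t1, t0⟩, (tu : t < u)⟩ := (((e1.and (lt_mem_nhds u0)).filter_mono
    (nhdsWithin_le_nhds (s := Iio u))).and self_mem_nhdsWithin).exists
  obtain ⟨Y, hY⟩ : ∃ Y : ℕ → ℝ, Y = fun k => F (2 * μ) (g k (N - k)) t := ⟨_, rfl⟩
  have YN : Y N = t := by simp [hY, g0, F]
  have Y0 : ∀ k ≤ N, Y k / (2 * μ) < 1 / 2 := fun k hk => by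
    rw [div_lt_iff₀ (by linarith)]
    rcases hk.eq_or_lt with rfl | c
    · linarith
    · have := (t1 k c).2
      simp only [hY]; linarith
  have Y1 : ∀ k < N, Y k = br (2 * μ) (s k) (Y (k + 1)) := fun k hk => by
    simp only [hY]
    rw [show N - k = N - (k + 1) + 1 by omega, g1, F_cons]
  have Y2 : ∀ k ≤ N, (T μ)^[k] (Y 0) = Y k := fun k => by
    induction k with
    | zero => exact fun _ => rfl
    | succ k ih =>
      intro hk
      have := Y0 _ hk
      have m0 : μ ≠ 0 := by intro e; rw [e] at h; norm_num at h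
      rw [Function.iterate_succ_apply', ih (by omega), Y1 k hk, br, T]
      split_ifs
      · rw [min_eq_right (by linarith)]; field_simp; ring
      · rw [min_eq_left (by linarith)]; field_simp
  have O : ∀ d i j, i ≤ N → j ≤ N → N ≤ i + d → N ≤ j + d → X i < X j → Y i < Y j := fun d => by
    induction d with
    | zero =>
      intro i j a b c d e
      rw [show i = j by omega] at e
      exact (lt_irrefl _ e).elim
    | succ d ih =>
      intro i j a b c e l
      have ij : i ≠ j := fun r => lt_irrefl _ (r ▸ l)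
      rcases a.eq_or_lt with rfl | a'
      · rw [YN, hY]
        exact (sg h (ne j (by omega)) (hq j (by omega)) t).2.2 (tu.trans_le (u3 j (by omega) l))
      rcases b.eq_or_lt with rfl | b'
      · rw [YN, hY]
        exact (sg h (ne i a') (hq i a') t).1.2 ((t1 i a').1 l)
      have i1 := ih (i + 1) (j + 1) a' b' (by omega) (by omega)
      have i2 := ih (j + 1) (i + 1) b' a' (by omega) (by omega)
      have j1 := Y0 _ (Nat.succ_le_of_lt a')
      have j2 := Y0 _ (Nat.succ_le_of_lt b')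
      have k1 := (Xm (i + 1)).2
      have k2 := (Xm (j + 1)).2
      rw [X1 i, X1 j] at l
      rw [Y1 i a', Y1 j b']
      generalize s i = b1 at *
      generalize s j = b2 at *
      cases b1 <;> cases b2 <;> simp only [br, if_true, if_false, Bool.false_eq_true] at l ⊢
      · exact div_lt_div_of_pos_right (i1 (by linarith)) (by linarith)
      · linarith
      · linarith
      · exact sub_lt_sub_left (div_lt_div_of_pos_right (i2 (by linarith)) (by linarith)) _
  refine ⟨Y 0, hY ▸ mem h _ ⟨t0.le, by linarith⟩, fun i hi j hj c => ?_⟩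
  rw [Y2 i hi, Y2 j hj]
  exact O N i j hi hj (by omega) (by omega) (by simpa only [hX] using c)

theorem thr {μ : ℝ} (h : 1 < 2 * μ) {n : ℕ} {x : ℝ} (x0 : 0 ≤ x) (h1 : x < T μ x)
    (h2 : ∀ k ≤ n, (T μ)^[k + 2] x < x) :
    (2 * μ) ^ (n + 1) * (2 - 2 * μ) < 1 := by
  have a1 : T μ x ≤ 2 * μ * x := mul_le_mul_of_nonneg_left (min_le_left _ _) (by linarith)
  have a2 : T μ x ≤ 2 * μ * (1 - x) := mul_le_mul_of_nonneg_left (min_le_right _ _) (by linarith)
  have e : ∀ k ≤ n, (T μ)^[k + 2] x = (2 * μ) ^ (k + 1) * (1 - T μ x) := fun k => by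
    induction k with
    | zero =>
      intro hk
      have := h2 0 hk
      change T μ (T μ x) < x at this
      change T μ (T μ x) = _
      generalize T μ x = y at *
      rw [T] at this ⊢
      rcases le_total y (1 - y) with c | c
      · rw [min_eq_left c] at this; nlinarith
      · rw [min_eq_right c]; ring
    | succ k ih =>
      intro hk
      have b1 := h2 k (by omega)
      have b2 := h2 (k + 1) hk
      rw [Function.iterate_succ_apply'] at b2 ⊢
      rw [pow_succ, mul_right_comm, ← ih (by omega)]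
      generalize (T μ)^[k + 2] x = z at *
      rw [T] at b2 ⊢
      rcases le_total z (1 - z) with c | c
      · rw [min_eq_left c]; ring
      · rw [min_eq_right c] at b2; nlinarith
  have b := h2 n le_rfl
  rw [e n le_rfl] at b
  have o := one_le_pow₀ (n := n + 1) h.le
  generalize (2 * μ) ^ (n + 1) = P at *
  generalize T μ x = y at *
  have y1 : y ≤ μ := by nlinarith
  obtain ⟨z, rfl⟩ : ∃ z, y = 2 * μ * z := ⟨y / (2 * μ), (mul_div_cancel₀ _ (by linarith)).symm⟩
  have z1 : z ≤ 1 - x := le_of_mul_le_mul_left a2 (by linarith)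
  have z2 : z ≤ 1 / 2 := by nlinarith
  nlinarith [mul_nonneg (sub_nonneg.2 z2) (show 0 ≤ P * (2 * μ) - 1 by nlinarith)]

/-- `π` is the order pattern of some orbit segment of `f` starting in `[0,1]`. -/
def Allowed (f : ℝ → ℝ) {n : ℕ} (π : Equiv.Perm (Fin n)) : Prop :=
  ∃ x ∈ Icc (0 : ℝ) 1, Function.Injective (fun i : Fin n => f^[i] x) ∧
    ∀ i j : Fin n, π i < π j ↔ f^[i] x < f^[j] x

/-- `π` is `μ`-forbidden. -/
def Forbidden (μ : ℝ) {n : ℕ} (π : Equiv.Perm (Fin n)) : Prop := Allowed (T 1) π ∧ ¬ Allowed (T μ) π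

/-- `σ` is `(n-1) n 1 2 ... (n-2)`, positions and values numbered from `0`. -/
def IsSigma {n : ℕ} (σ : Equiv.Perm (Fin n)) : Prop :=
  ∀ i : Fin n, (σ i : ℕ) = if (i : ℕ) < 2 then n - 2 + i else i - 2

theorem all {μ : ℝ} (h : 1 < 2 * μ) (h' : μ ≤ 1) {N : ℕ}
    (hN : ∀ m < N, (2 * μ) ^ m * (2 - 2 * μ) < 1) (π : Equiv.Perm (Fin (N + 1))) :
    ¬ Forbidden μ π := by
  rintro ⟨⟨x, m, -, c⟩, k⟩
  obtain ⟨y, my, o⟩ := transfer h h' hN m
  have p : ∀ i j : Fin (N + 1), π i < π j → (T μ)^[i] y < (T μ)^[j] y := fun i j l =>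
    o i (Nat.le_of_lt_succ i.2) j (Nat.le_of_lt_succ j.2) ((c i j).1 l)
  refine k ⟨y, my, fun i j e => π.injective ?_, fun i j => ⟨p i j, fun l => ?_⟩⟩
  · exact le_antisymm (not_lt.1 fun l => (p _ _ l).ne' e) (not_lt.1 fun l => (p _ _ l).ne e)
  · rcases lt_trichotomy (π i) (π j) with a | a | a
    · exact a
    · rw [π.injective a] at l; exact (lt_irrefl _ l).elim
    · exact ((p _ _ a).not_gt l).elim

theorem main {μ : ℝ} (h : 1 / 2 < μ) (h' : μ < 1) {n : ℕ} {π : Equiv.Perm (Fin n)}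
    (f : Forbidden μ π) : 3 ≤ n ∧ (∃ σ : Equiv.Perm (Fin n), IsSigma σ) ∧
      ∀ σ : Equiv.Perm (Fin n), IsSigma σ → ¬ Allowed (T μ) σ := by
  have a : 1 < 2 * μ := by linarith
  have n3 : 3 ≤ n := by
    by_contra c
    rcases n with _ | N
    · exact f.2 ⟨0, ⟨le_rfl, zero_le_one⟩, fun i => i.elim0, fun i => i.elim0⟩
    · exact all a h'.le (fun m hm => by rw [show m = 0 by omega]; norm_num; linarith) π f
  obtain ⟨r, rfl⟩ : ∃ r, n = r + 3 := ⟨n - 3, by omega⟩
  refine ⟨n3, ⟨Equiv.subRight 2, fun i => ?_⟩, fun σ hσ ⟨x, m, _, c⟩ => all a h'.le (N := r + 2)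
    (fun k hk => ?_) π f⟩
  · have := i.2
    rw [Equiv.subRight_apply, Fin.sub_def]
    change (r + 3 - 2 + i) % (r + 3) = _
    split_ifs with c
    · exact Nat.mod_eq_of_lt (by omega)
    · rw [show r + 3 - 2 + i = i - 2 + (r + 3) by omega, Nat.add_mod_right, Nat.mod_eq_of_lt (by omega)]
  have t := thr a (n := r) m.1 ((c 0 1).1 (by rw [Fin.lt_def, hσ, hσ]; simp)) fun k hk =>
    (c ⟨k + 2, by omega⟩ 0).1 (by rw [Fin.lt_def, hσ, hσ]; simp; omega)
  exact (mul_le_mul_of_nonneg_right (pow_le_pow_right₀ a.le (by omega)) (by linarith)).trans_lt t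

end Pool.Agent.H94.Tn
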