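import Mathlib

set_option autoImplicit false

open Filter Topology NormedSpace

namespace Pool.Agent.H94.UO

theorem curve {E T : Type*} [NormedAddCommGroup E] [NormedSpace ℝ E] [CompleteSpace E]
    [NormedAddCommGroup T] [NormedSpace ℝ T] [FiniteDimensional ℝ T]
    (G : E → T) (L : E →L[ℝ] T) (hG : HasStrictFDerivAt G L 0) (H : Submodule ℝ T)
    (hH : ∀ e, G e ∈ H) (hs : ∀ R ∈ H, ∃ e, L e = R) (ξ : E) (hξ : L ξ = 0) :
    ∃ c : ℝ → E, HasDerivAt c ξ 0 ∧ c 0 = 0 ∧ ∀ᶠ t in 𝓝 (0:ℝ), G (c t) = G 0 := by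
  obtain ⟨H', hc⟩ := Submodule.exists_isCompl H
  let π : T →L[ℝ] H := LinearMap.toContinuousLinearMap (H.linearProjOfIsCompl H' hc)
  have hπ : ∀ R (hR : R ∈ H), π R = ⟨R, hR⟩ := fun R hR =>
    Submodule.linearProjOfIsCompl_apply_left hc ⟨R, hR⟩
  have h1 : HasStrictFDerivAt (fun e => π (G e)) (π.comp L) 0 :=
    π.hasStrictFDerivAt.comp 0 hG
  have h2 : (π.comp L).range = ⊤ := by
    rw [eq_top_iff]
    rintro ⟨R, hR⟩ -
    obtain ⟨e, he⟩ := hs R hR
    exact ⟨e, by simp [he, hπ R hR]⟩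
  have hk : ξ ∈ (π.comp L).ker := by simp [hξ]
  let k : (π.comp L).ker := ⟨ξ, hk⟩
  refine ⟨fun t => h1.implicitFunction _ _ h2 (π (G 0)) (t • k), ?_, ?_, ?_⟩
  · have h3 := (h1.to_implicitFunction h2).hasFDerivAt
    have h4 : HasDerivAt (fun t : ℝ => t • k) k 0 := by
      have := (hasDerivAt_id (0:ℝ)).smul_const k
      rwa [one_smul] at this
    have h5 := HasFDerivAt.comp_hasDerivAt_of_eq (0:ℝ) h3 h4 (zero_smul ℝ k).symm
    exact h5
  · show h1.implicitFunction _ _ h2 (π (G 0)) ((0:ℝ) • k) = 0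
    rw [zero_smul]
    exact h1.implicitFunction_apply_image h2
  · have h3 := h1.map_implicitFunction_eq h2
    have h4 : Tendsto (fun t : ℝ => ((π (G 0), t • k) : H × (π.comp L).ker)) (𝓝 0)
        (𝓝 (π (G 0), 0)) := by
      have : Continuous (fun t : ℝ => ((π (G 0), t • k) : H × (π.comp L).ker)) := by fun_prop
      have h6 := this.tendsto 0
      rwa [zero_smul] at h6
    filter_upwards [h4.eventually h3] with t ht
    have h7 : ∀ e, (π (G e) : T) = G e := fun e => by rw [hπ _ (hH e)]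
    have h8 := congrArg Subtype.val ht
    rw [h7, h7] at h8
    exact h8

section
variable {A : Type*} [NormedRing A] [NormedAlgebra ℝ A] [NormedAlgebra ℚ A] [CompleteSpace A]
  [StarRing A] [ContinuousStar A] [StarModule ℝ A] [FiniteDimensional ℝ A]

omit [NormedAlgebra ℚ A] [StarRing A] [ContinuousStar A] [StarModule ℝ A] [FiniteDimensional ℝ A] in
theorem mul_exp_of (Q s : A) (h : Q * s = 0) : Q * exp s = Q := by
  have h1 := (exp_series_hasSum_exp' (𝕂 := ℝ) s).mul_left Q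
  have h2 : HasSum (fun n : ℕ => Q * (((n.factorial : ℝ)⁻¹) • s ^ n)) Q := by
    have := hasSum_single (f := fun n : ℕ => Q * (((n.factorial : ℝ)⁻¹) • s ^ n)) 0 (by
      intro n hn
      obtain ⟨m, rfl⟩ := Nat.exists_eq_succ_of_ne_zero hn
      rw [pow_succ', mul_smul_comm, ← mul_assoc, h, zero_mul, smul_zero])
    simpa using this
  exact h1.unique h2

omit [NormedAlgebra ℚ A] [StarRing A] [ContinuousStar A] [StarModule ℝ A] [FiniteDimensional ℝ A] in
theorem exp_mul_of (Q s : A) (h : s * Q = 0) : exp s * Q = Q := by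
  have h1 := (exp_series_hasSum_exp' (𝕂 := ℝ) s).mul_right Q
  have h2 : HasSum (fun n : ℕ => (((n.factorial : ℝ)⁻¹) • s ^ n) * Q) Q := by
    have := hasSum_single (f := fun n : ℕ => (((n.factorial : ℝ)⁻¹) • s ^ n) * Q) 0 (by
      intro n hn
      obtain ⟨m, rfl⟩ := Nat.exists_eq_succ_of_ne_zero hn
      rw [pow_succ, smul_mul_assoc, mul_assoc, h, mul_zero, smul_zero])
    simpa using this
  exact h1.unique h2

theorem supp {B : Type*} [Ring B] (P u u' W : B) (hP : P * P = P)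
    (h1 : (1 - P) * u = 1 - P) (h2 : u * (1 - P) = 1 - P)
    (h3 : (1 - P) * u' = 1 - P) (h4 : u' * (1 - P) = 1 - P) (hW : P * W = W * P) :
    P * (u * W * u') * P = u * W * u' - (1 - P) * W := by
  have e1 : P * u = u * P := by
    have : P * u = u - (1 - P) * u := by noncomm_ring
    rw [this, h1]; conv_lhs => rw [← h2]
    noncomm_ring
  have e2 : P * u' = u' * P := by
    have : P * u' = u' - (1 - P) * u' := by noncomm_ring
    rw [this, h3]; conv_lhs => rw [← h4]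
    noncomm_ring
  have e3 : P * (u * W * u') = u * W * u' * P := by
    rw [← mul_assoc, ← mul_assoc, e1, mul_assoc u, hW, mul_assoc, mul_assoc, e2]
    noncomm_ring
  have e4 : u * W * u' * (1 - P) = (1 - P) * W := by
    have : W * (1 - P) = (1 - P) * W := by
      rw [mul_sub, sub_mul, hW]; simp
    rw [mul_assoc, h4, mul_assoc, this, ← mul_assoc, h2]
  rw [e3, mul_assoc _ P P, hP, ← e4]
  noncomm_ring

theorem move (tr : A →ₗ[ℝ] ℝ) (htr : ∀ a b, tr (a * b) = tr (b * a))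
    (P X Y Z1 Z2 : A) (hPs : star P = P) (hP : P * P = P) (hX : star X = X) (hY : star Y = Y)
    (hPX : P * X = X * P) (hPY : P * Y = Y * P) (hZ1 : star Z1 = Z1) (hZ2 : star Z2 = Z2)
    (hP1 : P * Z1 * P = Z1) (hP2 : P * Z2 * P = Z2) (ht : tr Z1 = tr Z2)
    (hs : ∀ R, star R = R → P * R * P = R → tr R = 0 → ∃ (S1 S2 : A) (η : ℝ),
      star S1 = -S1 ∧ P * S1 * P = S1 ∧ star S2 = -S2 ∧ P * S2 * P = S2 ∧
      (S1 * X - X * S1) + (S2 * Y - Y * S2) + η • (Z1 - Z2) = R)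
    (S1 S2 : A) (η0 : ℝ) (a1 : star S1 = -S1) (a2 : P * S1 * P = S1) (a3 : star S2 = -S2)
    (a4 : P * S2 * P = S2) (a5 : (S1 * X - X * S1) + (S2 * Y - Y * S2) + η0 • (Z1 - Z2) = 0) :
    ∃ (U V : ℝ → A) (η : ℝ → ℝ), (∀ t, U t ∈ unitary A) ∧ (∀ t, V t ∈ unitary A) ∧
      HasDerivAt U S1 0 ∧ HasDerivAt V S2 0 ∧ HasDerivAt η η0 0 ∧ U 0 = 1 ∧ V 0 = 1 ∧ η 0 = 0 ∧
      ∀ᶠ t in 𝓝 (0:ℝ), U t * (X + η t • Z1) * star (U t) + V t * (Y - η t • Z2) * star (V t)
        = X + Y := by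
  let sk0 : A →ₗ[ℝ] A :=
    { toFun := fun a => P * (a - star a) * P
      map_add' := by intro a b; simp only [star_add]; noncomm_ring
      map_smul' := by
        intro c a; simp only [star_smul, star_trivial, RingHom.id_apply, ← smul_sub,
          mul_smul_comm, smul_mul_assoc] }
  let sk : A →L[ℝ] A := LinearMap.toContinuousLinearMap sk0
  have hsk : ∀ a, sk a = P * (a - star a) * P := fun a => rfl
  have sk_star : ∀ a, star (sk a) = -sk a := by
    intro a; simp only [hsk, star_mul, star_sub, star_star, hPs]; noncomm_ring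
  have sk_half : ∀ S, star S = -S → P * S * P = S → sk ((1/2:ℝ) • S) = S := by
    intro S h1 h2
    rw [map_smul, hsk, h1, sub_neg_eq_add, ← two_smul ℝ S, mul_smul_comm, smul_mul_assoc, h2,
      smul_smul]
    norm_num
  have skl : ∀ a, (1 - P) * sk a = 0 := by
    intro a; rw [hsk, ← mul_assoc, ← mul_assoc, sub_mul, hP]; simp
  have skr : ∀ a, sk a * (1 - P) = 0 := by
    intro a; rw [hsk, mul_assoc, mul_sub P 1 P, hP]; simp
  have hun : ∀ a, exp (sk a) ∈ unitary A := fun a =>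
    exp_mem_unitary_of_mem_skewAdjoint (skewAdjoint.mem_iff.2 (sk_star a))
  have hst : ∀ a, star (exp (sk a)) = exp (-sk a) := by intro a; rw [star_exp, sk_star]
  let G : A × A × ℝ → A := fun e => exp (sk e.1) * (X + e.2.2 • Z1) * exp (-sk e.1)
    + exp (sk e.2.1) * (Y - e.2.2 • Z2) * exp (-sk e.2.1) - (X + Y)
  have e0 : ∀ (K : (A × A × ℝ) →L[ℝ] A), HasStrictFDerivAt (fun e => exp (K e)) K 0 := by
    intro K
    have h1 : HasStrictFDerivAt exp (1 : A →L[ℝ] A) (K 0) := by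
      rw [map_zero]; exact hasStrictFDerivAt_exp_zero
    have := h1.comp (0 : A × A × ℝ) K.hasStrictFDerivAt
    rw [ContinuousLinearMap.one_def, ContinuousLinearMap.id_comp] at this
    exact this
  let K1 : (A × A × ℝ) →L[ℝ] A := sk.comp (ContinuousLinearMap.fst ℝ _ _)
  let K2 : (A × A × ℝ) →L[ℝ] A :=
    sk.comp ((ContinuousLinearMap.fst ℝ _ _).comp (ContinuousLinearMap.snd ℝ _ _))
  let K3 : (A × A × ℝ) →L[ℝ] ℝ := (ContinuousLinearMap.snd ℝ _ _).comp (ContinuousLinearMap.snd ℝ _ _)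
  have d1 : HasStrictFDerivAt (fun e : A × A × ℝ => X + e.2.2 • Z1) (K3.smulRight Z1) 0 :=
    (K3.hasStrictFDerivAt.smul_const Z1).const_add X
  have d2 : HasStrictFDerivAt (fun e : A × A × ℝ => Y - e.2.2 • Z2) (-K3.smulRight Z2) 0 :=
    (K3.hasStrictFDerivAt.smul_const Z2).const_sub Y
  have hG0 := ((((e0 K1).mul' d1).mul' (e0 (-K1))).add
    (((e0 K2).mul' d2).mul' (e0 (-K2)))).sub_const (X + Y)
  obtain ⟨L, hG, hL⟩ : ∃ L : (A × A × ℝ) →L[ℝ] A, HasStrictFDerivAt G L 0 ∧ ∀ e, L e =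
      (sk e.1 * X - X * sk e.1) + (sk e.2.1 * Y - Y * sk e.2.1) + e.2.2 • (Z1 - Z2) := by
    refine ⟨_, hG0, ?_⟩
    intro e
    simp [K1, K2, K3, smul_sub]
    abel
  let H : Submodule ℝ A :=
    { carrier := {R | star R = R ∧ P * R * P = R ∧ tr R = 0}
      add_mem' := by
        rintro a b ⟨h1, h2, h3⟩ ⟨h4, h5, h6⟩
        refine ⟨by rw [star_add, h1, h4], by rw [mul_add, add_mul, h2, h5], by simp [h3, h6]⟩
      zero_mem' := by simp
      smul_mem' := by
        rintro c a ⟨h1, h2, h3⟩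
        refine ⟨by rw [star_smul, h1]; simp, by rw [mul_smul_comm, smul_mul_assoc, h2],
          by simp [h3]⟩ }
  have q1 : P * Z1 = Z1 := by rw [← hP1, ← mul_assoc, ← mul_assoc, hP]
  have q2 : Z1 * P = Z1 := by rw [← hP1, mul_assoc, hP]
  have q3 : P * Z2 = Z2 := by rw [← hP2, ← mul_assoc, ← mul_assoc, hP]
  have q4 : Z2 * P = Z2 := by rw [← hP2, mul_assoc, hP]
  have hH : ∀ e, G e ∈ H := by
    intro e
    refine ⟨?_, ?_, ?_⟩
    · simp only [G, star_sub, star_add, star_mul, star_smul, star_trivial, hX, hY, hZ1, hZ2,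
        ← hst, star_star, mul_assoc]
    · have n1 : ∀ a, (1 - P) * -sk a = 0 := by intro a; rw [mul_neg, skl, neg_zero]
      have n2 : ∀ a, -sk a * (1 - P) = 0 := by intro a; rw [neg_mul, skr, neg_zero]
      have s1 := supp P (exp (sk e.1)) (exp (-sk e.1)) (X + e.2.2 • Z1) hP
        (mul_exp_of _ _ (skl _)) (exp_mul_of _ _ (skr _)) (mul_exp_of _ _ (n1 _))
        (exp_mul_of _ _ (n2 _)) (by
          rw [mul_add, add_mul, hPX, mul_smul_comm, smul_mul_assoc, q1, q2])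
      have s2 := supp P (exp (sk e.2.1)) (exp (-sk e.2.1)) (Y - e.2.2 • Z2) hP
        (mul_exp_of _ _ (skl _)) (exp_mul_of _ _ (skr _)) (mul_exp_of _ _ (n1 _))
        (exp_mul_of _ _ (n2 _)) (by
          rw [mul_sub, sub_mul, hPY, mul_smul_comm, smul_mul_assoc, q3, q4])
      have s3 : P * (X + Y) * P = P * (X + Y) := by
        rw [mul_add, add_mul, mul_assoc, ← hPX, mul_assoc, ← hPY, ← mul_assoc, ← mul_assoc, hP]
      have s4 : (1 - P) * (X + e.2.2 • Z1) = (1 - P) * X := by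
        rw [mul_add, mul_smul_comm, sub_mul _ _ Z1, q1]; simp
      have s5 : (1 - P) * (Y - e.2.2 • Z2) = (1 - P) * Y := by
        rw [mul_sub, mul_smul_comm, sub_mul _ _ Z2, q3]; simp
      simp only [G]
      rw [mul_sub, sub_mul, s3, mul_add, add_mul, s1, s2, s4, s5]
      noncomm_ring
    · have t1 : ∀ a W, tr (exp (sk a) * W * exp (-sk a)) = tr W := by
        intro a W
        rw [htr, ← mul_assoc, ← hst, (Unitary.mem_iff.1 (hun a)).1, one_mul]
      simp only [G, map_sub, map_add, t1, map_smul, ht]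
      ring
  obtain ⟨c, hc1, hc2, hc3⟩ := curve G L hG H hH (by
    rintro R ⟨h1, h2, h3⟩
    obtain ⟨T1, T2, η, b1, b2, b3, b4, b5⟩ := hs R h1 h2 h3
    exact ⟨((1/2:ℝ) • T1, (1/2:ℝ) • T2, η), by rw [hL, sk_half _ b1 b2, sk_half _ b3 b4, b5]⟩)
    ((1/2:ℝ) • S1, (1/2:ℝ) • S2, η0) (by rw [hL, sk_half _ a1 a2, sk_half _ a3 a4, a5])
  refine ⟨fun t => exp (sk (c t).1), fun t => exp (sk (c t).2.1), fun t => (c t).2.2,
    fun t => hun _, fun t => hun _, ?_, ?_, ?_, by simp [hc2], by simp [hc2], by simp [hc2], ?_⟩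
  · have := HasFDerivAt.comp_hasDerivAt_of_eq (0:ℝ) (e0 K1).hasFDerivAt hc1 hc2.symm
    rw [← sk_half _ a1 a2]
    exact this
  · have := HasFDerivAt.comp_hasDerivAt_of_eq (0:ℝ) (e0 K2).hasFDerivAt hc1 hc2.symm
    rw [← sk_half _ a3 a4]
    exact this
  · exact K3.hasFDerivAt.comp_hasDerivAt (0:ℝ) hc1
  · filter_upwards [hc3] with t ht
    have g0 : G 0 = 0 := by simp [G]
    rw [g0] at ht
    rw [hst, hst]
    exact sub_eq_zero.1 ht
end

end Pool.Agent.H94.UO
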