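import Pool.Agent.H94.UO1

set_option autoImplicit false

open Filter Topology NormedSpace Matrix
open scoped ComplexOrder

namespace Pool.Agent.H94.UO

theorem surj {A : Type*} [Ring A] [Algebra ℝ A] [StarRing A] [StarModule ℝ A]
    [FiniteDimensional ℝ A] (tr : A →ₗ[ℝ] ℝ) (htr : ∀ a b, tr (a * b) = tr (b * a))
    (hpos : ∀ a, tr (star a * a) = 0 → a = 0)
    (P X Y Z : A) (hP : P * P = P) (hX : star X = X) (hY : star Y = Y)
    (hPX : P * X = X * P) (hPY : P * Y = Y * P) (hZ : star Z = Z) (hPZ : P * Z * P = Z)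
    (ht : tr Z = 0)
    (hirr : ∀ R, star R = R → P * R * P = R → tr R = 0 → R * X = X * R → R * Y = Y * R →
      tr (R * Z) = 0 → R = 0) :
    ∀ R, star R = R → P * R * P = R → tr R = 0 → ∃ (S1 S2 : A) (η : ℝ),
      star S1 = -S1 ∧ P * S1 * P = S1 ∧ star S2 = -S2 ∧ P * S2 * P = S2 ∧
      (S1 * X - X * S1) + (S2 * Y - Y * S2) + η • Z = R := by
  let H : Submodule ℝ A :=
    { carrier := {R | star R = R ∧ P * R * P = R ∧ tr R = 0}
      add_mem' := by
        rintro a b ⟨h1, h2, h3⟩ ⟨h4, h5, h6⟩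
        refine ⟨by rw [star_add, h1, h4], by rw [mul_add, add_mul, h2, h5], by simp [h3, h6]⟩
      zero_mem' := by simp
      smul_mem' := by
        rintro c a ⟨h1, h2, h3⟩
        refine ⟨by rw [star_smul, h1]; simp, by rw [mul_smul_comm, smul_mul_assoc, h2],
          by simp [h3]⟩ }
  let L : Submodule ℝ A :=
    { carrier := {R | ∃ (S1 S2 : A) (η : ℝ),
        star S1 = -S1 ∧ P * S1 * P = S1 ∧ star S2 = -S2 ∧ P * S2 * P = S2 ∧
        (S1 * X - X * S1) + (S2 * Y - Y * S2) + η • Z = R}
      add_mem' := by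
        rintro a b ⟨S1, S2, η, h1, h2, h3, h4, rfl⟩ ⟨T1, T2, θ, g1, g2, g3, g4, rfl⟩
        refine ⟨S1 + T1, S2 + T2, η + θ, by rw [star_add, h1, g1]; abel,
          by rw [mul_add, add_mul, h2, g2], by rw [star_add, h3, g3]; abel,
          by rw [mul_add, add_mul, h4, g4], ?_⟩
        rw [add_smul]; noncomm_ring
      zero_mem' := ⟨0, 0, 0, by simp, by simp, by simp, by simp, by simp⟩
      smul_mem' := by
        rintro c a ⟨S1, S2, η, h1, h2, h3, h4, rfl⟩
        refine ⟨c • S1, c • S2, c * η, by rw [star_smul, h1]; simp,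
          by rw [mul_smul_comm, smul_mul_assoc, h2], by rw [star_smul, h3]; simp,
          by rw [mul_smul_comm, smul_mul_assoc, h4], ?_⟩
        simp only [smul_add, smul_sub, mul_smul_comm, smul_mul_assoc, mul_smul] }
  have pl : ∀ S, P * S * P = S → P * S = S := by
    intro S h; rw [← h, ← mul_assoc, ← mul_assoc, hP]
  have pr : ∀ S, P * S * P = S → S * P = S := by
    intro S h; rw [← h, mul_assoc, hP]
  have cm : ∀ S T, P * S * P = S → P * T = T * P → P * (S * T - T * S) * P = S * T - T * S := by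
    intro S T h1 h2
    rw [mul_sub, sub_mul, ← mul_assoc, pl S h1, mul_assoc S, ← h2, ← mul_assoc, pr S h1,
      ← mul_assoc, h2, mul_assoc T, pl S h1, mul_assoc T, pr S h1]
  have hLH : L ≤ H := by
    rintro _ ⟨S1, S2, η, h1, h2, h3, h4, rfl⟩
    refine ⟨?_, ?_, ?_⟩
    · simp only [star_add, star_sub, star_mul, star_smul, star_trivial, h1, h3, hX, hY, hZ]
      noncomm_ring
    · rw [mul_add, mul_add, add_mul, add_mul, cm _ _ h2 hPX, cm _ _ h4 hPY, mul_smul_comm,
        smul_mul_assoc, hPZ]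
    · simp [htr S1 X, htr S2 Y, ht]
  let φ : H →ₗ[ℝ] Module.Dual ℝ L :=
    { toFun := fun R => (tr.comp (LinearMap.mulLeft ℝ (R : A))).comp L.subtype
      map_add' := by intro a b; ext w; simp [add_mul]
      map_smul' := by intro c a; ext w; simp }
  have key : ∀ R T : A, star R = R → star T = T →
      tr (R * ((R * T - T * R) * T - T * (R * T - T * R))) = 0 → R * T = T * R := by
    intro R T h1 h2 h3
    have : tr (star (R * T - T * R) * (R * T - T * R)) = 0 := by
      rw [← h3, star_sub, star_mul, star_mul, h1, h2, sub_mul, mul_sub R, map_sub, map_sub,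
        ← mul_assoc R _ T, htr _ T, mul_assoc, mul_assoc]
    exact sub_eq_zero.1 (hpos _ this)
  have hφ : Function.Injective φ := by
    rw [injective_iff_map_eq_zero]
    rintro ⟨R, h1, h2, h3⟩ h
    have hh : ∀ w ∈ L, tr (R * w) = 0 := fun w hw => LinearMap.congr_fun h ⟨w, hw⟩
    have sk : ∀ T, star T = T → star (R * T - T * R) = -(R * T - T * R) := by
      intro T hT; rw [star_sub, star_mul, star_mul, h1, hT]; abel
    apply Subtype.ext
    refine hirr R h1 h2 h3 (key R X h1 hX (hh _ ?_)) (key R Y h1 hY (hh _ ?_)) (hh _ ?_)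
    · exact ⟨_, 0, 0, sk X hX, cm _ _ h2 hPX, by simp, by simp, by simp⟩
    · exact ⟨0, _, 0, by simp, by simp, sk Y hY, cm _ _ h2 hPY, by simp⟩
    · exact ⟨0, 0, 1, by simp, by simp, by simp, by simp, by simp⟩
  have hfr := LinearMap.finrank_le_finrank_of_injective hφ
  rw [Subspace.dual_finrank_eq] at hfr
  have := Submodule.eq_of_le_of_finrank_le hLH hfr
  intro R h1 h2 h3
  have hR : R ∈ H := ⟨h1, h2, h3⟩
  rw [← this] at hR
  exact hR

variable {ι : Type*} [Fintype ι] [DecidableEq ι]

/-- real diagonal matrix -/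
noncomputable def D (x : ι → ℝ) : Matrix ι ι ℂ := diagonal fun i => (x i : ℂ)

theorem D_star (x : ι → ℝ) : star (D x) = D x := by
  simp [D, star_eq_conjTranspose, diagonal_conjTranspose, Pi.star_def]

theorem D_mul (x y : ι → ℝ) : D x * D y = D (fun i => x i * y i) := by
  simp [D, diagonal_mul_diagonal]

theorem D_add (x y : ι → ℝ) : D x + D y = D (fun i => x i + y i) := by
  simp [D, diagonal_add]

theorem D_sub (x y : ι → ℝ) : D x - D y = D (fun i => x i - y i) := by
  simp [D, diagonal_sub]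

theorem D_one : D (fun _ : ι => (1:ℝ)) = 1 := by simp [D]

theorem D_smul (c : ℝ) (x : ι → ℝ) : c • D x = D (fun i => c * x i) := by
  ext i j; by_cases h : i = j <;> simp [D, diagonal_apply, h]

theorem D_psd {x : ι → ℝ} (h : ∀ i, 0 ≤ x i) : (D x).PosSemidef :=
  PosSemidef.diagonal fun i => by simpa using h i

theorem spec {R : Matrix ι ι ℂ} (h : R.IsHermitian) :
    R = (h.eigenvectorUnitary : Matrix ι ι ℂ) * D h.eigenvalues
      * star (h.eigenvectorUnitary : Matrix ι ι ℂ) := by
  conv_lhs => rw [h.spectral_theorem, Unitary.conjStarAlgAut_apply]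
  rfl

theorem comm_fun (U Z : Matrix ι ι ℂ) (hU : U ∈ unitary (Matrix ι ι ℂ)) (d : ι → ℝ) (g : ℝ → ℝ)
    (h : (U * D d * star U) * Z = Z * (U * D d * star U)) :
    (U * D (fun i => g (d i)) * star U) * Z = Z * (U * D (fun i => g (d i)) * star U) := by
  obtain ⟨h1, h2⟩ := Unitary.mem_iff.1 hU
  have e : D d * (star U * Z * U) = (star U * Z * U) * D d := by
    have := congrArg (fun T => star U * T * U) h
    simp only [← mul_assoc, h1, one_mul] at this
    rw [← mul_assoc, ← mul_assoc, this, mul_assoc _ (star U) U, h1, mul_one]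
  have e2 : D (fun i => g (d i)) * (star U * Z * U) = (star U * Z * U) * D (fun i => g (d i)) := by
    ext i j
    have := congrFun (congrFun e i) j
    simp only [D, diagonal_mul, mul_diagonal] at this ⊢
    by_cases hz : (star U * Z * U) i j = 0
    · simp [hz]
    · rw [mul_comm] at this
      have := mul_left_cancel₀ hz this
      rw [Complex.ofReal_inj.1 this, mul_comm]
  have := congrArg (fun T => U * T * star U) e2
  simp only [← mul_assoc, h2, one_mul] at this
  rw [mul_assoc _ U (star U), h2, mul_one] at this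
  rw [this]; simp only [mul_assoc]

theorem irr (X Y : Matrix ι ι ℂ) (Q : Matrix ι ι ℂ → Prop) (h1 : Q 1)
    (hs : ∀ P E : Matrix ι ι ℂ, star E = E → E * E = E → E * X = X * E → E * Y = Y * E →
      P * E = E * P → Q P → Q (P * E) ∨ Q (P * (1 - E))) :
    ∃ P : Matrix ι ι ℂ, star P = P ∧ P * P = P ∧ P * X = X * P ∧ P * Y = Y * P ∧ Q P ∧
      ∀ R, star R = R → P * R * P = R → R * X = X * R → R * Y = Y * R → ∃ r : ℝ, R = r • P := by
  let S : Set (Submodule ℂ (ι → ℂ)) := {W | ∃ P : Matrix ι ι ℂ, star P = P ∧ P * P = P ∧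
    P * X = X * P ∧ P * Y = Y * P ∧ Q P ∧ W = LinearMap.range (Matrix.toLin' P)}
  obtain ⟨W, ⟨P, a1, a2, a3, a4, a5, rfl⟩, hmin⟩ := WellFounded.has_min
    (wellFounded_lt (α := Submodule ℂ (ι → ℂ))) S ⟨_, 1, by simp, by simp, by simp, by simp, h1, rfl⟩
  refine ⟨P, a1, a2, a3, a4, a5, ?_⟩
  have hm : ∀ E : Matrix ι ι ℂ, star E = E → E * E = E → E * X = X * E → E * Y = Y * E →
      P * E = E * P → Q (P * E) → E * P = P := by
    intro E b1 b2 b3 b4 b5 b6
    have hle : LinearMap.range (Matrix.toLin' (P * E)) ≤ LinearMap.range (Matrix.toLin' P) := by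
      rw [Matrix.toLin'_mul]; exact LinearMap.range_comp_le_range _ _
    have heq := eq_of_le_of_not_lt hle (hmin _ ⟨P * E, by rw [star_mul, a1, b1, b5],
      by rw [mul_assoc, ← mul_assoc E, ← b5, mul_assoc, b2, ← mul_assoc, a2],
      by rw [mul_assoc, b3, ← mul_assoc, a3, mul_assoc],
      by rw [mul_assoc, b4, ← mul_assoc, a4, mul_assoc], b6, rfl⟩)
    apply Matrix.toLin'.injective
    apply LinearMap.ext
    intro w
    have : Matrix.toLin' P w ∈ LinearMap.range (Matrix.toLin' (P * E)) := by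
      rw [heq]; exact ⟨w, rfl⟩
    obtain ⟨z, hz⟩ := this
    rw [Matrix.toLin'_mul, LinearMap.comp_apply, ← hz, ← LinearMap.comp_apply,
      ← Matrix.toLin'_mul, b5, ← mul_assoc, b2]
  intro R c1 c2 c3 c4
  have hR : R.IsHermitian := c1
  have hsp := spec hR
  set U : Matrix ι ι ℂ := (hR.eigenvectorUnitary : Matrix ι ι ℂ) with hU
  have hUu : U ∈ unitary (Matrix ι ι ℂ) := hR.eigenvectorUnitary.2
  obtain ⟨u1, u2⟩ := Unitary.mem_iff.1 hUu
  set d := hR.eigenvalues
  have pl : P * R = R := by rw [← c2, ← mul_assoc, ← mul_assoc, a2]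
  have pr : R * P = R := by rw [← c2, mul_assoc, a2]
  let E : ι → Matrix ι ι ℂ := fun i => U * D (fun j => if d j = d i then 1 else 0) * star U
  have cE : ∀ i Z, R * Z = Z * R → E i * Z = Z * E i := by
    intro i Z hZ
    rw [hsp] at hZ
    exact comm_fun U Z hUu d (fun s => if s = d i then 1 else 0) hZ
  have sE : ∀ i, star (E i) = E i := by
    intro i; simp only [E, star_mul, star_star, D_star, mul_assoc]
  have mm : ∀ f g : ι → ℝ, (U * D f * star U) * (U * D g * star U)
      = U * D (fun i => f i * g i) * star U := by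
    intro f g
    rw [← D_mul]
    simp only [mul_assoc]
    rw [← mul_assoc (star U) U, u1, one_mul]
  have iE : ∀ i, E i * E i = E i := by
    intro i; simp only [E]; rw [mm]; congr 3; funext j; split_ifs <;> simp
  have rE : ∀ i, R * E i = d i • E i := by
    intro i
    conv_lhs => rw [hsp]
    simp only [E]
    rw [mm, ← smul_mul_assoc, ← mul_smul_comm, D_smul]
    congr 3; funext j; split_ifs with h <;> simp [h]
  by_cases hex : ∃ i, E i * P = P
  · obtain ⟨i, hi⟩ := hex
    exact ⟨d i, by rw [← pr, ← hi, ← mul_assoc, rE, smul_mul_assoc]⟩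
  · push Not at hex
    have hz : ∀ i, E i * P = 0 := by
      intro i
      have cP : P * E i = E i * P := (cE i P (by rw [pl, pr])).symm
      rcases hs P (E i) (sE i) (iE i) (cE i X c3) (cE i Y c4) cP a5 with h | h
      · exact absurd (hm _ (sE i) (iE i) (cE i X c3) (cE i Y c4) cP h) (hex i)
      · have := hm (1 - E i) (by rw [star_sub, sE]; simp)
          (by rw [mul_sub, sub_mul, sub_mul, iE]; simp)
          (by rw [mul_sub, sub_mul, cE i X c3]; simp)
          (by rw [mul_sub, sub_mul, cE i Y c4]; simp)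
          (by rw [mul_sub, sub_mul, cP]; simp) h
        rw [sub_mul, one_mul] at this
        exact sub_eq_self.1 this
    have hUP : star U * P = 0 := by
      ext i j
      have := congrArg (fun T => star U * T) (hz i)
      simp only [E, ← mul_assoc, u1, one_mul, mul_zero] at this
      rw [mul_assoc] at this
      have := congrFun (congrFun this i) j
      simpa [D, diagonal_mul] using this
    refine ⟨0, ?_⟩
    rw [zero_smul, ← pr, hsp, mul_assoc, hUP, mul_zero]

end Pool.Agent.H94.UO
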