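import Pool.Agent.H94.UO2

set_option autoImplicit false

open Filter Topology NormedSpace Matrix
open scoped ComplexOrder

namespace Pool.Agent.H94.UO

section
variable {A : Type*} [NormedRing A] [NormedAlgebra ℝ A] [NormedAlgebra ℚ A] [CompleteSpace A]
  [StarRing A] [ContinuousStar A] [StarModule ℝ A] [FiniteDimensional ℝ A]

theorem move_good (tr : A →ₗ[ℝ] ℝ) (htr : ∀ a b, tr (a * b) = tr (b * a))
    (hpos : ∀ a, tr (star a * a) = 0 → a = 0)
    (P X Y Z1 Z2 : A) (hPs : star P = P) (hP : P * P = P) (hX : star X = X) (hY : star Y = Y)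
    (hPX : P * X = X * P) (hPY : P * Y = Y * P) (hZ1 : star Z1 = Z1) (hZ2 : star Z2 = Z2)
    (hP1 : P * Z1 * P = Z1) (hP2 : P * Z2 * P = Z2) (ht : tr Z1 = tr Z2)
    (hirr : ∀ R, star R = R → P * R * P = R → tr R = 0 → R * X = X * R → R * Y = Y * R → R = 0)
    (ε : ℝ) (hε : 0 < ε) :
    ∃ (η : ℝ) (u v : A), 0 < η ∧ η < ε ∧ u ∈ unitary A ∧ v ∈ unitary A ∧
      u * (X + η • Z1) * star u + v * (Y - η • Z2) * star v = X + Y := by
  have z1 : star (Z1 - Z2) = Z1 - Z2 := by rw [star_sub, hZ1, hZ2]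
  have z2 : P * (Z1 - Z2) * P = Z1 - Z2 := by rw [mul_sub, sub_mul, hP1, hP2]
  have z3 : tr (Z1 - Z2) = 0 := by rw [map_sub, ht, sub_self]
  obtain ⟨S1, S2, θ, a1, a2, a3, a4, a5⟩ := surj tr htr hpos P X Y 0 hP hX hY hPX hPY (by simp)
    (by simp) (by simp) (fun R b1 b2 b3 b4 b5 _ => hirr R b1 b2 b3 b4 b5) (-(Z1 - Z2))
    (by rw [star_neg, z1]) (by rw [mul_neg, neg_mul, z2]) (by rw [map_neg, z3, neg_zero])
  obtain ⟨U, V, η, c1, c2, -, -, c5, -, -, c8, c9⟩ := move tr htr P X Y Z1 Z2 hPs hP hX hY hPX hPY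
    hZ1 hZ2 hP1 hP2 ht (surj tr htr hpos P X Y _ hP hX hY hPX hPY z1 z2 z3
      (fun R b1 b2 b3 b4 b5 _ => hirr R b1 b2 b3 b4 b5)) S1 S2 1 a1 a2 a3 a4 (by
        rw [smul_zero, add_zero] at a5
        rw [a5, one_smul, neg_add_cancel])
  have d1 := (hasDerivAt_iff_tendsto_slope_zero.1 c5).eventually (lt_mem_nhds (zero_lt_one' ℝ))
  have d2 : ∀ᶠ t in 𝓝 (0:ℝ), η t < ε :=
    c5.continuousAt.tendsto.eventually (gt_mem_nhds (by rw [c8]; exact hε))
  have d3 : ∀ᶠ t in 𝓝[>] (0:ℝ), 0 < t := self_mem_nhdsWithin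
  have hle : 𝓝[>] (0:ℝ) ≤ 𝓝[≠] 0 := nhdsWithin_mono _ fun x hx => ne_of_gt hx
  obtain ⟨t, t1, t2, t3, t4⟩ := ((d1.filter_mono hle).and ((d2.filter_mono nhdsWithin_le_nhds).and
    (d3.and (c9.filter_mono nhdsWithin_le_nhds)))).exists
  refine ⟨η t, U t, V t, ?_, t2, c1 t, c2 t, t4⟩
  simp only [zero_add, c8, sub_zero, smul_eq_mul] at t1
  exact (mul_pos_iff_of_pos_left (inv_pos.2 t3)).1 t1

theorem move_bad (tr : A →ₗ[ℝ] ℝ) (htr : ∀ a b, tr (a * b) = tr (b * a))
    (hpos : ∀ a, tr (star a * a) = 0 → a = 0)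
    (P X Y E Z2 : A) (hPs : star P = P) (hP : P * P = P) (hX : star X = X) (hY : star Y = Y)
    (hPX : P * X = X * P) (hPY : P * Y = Y * P) (hZ1 : star E = E) (hZ2 : star Z2 = Z2)
    (hP1 : P * E * P = E) (hP2 : P * Z2 * P = Z2) (ht : tr E = tr Z2)
    (hirr : ∀ R, star R = R → P * R * P = R → tr R = 0 → R * X = X * R → R * Y = Y * R →
      tr (R * (E - Z2)) = 0 → R = 0)
    (μ : ℝ) (hE : E * E = E) (hE1 : tr E = 1) (hXE : X * E = μ • E) (hYE : Y * E = 0)
    (hZE : Z2 * E = 0) (W1 W2 : A) (w1 : W1 * E = W1) (w2 : W2 * E = W2) (w3 : P * W1 = W1)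
    (w4 : P * W2 = W2) (w5 : μ • W1 - X * W1 = Y * W2)
    (w6 : tr (star W2 * Y * W2) < tr (star W1 * (μ • 1 - X) * W1))
    (ε : ℝ) (hε : 0 < ε) :
    ∃ (η : ℝ) (u v : A), 0 < η ∧ η < ε ∧ u ∈ unitary A ∧ v ∈ unitary A ∧
      u * (X + η • E) * star u + v * (Y - η • Z2) * star v = X + Y := by
  have z1 : star (E - Z2) = E - Z2 := by rw [star_sub, hZ1, hZ2]
  have z2 : P * (E - Z2) * P = E - Z2 := by rw [mul_sub, sub_mul, hP1, hP2]
  have z3 : tr (E - Z2) = 0 := by rw [map_sub, ht, sub_self]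
  have q2 : E * P = E := by rw [← hP1, mul_assoc, hP]
  have hEX : E * X = μ • E := by
    have := congrArg star hXE
    rwa [star_mul, hX, hZ1, star_smul, star_trivial, hZ1] at this
  have hEY : E * Y = 0 := by
    have := congrArg star hYE
    rwa [star_mul, hY, hZ1, star_zero] at this
  have sup : ∀ W, W * E = W → P * W = W → P * (W - star W) * P = W - star W := by
    intro W h1 h2
    have h3 : W * P = W := by rw [← h1, mul_assoc, q2]
    have h4 := congrArg star h2
    have h5 := congrArg star h3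
    rw [star_mul, hPs] at h4 h5
    rw [mul_sub, sub_mul, h2, h3, h5, h4]
  have sE : ∀ W, W * E = W → E * star W = star W := by
    intro W h; have := congrArg star h; rwa [star_mul, hZ1] at this
  have k1 : W1 * X = μ • W1 := by rw [← w1, mul_assoc, hEX, mul_smul_comm]
  have k2 : X * star W1 = μ • star W1 := by rw [← sE W1 w1, ← mul_assoc, hXE, smul_mul_assoc]
  have k3 : W2 * Y = 0 := by rw [← w2, mul_assoc, hEY, mul_zero]
  have k4 : Y * star W2 = 0 := by rw [← sE W2 w2, ← mul_assoc, hYE, zero_mul]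
  have k5 : μ • star W1 - star W1 * X = star W2 * Y := by
    have := congrArg star w5
    rwa [star_sub, star_smul, star_trivial, star_mul, star_mul, hX, hY] at this
  obtain ⟨U, V, η, c1, c2, c3, c4, c5, c6, c7, c8, c9⟩ := move tr htr P X Y E Z2 hPs hP hX hY hPX
    hPY hZ1 hZ2 hP1 hP2 ht (surj tr htr hpos P X Y _ hP hX hY hPX hPY z1 z2 z3 hirr)
    (W1 - star W1) (W2 - star W2) 0 (by simp) (sup W1 w1 w3) (by simp) (sup W2 w2 w4) (by
      rw [sub_mul, mul_sub, sub_mul, mul_sub, k1, k2, k3, k4, ← k5, ← w5, zero_smul]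
      abel)
  have ctr : Continuous tr := LinearMap.continuous_of_finiteDimensional tr
  set M : A := μ • 1 - X with hM
  have m1 : M * E = 0 := by rw [hM, sub_mul, smul_mul_assoc, one_mul, hXE, sub_self]
  have m2 : E * M = 0 := by rw [hM, mul_sub, mul_smul_comm, mul_one, hEX, sub_self]
  have lim : ∀ (T : ℝ → A) (W N : A), HasDerivAt T (W - star W) 0 → T 0 = 1 → W * E = W →
      N * E = 0 → E * N = 0 → ∃ a : ℝ → ℝ, Tendsto a (𝓝[≠] 0) (𝓝 (tr (star W * N * W))) ∧
        ∀ t, t ≠ 0 → tr (E * T t * N * star (T t) * E) = t ^ 2 * a t := by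
    intro T W N h1 h2 h3 h4 h5
    have g := hasDerivAt_iff_tendsto_slope_zero.1 h1
    simp only [zero_add, h2] at g
    refine ⟨fun t => tr (E * (t⁻¹ • (T t - 1)) * N * star (t⁻¹ • (T t - 1)) * E), ?_, ?_⟩
    · have g2 := (ctr.tendsto _).comp
        ((((tendsto_const_nhds (x := E)).mul g).mul (tendsto_const_nhds (x := N))).mul g.star
          |>.mul (tendsto_const_nhds (x := E)))
      have : E * (W - star W) * N * star (W - star W) * E = star W * N * W := by
        have e1 : W * N = 0 := by rw [← h3, mul_assoc, h5, mul_zero]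
        have e2 : N * star W = 0 := by rw [← sE W h3, ← mul_assoc, h4, zero_mul]
        rw [star_sub, star_star, mul_assoc E, sub_mul, e1, zero_sub, mul_neg, ← mul_assoc,
          sE W h3, neg_mul, mul_assoc (star W), mul_sub, e2, zero_sub, mul_neg, neg_neg,
          mul_assoc, mul_assoc, h3, ← mul_assoc]
      rw [this] at g2
      exact g2
    · intro t ht
      have e1 : E * (T t - 1) * N = E * T t * N := by rw [mul_sub, sub_mul, mul_one, h5, sub_zero]
      have e2 : N * star (T t - 1) * E = N * star (T t) * E := by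
        rw [star_sub, star_one, mul_sub, sub_mul, mul_one, h4, sub_zero]
      have e3 : E * (T t - 1) * N * star (T t - 1) * E = E * T t * N * star (T t) * E := by
        rw [e1, mul_assoc _ N, mul_assoc _ _ E, e2]; simp only [mul_assoc]
      simp only [star_smul, star_trivial, mul_smul_comm, smul_mul_assoc, map_smul, e3, smul_eq_mul]
      field_simp
  obtain ⟨a1, l1, l2⟩ := lim U W1 M c3 c6 w1 m1 m2
  obtain ⟨a2, l3, l4⟩ := lim V W2 Y c4 c7 w2 hYE hEY
  have lim2 : ∀ (T : ℝ → A) (N : A), ContinuousAt T 0 → T 0 = 1 →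
      Tendsto (fun t => tr (E * T t * N * star (T t) * E)) (𝓝 0) (𝓝 (tr (E * N * E))) := by
    intro T N h1 h2
    have g := h1.tendsto
    rw [h2] at g
    have g2 := (ctr.tendsto _).comp
        ((((tendsto_const_nhds (x := E)).mul g).mul (tendsto_const_nhds (x := N))).mul g.star
          |>.mul (tendsto_const_nhds (x := E)))
    simp only [star_one, mul_one] at g2
    exact g2
  have l5 := (lim2 U E c3.continuousAt c6).sub (lim2 V Z2 c4.continuousAt c7)
  rw [hE, hE, hE1, mul_assoc, hZE, mul_zero, map_zero, sub_zero] at l5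
  have d1 := l5.eventually (lt_mem_nhds (zero_lt_one' ℝ))
  have d0 := (l1.sub l3).eventually (lt_mem_nhds (sub_pos.2 w6))
  have d2 : ∀ᶠ t in 𝓝 (0:ℝ), η t < ε :=
    c5.continuousAt.tendsto.eventually (gt_mem_nhds (by rw [c8]; exact hε))
  have d3 : ∀ᶠ t in 𝓝[≠] (0:ℝ), t ≠ 0 := self_mem_nhdsWithin
  obtain ⟨t, t0, t1, t2, t3, t4⟩ := (d0.and ((d1.filter_mono nhdsWithin_le_nhds).and
    ((d2.filter_mono nhdsWithin_le_nhds).and
    (d3.and (c9.filter_mono nhdsWithin_le_nhds))))).exists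
  refine ⟨η t, U t, V t, ?_, t2, c1 t, c2 t, t4⟩
  have e0 := congrArg (fun T => tr (E * T * E)) t4
  have e1 : tr (E * (X + Y) * E) = μ := by
    rw [mul_add, hEX, hEY, add_zero, smul_mul_assoc, hE, map_smul, hE1, smul_eq_mul, mul_one]
  have e2 : tr (E * U t * M * star (U t) * E) = μ - tr (E * U t * X * star (U t) * E) := by
    rw [hM, mul_sub, sub_mul, sub_mul, map_sub, mul_smul_comm, mul_one, smul_mul_assoc,
      smul_mul_assoc, mul_assoc E, (Unitary.mem_iff.1 (c1 t)).2, mul_one, hE, map_smul, hE1,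
      smul_eq_mul, mul_one]
  simp only [e1] at e0
  simp only [mul_add, add_mul, mul_sub, sub_mul, mul_smul_comm, smul_mul_assoc, map_add, map_sub,
    map_smul, smul_eq_mul, ← mul_assoc] at e0
  have e3 := l2 t t3
  have e4 := l4 t t3
  have e5 : η t * (tr (E * U t * E * star (U t) * E) - tr (E * V t * Z2 * star (V t) * E))
      = t ^ 2 * (a1 t - a2 t) := by linarith
  have e6 : 0 < t ^ 2 * (a1 t - a2 t) := mul_pos (by positivity) t0
  rw [← e5] at e6
  exact (mul_pos_iff_of_pos_right t1).1 e6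
end

end Pool.Agent.H94.UO
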