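import Pool.Agent.H94.UO3

set_option autoImplicit false

open Filter Topology NormedSpace Matrix
open scoped ComplexOrder

namespace Pool.Agent.H94.UO

variable {ι : Type*} [Fintype ι] [DecidableEq ι]

/-- real part of the trace -/
noncomputable def rt : Matrix ι ι ℂ →ₗ[ℝ] ℝ where
  toFun R := (trace R).re
  map_add' a b := by simp
  map_smul' c a := by simp

omit [DecidableEq ι] in
theorem rt_apply (R : Matrix ι ι ℂ) : rt R = (trace R).re := rfl

omit [DecidableEq ι] in
theorem rt_comm (a b : Matrix ι ι ℂ) : rt (a * b) = rt (b * a) := by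
  rw [rt_apply, rt_apply, trace_mul_comm]

omit [DecidableEq ι] in
theorem rt_nonneg {a : Matrix ι ι ℂ} (h : a.PosSemidef) : 0 ≤ rt a :=
  (Complex.nonneg_iff.1 h.trace_nonneg).1

theorem rt_psd {a : Matrix ι ι ℂ} (h : a.PosSemidef) (h0 : rt a = 0) : a = 0 := by
  rw [← h.trace_eq_zero_iff]
  exact Complex.ext h0 (Complex.nonneg_iff.1 h.trace_nonneg).2.symm

omit [Fintype ι] [DecidableEq ι] in
theorem ssm (c : ℝ) (a : Matrix ι ι ℂ) : star (c • a) = c • star a := by
  rw [star_smul, star_trivial c]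

omit [DecidableEq ι] in
theorem ss0 (a : Matrix ι ι ℂ) (h : star a * a = 0) : a = 0 :=
  conjTranspose_mul_self_eq_zero.1 h

theorem rt_pos (a : Matrix ι ι ℂ) (h : rt (star a * a) = 0) : a = 0 :=
  ss0 a (rt_psd (posSemidef_conjTranspose_mul_self a) h)

/-- conclusion of a local move -/
def Cn (X Y E : Matrix ι ι ℂ) : Prop := ∀ ε : ℝ, 0 < ε → ∃ (η : ℝ) (u v Y1 : Matrix ι ι ℂ),
  0 < η ∧ η < ε ∧ u ∈ unitary (Matrix ι ι ℂ) ∧ v ∈ unitary (Matrix ι ι ℂ) ∧ Y1.PosSemidef ∧
  (Y - Y1).PosSemidef ∧ u * (X + η • E) * star u + v * Y1 * star v = X + Y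

theorem PY_psd (P Y : Matrix ι ι ℂ) (hPs : star P = P) (hP : P * P = P) (hY : Y.PosSemidef)
    (hPY : P * Y = Y * P) : (P * Y).PosSemidef := by
  have := hY.mul_mul_conjTranspose_same P
  rwa [← star_eq_conjTranspose, hPs, mul_assoc, ← hPY, ← mul_assoc, hP] at this

theorem fin (P X Y E : Matrix ι ι ℂ) (hPs : star P = P) (hP : P * P = P) (hY : Y.PosSemidef)
    (hPY : P * Y = Y * P) (c : ℝ) (hc : 0 < c)
    (h : ∀ ε : ℝ, 0 < ε → ∃ (η : ℝ) (u v : Matrix ι ι ℂ), 0 < η ∧ η < ε ∧
      u ∈ unitary (Matrix ι ι ℂ) ∧ v ∈ unitary (Matrix ι ι ℂ) ∧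
      u * (X + η • E) * star u + v * (Y - η • (c • (P * Y))) * star v = X + Y) : Cn X Y E := by
  intro ε hε
  obtain ⟨η, u, v, h1, h2, h3, h4, h5⟩ := h (min ε c⁻¹) (lt_min hε (inv_pos.2 hc))
  have p1 := PY_psd P Y hPs hP hY hPY
  have p2 := PY_psd (1 - P) Y (by rw [star_sub, hPs]; simp)
    (by rw [mul_sub, sub_mul, sub_mul, hP]; simp) hY (by rw [mul_sub, sub_mul, hPY]; simp)
  have hs : η * c ≤ 1 := by
    have := (lt_min_iff.1 h2).2
    have e := mul_lt_mul_of_pos_right this hc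
    rw [inv_mul_cancel₀ hc.ne'] at e
    exact e.le
  refine ⟨η, u, v, _, h1, (lt_min_iff.1 h2).1, h3, h4, ?_, ?_, h5⟩
  · have : Y - η • (c • (P * Y)) = (1 - η * c) • Y + (η * c) • ((1 - P) * Y) := by
      rw [sub_mul, one_mul, smul_sub, sub_smul, one_smul, smul_smul]; abel
    rw [this]
    exact (hY.smul (sub_nonneg.2 hs)).add (p2.smul (by positivity))
  · rw [sub_sub_cancel, smul_smul]
    exact p1.smul (by positivity)

theorem hh (X E T : Matrix ι ι ℂ) (μ κ : ℝ) (hX : star X = X) (hEs : star E = E) (hE : E * E = E)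
    (hXE : X * E = μ • E) (h1 : T * E = T) (h2 : X * T = μ • T) (h3 : star T * T = E)
    (h4 : E * T = κ • E) :
    ∃ R ∈ unitary (Matrix ι ι ℂ), R * X = X * R ∧ R * E = T := by
  have h5 : star T * E = κ • E := by
    have := congrArg star h4
    rwa [star_mul, hEs, ssm, hEs] at this
  set D0 := E - T with hD
  have d1 : star D0 * D0 = (2 - 2 * κ) • E := by
    rw [hD, star_sub, hEs, sub_mul, mul_sub, mul_sub, hE, h4, h5, h3, sub_smul, mul_smul, two_smul,
      two_smul]
    abel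
  by_cases hk : κ = 1
  · have : D0 = 0 := ss0 _ (by rw [d1, hk]; simp)
    exact ⟨1, one_mem _, by simp, by rw [one_mul]; exact sub_eq_zero.1 this⟩
  have hk' : 1 - κ ≠ 0 := sub_ne_zero.2 (Ne.symm hk)
  have d2 : D0 * E = D0 := by rw [hD, sub_mul, hE, h1]
  have d3 : X * D0 = μ • D0 := by rw [hD, mul_sub, hXE, h2, smul_sub]
  have d4 : star D0 * X = μ • star D0 := by
    have := congrArg star d3
    rwa [star_mul, hX, ssm] at this
  have d5 : star D0 * E = (1 - κ) • E := by
    rw [hD, star_sub, hEs, sub_mul, hE, h5, sub_smul, one_smul]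
  set R := 1 - (1 - κ)⁻¹ • (D0 * star D0) with hR
  have r1 : star R = R := by
    rw [hR, star_sub, star_one, ssm, star_mul, star_star]
  have r2 : R * R = 1 := by
    have : D0 * star D0 * (D0 * star D0) = (2 - 2 * κ) • (D0 * star D0) := by
      rw [mul_assoc, ← mul_assoc (star D0), d1, smul_mul_assoc, mul_smul_comm, ← mul_assoc, d2]
    rw [hR, sub_mul, mul_sub, mul_sub, one_mul, one_mul, mul_one, smul_mul_assoc, mul_smul_comm,
      this, smul_smul, smul_smul]
    have e : (1 - κ)⁻¹ * (1 - κ)⁻¹ * (2 - 2 * κ) = (1 - κ)⁻¹ + (1 - κ)⁻¹ := by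
      field_simp; ring
    rw [e, add_smul]; abel
  refine ⟨R, Unitary.mem_iff.2 ⟨by rw [r1, r2], by rw [r1, r2]⟩, ?_, ?_⟩
  · rw [hR, sub_mul, mul_sub, one_mul, mul_one, smul_mul_assoc, mul_smul_comm, mul_assoc, d4,
      ← mul_assoc, d3, mul_smul_comm, smul_mul_assoc]
  · rw [hR, sub_mul, one_mul, smul_mul_assoc, mul_assoc, d5, mul_smul_comm, smul_smul,
      inv_mul_cancel₀ hk', one_smul, d2, hD, sub_sub_cancel]

omit [DecidableEq ι] in
theorem r1_real (E Z : Matrix ι ι ℂ) (hEs : star E = E) (h1 : trace E = 1)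
    (r1 : ∀ Z, ∃ c : ℂ, E * Z * E = c • E) (hZ : star Z = Z) : ∃ r : ℝ, E * Z * E = r • E := by
  obtain ⟨c, hc⟩ := r1 Z
  have := congrArg star hc
  rw [star_mul, star_mul, hEs, hZ, ← mul_assoc, hc, star_smul, hEs] at this
  have := congrArg trace this
  rw [trace_smul, trace_smul, h1, smul_eq_mul, smul_eq_mul, mul_one, mul_one] at this
  refine ⟨c.re, ?_⟩
  rw [hc]
  conv_lhs => rw [← (Complex.conj_eq_iff_re.1 this.symm)]
  rfl

open scoped Matrix.Norms.L2Operator in
theorem good (X Y E W0 : Matrix ι ι ℂ) (μ : ℝ) (hX : star X = X) (hY : Y.PosSemidef)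
    (hEs : star E = E) (hE : E * E = E) (h1 : trace E = 1)
    (r1 : ∀ Z, ∃ c : ℂ, E * Z * E = c • E) (hXE : X * E = μ • E)
    (w1 : W0 * E = W0) (w2 : X * W0 = μ • W0) (w3 : Y * W0 ≠ 0) : Cn X Y E := by
  have hYs : star Y = Y := hY.1
  obtain ⟨P, a1, a2, a3, a4, a5, a6⟩ := irr X Y (fun P => Y * (P * W0) ≠ 0) (by simpa using w3) (by
    intro P F _ _ _ _ _ h
    by_contra hc
    push Not at hc
    apply h
    have : P = P * F + P * (1 - F) := by noncomm_ring
    rw [this, add_mul, mul_add, hc.1, hc.2, add_zero])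
  set W := P * W0 with hW
  have v1 : W * E = W := by rw [hW, mul_assoc, w1]
  have v2 : X * W = μ • W := by rw [hW, ← mul_assoc, ← a3, mul_assoc, w2, mul_smul_comm]
  have v3 : P * W = W := by rw [hW, ← mul_assoc, a2]
  have hW0 : W ≠ 0 := by intro h; apply a5; rw [h, mul_zero]
  obtain ⟨c, hc⟩ := r1_real E (star W * W) hEs h1 r1 (by rw [star_mul, star_star])
  have v4 : E * star W = star W := by
    have := congrArg star v1; rwa [star_mul, hEs] at this
  rw [← mul_assoc, v4, mul_assoc, v1] at hc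
  have hrE : rt E = 1 := by rw [rt_apply, h1]; rfl
  have hc0 : 0 < c := by
    have e : rt (star W * W) = c := by rw [hc, map_smul, hrE, smul_eq_mul, mul_one]
    have := rt_nonneg (posSemidef_conjTranspose_mul_self W)
    rw [← e]
    exact lt_of_le_of_ne this fun h => hW0 (rt_pos W h.symm)
  obtain ⟨κ, hκ⟩ := r1 W
  rw [mul_assoc, v1] at hκ
  obtain ⟨ω, o1, o2⟩ := Complex.exists_norm_eq_mul_self κ
  set T : Matrix ι ι ℂ := (Real.sqrt c)⁻¹ • (ω • W) with hT
  have t1 : T * E = T := by rw [hT, smul_mul_assoc, smul_mul_assoc, v1]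
  have t2 : X * T = μ • T := by
    rw [hT, mul_smul_comm, mul_smul_comm, v2, smul_comm ω μ W, smul_comm μ (Real.sqrt c)⁻¹]
  have t3 : star T * T = E := by
    rw [hT, ssm, star_smul, smul_mul_assoc, smul_mul_assoc, mul_smul_comm,
      mul_smul_comm, hc, smul_comm (star ω), smul_smul (star ω), smul_smul]
    have : star ω * ω = 1 := by
      rw [Complex.star_def, Complex.conj_mul', o1]; simp
    rw [this, one_smul, smul_smul, ← mul_inv, Real.mul_self_sqrt hc0.le, inv_mul_cancel₀ hc0.ne',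
      one_smul]
  have t4 : E * T = ((Real.sqrt c)⁻¹ * ‖κ‖) • E := by
    rw [hT, mul_smul_comm, mul_smul_comm, hκ, smul_smul ω, ← o2, mul_smul]
    rfl
  have t5 : P * T = T := by rw [hT, mul_smul_comm, mul_smul_comm, v3]
  obtain ⟨R, R1, R2, R3⟩ := hh X E T μ _ hX hEs hE hXE t1 t2 t3 t4
  have p1 := PY_psd P Y a1 a2 hY a4
  have p2 : 0 < rt (P * Y) := by
    refine lt_of_le_of_ne (rt_nonneg p1) fun h => a5 ?_
    rw [← v3, ← mul_assoc, ← a4, rt_psd p1 h.symm, zero_mul]
  have key : Cn X Y (T * star T) := by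
    refine fin P X Y _ a1 a2 hY a4 (rt (P * Y))⁻¹ (inv_pos.2 p2) fun ε hε => ?_
    let _ : NormedAlgebra ℚ (Matrix ι ι ℂ) := .restrictScalars ℚ ℝ _
    refine move_good rt rt_comm rt_pos P X Y _ _ a1 a2 hX hYs a3 a4 (by rw [star_mul, star_star])
      (by rw [ssm, star_mul, a1, hYs, a4]) ?_ ?_ ?_ ?_ ε hε
    · have := congrArg star t5
      rw [star_mul, a1] at this
      rw [← mul_assoc, t5, mul_assoc, this]
    · rw [mul_smul_comm, smul_mul_assoc, ← mul_assoc, a2, mul_assoc, ← a4, ← mul_assoc, a2]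
    · rw [rt_comm, t3, hrE, map_smul, smul_eq_mul, inv_mul_cancel₀ p2.ne']
    · intro S b1 b2 b3 b4 b5
      obtain ⟨r, hr⟩ := a6 S b1 b2 b4 b5
      rw [hr, map_smul, smul_eq_mul] at b3
      rcases mul_eq_zero.1 b3 with h | h
      · rw [hr, h, zero_smul]
      · have : P = 0 := rt_pos P (by rw [a1, a2, h])
        rw [hr, this, smul_zero]
  intro ε hε
  obtain ⟨η, u, v, Y1, k1, k2, k3, k4, k5, k6, k7⟩ := key ε hε
  refine ⟨η, u * R, v, Y1, k1, k2, mul_mem k3 R1, k4, k5, k6, ?_⟩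
  rw [← k7]
  congr 1
  have : R * (X + η • E) * star R = X + η • (T * star T) := by
    rw [mul_add, add_mul, R2, mul_assoc, (Unitary.mem_iff.1 R1).2, mul_one, mul_smul_comm,
      smul_mul_assoc, ← R3, star_mul, hEs, mul_assoc R E (E * _), ← mul_assoc E, hE, mul_assoc]
  rw [← this, star_mul]
  simp only [mul_assoc]

open scoped Matrix.Norms.L2Operator in
theorem bad (X Y E W1 W2 : Matrix ι ι ℂ) (μ : ℝ) (hX : star X = X) (hY : Y.PosSemidef)
    (hEs : star E = E) (hE : E * E = E) (h1 : trace E = 1)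
    (r1 : ∀ Z, ∃ c : ℂ, E * Z * E = c • E) (hXE : X * E = μ • E)
    (hker : ∀ W : Matrix ι ι ℂ, X * W = μ • W → Y * W = 0)
    (w1 : W1 * E = W1) (w2 : W2 * E = W2) (w5 : μ • W1 - X * W1 = Y * W2)
    (w6 : rt (star W2 * Y * W2) < rt (star W1 * (μ • 1 - X) * W1)) : Cn X Y E := by
  have hYs : star Y = Y := hY.1
  set M : Matrix ι ι ℂ := μ • 1 - X with hM
  have hMW : ∀ W, M * W = μ • W - X * W := by
    intro W; rw [hM, sub_mul, smul_mul_assoc, one_mul]
  have spl : ∀ P F N W : Matrix ι ι ℂ, star F = F → F * F = F → F * N = N * F → P * F = F * P →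
      rt (star (P * W) * N * (P * W)) = rt (star (P * F * W) * N * (P * F * W))
        + rt (star (P * (1 - F) * W) * N * (P * (1 - F) * W)) := by
    intro P F N W b1 b2 b3 b4
    rw [← map_add]
    congr 1
    have e1 : P * F * W = F * (P * W) := by rw [b4, mul_assoc]
    have e2 : P * (1 - F) * W = P * W - F * (P * W) := by rw [mul_sub, sub_mul, mul_one, e1]
    have e3 : F * N * F = N * F := by rw [b3, mul_assoc, b2]
    rw [e2, e1, star_sub, star_mul F, b1]
    generalize P * W = V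
    have e4 : star V * F * N * (F * V) = star V * N * (F * V) := by
      rw [mul_assoc (star V), mul_assoc (star V), ← mul_assoc (F * N), e3]
      simp only [mul_assoc]
    have e5 : star V * F * N * V = star V * N * (F * V) := by
      rw [mul_assoc (star V), b3]; simp only [mul_assoc]
    rw [sub_mul, sub_mul, mul_sub, mul_sub, e4, e5]
    abel
  obtain ⟨P, a1, a2, a3, a4, a5, a6⟩ := irr X Y
    (fun P => rt (star (P * W2) * Y * (P * W2)) < rt (star (P * W1) * M * (P * W1)))
    (by simpa using w6) (by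
    intro P F b1 b2 b3 b4 b5 h
    by_contra hc
    push Not at hc
    have f1 := spl P F Y W2 b1 b2 b4 b5
    have f2 := spl P F M W1 b1 b2 (by
      rw [hM, mul_sub, sub_mul, b3, mul_smul_comm, smul_mul_assoc, mul_one, one_mul]) b5
    linarith [hc.1, hc.2])
  have v5 : μ • (P * W1) - X * (P * W1) = Y * (P * W2) := by
    rw [← mul_assoc, ← a3, ← mul_assoc, ← a4, mul_assoc, mul_assoc, ← w5, mul_sub, mul_smul_comm]
  have hYP : Y * P ≠ 0 := by
    intro h
    have e1 : Y * (P * W2) = 0 := by rw [← mul_assoc, h, zero_mul]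
    rw [mul_assoc, mul_assoc _ M, hMW, v5, e1] at a5
    simp at a5
  have K : ∀ W, P * W = W → X * W = μ • W → W = 0 := by
    intro W b1 b2
    have b3 := hker W b2
    have b4 := congrArg star b1
    have b5 := congrArg star b2
    have b6 := congrArg star b3
    rw [star_mul, a1] at b4
    rw [star_mul, hX, ssm] at b5
    rw [star_mul, hYs, star_zero] at b6
    obtain ⟨r, hr⟩ := a6 (W * star W) (by rw [star_mul, star_star])
      (by rw [← mul_assoc, b1, mul_assoc, b4])
      (by rw [mul_assoc, b5, ← mul_assoc, b2, mul_smul_comm, smul_mul_assoc])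
      (by rw [mul_assoc, b6, ← mul_assoc, b3, mul_zero, zero_mul])
    by_cases h : r = 0
    · rw [h, zero_smul] at hr
      have := ss0 (star W) (by rw [star_star, hr])
      exact star_eq_zero.1 this
    · exfalso; apply hYP
      have := congrArg (fun T => Y * T) hr
      simp only [← mul_assoc, b3, zero_mul, mul_smul_comm] at this
      exact (smul_eq_zero.1 this.symm).resolve_left h
  have pE : P * E = 0 := K _ (by rw [← mul_assoc, a2])
    (by rw [← mul_assoc, ← a3, mul_assoc, hXE, mul_smul_comm])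
  have Ep : E * P = 0 := by
    have := congrArg star pE
    rwa [star_mul, a1, hEs, star_zero] at this
  have hYE : Y * E = 0 := hker E hXE
  have hEY : E * Y = 0 := by
    have := congrArg star hYE
    rwa [star_mul, hYs, hEs, star_zero] at this
  have hEX : E * X = μ • E := by
    have := congrArg star hXE
    rwa [star_mul, hX, hEs, ssm, hEs] at this
  have hrE : rt E = 1 := by rw [rt_apply, h1]; rfl
  have p1 := PY_psd P Y a1 a2 hY a4
  have p2 : 0 < rt (P * Y) :=
    lt_of_le_of_ne (rt_nonneg p1) fun h => hYP (by rw [← a4, rt_psd p1 h.symm])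
  have q1 : star (P + E) = P + E := by rw [star_add, a1, hEs]
  have q2 : (P + E) * (P + E) = P + E := by
    rw [add_mul, mul_add, mul_add, a2, pE, Ep, hE]; simp
  have q3 : (P + E) * X = X * (P + E) := by rw [add_mul, mul_add, a3, hEX, hXE]
  have q4 : (P + E) * Y = Y * (P + E) := by rw [add_mul, mul_add, a4, hEY, hYE]
  have q5 : (P + E) * Y = P * Y := by rw [add_mul, hEY, add_zero]
  refine fin (P + E) X Y _ q1 q2 hY q4 (rt (P * Y))⁻¹ (inv_pos.2 p2) fun ε hε => ?_
  let _ : NormedAlgebra ℚ (Matrix ι ι ℂ) := .restrictScalars ℚ ℝ _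
  refine move_bad rt rt_comm rt_pos (P + E) X Y E _ q1 q2 hX hYs q3 q4 hEs
      (by rw [ssm, star_mul, q1, hYs, q4]) ?_ ?_ ?_ ?_ μ hE hrE hXE hYE ?_
      (P * W1) (P * W2) (by rw [mul_assoc, w1]) (by rw [mul_assoc, w2]) ?_ ?_ v5 a5 ε hε
  · rw [add_mul, pE, hE, zero_add, mul_add, Ep, hE, zero_add]
  · rw [mul_smul_comm, smul_mul_assoc, ← mul_assoc, q2, mul_assoc, ← q4, ← mul_assoc, q2]
  · rw [hrE, q5, map_smul, smul_eq_mul, inv_mul_cancel₀ p2.ne']
  · intro R b1 b2 b3 b4 b5 b6
    have c1 : P * R * E = 0 := K _ (by rw [← mul_assoc, ← mul_assoc, a2]) (by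
      rw [← mul_assoc, ← mul_assoc, ← a3, mul_assoc P, ← b4, mul_assoc, mul_assoc, hXE,
        mul_smul_comm, mul_smul_comm, mul_assoc])
    have c2 : E * R * P = 0 := by
      have := congrArg star c1
      rwa [star_mul, star_mul, a1, hEs, b1, star_zero, ← mul_assoc] at this
    obtain ⟨s, hs⟩ := a6 (P * R * P) (by rw [star_mul, star_mul, a1, b1, mul_assoc])
      (by rw [← mul_assoc, ← mul_assoc, a2, mul_assoc, a2])
      (by rw [mul_assoc, a3, ← mul_assoc, mul_assoc P, b4, ← mul_assoc, a3]; simp only [mul_assoc])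
      (by rw [mul_assoc, a4, ← mul_assoc, mul_assoc P, b5, ← mul_assoc, a4]; simp only [mul_assoc])
    obtain ⟨k, hk⟩ := r1_real E R hEs h1 r1 b1
    have c3 : R = s • P + k • E := by
      rw [← b2, add_mul, add_mul, mul_add, mul_add, hs, c1, c2, hk]; simp
    rw [q5, c3, mul_sub, map_sub, add_mul, smul_mul_assoc, smul_mul_assoc, pE, hE, mul_smul_comm,
      add_mul, smul_mul_assoc, smul_mul_assoc, ← mul_assoc, a2, ← mul_assoc, Ep] at b6
    simp only [smul_zero, zero_add, zero_mul, add_zero, map_smul, hrE, smul_eq_mul, mul_one] at b6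
    have c4 : k = s := by
      have : (rt (P * Y))⁻¹ * (s * rt (P * Y)) = s := by field_simp
      linarith
    rw [c3, map_add, map_smul, map_smul, hrE, c4, smul_eq_mul, smul_eq_mul] at b3
    have c5 : 0 ≤ rt P := by
      have := rt_nonneg (posSemidef_conjTranspose_mul_self P)
      rwa [← star_eq_conjTranspose, a1, a2] at this
    have c6 : s = 0 := by
      have : s * (rt P + 1) = 0 := by linarith
      exact (mul_eq_zero.1 this).resolve_right (by linarith)
    rw [c3, c4, c6]; simp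
  · rw [smul_mul_assoc, mul_assoc, hYE, mul_zero, smul_zero]
  · rw [add_mul, ← mul_assoc, a2, ← mul_assoc, Ep, zero_mul, add_zero]
  · rw [add_mul, ← mul_assoc, a2, ← mul_assoc, Ep, zero_mul, add_zero]

end Pool.Agent.H94.UO
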