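import Pool.Agent.H94.UO4

set_option autoImplicit false

open Filter Topology Matrix
open scoped ComplexOrder

namespace Pool.Agent.H94.UO

variable {ι : Type*} [Fintype ι] [DecidableEq ι]

/-- quadratic form -/
noncomputable def q (N : Matrix ι ι ℂ) (w : ι → ℂ) : ℝ := (star w ⬝ᵥ N *ᵥ w).re

omit [DecidableEq ι] in
theorem q_add (N K : Matrix ι ι ℂ) (w : ι → ℂ) : q (N + K) w = q N w + q K w := by
  simp [q, add_mulVec]

omit [DecidableEq ι] in
theorem q_sub (N K : Matrix ι ι ℂ) (w : ι → ℂ) : q (N - K) w = q N w - q K w := by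
  simp [q, sub_mulVec]

omit [DecidableEq ι] in
theorem q_conj (N K : Matrix ι ι ℂ) (w : ι → ℂ) : q (star K * N * K) w = q N (K *ᵥ w) := by
  rw [q, q, star_mulVec, ← mulVec_mulVec, ← mulVec_mulVec, dotProduct_mulVec, star_eq_conjTranspose]

theorem q_D (d : ι → ℝ) (w : ι → ℂ) : q (D d) w = ∑ j, d j * ‖w j‖ ^ 2 := by
  rw [q, dotProduct, Complex.re_sum]
  refine Finset.sum_congr rfl fun j _ => ?_
  rw [D, mulVec_diagonal, Pi.star_apply, mul_left_comm, Complex.star_def, Complex.conj_mul']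
  norm_cast

omit [DecidableEq ι] in
theorem q_nonneg {N : Matrix ι ι ℂ} (h : N.PosSemidef) (w : ι → ℂ) : 0 ≤ q N w :=
  (Complex.nonneg_iff.1 (h.dotProduct_mulVec_nonneg w)).1

theorem q_UD (U : Matrix ι ι ℂ) (d : ι → ℝ) (w : ι → ℂ) :
    q (U * D d * star U) w = ∑ j, d j * ‖(star U *ᵥ w) j‖ ^ 2 := by
  rw [← q_D, ← q_conj, star_star]

theorem cnt (J I : Finset ι) (N : Matrix ι ι ℂ)
    (h : ∀ c : ι → ℂ, c ≠ 0 → (∀ j, j ∉ J → c j = 0) → ∃ i ∈ I, (N *ᵥ c) i ≠ 0) :
    J.card ≤ I.card := by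
  let ex : (J → ℂ) →ₗ[ℂ] (ι → ℂ) :=
    { toFun := fun c j => if h : j ∈ J then c ⟨j, h⟩ else 0
      map_add' := by intro a b; funext j; by_cases h : j ∈ J <;> simp [h]
      map_smul' := by intro a b; funext j; by_cases h : j ∈ J <;> simp [h] }
  let φ : (J → ℂ) →ₗ[ℂ] (I → ℂ) :=
    (LinearMap.funLeft ℂ ℂ (Subtype.val : I → ι)).comp ((Matrix.toLin' N).comp ex)
  have hφ : Function.Injective φ := by
    rw [injective_iff_map_eq_zero]
    intro c hc
    by_contra hne
    obtain ⟨i, hi, hi2⟩ := h (ex c) (by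
      intro h0; apply hne; funext j
      have := congrFun h0 j
      simpa [ex] using this) (by intro j hj; simp [ex, hj])
    exact hi2 (congrFun hc ⟨i, hi⟩)
  have := LinearMap.finrank_le_finrank_of_injective hφ
  simpa using this

theorem sum_neg_of (c : ι → ℂ) (hc : c ≠ 0) (d : ι → ℝ) (h : ∀ j, c j ≠ 0 → d j < 0) :
    ∑ j, d j * ‖c j‖ ^ 2 < 0 := by
  obtain ⟨k, hk⟩ := Function.ne_iff.1 hc
  have : ∑ j, d j * ‖c j‖ ^ 2 < ∑ _j : ι, (0:ℝ) := by
    refine Finset.sum_lt_sum (fun j _ => ?_) ⟨k, Finset.mem_univ _, ?_⟩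
    · by_cases hj : c j = 0
      · simp [hj]
      · exact (mul_neg_of_neg_of_pos (h j hj) (by positivity)).le
    · exact mul_neg_of_neg_of_pos (h k hk) (by have : c k ≠ 0 := hk; positivity)
  simpa using this

omit [DecidableEq ι] in
theorem sum_nonneg_of (c : ι → ℂ) (d : ι → ℝ) (h : ∀ j, c j ≠ 0 → 0 ≤ d j) :
    0 ≤ ∑ j, d j * ‖c j‖ ^ 2 := by
  refine Finset.sum_nonneg fun j _ => ?_
  by_cases hj : c j = 0
  · simp [hj]
  · exact mul_nonneg (h j hj) (by positivity)

theorem lm (x γ : ι → ℝ) (Y W : Matrix ι ι ℂ) (hY : Y.PosSemidef)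
    (hW : W ∈ unitary (Matrix ι ι ℂ)) (hF : D x + Y = W * D γ * star W) (i : ι)
    (hc : (Finset.univ.filter fun j => x i < x j).card
      < (Finset.univ.filter fun j => x i < γ j).card) :
    Cn (D x) Y (D (Pi.single i 1)) := by
  set μ := x i with hμ
  set E : Matrix ι ι ℂ := D (Pi.single i 1) with hE
  have hYs : star Y = Y := hY.1
  have e1 : star E = E := D_star _
  have e2 : E * E = E := by
    rw [hE, D_mul]; congr 1; funext j; by_cases h : j = i <;> simp [h]
  have e3 : trace E = 1 := by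
    simp [hE, D, trace_diagonal, Pi.single_apply, apply_ite]
  have e4 : ∀ Z : Matrix ι ι ℂ, ∃ c : ℂ, E * Z * E = c • E := by
    intro Z
    refine ⟨Z i i, ?_⟩
    ext a b
    simp only [hE, D, mul_diagonal, diagonal_mul, Matrix.smul_apply, diagonal_apply, smul_eq_mul]
    by_cases ha : a = i <;> by_cases hb : b = i
    · simp [ha, hb]
    · simp [ha, hb, Ne.symm hb]
    · simp [ha, hb]
    · simp [ha, hb]
  have e5 : D x * E = μ • E := by
    rw [hE, D_mul, D_smul]; congr 1; funext j; by_cases h : j = i <;> simp [h, hμ]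
  by_cases hg : ∃ W0 : Matrix ι ι ℂ, W0 * E = W0 ∧ D x * W0 = μ • W0 ∧ Y * W0 ≠ 0
  · obtain ⟨W0, a, b, c⟩ := hg
    exact good _ Y E W0 μ (D_star x) hY e1 e2 e3 e4 e5 a b c
  push Not at hg
  have hker : ∀ V : Matrix ι ι ℂ, D x * V = μ • V → Y * V = 0 := by
    intro V hV
    ext a k
    have := hg (V * single k i 1) (by
      rw [mul_assoc]; congr 1; ext a b
      simp only [hE, D, mul_diagonal, single_apply]
      by_cases hb : b = i
      · simp [hb]
      · simp [Ne.symm hb]) (by rw [← mul_assoc, hV, smul_mul_assoc])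
    rw [← mul_assoc] at this
    have := congrFun (congrFun this a) i
    simpa using this
  set M : Matrix ι ι ℂ := μ • 1 - D x with hM
  have hMD : M = D (fun j => μ - x j) := by
    rw [hM, ← D_one, D_smul, D_sub]; simp
  set Mp : Matrix ι ι ℂ := D (fun j => (μ - x j)⁻¹) with hMp
  have m1 : M * Mp * Y = Y := by
    have p1 := hker (D fun j => if x j = μ then 1 else 0) (by
      rw [D_mul, D_smul]; congr 1; funext j; split_ifs with h <;> simp [h])
    have p2 := congrArg star p1
    rw [star_mul, D_star, hYs, star_zero] at p2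
    have : M * Mp = 1 - D fun j => if x j = μ then 1 else 0 := by
      rw [hMD, hMp, D_mul, ← D_one, D_sub]; congr 1; funext j
      split_ifs with h
      · simp [h]
      · rw [mul_inv_cancel₀ (sub_ne_zero.2 (Ne.symm h)), sub_zero]
    rw [this, sub_mul, p2, one_mul, sub_zero]
  have ms : star M = M := by rw [hMD, D_star]
  have mps : star Mp = Mp := D_star _
  have m2 : Y * Mp * M = Y := by
    have := congrArg star m1
    rwa [star_mul, star_mul, ms, mps, hYs, ← mul_assoc] at this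
  obtain ⟨w, hw⟩ : ∃ w, q Y w < q (Y * Mp * Y) w := by
    by_contra hno
    push Not at hno
    refine absurd (cnt _ _ ((1 - Mp * Y) * W) ?_) (not_le.2 hc)
    intro c c0 cs
    by_contra hn
    push Not at hn
    have g1 : 0 ≤ q M (((1 - Mp * Y) * W) *ᵥ c) := by
      rw [hMD, q_D]
      refine sum_nonneg_of _ _ fun j hj => sub_nonneg.2 (not_lt.1 fun h => hj (hn j ?_))
      simpa using h
    have g2 : star (1 - Mp * Y) * M * (1 - Mp * Y) = (M - Y) - Y + Y * Mp * Y := by
      rw [star_sub, star_one, star_mul, mps, hYs, sub_mul, one_mul, m2, mul_sub, mul_one, sub_mul,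
        ← mul_assoc, m1, ← mul_assoc]
      abel
    rw [← mulVec_mulVec, ← q_conj, g2, q_add, q_sub] at g1
    have g3 : M - Y = W * D (fun j => μ - γ j) * star W := by
      rw [hM, sub_sub, hF, ← D_sub, mul_sub, sub_mul]
      congr 1
      have : D (fun _ : ι => μ) = μ • 1 := by rw [← D_one, D_smul]; simp
      rw [this, mul_smul_comm, mul_one, smul_mul_assoc, (Unitary.mem_iff.1 hW).2]
    rw [g3, q_UD, mulVec_mulVec, (Unitary.mem_iff.1 hW).1, one_mulVec] at g1
    have g4 := sum_neg_of c c0 (fun j => μ - γ j) fun j hj => sub_neg.2 (by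
      by_contra h; exact hj (cs j (by simpa using h)))
    linarith [hno (W *ᵥ c)]
  let W2 : Matrix ι ι ℂ := Matrix.of fun a b => if b = i then w a else 0
  have t1 : ∀ N : Matrix ι ι ℂ, rt (star W2 * N * W2) = q N w := by
    intro N
    rw [rt_apply, q, trace, Finset.sum_eq_single i]
    · congr 1
      simp [W2, mul_apply, dotProduct, mulVec, Finset.mul_sum, mul_assoc]
    · intro b _ hb
      simp [W2, mul_apply, hb]
    · simp
  have t2 : W2 * E = W2 := by
    ext a b
    simp only [hE, D, mul_diagonal, W2, of_apply]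
    by_cases hb : b = i <;> simp [hb]
  refine bad _ Y E (Mp * Y * W2) W2 μ (D_star x) hY e1 e2 e3 e4 e5 hker
    (by rw [mul_assoc, t2]) t2 ?_ ?_
  · have : μ • (Mp * Y * W2) - D x * (Mp * Y * W2) = M * (Mp * Y * W2) := by
      rw [hM, sub_mul, smul_mul_assoc, one_mul]
    rw [this, ← mul_assoc, ← mul_assoc, m1]
  · rw [t1, ← hM, star_mul, star_mul, mps, hYs, mul_assoc (star W2), m2]
    have := t1 (Y * Mp * Y)
    simp only [mul_assoc] at this ⊢
    rw [this]
    simpa only [mul_assoc] using hw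

omit [DecidableEq ι] in
theorem closed_psd : IsClosed {N : Matrix ι ι ℂ | N.PosSemidef} := by
  have : {N : Matrix ι ι ℂ | N.PosSemidef} = {N | Nᴴ = N} ∩ ⋂ w : ι → ℂ,
      {N | 0 ≤ star w ⬝ᵥ N *ᵥ w} := by
    ext N
    simp only [Set.mem_ofPred_eq, posSemidef_iff_dotProduct_mulVec, Set.mem_inter_iff,
      Set.mem_iInter]
    rfl
  rw [this]
  refine (isClosed_eq (by fun_prop) continuous_id).inter (isClosed_iInter fun w => ?_)
  exact isClosed_le continuous_const (by fun_prop)

theorem compact_un : IsCompact (unitary (Matrix ι ι ℂ) : Set (Matrix ι ι ℂ)) := by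
  have h1 : IsCompact (Set.pi Set.univ fun _ : ι => Set.pi Set.univ fun _ : ι =>
      Metric.closedBall (0:ℂ) 1) :=
    isCompact_univ_pi fun _ => isCompact_univ_pi fun _ => isCompact_closedBall _ _
  refine h1.of_isClosed_subset ?_ ?_
  · exact isClosed_unitary (R := Matrix ι ι ℂ)
  · intro U hU i _ j _
    simpa using entry_norm_bound_of_unitary hU i j

theorem ml (F W U0 V0 : Matrix ι ι ℂ) (γ a b x0 : ι → ℝ) (hW : W ∈ unitary (Matrix ι ι ℂ))
    (hF : F = W * D γ * star W)
    (hc : ∀ μ : ℝ, (Finset.univ.filter fun j => μ < a j).card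
      ≤ (Finset.univ.filter fun j => μ < γ j).card)
    (hU0 : U0 ∈ unitary (Matrix ι ι ℂ)) (hV0 : V0 ∈ unitary (Matrix ι ι ℂ)) (hx : x0 ≤ a)
    (h1 : (F - U0 * D x0 * star U0).PosSemidef)
    (h2 : (V0 * D b * star V0 - (F - U0 * D x0 * star U0)).PosSemidef) :
    ∃ U ∈ unitary (Matrix ι ι ℂ), ∃ V ∈ unitary (Matrix ι ι ℂ),
      (F - U * D a * star U).PosSemidef ∧
      (V * D b * star V - (F - U * D a * star U)).PosSemidef := by
  have cD : Continuous (D : (ι → ℝ) → Matrix ι ι ℂ) := by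
    unfold D; fun_prop
  let K : Set ((ι → ℝ) × Matrix ι ι ℂ × Matrix ι ι ℂ) :=
    (Set.Icc x0 a ×ˢ (unitary (Matrix ι ι ℂ) : Set (Matrix ι ι ℂ)) ×ˢ
      (unitary (Matrix ι ι ℂ) : Set (Matrix ι ι ℂ))) ∩
    ({p | (F - p.2.1 * D p.1 * star p.2.1).PosSemidef} ∩
     {p | (p.2.2 * D b * star p.2.2 - (F - p.2.1 * D p.1 * star p.2.1)).PosSemidef})
  have hK : IsCompact K := by
    refine (isCompact_Icc.prod (compact_un.prod compact_un)).inter_right (IsClosed.inter ?_ ?_)
    · exact closed_psd.preimage (f := fun p : (ι → ℝ) × Matrix ι ι ℂ × Matrix ι ι ℂ =>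
        F - p.2.1 * D p.1 * star p.2.1) (by fun_prop)
    · exact closed_psd.preimage (f := fun p : (ι → ℝ) × Matrix ι ι ℂ × Matrix ι ι ℂ =>
        p.2.2 * D b * star p.2.2 - (F - p.2.1 * D p.1 * star p.2.1)) (by fun_prop)
  obtain ⟨⟨x, U, V⟩, ⟨⟨⟨k1, k2⟩, k3, k4⟩, k5, k6⟩, hmax⟩ := hK.exists_isMaxOn
    ⟨(x0, U0, V0), ⟨⟨le_rfl, hx⟩, hU0, hV0⟩, h1, h2⟩
    (f := fun p => ∑ j, p.1 j) (by fun_prop)
  simp only [Set.mem_ofPred_eq, SetLike.mem_coe] at k1 k2 k3 k4 k5 k6
  by_cases hxa : x = a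
  · subst hxa; exact ⟨U, k3, V, k4, k5, k6⟩
  exfalso
  obtain ⟨i, hi⟩ := Function.ne_iff.1 hxa
  have hi' : x i < a i := lt_of_le_of_ne (k2 i) hi
  obtain ⟨u1, u2⟩ := Unitary.mem_iff.1 k3
  set Y := star U * (F - U * D x * star U) * U with hY
  have y1 : Y.PosSemidef := k5.conjTranspose_mul_mul_same U
  have y2 : D x + Y = star U * F * U := by
    rw [hY, mul_sub, sub_mul, ← mul_assoc, ← mul_assoc, u1, one_mul, mul_assoc (D x) _ U, u1, mul_one]
    abel
  have hcn := lm x γ Y (star U * W) y1 (mul_mem (Unitary.star_mem k3) hW) (by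
    rw [y2, hF, star_mul, star_star]; simp only [mul_assoc]) i (by
    refine lt_of_lt_of_le (Finset.card_lt_card ⟨?_, ?_⟩) (hc (x i))
    · intro j hj
      simp only [Finset.mem_filter, Finset.mem_univ, true_and] at hj ⊢
      exact lt_of_lt_of_le hj (k2 j)
    · intro h
      have := @h i (by simpa using hi')
      simp at this)
  obtain ⟨η, u, v, Y1, l1, l2, l3, l4, l5, l6, l7⟩ := hcn (a i - x i) (sub_pos.2 hi')
  let x' : ι → ℝ := fun j => x j + η * (Pi.single i (1:ℝ) : ι → ℝ) j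
  have hx' : D x + η • D (Pi.single i 1) = D x' := by rw [D_smul, D_add]
  rw [hx', y2] at l7
  have l8 : F - (U * u) * D x' * star (U * u) = (U * v) * Y1 * star (U * v) := by
    have := congrArg (fun T => U * T * star U) l7
    simp only [← mul_assoc, u2, one_mul] at this
    rw [mul_assoc F, u2, mul_one] at this
    rw [← this, star_mul, star_mul, mul_add, add_mul]
    simp only [mul_assoc]
    abel
  have hmem : (x', U * u, U * v * star U * V) ∈ K := by
    refine ⟨⟨⟨fun j => le_trans (k1 j) ?_, fun j => ?_⟩, mul_mem k3 l3,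
      mul_mem (mul_mem (mul_mem k3 l4) (Unitary.star_mem k3)) k4⟩, ?_, ?_⟩
    · by_cases h : j = i <;> simp [x', h, l1.le]
    · by_cases h : j = i
      · simp only [x', h, Pi.single_eq_same]; linarith
      · simp [x', h, k2 j]
    · show (F - (U * u) * D x' * star (U * u)).PosSemidef
      rw [l8]; exact l5.mul_mul_conjTranspose_same _
    · show ((U * v * star U * V) * D b * star (U * v * star U * V)
        - (F - (U * u) * D x' * star (U * u))).PosSemidef
      rw [l8]
      have p1 := (k6.conjTranspose_mul_mul_same U).add l6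
      have p2 := p1.mul_mul_conjTranspose_same (U * v)
      convert p2 using 1
      rw [← star_eq_conjTranspose, ← star_eq_conjTranspose, mul_sub (star U), sub_mul, ← hY,
        sub_add_sub_cancel, mul_sub, sub_mul]
      simp only [star_mul, star_star, mul_assoc]
  have := hmax hmem
  simp only [Set.mem_ofPred_eq, x', Finset.sum_add_distrib, ← Finset.mul_sum] at this
  simp at this
  linarith

end Pool.Agent.H94.UO
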