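import Pool.Agent.H94.UO5

set_option autoImplicit false

open Filter Topology Matrix
open scoped ComplexOrder

namespace Pool.Agent.H94.UO

variable {ι : Type*} [Fintype ι] [DecidableEq ι]

theorem srt {m : ℕ} (e : ι → Fin m) (he : Function.Injective e) (s t : ι → ℝ)
    (hs : ∀ j k, e j ≤ e k → s k ≤ s j) (ht : ∀ j k, e j ≤ e k → t k ≤ t j)
    (hc : ∀ μ : ℝ, (Finset.univ.filter fun j => μ < s j).card
      ≤ (Finset.univ.filter fun j => μ < t j).card) : s ≤ t := by
  intro j
  by_contra hn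
  rw [not_le] at hn
  refine absurd (hc (t j)) (not_le.2 (Finset.card_lt_card ⟨?_, ?_⟩))
  · intro k hk
    simp only [Finset.mem_filter, Finset.mem_univ, true_and] at hk ⊢
    rcases le_total (e j) (e k) with h | h
    · exact absurd (ht j k h) (not_le.2 hk)
    · exact lt_of_lt_of_le hn (hs k j h)
  · intro h
    have := @h j (by simpa using hn)
    simp at this

theorem norm_UD (U : Matrix ι ι ℂ) (hU : U * star U = 1) (w : ι → ℂ) :
    ∑ j, ‖(star U *ᵥ w) j‖ ^ 2 = q 1 w := by
  have := q_UD U (fun _ => 1) w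
  rw [D_one, mul_one, hU] at this
  simp [this]

theorem q_one (w : ι → ℂ) : q 1 w = ∑ j, ‖w j‖ ^ 2 := by
  have := q_D (fun _ => 1) w
  rw [D_one] at this
  simp [this]

omit [DecidableEq ι] in
theorem sq_pos (c : ι → ℂ) (hc : c ≠ 0) : 0 < ∑ j, ‖c j‖ ^ 2 := by
  obtain ⟨k, hk⟩ := Function.ne_iff.1 hc
  exact Finset.sum_pos' (fun j _ => by positivity)
    ⟨k, Finset.mem_univ _, by have : c k ≠ 0 := hk; positivity⟩

theorem weyl (f : ℝ → ℝ) (hm : MonotoneOn f (Set.Ici 0)) (U W : Matrix ι ι ℂ)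
    (hU : U ∈ unitary (Matrix ι ι ℂ)) (hW : W ∈ unitary (Matrix ι ι ℂ)) (α h : ι → ℝ)
    (hα : ∀ j, 0 ≤ α j) (hh : ∀ j, 0 ≤ h j)
    (hle : (W * D h * star W - U * D α * star U).PosSemidef) (μ : ℝ) :
    (Finset.univ.filter fun j => μ < f (α j)).card
      ≤ (Finset.univ.filter fun j => μ < f (h j)).card := by
  obtain ⟨u1, u2⟩ := Unitary.mem_iff.1 hU
  obtain ⟨w1, w2⟩ := Unitary.mem_iff.1 hW
  refine cnt _ _ (star W * U) fun c c0 cs => ?_
  by_contra hn
  push Not at hn
  obtain ⟨k, hk⟩ := Function.ne_iff.1 c0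
  obtain ⟨j, hj, hmin⟩ := Finset.exists_min_image (Finset.univ.filter fun j => c j ≠ 0) α
    ⟨k, by simpa using hk⟩
  have j1 : μ < f (α j) := by
    by_contra h'; exact (Finset.mem_filter.1 hj).2 (cs j (by simpa using h'))
  have g := q_nonneg hle (U *ᵥ c)
  rw [q_sub, q_UD, q_UD, mulVec_mulVec, mulVec_mulVec, u1, one_mulVec] at g
  have n1 := norm_UD W w2 (U *ᵥ c)
  have n2 := norm_UD U u2 (U *ᵥ c)
  rw [mulVec_mulVec] at n1 n2
  rw [u1, one_mulVec] at n2
  set d := (star W * U) *ᵥ c with hd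
  have d0 : d ≠ 0 := by
    intro h0
    have := sq_pos c c0
    rw [n2, ← n1, h0] at this
    simp at this
  have g1 := sum_neg_of d d0 (fun i => h i - α j) fun i hi => sub_neg.2 (by
    by_contra h'
    have := hm (hα j) (hh i) (not_lt.1 h')
    exact hi (hn i (by simpa using lt_of_lt_of_le j1 this)))
  have g2 := sum_nonneg_of c (fun i => α i - α j) fun i hi =>
    sub_nonneg.2 (hmin i (by simpa using hi))
  simp only [sub_mul, Finset.sum_sub_distrib, ← Finset.mul_sum] at g1 g2
  rw [n1] at g1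
  rw [n2] at g2
  linarith

theorem jcnt (f : ℝ → ℝ) (hc : ConcaveOn ℝ (Set.Ici 0) f) (hm : MonotoneOn f (Set.Ici 0))
    (h0 : 0 ≤ f 0) (U W V K : Matrix ι ι ℂ)
    (hU : U ∈ unitary (Matrix ι ι ℂ)) (hV : V ∈ unitary (Matrix ι ι ℂ)) (hW : W * star W = 1)
    (α h s : ι → ℝ) (hα : ∀ j, 0 ≤ α j) (hh : ∀ j, 0 ≤ h j) (hK : (1 - K * star K).PosSemidef)
    (hA : K * (W * D h * star W) * star K = U * D α * star U)
    (hS : K * (W * D (fun j => f (h j)) * star W) * star K = V * D s * star V) (μ : ℝ) :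
    (Finset.univ.filter fun j => μ < s j).card
      ≤ (Finset.univ.filter fun j => μ < f (α j)).card := by
  obtain ⟨u1, u2⟩ := Unitary.mem_iff.1 hU
  obtain ⟨v1, v2⟩ := Unitary.mem_iff.1 hV
  refine cnt _ _ (star U * V) fun c c0 cs => ?_
  by_contra hn
  push Not at hn
  have n1 := norm_UD U u2 (V *ᵥ c)
  have n2 := norm_UD V v2 (V *ᵥ c)
  rw [mulVec_mulVec] at n1 n2
  rw [v1, one_mulVec] at n2
  set d := (star U * V) *ᵥ c with hd
  set w := V *ᵥ c with hw
  set t := q 1 w with ht
  have t0 : 0 < t := by rw [← n2]; exact sq_pos c c0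
  have d0 : d ≠ 0 := by
    intro h0
    rw [← n1, h0] at t0
    simp at t0
  obtain ⟨k, hk⟩ := Function.ne_iff.1 d0
  obtain ⟨j, hj, hmax⟩ := Finset.exists_max_image (Finset.univ.filter fun j => d j ≠ 0) α
    ⟨k, by simpa using hk⟩
  have j1 : f (α j) ≤ μ := by
    by_contra h'; exact (Finset.mem_filter.1 hj).2 (hn j (by simpa using h'))
  set e := star W *ᵥ (star K *ᵥ w) with he
  have g0 : ∀ g : ι → ℝ, q (K * (W * D g * star W) * star K) w = ∑ j, g j * ‖e j‖ ^ 2 := by
    intro g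
    rw [← q_UD, ← q_conj _ (star K), star_star]
  have g1 := g0 h
  have g2 := g0 fun j => f (h j)
  have g3 := g0 fun _ => 1
  rw [hA, q_UD, hw, mulVec_mulVec, ← hd] at g1
  rw [hS, q_UD, hw, mulVec_mulVec, v1, one_mulVec] at g2
  rw [D_one, mul_one, hW, mul_one] at g3
  have g4 := q_nonneg hK w
  rw [q_sub, g3, ← ht] at g4
  simp only [one_mul] at g4
  have g5 := sum_neg_of c c0 (fun i => μ - s i) fun i hi => sub_neg.2 (by
    by_contra h'; exact hi (cs i (by simpa using h')))
  have g6 := sum_nonneg_of d (fun i => α j - α i) fun i hi =>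
    sub_nonneg.2 (hmax i (by simpa using hi))
  simp only [sub_mul, Finset.sum_sub_distrib, ← Finset.mul_sum] at g5 g6
  rw [n2, g2] at g5
  rw [n1, g1] at g6
  have J := hc.map_add_sum_le (t := Finset.univ) (w := fun j => ‖e j‖ ^ 2 / t) (p := h)
    (v := 1 - (∑ j, ‖e j‖ ^ 2) / t) (q := 0) (fun j _ => by positivity)
    (by rw [← Finset.sum_div]; ring) (fun j _ => hh j)
    (by rw [sub_nonneg, div_le_one t0]; linarith) (by simp)
  simp only [smul_eq_mul, mul_zero, zero_add] at J
  have e1 : ∑ j, ‖e j‖ ^ 2 / t * h j = (∑ j, h j * ‖e j‖ ^ 2) / t := by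
    rw [Finset.sum_div]; exact Finset.sum_congr rfl fun j _ => by ring
  have e2 : ∑ j, ‖e j‖ ^ 2 / t * f (h j) = (∑ j, f (h j) * ‖e j‖ ^ 2) / t := by
    rw [Finset.sum_div]; exact Finset.sum_congr rfl fun j _ => by ring
  rw [e1, e2] at J
  have g7 : f ((∑ j, h j * ‖e j‖ ^ 2) / t) ≤ f (α j) :=
    hm (div_nonneg (Finset.sum_nonneg fun j _ => mul_nonneg (hh j) (by positivity)) t0.le) (hα j)
      (by rw [div_le_iff₀ t0]; linarith)
  have g8 : 0 ≤ (1 - (∑ j, ‖e j‖ ^ 2) / t) * f 0 :=
    mul_nonneg (by rw [sub_nonneg, div_le_one t0]; linarith) h0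
  have g9 : μ < (∑ j, f (h j) * ‖e j‖ ^ 2) / t := by rw [lt_div_iff₀ t0]; linarith
  linarith

theorem jen (f : ℝ → ℝ) (hc : ConcaveOn ℝ (Set.Ici 0) f) (hm : MonotoneOn f (Set.Ici 0))
    (h0 : 0 ≤ f 0) (W K Fs A : Matrix ι ι ℂ) (hW : W * star W = 1) (h : ι → ℝ)
    (hh : ∀ j, 0 ≤ h j) (hK : (1 - star K * K).PosSemidef) (hA : A.PosSemidef)
    (hA' : K * (W * D h * star W) * star K = A) (hFs : star Fs = Fs)
    (hF : Fs * Fs = W * D (fun j => f (h j)) * star W) :
    (posSemidef_conjTranspose_mul_self (K * Fs)).1.eigenvalues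
      ≤ fun j => f (hA.1.eigenvalues j) := by
  have hS := posSemidef_self_mul_conjTranspose (K * Fs)
  have e1 : (posSemidef_conjTranspose_mul_self (K * Fs)).1.eigenvalues = hS.1.eigenvalues :=
    (IsHermitian.eigenvalues_eq_eigenvalues_iff _ _).2 (charpoly_mul_comm _ _)
  rw [e1]
  have hK2 : (1 - K * star K).PosSemidef := by
    have p1 := posSemidef_conjTranspose_mul_self (1 - K * star K)
    have p2 := hK.mul_mul_conjTranspose_same K
    have := p1.add p2
    convert this using 1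
    rw [← star_eq_conjTranspose, ← star_eq_conjTranspose, star_sub, star_one, star_mul, star_star]
    noncomm_ring
  refine srt (Fintype.equivOfCardEq (Fintype.card_fin _)).symm (Equiv.injective _) _ _
    (fun j k hjk => hS.1.eigenvalues₀_antitone hjk)
    (fun j k hjk => hm (hA.eigenvalues_nonneg k) (hA.eigenvalues_nonneg j)
      (hA.1.eigenvalues₀_antitone hjk)) fun μ => ?_
  refine jcnt f hc hm h0 _ W _ K hA.1.eigenvectorUnitary.2 hS.1.eigenvectorUnitary.2 hW _ h _
    hA.eigenvalues_nonneg hh hK2 (hA'.trans (spec hA.1)) ?_ μ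
  rw [← spec hS.1, ← hF, ← star_eq_conjTranspose, star_mul, hFs]
  simp only [mul_assoc]

theorem sqrt_ex (A : Matrix ι ι ℂ) (hA : A.PosSemidef) : ∃ S, star S = S ∧ S * S = A := by
  set U : Matrix ι ι ℂ := (hA.1.eigenvectorUnitary : Matrix ι ι ℂ)
  have u1 : star U * U = 1 := (Unitary.mem_iff.1 hA.1.eigenvectorUnitary.2).1
  refine ⟨U * D (fun j => Real.sqrt (hA.1.eigenvalues j)) * star U, ?_, ?_⟩
  · simp only [star_mul, star_star, D_star, mul_assoc]
  · conv_rhs => rw [spec hA.1]
    simp only [mul_assoc]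
    rw [← mul_assoc (star U) U, u1, one_mul, ← mul_assoc (D _), D_mul]
    congr 3; funext j; exact Real.mul_self_sqrt (hA.eigenvalues_nonneg j)

theorem main (f : ℝ → ℝ) (hc : ConcaveOn ℝ (Set.Ici 0) f) (hm : MonotoneOn f (Set.Ici 0))
    (h0 : 0 ≤ f 0) (A B : Matrix ι ι ℂ) (hA : A.PosSemidef) (hB : B.PosSemidef) :
    ∃ U ∈ unitary (Matrix ι ι ℂ), ∃ V ∈ unitary (Matrix ι ι ℂ),
      (((hA.add hB).1.eigenvectorUnitary : Matrix ι ι ℂ) * D (fun j => f ((hA.add hB).1.eigenvalues j))
        * star ((hA.add hB).1.eigenvectorUnitary : Matrix ι ι ℂ)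
        - U * D (fun j => f (hA.1.eigenvalues j)) * star U).PosSemidef ∧
      (V * D (fun j => f (hB.1.eigenvalues j)) * star V -
        (((hA.add hB).1.eigenvectorUnitary : Matrix ι ι ℂ) * D (fun j => f ((hA.add hB).1.eigenvalues j))
        * star ((hA.add hB).1.eigenvectorUnitary : Matrix ι ι ℂ)
        - U * D (fun j => f (hA.1.eigenvalues j)) * star U)).PosSemidef := by
  have hH := hA.add hB
  have hsp := spec hH.1
  set W : Matrix ι ι ℂ := (hH.1.eigenvectorUnitary : Matrix ι ι ℂ) with hWd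
  have hW : W ∈ unitary (Matrix ι ι ℂ) := hH.1.eigenvectorUnitary.2
  obtain ⟨w1, w2⟩ := Unitary.mem_iff.1 hW
  set h := hH.1.eigenvalues with hhd
  have hh : ∀ j, 0 ≤ h j := hH.eigenvalues_nonneg
  have mm : ∀ f g : ι → ℝ, (W * D f * star W) * (W * D g * star W)
      = W * D (fun i => f i * g i) * star W := by
    intro f g
    rw [← D_mul]
    simp only [mul_assoc]
    rw [← mul_assoc (star W) W, w1, one_mul]
  have st : ∀ f : ι → ℝ, star (W * D f * star W) = W * D f * star W := by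
    intro f; simp only [star_mul, star_star, D_star, mul_assoc]
  obtain ⟨sA, a1, a2⟩ := sqrt_ex A hA
  obtain ⟨sB, b1, b2⟩ := sqrt_ex B hB
  set Hp := W * D (fun j => (Real.sqrt (h j))⁻¹) * star W with hHp
  set P := W * D (fun j => if h j = 0 then 1 else 0) * star W with hP
  set Fs := W * D (fun j => Real.sqrt (f (h j))) * star W with hFs
  have p1 : star Hp = Hp := st _
  have p2 : star P = P := st _
  have p3 : star Fs = Fs := st _
  have p4 : Fs * Fs = W * D (fun j => f (h j)) * star W := by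
    rw [hFs, mm]; congr 3; funext j
    exact Real.mul_self_sqrt (h0.trans (hm (le_refl (0:ℝ)) (hh j) (hh j)))
  have p5 : P * P = P := by
    rw [hP, mm]; congr 3; funext j; split_ifs <;> simp
  have p6 : (A + B) * P = 0 := by
    rw [hsp, hP, mm]
    have : D (fun i => h i * if h i = 0 then 1 else 0) = 0 := by
      ext a b; by_cases hab : a = b <;> simp [D, diagonal_apply, hab]
    rw [this]; simp
  have p7 : Hp * (A + B) * Hp = 1 - P := by
    rw [hsp, hHp, mm, mm, hP]
    have : (1 : Matrix ι ι ℂ) = W * D (fun _ => 1) * star W := by rw [D_one, mul_one, w2]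
    rw [this, ← sub_mul, ← mul_sub, D_sub]
    congr 3; funext j
    split_ifs with hj
    · simp [hj]
    · have := Real.mul_self_sqrt (hh j)
      have s0 : Real.sqrt (h j) ≠ 0 := fun e => hj (by rw [← this, e, mul_zero])
      rw [sub_zero]
      field_simp
      rw [sq, this]
  clear_value Hp P Fs
  have p8 : P * (A + B) = 0 := by
    have := congrArg star p6
    rwa [star_mul, p2, show star (A + B) = A + B from hH.1, star_zero] at this
  have r1 : rt (star (sA * P) * (sA * P)) + rt (star (sB * P) * (sB * P)) = 0 := by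
    rw [← map_add, star_mul, star_mul, p2, a1, b1, mul_assoc, mul_assoc, ← mul_assoc sA,
      ← mul_assoc sB, a2, b2, ← mul_add, ← add_mul, p6, mul_zero, map_zero]
  have r2 := rt_nonneg (posSemidef_conjTranspose_mul_self (sA * P))
  have r3 := rt_nonneg (posSemidef_conjTranspose_mul_self (sB * P))
  rw [← star_eq_conjTranspose] at r2 r3
  have a3 : sA * P = 0 := rt_pos _ (by linarith)
  have b3 : sB * P = 0 := rt_pos _ (by linarith)
  have a4 : P * sA = 0 := by
    have := congrArg star a3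
    rwa [star_mul, p2, a1, star_zero] at this
  set K := sA * Hp + P with hK
  set L := sB * Hp with hL
  have k1 : star K * K + star L * L = 1 := by
    rw [hK, hL, star_add, star_mul, star_mul, p1, p2, a1, b1, add_mul, mul_add, mul_add,
      mul_assoc Hp sA P, a3, ← mul_assoc P, a4, p5, mul_assoc, ← mul_assoc sA, a2, mul_assoc,
      ← mul_assoc sB, b2]
    rw [mul_add, add_mul, mul_assoc, mul_assoc] at p7
    rw [mul_zero, zero_mul, add_zero, zero_add, add_right_comm, p7, sub_add_cancel]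
  have k2 : K * (W * D h * star W) * star K = A := by
    rw [← hsp, hK, star_add, star_mul, p1, p2, a1, add_mul, p8, add_zero, mul_add,
      mul_assoc _ _ P, p6, mul_zero, add_zero, ← mul_assoc, mul_assoc sA, mul_assoc sA, p7, mul_sub,
      a3, mul_one, sub_zero, a2]
  have k3 : L * (W * D h * star W) * star L = B := by
    rw [← hsp, hL, star_mul, p1, b1, ← mul_assoc, mul_assoc sB, mul_assoc sB, p7, mul_sub,
      b3, mul_one, sub_zero, b2]
  have j1 := jen f hc hm h0 W K Fs A w2 h hh (by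
    rw [← k1, add_sub_cancel_left]; exact posSemidef_conjTranspose_mul_self L) hA k2 p3 p4
  have j2 := jen f hc hm h0 W L Fs B w2 h hh (by
    rw [← k1, add_sub_cancel_right]; exact posSemidef_conjTranspose_mul_self K) hB k3 p3 p4
  have hX := posSemidef_conjTranspose_mul_self (K * Fs)
  have hY := posSemidef_conjTranspose_mul_self (L * Fs)
  have k4 : W * D (fun j => f (h j)) * star W - (K * Fs)ᴴ * (K * Fs) = (L * Fs)ᴴ * (L * Fs) := by
    rw [← star_eq_conjTranspose, ← star_eq_conjTranspose, star_mul, star_mul, p3, ← p4,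
      sub_eq_iff_eq_add', mul_assoc, mul_assoc, ← mul_add, ← mul_assoc, ← mul_assoc, ← add_mul, k1,
      one_mul]
  refine ml _ W hX.1.eigenvectorUnitary hY.1.eigenvectorUnitary (fun j => f (h j)) _ _
    hX.1.eigenvalues hW rfl (weyl f hm _ W hA.1.eigenvectorUnitary.2 hW _ h hA.eigenvalues_nonneg hh
      (by rw [← hsp, ← spec hA.1, add_sub_cancel_left]; exact hB))
    hX.1.eigenvectorUnitary.2 hY.1.eigenvectorUnitary.2 j1 ?_ ?_
  · rw [← spec hX.1, k4]; exact hY
  · rw [← spec hX.1, k4]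
    have := (D_psd (x := fun j => f (hB.1.eigenvalues j) - hY.1.eigenvalues j)
      fun j => sub_nonneg.2 (j2 j)).mul_mul_conjTranspose_same
        (hY.1.eigenvectorUnitary : Matrix ι ι ℂ)
    rw [← D_sub, mul_sub, sub_mul] at this
    have e := spec hY.1
    rw [star_eq_conjTranspose] at e
    rw [← e] at this
    exact this

end Pool.Agent.H94.UO
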