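import Mathlib

open Real Set MeasureTheory Filter Topology

namespace Pool.Agent.H94.WProd

noncomputable def Cf (x : ℝ) : ℝ := (∫ t in (0 : ℝ)..1, x ^ 2 / (x ^ 2 + t ^ 2)) + log (1 + x ^ 2) / 2

noncomputable def Hf (y : ℝ) : ℝ := -log (sin (min y (π / 2)))

lemma Cf_neg (x : ℝ) : Cf (-x) = Cf x := by simp [Cf]

lemma sin_tangent {y φ : ℝ} (hy : y ∈ Icc 0 π) (hφ : φ ∈ Icc 0 π) :
    sin y ≤ sin φ + (y - φ) * cos φ := by
  have hc := strictConcaveOn_sin_Icc.concaveOn
  rcases lt_trichotomy φ y with h | h | h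
  · have := hc.slope_le_of_hasDerivAt hφ hy h (hasDerivAt_sin φ)
    rw [slope_def_field, div_le_iff₀ (sub_pos.2 h)] at this
    linarith
  · subst h; simp
  · have := hc.le_slope_of_hasDerivAt hy hφ h (hasDerivAt_sin φ)
    rw [slope_def_field, le_div_iff₀ (sub_pos.2 h)] at this
    linarith

lemma int_rat {x : ℝ} (hx : 0 < x) :
    ∫ t in (0 : ℝ)..1, x ^ 2 / (x ^ 2 + t ^ 2) = x * arctan (1 / x) := by
  have hd : ∀ t ∈ uIcc (0 : ℝ) 1, HasDerivAt (fun t => x * arctan (t / x))
      (x ^ 2 / (x ^ 2 + t ^ 2)) t := by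
    intro t _
    have := (((hasDerivAt_id' t).div_const x).arctan).const_mul x
    refine this.congr_deriv ?_
    field_simp
  have hc : Continuous fun t : ℝ => x ^ 2 / (x ^ 2 + t ^ 2) :=
    Continuous.div (by fun_prop) (by fun_prop) fun t => by positivity
  rw [intervalIntegral.integral_eq_sub_of_hasDerivAt hd (hc.intervalIntegrable _ _)]
  simp

lemma young0 {x y : ℝ} (hx : 0 ≤ x) (hy0 : 0 < y) (hy : y ≤ π / 2) :
    Cf x ≤ y * x - log (sin y) := by
  have hsy : 0 < sin y := sin_pos_of_pos_of_lt_pi hy0 (by linarith [pi_pos])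
  rcases eq_or_lt_of_le hx with h | h
  · subst h
    have : log (sin y) ≤ 0 := log_nonpos hsy.le (sin_le_one y)
    simp [Cf]; linarith
  unfold Cf
  rw [int_rat h]
  set φ := arctan (1 / x) with hφ
  have hφ0 : 0 < φ := arctan_pos.2 (by positivity)
  have hφ1 : φ < π / 2 := arctan_lt_pi_div_two _
  have hs : 0 < sin φ := sin_pos_of_pos_of_lt_pi hφ0 (by linarith [pi_pos])
  have hcos : 0 < cos φ := cos_arctan_pos _
  have htan : cos φ = x * sin φ := by
    have := tan_arctan (1 / x)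
    rw [← hφ, tan_eq_sin_div_cos] at this
    field_simp at this
    linarith
  have hsq : (1 + x ^ 2) * sin φ ^ 2 = 1 := by
    have := sin_sq_add_cos_sq φ
    rw [htan] at this
    linarith
  have hlog : log (1 + x ^ 2) / 2 = -log (sin φ) := by
    have := congrArg log hsq
    rw [log_mul (by positivity) (by positivity), log_pow, log_one] at this
    push_cast at this
    linarith
  have h1 := sin_tangent (y := y) (φ := φ) ⟨hy0.le, by linarith [pi_pos]⟩
    ⟨hφ0.le, by linarith [pi_pos]⟩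
  have h2 : log (sin y / sin φ) ≤ sin y / sin φ - 1 := log_le_sub_one_of_pos (by positivity)
  rw [log_div hsy.ne' hs.ne'] at h2
  have h3 : sin y / sin φ - 1 ≤ (y - φ) * x := by
    rw [div_sub_one hs.ne', div_le_iff₀ hs]
    rw [htan] at h1
    linarith
  rw [hlog]
  linarith

lemma young {x y : ℝ} (hx : 0 ≤ x) (hy0 : 0 < y) : Cf x ≤ y * x + Hf y := by
  unfold Hf
  have h := young0 hx (lt_min hy0 (by positivity : 0 < π / 2)) (min_le_right y (π / 2))
  have := mul_le_mul_of_nonneg_right (min_le_left y (π / 2)) hx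
  linarith

lemma Hf_nonneg {y : ℝ} (hy : 0 ≤ y) : 0 ≤ Hf y := by
  unfold Hf
  have h1 : 0 ≤ sin (min y (π / 2)) := sin_nonneg_of_nonneg_of_le_pi
    (le_min hy (by positivity)) ((min_le_right _ _).trans (by linarith [pi_pos]))
  have := log_nonpos h1 (sin_le_one _)
  linarith

lemma Hf_int1 : IntervalIntegrable Hf volume 0 (π / 2) := by
  have := (intervalIntegrable_log_sin (a := 0) (b := π / 2)).neg
  refine this.congr ?_
  intro y hy
  rw [uIoc_of_le (by positivity)] at hy
  simp [Hf, min_eq_left hy.2]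

lemma Hf_int {L : ℝ} (hL : 0 ≤ L) :
    IntervalIntegrable Hf volume 0 L ∧ ∫ y in (0 : ℝ)..L, Hf y ≤ log 2 * π / 2 := by
  have hval : ∫ y in (0 : ℝ)..π / 2, Hf y = log 2 * π / 2 := by
    have e : ∫ y in (0 : ℝ)..π / 2, Hf y = ∫ y in (0 : ℝ)..π / 2, -log (sin y) := by
      refine intervalIntegral.integral_congr fun y hy => ?_
      rw [uIcc_of_le (by positivity)] at hy
      simp [Hf, min_eq_left hy.2]
    rw [e, intervalIntegral.integral_neg, integral_log_sin_zero_pi_div_two]
    ring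
  rcases le_total L (π / 2) with h | h
  · have hi : IntervalIntegrable Hf volume 0 L :=
      Hf_int1.mono_set (uIcc_subset_uIcc_left (by rw [uIcc_of_le (by positivity)]; exact ⟨hL, h⟩))
    refine ⟨hi, ?_⟩
    rw [← hval]
    refine intervalIntegral.integral_mono_interval le_rfl hL h ?_ Hf_int1
    filter_upwards [ae_restrict_mem measurableSet_Ioc] with y hy using Hf_nonneg hy.1.le
  · have h0 : ∀ y ∈ uIcc (π / 2) L, Hf y = 0 := by
      intro y hy
      rw [uIcc_of_le h] at hy
      simp [Hf, min_eq_right hy.1]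
    have hi : IntervalIntegrable Hf volume (π / 2) L :=
      (intervalIntegrable_const (c := (0 : ℝ))).congr fun y hy =>
        (h0 y (uIoc_subset_uIcc hy)).symm
    refine ⟨Hf_int1.trans hi, ?_⟩
    rw [← intervalIntegral.integral_add_adjacent_intervals Hf_int1 hi, hval,
      intervalIntegral.integral_congr (g := fun _ => 0) h0]
    simp

lemma half_trunc {R : ℝ} (hR : 0 < R) {a b : ℝ} (hab : a ≤ b) (D g : ℝ → ℝ)
    (hD : ∀ s ∈ Icc a b, HasDerivAt D (-g s) s) (hg : ContinuousOn g (Icc a b))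
    (hg0 : ∀ s ∈ Icc a b, 0 ≤ g s) (hDb : 0 ≤ D b)
    (hC : IntervalIntegrable (fun s => Cf (2 * g s / R)) volume a b) :
    ∫ s in a..b, Cf (2 * g s / R) ≤ (∫ s in a..b, D s) + log 2 * π / R := by
  have hDc : ContinuousOn D (Icc a b) := fun s hs => (hD s hs).continuousAt.continuousWithinAt
  have hu : uIcc a b = Icc a b := uIcc_of_le hab
  have i1 : IntervalIntegrable D volume a b := (hu ▸ hDc).intervalIntegrable
  have c2 : ContinuousOn (fun s => (s - a) * g s) (Icc a b) := ContinuousOn.mul (by fun_prop) hg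
  have i2 : IntervalIntegrable (fun s => (s - a) * g s) volume a b := (hu ▸ c2).intervalIntegrable
  have h1 : ∫ s in a..b, (D s - (s - a) * g s) = (b - a) * D b - (a - a) * D a := by
    refine intervalIntegral.integral_eq_sub_of_hasDerivAt (f := fun s => (s - a) * D s)
      (fun s hs => ?_) (i1.sub i2)
    have := ((hasDerivAt_id' s).sub_const a).fun_mul (hD s (hu ▸ hs))
    exact this.congr_deriv (by ring)
  rw [intervalIntegral.integral_sub i1 i2] at h1
  have hR2 : R / 2 ≠ 0 := by positivity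
  obtain ⟨h2, h3⟩ := Hf_int (L := R / 2 * (b - a)) (mul_nonneg (by positivity) (sub_nonneg.2 hab))
  have i3 : IntervalIntegrable (fun s => Hf (R / 2 * (s - a))) volume a b := by
    have := (h2.comp_mul_left (c := R / 2)).comp_sub_right a
    simpa [mul_div_cancel_left₀ _ hR2] using this
  have h4 : ∫ s in a..b, Hf (R / 2 * (s - a)) ≤ log 2 * π / R := by
    rw [intervalIntegral.integral_comp_sub_right (fun s => Hf (R / 2 * s)),
      intervalIntegral.integral_comp_mul_left _ hR2]
    simp only [sub_self, mul_zero, smul_eq_mul]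
    calc (R / 2)⁻¹ * ∫ x in (0 : ℝ)..R / 2 * (b - a), Hf x ≤ (R / 2)⁻¹ * (log 2 * π / 2) := by
          gcongr
      _ = log 2 * π / R := by field_simp
  have h5 : ∫ s in a..b, Cf (2 * g s / R)
      ≤ ∫ s in a..b, ((s - a) * g s + Hf (R / 2 * (s - a))) := by
    refine intervalIntegral.integral_mono_on_of_le_Ioo hab hC (i2.add i3) fun s hs => ?_
    have := young (x := 2 * g s / R) (y := R / 2 * (s - a))
      (div_nonneg (mul_nonneg zero_le_two (hg0 s (Ioo_subset_Icc_self hs))) hR.le)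
      (mul_pos (by positivity) (sub_pos.2 hs.1))
    have e : R / 2 * (s - a) * (2 * g s / R) = (s - a) * g s := by field_simp
    linarith
  rw [intervalIntegral.integral_add i2 i3] at h5
  have := mul_nonneg (sub_nonneg.2 hab) hDb
  linarith

lemma lim_trunc {a b K : ℝ} (hab : a < b) (f : ℝ → ℝ) (hf : IntervalIntegrable f volume a b)
    (h : ∀ a' b', a < a' → a' ≤ b' → b' < b → ∫ s in a'..b', f s ≤ K) : ∫ s in a..b, f s ≤ K := by
  have hc := intervalIntegral.continuousOn_primitive_interval' hf left_mem_uIcc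
  rw [uIcc_of_le hab.le] at hc
  set F := fun x => ∫ s in a..x, f s with hF
  have hm1 : MapsTo (fun e : ℝ => a + e) (Icc 0 ((b - a) / 2)) (Icc a b) := fun e he =>
    ⟨by linarith [he.1], by linarith [he.2]⟩
  have hm2 : MapsTo (fun e : ℝ => b - e) (Icc 0 ((b - a) / 2)) (Icc a b) := fun e he =>
    ⟨by linarith [he.2], by linarith [he.1]⟩
  have hG : ContinuousOn (fun e : ℝ => F (b - e) - F (a + e)) (Icc 0 ((b - a) / 2)) :=
    (hc.comp (by fun_prop) hm2).sub (hc.comp (by fun_prop) hm1)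
  have hle : ∀ e ∈ Ioc (0 : ℝ) ((b - a) / 2), F (b - e) - F (a + e) ≤ K := by
    intro e he
    have hs1 : IntervalIntegrable f volume a (b - e) := hf.mono_set (uIcc_subset_uIcc_left
      (by rw [uIcc_of_le hab.le]; exact hm2 ⟨he.1.le, he.2⟩))
    have hs2 : IntervalIntegrable f volume a (a + e) := hf.mono_set (uIcc_subset_uIcc_left
      (by rw [uIcc_of_le hab.le]; exact hm1 ⟨he.1.le, he.2⟩))
    simp only [hF]
    rw [intervalIntegral.integral_interval_sub_left hs1 hs2]
    exact h _ _ (by linarith [he.1]) (by linarith [he.2]) (by linarith [he.1])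
  have hcl : (0 : ℝ) ∈ closure (Ioc (0 : ℝ) ((b - a) / 2)) := by
    rw [closure_Ioc (by linarith)]; exact ⟨le_rfl, by linarith⟩
  have := ContinuousWithinAt.closure_le hcl
    ((hG 0 ⟨le_rfl, by linarith⟩).mono Ioc_subset_Icc_self) continuousWithinAt_const hle
  simpa [hF] using this

lemma half_arc {R : ℝ} (hR : 0 < R) {a b : ℝ} (hab : a ≤ b) (D g : ℝ → ℝ)
    (hD : ∀ s ∈ Ioo a b, HasDerivAt D (-g s) s) (hg : ContinuousOn g (Ioo a b))
    (hg0 : ∀ s ∈ Ioo a b, 0 ≤ g s) (hD0 : ∀ s ∈ Ioo a b, 0 ≤ D s)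
    (hDi : IntervalIntegrable D volume a b)
    (hC : IntervalIntegrable (fun s => Cf (2 * g s / R)) volume a b) :
    ∫ s in a..b, Cf (2 * g s / R) ≤ (∫ s in a..b, D s) + log 2 * π / R := by
  rcases eq_or_lt_of_le hab with h | h
  · subst h
    have := log_pos one_lt_two
    simp only [intervalIntegral.integral_same, zero_add]
    positivity
  refine lim_trunc h _ hC fun a' b' h1 h2 h3 => ?_
  have hsub : Icc a' b' ⊆ Ioo a b := Icc_subset_Ioo h1 h3
  have hsub' : uIcc a' b' ⊆ uIcc a b := by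
    rw [uIcc_of_le h2, uIcc_of_le hab]; exact hsub.trans Ioo_subset_Icc_self
  have := half_trunc hR h2 D g (fun s hs => hD s (hsub hs)) (hg.mono hsub)
    (fun s hs => hg0 s (hsub hs)) (hD0 b' (hsub ⟨h2, le_rfl⟩)) (hC.mono_set hsub')
  refine this.trans (add_le_add_left ?_ _)
  refine intervalIntegral.integral_mono_interval h1.le h2 h3.le ?_ hDi
  rw [← restrict_Ioo_eq_restrict_Ioc]
  filter_upwards [ae_restrict_mem measurableSet_Ioo] with y hy using hD0 y hy

lemma full_arc {R : ℝ} (hR : 0 < R) {a b : ℝ} (hab : a ≤ b) (D g : ℝ → ℝ)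
    (hD : ∀ s ∈ Ioo a b, HasDerivAt D (-g s) s) (hg : ContinuousOn g (Ioo a b))
    (hanti : AntitoneOn g (Ioo a b)) (hD0 : ∀ s ∈ Ioo a b, 0 ≤ D s)
    (hDi : IntervalIntegrable D volume a b)
    (hC : IntervalIntegrable (fun s => Cf (2 * g s / R)) volume a b) :
    ∫ s in a..b, Cf (2 * g s / R) ≤ (∫ s in a..b, D s) + 2 * (log 2 * π / R) := by
  set A : Set ℝ := insert a {s | s ∈ Ioo a b ∧ 0 < g s} with hA
  have hbdd : BddAbove A := ⟨b, by
    rintro s (rfl | hs)
    · exact hab
    · exact hs.1.2.le⟩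
  have hne : A.Nonempty := ⟨a, mem_insert _ _⟩
  set t := sSup A with ht
  have hat : a ≤ t := le_csSup hbdd (mem_insert _ _)
  have htb : t ≤ b := csSup_le hne (by
    rintro s (rfl | hs)
    · exact hab
    · exact hs.1.2.le)
  have s1 : Ioo a t ⊆ Ioo a b := Ioo_subset_Ioo_right htb
  have s2 : Ioo t b ⊆ Ioo a b := Ioo_subset_Ioo_left hat
  have hpos : ∀ s ∈ Ioo a t, 0 ≤ g s := by
    intro s hs
    obtain ⟨y, hy, hsy⟩ := exists_lt_of_lt_csSup hne hs.2
    rcases hy with rfl | hy
    · exact absurd hs.1 (not_lt.2 hsy.le)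
    · exact hy.2.le.trans (hanti (s1 hs) hy.1 hsy.le)
  have hneg : ∀ s ∈ Ioo t b, g s ≤ 0 := by
    intro s hs
    by_contra h
    push Not at h
    have : s ≤ t := le_csSup hbdd (Or.inr ⟨s2 hs, h⟩)
    exact absurd hs.1 (not_lt.2 this)
  have u1 : uIcc a t ⊆ uIcc a b := uIcc_subset_uIcc_left (by rw [uIcc_of_le hab]; exact ⟨hat, htb⟩)
  have u2 : uIcc t b ⊆ uIcc a b := uIcc_subset_uIcc_right (by rw [uIcc_of_le hab]; exact ⟨hat, htb⟩)
  have k1 := half_arc hR hat D g (fun s hs => hD s (s1 hs)) (hg.mono s1) hpos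
    (fun s hs => hD0 s (s1 hs)) (hDi.mono_set u1) (hC.mono_set u1)
  have hm : ∀ s ∈ Ioo (-b) (-t), -s ∈ Ioo t b := fun s hs => ⟨by linarith [hs.2], by linarith [hs.1]⟩
  have e : ∀ s, Cf (2 * -g (-s) / R) = Cf (2 * g (-s) / R) := by
    intro s; rw [← Cf_neg]; congr 1; ring
  have k2 := half_arc hR (neg_le_neg htb) (fun s => D (-s)) (fun s => -g (-s)) (fun s hs => by
      have := (hD (-s) (s2 (hm s hs))).comp s (hasDerivAt_neg s)
      exact this.congr_deriv (by ring))
    (((hg.mono s2).comp (by fun_prop) hm).neg) (fun s hs => by simpa using hneg _ (hm s hs))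
    (fun s hs => hD0 _ (s2 (hm s hs)))
    (by simpa [div_neg] using (hDi.mono_set u2).symm.comp_mul_left (c := -1))
    (by simp_rw [e]; simpa [div_neg] using (hC.mono_set u2).symm.comp_mul_left (c := -1))
  simp_rw [e] at k2
  rw [intervalIntegral.integral_comp_neg (fun s => Cf (2 * g s / R)),
    intervalIntegral.integral_comp_neg D, neg_neg, neg_neg] at k2
  rw [← intervalIntegral.integral_add_adjacent_intervals (hC.mono_set u1) (hC.mono_set u2),
    ← intervalIntegral.integral_add_adjacent_intervals (hDi.mono_set u1) (hDi.mono_set u2)]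
  linarith

end Pool.Agent.H94.WProd
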