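import Pool.Agent.H94.WProd1

open Real Set MeasureTheory Filter Topology Metric

namespace Pool.Agent.H94.WProd

noncomputable abbrev ee (θ : ℝ) : ℂ := circleMap 0 1 θ

lemma norm_ee (θ : ℝ) : ‖ee θ‖ = 1 := by simp [ee]

lemma ee_re (θ : ℝ) : (ee θ).re = cos θ := by simp [ee, circleMap_zero_re]
lemma ee_im (θ : ℝ) : (ee θ).im = sin θ := by simp [ee, circleMap_zero_im]

lemma normsq_ee (s θ : ℝ) : ‖ee s - ee θ‖ ^ 2 = 2 - 2 * cos (s - θ) := by
  rw [← Complex.normSq_eq_norm_sq, Complex.normSq_apply, Complex.sub_re, Complex.sub_im, ee_re,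
    ee_re, ee_im, ee_im, cos_sub]
  nlinarith [sin_sq_add_cos_sq s, sin_sq_add_cos_sq θ]

noncomputable def kk (x : ℝ) : ℝ := sin x / (2 - 2 * cos x)

lemma herg_ee (s θ : ℝ) : (ee θ + ee s) / (ee θ - ee s) = Complex.I * (2 * kk (s - θ) : ℝ) := by
  have h := normsq_ee θ s
  rw [← Complex.normSq_eq_norm_sq] at h
  have hc : cos (θ - s) = cos (s - θ) := by rw [← cos_neg, neg_sub]
  apply Complex.ext
  · rw [Complex.div_re, ← add_div]
    simp only [Complex.add_re, Complex.sub_re, Complex.add_im, Complex.sub_im, ee_re, ee_im,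
      Complex.mul_re, Complex.I_re, Complex.I_im, Complex.ofReal_re, Complex.ofReal_im]
    have : (cos θ + cos s) * (cos θ - cos s) + (sin θ + sin s) * (sin θ - sin s) = 0 := by
      nlinarith [sin_sq_add_cos_sq s, sin_sq_add_cos_sq θ]
    rw [this]; simp
  · rw [Complex.div_im, ← sub_div, h, hc]
    simp only [Complex.add_re, Complex.sub_re, Complex.add_im, Complex.sub_im, ee_re, ee_im,
      Complex.mul_im, Complex.I_re, Complex.I_im, Complex.ofReal_re, Complex.ofReal_im, kk, sin_sub]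
    ring

lemma herg_re {z w : ℂ} (hz : ‖z‖ = 1) (hw : ‖w‖ ≤ 1) : 0 ≤ ((z + w) / (z - w)).re := by
  rw [Complex.div_re, ← add_div]
  refine div_nonneg ?_ (Complex.normSq_nonneg _)
  have h1 : z.re * z.re + z.im * z.im = 1 := by
    rw [← Complex.normSq_apply, Complex.normSq_eq_norm_sq, hz]; simp
  have h2 : w.re * w.re + w.im * w.im ≤ 1 := by
    rw [← Complex.normSq_apply, Complex.normSq_eq_norm_sq]
    nlinarith [norm_nonneg w]
  simp only [Complex.add_re, Complex.sub_re, Complex.add_im, Complex.sub_im]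
  nlinarith

section
variable (S : Finset ℝ) (q : ℝ → ℝ) (R : ℝ)

noncomputable def gg (s : ℝ) : ℝ := ∑ θ ∈ S, q θ * kk (s - θ)
noncomputable def uu (s : ℝ) : ℝ := ∑ θ ∈ S, q θ * log ‖ee s - ee θ‖
noncomputable def ze (w : ℂ) : ℂ := ∑ θ ∈ S, ((q θ / R : ℝ) : ℂ) * ((ee θ + w) / (ee θ - w))
noncomputable def PP (w : ℂ) : ℂ := ∏ θ ∈ S, (ee θ - w)
noncomputable def NN (w : ℂ) : ℂ :=
  ∑ θ ∈ S, ((q θ / R : ℝ) : ℂ) * ((ee θ + w) * ∏ θ' ∈ S.erase θ, (ee θ' - w))

lemma ze_ee (s : ℝ) : ze S q R (ee s) = Complex.I * (2 * gg S q s / R : ℝ) := by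
  unfold ze gg
  simp_rw [herg_ee]
  push_cast
  rw [Finset.mul_sum, Finset.sum_div, Finset.mul_sum]
  refine Finset.sum_congr rfl fun θ _ => ?_
  ring

lemma NN_eq {w : ℂ} (h : PP S w ≠ 0) : NN S q R w = ze S q R w * PP S w := by
  unfold NN ze
  rw [Finset.sum_mul]
  refine Finset.sum_congr rfl fun θ hθ => ?_
  have h1 : ee θ - w ≠ 0 := (Finset.prod_ne_zero_iff.1 h) θ hθ
  unfold PP
  rw [← Finset.mul_prod_erase S _ hθ]
  field_simp

lemma PP_diff : Differentiable ℂ (PP S) := by unfold PP; fun_prop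
lemma NN_diff : Differentiable ℂ (NN S q R) := by unfold NN; fun_prop

lemma PP_zero : ‖PP S 0‖ = 1 := by simp [PP, norm_prod]

lemma ae_PP : ∀ᵐ s : ℝ, PP S (ee s) ≠ 0 := by
  have hc : (ee ⁻¹' (ee '' (S : Set ℝ))).Countable :=
    (S.finite_toSet.image ee).countable.preimage_circleMap 0 one_ne_zero
  filter_upwards [hc.ae_notMem volume] with s hs
  refine Finset.prod_ne_zero_iff.2 fun θ hθ h => hs ⟨θ, hθ, sub_eq_zero.1 h⟩

variable {S q R} (hinj : InjOn ee S) (hq : ∀ θ ∈ S, 0 < q θ) (hR : 0 < R) (hsum : ∑ θ ∈ S, q θ = R)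
include hq hR

lemma ze_re {w : ℂ} (hw : ‖w‖ ≤ 1) : 0 ≤ (ze S q R w).re := by
  unfold ze
  rw [Complex.re_sum]
  refine Finset.sum_nonneg fun θ hθ => ?_
  rw [Complex.re_ofReal_mul]
  exact mul_nonneg (div_pos (hq θ hθ) hR).le (herg_re (norm_ee θ) hw)

include hinj
lemma den_ne {t : ℝ} (ht : 0 < t) {w : ℂ} (hw : ‖w‖ ≤ 1) : NN S q R w + t * PP S w ≠ 0 := by
  by_cases h : PP S w = 0
  · obtain ⟨θ, hθ, h0⟩ := Finset.prod_eq_zero_iff.1 h
    have hw' : w = ee θ := (sub_eq_zero.1 h0).symm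
    rw [h, mul_zero, add_zero]
    unfold NN
    rw [Finset.sum_eq_single θ]
    · refine mul_ne_zero (by exact_mod_cast (div_pos (hq θ hθ) hR).ne') (mul_ne_zero ?_ ?_)
      · rw [hw', ← two_mul]
        exact mul_ne_zero two_ne_zero (circleMap_ne_center one_ne_zero)
      · refine Finset.prod_ne_zero_iff.2 fun θ' hθ' h1 => ?_
        rw [hw', sub_eq_zero] at h1
        exact Finset.ne_of_mem_erase hθ' (hinj (Finset.mem_of_mem_erase hθ') hθ h1)
    · intro θ' _ hne
      rw [Finset.prod_eq_zero (Finset.mem_erase.2 ⟨hne.symm, hθ⟩) h0]; simp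
    · intro h1; exact absurd hθ h1
  · rw [NN_eq S q R h, ← add_mul]
    refine mul_ne_zero (fun h1 => ?_) h
    have := congrArg Complex.re h1
    have h2 := ze_re hq hR hw
    simp at this
    linarith

omit hq hinj in
include hsum in
lemma NN_zero : NN S q R 0 = PP S 0 := by
  have h : PP S 0 ≠ 0 := by
    rw [← norm_ne_zero_iff, PP_zero]; exact one_ne_zero
  rw [NN_eq S q R h]
  have : ze S q R 0 = 1 := by
    unfold ze
    have e : ∀ θ, (ee θ + 0) / (ee θ - 0) = 1 := fun θ => by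
      rw [add_zero, sub_zero, div_self (circleMap_ne_center one_ne_zero)]
    simp_rw [e, mul_one]
    rw [← Complex.ofReal_sum, ← Finset.sum_div, hsum, div_self hR.ne']; simp
  rw [this, one_mul]

include hsum
lemma meanY {t : ℝ} (ht : 0 < t) :
    ∫ s in (0 : ℝ)..2 * π, (2 * gg S q s / R) ^ 2 / ((2 * gg S q s / R) ^ 2 + t ^ 2)
      = 2 * π / (1 + t) := by
  set f : ℂ → ℂ := fun w => NN S q R w / (NN S q R w + t * PP S w) with hf
  have h1 := NN_diff S q R
  have h2 := PP_diff S
  have hdo : DifferentiableOn ℂ f (closedBall 0 1) :=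
    DifferentiableOn.div h1.differentiableOn (by fun_prop)
      fun w hw => den_ne hinj hq hR ht (by simpa using hw)
  have hd : DiffContOnCl ℂ f (ball 0 |1|) := by
    refine DifferentiableOn.diffContOnCl ?_
    rwa [abs_one, closure_ball _ one_ne_zero]
  have hav := hd.circleAverage
  have hP0 : PP S 0 ≠ 0 := by
    rw [← norm_ne_zero_iff, PP_zero]; exact one_ne_zero
  have hf0 : f 0 = ((1 / (1 + t) : ℝ) : ℂ) := by
    simp only [hf, NN_zero hR hsum]
    have : (1 : ℂ) + t ≠ 0 := by exact_mod_cast (by linarith : (1 : ℝ) + t ≠ 0)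
    push_cast
    field_simp
  have hc : Continuous fun s => f (ee s) :=
    hdo.continuousOn.comp_continuous (continuous_circleMap 0 1) fun s => by simp
  rw [circleAverage_def, hf0] at hav
  have h3 := congrArg Complex.re hav
  rw [Complex.smul_re, Complex.ofReal_re, ← Complex.reCLM_apply,
    ← ContinuousLinearMap.intervalIntegral_comp_comm _ (hc.intervalIntegrable _ _)] at h3
  have e : ∫ s in (0 : ℝ)..2 * π, (2 * gg S q s / R) ^ 2 / ((2 * gg S q s / R) ^ 2 + t ^ 2)
      = ∫ s in (0 : ℝ)..2 * π, Complex.reCLM (f (ee s)) := by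
    refine intervalIntegral.integral_congr_ae ?_
    filter_upwards [ae_PP S] with s hs _
    simp only [hf, Complex.reCLM_apply]
    rw [NN_eq S q R hs, ← add_mul, mul_div_mul_right _ _ hs, ze_ee]
    set x := 2 * gg S q s / R
    rw [Complex.div_re, Complex.normSq_apply]
    simp
    ring
  rw [e]
  simp only [smul_eq_mul] at h3
  have hpi : 0 < 2 * π := by positivity
  field_simp at h3 ⊢
  linarith

lemma meanLog :
    IntervalIntegrable (fun s => log (1 + (2 * gg S q s / R) ^ 2) / 2) volume 0 (2 * π) ∧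
    ∫ s in (0 : ℝ)..2 * π, log (1 + (2 * gg S q s / R) ^ 2) / 2 = 2 * π * log 2 := by
  have h1 := NN_diff S q R
  have h2 := PP_diff S
  set f : ℂ → ℂ := fun w => NN S q R w + (1 : ℝ) * PP S w with hf
  have hfd : Differentiable ℂ f := by fun_prop
  have hfa : AnalyticOnNhd ℂ f (closedBall 0 |1|) := fun w _ => hfd.analyticAt w
  have hav := hfa.circleAverage_log_norm_of_ne_zero
    (fun w hw => den_ne hinj hq hR one_pos (by simpa using hw))
  have hf0 : log ‖f 0‖ = log 2 := by
    simp only [hf, NN_zero hR hsum]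
    have : PP S 0 + ((1 : ℝ) : ℂ) * PP S 0 = 2 * PP S 0 := by push_cast; ring
    rw [this, norm_mul, PP_zero]; simp
  have i1 : IntervalIntegrable (fun s => log ‖f (ee s)‖) volume 0 (2 * π) :=
    MeromorphicOn.circleIntegrable_log_norm (f := f) (c := 0) (R := 1)
      fun w _ => (hfd.analyticAt w).meromorphicAt
  have i2 : ∀ θ ∈ S, IntervalIntegrable (fun s => log ‖ee s - ee θ‖) volume 0 (2 * π) :=
    fun θ _ => circleIntegrable_log_norm_sub_const (a := ee θ) (c := 0) 1
  have i3 : IntervalIntegrable (fun s => ∑ θ ∈ S, log ‖ee s - ee θ‖) volume 0 (2 * π) := by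
    have := IntervalIntegrable.sum S i2
    rwa [Finset.sum_fn] at this
  have hpi : 0 < 2 * π := by positivity
  have v2 : ∀ θ, ∫ s in (0 : ℝ)..2 * π, log ‖ee s - ee θ‖ = 0 := by
    intro θ
    have := circleAverage_log_norm_sub_const₁ (norm_ee θ)
    rw [circleAverage_def, smul_eq_mul] at this
    exact (mul_eq_zero.1 this).resolve_left (inv_ne_zero hpi.ne')
  have e : ∀ᵐ s : ℝ, log (1 + (2 * gg S q s / R) ^ 2) / 2
      = log ‖f (ee s)‖ - ∑ θ ∈ S, log ‖ee s - ee θ‖ := by
    filter_upwards [ae_PP S] with s hs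
    simp only [hf]
    rw [NN_eq S q R hs, ← add_mul, norm_mul, ze_ee]
    set x := 2 * gg S q s / R
    have e1 : ‖Complex.I * (x : ℂ) + ((1 : ℝ) : ℂ)‖ ^ 2 = 1 + x ^ 2 := by
      rw [← Complex.normSq_eq_norm_sq, Complex.normSq_apply]; simp; ring
    have e2 : ‖Complex.I * (x : ℂ) + ((1 : ℝ) : ℂ)‖ ≠ 0 := by
      intro h; rw [h] at e1; nlinarith [sq_nonneg x]
    rw [log_mul e2 (norm_ne_zero_iff.2 hs), ← e1, log_pow]
    unfold PP
    rw [norm_prod, log_prod fun θ hθ => norm_ne_zero_iff.2 (Finset.prod_ne_zero_iff.1 hs θ hθ)]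
    simp_rw [norm_sub_rev (ee s)]
    push_cast
    ring
  refine ⟨(i1.sub i3).congr_ae ?_, ?_⟩
  · exact ae_restrict_of_ae (e.mono fun s hs => hs.symm)
  · rw [intervalIntegral.integral_congr_ae (e.mono fun s hs _ => hs),
      intervalIntegral.integral_sub i1 i3, intervalIntegral.integral_finsetSum i2]
    simp_rw [v2]
    rw [circleAverage_def, hf0, smul_eq_mul] at hav
    rw [Finset.sum_const_zero, sub_zero, ← hav, ← mul_assoc, mul_inv_cancel₀ hpi.ne', one_mul]

lemma meanC :
    IntervalIntegrable (fun s => Cf (2 * gg S q s / R)) volume 0 (2 * π) ∧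
    ∫ s in (0 : ℝ)..2 * π, Cf (2 * gg S q s / R) = 2 * (2 * π * log 2) := by
  obtain ⟨l1, l2⟩ := meanLog hinj hq hR hsum
  have hm : Measurable fun s => 2 * gg S q s / R := by unfold gg kk; fun_prop
  set x := fun s => 2 * gg S q s / R with hx
  have hint : IntegrableOn (Function.uncurry fun s t : ℝ => x s ^ 2 / (x s ^ 2 + t ^ 2))
      (uIoc 0 (2 * π) ×ˢ uIoc 0 1) := by
    refine Measure.integrableOn_of_bounded (M := 1) ?_ ?_ ?_
    · rw [Measure.volume_eq_prod, Measure.prod_prod]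
      exact ENNReal.mul_ne_top (by simp [uIoc]) (by simp [uIoc])
    · refine Measurable.aestronglyMeasurable ?_
      unfold Function.uncurry
      fun_prop
    · refine Eventually.of_forall fun w => ?_
      simp only [Function.uncurry]
      rw [Real.norm_of_nonneg (by positivity)]
      exact div_le_one_of_le₀ (by nlinarith [sq_nonneg w.2]) (by positivity)
  have i1 : IntervalIntegrable (fun s => ∫ t in (0 : ℝ)..1, x s ^ 2 / (x s ^ 2 + t ^ 2)) volume
      0 (2 * π) := by
    rw [intervalIntegrable_iff]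
    have h := hint
    rw [IntegrableOn, Measure.volume_eq_prod, ← Measure.prod_restrict] at h
    have := h.integral_prod_left
    simp only [Function.uncurry] at this
    refine this.congr (Eventually.of_forall fun s => ?_)
    simp only
    rw [intervalIntegral.integral_of_le zero_le_one, uIoc_of_le zero_le_one]
  have v1 : ∫ s in (0 : ℝ)..2 * π, ∫ t in (0 : ℝ)..1, x s ^ 2 / (x s ^ 2 + t ^ 2)
      = 2 * π * log 2 := by
    rw [intervalIntegral_intervalIntegral_swap hint]
    have e : ∫ t in (0 : ℝ)..1, ∫ s in (0 : ℝ)..2 * π, x s ^ 2 / (x s ^ 2 + t ^ 2)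
        = ∫ t in (0 : ℝ)..1, 2 * π * (1 + t)⁻¹ := by
      refine intervalIntegral.integral_congr_ae (Eventually.of_forall fun t ht => ?_)
      rw [uIoc_of_le zero_le_one] at ht
      rw [← div_eq_mul_inv]
      exact meanY hinj hq hR hsum ht.1
    rw [e, intervalIntegral.integral_const_mul,
      intervalIntegral.integral_comp_add_left (fun t : ℝ => t⁻¹) 1, integral_inv_of_pos]
    · norm_num
    · norm_num
    · norm_num
  unfold Cf
  refine ⟨i1.add l1, ?_⟩
  rw [intervalIntegral.integral_add i1 l1, v1, l2]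
  ring

end

lemma meanU (S : Finset ℝ) (q : ℝ → ℝ) :
    IntervalIntegrable (uu S q) volume 0 (2 * π) ∧ ∫ s in (0 : ℝ)..2 * π, uu S q s = 0 := by
  have i2 : ∀ θ ∈ S, IntervalIntegrable (fun s => q θ * log ‖ee s - ee θ‖) volume 0 (2 * π) :=
    fun θ _ => IntervalIntegrable.const_mul
      (circleIntegrable_log_norm_sub_const (a := ee θ) (c := 0) 1) _
  have hpi : 0 < 2 * π := by positivity
  have v2 : ∀ θ, ∫ s in (0 : ℝ)..2 * π, log ‖ee s - ee θ‖ = 0 := by
    intro θ
    have := circleAverage_log_norm_sub_const₁ (norm_ee θ)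
    rw [circleAverage_def, smul_eq_mul] at this
    exact (mul_eq_zero.1 this).resolve_left (inv_ne_zero hpi.ne')
  constructor
  · have := IntervalIntegrable.sum S i2
    rwa [Finset.sum_fn] at this
  · unfold uu
    rw [intervalIntegral.integral_finsetSum i2]
    simp_rw [intervalIntegral.integral_const_mul, v2]
    simp

end Pool.Agent.H94.WProd
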