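import Pool.Agent.H94.WProd2

open Real Set MeasureTheory Filter Topology Metric

namespace Pool.Agent.H94.WProd

lemma den_pos {x : ℝ} (h : cos x ≠ 1) : 0 < 2 - 2 * cos x := by
  have := lt_of_le_of_ne (cos_le_one x) h
  linarith

lemma hasDeriv_log (θ s : ℝ) (h : cos (s - θ) ≠ 1) :
    HasDerivAt (fun s => log ‖ee s - ee θ‖) (kk (s - θ)) s := by
  have e : (fun s => log ‖ee s - ee θ‖) = fun s => log (2 - 2 * cos (s - θ)) / 2 := by
    funext s; rw [← normsq_ee, log_pow]; push_cast; ring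
  rw [e]
  have h1 := ((((hasDerivAt_id' s).sub_const θ).cos.const_mul 2).const_sub 2).log
    (den_pos h).ne' |>.div_const 2
  refine h1.congr_deriv ?_
  unfold kk
  have := (den_pos h).ne'
  field_simp

lemma hasDeriv_kk (θ s : ℝ) (h : cos (s - θ) ≠ 1) :
    HasDerivAt (fun s => kk (s - θ)) (-(2 - 2 * cos (s - θ))⁻¹) s := by
  have h0 := (hasDerivAt_id' s).sub_const θ
  have h1 := h0.sin.fun_div ((h0.cos.const_mul 2).const_sub 2) (den_pos h).ne'
  refine h1.congr_deriv ?_
  have := (den_pos h).ne'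
  field_simp
  nlinarith [sin_sq_add_cos_sq (s - θ)]

lemma arc_est {S : Finset ℝ} {q : ℝ → ℝ} {R M : ℝ} (hq : ∀ θ ∈ S, 0 < q θ) (hR : 0 < R)
    {a b : ℝ} (hab : a ≤ b) (hno : ∀ s ∈ Ioo a b, ∀ θ ∈ S, cos (s - θ) ≠ 1)
    (hM : ∀ s, (∀ θ ∈ S, cos (s - θ) ≠ 1) → uu S q s ≤ M)
    (hDi : IntervalIntegrable (fun s => M - uu S q s) volume a b)
    (hC : IntervalIntegrable (fun s => Cf (2 * gg S q s / R)) volume a b) :
    ∫ s in a..b, Cf (2 * gg S q s / R)
      ≤ (∫ s in a..b, (M - uu S q s)) + 2 * (log 2 * π / R) := by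
  have hg : ∀ s ∈ Ioo a b, HasDerivAt (gg S q)
      (∑ θ ∈ S, q θ * -(2 - 2 * cos (s - θ))⁻¹) s := by
    intro s hs
    exact HasDerivAt.fun_sum fun θ hθ => (hasDeriv_kk θ s (hno s hs θ hθ)).const_mul _
  have hgc : ContinuousOn (gg S q) (Ioo a b) :=
    fun s hs => (hg s hs).continuousAt.continuousWithinAt
  refine full_arc hR hab _ _ (fun s hs => ?_) hgc ?_ (fun s hs => sub_nonneg.2 (hM s (hno s hs)))
    hDi hC
  · exact (HasDerivAt.fun_sum fun θ hθ =>
      (hasDeriv_log θ s (hno s hs θ hθ)).const_mul (q θ)).const_sub M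
  · refine antitoneOn_of_deriv_nonpos (convex_Ioo a b) hgc ?_ ?_
    · rw [interior_Ioo]
      exact fun s hs => (hg s hs).differentiableAt.differentiableWithinAt
    · rw [interior_Ioo]
      intro s hs
      rw [(hg s hs).deriv]
      refine Finset.sum_nonpos fun θ hθ => mul_nonpos_of_nonneg_of_nonpos (hq θ hθ).le ?_
      have := den_pos (hno s hs θ hθ)
      exact neg_nonpos.2 (by positivity)

theorem core {S : Finset ℝ} {q : ℝ → ℝ} {R M : ℝ} (hS : ∀ θ ∈ S, θ ∈ Ico 0 (2 * π))
    (hq : ∀ θ ∈ S, 0 < q θ) (hR : 0 < R) (hsum : ∑ θ ∈ S, q θ = R) (hcard : (S.card : ℝ) ≤ R)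
    (hM : ∀ s, (∀ θ ∈ S, cos (s - θ) ≠ 1) → uu S q s ≤ M) : log 2 ≤ M := by
  have hpi : 0 < 2 * π := by positivity
  have hinj : InjOn ee S :=
    (injOn_circleMap_of_abs_sub_le' (c := 0) one_ne_zero (by simp)).mono fun θ hθ => hS θ hθ
  have hm : 0 < S.card := by
    rw [Finset.card_pos]
    by_contra h
    rw [Finset.not_nonempty_iff_eq_empty] at h
    rw [h, Finset.sum_empty] at hsum
    linarith
  obtain ⟨c1, c2⟩ := meanC hinj hq hR hsum
  obtain ⟨u1, u2⟩ := meanU S q
  have pC : Function.Periodic (fun s => Cf (2 * gg S q s / R)) (2 * π) := by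
    intro s
    have : ∀ θ, kk (s + 2 * π - θ) = kk (s - θ) := by
      intro θ
      rw [add_sub_right_comm]
      simp [kk]
    simp only [gg, this]
  have pD : Function.Periodic (fun s => M - uu S q s) (2 * π) := by
    intro s
    simp only [uu, ee, periodic_circleMap 0 1 s]
  have iC := pC.intervalIntegrable₀ hpi.ne' c1
  have d1 : IntervalIntegrable (fun s => M - uu S q s) volume 0 (2 * π) :=
    intervalIntegrable_const.sub u1
  have iD := pD.intervalIntegrable₀ hpi.ne' d1
  have d2 : ∫ s in (0 : ℝ)..2 * π, (M - uu S q s) = 2 * π * M := by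
    rw [intervalIntegral.integral_sub intervalIntegrable_const u1, u2]; simp
  set e := S.orderEmbOfFin (k := S.card) rfl with he
  have hemem : ∀ j, e j ∈ Ico 0 (2 * π) := fun j => hS _ (S.orderEmbOfFin_mem rfl j)
  set a : ℕ → ℝ := fun k => if h : k < S.card then e ⟨k, h⟩ else e ⟨0, hm⟩ + 2 * π with ha
  have ha0 : a 0 = e ⟨0, hm⟩ := by simp [ha, hm]
  have ham : a S.card = a 0 + 2 * π := by rw [ha0]; simp [ha]
  have hmin : ∀ j, e ⟨0, hm⟩ ≤ e j := fun j => e.monotone (Nat.zero_le _)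
  have hup : ∀ k, a k ≤ e ⟨0, hm⟩ + 2 * π := by
    intro k
    simp only [ha]
    split_ifs with h
    · linarith [(hemem ⟨k, h⟩).2, (hemem ⟨0, hm⟩).1]
    · exact le_rfl
  have harc : ∀ k < S.card, a k ≤ a (k + 1) ∧
      ∀ s ∈ Ioo (a k) (a (k + 1)), ∀ θ ∈ S, cos (s - θ) ≠ 1 := by
    intro k hk
    have hak : a k = e ⟨k, hk⟩ := by simp [ha, hk]
    constructor
    · by_cases h : k + 1 < S.card
      · have : a (k + 1) = e ⟨k + 1, h⟩ := by simp [ha, h]
        rw [hak, this]
        exact e.monotone (Nat.le_succ k)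
      · have : a (k + 1) = e ⟨0, hm⟩ + 2 * π := by simp [ha, h]
        rw [this]; exact hup k
    · intro s hs θ hθ
      obtain ⟨j, rfl⟩ : ∃ j, e j = θ := by
        have : θ ∈ Set.range e := by rw [he, Finset.range_orderEmbOfFin]; exact hθ
        exact this
      by_cases hj : (j : ℕ) ≤ k
      · have h1 : e j ≤ a k := by rw [hak]; exact e.monotone hj
        rw [Ne, cos_eq_one_iff_of_lt_of_lt (by linarith [hs.1]) (by
          linarith [hs.2, hup (k + 1), hmin j])]
        linarith [hs.1]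
      · have h : k + 1 < S.card := by have := j.2; omega
        have h0 : a (k + 1) = e ⟨k + 1, h⟩ := by simp [ha, h]
        have h1 : a (k + 1) ≤ e j := by
          rw [h0]; exact e.monotone (show k + 1 ≤ (j : ℕ) by omega)
        have h2 : 0 ≤ a k := by rw [hak]; exact (hemem _).1
        rw [Ne, cos_eq_one_iff_of_lt_of_lt (by linarith [hs.1, (hemem j).2]) (by
          linarith [hs.2])]
        linarith [hs.2]
  have s1 := intervalIntegral.sum_integral_adjacent_intervals (μ := volume) (a := a) (n := S.card)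
    (f := fun s => Cf (2 * gg S q s / R)) fun k _ => iC _ _
  have s2 := intervalIntegral.sum_integral_adjacent_intervals (μ := volume) (a := a) (n := S.card)
    (f := fun s => M - uu S q s) fun k _ => iD _ _
  rw [ham, pC.intervalIntegral_add_eq (a 0) 0, zero_add, c2] at s1
  rw [ham, pD.intervalIntegral_add_eq (a 0) 0, zero_add, d2] at s2
  have s3 : ∑ k ∈ Finset.range S.card, ∫ s in a k..a (k + 1), Cf (2 * gg S q s / R)
      ≤ ∑ k ∈ Finset.range S.card,
        ((∫ s in a k..a (k + 1), (M - uu S q s)) + 2 * (log 2 * π / R)) := by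
    refine Finset.sum_le_sum fun k hk => ?_
    obtain ⟨h1, h2⟩ := harc k (Finset.mem_range.1 hk)
    exact arc_est hq hR h1 h2 hM (iD _ _) (iC _ _)
  rw [Finset.sum_add_distrib, s1, s2, Finset.sum_const, Finset.card_range, nsmul_eq_mul] at s3
  have hl := log_pos one_lt_two
  have h1 : (S.card : ℝ) * (2 * (log 2 * π / R)) ≤ 2 * π * log 2 := by
    calc (S.card : ℝ) * (2 * (log 2 * π / R)) ≤ R * (2 * (log 2 * π / R)) := by gcongr
      _ = 2 * π * log 2 := by field_simp
  have : 2 * π * log 2 ≤ 2 * π * M := by linarith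
  exact le_of_mul_le_mul_left this hpi

theorem main (r : ℕ) (hr : 1 ≤ r) (z : Fin r → ℂ) (hz : ∀ j, ‖z j‖ = 1) (p : Fin r → ℝ)
    (hp : ∀ j, 0 ≤ p j) (hsum : ∑ j, p j = r) :
    ∃ w : ℂ, ‖w‖ = 1 ∧ 2 ≤ ∏ j, ‖w - z j‖ ^ p j := by
  classical
  have hpi : 0 < 2 * π := by positivity
  have hθ : ∀ j, ∃ θ ∈ Ico 0 (2 * π), ee θ = z j := by
    intro j
    have h1 : z j ∈ sphere (0 : ℂ) |1| := by simpa using hz j
    rw [← range_circleMap] at h1
    obtain ⟨t, ht⟩ := h1
    obtain ⟨y, hy, hy2⟩ := (periodic_circleMap 0 1).exists_mem_Ico₀ hpi t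
    exact ⟨y, hy, hy2.symm.trans ht⟩
  choose θ hθ1 hθ2 using hθ
  have hc : Continuous fun w : ℂ => ∏ j, ‖w - z j‖ ^ p j :=
    continuous_finsetProd _ fun j _ => Continuous.rpow_const (by fun_prop) fun _ => Or.inr (hp j)
  obtain ⟨w, hw, hmax⟩ := (isCompact_sphere (0 : ℂ) 1).exists_isMaxOn ⟨1, by simp⟩ hc.continuousOn
  refine ⟨w, by simpa using hw, ?_⟩
  by_contra hlt
  push Not at hlt
  set M := max (∏ j, ‖w - z j‖ ^ p j) 1 with hM
  have hM2 : M < 2 := max_lt hlt one_lt_two
  have hM1 : 1 ≤ M := le_max_right _ _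
  set J := Finset.univ.filter fun j => 0 < p j with hJ
  set S := J.image θ with hS
  set q : ℝ → ℝ := fun t => ∑ j ∈ J.filter (fun j => θ j = t), p j with hq
  have hfib : ∀ f : ℝ → ℝ, ∑ t ∈ S, q t * f t = ∑ j, p j * f (θ j) := by
    intro f
    have e1 : ∑ j, p j * f (θ j) = ∑ j ∈ J, p j * f (θ j) := by
      rw [hJ, Finset.sum_filter]
      refine Finset.sum_congr rfl fun j _ => ?_
      split_ifs with h
      · rfl
      · rw [le_antisymm (not_lt.1 h) (hp j), zero_mul]
    rw [e1, ← Finset.sum_fiberwise_of_maps_to (s := J) (t := S) (g := θ)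
      fun j hj => Finset.mem_image_of_mem θ hj]
    refine Finset.sum_congr rfl fun t _ => ?_
    rw [hq, Finset.sum_mul]
    refine Finset.sum_congr rfl fun j hj => ?_
    rw [(Finset.mem_filter.1 hj).2]
  have key : log 2 ≤ log M := by
    refine core (S := S) (q := q) (R := r) ?_ ?_ (by exact_mod_cast hr) ?_ ?_ ?_
    · intro t ht
      obtain ⟨j, -, rfl⟩ := Finset.mem_image.1 ht
      exact hθ1 j
    · intro t ht
      obtain ⟨j, hj, rfl⟩ := Finset.mem_image.1 ht
      refine Finset.sum_pos (fun i hi => ?_) ⟨j, Finset.mem_filter.2 ⟨hj, rfl⟩⟩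
      exact (Finset.mem_filter.1 (Finset.mem_filter.1 hi).1).2
    · have := hfib fun _ => 1
      simpa [hsum] using this
    · have h1 : S.card ≤ r := by
        refine Finset.card_image_le.trans ((Finset.card_filter_le _ _).trans ?_)
        simp
      exact_mod_cast h1
    · intro s hs
      have h1 : ∏ j, ‖ee s - z j‖ ^ p j = exp (uu S q s) := by
        unfold uu
        rw [hfib fun t => log ‖ee s - ee t‖, exp_sum]
        refine Finset.prod_congr rfl fun j _ => ?_
        rw [hθ2]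
        rcases eq_or_lt_of_le (hp j) with h | h
        · rw [← h]; simp
        · have h2 := den_pos (hs (θ j) (Finset.mem_image_of_mem θ
            (Finset.mem_filter.2 ⟨Finset.mem_univ j, h⟩)))
          rw [← normsq_ee, hθ2] at h2
          have h3 : 0 < ‖ee s - z j‖ := by
            rcases eq_or_lt_of_le (norm_nonneg (ee s - z j)) with h4 | h4
            · rw [← h4] at h2; simp at h2
            · exact h4
          rw [rpow_def_of_pos h3, mul_comm]
      have h2 : ∏ j, ‖ee s - z j‖ ^ p j ≤ M := by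
        have := isMaxOn_iff.1 hmax (ee s) (by simp)
        exact this.trans (le_max_left _ _)
      rw [h1] at h2
      exact (le_log_iff_exp_le (by linarith)).2 h2
  have := log_lt_log (by linarith) hM2
  linarith

end Pool.Agent.H94.WProd
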