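import Mathlib

set_option autoImplicit false

namespace Pool.Agent.H94.ZDefs

/-- `a` is a (left or right) zero divisor. -/
def IsZeroDiv {A : Type} [NonUnitalCStarAlgebra A] (a : A) : Prop :=
  ∃ b : A, b ≠ 0 ∧ (a * b = 0 ∨ b * a = 0)

/-- `A` is a `Z*`-algebra: every positive element (an element of the form `x⋆ x`) is a zero
divisor. -/
def IsZStar (A : Type) [NonUnitalCStarAlgebra A] : Prop :=
  ∀ a : A, (∃ x : A, a = star x * x) → IsZeroDiv a

/-- `A` is simple: nonzero, and every closed two-sided ideal (closed linear subspace stable under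
left and right multiplication) is zero or everything. -/
def IsSimple (A : Type) [NonUnitalCStarAlgebra A] : Prop :=
  Nontrivial A ∧ ∀ I : Submodule ℂ A, IsClosed (I : Set A) →
    (∀ x ∈ I, ∀ y : A, x * y ∈ I ∧ y * x ∈ I) → I = ⊥ ∨ I = ⊤

end Pool.Agent.H94.ZDefs
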