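import Pool.Agent.H94.ZDefs

set_option autoImplicit false

namespace Pool.Agent.H94.ZProof

open Pool.Agent.H94.ZDefs Filter
open scoped Topology MultiplierAlgebra CStarAlgebra

lemma exists_dom {B : Type} [NonUnitalCStarAlgebra B] (j : ℕ → B) :
    ∃ p : B, (∃ x, p = star x * x) ∧ ∀ b, p * b = 0 → ∀ k, j k * b = 0 := by
  let _ := CStarAlgebra.spectralOrder B
  have := CStarAlgebra.spectralOrderedRing B
  let c : ℕ → ℝ := fun k => (1 / 2) ^ k / (‖j k‖ + 1)
  have hc : ∀ k, 0 < c k := fun k => by positivity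
  let y : ℕ → B := fun k => (c k : ℂ) • j k
  have hy : ∀ k, ‖y k‖ ≤ (1 / 2) ^ k := by
    intro k
    simp only [y, norm_smul, Complex.norm_real, Real.norm_eq_abs, abs_of_pos (hc k), c]
    rw [div_mul_eq_mul_div, div_le_iff₀ (by positivity)]
    have : (0 : ℝ) < (1 / 2) ^ k := by positivity
    nlinarith
  have hs : Summable fun k => star (y k) * y k := by
    refine Summable.of_norm_bounded summable_geometric_two fun k => ?_
    rw [CStarRing.norm_star_mul_self]
    have h1 : (1 / 2 : ℝ) ^ k ≤ 1 := pow_le_one₀ (by norm_num) (by norm_num)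
    have := hy k
    nlinarith [norm_nonneg (y k)]
  refine ⟨∑' k, star (y k) * y k, CStarAlgebra.nonneg_iff_eq_star_mul_self.1
    (tsum_nonneg fun k => star_mul_self_nonneg _), fun b hb k => ?_⟩
  have h1 := hs.le_tsum k fun i _ => star_mul_self_nonneg (y i)
  have h2 := star_left_conjugate_le_conjugate h1 b
  rw [mul_assoc (star b) (∑' k, star (y k) * y k), hb, mul_zero] at h2
  have e : star b * (star (y k) * y k) * b = star (y k * b) * (y k * b) := by
    simp [mul_assoc]
  rw [e] at h2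
  have h3 := (CStarRing.star_mul_self_eq_zero_iff _).1
    (le_antisymm h2 (star_mul_self_nonneg _))
  simp only [y, smul_mul_assoc] at h3
  exact (smul_eq_zero.1 h3).resolve_left (by exact_mod_cast (hc k).ne')

lemma right_div {A : Type} [NonUnitalCStarAlgebra A] (h : IsZStar A) {p : A}
    (hp : ∃ x, p = star x * x) : ∃ b, b ≠ 0 ∧ p * b = 0 := by
  obtain ⟨b, hb, h1 | h1⟩ := h p hp
  · exact ⟨b, hb, h1⟩
  · obtain ⟨x, rfl⟩ := hp
    refine ⟨star b, by simpa using hb, ?_⟩
    have := congrArg star h1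
    simpa [mul_assoc] using this

theorem extension {J A C : Type} [NonUnitalCStarAlgebra J] [NonUnitalCStarAlgebra A]
    [NonUnitalCStarAlgebra C] (ι : J →⋆ₙₐ[ℂ] A) (π : A →⋆ₙₐ[ℂ] C)
    (hι : Function.Injective ι) (hπ : Function.Surjective π) (hex : Function.Exact ι π)
    (hJ : IsZStar J) (hC : IsZStar C) (hs : IsSimple C) : IsZStar A := by
  intro a ha
  by_contra hna
  have hna' : ∀ b, a * b = 0 → b = 0 := by
    intro b hb
    by_contra h0
    exact hna ⟨b, h0, Or.inl hb⟩
  have hl : ∀ (y : A) (j : J), ∃ j' : J, ι j' = y * ι j := fun y j =>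
    (hex _).1 (by rw [map_mul, (hex _).2 ⟨j, rfl⟩, mul_zero])
  have hr : ∀ (y : A) (j : J), ∃ j' : J, ι j' = ι j * y := fun y j =>
    (hex _).1 (by rw [map_mul, (hex _).2 ⟨j, rfl⟩, zero_mul])
  let S : Submodule ℂ A :=
    { carrier := {x | ∃ j : J, ∀ b : J, j * b = 0 → x * ι b = 0}
      add_mem' := by
        rintro x y ⟨j1, h1⟩ ⟨j2, h2⟩
        obtain ⟨p, _, hp⟩ := exists_dom fun k => if k = 0 then j1 else j2
        refine ⟨p, fun b hb => ?_⟩
        rw [add_mul, h1 b (by simpa using hp b hb 0), h2 b (by simpa using hp b hb 1), add_zero]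
      zero_mem' := ⟨0, fun b _ => zero_mul _⟩
      smul_mem' := by
        rintro c x ⟨j, h⟩
        exact ⟨j, fun b hb => by rw [smul_mul_assoc, h b hb, smul_zero]⟩ }
  have hSl : ∀ x ∈ S, ∀ y, y * x ∈ S := by
    rintro x ⟨j, h⟩ y
    exact ⟨j, fun b hb => by rw [mul_assoc, h b hb, mul_zero]⟩
  have hSr : ∀ x ∈ S, ∀ y, x * y ∈ S := by
    rintro x ⟨j, h⟩ y
    obtain ⟨j', hj'⟩ := hr y j
    refine ⟨j', fun b hb => ?_⟩
    obtain ⟨b', hb'⟩ := hl y b
    rw [mul_assoc, ← hb']
    refine h b' (hι ?_)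
    rw [map_mul, hb', ← mul_assoc, ← hj', ← map_mul, hb]
  have hSJ : ∀ j : J, ι j ∈ S := fun j => ⟨j, fun b hb => by rw [← map_mul, hb, map_zero]⟩
  have hSc : IsClosed (S : Set A) := by
    refine isClosed_of_closure_subset fun x hx => ?_
    obtain ⟨u, hu, hlim⟩ := mem_closure_iff_seq_limit.1 hx
    choose j hj using hu
    obtain ⟨p, _, hp⟩ := exists_dom j
    refine ⟨p, fun b hb => ?_⟩
    have h1 := hlim.mul_const (ι b)
    simp only [hj _ b (hp b hb _)] at h1
    exact (tendsto_nhds_unique h1 tendsto_const_nhds)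
  let πL : A →L[ℂ] C := ⟨(π : A →ₗ[ℂ] C), map_continuous π⟩
  have hpre : πL ⁻¹' (S.map (π : A →ₗ[ℂ] C) : Set C) = S := by
    ext x
    constructor
    · rintro ⟨s, hs, hsx⟩
      obtain ⟨j, hj⟩ := (hex (x - s)).1 (by
        rw [map_sub, sub_eq_zero]
        exact hsx.symm)
      have : x = ι j + s := by rw [hj, sub_add_cancel]
      rw [this]
      exact S.add_mem (hSJ j) hs
    · intro hx
      exact ⟨x, hx, rfl⟩
  have hcl : IsClosed (S.map (π : A →ₗ[ℂ] C) : Set C) := by
    rw [← (πL.isQuotientMap hπ).isClosed_preimage, hpre]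
    exact hSc
  rcases hs.2 _ hcl (by
    rintro _ ⟨x, hx, rfl⟩ y
    obtain ⟨y, rfl⟩ := hπ y
    exact ⟨⟨x * y, hSr x hx y, map_mul π x y⟩, ⟨y * x, hSl x hx y, map_mul π y x⟩⟩) with h | h
  · obtain ⟨x, rfl⟩ := ha
    obtain ⟨c, hc, hc0⟩ := right_div hC (p := π (star x * x)) ⟨π x, by simp [map_star]⟩
    obtain ⟨y, rfl⟩ := hπ c
    obtain ⟨j, hj⟩ := (hex _).1 (show π (star x * x * y) = 0 by rw [map_mul, hc0])
    have hy : y ∈ S := ⟨j, fun b hb => hna' _ (by rw [← mul_assoc, ← hj, ← map_mul, hb, map_zero])⟩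
    have : π y ∈ S.map (π : A →ₗ[ℂ] C) := ⟨y, hy, rfl⟩
    rw [h] at this
    exact hc this
  · have ha' : a ∈ (S : Set A) := by
      rw [← hpre, h]
      trivial
    obtain ⟨j, hj⟩ := ha'
    obtain ⟨b, hb, hb0⟩ := right_div hJ (p := star j * j) ⟨j, rfl⟩
    have h1 : j * b = 0 := by
      rw [← CStarRing.star_mul_self_eq_zero_iff, star_mul, mul_assoc, ← mul_assoc (star j), hb0,
        mul_zero]
    exact hb (hι (by rw [hna' _ (hj b h1), map_zero]))

theorem woronowicz {A B : Type} [NonUnitalCStarAlgebra A] [NonUnitalCStarAlgebra B]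
    (f : A →⋆ₙₐ[ℂ] 𝓜(ℂ, B)) (hf : Function.Injective f)
    (hd : Dense (Submodule.span ℂ {y : B | ∃ (a : A) (b : B), y = (f a).fst b} : Set B))
    (hA : IsZStar A) : IsZStar B := by
  let N : Submodule ℂ B :=
    { carrier := {h | ∃ p : A, ∀ z : A, p * z = 0 → (f (star z)).fst h = 0}
      add_mem' := by
        rintro x y ⟨j1, h1⟩ ⟨j2, h2⟩
        obtain ⟨p, _, hp⟩ := exists_dom fun k => if k = 0 then j1 else j2
        refine ⟨p, fun b hb => ?_⟩
        rw [map_add, h1 b (by simpa using hp b hb 0), h2 b (by simpa using hp b hb 1), add_zero]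
      zero_mem' := ⟨0, fun b _ => map_zero _⟩
      smul_mem' := by
        rintro c x ⟨j, h⟩
        exact ⟨j, fun b hb => by rw [map_smul, h b hb, smul_zero]⟩ }
  have hNc : IsClosed (N : Set B) := by
    refine isClosed_of_closure_subset fun x hx => ?_
    obtain ⟨u, hu, hlim⟩ := mem_closure_iff_seq_limit.1 hx
    choose j hj using hu
    obtain ⟨p, _, hp⟩ := exists_dom j
    refine ⟨p, fun b hb => ?_⟩
    have h1 := ((f (star b)).fst.continuous.tendsto x).comp hlim
    simp only [Function.comp_def, hj _ b (hp b hb _)] at h1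
    exact (tendsto_nhds_unique h1 tendsto_const_nhds)
  have hle : Submodule.span ℂ {y : B | ∃ (a : A) (b : B), y = (f a).fst b} ≤ N := by
    rw [Submodule.span_le]
    rintro _ ⟨a, b, rfl⟩
    refine ⟨star a, fun z hz => ?_⟩
    have h1 : star z * a = 0 := by simpa using congrArg star hz
    have h2 : (f (star z * a)).fst b = (f (star z)).fst ((f a).fst b) := by
      rw [map_mul, DoubleCentralizer.mul_fst]
      rfl
    rw [← h2, h1, map_zero]
    rfl
  intro h _
  obtain ⟨p, hp⟩ := closure_minimal hle hNc (hd h)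
  obtain ⟨z, hz, hz0⟩ := right_div hA (p := star p * p) ⟨p, rfl⟩
  have h1 : p * z = 0 := by
    rw [← CStarRing.star_mul_self_eq_zero_iff, star_mul, mul_assoc, ← mul_assoc (star p), hz0,
      mul_zero]
  have h2 := hp z h1
  have h3 : (f (star z)).snd ≠ 0 := by
    intro h0
    have h4 := DoubleCentralizer.norm_snd (f (star z))
    rw [h0, norm_zero, eq_comm, norm_eq_zero] at h4
    exact hz (by simpa using hf (h4.trans (map_zero f).symm))
  obtain ⟨b, hb⟩ := DFunLike.ne_iff.1 h3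
  exact ⟨_, hb, Or.inr (by rw [(f (star z)).central, h2, mul_zero])⟩

end Pool.Agent.H94.ZProof
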