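import Mathlib

set_option autoImplicit false

namespace Pool.Agent.H94.ZR

open Set Filter Topology MeasureTheory

lemma N_lb (ρ : ℕ → ℝ) {m : ℝ} (hm0 : 0 < m) (hm : ∀ j, m ≤ ρ j)
    (hfin : ∀ t : ℝ, t < 1 → {j : ℕ | ρ j ≤ t}.Finite) {r : ℝ} (h0 : 0 < r) (h1 : r < 1)
    (J : Finset ℕ) :
    ∑ j ∈ J, max (Real.log r - Real.log (ρ j)) 0 ≤
      ∫ t in (0 : ℝ)..r, (Nat.card {j : ℕ // ρ j ≤ t} : ℝ) / t := by
  classical
  have hρ : ∀ j, 0 < ρ j := fun j => hm0.trans_le (hm j)
  have hcard : ∀ t, (Nat.card {j : ℕ // ρ j ≤ t}) = {j : ℕ | ρ j ≤ t}.ncard := fun t => rfl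
  have key := intervalIntegral.sub_le_integral_of_hasDeriv_right_of_le
    (g := fun t => ∑ j ∈ J, Real.log (max t (ρ j)))
    (g' := fun x => ∑ j ∈ J, if ρ j ≤ x then x⁻¹ else 0)
    (φ := fun t => (Nat.card {j : ℕ // ρ j ≤ t} : ℝ) / t) h0.le ?_ ?_ ?_ ?_
  · refine le_trans (le_of_eq ?_) key
    rw [← Finset.sum_sub_distrib]
    refine Finset.sum_congr rfl fun j _ => ?_
    rw [max_eq_right (hρ j).le]
    rcases le_total r (ρ j) with h | h
    · rw [max_eq_right h, sub_self, max_eq_right]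
      linarith [Real.log_le_log h0 h]
    · rw [max_eq_left h, max_eq_left]
      linarith [Real.log_le_log (hρ j) h]
  · refine (continuous_finsetSum J fun j _ => ?_).continuousOn
    exact Continuous.log (by fun_prop) fun t => ((hρ j).trans_le (le_max_right _ _)).ne'
  · intro x hx
    refine HasDerivWithinAt.fun_sum fun j _ => ?_
    split_ifs with h
    · refine ((Real.hasDerivAt_log hx.1.ne').hasDerivWithinAt (s := Ioi x)).congr ?_ ?_
      · intro y hy
        rw [max_eq_left (h.trans (le_of_lt hy))]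
      · rw [max_eq_left h]
    · push Not at h
      refine (HasDerivAt.congr_of_eventuallyEq (hasDerivAt_const x (Real.log (ρ j))) ?_).hasDerivWithinAt
      filter_upwards [Iio_mem_nhds h] with y hy
      rw [max_eq_right (le_of_lt hy)]
  · have hmono : MonotoneOn (fun t => (Nat.card {j : ℕ // ρ j ≤ t} : ℝ)) (Icc 0 r) := by
      intro s _ t ht hst
      simp only [hcard]
      exact_mod_cast Set.ncard_le_ncard (fun j (hj : ρ j ≤ s) => hj.trans hst)
        (hfin t (ht.2.trans_lt h1))
    have hi := (hmono.integrableOn_isCompact (μ := volume) isCompact_Icc).mul_continuousOn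
      (g' := fun t : ℝ => (max t m)⁻¹) (Continuous.continuousOn (Continuous.inv₀ (by fun_prop)
        fun t => (hm0.trans_le (le_max_right _ _)).ne')) isCompact_Icc
    refine hi.congr_fun (fun t _ => ?_) measurableSet_Icc
    rcases le_or_gt m t with h | h
    · simp only [max_eq_left h, div_eq_mul_inv]
    · have : {j : ℕ | ρ j ≤ t} = ∅ := by
        ext j
        simp only [mem_setOf_eq, mem_empty_iff_false, iff_false, not_le]
        exact h.trans_le (hm j)
      simp only [hcard, this]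
      simp
  · intro x hx
    rw [← Finset.sum_filter, Finset.sum_const, nsmul_eq_mul, div_eq_mul_inv]
    refine mul_le_mul_of_nonneg_right ?_ (inv_nonneg.2 hx.1.le)
    rw [hcard, ← Set.ncard_coe_finset]
    exact Nat.cast_le.2 (Set.ncard_le_ncard
      (fun j hj => (Finset.mem_filter.1 (Finset.mem_coe.1 hj)).2) (hfin x (hx.2.trans h1)))

lemma h_rec {l s : ℝ} (hl : 0 < l) (hs : 0 < s) :
    l ^ 2 / (s + l) ≤ (max (l - s / 4) 0 + l ^ 2 / (s / 4 + l)) / 2 := by
  rcases le_total l (s / 2) with h | h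
  · have h1 : l ^ 2 / (s + l) ≤ l ^ 2 / (s / 4 + l) / 2 := by
      rw [div_div]
      exact div_le_div_of_nonneg_left (by positivity) (by positivity) (by linarith)
    linarith [le_max_right (l - s / 4) 0]
  · have h1 : l ^ 2 / (s + l) ≤ l - s / 3 := by
      rw [div_le_iff₀ (by positivity)]; nlinarith
    have h2 : l - s / 4 ≤ l ^ 2 / (s / 4 + l) := by
      rw [le_div_iff₀ (by positivity)]; nlinarith
    linarith [le_max_left (l - s / 4) 0]

lemma absorb {α : ℝ} {W e : ℝ → ℝ} (hW : IntervalIntegrable (fun x => x ^ α * W x) volume 0 1)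
    (hW0 : ∀ x, 0 < x → 0 ≤ W x) (he : IntervalIntegrable e volume 0 1)
    (h : ∀ x ∈ Ioo (0 : ℝ) 1, ∀ γ : ℝ, 0 < γ → x ^ α * W x ≤ (γ * e x + x ^ α * W (x / 4) / γ) / 2) :
    ∫ x in (0 : ℝ)..1, x ^ α * W x ≤ 4 * (4 : ℝ) ^ α * ∫ x in (0 : ℝ)..1, e x := by
  set γ := 4 * (4 : ℝ) ^ α with hγ
  have h4 : (0 : ℝ) < 4 ^ α := by positivity
  have hγ0 : 0 < γ := by positivity
  have hc : IntervalIntegrable (fun x => (x / 4) ^ α * W (x / 4)) volume 0 1 := by
    have := (hW.comp_mul_right (c := 4⁻¹)).mono_set (c := 0) (d := 1) (by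
      rw [uIcc_of_le (by norm_num), uIcc_of_le (by norm_num)]
      exact Icc_subset_Icc (by norm_num) (by norm_num))
    simpa only [div_eq_mul_inv] using this
  have h1 : ∫ x in (0 : ℝ)..1, x ^ α * W x ≤
      ∫ x in (0 : ℝ)..1, (γ / 2 * e x + 8⁻¹ * ((x / 4) ^ α * W (x / 4))) := by
    refine intervalIntegral.integral_mono_on_of_le_Ioo zero_le_one hW
      ((he.const_mul _).add (hc.const_mul _)) fun x hx => (h x hx γ hγ0).trans (le_of_eq ?_)
    rw [Real.div_rpow hx.1.le (by norm_num), hγ]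
    field_simp
    ring
  rw [intervalIntegral.integral_add (he.const_mul _) (hc.const_mul _),
    intervalIntegral.integral_const_mul, intervalIntegral.integral_const_mul,
    intervalIntegral.integral_comp_div (fun x => x ^ α * W x) (by norm_num)] at h1
  have h2 : ∫ x in (0 : ℝ) / 4..1 / 4, x ^ α * W x ≤ ∫ x in (0 : ℝ)..1, x ^ α * W x := by
    refine intervalIntegral.integral_mono_interval (by norm_num) (by norm_num) (by norm_num) ?_ hW
    filter_upwards [ae_restrict_mem measurableSet_Ioc] with x hx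
    exact mul_nonneg (Real.rpow_nonneg hx.1.le _) (hW0 x hx.1)
  rw [smul_eq_mul] at h1
  linarith

lemma partA {p α B : ℝ} (hp : 0 < p) (hα : -1 < α) (hB : 1 ≤ B) (l : ℕ → ℝ) (hl : ∀ j, 0 < l j)
    {N : ℝ → ℝ} (hG : IntegrableOn (fun r => (1 - r) ^ α * Real.exp (p * N r)) (Ioo 0 1))
    (hN : ∀ r ∈ Ioo (0 : ℝ) 1, ∀ J : Finset ℕ, ∑ j ∈ J, max (Real.log r + l j) 0 ≤ N r) :
    ∃ Φ : ℝ → ℝ, IntegrableOn Φ (Ioo 0 1) ∧ ∀ x ∈ Ioo (0 : ℝ) 1, ∀ J : Finset ℕ,
      x ^ α * Real.exp (p * ∑ j ∈ J, l j ^ 2 / (x / B + l j)) ≤ Φ x := by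
  set D := 8 * B with hD
  have hD0 : 0 < D := by positivity
  set e : ℝ → ℝ := fun x => D ^ α * ((1 - (1 - x * D⁻¹)) ^ α * Real.exp (p * N (1 - x * D⁻¹)))
    with he
  have hei : IntervalIntegrable e volume 0 1 := by
    have h1 : IntervalIntegrable (fun r => (1 - r) ^ α * Real.exp (p * N r)) volume 0 1 :=
      (intervalIntegrable_iff_integrableOn_Ioo_of_le zero_le_one).2 hG
    have h2 := ((h1.comp_sub_left 1).comp_mul_right (c := D⁻¹)).mono_set (c := 0) (d := 1) (by
      have : (1 - 0) / D⁻¹ = D := by simp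
      rw [this, sub_self, zero_div, uIcc_of_le zero_le_one, uIcc_of_ge hD0.le]
      exact Icc_subset_Icc le_rfl (by linarith))
    exact h2.const_mul _
  set W : Finset ℕ → ℝ → ℝ := fun J x => Real.exp (p * ∑ j ∈ J, l j ^ 2 / (x / B + l j)) with hW
  have hWc : ∀ J, ContinuousOn (W J) (Icc 0 1) := fun J => by
    refine Real.continuous_exp.comp_continuousOn (continuousOn_const.mul
      (continuousOn_finsetSum J fun j _ => continuousOn_const.div (by fun_prop) fun x hx => ?_))
    have := hx.1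
    have := hl j
    positivity
  have hWi : ∀ J, IntervalIntegrable (fun x => x ^ α * W J x) volume 0 1 := fun J =>
    (intervalIntegral.intervalIntegrable_rpow' hα).mul_continuousOn
      (by rw [uIcc_of_le zero_le_one]; exact hWc J)
  set C := 4 * (4 : ℝ) ^ α * ∫ x in (0 : ℝ)..1, e x with hC
  have hint : ∀ J, ∫ x in (0 : ℝ)..1, x ^ α * W J x ≤ C := fun J => by
    refine absorb (hWi J) (fun x _ => (Real.exp_pos _).le) hei fun x hx γ hγ => ?_
    have hx0 := hx.1
    have hxD : x * D⁻¹ ≤ 8⁻¹ := by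
      rw [← div_eq_mul_inv, div_le_iff₀ hD0]; linarith [hx.2]
    have hxD0 : 0 < x * D⁻¹ := by positivity
    have e1 : e x = x ^ α * Real.exp (p * N (1 - x * D⁻¹)) := by
      simp only [he]
      rw [sub_sub_cancel, ← mul_assoc, ← Real.mul_rpow hD0.le hxD0.le]
      congr 2
      field_simp
    have hlog : -(x / B / 4) ≤ Real.log (1 - x * D⁻¹) := by
      have h1 := Real.one_sub_inv_le_log_of_pos (x := 1 - x * D⁻¹) (by linarith)
      have h2 : (1 - x * D⁻¹)⁻¹ ≤ 1 + 2 * (x * D⁻¹) := by
        rw [inv_le_iff_one_le_mul₀ (by linarith)]; nlinarith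
      have h3 : x / B / 4 = 2 * (x * D⁻¹) := by rw [hD]; field_simp; ring
      linarith
    have hs : ∑ j ∈ J, l j ^ 2 / (x / B + l j) ≤
        (N (1 - x * D⁻¹) + ∑ j ∈ J, l j ^ 2 / (x / 4 / B + l j)) / 2 := by
      have h1 := hN (1 - x * D⁻¹) ⟨by linarith, by linarith⟩ J
      have h2 : ∑ j ∈ J, l j ^ 2 / (x / B + l j) ≤ ∑ j ∈ J,
          (max (Real.log (1 - x * D⁻¹) + l j) 0 + l j ^ 2 / (x / 4 / B + l j)) / 2 := by
        refine Finset.sum_le_sum fun j _ => (h_rec (hl j) (by positivity)).trans ?_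
        have : max (l j - x / B / 4) 0 ≤ max (Real.log (1 - x * D⁻¹) + l j) 0 :=
          max_le_max (by linarith) le_rfl
        rw [div_right_comm x 4 B]
        linarith
      rw [← Finset.sum_div, Finset.sum_add_distrib] at h2
      linarith
    rw [e1]
    set a := Real.exp (p * N (1 - x * D⁻¹) / 2) with ha
    set b := Real.exp (p * (∑ j ∈ J, l j ^ 2 / (x / 4 / B + l j)) / 2) with hb
    have ha2 : Real.exp (p * N (1 - x * D⁻¹)) = a ^ 2 := by
      rw [ha, sq, ← Real.exp_add]; ring_nf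
    have hb2 : W J (x / 4) = b ^ 2 := by
      rw [hb, sq, ← Real.exp_add, add_halves]
    have hab : W J x ≤ a * b := by
      rw [ha, hb, ← Real.exp_add]
      exact Real.exp_le_exp.2 (by nlinarith)
    have hq : a * b ≤ (γ * a ^ 2 + b ^ 2 / γ) / 2 := by
      have : γ * a ^ 2 + b ^ 2 / γ - 2 * (a * b) = (γ * a - b) ^ 2 / γ := by field_simp; ring
      have h2 : 0 ≤ (γ * a - b) ^ 2 / γ := by positivity
      linarith
    rw [ha2, hb2]
    have hxa : 0 < x ^ α := by positivity
    calc x ^ α * W J x ≤ x ^ α * ((γ * a ^ 2 + b ^ 2 / γ) / 2) :=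
          mul_le_mul_of_nonneg_left (hab.trans hq) hxa.le
      _ = _ := by ring
  have hsum : ∀ x ∈ Ioo (0 : ℝ) 1, Summable fun j => l j ^ 2 / (x / B + l j) := fun x hx => by
    have hx0 := hx.1
    set I := ∫ t in (0 : ℝ)..x, t ^ α with hI
    have hI0 : 0 < I := intervalIntegral.intervalIntegral_pos_of_pos_on
      (intervalIntegral.intervalIntegrable_rpow' hα) (fun t ht => Real.rpow_pos_of_pos ht.1 _) hx0
    refine summable_of_sum_le (c := C / I / p) (fun j => by have := hl j; positivity) fun J => ?_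
    have h1 : I * W J x ≤ C := by
      refine le_trans ?_ (hint J)
      have hsub : uIcc (0 : ℝ) x ⊆ uIcc 0 1 := by
        rw [uIcc_of_le hx0.le, uIcc_of_le zero_le_one]; exact Icc_subset_Icc le_rfl hx.2.le
      rw [hI, ← intervalIntegral.integral_mul_const]
      refine le_trans (intervalIntegral.integral_mono_on_of_le_Ioo hx0.le
        ((intervalIntegral.intervalIntegrable_rpow' hα).mul_const _) ((hWi J).mono_set hsub)
        fun t ht => ?_) (intervalIntegral.integral_mono_interval le_rfl hx0.le hx.2.le ?_ (hWi J))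
      · refine mul_le_mul_of_nonneg_left (Real.exp_le_exp.2 (mul_le_mul_of_nonneg_left
          (Finset.sum_le_sum fun j _ => ?_) hp.le)) (Real.rpow_nonneg ht.1.le _)
        have := hl j
        have := ht.1
        have := ht.2
        gcongr
      · filter_upwards [ae_restrict_mem measurableSet_Ioc] with t ht
        exact mul_nonneg (Real.rpow_nonneg ht.1.le _) (Real.exp_pos _).le
    rw [le_div_iff₀ hp, le_div_iff₀ hI0]
    have h2 := Real.add_one_le_exp (p * ∑ j ∈ J, l j ^ 2 / (x / B + l j))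
    simp only [hW] at h1
    nlinarith
  refine ⟨fun x => x ^ α * Real.exp (p * ∑' j, l j ^ 2 / (x / B + l j)), ?_, fun x hx J => ?_⟩
  · refine integrable_of_tendsto (G := fun n x => x ^ α * W (Finset.range n) x) ?_ ?_ ?_
    · filter_upwards [ae_restrict_mem measurableSet_Ioo] with x hx
      exact ((Real.continuous_exp.tendsto _).comp
        (((hsum x hx).hasSum.tendsto_sum_nat).const_mul p)).const_mul _
    · exact fun n => ((intervalIntegrable_iff_integrableOn_Ioo_of_le zero_le_one).1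
        (hWi _)).aestronglyMeasurable
    · refine ne_top_of_le_ne_top (ENNReal.ofReal_ne_top (r := C))
        (liminf_le_of_frequently_le' (Frequently.of_forall fun n => ?_))
      have hi := (intervalIntegrable_iff_integrableOn_Ioo_of_le zero_le_one).1
        (hWi (Finset.range n))
      rw [← ofReal_integral_norm_eq_lintegral_enorm hi]
      refine ENNReal.ofReal_le_ofReal (le_trans (le_of_eq ?_) (hint (Finset.range n)))
      rw [intervalIntegral.integral_of_le zero_le_one, integral_Ioc_eq_integral_Ioo]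
      refine setIntegral_congr_fun measurableSet_Ioo fun x hx => ?_
      exact Real.norm_of_nonneg (mul_nonneg (Real.rpow_nonneg hx.1.le _) (Real.exp_pos _).le)
  · refine mul_le_mul_of_nonneg_left (Real.exp_le_exp.2 (mul_le_mul_of_nonneg_left
      ((hsum x hx).sum_le_tsum J fun j _ => ?_) hp.le)) (Real.rpow_nonneg hx.1.le _)
    have := hl j
    have := hx.1
    positivity

end Pool.Agent.H94.ZR
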