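import Mathlib

set_option autoImplicit false

namespace Pool.Agent.H94.ZR

open Set Filter Topology MeasureTheory Complex

lemma riem (w : ℕ → ℝ) (S : Finset ℕ) : (∀ j ∈ S, 0 ≤ w j) → ∃ θ : ℕ → ℝ,
    ∀ g : ℝ → ℝ, Continuous g → ∀ c : ℕ → ℝ,
      (∀ j ∈ S, ∀ t, |t - θ j| ≤ w j → g t ≤ c j) →
      ∫ t in (0 : ℝ)..∑ j ∈ S, w j, g t ≤ ∑ j ∈ S, w j * c j := by
  classical
  induction S using Finset.induction_on with
  | empty => exact fun _ => ⟨fun _ => 0, fun g _ c _ => by simp⟩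
  | insert i S hi ih =>
    intro hw
    obtain ⟨θ, hθ⟩ := ih fun j hj => hw j (Finset.mem_insert_of_mem hj)
    refine ⟨Function.update θ i (∑ j ∈ S, w j), fun g hg c hc => ?_⟩
    have hwi := hw i (Finset.mem_insert_self _ _)
    rw [Finset.sum_insert hi, Finset.sum_insert hi,
      ← intervalIntegral.integral_add_adjacent_intervals (b := ∑ j ∈ S, w j)
        (hg.intervalIntegrable _ _) (hg.intervalIntegrable _ _), add_comm (w i * c i)]
    refine add_le_add (hθ g hg c fun j hj t ht => hc j (Finset.mem_insert_of_mem hj) t ?_) ?_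
    · rwa [Function.update_of_ne (ne_of_mem_of_not_mem hj hi)]
    · refine le_trans (intervalIntegral.integral_mono_on (by linarith) (hg.intervalIntegrable _ _)
        (intervalIntegrable_const (c := c i)) fun t ht => hc i (Finset.mem_insert_self _ _) t ?_)
        (by simp)
      rw [Function.update_self, abs_of_nonneg (by linarith [ht.1])]
      linarith [ht.2]

lemma pois {w : ℂ} (hw : ‖w‖ < 1) :
    ∫ t in (0 : ℝ)..2 * Real.pi, (‖exp (t * I) - w‖ ^ 2)⁻¹ = 2 * Real.pi / (1 - ‖w‖ ^ 2) := by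
  have h := InnerProductSpace.HarmonicOnNhd.circleAverage_poissonKernel_smul
    (f := fun _ : ℂ => (1 : ℝ)) (c := 0) (R := 1) (w := w)
    (fun x _ => InnerProductSpace.harmonicAt_const _) (by simpa using hw)
  rw [Real.circleAverage_def] at h
  have h1 : ∀ t : ℝ, (poissonKernel 0 w • fun _ : ℂ => (1 : ℝ)) (circleMap 0 1 t) =
      (1 - ‖w‖ ^ 2) * (‖exp (t * I) - w‖ ^ 2)⁻¹ := fun t => by
    simp [poissonKernel_def, circleMap, div_eq_mul_inv]
  simp only [h1, intervalIntegral.integral_const_mul, smul_eq_mul] at h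
  have hq : 0 < 1 - ‖w‖ ^ 2 := by nlinarith [norm_nonneg w]
  have := Real.pi_pos
  rw [eq_div_iff hq.ne']
  generalize (∫ t in (0 : ℝ)..2 * Real.pi, (‖exp (t * I) - w‖ ^ 2)⁻¹) = X at h ⊢
  field_simp at h
  linarith

lemma inv_sq {A Y : ℝ} (hA : 1 ≤ A) (hY : 0 ≤ Y) : 1 / A ^ 2 - 2 * Y ≤ 1 / (A + Y) ^ 2 := by
  have h1 : 1 / A ^ 2 - 1 / (A + Y) ^ 2 = Y * ((2 * A + Y) / (A ^ 2 * (A + Y) ^ 2)) := by
    field_simp; ring
  have h2 : (2 * A + Y) / (A ^ 2 * (A + Y) ^ 2) ≤ 2 := by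
    rw [div_le_iff₀ (by positivity)]
    have h3 : 1 ≤ A ^ 2 := one_le_pow₀ hA
    have h4 : A + Y ≤ (A + Y) ^ 2 := by nlinarith
    nlinarith
  nlinarith

lemma num1 {u τ s V P : ℝ} (hu : 0 < u) (hu1 : u ≤ 1) (hτ : 0 < τ) (hτ1 : τ ≤ 1) (hs : 0 ≤ s)
    (hs2 : s ^ 2 = (1 - u) * (1 - τ)) (hV : 0 < V)
    (h : 2 * Real.pi / (1 - s ^ 2) ≤
      2 * Real.pi / V * (1 + τ / (1 - s) + 2 * Real.pi * τ / V / (1 - s)) ^ 2 * P) :
    V * (u / (u + 25 * τ)) - 256 * (u / (u + τ / 2) - u / (u + τ)) ≤ u * P := by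
  have hpi := Real.pi_pos
  have hpi4 := Real.pi_le_four
  have hq1 : 1 - s ^ 2 ≤ u + τ := by nlinarith
  have hq2 : (u + τ) / 2 ≤ 1 - s ^ 2 := by nlinarith
  have hs1 : s < 1 := by nlinarith
  have hd : (u + τ) / 4 ≤ 1 - s := by nlinarith
  set q := 1 - s ^ 2 with hq
  set d := 1 - s with hdd
  have hq0 : 0 < q := by linarith
  have hd0 : 0 < d := by linarith
  set A := 1 + τ / d with hA
  set Y := 2 * Real.pi * τ / V / d with hY
  have hA1 : 1 ≤ A := by rw [hA]; have : 0 ≤ τ / d := by positivity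
                         linarith
  have hY0 : 0 ≤ Y := by positivity
  have h1 : V / q * (1 / (A + Y) ^ 2) ≤ P := by
    have : V / q * (1 / (A + Y) ^ 2) = (2 * Real.pi / q) / (2 * Real.pi / V * (A + Y) ^ 2) := by
      field_simp
    rw [this, div_le_iff₀' (by positivity)]
    exact h
  have h2 : V / q * (1 / A ^ 2 - 2 * Y) ≤ P :=
    (mul_le_mul_of_nonneg_left (inv_sq hA1 hY0) (by positivity)).trans h1
  have h3 : 1 / (u + 25 * τ) ≤ 1 / q * (1 / A ^ 2) := by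
    rw [div_mul_div_comm, mul_one]
    refine one_div_le_one_div_of_le (by positivity) ?_
    have hA2 : A ≤ (u + 5 * τ) / (u + τ) := by
      have : τ / d ≤ τ / ((u + τ) / 4) := div_le_div_of_nonneg_left hτ.le (by positivity) hd
      have e : (u + 5 * τ) / (u + τ) = 1 + τ / ((u + τ) / 4) := by field_simp; ring
      linarith
    calc q * A ^ 2 ≤ (u + τ) * ((u + 5 * τ) / (u + τ)) ^ 2 := by gcongr
      _ = (u + 5 * τ) ^ 2 / (u + τ) := by field_simp
      _ ≤ u + 25 * τ := by rw [div_le_iff₀ (by positivity)]; nlinarith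
  have h4 : u * (V / q * (2 * Y)) ≤ 256 * (u / (u + τ / 2) - u / (u + τ)) := by
    have e1 : u * (V / q * (2 * Y)) = 4 * Real.pi * (τ * u) / (q * d) := by
      rw [hY]; field_simp; ring
    have e2 : 256 * (u / (u + τ / 2) - u / (u + τ)) = 16 * (τ * u) / ((u + τ / 2) / 2 * ((u + τ) / 4)) := by
      field_simp; ring
    rw [e1, e2]
    gcongr
    · linarith
    · linarith
  have h5 : V * (u / (u + 25 * τ)) ≤ u * (V / q * (1 / A ^ 2)) := by
    calc V * (u / (u + 25 * τ)) = (u * V) * (1 / (u + 25 * τ)) := by ring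
      _ ≤ (u * V) * (1 / q * (1 / A ^ 2)) := by gcongr
      _ = _ := by ring
  have h6 := mul_le_mul_of_nonneg_left h2 hu.le
  rw [mul_sub, mul_sub] at h6
  linarith

lemma num2 {u v l x τ : ℝ} (hτ0 : 0 < τ) (hτ : τ ≤ 2 * v) (hx : 0 < x) (hxu : x ≤ u) (hu : u ≤ 1)
    (hl : 0 < l) (hlv : 2 * (1 - v) * l ≤ v) :
    l - v * (u / (u + 25 * τ)) / 2 ≤ l ^ 2 / (x / 102 + l) := by
  have hu0 : 0 < u := by linarith
  have hv : 0 < v := by linarith
  set s := x / 102 with hs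
  have hs0 : 0 < s := by positivity
  have hsu : 102 * s ≤ u := by linarith
  clear_value s
  have e : l ^ 2 / (s + l) = l - l * s / (s + l) := by field_simp; ring
  have h1 : u / (u + 50 * v) ≤ u / (u + 25 * τ) :=
    div_le_div_of_nonneg_left hu0.le (by positivity) (by linarith)
  have h2 : l * s / (s + l) ≤ v * (u / (u + 50 * v)) / 2 := by
    rw [← mul_div_assoc v, div_div, div_le_div_iff₀ (by positivity) (by positivity)]
    have h3 : 2 * l * (u * s) ≤ (v + 2 * v * l) * (u * s) :=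
      mul_le_mul_of_nonneg_right (by linarith) (by positivity)
    have h4 : (v * l) * (s * (2 * u + 100)) ≤ (v * l) * u :=
      mul_le_mul_of_nonneg_left (by nlinarith) (by positivity)
    nlinarith
  nlinarith

lemma level (ρ : ℕ → ℝ) (S : Finset ℕ) {τ : ℝ} (hτ : 0 < τ) (hτ1 : τ ≤ 1)
    (hρ : ∀ j ∈ S, 0 < ρ j ∧ ρ j < 1 ∧ τ ≤ 2 * (1 - ρ j ^ 2) ∧ 1 - ρ j ^ 2 ≤ τ) :
    ∃ θ : ℕ → ℝ, ∀ z : ℂ, ‖z‖ < 1 →
      ∑ j ∈ S, (-Real.log (ρ j) -
        (1 - ‖z‖ ^ 2) * ((1 - ρ j ^ 2) * (‖exp (θ j * I) - ρ j * z‖ ^ 2)⁻¹) / 2) ≤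
      ∑ j ∈ S, (-Real.log (ρ j)) ^ 2 / ((1 - ‖z‖) / 102 + -Real.log (ρ j)) +
        128 * ((1 - ‖z‖ ^ 2) / ((1 - ‖z‖ ^ 2) + τ / 2) - (1 - ‖z‖ ^ 2) / ((1 - ‖z‖ ^ 2) + τ)) := by
  have hpi := Real.pi_pos
  rcases S.eq_empty_or_nonempty with rfl | hne
  · refine ⟨fun _ => 0, fun z hz => ?_⟩
    have hu : 0 < 1 - ‖z‖ ^ 2 := by nlinarith [norm_nonneg z]
    have : (1 - ‖z‖ ^ 2) / ((1 - ‖z‖ ^ 2) + τ) ≤ (1 - ‖z‖ ^ 2) / ((1 - ‖z‖ ^ 2) + τ / 2) :=
      div_le_div_of_nonneg_left hu.le (by positivity) (by linarith)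
    simp only [Finset.sum_empty]
    linarith
  set V := ∑ j ∈ S, (1 - ρ j ^ 2) with hV
  have hV0 : 0 < V := Finset.sum_pos (fun j hj => by linarith [(hρ j hj).2.2.1]) hne
  obtain ⟨θ, hθ⟩ := riem (fun j => 2 * Real.pi / V * (1 - ρ j ^ 2)) S fun j hj =>
    mul_nonneg (by positivity) (by linarith [(hρ j hj).2.2.1])
  have hsum : ∑ j ∈ S, 2 * Real.pi / V * (1 - ρ j ^ 2) = 2 * Real.pi := by
    rw [← Finset.mul_sum, ← hV]; field_simp
  rw [hsum] at hθ
  refine ⟨θ, fun z hz => ?_⟩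
  have hz0 := norm_nonneg z
  set u := 1 - ‖z‖ ^ 2 with hu
  have hu0 : 0 < u := by nlinarith
  have hu1 : u ≤ 1 := by nlinarith
  set σ := Real.sqrt (1 - τ) with hσ
  have hσ0 : 0 ≤ σ := Real.sqrt_nonneg _
  have hσ2 : σ ^ 2 = 1 - τ := Real.sq_sqrt (by linarith)
  have hσ1 : σ ≤ 1 := by nlinarith
  have hw : ‖(σ : ℂ) * z‖ = σ * ‖z‖ := by rw [norm_mul, norm_real, Real.norm_of_nonneg hσ0]
  have hw1 : σ * ‖z‖ < 1 := by nlinarith
  have hlow : ∀ t : ℝ, 1 - σ * ‖z‖ ≤ ‖exp (t * I) - σ * z‖ := fun t => by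
    have := norm_sub_norm_le (exp (t * I)) (σ * z)
    rwa [norm_exp_ofReal_mul_I, hw] at this
  set Q := 1 + τ / (1 - σ * ‖z‖) + 2 * Real.pi * τ / V / (1 - σ * ‖z‖) with hQ
  have key := hθ (fun t => (‖exp (t * I) - σ * z‖ ^ 2)⁻¹)
    (Continuous.inv₀ (by fun_prop) fun t => (pow_pos (lt_of_lt_of_le (by linarith) (hlow t)) 2).ne')
    (fun j => Q ^ 2 * (‖exp (θ j * I) - ρ j * z‖ ^ 2)⁻¹) fun j hj t ht => by
      obtain ⟨h0, h1, h2, h3⟩ := hρ j hj
      have hd : 0 < 1 - σ * ‖z‖ := by linarith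
      have hp : 0 < ‖exp (θ j * I) - ρ j * z‖ := by
        have := norm_sub_norm_le (exp (θ j * I)) (ρ j * z)
        rw [norm_exp_ofReal_mul_I, norm_mul, norm_real, Real.norm_of_nonneg h0.le] at this
        nlinarith
      have hσρ : σ ≤ ρ j := by
        by_contra hc
        push Not at hc
        nlinarith
      have e1 : ‖exp (θ j * I) - exp (t * I)‖ ≤ 2 * Real.pi * τ / V := by
        have := (lipschitzWith_circleMap 0 1).dist_le_mul (θ j) t
        simp only [circleMap, dist_eq_norm] at this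
        have h5 : 2 * Real.pi / V * (1 - ρ j ^ 2) ≤ 2 * Real.pi / V * τ := by gcongr
        rw [abs_sub_comm] at ht
        have h6 : ‖exp (θ j * I) - exp (t * I)‖ ≤ |θ j - t| := by simpa using this
        calc _ ≤ 2 * Real.pi / V * τ := by linarith
          _ = _ := by ring
      have e2 : ‖(σ : ℂ) * z - ρ j * z‖ ≤ τ := by
        rw [← sub_mul, ← ofReal_sub, norm_mul, norm_real, Real.norm_eq_abs, abs_sub_comm,
          abs_of_nonneg (by linarith)]
        nlinarith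
      have e3 : ‖exp (θ j * I) - ρ j * z‖ ≤ Q * ‖exp (t * I) - σ * z‖ := by
        have e4 : exp (θ j * I) - ρ j * z = (exp (t * I) - σ * z) + (σ * z - ρ j * z) +
          (exp (θ j * I) - exp (t * I)) := by ring
        have e5 : ∀ c : ℝ, 0 ≤ c → c ≤ c / (1 - σ * ‖z‖) * ‖exp (t * I) - σ * z‖ := fun c hc => by
          rw [div_mul_eq_mul_div, le_div_iff₀ hd]
          exact mul_le_mul_of_nonneg_left (hlow t) hc
        have e6 := e5 τ hτ.le
        have e7 := e5 (2 * Real.pi * τ / V) (by positivity)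
        rw [e4]
        refine (norm_add₃_le).trans ?_
        rw [hQ]
        linarith
      have hp2 : 0 < ‖exp (t * I) - σ * z‖ := hd.trans_le (hlow t)
      rw [← div_eq_mul_inv, le_div_iff₀ (by positivity), inv_mul_le_iff₀ (by positivity),
        ← mul_pow]
      exact pow_le_pow_left₀ hp.le (e3.trans (mul_comm _ _).le) 2
  rw [pois (by rwa [hw]), hw] at key
  have key2 := num1 (P := ∑ j ∈ S, (1 - ρ j ^ 2) * (‖exp (θ j * I) - ρ j * z‖ ^ 2)⁻¹) hu0 hu1 hτ hτ1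
    (s := σ * ‖z‖) (by positivity) (by rw [mul_pow, hσ2, hu]; ring) hV0 (key.trans (le_of_eq (by
      rw [Finset.mul_sum]
      exact Finset.sum_congr rfl fun j _ => by ring)))
  have key3 : ∑ j ∈ S, (-Real.log (ρ j) - (1 - ρ j ^ 2) * (u / (u + 25 * τ)) / 2) ≤
      ∑ j ∈ S, (-Real.log (ρ j)) ^ 2 / ((1 - ‖z‖) / 102 + -Real.log (ρ j)) := by
    refine Finset.sum_le_sum fun j hj => ?_
    obtain ⟨h0, h1, h2, h3⟩ := hρ j hj
    refine num2 hτ h2 (by linarith) (by nlinarith) hu1 (by linarith [Real.log_neg h0 h1]) ?_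
    have h4 := Real.log_le_sub_one_of_pos (x := (ρ j ^ 2)⁻¹) (by positivity)
    rw [Real.log_inv, Real.log_pow] at h4
    have h5 : ρ j ^ 2 * (ρ j ^ 2)⁻¹ = 1 := mul_inv_cancel₀ (by positivity)
    have h6 := mul_le_mul_of_nonneg_left h4 (sq_nonneg (ρ j))
    push_cast at h6
    nlinarith
  rw [Finset.sum_sub_distrib, ← Finset.sum_div, ← Finset.sum_mul, ← hV] at key3
  rw [Finset.sum_sub_distrib, ← Finset.sum_div, ← Finset.mul_sum]
  linarith

end Pool.Agent.H94.ZR
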