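import Pool.Agent.H94.ZR1
import Pool.Agent.H94.ZR2
import Pool.Agent.H94.SL1

set_option autoImplicit false

namespace Pool.Agent.H94.ZR

open Set Filter Topology MeasureTheory Complex Metric

lemma den_pos {ρ θ : ℝ} {z : ℂ} (h0 : 0 < ρ) (h1 : ρ < 1) (hz : ‖z‖ < 1) :
    0 < ‖exp (θ * I) - ρ * z‖ := by
  have := norm_sub_norm_le (exp (θ * I)) (ρ * z)
  rw [norm_exp_ofReal_mul_I, norm_mul, norm_real, Real.norm_of_nonneg h0.le] at this
  nlinarith [norm_nonneg z]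

lemma bl {ρ θ : ℝ} {z : ℂ} (h0 : 0 < ρ) (h1 : ρ < 1) (hz : ‖z‖ < 1) :
    ‖(ρ * exp (θ * I) - z) / (ρ * (exp (θ * I) - ρ * z))‖ ≤
      Real.exp (-Real.log ρ -
        (1 - ‖z‖ ^ 2) * ((1 - ρ ^ 2) * (‖exp (θ * I) - ρ * z‖ ^ 2)⁻¹) / 2) := by
  have hd := den_pos (θ := θ) h0 h1 hz
  have he : ‖exp (θ * I)‖ ^ 2 = 1 := by rw [norm_exp_ofReal_mul_I]; norm_num
  have hid : ‖ρ * exp (θ * I) - z‖ ^ 2 =
      ‖exp (θ * I) - ρ * z‖ ^ 2 - (1 - ‖z‖ ^ 2) * (1 - ρ ^ 2) := by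
    generalize exp (θ * I) = e at he
    simp only [Complex.sq_norm, normSq_apply, sub_re, sub_im, mul_re, mul_im, ofReal_re,
      ofReal_im] at he ⊢
    linear_combination (ρ ^ 2 - 1) * he
  set y := (1 - ‖z‖ ^ 2) * ((1 - ρ ^ 2) * (‖exp (θ * I) - ρ * z‖ ^ 2)⁻¹) with hy
  have h2 : ‖ρ * exp (θ * I) - z‖ ≤ Real.exp (-(y / 2)) * ‖exp (θ * I) - ρ * z‖ := by
    refine (pow_le_pow_iff_left₀ (norm_nonneg _) (by positivity) two_ne_zero).1 ?_
    rw [mul_pow, ← Real.exp_nat_mul, hid]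
    have h3 := Real.add_one_le_exp (((2 : ℕ) : ℝ) * -(y / 2))
    have h4 : (((2 : ℕ) : ℝ) * -(y / 2) + 1) * ‖exp (θ * I) - ρ * z‖ ^ 2 =
        ‖exp (θ * I) - ρ * z‖ ^ 2 - (1 - ‖z‖ ^ 2) * (1 - ρ ^ 2) := by
      rw [hy]; push_cast; field_simp; ring
    rw [← h4]
    exact mul_le_mul_of_nonneg_right h3 (by positivity)
  rw [norm_div, norm_mul, norm_real, Real.norm_of_nonneg h0.le, div_le_iff₀ (by positivity),
    sub_eq_add_neg (-Real.log ρ), Real.exp_add, Real.exp_neg (Real.log ρ), Real.exp_log h0]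
  refine h2.trans (le_of_eq ?_)
  field_simp

lemma approx (ρ : ℕ → ℝ) (h0 : ∀ j, 0 < ρ j) (h1 : ∀ j, ρ j < 1)
    (hfin : ∀ t : ℝ, t < 1 → {j : ℕ | ρ j ≤ t}.Finite) :
    ∃ (θ : ℕ → ℝ) (T : ℕ → Finset ℕ) (F : ℕ → ℂ → ℂ),
      (∀ K, DifferentiableOn ℂ (F K) (ball 0 1)) ∧ (∀ K, ‖F K 0‖ = 1) ∧
      (∀ j, ∀ᶠ K in atTop, F K (ρ j * exp (θ j * I)) = 0) ∧
      ∀ K z, ‖z‖ < 1 → ‖F K z‖ ≤ Real.exp (∑ j ∈ T K,
        (-Real.log (ρ j)) ^ 2 / ((1 - ‖z‖) / 102 + -Real.log (ρ j)) + 128) := by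
  classical
  have hl : ∀ j, ∃ k : ℕ, (1 / 2 : ℝ) ^ (k + 1) < 1 - ρ j ^ 2 ∧ 1 - ρ j ^ 2 ≤ (1 / 2) ^ k :=
    fun j => exists_nat_pow_near_of_lt_one (by nlinarith [h0 j, h1 j]) (by nlinarith [h0 j])
      (by norm_num) (by norm_num)
  choose lev hlev using hl
  have hS : ∀ k, {j | lev j = k}.Finite := fun k => by
    refine (hfin (1 - (1 / 2) ^ (k + 1) / 2) (by
      have : (0 : ℝ) < (1 / 2) ^ (k + 1) := by positivity
      linarith)).subset fun j hj => ?_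
    have h2 := (hlev j).1
    rw [show lev j = k from hj] at h2
    show ρ j ≤ _
    nlinarith [h0 j, h1 j]
  set S : ℕ → Finset ℕ := fun k => (hS k).toFinset with hSdef
  have hmem : ∀ k j, j ∈ S k ↔ lev j = k := fun k j => by simp [hSdef]
  have hθ := fun k => level ρ (S k) (τ := (1 / 2) ^ k) (by positivity)
    (pow_le_one₀ (by norm_num) (by norm_num)) fun j hj => by
      have h2 := hlev j
      rw [(hmem k j).1 hj, pow_succ] at h2
      exact ⟨h0 j, h1 j, by linarith [h2.1], h2.2⟩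
  choose θ hθ using hθ
  refine ⟨fun j => θ (lev j) j, fun K => (Finset.range K).biUnion S,
    fun K z => ∏ j ∈ (Finset.range K).biUnion S, (ρ j * exp (θ (lev j) j * I) - z) /
      (ρ j * (exp (θ (lev j) j * I) - ρ j * z)), fun K => ?_, fun K => ?_, fun j => ?_,
    fun K z hz => ?_⟩
  · refine DifferentiableOn.fun_finsetProd fun j _ => DifferentiableOn.div (by fun_prop)
      (by fun_prop) fun z hz => mul_ne_zero (ofReal_ne_zero.2 (h0 j).ne')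
        (norm_pos_iff.1 (den_pos (h0 j) (h1 j) (by simpa using hz)))
  · rw [norm_prod]
    refine Finset.prod_eq_one fun j _ => ?_
    rw [sub_zero, mul_zero, sub_zero,
      div_self (mul_ne_zero (ofReal_ne_zero.2 (h0 j).ne') (exp_ne_zero _)), norm_one]
  · filter_upwards [eventually_gt_atTop (lev j)] with K hK
    refine Finset.prod_eq_zero (i := j) (Finset.mem_biUnion.2
      ⟨lev j, Finset.mem_range.2 hK, (hmem _ _).2 rfl⟩) ?_
    rw [sub_self, zero_div]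
  · have hdis : Set.PairwiseDisjoint (↑(Finset.range K) : Set ℕ) S := fun a _ b _ hab =>
      Finset.disjoint_left.2 fun j ha hb => hab (((hmem _ _).1 ha).symm.trans ((hmem _ _).1 hb))
    rw [norm_prod]
    refine (Finset.prod_le_prod (fun j _ => norm_nonneg _)
      fun j _ => bl (h0 j) (h1 j) hz).trans ?_
    rw [← Real.exp_sum, Real.exp_le_exp, Finset.sum_biUnion hdis, Finset.sum_biUnion hdis]
    have hu : 0 < 1 - ‖z‖ ^ 2 := by nlinarith [norm_nonneg z]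
    have ht := Finset.sum_range_sub
      (fun k : ℕ => (1 - ‖z‖ ^ 2) / ((1 - ‖z‖ ^ 2) + (1 / 2 : ℝ) ^ k)) K
    have ha : (1 - ‖z‖ ^ 2) / ((1 - ‖z‖ ^ 2) + (1 / 2 : ℝ) ^ K) ≤ 1 := by
      rw [div_le_one (by positivity)]
      have : (0 : ℝ) < (1 / 2) ^ K := by positivity
      linarith
    have hb : 0 ≤ (1 - ‖z‖ ^ 2) / ((1 - ‖z‖ ^ 2) + (1 / 2 : ℝ) ^ 0) := by positivity
    refine (Finset.sum_le_sum (g := fun k => ∑ j ∈ S k,
      (-Real.log (ρ j)) ^ 2 / ((1 - ‖z‖) / 102 + -Real.log (ρ j)) + 128 *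
        ((1 - ‖z‖ ^ 2) / ((1 - ‖z‖ ^ 2) + (1 / 2 : ℝ) ^ (k + 1)) -
          (1 - ‖z‖ ^ 2) / ((1 - ‖z‖ ^ 2) + (1 / 2 : ℝ) ^ k))) fun k _ => ?_).trans ?_
    · have h2 := hθ k z hz
      rw [show (1 / 2 : ℝ) ^ (k + 1) = (1 / 2) ^ k / 2 by ring]
      refine le_trans (le_of_eq (Finset.sum_congr rfl fun j hj => ?_)) h2
      rw [(hmem k j).1 hj]
    · rw [Finset.sum_add_distrib, ← Finset.mul_sum, ht]
      linarith

lemma gmontel (F : ℕ → ℂ → ℂ) (hF : ∀ K, DifferentiableOn ℂ (F K) (ball 0 1))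
    (hb : ∀ r ∈ Ioo (0 : ℝ) 1, ∃ M, ∀ K z, ‖z‖ ≤ r → ‖F K z‖ ≤ M) :
    ∃ (U : Ultrafilter ℕ) (f : ℂ → ℂ), (U : Filter ℕ) ≤ atTop ∧ DifferentiableOn ℂ f (ball 0 1) ∧
      ∀ z ∈ ball (0 : ℂ) 1, Tendsto (F · z) U (𝓝 (f z)) := by
  set U := Ultrafilter.of (atTop : Filter ℕ)
  have key : ∀ w ∈ ball (0 : ℂ) 1, ∃ H : ℂ → ℂ, DifferentiableOn ℂ H (ball w ((1 - ‖w‖) / 4)) ∧
      ∀ x ∈ ball w ((1 - ‖w‖) / 4), Tendsto (F · x) U (𝓝 (H x)) := fun w hw => by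
    have hw1 : ‖w‖ < 1 := by simpa using hw
    obtain ⟨M, hM⟩ := hb ((1 + ‖w‖) / 2) ⟨by positivity, by linarith⟩
    have hsub : ∀ x ∈ ball w (2 * ((1 - ‖w‖) / 4)), ‖x‖ ≤ (1 + ‖w‖) / 2 := fun x hx => by
      rw [mem_ball_iff_norm] at hx
      linarith [norm_sub_norm_le x w]
    obtain ⟨H, h1, h2⟩ := SL.montel U F (w := w) (r := (1 - ‖w‖) / 4) (M := M) (by linarith)
      (Eventually.of_forall fun K => ⟨(hF K).mono fun x hx => by
        have := hsub x hx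
        rw [mem_ball_zero_iff]; linarith, fun x hx => hM K x (hsub x hx)⟩)
    exact ⟨H, h1, fun x hx => (h2 x hx).1⟩
  have h1 : ∀ z, ∃ c, z ∈ ball (0 : ℂ) 1 → Tendsto (F · z) U (𝓝 c) := fun z => by
    by_cases hz : z ∈ ball (0 : ℂ) 1
    · obtain ⟨H, -, h⟩ := key z hz
      exact ⟨H z, fun _ => h z (mem_ball_self (by have : ‖z‖ < 1 := by simpa using hz
                                                  linarith))⟩
    · exact ⟨0, fun h => absurd h hz⟩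
  choose f hf using h1
  refine ⟨U, f, Ultrafilter.of_le _, fun w hw => ?_, hf⟩
  obtain ⟨H, h1, h2⟩ := key w hw
  have hw1 : ‖w‖ < 1 := by simpa using hw
  have hn : ball w ((1 - ‖w‖) / 4) ∈ 𝓝 w := ball_mem_nhds _ (by linarith)
  refine ((h1.differentiableAt hn).congr_of_eventuallyEq ?_).differentiableWithinAt
  filter_upwards [hn, isOpen_ball.mem_nhds hw] with x hx hx'
  exact tendsto_nhds_unique (hf x hx') (h2 x hx)

theorem main {p α : ℝ} (hp : 0 < p) (hα : -1 < α) (ρ : ℕ → ℝ) {m : ℝ} (hm0 : 0 < m)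
    (hm : ∀ j, m ≤ ρ j) (h1 : ∀ j, ρ j < 1) (hfin : ∀ t : ℝ, t < 1 → {j : ℕ | ρ j ≤ t}.Finite)
    (hG : IntegrableOn (fun r : ℝ => (1 - r) ^ α *
      Real.exp (p * ∫ t in (0 : ℝ)..r, (Nat.card {j : ℕ // ρ j ≤ t} : ℝ) / t)) (Ioo 0 1)) :
    ∃ θ : ℕ → ℝ, ∃ f : ℂ → ℂ, DifferentiableOn ℂ f (ball 0 1) ∧
      IntegrableOn (fun z : ℂ => (1 - ‖z‖ ^ 2) ^ α * ‖f z‖ ^ p) (ball 0 1) ∧
      f 0 ≠ 0 ∧ ∀ j, f (ρ j * exp (θ j * I)) = 0 := by
  have h0 : ∀ j, 0 < ρ j := fun j => hm0.trans_le (hm j)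
  have hl : ∀ j, 0 < -Real.log (ρ j) := fun j => by linarith [Real.log_neg (h0 j) (h1 j)]
  obtain ⟨Φ, hΦi, hΦ⟩ := partA (B := 102) hp hα (by norm_num) (fun j => -Real.log (ρ j)) hl hG
    fun r hr J => by simpa only [sub_eq_add_neg] using N_lb ρ hm0 hm hfin hr.1 hr.2 J
  obtain ⟨θ, T, F, hFd, hF0, hFz, hFb⟩ := approx ρ h0 h1 hfin
  obtain ⟨U, f, hU, hfd, hf⟩ := gmontel F hFd fun r hr => by
    refine ⟨Real.exp (Φ (1 - r) / (1 - r) ^ α / p + 128), fun K z hz => ?_⟩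
    refine (hFb K z (hz.trans_lt hr.2)).trans (Real.exp_le_exp.2 (add_le_add_left ?_ _))
    have hr1 : 0 < 1 - r := by linarith [hr.2]
    have h2 := hΦ (1 - r) ⟨hr1, by linarith [hr.1]⟩ (T K)
    have h3 : ∑ j ∈ T K, (-Real.log (ρ j)) ^ 2 / ((1 - ‖z‖) / 102 + -Real.log (ρ j)) ≤
        ∑ j ∈ T K, (-Real.log (ρ j)) ^ 2 / ((1 - r) / 102 + -Real.log (ρ j)) :=
      Finset.sum_le_sum fun j _ => by
        have := hl j
        gcongr
    refine h3.trans ?_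
    have hx : 0 < (1 - r) ^ α := by positivity
    rw [le_div_iff₀ hp, le_div_iff₀ hx]
    have h4 := Real.add_one_le_exp
      (p * ∑ j ∈ T K, (-Real.log (ρ j)) ^ 2 / ((1 - r) / 102 + -Real.log (ρ j)))
    nlinarith
  refine ⟨θ, f, hfd, ?_, ?_, fun j => ?_⟩
  · have hΨ : IntegrableOn (fun z : ℂ => Φ (1 - ‖z‖)) (ball 0 1) := by
      refine (integrableOn_fun_norm_addHaar (volume : Measure ℂ) (f := fun y => Φ (1 - y))).2 ?_
      have h2 := (((intervalIntegrable_iff_integrableOn_Ioo_of_le zero_le_one).2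
        hΦi).comp_sub_left 1).symm
      rw [sub_self, sub_zero] at h2
      exact (intervalIntegrable_iff_integrableOn_Ioo_of_le zero_le_one).1
        (h2.continuousOn_mul (g := fun y : ℝ => y ^ (Module.finrank ℝ ℂ - 1)) (by fun_prop))
    refine Integrable.mono' (hΨ.const_mul (2 ^ |α| * Real.exp (p * 128))) ?_ ?_
    · refine ContinuousOn.aestronglyMeasurable (ContinuousOn.mul
        (ContinuousOn.rpow_const (by fun_prop) fun z hz => Or.inl ?_)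
        (hfd.continuousOn.norm.rpow_const fun _ _ => Or.inr hp.le)) measurableSet_ball
      have : ‖z‖ < 1 := by simpa using hz
      nlinarith [norm_nonneg z]
    · have hne : ∀ᵐ z : ℂ ∂(volume.restrict (ball (0 : ℂ) 1)), z ≠ 0 :=
        ae_restrict_of_ae (by simp [ae_iff])
      filter_upwards [ae_restrict_mem measurableSet_ball, hne] with z hz hz0
      have hz1 : ‖z‖ < 1 := by simpa using hz
      have hzp : 0 < ‖z‖ := norm_pos_iff.2 hz0
      have hx : 0 < 1 - ‖z‖ := by linarith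
      have hu : 0 < 1 - ‖z‖ ^ 2 := by nlinarith
      rw [Real.norm_of_nonneg (by positivity)]
      have hc : Tendsto (fun K => (1 - ‖z‖ ^ 2) ^ α * ‖F K z‖ ^ p) U
          (𝓝 ((1 - ‖z‖ ^ 2) ^ α * ‖f z‖ ^ p)) :=
        (((hf z hz).norm).rpow_const (Or.inr hp.le)).const_mul _
      refine le_of_tendsto' hc fun K => ?_
      have h2 := hΦ (1 - ‖z‖) ⟨hx, by linarith⟩ (T K)
      have h3 := Real.rpow_le_rpow (norm_nonneg _) (hFb K z hz1) hp.le
      rw [← Real.exp_mul, mul_comm _ p, mul_add, Real.exp_add] at h3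
      have h4 : (1 - ‖z‖ ^ 2) ^ α ≤ 2 ^ |α| * (1 - ‖z‖) ^ α := by
        rw [show 1 - ‖z‖ ^ 2 = (1 + ‖z‖) * (1 - ‖z‖) by ring,
          Real.mul_rpow (by positivity) hx.le]
        refine mul_le_mul_of_nonneg_right ?_ (by positivity)
        exact (Real.rpow_le_rpow_of_exponent_le (by linarith) (le_abs_self α)).trans
          (Real.rpow_le_rpow (by positivity) (by linarith) (abs_nonneg α))
      calc _ ≤ (2 ^ |α| * (1 - ‖z‖) ^ α) * (Real.exp (p * ∑ j ∈ T K, (-Real.log (ρ j)) ^ 2 /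
            ((1 - ‖z‖) / 102 + -Real.log (ρ j))) * Real.exp (p * 128)) :=
            mul_le_mul h4 h3 (by positivity) (by positivity)
        _ = (2 ^ |α| * Real.exp (p * 128)) * ((1 - ‖z‖) ^ α * Real.exp (p * ∑ j ∈ T K,
            (-Real.log (ρ j)) ^ 2 / ((1 - ‖z‖) / 102 + -Real.log (ρ j)))) := by ring
        _ ≤ _ := mul_le_mul_of_nonneg_left h2 (by positivity)
  · have h2 := (hf 0 (mem_ball_self one_pos)).norm
    simp only [hF0] at h2
    have h3 := tendsto_nhds_unique h2 tendsto_const_nhds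
    intro h
    rw [h, norm_zero] at h3
    exact zero_ne_one h3
  · have hz : (ρ j : ℂ) * exp (θ j * I) ∈ ball (0 : ℂ) 1 := by
      rw [mem_ball_zero_iff, norm_mul, norm_exp_ofReal_mul_I, norm_real,
        Real.norm_of_nonneg (h0 j).le, mul_one]
      exact h1 j
    exact tendsto_nhds_unique (hf _ hz)
      (tendsto_const_nhds.congr' (((hFz j).filter_mono hU).mono fun K hK => hK.symm))

lemma rot (d : ℂ) (θ : ℝ) : ∃ φ ∈ Ico (0 : ℝ) (2 * Real.pi),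
    d * exp (φ * I) = (‖d‖ : ℝ) * exp (θ * I) := by
  have hp : 0 < 2 * Real.pi := by linarith [Real.pi_pos]
  refine ⟨toIcoMod hp 0 (θ - arg d), toIcoMod_mem_Ico' hp _, ?_⟩
  have h := toIcoMod_add_toIcoDiv_zsmul hp 0 (θ - arg d)
  set n := toIcoDiv hp 0 (θ - arg d)
  have h2 : toIcoMod hp 0 (θ - arg d) = θ - arg d - n * (2 * Real.pi) := by
    rw [zsmul_eq_mul] at h; linarith
  rw [h2]
  nth_rewrite 1 [← norm_mul_exp_arg_mul_I d]
  rw [mul_assoc, ← exp_add]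
  congr 1
  rw [exp_eq_exp_iff_exists_int]
  exact ⟨-n, by push_cast; ring⟩

end Pool.Agent.H94.ZR
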